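import Pool.Agent.ADC.Defs
import Pool.Agent.AD.Tlat
import Pool.Agent.AD.Words
import Pool.Agent.ADN.FgeT

/-!
# ADC-Bas: basic facts
-/

namespace ADC

open AD ADN

theorem mon_nil : mon [] = 1 := by simp [mon]
theorem mon_cons (a : ℕ) (w : List ℕ) : mon (a :: w) = X a * mon w := by simp [mon]
theorem mon_append (u v : List ℕ) : mon (u ++ v) = mon u * mon v := words_mon_append u v
theorem mon_single (a : ℕ) : mon [a] = X a := by simp [mon]

/-- induction over the words -/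
theorem ind_mon {C : P → Prop} (h0 : C 0) (ha : ∀ f g, C f → C g → C (f + g))
    (hs : ∀ (c : ℤ) f, C f → C (c • f)) (hm : ∀ w, C (mon w)) (f : P) : C f := by
  obtain ⟨s, -, hf⟩ := eq_sum_cf f
  rw [hf]
  clear hf
  classical
  induction s using Finset.induction_on with
  | empty => simpa using h0
  | insert a s ha' ih => rw [Finset.sum_insert ha']; exact ha _ _ (hs _ _ (hm _)) ih

theorem lm_ext {M : Type} [AddCommGroup M] {φ ψ : P →ₗ[ℤ] M} (h : ∀ w, φ (mon w) = ψ (mon w)) : φ = ψ := by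
  ext f
  refine ind_mon (C := fun f => φ f = ψ f) (by simp) ?_ ?_ h f
  · intro f g hf hg; rw [map_add, map_add, hf, hg]
  · intro c f hf; rw [map_smul, map_smul, hf]

theorem wp_mon (φ : List ℕ → Prop) [DecidablePred φ] (w : List ℕ) :
    wp φ (mon w) = if φ w then mon w else 0 := by
  unfold wp
  rw [lm_mon]
  by_cases h : φ w <;> simp [h]

theorem wp_pos {φ : List ℕ → Prop} {w : List ℕ} (h : φ w) : wp φ (mon w) = mon w := by
  classical
  rw [wp_mon, if_pos h]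

theorem wp_neg {φ : List ℕ → Prop} {w : List ℕ} (h : ¬ φ w) : wp φ (mon w) = 0 := by
  classical
  rw [wp_mon, if_neg h]

theorem wp_wp (φ ψ : List ℕ → Prop) (f : P) : wp φ (wp ψ f) = wp (fun w => φ w ∧ ψ w) f := by
  classical
  refine ind_mon (C := fun f => wp φ (wp ψ f) = wp (fun w => φ w ∧ ψ w) f) (by simp) ?_ ?_ ?_ f
  · intro f g hf hg; rw [map_add, map_add, hf, hg, map_add]
  · intro c f hf; rw [map_smul, map_smul, hf, map_smul]
  · intro w
    by_cases h : ψ w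
    · rw [wp_pos h]
      by_cases h' : φ w
      · rw [wp_pos h', wp_pos (φ := fun w => φ w ∧ ψ w) ⟨h', h⟩]
      · rw [wp_neg h', wp_neg (φ := fun w => φ w ∧ ψ w) (fun h'' => h' h''.1)]
    · rw [wp_neg h, map_zero, wp_neg (φ := fun w => φ w ∧ ψ w) (fun h'' => h h''.2)]

theorem wp_congr {φ ψ : List ℕ → Prop} (h : ∀ w, φ w ↔ ψ w) : wp φ = wp ψ := by
  have : φ = ψ := funext fun w => propext (h w)
  rw [this]

theorem wp_add_not (φ : List ℕ → Prop) (f : P) : wp φ f + wp (fun w => ¬ φ w) f = f := by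
  classical
  refine ind_mon (C := fun f => wp φ f + wp (fun w => ¬ φ w) f = f) (by simp) ?_ ?_ ?_ f
  · intro f g hf hg
    rw [map_add, map_add]
    calc _ = (wp φ f + wp (fun w => ¬ φ w) f) + (wp φ g + wp (fun w => ¬ φ w) g) := by abel
      _ = _ := by rw [hf, hg]
  · intro c f hf; rw [map_smul, map_smul, ← smul_add, hf]
  · intro w
    by_cases h : φ w
    · rw [wp_pos h, wp_neg (φ := fun w => ¬ φ w) (fun h' => h' h), add_zero]
    · rw [wp_neg h, wp_pos (φ := fun w => ¬ φ w) h, zero_add]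

theorem wp_mem (φ : List ℕ → Prop) (f : P) : wp φ f ∈ Submodule.span ℤ {f | ∃ w, φ w ∧ f = mon w} := by
  classical
  refine ind_mon (C := fun f => wp φ f ∈ Submodule.span ℤ {f | ∃ w, φ w ∧ f = mon w}) (by simp) ?_ ?_ ?_ f
  · intro f g hf hg; rw [map_add]; exact Submodule.add_mem _ hf hg
  · intro c f hf; rw [map_smul]; exact Submodule.smul_mem _ _ hf
  · intro w
    by_cases h : φ w
    · rw [wp_pos h]; exact Submodule.subset_span ⟨w, h, rfl⟩
    · rw [wp_neg h]; exact Submodule.zero_mem _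

theorem wp_id {φ : List ℕ → Prop} {f : P} (h : f ∈ Submodule.span ℤ {f | ∃ w, φ w ∧ f = mon w}) :
    wp φ f = f := by
  induction h using Submodule.span_induction with
  | mem x hx => obtain ⟨w, hw, rfl⟩ := hx; exact wp_pos hw
  | zero => simp
  | add x y _ _ hx hy => rw [map_add, hx, hy]
  | smul c x _ hx => rw [map_smul, hx]

theorem sb_mon (φ : ℕ → P) (w : List ℕ) : sb φ (mon w) = (w.map φ).prod := by
  induction w with
  | nil => simp [mon_nil]
  | cons a w ih => rw [mon_cons, map_mul, sb_X, ih]; simp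

theorem aug_X (i : ℕ) : aug (X i) = 0 := by
  unfold aug
  exact FreeAlgebra.lift_ι_apply _ _

theorem mem_Pp {f : P} : f ∈ Pp ↔ aug f = 0 := Iff.rfl

theorem X_mem (i : ℕ) : X i ∈ Pp := aug_X i

theorem mon_mem {w : List ℕ} (h : w ≠ []) : mon w ∈ Pp := by
  obtain ⟨a, t, rfl⟩ := List.exists_cons_of_ne_nil h
  rw [mon_cons, mem_Pp, map_mul, aug_X, zero_mul]

theorem sb_isSubst {φ : ℕ → P} (h : ∀ i, φ i ∈ Pp) : IsSubst (sb φ) := by
  intro i
  rw [sb_X]
  exact h i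

theorem sb_mem {I : Submodule ℤ P} (hI : IsT I) {φ : ℕ → P} (h : ∀ i, φ i ∈ Pp) {f : P} (hf : f ∈ I) :
    sb φ f ∈ I := hI.subst _ (sb_isSubst h) f hf

theorem hom_ext_X {φ ψ : P →ₐ[ℤ] P} (h : ∀ i, φ (X i) = ψ (X i)) : φ = ψ := FreeAlgebra.hom_ext (funext h)

theorem rn_X (n : ℕ) (σ : Equiv.Perm (Fin n)) (i : ℕ) :
    rn n σ (X i) = if h : i < n then X (σ ⟨i, h⟩) else X i := by
  unfold rn
  rw [sb_X]

theorem rn_isSubst (n : ℕ) (σ : Equiv.Perm (Fin n)) : IsSubst (rn n σ) := by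
  intro i
  rw [rn_X]
  split_ifs <;> exact aug_X _

theorem rn_rn (n : ℕ) (σ τ : Equiv.Perm (Fin n)) (f : P) : rn n σ (rn n τ f) = rn n (σ * τ) f := by
  have h : (rn n σ).comp (rn n τ) = rn n (σ * τ) := by
    apply hom_ext_X
    intro i
    rw [AlgHom.comp_apply, rn_X, rn_X]
    by_cases h : i < n
    · rw [dif_pos h, dif_pos h, rn_X, dif_pos (τ ⟨i, h⟩).2]
      rfl
    · rw [dif_neg h, dif_neg h, rn_X, dif_neg h]
  exact DFunLike.congr_fun h f

theorem rn_one (n : ℕ) (f : P) : rn n 1 f = f := by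
  have h : rn n 1 = AlgHom.id ℤ P := by
    apply hom_ext_X
    intro i
    rw [rn_X]
    split_ifs <;> rfl
  rw [h]
  rfl

/-- the permutation of `ℕ` -/
def pN (n : ℕ) (σ : Equiv.Perm (Fin n)) (i : ℕ) : ℕ := if h : i < n then σ ⟨i, h⟩ else i

theorem rn_mon (n : ℕ) (σ : Equiv.Perm (Fin n)) (w : List ℕ) : rn n σ (mon w) = mon (w.map (pN n σ)) := by
  induction w with
  | nil => simp [mon_nil]
  | cons a w ih =>
    rw [mon_cons, map_mul, ih, List.map_cons, mon_cons, rn_X, pN]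
    by_cases h : a < n
    · rw [dif_pos h, dif_pos h]
    · rw [dif_neg h, dif_neg h]

theorem pN_inj (n : ℕ) (σ : Equiv.Perm (Fin n)) : Function.Injective (pN n σ) := by
  intro a b h
  unfold pN at h
  split_ifs at h with h1 h2 h2
  · have := σ.injective (Fin.ext h)
    exact congrArg Fin.val this
  · exact absurd (h ▸ (σ ⟨a, h1⟩).2) h2
  · exact absurd (h ▸ (σ ⟨b, h2⟩).2) (by omega)
  · exact h

theorem pN_lt {n : ℕ} (σ : Equiv.Perm (Fin n)) {i : ℕ} (h : i < n) : pN n σ i < n := by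
  unfold pN
  rw [dif_pos h]
  exact (σ ⟨i, h⟩).2

theorem perm_map {n : ℕ} (σ : Equiv.Perm (Fin n)) {w : List ℕ} (h : w.Perm (List.range n)) :
    (w.map (pN n σ)).Perm (List.range n) := by
  refine (h.map _).trans ?_
  rw [List.perm_ext_iff_of_nodup (List.Nodup.map (pN_inj n σ) List.nodup_range) List.nodup_range]
  intro a
  rw [List.mem_map, List.mem_range]
  constructor
  · rintro ⟨b, hb, rfl⟩
    exact pN_lt σ (List.mem_range.1 hb)
  · intro ha
    refine ⟨(σ.symm ⟨a, ha⟩).val, List.mem_range.2 (σ.symm ⟨a, ha⟩).2, ?_⟩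
    unfold pN
    rw [dif_pos (σ.symm ⟨a, ha⟩).2]
    simp

theorem Ml_rn {n : ℕ} (σ : Equiv.Perm (Fin n)) {f : P} (hf : f ∈ Ml n) : rn n σ f ∈ Ml n := by
  unfold Ml at hf
  induction hf using Submodule.span_induction with
  | mem x hx =>
    obtain ⟨w, hw, rfl⟩ := hx
    rw [rn_mon]
    exact Submodule.subset_span ⟨_, perm_map σ hw, rfl⟩
  | zero => rw [map_zero]; exact Submodule.zero_mem _
  | add x y _ _ hx hy => rw [map_add]; exact Submodule.add_mem _ hx hy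
  | smul c x _ hx => rw [map_smul]; exact Submodule.smul_mem _ _ hx

theorem Ml_mon {n : ℕ} {w : List ℕ} (h : w.Perm (List.range n)) : mon w ∈ Ml n :=
  Submodule.subset_span ⟨w, h, rfl⟩

/-- induction over the multilinear polynomials -/
theorem Ml_ind {n : ℕ} {C : P → Prop} (h0 : C 0) (ha : ∀ f g, C f → C g → C (f + g))
    (hs : ∀ (c : ℤ) f, C f → C (c • f)) (hm : ∀ w : List ℕ, w.Perm (List.range n) → C (mon w)) {f : P}
    (hf : f ∈ Ml n) : C f := by
  unfold Ml at hf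
  induction hf using Submodule.span_induction with
  | mem x hx => obtain ⟨w, hw, rfl⟩ := hx; exact hm w hw
  | zero => exact h0
  | add x y _ _ hx hy => exact ha _ _ hx hy
  | smul c x _ hx => exact hs _ _ hx

theorem qw_of_perm {p n : ℕ} (hp : 3 ≤ p) {w : List ℕ} (h : w.Perm (List.range n)) : qw p n w := by
  refine ⟨fun i hi => List.mem_range.1 (h.mem_iff.1 hi), fun i hi => ?_⟩
  rw [h.count_eq, List.count_eq_one_of_mem List.nodup_range (List.mem_range.2 hi)]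
  exact Nat.mod_eq_of_lt (by omega)

theorem Ml_le_Q {p n : ℕ} (hp : 3 ≤ p) : Ml n ≤ Q p n := by
  refine Submodule.span_mono ?_
  rintro f ⟨w, hw, rfl⟩
  exact ⟨w, qw_of_perm hp hw, rfl⟩

theorem Q_iff {p n : ℕ} {f : P} : f ∈ Q p n ↔ wp (qw p n) f = f :=
  ⟨fun h => wp_id h, fun h => h ▸ wp_mem _ _⟩

theorem Ml_Pp {n : ℕ} (hn : 1 ≤ n) : Ml n ≤ Pp := by
  refine Submodule.span_le.2 ?_
  rintro f ⟨w, hw, rfl⟩
  refine mon_mem fun h => ?_
  have := hw.length_eq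
  rw [h, List.length_range] at this
  simp at this
  omega

theorem Mul.sq {p : ℕ} {J : Submodule ℤ P} (h : Mul p J) : Mul ((p : ℤ) ^ 2) J := by
  intro f hf
  rw [pow_two, mul_smul]
  exact J.smul_mem _ (h f hf)

theorem Mul.mono {k : ℤ} {I J : Submodule ℤ P} (h : Mul k I) (hIJ : I ≤ J) : Mul k J :=
  fun f hf => hIJ (h f hf)

theorem TOp.id' (p : ℕ) : TOp p LinearMap.id := fun _ _ _ _ hf => hf

theorem TOp.comp {p : ℕ} {Φ Ψ : P →ₗ[ℤ] P} (h : TOp p Φ) (h' : TOp p Ψ) : TOp p (Φ.comp Ψ) :=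
  fun D hD hm f hf => h D hD hm _ (h' D hD hm f hf)

theorem TOp.add {p : ℕ} {Φ Ψ : P →ₗ[ℤ] P} (h : TOp p Φ) (h' : TOp p Ψ) : TOp p (Φ + Ψ) :=
  fun D hD hm f hf => D.add_mem (h D hD hm f hf) (h' D hD hm f hf)

theorem TOp.smul {p : ℕ} {Φ : P →ₗ[ℤ] P} (h : TOp p Φ) (c : ℤ) : TOp p (c • Φ) :=
  fun D hD hm f hf => D.smul_mem c (h D hD hm f hf)

theorem TOp.sub {p : ℕ} {Φ Ψ : P →ₗ[ℤ] P} (h : TOp p Φ) (h' : TOp p Ψ) : TOp p (Φ - Ψ) :=
  fun D hD hm f hf => D.sub_mem (h D hD hm f hf) (h' D hD hm f hf)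

theorem TOp.sum {p : ℕ} {ι : Type*} {s : Finset ι} {Φ : ι → P →ₗ[ℤ] P} (h : ∀ i ∈ s, TOp p (Φ i)) :
    TOp p (∑ i ∈ s, Φ i) := by
  intro D hD hm f hf
  rw [LinearMap.sum_apply]
  exact D.sum_mem fun i hi => h i hi D hD hm f hf

theorem TOp.subst (p : ℕ) {φ : P →ₐ[ℤ] P} (h : IsSubst φ) : TOp p (tl φ) :=
  fun _ hD _ f hf => hD.subst φ h f hf

theorem TOp_rn (p n : ℕ) (σ : Equiv.Perm (Fin n)) : TOp p (tl (rn n σ)) :=
  TOp.subst p (rn_isSubst n σ)

theorem TOp_aP (p n j : ℕ) : TOp p (aP n j) := TOp.sum fun σ _ => (TOp_rn p n σ).smul _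

theorem TOp_sP (p n j : ℕ) : TOp p (sP n j) := TOp.sum fun σ _ => TOp_rn p n σ

theorem Ml_aP {n : ℕ} (j : ℕ) {f : P} (hf : f ∈ Ml n) : aP n j f ∈ Ml n := by
  unfold aP
  rw [LinearMap.sum_apply]
  refine Submodule.sum_mem _ fun σ _ => ?_
  rw [LinearMap.smul_apply]
  exact Submodule.smul_mem _ _ (Ml_rn σ hf)

theorem Ml_sP {n : ℕ} (j : ℕ) {f : P} (hf : f ∈ Ml n) : sP n j f ∈ Ml n := by
  unfold sP
  rw [LinearMap.sum_apply]
  exact Submodule.sum_mem _ fun σ _ => Ml_rn σ hf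

/-- coefficients prime to `p` can be cancelled -/
theorem cancel {p : ℕ} (hp : p.Prime) {I : Submodule ℤ P} (hI : Mul ((p : ℤ) ^ 2) I) {c : ℤ}
    (hc : ¬ (p : ℤ) ∣ c) {f : P} (hf : f ∈ Pp) (h : c • f ∈ I) : f ∈ I := by
  have h1 : IsCoprime c ((p : ℤ) ^ 2) :=
    IsCoprime.pow_right ((Prime.coprime_iff_not_dvd (Nat.prime_iff_prime_int.1 hp)).2 hc).symm
  obtain ⟨u, v, huv⟩ := h1
  have : f = u • (c • f) + v • (((p : ℤ) ^ 2) • f) := by
    rw [smul_smul, smul_smul, ← add_smul, huv, one_smul]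
  rw [this]
  exact I.add_mem (I.smul_mem _ h) (I.smul_mem _ (hI f hf))

theorem IsT.lm {I : Submodule ℤ P} (hI : IsT I) (u v : P) {f : P} (hf : f ∈ I) : u * f * v ∈ I :=
  hI.mul_right _ (hI.mul_left _ hf u) v

theorem Pp_mul_left (f : P) {g : P} (h : g ∈ Pp) : f * g ∈ Pp := isT_Pp.mul_left g h f
theorem Pp_mul_right {f : P} (h : f ∈ Pp) (g : P) : f * g ∈ Pp := isT_Pp.mul_right f h g

theorem cm_mem (i j : ℕ) : cm i j ∈ Pp :=
  Pp.sub_mem (Pp_mul_left _ (X_mem j)) (Pp_mul_left _ (X_mem i))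

theorem Lk.Pp_I {p : ℕ} {I A B C : Submodule ℤ P} (h : Lk p I A B C) : I ≤ Pp := h.hI.le

end ADC
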