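import Pool.Agent.ADC.Cnb

/-! # ADC-Cnc: more on `Cn n` -/

namespace ADC

open AD ADN

private theorem cnc_word (u v : List ℕ) (i j : ℕ) :
    mon u * cm i j * mon v = mon (u ++ i :: j :: v) - mon (u ++ j :: i :: v) := by
  unfold cm
  rw [mon_append, mon_append, mon_cons, mon_cons, mon_cons, mon_cons, mul_sub, sub_mul]
  simp only [mul_assoc]

theorem wp_Cn {φ : List ℕ → Prop} (hφ : ∀ u v : List ℕ, u.Perm v → (φ u ↔ φ v)) {n : ℕ} {f : P} (hf : f ∈ Cn n) :
    wp φ f ∈ Submodule.span ℤ {f | ∃ (u v : List ℕ) (i j : ℕ), n ≤ u.length + v.length + 2 ∧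
      φ (u ++ i :: j :: v) ∧ f = mon u * cm i j * mon v} := by
  unfold Cn at hf
  induction hf using Submodule.span_induction with
  | mem x hx =>
    obtain ⟨u, v, i, j, hn, rfl⟩ := hx
    have h1 : mon u * (X i * X j - X j * X i) * mon v =
        mon (u ++ i :: j :: v) - mon (u ++ j :: i :: v) := cnc_word u v i j
    have hp : (u ++ i :: j :: v).Perm (u ++ j :: i :: v) :=
      List.Perm.append_left u (List.Perm.swap j i v)
    rw [h1, map_sub]
    by_cases h : φ (u ++ i :: j :: v)
    · rw [wp_pos h, wp_pos ((hφ _ _ hp).1 h)]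
      exact Submodule.subset_span ⟨u, v, i, j, hn, h, (cnc_word u v i j).symm⟩
    · rw [wp_neg h, wp_neg (fun h' => h ((hφ _ _ hp).2 h')), sub_zero]
      exact Submodule.zero_mem _
  | zero => rw [map_zero]; exact Submodule.zero_mem _
  | add x y _ _ hx hy => rw [map_add]; exact Submodule.add_mem _ hx hy
  | smul c x _ hx => rw [map_smul]; exact Submodule.smul_mem _ _ hx

theorem com_Cn {n : ℕ} {f : P} (hf : f ∈ Cn n) : com f = 0 := by
  unfold Cn at hf
  induction hf using Submodule.span_induction with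
  | mem x hx =>
    obtain ⟨u, v, i, j, hn, rfl⟩ := hx
    rw [map_mul, map_mul, map_sub, map_mul, map_mul, mul_comm (com (X j)), sub_self, mul_zero,
      zero_mul]
  | zero => rw [map_zero]
  | add x y _ _ hx hy => rw [map_add, hx, hy, add_zero]
  | smul c x _ hx => rw [map_zsmul, hx, smul_zero]

theorem com_mon (w : List ℕ) : com (mon w) = (w.map MvPolynomial.X).prod := by
  induction w with
  | nil => rw [mon_nil, map_one, List.map_nil, List.prod_nil]
  | cons a w ih =>
    rw [mon_cons, map_mul, ih, List.map_cons, List.prod_cons]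
    have h : com (X a) = MvPolynomial.X a := FreeAlgebra.lift_ι_apply _ _
    rw [h]

private theorem cnc_monomial (w : List ℕ) :
    com (mon w) = MvPolynomial.monomial (Multiset.toFinsupp (w : Multiset ℕ)) (1 : ℤ) := by
  rw [com_mon]
  induction w with
  | nil => simp
  | cons a w ih =>
    rw [List.map_cons, List.prod_cons, ih, ← Multiset.cons_coe, ← Multiset.singleton_add, map_add,
      Multiset.toFinsupp_singleton]
    unfold MvPolynomial.X
    rw [MvPolynomial.monomial_mul, one_mul]

private noncomputable def cncS : MvPolynomial ℕ ℤ →ₗ[ℤ] P :=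
  (MvPolynomial.basisMonomials ℕ ℤ).constr ℤ fun d => mon ((Finsupp.toMultiset d).sort (· ≤ ·))

private theorem cncS_com (w : List ℕ) :
    cncS (com (mon w)) = mon ((w : Multiset ℕ).sort (· ≤ ·)) := by
  rw [cnc_monomial]
  have h := (MvPolynomial.basisMonomials ℕ ℤ).constr_basis ℤ
    (fun d => mon ((Finsupp.toMultiset d).sort (· ≤ ·))) (Multiset.toFinsupp (w : Multiset ℕ))
  rw [MvPolynomial.coe_basisMonomials, Multiset.toFinsupp_toMultiset] at h
  exact h

private theorem cnc_perm (w : List ℕ) : w.Perm ((w : Multiset ℕ).sort (· ≤ ·)) := by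
  rw [← Multiset.coe_eq_coe, Multiset.sort_eq]

private theorem cnc_sub {n : ℕ} {f : P} (hf : f ∈ Fge n) : f - cncS (com f) ∈ Cn n := by
  unfold Fge at hf
  induction hf using Submodule.span_induction with
  | mem x hx =>
    obtain ⟨w, hw, rfl⟩ := hx
    rw [cncS_com]
    exact Cn_anti hw (perm_Cn (cnc_perm w))
  | zero => rw [map_zero, map_zero, sub_zero]; exact Submodule.zero_mem _
  | add x y _ _ hx hy =>
    rw [map_add, map_add, add_sub_add_comm]
    exact Submodule.add_mem _ hx hy
  | smul c x _ hx =>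
    rw [map_zsmul, map_zsmul, ← smul_sub]
    exact Submodule.smul_mem _ _ hx

theorem Cn_of_com {n : ℕ} {f : P} (hf : f ∈ Fge n) (h : com f = 0) : f ∈ Cn n := by
  have h1 := cnc_sub hf
  rw [h, map_zero, sub_zero] at h1
  exact h1

theorem qw_perm {p n : ℕ} {u v : List ℕ} (h : u.Perm v) : qw p n u ↔ qw p n v := by
  unfold qw
  simp only [h.mem_iff, h.count_eq]

end ADC
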