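import Pool.Agent.ADC.TOpW
import Pool.Agent.ADC.Cnc

/-!
# ADC-Opp

The opposite T-ideal `op I = {f | rv f ∈ I}`, `rv` the reversal of words.  `rv (mon w) = mon w.reverse` (`lm_mon`),
so `rv ∘ rv = id` and `rv (f * g) = rv g * rv f` (bilinear, check on words), and `rv (sb φ f) = sb (rv ∘ φ) (rv f)`
(check on words).  `aug (rv f) = aug f`.  So everything transfers.  For `Lk_op` use that `D ↦ op D` is an order
automorphism of the T-ideals with `op (op D) = D`, which commutes with `⊓` and `⊔`; nilpotency: `NilAt (op I) N`.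

`Tame_op`: `rv (kk a b) = - kk b a` (`rv ([x,y] x) = - x [x,y]`); `rv` preserves `Cn n`; modulo `Cn (p+2)` words of length
`p + 2` are invariant under permutations (`perm_Cn`), so `rv (X 0 ^ p * X 1 * X 2) ≡ X 0 ^ p * X 1 * X 2` modulo
`Cn (p+2)`; similarly for `t3` modulo `Cn (p+1)`.
-/

namespace ADC

open AD ADN

theorem rv_mon (w : List ℕ) : rv (mon w) = mon w.reverse := by
  unfold rv
  rw [lm_mon]

theorem rv_rv (f : P) : rv (rv f) = f := by
  refine ind_mon (C := fun f => rv (rv f) = f) (by simp) ?_ ?_ ?_ f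
  · intro f g hf hg; rw [map_add, map_add, hf, hg]
  · intro c f hf; rw [map_smul, map_smul, hf]
  · intro w; rw [rv_mon, rv_mon, List.reverse_reverse]

theorem rv_mul (f g : P) : rv (f * g) = rv g * rv f := by
  refine ind_mon (C := fun f => rv (f * g) = rv g * rv f) (by simp) ?_ ?_ ?_ f
  · intro f f' hf hf'; rw [add_mul, map_add, map_add, mul_add, hf, hf']
  · intro c f hf; rw [smul_mul_assoc, map_smul, map_smul, mul_smul_comm, hf]
  · intro u
    refine ind_mon (C := fun g => rv (mon u * g) = rv g * rv (mon u)) (by simp) ?_ ?_ ?_ g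
    · intro g g' hg hg'; rw [mul_add, map_add, map_add, add_mul, hg, hg']
    · intro c g hg; rw [mul_smul_comm, map_smul, map_smul, smul_mul_assoc, hg]
    · intro v
      rw [← mon_append, rv_mon, rv_mon, rv_mon, List.reverse_append, mon_append]

private theorem opp_X (i : ℕ) : rv (X i) = X i := by
  rw [← mon_single, rv_mon, List.reverse_singleton]

theorem rv_sb (φ : ℕ → P) (f : P) : rv (sb φ f) = sb (fun i => rv (φ i)) (rv f) := by
  refine ind_mon (C := fun f => rv (sb φ f) = sb (fun i => rv (φ i)) (rv f)) (by simp) ?_ ?_ ?_ f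
  · intro f g hf hg; rw [map_add, map_add, map_add, map_add, hf, hg]
  · intro c f hf; rw [map_zsmul, map_smul, map_smul, map_zsmul, hf]
  · intro w
    induction w with
    | nil =>
      have h1 : rv (1 : P) = 1 := by rw [← mon_nil, rv_mon, List.reverse_nil]
      rw [mon_nil, map_one (sb φ), h1, map_one (sb _)]
    | cons a w ih =>
      rw [mon_cons, map_mul, rv_mul, ih, rv_mul, map_mul, sb_X, opp_X, sb_X]

theorem rv_Pp {f : P} : rv f ∈ Pp ↔ f ∈ Pp := by
  have h : ∀ f : P, aug (rv f) = aug f := by
    intro f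
    refine ind_mon (C := fun f => aug (rv f) = aug f) (by simp) ?_ ?_ ?_ f
    · intro f g hf hg; rw [map_add, map_add, map_add, hf, hg]
    · intro c f hf; rw [map_smul, map_zsmul, map_zsmul, hf]
    · intro w
      rw [rv_mon]
      by_cases hw : w = []
      · rw [hw, List.reverse_nil]
      · have h1 : aug (mon w) = 0 := mon_mem hw
        have h2 : aug (mon w.reverse) = 0 := mon_mem (by simpa using hw)
        rw [h1, h2]
  rw [mem_Pp, mem_Pp, h]

theorem mem_op {I : Submodule ℤ P} {f : P} : f ∈ op I ↔ rv f ∈ I := Iff.rfl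

theorem op_op (I : Submodule ℤ P) : op (op I) = I := by
  ext f
  show rv (rv f) ∈ I ↔ f ∈ I
  rw [rv_rv]

theorem isT_op {I : Submodule ℤ P} (h : IsT I) : IsT (op I) := by
  refine ⟨?_, ?_, ?_, ?_⟩
  · intro f hf
    exact rv_Pp.1 (h.le hf)
  · intro f hf g
    show rv (f * g) ∈ I
    rw [rv_mul]
    exact h.mul_left _ hf _
  · intro f hf g
    show rv (g * f) ∈ I
    rw [rv_mul]
    exact h.mul_right _ hf _
  · intro φ hφ f hf
    show rv (φ f) ∈ I
    have h1 : φ = sb (fun i => φ (X i)) := hom_ext_X fun i => by rw [sb_X]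
    rw [h1, rv_sb]
    exact sb_mem h (fun i => rv_Pp.2 (hφ i)) hf

private theorem opp_map (I : Submodule ℤ P) : op I = I.map rv := by
  ext f
  constructor
  · intro h
    exact ⟨rv f, h, rv_rv f⟩
  · rintro ⟨g, hg, rfl⟩
    show rv (rv g) ∈ I
    rw [rv_rv]
    exact hg

private theorem opp_inf (I J : Submodule ℤ P) : op (I ⊓ J) = op I ⊓ op J := rfl

private theorem opp_mono {I J : Submodule ℤ P} (h : I ≤ J) : op I ≤ op J := fun _ hf => h hf

private theorem opp_le {I J : Submodule ℤ P} (h : I ≤ op J) : op I ≤ J := by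
  have := opp_mono h
  rwa [op_op] at this

private theorem opp_le' {I J : Submodule ℤ P} (h : op I ≤ J) : I ≤ op J := by
  have := opp_mono h
  rwa [op_op] at this

private theorem opp_nil {I : Submodule ℤ P} {N : ℕ} (h : NilAt I N) : NilAt (op I) N := by
  intro w hw
  show rv (mon w) ∈ I
  rw [rv_mon]
  exact h _ (by rw [List.length_reverse]; exact hw)

theorem op_sup (I J : Submodule ℤ P) : op (I ⊔ J) = op I ⊔ op J := by
  rw [opp_map, opp_map, opp_map, Submodule.map_sup]

theorem op_mulI (k : ℤ) (J : Submodule ℤ P) : op (mulI k J) = mulI k (op J) := by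
  ext f
  constructor
  · rintro ⟨g, hg, h⟩
    refine ⟨rv g, ?_, ?_⟩
    · show rv (rv g) ∈ J
      rw [rv_rv]
      exact hg
    · have h1 : k • g = rv f := h
      show k • rv g = f
      rw [← map_smul, h1, rv_rv]
  · rintro ⟨g, hg, h⟩
    have h1 : k • g = f := h
    refine ⟨rv g, hg, ?_⟩
    show k • rv g = rv f
    rw [← map_smul, h1]

theorem op_Pp : op Pp = Pp := by
  ext f
  exact rv_Pp

theorem op_Cn (n : ℕ) : op (Cn n) = Cn n := by
  have h : Cn n ≤ op (Cn n) := by
    refine Submodule.span_le.2 ?_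
    rintro f ⟨u, v, i, j, hl, rfl⟩
    show rv _ ∈ Cn n
    rw [rv_mul, rv_mul, map_sub, rv_mul, rv_mul, opp_X, opp_X, rv_mon, rv_mon]
    refine Submodule.subset_span ⟨v.reverse, u.reverse, j, i, ?_, ?_⟩
    · rw [List.length_reverse, List.length_reverse]; omega
    · rw [mul_assoc]
  exact le_antisymm (opp_le h) h

theorem op_Fge (n : ℕ) : op (Fge n) = Fge n := by
  have h : Fge n ≤ op (Fge n) := by
    refine Submodule.span_le.2 ?_
    rintro f ⟨w, hw, rfl⟩
    show rv _ ∈ Fge n
    rw [rv_mon]
    exact Submodule.subset_span ⟨w.reverse, by rw [List.length_reverse]; exact hw, rfl⟩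
  exact le_antisymm (opp_le h) h

theorem Mul_op {k : ℤ} {J : Submodule ℤ P} (h : Mul k J) : Mul k (op J) := by
  intro f hf
  show rv (k • f) ∈ J
  rw [map_smul]
  exact h _ (rv_Pp.2 hf)

theorem Lk_op {p : ℕ} {I A B C : Submodule ℤ P} (h : Lk p I A B C) : Lk p (op I) (op A) (op B) (op C) := by
  obtain ⟨N, hN⟩ := h.nil
  exact
  { hI := isT_op h.hI
    hA := isT_op h.hA
    hB := isT_op h.hB
    hC := isT_op h.hC
    neA := fun h' => h.neA (by
      have := opp_mono h'
      rwa [op_op, op_op] at this)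
    IA := opp_mono h.IA
    IB := opp_mono h.IB
    IC := opp_mono h.IC
    AB := opp_mono h.AB
    AC := opp_mono h.AC
    BC := opp_mono h.BC
    cA := by
      rw [← op_sup]
      exact opp_mono h.cA
    cB := by
      rw [← op_sup]
      exact opp_mono h.cB
    mA := fun D hD h1 h2 => by
      rcases h.mA (op D) (isT_op hD) (opp_le' h1) (opp_le h2) with h3 | h3
      · left; rw [← h3, op_op]
      · right; rw [← h3, op_op]
    mB := fun D hD h1 h2 => by
      rcases h.mB (op D) (isT_op hD) (opp_le' h1) (opp_le h2) with h3 | h3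
      · left; rw [← h3, op_op]
      · right; rw [← h3, op_op]
    ess := fun D hD h1 h2 => by
      have h3 : op D ⊓ (A ⊔ B) ≤ I := by
        have h4 := opp_mono h2
        rw [op_op, opp_inf, ← op_sup, op_op] at h4
        exact h4
      exact opp_le' (h.ess (op D) (isT_op hD) (opp_le' h1) h3)
    p2 := Mul_op h.p2
    nil := ⟨N, opp_nil hN⟩ }

theorem Bas_op {p : ℕ} {J : Submodule ℤ P} (h : Bas p J) : Bas p (op J) := by
  obtain ⟨N, hN⟩ := h.nil
  exact
  { pp := h.pp
    five := h.five
    isT := isT_op h.isT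
    mul := Mul_op h.mul
    nil := ⟨N, opp_nil hN⟩
    ne := fun h' => h.ne (by
      have h1 : rv (X 0) ∈ J := h'
      rwa [opp_X] at h1) }

private theorem opp_rep (i n : ℕ) : mon (List.replicate n i) = X i ^ n := by
  unfold mon
  rw [List.map_replicate, List.prod_replicate]

theorem Tame_op {p : ℕ} {J : Submodule ℤ P} {a b : ℤ} (h : Tame p J a b) : Tame p (op J) b a := by
  have hop : ∀ n, op (J ⊔ Cn n) = op J ⊔ Cn n := fun n => by rw [op_sup, op_Cn]
  exact
  { toBas := Bas_op h.toBas
    ab := fun h' => h.ab ⟨h'.2, h'.1⟩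
    K := by
      rw [← hop]
      show rv (kk b a) ∈ J ⊔ Cn (p + 2)
      have h1 : rv (kk b a) = - kk a b := by
        unfold kk
        rw [map_add, map_smul, map_smul, rv_mul, rv_mul, map_sub, rv_mul, rv_mul, opp_X, opp_X]
        simp only [mul_sub, sub_mul, smul_sub, mul_assoc]
        abel
      rw [h1]
      exact Submodule.neg_mem _ h.K
    t2 := by
      rw [← hop]
      show rv (X 0 ^ p * X 1 * X 2) ∈ J ⊔ Cn (p + 2)
      have h1 : X 0 ^ p * X 1 * X 2 = mon (List.replicate p 0 ++ [1, 2]) := by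
        rw [mon_append, opp_rep, mon_cons, mon_single, mul_assoc]
      have h2 : rv (X 0 ^ p * X 1 * X 2) = mon (List.replicate p 0 ++ [1, 2]).reverse := by
        rw [h1, rv_mon]
      have h3 := perm_Cn (List.reverse_perm (List.replicate p 0 ++ [1, 2]))
      rw [List.length_reverse, List.length_append, List.length_replicate] at h3
      have h5 : mon (List.replicate p 0 ++ [1, 2]).reverse =
          (mon (List.replicate p 0 ++ [1, 2]).reverse - mon (List.replicate p 0 ++ [1, 2])) +
          mon (List.replicate p 0 ++ [1, 2]) := (sub_add_cancel _ _).symm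
      rw [h2, h5]
      refine Submodule.add_mem _ (Submodule.mem_sup_right h3) ?_
      rw [← h1]
      exact h.t2
    t3 := by
      rw [← hop]
      show rv (X 0 ^ p * X 1 - X 0 * X 1 ^ p) ∈ J ⊔ Cn (p + 1)
      have h1 : X 0 ^ p * X 1 = mon (List.replicate p 0 ++ [1]) := by
        rw [mon_append, opp_rep, mon_single]
      have h1' : X 0 * X 1 ^ p = mon ([0] ++ List.replicate p 1) := by
        rw [mon_append, opp_rep, mon_single]
      have h2 : rv (X 0 ^ p * X 1 - X 0 * X 1 ^ p) =
          (mon (List.replicate p 0 ++ [1]).reverse - mon (List.replicate p 0 ++ [1])) -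
          (mon ([0] ++ List.replicate p 1).reverse - mon ([0] ++ List.replicate p 1)) +
          (X 0 ^ p * X 1 - X 0 * X 1 ^ p) := by
        rw [map_sub, h1, h1', rv_mon, rv_mon]
        abel
      have h3 := perm_Cn (List.reverse_perm (List.replicate p 0 ++ [1]))
      have h3' := perm_Cn (List.reverse_perm ([0] ++ List.replicate p 1))
      rw [List.length_reverse, List.length_append, List.length_replicate] at h3 h3'
      rw [h2]
      refine Submodule.add_mem _ (Submodule.mem_sup_right (Submodule.sub_mem _ h3 ?_)) h.t3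
      have h4 : [0].length + p = p + 1 := by simp [add_comm]
      rw [h4] at h3'
      exact h3' }

end ADC
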