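import Pool.Agent.ADC.Bas

/-!
# ADC-LinP

Full linearisation.  For a word `w` with letters `≤ j` in which `j` occurs exactly `m = n - j` times: the substitution
`X j ↦ ∑_{t ∈ S} X t` gives the sum over all functions from the `m` positions of `j` to `S`; the alternating sum over the
subsets `S` of `Ico j n` (inclusion-exclusion) keeps exactly the surjective functions onto `Ico j n` (a set with `m`
elements), i.e. the bijections.  So `linP n j (mon w)` is the sum over the bijections of the words obtained by replacing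
the letters `j` in `w` by `j, ..., n-1` in all possible orders.  If `w = col j`-image of a permutation `v` of `range n`
(`col j (mon v) = mon (v.map (min · j))`) this is `sP n j (mon v)` (the letters `≥ j` of `v` are permuted in all ways).

A convenient way: prove by induction / directly the multiplicative formula: for a word `w`,
`linP n j (mon w) = ∑_{f : positions of j → Ico j n, surjective} ...`.  Alternatively define for a finite set `T` of
letters the operator `L_T = ∑_{S ⊆ T} (-1)^(|T|-|S|) sb (X j ↦ ∑_{t∈S} X t)` and note that `L_T (mon w)` is the part of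
`sb (X j ↦ ∑_{t∈T} X t) (mon w)` consisting of the words in which all letters of `T` occur (here `j ∈ T` is allowed: in the
image words the letters of `T` come only from the letters `j` of `w`): both sides are
computed with the projections `wp (t ∉ w)`, `∏_{t∈T} (1 - wp (t ∉ w))`.
-/

namespace ADC

open AD ADN

/-- the words obtained from `w` by replacing every letter `j` by a letter of `S` -/
private def lpEx (j : ℕ) (S : Finset ℕ) : List ℕ → Finset (List ℕ)
  | [] => {[]}
  | a :: w => if a = j then (S ×ˢ lpEx j S w).image (fun q => q.1 :: q.2)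
      else (lpEx j S w).image (fun v => a :: v)

private theorem lpEx_cons_eq {j : ℕ} {S : Finset ℕ} {w v : List ℕ} :
    v ∈ lpEx j S (j :: w) ↔ ∃ b u, v = b :: u ∧ b ∈ S ∧ u ∈ lpEx j S w := by
  rw [lpEx, if_pos rfl, Finset.mem_image]
  constructor
  · rintro ⟨⟨b, u⟩, h, rfl⟩
    rw [Finset.mem_product] at h
    exact ⟨b, u, rfl, h.1, h.2⟩
  · rintro ⟨b, u, rfl, h1, h2⟩
    exact ⟨(b, u), Finset.mem_product.2 ⟨h1, h2⟩, rfl⟩

private theorem lpEx_cons_ne {j a : ℕ} (h : a ≠ j) {S : Finset ℕ} {w v : List ℕ} :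
    v ∈ lpEx j S (a :: w) ↔ ∃ u, v = a :: u ∧ u ∈ lpEx j S w := by
  rw [lpEx, if_neg h, Finset.mem_image]
  constructor
  · rintro ⟨u, h, rfl⟩
    exact ⟨u, rfl, h⟩
  · rintro ⟨u, rfl, h⟩
    exact ⟨u, h, rfl⟩

private theorem lpEx_sb (j : ℕ) (S : Finset ℕ) (w : List ℕ) :
    sb (fun i => if i = j then ∑ t ∈ S, X t else X i) (mon w) = ∑ v ∈ lpEx j S w, mon v := by
  induction w with
  | nil => simp [lpEx, mon_nil]
  | cons a w ih =>
    rw [mon_cons, map_mul, sb_X, ih, lpEx]
    by_cases h : a = j
    · rw [if_pos h, if_pos h, Finset.sum_image]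
      · rw [Finset.sum_mul_sum, Finset.sum_product]
        exact Finset.sum_congr rfl fun t _ => Finset.sum_congr rfl fun v _ => (mon_cons t v).symm
      · rintro ⟨a1, b1⟩ _ ⟨a2, b2⟩ _ h2
        have h3 : a1 :: b1 = a2 :: b2 := h2
        rw [List.cons.injEq] at h3
        exact Prod.ext h3.1 h3.2
    · rw [if_neg h, if_neg h, Finset.sum_image]
      · rw [Finset.mul_sum]
        exact Finset.sum_congr rfl fun v _ => (mon_cons a v).symm
      · intro u _ v _ h2
        exact (List.cons.inj h2).2

private theorem lpEx_filter {j n : ℕ} {S : Finset ℕ} (hS : S ⊆ Finset.Ico j n) :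
    ∀ w : List ℕ, (∀ i ∈ w, i ≤ j) → ∀ v, v ∈ lpEx j S w ↔
      v ∈ lpEx j (Finset.Ico j n) w ∧ v.toFinset ∩ Finset.Ico j n ⊆ S := by
  intro w
  induction w with
  | nil =>
    intro _ v
    simp only [lpEx, Finset.mem_singleton]
    constructor
    · rintro rfl
      exact ⟨rfl, by simp⟩
    · exact fun h => h.1
  | cons a w ih =>
    intro hw v
    have ih' := ih (fun i hi => hw i (List.mem_cons_of_mem _ hi))
    by_cases h : a = j
    · subst h
      rw [lpEx_cons_eq, lpEx_cons_eq]
      constructor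
      · rintro ⟨b, u, rfl, h1, h2⟩
        obtain ⟨h3, h4⟩ := (ih' u).1 h2
        refine ⟨⟨b, u, rfl, hS h1, h3⟩, ?_⟩
        intro x hx
        rw [Finset.mem_inter, List.mem_toFinset, List.mem_cons] at hx
        rcases hx.1 with rfl | hx1
        · exact h1
        · exact h4 (Finset.mem_inter.2 ⟨List.mem_toFinset.2 hx1, hx.2⟩)
      · rintro ⟨⟨b, u, rfl, h1, h2⟩, h3⟩
        refine ⟨b, u, rfl, h3 (Finset.mem_inter.2 ⟨List.mem_toFinset.2 (by simp), h1⟩),
          (ih' u).2 ⟨h2, fun x hx => h3 ?_⟩⟩
        rw [Finset.mem_inter, List.mem_toFinset] at hx ⊢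
        exact ⟨List.mem_cons_of_mem _ hx.1, hx.2⟩
    · have haj : a < j := lt_of_le_of_ne (hw a (by simp)) h
      rw [lpEx_cons_ne h, lpEx_cons_ne h]
      constructor
      · rintro ⟨u, rfl, h2⟩
        obtain ⟨h3, h4⟩ := (ih' u).1 h2
        refine ⟨⟨u, rfl, h3⟩, ?_⟩
        intro x hx
        rw [Finset.mem_inter, List.mem_toFinset, List.mem_cons, Finset.mem_Ico] at hx
        rcases hx.1 with rfl | hx1
        · exact absurd hx.2.1 (not_le.2 haj)
        · exact h4 (Finset.mem_inter.2 ⟨List.mem_toFinset.2 hx1, Finset.mem_Ico.2 hx.2⟩)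
      · rintro ⟨⟨u, rfl, h2⟩, h3⟩
        refine ⟨u, rfl, (ih' u).2 ⟨h2, fun x hx => h3 ?_⟩⟩
        rw [Finset.mem_inter, List.mem_toFinset] at hx ⊢
        exact ⟨List.mem_cons_of_mem _ hx.1, hx.2⟩

private theorem lp_incl (T C : Finset ℕ) (hC : C ⊆ T) :
    ∑ S ∈ T.powerset, (if C ⊆ S then ((-1 : ℤ) ^ (T.card - S.card)) else 0) = if T ⊆ C then 1 else 0 := by
  rw [← Finset.sum_filter]
  have h1 : ∑ S ∈ T.powerset.filter (fun S => C ⊆ S), ((-1 : ℤ) ^ (T.card - S.card)) =
      ∑ R ∈ (T \ C).powerset, (-1 : ℤ) ^ R.card := by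
    refine Finset.sum_nbij' (fun S => T \ S) (fun R => T \ R) ?_ ?_ ?_ ?_ ?_
    · intro S hS
      rw [Finset.mem_filter, Finset.mem_powerset] at hS
      rw [Finset.mem_powerset]
      exact Finset.sdiff_subset_sdiff subset_rfl hS.2
    · intro R hR
      rw [Finset.mem_powerset] at hR
      rw [Finset.mem_filter, Finset.mem_powerset]
      refine ⟨Finset.sdiff_subset, fun x hx => Finset.mem_sdiff.2 ⟨hC hx, fun hx2 => ?_⟩⟩
      exact (Finset.mem_sdiff.1 (hR hx2)).2 hx
    · intro S hS
      rw [Finset.mem_filter, Finset.mem_powerset] at hS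
      exact Finset.sdiff_sdiff_eq_self hS.1
    · intro R hR
      rw [Finset.mem_powerset] at hR
      exact Finset.sdiff_sdiff_eq_self (hR.trans Finset.sdiff_subset)
    · intro S hS
      rw [Finset.mem_filter, Finset.mem_powerset] at hS
      rw [Finset.card_sdiff_of_subset hS.1]
  rw [h1, Finset.sum_powerset_neg_one_pow_card]
  by_cases h : T ⊆ C
  · rw [if_pos (Finset.sdiff_eq_empty_iff_subset.2 h), if_pos h]
  · rw [if_neg (fun h2 => h (Finset.sdiff_eq_empty_iff_subset.1 h2)), if_neg h]

private theorem lp_mon {n j : ℕ} {w : List ℕ} (h3 : ∀ i ∈ w, i ≤ j) :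
    linP n j (mon w) = ∑ v ∈ (lpEx j (Finset.Ico j n) w).filter
      (fun v => Finset.Ico j n ⊆ v.toFinset), mon v := by
  classical
  unfold linP
  rw [LinearMap.sum_apply]
  have h1 : ∀ S ∈ (Finset.Ico j n).powerset, (((-1 : ℤ) ^ (n - j - S.card)) •
      tl (sb (fun i => if i = j then ∑ t ∈ S, X t else X i))) (mon w) =
      ∑ v ∈ lpEx j (Finset.Ico j n) w, (if v.toFinset ∩ Finset.Ico j n ⊆ S then
        ((-1 : ℤ) ^ ((Finset.Ico j n).card - S.card)) else 0) • mon v := by
    intro S hS
    rw [Finset.mem_powerset] at hS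
    rw [LinearMap.smul_apply, tl_apply, lpEx_sb, Finset.smul_sum]
    have h2 : lpEx j S w = (lpEx j (Finset.Ico j n) w).filter
        (fun v => v.toFinset ∩ Finset.Ico j n ⊆ S) := by
      ext v
      rw [Finset.mem_filter]
      exact lpEx_filter hS w h3 v
    rw [h2, Finset.sum_filter, Nat.card_Ico]
    refine Finset.sum_congr rfl fun v _ => ?_
    by_cases h : v.toFinset ∩ Finset.Ico j n ⊆ S
    · rw [if_pos h, if_pos h]
    · rw [if_neg h, if_neg h, zero_smul]
  rw [Finset.sum_congr rfl h1, Finset.sum_comm, Finset.sum_filter]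
  refine Finset.sum_congr rfl fun v _ => ?_
  rw [← Finset.sum_smul, lp_incl _ _ Finset.inter_subset_right]
  by_cases h : Finset.Ico j n ⊆ v.toFinset
  · rw [if_pos h, if_pos (Finset.subset_inter h subset_rfl), one_smul]
  · rw [if_neg h, if_neg (fun h2 => h (h2.trans Finset.inter_subset_left)), zero_smul]

private theorem lpEx_length {j : ℕ} {S : Finset ℕ} : ∀ w v : List ℕ, v ∈ lpEx j S w → v.length = w.length := by
  intro w
  induction w with
  | nil =>
    intro v hv
    rw [lpEx, Finset.mem_singleton] at hv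
    rw [hv]
  | cons a w ih =>
    intro v hv
    by_cases h : a = j
    · subst h
      obtain ⟨b, u, rfl, -, h2⟩ := lpEx_cons_eq.1 hv
      simp [ih u h2]
    · obtain ⟨u, rfl, h2⟩ := (lpEx_cons_ne h).1 hv
      simp [ih u h2]

private theorem lpEx_mem {j : ℕ} {S : Finset ℕ} {i : ℕ} (hi : i ≠ j) :
    ∀ w v : List ℕ, v ∈ lpEx j S w → i ∈ w → i ∈ v := by
  intro w
  induction w with
  | nil => intro v _ h; simp at h
  | cons a w ih =>
    intro v hv hiw
    by_cases h : a = j
    · subst h
      obtain ⟨b, u, rfl, -, h2⟩ := lpEx_cons_eq.1 hv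
      rcases List.mem_cons.1 hiw with h4 | h4
      · exact absurd h4 hi
      · exact List.mem_cons_of_mem _ (ih u h2 h4)
    · obtain ⟨u, rfl, h2⟩ := (lpEx_cons_ne h).1 hv
      rcases List.mem_cons.1 hiw with h4 | h4
      · rw [h4]; simp
      · exact List.mem_cons_of_mem _ (ih u h2 h4)

private theorem lp_len {n j : ℕ} (hj : j < n) {w : List ℕ} (h1 : ∀ i < j, w.count i = 1)
    (h2 : w.count j = n - j) (h3 : ∀ i ∈ w, i ≤ j) : w.length = n := by
  rw [← List.sum_toFinset_count_eq_length w]
  have h4 : w.toFinset ⊆ Finset.range (j + 1) := by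
    intro i hi
    rw [List.mem_toFinset] at hi
    exact Finset.mem_range.2 (Nat.lt_succ_of_le (h3 i hi))
  rw [Finset.sum_subset h4 (fun x _ hx => List.count_eq_zero.2 (fun h => hx (List.mem_toFinset.2 h))),
    Finset.sum_range_succ, h2, Finset.sum_congr rfl (fun i hi => h1 i (Finset.mem_range.1 hi))]
  simp
  omega

private theorem lp_perm {n j : ℕ} {w : List ℕ} (h1 : ∀ i < j, i ∈ w) (hl : w.length = n)
    {v : List ℕ} (hv : v ∈ lpEx j (Finset.Ico j n) w)
    (hT : Finset.Ico j n ⊆ v.toFinset) : v.Perm (List.range n) := by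
  have h4 : List.range n ⊆ v := by
    intro i hi
    rw [List.mem_range] at hi
    rcases Nat.lt_or_ge i j with h | h
    · exact lpEx_mem (by omega) w v hv (h1 i h)
    · exact List.mem_toFinset.1 (hT (Finset.mem_Ico.2 ⟨h, hi⟩))
  have h5 : (List.range n).Subperm v := List.subperm_of_subset List.nodup_range h4
  refine (h5.perm_of_length_le ?_).symm
  rw [lpEx_length w v hv, hl, List.length_range]

private theorem lpEx_get {j : ℕ} {S : Finset ℕ} : ∀ w v : List ℕ, v ∈ lpEx j S w →
    ∀ (i : ℕ) (h : i < w.length) (h' : i < v.length), w[i] ≠ j → v[i] = w[i] := by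
  intro w
  induction w with
  | nil => intro v _ i h; simp at h
  | cons a w ih =>
    intro v hv i h h' hne
    by_cases ha : a = j
    · subst ha
      obtain ⟨b, u, rfl, -, h2⟩ := lpEx_cons_eq.1 hv
      cases i with
      | zero => exact absurd rfl hne
      | succ i => exact ih u h2 i (by simpa using h) (by simpa using h') hne
    · obtain ⟨u, rfl, h2⟩ := (lpEx_cons_ne ha).1 hv
      cases i with
      | zero => rfl
      | succ i => exact ih u h2 i (by simpa using h) (by simpa using h') hne

theorem TOp_linP (p n j : ℕ) : TOp p (linP n j) := by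
  refine TOp.sum fun S _ => (TOp.subst p ?_).smul _
  refine sb_isSubst fun i => ?_
  by_cases h : i = j
  · rw [if_pos h]
    exact Submodule.sum_mem _ fun t _ => X_mem t
  · rw [if_neg h]
    exact X_mem i

/-- `linP` of the words of the right multidegree is multilinear -/
theorem linP_Ml {n j : ℕ} (hj : j < n) {w : List ℕ} (h1 : ∀ i < j, w.count i = 1) (h2 : w.count j = n - j)
    (h3 : ∀ i ∈ w, i ≤ j) : linP n j (mon w) ∈ Ml n := by
  rw [lp_mon h3]
  refine Submodule.sum_mem _ fun v hv => ?_
  rw [Finset.mem_filter] at hv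
  refine Ml_mon (lp_perm (fun i hi => ?_) (lp_len hj h1 h2 h3) hv.1 hv.2)
  rw [← List.count_pos_iff, h1 i hi]
  exact one_pos

theorem col_mon (j : ℕ) (w : List ℕ) : col j (mon w) = mon (w.map (fun i => min i j)) := by
  unfold col
  rw [sb_mon]
  unfold mon
  rw [List.map_map]
  rfl

private theorem lp_pN {n j : ℕ} {σ : Equiv.Perm (Fin n)} (hσ : σ ∈ sF n j) {a : ℕ} (ha : a < j) :
    pN n σ a = a := by
  unfold pN
  by_cases h : a < n
  · rw [dif_pos h, (Finset.mem_filter.1 hσ).2 ⟨a, h⟩ ha]
  · rw [dif_neg h]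

private theorem lp_pN' {n j : ℕ} {σ : Equiv.Perm (Fin n)} (hσ : σ ∈ sF n j) {a : ℕ} (ha : j ≤ a) :
    j ≤ pN n σ a := by
  by_contra hcon
  rw [not_le] at hcon
  have h1 := pN_inj n σ (lp_pN hσ hcon)
  omega

private theorem lp_ex_map {n j : ℕ} {σ : Equiv.Perm (Fin n)} (hσ : σ ∈ sF n j) : ∀ v : List ℕ,
    (∀ i ∈ v, i < n) → v.map (pN n σ) ∈ lpEx j (Finset.Ico j n) (v.map (fun i => min i j)) := by
  intro v
  induction v with
  | nil => intro _; simp [lpEx]
  | cons a v ih =>
    intro hv
    have ih' := ih (fun i hi => hv i (List.mem_cons_of_mem _ hi))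
    rw [List.map_cons, List.map_cons]
    rcases Nat.lt_or_ge a j with h | h
    · rw [min_eq_left h.le, lpEx_cons_ne (by omega)]
      exact ⟨_, by rw [lp_pN hσ h], ih'⟩
    · rw [min_eq_right h, lpEx_cons_eq]
      exact ⟨_, _, rfl, Finset.mem_Ico.2 ⟨lp_pN' hσ h, pN_lt σ (hv a (by simp))⟩, ih'⟩

theorem linP_col {n j : ℕ} (hj : j < n) {f : P} (hf : f ∈ Ml n) : linP n j (col j f) = sP n j f := by
  refine Ml_ind (C := fun f => linP n j (col j f) = sP n j f) ?_ ?_ ?_ ?_ hf
  · rw [map_zero, map_zero, map_zero]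
  · intro f g hf hg
    rw [map_add, map_add, map_add, hf, hg]
  · intro c f hf
    rw [map_zsmul, map_zsmul, map_smul, hf]
  · intro v hv
    have hn : ∀ i ∈ v, i < n := fun i hi => List.mem_range.1 (hv.mem_iff.1 hi)
    have hn' : ∀ i < n, i ∈ v := fun i hi => hv.mem_iff.2 (List.mem_range.2 hi)
    have hlv : v.length = n := by rw [hv.length_eq, List.length_range]
    have hnd : v.Nodup := hv.nodup_iff.2 List.nodup_range
    rw [col_mon, lp_mon (n := n) (j := j) (w := v.map (fun i => min i j))
      (fun i hi => by obtain ⟨a, _, rfl⟩ := List.mem_map.1 hi; exact min_le_right _ _)]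
    unfold sP
    rw [LinearMap.sum_apply]
    symm
    refine Finset.sum_nbij (fun σ => v.map (pN n σ)) ?_ ?_ ?_ ?_
    · intro σ hσ
      rw [Finset.mem_filter]
      refine ⟨lp_ex_map hσ v hn, ?_⟩
      intro i hi
      rw [List.mem_toFinset, (perm_map σ hv).mem_iff, List.mem_range]
      exact (Finset.mem_Ico.1 hi).2
    · intro σ _ τ _ h
      have h1 : v.map (pN n σ) = v.map (pN n τ) := h
      rw [List.map_inj_left] at h1
      ext ⟨a, ha⟩
      have h2 := h1 a (hn' a ha)
      unfold pN at h2
      rwa [dif_pos ha, dif_pos ha] at h2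
    · intro u hu
      rw [Finset.mem_coe, Finset.mem_filter] at hu
      have hup : u.Perm (List.range n) := by
        refine lp_perm (fun i hi => ?_) (by rw [List.length_map, hlv]) hu.1 hu.2
        rw [List.mem_map]
        exact ⟨i, hn' i (by omega), min_eq_left hi.le⟩
      have hlu : u.length = n := by rw [hup.length_eq, List.length_range]
      have hun : u.Nodup := hup.nodup_iff.2 List.nodup_range
      have hidx : ∀ a : Fin n, v.idxOf (a : ℕ) < u.length := by
        intro a
        have h1 := List.idxOf_lt_length_iff.2 (hn' a a.2)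
        omega
      obtain ⟨F, hF⟩ : ∃ F : Fin n → Fin n, ∀ a, (F a : ℕ) = u[v.idxOf (a : ℕ)]'(hidx a) :=
        ⟨fun a => ⟨u[v.idxOf (a : ℕ)]'(hidx a),
          List.mem_range.1 (hup.mem_iff.1 (List.getElem_mem _))⟩, fun a => rfl⟩
      have hFi : Function.Injective F := by
        intro a b hab
        have h1 : u[v.idxOf (a : ℕ)]'(hidx a) = u[v.idxOf (b : ℕ)]'(hidx b) := by
          rw [← hF, ← hF, hab]
        have h2 := (hun.getElem_inj_iff).1 h1
        exact Fin.ext ((List.idxOf_inj (hn' a a.2)).1 h2)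
      have hb := Finite.injective_iff_bijective.1 hFi
      refine ⟨Equiv.ofBijective F hb, ?_, ?_⟩
      · rw [Finset.mem_coe]
        unfold sF
        rw [Finset.mem_filter]
        refine ⟨Finset.mem_univ _, fun a ha => Fin.ext ?_⟩
        rw [Equiv.ofBijective_apply, hF]
        have h1 : v.idxOf (a : ℕ) < (v.map (fun i => min i j)).length := by
          rw [List.length_map]
          exact List.idxOf_lt_length_iff.2 (hn' a a.2)
        have h2 : (v.map (fun i => min i j))[v.idxOf (a : ℕ)] = a := by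
          rw [List.getElem_map, List.getElem_idxOf]
          exact min_eq_left ha.le
        rw [lpEx_get _ u hu.1 _ h1 (hidx a) (by rw [h2]; omega), h2]
      · show v.map (pN n (Equiv.ofBijective F hb)) = u
        apply List.ext_getElem
        · rw [List.length_map, hlv, hlu]
        · intro i h1 h2
          rw [List.getElem_map]
          rw [List.length_map] at h1
          unfold pN
          rw [dif_pos (hn _ (List.getElem_mem h1)), Equiv.ofBijective_apply, hF]
          congr 1
          exact hnd.idxOf_getElem i h1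
    · intro σ _
      rw [tl_apply, rn_mon]

private theorem lp_good {n j : ℕ} (hj : j < n) {w : List ℕ}
    (hw : w.Perm (List.range j ++ List.replicate (n - j) j)) : linP n j (mon w) ∈ Ml n := by
  refine linP_Ml hj (fun i hi => ?_) ?_ (fun i hi => ?_)
  · rw [hw.count_eq, List.count_append, List.count_replicate,
      List.count_eq_one_of_mem List.nodup_range (List.mem_range.2 hi), if_neg (by simp; omega)]
  · rw [hw.count_eq, List.count_append, List.count_replicate_self, List.count_eq_zero.2 (by simp),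
      zero_add]
  · rw [hw.mem_iff, List.mem_append, List.mem_range, List.mem_replicate] at hi
    omega

private theorem lp_ofFn {j : ℕ} (σ : Equiv.Perm (Fin j)) :
    (List.ofFn (fun i : Fin j => ((σ i : Fin j) : ℕ))).Perm (List.range j) := by
  have h1 := Equiv.Perm.ofFn_comp_perm σ (fun i : Fin j => (i : ℕ))
  have h2 : List.ofFn (fun i : Fin j => (i : ℕ)) = List.range j := by
    apply List.ext_getElem
    · simp
    · intro i h1 h2
      simp
  rw [h2] at h1
  exact h1

private theorem lp_X (w : List ℕ) : (w.map X).prod = mon w := rfl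

private theorem lp_rep (j N : ℕ) : X j ^ N = mon (List.replicate N j) := by
  unfold mon
  rw [List.map_replicate, List.prod_replicate]

theorem linP_V1 {n j : ℕ} (hj : j < n) : linP n j (V1 j (n - j)) ∈ Ml n := by
  unfold V1 St
  rw [Finset.sum_mul, map_sum]
  refine Submodule.sum_mem _ fun σ _ => ?_
  rw [smul_mul_assoc, map_smul]
  refine Submodule.smul_mem _ _ ?_
  have h1 : List.ofFn (fun i : Fin j => X (σ i)) = (List.ofFn (fun i : Fin j => ((σ i : Fin j) : ℕ))).map X := by
    rw [List.map_ofFn]
    rfl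
  rw [h1, lp_X, lp_rep, ← mon_append]
  exact lp_good hj ((lp_ofFn σ).append_right _)

/-- `1 ≤ j` -/
theorem linP_V2 {n j : ℕ} (h1 : 1 ≤ j) (hj : j < n) : linP n j (V2 j (n - j)) ∈ Ml n := by
  unfold V2 St'
  rw [Finset.sum_mul, map_sum]
  refine Submodule.sum_mem _ fun σ _ => ?_
  rw [smul_mul_assoc, map_smul]
  refine Submodule.smul_mem _ _ ?_
  obtain ⟨w, hw⟩ : ∃ w, w = List.ofFn (fun i : Fin j => ((σ i : Fin j) : ℕ)) := ⟨_, rfl⟩
  have h2 : List.ofFn (fun i : Fin j => X (σ i)) = w.map X := by
    rw [hw, List.map_ofFn]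
    rfl
  have hp : w.Perm (List.range j) := by
    rw [hw]
    exact lp_ofFn σ
  rw [h2, ← List.map_take, ← List.map_drop, lp_X, lp_X, lp_rep, ← mon_single j, mul_sub, sub_mul,
    ← mon_append, ← mon_append, ← mon_append, ← mon_append, ← mon_append, ← mon_append, map_sub]
  have h3 : List.replicate (n - j) j = [j] ++ List.replicate (n - j - 1) j := by
    obtain ⟨m, hm⟩ : ∃ m, n - j = m + 1 := ⟨n - j - 1, by omega⟩
    rw [hm, List.replicate_succ]
    rfl
  have hA : (w.take (j - 1) ++ (w.drop (j - 1) ++ [j]) ++ List.replicate (n - j - 1) j).Perm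
      (List.range j ++ List.replicate (n - j) j) := by
    rw [h3, ← List.append_assoc, List.take_append_drop, List.append_assoc]
    exact hp.append_right _
  refine Submodule.sub_mem _ (lp_good hj hA) (lp_good hj (List.Perm.trans ?_ hA))
  exact (List.Perm.append_left _ List.perm_append_comm).append_right _

end ADC
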