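import Pool.Agent.ADC.Z2
import Pool.Agent.ADC.LinP

/-!
# ADC-Z9

Type `a = 1, b = 0` with `x^p ∈ J` (proved, helper37).
-/

namespace ADC

open AD ADN

/-- a word with the letters of `w` and last letter `i` -/
private theorem z9_last {u w : List ℕ} {i : ℕ} (h : (u ++ [i]).Perm w) : u.Perm (w.erase i) := by
  have h1 : (i :: u).Perm w := (List.perm_append_singleton i u).symm.trans h
  have h2 := h1.erase i
  rwa [List.erase_cons_head] at h2

private theorem z9_Yw {p : ℕ} {J : Submodule ℤ P} (hD : Dn 4 ≤ J) (hp : 4 ≤ p) {u : List ℕ} {i : ℕ}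
    (h : (u ++ [i]).Perm (List.range p)) : mon (u ++ [i]) - Yw p i ∈ J := by
  have h1 := z9_last h
  have h2 := perm_Dn h1 (w := [i]) (by simp)
  have h3 := h.length_eq
  rw [List.length_append, List.length_range] at h3
  rw [h3] at h2
  exact hD (Dn_anti hp h2)

private theorem z9_count {p : ℕ} (hp : 1 ≤ p) (a : Fin p) (g : Fin p → P) :
    ∑ σ : Equiv.Perm (Fin p), g (σ a) = ((p - 1).factorial : ℤ) • ∑ i, g i := by
  classical
  have h1 : ∑ σ : Equiv.Perm (Fin p), g (σ a) =
      ∑ i : Fin p, ((Finset.univ.filter fun σ : Equiv.Perm (Fin p) => σ a = i).card : ℤ) • g i := by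
    rw [← Finset.sum_fiberwise Finset.univ (fun σ : Equiv.Perm (Fin p) => σ a)]
    refine Finset.sum_congr rfl fun i _ => ?_
    rw [Finset.sum_congr rfl (g := fun _ => g i) fun σ hσ => by rw [(Finset.mem_filter.1 hσ).2],
      Finset.sum_const, ← natCast_zsmul]
  have h2 : ∀ i j : Fin p, (Finset.univ.filter fun σ : Equiv.Perm (Fin p) => σ a = i).card =
      (Finset.univ.filter fun σ : Equiv.Perm (Fin p) => σ a = j).card := by
    intro i j
    refine Finset.card_bij (fun σ _ => Equiv.swap i j * σ) ?_ ?_ ?_
    · intro σ hσ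
      rw [Finset.mem_filter] at hσ ⊢
      refine ⟨Finset.mem_univ _, ?_⟩
      rw [Equiv.Perm.mul_apply, hσ.2, Equiv.swap_apply_left]
    · intro σ _ τ _ h
      exact mul_left_cancel h
    · intro σ hσ
      rw [Finset.mem_filter] at hσ
      refine ⟨Equiv.swap i j * σ, ?_, ?_⟩
      · rw [Finset.mem_filter]
        refine ⟨Finset.mem_univ _, ?_⟩
        rw [Equiv.Perm.mul_apply, hσ.2, Equiv.swap_apply_right]
      · rw [← mul_assoc, Equiv.swap_mul_self, one_mul]
  have h3 : ∑ i : Fin p, (Finset.univ.filter fun σ : Equiv.Perm (Fin p) => σ a = i).card =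
      p.factorial := by
    rw [← Finset.card_eq_sum_card_fiberwise (fun σ _ => Finset.mem_univ _), Finset.card_univ,
      Fintype.card_perm, Fintype.card_fin]
  have h4 : ∀ i : Fin p, (Finset.univ.filter fun σ : Equiv.Perm (Fin p) => σ a = i).card =
      (p - 1).factorial := by
    intro i
    rw [Finset.sum_congr rfl (g := fun _ =>
      (Finset.univ.filter fun σ : Equiv.Perm (Fin p) => σ a = i).card) fun j _ => h2 j i,
      Finset.sum_const, Finset.card_univ, Fintype.card_fin, smul_eq_mul] at h3
    obtain ⟨q, rfl⟩ : ∃ q, p = q + 1 := ⟨p - 1, by omega⟩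
    rw [Nat.factorial_succ] at h3
    exact Nat.eq_of_mul_eq_mul_left (by omega) h3
  rw [h1, Finset.smul_sum]
  refine Finset.sum_congr rfl fun i _ => ?_
  rw [h4]

theorem Z9a {p : ℕ} {J : Submodule ℤ P} (h : Tame p J 1 0) (hx : X 0 ^ p ∈ J) :
    ∑ i ∈ Finset.range p, Yw p i ∈ J := by
  have h5 := h.five
  have hD := GenZ h
  have hml : mw p ∈ Ml p := Ml_mon (List.Perm.refl _)
  have h1 : col 0 (mw p) = X 0 ^ p := by
    unfold mw
    rw [col_mon]
    have h2 : (List.range p).map (fun i => min i 0) = List.replicate p 0 := by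
      rw [List.eq_replicate_iff]
      refine ⟨by simp, ?_⟩
      intro b hb
      obtain ⟨a, -, rfl⟩ := List.mem_map.1 hb
      simp
    rw [h2]
    unfold mon
    rw [List.map_replicate, List.prod_replicate]
  have h2 : sP p 0 (mw p) ∈ J := by
    rw [← linP_col (by omega) hml, h1]
    exact TOp_linP p p 0 J h.isT h.mul.sq _ hx
  obtain ⟨q, hq⟩ : ∃ q, p = q + 1 := ⟨p - 1, by omega⟩
  have hqp : q < p := by omega
  have h3 : sP p 0 (mw p) - ∑ σ : Equiv.Perm (Fin p), Yw p (σ ⟨q, hqp⟩) ∈ J := by
    have h4 : sF p 0 = Finset.univ := by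
      unfold sF
      rw [Finset.filter_true_of_mem]
      intro σ _ i hi
      exact absurd hi (Nat.not_lt_zero _)
    unfold sP
    rw [h4, LinearMap.sum_apply, ← Finset.sum_sub_distrib]
    refine Submodule.sum_mem _ fun σ _ => ?_
    rw [tl_apply]
    unfold mw
    rw [rn_mon]
    have h6 : (List.range p).map (pN p σ) =
        (List.range q).map (pN p σ) ++ [((σ ⟨q, hqp⟩ : Fin p) : ℕ)] := by
      have h7 : List.range p = List.range q ++ [q] := by rw [hq, List.range_succ]
      rw [h7, List.map_append, List.map_singleton]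
      congr 2
      unfold pN
      rw [dif_pos hqp]
    have h8 := perm_map σ (List.Perm.refl (List.range p))
    rw [h6] at h8 ⊢
    exact z9_Yw hD (by omega) h8
  have h4 : ∑ σ : Equiv.Perm (Fin p), Yw p (σ ⟨q, hqp⟩) ∈ J := by
    have h6 := J.sub_mem h2 h3
    rwa [sub_sub_cancel] at h6
  rw [z9_count (by omega) ⟨q, hqp⟩ (fun i => Yw p i)] at h4
  have h6 : ∑ i ∈ Finset.range p, Yw p i = ∑ i : Fin p, Yw p i := Finset.sum_range _
  rw [h6]
  refine cancel h.pp h.mul.sq ?_ ?_ h4
  · intro hdvd
    have h7 := (h.pp.dvd_factorial).1 (Int.natCast_dvd_natCast.1 hdvd)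
    omega
  · refine Submodule.sum_mem _ fun i _ => ?_
    exact mon_mem (by simp)

private theorem z9_word (u v : List ℕ) (i j : ℕ) :
    mon u * cm i j * mon v = mon (u ++ i :: j :: v) - mon (u ++ j :: i :: v) := by
  unfold cm
  rw [mon_append, mon_append, mon_cons, mon_cons, mon_cons, mon_cons, mul_sub, sub_mul]
  simp only [mul_assoc]

/-- substitution of letters and multiplication by words -/
private theorem z9_all {k : ℕ} {J : Submodule ℤ P} (hJ : IsT J)
    (h : mon (List.range' 1 k) * cm 0 (k + 1) ∈ J) {u : List ℕ} (hu : k ≤ u.length) (i j : ℕ) :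
    mon u * cm i j ∈ J := by
  have h1 : ∀ v : List ℕ, v.length = k → mon v * cm i j ∈ J := by
    intro v hv
    have h2 := sb_mem hJ (φ := fun a => if a = 0 then X i else if a = k + 1 then X j else
      X (v.getD (a - 1) 0)) (fun a => by
        show (if a = 0 then X i else if a = k + 1 then X j else X (v.getD (a - 1) 0)) ∈ Pp
        split_ifs <;> exact X_mem _) h
    rw [map_mul, sb_mon] at h2
    have h3 : (List.range' 1 k).map (fun a => if a = 0 then X i else if a = k + 1 then X j else
        X (v.getD (a - 1) 0)) = v.map X := by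
      apply List.ext_getElem
      · simp [hv]
      · intro n h4 h5
        rw [List.length_map, List.length_range'] at h4
        rw [List.getElem_map, List.getElem_map, List.getElem_range', if_neg (by omega),
          if_neg (by omega)]
        have h6 : 1 + 1 * n - 1 = n := by omega
        rw [h6, List.getD_eq_getElem _ _ (by omega)]
    have h4 : sb (fun a => if a = 0 then X i else if a = k + 1 then X j else
        X (v.getD (a - 1) 0)) (cm 0 (k + 1)) = cm i j := by
      unfold cm
      rw [map_sub, map_mul, map_mul, sb_X, sb_X, if_pos rfl, if_neg (by omega), if_pos rfl]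
    rw [h3, h4] at h2
    exact h2
  have h2 : u = u.take (u.length - k) ++ u.drop (u.length - k) := (List.take_append_drop _ _).symm
  rw [h2, mon_append, mul_assoc]
  refine hJ.mul_left _ (h1 _ ?_) _
  rw [List.length_drop]
  omega

theorem Z9b {p : ℕ} {J : Submodule ℤ P} (h : Tame p J 1 0) (hx : X 0 ^ p ∈ J) : Cn (p + 1) ≤ J := by
  have h5 := h.five
  have hD := GenZ h
  have ha := Z9a h hx
  -- multiplication by a new letter
  have h1 : ∑ i ∈ Finset.range p, mon (p :: ((List.range p).erase i ++ [i])) ∈ J := by
    have h2 := h.isT.mul_left _ ha (X p)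
    rw [Finset.mul_sum] at h2
    exact h2
  -- interchange `0` and `p`
  obtain ⟨τ, hτ⟩ : ∃ τ : ℕ → ℕ, τ = fun a => if a = 0 then p else if a = p then 0 else a := ⟨_, rfl⟩
  have h2 : ∑ i ∈ Finset.range p, mon ((p :: ((List.range p).erase i ++ [i])).map τ) ∈ J := by
    have h3 := sb_mem h.isT (φ := fun a => X (τ a)) (fun a => X_mem _) h1
    rw [map_sum] at h3
    rw [Finset.sum_congr rfl (g := fun i =>
      sb (fun a => X (τ a)) (mon (p :: ((List.range p).erase i ++ [i]))))]
    · exact h3
    · intro i _
      rw [sb_mon]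
      unfold mon
      rw [List.map_map]
      rfl
  have h3 := J.sub_mem h1 h2
  rw [← Finset.sum_sub_distrib, Finset.sum_eq_sum_sdiff_singleton_add (Finset.mem_range.2
    (show 0 < p by omega))] at h3
  have h4 : ∑ i ∈ Finset.range p \ {0}, (mon (p :: ((List.range p).erase i ++ [i])) -
      mon ((p :: ((List.range p).erase i ++ [i])).map τ)) ∈ J := by
    refine Submodule.sum_mem _ fun i hi => ?_
    rw [Finset.mem_sdiff, Finset.mem_range, Finset.mem_singleton] at hi
    have h6 : (p :: ((List.range p).erase i ++ [i])).map τ =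
        (p :: (List.range p).erase i).map τ ++ [i] := by
      rw [← List.cons_append, List.map_append, List.map_singleton]
      congr 2
      rw [hτ]
      show (if i = 0 then p else if i = p then 0 else i) = i
      rw [if_neg hi.2, if_neg (by omega)]
    rw [h6, ← List.cons_append]
    have h7 : (p :: (List.range p).erase i).Perm ((p :: (List.range p).erase i).map τ) := by
      have hnd : (p :: (List.range p).erase i).Nodup := by
        rw [List.nodup_cons]
        refine ⟨fun hm => ?_, List.Nodup.erase _ List.nodup_range⟩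
        have := List.mem_range.1 (List.mem_of_mem_erase hm)
        omega
      have hmem : ∀ a, a ∈ (p :: (List.range p).erase i) ↔ a ≤ p ∧ a ≠ i := by
        intro a
        rw [List.mem_cons, List.Nodup.mem_erase_iff List.nodup_range, List.mem_range]
        omega
      have hinj : Function.Injective τ := by
        intro a b hab
        rw [hτ] at hab
        simp only at hab
        split_ifs at hab <;> omega
      rw [List.perm_ext_iff_of_nodup hnd (hnd.map hinj)]
      intro a
      rw [hmem, List.mem_map]
      constructor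
      · rintro ⟨h8, h9⟩
        refine ⟨τ a, (hmem _).2 ?_, ?_⟩
        · rw [hτ]
          simp only
          split_ifs <;> omega
        · rw [hτ]
          simp only
          split_ifs <;> omega
      · rintro ⟨c, hc, rfl⟩
        rw [hmem] at hc
        rw [hτ]
        simp only
        split_ifs <;> omega
    have h8 := perm_Dn h7 (w := [i]) (by simp)
    refine hD (Dn_anti ?_ h8)
    rw [List.length_cons, List.length_erase_of_mem (List.mem_range.2 hi.1), List.length_range,
      List.length_singleton]
    omega
  have h6 := J.sub_mem h3 h4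
  rw [add_sub_cancel_left] at h6
  -- the commutator
  have he : (List.range p).erase 0 = List.range' 1 (p - 1) := by
    obtain ⟨q, hq⟩ : ∃ q, p = q + 1 := ⟨p - 1, by omega⟩
    rw [hq, List.range_succ_eq_map, List.erase_cons_head, Nat.add_sub_cancel,
      List.range'_eq_map_range]
    refine List.map_congr_left fun a _ => ?_
    omega
  have hτ0 : (List.range' 1 (p - 1)).map τ = List.range' 1 (p - 1) := by
    have : ∀ a ∈ List.range' 1 (p - 1), τ a = id a := by
      intro a ha
      rw [List.mem_range'_1] at ha
      rw [hτ]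
      show (if a = 0 then p else if a = p then 0 else a) = a
      rw [if_neg (by omega), if_neg (by omega)]
    rw [List.map_congr_left this, List.map_id]
  have hτp : τ p = 0 := by
    rw [hτ]
    show (if p = 0 then p else if p = p then 0 else p) = 0
    rw [if_neg (by omega), if_pos rfl]
  have hτ00 : τ 0 = p := by
    rw [hτ]
    rfl
  rw [he, List.map_cons, List.map_append, List.map_singleton, hτ0, hτp, hτ00] at h6
  have h7 : mon (List.range' 1 (p - 1)) * cm 0 (p - 1 + 1) ∈ J := by
    have hp1 : p - 1 + 1 = p := by omega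
    have h8 := z9_word (List.range' 1 (p - 1)) [] 0 p
    rw [mon_nil, mul_one] at h8
    rw [hp1, h8]
    have hl : (List.range' 1 (p - 1)).length = p - 1 := List.length_range'
    have h9 : mon (List.range' 1 (p - 1) ++ [0, p]) - mon (0 :: (List.range' 1 (p - 1) ++ [p])) ∈ J := by
      have h10 : (List.range' 1 (p - 1) ++ [0]).Perm (0 :: List.range' 1 (p - 1)) :=
        List.perm_append_singleton _ _
      have h11 := perm_Dn h10 (w := [p]) (by simp)
      rw [List.length_append, hl, List.length_singleton, List.length_singleton,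
        List.append_assoc, List.cons_append] at h11
      exact hD (Dn_anti (by omega) h11)
    have h10 : mon (List.range' 1 (p - 1) ++ [p, 0]) - mon (p :: (List.range' 1 (p - 1) ++ [0])) ∈ J := by
      have h10 : (List.range' 1 (p - 1) ++ [p]).Perm (p :: List.range' 1 (p - 1)) :=
        List.perm_append_singleton _ _
      have h11 := perm_Dn h10 (w := [0]) (by simp)
      rw [List.length_append, hl, List.length_singleton, List.length_singleton,
        List.append_assoc, List.cons_append] at h11
      exact hD (Dn_anti (by omega) h11)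
    have h11 : mon (List.range' 1 (p - 1) ++ [0, p]) - mon (List.range' 1 (p - 1) ++ [p, 0]) =
        (mon (List.range' 1 (p - 1) ++ [0, p]) - mon (0 :: (List.range' 1 (p - 1) ++ [p]))) -
        (mon (List.range' 1 (p - 1) ++ [p, 0]) - mon (p :: (List.range' 1 (p - 1) ++ [0]))) -
        (mon (p :: (List.range' 1 (p - 1) ++ [0])) - mon (0 :: (List.range' 1 (p - 1) ++ [p]))) := by
      abel
    rw [h11]
    exact J.sub_mem (J.sub_mem h9 h10) h6
  refine (Cn_eq (p + 1)).trans (sup_le ((Dn_anti (by omega)).trans hD) (Submodule.span_le.2 ?_))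
  rintro f ⟨u, i, j, hu, rfl⟩
  exact z9_all h.isT h7 (by omega) i j

end ADC
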