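import Pool.Agent.ADC.Cs
import Pool.Agent.ADC.Z9
import Pool.Agent.ADC.Opp

/-!
# ADC-C1w

Two words.  `Tame p J α β`, `Grs p J`.  Claim: `(x y)^p ∈ J`, and if `x^p ∈ J` then `x (y x)^(p-1) ∈ J`.

If `p ∤ α`: `p ∣ β`: `Tame p J 1 0` (`Tame.scale`): `(xy)^p` has length `2p ≥ p+3` and its dropLast contains `x` `p` times: `Zlong`.  If `x^p ∈ J`: `Cn (p+1) ≤ J` (`Z9b`),
and `x (yx)^(p-1)` has length `2p - 1 ≥ p + 1` and contains `x` `p` times: `≡ x^p y^(p-1)` (`perm_Cn`), in `J`.
`p ∤ β`: `Cn (p+2) ≤ J` in all three cases (`GenG`, `GenM`, `GenO`): `(xy)^p ∈ J ⊔ Cn (2p) ≤ J` by `nonm`; `x (yx)^(p-1) ≡ x^p y^(p-1)` modulo `Cn (2p-1) ≤ J`.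
If `p ∣ α` (then `p ∤ β`): the opposite T-ideal: `Tame p (op J) 1 0`, so `(yx)^p ∈ op J`-statements: `rv ((xy)^p) = (yx)^p` and `rv (x (yx)^(p-1)) = x (yx)^(p-1)`, `rv (x^p) = x^p`.
-/

namespace ADC

open AD ADN

/-- the words `(ab)^n` -/
private def al (a b : ℕ) : ℕ → List ℕ
  | 0 => []
  | n + 1 => a :: b :: al a b n

private theorem al_len (a b n : ℕ) : (al a b n).length = 2 * n := by
  induction n with
  | zero => rfl
  | succ n ih =>
    show (al a b n).length + 1 + 1 = 2 * (n + 1)
    omega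

private theorem al_mon (a b n : ℕ) : mon (al a b n) = (X a * X b) ^ n := by
  induction n with
  | zero => rw [pow_zero]; exact mon_nil
  | succ n ih =>
    show mon (a :: b :: al a b n) = _
    rw [mon_cons, mon_cons, ih, pow_succ', mul_assoc]

private theorem al_perm (a b n : ℕ) : (al a b n).Perm (List.replicate n a ++ List.replicate n b) := by
  induction n with
  | zero => exact List.Perm.refl _
  | succ n ih =>
    show (a :: b :: al a b n).Perm _
    rw [List.replicate_succ, List.replicate_succ, List.cons_append]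
    exact (List.Perm.cons a ((List.Perm.cons b ih).trans List.perm_middle.symm))

private theorem al_snoc (a b n : ℕ) : al a b (n + 1) = a :: (al b a n ++ [b]) := by
  induction n with
  | zero => rfl
  | succ n ih =>
    show a :: b :: al a b (n + 1) = a :: (b :: a :: al b a n ++ [b])
    rw [ih]
    rfl

private theorem al_count (a b n : ℕ) (h : a ≠ b) : (al a b n).count a = n ∧ (al a b n).count b = n := by
  have h1 := (al_perm a b n)
  have h2 : ¬ b = a := fun h' => h h'.symm
  rw [h1.count_eq, h1.count_eq]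
  simp [List.count_append, List.count_replicate, h, h2]

private theorem rep_mon (i n : ℕ) : mon (List.replicate n i) = X i ^ n := by
  unfold mon
  rw [List.map_replicate, List.prod_replicate]

/-- the second word -/
private theorem c1_second {p : ℕ} {J : Submodule ℤ P} (hp : 5 ≤ p) (hJ : IsT J) (hC : Cn (p + 2) ≤ J)
    (hx : X 0 ^ p ∈ J) : X 0 * (X 1 * X 0) ^ (p - 1) ∈ J := by
  have h1 : X 0 * (X 1 * X 0) ^ (p - 1) = mon (0 :: al 1 0 (p - 1)) := by
    rw [mon_cons, al_mon]
  have h2 : (0 :: al 1 0 (p - 1)).Perm (List.replicate p 0 ++ List.replicate (p - 1) 1) := by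
    have h3 : (0 :: al 1 0 (p - 1)).Perm (0 :: (List.replicate (p - 1) 1 ++ List.replicate (p - 1) 0)) :=
      List.Perm.cons 0 (al_perm 1 0 (p - 1))
    refine h3.trans ((List.Perm.cons 0 List.perm_append_comm).trans ?_)
    obtain ⟨q, rfl⟩ : ∃ q, p = q + 1 := ⟨p - 1, by omega⟩
    rw [Nat.add_sub_cancel, List.replicate_succ, List.cons_append]
  have h4 := perm_Cn h2
  rw [List.length_cons, al_len] at h4
  have h5 := hC (Cn_anti (by omega : p + 2 ≤ 2 * (p - 1) + 1) h4)
  rw [h1]
  have h6 : mon (List.replicate p 0 ++ List.replicate (p - 1) 1) ∈ J := by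
    rw [mon_append, rep_mon]
    exact hJ.mul_right _ hx _
  have h7 := J.add_mem h5 h6
  rwa [sub_add_cancel] at h7

private theorem c1_A {p : ℕ} {J : Submodule ℤ P} {α β : ℤ} (h : Tame p J α β) (hC : Cn (p + 2) ≤ J) :
    (X 0 * X 1) ^ p ∈ J ∧ (X 0 ^ p ∈ J → X 0 * (X 1 * X 0) ^ (p - 1) ∈ J) := by
  have h5 := h.five
  refine ⟨?_, c1_second h5 h.isT hC⟩
  rw [← al_mon]
  have h1 := nonm h.toBas h.t2 (w := al 0 1 p) (by rw [al_len]; omega) (i := 0)
    (by rw [(al_count 0 1 p (by norm_num)).1])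
  rw [al_len] at h1
  exact (sup_le le_rfl ((Cn_anti (by omega : p + 2 ≤ 2 * p)).trans hC)) h1

private theorem c1_B {p : ℕ} {J : Submodule ℤ P} (h : Tame p J 1 0) :
    (X 0 * X 1) ^ p ∈ J ∧ (X 0 ^ p ∈ J → X 0 * (X 1 * X 0) ^ (p - 1) ∈ J) := by
  have h5 := h.five
  refine ⟨?_, fun hx => c1_second h5 h.isT ((Cn_anti (by omega)).trans (Z9b h hx)) hx⟩
  rw [← al_mon]
  refine Zlong h (i := 0) (by rw [al_len]; omega) ?_
  obtain ⟨q, rfl⟩ : ∃ q, p = q + 1 := ⟨p - 1, by omega⟩
  rw [al_snoc, ← List.cons_append, List.dropLast_concat]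
  have h1 := (al_count 1 0 q (by norm_num)).2
  rw [List.count_cons, h1]
  simp

theorem C1w {p : ℕ} {J : Submodule ℤ P} {α β : ℤ} (h : Tame p J α β) (hg : Grs p J) :
    (X 0 * X 1) ^ p ∈ J ∧ (X 0 ^ p ∈ J → X 0 * (X 1 * X 0) ^ (p - 1) ∈ J) := by
  have h5 := h.five
  by_cases ha : (p : ℤ) ∣ α
  · have hb : ¬ (p : ℤ) ∣ β := fun hb => h.ab ⟨ha, hb⟩
    have h1 : Tame p (op J) 1 0 := by
      refine (Tame_op h).scale hb ?_ ?_
      · rw [mul_one, sub_self]
        exact dvd_zero _
      · rwa [mul_zero, sub_zero]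
    obtain ⟨h2, h3⟩ := c1_B h1
    have e0 : ∀ n i, rv (X i ^ n) = X i ^ n := by
      intro n i
      rw [← rep_mon, rv_mon, List.reverse_replicate]
    have e1 : ∀ n a b, rv ((X a * X b) ^ n) = (X b * X a) ^ n := by
      intro n a b
      induction n with
      | zero => rw [pow_zero, pow_zero, ← mon_nil, rv_mon, List.reverse_nil]
      | succ n ih =>
        rw [pow_succ, rv_mul, ih, rv_mul, pow_succ']
        have e2 : ∀ i, rv (X i) = X i := by
          intro i
          have := e0 1 i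
          rwa [pow_one] at this
        rw [e2, e2]
    refine ⟨?_, fun hx => ?_⟩
    · rw [mem_op, e1] at h2
      have h4 := sb_mem h.isT (φ := fun i => if i = 0 then X 1 else X 0) (by
        intro i
        split_ifs
        · exact X_mem 1
        · exact X_mem 0) h2
      rw [map_pow, map_mul, sb_X, sb_X, if_neg (by norm_num), if_pos rfl] at h4
      exact h4
    · have h4 := h3 (by rw [mem_op, e0]; exact hx)
      rw [mem_op, rv_mul, e1] at h4
      have e2 : rv (X 0) = X 0 := by
        have := e0 1 0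
        rwa [pow_one] at this
      have e3 : (X 0 * X 1 : P) ^ (p - 1) * X 0 = X 0 * (X 1 * X 0) ^ (p - 1) := by
        have key : ∀ n : ℕ, (X 0 * X 1 : P) ^ n * X 0 = X 0 * (X 1 * X 0) ^ n := by
          intro n
          induction n with
          | zero => rw [pow_zero, pow_zero, one_mul, mul_one]
          | succ n ih => rw [pow_succ', mul_assoc, ih, pow_succ']; simp only [mul_assoc]
        exact key _
      rwa [e2, e3] at h4
  by_cases hb : (p : ℤ) ∣ β
  · refine c1_B (h.scale ha ?_ ?_)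
    · rw [mul_one, sub_self]
      exact dvd_zero _
    · rwa [mul_zero, sub_zero]
  · refine c1_A h ?_
    by_cases h1 : (p : ℤ) ∣ α - β
    · have h2 : Tame p J 1 1 := by
        refine h.scale ha ?_ ?_
        · rw [mul_one, sub_self]
          exact dvd_zero _
        · rw [mul_one, ← neg_sub]
          exact (dvd_neg).2 h1
      exact (Cn_anti (by omega)).trans (GenM h2)
    by_cases h2 : (p : ℤ) ∣ α + β
    · have h3 : Tame p J 1 (-1) := by
        refine h.scale ha ?_ ?_
        · rw [mul_one, sub_self]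
          exact dvd_zero _
        · rw [mul_neg, mul_one, sub_neg_eq_add, add_comm]
          exact h2
      exact (GenO h3 hg).1
    · have h3 : ¬ (p : ℤ) ∣ α ^ 2 - β ^ 2 := by
        intro h4
        rw [sq_sub_sq] at h4
        rcases (Nat.prime_iff_prime_int.1 h.pp).dvd_or_dvd h4 with h4 | h4
        · exact h2 h4
        · exact h1 h4
      exact (Cn_anti (by omega)).trans (GenG h ha hb h3)

end ADC
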