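import Pool.Agent.ADC.Cnb
import Pool.Agent.AD.Main

/-!
# ADC-CSt

Sorted words.  Every `f` is congruent to `∑_m coeff_m (com f) • mon (sw m)` modulo `Cn 2`, where `sw m = (Finsupp.toMultiset m).sort` is the sorted word of the monomial `m`.
`CSt3`: if `D` is a T-ideal with `X 0 * cm 1 2 ∈ D`, `cm 0 1 * X 2 ∈ D`, then a word of length `≥ 3` is congruent modulo `D` to its permutations.
-/

namespace ADC

open AD ADN

/-- the sorted word of a monomial -/
noncomputable def sw (m : ℕ →₀ ℕ) : List ℕ := (Finsupp.toMultiset m).sort (· ≤ ·)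

theorem sw_length (m : ℕ →₀ ℕ) : (sw m).length = m.degree := by
  unfold sw
  rw [Multiset.length_sort, Finsupp.card_toMultiset]
  rfl

/-- the sum of `coeff_m g • mon (sw m)` -/
private noncomputable def cst_S (g : MvPolynomial ℕ ℤ) : P := ∑ m ∈ g.support, g.coeff m • mon (sw m)

private theorem cst_sub (g : MvPolynomial ℕ ℤ) (s : Finset (ℕ →₀ ℕ)) (h : g.support ⊆ s) :
    cst_S g = ∑ m ∈ s, g.coeff m • mon (sw m) := by
  unfold cst_S
  refine Finset.sum_subset h ?_
  intro m _ hm
  rw [MvPolynomial.notMem_support_iff.1 hm, zero_smul]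

private theorem cst_add (f g : MvPolynomial ℕ ℤ) : cst_S (f + g) = cst_S f + cst_S g := by
  classical
  rw [cst_sub (f + g) (f.support ∪ g.support) MvPolynomial.support_add,
    cst_sub f (f.support ∪ g.support) Finset.subset_union_left,
    cst_sub g (f.support ∪ g.support) Finset.subset_union_right, ← Finset.sum_add_distrib]
  refine Finset.sum_congr rfl ?_
  intro m _
  rw [MvPolynomial.coeff_add, add_smul]

private theorem cst_smul (c : ℤ) (f : MvPolynomial ℕ ℤ) : cst_S (c • f) = c • cst_S f := by
  rw [cst_sub (c • f) f.support MvPolynomial.support_smul]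
  unfold cst_S
  rw [Finset.smul_sum]
  refine Finset.sum_congr rfl ?_
  intro m _
  rw [MvPolynomial.coeff_smul, smul_assoc]

private theorem cst_com (w : List ℕ) :
    com (mon w) = MvPolynomial.monomial (Multiset.toFinsupp (w : Multiset ℕ)) 1 := by
  induction w with
  | nil =>
    rw [mon_nil, map_one]
    simp
  | cons a w ih =>
    have h1 : com (X a) = MvPolynomial.X a := by
      unfold com
      exact FreeAlgebra.lift_ι_apply _ _
    rw [mon_cons, map_mul, ih, h1, MvPolynomial.X, MvPolynomial.monomial_mul, one_mul, ← Multiset.cons_coe,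
      ← Multiset.singleton_add, Multiset.toFinsupp_add, Multiset.toFinsupp_singleton]

private theorem cst_mon (w : List ℕ) : ∃ v : List ℕ, w.Perm v ∧ cst_S (com (mon w)) = mon v := by
  refine ⟨sw (Multiset.toFinsupp (w : Multiset ℕ)), ?_, ?_⟩
  · unfold sw
    rw [Multiset.toFinsupp_toMultiset]
    exact Multiset.coe_eq_coe.1 (Multiset.sort_eq _ _).symm
  · rw [cst_com, cst_sub _ {Multiset.toFinsupp (w : Multiset ℕ)} MvPolynomial.support_monomial_subset,
      Finset.sum_singleton, MvPolynomial.coeff_monomial, if_pos rfl, one_smul]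

theorem CSt (f : P) : f - ∑ m ∈ (com f).support, (com f).coeff m • mon (sw m) ∈ Cn 2 := by
  change f - cst_S (com f) ∈ Cn 2
  refine ind_mon (C := fun f => f - cst_S (com f) ∈ Cn 2) ?_ ?_ ?_ ?_ f
  · have h : cst_S 0 = 0 := by
      unfold cst_S
      simp
    rw [map_zero, h, sub_zero]
    exact Submodule.zero_mem _
  · intro f g hf hg
    rw [map_add, cst_add, add_sub_add_comm]
    exact Submodule.add_mem _ hf hg
  · intro c f hf
    rw [map_smul, cst_smul, ← smul_sub]
    exact Submodule.smul_mem _ _ hf
  · intro w
    obtain ⟨v, hv, e⟩ := cst_mon w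
    rw [e]
    by_cases hw : 2 ≤ w.length
    · exact Cn_anti hw (perm_Cn hv)
    · have h2 : w = v := by
        match w, hv, hw with
        | [], hv, _ => exact (List.nil_perm.1 hv).symm
        | [a], hv, _ => exact (List.singleton_perm.1 hv)
        | _ :: _ :: _, _, hw => exact absurd (by simp) hw
      rw [h2, sub_self]
      exact Submodule.zero_mem _

theorem CSt3 {D : Submodule ℤ P} (hD : IsT D) (h1 : X 0 * cm 1 2 ∈ D) (h2 : cm 0 1 * X 2 ∈ D) {u v : List ℕ}
    (h : u.Perm v) (h3 : 3 ≤ u.length) : mon u - mon v ∈ D := by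
  have k1 : ∀ a i j : ℕ, X a * (X i * X j - X j * X i) ∈ D := by
    intro a i j
    have h := sb_mem hD (φ := fun k => if k = 0 then X a else if k = 1 then X i else X j)
      (fun k => by
        split_ifs
        · exact X_mem _
        · exact X_mem _
        · exact X_mem _) h1
    unfold cm at h
    rw [map_mul, map_sub, map_mul, map_mul, sb_X, sb_X, sb_X] at h
    simpa using h
  have k2 : ∀ i j a : ℕ, (X i * X j - X j * X i) * X a ∈ D := by
    intro i j a
    have h := sb_mem hD (φ := fun k => if k = 0 then X i else if k = 1 then X j else X a)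
      (fun k => by
        split_ifs
        · exact X_mem _
        · exact X_mem _
        · exact X_mem _) h2
    unfold cm at h
    rw [map_mul, map_sub, map_mul, map_mul, sb_X, sb_X, sb_X] at h
    simpa using h
  have k3 : ∀ (p s : List ℕ) (i j : ℕ), 3 ≤ p.length + (s.length + 2) →
      mon p * (X i * X j - X j * X i) * mon s ∈ D := by
    intro p s i j hl
    rcases List.eq_nil_or_concat p with rfl | ⟨q, a, rfl⟩
    · match s, hl with
      | [], hl => simp at hl
      | b :: t, _ =>
        have h := ADC.IsT.lm hD 1 (mon t) (k2 i j b)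
        rw [mon_nil, mon_cons, ← mul_assoc]
        simpa using h
    · have h := ADC.IsT.lm hD (mon q) (mon s) (k1 a i j)
      rw [List.concat_eq_append, mon_append, mon_single, mul_assoc (mon q)]
      exact h
  have key : ∀ {u v : List ℕ}, u.Perm v → ∀ p : List ℕ, 3 ≤ p.length + u.length →
      mon (p ++ u) - mon (p ++ v) ∈ D := by
    intro u v h
    induction h with
    | nil => intro p _; rw [sub_self]; exact Submodule.zero_mem _
    | cons x _ ih =>
      rename_i l1 l2 _
      intro p hp
      have h := ih (p ++ [x]) (by simp at hp ⊢; omega)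
      simpa using h
    | swap x y l =>
      intro p hp
      have e : mon (p ++ y :: x :: l) - mon (p ++ x :: y :: l) = mon p * (X y * X x - X x * X y) * mon l := by
        rw [mon_append, mon_append, mon_cons, mon_cons, mon_cons, mon_cons, mul_assoc, sub_mul, mul_sub,
          mul_assoc, mul_assoc]
      rw [e]
      exact k3 p l y x (by simpa using hp)
    | trans h1 _ ih1 ih2 =>
      rename_i l1 l2 l3 _
      intro p hp
      have e : mon (p ++ l1) - mon (p ++ l3) = (mon (p ++ l1) - mon (p ++ l2)) + (mon (p ++ l2) - mon (p ++ l3)) := by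
        abel
      rw [e]
      have := h1.length_eq
      exact Submodule.add_mem _ (ih1 p hp) (ih2 p (by omega))
  simpa using key h [] (by simpa using h3)

end ADC
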