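import Pool.Agent.ADC.Bas

/-!
# ADC-Cnb: the T-ideals `Cn`, `Dn`
-/

namespace ADC

open AD ADN

private theorem cb_gen {n : ℕ} (u v : List ℕ) (i j : ℕ) (h : n ≤ u.length + v.length + 2) :
    mon u * (X i * X j - X j * X i) * mon v ∈ Cn n :=
  Submodule.subset_span ⟨u, v, i, j, h, rfl⟩

private theorem cb_genD {n : ℕ} (u v : List ℕ) (i j : ℕ) (hv : v ≠ [])
    (h : n ≤ u.length + v.length + 2) :
    mon u * (X i * X j - X j * X i) * mon v ∈ Dn n :=
  Submodule.subset_span ⟨u, v, i, j, hv, h, rfl⟩

private theorem cb_ind {n : ℕ} {C : P → Prop} (h0 : C 0) (ha : ∀ f g, C f → C g → C (f + g))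
    (hs : ∀ (c : ℤ) f, C f → C (c • f))
    (hm : ∀ (u v : List ℕ) (i j : ℕ), n ≤ u.length + v.length + 2 →
      C (mon u * (X i * X j - X j * X i) * mon v)) {f : P} (hf : f ∈ Cn n) : C f := by
  unfold Cn at hf
  induction hf using Submodule.span_induction with
  | mem x hx => obtain ⟨u, v, i, j, h, rfl⟩ := hx; exact hm u v i j h
  | zero => exact h0
  | add x y _ _ hx hy => exact ha _ _ hx hy
  | smul c x _ hx => exact hs _ _ hx

private theorem cb_indD {n : ℕ} {C : P → Prop} (h0 : C 0) (ha : ∀ f g, C f → C g → C (f + g))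
    (hs : ∀ (c : ℤ) f, C f → C (c • f))
    (hm : ∀ (u v : List ℕ) (i j : ℕ), v ≠ [] → n ≤ u.length + v.length + 2 →
      C (mon u * (X i * X j - X j * X i) * mon v)) {f : P} (hf : f ∈ Dn n) : C f := by
  unfold Dn at hf
  induction hf using Submodule.span_induction with
  | mem x hx => obtain ⟨u, v, i, j, hv, h, rfl⟩ := hx; exact hm u v i j hv h
  | zero => exact h0
  | add x y _ _ hx hy => exact ha _ _ hx hy
  | smul c x _ hx => exact hs _ _ hx

private theorem cb_indF {n : ℕ} {C : P → Prop} (h0 : C 0) (ha : ∀ f g, C f → C g → C (f + g))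
    (hs : ∀ (c : ℤ) f, C f → C (c • f)) (hm : ∀ w : List ℕ, n ≤ w.length → C (mon w)) {f : P}
    (hf : f ∈ Fge n) : C f := by
  unfold Fge at hf
  induction hf using Submodule.span_induction with
  | mem x hx => obtain ⟨w, h, rfl⟩ := hx; exact hm w h
  | zero => exact h0
  | add x y _ _ hx hy => exact ha _ _ hx hy
  | smul c x _ hx => exact hs _ _ hx

theorem Cn_anti : Antitone Cn := by
  intro a b hab
  refine Submodule.span_mono ?_
  rintro f ⟨u, v, i, j, h, rfl⟩
  exact ⟨u, v, i, j, hab.trans h, rfl⟩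

theorem Cn_mono_left {n : ℕ} (w : List ℕ) {f : P} (hf : f ∈ Cn n) : mon w * f ∈ Cn (w.length + n) := by
  refine cb_ind (C := fun f => mon w * f ∈ Cn (w.length + n)) ?_ ?_ ?_ ?_ hf
  · rw [mul_zero]
    exact Submodule.zero_mem _
  · intro f g hf hg
    rw [mul_add]
    exact Submodule.add_mem _ hf hg
  · intro c f hf
    rw [mul_smul_comm]
    exact Submodule.smul_mem _ _ hf
  · intro u v i j h
    have e : mon w * (mon u * (X i * X j - X j * X i) * mon v) =
        mon (w ++ u) * (X i * X j - X j * X i) * mon v := by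
      rw [mon_append]
      simp only [mul_assoc]
    rw [e]
    exact cb_gen _ _ _ _ (by rw [List.length_append]; omega)

theorem Cn_mono_right {n : ℕ} (w : List ℕ) {f : P} (hf : f ∈ Cn n) : f * mon w ∈ Cn (n + w.length) := by
  refine cb_ind (C := fun f => f * mon w ∈ Cn (n + w.length)) ?_ ?_ ?_ ?_ hf
  · rw [zero_mul]
    exact Submodule.zero_mem _
  · intro f g hf hg
    rw [add_mul]
    exact Submodule.add_mem _ hf hg
  · intro c f hf
    rw [smul_mul_assoc]
    exact Submodule.smul_mem _ _ hf
  · intro u v i j h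
    have e : mon u * (X i * X j - X j * X i) * mon v * mon w =
        mon u * (X i * X j - X j * X i) * mon (v ++ w) := by
      rw [mon_append, ← mul_assoc]
    rw [e]
    exact cb_gen _ _ _ _ (by rw [List.length_append]; omega)

theorem Cn_to_Dn {n : ℕ} {w : List ℕ} (hw : w ≠ []) {f : P} (hf : f ∈ Cn n) : f * mon w ∈ Dn (n + w.length) := by
  refine cb_ind (C := fun f => f * mon w ∈ Dn (n + w.length)) ?_ ?_ ?_ ?_ hf
  · rw [zero_mul]
    exact Submodule.zero_mem _
  · intro f g hf hg
    rw [add_mul]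
    exact Submodule.add_mem _ hf hg
  · intro c f hf
    rw [smul_mul_assoc]
    exact Submodule.smul_mem _ _ hf
  · intro u v i j h
    have e : mon u * (X i * X j - X j * X i) * mon v * mon w =
        mon u * (X i * X j - X j * X i) * mon (v ++ w) := by
      rw [mon_append, ← mul_assoc]
    rw [e]
    refine cb_genD _ _ _ _ ?_ (by rw [List.length_append]; omega)
    intro h1
    exact hw (List.append_eq_nil_iff.1 h1).2

theorem Dn_le_Cn (n : ℕ) : Dn n ≤ Cn n := by
  refine Submodule.span_mono ?_
  rintro f ⟨u, v, i, j, _, h, rfl⟩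
  exact ⟨u, v, i, j, h, rfl⟩

theorem Dn_anti : Antitone Dn := by
  intro a b hab
  refine Submodule.span_mono ?_
  rintro f ⟨u, v, i, j, hv, h, rfl⟩
  exact ⟨u, v, i, j, hv, hab.trans h, rfl⟩

private theorem cb_Cle (n : ℕ) : Cn n ≤ Pp := by
  refine Submodule.span_le.2 ?_
  rintro f ⟨u, v, i, j, _, rfl⟩
  exact Pp_mul_right (Pp_mul_left _ (Pp.sub_mem (Pp_mul_left _ (X_mem j)) (Pp_mul_left _ (X_mem i)))) _

private theorem cb_perm {u v : List ℕ} (h : u.Perm v) : mon u - mon v ∈ Cn u.length := by
  induction h with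
  | nil => rw [sub_self]; exact Submodule.zero_mem _
  | cons x _ ih =>
    rename_i l1 l2 _
    have e : mon (x :: l1) - mon (x :: l2) = mon [x] * (mon l1 - mon l2) := by
      rw [mon_cons, mon_cons, mon_single, mul_sub]
    rw [e, List.length_cons, add_comm]
    exact Cn_mono_left [x] ih
  | swap x y l =>
    have e : mon (y :: x :: l) - mon (x :: y :: l) = mon [] * (X y * X x - X x * X y) * mon l := by
      rw [mon_cons, mon_cons, mon_cons, mon_cons, mon_nil, one_mul, sub_mul, mul_assoc, mul_assoc]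
    rw [e]
    exact cb_gen _ _ _ _ (by simp)
  | trans h1 _ ih1 ih2 =>
    rename_i l1 l2 l3 _
    have e : mon l1 - mon l3 = (mon l1 - mon l2) + (mon l2 - mon l3) := by abel
    rw [e]
    rw [← h1.length_eq] at ih2
    exact Submodule.add_mem _ ih1 ih2

/-- products -/
private theorem cb_FC {a n : ℕ} {f g : P} (hf : f ∈ Fge a) (hg : g ∈ Cn n) : f * g ∈ Cn (a + n) := by
  refine cb_indF (C := fun f => f * g ∈ Cn (a + n)) ?_ ?_ ?_ ?_ hf
  · rw [zero_mul]
    exact Submodule.zero_mem _
  · intro x y hx hy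
    rw [add_mul]
    exact Submodule.add_mem _ hx hy
  · intro c x hx
    rw [smul_mul_assoc]
    exact Submodule.smul_mem _ _ hx
  · intro w hw
    exact Cn_anti (by omega) (Cn_mono_left w hg)

private theorem cb_CF {b n : ℕ} {f g : P} (hf : f ∈ Fge b) (hg : g ∈ Cn n) : g * f ∈ Cn (n + b) := by
  refine cb_indF (C := fun f => g * f ∈ Cn (n + b)) ?_ ?_ ?_ ?_ hf
  · rw [mul_zero]
    exact Submodule.zero_mem _
  · intro x y hx hy
    rw [mul_add]
    exact Submodule.add_mem _ hx hy
  · intro c x hx
    rw [mul_smul_comm]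
    exact Submodule.smul_mem _ _ hx
  · intro w hw
    exact Cn_anti (by omega) (Cn_mono_right w hg)

private theorem cb_CD {b n : ℕ} (hb : 1 ≤ b) {f g : P} (hf : f ∈ Fge b) (hg : g ∈ Cn n) :
    g * f ∈ Dn (n + b) := by
  refine cb_indF (C := fun f => g * f ∈ Dn (n + b)) ?_ ?_ ?_ ?_ hf
  · rw [mul_zero]
    exact Submodule.zero_mem _
  · intro x y hx hy
    rw [mul_add]
    exact Submodule.add_mem _ hx hy
  · intro c x hx
    rw [mul_smul_comm]
    exact Submodule.smul_mem _ _ hx
  · intro w hw
    have hne : w ≠ [] := by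
      rintro rfl
      simp at hw
      omega
    exact Dn_anti (by omega) (Cn_to_Dn hne hg)

private theorem cb_comm {a b : ℕ} {f g : P} (hf : f ∈ Fge a) (hg : g ∈ Fge b) :
    f * g - g * f ∈ Cn (a + b) := by
  refine cb_indF (C := fun f => f * g - g * f ∈ Cn (a + b)) ?_ ?_ ?_ ?_ hf
  · rw [zero_mul, mul_zero, sub_self]
    exact Submodule.zero_mem _
  · intro x y hx hy
    have e : (x + y) * g - g * (x + y) = (x * g - g * x) + (y * g - g * y) := by
      rw [add_mul, mul_add]
      abel
    rw [e]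
    exact Submodule.add_mem _ hx hy
  · intro c x hx
    have e : (c • x) * g - g * (c • x) = c • (x * g - g * x) := by
      rw [smul_mul_assoc, mul_smul_comm, smul_sub]
    rw [e]
    exact Submodule.smul_mem _ _ hx
  · intro w hw
    refine cb_indF (C := fun g => mon w * g - g * mon w ∈ Cn (a + b)) ?_ ?_ ?_ ?_ hg
    · rw [zero_mul, mul_zero, sub_self]
      exact Submodule.zero_mem _
    · intro x y hx hy
      have e : mon w * (x + y) - (x + y) * mon w =
          (mon w * x - x * mon w) + (mon w * y - y * mon w) := by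
        rw [add_mul, mul_add]
        abel
      rw [e]
      exact Submodule.add_mem _ hx hy
    · intro c x hx
      have e : mon w * (c • x) - (c • x) * mon w = c • (mon w * x - x * mon w) := by
        rw [smul_mul_assoc, mul_smul_comm, smul_sub]
      rw [e]
      exact Submodule.smul_mem _ _ hx
    · intro w' hw'
      rw [← mon_append, ← mon_append]
      exact Cn_anti (by rw [List.length_append]; omega) (cb_perm (List.perm_append_comm))

private theorem cb_mon {n : ℕ} {w : List ℕ} (h : n ≤ w.length) : mon w ∈ Fge n :=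
  Submodule.subset_span ⟨w, h, rfl⟩

private theorem cb_sub {φ : P →ₐ[ℤ] P} (hφ : IsSubst φ) (w : List ℕ) :
    φ (mon w) ∈ Fge w.length := by
  by_cases h : w = []
  · rw [h, mon_nil, map_one, ← mon_nil]
    exact cb_mon le_rfl
  · exact (isT_Fge w.length (List.length_pos_of_ne_nil h)).subst φ hφ _ (cb_mon le_rfl)

private theorem cb_subX {φ : P →ₐ[ℤ] P} (hφ : IsSubst φ) (i : ℕ) : φ (X i) ∈ Fge 1 := by
  have h := cb_sub hφ [i]
  rw [mon_single] at h
  exact h

private theorem cb_key {φ : P →ₐ[ℤ] P} (hφ : IsSubst φ) (u : List ℕ) (i j : ℕ) :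
    φ (mon u) * (φ (X i) * φ (X j) - φ (X j) * φ (X i)) ∈ Cn (u.length + 2) := by
  have h1 : φ (X i) * φ (X j) - φ (X j) * φ (X i) ∈ Cn (1 + 1) :=
    cb_comm (cb_subX hφ i) (cb_subX hφ j)
  have h2 : φ (mon u) * (φ (X i) * φ (X j) - φ (X j) * φ (X i)) ∈ Cn (u.length + (1 + 1)) :=
    cb_FC (cb_sub hφ u) h1
  exact Cn_anti (by omega) h2

private theorem cb_map (φ : P →ₐ[ℤ] P) (u v : List ℕ) (i j : ℕ) :
    φ (mon u * (X i * X j - X j * X i) * mon v) =
      φ (mon u) * (φ (X i) * φ (X j) - φ (X j) * φ (X i)) * φ (mon v) := by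
  rw [map_mul, map_mul, map_sub, map_mul, map_mul]

theorem isT_Cn (n : ℕ) : IsT (Cn n) := by
  refine ⟨cb_Cle n, ?_, ?_, ?_⟩
  · intro f hf g
    refine ind_mon (C := fun g => f * g ∈ Cn n) ?_ ?_ ?_ ?_ g
    · rw [mul_zero]
      exact Submodule.zero_mem _
    · intro x y hx hy
      rw [mul_add]
      exact Submodule.add_mem _ hx hy
    · intro c x hx
      rw [mul_smul_comm]
      exact Submodule.smul_mem _ _ hx
    · intro w
      exact Cn_anti (Nat.le_add_right _ _) (Cn_mono_right w hf)
  · intro f hf g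
    refine ind_mon (C := fun g => g * f ∈ Cn n) ?_ ?_ ?_ ?_ g
    · rw [zero_mul]
      exact Submodule.zero_mem _
    · intro x y hx hy
      rw [add_mul]
      exact Submodule.add_mem _ hx hy
    · intro c x hx
      rw [smul_mul_assoc]
      exact Submodule.smul_mem _ _ hx
    · intro w
      exact Cn_anti (Nat.le_add_left _ _) (Cn_mono_left w hf)
  · intro φ hφ f hf
    refine cb_ind (C := fun f => φ f ∈ Cn n) ?_ ?_ ?_ ?_ hf
    · rw [map_zero]
      exact Submodule.zero_mem _
    · intro x y hx hy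
      rw [map_add]
      exact Submodule.add_mem _ hx hy
    · intro c x hx
      rw [map_zsmul]
      exact Submodule.smul_mem _ _ hx
    · intro u v i j h
      rw [cb_map]
      exact Cn_anti (by omega) (cb_CF (cb_sub hφ v) (cb_key hφ u i j))

theorem isT_Dn (n : ℕ) : IsT (Dn n) := by
  have hl : ∀ (w : List ℕ) (f : P), f ∈ Dn n → mon w * f ∈ Dn n := by
    intro w f hf
    refine cb_indD (C := fun f => mon w * f ∈ Dn n) ?_ ?_ ?_ ?_ hf
    · rw [mul_zero]
      exact Submodule.zero_mem _
    · intro f g hf hg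
      rw [mul_add]
      exact Submodule.add_mem _ hf hg
    · intro c f hf
      rw [mul_smul_comm]
      exact Submodule.smul_mem _ _ hf
    · intro u v i j hv h
      have e : mon w * (mon u * (X i * X j - X j * X i) * mon v) =
          mon (w ++ u) * (X i * X j - X j * X i) * mon v := by
        rw [mon_append]
        simp only [mul_assoc]
      rw [e]
      exact cb_genD _ _ _ _ hv (by rw [List.length_append]; omega)
  have hr : ∀ (w : List ℕ) (f : P), f ∈ Dn n → f * mon w ∈ Dn n := by
    intro w f hf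
    refine cb_indD (C := fun f => f * mon w ∈ Dn n) ?_ ?_ ?_ ?_ hf
    · rw [zero_mul]
      exact Submodule.zero_mem _
    · intro f g hf hg
      rw [add_mul]
      exact Submodule.add_mem _ hf hg
    · intro c f hf
      rw [smul_mul_assoc]
      exact Submodule.smul_mem _ _ hf
    · intro u v i j hv h
      have e : mon u * (X i * X j - X j * X i) * mon v * mon w =
          mon u * (X i * X j - X j * X i) * mon (v ++ w) := by
        rw [mon_append, ← mul_assoc]
      rw [e]
      refine cb_genD _ _ _ _ ?_ (by rw [List.length_append]; omega)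
      intro h1
      exact hv (List.append_eq_nil_iff.1 h1).1
  refine ⟨(Dn_le_Cn n).trans (cb_Cle n), ?_, ?_, ?_⟩
  · intro f hf g
    refine ind_mon (C := fun g => f * g ∈ Dn n) ?_ ?_ ?_ ?_ g
    · rw [mul_zero]
      exact Submodule.zero_mem _
    · intro x y hx hy
      rw [mul_add]
      exact Submodule.add_mem _ hx hy
    · intro c x hx
      rw [mul_smul_comm]
      exact Submodule.smul_mem _ _ hx
    · intro w
      exact hr w f hf
  · intro f hf g
    refine ind_mon (C := fun g => g * f ∈ Dn n) ?_ ?_ ?_ ?_ g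
    · rw [zero_mul]
      exact Submodule.zero_mem _
    · intro x y hx hy
      rw [add_mul]
      exact Submodule.add_mem _ hx hy
    · intro c x hx
      rw [smul_mul_assoc]
      exact Submodule.smul_mem _ _ hx
    · intro w
      exact hl w f hf
  · intro φ hφ f hf
    refine cb_indD (C := fun f => φ f ∈ Dn n) ?_ ?_ ?_ ?_ hf
    · rw [map_zero]
      exact Submodule.zero_mem _
    · intro x y hx hy
      rw [map_add]
      exact Submodule.add_mem _ hx hy
    · intro c x hx
      rw [map_zsmul]
      exact Submodule.smul_mem _ _ hx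
    · intro u v i j hv h
      rw [cb_map]
      exact Dn_anti (by omega)
        (cb_CD (List.length_pos_of_ne_nil hv) (cb_sub hφ v) (cb_key hφ u i j))

theorem Cn_le_Fge (n : ℕ) : Cn n ≤ Fge n := by
  refine Submodule.span_le.2 ?_
  rintro f ⟨u, v, i, j, h, rfl⟩
  have e : mon u * (X i * X j - X j * X i) * mon v =
      mon (u ++ (i :: j :: v)) - mon (u ++ (j :: i :: v)) := by
    rw [mon_append, mon_append, mon_cons, mon_cons, mon_cons, mon_cons, mul_sub, sub_mul]
    simp only [mul_assoc]
  rw [SetLike.mem_coe, e]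
  exact Submodule.sub_mem _ (cb_mon (by simp only [List.length_append, List.length_cons]; omega))
    (cb_mon (by simp only [List.length_append, List.length_cons]; omega))

theorem Cn_nil {J : Submodule ℤ P} {N : ℕ} (h : NilAt J N) : Cn N ≤ J := by
  exact (Cn_le_Fge N).trans (Fge_le h)

theorem perm_Cn {u v : List ℕ} (h : u.Perm v) : mon u - mon v ∈ Cn u.length := by
  exact cb_perm h

theorem perm_Dn {u v : List ℕ} (h : u.Perm v) {w : List ℕ} (hw : w ≠ []) :
    mon (u ++ w) - mon (v ++ w) ∈ Dn (u.length + w.length) := by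
  rw [mon_append, mon_append, ← sub_mul]
  exact Cn_to_Dn hw (cb_perm h)

/-- `Cn n` is spanned by `Dn n` and the elements `u [x_i, x_j]` -/
theorem Cn_eq (n : ℕ) : Cn n ≤ Dn n ⊔ Submodule.span ℤ {f | ∃ (u : List ℕ) (i j : ℕ), n ≤ u.length + 2 ∧
    f = mon u * cm i j} := by
  refine Submodule.span_le.2 ?_
  rintro f ⟨u, v, i, j, h, rfl⟩
  by_cases hv : v = []
  · refine Submodule.mem_sup_right (Submodule.subset_span ⟨u, i, j, ?_, ?_⟩)
    · rw [hv] at h
      simpa using h
    · rw [hv, mon_nil, mul_one]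
      rfl
  · exact Submodule.mem_sup_left (cb_genD u v i j hv h)

end ADC
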