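import Pool.Agent.ADC.Npn
import Pool.Agent.ADC.Cnb

/-!
# ADC-Core1

No linked pairs (structure `Pr`, Defs) in small degree or if all words are equal.  `p` is an odd prime (`h.bJ`).

* `core1`: `Ml 1 = ℤ X 0`: `Pr.np` with `Φ = id`, `Y = X 0`.
* `core2`: `Φ = id ± tl (rn 2 (swap 0 1))`: T-operators preserving `Ml 2`, `Φ (Φ f) = 2 • Φ f` (`rn_rn`), and for `f = c x_0x_1 + c' x_1x_0`
  `Φ f = (c ± c') (x_0x_1 ± x_1x_0)`: `Pr.npn` (`u = 2`, `Y = x_0x_1 ± x_1x_0`) gives `Φ a ∈ I` for both signs, so `2 a ∈ I`,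
  `a ∈ I` (`cancel`), contradiction to `h.na`.
* `coreC`: `Cn n ≤ J`: every `f ∈ Ml n` is in `J ⊔ ℤ mw n` (`perm_Cn` of ADC.Cnb: `mon w - mw n ∈ Cn n`): `Pr.npn` with `Φ = id`, `u = 1`.
-/

namespace ADC

open AD ADN

theorem core1 {p : ℕ} {I J A B C : Submodule ℤ P} {q : ℤ} {a b t : P} (h : Pr p I J A B C 1 q a b t) : False := by
  apply h.na
  have h1 := h.np (Φ := LinearMap.id) (TOp.id' p) (X_mem 0) (fun f hf => by
    rw [LinearMap.id_apply]
    refine Ml_ind (n := 1) (C := fun f => f ∈ I ⊔ Submodule.span ℤ {X 0}) ?_ ?_ ?_ ?_ hf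
    · exact Submodule.zero_mem _
    · intro f g hf hg; exact Submodule.add_mem _ hf hg
    · intro c f hf; exact Submodule.smul_mem _ _ hf
    · intro w hw
      have h1 : w = [0] := List.perm_singleton.1 hw
      rw [h1, mon_single]
      exact Submodule.mem_sup_right (Submodule.mem_span_singleton_self _))
  rwa [LinearMap.id_apply] at h1

/-- `id + ε (0 1)` -/
private noncomputable def Ph (ε : ℤ) : P →ₗ[ℤ] P := LinearMap.id + ε • tl (rn 2 (Equiv.swap 0 1))

private theorem Ph_apply (ε : ℤ) (f : P) : Ph ε f = f + ε • rn 2 (Equiv.swap 0 1) f := by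
  unfold Ph
  rw [LinearMap.add_apply, LinearMap.smul_apply, LinearMap.id_apply, tl_apply]

private theorem swap01 : rn 2 (Equiv.swap 0 1) (mon [0, 1]) = mon [1, 0] := by
  rw [rn_mon]
  simp [pN]

private theorem swap10 : rn 2 (Equiv.swap 0 1) (mon [1, 0]) = mon [0, 1] := by
  rw [rn_mon]
  simp [pN]

private theorem perm2 {w : List ℕ} (hw : w.Perm (List.range 2)) : w = [0, 1] ∨ w = [1, 0] := by
  have h2 : w.Perm [0, 1] := hw
  have hl : w.length = 2 := h2.length_eq
  match w, hl with
  | [a, b], _ =>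
    have ha : a ∈ [0, 1] := h2.mem_iff.1 (by simp)
    have hb : b ∈ [0, 1] := h2.mem_iff.1 (by simp)
    have hn : ([a, b] : List ℕ).Nodup := h2.nodup_iff.2 (by simp)
    have hab : a ≠ b := by
      simpa using hn
    simp only [List.mem_cons, List.not_mem_nil, or_false] at ha hb
    rcases ha with rfl | rfl <;> rcases hb with rfl | rfl
    · exact absurd rfl hab
    · exact Or.inl rfl
    · exact Or.inr rfl
    · exact absurd rfl hab

private theorem core2_aux {p : ℕ} {I J A B C : Submodule ℤ P} {q : ℤ} {a b t : P} (h : Pr p I J A B C 2 q a b t)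
    {ε : ℤ} (hε : ε * ε = 1) : Ph ε a ∈ I := by
  have h5 := h.bJ.five
  refine h.npn (Φ := Ph ε) ((TOp.id' p).add ((TOp_rn p 2 _).smul ε)) (fun f hf => ?_) (u := 2) ?_ (fun f _ => ?_)
    (Y := mon [0, 1] + ε • mon [1, 0]) ?_ (fun f hf => ?_)
  · rw [Ph_apply]
    exact Submodule.add_mem _ hf (Submodule.smul_mem _ _ (Ml_rn _ hf))
  · intro hd
    have := Int.le_of_dvd (by norm_num) hd
    omega
  · rw [Ph_apply, Ph_apply, map_add, map_zsmul, rn_rn, Equiv.swap_mul_self, rn_one, smul_add, smul_smul, hε, one_smul,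
      two_smul]
    abel
  · exact Submodule.add_mem _ (Ml_mon (by decide)) (Submodule.smul_mem _ _ (Ml_mon (by decide)))
  · refine Ml_ind (n := 2) (C := fun f => Ph ε f ∈ J ⊔ Submodule.span ℤ {mon [0, 1] + ε • mon [1, 0]}) ?_ ?_ ?_ ?_ hf
    · rw [map_zero]; exact Submodule.zero_mem _
    · intro f g hf hg; rw [map_add]; exact Submodule.add_mem _ hf hg
    · intro c f hf; rw [map_smul]; exact Submodule.smul_mem _ _ hf
    · intro w hw
      rcases perm2 hw with rfl | rfl
      · rw [Ph_apply, swap01]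
        exact Submodule.mem_sup_right (Submodule.mem_span_singleton_self _)
      · rw [Ph_apply, swap10]
        refine Submodule.mem_sup_right (Submodule.mem_span_singleton.2 ⟨ε, ?_⟩)
        rw [smul_add, smul_smul, hε, one_smul, add_comm]

theorem core2 {p : ℕ} {I J A B C : Submodule ℤ P} {q : ℤ} {a b t : P} (h : Pr p I J A B C 2 q a b t) : False := by
  apply h.na
  have h5 := h.bJ.five
  have h1 := core2_aux h (ε := 1) (by norm_num)
  have h2 := core2_aux h (ε := -1) (by norm_num)
  rw [Ph_apply] at h1 h2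
  refine cancel h.bJ.pp h.p2 (c := 2) ?_ (Ml_Pp (by norm_num) h.ha) ?_
  · intro hd
    have := Int.le_of_dvd (by norm_num) hd
    omega
  · have h3 := I.add_mem h1 h2
    have e : (2 : ℤ) • a = a + (1 : ℤ) • rn 2 (Equiv.swap 0 1) a + (a + (-1 : ℤ) • rn 2 (Equiv.swap 0 1) a) := by
      module
    rw [e]
    exact h3

theorem coreC {p : ℕ} {I J A B C : Submodule ℤ P} {n : ℕ} {q : ℤ} {a b t : P}
    (h : Pr p I J A B C n q a b t) (hc : Cn n ≤ J) : False := by
  apply h.na
  have h5 := h.bJ.five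
  have h1 := h.npn (Φ := LinearMap.id) (TOp.id' p) (fun f hf => hf) (u := 1) (by
      intro hd
      have := Int.le_of_dvd (by norm_num) hd
      omega) (fun f _ => by rw [one_smul, LinearMap.id_apply]) (Y := mw n) (Ml_mon (List.Perm.refl _)) (fun f hf => by
    rw [LinearMap.id_apply]
    refine Ml_ind (n := n) (C := fun f => f ∈ J ⊔ Submodule.span ℤ {mw n}) ?_ ?_ ?_ ?_ hf
    · exact Submodule.zero_mem _
    · intro f g hf hg; exact Submodule.add_mem _ hf hg
    · intro c f hf; exact Submodule.smul_mem _ _ hf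
    · intro w hw
      have h2 := perm_Cn hw
      rw [hw.length_eq, List.length_range] at h2
      have h3 : mon w = (mon w - mon (List.range n)) + mw n := by
        unfold mw
        abel
      rw [h3]
      exact Submodule.add_mem_sup (hc h2) (Submodule.mem_span_singleton_self _))
  rwa [LinearMap.id_apply] at h1

end ADC
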