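import Pool.Agent.ADC.Bas

/-!
# ADC-GrpA

The symmetrisers for an action `ρ` of `Perm (Fin n)` on an abelian group `M`.

* `aF n j` (permutations fixing all `i ≥ j`) and `sF n j` (fixing all `i < j`) are subgroups of orders `j!` and `(n-j)!`
  (`j ≤ n`), and their elements commute with each other.  [`aF`: permutations supported in `{i < j}`; use
  `Equiv.Perm.subtypeEquivSubtypePerm` or `Equiv.Perm.extendDomain`/`ofSubtype` for the cardinality.]
* `rnρ n` is the action on `P` by `rn n σ` (`rn_rn`, `rn_one`), and `aP`, `sP` are `aA`, `sA` for it.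
-/

namespace ADC

open AD ADN

variable {M : Type*} [AddCommGroup M] {n : ℕ}

private theorem grpa_mem {j : ℕ} {σ : Equiv.Perm (Fin n)} : σ ∈ aF n j ↔ ∀ i : Fin n, j ≤ i.val → σ i = i := by
  unfold aF
  rw [Finset.mem_filter]
  exact ⟨fun h => h.2, fun h => ⟨Finset.mem_univ _, h⟩⟩

private theorem grps_mem {j : ℕ} {σ : Equiv.Perm (Fin n)} : σ ∈ sF n j ↔ ∀ i : Fin n, i.val < j → σ i = i := by
  unfold sF
  rw [Finset.mem_filter]
  exact ⟨fun h => h.2, fun h => ⟨Finset.mem_univ _, h⟩⟩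

private theorem grpa_apply (ρ : Equiv.Perm (Fin n) →* AddMonoid.End M) (j : ℕ) (m : M) :
    aA ρ j m = ∑ σ ∈ aF n j, ((Equiv.Perm.sign σ : ℤˣ) : ℤ) • ρ σ m := by
  exact map_sum (AddMonoidHom.eval m : (M →+ M) →+ M)
    (fun σ => ((Equiv.Perm.sign σ : ℤˣ) : ℤ) • (ρ σ : M →+ M)) (aF n j)

private theorem grps_apply (ρ : Equiv.Perm (Fin n) →* AddMonoid.End M) (j : ℕ) (m : M) :
    sA ρ j m = ∑ σ ∈ sF n j, ρ σ m := by
  exact map_sum (AddMonoidHom.eval m : (M →+ M) →+ M) (fun σ => (ρ σ : M →+ M)) (sF n j)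

private theorem grp_mul (ρ : Equiv.Perm (Fin n) →* AddMonoid.End M) (σ τ : Equiv.Perm (Fin n)) (m : M) :
    ρ σ (ρ τ m) = ρ (σ * τ) m := by
  rw [map_mul]
  rfl

private theorem grp_card (p : Fin n → Prop) [DecidablePred p] (c : ℕ) (hc : Fintype.card {i : Fin n // p i} = c) :
    (Finset.univ.filter (fun σ : Equiv.Perm (Fin n) => ∀ i : Fin n, ¬ p i → σ i = i)).card = c.factorial := by
  rw [← Fintype.card_subtype, ← Fintype.card_congr (Equiv.Perm.subtypeEquivSubtypePerm p), Fintype.card_perm, hc]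

private theorem grpa_left {j : ℕ} {σ : Equiv.Perm (Fin n)} (h : σ ∈ aF n j) (τ : Equiv.Perm (Fin n)) :
    τ ∈ aF n j ↔ σ * τ ∈ aF n j := by
  rw [grpa_mem] at h
  rw [grpa_mem, grpa_mem]
  constructor
  · intro h1 i hi
    rw [Equiv.Perm.mul_apply, h1 i hi, h i hi]
  · intro h1 i hi
    have h2 := h1 i hi
    rw [Equiv.Perm.mul_apply] at h2
    exact σ.injective (h2.trans (h i hi).symm)

private theorem grpa_right {j : ℕ} {σ : Equiv.Perm (Fin n)} (h : σ ∈ aF n j) (τ : Equiv.Perm (Fin n)) :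
    τ ∈ aF n j ↔ τ * σ ∈ aF n j := by
  rw [grpa_mem] at h
  rw [grpa_mem, grpa_mem]
  constructor
  · intro h1 i hi
    rw [Equiv.Perm.mul_apply, h i hi, h1 i hi]
  · intro h1 i hi
    have h2 := h1 i hi
    rwa [Equiv.Perm.mul_apply, h i hi] at h2

private theorem grps_left {j : ℕ} {σ : Equiv.Perm (Fin n)} (h : σ ∈ sF n j) (τ : Equiv.Perm (Fin n)) :
    τ ∈ sF n j ↔ σ * τ ∈ sF n j := by
  rw [grps_mem] at h
  rw [grps_mem, grps_mem]
  constructor
  · intro h1 i hi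
    rw [Equiv.Perm.mul_apply, h1 i hi, h i hi]
  · intro h1 i hi
    have h2 := h1 i hi
    rw [Equiv.Perm.mul_apply] at h2
    exact σ.injective (h2.trans (h i hi).symm)

private theorem grps_right {j : ℕ} {σ : Equiv.Perm (Fin n)} (h : σ ∈ sF n j) (τ : Equiv.Perm (Fin n)) :
    τ ∈ sF n j ↔ τ * σ ∈ sF n j := by
  rw [grps_mem] at h
  rw [grps_mem, grps_mem]
  constructor
  · intro h1 i hi
    rw [Equiv.Perm.mul_apply, h i hi, h1 i hi]
  · intro h1 i hi
    have h2 := h1 i hi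
    rwa [Equiv.Perm.mul_apply, h i hi] at h2

private theorem grp_sign (σ τ : Equiv.Perm (Fin n)) :
    ((Equiv.Perm.sign σ : ℤˣ) : ℤ) * ((Equiv.Perm.sign (σ * τ) : ℤˣ) : ℤ) = ((Equiv.Perm.sign τ : ℤˣ) : ℤ) := by
  rw [Equiv.Perm.sign_mul, Units.val_mul, ← mul_assoc, ← Units.val_mul, Int.units_mul_self, Units.val_one, one_mul]

private theorem grp_sign' (σ τ : Equiv.Perm (Fin n)) :
    ((Equiv.Perm.sign σ : ℤˣ) : ℤ) * ((Equiv.Perm.sign (τ * σ) : ℤˣ) : ℤ) = ((Equiv.Perm.sign τ : ℤˣ) : ℤ) := by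
  rw [Equiv.Perm.sign_mul, mul_comm (Equiv.Perm.sign τ), Units.val_mul, ← mul_assoc, ← Units.val_mul,
    Int.units_mul_self, Units.val_one, one_mul]

private theorem grp_coset (A B : Finset (Equiv.Perm (Fin n))) (z : Fin n) (T : Finset (Fin n))
    (f : Equiv.Perm (Fin n) → M) (h1 : ∀ σ ∈ A, σ z ∈ T)
    (h2 : ∀ t ∈ T, ∀ τ : Equiv.Perm (Fin n), τ ∈ B ↔ (Equiv.swap t z * τ ∈ A ∧ (Equiv.swap t z * τ) z = t)) :
    ∑ σ ∈ A, f σ = ∑ t ∈ T, ∑ τ ∈ B, f (Equiv.swap t z * τ) := by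
  rw [← Finset.sum_fiberwise_of_maps_to h1]
  refine Finset.sum_congr rfl fun t ht => ?_
  refine (Finset.sum_equiv (Equiv.mulLeft (Equiv.swap t z)) (fun τ => ?_) (fun τ _ => rfl)).symm
  rw [h2 t ht τ, Finset.mem_filter]
  rfl

theorem card_aF {j : ℕ} (hj : j ≤ n) : (aF n j).card = j.factorial := by
  have h := grp_card (fun i : Fin n => i.val < j) j (by
    rw [Fintype.card_subtype]
    rw [Fin.card_filter_val_lt]
    exact min_eq_right hj)
  rw [← h]
  congr 1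
  unfold aF
  refine Finset.filter_congr fun σ _ => ?_
  simp only [not_lt]

theorem card_sF {j : ℕ} (hj : j ≤ n) : (sF n j).card = (n - j).factorial := by
  have h := grp_card (fun i : Fin n => j ≤ i.val) (n - j) (by
    rw [Fintype.card_subtype]
    have h1 := Finset.card_filter_add_card_filter_not (s := (Finset.univ : Finset (Fin n))) (fun i : Fin n => i.val < j)
    rw [Fin.card_filter_val_lt, min_eq_right hj, Finset.card_univ, Fintype.card_fin] at h1
    simp only [not_lt] at h1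
    omega)
  rw [← h]
  congr 1
  unfold sF
  refine Finset.filter_congr fun σ _ => ?_
  simp only [not_le]

theorem rho_aA (ρ : Equiv.Perm (Fin n) →* AddMonoid.End M) {j : ℕ} {σ : Equiv.Perm (Fin n)} (h : σ ∈ aF n j) (m : M) :
    ρ σ (aA ρ j m) = ((Equiv.Perm.sign σ : ℤˣ) : ℤ) • aA ρ j m ∧
      aA ρ j (ρ σ m) = ((Equiv.Perm.sign σ : ℤˣ) : ℤ) • aA ρ j m := by
  constructor
  · rw [grpa_apply, map_sum, Finset.smul_sum]
    refine Finset.sum_equiv (Equiv.mulLeft σ) (fun τ => grpa_left h τ) fun τ _ => ?_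
    rw [Equiv.coe_mulLeft, map_zsmul, grp_mul, smul_smul, grp_sign]
  · rw [grpa_apply, grpa_apply, Finset.smul_sum]
    refine Finset.sum_equiv (Equiv.mulRight σ) (fun τ => grpa_right h τ) fun τ _ => ?_
    rw [Equiv.coe_mulRight, grp_mul, smul_smul, grp_sign']

theorem rho_sA (ρ : Equiv.Perm (Fin n) →* AddMonoid.End M) {j : ℕ} {σ : Equiv.Perm (Fin n)} (h : σ ∈ sF n j) (m : M) :
    ρ σ (sA ρ j m) = sA ρ j m ∧ sA ρ j (ρ σ m) = sA ρ j m := by
  constructor
  · rw [grps_apply, map_sum]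
    refine Finset.sum_equiv (Equiv.mulLeft σ) (fun τ => grps_left h τ) fun τ _ => ?_
    rw [Equiv.coe_mulLeft, grp_mul]
  · rw [grps_apply, grps_apply]
    refine Finset.sum_equiv (Equiv.mulRight σ) (fun τ => grps_right h τ) fun τ _ => ?_
    rw [Equiv.coe_mulRight, grp_mul]

theorem aA_aA (ρ : Equiv.Perm (Fin n) →* AddMonoid.End M) {j : ℕ} (hj : j ≤ n) (m : M) :
    aA ρ j (aA ρ j m) = (j.factorial : ℤ) • aA ρ j m := by
  have h1 : ∀ σ ∈ aF n j, ((Equiv.Perm.sign σ : ℤˣ) : ℤ) • ρ σ (aA ρ j m) = aA ρ j m := by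
    intro σ hσ
    rw [(rho_aA ρ hσ m).1, smul_smul, ← Units.val_mul, Int.units_mul_self, Units.val_one, one_smul]
  rw [grpa_apply ρ j (aA ρ j m), Finset.sum_congr rfl h1, Finset.sum_const, card_aF hj]
  exact (natCast_zsmul _ _).symm

theorem sA_sA (ρ : Equiv.Perm (Fin n) →* AddMonoid.End M) {j : ℕ} (hj : j ≤ n) (m : M) :
    sA ρ j (sA ρ j m) = ((n - j).factorial : ℤ) • sA ρ j m := by
  have h1 : ∀ σ ∈ sF n j, ρ σ (sA ρ j m) = sA ρ j m := fun σ hσ => (rho_sA ρ hσ m).1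
  rw [grps_apply ρ j (sA ρ j m), Finset.sum_congr rfl h1, Finset.sum_const, card_sF hj]
  exact (natCast_zsmul _ _).symm

theorem sA_aA (ρ : Equiv.Perm (Fin n) →* AddMonoid.End M) (j : ℕ) (m : M) :
    sA ρ j (aA ρ j m) = aA ρ j (sA ρ j m) := by
  rw [grps_apply, grpa_apply, grpa_apply]
  simp only [map_sum, grps_apply]
  rw [Finset.sum_comm]
  refine Finset.sum_congr rfl fun τ hτ => ?_
  rw [Finset.smul_sum]
  refine Finset.sum_congr rfl fun σ hσ => ?_
  rw [map_zsmul, grp_mul, grp_mul]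
  have hc : Commute σ τ := by
    refine Equiv.Perm.Disjoint.commute fun x => ?_
    rcases lt_or_ge x.val j with hx | hx
    · exact Or.inl (grps_mem.1 hσ x hx)
    · exact Or.inr (grpa_mem.1 hτ x hx)
  rw [hc.eq]

/-- the coset decomposition, `s` a letter outside `{0..j-1}` -/
theorem aA_succ (ρ : Equiv.Perm (Fin n) →* AddMonoid.End M) {j : ℕ} (hj : j < n) (m : M) :
    aA ρ (j + 1) m = aA ρ j m - ∑ t : Fin n with t.val < j, ρ (Equiv.swap t ⟨j, hj⟩) (aA ρ j m) := by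
  have h1 : ∀ σ ∈ aF n (j + 1), σ ⟨j, hj⟩ ∈ (insert (⟨j, hj⟩ : Fin n) (Finset.univ.filter fun t : Fin n => t.val < j)) := by
    intro σ hσ
    rw [Finset.mem_insert, Finset.mem_filter]
    by_contra hcon
    push Not at hcon
    have h2 : j ≤ (σ ⟨j, hj⟩).val := hcon.2 (Finset.mem_univ _)
    have h3 : (σ ⟨j, hj⟩).val ≠ j := fun h => hcon.1 (Fin.ext h)
    have h4 : σ (σ ⟨j, hj⟩) = σ ⟨j, hj⟩ := grpa_mem.1 hσ _ (by omega)
    exact hcon.1 (σ.injective h4)
  have h2 : ∀ t ∈ (insert (⟨j, hj⟩ : Fin n) (Finset.univ.filter fun t : Fin n => t.val < j)),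
      ∀ τ : Equiv.Perm (Fin n), τ ∈ aF n j ↔ (Equiv.swap t ⟨j, hj⟩ * τ ∈ aF n (j + 1) ∧
        (Equiv.swap t ⟨j, hj⟩ * τ) ⟨j, hj⟩ = t) := by
    intro t ht τ
    have ht' : t.val ≤ j := by
      rcases Finset.mem_insert.1 ht with h | h
      · rw [h]
      · exact (Finset.mem_filter.1 h).2.le
    rw [grpa_mem, grpa_mem]
    constructor
    · intro h
      refine ⟨fun i hi => ?_, ?_⟩
      · rw [Equiv.Perm.mul_apply, h i (by omega)]
        exact Equiv.swap_apply_of_ne_of_ne (fun h => by rw [h] at hi; omega) (fun h => by rw [h] at hi; simp at hi)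
      · rw [Equiv.Perm.mul_apply, h ⟨j, hj⟩ (le_refl j), Equiv.swap_apply_right]
    · rintro ⟨h, h'⟩ i hi
      rcases Nat.eq_or_lt_of_le hi with hi' | hi'
      · have hi2 : i = ⟨j, hj⟩ := Fin.ext hi'.symm
        rw [hi2]
        rw [Equiv.Perm.mul_apply] at h'
        have h3 := congrArg (Equiv.swap t ⟨j, hj⟩) h'
        rw [Equiv.swap_apply_self, Equiv.swap_apply_left] at h3
        exact h3
      · have h3 := h i (by omega)
        rw [Equiv.Perm.mul_apply] at h3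
        have h4 := congrArg (Equiv.swap t ⟨j, hj⟩) h3
        rw [Equiv.swap_apply_self] at h4
        rw [h4]
        exact Equiv.swap_apply_of_ne_of_ne (fun h => by rw [h] at hi'; omega) (fun h => by rw [h] at hi'; simp at hi')
  rw [grpa_apply ρ (j + 1) m, grp_coset (aF n (j + 1)) (aF n j) ⟨j, hj⟩ _ _ h1 h2, Finset.sum_insert (by simp)]
  rw [sub_eq_add_neg, ← Finset.sum_neg_distrib]
  congr 1
  · rw [grpa_apply, Equiv.swap_self]
    refine Finset.sum_congr rfl fun τ _ => ?_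
    rw [show (Equiv.refl (Fin n) : Equiv.Perm (Fin n)) = 1 from rfl, one_mul]
  · refine Finset.sum_congr rfl fun t ht => ?_
    have ht' : t ≠ ⟨j, hj⟩ := by
      rintro rfl
      simp at ht
    rw [grpa_apply, map_sum, ← Finset.sum_neg_distrib]
    refine Finset.sum_congr rfl fun τ _ => ?_
    rw [map_zsmul, grp_mul, Equiv.Perm.sign_mul, Equiv.Perm.sign_swap ht']
    simp

theorem sA_pred (ρ : Equiv.Perm (Fin n) →* AddMonoid.End M) {j : ℕ} (hj : j < n) (m : M) :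
    sA ρ j m = sA ρ (j + 1) m + ∑ s : Fin n with j < s.val, ρ (Equiv.swap s ⟨j, hj⟩) (sA ρ (j + 1) m) := by
  have h1 : ∀ σ ∈ sF n j, σ ⟨j, hj⟩ ∈ (insert (⟨j, hj⟩ : Fin n) (Finset.univ.filter fun t : Fin n => j < t.val)) := by
    intro σ hσ
    rw [Finset.mem_insert, Finset.mem_filter]
    by_contra hcon
    push Not at hcon
    have h2 : (σ ⟨j, hj⟩).val ≤ j := hcon.2 (Finset.mem_univ _)
    have h3 : (σ ⟨j, hj⟩).val ≠ j := fun h => hcon.1 (Fin.ext h)
    have h4 : σ (σ ⟨j, hj⟩) = σ ⟨j, hj⟩ := grps_mem.1 hσ _ (by omega)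
    exact hcon.1 (σ.injective h4)
  have h2 : ∀ t ∈ (insert (⟨j, hj⟩ : Fin n) (Finset.univ.filter fun t : Fin n => j < t.val)),
      ∀ τ : Equiv.Perm (Fin n), τ ∈ sF n (j + 1) ↔ (Equiv.swap t ⟨j, hj⟩ * τ ∈ sF n j ∧
        (Equiv.swap t ⟨j, hj⟩ * τ) ⟨j, hj⟩ = t) := by
    intro t ht τ
    have ht' : j ≤ t.val := by
      rcases Finset.mem_insert.1 ht with h | h
      · rw [h]
      · exact (Finset.mem_filter.1 h).2.le
    rw [grps_mem, grps_mem]
    constructor
    · intro h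
      refine ⟨fun i hi => ?_, ?_⟩
      · rw [Equiv.Perm.mul_apply, h i (by omega)]
        exact Equiv.swap_apply_of_ne_of_ne (fun h => by rw [h] at hi; omega) (fun h => by rw [h] at hi; simp at hi)
      · rw [Equiv.Perm.mul_apply, h ⟨j, hj⟩ (Nat.lt_succ_self j), Equiv.swap_apply_right]
    · rintro ⟨h, h'⟩ i hi
      rcases Nat.eq_or_lt_of_le (Nat.le_of_lt_succ hi) with hi' | hi'
      · have hi2 : i = ⟨j, hj⟩ := Fin.ext hi'
        rw [hi2]
        rw [Equiv.Perm.mul_apply] at h'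
        have h3 := congrArg (Equiv.swap t ⟨j, hj⟩) h'
        rw [Equiv.swap_apply_self, Equiv.swap_apply_left] at h3
        exact h3
      · have h3 := h i hi'
        rw [Equiv.Perm.mul_apply] at h3
        have h4 := congrArg (Equiv.swap t ⟨j, hj⟩) h3
        rw [Equiv.swap_apply_self] at h4
        rw [h4]
        exact Equiv.swap_apply_of_ne_of_ne (fun h => by rw [h] at hi'; omega) (fun h => by rw [h] at hi'; simp at hi')
  rw [grps_apply ρ j m, grp_coset (sF n j) (sF n (j + 1)) ⟨j, hj⟩ _ _ h1 h2, Finset.sum_insert (by simp)]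
  congr 1
  · rw [grps_apply, Equiv.swap_self]
    refine Finset.sum_congr rfl fun τ _ => ?_
    rw [show (Equiv.refl (Fin n) : Equiv.Perm (Fin n)) = 1 from rfl, one_mul]
  · refine Finset.sum_congr rfl fun t _ => ?_
    rw [grps_apply, map_sum]
    refine Finset.sum_congr rfl fun τ _ => ?_
    rw [grp_mul]

/-- the action on `P` -/
noncomputable def rnρ (n : ℕ) : Equiv.Perm (Fin n) →* AddMonoid.End P where
  toFun σ := (rn n σ : P →+ P)
  map_one' := by
    ext f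
    exact rn_one n f
  map_mul' σ τ := by
    ext f
    exact (rn_rn n σ τ f).symm

theorem aP_eq (n j : ℕ) (f : P) : aP n j f = aA (rnρ n) j f := by
  rw [grpa_apply]
  unfold aP
  rw [LinearMap.sum_apply]
  rfl

theorem sP_eq (n j : ℕ) (f : P) : sP n j f = sA (rnρ n) j f := by
  rw [grps_apply]
  unfold sP
  rw [LinearMap.sum_apply]
  rfl

/-- `sP ∘ aP` is quasi-idempotent -/
theorem Tj_sq {n j : ℕ} (hj : j ≤ n) (f : P) :
    sP n j (aP n j (sP n j (aP n j f))) = ((j.factorial * (n - j).factorial : ℕ) : ℤ) • sP n j (aP n j f) := by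
  simp only [aP_eq, sP_eq]
  rw [← sA_aA (rnρ n) j (aA (rnρ n) j f), aA_aA (rnρ n) hj, map_zsmul, map_zsmul, sA_sA (rnρ n) hj, smul_smul]
  push_cast
  rfl

end ADC
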