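import Pool.Agent.ADC.Bas

/-!
# ADC-KmlB: the cubic identity `kk a b` and its linearisation `kml a b`
-/

namespace ADC

open AD ADN

private theorem sb_zs (φ : ℕ → P) (c : ℤ) (f : P) : sb φ (c • f) = c • sb φ f := map_zsmul (sb φ) c f

private theorem sb_kml (φ : ℕ → P) (a b : ℤ) : sb φ (kml a b) =
    a • ((φ 1 * φ 0 - φ 0 * φ 1) * φ 2 + (φ 2 * φ 0 - φ 0 * φ 2) * φ 1) +
      b • (φ 1 * (φ 2 * φ 0 - φ 0 * φ 2) + φ 2 * (φ 1 * φ 0 - φ 0 * φ 1)) := by
  unfold kml cm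
  rw [map_add, sb_zs, sb_zs]
  simp only [map_add, map_sub, map_mul, sb_X]

private theorem sb_kk (φ : ℕ → P) (a b : ℤ) : sb φ (kk a b) =
    a • ((φ 0 * φ 1 - φ 1 * φ 0) * φ 0) + b • (φ 0 * (φ 0 * φ 1 - φ 1 * φ 0)) := by
  unfold kk
  rw [map_add, sb_zs, sb_zs]
  simp only [map_sub, map_mul, sb_X]

/-- the substitution `x_0 ↦ h`, `x_1 ↦ x_0` -/
private noncomputable def fh (h : P) (i : ℕ) : P := if i = 0 then h else if i = 1 then X 0 else X i

private theorem fh_mem {h : P} (hh : h ∈ Pp) (i : ℕ) : fh h i ∈ Pp := by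
  unfold fh
  split_ifs
  · exact hh
  · exact X_mem 0
  · exact X_mem i

private theorem fh_kk (h : P) (a b : ℤ) : sb (fh h) (kk a b) =
    a • ((h * X 0 - X 0 * h) * h) + b • (h * (h * X 0 - X 0 * h)) := by
  rw [sb_kk]
  rfl

theorem kml_Ml (a b : ℤ) : kml a b ∈ Ml 3 := by
  have m : ∀ i j k : ℕ, [i, j, k].Perm (List.range 3) → X i * X j * X k ∈ Ml 3 := by
    intro i j k h
    have h1 := Ml_mon h
    rw [mon_cons, mon_cons, mon_single, ← mul_assoc] at h1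
    exact h1
  have h1 : cm 1 0 * X 2 + cm 2 0 * X 1 ∈ Ml 3 := by
    unfold cm
    rw [sub_mul, sub_mul]
    exact (Ml 3).add_mem ((Ml 3).sub_mem (m 1 0 2 (by decide)) (m 0 1 2 (by decide)))
      ((Ml 3).sub_mem (m 2 0 1 (by decide)) (m 0 2 1 (by decide)))
  have h2 : X 1 * cm 2 0 + X 2 * cm 1 0 ∈ Ml 3 := by
    unfold cm
    rw [mul_sub, mul_sub, ← mul_assoc, ← mul_assoc, ← mul_assoc, ← mul_assoc]
    exact (Ml 3).add_mem ((Ml 3).sub_mem (m 1 2 0 (by decide)) (m 1 0 2 (by decide)))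
      ((Ml 3).sub_mem (m 2 1 0 (by decide)) (m 2 0 1 (by decide)))
  exact (Ml 3).add_mem ((Ml 3).smul_mem a h1) ((Ml 3).smul_mem b h2)

theorem kml_of_kk {D : Submodule ℤ P} (hD : IsT D) {a b : ℤ} (h : kk a b ∈ D) : kml a b ∈ D := by
  have h12 := sb_mem hD (fh_mem (Pp.add_mem (X_mem 1) (X_mem 2))) h
  have h1 := sb_mem hD (fh_mem (X_mem 1)) h
  have h2 := sb_mem hD (fh_mem (X_mem 2)) h
  rw [fh_kk] at h12 h1 h2
  have hA : cm 1 0 * X 2 + cm 2 0 * X 1 =
      ((X 1 + X 2) * X 0 - X 0 * (X 1 + X 2)) * (X 1 + X 2) -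
        (X 1 * X 0 - X 0 * X 1) * X 1 - (X 2 * X 0 - X 0 * X 2) * X 2 := by
    unfold cm
    noncomm_ring
  have hB : X 1 * cm 2 0 + X 2 * cm 1 0 =
      (X 1 + X 2) * ((X 1 + X 2) * X 0 - X 0 * (X 1 + X 2)) -
        X 1 * (X 1 * X 0 - X 0 * X 1) - X 2 * (X 2 * X 0 - X 0 * X 2) := by
    unfold cm
    noncomm_ring
  have h3 := D.sub_mem (D.sub_mem h12 h1) h2
  unfold kml
  rw [hA, hB, smul_sub, smul_sub, smul_sub, smul_sub]
  refine (congrArg (fun f => f ∈ D) ?_).mp h3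
  abel

theorem kk_of_kml {p : ℕ} (hp : p.Prime) (h3 : 3 ≤ p) {D : Submodule ℤ P} (hD : IsT D)
    (hm : Mul ((p : ℤ) ^ 2) D) {a b : ℤ} (h : kml a b ∈ D) : kk a b ∈ D := by
  have h1 := sb_mem hD (φ := fun i => if i = 0 then X 1 else if i = 1 then X 0 else
    if i = 2 then X 0 else X i) (fun i => by
      show (if i = 0 then X 1 else if i = 1 then X 0 else if i = 2 then X 0 else X i) ∈ Pp
      split_ifs
      · exact X_mem 1
      · exact X_mem 0
      · exact X_mem 0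
      · exact X_mem i) h
  rw [sb_kml] at h1
  have h2 : a • ((X 0 * X 1 - X 1 * X 0) * X 0 + (X 0 * X 1 - X 1 * X 0) * X 0) +
      b • (X 0 * (X 0 * X 1 - X 1 * X 0) + X 0 * (X 0 * X 1 - X 1 * X 0)) ∈ D := h1
  have h4 : (2 : ℤ) • kk a b ∈ D := by
    refine (congrArg (fun f => f ∈ D) ?_).mp h2
    unfold kk
    rw [smul_add, smul_add, two_smul]
    exact add_add_add_comm _ _ _ _
  have h5 : kk a b ∈ Pp := by
    unfold kk
    refine Pp.add_mem (Pp.smul_mem a ?_) (Pp.smul_mem b ?_)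
    · exact Pp_mul_left _ (X_mem 0)
    · exact Pp_mul_right (X_mem 0) _
  refine cancel hp hm (c := 2) ?_ h5 h4
  intro h6
  have h7 := Int.le_of_dvd (by norm_num) h6
  omega

/-- the identity for arbitrary elements -/
theorem kml_subst {D : Submodule ℤ P} (hD : IsT D) {a b : ℤ} (h : kml a b ∈ D) {x y z : P} (hx : x ∈ Pp)
    (hy : y ∈ Pp) (hz : z ∈ Pp) :
    a • ((y * x - x * y) * z + (z * x - x * z) * y) + b • (y * (z * x - x * z) + z * (y * x - x * y)) ∈ D := by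
  have h1 := sb_mem hD (φ := fun i => if i = 0 then x else if i = 1 then y else
    if i = 2 then z else X i) (fun i => by
      show (if i = 0 then x else if i = 1 then y else if i = 2 then z else X i) ∈ Pp
      split_ifs
      · exact hx
      · exact hy
      · exact hz
      · exact X_mem i) h
  rw [sb_kml] at h1
  exact h1

end ADC
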