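import Pool.Agent.ADC.Npn
import Pool.Agent.ADC.KmlB
import Pool.Agent.ADC.GrpA

/-!
# ADC-Core3: no linked pairs in degree 3
-/

namespace ADC

open AD ADN

private theorem c3_w3 {w : List ℕ} (h : w.Perm (List.range 3)) :
    w = [0, 1, 2] ∨ w = [0, 2, 1] ∨ w = [1, 0, 2] ∨ w = [1, 2, 0] ∨ w = [2, 0, 1] ∨
      w = [2, 1, 0] := by
  have hl := h.length_eq
  rw [List.length_range] at hl
  obtain ⟨a, b, c, rfl⟩ := List.length_eq_three.1 hl
  have hn : [a, b, c].Nodup := h.nodup_iff.2 List.nodup_range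
  have ha : a < 3 := List.mem_range.1 (h.mem_iff.1 (by simp))
  have hb : b < 3 := List.mem_range.1 (h.mem_iff.1 (by simp))
  have hc : c < 3 := List.mem_range.1 (h.mem_iff.1 (by simp))
  interval_cases a <;> interval_cases b <;> interval_cases c <;> simp_all

private theorem c3_mw {w : List ℕ} (h : w.Perm (List.range 3)) :
    ∃ τ : Equiv.Perm (Fin 3), mon w = rn 3 τ (mw 3) := by
  have key : ∀ (τ : Equiv.Perm (Fin 3)) (w : List ℕ), (List.range 3).map (pN 3 τ) = w →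
      mon w = rn 3 τ (mw 3) := by
    intro τ w hw
    unfold mw
    rw [rn_mon, hw]
  rcases c3_w3 h with rfl | rfl | rfl | rfl | rfl | rfl
  · exact ⟨1, key _ _ (by decide)⟩
  · exact ⟨Equiv.swap 1 2, key _ _ (by decide)⟩
  · exact ⟨Equiv.swap 0 1, key _ _ (by decide)⟩
  · exact ⟨Equiv.swap 0 1 * Equiv.swap 1 2, key _ _ (by decide)⟩
  · exact ⟨Equiv.swap 1 2 * Equiv.swap 0 1, key _ _ (by decide)⟩
  · exact ⟨Equiv.swap 0 2, key _ _ (by decide)⟩

private theorem c3_sF (τ : Equiv.Perm (Fin 3)) : τ ∈ sF 3 0 :=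
  Finset.mem_filter.2 ⟨Finset.mem_univ _, fun _ hi => absurd hi (Nat.not_lt_zero _)⟩

private theorem c3_aF (τ : Equiv.Perm (Fin 3)) : τ ∈ aF 3 3 :=
  Finset.mem_filter.2 ⟨Finset.mem_univ _, fun i hi => absurd i.2 (by omega)⟩

private theorem c3_S (τ : Equiv.Perm (Fin 3)) (f : P) : sP 3 0 (rn 3 τ f) = sP 3 0 f := by
  rw [sP_eq, sP_eq]
  exact (rho_sA (rnρ 3) (c3_sF τ) f).2

private theorem c3_S' (τ : Equiv.Perm (Fin 3)) (f : P) : rn 3 τ (sP 3 0 f) = sP 3 0 f := by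
  rw [sP_eq]
  exact (rho_sA (rnρ 3) (c3_sF τ) f).1

private theorem c3_T (τ : Equiv.Perm (Fin 3)) (f : P) :
    aP 3 3 (rn 3 τ f) = ((Equiv.Perm.sign τ : ℤˣ) : ℤ) • aP 3 3 f := by
  rw [aP_eq, aP_eq]
  exact (rho_aA (rnρ 3) (c3_aF τ) f).2

private theorem c3_E (f : P) : sP 3 1 f = f + rn 3 (Equiv.swap 1 2) f := by
  have h : sF 3 1 = {1, Equiv.swap 1 2} := by decide
  unfold sP
  rw [h, Finset.sum_pair (by decide), LinearMap.add_apply, tl_apply, tl_apply, rn_one]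

private theorem c3_tot : sP 3 0 (mon [0, 1, 2]) = mon [0, 1, 2] + mon [1, 0, 2] + mon [2, 1, 0] +
    mon [0, 2, 1] + mon [1, 2, 0] + mon [2, 0, 1] := by
  have h : sF 3 0 = {1, Equiv.swap 0 1, Equiv.swap 0 2, Equiv.swap 1 2,
      Equiv.swap 0 1 * Equiv.swap 1 2, Equiv.swap 1 2 * Equiv.swap 0 1} := by decide
  unfold sP
  rw [h, Finset.sum_insert (by decide), Finset.sum_insert (by decide),
    Finset.sum_insert (by decide), Finset.sum_insert (by decide), Finset.sum_pair (by decide)]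
  simp only [LinearMap.add_apply, tl_apply, rn_mon]
  have e0 : List.map (pN 3 1) [0, 1, 2] = [0, 1, 2] := by decide
  have e1 : List.map (pN 3 (Equiv.swap 0 1)) [0, 1, 2] = [1, 0, 2] := by decide
  have e2 : List.map (pN 3 (Equiv.swap 0 2)) [0, 1, 2] = [2, 1, 0] := by decide
  have e3 : List.map (pN 3 (Equiv.swap 1 2)) [0, 1, 2] = [0, 2, 1] := by decide
  have e4 : List.map (pN 3 (Equiv.swap 0 1 * Equiv.swap 1 2)) [0, 1, 2] = [1, 2, 0] := by decide
  have e5 : List.map (pN 3 (Equiv.swap 1 2 * Equiv.swap 0 1)) [0, 1, 2] = [2, 0, 1] := by decide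
  rw [e0, e1, e2, e3, e4, e5]
  abel

private theorem c3_v1 : kml 1 0 = mon [1, 0, 2] + mon [2, 0, 1] - mon [0, 1, 2] - mon [0, 2, 1] := by
  unfold kml cm
  rw [one_smul, zero_smul, add_zero]
  simp only [mon_cons, mon_nil]
  noncomm_ring

private theorem c3_v2 : kml 0 1 = mon [1, 2, 0] + mon [2, 1, 0] - mon [1, 0, 2] - mon [2, 0, 1] := by
  unfold kml cm
  rw [one_smul, zero_smul, zero_add]
  simp only [mon_cons, mon_nil]
  noncomm_ring

private theorem c3_kml (a b : ℤ) : kml a b = a • kml 1 0 + b • kml 0 1 := by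
  unfold kml
  rw [one_smul, one_smul, zero_smul, zero_smul, add_zero, zero_add]

private theorem c3_tot' {w : List ℕ} (h : w.Perm (List.range 3)) :
    sP 3 0 (mon w) = mon [0, 1, 2] + mon [1, 0, 2] + mon [2, 1, 0] +
    mon [0, 2, 1] + mon [1, 2, 0] + mon [2, 0, 1] := by
  obtain ⟨τ, hτ⟩ := c3_mw h
  rw [hτ, c3_S]
  exact c3_tot

/-- the operator `(1 + (1 2)) (6 - S)` -/
private noncomputable def phi3 : P →ₗ[ℤ] P := (6 : ℤ) • sP 3 1 - (2 : ℤ) • sP 3 0

private theorem phi3_apply (f : P) : phi3 f = (6 : ℤ) • sP 3 1 f - (2 : ℤ) • sP 3 0 f := rfl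

private theorem phi3_mon {w : List ℕ} (h : w.Perm (List.range 3)) :
    ∃ c d : ℤ, phi3 (mon w) = c • kml 1 0 + d • kml 0 1 := by
  have e012 : List.map (pN 3 (Equiv.swap 1 2)) [0, 1, 2] = [0, 2, 1] := by decide
  have e021 : List.map (pN 3 (Equiv.swap 1 2)) [0, 2, 1] = [0, 1, 2] := by decide
  have e102 : List.map (pN 3 (Equiv.swap 1 2)) [1, 0, 2] = [2, 0, 1] := by decide
  have e120 : List.map (pN 3 (Equiv.swap 1 2)) [1, 2, 0] = [2, 1, 0] := by decide
  have e201 : List.map (pN 3 (Equiv.swap 1 2)) [2, 0, 1] = [1, 0, 2] := by decide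
  have e210 : List.map (pN 3 (Equiv.swap 1 2)) [2, 1, 0] = [1, 2, 0] := by decide
  rw [phi3_apply, c3_tot' h, c3_E, rn_mon, c3_v1, c3_v2]
  rcases c3_w3 h with rfl | rfl | rfl | rfl | rfl | rfl
  · refine ⟨-4, -2, ?_⟩
    rw [e012]
    module
  · refine ⟨-4, -2, ?_⟩
    rw [e021]
    module
  · refine ⟨2, -2, ?_⟩
    rw [e102]
    module
  · refine ⟨2, 4, ?_⟩
    rw [e120]
    module
  · refine ⟨2, -2, ?_⟩
    rw [e201]
    module
  · refine ⟨2, 4, ?_⟩
    rw [e210]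
    module

private theorem phi3_mem {f : P} (hf : f ∈ Ml 3) :
    ∃ c d : ℤ, phi3 f = c • kml 1 0 + d • kml 0 1 := by
  refine Ml_ind (C := fun f => ∃ c d : ℤ, phi3 f = c • kml 1 0 + d • kml 0 1) ?_ ?_ ?_ ?_ hf
  · exact ⟨0, 0, by rw [map_zero, zero_smul, zero_smul, add_zero]⟩
  · rintro f g ⟨c, d, h⟩ ⟨c', d', h'⟩
    refine ⟨c + c', d + d', ?_⟩
    rw [map_add, h, h']
    module
  · rintro e f ⟨c, d, h⟩
    refine ⟨e * c, e * d, ?_⟩
    rw [map_smul, h]
    module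
  · intro w hw
    exact phi3_mon hw

private theorem c3_SS (f : P) : sP 3 0 (sP 3 0 f) = (6 : ℤ) • sP 3 0 f := by
  rw [sP_eq, sP_eq, sA_sA _ (by norm_num)]
  rfl

private theorem c3_TT (f : P) : aP 3 3 (aP 3 3 f) = (6 : ℤ) • aP 3 3 f := by
  rw [aP_eq, aP_eq, aA_aA _ (by norm_num)]
  rfl

private theorem phi3_phi3 (f : P) : phi3 (phi3 f) = (12 : ℤ) • phi3 f := by
  have h1 : sP 3 0 (phi3 f) = 0 := by
    rw [phi3_apply, map_sub, map_smul, map_smul, c3_SS, c3_E, map_add, c3_S]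
    module
  have h2 : sP 3 1 (phi3 f) = (2 : ℤ) • phi3 f := by
    rw [c3_E, phi3_apply, c3_E, map_sub, map_zsmul, map_zsmul, c3_S', map_add, rn_rn,
      Equiv.swap_mul_self, rn_one]
    module
  rw [phi3_apply (phi3 f), h1, h2]
  module

theorem core3 {p : ℕ} {I J A B C : Submodule ℤ P} {q : ℤ} {a b t : P} (h : Pr p I J A B C 3 q a b t)
    {α β : ℤ} (hab : ¬ ((p : ℤ) ∣ α ∧ (p : ℤ) ∣ β)) (hk : kk α β ∈ J) : False := by
  have hp := h.bJ.pp
  have h5 := h.bJ.five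
  have hI : IsT I := h.hI
  have hI2 : Mul ((p : ℤ) ^ 2) I := h.p2
  have hmP : Ml 3 ≤ Pp := Ml_Pp (by norm_num)
  have h6 : ¬ (p : ℤ) ∣ 6 := by
    intro hd
    have h1 : p ∣ 6 := by exact_mod_cast hd
    have h2 := Nat.le_of_dvd (by norm_num) h1
    interval_cases p
    · omega
    · exact absurd hp (by norm_num)
  have h12 : ¬ (p : ℤ) ∣ 12 := by
    intro hd
    have h1 : (p : ℤ) ∣ 2 * 6 := by
      have : (2 * 6 : ℤ) = 12 := by norm_num
      rw [this]
      exact hd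
    rcases (Nat.prime_iff_prime_int.1 hp).dvd_or_dvd h1 with h2 | h2
    · have h3 := Int.le_of_dvd (by norm_num) h2
      omega
    · exact h6 h2
  -- the symmetric part
  have hSa : sP 3 0 a ∈ I := by
    refine h.npn (TOp_sP p 3 0) (fun f hf => Ml_sP 0 hf) h6 (fun f _ => c3_SS f)
      (Y := sP 3 0 (mw 3)) (Ml_sP 0 (Ml_mon (List.Perm.refl _))) (fun f hf => ?_)
    refine Submodule.mem_sup_right ?_
    refine Ml_ind (C := fun f => sP 3 0 f ∈ Submodule.span ℤ {sP 3 0 (mw 3)}) ?_ ?_ ?_ ?_ hf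
    · rw [map_zero]
      exact Submodule.zero_mem _
    · intro f g hf hg
      rw [map_add]
      exact Submodule.add_mem _ hf hg
    · intro c f hf
      rw [map_smul]
      exact Submodule.smul_mem _ c hf
    · intro w hw
      obtain ⟨τ, hτ⟩ := c3_mw hw
      rw [hτ, c3_S]
      exact Submodule.mem_span_singleton_self _
  -- the alternating part
  have hTa : aP 3 3 a ∈ I := by
    refine h.npn (TOp_aP p 3 3) (fun f hf => Ml_aP 3 hf) h6 (fun f _ => c3_TT f)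
      (Y := aP 3 3 (mw 3)) (Ml_aP 3 (Ml_mon (List.Perm.refl _))) (fun f hf => ?_)
    refine Submodule.mem_sup_right ?_
    refine Ml_ind (C := fun f => aP 3 3 f ∈ Submodule.span ℤ {aP 3 3 (mw 3)}) ?_ ?_ ?_ ?_ hf
    · rw [map_zero]
      exact Submodule.zero_mem _
    · intro f g hf hg
      rw [map_add]
      exact Submodule.add_mem _ hf hg
    · intro c f hf
      rw [map_smul]
      exact Submodule.smul_mem _ c hf
    · intro w hw
      obtain ⟨τ, hτ⟩ := c3_mw hw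
      rw [hτ, c3_T]
      exact Submodule.smul_mem _ _ (Submodule.mem_span_singleton_self _)
  -- the remaining part
  have hkJ : kml α β ∈ J := kml_of_kk h.bJ.isT hk
  have hY : ∃ Y ∈ Ml 3, ∀ c d : ℤ, c • kml 1 0 + d • kml 0 1 ∈ J ⊔ Submodule.span ℤ {Y} := by
    have hpv : ∀ x y : ℤ, (p : ℤ) • kml x y ∈ J := fun x y => h.bJ.mul _ (hmP (kml_Ml x y))
    by_cases hα : (p : ℤ) ∣ α
    · have hβ : ¬ (p : ℤ) ∣ β := fun hβ => hab ⟨hα, hβ⟩
      have hco : IsCoprime β (p : ℤ) :=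
        ((Prime.coprime_iff_not_dvd (Nat.prime_iff_prime_int.1 hp)).2 hβ).symm
      obtain ⟨u, v, huv⟩ := hco
      refine ⟨kml 1 0, kml_Ml 1 0, fun c d => ?_⟩
      have e : c • kml 1 0 + d • kml 0 1 = ((d * u) • kml α β + (d * v) • ((p : ℤ) • kml 0 1)) +
          (c - d * u * α) • kml 1 0 := by
        rw [c3_kml α β]
        have h1 : d • kml 0 1 = (d * (u * β + v * (p : ℤ))) • kml 0 1 := by rw [huv, mul_one]
        rw [h1]
        module
      rw [e]
      exact Submodule.add_mem_sup (J.add_mem (J.smul_mem _ hkJ) (J.smul_mem _ (hpv 0 1)))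
        (Submodule.smul_mem _ _ (Submodule.mem_span_singleton_self _))
    · have hco : IsCoprime α (p : ℤ) :=
        ((Prime.coprime_iff_not_dvd (Nat.prime_iff_prime_int.1 hp)).2 hα).symm
      obtain ⟨u, v, huv⟩ := hco
      refine ⟨kml 0 1, kml_Ml 0 1, fun c d => ?_⟩
      have e : c • kml 1 0 + d • kml 0 1 = ((c * u) • kml α β + (c * v) • ((p : ℤ) • kml 1 0)) +
          (d - c * u * β) • kml 0 1 := by
        rw [c3_kml α β]
        have h1 : c • kml 1 0 = (c * (u * α + v * (p : ℤ))) • kml 1 0 := by rw [huv, mul_one]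
        rw [h1]
        module
      rw [e]
      exact Submodule.add_mem_sup (J.add_mem (J.smul_mem _ hkJ) (J.smul_mem _ (hpv 1 0)))
        (Submodule.smul_mem _ _ (Submodule.mem_span_singleton_self _))
  obtain ⟨Y, hYM, hYs⟩ := hY
  have hTOp : TOp p phi3 := ((TOp_sP p 3 1).smul 6).sub ((TOp_sP p 3 0).smul 2)
  have hMphi : ∀ f ∈ Ml 3, phi3 f ∈ Ml 3 := fun f hf => by
    rw [phi3_apply]
    exact (Ml 3).sub_mem ((Ml 3).smul_mem _ (Ml_sP 1 hf)) ((Ml 3).smul_mem _ (Ml_sP 0 hf))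
  have hPa : ∀ σ : Equiv.Perm (Fin 3), phi3 (rn 3 σ a) ∈ I := by
    intro σ
    refine (h.rn σ).npn hTOp hMphi h12 (fun f _ => phi3_phi3 f) hYM (fun f hf => ?_)
    obtain ⟨c, d, e⟩ := phi3_mem hf
    rw [e]
    exact hYs c d
  have hEa : ∀ σ : Equiv.Perm (Fin 3), rn 3 σ a + rn 3 (Equiv.swap 1 2) (rn 3 σ a) ∈ I := by
    intro σ
    have hM : rn 3 σ a ∈ Ml 3 := Ml_rn σ h.ha
    have h1 : (6 : ℤ) • sP 3 1 (rn 3 σ a) ∈ I := by
      have h2 := I.add_mem (hPa σ) (I.smul_mem 2 hSa)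
      rw [phi3_apply, c3_S, sub_add_cancel] at h2
      exact h2
    have h2 := cancel hp hI2 h6 (hmP (Ml_sP 1 hM)) h1
    rwa [c3_E] at h2
  have hsw : ∀ i j : Fin 3, i ≠ j → a + rn 3 (Equiv.swap i j) a ∈ I := by
    intro i j hij
    obtain ⟨σ, h1, h2⟩ : ∃ σ : Equiv.Perm (Fin 3), σ i = 1 ∧ σ j = 2 := by
      revert i j
      decide
    have h3 := hI.subst (rn 3 σ⁻¹) (rn_isSubst 3 σ⁻¹) _ (hEa σ)
    rw [map_add, rn_rn, rn_rn, rn_rn, inv_mul_cancel, rn_one] at h3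
    have e : σ⁻¹ * (Equiv.swap 1 2 * σ) = Equiv.swap i j := by
      rw [← h1, ← h2, Equiv.swap_apply_apply]
      group
    rw [mul_assoc, e] at h3
    exact h3
  have hsg : ∀ σ : Equiv.Perm (Fin 3), rn 3 σ a - ((Equiv.Perm.sign σ : ℤˣ) : ℤ) • a ∈ I := by
    intro σ
    induction σ using Equiv.Perm.swap_induction_on with
    | one =>
      rw [rn_one, Equiv.Perm.sign_one, Units.val_one, one_smul, sub_self]
      exact I.zero_mem
    | swap_mul f x y hxy ih =>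
      have h1 := hI.subst (rn 3 (Equiv.swap x y)) (rn_isSubst 3 _) _ ih
      have h2 := I.smul_mem ((Equiv.Perm.sign f : ℤˣ) : ℤ) (hsw x y hxy)
      rw [map_sub, rn_rn, map_zsmul] at h1
      have e : rn 3 (Equiv.swap x y * f) a -
          ((Equiv.Perm.sign (Equiv.swap x y * f) : ℤˣ) : ℤ) • a =
          (rn 3 (Equiv.swap x y * f) a -
            ((Equiv.Perm.sign f : ℤˣ) : ℤ) • rn 3 (Equiv.swap x y) a) +
          ((Equiv.Perm.sign f : ℤˣ) : ℤ) • (a + rn 3 (Equiv.swap x y) a) := by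
        rw [Equiv.Perm.sign_mul, Equiv.Perm.sign_swap hxy, Units.val_mul, Units.val_neg,
          Units.val_one]
        module
      rw [e]
      exact I.add_mem h1 h2
  have h6a : (6 : ℤ) • a ∈ I := by
    have e : (6 : ℤ) • a = aP 3 3 a - ∑ σ ∈ aF 3 3, ((Equiv.Perm.sign σ : ℤˣ) : ℤ) •
        (rn 3 σ a - ((Equiv.Perm.sign σ : ℤˣ) : ℤ) • a) := by
      have h1 : aP 3 3 a = ∑ σ ∈ aF 3 3, ((Equiv.Perm.sign σ : ℤˣ) : ℤ) • rn 3 σ a := by
        unfold aP
        rw [LinearMap.sum_apply]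
        rfl
      rw [h1, ← Finset.sum_sub_distrib]
      have h2 : ∀ σ ∈ aF 3 3, ((Equiv.Perm.sign σ : ℤˣ) : ℤ) • rn 3 σ a -
          ((Equiv.Perm.sign σ : ℤˣ) : ℤ) • (rn 3 σ a - ((Equiv.Perm.sign σ : ℤˣ) : ℤ) • a) = a := by
        intro σ _
        rcases Int.units_eq_one_or (Equiv.Perm.sign σ) with hs | hs
        · rw [hs, Units.val_one]
          module
        · rw [hs, Units.val_neg, Units.val_one]
          module
      rw [Finset.sum_congr rfl h2, Finset.sum_const, card_aF (le_refl 3)]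
      have h3 : (Nat.factorial 3) = 6 := rfl
      rw [h3]
      exact (natCast_zsmul a 6)
    rw [e]
    exact I.sub_mem hTa (I.sum_mem fun σ _ => I.smul_mem _ (hsg σ))
  exact h.na (cancel hp hI2 h6 (hmP h.ha) h6a)

end ADC
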