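import Pool.Agent.ADC.Bas

/-!
# ADC-Quot: the quotient ring by a T-ideal
-/

namespace ADC

open AD ADN

/-- the congruence modulo `D` -/
private def quotCon {D : Submodule ℤ P} (hD : IsT D) : RingCon P where
  r f g := f - g ∈ D
  iseqv := by
    refine ⟨fun f => ?_, fun {f g} h => ?_, fun {f g k} h h' => ?_⟩
    · rw [sub_self]; exact D.zero_mem
    · rw [← neg_sub]; exact D.neg_mem h
    · have : f - k = (f - g) + (g - k) := by abel
      rw [this]; exact D.add_mem h h'
  mul' := by
    intro f g k l h h'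
    have : f * k - g * l = (f - g) * k + g * (k - l) := by rw [sub_mul, mul_sub]; abel
    rw [this]
    exact D.add_mem (hD.mul_right _ h _) (hD.mul_left _ h' _)
  add' := by
    intro f g k l h h'
    have : f + k - (g + l) = (f - g) + (k - l) := by abel
    rw [this]
    exact D.add_mem h h'

theorem exists_quot {D : Submodule ℤ P} (hD : IsT D) :
    ∃ (S : Type) (_ : Ring S) (π : P →+* S), Function.Surjective π ∧ ∀ f, π f = 0 ↔ f ∈ D := by
  refine ⟨(quotCon hD).Quotient, inferInstance, (quotCon hD).mk', RingCon.mk'_surjective _, fun f => ?_⟩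
  have h : (quotCon hD).mk' f = (quotCon hD).mk' 0 ↔ quotCon hD f 0 := (quotCon hD).eq
  rw [map_zero] at h
  rw [h]
  show f - 0 ∈ D ↔ f ∈ D
  rw [sub_zero]

theorem quot_lift {D : Submodule ℤ P} (hD : IsT D) {S : Type} [Ring S] (π : P →+* S)
    (hπ : ∀ f, π f = 0 ↔ f ∈ D) (ψ : ℕ → P) (hψ : ∀ i, ψ i ∈ Pp) {g : P} (hg : g ∈ D) :
    FreeAlgebra.lift ℤ (fun i => π (ψ i)) g = 0 := by
  have h : ∀ w, FreeAlgebra.lift ℤ (fun i => π (ψ i)) (mon w) = π (sb ψ (mon w)) := by
    intro w
    induction w with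
    | nil => rw [mon_nil, map_one, map_one, map_one]
    | cons a w ih =>
      rw [mon_cons, map_mul, map_mul, map_mul, ih, sb_X]
      congr 1
      exact FreeAlgebra.lift_ι_apply _ _
  have h2 : ∀ f, FreeAlgebra.lift ℤ (fun i => π (ψ i)) f = π (sb ψ f) := by
    intro f
    refine ind_mon (C := fun f => FreeAlgebra.lift ℤ (fun i => π (ψ i)) f = π (sb ψ f)) (by simp) ?_ ?_ h f
    · intro f g hf hg; rw [map_add, map_add, map_add, hf, hg]
    · intro c f hf; rw [map_zsmul, map_zsmul, map_zsmul, hf]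
  rw [h2, hπ]
  exact sb_mem hD hψ hg

end ADC
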