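import Pool.Agent.ADC.M4r

/-!
# ADC-Rm

Rings with `K` (squares commute with everything): `S` a ring, `F` a subset closed under products and sums, without
2-torsion.  Then all commutator words of degree 5 vanish.

Let `T(x,y,z) = [x,y] z + z [x,y]`.  By M4a, M4b: `T(x,y,z) t = 0 = t T(x,y,z)`.  By M4c (cancel 2): `(xy + yx)[z,t] = 0`.
1. `E(x,y,z) := x y z [u,v] = 0`: M4c with `x := x`, `y := y z`: `(x (yz) + (yz) x)[u,v] = 0`, i.e. `E(x,y,z) = -E(y,z,x)`.  Apply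
   this rule three times: `E(x,y,z) = -E(y,z,x) = E(z,x,y) = -E(x,y,z)`.  So `2 E = 0`, `E = 0`.
2. `x y [u,v] z = x y T(u,v,z) - x y z [u,v] = 0` (`y T = 0`), then `x [u,v] y z = x T(u,v,y) z - x y [u,v] z = 0`,
   `[u,v] x y z = T(u,v,x) y z - x [u,v] y z = 0`.
-/

namespace ADC

private theorem rm_cyc {S : Type*} [Ring S] (F : Set S) (hm : ∀ x ∈ F, ∀ y ∈ F, x * y ∈ F)
    (ha : ∀ x ∈ F, ∀ y ∈ F, x + y ∈ F) (hn : ∀ x ∈ F, -x ∈ F) (h2 : ∀ x ∈ F, (2 : ℤ) • x = 0 → x = 0)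
    (K : ∀ x ∈ F, ∀ z ∈ F, ∀ y ∈ F,
      (x*y - y*x)*z + (z*y - y*z)*x + (x*(z*y - y*z) + z*(x*y - y*x)) = 0)
    {x y z u v : S} (hx : x ∈ F) (hy : y ∈ F) (hz : z ∈ F) (hu : u ∈ F) (hv : v ∈ F) :
    x*y*z*(u*v - v*u) = -(y*z*x*(u*v - v*u)) := by
  have hc : u*v - v*u ∈ F := by
    rw [sub_eq_add_neg]
    exact ha _ (hm _ hu _ hv) _ (hn _ (hm _ hv _ hu))
  have h1 : (x*(y*z) + (y*z)*x)*(u*v - v*u) = 0 :=
    h2 _ (hm _ (ha _ (hm _ hx _ (hm _ hy _ hz)) _ (hm _ (hm _ hy _ hz) _ hx)) _ hc)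
      (M4c F hm K hx (hm _ hy _ hz) hu hv)
  rw [add_mul] at h1
  rw [eq_neg_iff_add_eq_zero, ← h1]
  simp only [mul_assoc]

variable {S : Type*} [Ring S]

theorem Rm (F : Set S) (hm : ∀ x ∈ F, ∀ y ∈ F, x * y ∈ F) (ha : ∀ x ∈ F, ∀ y ∈ F, x + y ∈ F)
    (hn : ∀ x ∈ F, -x ∈ F) (h2 : ∀ x ∈ F, (2 : ℤ) • x = 0 → x = 0)
    (K : ∀ x ∈ F, ∀ z ∈ F, ∀ y ∈ F,
      (x*y - y*x)*z + (z*y - y*z)*x + (x*(z*y - y*z) + z*(x*y - y*x)) = 0)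
    {x y z u v : S} (hx : x ∈ F) (hy : y ∈ F) (hz : z ∈ F) (hu : u ∈ F) (hv : v ∈ F) :
    x*y*z*(u*v - v*u) = 0 ∧ x*y*(u*v - v*u)*z = 0 ∧ x*(u*v - v*u)*y*z = 0 ∧ (u*v - v*u)*x*y*z = 0 := by
  have hc : u*v - v*u ∈ F := by
    rw [sub_eq_add_neg]
    exact ha _ (hm _ hu _ hv) _ (hn _ (hm _ hv _ hu))
  have hE : x*y*z*(u*v - v*u) = 0 := by
    have e1 := rm_cyc F hm ha hn h2 K hx hy hz hu hv
    have e2 := rm_cyc F hm ha hn h2 K hy hz hx hu hv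
    have e3 := rm_cyc F hm ha hn h2 K hz hx hy hu hv
    have e4 : x*y*z*(u*v - v*u) = -(x*y*z*(u*v - v*u)) := by
      rw [e2, e3] at e1
      rw [neg_neg] at e1
      exact e1
    refine h2 _ (hm _ (hm _ (hm _ hx _ hy) _ hz) _ hc) ?_
    rw [two_smul]
    exact add_eq_zero_iff_eq_neg.2 e4
  have T1 : ∀ w ∈ F, ∀ t ∈ F, ((u*v - v*u)*w + w*(u*v - v*u))*t = 0 := fun w hw t ht => by
    have := M4a F hm K hu hv hw ht
    rwa [one_smul] at this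
  have T2 : ∀ w ∈ F, ∀ t ∈ F, t*((u*v - v*u)*w + w*(u*v - v*u)) = 0 := fun w hw t ht => by
    have := M4b F hm K hu hv hw ht
    rwa [one_smul] at this
  have hE2 : x*y*(u*v - v*u)*z = 0 := by
    have h := T2 z hz y hy
    have h' : x*(y*((u*v - v*u)*z + z*(u*v - v*u))) = x*y*(u*v - v*u)*z + x*y*z*(u*v - v*u) := by noncomm_ring
    rw [h, mul_zero, hE, add_zero] at h'
    exact h'.symm
  have hE3 : x*(u*v - v*u)*y*z = 0 := by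
    have h := T1 y hy z hz
    have h' : x*(((u*v - v*u)*y + y*(u*v - v*u))*z) = x*(u*v - v*u)*y*z + x*y*(u*v - v*u)*z := by noncomm_ring
    rw [h, mul_zero, hE2, add_zero] at h'
    exact h'.symm
  refine ⟨hE, hE2, hE3, ?_⟩
  have h := T1 x hx y hy
  have h' : ((u*v - v*u)*x + x*(u*v - v*u))*y*z = (u*v - v*u)*x*y*z + x*(u*v - v*u)*y*z := by noncomm_ring
  rw [h, zero_mul, hE3, add_zero] at h'
  exact h'.symm

end ADC
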