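import Pool.Agent.ADC.TOpW
import Pool.Agent.ADC.Cnc

/-!
# ADC-NonM

Non-multilinear words modulo commutators (proved by helper77).
-/

namespace ADC

open AD ADN

private theorem nm_split {w : List ℕ} {i p : ℕ} (h : p ≤ w.count i) :
    ∃ l : List ℕ, w.Perm (List.replicate p i ++ l) := by
  have h1 : Multiset.replicate p i ≤ (w : Multiset ℕ) := by
    rw [← Multiset.le_count_iff_replicate_le, Multiset.coe_count]
    exact h
  obtain ⟨t, ht⟩ := Multiset.le_iff_exists_add.1 h1
  induction t using Quotient.inductionOn with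
  | h l =>
    refine ⟨l, ?_⟩
    rw [← Multiset.coe_eq_coe, ht, ← Multiset.coe_add, Multiset.coe_replicate]
    rfl

private theorem nm_rep (p i : ℕ) : mon (List.replicate p i) = X i ^ p := by
  unfold mon
  rw [List.map_replicate, List.prod_replicate]

theorem nonm {p : ℕ} {J : Submodule ℤ P} (hJ : Bas p J) (t2 : X 0 ^ p * X 1 * X 2 ∈ J ⊔ Cn (p + 2)) {w : List ℕ}
    (h1 : p + 2 ≤ w.length) {i : ℕ} (h2 : p ≤ w.count i) : mon w ∈ J ⊔ Cn w.length := by
  obtain ⟨l, hl⟩ := nm_split h2
  have hlen := hl.length_eq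
  rw [List.length_append, List.length_replicate] at hlen
  obtain ⟨y, l1, rfl⟩ := List.exists_cons_of_ne_nil (l := l) (by rintro rfl; simp at hlen; omega)
  rw [List.length_cons] at hlen
  obtain ⟨z, u, rfl⟩ := List.exists_cons_of_ne_nil (l := l1) (by rintro rfl; simp at hlen; omega)
  rw [List.length_cons] at hlen
  have h3 := perm_Cn hl
  have h4 : mon (List.replicate p i ++ y :: z :: u) = X i ^ p * X y * X z * mon u := by
    rw [mon_append, nm_rep, mon_cons, mon_cons]
    simp only [mul_assoc]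
  obtain ⟨g, hg, c, hc, hgc⟩ := Submodule.mem_sup.1 t2
  have hs : IsSubst (sb (fun j => if j = 0 then X i else if j = 1 then X y else X z)) := by
    apply sb_isSubst
    intro j
    split_ifs <;> exact X_mem _
  have h5 : X i ^ p * X y * X z * mon u =
      sb (fun j => if j = 0 then X i else if j = 1 then X y else X z) g * mon u +
      sb (fun j => if j = 0 then X i else if j = 1 then X y else X z) c * mon u := by
    rw [← add_mul, ← map_add, hgc, map_mul, map_mul, map_pow, sb_X, sb_X, sb_X]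
    simp
  have h6 : mon w = (mon w - mon (List.replicate p i ++ y :: z :: u)) +
      mon (List.replicate p i ++ y :: z :: u) := by abel
  rw [h6, h4]
  rw [h4] at h3
  refine Submodule.add_mem _ (Submodule.mem_sup_right h3) ?_
  rw [h5]
  refine Submodule.add_mem _ (Submodule.mem_sup_left ?_) (Submodule.mem_sup_right ?_)
  · exact hJ.isT.mul_right _ (hJ.isT.subst _ hs g hg) _
  · exact Cn_anti (by omega) (Cn_mono_right u ((isT_Cn (p + 2)).subst _ hs c hc))

private theorem nm_len {p n : ℕ} (hp : 5 ≤ p) {w : List ℕ} (h1 : qw p n w) (h2 : n < w.length) :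
    n + p - 1 ≤ w.length ∧ ∃ i, p ≤ w.count i := by
  have hsum : ∑ i ∈ Finset.range n, w.count i = w.length := by
    have := Multiset.sum_count_eq_card (s := Finset.range n) (m := (w : Multiset ℕ))
      (fun a ha => Finset.mem_range.2 (h1.1 a (by simpa using ha)))
    simpa using this
  have hone : ∀ i < n, w.count i = 1 ∨ p ≤ w.count i := by
    intro i hi
    have h3 := h1.2 i hi
    have h4 := Nat.div_add_mod (w.count i) (p - 1)
    rw [h3] at h4
    rcases Nat.eq_zero_or_pos (w.count i / (p - 1)) with h5 | h5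
    · rw [h5, mul_zero, zero_add] at h4
      exact Or.inl h4.symm
    · right
      have h6 : p - 1 ≤ (p - 1) * (w.count i / (p - 1)) := Nat.le_mul_of_pos_right _ h5
      omega
  obtain ⟨i, hi, hi2⟩ : ∃ i < n, p ≤ w.count i := by
    by_contra hc
    push Not at hc
    have h3 : ∑ i ∈ Finset.range n, w.count i = ∑ _i ∈ Finset.range n, 1 := by
      refine Finset.sum_congr rfl fun i hi => ?_
      rcases hone i (Finset.mem_range.1 hi) with h | h
      · exact h
      · exact absurd h (not_le.2 (hc i (Finset.mem_range.1 hi)))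
    rw [hsum] at h3
    simp at h3
    omega
  refine ⟨?_, i, hi2⟩
  have h3 := Finset.sum_erase_add (Finset.range n) (fun i => w.count i) (Finset.mem_range.2 hi)
  have h4 : ((Finset.range n).erase i).card ≤ ∑ j ∈ (Finset.range n).erase i, w.count j := by
    rw [Finset.card_eq_sum_ones]
    refine Finset.sum_le_sum fun j hj => ?_
    rcases hone j (Finset.mem_range.1 (Finset.mem_of_mem_erase hj)) with h | h
    · exact h.ge
    · omega
  rw [Finset.card_erase_of_mem (Finset.mem_range.2 hi), Finset.card_range] at h4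
  rw [hsum] at h3
  omega

theorem nonm_Q {p : ℕ} {J : Submodule ℤ P} (hJ : Bas p J) (t2 : X 0 ^ p * X 1 * X 2 ∈ J ⊔ Cn (p + 2)) {n : ℕ}
    (hn : 3 ≤ n) {w : List ℕ} (h1 : qw p n w) (h2 : n < w.length) :
    n + p - 1 ≤ w.length ∧ mon w ∈ J ⊔ Cn (n + p - 1) := by
  obtain ⟨h3, i, hi⟩ := nm_len hJ.five h1 h2
  have h4 := hJ.five
  refine ⟨h3, ?_⟩
  have h5 := nonm hJ t2 (w := w) (by omega) hi
  exact (sup_le_sup_left (Cn_anti h3) J) h5

theorem ml_up {p : ℕ} {J : Submodule ℤ P} (hJ : Bas p J) (t2 : X 0 ^ p * X 1 * X 2 ∈ J ⊔ Cn (p + 2)) {n : ℕ}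
    (hn : 3 ≤ n) {f : P} (hf : f ∈ Ml n) (h : f ∈ J ⊔ Fge (n + 1)) : f ∈ J ⊔ Cn (n + p - 1) := by
  have h3 : 3 ≤ p := le_trans (by norm_num) hJ.five
  obtain ⟨g, hg, c, hc, hgc⟩ := Submodule.mem_sup.1 h
  have h4 : wp (qw p n) f = f := Q_iff.1 (Ml_le_Q h3 hf)
  rw [← h4, ← hgc, map_add]
  refine Submodule.add_mem _ (Submodule.mem_sup_left ?_) ?_
  · exact TOp_qw hJ.pp h3 n J hJ.isT hJ.mul.sq g hg
  · unfold Fge at hc
    clear hgc
    induction hc using Submodule.span_induction with
    | mem x hx =>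
      obtain ⟨w, hw, rfl⟩ := hx
      by_cases hq : qw p n w
      · rw [wp_pos hq]
        exact (nonm_Q hJ t2 hn hq (by omega)).2
      · rw [wp_neg hq]
        exact Submodule.zero_mem _
    | zero => rw [map_zero]; exact Submodule.zero_mem _
    | add x y _ _ hx hy => rw [map_add]; exact Submodule.add_mem _ hx hy
    | smul k x _ hx => rw [map_smul]; exact Submodule.smul_mem _ _ hx

end ADC
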