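import Pool.Agent.ADC.Tm1
import Pool.Agent.ADC.NonM
import Pool.Agent.ADC.KmlB

/-!
# ADC-Tm2

The tame situation.
-/

namespace ADC

open AD ADN

private theorem len_two {w : List ℕ} (h : ∀ i ∈ w, i < 2) : w.length = w.count 0 + w.count 1 := by
  induction w with
  | nil => rfl
  | cons a w ih =>
    have h1 := ih fun i hi => h i (List.mem_cons_of_mem a hi)
    have h2 := h a List.mem_cons_self
    rw [List.length_cons, h1]
    have h3 : a = 0 ∨ a = 1 := by omega
    rcases h3 with rfl | rfl
    · rw [List.count_cons_self, List.count_cons_of_ne (by norm_num)]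
      omega
    · rw [List.count_cons_self, List.count_cons_of_ne (by norm_num)]
      omega

private theorem mon_rep (n i : ℕ) : mon (List.replicate n i) = X i ^ n := by
  unfold mon
  rw [List.map_replicate, List.prod_replicate]

/-- a span of words, mapped by a projection -/
private theorem wp_Fge {φ : List ℕ → Prop} {n : ℕ} {T : Submodule ℤ P}
    (h : ∀ w, φ w → n ≤ w.length → mon w ∈ T) {r : P} (hr : r ∈ Fge n) : wp φ r ∈ T := by
  unfold Fge at hr
  induction hr using Submodule.span_induction with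
  | mem x hx =>
    obtain ⟨w, hw, rfl⟩ := hx
    by_cases h1 : φ w
    · rw [wp_pos h1]
      exact h w h1 hw
    · rw [wp_neg h1]
      exact T.zero_mem
  | zero => rw [map_zero]; exact T.zero_mem
  | add x y _ _ hx hy => rw [map_add]; exact T.add_mem hx hy
  | smul c x _ hx => rw [map_smul]; exact T.smul_mem _ hx

private def ph (p : ℕ) (w : List ℕ) : Prop :=
  (∀ i ∈ w, i < 2) ∧ w.count 0 % (p - 1) = 2 ∧ w.count 1 % (p - 1) = 1

private theorem TOp_ph {p : ℕ} (hp : p.Prime) (h5 : 5 ≤ p) : TOp p (wp (ph p)) := by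
  have h1 : wp (ph p) = (wp (fun w => ∀ i ∈ w, i < 2)).comp
      ((wp (fun w => w.count 0 % (p - 1) = 2)).comp (wp (fun w => w.count 1 % (p - 1) = 1))) := by
    ext f
    rw [LinearMap.comp_apply, LinearMap.comp_apply, wp_wp, wp_wp]
    exact DFunLike.congr_fun (wp_congr (φ := ph p) fun w => and_assoc.symm) f
  rw [h1]
  exact (TOp_lt p 2).comp ((TOp_res hp (by omega) 0 2 (by omega)).comp
    (TOp_res hp (by omega) 1 1 (by omega)))

private theorem kk_ph {p : ℕ} (h5 : 5 ≤ p) (a b : ℤ) : wp (ph p) (kk a b) = kk a b := by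
  refine wp_id ?_
  obtain ⟨S, hS⟩ : ∃ S, S = Submodule.span ℤ {f | ∃ w, ph p w ∧ f = mon w} := ⟨_, rfl⟩
  rw [← hS]
  have m : ∀ w : List ℕ, (∀ i ∈ w, i < 2) → w.count 0 = 2 → w.count 1 = 1 → mon w ∈ S := by
    intro w h1 h2 h3
    rw [hS]
    refine Submodule.subset_span ⟨w, ⟨h1, ?_, ?_⟩, rfl⟩
    · rw [h2]
      exact Nat.mod_eq_of_lt (by omega)
    · rw [h3]
      exact Nat.mod_eq_of_lt (by omega)
  have m1 := m [0, 1, 0] (by decide) (by decide) (by decide)
  have m2 := m [1, 0, 0] (by decide) (by decide) (by decide)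
  have m3 := m [0, 0, 1] (by decide) (by decide) (by decide)
  rw [mon_cons, mon_cons, mon_single, ← mul_assoc] at m1 m2 m3
  unfold kk
  rw [sub_mul, mul_sub, ← mul_assoc, ← mul_assoc]
  exact S.add_mem (S.smul_mem a (S.sub_mem m1 m2)) (S.smul_mem b (S.sub_mem m3 m1))

theorem tame_of {p : ℕ} {J : Submodule ℤ P} (hJ : Bas p J) {a b : ℤ} (hab : ¬ ((p : ℤ) ∣ a ∧ (p : ℤ) ∣ b))
    (hK : kk a b ∈ J ⊔ Fge 4)
    (h : X 0 ^ p ∈ J ∨ X 0 ^ p * X 1 - X 0 * X 1 ^ p ∈ J ⊔ Cn (p + 1) ⊔ Fge (p + 2)) : Tame p J a b := by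
  have h5 := hJ.five
  have t2 := Tm1 hJ h
  have key : ∀ w : List ℕ, p + 2 ≤ w.length → ∀ i, p ≤ w.count i → mon w ∈ J ⊔ Cn (p + 2) := by
    intro w h1 i h2
    exact (sup_le_sup_left (Cn_anti h1) J) (nonm hJ t2 h1 h2)
  refine { toBas := hJ, ab := hab, K := ?_, t2 := t2, t3 := ?_ }
  · rw [← kk_ph h5 a b]
    obtain ⟨j, hj, r, hr, hjr⟩ := Submodule.mem_sup.1 hK
    rw [← hjr, map_add]
    refine Submodule.add_mem _
      (Submodule.mem_sup_left (TOp_ph hJ.pp h5 J hJ.isT hJ.mul.sq j hj)) (wp_Fge ?_ hr)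
    rintro w ⟨h1, h2, h3⟩ h4
    have hlen := len_two h1
    have e0 := Nat.div_add_mod (w.count 0) (p - 1)
    have e1 := Nat.div_add_mod (w.count 1) (p - 1)
    rw [h2] at e0
    rw [h3] at e1
    by_cases hc : w.count 0 / (p - 1) = 0
    · rw [hc, mul_zero] at e0
      have hc1 : 1 ≤ w.count 1 / (p - 1) := by
        rw [Nat.one_le_iff_ne_zero]
        intro hc1
        rw [hc1, mul_zero] at e1
        omega
      have e2 : p - 1 ≤ (p - 1) * (w.count 1 / (p - 1)) := Nat.le_mul_of_pos_right _ hc1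
      exact key w (by omega) 1 (by omega)
    · have hc1 : 1 ≤ w.count 0 / (p - 1) := Nat.one_le_iff_ne_zero.2 hc
      have e2 : p - 1 ≤ (p - 1) * (w.count 0 / (p - 1)) := Nat.le_mul_of_pos_right _ hc1
      exact key w (by omega) 0 (by omega)
  · rcases h with h | h
    · have h1 : X 1 ^ p ∈ J := by
        have h2 := sb_mem hJ.isT (φ := fun _ => X 1) (fun _ => X_mem 1) h
        rw [map_pow, sb_X] at h2
        exact h2
      exact Submodule.mem_sup_left (J.sub_mem (hJ.isT.mul_right _ h _) (hJ.isT.mul_left _ h1 _))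
    · have hp0 : p % (p - 1) = 1 := by
        have h6 : p = 1 + (p - 1) := by omega
        conv_lhs => rw [h6]
        rw [show 1 + (p - 1) - 1 = p - 1 by omega, Nat.add_mod_right]
        exact Nat.mod_eq_of_lt (by omega)
      have h1p : 1 % (p - 1) = 1 := Nat.mod_eq_of_lt (by omega)
      have hq : wp (qw p 2) (X 0 ^ p * X 1 - X 0 * X 1 ^ p) = X 0 ^ p * X 1 - X 0 * X 1 ^ p := by
        have q1 : qw p 2 (List.replicate p 0 ++ [1]) := by
          refine ⟨fun i hi => ?_, fun i hi => ?_⟩
          · rcases List.mem_append.1 hi with hi | hi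
            · rw [List.eq_of_mem_replicate hi]
              norm_num
            · rw [List.mem_singleton.1 hi]
              norm_num
          · have h6 : i = 0 ∨ i = 1 := by omega
            rcases h6 with rfl | rfl
            · rw [List.count_append, List.count_replicate_self, List.count_singleton]
              exact hp0
            · rw [List.count_append, List.count_replicate, List.count_singleton_self]
              exact h1p
        have q2 : qw p 2 (0 :: List.replicate p 1) := by
          refine ⟨fun i hi => ?_, fun i hi => ?_⟩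
          · rcases List.mem_cons.1 hi with hi | hi
            · rw [hi]
              norm_num
            · rw [List.eq_of_mem_replicate hi]
              norm_num
          · have h6 : i = 0 ∨ i = 1 := by omega
            rcases h6 with rfl | rfl
            · rw [List.count_cons_self, List.count_replicate]
              exact h1p
            · rw [List.count_cons_of_ne (by norm_num), List.count_replicate_self]
              exact hp0
        have h7 := wp_pos q1
        have h8 := wp_pos q2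
        rw [mon_append, mon_rep, mon_single] at h7
        rw [mon_cons, mon_rep] at h8
        rw [map_sub, h7, h8]
      rw [← hq]
      obtain ⟨s, hs, r, hr, hsr⟩ := Submodule.mem_sup.1 h
      obtain ⟨j, hj, c, hc, hjc⟩ := Submodule.mem_sup.1 hs
      rw [← hsr, ← hjc, map_add, map_add]
      refine Submodule.add_mem _ (Submodule.add_mem _ (Submodule.mem_sup_left
        (TOp_qw hJ.pp (by omega) 2 J hJ.isT hJ.mul.sq j hj)) (Submodule.mem_sup_right ?_))
        (wp_Fge ?_ hr)
      · have h9 := wp_Cn (φ := qw p 2) (fun u v huv => qw_perm huv) hc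
        refine (Submodule.span_le.2 ?_) h9
        rintro f ⟨u, v, i, k, h10, -, rfl⟩
        exact Submodule.subset_span ⟨u, v, i, k, h10, rfl⟩
      · rintro w ⟨h1, h2⟩ h4
        have hlen := len_two h1
        have e0 := Nat.div_add_mod (w.count 0) (p - 1)
        have e1 := Nat.div_add_mod (w.count 1) (p - 1)
        rw [h2 0 (by norm_num)] at e0
        rw [h2 1 (by norm_num)] at e1
        refine (sup_le_sup_left (Cn_anti (Nat.le_succ (p + 1))) J) ?_
        by_cases hc : w.count 0 / (p - 1) = 0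
        · rw [hc, mul_zero] at e0
          have hc1 : 1 ≤ w.count 1 / (p - 1) := by
            rw [Nat.one_le_iff_ne_zero]
            intro hc1
            rw [hc1, mul_zero] at e1
            omega
          have e2 : p - 1 ≤ (p - 1) * (w.count 1 / (p - 1)) := Nat.le_mul_of_pos_right _ hc1
          exact key w h4 1 (by omega)
        · have hc1 : 1 ≤ w.count 0 / (p - 1) := Nat.one_le_iff_ne_zero.2 hc
          have e2 : p - 1 ≤ (p - 1) * (w.count 0 / (p - 1)) := Nat.le_mul_of_pos_right _ hc1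
          exact key w h4 0 (by omega)

/-- rescaling modulo `p` -/
theorem Tame.scale {p : ℕ} {J : Submodule ℤ P} {a b a' b' c : ℤ} (h : Tame p J a b)
    (hc : ¬ (p : ℤ) ∣ c) (ha : (p : ℤ) ∣ a - c * a') (hb : (p : ℤ) ∣ b - c * b') : Tame p J a' b' := by
  have hU : (X 0 * X 1 - X 1 * X 0) * X 0 ∈ Pp := Pp_mul_left _ (X_mem 0)
  have hV : X 0 * (X 0 * X 1 - X 1 * X 0) ∈ Pp := Pp_mul_right (X_mem 0) _
  refine { toBas := h.toBas, ab := ?_, K := ?_, t2 := h.t2, t3 := h.t3 }
  · rintro ⟨h1, h2⟩
    refine h.ab ⟨?_, ?_⟩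
    · have h3 := dvd_add ha (Dvd.dvd.mul_left h1 c)
      rwa [sub_add_cancel] at h3
    · have h3 := dvd_add hb (Dvd.dvd.mul_left h2 c)
      rwa [sub_add_cancel] at h3
  · have hM : Mul ((p : ℤ) ^ 2) (J ⊔ Cn (p + 2)) := h.mul.sq.mono le_sup_left
    refine cancel h.pp hM hc ?_ ?_
    · exact Pp.add_mem (Pp.smul_mem a' hU) (Pp.smul_mem b' hV)
    · obtain ⟨k, hk⟩ := ha
      obtain ⟨l, hl⟩ := hb
      have h1 : c • kk a' b' = kk a b - ((p : ℤ) • (k • ((X 0 * X 1 - X 1 * X 0) * X 0)) +
          (p : ℤ) • (l • (X 0 * (X 0 * X 1 - X 1 * X 0)))) := by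
        unfold kk
        rw [smul_add, smul_smul, smul_smul, smul_smul, smul_smul, ← hk, ← hl, sub_smul, sub_smul]
        abel
      rw [h1]
      refine Submodule.sub_mem _ h.K (Submodule.mem_sup_left (J.add_mem ?_ ?_))
      · exact h.mul _ (Pp.smul_mem k hU)
      · exact h.mul _ (Pp.smul_mem l hV)

/-- linearised -/
theorem Tame.kml {p : ℕ} {J : Submodule ℤ P} {a b : ℤ} (h : Tame p J a b) :
    kml a b ∈ Ml 3 ∧ kml a b ∈ J ⊔ Cn (3 + (p - 1)) := by
  refine ⟨kml_Ml a b, ?_⟩
  have h5 := h.five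
  have h1 : 3 + (p - 1) = p + 2 := by omega
  rw [h1]
  exact kml_of_kk (isT_sup h.isT (isT_Cn _)) h.K

end ADC
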