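import Pool.Agent.ADC.TrC
import Pool.Agent.ADC.Tm2
import Pool.Agent.ADC.Quot
import Pool.Agent.ADC.Rm
import Pool.Agent.ADC.LinP

/-!
# ADC-GenM

Type `a = b = 1` (`[x,y] x + x [x,y] = 0`).
-/

namespace ADC

open AD ADN

/-- `(1 - (01))(1 - (23))` -/
noncomputable def Ph4 : P →ₗ[ℤ] P :=
  LinearMap.id - tl (rn 4 (Equiv.swap 0 1)) - tl (rn 4 (Equiv.swap 2 3)) +
    tl (rn 4 (Equiv.swap 0 1 * Equiv.swap 2 3))

/-! ### finite computations -/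

private def wd (σ : Equiv.Perm (Fin 4)) : List ℕ := [0, 1, 2, 3].map (pN 4 σ)

private theorem wd_surj : ∀ w ∈ [0,1,2,3].permutations', ∃ τ : Equiv.Perm (Fin 4), w = wd τ := by
  decide +kernel

private theorem wd_univ : (Finset.univ : Finset (Equiv.Perm (Fin 4))).val.map wd =
    ↑[[0,1,2,3],[0,1,3,2],[0,2,1,3],[0,2,3,1],[0,3,1,2],[0,3,2,1],
      [1,0,2,3],[1,0,3,2],[1,2,0,3],[1,2,3,0],[1,3,0,2],[1,3,2,0],
      [2,0,1,3],[2,0,3,1],[2,1,0,3],[2,1,3,0],[2,3,0,1],[2,3,1,0],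
      [3,0,1,2],[3,0,2,1],[3,1,0,2],[3,1,2,0],[3,2,0,1],[3,2,1,0]] := by
  decide +kernel

private theorem wd_a : (Finset.univ : Finset (Equiv.Perm (Fin 4))).val.map
    (fun σ => wd (σ⁻¹ * (Equiv.swap 0 1 * σ))) =
    4 • (↑[[1,0,2,3],[2,1,0,3],[3,1,2,0],[0,2,1,3],[0,3,2,1],[0,1,3,2]] : Multiset (List ℕ)) := by
  decide +kernel

private theorem wd_b : (Finset.univ : Finset (Equiv.Perm (Fin 4))).val.map
    (fun σ => wd (σ⁻¹ * (Equiv.swap 2 3 * σ))) =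
    4 • (↑[[1,0,2,3],[2,1,0,3],[3,1,2,0],[0,2,1,3],[0,3,2,1],[0,1,3,2]] : Multiset (List ℕ)) := by
  decide +kernel

private theorem wd_c : (Finset.univ : Finset (Equiv.Perm (Fin 4))).val.map
    (fun σ => wd (σ⁻¹ * ((Equiv.swap 0 1 * Equiv.swap 2 3) * σ))) =
    8 • (↑[[1,0,3,2],[2,3,0,1],[3,2,1,0]] : Multiset (List ℕ)) := by
  decide +kernel

private theorem six : ∀ w ∈ [0,1,2,3].permutations',
    ∃ b ∈ ([[0,1,2,3],[2,3,0,1],[0,2,1,3],[2,0,3,1],[0,2,3,1],[2,0,1,3]] : List (List ℕ)),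
      w = b ∨ w = b.map (pN 4 (Equiv.swap 0 1)) ∨ w = b.map (pN 4 (Equiv.swap 2 3)) ∨
        w = (b.map (pN 4 (Equiv.swap 0 1))).map (pN 4 (Equiv.swap 2 3)) := by
  decide +kernel

private theorem mem_p4 {w : List ℕ} (h : w.Perm (List.range 4)) : w ∈ [0,1,2,3].permutations' :=
  List.mem_permutations'.2 h

private theorem sum_wd {M : Type} [AddCommGroup M] (f : Equiv.Perm (Fin 4) → Equiv.Perm (Fin 4))
    (g : List ℕ → M) : ∑ σ : Equiv.Perm (Fin 4), g (wd (f σ)) =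
      (((Finset.univ : Finset (Equiv.Perm (Fin 4))).val.map (fun σ => wd (f σ))).map g).sum := by
  rw [Multiset.map_map]
  rfl

/-! ### the quotient -/

private theorem mq {p : ℕ} (hp : p.Prime) {D : Submodule ℤ P} (hD : IsT D) (hm : Mul p D)
    (h : kml 1 1 ∈ D) : ∃ (S : Type) (_ : Ring S) (π : P →+* S) (F : Set S),
      (∀ f, π f = 0 ↔ f ∈ D) ∧ (∀ f ∈ Pp, π f ∈ F) ∧ (∀ x ∈ F, ∀ y ∈ F, x * y ∈ F) ∧
      (∀ x ∈ F, ∀ y ∈ F, x + y ∈ F) ∧ (∀ x ∈ F, -x ∈ F) ∧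
      (∀ c : ℤ, ¬ (p : ℤ) ∣ c → ∀ x ∈ F, c • x = 0 → x = 0) ∧
      (∀ x ∈ F, ∀ z ∈ F, ∀ y ∈ F,
        (x*y - y*x)*z + (z*y - y*z)*x + (x*(z*y - y*z) + z*(x*y - y*x)) = 0) := by
  obtain ⟨S, hS, π, hsur, hπ⟩ := exists_quot hD
  refine ⟨S, hS, π, {x | ∃ f ∈ Pp, π f = x}, hπ, fun f hf => ⟨f, hf, rfl⟩, ?_, ?_, ?_, ?_, ?_⟩
  · rintro x ⟨f, hf, rfl⟩ y ⟨g, hg, rfl⟩
    exact ⟨f * g, Pp_mul_left f hg, map_mul π f g⟩
  · rintro x ⟨f, hf, rfl⟩ y ⟨g, hg, rfl⟩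
    exact ⟨f + g, Pp.add_mem hf hg, map_add π f g⟩
  · rintro x ⟨f, hf, rfl⟩
    exact ⟨-f, Pp.neg_mem hf, map_neg π f⟩
  · rintro c hc x ⟨f, hf, rfl⟩ h0
    rw [← map_zsmul] at h0
    exact (hπ f).2 (cancel hp hm.sq hc hf ((hπ _).1 h0))
  · rintro x ⟨f, hf, rfl⟩ z ⟨g, hg, rfl⟩ y ⟨k, hk, rfl⟩
    have h1 := (hπ _).2 (kml_subst hD h hk hf hg)
    simp only [one_smul, map_add, map_mul, map_sub] at h1
    exact h1

private theorem not_dvd {p : ℕ} (hp : p.Prime) (h5 : 5 ≤ p) {k : ℕ} (hk : k ∣ 48) : ¬ (p : ℤ) ∣ (k : ℤ) := by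
  intro h
  have h1 : p ∣ 48 := (Int.natCast_dvd_natCast.1 h).trans hk
  have h2 : p ∣ 2 ^ 4 * 3 := h1
  rcases (Nat.Prime.dvd_mul hp).1 h2 with h3 | h3
  · have := Nat.le_of_dvd two_pos (hp.dvd_of_dvd_pow h3)
    omega
  · have := Nat.le_of_dvd three_pos h3
    omega

theorem GenM {p : ℕ} {J : Submodule ℤ P} (h : Tame p J 1 1) : Cn 5 ≤ J := by
  have hp := h.pp
  have h5 := h.five
  obtain ⟨hk1, hk2⟩ := h.kml
  obtain ⟨D, hDe⟩ : ∃ D, D = Gen (insert ((p : ℤ) • X 0) {kml 1 1}) := ⟨_, rfl⟩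
  have hsub : insert ((p : ℤ) • X 0) {kml 1 1} ⊆ (Pp : Set P) := by
    intro f hf
    rcases Set.mem_insert_iff.1 hf with hf | hf
    · rw [hf]
      exact Pp.smul_mem _ (X_mem 0)
    · rw [Set.mem_singleton_iff.1 hf]
      exact Ml_Pp (by norm_num) hk1
  have hD : IsT D := by
    rw [hDe]
    exact isT_Gen hsub
  have hg : ∀ f ∈ insert ((p : ℤ) • X 0) {kml 1 1}, f ∈ D := fun f hf => by
    rw [hDe]
    exact subset_Gen _ hf
  have hm : Mul p D := by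
    intro f hf
    have h1 := sb_mem hD (φ := fun _ => f) (fun _ => hf) (hg _ (Set.mem_insert _ _))
    rwa [map_zsmul, sb_X] at h1
  have hkD : kml 1 1 ∈ D := hg _ (Set.mem_insert_of_mem _ rfl)
  obtain ⟨S, hS, π, F, hπ, hF, hFm, hFa, hFn, hFc, K⟩ := mq hp hD hm hkD
  have h2 : ∀ x ∈ F, (2 : ℤ) • x = 0 → x = 0 := fun x hx hx2 =>
    hFc 2 (by exact_mod_cast not_dvd hp h5 (k := 2) (by norm_num)) x hx hx2
  refine Cn_le_of h.toBas (G := {kml 1 1}) (s := p - 1) (n := 5) (by omega) (by norm_num) ?_ ?_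
  · intro g hg'
    rw [Set.mem_singleton_iff.1 hg']
    exact ⟨3, by norm_num, hk1, hk2⟩
  · intro u v i j hl
    rw [← hDe, ← hπ, map_mul, map_mul]
    have hX : ∀ a, π (X a) ∈ F := fun a => hF _ (X_mem a)
    have hcm : π (cm i j) = π (X i) * π (X j) - π (X j) * π (X i) := by
      unfold cm
      rw [map_sub, map_mul, map_mul]
    rw [hcm]
    have hone : ∀ l : List ℕ, l.length = 0 → π (mon l) = 1 := by
      intro l hl
      rw [List.length_eq_zero_iff.1 hl, mon_nil, map_one]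
    rcases (by omega : u.length = 3 ∧ v.length = 0 ∨ u.length = 2 ∧ v.length = 1 ∨
      u.length = 1 ∧ v.length = 2 ∨ u.length = 0 ∧ v.length = 3) with
      ⟨hu, hv⟩ | ⟨hu, hv⟩ | ⟨hu, hv⟩ | ⟨hu, hv⟩
    · obtain ⟨a, b, c, rfl⟩ := List.length_eq_three.1 hu
      rw [hone v hv, mul_one]
      have := (Rm F hFm hFa hFn h2 K (hX a) (hX b) (hX c) (hX i) (hX j)).1
      rw [mon_cons, mon_cons, mon_single, map_mul, map_mul, ← mul_assoc]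
      exact this
    · obtain ⟨a, b, rfl⟩ := List.length_eq_two.1 hu
      obtain ⟨c, rfl⟩ := List.length_eq_one_iff.1 hv
      have := (Rm F hFm hFa hFn h2 K (hX a) (hX b) (hX c) (hX i) (hX j)).2.1
      rw [mon_cons, mon_single, mon_single, map_mul]
      exact this
    · obtain ⟨a, rfl⟩ := List.length_eq_one_iff.1 hu
      obtain ⟨b, c, rfl⟩ := List.length_eq_two.1 hv
      have := (Rm F hFm hFa hFn h2 K (hX a) (hX b) (hX c) (hX i) (hX j)).2.2.1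
      rw [mon_single a, mon_cons b, mon_single c, map_mul, ← mul_assoc]
      exact this
    · obtain ⟨a, b, c, rfl⟩ := List.length_eq_three.1 hv
      rw [hone u hu, one_mul]
      have := (Rm F hFm hFa hFn h2 K (hX a) (hX b) (hX c) (hX i) (hX j)).2.2.2
      rw [mon_cons, mon_cons, mon_single, map_mul, map_mul, ← mul_assoc, ← mul_assoc]
      exact this

/-! ### the operator -/

private theorem Ph4_apply (f : P) : Ph4 f = f - rn 4 (Equiv.swap 0 1) f - rn 4 (Equiv.swap 2 3) f +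
    rn 4 (Equiv.swap 0 1 * Equiv.swap 2 3) f := rfl

private noncomputable def EE : P →ₗ[ℤ] P :=
  (48 : ℤ) • LinearMap.id - (2 : ℤ) • sP 4 0 -
    ∑ σ : Equiv.Perm (Fin 4), (tl (rn 4 σ⁻¹)).comp (Ph4.comp (tl (rn 4 σ)))

private theorem sP_apply (f : P) : sP 4 0 f = ∑ σ : Equiv.Perm (Fin 4), rn 4 σ f := by
  have h : sF 4 0 = Finset.univ := by
    ext σ
    simp [sF]
  unfold sP
  rw [LinearMap.sum_apply, h]
  rfl

private theorem EE_apply (f : P) : EE f = (48 : ℤ) • f - (2 : ℤ) • (∑ σ : Equiv.Perm (Fin 4), rn 4 σ f) -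
    ∑ σ : Equiv.Perm (Fin 4), rn 4 σ⁻¹ (Ph4 (rn 4 σ f)) := by
  unfold EE
  rw [LinearMap.sub_apply, LinearMap.sub_apply, LinearMap.smul_apply, LinearMap.smul_apply,
    LinearMap.id_apply, sP_apply, LinearMap.sum_apply]
  rfl

private theorem EE_rn (τ : Equiv.Perm (Fin 4)) (f : P) : EE (rn 4 τ f) = rn 4 τ (EE f) := by
  rw [EE_apply, EE_apply, map_sub, map_sub, map_zsmul, map_zsmul, map_sum, map_sum]
  have e1 : ∑ σ : Equiv.Perm (Fin 4), rn 4 σ (rn 4 τ f) = ∑ σ : Equiv.Perm (Fin 4), rn 4 σ f := by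
    rw [← Equiv.sum_comp (Equiv.mulRight τ) (fun σ => rn 4 σ f)]
    exact Finset.sum_congr rfl fun σ _ => rn_rn 4 σ τ f
  have e2 : ∑ σ : Equiv.Perm (Fin 4), rn 4 τ (rn 4 σ f) = ∑ σ : Equiv.Perm (Fin 4), rn 4 σ f := by
    rw [← Equiv.sum_comp (Equiv.mulLeft τ) (fun σ => rn 4 σ f)]
    exact Finset.sum_congr rfl fun σ _ => rn_rn 4 τ σ f
  have e3 : ∑ σ : Equiv.Perm (Fin 4), rn 4 σ⁻¹ (Ph4 (rn 4 σ (rn 4 τ f))) =
      ∑ σ : Equiv.Perm (Fin 4), rn 4 τ (rn 4 σ⁻¹ (Ph4 (rn 4 σ f))) := by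
    rw [← Equiv.sum_comp (Equiv.mulRight τ) (fun σ => rn 4 τ (rn 4 σ⁻¹ (Ph4 (rn 4 σ f))))]
    refine Finset.sum_congr rfl fun σ _ => ?_
    rw [Equiv.coe_mulRight, rn_rn, rn_rn, mul_inv_rev, mul_inv_cancel_left]
  rw [e1, e2, e3]

private theorem EE_mw : EE (mon [0,1,2,3]) =
    (1 : ℤ) • ((22 : ℤ) • (X 0*X 1*X 2*X 3) + (6 : ℤ) • (X 0*X 1*X 3*X 2) + (6 : ℤ) • (X 0*X 2*X 1*X 3) +
      (-2 : ℤ) • (X 0*X 2*X 3*X 1) + (-2 : ℤ) • (X 0*X 3*X 1*X 2) + (6 : ℤ) • (X 0*X 3*X 2*X 1) +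
      (6 : ℤ) • (X 1*X 0*X 2*X 3) + (-10 : ℤ) • (X 1*X 0*X 3*X 2) + (-2 : ℤ) • (X 1*X 2*X 0*X 3) +
      (-2 : ℤ) • (X 1*X 2*X 3*X 0) + (-2 : ℤ) • (X 1*X 3*X 0*X 2) + (-2 : ℤ) • (X 1*X 3*X 2*X 0) +
      (-2 : ℤ) • (X 2*X 0*X 1*X 3) + (-2 : ℤ) • (X 2*X 0*X 3*X 1) + (6 : ℤ) • (X 2*X 1*X 0*X 3) +
      (-2 : ℤ) • (X 2*X 1*X 3*X 0) + (-10 : ℤ) • (X 2*X 3*X 0*X 1) + (-2 : ℤ) • (X 2*X 3*X 1*X 0) +
      (-2 : ℤ) • (X 3*X 0*X 1*X 2) + (-2 : ℤ) • (X 3*X 0*X 2*X 1) + (-2 : ℤ) • (X 3*X 1*X 0*X 2) +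
      (6 : ℤ) • (X 3*X 1*X 2*X 0) + (-2 : ℤ) • (X 3*X 2*X 0*X 1) + (-10 : ℤ) • (X 3*X 2*X 1*X 0)) := by
  have h1 : ∀ σ : Equiv.Perm (Fin 4), rn 4 σ (mon [0,1,2,3]) = mon (wd σ) := fun σ => rn_mon 4 σ _
  have h2 : ∀ σ : Equiv.Perm (Fin 4), rn 4 σ⁻¹ (Ph4 (rn 4 σ (mon [0,1,2,3]))) =
      mon [0,1,2,3] - mon (wd (σ⁻¹ * (Equiv.swap 0 1 * σ))) - mon (wd (σ⁻¹ * (Equiv.swap 2 3 * σ))) +
        mon (wd (σ⁻¹ * ((Equiv.swap 0 1 * Equiv.swap 2 3) * σ))) := by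
    intro σ
    rw [Ph4_apply, map_add, map_sub, map_sub]
    simp only [rn_rn]
    rw [inv_mul_cancel, rn_one, h1, h1, h1]
  rw [EE_apply, Finset.sum_congr rfl (fun σ _ => h1 σ), Finset.sum_congr rfl (fun σ _ => h2 σ),
    Finset.sum_add_distrib, Finset.sum_sub_distrib, Finset.sum_sub_distrib, Finset.sum_const,
    Finset.card_univ, Fintype.card_perm, Fintype.card_fin, sum_wd (fun σ => σ) mon,
    sum_wd (fun σ => σ⁻¹ * (Equiv.swap 0 1 * σ)) mon, sum_wd (fun σ => σ⁻¹ * (Equiv.swap 2 3 * σ)) mon,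
    sum_wd (fun σ => σ⁻¹ * ((Equiv.swap 0 1 * Equiv.swap 2 3) * σ)) mon]
  rw [show (fun σ => wd σ) = wd from rfl, wd_univ, wd_a, wd_b, wd_c]
  simp only [Multiset.map_nsmul, Multiset.sum_nsmul, Multiset.map_coe, Multiset.sum_coe, List.map_cons,
    List.map_nil, List.sum_cons, List.sum_nil, mon_cons, mon_nil, mul_one, mul_assoc]
  module

private theorem EE_mem {p : ℕ} (hp : p.Prime) {D : Submodule ℤ P} (hD : IsT D) (hm : Mul p D)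
    (h : kk 1 1 ∈ D) {t : P} (ht : t ∈ Ml 4) : EE t ∈ D := by
  have hkD := kml_of_kk hD h
  obtain ⟨S, hS, π, F, hπ, hF, hFm, hFa, hFn, hFc, K⟩ := mq hp hD hm hkD
  have hX : ∀ a, π (X a) ∈ F := fun a => hF _ (X_mem a)
  have h0 : EE (mon [0,1,2,3]) ∈ D := by
    rw [← hπ, EE_mw]
    have := M4r F hFm K (hX 0) (hX 1) (hX 2) (hX 3)
    simp only [map_zsmul, map_add, map_mul]
    exact this
  refine Ml_ind (C := fun t => EE t ∈ D) ?_ ?_ ?_ ?_ ht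
  · rw [map_zero]
    exact D.zero_mem
  · intro f g hf hg
    rw [map_add]
    exact D.add_mem hf hg
  · intro c f hf
    rw [map_smul]
    exact D.smul_mem c hf
  · intro w hw
    obtain ⟨τ, hτ⟩ := wd_surj w (mem_p4 hw)
    rw [hτ, show mon (wd τ) = rn 4 τ (mon [0,1,2,3]) from (rn_mon 4 τ _).symm, EE_rn]
    exact hD.subst _ (rn_isSubst 4 τ) _ h0

theorem M_hit {p : ℕ} (hp : p.Prime) (h5 : 5 ≤ p) {D : Submodule ℤ P} (hD : IsT D) (hm : Mul p D)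
    (h : kk 1 1 ∈ D) {t : P} (ht : t ∈ Ml 4) (h1 : sP 4 0 t ∈ D)
    (h2 : ∀ σ : Equiv.Perm (Fin 4), Ph4 (rn 4 σ t) ∈ D) : t ∈ D := by
  have h3 := EE_mem hp hD hm h ht
  rw [EE_apply, ← sP_apply] at h3
  have h4 : (48 : ℤ) • t ∈ D := by
    have e : (48 : ℤ) • t = ((48 : ℤ) • t - (2 : ℤ) • sP 4 0 t -
        ∑ σ : Equiv.Perm (Fin 4), rn 4 σ⁻¹ (Ph4 (rn 4 σ t))) + (2 : ℤ) • sP 4 0 t +
        ∑ σ : Equiv.Perm (Fin 4), rn 4 σ⁻¹ (Ph4 (rn 4 σ t)) := by abel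
    rw [e]
    refine D.add_mem (D.add_mem h3 (D.smul_mem _ h1)) (D.sum_mem fun σ _ => ?_)
    exact hD.subst _ (rn_isSubst 4 _) _ (h2 σ)
  exact cancel hp hm.sq (by exact_mod_cast not_dvd hp h5 (k := 48) dvd_rfl)
    (Ml_Pp (by norm_num) ht) h4

private theorem Ph4_01 (f : P) : Ph4 (rn 4 (Equiv.swap 0 1) f) = -Ph4 f := by
  rw [Ph4_apply, Ph4_apply, rn_rn, rn_rn, rn_rn]
  have e1 : (Equiv.swap 0 1 * Equiv.swap 0 1 : Equiv.Perm (Fin 4)) = 1 := by decide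
  have e2 : (Equiv.swap 2 3 * Equiv.swap 0 1 : Equiv.Perm (Fin 4)) = Equiv.swap 0 1 * Equiv.swap 2 3 := by
    decide
  have e3 : (Equiv.swap 0 1 * Equiv.swap 2 3 * Equiv.swap 0 1 : Equiv.Perm (Fin 4)) = Equiv.swap 2 3 := by
    decide
  rw [e1, e2, e3, rn_one]
  abel

private theorem Ph4_23 (f : P) : Ph4 (rn 4 (Equiv.swap 2 3) f) = -Ph4 f := by
  rw [Ph4_apply, Ph4_apply, rn_rn, rn_rn, rn_rn]
  have e1 : (Equiv.swap 2 3 * Equiv.swap 2 3 : Equiv.Perm (Fin 4)) = 1 := by decide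
  have e3 : (Equiv.swap 0 1 * Equiv.swap 2 3 * Equiv.swap 2 3 : Equiv.Perm (Fin 4)) = Equiv.swap 0 1 := by
    decide
  rw [e1, e3, rn_one]
  abel

private theorem Ph4_mon (w w1 w2 w3 : List ℕ) (h1 : w.map (pN 4 (Equiv.swap 0 1)) = w1)
    (h2 : w.map (pN 4 (Equiv.swap 2 3)) = w2)
    (h3 : w.map (pN 4 (Equiv.swap 0 1 * Equiv.swap 2 3)) = w3) :
    Ph4 (mon w) = mon w - mon w1 - mon w2 + mon w3 := by
  rw [Ph4_apply, rn_mon, rn_mon, rn_mon, h1, h2, h3]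

theorem M_cyc {p : ℕ} (hp : p.Prime) (h5 : 5 ≤ p) {D : Submodule ℤ P} (hD : IsT D) (hm : Mul p D)
    (h : kk 1 1 ∈ D) {f : P} (hf : f ∈ Ml 4) : Ph4 f ∈ D ⊔ Submodule.span ℤ {cm 0 1 * cm 2 3} := by
  have hkD := kml_of_kk hD h
  obtain ⟨S, hS, π, F, hπ, hF, hFm, hFa, hFn, hFc, K⟩ := mq hp hD hm hkD
  have hX : ∀ a, π (X a) ∈ F := fun a => hF _ (X_mem a)
  have h2 : ∀ x ∈ F, (2 : ℤ) • x = 0 → x = 0 := fun x hx hx2 =>
    hFc 2 (by exact_mod_cast not_dvd hp h5 (k := 2) (by norm_num)) x hx hx2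
  obtain ⟨M, hM⟩ : ∃ M, M = D ⊔ Submodule.span ℤ {cm 0 1 * cm 2 3} := ⟨_, rfl⟩
  rw [← hM]
  have hκ : π (cm 0 1 * cm 2 3) = (π (X 0) * π (X 1) - π (X 1) * π (X 0)) *
      (π (X 2) * π (X 3) - π (X 3) * π (X 2)) := by
    unfold cm
    simp only [map_mul, map_sub]
  have hin : ∀ (g : P) (c : ℤ), π g = c • π (cm 0 1 * cm 2 3) → g ∈ M := by
    intro g c hg
    have e : g = (g - c • (cm 0 1 * cm 2 3)) + c • (cm 0 1 * cm 2 3) := by abel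
    rw [e, hM]
    refine Submodule.add_mem_sup ?_ (Submodule.smul_mem _ _ (Submodule.mem_span_singleton_self _))
    rw [← hπ, map_sub, map_zsmul, hg, sub_self]
  obtain ⟨x, hx⟩ : ∃ x, x = π (X 0) := ⟨_, rfl⟩
  obtain ⟨y, hy⟩ : ∃ y, y = π (X 1) := ⟨_, rfl⟩
  obtain ⟨z, hz⟩ : ∃ z, z = π (X 2) := ⟨_, rfl⟩
  obtain ⟨t, ht⟩ : ∃ t, t = π (X 3) := ⟨_, rfl⟩
  have hxF : x ∈ F := hx ▸ hX 0
  have hyF : y ∈ F := hy ▸ hX 1
  have hzF : z ∈ F := hz ▸ hX 2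
  have htF : t ∈ F := ht ▸ hX 3
  rw [← hx, ← hy, ← hz, ← ht] at hκ
  -- the six words
  have q1 : Ph4 (mon [0,1,2,3]) ∈ M := by
    rw [Ph4_mon [0,1,2,3] [1,0,2,3] [0,1,3,2] [1,0,3,2] (by decide) (by decide) (by decide)]
    refine hin _ 1 ?_
    rw [hκ]
    simp only [mon_cons, mon_nil, mul_one, map_sub, map_add, map_mul, ← hx, ← hy, ← hz, ← ht]
    noncomm_ring
  have q2 : Ph4 (mon [2,3,0,1]) ∈ M := by
    rw [Ph4_mon [2,3,0,1] [2,3,1,0] [3,2,0,1] [3,2,1,0] (by decide) (by decide) (by decide)]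
    refine hin _ 1 ?_
    have e := M4e F hFm K hxF hyF hzF htF
    rw [hκ]
    simp only [mon_cons, mon_nil, mul_one, map_sub, map_add, map_mul, ← hx, ← hy, ← hz, ← ht]
    rw [one_smul] at e ⊢
    rw [sub_eq_zero.1 e]
    noncomm_ring
  have q3 : Ph4 (mon [0,2,1,3]) ∈ M := by
    rw [Ph4_mon [0,2,1,3] [1,2,0,3] [0,3,1,2] [1,3,0,2] (by decide) (by decide) (by decide)]
    refine hin _ 0 ?_
    have e := h2 _ ?_ (M4f F hFm K hxF hyF hzF htF)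
    · rw [zero_smul]
      simp only [mon_cons, mon_nil, mul_one, map_sub, map_add, map_mul, ← hx, ← hy, ← hz, ← ht]
      rw [← e]
      noncomm_ring
    · rw [sub_eq_add_neg, sub_eq_add_neg]
      exact hFa _ (hFa _ (hFa _ (hFm _ (hFm _ (hFm _ hxF _ hzF) _ hyF) _ htF) _
        (hFn _ (hFm _ (hFm _ (hFm _ hyF _ hzF) _ hxF) _ htF))) _
        (hFn _ (hFm _ (hFm _ (hFm _ hxF _ htF) _ hyF) _ hzF))) _
        (hFm _ (hFm _ (hFm _ hyF _ htF) _ hxF) _ hzF)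
  have q4 : Ph4 (mon [2,0,3,1]) ∈ M := by
    rw [Ph4_mon [2,0,3,1] [2,1,3,0] [3,0,2,1] [3,1,2,0] (by decide) (by decide) (by decide)]
    refine hin _ 0 ?_
    have e := h2 _ ?_ (M4f F hFm K hzF htF hxF hyF)
    · rw [zero_smul]
      simp only [mon_cons, mon_nil, mul_one, map_sub, map_add, map_mul, ← hx, ← hy, ← hz, ← ht]
      rw [← e]
      noncomm_ring
    · rw [sub_eq_add_neg, sub_eq_add_neg]
      exact hFa _ (hFa _ (hFa _ (hFm _ (hFm _ (hFm _ hzF _ hxF) _ htF) _ hyF) _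
        (hFn _ (hFm _ (hFm _ (hFm _ htF _ hxF) _ hzF) _ hyF))) _
        (hFn _ (hFm _ (hFm _ (hFm _ hzF _ hyF) _ htF) _ hxF))) _
        (hFm _ (hFm _ (hFm _ htF _ hyF) _ hzF) _ hxF)
  have q5 : Ph4 (mon [0,2,3,1]) ∈ M := by
    rw [Ph4_mon [0,2,3,1] [1,2,3,0] [0,3,2,1] [1,3,2,0] (by decide) (by decide) (by decide)]
    refine hin _ (-1) ?_
    have e1 := M4e F hFm K hxF hyF hzF htF
    have e2 := M4a F hFm K hzF htF hxF hyF
    have e3 := M4a F hFm K hzF htF hyF hxF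
    rw [one_smul] at e1 e2 e3
    rw [hκ]
    simp only [mon_cons, mon_nil, mul_one, map_sub, map_add, map_mul, ← hx, ← hy, ← hz, ← ht]
    calc _ = (-1 : ℤ) • ((x * y - y * x) * (z * t - t * z)) +
          ((((z*t - t*z)*x + x*(z*t - t*z))*y) - (((z*t - t*z)*y + y*(z*t - t*z))*x) +
            ((x*y - y*x)*(z*t - t*z) - (z*t - t*z)*(x*y - y*x))) := by noncomm_ring
      _ = _ := by rw [e1, e2, e3, sub_zero, add_zero, add_zero]
  have q6 : Ph4 (mon [2,0,1,3]) ∈ M := by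
    rw [Ph4_mon [2,0,1,3] [2,1,0,3] [3,0,1,2] [3,1,0,2] (by decide) (by decide) (by decide)]
    refine hin _ (-1) ?_
    have e2 := M4a F hFm K hxF hyF hzF htF
    have e3 := M4a F hFm K hxF hyF htF hzF
    rw [one_smul] at e2 e3
    rw [hκ]
    simp only [mon_cons, mon_nil, mul_one, map_sub, map_add, map_mul, ← hx, ← hy, ← hz, ← ht]
    calc _ = (-1 : ℤ) • ((x * y - y * x) * (z * t - t * z)) +
          ((((x*y - y*x)*z + z*(x*y - y*x))*t) - (((x*y - y*x)*t + t*(x*y - y*x))*z)) := by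
            noncomm_ring
      _ = _ := by rw [e2, e3, sub_zero, add_zero]
  have m01 : ∀ w, Ph4 (mon w) ∈ M → Ph4 (mon (w.map (pN 4 (Equiv.swap 0 1)))) ∈ M := by
    intro w hw
    rw [← rn_mon, Ph4_01]
    exact M.neg_mem hw
  have m23 : ∀ w, Ph4 (mon w) ∈ M → Ph4 (mon (w.map (pN 4 (Equiv.swap 2 3)))) ∈ M := by
    intro w hw
    rw [← rn_mon, Ph4_23]
    exact M.neg_mem hw
  refine Ml_ind (C := fun f => Ph4 f ∈ M) ?_ ?_ ?_ ?_ hf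
  · rw [map_zero]
    exact M.zero_mem
  · intro f g hf hg
    rw [map_add]
    exact M.add_mem hf hg
  · intro c f hf
    rw [map_smul]
    exact M.smul_mem c hf
  · intro w hw
    obtain ⟨b, hb, hwb⟩ := six w (mem_p4 hw)
    have hbM : Ph4 (mon b) ∈ M := by
      simp only [List.mem_cons, List.not_mem_nil, or_false] at hb
      rcases hb with rfl | rfl | rfl | rfl | rfl | rfl
      · exact q1
      · exact q2
      · exact q3
      · exact q4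
      · exact q5
      · exact q6
    rcases hwb with h6 | h6 | h6 | h6
    · rw [h6]
      exact hbM
    · rw [h6]
      exact m01 _ hbM
    · rw [h6]
      exact m23 _ hbM
    · rw [h6]
      exact m23 _ (m01 _ hbM)

end ADC
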