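import Pool.Agent.ADC.Npn
import Pool.Agent.ADC.GenM

/-!
# ADC-Core4M

`n = 4`, `kk 1 1 ∈ J`.  `S = sP 4 0`: `S S = 24 S`, `S f ∈ ℤ S (mw 4)`, so `S a ∈ I` (`Pr.npn`).  `Φ = Ph4 = (1 - (01))(1 - (23))` (ADC.GenM):
`Φ Φ = 4 Φ` (check with `rn_rn`), `Φ f ∈ J ⊔ ℤ (cm 0 1 * cm 2 3)` for `f ∈ Ml 4` (`M_cyc` with `D = J`), `cm 0 1 * cm 2 3 ∈ Ml 4`.  So
`Φ (rn 4 σ a) ∈ I` for all `σ` (`Pr.rn`, `Pr.npn`).
Let `D` be as in `Pr.quot`: `kk 1 1 ∈ J ≤ D`, `t ∉ D`.  By `M_hit` `S t ∉ D` or `Φ (rn σ t) ∉ D` for some `σ`, i.e. (with `q • Ψ t ≡ Ψ a` modulo `I`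
for the operators `Ψ = S`, `Ψ = Φ ∘ rn σ`) `S a ∉ I` or `Φ (rn σ a) ∉ I`.  Contradiction.
-/

namespace ADC

open AD ADN

private theorem c4_surj : ∀ w ∈ [0,1,2,3].permutations', ∃ τ : Equiv.Perm (Fin 4), w = [0,1,2,3].map (pN 4 τ) := by
  decide +kernel

private theorem c4_apply (f : P) : sP 4 0 f = ∑ σ : Equiv.Perm (Fin 4), rn 4 σ f := by
  have h : sF 4 0 = Finset.univ := by
    ext σ
    simp [sF]
  unfold sP
  rw [LinearMap.sum_apply, h]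
  rfl

private theorem c4_rn (τ : Equiv.Perm (Fin 4)) (f : P) : sP 4 0 (rn 4 τ f) = sP 4 0 f := by
  rw [c4_apply, c4_apply, ← Equiv.sum_comp (Equiv.mulRight τ) (fun σ => rn 4 σ f)]
  exact Finset.sum_congr rfl fun σ _ => rn_rn 4 σ τ f

private theorem c4_sq (f : P) : sP 4 0 (sP 4 0 f) = (24 : ℤ) • sP 4 0 f := by
  have h1 : sP 4 0 (sP 4 0 f) = ∑ σ : Equiv.Perm (Fin 4), sP 4 0 (rn 4 σ f) := by
    conv_lhs => rw [c4_apply f, map_sum]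
  rw [h1, Finset.sum_congr rfl (fun σ _ => c4_rn σ f), Finset.sum_const, Finset.card_univ,
    Fintype.card_perm, Fintype.card_fin]
  exact (natCast_zsmul (sP 4 0 f) 24).symm

private theorem c4_span {f : P} (hf : f ∈ Ml 4) : sP 4 0 f ∈ Submodule.span ℤ {sP 4 0 (mon [0,1,2,3])} := by
  refine Ml_ind (C := fun f => sP 4 0 f ∈ Submodule.span ℤ {sP 4 0 (mon [0,1,2,3])}) ?_ ?_ ?_ ?_ hf
  · rw [map_zero]
    exact Submodule.zero_mem _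
  · intro f g hf hg
    rw [map_add]
    exact Submodule.add_mem _ hf hg
  · intro c f hf
    rw [map_smul]
    exact Submodule.smul_mem _ c hf
  · intro w hw
    obtain ⟨τ, hτ⟩ := c4_surj w (List.mem_permutations'.2 hw)
    rw [hτ, ← rn_mon, c4_rn]
    exact Submodule.mem_span_singleton_self _

private theorem c4_Ph (f : P) : Ph4 f = f - rn 4 (Equiv.swap 0 1) f - rn 4 (Equiv.swap 2 3) f +
    rn 4 (Equiv.swap 0 1 * Equiv.swap 2 3) f := rfl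

private theorem c4_PhT (p : ℕ) : TOp p Ph4 :=
  (((TOp.id' p).sub (TOp_rn p 4 _)).sub (TOp_rn p 4 _)).add (TOp_rn p 4 _)

private theorem c4_PhM {f : P} (hf : f ∈ Ml 4) : Ph4 f ∈ Ml 4 := by
  rw [c4_Ph]
  exact Submodule.add_mem _ (Submodule.sub_mem _ (Submodule.sub_mem _ hf (Ml_rn _ hf)) (Ml_rn _ hf)) (Ml_rn _ hf)

private theorem c4_PhPh (f : P) : Ph4 (Ph4 f) = (4 : ℤ) • Ph4 f := by
  have e1 : (Equiv.swap 0 1 * Equiv.swap 0 1 : Equiv.Perm (Fin 4)) = 1 := by decide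
  have e2 : (Equiv.swap 2 3 * Equiv.swap 2 3 : Equiv.Perm (Fin 4)) = 1 := by decide
  have e3 : (Equiv.swap 2 3 * Equiv.swap 0 1 : Equiv.Perm (Fin 4)) = Equiv.swap 0 1 * Equiv.swap 2 3 := by
    decide
  have e4 : (Equiv.swap 0 1 * (Equiv.swap 0 1 * Equiv.swap 2 3) : Equiv.Perm (Fin 4)) = Equiv.swap 2 3 := by
    decide
  have e5 : (Equiv.swap 2 3 * (Equiv.swap 0 1 * Equiv.swap 2 3) : Equiv.Perm (Fin 4)) = Equiv.swap 0 1 := by
    decide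
  have e6 : (Equiv.swap 0 1 * Equiv.swap 2 3 * Equiv.swap 0 1 : Equiv.Perm (Fin 4)) = Equiv.swap 2 3 := by
    decide
  have e7 : (Equiv.swap 0 1 * Equiv.swap 2 3 * Equiv.swap 2 3 : Equiv.Perm (Fin 4)) = Equiv.swap 0 1 := by
    decide
  have e8 : (Equiv.swap 0 1 * Equiv.swap 2 3 * (Equiv.swap 0 1 * Equiv.swap 2 3) : Equiv.Perm (Fin 4)) = 1 := by
    decide
  rw [c4_Ph (Ph4 f), c4_Ph f]
  simp only [map_add, map_sub, rn_rn, e1, e2, e3, e4, e5, e6, e7, e8, rn_one]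
  module

private theorem c4_cm : cm 0 1 * cm 2 3 ∈ Ml 4 := by
  have h : cm 0 1 * cm 2 3 = mon [0,1,2,3] - mon [0,1,3,2] - mon [1,0,2,3] + mon [1,0,3,2] := by
    unfold cm
    simp only [mon_cons, mon_nil, mul_one]
    noncomm_ring
  rw [h]
  have hp : ∀ w ∈ [0,1,2,3].permutations', mon w ∈ Ml 4 := fun w hw => Ml_mon (List.mem_permutations'.1 hw)
  exact Submodule.add_mem _ (Submodule.sub_mem _ (Submodule.sub_mem _ (hp _ (by decide)) (hp _ (by decide)))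
    (hp _ (by decide))) (hp _ (by decide))

private theorem c4_dvd {p : ℕ} (hp : p.Prime) (h5 : 5 ≤ p) {k : ℕ} (hk : k ∣ 24) : ¬ (p : ℤ) ∣ (k : ℤ) := by
  intro h
  have h1 : p ∣ 24 := (Int.natCast_dvd_natCast.1 h).trans hk
  have h2 : p ∣ 2 ^ 3 * 3 := h1
  rcases (Nat.Prime.dvd_mul hp).1 h2 with h3 | h3
  · have := Nat.le_of_dvd two_pos (hp.dvd_of_dvd_pow h3)
    omega
  · have := Nat.le_of_dvd three_pos h3
    omega

theorem core4M {p : ℕ} {I J A B C : Submodule ℤ P} {q : ℤ} {a b t : P} (h : Pr p I J A B C 4 q a b t)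
    (hk : kk 1 1 ∈ J) : False := by
  have hp := h.bJ.pp
  have h5 := h.bJ.five
  have hM0 : mon [0,1,2,3] ∈ Ml 4 := Ml_mon (List.Perm.refl _)
  have hS : ∀ {a b t : P}, Pr p I J A B C 4 q a b t → sP 4 0 a ∈ I := by
    intro a b t h
    exact h.npn (Φ := sP 4 0) (TOp_sP p 4 0) (fun f hf => Ml_sP 0 hf) (u := 24)
      (by exact_mod_cast c4_dvd hp h5 (k := 24) dvd_rfl) (fun f _ => c4_sq f) (Ml_sP 0 hM0)
      (fun f hf => Submodule.mem_sup_right (c4_span hf))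
  have hP : ∀ {a b t : P}, Pr p I J A B C 4 q a b t → Ph4 a ∈ I := by
    intro a b t h
    exact h.npn (Φ := Ph4) (c4_PhT p) (fun f hf => c4_PhM hf) (u := 4)
      (by exact_mod_cast c4_dvd hp h5 (k := 4) (by norm_num)) (fun f _ => c4_PhPh f) c4_cm
      (fun f hf => M_cyc hp h5 h.bJ.isT h.bJ.mul hk hf)
  obtain ⟨D, hD, hmD, hJD, hDq, htD⟩ := h.quot
  apply htD
  have key : ∀ Ψ : P →ₗ[ℤ] P, TOp p Ψ → Ψ a ∈ I → Ψ t ∈ Pp → Ψ t ∈ D := by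
    intro Ψ hΨ ha ht
    refine (hDq _ ht).2 ?_
    have h1 := hΨ I h.hI h.p2 _ h.aq
    rw [map_sub, map_smul] at h1
    have h2 := I.sub_mem ha h1
    rwa [sub_sub_cancel] at h2
  have hMP : Ml 4 ≤ Pp := Ml_Pp (by norm_num)
  refine M_hit hp h5 hD hmD (hJD hk) h.hh (key _ (TOp_sP p 4 0) (hS h) (hMP (Ml_sP 0 h.hh))) fun σ => ?_
  exact key (Ph4.comp (tl (rn 4 σ))) ((c4_PhT p).comp (TOp_rn p 4 σ)) (hP (h.rn σ))
    (hMP (c4_PhM (Ml_rn σ h.hh)))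

end ADC
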