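import Pool.Agent.ADC.FunB

/-!
# ADC-FunC

The functionals `gA`, `gB` after one more antisymmetrisation: `k` even, `k < n`, `N = n - k`, `g = sP n k (aP n k f)`,
`f ∈ Ml n`: `N gA(aP n (k+1) g) = k! gB(g)`, `N gB(aP n (k+1) g) = n k! gB(g)`.  All functionals are expressed by `gA (k + 1)` and
transpositions; `gA (k + 1)` is antisymmetric in the letters `≤ k` and `g` is symmetric in the letters `≥ k`.
-/

namespace ADC

open AD ADN

private theorem pN_pN {n : ℕ} (σ τ : Equiv.Perm (Fin n)) (i : ℕ) :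
    pN n σ (pN n τ i) = pN n (σ * τ) i := by
  by_cases h : i < n
  · unfold pN
    rw [dif_pos h, dif_pos h, dif_pos (τ ⟨i, h⟩).2]
    rfl
  · unfold pN
    rw [dif_neg h, dif_neg h, dif_neg h]

private theorem pN_one {n : ℕ} (i : ℕ) : pN n (1 : Equiv.Perm (Fin n)) i = i := by
  unfold pN
  split_ifs <;> rfl

private theorem pN_ss {n : ℕ} (a b : Fin n) (i : ℕ) :
    pN n (Equiv.swap a b) (pN n (Equiv.swap a b) i) = i := by
  rw [pN_pN, Equiv.swap_mul_self, pN_one]

private theorem gA_sw {n : ℕ} (j : ℕ) (a b : Fin n) (w : List ℕ) :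
    gA j (rn n (Equiv.swap a b) (mon w)) = sgl w ((List.range j).map (pN n (Equiv.swap a b))) := by
  rw [rn_mon, gA_mon]
  have h : List.range j = ((List.range j).map (pN n (Equiv.swap a b))).map (pN n (Equiv.swap a b)) := by
    rw [List.map_map]
    conv_lhs => rw [← List.map_id (List.range j)]
    refine List.map_congr_left fun i _ => ?_
    rw [Function.comp_apply, pN_ss]
    rfl
  conv_lhs => rw [h]
  exact sgl_map (pN_inj _ _) _ _

private theorem pN_left {n : ℕ} (a b : Fin n) : pN n (Equiv.swap a b) a = b := by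
  unfold pN
  rw [dif_pos a.2, Equiv.swap_apply_left]

private theorem pN_right {n : ℕ} (a b : Fin n) : pN n (Equiv.swap a b) b = a := by
  unfold pN
  rw [dif_pos b.2, Equiv.swap_apply_right]

private theorem pN_ne {n : ℕ} {a b : Fin n} {i : ℕ} (ha : i ≠ a) (hb : i ≠ b) :
    pN n (Equiv.swap a b) i = i := by
  unfold pN
  split_ifs with h
  · rw [Equiv.swap_apply_of_ne_of_ne (fun h1 => ha (congrArg Fin.val h1))
      (fun h1 => hb (congrArg Fin.val h1))]
  · rfl

private theorem map_set {n k : ℕ} (hk : k < n) {t : Fin n} (ht : t.val < k) :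
    (List.range k).map (pN n (Equiv.swap t ⟨k, hk⟩)) = (List.range k).set t k := by
  apply List.ext_getElem
  · simp
  · intro i h1 h2
    rw [List.length_map, List.length_range] at h1
    rw [List.getElem_map, List.getElem_range, List.getElem_set]
    split_ifs with h3
    · rw [← h3]
      exact pN_left t ⟨k, hk⟩
    · rw [List.getElem_range]
      exact pN_ne (Ne.symm h3) (by
        show i ≠ k
        omega)

private theorem map_app {n k : ℕ} (hk : k < n) {s : Fin n} (hs : k ≤ s.val) :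
    (List.range (k + 1)).map (pN n (Equiv.swap ⟨k, hk⟩ s)) = List.range k ++ [s.val] := by
  rw [List.range_succ, List.map_append, List.map_cons, List.map_nil]
  have h1 : pN n (Equiv.swap ⟨k, hk⟩ s) k = s := pN_left ⟨k, hk⟩ s
  rw [h1]
  congr 1
  conv_rhs => rw [← List.map_id (List.range k)]
  refine List.map_congr_left fun i hi => ?_
  rw [List.mem_range] at hi
  exact pN_ne (by
    show i ≠ k
    omega) (by omega)

private theorem ico_fin {n k : ℕ} (F : ℕ → ℤ) :
    ∑ s ∈ Finset.Ico k n, F s = ∑ s : Fin n with k ≤ s.val, F s := by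
  rw [Finset.sum_filter, Fin.sum_univ_eq_sum_range (fun s => if k ≤ s then F s else 0) n,
    ← Finset.sum_filter]
  refine Finset.sum_congr ?_ fun _ _ => rfl
  ext s
  rw [Finset.mem_Ico, Finset.mem_filter, Finset.mem_range]
  exact ⟨fun h => ⟨h.2, h.1⟩, fun h => ⟨h.2, h.1⟩⟩

private theorem gB_sum {n k : ℕ} (hk : k < n) (f : P) :
    gB n k f = ∑ s : Fin n with k ≤ s.val, gA (k + 1) (rn n (Equiv.swap ⟨k, hk⟩ s) f) := by
  refine ind_mon (C := fun f => gB n k f =
    ∑ s : Fin n with k ≤ s.val, gA (k + 1) (rn n (Equiv.swap ⟨k, hk⟩ s) f)) ?_ ?_ ?_ ?_ f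
  · simp
  · intro f g hf hg
    rw [map_add, hf, hg, ← Finset.sum_add_distrib]
    exact Finset.sum_congr rfl fun s _ => by rw [map_add, map_add]
  · intro c f hf
    rw [map_smul, hf, Finset.smul_sum]
    exact Finset.sum_congr rfl fun s _ => by rw [map_zsmul, map_smul]
  · intro w
    rw [gB_mon, ico_fin]
    refine Finset.sum_congr rfl fun s hs => ?_
    rw [Finset.mem_filter] at hs
    rw [gA_sw, map_app hk hs.2]

private theorem range_fin {n k : ℕ} (hk : k < n) (F : ℕ → ℤ) :
    ∑ s ∈ Finset.range k, F s = ∑ s : Fin n with s.val < k, F s := by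
  rw [Finset.sum_filter, Fin.sum_univ_eq_sum_range (fun s => if s < k then F s else 0) n,
    ← Finset.sum_filter]
  refine Finset.sum_congr ?_ fun _ _ => rfl
  ext s
  rw [Finset.mem_filter, Finset.mem_range, Finset.mem_range]
  exact ⟨fun h => ⟨by omega, h⟩, fun h => h.2⟩

private theorem gA_sum {n k : ℕ} (hk : k < n) (h2 : k % 2 = 0) {f : P} (hf : f ∈ Ml n) :
    gA k f - ∑ t : Fin n with t.val < k, gA k (rn n (Equiv.swap t ⟨k, hk⟩) f) = gA (k + 1) f := by
  refine Ml_ind (n := n) (C := fun f => gA k f -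
    ∑ t : Fin n with t.val < k, gA k (rn n (Equiv.swap t ⟨k, hk⟩) f) = gA (k + 1) f)
    ?_ ?_ ?_ ?_ hf
  · simp
  · intro f g hf hg
    rw [map_add, map_add, ← hf, ← hg]
    have h1 : ∑ t : Fin n with t.val < k, gA k (rn n (Equiv.swap t ⟨k, hk⟩) (f + g)) =
        ∑ t : Fin n with t.val < k, gA k (rn n (Equiv.swap t ⟨k, hk⟩) f) +
          ∑ t : Fin n with t.val < k, gA k (rn n (Equiv.swap t ⟨k, hk⟩) g) := by
      rw [← Finset.sum_add_distrib]
      exact Finset.sum_congr rfl fun s _ => by rw [map_add, map_add]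
    rw [h1]
    ring
  · intro c f hf
    rw [map_smul, map_smul, ← hf, smul_sub, Finset.smul_sum]
    congr 1
    exact Finset.sum_congr rfl fun s _ => by rw [map_zsmul, map_smul]
  · intro w hw
    have hnd : w.Nodup := hw.nodup_iff.2 List.nodup_range
    have hmem : ∀ c ∈ List.range k ++ [k], c ∈ w := by
      intro c hc
      rw [hw.mem_iff, List.mem_range]
      rw [← List.range_succ, List.mem_range] at hc
      omega
    have hstar := star (d := k) hnd (by
      rw [← List.range_succ]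
      exact List.nodup_range) hmem
    rw [List.length_range, if_pos h2, range_fin hk] at hstar
    have h1 : ∑ t : Fin n with t.val < k, gA k (rn n (Equiv.swap t ⟨k, hk⟩) (mon w)) =
        ∑ t : Fin n with t.val < k, sgl w ((List.range k).set t k) := by
      refine Finset.sum_congr rfl fun t ht => ?_
      rw [Finset.mem_filter] at ht
      rw [gA_sw, map_set hk ht.2]
    rw [h1, hstar, gA_mon, gA_mon, List.range_succ]
    ring

private theorem rn_mem {n : ℕ} {k : ℕ} (hk : k < n) {f : P} {s : Fin n} (hs : k ≤ s.val) :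
    rn n (Equiv.swap ⟨k, hk⟩ s) (sP n k f) = sP n k f := by
  have h1 : Equiv.swap ⟨k, hk⟩ s ∈ sF n k := by
    unfold sF
    rw [Finset.mem_filter]
    refine ⟨Finset.mem_univ _, fun i hi => Equiv.swap_apply_of_ne_of_ne (fun h => ?_) (fun h => ?_)⟩
    · rw [h] at hi
      exact absurd hi (lt_irrefl k)
    · rw [h] at hi
      omega
  rw [sP_eq]
  exact (rho_sA (rnρ n) h1 f).1

private theorem sw_aF {n k : ℕ} (hk : k < n) {t : Fin n} (ht : t.val < k) :
    Equiv.swap t ⟨k, hk⟩ ∈ aF n (k + 1) := by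
  unfold aF
  rw [Finset.mem_filter]
  refine ⟨Finset.mem_univ _, fun i hi => Equiv.swap_apply_of_ne_of_ne (fun h => ?_) (fun h => ?_)⟩
  · rw [h] at hi
    omega
  · rw [h] at hi
    exact absurd hi (by simp)

/-- the values on `rn (t k) g` -/
private theorem val_t {n k : ℕ} (hk : k < n) {f : P} (hf : f ∈ Ml n) {t : Fin n} (ht : t.val < k) :
    gB n k (rn n (Equiv.swap t ⟨k, hk⟩) (sP n k f)) = - gA (k + 1) (sP n k f) := by
  have htk : t ≠ ⟨k, hk⟩ := by
    rintro rfl
    exact absurd ht (lt_irrefl k)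
  have hg : sP n k f ∈ Ml n := Ml_sP k hf
  have hneg : ∀ h ∈ Ml n, gA (k + 1) (rn n (Equiv.swap t ⟨k, hk⟩) h) = - gA (k + 1) h := by
    intro h hh
    rw [(gA_a (k := k + 1) hk (sw_aF hk ht) hh).1, Equiv.Perm.sign_swap htk]
    simp
  rw [gB_sum hk, Finset.sum_eq_single (⟨k, hk⟩ : Fin n)]
  · rw [Equiv.swap_self, rn_rn, Equiv.Perm.mul_def, Equiv.trans_refl, hneg _ hg]
  · intro s hs hsk
    rw [Finset.mem_filter] at hs
    have hts : t ≠ s := by
      rintro rfl
      omega
    have e1 : Equiv.swap ⟨k, hk⟩ s * Equiv.swap t ⟨k, hk⟩ =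
        Equiv.swap t ⟨k, hk⟩ * Equiv.swap t s := by
      have e := Equiv.swap_mul_swap_mul_swap (x := s) (y := ⟨k, hk⟩) (z := t) hsk hts.symm
      rw [Equiv.swap_comm s ⟨k, hk⟩, Equiv.swap_comm ⟨k, hk⟩ t] at e
      rw [← e, ← mul_assoc, ← mul_assoc, Equiv.swap_mul_self, one_mul]
    have e2 : Equiv.swap ⟨k, hk⟩ s * Equiv.swap t ⟨k, hk⟩ =
        Equiv.swap t s * Equiv.swap ⟨k, hk⟩ s := by
      have e := Equiv.swap_mul_swap_mul_swap (x := t) (y := ⟨k, hk⟩) (z := s) htk hts
      rw [Equiv.swap_comm t s, ← e, mul_assoc, Equiv.swap_mul_self, mul_one]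
    have h1 : gA (k + 1) (rn n (Equiv.swap ⟨k, hk⟩ s) (rn n (Equiv.swap t ⟨k, hk⟩) (sP n k f))) =
        - gA (k + 1) (rn n (Equiv.swap t s) (sP n k f)) := by
      rw [rn_rn, e1, ← rn_rn, hneg _ (Ml_rn _ hg)]
    have h2 : gA (k + 1) (rn n (Equiv.swap ⟨k, hk⟩ s) (rn n (Equiv.swap t ⟨k, hk⟩) (sP n k f))) =
        gA (k + 1) (rn n (Equiv.swap t s) (sP n k f)) := by
      rw [rn_rn, e2, ← rn_rn, rn_mem hk hs.2]
    omega
  · intro h
    refine absurd (Finset.mem_filter.2 ⟨Finset.mem_univ _, ?_⟩) h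
    exact le_refl k

theorem theta {n k : ℕ} (hk : k < n) (h2 : k % 2 = 0) {f : P} (hf : f ∈ Ml n) :
    ((n - k : ℕ) : ℤ) * gA k (aP n (k + 1) (sP n k (aP n k f))) =
        (k.factorial : ℤ) * gB n k (sP n k (aP n k f)) ∧
      ((n - k : ℕ) : ℤ) * gB n k (aP n (k + 1) (sP n k (aP n k f))) =
        (n : ℤ) * (k.factorial : ℤ) * gB n k (sP n k (aP n k f)) := by
  have hkn : k ≤ n := hk.le
  obtain ⟨f', hf', hfe⟩ : ∃ f' ∈ Ml n, f' = aP n k f := ⟨_, Ml_aP k hf, rfl⟩
  obtain ⟨g, hge⟩ : ∃ g, g = sP n k f' := ⟨_, rfl⟩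
  have hg : g ∈ Ml n := by
    rw [hge]
    exact Ml_sP k hf'
  have h1 : aP n (k + 1) g = (k.factorial : ℤ) •
      (g - ∑ t : Fin n with t.val < k, rn n (Equiv.swap t ⟨k, hk⟩) g) := by
    have h2 : aA (rnρ n) k g = (k.factorial : ℤ) • g := by
      rw [hge, hfe, aP_eq, sP_eq, sA_aA, aA_aA _ hkn]
    rw [aP_eq, aA_succ _ hk, h2, smul_sub, Finset.smul_sum]
    congr 1
    refine Finset.sum_congr rfl fun t _ => ?_
    rw [map_zsmul]
    rfl
  have hZ : gB n k g = ((n - k : ℕ) : ℤ) * gA (k + 1) g := by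
    rw [gB_sum hk, Finset.sum_congr rfl (g := fun _ => gA (k + 1) g), Finset.sum_const, nsmul_eq_mul]
    · congr 2
      have h3 : (Finset.univ.filter fun s : Fin n => k ≤ s.val).card =
          ∑ s : Fin n with k ≤ s.val, 1 := by simp
      have h4 := ico_fin (n := n) (k := k) fun _ => 1
      have h5 : ((∑ s : Fin n with k ≤ s.val, 1 : ℕ) : ℤ) = ((n - k : ℕ) : ℤ) := by
        push_cast
        rw [← h4]
        simp
      rw [h3]
      exact_mod_cast h5
    · intro s hs
      rw [Finset.mem_filter] at hs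
      rw [hge, rn_mem hk hs.2]
  have hA : gA k (aP n (k + 1) g) = (k.factorial : ℤ) * gA (k + 1) g := by
    rw [h1, map_smul, map_sub, map_sum, gA_sum hk h2 hg, smul_eq_mul]
  have hB : gB n k (aP n (k + 1) g) = (k.factorial : ℤ) * ((n : ℤ) * gA (k + 1) g) := by
    rw [h1, map_smul, map_sub, map_sum, smul_eq_mul, hZ]
    have h3 : ∑ t : Fin n with t.val < k, gB n k (rn n (Equiv.swap t ⟨k, hk⟩) g) =
        - ((k : ℤ) * gA (k + 1) g) := by
      rw [Finset.sum_congr rfl (g := fun _ => - gA (k + 1) g), Finset.sum_const, nsmul_eq_mul]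
      · have h4 : (Finset.univ.filter fun s : Fin n => s.val < k).card = k := by
          rw [Fin.card_filter_val_lt]
          omega
        rw [h4]
        ring
      · intro t ht
        rw [Finset.mem_filter] at ht
        rw [hge, val_t hk hf' ht.2]
    rw [h3, Nat.cast_sub hkn]
    ring
  rw [← hfe, ← hge, hA, hB, hZ]
  constructor
  · ring
  · ring

end ADC
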