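import Pool.Agent.ADC.Rg
import Pool.Agent.ADC.LinP
import Pool.Agent.ADC.GrpA
import Pool.Agent.ADC.Cnc

/-!
# ADC-RV: the main formula in degree `n`, `f ∈ Ml n`, `1 ≤ k < n`, modulo a T-ideal `D ∋ ll`
-/

namespace ADC

open AD ADN

private theorem rv_idx_map {t : ℕ → ℕ} (ht : Function.Injective t) (w : List ℕ) (a : ℕ) :
    (w.map t).idxOf (t a) = w.idxOf a := by
  induction w with
  | nil => rfl
  | cons b w ih =>
    rw [List.map_cons, List.idxOf_cons, List.idxOf_cons, ih]
    by_cases h : b = a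
    · subst h
      simp
    · have h1 : t b ≠ t a := fun h' => h (ht h')
      have h2 : (t b == t a) = false := beq_eq_false_iff_ne.2 h1
      have h3 : (b == a) = false := beq_eq_false_iff_ne.2 h
      rw [h2, h3]

private theorem rv_sgl_map {t : ℕ → ℕ} (ht : Function.Injective t) (w U : List ℕ) :
    sgl (w.map t) (U.map t) = sgl w U := by
  induction U with
  | nil => rfl
  | cons x U ih =>
    rw [List.map_cons, sgl, sgl, ih, List.map_map]
    congr 2
    refine List.map_congr_left fun y _ => ?_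
    show bef (w.map t) (t x) (t y) = bef w x y
    unfold bef
    rw [rv_idx_map ht, rv_idx_map ht]

private theorem rv_idx {u v : List ℕ} {a b : ℕ} (h : (u ++ a :: b :: v).Nodup) :
    (u ++ a :: b :: v).idxOf a = u.length ∧ (u ++ a :: b :: v).idxOf b = u.length + 1 ∧
      ∀ x, x ≠ a → x ≠ b → ((u ++ a :: b :: v).idxOf x < u.length ∨
        u.length + 2 ≤ (u ++ a :: b :: v).idxOf x) ∧
        (u ++ a :: b :: v).idxOf x = (u ++ b :: a :: v).idxOf x := by
  have h1 := List.nodup_append.1 h
  have ha : a ∉ u := fun h' => h1.2.2 a h' a (by simp) rfl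
  have hb : b ∉ u := fun h' => h1.2.2 b h' b (by simp) rfl
  have hab : a ≠ b := by
    intro h'
    have h2 := h1.2.1
    rw [List.nodup_cons] at h2
    exact h2.1 (by rw [h']; simp)
  refine ⟨?_, ?_, ?_⟩
  · rw [List.idxOf_append_of_notMem ha, List.idxOf_cons_self]
    omega
  · rw [List.idxOf_append_of_notMem hb, List.idxOf_cons_ne _ hab, List.idxOf_cons_self]
  · intro x hxa hxb
    by_cases hx : x ∈ u
    · rw [List.idxOf_append_of_mem hx, List.idxOf_append_of_mem hx]
      exact ⟨Or.inl (List.idxOf_lt_length_of_mem hx), rfl⟩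
    · rw [List.idxOf_append_of_notMem hx, List.idxOf_append_of_notMem hx, List.idxOf_cons_ne _ (Ne.symm hxa),
        List.idxOf_cons_ne _ (Ne.symm hxb), List.idxOf_cons_ne _ (Ne.symm hxb), List.idxOf_cons_ne _ (Ne.symm hxa)]
      exact ⟨Or.inr (by omega), rfl⟩

private theorem rv_nodup {u v : List ℕ} {a b : ℕ} (h : (u ++ a :: b :: v).Nodup) : (u ++ b :: a :: v).Nodup :=
  (List.Perm.append_left u (List.Perm.swap b a v)).nodup_iff.1 h

private theorem rv_bef {u v : List ℕ} {a b : ℕ} (h : (u ++ a :: b :: v).Nodup) (x y : ℕ) :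
    bef (u ++ b :: a :: v) x y = (if (x = a ∧ y = b) ∨ (x = b ∧ y = a) then -1 else 1) * bef (u ++ a :: b :: v) x y := by
  obtain ⟨h1, h2, h3⟩ := rv_idx h
  obtain ⟨h4, h5, h6⟩ := rv_idx (rv_nodup h)
  have hab : a ≠ b := by
    intro h'
    rw [h'] at h1 h2
    omega
  unfold bef
  by_cases hxa : x = a
  · subst hxa
    by_cases hyb : y = b
    · subst hyb
      rw [h1, h2, h4, h5, if_neg (by omega), if_pos (Or.inl ⟨rfl, rfl⟩), if_pos (by omega)]
      norm_num
    · have hc : ¬ ((x = x ∧ y = b) ∨ (x = b ∧ y = x)) := by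
        rintro (⟨_, h'⟩ | ⟨h', _⟩)
        · exact hyb h'
        · exact hab h'
      rw [if_neg hc, one_mul]
      by_cases hya : y = x
      · subst hya
        rw [if_neg (lt_irrefl _), if_neg (lt_irrefl _)]
      · obtain ⟨h7, h8⟩ := h3 y hya hyb
        rw [h1, h5, ← h8]
        split_ifs <;> first | rfl | omega
  · by_cases hxb : x = b
    · subst hxb
      by_cases hya : y = a
      · subst hya
        rw [h1, h2, h4, h5, if_pos (by omega), if_pos (Or.inr ⟨rfl, rfl⟩), if_neg (by omega)]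
        norm_num
      · have hc : ¬ ((x = a ∧ y = x) ∨ (x = x ∧ y = a)) := by
          rintro (⟨h', _⟩ | ⟨_, h'⟩)
          · exact hxa h'
          · exact hya h'
        rw [if_neg hc, one_mul]
        by_cases hyb : y = x
        · subst hyb
          rw [if_neg (lt_irrefl _), if_neg (lt_irrefl _)]
        · obtain ⟨h7, h8⟩ := h3 y hya hyb
          rw [h2, h4, ← h8]
          split_ifs <;> first | rfl | omega
    · obtain ⟨h7, h8⟩ := h3 x hxa hxb
      have hc : ¬ ((x = a ∧ y = b) ∨ (x = b ∧ y = a)) := by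
        rintro (⟨h', _⟩ | ⟨h', _⟩)
        · exact hxa h'
        · exact hxb h'
      rw [if_neg hc, one_mul, ← h8]
      by_cases hya : y = a
      · subst hya
        rw [h1, h5]
        split_ifs <;> first | rfl | omega
      · by_cases hyb : y = b
        · subst hyb
          rw [h2, h4]
          split_ifs <;> first | rfl | omega
        · rw [← (h3 y hya hyb).2]

private theorem rv_flip (F : ℕ → ℤ) (b : ℕ) : ∀ U : List ℕ, U.Nodup →
    (U.map (fun y => (if y = b then -1 else 1) * F y)).prod = (if b ∈ U then -1 else 1) * (U.map F).prod := by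
  intro U
  induction U with
  | nil => intro _; simp
  | cons x U ih =>
    intro h
    rw [List.nodup_cons] at h
    rw [List.map_cons, List.map_cons, List.prod_cons, List.prod_cons, ih h.2]
    by_cases hx : x = b
    · subst hx
      rw [if_pos rfl, if_neg h.1, if_pos (by simp)]
      ring
    · rw [if_neg hx]
      have h1 : b ∈ x :: U ↔ b ∈ U := by
        rw [List.mem_cons]
        exact ⟨fun h' => h'.resolve_left fun h2 => hx h2.symm, Or.inr⟩
      rw [if_congr h1 rfl rfl]
      ring

private theorem rv_sgl_swap {u v : List ℕ} {a b : ℕ} (h : (u ++ a :: b :: v).Nodup) : ∀ U : List ℕ, U.Nodup →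
    sgl (u ++ b :: a :: v) U = (if a ∈ U ∧ b ∈ U then -1 else 1) * sgl (u ++ a :: b :: v) U := by
  have hab : a ≠ b := by
    intro h'
    have h2 := (List.nodup_append.1 h).2.1
    rw [List.nodup_cons] at h2
    exact h2.1 (by rw [h']; simp)
  intro U
  induction U with
  | nil => intro _; simp [sgl]
  | cons x U ih =>
    intro hU
    rw [List.nodup_cons] at hU
    rw [sgl, sgl, ih hU.2]
    by_cases hxa : x = a
    · subst hxa
      have e : U.map (fun y => bef (u ++ b :: x :: v) x y) =
          U.map (fun y => (if y = b then -1 else 1) * bef (u ++ x :: b :: v) x y) := by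
        refine List.map_congr_left fun y _ => ?_
        rw [rv_bef h x y]
        congr 1
        refine if_congr ?_ rfl rfl
        constructor
        · rintro (⟨_, h'⟩ | ⟨h', _⟩)
          · exact h'
          · exact absurd h' hab
        · intro h'
          exact Or.inl ⟨rfl, h'⟩
      have hc : ¬ (x ∈ U ∧ b ∈ U) := fun h' => hU.1 h'.1
      rw [e, rv_flip _ _ U hU.2, if_neg hc]
      have h1 : (x ∈ x :: U ∧ b ∈ x :: U) ↔ b ∈ U := by
        rw [List.mem_cons, List.mem_cons]
        exact ⟨fun h' => h'.2.resolve_left fun h2 => hab h2.symm, fun h' => ⟨Or.inl rfl, Or.inr h'⟩⟩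
      rw [if_congr h1 rfl rfl]
      ring
    · by_cases hxb : x = b
      · subst hxb
        have e : U.map (fun y => bef (u ++ x :: a :: v) x y) =
            U.map (fun y => (if y = a then -1 else 1) * bef (u ++ a :: x :: v) x y) := by
          refine List.map_congr_left fun y _ => ?_
          rw [rv_bef h x y]
          congr 1
          refine if_congr ?_ rfl rfl
          constructor
          · rintro (⟨h', _⟩ | ⟨_, h'⟩)
            · exact absurd h' hxa
            · exact h'
          · intro h'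
            exact Or.inr ⟨rfl, h'⟩
        have hc : ¬ (a ∈ U ∧ x ∈ U) := fun h' => hU.1 h'.2
        rw [e, rv_flip _ _ U hU.2, if_neg hc]
        have h1 : (a ∈ x :: U ∧ x ∈ x :: U) ↔ a ∈ U := by
          rw [List.mem_cons, List.mem_cons]
          exact ⟨fun h' => h'.1.resolve_left fun h2 => hxa h2.symm, fun h' => ⟨Or.inr h', Or.inl rfl⟩⟩
        rw [if_congr h1 rfl rfl]
        ring
      · have e : U.map (fun y => bef (u ++ b :: a :: v) x y) =
            U.map (fun y => bef (u ++ a :: b :: v) x y) := by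
          refine List.map_congr_left fun y _ => ?_
          have hc : ¬ ((x = a ∧ y = b) ∨ (x = b ∧ y = a)) := by
            rintro (⟨h', _⟩ | ⟨h', _⟩)
            · exact hxa h'
            · exact hxb h'
          rw [rv_bef h x y, if_neg hc, one_mul]
        have h1 : (a ∈ x :: U ∧ b ∈ x :: U) ↔ (a ∈ U ∧ b ∈ U) := by
          rw [List.mem_cons, List.mem_cons]
          exact ⟨fun h' => ⟨h'.1.resolve_left fun h2 => hxa h2.symm, h'.2.resolve_left fun h2 => hxb h2.symm⟩,
            fun h' => ⟨Or.inr h'.1, Or.inr h'.2⟩⟩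
        rw [e, if_congr h1 rfl rfl]
        ring

private theorem rv_sorted {n : ℕ} : ∀ U : List ℕ, U.Pairwise (· < ·) → (∀ x ∈ U, x < n) →
    sgl (List.range n) U = 1 := by
  intro U
  induction U with
  | nil => intro _ _; rfl
  | cons x U ih =>
    intro h hn
    rw [List.pairwise_cons] at h
    rw [sgl, ih h.2 (fun y hy => hn y (List.mem_cons_of_mem _ hy)), mul_one]
    refine List.prod_eq_one fun c hc => ?_
    rw [List.mem_map] at hc
    obtain ⟨y, hy, rfl⟩ := hc
    have hx := hn x (by simp)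
    have hy2 := hn y (List.mem_cons_of_mem _ hy)
    have e : ∀ i, i < n → (List.range n).idxOf i = i := by
      intro i hi
      have h2 := List.Nodup.idxOf_getElem (List.nodup_range (n := n)) i (by rw [List.length_range]; exact hi)
      rwa [List.getElem_range] at h2
    unfold bef
    rw [e x hx, e y hy2, if_pos (h.1 y hy)]

private theorem rv_perm {C : List ℕ → Prop}
    (hC : ∀ (u v : List ℕ) (a b : ℕ), C (u ++ a :: b :: v) → C (u ++ b :: a :: v))
    {w w' : List ℕ} (h : w.Perm w') : C w → C w' := by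
  have key : ∀ u : List ℕ, C (u ++ w) → C (u ++ w') := by
    induction h with
    | nil => intro u h; exact h
    | cons x _ ih =>
      intro u h
      have h1 := ih (u ++ [x])
      rw [List.append_assoc, List.append_assoc] at h1
      exact h1 h
    | swap x y l => intro u h; exact hC u l y x h
    | trans _ _ ih1 ih2 => intro u h; exact ih2 u (ih1 u h)
  exact key []

private noncomputable def rvE (n k : ℕ) (f : P) : P := col k (aP n k f)

private theorem rvE_sum (n k : ℕ) (f : P) :
    rvE n k f = ∑ σ ∈ aF n k, ((Equiv.Perm.sign σ : ℤˣ) : ℤ) • col k (rn n σ f) := by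
  unfold rvE aP
  rw [LinearMap.sum_apply, map_sum]
  refine Finset.sum_congr rfl fun σ _ => ?_
  rw [LinearMap.smul_apply, map_zsmul]
  rfl

private theorem rvE_sub (n k : ℕ) (f g : P) : rvE n k (f - g) = rvE n k f - rvE n k g := by
  unfold rvE
  rw [map_sub, map_sub]

private theorem rvE_a {n k : ℕ} {σ : Equiv.Perm (Fin n)} (hσ : σ ∈ aF n k) (f : P) :
    rvE n k (rn n σ f) = ((Equiv.Perm.sign σ : ℤˣ) : ℤ) • rvE n k f := by
  unfold rvE
  rw [aP_eq, aP_eq]
  have h1 := (rho_aA (rnρ n) hσ f).2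
  have h2 : aA (rnρ n) k (rn n σ f) = ((Equiv.Perm.sign σ : ℤˣ) : ℤ) • aA (rnρ n) k f := h1
  rw [h2, map_zsmul]

private theorem rv_aF {n k : ℕ} {σ : Equiv.Perm (Fin n)} (hσ : σ ∈ aF n k) {c : ℕ} (hc : k ≤ c) : pN n σ c = c := by
  unfold pN
  by_cases h : c < n
  · rw [dif_pos h, (Finset.mem_filter.1 hσ).2 ⟨c, h⟩ hc]
  · rw [dif_neg h]

private theorem rv_rnX (n : ℕ) (σ : Equiv.Perm (Fin n)) (c : ℕ) : rn n σ (X c) = X (pN n σ c) := by
  have h := rn_mon n σ [c]
  rw [List.map_cons, List.map_nil, mon_single, mon_single] at h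
  exact h

private theorem rv_colX (k c : ℕ) : col k (X c) = X (min c k) := by
  unfold col
  rw [sb_X]

private theorem rvE_s {n k : ℕ} {s : Equiv.Perm (Fin n)} (hs : s ∈ sF n k) (f : P) :
    rvE n k (rn n s f) = rvE n k f := by
  rw [rvE_sum, rvE_sum]
  refine Finset.sum_congr rfl fun σ hσ => ?_
  congr 1
  have h : (col k).comp ((rn n σ).comp (rn n s)) = (col k).comp (rn n σ) := by
    apply hom_ext_X
    intro i
    show col k (rn n σ (rn n s (X i))) = col k (rn n σ (X i))
    rw [rv_rnX, rv_rnX, rv_rnX, rv_colX, rv_colX]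
    have h0 : ∀ c, c < k → pN n s c = c := by
      intro c hc
      unfold pN
      by_cases h : c < n
      · rw [dif_pos h, (Finset.mem_filter.1 hs).2 ⟨c, h⟩ hc]
      · rw [dif_neg h]
    rcases Nat.lt_or_ge i k with hi | hi
    · rw [h0 i hi]
    · have h1 : k ≤ pN n s i := by
        by_contra hcon
        rw [not_le] at hcon
        have h2 := pN_inj n s (h0 _ hcon)
        omega
      rw [rv_aF hσ h1, rv_aF hσ hi, min_eq_right h1, min_eq_right hi]
  exact DFunLike.congr_fun h f

private theorem rv_cmX (n k : ℕ) (σ : Equiv.Perm (Fin n)) (c d : ℕ) : col k (rn n σ (cm c d)) =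
    cm (min (pN n σ c) k) (min (pN n σ d) k) := by
  unfold cm
  rw [map_sub, map_sub, map_mul, map_mul, map_mul, map_mul, rv_rnX, rv_rnX, rv_colX, rv_colX]

private theorem rvE_kk {n k c d : ℕ} (hc : k ≤ c) (hd : k ≤ d) (f g : P) : rvE n k (f * cm c d * g) = 0 := by
  rw [rvE_sum]
  refine Finset.sum_eq_zero fun σ hσ => ?_
  have h : cm k k = 0 := by
    unfold cm
    rw [sub_self]
  rw [map_mul, map_mul, map_mul, map_mul, rv_cmX, rv_aF hσ hc, rv_aF hσ hd, min_eq_right hc, min_eq_right hd, h,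
    mul_zero, zero_mul, smul_zero]

private theorem rv_cen {D : Submodule ℤ P} (hD : IsT D) (h : ll ∈ D) {x y : P} (hx : x ∈ Pp) (hy : y ∈ Pp) (G : P) :
    (x * y - y * x) * G - G * (x * y - y * x) ∈ D := by
  refine ind_mon (C := fun G => (x * y - y * x) * G - G * (x * y - y * x) ∈ D) ?_ ?_ ?_ ?_ G
  · rw [mul_zero, zero_mul, sub_zero]
    exact D.zero_mem
  · intro f g hf hg
    have e : (x * y - y * x) * (f + g) - (f + g) * (x * y - y * x) =
        ((x * y - y * x) * f - f * (x * y - y * x)) + ((x * y - y * x) * g - g * (x * y - y * x)) := by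
      noncomm_ring
    rw [e]
    exact D.add_mem hf hg
  · intro c f hf
    rw [mul_smul_comm, smul_mul_assoc, ← smul_sub]
    exact D.smul_mem c hf
  · intro w
    by_cases hw : w = []
    · rw [hw, mon_nil, mul_one, one_mul, sub_self]
      exact D.zero_mem
    · exact ll_subst hD h hx hy (mon_mem hw)

private theorem rv_ann {p : ℕ} (hp : p.Prime) (h5 : 5 ≤ p) {D : Submodule ℤ P} (hD : IsT D)
    (hm : Mul ((p : ℤ) ^ 2) D) (h : ll ∈ D) {x y z : P} (hx : x ∈ Pp) (hy : y ∈ Pp) (hz : z ∈ Pp) :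
    (x * z - z * x) * (z * y - y * z) ∈ D := by
  obtain ⟨S, iS, π, hs, h0⟩ := exists_quot hD
  have hll : ∀ {x y z : P}, x ∈ Pp → y ∈ Pp → z ∈ Pp →
      (π x * π y - π y * π x) * π z = π z * (π x * π y - π y * π x) := by
    intro x y z hx hy hz
    have h1 := (h0 _).2 (ll_subst hD h hx hy hz)
    rw [map_sub, map_mul, map_mul, map_sub, map_mul, map_mul] at h1
    exact sub_eq_zero.1 h1
  have h1 := Rg1 (S := S) (π '' (Pp : Set P))
    (by
      rintro _ ⟨a, ha, rfl⟩ _ ⟨b, hb, rfl⟩
      exact ⟨a * b, Pp_mul_right ha b, map_mul π a b⟩)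
    (by
      rintro _ ⟨a, ha, rfl⟩ _ ⟨b, hb, rfl⟩
      exact ⟨a + b, Pp.add_mem ha hb, map_add π a b⟩)
    (by
      rintro _ ⟨a, ha, rfl⟩
      exact ⟨-a, Pp.neg_mem ha, map_neg π a⟩)
    (by
      rintro _ ⟨a, ha, rfl⟩ h2
      rw [← map_zsmul, h0] at h2
      refine (h0 a).2 (cancel hp hm (c := 2) ?_ ha h2)
      intro h6
      have h7 := Int.le_of_dvd (by norm_num) h6
      omega)
    (by
      rintro _ ⟨a, ha, rfl⟩ _ ⟨b, hb, rfl⟩ _ ⟨c, hc, rfl⟩
      exact hll ha hb hc)
    ⟨x, hx, rfl⟩ ⟨z, hz, rfl⟩ ⟨y, hy, rfl⟩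
  refine (h0 _).1 ?_
  rw [map_mul, map_sub, map_sub, map_mul, map_mul, map_mul, map_mul]
  exact h1

private theorem rvE_cc {p : ℕ} (hp : p.Prime) (h5 : 5 ≤ p) {D : Submodule ℤ P} (hD : IsT D)
    (hm : Mul ((p : ℤ) ^ 2) D) (h : ll ∈ D) {n k a b c d : ℕ} (hb : k ≤ b) (hd : k ≤ d) (f g : P) :
    rvE n k (f * cm c d * g * cm a b) ∈ D := by
  rw [rvE_sum]
  refine Submodule.sum_mem _ fun σ hσ => Submodule.smul_mem _ _ ?_
  rw [map_mul, map_mul, map_mul, map_mul, map_mul, map_mul, rv_cmX, rv_cmX, rv_aF hσ hb, rv_aF hσ hd,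
    min_eq_right hb, min_eq_right hd]
  have h1 := rv_ann hp h5 hD hm h (X_mem (min (pN n σ c) k)) (X_mem (min (pN n σ a) k)) (X_mem k)
  have h2 := rv_cen hD h (X_mem (min (pN n σ c) k)) (X_mem k) (col k (rn n σ g))
  have h3 := D.sub_mem (IsT.lm hD (col k (rn n σ f)) (cm (min (pN n σ a) k) k) h2)
    (hD.mul_left _ h1 (col k (rn n σ f) * col k (rn n σ g)))
  refine (congrArg (fun f => f ∈ D) ?_).mp h3
  unfold cm
  noncomm_ring

private theorem rvE_mem {p : ℕ} {D : Submodule ℤ P} (hD : IsT D)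
    (hm : Mul ((p : ℤ) ^ 2) D) {n k : ℕ} {f : P} (hf : f ∈ D) : rvE n k f ∈ D := by
  unfold rvE
  unfold col
  exact sb_mem hD (fun i => X_mem _) (TOp_aP p n k D hD hm f hf)

private theorem rvE_cen {p : ℕ} {D : Submodule ℤ P} (hD : IsT D)
    (hm : Mul ((p : ℤ) ^ 2) D) (h : ll ∈ D) {n k a b c : ℕ} (f g : P) :
    rvE n k (f * X c * cm a b * g) - rvE n k (f * cm a b * X c * g) ∈ D := by
  rw [← rvE_sub]
  refine rvE_mem hD hm ?_
  have h1 := D.neg_mem (IsT.lm hD f g (rv_cen hD h (X_mem a) (X_mem b) (X c)))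
  refine (congrArg (fun f => f ∈ D) ?_).mp h1
  unfold cm
  noncomm_ring

private theorem rv_word (u v : List ℕ) (a b : ℕ) :
    mon u * cm a b * mon v = mon (u ++ a :: b :: v) - mon (u ++ b :: a :: v) := by
  unfold cm
  rw [mon_append, mon_append, mon_cons, mon_cons, mon_cons, mon_cons, mul_sub, sub_mul]
  simp only [mul_assoc]

private theorem rv_pswap {n c d : ℕ} (hc : c < n) (hd : d < n) (i : ℕ) :
    pN n (Equiv.swap ⟨c, hc⟩ ⟨d, hd⟩) i = Equiv.swap c d i := by
  unfold pN
  by_cases hi : i < n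
  · rw [dif_pos hi]
    by_cases h1 : i = c
    · subst h1
      rw [Equiv.swap_apply_left, Equiv.swap_apply_left]
    · by_cases h2 : i = d
      · subst h2
        rw [Equiv.swap_apply_right, Equiv.swap_apply_right]
      · rw [Equiv.swap_apply_of_ne_of_ne h1 h2, Equiv.swap_apply_of_ne_of_ne
          (fun h => h1 (congrArg Fin.val h)) (fun h => h2 (congrArg Fin.val h))]
  · rw [dif_neg hi, Equiv.swap_apply_of_ne_of_ne (by omega) (by omega)]

private theorem rv_aswap {n k c d : ℕ} (hkn : k < n) (hc : c < k) (hd : d < k) (hcd : c ≠ d) (w : List ℕ) :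
    rvE n k (mon (w.map (Equiv.swap c d))) = - rvE n k (mon w) := by
  have hσ : Equiv.swap (⟨c, by omega⟩ : Fin n) ⟨d, by omega⟩ ∈ aF n k := by
    unfold aF
    rw [Finset.mem_filter]
    refine ⟨Finset.mem_univ _, fun i hi => Equiv.swap_apply_of_ne_of_ne ?_ ?_⟩
    · intro h'
      rw [h'] at hi
      exact absurd hi (by simp; omega)
    · intro h'
      rw [h'] at hi
      exact absurd hi (by simp; omega)
  have h1 := rvE_a hσ (mon w)
  rw [rn_mon, Equiv.Perm.sign_swap (fun h' => hcd (congrArg Fin.val h'))] at h1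
  have h2 : w.map (pN n (Equiv.swap (⟨c, by omega⟩ : Fin n) ⟨d, by omega⟩)) = w.map (Equiv.swap c d) :=
    List.map_congr_left fun i _ => rv_pswap _ _ i
  rw [h2] at h1
  rw [h1]
  simp

private theorem rv_sswap {n k c d : ℕ} (hc : k ≤ c) (hd : k ≤ d) (hcn : c < n) (hdn : d < n) (w : List ℕ) :
    rvE n k (mon (w.map (Equiv.swap c d))) = rvE n k (mon w) := by
  have hσ : Equiv.swap (⟨c, hcn⟩ : Fin n) ⟨d, hdn⟩ ∈ sF n k := by
    unfold sF
    rw [Finset.mem_filter]
    refine ⟨Finset.mem_univ _, fun i hi => Equiv.swap_apply_of_ne_of_ne ?_ ?_⟩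
    · intro h'
      rw [h'] at hi
      exact absurd hi (by simp; omega)
    · intro h'
      rw [h'] at hi
      exact absurd hi (by simp; omega)
  have h1 := rvE_s hσ (mon w)
  rw [rn_mon] at h1
  have h2 : w.map (pN n (Equiv.swap (⟨c, hcn⟩ : Fin n) ⟨d, hdn⟩)) = w.map (Equiv.swap c d) :=
    List.map_congr_left fun i _ => rv_pswap _ _ i
  rw [h2] at h1
  exact h1

/-- the claim about one commutator -/
private def rvT (D : Submodule ℤ P) (n k : ℕ) (u : List ℕ) (a b : ℕ) (v : List ℕ) : Prop :=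
  rvE n k (mon u * cm a b * mon v) - sgl (u ++ a :: b :: v) (List.range k ++ [b]) • V2 k (n - k) ∈ D

private theorem rv_U {k b : ℕ} (hb : k ≤ b) : (List.range k ++ [b]).Nodup := by
  rw [List.nodup_append]
  refine ⟨List.nodup_range, List.nodup_singleton b, ?_⟩
  intro x hx y hy hxy
  rw [List.mem_range] at hx
  rw [List.mem_singleton] at hy
  omega

private theorem rv_memU {k b c : ℕ} : c ∈ List.range k ++ [b] ↔ c < k ∨ c = b := by
  rw [List.mem_append, List.mem_range, List.mem_singleton]

private theorem rvT_move {p : ℕ} {D : Submodule ℤ P} (hD : IsT D) (hm : Mul ((p : ℤ) ^ 2) D) (h : ll ∈ D)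
    {n k a b c : ℕ} {u v : List ℕ} (hn : (u ++ a :: b :: c :: v).Nodup) (ha : a < k) (hb : k ≤ b) :
    rvT D n k (u ++ [c]) a b v ↔ rvT D n k u a b (c :: v) := by
  have hn1 : ((u ++ [a]) ++ b :: c :: v).Nodup := by
    rw [List.append_assoc]
    exact hn
  have h1 := rv_sgl_swap hn1 _ (rv_U hb)
  have hn2 : (u ++ a :: c :: (b :: v)).Nodup := by
    have h2 := rv_nodup hn1
    rw [List.append_assoc] at h2
    exact h2
  have h2 := rv_sgl_swap hn2 _ (rv_U hb)
  rw [List.append_assoc, List.append_assoc] at h1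
  have hbU : b ∈ List.range k ++ [b] := rv_memU.2 (Or.inr rfl)
  have haU : a ∈ List.range k ++ [b] := rv_memU.2 (Or.inl ha)
  have e : sgl (u ++ c :: a :: (b :: v)) (List.range k ++ [b]) = sgl (u ++ a :: b :: c :: v) (List.range k ++ [b]) := by
    rw [h2]
    have h3 : sgl (u ++ a :: c :: (b :: v)) (List.range k ++ [b]) =
      (if b ∈ List.range k ++ [b] ∧ c ∈ List.range k ++ [b] then -1 else 1) *
        sgl (u ++ a :: b :: c :: v) (List.range k ++ [b]) := h1
    rw [h3]
    by_cases hc : c ∈ List.range k ++ [b]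
    · rw [if_pos ⟨haU, hc⟩, if_pos ⟨hbU, hc⟩]
      ring
    · have hc1 : ¬ (a ∈ List.range k ++ [b] ∧ c ∈ List.range k ++ [b]) := fun h' => hc h'.2
      have hc2 : ¬ (b ∈ List.range k ++ [b] ∧ c ∈ List.range k ++ [b]) := fun h' => hc h'.2
      rw [if_neg hc1, if_neg hc2]
      ring
  unfold rvT
  have h4 := rvE_cen (n := n) (k := k) (a := a) (b := b) (c := c) hD hm h (mon u) (mon v)
  have e2 : mon (u ++ [c]) = mon u * X c := by rw [mon_append, mon_single]
  have e3 : mon u * cm a b * mon (c :: v) = mon u * cm a b * X c * mon v := by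
    rw [mon_cons]
    simp only [mul_assoc]
  have e4 : (u ++ [c]) ++ a :: b :: v = u ++ c :: a :: (b :: v) := by
    rw [List.append_assoc]
    rfl
  rw [e2, e4, e, e3]
  constructor
  · intro hT
    refine (congrArg (fun f => f ∈ D) ?_).mp (D.sub_mem hT h4)
    abel
  · intro hT
    refine (congrArg (fun f => f ∈ D) ?_).mp (D.add_mem hT h4)
    abel

private theorem rvT_all {p : ℕ} {D : Submodule ℤ P} (hD : IsT D) (hm : Mul ((p : ℤ) ^ 2) D) (h : ll ∈ D)
    {n k a b : ℕ} (ha : a < k) (hb : k ≤ b) : ∀ (v u : List ℕ), (u ++ a :: b :: v).Nodup →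
    (rvT D n k (u ++ v) a b [] ↔ rvT D n k u a b v) := by
  intro v
  induction v with
  | nil =>
    intro u _
    rw [List.append_nil]
  | cons c v ih =>
    intro u hn
    have hp : ((u ++ [c]) ++ a :: b :: v).Perm (u ++ a :: b :: c :: v) := by
      rw [List.append_assoc]
      refine List.Perm.append_left u ?_
      exact (List.Perm.swap a c (b :: v)).trans (List.Perm.cons a (List.Perm.swap b c v))
    have h1 := ih (u ++ [c]) (hp.nodup_iff.2 hn)
    rw [List.append_assoc] at h1
    exact h1.trans (rvT_move hD hm h hn ha hb)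

private theorem rv_mapid {u : List ℕ} {a b : ℕ} (ha : a ∉ u) (hb : b ∉ u) : u.map (Equiv.swap a b) = u := by
  have h4 : u.map (Equiv.swap a b) = u.map id := by
    refine List.map_congr_left fun c hc => Equiv.swap_apply_of_ne_of_ne ?_ ?_
    · rintro rfl
      exact ha hc
    · rintro rfl
      exact hb hc
  rw [h4, List.map_id]

private theorem rv_swapw {u v : List ℕ} {a b : ℕ} (h : (u ++ a :: b :: v).Nodup) :
    (u ++ a :: b :: v).map (Equiv.swap a b) = u ++ b :: a :: v := by
  have h1 := List.nodup_append.1 h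
  have h2 := List.nodup_cons.1 h1.2.1
  have h3 := List.nodup_cons.1 h2.2
  rw [List.map_append, List.map_cons, List.map_cons,
    rv_mapid (fun h' => h1.2.2 a h' a (by simp) rfl) (fun h' => h1.2.2 b h' b (by simp) rfl),
    rv_mapid (fun h' => h2.1 (List.mem_cons_of_mem _ h')) h3.1, Equiv.swap_apply_left, Equiv.swap_apply_right]

private theorem rv_lt {n : ℕ} {w : List ℕ} (h : w.Perm (List.range n)) {c : ℕ} (hc : c ∈ w) : c < n :=
  List.mem_range.1 (h.mem_iff.1 hc)

private theorem rv_adj {n k : ℕ} (hkn : k < n) {u v : List ℕ} {a b : ℕ} (h : (u ++ a :: b :: v).Nodup)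
    (ha : a < k) (hb : b < k) : rvE n k (mon (u ++ b :: a :: v)) = - rvE n k (mon (u ++ a :: b :: v)) := by
  have hab : a ≠ b := by
    rintro rfl
    have h2 := (List.nodup_append.1 h).2.1
    rw [List.nodup_cons] at h2
    exact h2.1 (by simp)
  rw [← rv_aswap hkn ha hb hab, rv_swapw h]

private theorem rvE_neg (n k : ℕ) (f : P) : rvE n k (-f) = - rvE n k f := by
  unfold rvE
  rw [map_neg, map_neg]

private theorem rv_ne {u v : List ℕ} {a b : ℕ} (h : (u ++ a :: b :: v).Nodup) : a ≠ b := by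
  rintro rfl
  have h2 := (List.nodup_append.1 h).2.1
  rw [List.nodup_cons] at h2
  exact h2.1 (by simp)

private theorem rvT_perm {p : ℕ} (hp : p.Prime) (h5 : 5 ≤ p) {D : Submodule ℤ P} (hD : IsT D)
    (hm : Mul ((p : ℤ) ^ 2) D) (h : ll ∈ D) {n k a b : ℕ} (hkn : k < n) (hb : k ≤ b) {z z' : List ℕ}
    (hz : z.Perm z') (hzn : (z ++ [a, b]).Perm (List.range n)) (hT : rvT D n k z a b []) :
    rvT D n k z' a b [] := by
  refine rv_perm (C := fun z => (z ++ [a, b]).Perm (List.range n) → rvT D n k z a b []) ?_ hz (fun _ => hT)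
    ((hz.symm.append_right _).trans hzn)
  intro u v c d hC hper
  have hp0 : ((u ++ c :: d :: v) ++ [a, b]).Perm (List.range n) :=
    ((List.Perm.append_left u (List.Perm.swap d c v)).append_right _).trans hper
  have hT0 := hC hp0
  have hn : (u ++ c :: d :: (v ++ [a, b])).Nodup := by
    have h1 := hp0.nodup_iff.2 List.nodup_range
    rw [List.append_assoc] at h1
    exact h1
  have hn' : (u ++ c :: d :: (v ++ [b, a])).Nodup := by
    refine (List.Perm.append_left u (List.Perm.cons c (List.Perm.cons d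
      (List.Perm.append_left v (List.Perm.swap a b []))))).nodup_iff.2 ?_
    exact hn
  have hsg := rv_sgl_swap hn _ (rv_U hb)
  have hcb : ∀ e, e ∈ u ++ c :: d :: v → e ≠ b := by
    intro e he heb
    have h1 := hp0.nodup_iff.2 List.nodup_range
    exact (List.nodup_append.1 h1).2.2 e he b (by simp) heb
  have hcb1 := hcb c (by simp)
  have hdb1 := hcb d (by simp)
  have ew : ∀ x y : ℕ, (u ++ x :: y :: v) ++ a :: b :: [] = u ++ x :: y :: (v ++ [a, b]) := by
    intro x y
    rw [List.append_assoc]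
    rfl
  have ew' : ∀ x y : ℕ, (u ++ x :: y :: v) ++ b :: a :: [] = u ++ x :: y :: (v ++ [b, a]) := by
    intro x y
    rw [List.append_assoc]
    rfl
  unfold rvT at hT0 ⊢
  rw [ew] at hT0
  rw [ew, hsg]
  by_cases hcd : c < k ∧ d < k
  · rw [if_pos ⟨rv_memU.2 (Or.inl hcd.1), rv_memU.2 (Or.inl hcd.2)⟩]
    have e1 : rvE n k (mon (u ++ d :: c :: v) * cm a b * mon []) =
        - rvE n k (mon (u ++ c :: d :: v) * cm a b * mon []) := by
      rw [rv_word, rv_word, rvE_sub, rvE_sub, ew, ew', ew, ew', rv_adj hkn hn hcd.1 hcd.2,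
        rv_adj hkn hn' hcd.1 hcd.2]
      abel
    rw [e1]
    refine (congrArg (fun f => f ∈ D) ?_).mp (D.neg_mem hT0)
    rw [neg_one_mul, neg_smul]
    abel
  · have hcU : ¬ (c ∈ List.range k ++ [b] ∧ d ∈ List.range k ++ [b]) := by
      rintro ⟨h1, h2⟩
      rcases rv_memU.1 h1 with h1 | h1
      · rcases rv_memU.1 h2 with h2 | h2
        · exact hcd ⟨h1, h2⟩
        · exact hdb1 h2
      · exact hcb1 h1
    rw [if_neg hcU, one_mul]
    have hdiff : rvE n k (mon u * cm c d * mon v * cm a b) ∈ D := by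
      by_cases hc : c < k
      · have hd : k ≤ d := by
          by_contra hcon
          exact hcd ⟨hc, not_le.1 hcon⟩
        exact rvE_cc hp h5 hD hm h hb hd _ _
      · by_cases hd : d < k
        · have e : mon u * cm c d * mon v * cm a b = -(mon u * cm d c * mon v * cm a b) := by
            have e0 : cm c d = - cm d c := by
              unfold cm
              abel
            rw [e0]
            noncomm_ring
          rw [e, rvE_neg]
          exact D.neg_mem (rvE_cc hp h5 hD hm h hb (not_lt.1 hc) _ _)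
        · have h0 := rvE_kk (n := n) (not_lt.1 hc) (not_lt.1 hd) (mon u) (mon v * cm a b)
          rw [← mul_assoc] at h0
          rw [h0]
          exact D.zero_mem
    have e2 : mon u * cm c d * mon v * cm a b = mon (u ++ c :: d :: v) * cm a b * mon [] -
        mon (u ++ d :: c :: v) * cm a b * mon [] := by
      rw [rv_word u v c d, mon_nil, mul_one, mul_one, sub_mul]
    rw [e2, rvE_sub] at hdiff
    refine (congrArg (fun f => f ∈ D) ?_).mp (D.sub_mem hT0 hdiff)
    abel

private theorem rvT_a {D : Submodule ℤ P} {n k a b c : ℕ} (hkn : k < n) (ha : a < k) (hc : c < k) (hb : k ≤ b)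
    {z : List ℕ} (hn : (z ++ c :: a :: [b]).Nodup) (hT : rvT D n k (z ++ [a]) c b []) :
    rvT D n k (z ++ [c]) a b [] := by
  have hca := rv_ne hn
  have h1 := List.nodup_append.1 hn
  have hcz : c ∉ z := fun h' => h1.2.2 c h' c (by simp) rfl
  have haz : a ∉ z := fun h' => h1.2.2 a h' a (by simp) rfl
  have hsg := rv_sgl_swap hn _ (rv_U hb)
  rw [if_pos ⟨rv_memU.2 (Or.inl hc), rv_memU.2 (Or.inl ha)⟩] at hsg
  have e1 : rvE n k (mon (z ++ [a]) * cm c b * mon []) = - rvE n k (mon (z ++ [c]) * cm a b * mon []) := by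
    rw [rv_word, rv_word, rvE_sub, rvE_sub]
    have e2 := rv_aswap hkn hc ha hca ((z ++ [c]) ++ a :: b :: [])
    have e3 := rv_aswap hkn hc ha hca ((z ++ [c]) ++ b :: a :: [])
    have hbs : Equiv.swap c a b = b := Equiv.swap_apply_of_ne_of_ne (by omega) (by omega)
    rw [List.map_append, List.map_append, rv_mapid hcz haz, List.map_cons, List.map_cons, List.map_nil,
      List.map_cons, List.map_nil, Equiv.swap_apply_left, Equiv.swap_apply_right, hbs] at e2
    rw [List.map_append, List.map_append, rv_mapid hcz haz, List.map_cons, List.map_cons, List.map_nil,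
      List.map_cons, List.map_nil, Equiv.swap_apply_left, Equiv.swap_apply_right, hbs] at e3
    rw [e2, e3]
    abel
  unfold rvT at hT ⊢
  have e4 : (z ++ [a]) ++ c :: b :: [] = z ++ a :: c :: [b] := by
    rw [List.append_assoc]
    rfl
  have e5 : (z ++ [c]) ++ a :: b :: [] = z ++ c :: a :: [b] := by
    rw [List.append_assoc]
    rfl
  rw [e4, hsg, e1] at hT
  rw [e5]
  refine (congrArg (fun f => f ∈ D) ?_).mp (D.neg_mem hT)
  rw [neg_one_mul, neg_smul]
  abel

private theorem rvT_b {D : Submodule ℤ P} {n k a b c : ℕ} (ha : a < k) (hb : k ≤ b) (hc : k ≤ c)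
    (hbn : b < n) (hcn : c < n) {z : List ℕ} (hT : rvT D n k (z.map (Equiv.swap b c)) a c []) :
    rvT D n k z a b [] := by
  have has : Equiv.swap b c a = a := Equiv.swap_apply_of_ne_of_ne (by omega) (by omega)
  have e1 : rvE n k (mon (z.map (Equiv.swap b c)) * cm a c * mon []) = rvE n k (mon z * cm a b * mon []) := by
    rw [rv_word, rv_word, rvE_sub, rvE_sub]
    have e2 := rv_sswap hb hc hbn hcn (z ++ a :: b :: [])
    have e3 := rv_sswap hb hc hbn hcn (z ++ b :: a :: [])
    rw [List.map_append, List.map_cons, List.map_cons, List.map_nil, Equiv.swap_apply_left, has] at e2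
    rw [List.map_append, List.map_cons, List.map_cons, List.map_nil, Equiv.swap_apply_left, has] at e3
    rw [e2, e3]
  have e2 := rv_sgl_map (Equiv.swap b c).injective (z ++ a :: b :: []) (List.range k ++ [b])
  have e3 : (List.range k).map (Equiv.swap b c) = List.range k :=
    rv_mapid (fun h' => by rw [List.mem_range] at h'; omega) (fun h' => by rw [List.mem_range] at h'; omega)
  rw [List.map_append, List.map_cons, List.map_cons, List.map_nil, List.map_append, List.map_cons, List.map_nil,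
    Equiv.swap_apply_left, has, e3] at e2
  unfold rvT at hT ⊢
  rw [e1, e2] at hT
  exact hT

private theorem rv_via {n k : ℕ} (hk : k ≤ n) (G : Equiv.Perm (Fin n) → P) :
    ∑ σ ∈ aF n k, G σ = ∑ τ : Equiv.Perm (Fin k), G (τ.viaFintypeEmbedding (Fin.castLEEmb hk)) := by
  have hinj : Function.Injective
      (fun τ : Equiv.Perm (Fin k) => τ.viaFintypeEmbedding (Fin.castLEEmb hk)) := by
    intro τ τ' h
    ext i
    have h1 := DFunLike.congr_fun h (Fin.castLEEmb hk i)
    simp only [Equiv.Perm.viaFintypeEmbedding_apply_image] at h1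
    have h2 := (Fin.castLEEmb hk).injective h1
    rw [h2]
  have him : Finset.univ.image
      (fun τ : Equiv.Perm (Fin k) => τ.viaFintypeEmbedding (Fin.castLEEmb hk)) = aF n k := by
    refine Finset.eq_of_subset_of_card_le ?_ ?_
    · intro σ hσ
      rw [Finset.mem_image] at hσ
      obtain ⟨τ, _, rfl⟩ := hσ
      unfold aF
      rw [Finset.mem_filter]
      refine ⟨Finset.mem_univ _, fun i hi => Equiv.Perm.viaFintypeEmbedding_apply_notMem_range _ _ ?_⟩
      rintro ⟨j, rfl⟩
      have h2 : k ≤ j.val := hi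
      have h3 := j.2
      omega
    · rw [Finset.card_image_of_injective _ hinj, Finset.card_univ, Fintype.card_perm, Fintype.card_fin, card_aF hk]
  rw [← him, Finset.sum_image (fun a _ b _ h => hinj h)]

private theorem rv_via_map {n k : ℕ} (hk : k ≤ n) (τ : Equiv.Perm (Fin k)) :
    ((List.range k).map (pN n (τ.viaFintypeEmbedding (Fin.castLEEmb hk)))).map (fun i => min i k) =
      List.ofFn (fun i : Fin k => ((τ i : Fin k) : ℕ)) := by
  apply List.ext_getElem
  · simp
  · intro i h1 h2
    rw [List.getElem_map, List.getElem_map, List.getElem_range, List.getElem_ofFn]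
    have hi : i < k := by simpa using h1
    have h3 : pN n (τ.viaFintypeEmbedding (Fin.castLEEmb hk)) i = (τ ⟨i, hi⟩ : Fin k) := by
      unfold pN
      rw [dif_pos (lt_of_lt_of_le hi hk)]
      have h := Equiv.Perm.viaFintypeEmbedding_apply_image τ (Fin.castLEEmb hk) ⟨i, hi⟩
      exact congrArg Fin.val h
    rw [h3]
    exact min_eq_left (τ ⟨i, hi⟩).2.le

private theorem rv_ofFn {k : ℕ} (τ : Equiv.Perm (Fin k)) :
    List.ofFn (fun i : Fin k => X (τ i)) = (List.ofFn (fun i : Fin k => ((τ i : Fin k) : ℕ))).map X := by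
  rw [List.map_ofFn]
  rfl

private theorem rv_take {n k : ℕ} (hk : k ≤ n) (τ : Equiv.Perm (Fin k)) (j : ℕ) :
    col k (rn n (τ.viaFintypeEmbedding (Fin.castLEEmb hk)) (mon ((List.range k).take j))) =
      ((List.ofFn (fun i : Fin k => X (τ i))).take j).prod := by
  rw [rn_mon, col_mon, List.map_take, List.map_take, rv_via_map, rv_ofFn, ← List.map_take]
  rfl

private theorem rv_drop {n k : ℕ} (hk : k ≤ n) (τ : Equiv.Perm (Fin k)) (j : ℕ) :
    col k (rn n (τ.viaFintypeEmbedding (Fin.castLEEmb hk)) (mon ((List.range k).drop j))) =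
      ((List.ofFn (fun i : Fin k => X (τ i))).drop j).prod := by
  rw [rn_mon, col_mon, List.map_drop, List.map_drop, rv_via_map, rv_ofFn, ← List.map_drop]
  rfl

private theorem rv_full {n k : ℕ} (hk : k ≤ n) (τ : Equiv.Perm (Fin k)) :
    col k (rn n (τ.viaFintypeEmbedding (Fin.castLEEmb hk)) (mon (List.range k))) =
      (List.ofFn (fun i : Fin k => X (τ i))).prod := by
  rw [rn_mon, col_mon, rv_via_map, rv_ofFn]
  rfl

private theorem rv_high {n k : ℕ} {σ : Equiv.Perm (Fin n)} (hσ : σ ∈ aF n k) : ∀ L : List ℕ, (∀ i ∈ L, k ≤ i) →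
    col k (rn n σ (mon L)) = X k ^ L.length := by
  intro L
  induction L with
  | nil =>
    intro _
    rw [mon_nil, map_one, map_one]
    rfl
  | cons a L ih =>
    intro h
    rw [mon_cons, map_mul, map_mul, ih (fun i hi => h i (List.mem_cons_of_mem _ hi)), rv_rnX, rv_colX,
      rv_aF hσ (h a (by simp)), min_eq_right (h a (by simp)), List.length_cons, pow_succ']

private theorem rv_V1 {n k : ℕ} (hk : k ≤ n) {L : List ℕ} (hL : ∀ i ∈ L, k ≤ i) (hl : L.length = n - k) :
    rvE n k (mon (List.range k ++ L)) = V1 k (n - k) := by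
  have h1 : rvE n k (mon (List.range k ++ L)) = ∑ σ ∈ aF n k, ((Equiv.Perm.sign σ : ℤˣ) : ℤ) •
      (col k (rn n σ (mon (List.range k))) * X k ^ (n - k)) := by
    rw [rvE_sum]
    refine Finset.sum_congr rfl fun σ hσ => ?_
    rw [mon_append, map_mul, map_mul, rv_high hσ L hL, hl]
  rw [h1, rv_via hk]
  unfold V1 St
  rw [Finset.sum_mul]
  refine Finset.sum_congr rfl fun τ _ => ?_
  rw [rv_full, Equiv.Perm.viaFintypeEmbedding_sign, smul_mul_assoc]

private theorem rv_V2 {n k : ℕ} (hk : k ≤ n) {L A B : List ℕ} (hL : ∀ i ∈ L, k ≤ i) (hl : L.length = n - k - 1)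
    (hA : A = (List.range k).take (k - 1)) (hB : B = (List.range k).drop (k - 1)) :
    rvE n k (mon A * (mon B * X k - X k * mon B) * mon L) = V2 k (n - k) := by
  have h1 : rvE n k (mon A * (mon B * X k - X k * mon B) * mon L) =
      ∑ σ ∈ aF n k, ((Equiv.Perm.sign σ : ℤˣ) : ℤ) •
      (col k (rn n σ (mon A)) * (col k (rn n σ (mon B)) * X k - X k * col k (rn n σ (mon B))) *
        X k ^ (n - k - 1)) := by
    rw [rvE_sum]
    refine Finset.sum_congr rfl fun σ hσ => ?_
    rw [map_mul, map_mul, map_mul, map_mul, rv_high hσ L hL, hl, map_sub, map_sub, map_mul, map_mul, map_mul,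
      map_mul, rv_rnX, rv_aF hσ (le_refl k), rv_colX, min_self]
  rw [h1, rv_via hk]
  unfold V2 St'
  rw [Finset.sum_mul]
  refine Finset.sum_congr rfl fun τ _ => ?_
  rw [hA, hB, rv_take, rv_drop, Equiv.Perm.viaFintypeEmbedding_sign, smul_mul_assoc]

private theorem rv_pw {k s : ℕ} (hs : k ≤ s) : (List.range k ++ [s]).Pairwise (· < ·) := by
  rw [List.pairwise_append]
  refine ⟨List.pairwise_lt_range, List.pairwise_singleton _ _, ?_⟩
  intro x hx y hy
  rw [List.mem_range] at hx
  rw [List.mem_singleton] at hy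
  omega

private theorem rv_sg {n k s : ℕ} (hk : k ≤ s) (hs : s < n) : sgl (List.range n) (List.range k ++ [s]) = 1 := by
  refine rv_sorted _ (rv_pw hk) fun x hx => ?_
  rcases rv_memU.1 hx with h | h <;> omega

private theorem rvT_base {p : ℕ} {D : Submodule ℤ P} (hD : IsT D) (hm : Mul ((p : ℤ) ^ 2) D) (h : ll ∈ D)
    {n k : ℕ} (h1 : 1 ≤ k) (hk : k < n) : ∃ z : List ℕ, (z ++ [k - 1, k]).Perm (List.range n) ∧
      rvT D n k z (k - 1) k [] := by
  obtain ⟨j, rfl⟩ : ∃ j, k = j + 1 := ⟨k - 1, by omega⟩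
  obtain ⟨m, rfl⟩ : ∃ m, n = j + 2 + m := ⟨n - (j + 2), by omega⟩
  have hr : List.range (j + 2 + m) = List.range j ++ j :: (j + 1) :: (List.range m).map (fun i => j + 2 + i) := by
    rw [List.range_add, List.range_succ, List.range_succ, List.append_assoc, List.append_assoc]
    rfl
  have hper : ((List.range j ++ (List.range m).map (fun i => j + 2 + i)) ++ [j, j + 1]).Perm
      (List.range (j + 2 + m)) := by
    rw [hr, List.append_assoc]
    refine List.Perm.append_left _ ?_
    exact List.perm_append_comm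
  refine ⟨List.range j ++ (List.range m).map (fun i => j + 2 + i), hper, ?_⟩
  have hnd : (List.range j ++ j :: (j + 1) :: (List.range m).map (fun i => j + 2 + i)).Nodup := by
    rw [← hr]
    exact List.nodup_range
  refine (rvT_all hD hm h (by omega) (le_refl _) ((List.range m).map (fun i => j + 2 + i)) (List.range j) hnd).2 ?_
  unfold rvT
  have e0 : j + 1 - 1 = j := by omega
  have e1 : mon (List.range j) * cm j (j + 1) * mon ((List.range m).map (fun i => j + 2 + i)) =
      mon (List.range j) * (mon [j] * X (j + 1) - X (j + 1) * mon [j]) *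
        mon ((List.range m).map (fun i => j + 2 + i)) := by
    rw [mon_single]
    rfl
  rw [← hr, rv_sg (le_refl _) (by omega), e1, rv_V2 (by omega) ?_ ?_ ?_ ?_, one_smul, sub_self]
  · exact D.zero_mem
  · intro i hi
    rw [List.mem_map] at hi
    obtain ⟨x, _, rfl⟩ := hi
    omega
  · rw [List.length_map, List.length_range]
    omega
  · rw [e0, List.range_succ, List.take_left' (by rw [List.length_range])]
  · rw [e0, List.range_succ, List.drop_left' (by rw [List.length_range])]

private theorem rvT_main {p : ℕ} (hp : p.Prime) (h5 : 5 ≤ p) {D : Submodule ℤ P} (hD : IsT D)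
    (hm : Mul ((p : ℤ) ^ 2) D) (h : ll ∈ D) {n k : ℕ} (h1 : 1 ≤ k) (hk : k < n) {u v : List ℕ} {a b : ℕ}
    (ha : a < k) (hb : k ≤ b) (hw : (u ++ a :: b :: v).Perm (List.range n)) : rvT D n k u a b v := by
  have hbn : b < n := rv_lt hw (by simp)
  have hnd := hw.nodup_iff.2 List.nodup_range
  refine (rvT_all hD hm h ha hb v u hnd).1 ?_
  have hz : ((u ++ v) ++ [a, b]).Perm (List.range n) := by
    refine List.Perm.trans ?_ hw
    rw [List.append_assoc]
    exact List.Perm.append_left u List.perm_append_comm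
  generalize u ++ v = z at hz
  clear hnd hw u v
  -- change of `b`
  refine rvT_b ha hb (le_refl k) hbn hk ?_
  have has : Equiv.swap b k a = a := Equiv.swap_apply_of_ne_of_ne (by omega) (by omega)
  have hz2 : (z.map (Equiv.swap b k) ++ [a, k]).Perm (List.range n) := by
    have h2 := perm_map (Equiv.swap (⟨b, hbn⟩ : Fin n) ⟨k, hk⟩) hz
    have h3 : (z ++ [a, b]).map (pN n (Equiv.swap (⟨b, hbn⟩ : Fin n) ⟨k, hk⟩)) = (z ++ [a, b]).map (Equiv.swap b k) :=
      List.map_congr_left fun i _ => rv_pswap _ _ i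
    rw [h3, List.map_append, List.map_cons, List.map_cons, List.map_nil, has, Equiv.swap_apply_left] at h2
    exact h2
  generalize z.map (Equiv.swap b k) = y at hz2
  clear hz has z
  obtain ⟨z0, hz0, hT0⟩ := rvT_base (n := n) (k := k) hD hm h h1 hk
  have key : ∀ y : List ℕ, (y ++ [k - 1, k]).Perm (List.range n) → rvT D n k y (k - 1) k [] := by
    intro y hy
    refine rvT_perm hp h5 hD hm h hk (le_refl k) ?_ hz0 hT0
    exact (List.perm_append_right_iff _).1 (hz0.trans hy.symm)
  by_cases hak : a = k - 1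
  · subst hak
    exact key y hz2
  · have hmem : k - 1 ∈ y := by
      have h2 : k - 1 ∈ y ++ [a, k] := hz2.mem_iff.2 (List.mem_range.2 (by omega))
      rw [List.mem_append] at h2
      rcases h2 with h2 | h2
      · exact h2
      · rw [List.mem_cons, List.mem_singleton] at h2
        omega
    have hp1 : ((y.erase (k - 1)) ++ [k - 1]).Perm y :=
      (List.perm_append_comm).trans (List.perm_cons_erase hmem).symm
    have hp2 : (((y.erase (k - 1)) ++ [k - 1]) ++ [a, k]).Perm (List.range n) :=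
      (hp1.append_right _).trans hz2
    refine rvT_perm hp h5 hD hm h hk (le_refl k) hp1 hp2 ?_
    have hp3 : ((y.erase (k - 1)) ++ (k - 1) :: a :: [k]).Perm (List.range n) := by
      have h2 := hp2
      rw [List.append_assoc] at h2
      exact h2
    refine rvT_a hk ha (by omega) (le_refl k) (hp3.nodup_iff.2 List.nodup_range) (key _ ?_)
    rw [List.append_assoc]
    exact (List.Perm.append_left _ (List.Perm.swap (k - 1) a [k])).trans hp3

/-- the difference of the two sides for the word `w` -/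
private noncomputable def rvF (n k : ℕ) (w : List ℕ) : P :=
  (2 : ℤ) • rvE n k (mon w) - ((2 * sgl w (List.range k)) • V1 k (n - k) +
    ((∑ s ∈ Finset.Ico k n, sgl w (List.range k ++ [s])) - ((n - k : ℕ) : ℤ) * sgl w (List.range k)) • V2 k (n - k))

private theorem rv_sgk {n k a b : ℕ} {u v : List ℕ} (hw : (u ++ a :: b :: v).Perm (List.range n))
    (hb : k ≤ b) : sgl (u ++ b :: a :: v) (List.range k) = sgl (u ++ a :: b :: v) (List.range k) := by
  rw [rv_sgl_swap (hw.nodup_iff.2 List.nodup_range) _ List.nodup_range]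
  have hc : ¬ (a ∈ List.range k ∧ b ∈ List.range k) := by
    rintro ⟨_, h2⟩
    rw [List.mem_range] at h2
    omega
  rw [if_neg hc, one_mul]

private theorem rvF_mixed {p : ℕ} (hp : p.Prime) (h5 : 5 ≤ p) {D : Submodule ℤ P} (hD : IsT D)
    (hm : Mul ((p : ℤ) ^ 2) D) (h : ll ∈ D) {n k : ℕ} (h1 : 1 ≤ k) (hk : k < n) {u v : List ℕ} {a b : ℕ}
    (ha : a < k) (hb : k ≤ b) (hw : (u ++ a :: b :: v).Perm (List.range n)) :
    rvF n k (u ++ a :: b :: v) - rvF n k (u ++ b :: a :: v) ∈ D := by
  have hnd := hw.nodup_iff.2 List.nodup_range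
  have hbn : b < n := rv_lt hw (by simp)
  have hT := rvT_main hp h5 hD hm h h1 hk ha hb hw
  unfold rvT at hT
  rw [rv_word, rvE_sub] at hT
  have h2 := rv_sgk hw hb
  have h3 : ∑ s ∈ Finset.Ico k n, sgl (u ++ b :: a :: v) (List.range k ++ [s]) =
      (∑ s ∈ Finset.Ico k n, sgl (u ++ a :: b :: v) (List.range k ++ [s])) -
        2 * sgl (u ++ a :: b :: v) (List.range k ++ [b]) := by
    have h4 : ∀ s ∈ Finset.Ico k n, sgl (u ++ b :: a :: v) (List.range k ++ [s]) =
        sgl (u ++ a :: b :: v) (List.range k ++ [s]) -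
          (if s = b then 2 * sgl (u ++ a :: b :: v) (List.range k ++ [s]) else 0) := by
      intro s hs
      rw [Finset.mem_Ico] at hs
      rw [rv_sgl_swap hnd _ (rv_U hs.1)]
      by_cases hsb : s = b
      · subst hsb
        rw [if_pos ⟨rv_memU.2 (Or.inl ha), rv_memU.2 (Or.inr rfl)⟩, if_pos rfl]
        ring
      · have hc : ¬ (a ∈ List.range k ++ [s] ∧ b ∈ List.range k ++ [s]) := by
          rintro ⟨_, h5⟩
          rcases rv_memU.1 h5 with h5 | h5 <;> omega
        rw [if_neg hc, if_neg hsb]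
        ring
    rw [Finset.sum_congr rfl h4, Finset.sum_sub_distrib, Finset.sum_ite_eq', if_pos (Finset.mem_Ico.2 ⟨hb, hbn⟩)]
  unfold rvF
  rw [h2, h3]
  refine (congrArg (fun f => f ∈ D) ?_).mp (D.smul_mem (2 : ℤ) hT)
  module

private theorem rvF_step {p : ℕ} (hp : p.Prime) (h5 : 5 ≤ p) {D : Submodule ℤ P} (hD : IsT D)
    (hm : Mul ((p : ℤ) ^ 2) D) (h : ll ∈ D) {n k : ℕ} (h1 : 1 ≤ k) (hk : k < n) {u v : List ℕ} {a b : ℕ}
    (hw : (u ++ a :: b :: v).Perm (List.range n)) (hF : rvF n k (u ++ a :: b :: v) ∈ D) :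
    rvF n k (u ++ b :: a :: v) ∈ D := by
  have hnd := hw.nodup_iff.2 List.nodup_range
  have hw' : (u ++ b :: a :: v).Perm (List.range n) :=
    (List.Perm.append_left u (List.Perm.swap a b v)).trans hw
  have hab := rv_ne hnd
  rcases Nat.lt_or_ge a k with ha | ha
  · rcases Nat.lt_or_ge b k with hb | hb
    · have e1 : sgl (u ++ b :: a :: v) (List.range k) = - sgl (u ++ a :: b :: v) (List.range k) := by
        rw [rv_sgl_swap hnd _ List.nodup_range, if_pos ⟨List.mem_range.2 ha, List.mem_range.2 hb⟩]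
        ring
      have e2 : ∑ s ∈ Finset.Ico k n, sgl (u ++ b :: a :: v) (List.range k ++ [s]) =
          - ∑ s ∈ Finset.Ico k n, sgl (u ++ a :: b :: v) (List.range k ++ [s]) := by
        rw [← Finset.sum_neg_distrib]
        refine Finset.sum_congr rfl fun s hs => ?_
        rw [Finset.mem_Ico] at hs
        rw [rv_sgl_swap hnd _ (rv_U hs.1), if_pos ⟨rv_memU.2 (Or.inl ha), rv_memU.2 (Or.inl hb)⟩]
        ring
      unfold rvF at hF ⊢
      rw [rv_adj hk hnd ha hb, e1, e2]
      refine (congrArg (fun f => f ∈ D) ?_).mp (D.neg_mem hF)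
      module
    · have h2 := rvF_mixed hp h5 hD hm h h1 hk ha hb hw
      refine (congrArg (fun f => f ∈ D) ?_).mp (D.sub_mem hF h2)
      abel
  · rcases Nat.lt_or_ge b k with hb | hb
    · have h2 := rvF_mixed hp h5 hD hm h h1 hk hb ha hw'
      refine (congrArg (fun f => f ∈ D) ?_).mp (D.add_mem hF h2)
      abel
    · have e1 := rv_sgk hw hb
      have e2 : ∑ s ∈ Finset.Ico k n, sgl (u ++ b :: a :: v) (List.range k ++ [s]) =
          ∑ s ∈ Finset.Ico k n, sgl (u ++ a :: b :: v) (List.range k ++ [s]) := by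
        refine Finset.sum_congr rfl fun s hs => ?_
        rw [Finset.mem_Ico] at hs
        rw [rv_sgl_swap hnd _ (rv_U hs.1)]
        have hc : ¬ (a ∈ List.range k ++ [s] ∧ b ∈ List.range k ++ [s]) := by
          rintro ⟨h4, h5⟩
          rcases rv_memU.1 h4 with h4 | h4 <;> rcases rv_memU.1 h5 with h5 | h5 <;> omega
        rw [if_neg hc, one_mul]
      have e3 := rvE_kk (n := n) ha hb (mon u) (mon v)
      rw [rv_word, rvE_sub, sub_eq_zero] at e3
      unfold rvF at hF ⊢
      rw [e1, e2, ← e3]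
      exact hF

private theorem rvF_range {n k : ℕ} (hk : k < n) : rvF n k (List.range n) = 0 := by
  have e1 : rvE n k (mon (List.range n)) = V1 k (n - k) := by
    have hr : List.range n = List.range k ++ (List.range (n - k)).map (fun i => k + i) := by
      rw [← List.range_add]
      congr 1
      omega
    rw [hr]
    refine rv_V1 hk.le ?_ ?_
    · intro i hi
      rw [List.mem_map] at hi
      obtain ⟨x, _, rfl⟩ := hi
      omega
    · rw [List.length_map, List.length_range]
  have e2 : sgl (List.range n) (List.range k) = 1 :=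
    rv_sorted _ List.pairwise_lt_range fun x hx => (List.mem_range.1 hx).trans hk
  have e3 : ∑ s ∈ Finset.Ico k n, sgl (List.range n) (List.range k ++ [s]) = ((n - k : ℕ) : ℤ) := by
    rw [Finset.sum_congr rfl (g := fun _ => (1 : ℤ))
      (fun s hs => rv_sg (Finset.mem_Ico.1 hs).1 (Finset.mem_Ico.1 hs).2), Finset.sum_const, Nat.card_Ico]
    simp
  unfold rvF
  rw [e1, e2, e3]
  module

private theorem rvF_all {p : ℕ} (hp : p.Prime) (h5 : 5 ≤ p) {D : Submodule ℤ P} (hD : IsT D)
    (hm : Mul ((p : ℤ) ^ 2) D) (h : ll ∈ D) {n k : ℕ} (h1 : 1 ≤ k) (hk : k < n) {w : List ℕ}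
    (hw : w.Perm (List.range n)) : rvF n k w ∈ D := by
  refine rv_perm (C := fun w => w.Perm (List.range n) → rvF n k w ∈ D) ?_ hw.symm ?_ hw
  · intro u v a b hC hper
    have hw1 : (u ++ a :: b :: v).Perm (List.range n) :=
      (List.Perm.append_left u (List.Perm.swap b a v)).trans hper
    exact rvF_step hp h5 hD hm h h1 hk hw1 (hC hw1)
  · intro _
    rw [rvF_range hk]
    exact D.zero_mem


theorem RV {p : ℕ} (hp : p.Prime) (h5 : 5 ≤ p) {D : Submodule ℤ P} (hD : IsT D) (hm : Mul ((p : ℤ) ^ 2) D)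
    (h : ll ∈ D) {n k : ℕ} (h1 : 1 ≤ k) (hk : k < n) {f : P} (hf : f ∈ Ml n) :
    (2 : ℤ) • col k (aP n k f) - ((2 * gA k f) • V1 k (n - k) +
      (gB n k f - ((n - k : ℕ) : ℤ) * gA k f) • V2 k (n - k)) ∈ D := by
  refine Ml_ind (C := fun f => (2 : ℤ) • col k (aP n k f) - ((2 * gA k f) • V1 k (n - k) +
      (gB n k f - ((n - k : ℕ) : ℤ) * gA k f) • V2 k (n - k)) ∈ D) ?_ ?_ ?_ ?_ hf
  · rw [map_zero, map_zero, map_zero, map_zero]
    refine (congrArg (fun f => f ∈ D) ?_).mp D.zero_mem
    module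
  · intro f g hf hg
    rw [map_add, map_add, map_add, map_add]
    refine (congrArg (fun f => f ∈ D) ?_).mp (D.add_mem hf hg)
    module
  · intro c f hf
    rw [map_smul, map_zsmul, map_smul, map_smul, smul_eq_mul, smul_eq_mul]
    refine (congrArg (fun f => f ∈ D) ?_).mp (D.smul_mem c hf)
    module
  · intro w hw
    have h2 := rvF_all hp h5 hD hm h h1 hk hw
    unfold rvF rvE at h2
    unfold gA gB
    rw [lm_mon, lm_mon]
    exact h2

theorem RVl {p : ℕ} (hp : p.Prime) (h5 : 5 ≤ p) {D : Submodule ℤ P} (hD : IsT D) (hm : Mul ((p : ℤ) ^ 2) D)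
    (h : ll ∈ D) {n k : ℕ} (h1 : 1 ≤ k) (hk : k < n) {f : P} (hf : f ∈ Ml n) :
    (2 : ℤ) • sP n k (aP n k f) - vv n k (gA k f) (gB n k f) ∈ D := by
  have h2 := RV hp h5 hD hm h h1 hk hf
  have h3 := TOp_linP p n k D hD hm _ h2
  rw [map_sub, map_add, map_smul, map_smul, map_smul, linP_col hk (Ml_aP k hf)] at h3
  exact h3

theorem vv_lin (n k : ℕ) (A B A' B' c : ℤ) :
    vv n k (A + A') (B + B') = vv n k A B + vv n k A' B' ∧ vv n k (c * A) (c * B) = c • vv n k A B := by
  unfold vv
  constructor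
  · module
  · module

theorem vv_Ml {n k : ℕ} (h1 : 1 ≤ k) (hk : k < n) (A B : ℤ) : vv n k A B ∈ Ml n := by
  unfold vv
  exact Submodule.add_mem _ (Submodule.smul_mem _ _ (linP_V1 hk)) (Submodule.smul_mem _ _ (linP_V2 h1 hk))

end ADC
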