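import Pool.Agent.ADC.Npn
import Pool.Agent.ADC.RV
import Pool.Agent.ADC.FunC
import Pool.Agent.ADC.GrpA

/-!
# ADC-CoreEv

`n = p`, `k` even, `2 ≤ k < p`, `N = p - k`, `T = sP p k ∘ aP p k`, `v(α,β) = vv p k α β` (linear in `(α,β)`, `vv_lin`), `ll ∈ I`, so
`2 T g ≡ v(gA g, gB g)` modulo `I` for `g ∈ Ml p` (`RVl` for `D := I`; `p^2 Pp ≤ I`).  Let `a1 = rn p σ a`, `b1 = rn p σ b`,
`α = gA a1`, `β = gB a1`, `α' = gA b1`, `β' = gB b1`.  `Θ = T ∘ aP p (k+1) ∘ T`: T-operator, and by `theta` and `g_aP`, `g_sP`: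
`2 N Θ g ≡ N v(gA(aP (k+1) (T g)), gB(..)) = k! gB(T g) v(1, p) = (k!)^2 N! gB(g) v(1,p)`.
Let `v0 = v(1,p)`.  As `2 N` is prime to `p`, `Θ g ∈ I ⊔ ℤ v0` for all `g ∈ Ml p`; so (`Pr.np` for `h.rn σ`, `Pr.snd`)
`Θ a1 ∈ I`, `Θ b1 ∈ I`, and since `(k!)^2 N!` is prime to `p`: (*) `β v0 ∈ I`, `β' v0 ∈ I`.

* `coreEvP` (`p Pp ≤ I`): suppose `T a1 ∉ I`.  If `v0 ∉ I` then `p ∣ β`, `p ∣ β'`, so `2 T a1 ≡ v(α, 0) ≡ α v(1,0) ≡ α v0`,
  `2 T b1 ≡ α' v0` modulo `I`: `Lk.np`.  If `v0 ∈ I`: `v(α,β) = α v0 + (β - pα) v(0,1) ≡ β v(0,1)`, same for `b1`: `Lk.np`.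
* `coreEvQ`: hypotheses `A ≤ J`, `B ⊓ J ≤ I`, and `f ∈ Ml p ∩ I` with not (`p ∣ gA f` and `p² ∣ gB f`).  Suppose `T a1 ∉ I`; then
  `T b1 ∉ I` (`Lk.iff`) and `T b1 ∈ B`, so `T b1 ∉ J`.  `v(α,β) = α v0 + (β - pα) v(0,1)`.
  (s3) `v0 ∈ I`: `2 T a1, 2 T b1 ∈ I ⊔ ℤ v(0,1)`: `Lk.np`, contradiction.
  (s1) `p v0 ∉ I`: by (*) `p² ∣ β`, `p² ∣ β'` (if `β = p^e u` with `e ≤ 1`, `p ∤ u`, then `p^e v0 ∈ I` by `cancel`, so `p v0 ∈ I`).
       Then `2 T a1 ≡ v(α, 0) = α v(1,0)`, `2 T b1 ≡ α' v(1,0)`: `Lk.np`.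
  (s2) `v0 ∉ I`, `p v0 ∈ I`: by (*) `p ∣ β`, `p ∣ β'`.  `v0 ∉ J`: otherwise `2 T b1 ≡ α' v0 + (β' - pα') v(0,1) ∈ J` (`p Pp ≤ J`), so
       `T b1 ∈ J`.  `T a1 ∈ A ≤ J`: `α v0 ∈ J`, so `p ∣ α` (`p Pp ≤ J`, `v0 ∉ J`), and `α v0 ∈ I`:
       `2 T a1 ≡ (β - pα) v(0,1)` with `p ∣ β - pα`.  So `p v(0,1) ∉ I` (otherwise `T a1 ∈ I`).  Now `f ∈ I`: `T f ∈ I`, so
       `v(α₁, β₁) = α₁ v0 + (β₁ - p α₁) v(0,1) ∈ I`, `α₁ = gA f`, `β₁ = gB f`.  If `p ∤ β₁`: multiply by `p`: `p v0 ∈ I`, `p² v(0,1) ∈ I`: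
       `p β₁ v(0,1) ∈ I`, `p v(0,1) ∈ I`, contradiction.  If `p ∣ β₁`, `p ∤ α₁`: `α₁ v0 ∈ I ⊔ p Pp ≤ J`, `v0 ∈ J`, contradiction.  If `p ∣ α₁`,
       `p ∣ β₁`, `p² ∤ β₁`: `α₁ v0 ∈ I`, `p² ∣ p α₁`, so `β₁ v(0,1) ∈ I`, `p v(0,1) ∈ I`, contradiction.
-/

namespace ADC

open AD ADN

private theorem ce_fac {p : ℕ} (hp : p.Prime) {m : ℕ} (hm : m < p) : ¬ (p : ℤ) ∣ (m.factorial : ℤ) := by
  intro h
  have h1 : p ∣ m.factorial := by exact_mod_cast h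
  exact absurd ((Nat.Prime.dvd_factorial hp).1 h1) (by omega)

private theorem ce_small {p : ℕ} {m : ℕ} (h1 : 1 ≤ m) (hm : m < p) : ¬ (p : ℤ) ∣ (m : ℤ) := by
  intro h
  have h2 : p ∣ m := by exact_mod_cast h
  exact absurd (Nat.le_of_dvd (by omega) h2) (by omega)

private theorem ce_mul {p : ℕ} (hp : p.Prime) {a b : ℤ} (ha : ¬ (p : ℤ) ∣ a) (hb : ¬ (p : ℤ) ∣ b) : ¬ (p : ℤ) ∣ a * b := by
  intro h
  rcases (Nat.prime_iff_prime_int.1 hp).dvd_or_dvd h with h1 | h1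
  · exact ha h1
  · exact hb h1

private theorem ce_two {p : ℕ} (h5 : 5 ≤ p) : ¬ (p : ℤ) ∣ 2 := by
  intro h6
  have h7 := Int.le_of_dvd (by norm_num) h6
  omega

/-- the decomposition of `vv` -/
private theorem ce_vv (p k : ℕ) (α β c : ℤ) :
    vv p k α β = α • vv p k 1 c + (β - c * α) • vv p k 0 1 := by
  have h1 := (vv_lin p k 1 c 0 0 α).2
  have h2 := (vv_lin p k 0 1 0 0 (β - c * α)).2
  have h3 := (vv_lin p k (α * 1) (α * c) ((β - c * α) * 0) ((β - c * α) * 1) 0).1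
  rw [← h1, ← h2, ← h3]
  congr 1
  · ring
  · ring

private noncomputable def ceT (p k : ℕ) : P →ₗ[ℤ] P := (sP p k).comp (aP p k)

private theorem ceT_TOp (p k : ℕ) : TOp p (ceT p k) := (TOp_sP p p k).comp (TOp_aP p p k)

private theorem ceT_Ml {p : ℕ} (k : ℕ) {f : P} (hf : f ∈ Ml p) : ceT p k f ∈ Ml p := Ml_sP k (Ml_aP k hf)

/-- the first step -/
private theorem ce_star {p : ℕ} {I J A B C : Submodule ℤ P} {q : ℤ} {a b t : P}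
    (h : Pr p I J A B C p q a b t) (hl : ll ∈ I) {k : ℕ} (h2 : k % 2 = 0) (h1 : 1 ≤ k) (hk : k < p) :
    gB p k a • vv p k 1 p ∈ I ∧ gB p k b • vv p k 1 p ∈ I := by
  have hp := h.bJ.pp
  have h5 := h.bJ.five
  have hv0 : vv p k 1 p ∈ Pp := Ml_Pp h.pos (vv_Ml h1 hk 1 p)
  -- `Θ`
  let Θ : P →ₗ[ℤ] P := (ceT p k).comp ((aP p (k + 1)).comp (ceT p k))
  have hΘT : TOp p Θ := (ceT_TOp p k).comp ((TOp_aP p p (k + 1)).comp (ceT_TOp p k))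
  have hΘM : ∀ f ∈ Ml p, Θ f ∈ Ml p := fun f hf => ceT_Ml k (Ml_aP (k + 1) (ceT_Ml k hf))
  have key : ∀ g ∈ Ml p, (2 * ((p - k : ℕ) : ℤ)) • Θ g -
      ((k.factorial : ℤ) * (((p - k).factorial : ℤ) * ((k.factorial : ℤ) * gB p k g))) • vv p k 1 p ∈ I := by
    intro g hg
    have hy : aP p (k + 1) (ceT p k g) ∈ Ml p := Ml_aP (k + 1) (ceT_Ml k hg)
    have e1 := RVl hp h5 h.hI h.p2 hl h1 hk hy
    obtain ⟨t1, t2⟩ := theta hk h2 hg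
    have t3 := (g_sP hk.le (Ml_aP k hg)).2
    have t4 := (g_aP hk.le hg).2
    rw [t4] at t3
    rw [t3] at t1 t2
    have e2 := I.smul_mem ((p - k : ℕ) : ℤ) e1
    have e3 : vv p k (((p - k : ℕ) : ℤ) * gA k (aP p (k + 1) (ceT p k g)))
        (((p - k : ℕ) : ℤ) * gB p k (aP p (k + 1) (ceT p k g))) =
        ((p - k : ℕ) : ℤ) • vv p k (gA k (aP p (k + 1) (ceT p k g))) (gB p k (aP p (k + 1) (ceT p k g))) :=
      (vv_lin p k _ _ 0 0 _).2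
    have e4 : vv p k (((p - k : ℕ) : ℤ) * gA k (aP p (k + 1) (ceT p k g)))
        (((p - k : ℕ) : ℤ) * gB p k (aP p (k + 1) (ceT p k g))) =
        ((k.factorial : ℤ) * (((p - k).factorial : ℤ) * ((k.factorial : ℤ) * gB p k g))) • vv p k 1 p := by
      rw [← (vv_lin p k 1 p 0 0 _).2]
      congr 1
      · rw [mul_one]
        exact t1
      · refine t2.trans ?_
        ring
    rw [smul_sub, ← e3, e4, smul_smul, mul_comm ((p - k : ℕ) : ℤ) 2] at e2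
    exact e2
  have hN : ¬ (p : ℤ) ∣ 2 * ((p - k : ℕ) : ℤ) := ce_mul hp (ce_two h5) (ce_small (by omega) (by omega))
  have hc : ∀ f ∈ Ml p, Θ f ∈ I ⊔ Submodule.span ℤ {vv p k 1 p} := by
    intro f hf
    refine cancel hp (h.p2.mono le_sup_left) hN (Ml_Pp h.pos (hΘM f hf)) ?_
    have e1 := key f hf
    have e2 : (2 * ((p - k : ℕ) : ℤ)) • Θ f = ((2 * ((p - k : ℕ) : ℤ)) • Θ f -
        ((k.factorial : ℤ) * (((p - k).factorial : ℤ) * ((k.factorial : ℤ) * gB p k f))) • vv p k 1 p) +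
        ((k.factorial : ℤ) * (((p - k).factorial : ℤ) * ((k.factorial : ℤ) * gB p k f))) • vv p k 1 p := by abel
    rw [e2]
    exact Submodule.add_mem_sup e1 (Submodule.smul_mem _ _ (Submodule.mem_span_singleton_self _))
  have ha : Θ a ∈ I := h.np hΘT hv0 hc
  have hb : Θ b ∈ I := (h.snd hΘT).1 ha
  have fin : ∀ g ∈ Ml p, Θ g ∈ I → gB p k g • vv p k 1 p ∈ I := by
    intro g hg hΘ
    have e1 := key g hg
    have e2 : ((k.factorial : ℤ) * (((p - k).factorial : ℤ) * ((k.factorial : ℤ) * gB p k g))) • vv p k 1 p ∈ I := by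
      have e3 := I.sub_mem (I.smul_mem (2 * ((p - k : ℕ) : ℤ)) hΘ) e1
      rwa [sub_sub_cancel] at e3
    have e4 : ((k.factorial : ℤ) * (((p - k).factorial : ℤ) * ((k.factorial : ℤ) * gB p k g))) • vv p k 1 p =
        ((k.factorial : ℤ) * (((p - k).factorial : ℤ) * (k.factorial : ℤ))) • (gB p k g • vv p k 1 p) := by
      rw [smul_smul]
      congr 1
      ring
    rw [e4] at e2
    exact cancel hp h.p2 (ce_mul hp (ce_fac hp hk) (ce_mul hp (ce_fac hp (by omega)) (ce_fac hp hk)))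
      (Pp.smul_mem _ hv0) e2
  exact ⟨fin a h.ha ha, fin b h.hb hb⟩

/-- proportional values -/
private theorem ce_np {p : ℕ} {I J A B C : Submodule ℤ P} {q : ℤ} {a b t : P}
    (h : Pr p I J A B C p q a b t) {k : ℕ} {Y : P} (hY : Y ∈ Pp) {m m' : ℤ}
    (ha : (2 : ℤ) • ceT p k a - m • Y ∈ I) (hb : (2 : ℤ) • ceT p k b - m' • Y ∈ I) : ceT p k a ∈ I := by
  have hp := h.bJ.pp
  have h5 := h.bJ.five
  have key : ∀ g ∈ Ml p, ∀ c : ℤ, (2 : ℤ) • ceT p k g - c • Y ∈ I → ceT p k g ∈ I ⊔ Submodule.span ℤ {Y} := by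
    intro g hg c hc
    refine cancel hp (h.p2.mono le_sup_left) (ce_two h5) (Ml_Pp h.pos (ceT_Ml k hg)) ?_
    have e2 : (2 : ℤ) • ceT p k g = ((2 : ℤ) • ceT p k g - c • Y) + c • Y := by abel
    rw [e2]
    exact Submodule.add_mem_sup hc (Submodule.smul_mem _ _ (Submodule.mem_span_singleton_self _))
  exact Lk.np hp h.toLk (Lnk.map h.toLk h.lk (ceT_TOp p k)) hY (key a h.ha m ha) (key b h.hb m' hb)

theorem coreEvP {p : ℕ} {I J A B C : Submodule ℤ P} {q : ℤ} {a b t : P}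
    (h : Pr p I J A B C p q a b t) (hp : Mul p I) (hl : ll ∈ I) {k : ℕ} (h2 : k % 2 = 0) (h1 : 1 ≤ k) (hk : k < p)
    (σ : Equiv.Perm (Fin p)) : sP p k (aP p k (rn p σ a)) ∈ I := by
  have hpp := h.bJ.pp
  have h5 := h.bJ.five
  have h' := h.rn σ
  obtain ⟨s1, s2⟩ := ce_star h' hl h2 h1 hk
  have hv0 : vv p k 1 p ∈ Pp := Ml_Pp h.pos (vv_Ml h1 hk 1 p)
  have hw : vv p k 0 1 ∈ Pp := Ml_Pp h.pos (vv_Ml h1 hk 0 1)
  have r1 := RVl hpp h5 h.hI h.p2 hl h1 hk h'.ha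
  have r2 := RVl hpp h5 h.hI h.p2 hl h1 hk h'.hb
  rw [ce_vv p k _ _ p] at r1 r2
  show ceT p k (rn p σ a) ∈ I
  by_cases hv : vv p k 1 p ∈ I
  · refine ce_np h' hw (m := gB p k (rn p σ a) - p * gA k (rn p σ a)) (m' := gB p k (rn p σ b) - p * gA k (rn p σ b))
      ?_ ?_
    · have e := I.add_mem r1 (I.smul_mem (gA k (rn p σ a)) hv)
      refine (congrArg (fun f => f ∈ I) ?_).mp e
      show _ = (2 : ℤ) • sP p k (aP p k (rn p σ a)) - _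
      abel
    · have e := I.add_mem r2 (I.smul_mem (gA k (rn p σ b)) hv)
      refine (congrArg (fun f => f ∈ I) ?_).mp e
      show _ = (2 : ℤ) • sP p k (aP p k (rn p σ b)) - _
      abel
  · have d : ∀ β : ℤ, β • vv p k 1 p ∈ I → (p : ℤ) ∣ β := by
      intro β hβ
      by_contra hn
      exact hv (cancel hpp h.p2 hn hv0 hβ)
    obtain ⟨c1, hc1⟩ := d _ s1
    obtain ⟨c2, hc2⟩ := d _ s2
    refine ce_np h' hv0 (m := gA k (rn p σ a)) (m' := gA k (rn p σ b)) ?_ ?_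
    · have e := I.add_mem r1 (hp ((c1 - gA k (rn p σ a)) • vv p k 0 1) (Pp.smul_mem _ hw))
      refine (congrArg (fun f => f ∈ I) ?_).mp e
      show _ = (2 : ℤ) • sP p k (aP p k (rn p σ a)) - _
      rw [hc1, ← mul_sub, smul_smul]
      abel
    · have e := I.add_mem r2 (hp ((c2 - gA k (rn p σ b)) • vv p k 0 1) (Pp.smul_mem _ hw))
      refine (congrArg (fun f => f ∈ I) ?_).mp e
      show _ = (2 : ℤ) • sP p k (aP p k (rn p σ b)) - _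
      rw [hc2, ← mul_sub, smul_smul]
      abel

theorem coreEvQ {p : ℕ} {I J A B C : Submodule ℤ P} {q : ℤ} {a b t : P}
    (h : Pr p I J A B C p q a b t) (hA : A ≤ J) (hB : B ⊓ J ≤ I) (hl : ll ∈ I) {k : ℕ} (h2 : k % 2 = 0)
    (h1 : 1 ≤ k) (hk : k < p) {f : P} (hf : f ∈ Ml p) (hfI : f ∈ I)
    (hn : ¬ ((p : ℤ) ∣ gA k f ∧ (p : ℤ) ^ 2 ∣ gB p k f)) (σ : Equiv.Perm (Fin p)) :
    sP p k (aP p k (rn p σ a)) ∈ I := by
  have hpp := h.bJ.pp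
  have h5 := h.bJ.five
  have hJ2 : Mul ((p : ℤ) ^ 2) J := h.bJ.mul.sq
  have h' := h.rn σ
  obtain ⟨s1, s2⟩ := ce_star h' hl h2 h1 hk
  have hv0 : vv p k 1 p ∈ Pp := Ml_Pp h.pos (vv_Ml h1 hk 1 p)
  have hw : vv p k 0 1 ∈ Pp := Ml_Pp h.pos (vv_Ml h1 hk 0 1)
  have hu : vv p k 1 0 ∈ Pp := Ml_Pp h.pos (vv_Ml h1 hk 1 0)
  have r1 := RVl hpp h5 h.hI h.p2 hl h1 hk h'.ha
  have r2 := RVl hpp h5 h.hI h.p2 hl h1 hk h'.hb
  show ceT p k (rn p σ a) ∈ I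
  by_cases hv : vv p k 1 p ∈ I
  · rw [ce_vv p k _ _ p] at r1 r2
    refine ce_np h' hw (m := gB p k (rn p σ a) - p * gA k (rn p σ a)) (m' := gB p k (rn p σ b) - p * gA k (rn p σ b))
      ?_ ?_
    · have e := I.add_mem r1 (I.smul_mem (gA k (rn p σ a)) hv)
      refine (congrArg (fun f => f ∈ I) ?_).mp e
      show _ = (2 : ℤ) • sP p k (aP p k (rn p σ a)) - _
      abel
    · have e := I.add_mem r2 (I.smul_mem (gA k (rn p σ b)) hv)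
      refine (congrArg (fun f => f ∈ I) ?_).mp e
      show _ = (2 : ℤ) • sP p k (aP p k (rn p σ b)) - _
      abel
  have d : ∀ β : ℤ, β • vv p k 1 p ∈ I → (p : ℤ) ∣ β := by
    intro β hβ
    by_contra hn
    exact hv (cancel hpp h.p2 hn hv0 hβ)
  by_cases hpv : (p : ℤ) • vv p k 1 p ∈ I
  swap
  · have d2 : ∀ β : ℤ, β • vv p k 1 p ∈ I → ∃ c, β = (p : ℤ) ^ 2 * c := by
      intro β hβ
      obtain ⟨u, hu⟩ := d β hβ
      have hpu : (p : ℤ) ∣ u := by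
        by_contra hn
        refine hpv (cancel hpp h.p2 hn (Pp.smul_mem _ hv0) ?_)
        rw [smul_smul, mul_comm, ← hu]
        exact hβ
      obtain ⟨c, hc⟩ := hpu
      exact ⟨c, by rw [hu, hc]; ring⟩
    obtain ⟨c1, hc1⟩ := d2 _ s1
    obtain ⟨c2, hc2⟩ := d2 _ s2
    rw [ce_vv p k _ _ 0] at r1 r2
    refine ce_np h' hu (m := gA k (rn p σ a)) (m' := gA k (rn p σ b)) ?_ ?_
    · have e := I.add_mem r1 (h.p2 (c1 • vv p k 0 1) (Pp.smul_mem _ hw))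
      refine (congrArg (fun f => f ∈ I) ?_).mp e
      show _ = (2 : ℤ) • sP p k (aP p k (rn p σ a)) - _
      rw [hc1, smul_smul, zero_mul, sub_zero]
      abel
    · have e := I.add_mem r2 (h.p2 (c2 • vv p k 0 1) (Pp.smul_mem _ hw))
      refine (congrArg (fun f => f ∈ I) ?_).mp e
      show _ = (2 : ℤ) • sP p k (aP p k (rn p σ b)) - _
      rw [hc2, smul_smul, zero_mul, sub_zero]
      abel
  rw [ce_vv p k _ _ p] at r1 r2
  by_contra hTa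
  obtain ⟨c1, hc1⟩ := d _ s1
  obtain ⟨c2, hc2⟩ := d _ s2
  have hlnk := Lnk.map h'.toLk h'.lk (ceT_TOp p k)
  have hTb : ceT p k (rn p σ b) ∉ I := fun h3 => hTa ((Lk.iff h'.toLk hlnk).2 h3)
  have hTbJ : ceT p k (rn p σ b) ∉ J := fun h3 => hTb (hB ⟨hlnk.2.1, h3⟩)
  have hTaJ : ceT p k (rn p σ a) ∈ J := hA hlnk.1
  have hpw : ∀ c : ℤ, (p : ℤ) • (c • vv p k 0 1) ∈ J := fun c => h.bJ.mul _ (Pp.smul_mem _ hw)
  -- `v0 ∉ J`
  have hvJ : vv p k 1 p ∉ J := by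
    intro h3
    refine hTbJ (cancel hpp hJ2 (ce_two h5) (Ml_Pp h.pos (ceT_Ml k h'.hb)) ?_)
    have e := J.add_mem (J.add_mem (h.IJ r2) (J.smul_mem (gA k (rn p σ b)) h3)) (hpw (c2 - gA k (rn p σ b)))
    refine (congrArg (fun f => f ∈ J) ?_).mp e
    show _ = (2 : ℤ) • sP p k (aP p k (rn p σ b))
    rw [hc2, ← mul_sub, smul_smul]
    abel
  have hα : (p : ℤ) ∣ gA k (rn p σ a) := by
    by_contra h3
    refine hvJ (cancel hpp hJ2 h3 hv0 ?_)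
    have e := J.sub_mem (J.sub_mem (J.smul_mem 2 hTaJ) (h.IJ r1)) (hpw (c1 - gA k (rn p σ a)))
    refine (congrArg (fun f => f ∈ J) ?_).mp e
    show (2 : ℤ) • sP p k (aP p k (rn p σ a)) - _ - _ = _
    rw [hc1, ← mul_sub, smul_smul]
    abel
  have hpw2 : (p : ℤ) • vv p k 0 1 ∉ I := by
    intro h3
    obtain ⟨r, hr⟩ := hα
    refine hTa (cancel hpp h.p2 (ce_two h5) (Ml_Pp h.pos (ceT_Ml k h'.ha)) ?_)
    have e := I.add_mem (I.add_mem r1 (I.smul_mem r hpv)) (I.smul_mem (c1 - gA k (rn p σ a)) h3)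
    refine (congrArg (fun f => f ∈ I) ?_).mp e
    show _ = (2 : ℤ) • sP p k (aP p k (rn p σ a))
    rw [hc1, ← mul_sub, smul_smul, smul_smul, mul_comm (c1 - gA k (rn p σ a)), mul_comm r, ← hr]
    abel
  -- the identity `f`
  have rf := RVl hpp h5 h.hI h.p2 hl h1 hk hf
  rw [ce_vv p k _ _ p] at rf
  have hV : gA k f • vv p k 1 p + (gB p k f - p * gA k f) • vv p k 0 1 ∈ I := by
    have e := I.sub_mem (I.smul_mem 2 (ceT_TOp p k I h.hI h.p2 f hfI)) rf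
    refine (congrArg (fun f => f ∈ I) ?_).mp e
    show (2 : ℤ) • sP p k (aP p k f) - _ = _
    abel
  have hp2w : ((p : ℤ) ^ 2) • vv p k 0 1 ∈ I := h.p2 _ hw
  have hβ1 : (p : ℤ) ∣ gB p k f := by
    by_contra h3
    refine hpw2 (cancel hpp h.p2 h3 (Pp.smul_mem _ hw) ?_)
    have e := I.add_mem (I.sub_mem (I.smul_mem (p : ℤ) hV) (I.smul_mem (gA k f) hpv))
      (I.smul_mem (gA k f) hp2w)
    refine (congrArg (fun f => f ∈ I) ?_).mp e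
    module
  obtain ⟨u, hu1⟩ := hβ1
  have hα1 : (p : ℤ) ∣ gA k f := by
    by_contra h3
    refine hvJ (cancel hpp hJ2 h3 hv0 ?_)
    have e := J.sub_mem (h.IJ hV) (hpw (u - gA k f))
    refine (congrArg (fun f => f ∈ J) ?_).mp e
    rw [hu1]
    module
  obtain ⟨r, hr⟩ := hα1
  have hu2 : ¬ (p : ℤ) ∣ u := by
    rintro ⟨c, hc⟩
    exact hn ⟨⟨r, hr⟩, ⟨c, by rw [hu1, hc]; ring⟩⟩
  refine hpw2 (cancel hpp h.p2 hu2 (Pp.smul_mem _ hw) ?_)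
  have e := I.add_mem (I.sub_mem hV (I.smul_mem r hpv)) (I.smul_mem r hp2w)
  refine (congrArg (fun f => f ∈ I) ?_).mp e
  rw [hu1, hr]
  module

end ADC
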