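import Pool.Agent.ADC.Bas

/-!
# ADC-TOpW

The projections onto residue classes modulo `p - 1` are T-operators.
-/

namespace ADC

open AD ADN

/-- `x_i ↦ c x_i` -/
noncomputable def sc (i : ℕ) (c : ℤ) : P →ₐ[ℤ] P := sb (fun j => if j = i then c • X i else X j)

private theorem sc_mon (i : ℕ) (c : ℤ) (w : List ℕ) : sc i c (mon w) = (c ^ (w.count i)) • mon w := by
  unfold sc
  rw [sb_mon]
  induction w with
  | nil => simp [mon_nil]
  | cons a w ih =>
    rw [List.map_cons, List.prod_cons, ih, mon_cons]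
    by_cases h : a = i
    · subst h
      rw [if_pos rfl, List.count_cons_self, smul_mul_smul_comm, ← pow_succ']
    · rw [if_neg h, List.count_cons_of_ne h, mul_smul_comm]

private theorem wp_Pp (φ : List ℕ → Prop) {f : P} (hf : f ∈ Pp) : wp φ f ∈ Pp := by
  obtain ⟨n, hn⟩ := exists_mem_Pn hf
  unfold Pn at hn
  induction hn using Submodule.span_induction with
  | mem x hx =>
    obtain ⟨w, hw, -, rfl⟩ := hx
    by_cases h : φ w
    · rw [wp_pos h]
      exact mon_mem hw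
    · rw [wp_neg h]
      exact Submodule.zero_mem _
  | zero => rw [map_zero]; exact Submodule.zero_mem _
  | add x y hx' hy' hx hy =>
    rw [map_add]
    exact Submodule.add_mem _ (hx (Pn_le_Pp n hx')) (hy (Pn_le_Pp n hy'))
  | smul c x hx' hx =>
    rw [map_smul]
    exact Submodule.smul_mem _ _ (hx (Pn_le_Pp n hx'))

private theorem exists_omega {p : ℕ} (hp : p.Prime) :
    ∃ ω : ℕ, ((ω : ℤ) ^ (p - 1) ≡ 1 [ZMOD ((p : ℤ) ^ 2)]) ∧
      ∀ m : ℕ, ((ω : ℤ) ^ m ≡ 1 [ZMOD (p : ℤ)]) → (p - 1) ∣ m := by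
  have : Fact p.Prime := ⟨hp⟩
  obtain ⟨u, hu⟩ := IsCyclic.exists_generator (α := (ZMod p)ˣ)
  have hord : orderOf u = p - 1 := by
    rw [orderOf_eq_card_of_forall_mem_zpowers hu, Nat.card_eq_fintype_card, ZMod.card_units]
  set g : ℕ := (u : ZMod p).val with hg
  have hgc : (g : ZMod p) = u := by
    rw [hg, ZMod.natCast_val, ZMod.cast_id]
  have hcop : g.Coprime p := by
    rw [Nat.coprime_comm, Nat.Prime.coprime_iff_not_dvd hp]
    intro h
    have : (g : ZMod p) = 0 := (ZMod.natCast_eq_zero_iff g p).2 h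
    rw [hgc] at this
    exact u.ne_zero this
  refine ⟨g ^ p, ?_, ?_⟩
  · have h1 := Nat.ModEq.pow_totient (hcop.pow_right 2)
    rw [Nat.totient_prime_pow hp (by norm_num)] at h1
    have h2 : g ^ (p ^ (2 - 1) * (p - 1)) = (g ^ p) ^ (p - 1) := by
      rw [show (2 - 1 : ℕ) = 1 from rfl, pow_one, pow_mul]
    rw [h2] at h1
    have h3 := (Int.natCast_modEq_iff).2 h1
    push_cast at h3 ⊢
    exact h3
  · intro m hm
    have h1 : (((g ^ p : ℕ) : ℤ) ^ m : ℤ) = (((g ^ p) ^ m : ℕ) : ℤ) := by push_cast; ring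
    have h2 : (((g ^ p : ℕ) : ZMod p)) ^ m = 1 := by
      have h3 := (ZMod.intCast_eq_intCast_iff _ _ p).2 hm
      push_cast at h3 ⊢
      exact h3
    rw [Nat.cast_pow, hgc] at h2
    have h4 : (u ^ p) ^ m = 1 := by
      apply Units.ext
      push_cast
      exact h2
    have h5 : u ^ p = u := by
      have h6 : u ^ p = u ^ (p - 1) * u := by
        rw [← pow_succ, Nat.sub_add_cancel hp.one_le]
      rw [h6, ← hord, pow_orderOf_eq_one, one_mul]
    rw [h5] at h4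
    rw [← hord]
    exact orderOf_dvd_of_pow_eq_one h4

private theorem sum_pow {p : ℕ} (hp : p.Prime) {ω : ℕ} (h1 : (ω : ℤ) ^ (p - 1) ≡ 1 [ZMOD ((p : ℤ) ^ 2)])
    (h2 : ∀ m : ℕ, ((ω : ℤ) ^ m ≡ 1 [ZMOD (p : ℤ)]) → (p - 1) ∣ m) (m : ℕ) :
    ((p : ℤ) ^ 2) ∣ ((if (p - 1) ∣ m then ((p - 1 : ℕ) : ℤ) else 0) -
      ∑ k ∈ Finset.range (p - 1), ((ω : ℤ) ^ m) ^ k) := by
  by_cases hm : (p - 1) ∣ m
  · rw [if_pos hm]
    obtain ⟨q, rfl⟩ := hm
    have h3 : ((ω : ℤ) ^ ((p - 1) * q)) ≡ 1 [ZMOD ((p : ℤ) ^ 2)] := by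
      rw [pow_mul]
      have := h1.pow q
      rwa [one_pow] at this
    have h4 : ∀ k, ((ω : ℤ) ^ ((p - 1) * q)) ^ k ≡ 1 [ZMOD ((p : ℤ) ^ 2)] := by
      intro k
      have := h3.pow k
      rwa [one_pow] at this
    have h5 : ((p - 1 : ℕ) : ℤ) - ∑ k ∈ Finset.range (p - 1), ((ω : ℤ) ^ ((p - 1) * q)) ^ k =
        ∑ k ∈ Finset.range (p - 1), (1 - ((ω : ℤ) ^ ((p - 1) * q)) ^ k) := by
      rw [Finset.sum_sub_distrib]
      simp
    rw [h5]
    exact Finset.dvd_sum fun k _ => (h4 k).dvd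
  · rw [if_neg hm]
    have h3 : ¬ (p : ℤ) ∣ (ω : ℤ) ^ m - 1 := fun h => hm (h2 m (Int.modEq_iff_dvd.2 (by
      have := dvd_neg.2 h
      rwa [neg_sub] at this)))
    have h4 : IsCoprime (((p : ℤ)) ^ 2) ((ω : ℤ) ^ m - 1) :=
      IsCoprime.pow_left ((Prime.coprime_iff_not_dvd (Nat.prime_iff_prime_int.1 hp)).2 h3)
    have h5 : ((ω : ℤ) ^ m - 1) * (∑ k ∈ Finset.range (p - 1), ((ω : ℤ) ^ m) ^ k) =
        ((ω : ℤ) ^ (p - 1)) ^ m - 1 := by
      rw [mul_comm, geom_sum_mul, ← pow_mul, ← pow_mul, mul_comm m (p - 1)]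
    have h6 : ((p : ℤ) ^ 2) ∣ ((ω : ℤ) ^ (p - 1)) ^ m - 1 := by
      have h7 := h1.pow m
      rw [one_pow] at h7
      have := h7.symm.dvd
      exact this
    rw [← h5] at h6
    have h8 := h4.dvd_of_dvd_mul_left h6
    rw [zero_sub]
    exact dvd_neg.2 h8

theorem res_formula {p : ℕ} (hp : p.Prime) (h3 : 3 ≤ p) :
    ∃ ω : ℕ, ((ω : ℤ) ^ (p - 1) ≡ 1 [ZMOD ((p : ℤ) ^ 2)]) ∧ ∀ (i r : ℕ), r < p - 1 → ∀ f ∈ Pp, ∃ g ∈ Pp,
      ((p - 1 : ℕ) : ℤ) • wp (fun w => w.count i % (p - 1) = r) f -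
        ∑ k ∈ Finset.range (p - 1), ((ω : ℤ) ^ (k * (p - 1 - r))) • sc i ((ω : ℤ) ^ k) f = ((p : ℤ) ^ 2) • g := by
  obtain ⟨ω, h1, h2⟩ := exists_omega hp
  refine ⟨ω, h1, ?_⟩
  intro i r hr f hf
  obtain ⟨n, hn⟩ := exists_mem_Pn hf
  clear hf
  unfold Pn at hn
  induction hn using Submodule.span_induction with
  | mem x hx =>
    obtain ⟨w, hw, -, rfl⟩ := hx
    obtain ⟨q, hq⟩ := sum_pow hp h1 h2 (p - 1 - r + w.count i)
    have h5 : (p - 1) ∣ (p - 1 - r + w.count i) ↔ w.count i % (p - 1) = r := by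
      constructor
      · intro h
        obtain ⟨t, ht⟩ := h
        have h6 : w.count i + (p - 1) = r + (p - 1) * t := by omega
        have h7 : (w.count i + (p - 1)) % (p - 1) = (r + (p - 1) * t) % (p - 1) := by rw [h6]
        rw [Nat.add_mod_right, Nat.add_mul_mod_self_left, Nat.mod_eq_of_lt hr] at h7
        exact h7
      · intro h
        have h6 := Nat.div_add_mod (w.count i) (p - 1)
        rw [h] at h6
        refine ⟨w.count i / (p - 1) + 1, ?_⟩
        rw [mul_add, mul_one]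
        omega
    refine ⟨q • mon w, Submodule.smul_mem _ _ (mon_mem hw), ?_⟩
    have h6 : ∑ k ∈ Finset.range (p - 1), ((ω : ℤ) ^ (k * (p - 1 - r))) • sc i ((ω : ℤ) ^ k) (mon w) =
        (∑ k ∈ Finset.range (p - 1), ((ω : ℤ) ^ (p - 1 - r + w.count i)) ^ k) • mon w := by
      rw [Finset.sum_smul]
      refine Finset.sum_congr rfl fun k _ => ?_
      rw [sc_mon, smul_smul, ← pow_mul, ← pow_add, ← pow_mul]
      congr 2
      ring
    have h7 : ((p - 1 : ℕ) : ℤ) • wp (fun w => w.count i % (p - 1) = r) (mon w) =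
        (if (p - 1) ∣ (p - 1 - r + w.count i) then ((p - 1 : ℕ) : ℤ) else 0) • mon w := by
      by_cases h : w.count i % (p - 1) = r
      · rw [wp_pos h, if_pos (h5.2 h)]
      · rw [wp_neg h, if_neg (fun h' => h (h5.1 h')), smul_zero, zero_smul]
    rw [h6, h7, ← sub_smul, hq, mul_smul]
  | zero =>
    refine ⟨0, Submodule.zero_mem _, ?_⟩
    simp
  | add x y _ _ hx hy =>
    obtain ⟨g, hg, hg'⟩ := hx
    obtain ⟨g', hg1, hg1'⟩ := hy
    refine ⟨g + g', Submodule.add_mem _ hg hg1, ?_⟩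
    rw [smul_add, ← hg', ← hg1', map_add, smul_add]
    have h6 : ∑ k ∈ Finset.range (p - 1), ((ω : ℤ) ^ (k * (p - 1 - r))) • sc i ((ω : ℤ) ^ k) (x + y) =
        ∑ k ∈ Finset.range (p - 1), ((ω : ℤ) ^ (k * (p - 1 - r))) • sc i ((ω : ℤ) ^ k) x +
        ∑ k ∈ Finset.range (p - 1), ((ω : ℤ) ^ (k * (p - 1 - r))) • sc i ((ω : ℤ) ^ k) y := by
      rw [← Finset.sum_add_distrib]
      refine Finset.sum_congr rfl fun k _ => ?_
      rw [map_add, smul_add]
    rw [h6]
    abel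
  | smul c x _ hx =>
    obtain ⟨g, hg, hg'⟩ := hx
    refine ⟨c • g, Submodule.smul_mem _ _ hg, ?_⟩
    rw [smul_comm _ c g, ← hg', map_smul, smul_sub, Finset.smul_sum, smul_comm c]
    congr 1
    refine Finset.sum_congr rfl fun k _ => ?_
    rw [map_zsmul, smul_comm]

theorem TOp_res {p : ℕ} (hp : p.Prime) (h3 : 3 ≤ p) (i r : ℕ) (hr : r < p - 1) :
    TOp p (wp (fun w => w.count i % (p - 1) = r)) := by
  intro D hD hm f hf
  have hfP : f ∈ Pp := hD.le hf
  obtain ⟨ω, -, h⟩ := res_formula hp h3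
  obtain ⟨g, hg, hg'⟩ := h i r hr f hfP
  have h1 : ((p - 1 : ℕ) : ℤ) • wp (fun w => w.count i % (p - 1) = r) f ∈ D := by
    rw [sub_eq_iff_eq_add.1 hg']
    refine D.add_mem (hm g hg) (D.sum_mem fun k _ => D.smul_mem _ ?_)
    unfold sc
    refine sb_mem hD ?_ hf
    intro j
    by_cases h : j = i
    · rw [if_pos h]
      exact Submodule.smul_mem _ _ (X_mem i)
    · rw [if_neg h]
      exact X_mem j
  refine cancel hp hm ?_ (wp_Pp _ hfP) h1
  intro h
  have h5 := Int.natCast_dvd_natCast.1 h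
  have h6 := Nat.le_of_dvd (by omega) h5
  omega

private theorem kil_aux (A : ℕ → Prop) :
    wp (fun w => ∀ i ∈ w, ¬ A i) = tl (sb (fun j => open Classical in if A j then 0 else X j)) := by
  classical
  ext f
  refine ind_mon (C := fun f => wp (fun w => ∀ i ∈ w, ¬ A i) f =
    tl (sb (fun j => if A j then 0 else X j)) f) (by simp) ?_ ?_ ?_ f
  · intro f g hf hg; rw [map_add, map_add, hf, hg]
  · intro c f hf; rw [map_smul, map_smul, hf]
  · intro w
    rw [tl_apply, sb_mon]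
    induction w with
    | nil =>
      rw [wp_pos (by simp), mon_nil]
      simp
    | cons a w ih =>
      rw [List.map_cons, List.prod_cons, ← ih]
      by_cases ha : A a
      · rw [if_pos ha, zero_mul, wp_neg (fun h => h a (by simp) ha)]
      · rw [if_neg ha]
        by_cases h : ∀ i ∈ w, ¬ A i
        · have h1 : ∀ i ∈ a :: w, ¬ A i := by
            intro i hi
            rcases List.mem_cons.1 hi with h' | h'
            · rw [h']; exact ha
            · exact h i h'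
          rw [wp_pos (φ := fun w => ∀ i ∈ w, ¬ A i) (w := w) h,
            wp_pos (φ := fun w => ∀ i ∈ w, ¬ A i) (w := a :: w) h1, mon_cons]
        · have h1 : ¬ ∀ i ∈ a :: w, ¬ A i := fun h' => h fun i hi => h' i (List.mem_cons_of_mem _ hi)
          rw [wp_neg (φ := fun w => ∀ i ∈ w, ¬ A i) (w := w) h,
            wp_neg (φ := fun w => ∀ i ∈ w, ¬ A i) (w := a :: w) h1, mul_zero]

private theorem TOp_kil (p : ℕ) (A : ℕ → Prop) : TOp p (wp (fun w => ∀ i ∈ w, ¬ A i)) := by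
  rw [kil_aux]
  refine TOp.subst p (sb_isSubst fun i => ?_)
  by_cases h : A i
  · rw [if_pos h]
    exact Submodule.zero_mem _
  · rw [if_neg h]
    exact X_mem i

theorem TOp_not_mem (p i : ℕ) : TOp p (wp (fun w => i ∉ w)) := by
  have h := TOp_kil p (fun j => j = i)
  rwa [wp_congr (ψ := fun w => i ∉ w) (fun w => ⟨fun h hi => h i hi rfl, fun h j hj (e : j = i) => h (e ▸ hj)⟩)] at h

theorem TOp_mem (p i : ℕ) : TOp p (wp (fun w => i ∈ w)) := by
  have h := (TOp.id' p).sub (TOp_not_mem p i)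
  have h1 : wp (fun w => i ∈ w) = LinearMap.id - wp (fun w => i ∉ w) := by
    ext f
    rw [LinearMap.sub_apply, LinearMap.id_apply, eq_sub_iff_add_eq]
    exact wp_add_not _ f
  rw [h1]
  exact h

theorem TOp_lt (p n : ℕ) : TOp p (wp (fun w => ∀ i ∈ w, i < n)) := by
  have h := TOp_kil p (fun j => n ≤ j)
  rwa [wp_congr (ψ := fun w => ∀ i ∈ w, i < n) (fun w => ⟨fun h i hi => not_le.1 (h i hi),
    fun h i hi => not_le.2 (h i hi)⟩)] at h

private theorem TOp_and {p : ℕ} {φ ψ : List ℕ → Prop} (h : TOp p (wp φ)) (h' : TOp p (wp ψ)) :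
    TOp p (wp (fun w => φ w ∧ ψ w)) := by
  have h1 : wp (fun w => φ w ∧ ψ w) = (wp φ).comp (wp ψ) := by
    ext f
    rw [LinearMap.comp_apply, wp_wp]
  rw [h1]
  exact h.comp h'

private theorem TOp_all {p : ℕ} {φ : ℕ → List ℕ → Prop} (h : ∀ i, TOp p (wp (φ i))) (n : ℕ) :
    TOp p (wp (fun w => ∀ i < n, φ i w)) := by
  induction n with
  | zero =>
    have h1 : wp (fun w => ∀ i < 0, φ i w) = LinearMap.id := by
      ext f
      refine ind_mon (C := fun f => wp (fun w => ∀ i < 0, φ i w) f = LinearMap.id f) (by simp) ?_ ?_ ?_ f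
      · intro f g hf hg; rw [map_add, map_add, hf, hg]
      · intro c f hf; rw [map_smul, map_smul, hf]
      · intro w
        rw [wp_pos (fun i hi => absurd hi (Nat.not_lt_zero i))]
        rfl
    rw [h1]
    exact TOp.id' p
  | succ n ih =>
    have h1 := TOp_and ih (h n)
    rwa [wp_congr (ψ := fun w => ∀ i < n + 1, φ i w) (fun w => ⟨fun h i hi => by
      rcases Nat.lt_succ_iff_lt_or_eq.1 hi with h' | h'
      · exact h.1 i h'
      · rw [h']; exact h.2, fun h => ⟨fun i hi => h i (Nat.lt_succ_of_lt hi), h n (Nat.lt_succ_self n)⟩⟩)] at h1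

theorem TOp_full (p n : ℕ) : TOp p (wp (fun w => ∀ i < n, i ∈ w)) :=
  TOp_all (fun i => TOp_mem p i) n

theorem TOp_qw {p : ℕ} (hp : p.Prime) (h3 : 3 ≤ p) (n : ℕ) : TOp p (wp (qw p n)) :=
  TOp_and (TOp_lt p n) (TOp_all (fun i => TOp_res hp h3 i 1 (by omega)) n)

theorem TOp_del {p : ℕ} (hp : p.Prime) (h3 : 3 ≤ p) (i m : ℕ) : TOp p (del p i m) := by
  unfold del
  refine TOp.comp (TOp_and (TOp_res hp h3 i 0 (by omega)) (TOp_mem p i)) (TOp.subst p (sb_isSubst fun j => ?_))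
  by_cases h : j = i
  · rw [if_pos h]
    exact Submodule.add_mem _ (X_mem i) (X_mem m)
  · rw [if_neg h]
    exact X_mem j

end ADC
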