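import Pool.Agent.ADC.Rg
import Pool.Agent.ADC.GrpA
import Pool.Agent.ADC.TOpW

/-!
# ADC-R22P

The relation `R22` in degree `n` modulo a T-ideal `D ∋ ll`, `p^2 Pp ≤ D` (proved by helper77): in the quotient ring commutators are
central; three word patterns (`pat1`, `pat2`, `pat3`), all orders by symmetry, polarisation.
-/

namespace ADC

open AD ADN

section rng

variable {S : Type*} [Ring S]

private def kc (K : ∀ x y z : S, (x*y - y*x)*z = z*(x*y - y*x)) (x y : S) : Subring.center S :=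
  ⟨x*y - y*x, Subring.mem_center_iff.2 fun z => (K x y z).symm⟩

private theorem kc_smul (K : ∀ x y z : S, (x*y - y*x)*z = z*(x*y - y*x)) (x y a : S) :
    kc K x y • a = (x*y - y*x) * a := rfl

private theorem kc_J (K : ∀ x y z : S, (x*y - y*x)*z = z*(x*y - y*x)) (x u y : S) :
    x*u*y - y*u*x = kc K x y • u + kc K x u • y - kc K y u • x := by
  rw [kc_smul, kc_smul, kc_smul, K x y u]
  noncomm_ring

private theorem kc_one (K : ∀ x y z : S, (x*y - y*x)*z = z*(x*y - y*x))
    (h2 : ∀ x : S, (2 : ℤ) • x = 0 → x = 0) (x y z : S) : kc K x y * kc K y z = 0 :=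
  Subtype.ext (Rg1 Set.univ (fun _ _ _ _ => trivial) (fun _ _ _ _ => trivial) (fun _ _ => trivial)
    (fun x _ => h2 x) (fun x _ y _ z _ => K x y z) trivial trivial trivial)

private theorem kc_two (K : ∀ x y z : S, (x*y - y*x)*z = z*(x*y - y*x))
    (h2 : ∀ x : S, (2 : ℤ) • x = 0 → x = 0) (x y z w : S) :
    kc K x y * kc K w z + kc K x w * kc K y z = 0 :=
  Subtype.ext (Rg2 Set.univ (fun _ _ _ _ => trivial) (fun _ _ _ _ => trivial) (fun _ _ => trivial)
    (fun x _ => h2 x) (fun x _ y _ z _ => K x y z) trivial trivial trivial trivial)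

private theorem kc_neg (K : ∀ x y z : S, (x*y - y*x)*z = z*(x*y - y*x)) (x y : S) :
    kc K y x = - kc K x y :=
  Subtype.ext (by show y*x - x*y = -(x*y - y*x); abel)

private theorem kc_same (K : ∀ x y z : S, (x*y - y*x)*z = z*(x*y - y*x))
    (h2 : ∀ x : S, (2 : ℤ) • x = 0 → x = 0) (x y z : S) : kc K x y * kc K x z = 0 := by
  have h := kc_one K h2 y x z
  rw [kc_neg K x y, neg_mul, neg_eq_zero] at h
  exact h

private theorem kc_cq (K : ∀ x y z : S, (x*y - y*x)*z = z*(x*y - y*x))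
    (h2 : ∀ x : S, (2 : ℤ) • x = 0 → x = 0) (x y z : S) : kc K x y * kc K y z = 0 := kc_one K h2 x y z

/-- `[x,u][y,v] = -[x,v][y,u]` -/
private theorem kc_pq (K : ∀ x y z : S, (x*y - y*x)*z = z*(x*y - y*x))
    (h2 : ∀ x : S, (2 : ℤ) • x = 0 → x = 0) (x y u v : S) :
    kc K x v * kc K y u = - (kc K x u * kc K y v) := by
  have e := kc_two K h2 x u y v
  rw [kc_neg K y v, kc_neg K y u] at e
  have : kc K x u * kc K y v + kc K x v * kc K y u = 0 := by
    linear_combination -e
  exact eq_neg_of_add_eq_zero_right this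

private theorem pat1 (K : ∀ x y z : S, (x*y - y*x)*z = z*(x*y - y*x))
    (h2 : ∀ x : S, (2 : ℤ) • x = 0 → x = 0) (x y u1 u2 u3 : S) :
    (x*u1*y - y*u1*x)*u2*(x*u3*y - y*u3*x) = 0 := by
  rw [kc_J K x u1 y, kc_J K x u3 y]
  have e1 : (kc K x y • u1 + kc K x u1 • y - kc K y u1 • x) * u2 *
      (kc K x y • u3 + kc K x u3 • y - kc K y u3 • x) =
      (kc K x y * kc K x y) • (u1*u2*u3) + (kc K x y * kc K x u3) • (u1*u2*y) -
      (kc K x y * kc K y u3) • (u1*u2*x) + (kc K x y * kc K x u1) • (y*u2*u3) +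
      (kc K x u1 * kc K x u3) • (y*u2*y) - (kc K x u1 * kc K y u3) • (y*u2*x) -
      (kc K x y * kc K y u1) • (x*u2*u3) - (kc K x u3 * kc K y u1) • (x*u2*y) +
      (kc K y u1 * kc K y u3) • (x*u2*x) := by
    simp only [add_mul, sub_mul, mul_add, mul_sub, smul_mul_assoc, mul_smul_comm, smul_smul]
    module
  rw [e1, kc_same K h2, kc_same K h2, kc_one K h2, kc_same K h2, kc_same K h2, kc_one K h2,
    kc_same K h2, kc_pq K h2 x y u1 u3]
  simp only [zero_smul, zero_add, sub_zero, add_zero, zero_sub]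
  have e2 : -((kc K x u1 * kc K y u3) • (y*u2*x)) - (-(kc K x u1 * kc K y u3)) • (x*u2*y) =
      (kc K x u1 * kc K y u3) • (x*u2*y - y*u2*x) := by module
  rw [e2, kc_J K x u2 y, smul_sub, smul_add, smul_smul, smul_smul, smul_smul]
  have f1 : kc K x u1 * kc K y u3 * kc K x y = 0 := by
    have := kc_same K h2 x y u1
    linear_combination (kc K y u3) * this
  have f2 : kc K x u1 * kc K y u3 * kc K x u2 = 0 := by
    have := kc_same K h2 x u2 u1
    linear_combination (kc K y u3) * this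
  have f3 : kc K x u1 * kc K y u3 * kc K y u2 = 0 := by
    have := kc_same K h2 y u2 u3
    linear_combination (kc K x u1) * this
  rw [f1, f2, f3]
  simp

private theorem kc_exp (K : ∀ x y z : S, (x*y - y*x)*z = z*(x*y - y*x)) (y u x v a : S) :
    kc K y (u*x*v) • a = kc K y u • (x*v*a) + kc K y x • (u*v*a) + kc K y v • (u*x*a) := by
  rw [kc_smul, kc_smul, kc_smul, kc_smul]
  have e1 : (y*x - x*y)*(u*v*a) = u*(y*x - x*y)*(v*a) := by
    rw [← K y x u]
    noncomm_ring
  have e2 : (y*v - v*y)*(u*x*a) = (u*x)*(y*v - v*y)*a := by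
    rw [← K y v (u*x)]
    noncomm_ring
  rw [e1, e2]
  noncomm_ring

private theorem pat3 (K : ∀ x y z : S, (x*y - y*x)*z = z*(x*y - y*x))
    (h2 : ∀ x : S, (2 : ℤ) • x = 0 → x = 0) (x y u1 u2 u3 : S) :
    x*u1*(x*u2*y - y*u2*x)*u3*y - y*u1*(x*u2*y - y*u2*x)*u3*x = 0 := by
  have e0 : x*u1*(x*u2*y - y*u2*x)*u3*y - y*u1*(x*u2*y - y*u2*x)*u3*x =
      kc K x y • (x*(u1*u2*u3)*y - y*(u1*u2*u3)*x) + kc K x u2 • (x*(u1*y*u3)*y - y*(u1*y*u3)*x)
      - kc K y u2 • (x*(u1*x*u3)*y - y*(u1*x*u3)*x) := by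
    rw [kc_J K x u2 y]
    simp only [add_mul, sub_mul, mul_add, mul_sub, smul_mul_assoc, mul_smul_comm, smul_sub, mul_assoc]
    module
  have q1 : ∀ s, kc K y u2 * kc K x s = -(kc K x u2 * kc K y s) := by
    intro s
    have := kc_pq K h2 x y u2 s
    linear_combination this
  rw [e0, kc_J K x (u1*u2*u3) y, kc_J K x (u1*y*u3) y, kc_J K x (u1*x*u3) y]
  simp only [smul_sub, smul_add, smul_smul, q1]
  have g1 : kc K x y * kc K x y = 0 := kc_same K h2 _ _ _
  have g2 : ∀ s, kc K x y * kc K x s = 0 := fun s => kc_same K h2 _ _ _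
  have g3 : ∀ s, kc K x y * kc K y s = 0 := fun s => kc_one K h2 _ _ _
  have g4 : ∀ s, kc K x u2 * kc K x s = 0 := fun s => kc_same K h2 _ _ _
  have g5 : ∀ s, kc K y u2 * kc K y s = 0 := fun s => kc_same K h2 _ _ _
  have g6 : kc K x u2 * kc K y y = 0 := by
    have : kc K y y = 0 := Subtype.ext (sub_self _)
    rw [this, mul_zero]
  rw [g1, g2, g3, g4, g4, g5, g6]
  simp only [zero_smul, zero_add, sub_zero, add_zero, zero_sub, neg_zero, neg_smul]
  have k1 : ∀ s a : S, (kc K x u2 * kc K y s) • a = kc K x u2 • (kc K y s • a) := fun s a =>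
    mul_smul _ _ _
  rw [k1, k1, kc_exp K y u1 y u3 x, kc_exp K y u1 x u3 y]
  have k2 : ∀ a : S, kc K x u2 • (kc K y x • a) = 0 := by
    intro a
    have h3 : kc K x u2 * kc K y x = 0 := by
      have := kc_same K h2 x y u2
      rw [kc_neg K x y]
      linear_combination -this
    rw [smul_smul, h3, zero_smul]
  have k3 : kc K y y = 0 := Subtype.ext (sub_self _)
  rw [k3]
  simp only [smul_add, k2, zero_smul, add_zero, smul_zero]
  have k4 : -(kc K x u2 • kc K y u1 • (y * u3 * x) + kc K x u2 • kc K y u3 • (u1 * y * x)) -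
      -(kc K x u2 • kc K y u1 • (x * u3 * y) + kc K x u2 • kc K y u3 • (u1 * x * y)) =
      kc K x u2 • (kc K y u1 • (x * u3 * y - y * u3 * x)) +
      kc K x u2 • (kc K y u3 • (u1 * x * y - u1 * y * x)) := by module
  rw [k4, kc_J K x u3 y]
  have k5 : u1 * x * y - u1 * y * x = kc K x y • u1 := by
    rw [kc_smul, K x y u1]
    noncomm_ring
  rw [k5]
  simp only [smul_sub, smul_add, smul_smul]
  have m1 : kc K x u2 * (kc K y u1 * kc K x y) = 0 := by
    linear_combination (kc K y u1) * (kc_same K h2 x u2 y)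
  have m2 : kc K x u2 * (kc K y u1 * kc K x u3) = 0 := by
    linear_combination (kc K y u1) * (kc_same K h2 x u2 u3)
  have m3 : kc K x u2 * (kc K y u1 * kc K y u3) = 0 := by
    linear_combination (kc K x u2) * (kc_same K h2 y u1 u3)
  have m4 : kc K x u2 * (kc K y u3 * kc K x y) = 0 := by
    linear_combination (kc K y u3) * (kc_same K h2 x u2 y)
  rw [m1, m2, m3, m4]
  simp

private theorem pat2 (K : ∀ x y z : S, (x*y - y*x)*z = z*(x*y - y*x))
    (h2 : ∀ x : S, (2 : ℤ) • x = 0 → x = 0) (x y u1 u2 u3 : S) :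
    x*u1*x*u2*y*u3*y - y*u1*x*u2*x*u3*y - x*u1*y*u2*y*u3*x + y*u1*y*u2*x*u3*x = 0 := by
  have e1 := pat1 K h2 x y u1 u2 u3
  have e3 := pat3 K h2 x y u1 u2 u3
  have e : x*u1*x*u2*y*u3*y - y*u1*x*u2*x*u3*y - x*u1*y*u2*y*u3*x + y*u1*y*u2*x*u3*x =
      (x*u1*y - y*u1*x)*u2*(x*u3*y - y*u3*x) +
      (x*u1*(x*u2*y - y*u2*x)*u3*y - y*u1*(x*u2*y - y*u2*x)*u3*x) := by noncomm_ring
  rw [e, e1, e3, add_zero]

/-- the value of a word -/
private def E (f : ℕ → S) (w : List ℕ) : S := (w.map f).prod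

private theorem E_append (f : ℕ → S) (u v : List ℕ) : E f (u ++ v) = E f u * E f v := by
  unfold E
  rw [List.map_append, List.prod_append]

private theorem E_cons (f : ℕ → S) (a : ℕ) (v : List ℕ) : E f (a :: v) = f a * E f v := by
  unfold E
  rw [List.map_cons, List.prod_cons]

private theorem E_congr {f g : ℕ → S} {w : List ℕ} (h : ∀ i ∈ w, f i = g i) : E f w = E g w := by
  unfold E
  rw [List.map_congr_left h]

/-- `α`, `β` become `x`, and `γ`, `δ` become `y` -/
private def as (f : ℕ → S) (x y : S) (α β γ δ : ℕ) : ℕ → S := fun i =>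
  if i = α ∨ i = β then x else if i = γ ∨ i = δ then y else f i

private theorem as_comm1 (f : ℕ → S) (x y : S) (α β γ δ : ℕ) :
    as f x y β α γ δ = as f x y α β γ δ := by
  funext i
  exact if_congr or_comm rfl rfl

private theorem as_comm2 (f : ℕ → S) (x y : S) (α β γ δ : ℕ) :
    as f x y α β δ γ = as f x y α β γ δ := by
  funext i
  exact if_congr Iff.rfl rfl (if_congr or_comm rfl rfl)

/-- the vanishing of the quadratic expression -/
private def Cl (f : ℕ → S) (w : List ℕ) (t s t' s' : ℕ) : Prop := ∀ x y : S,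
  E (as f x y t s t' s') w - E (as f x y t s' t' s) w - E (as f x y t' s t s') w +
    E (as f x y t' s' t s) w = 0

private theorem Cl1 {f : ℕ → S} {w : List ℕ} {t s t' s' : ℕ} (h : Cl f w t s t' s') :
    Cl f w t' s t s' := by
  intro x y
  have h1 := h x y
  have e : E (as f x y t' s t s') w - E (as f x y t' s' t s) w - E (as f x y t s t' s') w +
    E (as f x y t s' t' s) w = -(E (as f x y t s t' s') w - E (as f x y t s' t' s) w -
      E (as f x y t' s t s') w + E (as f x y t' s' t s) w) := by abel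
  rw [e, h1, neg_zero]

private theorem Cl2 {f : ℕ → S} {w : List ℕ} {t s t' s' : ℕ} (h : Cl f w t s t' s') :
    Cl f w t s' t' s := by
  intro x y
  have h1 := h x y
  have e : E (as f x y t s' t' s) w - E (as f x y t s t' s') w - E (as f x y t' s' t s) w +
    E (as f x y t' s t s') w = -(E (as f x y t s t' s') w - E (as f x y t s' t' s) w -
      E (as f x y t' s t s') w + E (as f x y t' s' t s) w) := by abel
  rw [e, h1, neg_zero]

private theorem Cl3 {f : ℕ → S} {w : List ℕ} {t s t' s' : ℕ} (h : Cl f w t s t' s') :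
    Cl f w s t s' t' := by
  intro x y
  have h1 := h x y
  rw [as_comm1 f x y t s s' t', as_comm2 f x y t s t' s', as_comm1 f x y t' s s' t,
    as_comm2 f x y t' s t s', as_comm1 f x y t s' s t', as_comm2 f x y t s' t' s,
    as_comm1 f x y t' s' s t, as_comm2 f x y t' s' t s]
  rw [← h1]
  abel

/-- all orders from three -/
private theorem all_orders {C : ℕ → ℕ → ℕ → ℕ → Prop} (c1 : ∀ {t s t' s'}, C t s t' s' → C t' s t s')
    (c2 : ∀ {t s t' s'}, C t s t' s' → C t s' t' s) (c3 : ∀ {t s t' s'}, C t s t' s' → C s t s' t')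
    {z1 z2 z3 z4 t s t' s' : ℕ} (h1 : C z1 z3 z2 z4) (h2 : C z1 z2 z3 z4) (h3 : C z1 z2 z4 z3)
    (hp : [t, s, t', s'].Perm [z1, z2, z3, z4]) (hn : [t, s, t', s'].Nodup) : C t s t' s' := by
  have a1 := hp.mem_iff (a := t)
  have a2 := hp.mem_iff (a := s)
  have a3 := hp.mem_iff (a := t')
  have a4 := hp.mem_iff (a := s')
  simp only [List.mem_cons, List.not_mem_nil, or_false, true_or, or_true, true_iff] at a1 a2 a3 a4
  simp only [List.nodup_cons, List.mem_cons, List.not_mem_nil, or_false, not_or, not_false_eq_true,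
    List.nodup_nil, and_true] at hn
  obtain ⟨⟨n1, n2, n3⟩, ⟨n4, n5⟩, n6⟩ := hn
  rcases a1 with rfl | rfl | rfl | rfl <;> rcases a2 with rfl | rfl | rfl | rfl <;>
    first
    | exact absurd rfl n1
    | (rcases a3 with rfl | rfl | rfl | rfl <;>
        first
        | exact absurd rfl n2
        | exact absurd rfl n4
        | (rcases a4 with rfl | rfl | rfl | rfl <;>
            first
            | exact absurd rfl n3
            | exact absurd rfl n5
            | exact absurd rfl n6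
            | exact h1
            | exact h2
            | exact h3
            | exact c1 h1
            | exact c1 h2
            | exact c1 h3
            | exact c2 h1
            | exact c2 h2
            | exact c2 h3
            | exact c3 h1
            | exact c3 h2
            | exact c3 h3
            | exact c1 (c2 h1)
            | exact c1 (c2 h2)
            | exact c1 (c2 h3)
            | exact c1 (c3 h1)
            | exact c1 (c3 h2)
            | exact c1 (c3 h3)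
            | exact c2 (c3 h1)
            | exact c2 (c3 h2)
            | exact c2 (c3 h3)
            | exact c1 (c2 (c3 h1))
            | exact c1 (c2 (c3 h2))
            | exact c1 (c2 (c3 h3))))

private theorem order4 {w : List ℕ} (hw : w.Nodup) {a b c d : ℕ} (ha : a ∈ w) (hb : b ∈ w)
    (hc : c ∈ w) (hd : d ∈ w) (hn : [a, b, c, d].Nodup) :
    ∃ z1 z2 z3 z4, [z1, z2, z3, z4].Sublist w ∧ [a, b, c, d].Perm [z1, z2, z3, z4] := by
  obtain ⟨l, hl⟩ : ∃ l, l = w.filter fun i => i ∈ [a, b, c, d] := ⟨_, rfl⟩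
  have h1 : l.Sublist w := by rw [hl]; exact List.filter_sublist
  have h2 : [a, b, c, d].Perm l := by
    rw [List.perm_ext_iff_of_nodup hn (h1.nodup hw)]
    intro x
    rw [hl, List.mem_filter, decide_eq_true_eq]
    constructor
    · intro hx
      refine ⟨?_, hx⟩
      simp only [List.mem_cons, List.not_mem_nil, or_false] at hx
      rcases hx with rfl | rfl | rfl | rfl
      · exact ha
      · exact hb
      · exact hc
      · exact hd
    · exact fun hx => hx.2
  have h3 := h2.length_eq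
  match l, h3 with
  | [z1, z2, z3, z4], _ => exact ⟨z1, z2, z3, z4, h1, h2⟩

private theorem sub4 {w : List ℕ} {z1 z2 z3 z4 : ℕ} (h : [z1, z2, z3, z4].Sublist w) :
    ∃ u0 u1 u2 u3 u4 : List ℕ,
      w = u0 ++ z1 :: (u1 ++ z2 :: (u2 ++ z3 :: (u3 ++ z4 :: u4))) := by
  rw [List.cons_sublist_iff] at h
  obtain ⟨r1, r2, e1, m1, h⟩ := h
  rw [List.cons_sublist_iff] at h
  obtain ⟨r3, r4, e2, m2, h⟩ := h
  rw [List.cons_sublist_iff] at h
  obtain ⟨r5, r6, e3, m3, h⟩ := h
  rw [List.singleton_sublist] at h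
  obtain ⟨a1, b1, rfl⟩ := List.append_of_mem m1
  obtain ⟨a2, b2, rfl⟩ := List.append_of_mem m2
  obtain ⟨a3, b3, rfl⟩ := List.append_of_mem m3
  obtain ⟨a4, b4, rfl⟩ := List.append_of_mem h
  refine ⟨a1, b1 ++ a2, b2 ++ a3, b3 ++ a4, b4, ?_⟩
  rw [e1, e2, e3]
  simp

private theorem E_split (f g : ℕ → S) {u0 u1 u2 u3 u4 : List ℕ} {z1 z2 z3 z4 : ℕ}
    (h0 : ∀ i ∈ u0, g i = f i) (h1 : ∀ i ∈ u1, g i = f i) (h2 : ∀ i ∈ u2, g i = f i)
    (h3 : ∀ i ∈ u3, g i = f i) (h4 : ∀ i ∈ u4, g i = f i) :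
    E g (u0 ++ z1 :: (u1 ++ z2 :: (u2 ++ z3 :: (u3 ++ z4 :: u4)))) =
      E f u0 * (g z1 * E f u1 * g z2 * E f u2 * g z3 * E f u3 * g z4) * E f u4 := by
  rw [E_append, E_cons, E_append, E_cons, E_append, E_cons, E_append, E_cons, E_congr h0, E_congr h1,
    E_congr h2, E_congr h3, E_congr h4]
  simp only [mul_assoc]

private theorem Cl_all (K : ∀ x y z : S, (x*y - y*x)*z = z*(x*y - y*x))
    (h2 : ∀ x : S, (2 : ℤ) • x = 0 → x = 0) (f : ℕ → S) {w : List ℕ} (hw : w.Nodup) {t s t' s' : ℕ}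
    (ht : t ∈ w) (hs : s ∈ w) (ht' : t' ∈ w) (hs' : s' ∈ w) (hn : [t, s, t', s'].Nodup) :
    Cl f w t s t' s' := by
  obtain ⟨z1, z2, z3, z4, hsub, hperm⟩ := order4 hw ht hs ht' hs' hn
  obtain ⟨u0, u1, u2, u3, u4, rfl⟩ := sub4 hsub
  have hz : [z1, z2, z3, z4].Nodup := hsub.nodup hw
  simp only [List.nodup_cons, List.mem_cons, List.not_mem_nil, or_false, not_or, not_false_eq_true,
    List.nodup_nil, and_true] at hz
  obtain ⟨⟨n12, n13, n14⟩, ⟨n23, n24⟩, n34⟩ := hz
  have m1 := (List.nodup_middle.1 hw)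
  have w2 : u0 ++ z1 :: (u1 ++ z2 :: (u2 ++ z3 :: (u3 ++ z4 :: u4))) =
      (u0 ++ z1 :: u1) ++ z2 :: (u2 ++ z3 :: (u3 ++ z4 :: u4)) := by simp
  have w3 : u0 ++ z1 :: (u1 ++ z2 :: (u2 ++ z3 :: (u3 ++ z4 :: u4))) =
      (u0 ++ z1 :: (u1 ++ z2 :: u2)) ++ z3 :: (u3 ++ z4 :: u4) := by simp
  have w4 : u0 ++ z1 :: (u1 ++ z2 :: (u2 ++ z3 :: (u3 ++ z4 :: u4))) =
      (u0 ++ z1 :: (u1 ++ z2 :: (u2 ++ z3 :: u3))) ++ z4 :: u4 := by simp
  have m2 := List.nodup_middle.1 (w2 ▸ hw)
  have m3 := List.nodup_middle.1 (w3 ▸ hw)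
  have m4 := List.nodup_middle.1 (w4 ▸ hw)
  have k1 := (List.nodup_cons.1 m1).1
  have k2 := (List.nodup_cons.1 m2).1
  have k3 := (List.nodup_cons.1 m3).1
  have k4 := (List.nodup_cons.1 m4).1
  simp only [List.mem_append, List.mem_cons, not_or] at k1 k2 k3 k4
  have hne : ∀ u : List ℕ, (z1 ∉ u ∧ z2 ∉ u ∧ z3 ∉ u ∧ z4 ∉ u) → ∀ x y : S, ∀ α β γ δ : ℕ,
      (∀ i, i = α ∨ i = β ∨ i = γ ∨ i = δ → i = z1 ∨ i = z2 ∨ i = z3 ∨ i = z4) →
      ∀ i ∈ u, as f x y α β γ δ i = f i := by
    intro u hu x y α β γ δ hab i hi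
    have h : ¬ (i = z1 ∨ i = z2 ∨ i = z3 ∨ i = z4) := by
      rintro (rfl | rfl | rfl | rfl)
      · exact hu.1 hi
      · exact hu.2.1 hi
      · exact hu.2.2.1 hi
      · exact hu.2.2.2 hi
    have h' : ¬ (i = α ∨ i = β ∨ i = γ ∨ i = δ) := fun h'' => h (hab i h'')
    unfold as
    rw [if_neg (fun h'' => h' (h''.elim Or.inl (fun h3 => Or.inr (Or.inl h3)))),
      if_neg (fun h'' => h' (Or.inr (Or.inr h'')))]
  obtain ⟨k10, k11, -, k12, -, k13, -, k14⟩ := k1
  obtain ⟨⟨k20, -, k21⟩, k22, -, k23, -, k24⟩ := k2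
  obtain ⟨⟨k30, -, k31, -, k32⟩, k33, -, k34⟩ := k3
  obtain ⟨⟨k40, -, k41, -, k42, -, k43⟩, k44⟩ := k4
  have q0 : z1 ∉ u0 ∧ z2 ∉ u0 ∧ z3 ∉ u0 ∧ z4 ∉ u0 := ⟨k10, k20, k30, k40⟩
  have q1 : z1 ∉ u1 ∧ z2 ∉ u1 ∧ z3 ∉ u1 ∧ z4 ∉ u1 := ⟨k11, k21, k31, k41⟩
  have q2 : z1 ∉ u2 ∧ z2 ∉ u2 ∧ z3 ∉ u2 ∧ z4 ∉ u2 := ⟨k12, k22, k32, k42⟩
  have q3 : z1 ∉ u3 ∧ z2 ∉ u3 ∧ z3 ∉ u3 ∧ z4 ∉ u3 := ⟨k13, k23, k33, k43⟩
  have q4 : z1 ∉ u4 ∧ z2 ∉ u4 ∧ z3 ∉ u4 ∧ z4 ∉ u4 := ⟨k14, k24, k34, k44⟩
  have sp : ∀ x y : S, ∀ α β γ δ : ℕ,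
      (∀ i, i = α ∨ i = β ∨ i = γ ∨ i = δ → i = z1 ∨ i = z2 ∨ i = z3 ∨ i = z4) →
      E (as f x y α β γ δ) (u0 ++ z1 :: (u1 ++ z2 :: (u2 ++ z3 :: (u3 ++ z4 :: u4)))) =
      E f u0 * (as f x y α β γ δ z1 * E f u1 * as f x y α β γ δ z2 * E f u2 *
        as f x y α β γ δ z3 * E f u3 * as f x y α β γ δ z4) * E f u4 := by
    intro x y α β γ δ hab
    exact E_split f _ (hne u0 q0 x y α β γ δ hab) (hne u1 q1 x y α β γ δ hab)
      (hne u2 q2 x y α β γ δ hab) (hne u3 q3 x y α β γ δ hab) (hne u4 q4 x y α β γ δ hab)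
  have b1 : ∀ x y : S, ∀ α β γ δ i, i = α ∨ i = β → as f x y α β γ δ i = x :=
    fun x y α β γ δ i hi => if_pos hi
  have b2 : ∀ x y : S, ∀ α β γ δ i, ¬ (i = α ∨ i = β) → (i = γ ∨ i = δ) → as f x y α β γ δ i = y :=
    fun x y α β γ δ i hi hi' => (if_neg hi).trans (if_pos hi')
  have n21 : ¬ z2 = z1 := fun h => n12 h.symm
  have n31 : ¬ z3 = z1 := fun h => n13 h.symm
  have n41 : ¬ z4 = z1 := fun h => n14 h.symm
  have n32 : ¬ z3 = z2 := fun h => n23 h.symm
  have n42 : ¬ z4 = z2 := fun h => n24 h.symm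
  have n43 : ¬ z4 = z3 := fun h => n34 h.symm
  refine all_orders (C := Cl f (u0 ++ z1 :: (u1 ++ z2 :: (u2 ++ z3 :: (u3 ++ z4 :: u4))))) Cl1 Cl2 Cl3
    ?_ ?_ ?_ hperm hn
  · intro x y
    rw [sp x y z1 z3 z2 z4 (by rintro i (rfl | rfl | rfl | rfl) <;> simp), sp x y z1 z4 z2 z3 (by rintro i (rfl | rfl | rfl | rfl) <;> simp), sp x y z2 z3 z1 z4 (by rintro i (rfl | rfl | rfl | rfl) <;> simp),
      sp x y z2 z4 z1 z3 (by rintro i (rfl | rfl | rfl | rfl) <;> simp)]
    simp only [as, n12, n13, n14, n23, n24, n34, n21, n31, n41, n32, n42, n43, true_or, or_true,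
      or_false, false_or, or_self, if_true, if_false]
    have h := pat1 K h2 x y (E f u1) (E f u2) (E f u3)
    have e : E f u0 * (x * E f u1 * y * E f u2 * x * E f u3 * y) * E f u4 -
        E f u0 * (x * E f u1 * y * E f u2 * y * E f u3 * x) * E f u4 -
        E f u0 * (y * E f u1 * x * E f u2 * x * E f u3 * y) * E f u4 +
        E f u0 * (y * E f u1 * x * E f u2 * y * E f u3 * x) * E f u4 =
        E f u0 * ((x * E f u1 * y - y * E f u1 * x) * E f u2 * (x * E f u3 * y - y * E f u3 * x)) *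
          E f u4 := by
      simp only [mul_sub, sub_mul, mul_add, add_mul, mul_assoc]
      try abel
    rw [e, h, mul_zero, zero_mul]
  · intro x y
    rw [sp x y z1 z2 z3 z4 (by rintro i (rfl | rfl | rfl | rfl) <;> simp), sp x y z1 z4 z3 z2 (by rintro i (rfl | rfl | rfl | rfl) <;> simp), sp x y z3 z2 z1 z4 (by rintro i (rfl | rfl | rfl | rfl) <;> simp),
      sp x y z3 z4 z1 z2 (by rintro i (rfl | rfl | rfl | rfl) <;> simp)]
    simp only [as, n12, n13, n14, n23, n24, n34, n21, n31, n41, n32, n42, n43, true_or, or_true,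
      or_false, false_or, or_self, if_true, if_false]
    have h := pat2 K h2 x y (E f u1) (E f u2) (E f u3)
    have e : E f u0 * (x * E f u1 * x * E f u2 * y * E f u3 * y) * E f u4 -
        E f u0 * (x * E f u1 * y * E f u2 * y * E f u3 * x) * E f u4 -
        E f u0 * (y * E f u1 * x * E f u2 * x * E f u3 * y) * E f u4 +
        E f u0 * (y * E f u1 * y * E f u2 * x * E f u3 * x) * E f u4 =
        E f u0 * (x * E f u1 * x * E f u2 * y * E f u3 * y - y * E f u1 * x * E f u2 * x * E f u3 * y -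
          x * E f u1 * y * E f u2 * y * E f u3 * x + y * E f u1 * y * E f u2 * x * E f u3 * x) *
          E f u4 := by
      simp only [mul_sub, sub_mul, mul_add, add_mul, mul_assoc]
      try abel
    rw [e, h, mul_zero, zero_mul]
  · intro x y
    rw [sp x y z1 z2 z4 z3 (by rintro i (rfl | rfl | rfl | rfl) <;> simp), sp x y z1 z3 z4 z2 (by rintro i (rfl | rfl | rfl | rfl) <;> simp), sp x y z4 z2 z1 z3 (by rintro i (rfl | rfl | rfl | rfl) <;> simp),
      sp x y z4 z3 z1 z2 (by rintro i (rfl | rfl | rfl | rfl) <;> simp)]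
    simp only [as, n12, n13, n14, n23, n24, n34, n21, n31, n41, n32, n42, n43, true_or, or_true,
      or_false, false_or, or_self, if_true, if_false]
    have h := pat3 K h2 x y (E f u1) (E f u2) (E f u3)
    have e : E f u0 * (x * E f u1 * x * E f u2 * y * E f u3 * y) * E f u4 -
        E f u0 * (x * E f u1 * y * E f u2 * x * E f u3 * y) * E f u4 -
        E f u0 * (y * E f u1 * x * E f u2 * y * E f u3 * x) * E f u4 +
        E f u0 * (y * E f u1 * y * E f u2 * x * E f u3 * x) * E f u4 =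
        E f u0 * (x * E f u1 * (x * E f u2 * y - y * E f u2 * x) * E f u3 * y -
          y * E f u1 * (x * E f u2 * y - y * E f u2 * x) * E f u3 * x) * E f u4 := by
      simp only [mul_sub, sub_mul, mul_add, add_mul, mul_assoc]
      try abel
    rw [e, h, mul_zero, zero_mul]

/-- the four letters get the values `a`, `b`, `c`, `d` -/
private def g4 (f : ℕ → S) (t s t' s' : ℕ) (a b c d : S) : ℕ → S := fun i =>
  if i = t then a else if i = s then b else if i = t' then c else if i = s' then d else f i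

private theorem E_add {w : List ℕ} (hw : w.Nodup) {z : ℕ} (hz : z ∈ w) {f1 f2 f3 : ℕ → S}
    (h1 : ∀ i, i ≠ z → f1 i = f3 i) (h2 : ∀ i, i ≠ z → f2 i = f3 i) (h3 : f3 z = f1 z + f2 z) :
    E f3 w = E f1 w + E f2 w := by
  obtain ⟨u, v, rfl⟩ := List.append_of_mem hz
  have k := (List.nodup_cons.1 (List.nodup_middle.1 hw)).1
  rw [List.mem_append, not_or] at k
  have hu : ∀ i ∈ u, i ≠ z := fun i hi e => k.1 (e ▸ hi)
  have hv : ∀ i ∈ v, i ≠ z := fun i hi e => k.2 (e ▸ hi)
  simp only [E_append, E_cons]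
  rw [E_congr (fun i hi => h1 i (hu i hi)), E_congr (fun i hi => h2 i (hu i hi)),
    E_congr (f := f1) (fun i hi => h1 i (hv i hi)), E_congr (f := f2) (fun i hi => h2 i (hv i hi)), h3]
  noncomm_ring

private theorem polar {G : S → S → S → S → S} (g1 : ∀ a a' b c d, G (a + a') b c d = G a b c d + G a' b c d)
    (g2 : ∀ a b b' c d, G a (b + b') c d = G a b c d + G a b' c d)
    (g3 : ∀ a b c c' d, G a b (c + c') d = G a b c d + G a b c' d)
    (g4 : ∀ a b c d d', G a b c (d + d') = G a b c d + G a b c d')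
    (q : ∀ x y, G x x y y - G x y y x - G y x x y + G y y x x = 0) (T U T' U' : S) :
    G T U T' U' - G T U' T' U - (G T' U T U' - G T' U' T U) +
      (G T U U' T' - G T T' U' U - (G U' U T T' - G U' T' T U)) +
      (G U T T' U' - G U U' T' T - (G T' T U U' - G T' U' U T) +
      (G U T U' T' - G U T' U' T - (G U' T U T' - G U' T' U T))) = 0 := by
  have q1 := q (T + U) (T' + U')
  have q2 := q (T + U) T'
  have q3 := q (T + U) U'
  have q4 := q T (T' + U')
  have q5 := q U (T' + U')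
  have q6 := q T T'
  have q7 := q T U'
  have q8 := q U T'
  have q9 := q U U'
  have e : G T U T' U' - G T U' T' U - (G T' U T U' - G T' U' T U) +
      (G T U U' T' - G T T' U' U - (G U' U T T' - G U' T' T U)) +
      (G U T T' U' - G U U' T' T - (G T' T U U' - G T' U' U T) +
      (G U T U' T' - G U T' U' T - (G U' T U T' - G U' T' U T))) =
      (G (T + U) (T + U) (T' + U') (T' + U') - G (T + U) (T' + U') (T' + U') (T + U) -
        G (T' + U') (T + U) (T + U) (T' + U') + G (T' + U') (T' + U') (T + U) (T + U)) -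
      (G (T + U) (T + U) T' T' - G (T + U) T' T' (T + U) - G T' (T + U) (T + U) T' +
        G T' T' (T + U) (T + U)) -
      (G (T + U) (T + U) U' U' - G (T + U) U' U' (T + U) - G U' (T + U) (T + U) U' +
        G U' U' (T + U) (T + U)) -
      (G T T (T' + U') (T' + U') - G T (T' + U') (T' + U') T - G (T' + U') T T (T' + U') +
        G (T' + U') (T' + U') T T) -
      (G U U (T' + U') (T' + U') - G U (T' + U') (T' + U') U - G (T' + U') U U (T' + U') +
        G (T' + U') (T' + U') U U) +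
      (G T T T' T' - G T T' T' T - G T' T T T' + G T' T' T T) +
      (G T T U' U' - G T U' U' T - G U' T T U' + G U' U' T T) +
      (G U U T' T' - G U T' T' U - G T' U U T' + G T' T' U U) +
      (G U U U' U' - G U U' U' U - G U' U U U' + G U' U' U U) := by
    simp only [g1, g2, g3, g4]
    abel
  rw [e, q1, q2, q3, q4, q5, q6, q7, q8, q9]
  simp

private theorem G_zero (K : ∀ x y z : S, (x*y - y*x)*z = z*(x*y - y*x))
    (h2 : ∀ x : S, (2 : ℤ) • x = 0 → x = 0) (f : ℕ → S) {w : List ℕ} (hw : w.Nodup) {t s t' s' : ℕ}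
    (ht : t ∈ w) (hs : s ∈ w) (ht' : t' ∈ w) (hs' : s' ∈ w) (n1 : t ≠ s) (n2 : t ≠ t') (n3 : t ≠ s')
    (n4 : s ≠ t') (n5 : s ≠ s') (n6 : t' ≠ s') {G : S → S → S → S → S}
    (hG : ∀ a b c d, G a b c d = E (g4 f t s t' s' a b c d) w) (T U T' U' : S) :
    G T U T' U' - G T U' T' U - (G T' U T U' - G T' U' T U) +
      (G T U U' T' - G T T' U' U - (G U' U T T' - G U' T' T U)) +
      (G U T T' U' - G U U' T' T - (G T' T U U' - G T' U' U T) +
      (G U T U' T' - G U T' U' T - (G U' T U T' - G U' T' U T))) = 0 := by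
  have hn : [t, s, t', s'].Nodup := by simp [n1, n2, n3, n4, n5, n6]
  refine polar ?_ ?_ ?_ ?_ ?_ T U T' U'
  · intro a a' b c d
    rw [hG, hG, hG]
    refine E_add hw ht (fun i hi => ?_) (fun i hi => ?_) ?_
    · simp only [g4, if_neg hi]
    · simp only [g4, if_neg hi]
    · simp only [g4, if_true]
  · intro a b b' c d
    rw [hG, hG, hG]
    refine E_add hw hs (fun i hi => ?_) (fun i hi => ?_) ?_
    · simp only [g4, if_neg hi]
    · simp only [g4, if_neg hi]
    · simp only [g4, if_true, if_neg n1.symm]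
  · intro a b c c' d
    rw [hG, hG, hG]
    refine E_add hw ht' (fun i hi => ?_) (fun i hi => ?_) ?_
    · simp only [g4, if_neg hi]
    · simp only [g4, if_neg hi]
    · simp only [g4, if_true, if_neg n2.symm, if_neg n4.symm]
  · intro a b c d d'
    rw [hG, hG, hG]
    refine E_add hw hs' (fun i hi => ?_) (fun i hi => ?_) ?_
    · simp only [g4, if_neg hi]
    · simp only [g4, if_neg hi]
    · simp only [g4, if_true, if_neg n3.symm, if_neg n5.symm, if_neg n6.symm]
  · intro x y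
    have h := Cl_all K h2 f hw ht hs ht' hs' hn x y
    have e1 : g4 f t s t' s' x x y y = as f x y t s t' s' := by
      funext i
      by_cases i1 : i = t
      · subst i1; simp [g4, as]
      by_cases i2 : i = s
      · subst i2; simp [g4, as, n1.symm]
      by_cases i3 : i = t'
      · subst i3; simp [g4, as, n2.symm, n4.symm]
      by_cases i4 : i = s'
      · subst i4; simp [g4, as, n3.symm, n5.symm, n6.symm]
      simp [g4, as, i1, i2, i3, i4]
    have e2 : g4 f t s t' s' x y y x = as f x y t s' t' s := by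
      funext i
      by_cases i1 : i = t
      · subst i1; simp [g4, as]
      by_cases i2 : i = s
      · subst i2; simp [g4, as, n1.symm, n5]
      by_cases i3 : i = t'
      · subst i3; simp [g4, as, n2.symm, n4.symm, n6]
      by_cases i4 : i = s'
      · subst i4; simp [g4, as, n3.symm, n5.symm, n6.symm]
      simp [g4, as, i1, i2, i3, i4]
    have e3 : g4 f t s t' s' y x x y = as f x y t' s t s' := by
      funext i
      by_cases i1 : i = t
      · subst i1; simp [g4, as, n1, n2]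
      by_cases i2 : i = s
      · subst i2; simp [g4, as, n1.symm]
      by_cases i3 : i = t'
      · subst i3; simp [g4, as, n2.symm, n4.symm]
      by_cases i4 : i = s'
      · subst i4; simp [g4, as, n3.symm, n5.symm, n6.symm]
      simp [g4, as, i1, i2, i3, i4]
    have e4 : g4 f t s t' s' y y x x = as f x y t' s' t s := by
      funext i
      by_cases i1 : i = t
      · subst i1; simp [g4, as, n2, n3]
      by_cases i2 : i = s
      · subst i2; simp [g4, as, n1.symm, n4, n5]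
      by_cases i3 : i = t'
      · subst i3; simp [g4, as, n2.symm, n4.symm]
      by_cases i4 : i = s'
      · subst i4; simp [g4, as, n3.symm, n5.symm, n6.symm]
      simp [g4, as, i1, i2, i3, i4]
    rw [hG, hG, hG, hG, e1, e2, e3, e4]
    exact h

end rng

/-- a transposition on `ℕ` -/
private def sw (a b i : ℕ) : ℕ := if i = a then b else if i = b then a else i

private theorem pN_swap {n : ℕ} (a b : Fin n) (i : ℕ) : pN n (Equiv.swap a b) i = sw a b i := by
  unfold pN sw
  by_cases hi : i < n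
  · rw [dif_pos hi, Equiv.swap_apply_def]
    have e1 : ((⟨i, hi⟩ : Fin n) = a) ↔ i = a := Fin.ext_iff
    have e2 : ((⟨i, hi⟩ : Fin n) = b) ↔ i = b := Fin.ext_iff
    simp only [e1, e2]
    split_ifs <;> rfl
  · rw [dif_neg hi, if_neg, if_neg]
    · intro h
      rw [h] at hi
      exact hi b.2
    · intro h
      rw [h] at hi
      exact hi a.2

/-- the word `w` with the letters `t`, `s`, `t'`, `s'` replaced -/
private noncomputable def Wd (w : List ℕ) (t s t' s' α β γ δ : ℕ) : P :=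
  mon (w.map fun i => if i = t then α else if i = s then β else if i = t' then γ else
    if i = s' then δ else i)

private theorem Wd_self (w : List ℕ) (t s t' s' : ℕ) : Wd w t s t' s' t s t' s' = mon w := by
  unfold Wd
  congr 1
  conv_rhs => rw [← List.map_id w]
  refine List.map_congr_left fun i _ => ?_
  split_ifs with h1 h2 h3 h4
  · exact h1.symm
  · exact h2.symm
  · exact h3.symm
  · exact h4.symm
  · rfl

private theorem rn_Wd {n : ℕ} (w : List ℕ) {t s t' s' : ℕ} (a b : Fin n)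
    (ha : (a : ℕ) = t ∨ (a : ℕ) = s ∨ (a : ℕ) = t' ∨ (a : ℕ) = s')
    (hb : (b : ℕ) = t ∨ (b : ℕ) = s ∨ (b : ℕ) = t' ∨ (b : ℕ) = s') (α β γ δ : ℕ) :
    rn n (Equiv.swap a b) (Wd w t s t' s' α β γ δ) =
      Wd w t s t' s' (sw a b α) (sw a b β) (sw a b γ) (sw a b δ) := by
  unfold Wd
  rw [rn_mon, List.map_map]
  congr 1
  refine List.map_congr_left fun i _ => ?_
  rw [Function.comp_apply, pN_swap]
  split_ifs with h1 h2 h3 h4
  · rfl
  · rfl
  · rfl
  · rfl
  · unfold sw
    rw [if_neg, if_neg]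
    · rintro rfl
      rcases hb with h | h | h | h
      · exact h1 h
      · exact h2 h
      · exact h3 h
      · exact h4 h
    · rintro rfl
      rcases ha with h | h | h | h
      · exact h1 h
      · exact h2 h
      · exact h3 h
      · exact h4 h

private theorem pi_Wd {S : Type} [Ring S] (π : P →+* S) (w : List ℕ) (t s t' s' α β γ δ : ℕ) :
    π (Wd w t s t' s' α β γ δ) =
      E (g4 (fun i => π (X i)) t s t' s' (π (X α)) (π (X β)) (π (X γ)) (π (X δ))) w := by
  unfold Wd E mon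
  rw [List.map_map, map_list_prod, List.map_map]
  congr 1
  refine List.map_congr_left fun i _ => ?_
  rw [Function.comp_apply, Function.comp_apply]
  unfold g4
  split_ifs <;> rfl

/-- the linear map of the theorem -/
private noncomputable def LL (n : ℕ) (t s t' s' : Fin n) : P →ₗ[ℤ] P :=
  (LinearMap.id + tl (rn n (Equiv.swap t s))).comp
    ((LinearMap.id + tl (rn n (Equiv.swap t' s'))).comp
      ((LinearMap.id - tl (rn n (Equiv.swap t t'))).comp
        (LinearMap.id - tl (rn n (Equiv.swap s s')))))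

private theorem LL_eq (n : ℕ) (t s t' s' : Fin n) (f : P) :
    LL n t s t' s' f =
      (let a := f - rn n (Equiv.swap s s') f
       let b := a - rn n (Equiv.swap t t') a
       let c := b + rn n (Equiv.swap t' s') b
       c + rn n (Equiv.swap t s) c) := rfl

private theorem quot_K {D : Submodule ℤ P} (hD : IsT D) (h : ll ∈ D) (f g k : P) :
    (f * g - g * f) * k - k * (f * g - g * f) ∈ D := by
  have hs : ∀ f : P, f - (aug f) • (1 : P) ∈ Pp := by
    intro f
    rw [mem_Pp, map_sub, map_zsmul, map_one]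
    simp
  have e : (f * g - g * f) * k - k * (f * g - g * f) =
      ((f - (aug f) • (1 : P)) * (g - (aug g) • (1 : P)) -
        (g - (aug g) • (1 : P)) * (f - (aug f) • (1 : P))) * (k - (aug k) • (1 : P)) -
      (k - (aug k) • (1 : P)) * ((f - (aug f) • (1 : P)) * (g - (aug g) • (1 : P)) -
        (g - (aug g) • (1 : P)) * (f - (aug f) • (1 : P))) := by
    simp only [sub_mul, mul_sub, smul_mul_assoc, mul_smul_comm, one_mul, mul_one, smul_sub]
    simp only [mul_assoc]
    module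
  rw [e]
  exact ll_subst hD h (hs f) (hs g) (hs k)

theorem R22P {p : ℕ} (hp : p.Prime) (h5 : 5 ≤ p) {D : Submodule ℤ P} (hD : IsT D) (hm : Mul ((p : ℤ) ^ 2) D)
    (h : ll ∈ D) {n : ℕ} {t s t' s' : Fin n} (h1 : t ≠ s) (h2 : t ≠ t') (h3 : t ≠ s') (h4 : s ≠ t') (h6 : s ≠ s')
    (h7 : t' ≠ s') {f : P} (hf : f ∈ Ml n) :
    let a := f - rn n (Equiv.swap s s') f
    let b := a - rn n (Equiv.swap t t') a
    let c := b + rn n (Equiv.swap t' s') b
    c + rn n (Equiv.swap t s) c ∈ D := by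
  show LL n t s t' s' f ∈ D
  refine Ml_ind (C := fun f => LL n t s t' s' f ∈ D) ?_ ?_ ?_ ?_ hf
  · rw [map_zero]; exact D.zero_mem
  · intro f g hf hg; rw [map_add]; exact D.add_mem hf hg
  · intro c f hf; rw [map_smul]; exact D.smul_mem c hf
  intro w hw
  obtain ⟨S, _, π, hsur, hπ⟩ := exists_quot hD
  rw [← hπ]
  have K : ∀ x y z : S, (x * y - y * x) * z = z * (x * y - y * x) := by
    intro x y z
    obtain ⟨f, rfl⟩ := hsur x
    obtain ⟨g, rfl⟩ := hsur y
    obtain ⟨k, rfl⟩ := hsur z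
    have := (hπ _).2 (quot_K hD h f g k)
    rw [map_sub, map_mul, map_mul, map_sub, map_mul, map_mul] at this
    exact sub_eq_zero.1 this
  have h2' : ∀ x : S, (2 : ℤ) • x = 0 → x = 0 := by
    intro x hx
    obtain ⟨f, rfl⟩ := hsur x
    have hfD : (2 : ℤ) • f ∈ D := (hπ _).1 (by rw [map_zsmul]; exact hx)
    have hfP : f ∈ Pp := by
      have h8 := hD.le hfD
      rw [mem_Pp, map_zsmul, smul_eq_mul] at h8
      rw [mem_Pp]
      omega
    refine (hπ _).2 (cancel hp hm ?_ hfP hfD)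
    intro h9
    have h10 := Int.le_of_dvd (by norm_num) h9
    omega
  have m : ∀ a : Fin n, (a : ℕ) ∈ w := fun a => (hw.mem_iff).2 (List.mem_range.2 a.2)
  have hnd : w.Nodup := (hw.nodup_iff).2 List.nodup_range
  have n1 : (t : ℕ) ≠ s := fun e => h1 (Fin.ext e)
  have n2 : (t : ℕ) ≠ t' := fun e => h2 (Fin.ext e)
  have n3 : (t : ℕ) ≠ s' := fun e => h3 (Fin.ext e)
  have n4 : (s : ℕ) ≠ t' := fun e => h4 (Fin.ext e)
  have n5 : (s : ℕ) ≠ s' := fun e => h6 (Fin.ext e)
  have n6 : (t' : ℕ) ≠ s' := fun e => h7 (Fin.ext e)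
  have hG := G_zero K h2' (fun i => π (X i)) hnd (m t) (m s) (m t') (m s') n1 n2 n3 n4 n5 n6
    (G := fun a b c d => E (g4 (fun i => π (X i)) t s t' s' a b c d) w) (fun _ _ _ _ => rfl)
    (π (X t)) (π (X s)) (π (X t')) (π (X s'))
  rw [LL_eq, ← Wd_self w t s t' s']
  have r1 := fun α β γ δ => rn_Wd w (t := t) (s := s) (t' := t') (s' := s') s s' (by simp) (by simp) α β γ δ
  have r2 := fun α β γ δ => rn_Wd w (t := t) (s := s) (t' := t') (s' := s') t t' (by simp) (by simp) α β γ δ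
  have r3 := fun α β γ δ => rn_Wd w (t := t) (s := s) (t' := t') (s' := s') t' s' (by simp) (by simp) α β γ δ
  have r4 := fun α β γ δ => rn_Wd w (t := t) (s := s) (t' := t') (s' := s') t s (by simp) (by simp) α β γ δ
  simp only [map_sub, map_add, r1, r2, r3, r4]
  simp only [sw, n1, n2, n3, n4, n5, n6, n1.symm, n2.symm, n3.symm, n4.symm, n5.symm, n6.symm,
    if_true, if_false, pi_Wd]
  exact hG

end ADC
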