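import Pool.Agent.ADC.Det
import Pool.Agent.ADC.R22P

/-!
# ADC-DetP

The detection lemma for a T-ideal `D` with `p Pp ≤ D`, `ll ∈ D`: apply `det_lt`, `det_eq` to `M = Ml n / (D ∩ Ml n)` (or the
image of `Ml n` in `P / D`), with the action of `Perm (Fin n)` induced by `rn n σ` (`Ml_rn`, `D` is invariant: `TOp_rn`/`IsT.subst`).
`p M = 0` as `Ml n ≤ Pp` (`n ≥ 1`), `R22` by `R22P`.  `aA`, `sA` on `M` are induced by `aP`, `sP` (`aP_eq`, `sP_eq`).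
-/

namespace ADC

open AD ADN

/-- the module `Ml n / (D ∩ Ml n)` with its action -/
private theorem dp_mod {n p : ℕ} (hp : p.Prime) (h5 : 5 ≤ p) {D : Submodule ℤ P} (hD : IsT D) (hm : Mul p D)
    (h : ll ∈ D) (h1 : 1 ≤ n) :
    ∃ (M : Type) (_ : AddCommGroup M) (ρ : Equiv.Perm (Fin n) →* AddMonoid.End M) (q : (Ml n) →+ M),
      (∀ m : M, (p : ℤ) • m = 0) ∧ R22 ρ ∧ (∀ f : Ml n, q f = 0 ↔ (f : P) ∈ D) ∧
      (∀ (σ : Equiv.Perm (Fin n)) (f : Ml n), ρ σ (q f) = q ⟨rn n σ f, Ml_rn σ f.2⟩) := by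
  let L : Equiv.Perm (Fin n) → (Ml n) →ₗ[ℤ] (Ml n) := fun σ => (tl (rn n σ)).restrict (fun f hf => Ml_rn σ hf)
  have hL : ∀ σ (f : Ml n), L σ f = ⟨rn n σ f, Ml_rn σ f.2⟩ := fun σ f => rfl
  let K : Submodule ℤ (Ml n) := D.comap (Ml n).subtype
  have hK : ∀ σ, K ≤ K.comap (L σ) := by
    intro σ f hf
    exact hD.subst _ (rn_isSubst n σ) _ hf
  let ρ : Equiv.Perm (Fin n) →* AddMonoid.End ((Ml n) ⧸ K) :=
    { toFun := fun σ => (Submodule.mapQ K K (L σ) (hK σ)).toAddMonoidHom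
      map_one' := by
        refine AddMonoidHom.ext fun m => ?_
        obtain ⟨f, rfl⟩ := K.mkQ_surjective m
        show K.mkQ (L 1 f) = K.mkQ f
        rw [hL]
        congr 1
        exact Subtype.ext (rn_one n f)
      map_mul' := by
        intro σ τ
        refine AddMonoidHom.ext fun m => ?_
        obtain ⟨f, rfl⟩ := K.mkQ_surjective m
        show K.mkQ (L (σ * τ) f) = K.mkQ (L σ (L τ f))
        rw [hL, hL, hL]
        congr 1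
        exact Subtype.ext (rn_rn n σ τ f).symm }
  have hρ : ∀ σ (f : Ml n), ρ σ (K.mkQ f) = K.mkQ (L σ f) := fun σ f => rfl
  refine ⟨(Ml n) ⧸ K, inferInstance, ρ, K.mkQ.toAddMonoidHom, ?_, ?_, ?_, fun σ f => rfl⟩
  · intro m
    obtain ⟨f, rfl⟩ := K.mkQ_surjective m
    rw [← map_zsmul]
    refine (Submodule.Quotient.mk_eq_zero K).2 ?_
    exact hm _ (Ml_Pp h1 f.2)
  · intro t s t' s' h1 h2 h3 h4 h6 h7 m
    obtain ⟨f, rfl⟩ := K.mkQ_surjective m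
    have h8 := R22P hp h5 hD hm.sq h h1 h2 h3 h4 h6 h7 f.2
    intro a b c
    have e : c + ρ (Equiv.swap t s) c = K.mkQ ⟨_, (by
      have ha := (Ml n).sub_mem f.2 (Ml_rn (Equiv.swap s s') f.2)
      have hb := (Ml n).sub_mem ha (Ml_rn (Equiv.swap t t') ha)
      have hc := (Ml n).add_mem hb (Ml_rn (Equiv.swap t' s') hb)
      exact (Ml n).add_mem hc (Ml_rn (Equiv.swap t s) hc))⟩ := rfl
    rw [e]
    exact (Submodule.Quotient.mk_eq_zero K).2 h8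
  · intro f
    exact Submodule.Quotient.mk_eq_zero K

private theorem dp_aA {n : ℕ} {M : Type} [AddCommGroup M] {ρ : Equiv.Perm (Fin n) →* AddMonoid.End M}
    {q : (Ml n) →+ M} (hq : ∀ (σ : Equiv.Perm (Fin n)) (f : Ml n), ρ σ (q f) = q ⟨rn n σ f, Ml_rn σ f.2⟩) (j : ℕ)
    (f : Ml n) : aA ρ j (q f) = q ⟨aP n j f, Ml_aP j f.2⟩ := by
  have e : (⟨aP n j f, Ml_aP j f.2⟩ : Ml n) =
      ∑ σ ∈ aF n j, ((Equiv.Perm.sign σ : ℤˣ) : ℤ) • (⟨rn n σ f, Ml_rn σ f.2⟩ : Ml n) := by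
    refine Subtype.ext ?_
    rw [AddSubmonoidClass.coe_finsetSum]
    have h1 : aP n j (f : P) = ∑ σ ∈ aF n j, ((Equiv.Perm.sign σ : ℤˣ) : ℤ) • rn n σ (f : P) := by
      unfold aP
      rw [LinearMap.sum_apply]
      rfl
    exact h1
  rw [e, map_sum]
  unfold aA
  rw [AddMonoidHom.finsetSum_apply]
  refine Finset.sum_congr rfl fun σ _ => ?_
  rw [map_zsmul, ← hq]
  rfl

private theorem dp_sA {n : ℕ} {M : Type} [AddCommGroup M] {ρ : Equiv.Perm (Fin n) →* AddMonoid.End M}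
    {q : (Ml n) →+ M} (hq : ∀ (σ : Equiv.Perm (Fin n)) (f : Ml n), ρ σ (q f) = q ⟨rn n σ f, Ml_rn σ f.2⟩) (j : ℕ)
    (f : Ml n) : sA ρ j (q f) = q ⟨sP n j f, Ml_sP j f.2⟩ := by
  have e : (⟨sP n j f, Ml_sP j f.2⟩ : Ml n) = ∑ σ ∈ sF n j, (⟨rn n σ f, Ml_rn σ f.2⟩ : Ml n) := by
    refine Subtype.ext ?_
    rw [AddSubmonoidClass.coe_finsetSum]
    have h1 : sP n j (f : P) = ∑ σ ∈ sF n j, rn n σ (f : P) := by
      unfold sP
      rw [LinearMap.sum_apply]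
      rfl
    exact h1
  rw [e, map_sum]
  unfold sA
  rw [AddMonoidHom.finsetSum_apply]
  refine Finset.sum_congr rfl fun σ _ => ?_
  exact hq σ f

theorem detP_lt {n p : ℕ} (hp : p.Prime) (h5 : 5 ≤ p) {D : Submodule ℤ P} (hD : IsT D) (hm : Mul p D)
    (h : ll ∈ D) (h1 : 1 ≤ n) (hn : n < p) {t : P} (ht : t ∈ Ml n) (ht2 : t ∉ D) :
    ∃ (σ : Equiv.Perm (Fin n)) (j : ℕ), 1 ≤ j ∧ j ≤ n ∧ sP n (j - 1) (aP n j (rn n σ t)) ∉ D := by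
  obtain ⟨M, _, ρ, q, hM, hR, hq0, hq⟩ := dp_mod hp h5 hD hm h h1
  have hne : q ⟨t, ht⟩ ≠ 0 := fun h0 => ht2 ((hq0 _).1 h0)
  obtain ⟨σ, j, hj1, hj2, hj⟩ := det_lt hp h5 hM ρ hR h1 hn hne
  refine ⟨σ, j, hj1, hj2, fun h0 => hj ?_⟩
  rw [hq, dp_aA hq, dp_sA hq]
  exact (hq0 _).2 h0

theorem detP_eq {p : ℕ} (hp : p.Prime) (h5 : 5 ≤ p) {D : Submodule ℤ P} (hD : IsT D) (hm : Mul p D)
    (h : ll ∈ D) {t : P} (ht : t ∈ Ml p) (ht2 : t ∉ D) :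
    ∃ (σ : Equiv.Perm (Fin p)) (j : ℕ), 1 ≤ j ∧ j < p ∧ sP p j (aP p j (rn p σ t)) ∉ D := by
  obtain ⟨M, _, ρ, q, hM, hR, hq0, hq⟩ := dp_mod hp h5 hD hm h (n := p) (by omega)
  have hne : q ⟨t, ht⟩ ≠ 0 := fun h0 => ht2 ((hq0 _).1 h0)
  obtain ⟨σ, j, hj1, hj2, hj⟩ := det_eq hp h5 hM ρ hR hne
  refine ⟨σ, j, hj1, hj2, fun h0 => hj ?_⟩
  rw [hq, dp_aA hq, dp_sA hq]
  exact (hq0 _).2 h0

end ADC
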