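import Pool.Agent.ADC.RV

/-!
# ADC-Hj

The image of `sP n (j-1) ∘ aP n j` is cyclic modulo `D`, for `n < p`, `ll ∈ D`, `p Pp ≤ D`.

`j = 1`: `aP n 1 = id`, `sP n 0` maps every word of `Ml n` to the same element `sP n 0 (mw n)`.  Let `j = k + 1`, `1 ≤ k < n`.
By the decomposition into cosets (on the right), `aP n (k+1) f = aP n k g`, `g = ∑_{t ≤ k} sgn(τ_t) f^{τ_t}`, `τ_t = (t k)`, and by `RVl`,
`2 sP n k (aP n k g) ≡ vv n k (gA k g) (gB n k g)`.  For `f = mon w`, `ε = sgl w (range (k+1))`: `gA k g = ε` for `j` odd and `0` for `j`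
even, and `gB n k g = n ε` for `j` odd.  So `Y = vv n k 0 1` (`j` even) or `vv n k 1 n` (`j` odd) does it.
The signs: with `c v t = 1` if `v` is before `t` (or equal), else `-1`, `T = {0..k}`: `sgn(τ_t) sgl w (τ_t (range k)) = ε ∏_{v ∈ T} c v t`, and
`∑_{t ∈ T} c t s ∏_{v ∈ T} c v t = ∏_{v ∈ T} c v s - [|T| even]` (induction over `T`, removing the last letter).
-/

namespace ADC

open AD ADN

private theorem hj_idx {τ : ℕ → ℕ} (h : ∀ a, τ (τ a) = a) (w : List ℕ) (a : ℕ) :
    (w.map τ).idxOf a = w.idxOf (τ a) := by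
  induction w with
  | nil => rfl
  | cons b w ih =>
    rw [List.map_cons]
    by_cases hb : b = τ a
    · have h1 : τ b = a := by rw [hb, h]
      rw [List.idxOf_cons_eq _ h1, List.idxOf_cons_eq _ hb]
    · have h1 : τ b ≠ a := fun h' => hb (by rw [← h', h])
      rw [List.idxOf_cons_ne _ h1, List.idxOf_cons_ne _ hb, ih]

private theorem hj_bef {τ : ℕ → ℕ} (h : ∀ a, τ (τ a) = a) (w : List ℕ) (a b : ℕ) :
    bef (w.map τ) a b = bef w (τ a) (τ b) := by
  unfold bef
  rw [hj_idx h, hj_idx h]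

private theorem hj_sgl {τ : ℕ → ℕ} (h : ∀ a, τ (τ a) = a) (w L : List ℕ) :
    sgl (w.map τ) L = sgl w (L.map τ) := by
  induction L with
  | nil => rfl
  | cons u U ih =>
    rw [List.map_cons]
    show (U.map (fun v => bef (w.map τ) u v)).prod * sgl (w.map τ) U =
      ((U.map τ).map (fun v => bef w (τ u) v)).prod * sgl w (U.map τ)
    rw [ih, List.map_map]
    congr 2
    refine List.map_congr_left ?_
    intro v _
    exact hj_bef h w u v

private theorem hj_app (w A C : List ℕ) : sgl w (A ++ C) = sgl w A * sgl w C *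
    (A.map (fun a => (C.map (fun v => bef w a v)).prod)).prod := by
  induction A with
  | nil => simp [sgl]
  | cons a A ih =>
    rw [List.cons_append]
    show ((A ++ C).map (fun v => bef w a v)).prod * sgl w (A ++ C) =
      ((A.map (fun v => bef w a v)).prod * sgl w A) * sgl w C * _
    rw [ih, List.map_append, List.prod_append, List.map_cons, List.prod_cons]
    ring

private theorem hj_sq (w : List ℕ) (a b : ℕ) : bef w a b * bef w a b = 1 := by
  unfold bef
  split_ifs <;> norm_num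

private theorem hj_lsq (w A : List ℕ) (t : ℕ) :
    (A.map (fun v => bef w v t)).prod * (A.map (fun v => bef w v t)).prod = 1 := by
  rw [← List.prod_map_mul]
  refine List.prod_eq_one ?_
  intro x hx
  obtain ⟨v, _, rfl⟩ := List.mem_map.1 hx
  exact hj_sq w v t

private theorem hj_key {w A M : List ℕ} {t k : ℕ}
    (hM : ∀ m ∈ M, bef w t m = - bef w m t ∧ bef w k m = - bef w m k) (htk : bef w t k = - bef w k t) :
    sgl w (A ++ k :: M) = - (sgl w (A ++ t :: (M ++ [k])) *
      ((A.map (fun v => bef w v t)).prod * ((M.map (fun v => bef w v t)).prod * bef w k t))) := by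
  have e1 : sgl w (A ++ k :: M) = sgl w A * ((M.map (fun v => bef w k v)).prod * sgl w M) *
      ((A.map (fun v => bef w v k)).prod * (A.map (fun a => (M.map (fun v => bef w a v)).prod)).prod) := by
    rw [hj_app, ← List.prod_map_mul]
    rfl
  have e2 : sgl w (A ++ t :: (M ++ [k])) = sgl w A * (((M.map (fun v => bef w t v)).prod * bef w t k) *
      (sgl w M * (M.map (fun v => bef w v k)).prod)) *
      ((A.map (fun v => bef w v t)).prod * ((A.map (fun a => (M.map (fun v => bef w a v)).prod)).prod *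
        (A.map (fun v => bef w v k)).prod)) := by
    rw [hj_app]
    have e3 : sgl w (t :: (M ++ [k])) = ((M.map (fun v => bef w t v)).prod * bef w t k) *
      (sgl w M * (M.map (fun v => bef w v k)).prod) := by
      show ((M ++ [k]).map (fun v => bef w t v)).prod * sgl w (M ++ [k]) = _
      rw [hj_app]
      simp [sgl]
    rw [e3, ← List.prod_map_mul, ← List.prod_map_mul]
    congr 2
    refine List.map_congr_left ?_
    intro a _
    simp
  have e4 : (M.map (fun v => bef w k v)).prod = (M.map (fun v => bef w t v)).prod *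
      (M.map (fun v => bef w v k)).prod * (M.map (fun v => bef w v t)).prod := by
    rw [← List.prod_map_mul, ← List.prod_map_mul]
    congr 1
    refine List.map_congr_left ?_
    intro m hm
    obtain ⟨h1, h2⟩ := hM m hm
    rw [h1, h2]
    have := hj_sq w m t
    linear_combination (- bef w m k) * (1 - this)
  have e5 := hj_lsq w A t
  have e6 := hj_sq w k t
  rw [e1, e2, e4, htk]
  linear_combination (-(sgl w A * ((M.map (fun v => bef w t v)).prod *
      (M.map (fun v => bef w v k)).prod * (M.map (fun v => bef w v t)).prod) * sgl w M *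
      ((A.map (fun v => bef w v k)).prod * (A.map (fun a => (M.map (fun v => bef w a v)).prod)).prod))) *
      (e5 * (bef w k t * bef w k t) + e6)

private theorem hj_sum (h : ℕ → ℕ) (θ : ℕ) (T : Finset ℕ) (hT : Set.InjOn h T) :
    ∑ t ∈ T, (if h t ≤ θ then (1 : ℤ) else -1) * ∏ v ∈ T, (if h v ≤ h t then (1 : ℤ) else -1) =
      ∏ v ∈ T, (if h v ≤ θ then (1 : ℤ) else -1) - (if T.card % 2 = 0 then 1 else 0) := by
  induction T using Finset.induction_on_max_value h with
  | empty => simp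
  | insert a s ha hmax ih =>
    have ih' := ih (hT.mono (by intro x hx; simp; exact Or.inr hx))
    have hlt : ∀ x ∈ s, h x < h a := by
      intro x hx
      refine lt_of_le_of_ne (hmax x hx) fun he => ?_
      have := hT (by simp [hx]) (by simp) he
      exact ha (this ▸ hx)
    rw [Finset.sum_insert ha]
    have h1 : ∏ v ∈ insert a s, (if h v ≤ h a then (1 : ℤ) else -1) = 1 := by
      refine Finset.prod_eq_one fun v hv => ?_
      rcases Finset.mem_insert.1 hv with rfl | hv
      · simp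
      · rw [if_pos (hmax v hv)]
    have h2 : ∑ t ∈ s, (if h t ≤ θ then (1 : ℤ) else -1) *
        ∏ v ∈ insert a s, (if h v ≤ h t then (1 : ℤ) else -1) =
        - ∑ t ∈ s, (if h t ≤ θ then (1 : ℤ) else -1) * ∏ v ∈ s, (if h v ≤ h t then (1 : ℤ) else -1) := by
      rw [← Finset.sum_neg_distrib]
      refine Finset.sum_congr rfl fun t ht => ?_
      rw [Finset.prod_insert ha, if_neg (not_le.2 (hlt t ht))]
      ring
    rw [h1, h2, ih', Finset.card_insert_of_notMem ha, Finset.prod_insert ha]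
    by_cases hθ : h a ≤ θ
    · have h3 : ∏ v ∈ s, (if h v ≤ θ then (1 : ℤ) else -1) = 1 := by
        refine Finset.prod_eq_one fun v hv => ?_
        rw [if_pos ((hmax v hv).trans hθ)]
      rw [h3, if_pos hθ]
      rcases Nat.mod_two_eq_zero_or_one s.card with h4 | h4
      · have h5 : (s.card + 1) % 2 = 1 := by omega
        rw [h4, h5]
        norm_num
      · have h5 : (s.card + 1) % 2 = 0 := by omega
        rw [h4, h5]
        norm_num
    · rw [if_neg hθ]
      rcases Nat.mod_two_eq_zero_or_one s.card with h4 | h4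
      · have h5 : (s.card + 1) % 2 = 1 := by omega
        rw [h4, h5]
        norm_num
        ring
      · have h5 : (s.card + 1) % 2 = 0 := by omega
        rw [h4, h5]
        norm_num
        ring

/-- the coset decomposition on the right -/
private theorem hj_coset {n k : ℕ} (hk : k < n) (f : P) :
    aP n (k + 1) f = ∑ t : Fin n with t.val ≤ k, ((Equiv.Perm.sign (Equiv.swap t ⟨k, hk⟩) : ℤˣ) : ℤ) •
      aP n k (rn n (Equiv.swap t ⟨k, hk⟩) f) := by
  classical
  unfold aP
  rw [LinearMap.sum_apply]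
  have hmap : ∀ σ ∈ aF n (k + 1), σ⁻¹ ⟨k, hk⟩ ∈ Finset.univ.filter (fun t : Fin n => t.val ≤ k) := by
    intro σ hσ
    rw [Finset.mem_filter]
    refine ⟨Finset.mem_univ _, ?_⟩
    by_contra hc
    have h1 := (Finset.mem_filter.1 hσ).2 (σ⁻¹ ⟨k, hk⟩) (by omega)
    have h2 : σ (σ⁻¹ ⟨k, hk⟩) = ⟨k, hk⟩ := by simp
    rw [h2] at h1
    rw [← h1] at hc
    exact hc le_rfl
  rw [← Finset.sum_fiberwise_of_maps_to hmap]
  refine Finset.sum_congr rfl fun t ht => ?_
  have ht' : t.val ≤ k := (Finset.mem_filter.1 ht).2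
  rw [LinearMap.sum_apply, Finset.smul_sum]
  have hfix : ∀ i : Fin n, k + 1 ≤ i.val → Equiv.swap t ⟨k, hk⟩ i = i := by
    intro i hi
    refine Equiv.swap_apply_of_ne_of_ne ?_ ?_
    · intro h; rw [h] at hi; omega
    · intro h; rw [h] at hi; simp at hi
  refine Finset.sum_nbij' (fun σ => σ * Equiv.swap t ⟨k, hk⟩) (fun σ => σ * Equiv.swap t ⟨k, hk⟩) ?_ ?_ ?_ ?_ ?_
  · intro σ hσ
    rw [Finset.mem_filter] at hσ
    unfold aF at hσ ⊢
    rw [Finset.mem_filter] at hσ ⊢
    refine ⟨Finset.mem_univ _, fun i hi => ?_⟩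
    rw [Equiv.Perm.mul_apply]
    rcases eq_or_lt_of_le hi with h | h
    · have h1 : i = ⟨k, hk⟩ := Fin.ext h.symm
      have h2 : σ (σ⁻¹ ⟨k, hk⟩) = ⟨k, hk⟩ := by simp
      rw [h1, Equiv.swap_apply_right, ← hσ.2, h2]
    · rw [hfix i h]
      exact hσ.1.2 i h
  · intro σ hσ
    unfold aF at hσ ⊢
    rw [Finset.mem_filter, Finset.mem_filter]
    rw [Finset.mem_filter] at hσ
    refine ⟨⟨Finset.mem_univ _, fun i hi => ?_⟩, ?_⟩
    · rw [Equiv.Perm.mul_apply, hfix i hi]
      exact hσ.2 i (by omega)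
    · rw [Equiv.Perm.inv_eq_iff_eq, Equiv.Perm.mul_apply, Equiv.swap_apply_left]
      exact (hσ.2 ⟨k, hk⟩ le_rfl).symm
  · intro σ _
    show σ * _ * _ = σ
    rw [mul_assoc, Equiv.swap_mul_self, mul_one]
  · intro σ _
    show σ * _ * _ = σ
    rw [mul_assoc, Equiv.swap_mul_self, mul_one]
  · intro σ _
    rw [LinearMap.smul_apply, LinearMap.smul_apply, tl_apply, tl_apply, rn_rn, mul_assoc, Equiv.swap_mul_self,
      mul_one, smul_smul, Equiv.Perm.sign_mul, Units.val_mul]
    congr 1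
    rw [mul_comm (((Equiv.Perm.sign σ : ℤˣ) : ℤ)), ← mul_assoc, ← Units.val_mul, ← Equiv.Perm.sign_mul,
      Equiv.swap_mul_self, Equiv.Perm.sign_one, Units.val_one, one_mul]

/-- the sign of the order of two letters -/
private def hc (w : List ℕ) (v t : ℕ) : ℤ := if w.idxOf v ≤ w.idxOf t then 1 else -1

private theorem hj_csq (w : List ℕ) (a b : ℕ) : hc w a b * hc w a b = 1 := by
  unfold hc
  split_ifs <;> norm_num

private theorem hj_cc (w : List ℕ) (a : ℕ) : hc w a a = 1 := by
  unfold hc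
  rw [if_pos le_rfl]

private theorem hj_bc {w : List ℕ} {a b : ℕ} (ha : a ∈ w) (h : a ≠ b) : bef w a b = hc w a b := by
  have h1 : w.idxOf a ≠ w.idxOf b := fun h' => h ((List.idxOf_inj ha).1 h')
  unfold bef hc
  by_cases h2 : w.idxOf a < w.idxOf b
  · rw [if_pos h2, if_pos h2.le]
  · rw [if_neg h2, if_neg (by omega)]

private theorem hj_anti {w : List ℕ} {a b : ℕ} (ha : a ∈ w) (h : a ≠ b) : bef w a b = - bef w b a := by
  have h1 : w.idxOf a ≠ w.idxOf b := fun h' => h ((List.idxOf_inj ha).1 h')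
  unfold bef
  by_cases h2 : w.idxOf a < w.idxOf b
  · rw [if_pos h2, if_neg (by omega)]
    norm_num
  · rw [if_neg h2, if_pos (by omega)]

private theorem hj_lr (f : ℕ → ℤ) (m : ℕ) : ((List.range m).map f).prod = ∏ i ∈ Finset.range m, f i := by
  induction m with
  | zero => simp
  | succ m ih => rw [List.range_succ, List.map_append, List.prod_append, ih, Finset.prod_range_succ]; simp

private theorem hj_tau {n k : ℕ} (hk : k < n) (t : Fin n) (a : ℕ) :
    pN n (Equiv.swap t ⟨k, hk⟩) a = if a = t.val then k else if a = k then t.val else a := by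
  unfold pN
  by_cases h : a < n
  · rw [dif_pos h]
    by_cases h1 : a = t.val
    · have h2 : (⟨a, h⟩ : Fin n) = t := Fin.ext h1
      rw [h2, Equiv.swap_apply_left, if_pos h1]
    · rw [if_neg h1]
      by_cases h2 : a = k
      · subst h2
        rw [Equiv.swap_apply_right, if_pos rfl]
      · rw [if_neg h2, Equiv.swap_apply_of_ne_of_ne]
        · intro h3; exact h1 (congrArg Fin.val h3)
        · intro h3; exact h2 (congrArg Fin.val h3)
  · rw [dif_neg h, if_neg (by have := t.2; omega), if_neg (by omega)]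

private theorem hj_inv {n k : ℕ} (hk : k < n) (t : Fin n) (a : ℕ) :
    pN n (Equiv.swap t ⟨k, hk⟩) (pN n (Equiv.swap t ⟨k, hk⟩) a) = a := by
  rw [hj_tau, hj_tau]
  split_ifs <;> omega

private theorem hj_split {n k : ℕ} (hk : k < n) {t : Fin n} (ht : t.val < k) :
    ∃ A M : List ℕ, List.range k = A ++ t.val :: M ∧
      (List.range k).map (pN n (Equiv.swap t ⟨k, hk⟩)) = A ++ k :: M ∧
      (∀ a ∈ A, a < k ∧ a ≠ t.val) ∧ (∀ a ∈ M, a < k ∧ a ≠ t.val) := by
  obtain ⟨A, M, hAM⟩ := List.append_of_mem (List.mem_range.2 ht)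
  have hnd : (A ++ t.val :: M).Nodup := by rw [← hAM]; exact List.nodup_range
  have hA : ∀ a ∈ A, a < k ∧ a ≠ t.val := by
    intro a ha
    refine ⟨List.mem_range.1 (by rw [hAM]; simp [ha]), fun h => ?_⟩
    rw [List.nodup_append] at hnd
    exact hnd.2.2 a ha t.val (by simp) h
  have hM : ∀ a ∈ M, a < k ∧ a ≠ t.val := by
    intro a ha
    refine ⟨List.mem_range.1 (by rw [hAM]; simp [ha]), fun h => ?_⟩
    rw [List.nodup_append, List.nodup_cons] at hnd
    exact hnd.2.1.1 (h ▸ ha)
  refine ⟨A, M, hAM, ?_, hA, hM⟩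
  have hfix : ∀ L : List ℕ, (∀ a ∈ L, a < k ∧ a ≠ t.val) → L.map (pN n (Equiv.swap t ⟨k, hk⟩)) = L := by
    intro L hL
    conv_rhs => rw [← List.map_id L]
    refine List.map_congr_left fun a ha => ?_
    obtain ⟨h1, h2⟩ := hL a ha
    rw [hj_tau, if_neg h2, if_neg (by omega)]
    rfl
  rw [hAM, List.map_append, List.map_cons, hfix A hA, hfix M hM, hj_tau, if_pos rfl]

private theorem hj_id {n k : ℕ} (hk : k < n) {t : Fin n} (ht : t.val = k) :
    (List.range k).map (pN n (Equiv.swap t ⟨k, hk⟩)) = List.range k := by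
  conv_rhs => rw [← List.map_id (List.range k)]
  refine List.map_congr_left fun a ha => ?_
  have h1 := List.mem_range.1 ha
  rw [hj_tau, if_neg (by omega), if_neg (by omega)]
  rfl

private theorem hj_phi {n k : ℕ} (hk : k < n) {t : Fin n} (ht : t.val ≤ k) (φ : ℕ → ℤ) :
    (((List.range k).map (pN n (Equiv.swap t ⟨k, hk⟩))).map φ).prod * φ t.val = ∏ v ∈ Finset.range (k + 1), φ v := by
  rcases eq_or_lt_of_le ht with h | h
  · rw [hj_id hk h, hj_lr, h, Finset.prod_range_succ]
  · obtain ⟨A, M, h1, h2, -, -⟩ := hj_split hk h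
    rw [h2, ← hj_lr, List.range_succ, h1]
    simp only [List.map_append, List.map_cons, List.prod_append, List.prod_cons, List.map_nil, List.prod_nil]
    ring

private theorem hj_app1 (w A : List ℕ) (s : ℕ) :
    sgl w (A ++ [s]) = sgl w A * (A.map (fun v => bef w v s)).prod := by
  rw [hj_app]
  simp [sgl]

private theorem hj_main {n k : ℕ} (hk : k < n) {w : List ℕ} (hw : w.Perm (List.range n)) {t : Fin n}
    (ht : t.val ≤ k) : ((Equiv.Perm.sign (Equiv.swap t ⟨k, hk⟩) : ℤˣ) : ℤ) *
      sgl w ((List.range k).map (pN n (Equiv.swap t ⟨k, hk⟩))) =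
      sgl w (List.range (k + 1)) * ∏ v ∈ Finset.range (k + 1), hc w v t.val := by
  have hin : ∀ a, a < n → a ∈ w := fun a ha => hw.mem_iff.2 (List.mem_range.2 ha)
  rcases eq_or_lt_of_le ht with h | h
  · have h1 : t = ⟨k, hk⟩ := Fin.ext h
    rw [hj_id hk h, h1, Equiv.swap_self, Finset.prod_range_succ, hj_cc, mul_one, List.range_succ, hj_app1]
    have h2 : ((List.range k).map (fun v => bef w v k)).prod = ∏ v ∈ Finset.range k, hc w v k := by
      rw [hj_lr]
      refine Finset.prod_congr rfl fun v hv => ?_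
      have := Finset.mem_range.1 hv
      exact hj_bc (hin v (by omega)) (by omega)
    have h3 := hj_lsq w (List.range k) k
    rw [← h2]
    have h4 : ((Equiv.Perm.sign (Equiv.refl (Fin n)) : ℤˣ) : ℤ) = 1 := by simp
    rw [h4]
    linear_combination (- sgl w (List.range k)) * h3
  · obtain ⟨A, M, h1, h2, hA, hM⟩ := hj_split hk h
    have h3 : Equiv.Perm.sign (Equiv.swap t ⟨k, hk⟩) = -1 :=
      Equiv.Perm.sign_swap fun h4 => by rw [h4] at h; exact lt_irrefl _ h
    rw [h3, h2, ← hj_lr, List.range_succ, h1, List.append_assoc, List.cons_append,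
      hj_key (w := w) (A := A) (M := M) (t := t.val) (k := k)
      (fun m hm => ⟨hj_anti (hin _ t.2) (fun h4 => (hM m hm).2 h4.symm),
        hj_anti (hin _ hk) (by have := (hM m hm).1; omega)⟩) (hj_anti (hin _ t.2) h.ne)]
    simp only [List.map_append, List.map_cons, List.prod_append, List.prod_cons, List.map_nil, List.prod_nil]
    have h5 : A.map (fun v => bef w v t.val) = A.map (fun v => hc w v t.val) :=
      List.map_congr_left fun a ha => hj_bc (hin a (by have := (hA a ha).1; omega)) (hA a ha).2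
    have h6 : M.map (fun v => bef w v t.val) = M.map (fun v => hc w v t.val) :=
      List.map_congr_left fun a ha => hj_bc (hin a (by have := (hM a ha).1; omega)) (hM a ha).2
    have h7 : bef w k t.val = hc w k t.val := hj_bc (hin k hk) (by omega)
    rw [h5, h6, h7, hj_cc]
    push_cast
    ring

private theorem hj_bprod {n k : ℕ} (hk : k < n) {w : List ℕ} (hw : w.Perm (List.range n)) {t : Fin n}
    (ht : t.val ≤ k) {s : ℕ} (hs : s = t.val ∨ k < s) :
    (((List.range k).map (pN n (Equiv.swap t ⟨k, hk⟩))).map (fun v => bef w v s)).prod =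
      (∏ v ∈ Finset.range (k + 1), hc w v s) * hc w t.val s := by
  have h1 : ((List.range k).map (pN n (Equiv.swap t ⟨k, hk⟩))).map (fun v => bef w v s) =
      ((List.range k).map (pN n (Equiv.swap t ⟨k, hk⟩))).map (fun v => hc w v s) := by
    refine List.map_congr_left fun a ha => ?_
    obtain ⟨b, hb, rfl⟩ := List.mem_map.1 ha
    have hb' := List.mem_range.1 hb
    have ht2 := t.2
    rw [hj_tau]
    by_cases h2 : b = t.val
    · rw [if_pos h2]
      exact hj_bc (hw.mem_iff.2 (List.mem_range.2 hk)) (by omega)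
    · rw [if_neg h2, if_neg (by omega)]
      exact hj_bc (hw.mem_iff.2 (List.mem_range.2 (by omega))) (by omega)
  rw [h1, ← hj_phi hk ht (fun v => hc w v s), mul_assoc, hj_csq, mul_one]

private theorem hj_sumT {n k : ℕ} (hk : k < n) (F : ℕ → ℤ) :
    ∑ t : Fin n with t.val ≤ k, F t.val = ∑ t ∈ Finset.range (k + 1), F t := by
  refine Finset.sum_nbij (fun t => t.val) ?_ ?_ ?_ ?_
  · intro t ht
    rw [Finset.mem_filter] at ht
    rw [Finset.mem_range]
    omega
  · intro a _ b _ h
    exact Fin.ext h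
  · intro a ha
    rw [Finset.mem_coe, Finset.mem_range] at ha
    refine ⟨⟨a, by omega⟩, ?_, rfl⟩
    rw [Finset.mem_coe, Finset.mem_filter]
    exact ⟨Finset.mem_univ _, by show a ≤ k; omega⟩
  · intro t _
    rfl

private theorem hj_injOn {n k : ℕ} (hk : k < n) {w : List ℕ} (hw : w.Perm (List.range n)) :
    Set.InjOn (fun v => w.idxOf v) (Finset.range (k + 1) : Finset ℕ) := by
  intro a ha b _ h
  rw [Finset.mem_coe, Finset.mem_range] at ha
  exact (List.idxOf_inj (hw.mem_iff.2 (List.mem_range.2 (by omega)))).1 h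

private theorem hj_S0 {n k : ℕ} (hk : k < n) {w : List ℕ} (hw : w.Perm (List.range n)) :
    ∑ t ∈ Finset.range (k + 1), ∏ v ∈ Finset.range (k + 1), hc w v t =
      1 - (if (k + 1) % 2 = 0 then 1 else 0) := by
  have h1 := hj_sum (fun v => w.idxOf v) w.length (Finset.range (k + 1)) (hj_injOn hk hw)
  simp only [List.idxOf_le_length, if_true, one_mul, Finset.prod_const_one, Finset.card_range] at h1
  exact h1

private theorem hj_S1 {n k : ℕ} (hk : k < n) {w : List ℕ} (hw : w.Perm (List.range n)) (s : ℕ) :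
    ∑ t ∈ Finset.range (k + 1), hc w t s * ∏ v ∈ Finset.range (k + 1), hc w v t =
      ∏ v ∈ Finset.range (k + 1), hc w v s - (if (k + 1) % 2 = 0 then 1 else 0) := by
  have h1 := hj_sum (fun v => w.idxOf v) (w.idxOf s) (Finset.range (k + 1)) (hj_injOn hk hw)
  rw [Finset.card_range] at h1
  exact h1

private noncomputable def hg {n k : ℕ} (hk : k < n) (f : P) : P :=
  ∑ t : Fin n with t.val ≤ k, ((Equiv.Perm.sign (Equiv.swap t ⟨k, hk⟩) : ℤˣ) : ℤ) •
      rn n (Equiv.swap t ⟨k, hk⟩) f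

private theorem hj_psq (w : List ℕ) (s : ℕ) (T : Finset ℕ) : (∏ v ∈ T, hc w v s) * (∏ v ∈ T, hc w v s) = 1 := by
  rw [← Finset.prod_mul_distrib]
  exact Finset.prod_eq_one fun v _ => hj_csq w v s

private theorem hj_gA {n k : ℕ} (hk : k < n) {w : List ℕ} (hw : w.Perm (List.range n)) :
    gA k (hg hk (mon w)) = sgl w (List.range (k + 1)) * (1 - (if (k + 1) % 2 = 0 then 1 else 0)) := by
  rw [← hj_S0 hk hw, Finset.mul_sum, ← hj_sumT hk (fun t => sgl w (List.range (k + 1)) *
    ∏ v ∈ Finset.range (k + 1), hc w v t)]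
  unfold hg
  rw [map_sum]
  refine Finset.sum_congr rfl fun t ht => ?_
  rw [map_smul, rn_mon, smul_eq_mul]
  unfold gA
  rw [lm_mon, hj_sgl (hj_inv hk t), hj_main hk hw (Finset.mem_filter.1 ht).2]

private theorem hj_gB {n k : ℕ} (hk : k < n) (hk2 : k % 2 = 0) {w : List ℕ} (hw : w.Perm (List.range n)) :
    gB n k (hg hk (mon w)) = (n : ℤ) * sgl w (List.range (k + 1)) := by
  have h1 : gB n k (hg hk (mon w)) = ∑ s ∈ Finset.Ico k n, ∑ t : Fin n with t.val ≤ k,
      ((Equiv.Perm.sign (Equiv.swap t ⟨k, hk⟩) : ℤˣ) : ℤ) *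
        sgl w ((List.range k ++ [s]).map (pN n (Equiv.swap t ⟨k, hk⟩))) := by
    rw [Finset.sum_comm]
    unfold hg
    rw [map_sum]
    refine Finset.sum_congr rfl fun t _ => ?_
    rw [map_smul, rn_mon, smul_eq_mul]
    unfold gB
    rw [lm_mon, Finset.mul_sum]
    refine Finset.sum_congr rfl fun s _ => ?_
    rw [hj_sgl (hj_inv hk t)]
  have h2 : ∀ s ∈ Finset.Ioo k n, ∑ t : Fin n with t.val ≤ k,
      ((Equiv.Perm.sign (Equiv.swap t ⟨k, hk⟩) : ℤˣ) : ℤ) *
        sgl w ((List.range k ++ [s]).map (pN n (Equiv.swap t ⟨k, hk⟩))) = sgl w (List.range (k + 1)) := by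
    intro s hs
    rw [Finset.mem_Ioo] at hs
    have h3 : ∑ t : Fin n with t.val ≤ k, ((Equiv.Perm.sign (Equiv.swap t ⟨k, hk⟩) : ℤˣ) : ℤ) *
        sgl w ((List.range k ++ [s]).map (pN n (Equiv.swap t ⟨k, hk⟩))) =
        ∑ t : Fin n with t.val ≤ k, (sgl w (List.range (k + 1)) * ∏ v ∈ Finset.range (k + 1), hc w v s) *
          (hc w t.val s * ∏ v ∈ Finset.range (k + 1), hc w v t.val) := by
      refine Finset.sum_congr rfl fun t ht => ?_
      have ht' : t.val ≤ k := (Finset.mem_filter.1 ht).2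
      have h4 : pN n (Equiv.swap t ⟨k, hk⟩) s = s := by
        rw [hj_tau, if_neg (by omega), if_neg (by omega)]
      rw [List.map_append, List.map_cons, List.map_nil, h4, hj_app1, ← mul_assoc, hj_main hk hw ht',
        hj_bprod hk hw ht' (Or.inr hs.1)]
      ring
    rw [h3, hj_sumT hk (fun t => (sgl w (List.range (k + 1)) * ∏ v ∈ Finset.range (k + 1), hc w v s) *
          (hc w t s * ∏ v ∈ Finset.range (k + 1), hc w v t)), ← Finset.mul_sum, hj_S1 hk hw,
      if_neg (by omega), sub_zero, mul_assoc, hj_psq, mul_one]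
  have h5 : ∑ t : Fin n with t.val ≤ k, ((Equiv.Perm.sign (Equiv.swap t ⟨k, hk⟩) : ℤˣ) : ℤ) *
        sgl w ((List.range k ++ [k]).map (pN n (Equiv.swap t ⟨k, hk⟩))) =
        ((k + 1 : ℕ) : ℤ) * sgl w (List.range (k + 1)) := by
    have h3 : ∑ t : Fin n with t.val ≤ k, ((Equiv.Perm.sign (Equiv.swap t ⟨k, hk⟩) : ℤˣ) : ℤ) *
        sgl w ((List.range k ++ [k]).map (pN n (Equiv.swap t ⟨k, hk⟩))) =
        ∑ t : Fin n with t.val ≤ k, (fun _ : ℕ => sgl w (List.range (k + 1))) t.val := by
      refine Finset.sum_congr rfl fun t ht => ?_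
      have ht' : t.val ≤ k := (Finset.mem_filter.1 ht).2
      have h4 : pN n (Equiv.swap t ⟨k, hk⟩) k = t.val := by
        rw [hj_tau]
        by_cases h : k = t.val
        · rw [if_pos h]
          exact h
        · rw [if_neg h, if_pos rfl]
      rw [List.map_append, List.map_cons, List.map_nil, h4, hj_app1, ← mul_assoc, hj_main hk hw ht',
        hj_bprod hk hw ht' (Or.inl rfl), hj_cc, mul_one, mul_assoc, hj_psq, mul_one]
    rw [h3, hj_sumT hk (fun _ : ℕ => sgl w (List.range (k + 1))), Finset.sum_const, Finset.card_range,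
      nsmul_eq_mul]
  rw [h1, Finset.sum_eq_sum_Ico_succ_bot hk, h5]
  have h6 : ∑ s ∈ Finset.Ico (k + 1) n, ∑ t : Fin n with t.val ≤ k,
      ((Equiv.Perm.sign (Equiv.swap t ⟨k, hk⟩) : ℤˣ) : ℤ) *
        sgl w ((List.range k ++ [s]).map (pN n (Equiv.swap t ⟨k, hk⟩))) =
        ∑ s ∈ Finset.Ico (k + 1) n, sgl w (List.range (k + 1)) := by
    refine Finset.sum_congr rfl fun s hs => h2 s ?_
    rw [Finset.mem_Ico] at hs
    rw [Finset.mem_Ioo]
    omega
  rw [h6, Finset.sum_const, Nat.card_Ico, nsmul_eq_mul, Nat.cast_sub (by omega)]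
  ring

private theorem hj_hg {n k : ℕ} (hk : k < n) (f : P) : aP n (k + 1) f = aP n k (hg hk f) := by
  rw [hj_coset hk]
  unfold hg
  rw [map_sum]
  refine Finset.sum_congr rfl fun t _ => ?_
  rw [map_smul]

private theorem hj_hg_Ml {n k : ℕ} (hk : k < n) {f : P} (hf : f ∈ Ml n) : hg hk f ∈ Ml n := by
  unfold hg
  exact Submodule.sum_mem _ fun t _ => Submodule.smul_mem _ _ (Ml_rn _ hf)

private theorem hj_one (n : ℕ) (f : P) : aP n 1 f = f := by
  have h : aF n 1 = {1} := by
    ext σ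
    unfold aF
    rw [Finset.mem_filter, Finset.mem_singleton]
    constructor
    · rintro ⟨-, h⟩
      ext i
      rcases Nat.eq_zero_or_pos i.val with h0 | h0
      · rw [Equiv.Perm.one_apply]
        by_contra hc
        have h1 := h (σ i) (by omega)
        exact hc (congrArg Fin.val (σ.injective h1))
      · rw [h i h0, Equiv.Perm.one_apply]
    · rintro rfl
      exact ⟨Finset.mem_univ _, fun i _ => rfl⟩
  unfold aP
  rw [h, Finset.sum_singleton, Equiv.Perm.sign_one, Units.val_one, one_smul, tl_apply, rn_one]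

private theorem hj_word {n : ℕ} {w : List ℕ} (hw : w.Perm (List.range n)) :
    ∃ σ : Equiv.Perm (Fin n), mon w = rn n σ (mw n) := by
  have hl : w.length = n := by rw [hw.length_eq, List.length_range]
  have hnd : w.Nodup := hw.nodup_iff.2 List.nodup_range
  obtain ⟨F, hF⟩ : ∃ F : Fin n → Fin n, ∀ a, (F a : ℕ) = w[(a : ℕ)]'(by rw [hl]; exact a.2) :=
    ⟨fun a => ⟨w[(a : ℕ)]'(by rw [hl]; exact a.2),
      List.mem_range.1 (hw.mem_iff.1 (List.getElem_mem _))⟩, fun a => rfl⟩
  have hFi : Function.Injective F := by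
    intro a b hab
    have h1 : w[(a : ℕ)]'(by rw [hl]; exact a.2) = w[(b : ℕ)]'(by rw [hl]; exact b.2) := by
      rw [← hF, ← hF, hab]
    exact Fin.ext ((hnd.getElem_inj_iff).1 h1)
  refine ⟨Equiv.ofBijective F (Finite.injective_iff_bijective.1 hFi), ?_⟩
  unfold mw
  rw [rn_mon]
  congr 1
  apply List.ext_getElem
  · rw [List.length_map, List.length_range, hl]
  · intro i h1 h2
    rw [List.getElem_map, List.getElem_range]
    unfold pN
    rw [dif_pos (by rw [hl] at h1; exact h1), Equiv.ofBijective_apply, hF]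

theorem Hj {p : ℕ} (hp : p.Prime) (h5 : 5 ≤ p) {D : Submodule ℤ P} (hD : IsT D) (hm : Mul p D) (h : ll ∈ D)
    {n : ℕ} (hn : n < p) {j : ℕ} (h1 : 1 ≤ j) (hj : j ≤ n) :
    ∃ Y ∈ Ml n, ∀ f ∈ Ml n, sP n (j - 1) (aP n j f) ∈ D ⊔ Submodule.span ℤ {Y} := by
  obtain ⟨k, rfl⟩ : ∃ k, j = k + 1 := ⟨j - 1, by omega⟩
  rw [Nat.add_sub_cancel]
  have hk : k < n := by omega
  -- it suffices to treat the words
  suffices hY : ∃ Y ∈ Ml n, ∀ w : List ℕ, w.Perm (List.range n) →
      ∃ c : ℤ, (2 : ℤ) • sP n k (aP n (k + 1) (mon w)) - c • Y ∈ D by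
    obtain ⟨Y, hY1, hY2⟩ := hY
    refine ⟨Y, hY1, fun f hf => ?_⟩
    have hE : Mul ((p : ℤ) ^ 2) (D ⊔ Submodule.span ℤ {Y}) := hm.sq.mono le_sup_left
    refine Ml_ind (C := fun f => sP n k (aP n (k + 1) f) ∈ D ⊔ Submodule.span ℤ {Y}) ?_ ?_ ?_ ?_ hf
    · rw [map_zero, map_zero]
      exact Submodule.zero_mem _
    · intro f g hf hg
      rw [map_add, map_add]
      exact Submodule.add_mem _ hf hg
    · intro c f hf
      rw [map_smul, map_smul]
      exact Submodule.smul_mem _ _ hf
    · intro w hw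
      obtain ⟨c, hc⟩ := hY2 w hw
      refine cancel hp hE (c := 2) ?_ (Ml_Pp (by omega) (Ml_sP _ (Ml_aP _ (Ml_mon hw)))) ?_
      · intro hd
        have := Int.le_of_dvd (by norm_num) hd
        omega
      · have h2 : (2 : ℤ) • sP n k (aP n (k + 1) (mon w)) =
            ((2 : ℤ) • sP n k (aP n (k + 1) (mon w)) - c • Y) + c • Y := by abel
        rw [h2]
        exact Submodule.add_mem _ (Submodule.mem_sup_left hc)
          (Submodule.mem_sup_right (Submodule.smul_mem _ _ (Submodule.mem_span_singleton_self Y)))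
  rcases Nat.eq_zero_or_pos k with h0 | h0
  · subst h0
    refine ⟨sP n 0 (mw n), Ml_sP _ (Ml_mon (List.Perm.refl _)), fun w hw => ⟨2, ?_⟩⟩
    obtain ⟨σ, hσ⟩ := hj_word hw
    have h2 : sP n 0 (rn n σ (mw n)) = sP n 0 (mw n) := by
      rw [sP_eq, sP_eq]
      exact (rho_sA (rnρ n) (j := 0) (σ := σ) (Finset.mem_filter.2
        ⟨Finset.mem_univ _, fun i hi => absurd hi (Nat.not_lt_zero _)⟩) (mw n)).2
    rw [Nat.zero_add, hj_one, hσ, h2, sub_self]
    exact D.zero_mem
  · rcases Nat.mod_two_eq_zero_or_one k with h2 | h2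
    · refine ⟨vv n k 1 n, vv_Ml h0 hk _ _, fun w hw => ⟨sgl w (List.range (k + 1)), ?_⟩⟩
      have h3 := RVl hp h5 hD hm.sq h h0 hk (hj_hg_Ml hk (Ml_mon hw))
      rw [hj_gA hk hw, hj_gB hk h2 hw, ← hj_hg, if_neg (by omega), sub_zero, mul_comm (n : ℤ),
        (vv_lin n k 1 n 0 0 (sgl w (List.range (k + 1)))).2] at h3
      exact h3
    · refine ⟨vv n k 0 1, vv_Ml h0 hk _ _, fun w hw => ⟨gB n k (hg hk (mon w)), ?_⟩⟩
      have h3 := RVl hp h5 hD hm.sq h h0 hk (hj_hg_Ml hk (Ml_mon hw))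
      have h4 := (vv_lin n k 0 1 0 0 (gB n k (hg hk (mon w)))).2
      rw [mul_zero, mul_one] at h4
      rw [hj_gA hk hw, ← hj_hg, if_pos (by omega), sub_self, mul_zero, h4] at h3
      exact h3

end ADC
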