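import Pool.Agent.ADC.GrpA

/-!
# ADC-Yg: the Young symmetriser of a hook is quasi-idempotent
-/

namespace ADC

open AD ADN

private theorem yg_aA {M : Type*} [AddCommGroup M] {n : ℕ} (ρ : Equiv.Perm (Fin n) →* AddMonoid.End M) (j : ℕ)
    (m : M) : aA ρ j m = ∑ σ ∈ aF n j, ((Equiv.Perm.sign σ : ℤˣ) : ℤ) • ρ σ m := by
  unfold aA
  exact AddMonoidHom.finsetSum_apply _ _ _

private theorem yg_sA {M : Type*} [AddCommGroup M] {n : ℕ} (ρ : Equiv.Perm (Fin n) →* AddMonoid.End M) (j : ℕ)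
    (m : M) : sA ρ j m = ∑ σ ∈ sF n j, ρ σ m := by
  unfold sA
  exact AddMonoidHom.finsetSum_apply _ _ _

private theorem yg_memA {n j : ℕ} {σ : Equiv.Perm (Fin n)} :
    σ ∈ aF n j ↔ ∀ i : Fin n, j ≤ i.val → σ i = i := by
  unfold aF
  rw [Finset.mem_filter]
  exact ⟨fun h => h.2, fun h => ⟨Finset.mem_univ _, h⟩⟩

private theorem yg_memS {n j : ℕ} {σ : Equiv.Perm (Fin n)} :
    σ ∈ sF n j ↔ ∀ i : Fin n, i.val < j → σ i = i := by
  unfold sF
  rw [Finset.mem_filter]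
  exact ⟨fun h => h.2, fun h => ⟨Finset.mem_univ _, h⟩⟩

private theorem yg_mul {M : Type*} [AddCommGroup M] {n : ℕ} (ρ : Equiv.Perm (Fin n) →* AddMonoid.End M)
    (σ τ : Equiv.Perm (Fin n)) (m : M) : ρ σ (ρ τ m) = ρ (σ * τ) m := by
  rw [map_mul]
  rfl

/-- the symmetriser commutes with permutations of the other letters -/
private theorem yg_comm {M : Type*} [AddCommGroup M] {n : ℕ} (ρ : Equiv.Perm (Fin n) →* AddMonoid.End M) {j : ℕ}
    {σ : Equiv.Perm (Fin n)} (h : σ ∈ sF n j) (m : M) : aA ρ j (ρ σ m) = ρ σ (aA ρ j m) := by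
  rw [yg_aA, yg_aA, map_sum]
  refine Finset.sum_congr rfl fun τ hτ => ?_
  rw [map_zsmul, yg_mul, yg_mul]
  have hd : Equiv.Perm.Disjoint τ σ := by
    intro x
    rcases lt_or_ge x.val j with hx | hx
    · exact Or.inr (yg_memS.1 h x hx)
    · exact Or.inl (yg_memA.1 hτ x hx)
  rw [hd.commute.eq]

/-- an involution with eigenvalue `-1` -/
private theorem yg_zero {M : Type*} [AddCommGroup M] {n : ℕ} (ρ : Equiv.Perm (Fin n) →* AddMonoid.End M) {j : ℕ}
    {τ : Equiv.Perm (Fin n)} (h : τ ∈ sF n j) (h2 : τ * τ = 1) (h1 : τ ≠ 1) {y : M} (hy : ρ τ y = -y) :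
    sA ρ j y = 0 := by
  rw [yg_sA]
  refine Finset.sum_involution (fun σ _ => σ * τ) ?_ ?_ ?_ ?_
  · intro σ _
    rw [← yg_mul, hy, map_neg, add_neg_cancel]
  · intro σ _ _ h3
    exact h1 (mul_eq_left.1 h3)
  · intro σ hσ
    refine yg_memS.2 fun i hi => ?_
    rw [Equiv.Perm.mul_apply, yg_memS.1 h i hi, yg_memS.1 hσ i hi]
  · intro σ _
    show σ * τ * τ = σ
    rw [mul_assoc, h2, mul_one]

private theorem yg_step {M : Type*} [AddCommGroup M] {n : ℕ} (ρ : Equiv.Perm (Fin n) →* AddMonoid.End M) {c : ℕ}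
    (hc : c < n) {s : Fin n} (hs : c < s.val) (m : M) :
    sA ρ c (aA ρ (c + 1) (ρ (Equiv.swap s ⟨c, hc⟩) (aA ρ (c + 1) m))) =
      (c.factorial : ℤ) • sA ρ c (aA ρ (c + 1) m) := by
  have hy : ∀ σ ∈ aF n (c + 1), ρ σ (aA ρ (c + 1) m) = ((Equiv.Perm.sign σ : ℤˣ) : ℤ) • aA ρ (c + 1) m :=
    fun σ hσ => (rho_aA ρ hσ m).1
  generalize aA ρ (c + 1) m = y at hy ⊢
  have hy1 : aA ρ c y = (c.factorial : ℤ) • y := by
    rw [yg_aA]
    have h1 : ∀ σ ∈ aF n c, ((Equiv.Perm.sign σ : ℤˣ) : ℤ) • ρ σ y = y := by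
      intro σ hσ
      rw [hy σ (yg_memA.2 fun i hi => yg_memA.1 hσ i (by omega)), smul_smul]
      rcases Int.units_eq_one_or (Equiv.Perm.sign σ) with h | h
      · rw [h, Units.val_one, one_mul, one_smul]
      · rw [h, Units.val_neg, Units.val_one, neg_mul_neg, one_mul, one_smul]
    rw [Finset.sum_congr rfl h1, Finset.sum_const, card_aF (by omega), natCast_zsmul]
  have hsC : Equiv.swap s ⟨c, hc⟩ ∈ sF n c := by
    refine yg_memS.2 fun i hi => Equiv.swap_apply_of_ne_of_ne ?_ ?_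
    · intro e
      rw [e] at hi
      omega
    · intro e
      rw [e] at hi
      exact lt_irrefl _ hi
  rw [aA_succ ρ hc (ρ (Equiv.swap s ⟨c, hc⟩) y), yg_comm ρ hsC, hy1, map_zsmul, map_sub, map_zsmul,
    (rho_sA ρ hsC y).2, map_sum, Finset.sum_eq_zero, sub_zero]
  intro t ht
  have htc : t.val < c := (Finset.mem_filter.1 ht).2
  obtain ⟨C, hC⟩ : ∃ C : Fin n, C = ⟨c, hc⟩ := ⟨_, rfl⟩
  have hCv : C.val = c := by rw [hC]
  rw [← hC] at hsC ⊢
  have h1 : t ≠ C := fun e => by rw [e, hCv] at htc; exact lt_irrefl _ htc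
  have h2 : t ≠ s := fun e => by rw [e] at htc; omega
  have h3 : s ≠ C := fun e => by rw [e, hCv] at hs; exact lt_irrefl _ hs
  rw [map_zsmul, map_zsmul]
  have hz : sA ρ c (ρ (Equiv.swap t C) (ρ (Equiv.swap s C) y)) = 0 := by
    refine yg_zero ρ hsC (Equiv.swap_mul_self s C) (fun e => ?_) ?_
    · have h4 := Equiv.congr_fun e s
      rw [Equiv.swap_apply_left] at h4
      exact h3 h4.symm
    · have i2 : Equiv.swap s C * (Equiv.swap t C * Equiv.swap s C) = Equiv.swap t s := by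
        have h4 := Equiv.swap_mul_swap_mul_swap (x := t) (y := C) (z := s) h1 h2
        rw [Equiv.swap_comm C s, mul_assoc, Equiv.swap_comm s t] at h4
        exact h4
      have i1 : Equiv.swap t C * Equiv.swap s C = Equiv.swap t s * Equiv.swap t C := by
        have h4 := Equiv.swap_mul_swap_mul_swap (x := s) (y := t) (z := C) h2.symm h3
        rw [Equiv.swap_comm C s, Equiv.swap_comm s t] at h4
        rw [← h4, ← mul_assoc, ← mul_assoc, Equiv.swap_mul_self, one_mul]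
      have h5 : Equiv.swap t C ∈ aF n (c + 1) := by
        refine yg_memA.2 fun i hi => Equiv.swap_apply_of_ne_of_ne ?_ ?_
        · intro e
          rw [e] at hi
          omega
        · intro e
          rw [e, hCv] at hi
          omega
      rw [yg_mul, yg_mul, mul_assoc, i2, yg_mul, i1, ← yg_mul, hy _ h5, Equiv.Perm.sign_swap h1, Units.val_neg, Units.val_one,
        neg_one_smul, map_neg, neg_neg]
  rw [hz, smul_zero]

theorem yg {M : Type*} [AddCommGroup M] {n : ℕ} (ρ : Equiv.Perm (Fin n) →* AddMonoid.End M) {j : ℕ} (h1 : 1 ≤ j)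
    (hj : j ≤ n) (m : M) : sA ρ (j - 1) (aA ρ j (sA ρ (j - 1) (aA ρ j m))) =
      ((n * (j - 1).factorial * (n - j).factorial : ℕ) : ℤ) • sA ρ (j - 1) (aA ρ j m) := by
  obtain ⟨c, rfl⟩ : ∃ c, j = c + 1 := ⟨j - 1, by omega⟩
  rw [Nat.add_sub_cancel]
  have hc : c < n := hj
  obtain ⟨m', hm'⟩ : ∃ m' : M, m' = sA ρ (c + 1) m := ⟨_, rfl⟩
  have e1 : sA ρ c (aA ρ (c + 1) m) = aA ρ (c + 1) m' +
      ∑ s : Fin n with c < s.val, ρ (Equiv.swap s ⟨c, hc⟩) (aA ρ (c + 1) m') := by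
    rw [sA_pred ρ hc, sA_aA, ← hm']
  have e2 : sA ρ c (aA ρ (c + 1) m') = ((n - (c + 1)).factorial : ℤ) • sA ρ c (aA ρ (c + 1) m) := by
    rw [hm', ← sA_aA, yg_sA ρ (c + 1), map_sum]
    have h2 : ∀ σ ∈ sF n (c + 1), sA ρ c (ρ σ (aA ρ (c + 1) m)) = sA ρ c (aA ρ (c + 1) m) :=
      fun σ hσ => (rho_sA ρ (yg_memS.2 fun i hi => yg_memS.1 hσ i (by omega)) _).2
    rw [Finset.sum_congr rfl h2, Finset.sum_const, card_sF hj, natCast_zsmul]
  have e3 : sA ρ c (aA ρ (c + 1) (sA ρ c (aA ρ (c + 1) m))) =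
      (((c + 1).factorial : ℕ) : ℤ) • sA ρ c (aA ρ (c + 1) m') +
        ∑ s : Fin n with c < s.val, (c.factorial : ℤ) • sA ρ c (aA ρ (c + 1) m') := by
    rw [e1, map_add, map_add, aA_aA ρ hj, map_zsmul, map_sum, map_sum]
    refine congrArg₂ (· + ·) rfl (Finset.sum_congr rfl fun s hs => ?_)
    exact yg_step ρ hc (Finset.mem_filter.1 hs).2 m'
  have e4 : (Finset.univ.filter fun s : Fin n => c < s.val).card = n - 1 - c := by
    have h2 : (Finset.univ.filter fun s : Fin n => c < s.val) = Finset.Ioi (⟨c, hc⟩ : Fin n) := by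
      ext s
      rw [Finset.mem_filter, Finset.mem_Ioi, Fin.lt_def]
      exact ⟨fun h => h.2, fun h => ⟨Finset.mem_univ _, h⟩⟩
    rw [h2, Fin.card_Ioi]
  rw [e3, Finset.sum_const, e4, e2, ← natCast_zsmul, smul_smul, smul_smul, smul_smul, ← add_smul]
  refine congrArg₂ (· • ·) ?_ rfl
  obtain ⟨d, hd⟩ : ∃ d, n = c + 1 + d := ⟨n - (c + 1), by omega⟩
  have h3 : n - 1 - c = d := by omega
  have h4 : n - (c + 1) = d := by omega
  have h5 : (n : ℤ) = c + 1 + d := by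
    rw [hd]
    push_cast
    ring
  rw [h3, h4, Nat.factorial_succ]
  push_cast
  rw [h5]
  ring

theorem ygP {n j : ℕ} (h1 : 1 ≤ j) (hj : j ≤ n) (f : P) :
    sP n (j - 1) (aP n j (sP n (j - 1) (aP n j f))) =
      ((n * (j - 1).factorial * (n - j).factorial : ℕ) : ℤ) • sP n (j - 1) (aP n j f) := by
  rw [aP_eq, sP_eq, aP_eq, sP_eq]
  exact yg (rnρ n) h1 hj f

end ADC
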