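import Pool.Agent.ADC.Npn
import Pool.Agent.ADC.DetP
import Pool.Agent.ADC.Hj
import Pool.Agent.ADC.Yg

/-!
# ADC-CoreOlt: no linked pairs, Grassmann type, `n < p`
-/

namespace ADC

open AD ADN

theorem coreOlt {p : ℕ} {I J A B C : Submodule ℤ P} {n : ℕ} {q : ℤ} {a b t : P}
    (h : Pr p I J A B C n q a b t) (hn : n < p) (hl : ll ∈ J) : False := by
  have hp := h.bJ.pp
  have h5 := h.bJ.five
  have hn1 : 1 ≤ n := h.pos
  obtain ⟨D, hD, hDm, hJD, hDq, htD⟩ := h.quot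
  obtain ⟨σ, j, hj1, hj2, hj⟩ := detP_lt hp h5 hD hDm (hJD hl) hn1 hn h.hh htD
  obtain ⟨Φ, hΦ⟩ : ∃ Φ : P →ₗ[ℤ] P, Φ = (sP n (j - 1)).comp (aP n j) := ⟨_, rfl⟩
  have hΦa : ∀ f, Φ f = sP n (j - 1) (aP n j f) := fun f => by rw [hΦ]; rfl
  have hT : TOp p Φ := by
    rw [hΦ]
    exact (TOp_sP p n (j - 1)).comp (TOp_aP p n j)
  have hM : ∀ f ∈ Ml n, Φ f ∈ Ml n := fun f hf => by
    rw [hΦa]
    exact Ml_sP _ (Ml_aP _ hf)
  have hr := h.rn σ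
  obtain ⟨Y, hY, hc⟩ := Hj hp h5 h.bJ.isT h.bJ.mul hl hn hj1 hj2
  have hu : ¬ (p : ℤ) ∣ ((n * (j - 1).factorial * (n - j).factorial : ℕ) : ℤ) := by
    rw [Int.natCast_dvd_natCast, hp.dvd_mul, hp.dvd_mul, hp.dvd_factorial, hp.dvd_factorial]
    rintro ((h1 | h1) | h1)
    · have := Nat.le_of_dvd hn1 h1
      omega
    · omega
    · omega
  have h1 : Φ (rn n σ a) ∈ I := hr.npn hT hM hu (fun f _ => by
    rw [hΦa, hΦa]
    exact ygP hj1 hj2 f) hY fun f hf => by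
      rw [hΦa]
      exact hc f hf
  have h2 := hT I h.hI h.p2 _ hr.aq
  rw [map_sub, map_smul] at h2
  have h3 : q • Φ (rn n σ t) ∈ I := by
    have h4 := I.sub_mem h1 h2
    rwa [sub_sub_cancel] at h4
  have h4 : Φ (rn n σ t) ∈ D := (hDq _ (Ml_Pp hn1 (hM _ hr.hh))).2 h3
  rw [hΦa] at h4
  exact hj h4

end ADC
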