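import Pool.Agent.ADC.Npn
import Pool.Agent.ADC.RV
import Pool.Agent.ADC.GrpA
import Pool.Agent.ADC.DetP

/-!
# ADC-CoreOp

`n = p`, `ll ∈ J`, `k` odd, `1 ≤ k < p`... with an identity `f ∈ Ml p ∩ J`, `(gA(f), gB(f))` not both divisible by `p`.
`Φ = sP p k ∘ aP p k`: `Φ Φ = k! (p-k)! Φ` (`Tj_sq`), prime to `p` (`1 ≤ k`, so `p - k < p`).  Modulo `J` (`RVl` for `J`):
`2 Φ g ≡ vv p k (gA g) (gB g)`, which is a combination of `L1 = linP p k (V1 k N)` and `L2 = linP p k (V2 k N)`, `N = p - k`; and for `g = f`: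
`α L1 + β L2 ∈ J`, `α = 2 gA(f)`, `β = gB(f) - N gA(f)`, not both divisible by `p`.  If `p ∤ α` then `L1 ∈ J ⊔ ℤ L2` and `Y = L2`, otherwise
`Y = L1`: `Φ g ∈ J ⊔ ℤ Y` for all `g ∈ Ml p` (divide by 2 modulo `p`).  `Pr.npn` for `h.rn σ`.
(The parity of `k` plays no role.)

`det_p`: `D` of `Pr.quot`, `detP_eq`: as in `CoreOlt`.
-/

namespace ADC

open AD ADN

private theorem op_two {p : ℕ} (h5 : 5 ≤ p) : ¬ (p : ℤ) ∣ 2 := by
  intro h3
  have := Int.le_of_dvd (by norm_num) h3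
  omega

private theorem op_half {p : ℕ} (hp : p.Prime) {E : Submodule ℤ P} {c : ℤ} (hc : ¬ (p : ℤ) ∣ c) {f : P}
    (h1 : (p : ℤ) • f ∈ E) (h2 : c • f ∈ E) : f ∈ E := by
  have hcop : IsCoprime c (p : ℤ) :=
    ((Prime.coprime_iff_not_dvd (Nat.prime_iff_prime_int.1 hp)).2 hc).symm
  obtain ⟨u, v, huv⟩ := hcop
  have e : f = u • (c • f) + v • ((p : ℤ) • f) := by
    rw [smul_smul, smul_smul, ← add_smul, huv, one_smul]
  rw [e]
  exact E.add_mem (E.smul_mem _ h2) (E.smul_mem _ h1)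

theorem coreOodd {p : ℕ} {I J A B C : Submodule ℤ P} {q : ℤ} {a b t : P}
    (h : Pr p I J A B C p q a b t) (hl : ll ∈ J) {k : ℕ} (h1 : 1 ≤ k) (hk : k < p) {f : P} (hf : f ∈ Ml p)
    (hfJ : f ∈ J) (hn : ¬ ((p : ℤ) ∣ gA k f ∧ (p : ℤ) ∣ gB p k f)) (σ : Equiv.Perm (Fin p)) :
    sP p k (aP p k (rn p σ a)) ∈ I := by
  have hp := h.bJ.pp
  have h5 := h.bJ.five
  have hMP : Ml p ≤ Pp := Ml_Pp h.pos
  obtain ⟨N, hN⟩ : ∃ N : ℤ, N = ((p - k : ℕ) : ℤ) := ⟨_, rfl⟩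
  obtain ⟨Y1, hY1⟩ : ∃ Y1 : P, Y1 = vv p k 1 N := ⟨_, rfl⟩
  obtain ⟨Y2, hY2⟩ : ∃ Y2 : P, Y2 = vv p k 0 1 := ⟨_, rfl⟩
  have hY1M : Y1 ∈ Ml p := by rw [hY1]; exact vv_Ml h1 hk _ _
  have hY2M : Y2 ∈ Ml p := by rw [hY2]; exact vv_Ml h1 hk _ _
  have hvv : ∀ A B : ℤ, vv p k A B = A • Y1 + (B - N * A) • Y2 := by
    intro A B
    have e1 := (vv_lin p k (A * 1) (A * N) 0 (B - N * A) 0).1
    have e2 := (vv_lin p k 1 N 0 0 A).2
    have e3 := (vv_lin p k 0 1 0 0 (B - N * A)).2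
    rw [mul_zero, mul_one] at e3
    rw [hY1, hY2, ← e2, ← e3, ← e1]
    congr 1
    · ring
    · ring
  have hR : ∀ g ∈ Ml p, (2 : ℤ) • sP p k (aP p k g) - vv p k (gA k g) (gB p k g) ∈ J :=
    fun g hg => RVl hp h5 h.bJ.isT h.bJ.mul.sq hl h1 hk hg
  -- the relation given by `f`
  have hfr : gA k f • Y1 + (gB p k f - N * gA k f) • Y2 ∈ J := by
    rw [← hvv]
    have e1 : sP p k (aP p k f) ∈ J :=
      TOp_sP p p k J h.bJ.isT h.bJ.mul.sq _ (TOp_aP p p k J h.bJ.isT h.bJ.mul.sq _ hfJ)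
    have e2 := J.sub_mem (J.smul_mem (2 : ℤ) e1) (hR f hf)
    rwa [sub_sub_cancel] at e2
  obtain ⟨Y, hYM, hY⟩ : ∃ Y ∈ Ml p, Y1 ∈ J ⊔ Submodule.span ℤ {Y} ∧ Y2 ∈ J ⊔ Submodule.span ℤ {Y} := by
    by_cases hA : (p : ℤ) ∣ gA k f
    · have hB : ¬ (p : ℤ) ∣ gB p k f - N * gA k f := by
        intro h3
        refine hn ⟨hA, ?_⟩
        have h4 := dvd_add h3 (hA.mul_left N)
        rwa [sub_add_cancel] at h4
      refine ⟨Y1, hY1M, Submodule.mem_sup_right (Submodule.mem_span_singleton_self _), ?_⟩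
      refine op_half hp hB (Submodule.mem_sup_left (h.bJ.mul _ (hMP hY2M))) ?_
      have e : (gB p k f - N * gA k f) • Y2 =
          (gA k f • Y1 + (gB p k f - N * gA k f) • Y2) + (- gA k f) • Y1 := by module
      rw [e]
      exact Submodule.add_mem_sup hfr (Submodule.smul_mem _ _ (Submodule.mem_span_singleton_self _))
    · refine ⟨Y2, hY2M, ?_, Submodule.mem_sup_right (Submodule.mem_span_singleton_self _)⟩
      refine op_half hp hA (Submodule.mem_sup_left (h.bJ.mul _ (hMP hY1M))) ?_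
      have e : gA k f • Y1 =
          (gA k f • Y1 + (gB p k f - N * gA k f) • Y2) + (- (gB p k f - N * gA k f)) • Y2 := by module
      rw [e]
      exact Submodule.add_mem_sup hfr (Submodule.smul_mem _ _ (Submodule.mem_span_singleton_self _))
  have hu : ¬ (p : ℤ) ∣ ((k.factorial * (p - k).factorial : ℕ) : ℤ) := by
    intro h3
    have h4 : p ∣ k.factorial * (p - k).factorial := by exact_mod_cast h3
    rcases hp.dvd_mul.1 h4 with h6 | h6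
    · have := hp.dvd_factorial.1 h6
      omega
    · have := hp.dvd_factorial.1 h6
      omega
  have key := (h.rn σ).npn (Φ := (sP p k).comp (aP p k)) (TOp.comp (TOp_sP p p k) (TOp_aP p p k))
    (fun g hg => Ml_sP k (Ml_aP k hg)) hu (fun g _ => Tj_sq hk.le g) hYM (fun g hg => by
      show sP p k (aP p k g) ∈ J ⊔ Submodule.span ℤ {Y}
      refine op_half hp (op_two h5) (Submodule.mem_sup_left (h.bJ.mul _ (hMP (Ml_sP k (Ml_aP k hg))))) ?_
      have e : (2 : ℤ) • sP p k (aP p k g) =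
          ((2 : ℤ) • sP p k (aP p k g) - vv p k (gA k g) (gB p k g)) +
            (gA k g • Y1 + (gB p k g - N * gA k g) • Y2) := by
        rw [hvv, sub_add_cancel]
      rw [e]
      exact Submodule.add_mem _ (Submodule.mem_sup_left (hR g hg))
        (Submodule.add_mem _ (Submodule.smul_mem _ _ hY.1) (Submodule.smul_mem _ _ hY.2)))
  exact key

theorem det_p {p : ℕ} {I J A B C : Submodule ℤ P} {q : ℤ} {a b t : P}
    (h : Pr p I J A B C p q a b t) (hl : ll ∈ J) :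
    ∃ (σ : Equiv.Perm (Fin p)) (j : ℕ), 1 ≤ j ∧ j < p ∧ sP p j (aP p j (rn p σ a)) ∉ I := by
  have hMP : Ml p ≤ Pp := Ml_Pp h.pos
  obtain ⟨D, hD, hmD, hJD, hqD, htD⟩ := h.quot
  obtain ⟨σ, j, hj1, hj2, hj⟩ := detP_eq h.bJ.pp h.bJ.five hD hmD (hJD hl) h.hh htD
  refine ⟨σ, j, hj1, hj2, fun h0 => hj ?_⟩
  refine (hqD _ (hMP (Ml_sP j (Ml_aP j (Ml_rn σ h.hh))))).2 ?_
  have h3 := TOp_sP p p j I h.hI h.p2 _ (TOp_aP p p j I h.hI h.p2 _ (h.rn σ).aq)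
  rw [map_sub, map_sub, map_smul, map_smul] at h3
  have h4 := I.sub_mem h0 h3
  rwa [sub_sub_cancel] at h4

end ADC
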