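import Pool.Agent.ADC.Rg
import Pool.Agent.ADC.LinP
import Pool.Agent.ADC.Cnc

/-!
# ADC-Gr2

Commutator words of length `p + 1` and `p + 2` for T-ideals with `[[x,y],z] = 0`: linearisation and downward
induction over the number of commutators.
-/

namespace ADC

open AD ADN

/-! ### products of commutators -/

/-- product of the commutators of the consecutive pairs -/
private noncomputable def kw : List ℕ → P
  | a :: b :: w => cm a b * kw w
  | _ => 1

private theorem kw_nil : kw [] = 1 := by rw [kw]; simp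

private theorem kw_cons (a b : ℕ) (w : List ℕ) : kw (a :: b :: w) = cm a b * kw w := by rw [kw]

private theorem kw_append : ∀ (l l' : List ℕ), l.length % 2 = 0 → kw (l ++ l') = kw l * kw l'
  | [], l', _ => by rw [List.nil_append, kw_nil, one_mul]
  | [a], l', h => by simp at h
  | a :: b :: l, l', h => by
    rw [List.cons_append, List.cons_append, kw_cons, kw_cons, kw_append l l' (by
      simp only [List.length_cons] at h
      omega), mul_assoc]

private theorem kw_two (a b : ℕ) : kw [a, b] = cm a b := by rw [kw_cons, kw_nil, mul_one]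

private theorem kw_sb (g : ℕ → ℕ) : ∀ w : List ℕ, sb (fun i => X (g i)) (kw w) = kw (w.map g)
  | [] => by rw [kw_nil, map_one, List.map_nil, kw_nil]
  | [a] => by
    rw [List.map_cons, List.map_nil, kw, kw, map_one] <;> simp
  | a :: b :: w => by
    rw [kw_cons, map_mul, kw_sb g w, List.map_cons, List.map_cons, kw_cons]
    unfold cm
    rw [map_sub, map_mul, map_mul, sb_X, sb_X]

private theorem mon_sb (g : ℕ → ℕ) (w : List ℕ) : sb (fun i => X (g i)) (mon w) = mon (w.map g) := by
  rw [sb_mon]
  unfold mon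
  rw [List.map_map]
  rfl

private theorem rn_sb (n : ℕ) (σ : Equiv.Perm (Fin n)) : rn n σ = sb (fun i => X (pN n σ i)) := by
  unfold rn pN
  congr 1
  funext i
  split_ifs <;> rfl

private theorem range_split (m : ℕ) : List.range (2 * (m + 1)) = List.range (2 * m) ++ [2 * m, 2 * m + 1] := by
  rw [show 2 * (m + 1) = (2 * m + 1) + 1 by ring, List.range_succ, List.range_succ, List.append_assoc]
  rfl

private theorem kap_succ (m : ℕ) : kap (m + 1) = kap m * cm (2 * m) (2 * m + 1) := by
  unfold kap
  rw [List.range_succ, List.map_append, List.prod_append]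
  simp

private theorem kap_zero : kap 0 = 1 := by
  unfold kap
  simp

private theorem kap_kw (m : ℕ) : kap m = kw (List.range (2 * m)) := by
  induction m with
  | zero =>
    rw [kap_zero, mul_zero, List.range_zero, kw_nil]
  | succ m ih =>
    rw [kap_succ, ih, range_split, kw_append _ _ (by rw [List.length_range]; omega), kw_two]

private theorem range_app (m r : ℕ) : List.range (m + r) = List.range m ++ List.range' m r := by
  rw [List.range_eq_range', List.range_eq_range', ← List.range'_append_1, zero_add]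

private theorem Ml_mul_mon {m r : ℕ} {f : P} (hf : f ∈ Ml m) {w : List ℕ} (hw : w.Perm (List.range' m r)) :
    f * mon w ∈ Ml (m + r) := by
  refine Ml_ind (C := fun f => f * mon w ∈ Ml (m + r)) ?_ ?_ ?_ ?_ hf
  · rw [zero_mul]
    exact Submodule.zero_mem _
  · intro f g hf hg
    rw [add_mul]
    exact Submodule.add_mem _ hf hg
  · intro c f hf
    rw [smul_mul_assoc]
    exact Submodule.smul_mem _ _ hf
  · intro v hv
    rw [← mon_append]
    refine Ml_mon ?_
    rw [range_app]
    exact hv.append hw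

theorem kap_Ml {m : ℕ} : kap m ∈ Ml (2 * m) := by
  induction m with
  | zero =>
    rw [kap_zero, ← mon_nil]
    exact Ml_mon (by simp)
  | succ m ih =>
    rw [kap_succ]
    have e : kap m * cm (2 * m) (2 * m + 1) =
        kap m * mon [2 * m, 2 * m + 1] - kap m * mon [2 * m + 1, 2 * m] := by
      unfold cm
      rw [mul_sub, mon_cons, mon_single, mon_cons, mon_single]
    rw [e]
    refine Submodule.sub_mem _ (Ml_mul_mon (r := 2) ih ?_) (Ml_mul_mon (r := 2) ih ?_)
    · exact List.Perm.refl _
    · exact List.Perm.swap _ _ _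

/-! ### the symmetriser -/

private theorem sF_map {p m r : ℕ} (hn : 2 * m + r = p + 1) {σ : Equiv.Perm (Fin (p + 1))}
    (hσ : σ ∈ sF (p + 1) (2 * m)) : (List.range (2 * m)).map (pN (p + 1) σ) = List.range (2 * m) := by
  conv_rhs => rw [← List.map_id (List.range (2 * m))]
  refine List.map_congr_left fun a ha => ?_
  rw [List.mem_range] at ha
  unfold pN
  by_cases h : a < p + 1
  · rw [dif_pos h, (Finset.mem_filter.1 hσ).2 ⟨a, h⟩ ha]
    rfl
  · rw [dif_neg h]
    rfl

private theorem sF_perm {p m r : ℕ} (hn : 2 * m + r = p + 1) {σ : Equiv.Perm (Fin (p + 1))}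
    (hσ : σ ∈ sF (p + 1) (2 * m)) :
    ((List.range' (2 * m) r).map (pN (p + 1) σ)).Perm (List.range' (2 * m) r) := by
  have h1 : ((List.range (2 * m + r)).map (pN (p + 1) σ)).Perm (List.range (2 * m + r)) := by
    rw [hn]
    exact perm_map σ (List.Perm.refl _)
  rw [range_app, List.map_append, sF_map hn hσ] at h1
  exact (List.perm_append_left_iff _).1 h1

private theorem card_sF' {n j : ℕ} : ∃ k, k ≤ n - j ∧ (sF n j).card = k.factorial := by
  refine ⟨Fintype.card {i : Fin n // j ≤ i.val}, ?_, ?_⟩
  · rw [Fintype.card_subtype]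
    have h := Finset.card_le_card_of_injOn (s := Finset.univ.filter fun i : Fin n => j ≤ i.val)
      (t := Finset.Ico j n) (fun i => i.val) (fun i hi => by
        rw [Finset.coe_filter, Set.mem_setOf_eq] at hi
        rw [Finset.coe_Ico, Set.mem_Ico]
        exact ⟨hi.2, i.2⟩) (fun a _ b _ h => Fin.ext h)
    rwa [Nat.card_Ico] at h
  · rw [← Fintype.card_perm, Fintype.card_congr
      (Equiv.Perm.subtypeEquivSubtypePerm fun i : Fin n => j ≤ i.val), Fintype.card_subtype]
    unfold sF
    congr 1
    ext σ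
    simp only [Finset.mem_filter, Finset.mem_univ, true_and, not_le]

private theorem sym0 {p : ℕ} {D : Submodule ℤ P} (hD : IsT D) (hm : Mul p D) {m r : ℕ}
    (hn : 2 * m + r = p + 1) (hr : 1 ≤ r) (hk : kap m * X (2 * m) ^ r ∈ D) :
    ∑ σ ∈ sF (p + 1) (2 * m), kw (List.range (2 * m)) *
      mon ((List.range' (2 * m) r).map (pN (p + 1) σ)) ∈ D := by
  have hg : kap m * mon (List.range' (2 * m) r) ∈ Ml (p + 1) := by
    rw [← hn]
    exact Ml_mul_mon kap_Ml (List.Perm.refl _)
  have h1 : col (2 * m) (kap m * mon (List.range' (2 * m) r)) = kap m * X (2 * m) ^ r := by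
    rw [map_mul, col_mon, kap_kw]
    have e1 : col (2 * m) (kw (List.range (2 * m))) = kw (List.range (2 * m)) := by
      show sb (fun i => X (min i (2 * m))) _ = _
      rw [kw_sb (fun i => min i (2 * m))]
      congr 1
      conv_rhs => rw [← List.map_id (List.range (2 * m))]
      refine List.map_congr_left fun a ha => ?_
      rw [List.mem_range] at ha
      exact min_eq_left ha.le
    have e2 : (List.range' (2 * m) r).map (fun i => min i (2 * m)) = List.replicate r (2 * m) := by
      rw [List.eq_replicate_iff]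
      refine ⟨by simp, fun b hb => ?_⟩
      obtain ⟨a, ha, rfl⟩ := List.mem_map.1 hb
      rw [List.mem_range'_1] at ha
      exact min_eq_right ha.1
    rw [e1, e2]
    congr 1
    unfold mon
    rw [List.map_replicate, List.prod_replicate]
  have h2 := TOp_linP p (p + 1) (2 * m) D hD hm.sq _ (h1 ▸ hk)
  rw [linP_col (by omega) hg] at h2
  have h3 : sP (p + 1) (2 * m) (kap m * mon (List.range' (2 * m) r)) =
      ∑ σ ∈ sF (p + 1) (2 * m), kw (List.range (2 * m)) *
        mon ((List.range' (2 * m) r).map (pN (p + 1) σ)) := by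
    unfold sP
    rw [LinearMap.sum_apply]
    refine Finset.sum_congr rfl fun σ hσ => ?_
    rw [tl_apply, map_mul, rn_mon, kap_kw, rn_sb, kw_sb, sF_map hn hσ]
  rwa [h3] at h2

/-- the linearised relation with letters -/
private theorem sym1 {p : ℕ} {D : Submodule ℤ P} (hD : IsT D) (hm : Mul p D) {m r : ℕ}
    (hn : 2 * m + r = p + 1) (hr : 1 ≤ r) (hk : kap m * X (2 * m) ^ r ∈ D) (l U V : List ℕ)
    (hl : l.length = 2 * m) (hU : U.length = r) :
    ∃ W : Equiv.Perm (Fin (p + 1)) → List ℕ, (∀ σ ∈ sF (p + 1) (2 * m), (W σ).Perm U) ∧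
      ∑ σ ∈ sF (p + 1) (2 * m), kw l * mon (W σ ++ V) ∈ D := by
  obtain ⟨g, hg⟩ : ∃ g : ℕ → ℕ, g = fun i => (l ++ U).getD i 0 := ⟨_, rfl⟩
  have h1 : (List.range (2 * m)).map g = l := by
    refine List.ext_getElem (by rw [List.length_map, List.length_range, hl]) fun i hi1 hi2 => ?_
    rw [List.getElem_map, List.getElem_range, hg]
    show (l ++ U).getD i 0 = _
    rw [List.getD_append _ _ _ _ hi2, List.getD_eq_getElem _ _ hi2]
  have h2 : (List.range' (2 * m) r).map g = U := by
    refine List.ext_getElem (by rw [List.length_map, List.length_range', hU]) fun i hi1 hi2 => ?_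
    rw [List.getElem_map, List.getElem_range'_1, hg]
    show (l ++ U).getD (2 * m + i) 0 = _
    rw [List.getD_append_right _ _ _ _ (by omega), hl, Nat.add_sub_cancel_left,
      List.getD_eq_getElem _ _ hi2]
  refine ⟨fun σ => ((List.range' (2 * m) r).map (pN (p + 1) σ)).map g, fun σ hσ => ?_, ?_⟩
  · have := (sF_perm hn hσ).map g
    rwa [h2] at this
  · have h3 := sb_mem hD (φ := fun i => X (g i)) (fun i => X_mem _) (sym0 hD hm hn hr hk)
    have h4 := hD.mul_right _ h3 (mon V)
    rw [map_sum, Finset.sum_mul] at h4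
    have h5 : ∀ σ ∈ sF (p + 1) (2 * m), sb (fun i => X (g i)) (kw (List.range (2 * m)) *
        mon ((List.range' (2 * m) r).map (pN (p + 1) σ))) * mon V =
        kw l * mon (((List.range' (2 * m) r).map (pN (p + 1) σ)).map g ++ V) := by
      intro σ _
      rw [map_mul, kw_sb, mon_sb, h1, mon_append, mul_assoc]
    rwa [Finset.sum_congr rfl h5] at h4

/-! ### reordering -/

private theorem adj_aux {C : List ℕ → Prop} {w w' : List ℕ} (hw : w.Perm w') : ∀ pre : List ℕ,
    (∀ u a b v, (u ++ a :: b :: v).Perm (pre ++ w) → C (u ++ a :: b :: v) → C (u ++ b :: a :: v)) →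
    C (pre ++ w) → C (pre ++ w') := by
  induction hw with
  | nil => exact fun pre _ h => h
  | cons x hw ih =>
    intro pre h h0
    have := ih (pre ++ [x]) (by simpa using h) (by simpa using h0)
    simpa using this
  | swap x y l =>
    intro pre h h0
    exact h pre y x l (List.Perm.refl _) h0
  | trans h1 h2 ih1 ih2 =>
    intro pre h h0
    exact ih2 pre (fun u a b v hp => h u a b v (hp.trans (h1.symm.append_left pre))) (ih1 pre h h0)

private theorem adj_ind {C : List ℕ → Prop} {w w' : List ℕ} (hw : w.Perm w')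
    (h : ∀ u a b v, (u ++ a :: b :: v).Perm w → C (u ++ a :: b :: v) → C (u ++ b :: a :: v))
    (h0 : C w) : C w' := adj_aux hw [] h h0

/-- commutators are central modulo `D` -/
private theorem cen {D : Submodule ℤ P} (hD : IsT D) (h : ll ∈ D) (a b : ℕ) (u : List ℕ) :
    mon u * cm a b - cm a b * mon u ∈ D := by
  by_cases hu : u = []
  · rw [hu, mon_nil, one_mul, mul_one, sub_self]
    exact D.zero_mem
  · have h1 := ll_subst hD h (X_mem a) (X_mem b) (mon_mem hu)
    have h2 := D.neg_mem h1
    rw [neg_sub] at h2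
    exact h2

/-- an adjacent transposition -/
private theorem swp {D : Submodule ℤ P} (hD : IsT D) (h : ll ∈ D) {l : List ℕ} (hl : l.length % 2 = 0)
    (u v : List ℕ) (a b : ℕ) :
    kw l * mon (u ++ a :: b :: v) - kw l * mon (u ++ b :: a :: v) - kw (l ++ [a, b]) * mon (u ++ v) ∈ D := by
  have h1 := IsT.lm hD (kw l) (mon v) (cen hD h a b u)
  have e : kw l * mon (u ++ a :: b :: v) - kw l * mon (u ++ b :: a :: v) - kw (l ++ [a, b]) * mon (u ++ v) =
      kw l * (mon u * cm a b - cm a b * mon u) * mon v := by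
    rw [kw_append _ _ hl, kw_two, mon_append, mon_append, mon_append, mon_cons, mon_cons, mon_cons,
      mon_cons]
    unfold cm
    noncomm_ring
  rw [e]
  exact h1

/-- the step of the downward induction -/
private theorem step {p : ℕ} (hp : p.Prime) {D N : Submodule ℤ P} (hD : IsT D)
    (hm : Mul p D) (h : ll ∈ D) (hN : D ≤ N) {m r : ℕ} (hn : 2 * m + r = p + 1) (hr : 1 ≤ r)
    (hm1 : 1 ≤ m) (hk : kap m * X (2 * m) ^ r ∈ D) (l U V : List ℕ)
    (hl : l.length = 2 * m) (hU : U.length = r)
    (hH : ∀ u a b v, (u ++ a :: b :: v).Perm U → kw (l ++ [a, b]) * mon (u ++ v ++ V) ∈ N) :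
    kw l * mon (U ++ V) ∈ N := by
  obtain ⟨W, hW, hsum⟩ := sym1 hD hm hn hr hk l U V hl hU
  have hdiff : ∀ W, W.Perm U → kw l * mon (W ++ V) - kw l * mon (U ++ V) ∈ N := by
    intro W hWU
    refine adj_ind (C := fun W => kw l * mon (W ++ V) - kw l * mon (U ++ V) ∈ N) hWU.symm ?_ ?_
    · intro u a b v huv hC
      have h1 := hN (swp hD h (l := l) (by omega) u (v ++ V) a b)
      have h2 := hH u a b v huv
      rw [List.append_assoc] at h2
      have h3 := N.sub_mem hC (N.add_mem h1 h2)
      have e : kw l * mon (u ++ b :: a :: v ++ V) - kw l * mon (U ++ V) =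
          (kw l * mon (u ++ a :: b :: v ++ V) - kw l * mon (U ++ V)) -
            (kw l * mon (u ++ a :: b :: (v ++ V)) - kw l * mon (u ++ b :: a :: (v ++ V)) -
              kw (l ++ [a, b]) * mon (u ++ (v ++ V)) + kw (l ++ [a, b]) * mon (u ++ (v ++ V))) := by
        rw [List.append_assoc, List.append_assoc, List.cons_append, List.cons_append,
          List.cons_append, List.cons_append]
        abel
      rw [e]
      exact h3
    · rw [sub_self]
      exact N.zero_mem
  obtain ⟨k, hk1, hk2⟩ := card_sF' (n := p + 1) (j := 2 * m)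
  have h1 : (k.factorial : ℤ) • (kw l * mon (U ++ V)) ∈ N := by
    have h2 : ∑ σ ∈ sF (p + 1) (2 * m), (kw l * mon (W σ ++ V) - kw l * mon (U ++ V)) ∈ N :=
      N.sum_mem fun σ hσ => hdiff _ (hW σ hσ)
    rw [Finset.sum_sub_distrib, Finset.sum_const, hk2] at h2
    have h3 := N.sub_mem (hN hsum) h2
    rw [sub_sub_cancel] at h3
    rwa [natCast_zsmul]
  have hnd : ¬ (p : ℤ) ∣ (k.factorial : ℤ) := by
    intro h4
    have h5 := (hp.dvd_factorial).1 (Int.natCast_dvd_natCast.1 h4)
    omega
  refine cancel hp (hm.sq.mono hN) hnd (Pp_mul_left _ (mon_mem fun h6 => ?_)) h1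
  have := congrArg List.length h6
  rw [List.length_append, List.length_nil] at this
  omega

/-! ### words of length `p + 2` -/

private theorem gr2_top {p : ℕ} {D : Submodule ℤ P} (hD : IsT D) (h : ll ∈ D) {m : ℕ}
    (hk : kap m * X (2 * m) ^ 2 ∈ D) {l : List ℕ} (hl : l.length = 2 * m) (a b z : ℕ) :
    kw (l ++ [a, b]) * X z ∈ D := by
  have hq : ∀ q ∈ Pp, kw l * (q * q) ∈ D := by
    intro q hq
    obtain ⟨φ, hφ⟩ : ∃ φ : ℕ → P, φ = fun i => if i < 2 * m then X (l.getD i 0) else q := ⟨_, rfl⟩
    have h1 := sb_mem hD (φ := φ) (fun i => by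
      rw [hφ]
      show (if i < 2 * m then X (l.getD i 0) else q) ∈ Pp
      split_ifs
      · exact X_mem _
      · exact hq) hk
    have h2 : sb φ (kap m) = kw l := by
      have h3 : ∀ w : List ℕ, (∀ i ∈ w, i < 2 * m) → sb φ (kw w) = kw (w.map fun i => l.getD i 0) := by
        intro w
        induction w using List.twoStepInduction with
        | nil => intro _; rw [kw_nil, map_one, List.map_nil, kw_nil]
        | singleton a => intro _; rw [List.map_cons, List.map_nil, kw, kw, map_one] <;> simp
        | cons_cons a b w ih _ =>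
          intro hw
          rw [kw_cons, map_mul, ih fun i hi => hw i (by simp [hi]), List.map_cons, List.map_cons, kw_cons]
          unfold cm
          have ha := hw a (by simp)
          have hb := hw b (by simp)
          rw [map_sub, map_mul, map_mul, sb_X, sb_X, hφ]
          simp only [if_pos ha, if_pos hb]
      rw [kap_kw, h3 _ (fun i hi => List.mem_range.1 hi)]
      congr 1
      refine List.ext_getElem (by rw [List.length_map, List.length_range, hl]) fun i hi1 hi2 => ?_
      rw [List.getElem_map, List.getElem_range, List.getD_eq_getElem _ _ hi2]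
    rw [map_mul, map_pow, sb_X, h2, hφ] at h1
    simp only [lt_irrefl, if_false] at h1
    rwa [pow_two] at h1
  have hs : ∀ x ∈ Pp, ∀ y ∈ Pp, kw l * (x * y + y * x) ∈ D := by
    intro x hx y hy
    have h1 := D.sub_mem (D.sub_mem (hq (x + y) (Pp.add_mem hx hy)) (hq x hx)) (hq y hy)
    have e : kw l * (x * y + y * x) = kw l * ((x + y) * (x + y)) - kw l * (x * x) - kw l * (y * y) := by
      noncomm_ring
    rwa [e]
  have h1 := hs (X b) (X_mem b) (X z * X a) (Pp_mul_left _ (X_mem a))
  have h2 := hD.mul_right _ (hs (X b) (X_mem b) (X z) (X_mem z)) (X a)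
  have h3 := hD.mul_left _ (ll_subst hD h (X_mem a) (X_mem b) (X_mem z)) (kw l)
  have h4 := D.add_mem (D.sub_mem h1 h2) h3
  have e : kw (l ++ [a, b]) * X z = kw l * (X b * (X z * X a) + X z * X a * X b) -
      kw l * (X b * X z + X z * X b) * X a +
      kw l * ((X a * X b - X b * X a) * X z - X z * (X a * X b - X b * X a)) := by
    rw [kw_append _ _ (by omega), kw_two]
    unfold cm
    noncomm_ring
  rw [e]
  exact h4

private theorem gr2_all {p : ℕ} (hp : p.Prime) (h5 : 5 ≤ p) {D : Submodule ℤ P} (hD : IsT D) (hm : Mul p D)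
    (h : ll ∈ D) (hk : ∀ m, 1 ≤ m → 2 * m + 1 ≤ p → kap m * X (2 * m) ^ (p + 1 - 2 * m) ∈ D) {M : ℕ}
    (hM : 2 * M = p + 1) : ∀ k, k + 1 ≤ M → ∀ l U : List ℕ, l.length = 2 * (M - k) →
      U.length = 2 * k + 1 → kw l * mon U ∈ D := by
  intro k
  induction k with
  | zero =>
    intro _ l U hl hU
    obtain ⟨z, rfl⟩ := List.length_eq_one_iff.1 hU
    have h1 : l = l.take (2 * (M - 1)) ++ l.drop (2 * (M - 1)) := (List.take_append_drop _ _).symm
    have h2 : (l.drop (2 * (M - 1))).length = 2 := by
      rw [List.length_drop]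
      omega
    obtain ⟨a, b, hab⟩ := List.length_eq_two.1 h2
    rw [h1, hab, mon_single]
    refine gr2_top (p := p) hD h (m := M - 1) ?_ (by rw [List.length_take]; omega) a b z
    have := hk (M - 1) (by omega) (by omega)
    rwa [show p + 1 - 2 * (M - 1) = 2 by omega] at this
  | succ k ih =>
    intro hkM l U hl hU
    have h1 : U = U.take (2 * (k + 1)) ++ U.drop (2 * (k + 1)) := (List.take_append_drop _ _).symm
    rw [h1]
    refine step hp hD hm h le_rfl (m := M - (k + 1)) (r := 2 * (k + 1)) (by omega) (by omega) (by omega)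
      ?_ l _ _ hl (by rw [List.length_take]; omega) ?_
    · have := hk (M - (k + 1)) (by omega) (by omega)
      rwa [show p + 1 - 2 * (M - (k + 1)) = 2 * (k + 1) by omega] at this
    · intro u a b v huv
      refine ih (by omega) _ _ ?_ ?_
      · rw [List.length_append, hl]
        simp only [List.length_cons, List.length_nil]
        omega
      · have h2 := huv.length_eq
        rw [List.length_append, List.length_cons, List.length_cons, List.length_take] at h2
        rw [List.length_append, List.length_append, List.length_drop]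
        omega

theorem Gr2 {p : ℕ} (hp : p.Prime) (h5 : 5 ≤ p) {D : Submodule ℤ P} (hD : IsT D) (hm : Mul p D) (h : ll ∈ D)
    (hk : ∀ m, 1 ≤ m → 2 * m + 1 ≤ p → kap m * X (2 * m) ^ (p + 1 - 2 * m) ∈ D) (u v : List ℕ) (i j : ℕ)
    (hl : u.length + v.length + 2 = p + 2) : mon u * cm i j * mon v ∈ D := by
  obtain ⟨M, hM⟩ : ∃ M, 2 * M = p + 1 := by
    rcases hp.eq_two_or_odd with h1 | h1
    · omega
    · exact ⟨(p + 1) / 2, by omega⟩
  have h1 := gr2_all hp h5 hD hm h hk hM (M - 1) (by omega) [i, j] (u ++ v) (by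
    simp only [List.length_cons, List.length_nil]
    omega) (by
    rw [List.length_append]
    omega)
  rw [kw_two] at h1
  have h2 := hD.mul_right _ (cen hD h i j u) (mon v)
  have e : mon u * cm i j * mon v = (mon u * cm i j - cm i j * mon u) * mon v + cm i j * mon (u ++ v) := by
    rw [mon_append]
    noncomm_ring
  rw [e]
  exact D.add_mem h2 h1

/-! ### words of length `p + 1` -/

private theorem alt2 {p : ℕ} (hp : p.Prime) (h5 : 5 ≤ p) {D : Submodule ℤ P} (hD : IsT D) (hm : Mul p D)
    (h : ll ∈ D) (x y z w : ℕ) : cm x y * cm w z + cm x w * cm y z ∈ D := by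
  obtain ⟨S, hS, π, hsur, hπ⟩ := exists_quot hD
  have h1 := Rg2 {x : S | ∃ f ∈ Pp, π f = x} ?_ ?_ ?_ ?_ ?_ ⟨X x, X_mem x, rfl⟩ ⟨X y, X_mem y, rfl⟩
    ⟨X z, X_mem z, rfl⟩ ⟨X w, X_mem w, rfl⟩
  · rw [← hπ]
    unfold cm
    simp only [map_add, map_mul, map_sub]
    exact h1
  · rintro x ⟨f, hf, rfl⟩ y ⟨g, hg, rfl⟩
    exact ⟨f * g, Pp_mul_left f hg, map_mul π f g⟩
  · rintro x ⟨f, hf, rfl⟩ y ⟨g, hg, rfl⟩
    exact ⟨f + g, Pp.add_mem hf hg, map_add π f g⟩
  · rintro x ⟨f, hf, rfl⟩
    exact ⟨-f, Pp.neg_mem hf, map_neg π f⟩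
  · rintro x ⟨f, hf, rfl⟩ h0
    rw [← map_zsmul] at h0
    refine (hπ f).2 (cancel hp hm.sq (c := 2) ?_ hf ((hπ _).1 h0))
    intro h2
    have := Int.le_of_dvd two_pos h2
    omega
  · rintro x ⟨f, hf, rfl⟩ y ⟨g, hg, rfl⟩ z ⟨k, hk, rfl⟩
    have h2 := (hπ _).2 (ll_subst hD h hf hg hk)
    rw [map_sub, map_mul, map_mul, map_sub, map_mul, map_mul] at h2
    exact sub_eq_zero.1 h2

private theorem kw_swap {p : ℕ} (hp : p.Prime) (h5 : 5 ≤ p) {D : Submodule ℤ P} (hD : IsT D) (hm : Mul p D)
    (h : ll ∈ D) (u v : List ℕ) (a b : ℕ) (hl : (u ++ a :: b :: v).length % 2 = 0) :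
    kw (u ++ a :: b :: v) + kw (u ++ b :: a :: v) ∈ D := by
  rw [List.length_append, List.length_cons, List.length_cons] at hl
  rcases Nat.mod_two_eq_zero_or_one u.length with hu | hu
  · rw [kw_append _ _ hu, kw_append _ _ hu, kw_cons, kw_cons]
    have e : kw u * (cm a b * kw v) + kw u * (cm b a * kw v) = 0 := by
      unfold cm
      noncomm_ring
    rw [e]
    exact D.zero_mem
  · obtain ⟨u', c, rfl⟩ : ∃ u' c, u = u' ++ [c] := by
      rcases List.eq_nil_or_concat u with h1 | ⟨u', c, h1⟩
      · rw [h1] at hu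
        simp at hu
      · exact ⟨u', c, by rw [h1, List.concat_eq_append]⟩
    obtain ⟨d, v', rfl⟩ : ∃ d v', v = d :: v' := by
      cases v with
      | nil =>
        simp only [List.length_nil] at hl
        omega
      | cons d v' => exact ⟨d, v', rfl⟩
    have hu' : u'.length % 2 = 0 := by
      rw [List.length_append, List.length_cons, List.length_nil] at hu
      omega
    have h1 := IsT.lm hD (kw u') (kw v') (alt2 hp h5 hD hm h c a d b)
    have e : kw (u' ++ [c] ++ a :: b :: d :: v') + kw (u' ++ [c] ++ b :: a :: d :: v') =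
        kw u' * (cm c a * cm b d + cm c b * cm a d) * kw v' := by
      rw [List.append_assoc, List.append_assoc, List.singleton_append, List.singleton_append,
        kw_append _ _ hu', kw_append _ _ hu', kw_cons, kw_cons, kw_cons, kw_cons]
      noncomm_ring
    rw [e]
    exact h1

private theorem gr3_all {p : ℕ} (hp : p.Prime) (h5 : 5 ≤ p) {D : Submodule ℤ P} (hD : IsT D) (hm : Mul p D)
    (h : ll ∈ D) (hk : ∀ m, 1 ≤ m → 2 * m + 1 ≤ p → kap m * X (2 * m) ^ (p + 1 - 2 * m) ∈ D) {M : ℕ}
    (hM : 2 * M = p + 1) {N : Submodule ℤ P} (hN : D ≤ N) (hκ : kap M ∈ N) : ∀ k, k + 1 ≤ M →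
      ∀ l U : List ℕ, l.length = 2 * (M - k) → (l ++ U).Perm (List.range (p + 1)) → kw l * mon U ∈ N := by
  intro k
  induction k with
  | zero =>
    intro _ l U hl hU
    have h1 : U.length = 0 := by
      have := hU.length_eq
      rw [List.length_append, List.length_range] at this
      omega
    rw [List.length_eq_zero_iff.1 h1, List.append_nil] at hU
    rw [List.length_eq_zero_iff.1 h1, mon_nil, mul_one]
    refine adj_ind (C := fun w => kw w ∈ N) hU.symm ?_ ?_
    · intro u a b v huv hC
      have h2 := hN (kw_swap hp h5 hD hm h u v a b (by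
        rw [huv.length_eq, List.length_range]
        omega))
      have h3 := N.sub_mem h2 hC
      rwa [add_sub_cancel_left] at h3
    · rw [← hM, ← kap_kw]
      exact hκ
  | succ k ih =>
    intro hkM l U hl hU
    have hlU : U.length = 2 * (k + 1) := by
      have := hU.length_eq
      rw [List.length_append, List.length_range] at this
      omega
    rw [← List.append_nil U]
    refine step hp hD hm h hN (m := M - (k + 1)) (r := 2 * (k + 1)) (by omega) (by omega) (by omega)
      ?_ l _ _ hl hlU ?_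
    · have := hk (M - (k + 1)) (by omega) (by omega)
      rwa [show p + 1 - 2 * (M - (k + 1)) = 2 * (k + 1) by omega] at this
    · intro u a b v huv
      rw [List.append_nil]
      refine ih (by omega) _ _ ?_ ?_
      · rw [List.length_append, hl]
        simp only [List.length_cons, List.length_nil]
        omega
      · refine List.Perm.trans ?_ hU
        rw [List.append_assoc]
        refine List.Perm.append_left l (List.Perm.trans ?_ huv)
        show ([a, b] ++ (u ++ v)).Perm (u ++ ([a, b] ++ v))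
        rw [← List.append_assoc, ← List.append_assoc]
        exact List.Perm.append_right v List.perm_append_comm

private theorem swap_fin {p : ℕ} (hp : 5 ≤ p) (i : ℕ) :
    pN (p + 1) (Equiv.swap 0 1) i = if i = 0 then 1 else if i = 1 then 0 else i := by
  unfold pN
  by_cases h : i < p + 1
  · rw [dif_pos h]
    by_cases h0 : i = 0
    · subst h0
      rw [if_pos rfl]
      have : (⟨0, h⟩ : Fin (p + 1)) = 0 := rfl
      rw [this, Equiv.swap_apply_left, Fin.val_one']
      exact Nat.mod_eq_of_lt (by omega)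
    · rw [if_neg h0]
      by_cases h1 : i = 1
      · subst h1
        rw [if_pos rfl]
        have : (⟨1, h⟩ : Fin (p + 1)) = 1 := by
          apply Fin.ext
          rw [Fin.val_one']
          exact (Nat.mod_eq_of_lt (by omega)).symm
        rw [this, Equiv.swap_apply_right]
        rfl
      · rw [if_neg h1, Equiv.swap_apply_of_ne_of_ne]
        · intro h2
          exact h0 (congrArg Fin.val h2)
        · intro h2
          have h3 := congrArg Fin.val h2
          rw [Fin.val_one', Nat.mod_eq_of_lt (by omega)] at h3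
          exact h1 h3
  · rw [dif_neg h, if_neg (by omega), if_neg (by omega)]

private theorem range_two (n : ℕ) : List.range (n + 2) = 0 :: 1 :: List.range' 2 n := by
  rw [List.range_eq_range']
  rfl

private theorem swap_range' {p : ℕ} (hp : 5 ≤ p) (n : ℕ) :
    (List.range' 2 n).map (pN (p + 1) (Equiv.swap 0 1)) = List.range' 2 n := by
  conv_rhs => rw [← List.map_id (List.range' 2 n)]
  refine List.map_congr_left fun a ha => ?_
  rw [List.mem_range'_1] at ha
  rw [swap_fin hp, if_neg (by omega), if_neg (by omega)]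
  rfl

private theorem swap_range {p : ℕ} (hp : 5 ≤ p) (n : ℕ) :
    (List.range (n + 2)).map (pN (p + 1) (Equiv.swap 0 1)) = 1 :: 0 :: List.range' 2 n := by
  rw [range_two, List.map_cons, List.map_cons, swap_range' hp, swap_fin hp, swap_fin hp]
  simp

theorem Gr3 {p : ℕ} (hp : p.Prime) (h5 : 5 ≤ p) {D : Submodule ℤ P} (hD : IsT D) (hm : Mul p D) (h : ll ∈ D)
    (hk : ∀ m, 1 ≤ m → 2 * m + 1 ≤ p → kap m * X (2 * m) ^ (p + 1 - 2 * m) ∈ D) {f : P} (hf : f ∈ Ml (p + 1)) :
    f + rn (p + 1) (Equiv.swap 0 1) f ∈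
      D ⊔ Submodule.span ℤ {mw (p + 1) + rn (p + 1) (Equiv.swap 0 1) (mw (p + 1))} ∧
    f - rn (p + 1) (Equiv.swap 0 1) f ∈ D ⊔ Submodule.span ℤ {kap ((p + 1) / 2)} := by
  obtain ⟨M, hM⟩ : ∃ M, 2 * M = p + 1 := by
    rcases hp.eq_two_or_odd with h1 | h1
    · omega
    · exact ⟨(p + 1) / 2, by omega⟩
  have hM2 : (p + 1) / 2 = M := by omega
  rw [hM2]
  obtain ⟨κ, hκ⟩ : ∃ κ, κ = kap M := ⟨_, rfl⟩
  obtain ⟨N, hN⟩ : ∃ N, N = D ⊔ Submodule.span ℤ {kap M} := ⟨_, rfl⟩
  have hDN : D ≤ N := by
    rw [hN]
    exact le_sup_left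
  have hκN : kap M ∈ N := by
    rw [hN]
    exact Submodule.mem_sup_right (Submodule.mem_span_singleton_self _)
  have hall := gr3_all hp h5 hD hm h hk hM hDN hκN
  have hone : ∀ a b U, (a :: b :: U).Perm (List.range (p + 1)) → cm a b * mon U ∈ N := by
    intro a b U hab
    have h1 := hall (M - 1) (by omega) [a, b] U (by
      simp only [List.length_cons, List.length_nil]
      omega) hab
    rwa [kw_two] at h1
  -- every multilinear polynomial
  have hdec : ∀ f ∈ Ml (p + 1), ∃ c : ℤ, f - c • mw (p + 1) ∈ N := by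
    intro f hf
    refine Ml_ind (C := fun f => ∃ c : ℤ, f - c • mw (p + 1) ∈ N) ?_ ?_ ?_ ?_ hf
    · exact ⟨0, by rw [zero_smul, sub_zero]; exact N.zero_mem⟩
    · rintro f g ⟨c, hc⟩ ⟨d, hd⟩
      refine ⟨c + d, ?_⟩
      have e : f + g - (c + d) • mw (p + 1) = (f - c • mw (p + 1)) + (g - d • mw (p + 1)) := by
        rw [add_smul]
        abel
      rw [e]
      exact N.add_mem hc hd
    · rintro c f ⟨d, hd⟩
      refine ⟨c * d, ?_⟩
      rw [mul_smul, ← smul_sub]
      exact N.smul_mem c hd
    · intro w hw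
      refine ⟨1, ?_⟩
      rw [one_smul]
      refine adj_ind (C := fun w => mon w - mw (p + 1) ∈ N) hw.symm ?_ ?_
      · intro u a b v huv hC
        have h1 := hDN (hD.mul_right _ (cen hD h a b u) (mon v))
        have h2 := hone a b (u ++ v) (by
          refine List.Perm.trans ?_ huv
          show ([a, b] ++ (u ++ v)).Perm (u ++ ([a, b] ++ v))
          rw [← List.append_assoc, ← List.append_assoc]
          exact List.Perm.append_right v List.perm_append_comm)
        have h3 := N.sub_mem hC (N.add_mem h1 h2)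
        have e : mon (u ++ b :: a :: v) - mw (p + 1) = mon (u ++ a :: b :: v) - mw (p + 1) -
            ((mon u * cm a b - cm a b * mon u) * mon v + cm a b * mon (u ++ v)) := by
          rw [mon_append, mon_append, mon_append, mon_cons, mon_cons, mon_cons, mon_cons]
          unfold cm
          noncomm_ring
        rw [e]
        exact h3
      · show mw (p + 1) - mw (p + 1) ∈ N
        rw [sub_self]
        exact N.zero_mem
  obtain ⟨n, hn⟩ : ∃ n, p + 1 = n + 2 := ⟨p - 1, by omega⟩
  have hrκ : rn (p + 1) (Equiv.swap 0 1) (kap M) = - kap M := by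
    obtain ⟨M', rfl⟩ : ∃ M', M = M' + 1 := ⟨M - 1, by omega⟩
    rw [kap_kw, rn_sb, kw_sb, show 2 * (M' + 1) = 2 * M' + 2 by ring, swap_range h5, range_two,
      kw_cons, kw_cons]
    unfold cm
    noncomm_ring
  have hmw : mw (p + 1) - rn (p + 1) (Equiv.swap 0 1) (mw (p + 1)) ∈ N := by
    unfold mw
    rw [rn_mon]
    have e1 : List.range (p + 1) = 0 :: 1 :: List.range' 2 n := by rw [hn, range_two]
    have e2 : (List.range (p + 1)).map (pN (p + 1) (Equiv.swap 0 1)) = 1 :: 0 :: List.range' 2 n := by
      have := swap_range h5 n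
      rwa [← hn] at this
    have h1 := hone 0 1 (List.range' 2 n) (by rw [e1])
    have e : mon (List.range (p + 1)) - mon ((List.range (p + 1)).map (pN (p + 1) (Equiv.swap 0 1))) =
        cm 0 1 * mon (List.range' 2 n) := by
      rw [e2, e1, mon_cons, mon_cons, mon_cons, mon_cons]
      unfold cm
      noncomm_ring
    rw [e]
    exact h1
  obtain ⟨c, hc⟩ := hdec f hf
  rw [hN] at hc
  obtain ⟨d, hd, e, he, hde⟩ := Submodule.mem_sup.1 hc
  obtain ⟨k, rfl⟩ := Submodule.mem_span_singleton.1 he
  have hfe : f = c • mw (p + 1) + d + k • kap M := by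
    rw [add_assoc, hde]
    abel
  have hrd : rn (p + 1) (Equiv.swap 0 1) d ∈ D := hD.subst _ (rn_isSubst _ _) _ hd
  have hrf : rn (p + 1) (Equiv.swap 0 1) f = c • rn (p + 1) (Equiv.swap 0 1) (mw (p + 1)) +
      rn (p + 1) (Equiv.swap 0 1) d - k • kap M := by
    rw [hfe, map_add, map_add, map_zsmul, map_zsmul, hrκ, smul_neg, sub_eq_add_neg]
  constructor
  · have e1 : f + rn (p + 1) (Equiv.swap 0 1) f = (d + rn (p + 1) (Equiv.swap 0 1) d) +
        c • (mw (p + 1) + rn (p + 1) (Equiv.swap 0 1) (mw (p + 1))) := by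
      rw [hrf, smul_add]
      conv_lhs => rw [hfe]
      abel
    rw [e1]
    exact Submodule.add_mem_sup (D.add_mem hd hrd)
      (Submodule.smul_mem _ _ (Submodule.mem_span_singleton_self _))
  · have e1 : f - rn (p + 1) (Equiv.swap 0 1) f = (d - rn (p + 1) (Equiv.swap 0 1) d) +
        c • (mw (p + 1) - rn (p + 1) (Equiv.swap 0 1) (mw (p + 1))) + (2 * k) • kap M := by
      rw [hrf, smul_sub, two_mul, add_smul]
      conv_lhs => rw [hfe]
      abel
    rw [e1, ← hN]
    exact N.add_mem (N.add_mem (hDN (D.sub_mem hd hrd)) (N.smul_mem c hmw)) (N.smul_mem _ hκN)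

end ADC
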