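import Pool.Agent.ADC.Npn
import Pool.Agent.ADC.Gr2

/-!
# ADC-CoreOs

`n = p + 1`: the operators `id ± rn (p+1) (swap 0 1)` map the multilinear polynomials into `J ⊔ ℤ Y` (`Gr3`), so they
map `a` into `I`.
-/

namespace ADC

open AD ADN

private theorem os_apply {p : ℕ} (e : ℤ) (f : P) :
    (LinearMap.id + e • tl (rn (p + 1) (Equiv.swap 0 1)) : P →ₗ[ℤ] P) f =
      f + e • rn (p + 1) (Equiv.swap 0 1) f := by
  rw [LinearMap.add_apply, LinearMap.smul_apply, tl_apply, LinearMap.id_apply]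

private theorem os_step {p : ℕ} {I J A B C : Submodule ℤ P} {q : ℤ} {a b t : P}
    (h : Pr p I J A B C (p + 1) q a b t) {e : ℤ} (he : e * e = 1) {Y : P} (hY : Y ∈ Ml (p + 1))
    (hc : ∀ f ∈ Ml (p + 1), f + e • rn (p + 1) (Equiv.swap 0 1) f ∈ J ⊔ Submodule.span ℤ {Y}) :
    a + e • rn (p + 1) (Equiv.swap 0 1) a ∈ I := by
  have h5 := h.bJ.five
  have hop : TOp p (LinearMap.id + e • tl (rn (p + 1) (Equiv.swap 0 1)) : P →ₗ[ℤ] P) :=
    (TOp.id' p).add ((TOp_rn p (p + 1) _).smul e)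
  have h2 : ¬ (p : ℤ) ∣ 2 := by
    intro h3
    have := Int.le_of_dvd (by norm_num) h3
    omega
  have h6 := h.npn hop (fun f hf => by
      rw [os_apply]
      exact Submodule.add_mem _ hf (Submodule.smul_mem _ _ (Ml_rn _ hf))) h2
    (fun f _ => by
      rw [os_apply, os_apply, map_add, map_zsmul, rn_rn, Equiv.swap_mul_self, rn_one, smul_add,
        smul_smul, he, one_smul]
      rw [two_smul]
      abel) hY (fun f hf => by
      rw [os_apply]
      exact hc f hf)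
  rwa [os_apply] at h6

theorem coreOs {p : ℕ} {I J A B C : Submodule ℤ P} {q : ℤ} {a b t : P}
    (h : Pr p I J A B C (p + 1) q a b t) (hl : ll ∈ J)
    (hk : ∀ m, 1 ≤ m → 2 * m + 1 ≤ p → kap m * X (2 * m) ^ (p + 1 - 2 * m) ∈ J) : False := by
  have hp := h.bJ.pp
  have h5 := h.bJ.five
  have hodd : 2 * ((p + 1) / 2) = p + 1 := by
    have h1 := hp.eq_two_or_odd
    omega
  have hG := fun (f : P) (hf : f ∈ Ml (p + 1)) => Gr3 hp h5 h.bJ.isT h.bJ.mul hl hk hf
  have hY1 : mw (p + 1) + rn (p + 1) (Equiv.swap 0 1) (mw (p + 1)) ∈ Ml (p + 1) := by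
    have h1 : mw (p + 1) ∈ Ml (p + 1) := Ml_mon (List.Perm.refl _)
    exact Submodule.add_mem _ h1 (Ml_rn _ h1)
  have hY2 : kap ((p + 1) / 2) ∈ Ml (p + 1) := by
    have h1 := kap_Ml (m := (p + 1) / 2)
    rwa [hodd] at h1
  have h1 := os_step h (e := 1) (by norm_num) hY1 fun f hf => by
    rw [one_smul]
    exact (hG f hf).1
  have h2 := os_step h (e := -1) (by norm_num) hY2 fun f hf => by
    rw [neg_one_smul, ← sub_eq_add_neg]
    exact (hG f hf).2
  have h3 : (2 : ℤ) • a ∈ I := by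
    have h4 := I.add_mem h1 h2
    have e : a + (1 : ℤ) • rn (p + 1) (Equiv.swap 0 1) a +
        (a + (-1 : ℤ) • rn (p + 1) (Equiv.swap 0 1) a) = (2 : ℤ) • a := by
      rw [one_smul, neg_one_smul, two_smul]
      abel
    rwa [e] at h4
  refine h.na (cancel hp h.p2 ?_ (Ml_Pp (by omega) h.ha) h3)
  intro h4
  have := Int.le_of_dvd (by norm_num) h4
  omega

end ADC
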