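import Pool.Agent.ADC.Npn
import Pool.Agent.ADC.GrpA
import Pool.Agent.ADC.Cnb
import Pool.Agent.ADC.Core1

/-!
# ADC-CoreZ

`n ≥ 4` and `Dn 4 ≤ J`: modulo `J` a word of `Ml n` depends on its last letter only: `mon w - Yw n (last) ∈ Dn n ≤ J` (`perm_Dn`).

1. `Φ = id - tl (rn n τ)`, `τ` a transposition of two letters `i, j`: `Φ Φ = 2 Φ`, and `Φ f ∈ J ⊔ ℤ (Yw n i - Yw n j)` for `f ∈ Ml n`
   (words with last letter `k ≠ i, j`: `Φ (mon w) ∈ J`; `τ` interchanges the words with last letters `i` and `j` modulo `J`).  So `Φ a ∈ I`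
   (`Pr.npn`), and `Φ b ∈ I` (`Pr.snd`).  Hence `rn n σ a ≡ a`, `rn n σ b ≡ b` modulo `I` for all `σ`.
2. `n < p`: `S = sP n 0`: `S f ∈ ℤ S (mw n)` exactly, so `S a ∈ I` (`Pr.np`), and `S a ≡ n! a`: `a ∈ I`, contradiction.
3. First alternative (`J = I`): `a ≡ ∑ α_i Yw n i` modulo `I`; `a - τ a ≡ (α_i - α_j)(Yw n i - Yw n j) ∈ I`.  If `Yw n i - Yw n j ∈ I` for some
   `i ≠ j` then (rename) for all, and `f ∈ I ⊔ ℤ Yw n 0` for all `f ∈ Ml n`: `Pr.np` with `Φ = id`.  Otherwise `p ∣ α_i - α_j` for all `i, j`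
   (`p Pp ≤ I`; if `p ∤ c` and `c Z ∈ I` then `Z ∈ I`), so `a ∈ I ⊔ ℤ ∑_i Yw n i`, and the same for `b` (`Lk.np`): `a ∈ I`.
4. Second alternative, `n ≥ p + 1`: `Cn n ≤ Cn (p+1) ≤ J`: `coreC`.  `n = p`: `Φ = sP p 1` (`u = (p-1)!`, `sA_sA`): modulo `J`,
   `Φ (Yw p 0) ≡ (p-1)! Yw p 0` (all words in the sum have last letter `0`), and for `i ≥ 1` `Φ (Yw p i) ≡ (p-2)! ∑_{z ≥ 1} Yw p z ≡
   - (p-2)! Yw p 0` as `∑_{z<p} Yw p z ∈ J`.  So `Φ f ∈ J ⊔ ℤ Yw p 0`, `Φ a ∈ I`; but `Φ a ≡ (p-1)! a` by 1.: `a ∈ I`.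
-/

namespace ADC

open AD ADN

private theorem cz_Yperm {n i : ℕ} (hi : i < n) : ((List.range n).erase i ++ [i]).Perm (List.range n) :=
  (List.perm_append_singleton i _).trans (List.perm_cons_erase (List.mem_range.2 hi)).symm

private theorem cz_YMl {n i : ℕ} (hi : i < n) : Yw n i ∈ Ml n := Ml_mon (cz_Yperm hi)

private theorem cz_last {n : ℕ} {J : Submodule ℤ P} (hD : Dn n ≤ J) {u : List ℕ} {i : ℕ}
    (hw : (u ++ [i]).Perm (List.range n)) : i < n ∧ mon (u ++ [i]) - Yw n i ∈ J := by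
  have hi : i ∈ List.range n := hw.mem_iff.1 (by simp)
  have h1 : (i :: u).Perm (i :: (List.range n).erase i) :=
    ((List.perm_append_singleton i u).symm.trans hw).trans (List.perm_cons_erase hi)
  have h2 : u.Perm ((List.range n).erase i) := (List.perm_cons i).1 h1
  have h3 := perm_Dn h2 (w := [i]) (by simp)
  have h4 : u.length + 1 = n := by
    have := hw.length_eq
    simpa using this
  rw [List.length_singleton, h4] at h3
  exact ⟨List.mem_range.1 hi, hD h3⟩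

private theorem cz_word {n : ℕ} (hn : 1 ≤ n) {J : Submodule ℤ P} (hD : Dn n ≤ J) {w : List ℕ}
    (hw : w.Perm (List.range n)) : ∃ i, i < n ∧ mon w - Yw n i ∈ J := by
  have h1 : w ≠ [] := by
    rintro rfl
    have := hw.length_eq
    simp at this
    omega
  have h2 := List.dropLast_append_getLast h1
  rw [← h2] at hw
  refine ⟨w.getLast h1, ?_⟩
  have h3 := cz_last hD hw
  rwa [h2] at h3

private theorem cz_rn {n : ℕ} {J : Submodule ℤ P} (hD : Dn n ≤ J) (σ : Equiv.Perm (Fin n)) {i : ℕ} (hi : i < n) :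
    rn n σ (Yw n i) - Yw n (pN n σ i) ∈ J := by
  have h1 := perm_map σ (cz_Yperm hi)
  rw [List.map_append, List.map_singleton] at h1
  have h2 := (cz_last hD h1).2
  have h3 : rn n σ (Yw n i) = mon (List.map (pN n σ) ((List.range n).erase i) ++ [pN n σ i]) := by
    unfold Yw
    rw [rn_mon, List.map_append, List.map_singleton]
  rw [h3]
  exact h2

private theorem cz_pN {n : ℕ} (σ : Equiv.Perm (Fin n)) (i : Fin n) : pN n σ i.val = (σ i).val := by
  unfold pN
  rw [dif_pos i.2]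

private theorem cz_all {I : Submodule ℤ P} (hI : IsT I) {n : ℕ} {x : P}
    (h : ∀ i j : Fin n, i ≠ j → x - rn n (Equiv.swap i j) x ∈ I) (σ : Equiv.Perm (Fin n)) : rn n σ x - x ∈ I := by
  induction σ using Equiv.Perm.swap_induction_on with
  | one =>
    rw [rn_one, sub_self]
    exact I.zero_mem
  | swap_mul σ i j hij ih =>
    rw [← rn_rn]
    have h1 := hI.subst _ (rn_isSubst n (Equiv.swap i j)) _ ih
    rw [map_sub] at h1
    have e : rn n (Equiv.swap i j) (rn n σ x) - x =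
        (rn n (Equiv.swap i j) (rn n σ x) - rn n (Equiv.swap i j) x) - (x - rn n (Equiv.swap i j) x) := by abel
    rw [e]
    exact I.sub_mem h1 (h i j hij)

private theorem cz_swap {p : ℕ} {I J A B C : Submodule ℤ P} {n : ℕ} {q : ℤ} {a b t : P}
    (h : Pr p I J A B C n q a b t) (hD : Dn n ≤ J) {i j : Fin n} :
    (LinearMap.id - tl (rn n (Equiv.swap i j)) : P →ₗ[ℤ] P) a ∈ I := by
  have hJ : ∀ f ∈ J, (LinearMap.id - tl (rn n (Equiv.swap i j)) : P →ₗ[ℤ] P) f ∈ J := by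
    intro f hf
    rw [LinearMap.sub_apply, LinearMap.id_apply, tl_apply]
    exact J.sub_mem hf (h.bJ.isT.subst _ (rn_isSubst n _) f hf)
  have hp5 := h.bJ.five
  refine h.npn ((TOp.id' p).sub (TOp_rn p n _)) ?_ (u := 2) ?_ ?_ (Y := Yw n i.val - Yw n j.val)
    (Submodule.sub_mem _ (cz_YMl i.2) (cz_YMl j.2)) ?_
  · intro f hf
    rw [LinearMap.sub_apply, LinearMap.id_apply, tl_apply]
    exact Submodule.sub_mem _ hf (Ml_rn _ hf)
  · intro h2
    have h3 := Int.le_of_dvd (by norm_num) h2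
    omega
  · intro f _
    simp only [LinearMap.sub_apply, LinearMap.id_apply, tl_apply, map_sub]
    rw [rn_rn, Equiv.swap_mul_self, rn_one]
    module
  · intro f hf
    refine Ml_ind (C := fun f => (LinearMap.id - tl (rn n (Equiv.swap i j)) : P →ₗ[ℤ] P) f ∈
      J ⊔ Submodule.span ℤ {Yw n i.val - Yw n j.val}) ?_ ?_ ?_ ?_ hf
    · rw [map_zero]
      exact Submodule.zero_mem _
    · intro f g hf hg
      rw [map_add]
      exact Submodule.add_mem _ hf hg
    · intro c f hf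
      rw [map_smul]
      exact Submodule.smul_mem _ _ hf
    · intro w hw
      obtain ⟨k, hk, hkJ⟩ := cz_word h.pos hD hw
      have h1 := hJ _ hkJ
      have h2 := cz_rn hD (Equiv.swap i j) hk
      have e : (LinearMap.id - tl (rn n (Equiv.swap i j)) : P →ₗ[ℤ] P) (mon w) =
          ((LinearMap.id - tl (rn n (Equiv.swap i j)) : P →ₗ[ℤ] P) (mon w - Yw n k) -
            (rn n (Equiv.swap i j) (Yw n k) - Yw n (pN n (Equiv.swap i j) k))) +
            (Yw n k - Yw n (pN n (Equiv.swap i j) k)) := by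
        simp only [LinearMap.sub_apply, LinearMap.id_apply, tl_apply, map_sub]
        abel
      rw [e]
      refine Submodule.add_mem _ (Submodule.mem_sup_left (J.sub_mem h1 h2)) ?_
      have hk2 : k = (⟨k, hk⟩ : Fin n).val := rfl
      rw [hk2, cz_pN]
      refine Submodule.mem_sup_right ?_
      by_cases c1 : (⟨k, hk⟩ : Fin n) = i
      · rw [c1, Equiv.swap_apply_left]
        exact Submodule.mem_span_singleton_self _
      · by_cases c2 : (⟨k, hk⟩ : Fin n) = j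
        · rw [c2, Equiv.swap_apply_right, ← neg_sub (Yw n i.val) (Yw n j.val)]
          exact (Submodule.span ℤ {Yw n i.val - Yw n j.val}).neg_mem (Submodule.mem_span_singleton_self _)
        · rw [Equiv.swap_apply_of_ne_of_ne c1 c2, sub_self]
          exact Submodule.zero_mem _

private theorem cz_avg {I : Submodule ℤ P} {n j : ℕ} (hj : j ≤ n) {x : P}
    (h : ∀ σ : Equiv.Perm (Fin n), rn n σ x - x ∈ I) (hx : sP n j x ∈ I) : (((n - j).factorial : ℕ) : ℤ) • x ∈ I := by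
  have h1 : ∑ σ ∈ sF n j, (rn n σ x - x) ∈ I := I.sum_mem fun σ _ => h σ
  have h2 : sP n j x = ∑ σ ∈ sF n j, rn n σ x := by
    unfold sP
    rw [LinearMap.sum_apply]
    rfl
  rw [Finset.sum_sub_distrib, ← h2, Finset.sum_const, card_sF hj] at h1
  have h3 := I.sub_mem hx h1
  rw [sub_sub_cancel] at h3
  rw [natCast_zsmul]
  exact h3

private theorem cz_fact {p : ℕ} {I J A B C : Submodule ℤ P} {n : ℕ} {q : ℤ} {a b t : P}
    (h : Pr p I J A B C n q a b t) {j : ℕ} (hj : j ≤ n) (hjp : n - j < p)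
    (ha : ∀ σ : Equiv.Perm (Fin n), rn n σ a - a ∈ I) (hx : sP n j a ∈ I) : False := by
  have h1 := cz_avg hj ha hx
  refine h.na (cancel h.bJ.pp h.p2 ?_ (Ml_Pp h.pos h.ha) h1)
  intro h2
  have h3 : p ∣ (n - j).factorial := by exact_mod_cast h2
  have h4 := (h.bJ.pp.dvd_factorial).1 h3
  omega

private theorem cz_ex {n : ℕ} {w : List ℕ} (hw : w.Perm (List.range n)) :
    ∃ τ : Equiv.Perm (Fin n), w = (List.range n).map (pN n τ) := by
  have hnd : w.Nodup := hw.nodup_iff.2 List.nodup_range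
  have hlen : w.length = n := by
    rw [hw.length_eq, List.length_range]
  have hlt : ∀ i : Fin n, w.get ⟨i.val, by rw [hlen]; exact i.2⟩ < n := fun i =>
    List.mem_range.1 (hw.mem_iff.1 (List.get_mem _ _))
  let f : Fin n → Fin n := fun i => ⟨w.get ⟨i.val, by rw [hlen]; exact i.2⟩, hlt i⟩
  have hf : Function.Injective f := by
    intro i j hij
    have h1 : w.get ⟨i.val, by rw [hlen]; exact i.2⟩ = w.get ⟨j.val, by rw [hlen]; exact j.2⟩ := congrArg Fin.val hij
    have h2 := hnd.injective_get h1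
    exact Fin.ext (Fin.mk.inj h2)
  refine ⟨Equiv.ofBijective f (Finite.injective_iff_bijective.1 hf), ?_⟩
  refine List.ext_getElem (by simp [hlen]) ?_
  intro i h1 h2
  rw [List.getElem_map, List.getElem_range]
  have hi : i < n := by rwa [hlen] at h1
  unfold pN
  rw [dif_pos hi]
  rfl

private theorem cz_memF {n j : ℕ} {σ : Equiv.Perm (Fin n)} : σ ∈ sF n j ↔ ∀ i : Fin n, i.val < j → σ i = i := by
  unfold sF
  rw [Finset.mem_filter]
  exact ⟨fun h => h.2, fun h => ⟨Finset.mem_univ _, h⟩⟩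

private theorem cz_small {p : ℕ} {I J A B C : Submodule ℤ P} {n : ℕ} {q : ℤ} {a b t : P}
    (h : Pr p I J A B C n q a b t) (ha : ∀ σ : Equiv.Perm (Fin n), rn n σ a - a ∈ I) (hn : n < p) : False := by
  refine cz_fact h (Nat.zero_le n) (by omega) ha ?_
  refine h.np (TOp_sP p n 0) (Y := sP n 0 (mw n)) (Ml_Pp h.pos (Ml_sP 0 (Ml_mon (List.Perm.refl _)))) ?_
  intro f hf
  refine Ml_ind (C := fun f => sP n 0 f ∈ I ⊔ Submodule.span ℤ {sP n 0 (mw n)}) ?_ ?_ ?_ ?_ hf
  · rw [map_zero]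
    exact Submodule.zero_mem _
  · intro f g hf hg
    rw [map_add]
    exact Submodule.add_mem _ hf hg
  · intro c f hf
    rw [map_smul]
    exact Submodule.smul_mem _ _ hf
  · intro w hw
    obtain ⟨τ, rfl⟩ := cz_ex hw
    have h1 : sP n 0 (mon ((List.range n).map (pN n τ))) = sP n 0 (mw n) := by
      rw [← rn_mon, sP_eq, sP_eq]
      exact (rho_sA (rnρ n) (σ := τ) (cz_memF.2 fun i hi => absurd hi (Nat.not_lt_zero _)) (mw n)).2
    rw [h1]
    exact Submodule.mem_sup_right (Submodule.mem_span_singleton_self _)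

private theorem cz_coef {n : ℕ} (hn : 1 ≤ n) {J : Submodule ℤ P} (hD : Dn n ≤ J) {f : P} (hf : f ∈ Ml n) :
    ∃ α : Fin n → ℤ, f - ∑ i : Fin n, α i • Yw n i.val ∈ J := by
  refine Ml_ind (C := fun f => ∃ α : Fin n → ℤ, f - ∑ i : Fin n, α i • Yw n i.val ∈ J) ?_ ?_ ?_ ?_ hf
  · refine ⟨fun _ => 0, ?_⟩
    simp
  · rintro f g ⟨α, hα⟩ ⟨β, hβ⟩
    refine ⟨fun i => α i + β i, ?_⟩
    have e : f + g - ∑ i : Fin n, (α i + β i) • Yw n i.val =
        (f - ∑ i : Fin n, α i • Yw n i.val) + (g - ∑ i : Fin n, β i • Yw n i.val) := by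
      simp only [add_smul, Finset.sum_add_distrib]
      abel
    rw [e]
    exact J.add_mem hα hβ
  · rintro c f ⟨α, hα⟩
    refine ⟨fun i => c * α i, ?_⟩
    have e : c • f - ∑ i : Fin n, (c * α i) • Yw n i.val = c • (f - ∑ i : Fin n, α i • Yw n i.val) := by
      rw [smul_sub, Finset.smul_sum]
      simp only [mul_smul]
    rw [e]
    exact J.smul_mem _ hα
  · intro w hw
    obtain ⟨k, hk, hkJ⟩ := cz_word hn hD hw
    refine ⟨fun i => if i = ⟨k, hk⟩ then 1 else 0, ?_⟩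
    simp only [ite_smul, one_smul, zero_smul]
    rw [Finset.sum_ite_eq' Finset.univ (⟨k, hk⟩ : Fin n), if_pos (Finset.mem_univ _)]
    exact hkJ

private theorem cz_sym {p n : ℕ} (hp : p.Prime) {J : Submodule ℤ P} (hJ : IsT J) (hm : Mul p J) (hn : 1 ≤ n)
    (hD : Dn n ≤ J) (hne : ∀ i : Fin n, i ≠ ⟨0, hn⟩ → Yw n i.val - Yw n 0 ∉ J) {x : P} (hx : x ∈ Ml n)
    (hs : ∀ σ : Equiv.Perm (Fin n), rn n σ x - x ∈ J) :
    x ∈ J ⊔ Submodule.span ℤ {∑ i : Fin n, Yw n i.val} := by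
  obtain ⟨α, hα⟩ := cz_coef hn hD hx
  have hYP : ∀ i : Fin n, Yw n i.val ∈ Pp := fun i => Ml_Pp hn (cz_YMl i.2)
  have key : ∀ i : Fin n, (α i - α ⟨0, hn⟩) • Yw n i.val ∈ J := by
    intro i
    by_cases hi : i = ⟨0, hn⟩
    · rw [hi, sub_self, zero_smul]
      exact J.zero_mem
    · have h1 : (p : ℤ) ∣ α i - α ⟨0, hn⟩ := by
        by_contra hcon
        refine hne i hi ?_
        refine cancel hp hm.sq hcon (Pp.sub_mem (hYP i) (hYP ⟨0, hn⟩)) ?_
        have h2 := hJ.subst _ (rn_isSubst n (Equiv.swap i ⟨0, hn⟩)) _ hα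
        have h3 := hs (Equiv.swap i ⟨0, hn⟩)
        have h4 : ∑ k : Fin n, α k • (rn n (Equiv.swap i ⟨0, hn⟩) (Yw n k.val) -
            Yw n (Equiv.swap i ⟨0, hn⟩ k).val) ∈ J := by
          refine J.sum_mem fun k _ => J.smul_mem _ ?_
          have := cz_rn hD (Equiv.swap i ⟨0, hn⟩) k.2
          rwa [cz_pN] at this
        have h5 : ∑ k : Fin n, α k • (Yw n k.val - Yw n (Equiv.swap i ⟨0, hn⟩ k).val) =
            (α i - α ⟨0, hn⟩) • (Yw n i.val - Yw n 0) := by
          have h6 : ∑ k : Fin n, α k • (Yw n k.val - Yw n (Equiv.swap i ⟨0, hn⟩ k).val) =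
              ∑ k ∈ ({i, ⟨0, hn⟩} : Finset (Fin n)), α k • (Yw n k.val - Yw n (Equiv.swap i ⟨0, hn⟩ k).val) := by
            refine (Finset.sum_subset (Finset.subset_univ _) fun k _ hk => ?_).symm
            rw [Finset.mem_insert, Finset.mem_singleton, not_or] at hk
            rw [Equiv.swap_apply_of_ne_of_ne hk.1 hk.2, sub_self, smul_zero]
          rw [h6, Finset.sum_pair hi, Equiv.swap_apply_left, Equiv.swap_apply_right]
          module
        rw [← h5]
        have e : ∑ k : Fin n, α k • (Yw n k.val - Yw n (Equiv.swap i ⟨0, hn⟩ k).val) =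
            rn n (Equiv.swap i ⟨0, hn⟩) (x - ∑ k : Fin n, α k • Yw n k.val) - (x - ∑ k : Fin n, α k • Yw n k.val) -
              (rn n (Equiv.swap i ⟨0, hn⟩) x - x) +
              ∑ k : Fin n, α k • (rn n (Equiv.swap i ⟨0, hn⟩) (Yw n k.val) -
            Yw n (Equiv.swap i ⟨0, hn⟩ k).val) := by
          simp only [map_sub, map_sum, map_zsmul, smul_sub, Finset.sum_sub_distrib]
          abel
        rw [e]
        exact J.add_mem (J.sub_mem (J.sub_mem h2 hα) h3) h4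
      obtain ⟨c, hc⟩ := h1
      rw [hc, mul_smul]
      exact hm _ (Pp.smul_mem _ (hYP i))
  have e : x = ((x - ∑ i : Fin n, α i • Yw n i.val) + ∑ i : Fin n, (α i - α ⟨0, hn⟩) • Yw n i.val) +
      α ⟨0, hn⟩ • ∑ i : Fin n, Yw n i.val := by
    rw [Finset.smul_sum]
    simp only [sub_smul, Finset.sum_sub_distrib]
    abel
  rw [e]
  exact Submodule.add_mem _ (Submodule.mem_sup_left (J.add_mem hα (J.sum_mem fun i _ => key i)))
    (Submodule.mem_sup_right (Submodule.smul_mem _ _ (Submodule.mem_span_singleton_self _)))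

private theorem cz_first {p : ℕ} {I A B C : Submodule ℤ P} {n : ℕ} {q : ℤ} {a b t : P}
    (h : Pr p I I A B C n q a b t) (hD : Dn n ≤ I) (ha : ∀ σ : Equiv.Perm (Fin n), rn n σ a - a ∈ I)
    (hb : ∀ σ : Equiv.Perm (Fin n), rn n σ b - b ∈ I) : False := by
  have hn := h.pos
  by_cases hne : ∀ i : Fin n, i ≠ ⟨0, hn⟩ → Yw n i.val - Yw n 0 ∉ I
  · refine h.na (Lk.np h.bJ.pp h.toLk h.lk ?_ (cz_sym h.bJ.pp h.hI h.bJ.mul hn hD hne h.ha ha)
      (cz_sym h.bJ.pp h.hI h.bJ.mul hn hD hne h.hb hb))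
    exact Pp.sum_mem fun i _ => Ml_Pp hn (cz_YMl i.2)
  · push Not at hne
    obtain ⟨i, hi, hiI⟩ := hne
    have h1 : ∀ k : Fin n, Yw n k.val - Yw n 0 ∈ I := by
      intro k
      by_cases hk : k = ⟨0, hn⟩
      · rw [hk, sub_self]
        exact I.zero_mem
      · have h2 := h.hI.subst _ (rn_isSubst n (Equiv.swap i k)) _ hiI
        have h3 := cz_rn hD (Equiv.swap i k) i.2
        have h4 := cz_rn hD (Equiv.swap i k) (i := 0) hn
        rw [cz_pN, Equiv.swap_apply_left] at h3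
        have h5 : pN n (Equiv.swap i k) 0 = 0 := by
          have h6 := cz_pN (Equiv.swap i k) ⟨0, hn⟩
          rw [Equiv.swap_apply_of_ne_of_ne (Ne.symm hi) (Ne.symm hk)] at h6
          exact h6
        rw [h5] at h4
        rw [map_sub] at h2
        have e : Yw n k.val - Yw n 0 = (rn n (Equiv.swap i k) (Yw n i.val) - rn n (Equiv.swap i k) (Yw n 0)) -
            (rn n (Equiv.swap i k) (Yw n i.val) - Yw n k.val) + (rn n (Equiv.swap i k) (Yw n 0) - Yw n 0) := by abel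
        rw [e]
        exact I.add_mem (I.sub_mem h2 h3) h4
    refine h.na ?_
    refine h.np (Φ := LinearMap.id) (TOp.id' p) (Y := Yw n 0) (Ml_Pp hn (cz_YMl hn)) ?_
    intro f hf
    rw [LinearMap.id_apply]
    obtain ⟨α, hα⟩ := cz_coef hn hD hf
    have e : f = ((f - ∑ i : Fin n, α i • Yw n i.val) + ∑ i : Fin n, α i • (Yw n i.val - Yw n 0)) +
        (∑ i : Fin n, α i) • Yw n 0 := by
      rw [Finset.sum_smul]
      simp only [smul_sub, Finset.sum_sub_distrib]
      abel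
    rw [e]
    exact Submodule.add_mem _ (Submodule.mem_sup_left (I.add_mem hα (I.sum_mem fun i _ => I.smul_mem _ (h1 i))))
      (Submodule.mem_sup_right (Submodule.smul_mem _ _ (Submodule.mem_span_singleton_self _)))

private theorem cz_W {p : ℕ} (hp : 0 < p) {J : Submodule ℤ P} (hT : ∑ i ∈ Finset.range p, Yw p i ∈ J)
    {i : Fin p} (hi : i ≠ ⟨0, hp⟩) :
    ∑ σ ∈ sF p 1, Yw p (σ i).val ∈ J ⊔ Submodule.span ℤ {Yw p 0} := by
  have hmaps : ∀ σ ∈ sF p 1, σ i ∈ Finset.univ.erase (⟨0, hp⟩ : Fin p) := by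
    intro σ hσ
    refine Finset.mem_erase.2 ⟨fun h1 => hi ?_, Finset.mem_univ _⟩
    have h2 := cz_memF.1 hσ ⟨0, hp⟩ Nat.zero_lt_one
    exact σ.injective (h1.trans h2.symm)
  have hcard : ∀ z ∈ Finset.univ.erase (⟨0, hp⟩ : Fin p), {σ ∈ sF p 1 | σ i = z}.card =
      {σ ∈ sF p 1 | σ i = i}.card := by
    intro z hz
    have hz0 : z ≠ ⟨0, hp⟩ := (Finset.mem_erase.1 hz).1
    refine Finset.card_equiv (Equiv.mulLeft (Equiv.swap z i)) fun σ => ?_
    rw [Equiv.coe_mulLeft, Finset.mem_filter, Finset.mem_filter, cz_memF, cz_memF]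
    have hsw : ∀ x : Fin p, x.val < 1 → Equiv.swap z i x = x := by
      intro x hx
      have hx0 : x = ⟨0, hp⟩ := Fin.ext (by simp; omega)
      rw [hx0]
      exact Equiv.swap_apply_of_ne_of_ne (Ne.symm hz0) (Ne.symm hi)
    constructor
    · rintro ⟨h1, h2⟩
      refine ⟨fun x hx => ?_, ?_⟩
      · rw [Equiv.Perm.mul_apply, h1 x hx, hsw x hx]
      · rw [Equiv.Perm.mul_apply, h2, Equiv.swap_apply_left]
    · rintro ⟨h1, h2⟩
      refine ⟨fun x hx => ?_, ?_⟩
      · have h3 := h1 x hx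
        rw [Equiv.Perm.mul_apply] at h3
        have h4 := congrArg (Equiv.swap z i) h3
        rwa [Equiv.swap_apply_self, hsw x hx] at h4
      · rw [Equiv.Perm.mul_apply] at h2
        have h4 := congrArg (Equiv.swap z i) h2
        rwa [Equiv.swap_apply_self, Equiv.swap_apply_right] at h4
  have h1 : ∑ σ ∈ sF p 1, Yw p (σ i).val = ({σ ∈ sF p 1 | σ i = i}.card : ℤ) •
      ∑ z ∈ Finset.univ.erase (⟨0, hp⟩ : Fin p), Yw p z.val := by
    rw [← Finset.sum_fiberwise_of_maps_to hmaps, Finset.smul_sum]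
    refine Finset.sum_congr rfl fun z hz => ?_
    rw [← hcard z hz, natCast_zsmul, ← Finset.sum_const]
    refine Finset.sum_congr rfl fun σ hσ => ?_
    rw [(Finset.mem_filter.1 hσ).2]
  have h2 : ∑ z ∈ Finset.univ.erase (⟨0, hp⟩ : Fin p), Yw p z.val = ∑ i ∈ Finset.range p, Yw p i - Yw p 0 := by
    rw [Finset.sum_range, ← Finset.add_sum_erase Finset.univ (fun z : Fin p => Yw p z.val) (Finset.mem_univ ⟨0, hp⟩)]
    abel
  rw [h1, h2]
  refine Submodule.smul_mem _ _ (Submodule.sub_mem _ (Submodule.mem_sup_left hT)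
    (Submodule.mem_sup_right (Submodule.mem_span_singleton_self _)))

private theorem cz_sPr {p : ℕ} (hp : 0 < p) {J : Submodule ℤ P} (hJ : IsT J) (hD : Dn p ≤ J)
    (hT : ∑ i ∈ Finset.range p, Yw p i ∈ J) {f : P} (hf : f ∈ Ml p) :
    sP p 1 f ∈ J ⊔ Submodule.span ℤ {Yw p 0} := by
  have hJ2 : ∀ f ∈ J, sP p 1 f ∈ J := by
    intro f hf
    unfold sP
    rw [LinearMap.sum_apply]
    exact J.sum_mem fun σ _ => hJ.subst _ (rn_isSubst p σ) f hf
  refine Ml_ind (C := fun f => sP p 1 f ∈ J ⊔ Submodule.span ℤ {Yw p 0}) ?_ ?_ ?_ ?_ hf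
  · rw [map_zero]
    exact Submodule.zero_mem _
  · intro f g hf hg
    rw [map_add]
    exact Submodule.add_mem _ hf hg
  · intro c f hf
    rw [map_smul]
    exact Submodule.smul_mem _ _ hf
  · intro w hw
    obtain ⟨k, hk, hkJ⟩ := cz_word hp hD hw
    have h1 := hJ2 _ hkJ
    have h2 : ∑ σ ∈ sF p 1, (rn p σ (Yw p k) - Yw p (σ ⟨k, hk⟩).val) ∈ J := by
      refine J.sum_mem fun σ _ => ?_
      have h3 := cz_rn hD σ (i := (⟨k, hk⟩ : Fin p).val) hk
      rwa [cz_pN] at h3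
    have h4 : sP p 1 (Yw p k) = ∑ σ ∈ sF p 1, rn p σ (Yw p k) := by
      unfold sP
      rw [LinearMap.sum_apply]
      rfl
    have e : sP p 1 (mon w) = (sP p 1 (mon w - Yw p k) + ∑ σ ∈ sF p 1, (rn p σ (Yw p k) - Yw p (σ ⟨k, hk⟩).val)) +
        ∑ σ ∈ sF p 1, Yw p (σ ⟨k, hk⟩).val := by
      rw [map_sub, Finset.sum_sub_distrib, h4]
      abel
    rw [e]
    refine Submodule.add_mem _ (Submodule.mem_sup_left (J.add_mem h1 h2)) ?_
    by_cases hk0 : (⟨k, hk⟩ : Fin p) = ⟨0, hp⟩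
    · refine Submodule.mem_sup_right (Submodule.sum_mem _ fun σ hσ => ?_)
      rw [hk0, cz_memF.1 hσ ⟨0, hp⟩ Nat.zero_lt_one]
      exact Submodule.mem_span_singleton_self _
    · exact cz_W hp hT hk0

theorem coreZ {p : ℕ} {I J A B C : Submodule ℤ P} {n : ℕ} {q : ℤ} {a b t : P}
    (h : Pr p I J A B C n q a b t) (hn : 4 ≤ n) (hD : Dn 4 ≤ J)
    (hc : J = I ∨ (∑ i ∈ Finset.range p, Yw p i ∈ J ∧ Cn (p + 1) ≤ J)) : False := by
  have hDn : Dn n ≤ J := (Dn_anti hn).trans hD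
  have ha : ∀ σ : Equiv.Perm (Fin n), rn n σ a - a ∈ I := by
    refine cz_all h.hI fun i j _ => ?_
    have h1 := cz_swap h hDn (i := i) (j := j)
    rwa [LinearMap.sub_apply, LinearMap.id_apply, tl_apply] at h1
  have hb : ∀ σ : Equiv.Perm (Fin n), rn n σ b - b ∈ I := by
    refine cz_all h.hI fun i j _ => ?_
    have h1 := (h.snd ((TOp.id' p).sub (TOp_rn p n (Equiv.swap i j)))).1 (cz_swap h hDn (i := i) (j := j))
    rwa [LinearMap.sub_apply, LinearMap.id_apply, tl_apply] at h1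
  rcases hc with rfl | ⟨hT, hC⟩
  · exact cz_first h hDn ha hb
  · rcases lt_trichotomy n p with hlt | heq | hgt
    · exact cz_small h ha hlt
    · subst heq
      have hpos := h.pos
      have hp5 := h.bJ.five
      refine cz_fact h (j := 1) hpos (by omega) ha ?_
      refine h.npn (TOp_sP n n 1) (fun f hf => Ml_sP 1 hf) (u := (((n - 1).factorial : ℕ) : ℤ)) ?_ ?_
        (Y := Yw n 0) (cz_YMl hpos) (fun f hf => cz_sPr hpos h.bJ.isT hDn hT hf)
      · intro h2
        have h3 : n ∣ (n - 1).factorial := by exact_mod_cast h2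
        have h4 := (h.bJ.pp.dvd_factorial).1 h3
        omega
      · intro f _
        rw [sP_eq, sP_eq, sA_sA (rnρ n) hpos]
    · exact coreC h ((Cn_anti hgt).trans hC)

end ADC
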