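import Pool.Agent.ADC.Trf

/-!
# ADC-TrC

Consequences of `transfer`: `Cn m ≤ J ⊔ Cn (m + s)` for all `m ≥ n`, by splitting off a middle factor
of length `n`, and by iteration `Cn n ≤ J`; the same first step for `Dn`.
-/

namespace ADC

open AD ADN

private theorem trc_mid {p : ℕ} {J : Submodule ℤ P} (hJ : Bas p J) {G : Set P} {s n : ℕ}
    (hG : ∀ g ∈ G, ∃ d, 1 ≤ d ∧ g ∈ Ml d ∧ g ∈ J ⊔ Cn (d + s)) {u v : List ℕ} {i j : ℕ}
    (hl : u.length + v.length + 2 = n)
    (h : mon u * cm i j * mon v ∈ Gen (insert ((p : ℤ) • X 0) G)) (u' v' : List ℕ) :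
    mon u' * (mon u * cm i j * mon v) * mon v' ∈ J ⊔ Cn (u'.length + (n + s) + v'.length) := by
  have h1 : mon u * cm i j * mon v ∈
      Submodule.span ℤ {f | ∃ w : List ℕ, w.length = n ∧ f = mon w} := by
    have h2 : mon u * cm i j * mon v = mon (u ++ i :: j :: v) - mon (u ++ j :: i :: v) := by
      unfold cm
      rw [mon_append, mon_append, mon_cons, mon_cons, mon_cons, mon_cons]
      noncomm_ring
    rw [h2]
    refine Submodule.sub_mem _ (Submodule.subset_span ⟨_, ?_, rfl⟩)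
      (Submodule.subset_span ⟨_, ?_, rfl⟩)
    · simp only [List.length_append, List.length_cons]
      omega
    · simp only [List.length_append, List.length_cons]
      omega
  obtain ⟨a, ha, b, hb, hab⟩ := Submodule.mem_sup.1 (transfer hJ hG h h1)
  rw [← hab, mul_add, add_mul]
  exact Submodule.add_mem_sup (IsT.lm hJ.isT _ _ ha) (Cn_mono_right v' (Cn_mono_left u' hb))

private theorem trc_split {n : ℕ} (hn : 2 ≤ n) {u v : List ℕ} {i j : ℕ}
    (h : n ≤ u.length + v.length + 2) :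
    ∃ u1 u2 v1 v2 : List ℕ, u2.length + v1.length + 2 = n ∧ v1 = v.take (n - 2) ∧
      u1.length + n + v2.length = u.length + v.length + 2 ∧
      mon u * cm i j * mon v = mon u1 * (mon u2 * cm i j * mon v1) * mon v2 := by
  have h1 : (v.take (n - 2)).length = min (n - 2) v.length := List.length_take
  obtain ⟨b, hb⟩ : ∃ b, b = n - 2 - (v.take (n - 2)).length := ⟨_, rfl⟩
  refine ⟨u.take (u.length - b), u.drop (u.length - b), v.take (n - 2), v.drop (n - 2), ?_, rfl, ?_,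
    ?_⟩
  · rw [List.length_drop]
    omega
  · rw [List.length_take, List.length_drop]
    omega
  · have e1 : mon u = mon (u.take (u.length - b)) * mon (u.drop (u.length - b)) := by
      rw [← mon_append, List.take_append_drop]
    have e2 : mon v = mon (v.take (n - 2)) * mon (v.drop (n - 2)) := by
      rw [← mon_append, List.take_append_drop]
    rw [e1, e2]
    noncomm_ring

theorem Cn_le_of {p : ℕ} {J : Submodule ℤ P} (hJ : Bas p J) {G : Set P} {s n : ℕ} (hs : 1 ≤ s) (hn : 2 ≤ n)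
    (hG : ∀ g ∈ G, ∃ d, 1 ≤ d ∧ g ∈ Ml d ∧ g ∈ J ⊔ Cn (d + s))
    (h : ∀ (u v : List ℕ) (i j : ℕ), u.length + v.length + 2 = n →
      mon u * cm i j * mon v ∈ Gen (insert ((p : ℤ) • X 0) G)) : Cn n ≤ J := by
  have h1 : ∀ m, n ≤ m → Cn m ≤ J ⊔ Cn (m + s) := by
    intro m hm
    refine Submodule.span_le.2 ?_
    rintro f ⟨u, v, i, j, hl, rfl⟩
    show mon u * cm i j * mon v ∈ J ⊔ Cn (m + s)
    obtain ⟨u1, u2, v1, v2, h2, -, h3, h4⟩ := trc_split (i := i) (j := j) hn (hm.trans hl)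
    rw [h4]
    refine (sup_le_sup_left (Cn_anti ?_) J) (trc_mid hJ hG h2 (h u2 v1 i j h2) u1 v2)
    omega
  have h2 : ∀ k, Cn n ≤ J ⊔ Cn (n + k * s) := by
    intro k
    induction k with
    | zero =>
      rw [Nat.zero_mul, Nat.add_zero]
      exact le_sup_right
    | succ k ih =>
      refine ih.trans (sup_le le_sup_left ?_)
      have h3 := h1 (n + k * s) (Nat.le_add_right _ _)
      have e : n + k * s + s = n + (k + 1) * s := by ring
      rw [e] at h3
      exact h3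
  obtain ⟨N, hN⟩ := hJ.nil
  refine (h2 N).trans (sup_le le_rfl ((Cn_anti ?_).trans (Cn_nil hN)))
  nlinarith

theorem Dn_le_of {p : ℕ} {J : Submodule ℤ P} (hJ : Bas p J) {G : Set P} {s n : ℕ} (hn : 3 ≤ n)
    (hG : ∀ g ∈ G, ∃ d, 1 ≤ d ∧ g ∈ Ml d ∧ g ∈ J ⊔ Cn (d + s))
    (h : ∀ (u v : List ℕ) (i j : ℕ), v ≠ [] → u.length + v.length + 2 = n →
      mon u * cm i j * mon v ∈ Gen (insert ((p : ℤ) • X 0) G)) : ∀ m, n ≤ m → Dn m ≤ J ⊔ Cn (m + s) := by
  intro m hm
  refine Submodule.span_le.2 ?_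
  rintro f ⟨u, v, i, j, hv, hl, rfl⟩
  show mon u * cm i j * mon v ∈ J ⊔ Cn (m + s)
  obtain ⟨u1, u2, v1, v2, h2, h5, h3, h4⟩ := trc_split (i := i) (j := j) (by omega) (hm.trans hl)
  rw [h4]
  have hv1 : v1 ≠ [] := by
    obtain ⟨a, t, rfl⟩ := List.exists_cons_of_ne_nil hv
    obtain ⟨k, hk⟩ : ∃ k, n - 2 = k + 1 := ⟨n - 3, by omega⟩
    rw [h5, hk, List.take_succ_cons]
    exact List.cons_ne_nil _ _
  refine (sup_le_sup_left (Cn_anti ?_) J) (trc_mid hJ hG h2 (h u2 v1 i j hv1 h2) u1 v2)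
  omega

end ADC
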