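import Pool.Agent.ADC.Gr1
import Pool.Agent.ADC.Gr2
import Pool.Agent.ADC.TrC
import Pool.Agent.ADC.Tm2

/-!
# ADC-GenO

Grassmann type: `Tame p J 1 (-1)` and `Grs p J`.  Let `G = {kml 1 (-1)} ∪ {f_k}` with the polynomials `f_k` of `Grs p J`, `s = 2`
(`kml 1 (-1) ∈ J ⊔ Cn (3 + (p-1)) ≤ J ⊔ Cn (3 + 2)`, `f_k ∈ Ml p ∩ (J ⊔ Cn (p+2))`).  `D = Gen (insert (p • X 0) G)`:
`Mul p D` (substitute), `kk 1 (-1) ∈ D` (`kk_of_kml`), `ll ∈ D` (`ll_of_kk`), `f_k ∈ D`, so `Gr1` for all odd `k = 2m - 1`, `k + 2 ≤ p` (then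
`(k+1)/2 = m`, `p - k = p + 1 - 2m`), and `Gr2`: the commutator words of length `p + 2` are in `D`; `Cn_le_of`: `Cn (p+2) ≤ J`.
Then `kml 1 (-1) ∈ J ⊔ Cn (3 + (p-1)) = J ⊔ Cn (p+2) ≤ J`, `kk 1 (-1) ∈ J`, and `f_k ∈ J`.
-/

namespace ADC

open AD ADN

/-- the consequences for a T-ideal `D` -/
private theorem go_kap {p : ℕ} (hp : p.Prime) (h5 : 5 ≤ p) {D : Submodule ℤ P} (hD : IsT D) (hm : Mul p D)
    (h : kk 1 (-1) ∈ D) (hg : ∀ k, k % 2 = 1 → k + 2 ≤ p →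
      ∃ f ∈ Ml p, f ∈ D ∧ ¬ ((p : ℤ) ∣ gA k f ∧ (p : ℤ) ∣ gB p k f)) :
    ll ∈ D ∧ ∀ m, 1 ≤ m → 2 * m + 1 ≤ p → kap m * X (2 * m) ^ (p + 1 - 2 * m) ∈ D := by
  have hl := ll_of_kk hp h5 hD hm.sq h
  refine ⟨hl, fun m h1 h2 => ?_⟩
  obtain ⟨f, hf, hfD, hn⟩ := hg (2 * m - 1) (by omega) (by omega)
  have h3 := Gr1 hp h5 hD hm hl (k := 2 * m - 1) (by omega) (by omega) hf hfD hn
  have e1 : 2 * m - 1 + 1 = 2 * m := by omega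
  have e2 : 2 * m / 2 = m := by omega
  have e3 : p - (2 * m - 1) = p + 1 - 2 * m := by omega
  rw [e1, e2, e3] at h3
  exact h3

theorem GenO {p : ℕ} {J : Submodule ℤ P} (h : Tame p J 1 (-1)) (hg : Grs p J) :
    Cn (p + 2) ≤ J ∧ kk 1 (-1) ∈ J ∧ Grs0 p J := by
  have hp := h.pp
  have h5 := h.five
  -- the generators
  let G : Set P := insert (kml 1 (-1)) {f | f ∈ Ml p ∧ f ∈ J ⊔ Cn (p + 2)}
  have hG : ∀ g ∈ G, ∃ d, 1 ≤ d ∧ g ∈ Ml d ∧ g ∈ J ⊔ Cn (d + 2) := by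
    intro g hg'
    rcases hg' with rfl | hg'
    · exact ⟨3, by norm_num, h.kml.1, (sup_le_sup_left (Cn_anti (by omega)) J) h.kml.2⟩
    · exact ⟨p, by omega, hg'.1, hg'.2⟩
  have hGP : insert ((p : ℤ) • X 0) G ⊆ (Pp : Set P) := by
    intro f hf
    rcases hf with rfl | hf
    · exact Pp.smul_mem _ (X_mem 0)
    · obtain ⟨d, h1, h2, -⟩ := hG f hf
      exact Ml_Pp h1 h2
  have hD : IsT (Gen (insert ((p : ℤ) • X 0) G)) := isT_Gen hGP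
  have hm : Mul (p : ℤ) (Gen (insert ((p : ℤ) • X 0) G)) := by
    intro f hf
    have h1 := sb_mem hD (φ := fun _ => f) (fun _ => hf) (subset_Gen _ (Set.mem_insert ((p : ℤ) • X 0) G))
    rw [map_zsmul, sb_X] at h1
    exact h1
  have hGD : ∀ g ∈ G, g ∈ Gen (insert ((p : ℤ) • X 0) G) := fun g hg' =>
    subset_Gen _ (Set.mem_insert_of_mem _ hg')
  have hk : kk 1 (-1) ∈ Gen (insert ((p : ℤ) • X 0) G) :=
    kk_of_kml hp (by omega) hD hm.sq (hGD _ (Set.mem_insert _ _))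
  obtain ⟨hl, hkap⟩ := go_kap hp h5 hD hm hk (fun k h1 h2 => by
    obtain ⟨f, hf, hfJ, hn⟩ := hg k h1 h2
    exact ⟨f, hf, hGD f (Set.mem_insert_of_mem _ ⟨hf, hfJ⟩), hn⟩)
  have hC : Cn (p + 2) ≤ J := by
    refine Cn_le_of (G := G) (s := 2) h.toBas (by norm_num) (by omega) hG ?_
    intro u v i j hl'
    exact Gr2 hp h5 hD hm hl hkap u v i j hl'
  have hJC : J ⊔ Cn (p + 2) ≤ J := sup_le le_rfl hC
  refine ⟨hC, hJC h.K, fun k h1 h2 => ?_⟩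
  obtain ⟨f, hf, hfJ, hn⟩ := hg k h1 h2
  exact ⟨f, hf, hJC hfJ, hn⟩

/-- the consequences `κ_m x^(p+1-2m)` for `J` itself -/
theorem kap_of {p : ℕ} {J : Submodule ℤ P} (hJ : Bas p J) (h : kk 1 (-1) ∈ J) (hg : Grs0 p J) :
    ll ∈ J ∧ ∀ m, 1 ≤ m → 2 * m + 1 ≤ p → kap m * X (2 * m) ^ (p + 1 - 2 * m) ∈ J :=
  go_kap hJ.pp hJ.five hJ.isT hJ.mul h hg

end ADC
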