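import Pool.Agent.ADC.Quot
import Pool.Agent.ADC.KmlB

/-!
# ADC-Rg: rings with `[[x,y],z] = 0`
-/

namespace ADC

open AD ADN

theorem ll_of_kk {p : ℕ} (hp : p.Prime) (h5 : 5 ≤ p) {D : Submodule ℤ P} (hD : IsT D) (hm : Mul ((p : ℤ) ^ 2) D)
    (h : kk 1 (-1) ∈ D) : ll ∈ D := by
  have hk := kml_of_kk hD h
  have hA := kml_subst hD hk (x := X 1) (y := X 0) (z := X 2) (X_mem 1) (X_mem 0) (X_mem 2)
  have hB := kml_subst hD hk (x := X 2) (y := X 0) (z := X 1) (X_mem 2) (X_mem 0) (X_mem 1)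
  have h3 : (3 : ℤ) • ll ∈ D := by
    have h1 := D.add_mem (D.add_mem hA hA) hB
    refine (congrArg (fun f => f ∈ D) ?_).mp h1
    unfold ll cm
    noncomm_ring
  have hl : ll ∈ Pp := Pp.sub_mem (Pp_mul_left _ (X_mem 2)) (Pp_mul_left _ (cm_mem 0 1))
  refine cancel hp hm (c := 3) ?_ hl h3
  intro h6
  have h7 := Int.le_of_dvd (by norm_num) h6
  omega

theorem ll_subst {D : Submodule ℤ P} (hD : IsT D) (h : ll ∈ D) {x y z : P} (hx : x ∈ Pp) (hy : y ∈ Pp)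
    (hz : z ∈ Pp) : (x * y - y * x) * z - z * (x * y - y * x) ∈ D := by
  have h1 := sb_mem hD (φ := fun i => if i = 0 then x else if i = 1 then y else
    if i = 2 then z else X i) (fun i => by
      show (if i = 0 then x else if i = 1 then y else if i = 2 then z else X i) ∈ Pp
      split_ifs
      · exact hx
      · exact hy
      · exact hz
      · exact X_mem i) h
  unfold ll cm at h1
  simp only [map_sub, map_mul, sb_X] at h1
  exact h1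

theorem Rg1 {S : Type*} [Ring S] (F : Set S) (hm : ∀ x ∈ F, ∀ y ∈ F, x * y ∈ F) (ha : ∀ x ∈ F, ∀ y ∈ F, x + y ∈ F)
    (hn : ∀ x ∈ F, -x ∈ F) (h2 : ∀ x ∈ F, (2 : ℤ) • x = 0 → x = 0)
    (K : ∀ x ∈ F, ∀ y ∈ F, ∀ z ∈ F, (x*y - y*x)*z = z*(x*y - y*x))
    {x y z : S} (hx : x ∈ F) (hy : y ∈ F) (hz : z ∈ F) : (x*y - y*x)*(y*z - z*y) = 0 := by
  have hs : ∀ u ∈ F, ∀ v ∈ F, u * v - v * u ∈ F := by
    intro u hu v hv
    rw [sub_eq_add_neg]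
    exact ha _ (hm _ hu _ hv) _ (hn _ (hm _ hv _ hu))
  have h1 := K x hx (y * y) (hm y hy y hy) z hz
  have hcz := K x hx y hy z hz
  have hcd := K x hx y hy (y * z - z * y) (hs y hy z hz)
  refine h2 _ (hm _ (hs x hx y hy) _ (hs y hy z hz)) ?_
  have e : (x*y - y*x)*(y*z - z*y) + (y*z - z*y)*(x*y - y*x) =
      ((x*(y*y) - y*y*x)*z - z*(x*(y*y) - y*y*x)) -
        ((x*y - y*x)*z - z*(x*y - y*x))*y - y*((x*y - y*x)*z - z*(x*y - y*x)) := by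
    noncomm_ring
  rw [h1, hcz, sub_self, sub_self, zero_mul, mul_zero, sub_zero, sub_zero, ← hcd] at e
  rw [two_smul]
  exact e

theorem Rg2 {S : Type*} [Ring S] (F : Set S) (hm : ∀ x ∈ F, ∀ y ∈ F, x * y ∈ F) (ha : ∀ x ∈ F, ∀ y ∈ F, x + y ∈ F)
    (hn : ∀ x ∈ F, -x ∈ F) (h2 : ∀ x ∈ F, (2 : ℤ) • x = 0 → x = 0)
    (K : ∀ x ∈ F, ∀ y ∈ F, ∀ z ∈ F, (x*y - y*x)*z = z*(x*y - y*x))
    {x y z w : S} (hx : x ∈ F) (hy : y ∈ F) (hz : z ∈ F) (hw : w ∈ F) :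
    (x*y - y*x)*(w*z - z*w) + (x*w - w*x)*(y*z - z*y) = 0 := by
  have e1 := Rg1 F hm ha hn h2 K hx (ha y hy w hw) hz
  have e2 := Rg1 F hm ha hn h2 K hx hy hz
  have e3 := Rg1 F hm ha hn h2 K hx hw hz
  have e : (x*y - y*x)*(w*z - z*w) + (x*w - w*x)*(y*z - z*y) =
      (x*(y + w) - (y + w)*x)*((y + w)*z - z*(y + w)) - (x*y - y*x)*(y*z - z*y) -
        (x*w - w*x)*(w*z - z*w) := by
    noncomm_ring
  rw [e, e1, e2, e3, sub_zero, sub_zero]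

end ADC
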