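import Pool.Agent.ADC.Tm2
import Pool.Agent.ADC.NonM
import Pool.Agent.ADC.Rg

/-!
# ADC-RedO

`Red p J` (Defs) if commutator words are short.
-/

namespace ADC

open AD ADN

private theorem ro_gen {p : ℕ} {J : Submodule ℤ P} (hJ : IsT J) (hp : 1 ≤ p)
    (h1 : ll ∈ J ∧ cm 0 1 * X 0 ^ (p - 1) ∈ J) :
    ∀ d i : ℕ, i + d = p → X 0 ^ i * X 1 * X 0 ^ d - X 0 ^ p * X 1 ∈ J := by
  obtain ⟨h1, h2⟩ := h1
  have hc : cm 0 1 * X 0 - X 0 * cm 0 1 ∈ J := by
    have h3 := sb_mem hJ (φ := fun j => if j = 1 then X 1 else X 0) (fun j => by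
      by_cases h : j = 1
      · rw [if_pos h]; exact X_mem _
      · rw [if_neg h]; exact X_mem _) h1
    have e1 : sb (fun j => if j = 1 then X 1 else X 0) ll = cm 0 1 * X 0 - X 0 * cm 0 1 := by
      unfold ll cm
      simp only [map_sub, map_mul, sb_X]
      simp
    rwa [e1] at h3
  have hpow : ∀ i, X 0 ^ i * cm 0 1 - cm 0 1 * X 0 ^ i ∈ J := by
    intro i
    induction i with
    | zero => rw [pow_zero, one_mul, mul_one, sub_self]; exact J.zero_mem
    | succ i ih =>
      have e1 : X 0 ^ (i + 1) * cm 0 1 - cm 0 1 * X 0 ^ (i + 1) =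
          X 0 ^ i * -(cm 0 1 * X 0 - X 0 * cm 0 1) + (X 0 ^ i * cm 0 1 - cm 0 1 * X 0 ^ i) * X 0 := by
        rw [pow_succ]
        noncomm_ring
      rw [e1]
      exact J.add_mem (hJ.mul_left _ (J.neg_mem hc) _) (hJ.mul_right _ ih _)
  intro d
  induction d with
  | zero =>
    intro i hi
    rw [pow_zero, mul_one, ← hi, add_zero, sub_self]
    exact J.zero_mem
  | succ d ih =>
    intro i hi
    have h3 := ih (i + 1) (by omega)
    have h4 : X 0 ^ i * cm 0 1 * X 0 ^ d ∈ J := by
      have h5 : X 0 ^ i * cm 0 1 * X 0 ^ d = (X 0 ^ i * cm 0 1 - cm 0 1 * X 0 ^ i) * X 0 ^ d +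
          cm 0 1 * X 0 ^ (p - 1) := by
        have h6 : p - 1 = i + d := by omega
        rw [h6, pow_add]
        noncomm_ring
      rw [h5]
      exact J.add_mem (hJ.mul_right _ (hpow i) _) h2
    have h5 : X 0 ^ i * X 1 * X 0 ^ (d + 1) - X 0 ^ p * X 1 =
        (X 0 ^ (i + 1) * X 1 * X 0 ^ d - X 0 ^ p * X 1) - X 0 ^ i * cm 0 1 * X 0 ^ d := by
      unfold cm
      rw [pow_succ (X 0) i, pow_succ' (X 0) d]
      noncomm_ring
    rw [h5]
    exact J.sub_mem h3 h4

private theorem ro_rep (n i : ℕ) : mon (List.replicate n i) = X i ^ n := by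
  unfold mon
  rw [List.map_replicate, List.prod_replicate]

/-- words with `p` letters `a` and one letter `b` -/
private theorem ro_word {p : ℕ} {J : Submodule ℤ P} (hJ : IsT J) (hp : 1 ≤ p)
    (h1 : Cn (p + 1) ≤ J ∨ (ll ∈ J ∧ cm 0 1 * X 0 ^ (p - 1) ∈ J)) {a b : ℕ} (hab : a ≠ b) {w : List ℕ}
    (hw : ∀ i ∈ w, i = a ∨ i = b) (hb : w.count b = 1) (hl : w.length = p + 1) :
    mon w - X a ^ p * X b ∈ J := by
  have hmem : b ∈ w := List.count_pos_iff.1 (by omega)
  obtain ⟨u, v, rfl⟩ := List.append_of_mem hmem
  rw [List.count_append, List.count_cons_self] at hb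
  have hu : u.count b = 0 := by omega
  have hv : v.count b = 0 := by omega
  have eu : u = List.replicate u.length a := by
    rw [List.eq_replicate_iff]
    refine ⟨rfl, fun x hx => ?_⟩
    rcases hw x (List.mem_append_left _ hx) with h | h
    · exact h
    · exact absurd hx (h ▸ List.count_eq_zero.1 hu)
  have ev : v = List.replicate v.length a := by
    rw [List.eq_replicate_iff]
    refine ⟨rfl, fun x hx => ?_⟩
    rcases hw x (List.mem_append_right _ (List.mem_cons_of_mem _ hx)) with h | h
    · exact h
    · exact absurd hx (h ▸ List.count_eq_zero.1 hv)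
  rw [List.length_append, List.length_cons] at hl
  have hl' : u.length + v.length = p := by omega
  rcases h1 with h1 | h1
  · have h2 : (u ++ b :: v).Perm (List.replicate p a ++ [b]) := by
      rw [List.perm_iff_count]
      intro x
      rw [eu, ev, List.count_append, List.count_append, List.count_cons, List.count_replicate,
        List.count_replicate, List.count_replicate, List.count_singleton]
      by_cases hx : a = x
      · subst hx
        have hba : ¬ (b == a) = true := by simpa using Ne.symm hab
        simp only [beq_self_eq_true, if_true, if_neg hba]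
        omega
      · have hx' : ¬ (a == x) = true := by simpa using hx
        rw [if_neg hx', if_neg hx', if_neg hx']
        omega
    have h3 := perm_Cn h2
    have e1 : mon (List.replicate p a ++ [b]) = X a ^ p * X b := by
      rw [mon_append, ro_rep, mon_single]
    rw [e1] at h3
    refine h1 (Cn_anti ?_ h3)
    rw [List.length_append, List.length_cons]
    omega
  · have h2 := ro_gen hJ hp h1 v.length u.length hl'
    have h3 := sb_mem hJ (φ := fun j => if j = 0 then X a else X b) (fun j => by
      by_cases h : j = 0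
      · rw [if_pos h]; exact X_mem _
      · rw [if_neg h]; exact X_mem _) h2
    have e1 : sb (fun j => if j = 0 then X a else X b) (X 0 ^ u.length * X 1 * X 0 ^ v.length - X 0 ^ p * X 1) =
        X a ^ u.length * X b * X a ^ v.length - X a ^ p * X b := by
      simp only [map_sub, map_mul, map_pow, sb_X]
      simp
    rw [e1] at h3
    have e2 : mon (u ++ b :: v) = X a ^ u.length * X b * X a ^ v.length := by
      rw [mon_append, mon_cons, ← mul_assoc]
      conv_lhs => rw [eu, ev, ro_rep, ro_rep]
    rw [e2]
    exact h3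

private theorem ro_qw {p n : ℕ} (h5 : 5 ≤ p) {w : List ℕ} (hw : qw p n w) :
    n ≤ w.length ∧ (w.length = n → w.Perm (List.range n)) := by
  have h1 : (List.range n).Subperm w := by
    refine List.nodup_range.subperm fun i hi => ?_
    have h2 := hw.2 i (List.mem_range.1 hi)
    rw [← List.count_pos_iff]
    by_contra hc
    have h3 : w.count i = 0 := by omega
    rw [h3, Nat.zero_mod] at h2
    exact zero_ne_one h2
  have h2 := h1.length_le
  rw [List.length_range] at h2
  refine ⟨h2, fun h => ?_⟩
  exact (h1.perm_of_length_le (by rw [List.length_range, h])).symm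

/-- the words of the class in two letters -/
private theorem ro_two {p : ℕ} (h5 : 5 ≤ p) {w : List ℕ} (hw : qw p 2 w) :
    (w.count 0 = 1 ∧ w.count 1 = 1 ∧ w.length = 2) ∨ (w.count 1 = 1 ∧ w.length = p + 1) ∨
      (w.count 0 = 1 ∧ w.length = p + 1) ∨ (p + 2 ≤ w.length ∧ ∃ i, p ≤ w.count i) := by
  have hsum : w.count 0 + w.count 1 = w.length := by
    have := Multiset.sum_count_eq_card (s := Finset.range 2) (m := (w : Multiset ℕ))
      (fun a ha => Finset.mem_range.2 (hw.1 a (by simpa using ha)))
    rw [Finset.sum_range_succ, Finset.sum_range_one] at this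
    simpa using this
  have h0 := hw.2 0 (by norm_num)
  have h1 := hw.2 1 (by norm_num)
  have e0 := Nat.div_add_mod (w.count 0) (p - 1)
  have e1 := Nat.div_add_mod (w.count 1) (p - 1)
  rw [h0] at e0
  rw [h1] at e1
  generalize w.count 0 / (p - 1) = k0 at e0
  generalize w.count 1 / (p - 1) = k1 at e1
  rcases Nat.eq_zero_or_pos k0 with hk0 | hk0
  · rcases Nat.eq_zero_or_pos k1 with hk1 | hk1
    · left
      rw [hk0, mul_zero] at e0
      rw [hk1, mul_zero] at e1
      omega
    · rcases Nat.lt_or_ge 1 k1 with hk | hk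
      · right; right; right
        have h6 : (p - 1) * 2 ≤ (p - 1) * k1 := Nat.mul_le_mul_left _ hk
        exact ⟨by omega, 1, by omega⟩
      · have hk' : k1 = 1 := by omega
        rw [hk0, mul_zero] at e0
        rw [hk', mul_one] at e1
        right; right; left
        omega
  · rcases Nat.eq_zero_or_pos k1 with hk1 | hk1
    · rcases Nat.lt_or_ge 1 k0 with hk | hk
      · right; right; right
        have h6 : (p - 1) * 2 ≤ (p - 1) * k0 := Nat.mul_le_mul_left _ hk
        exact ⟨by omega, 0, by omega⟩
      · have hk' : k0 = 1 := by omega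
        rw [hk1, mul_zero] at e1
        rw [hk', mul_one] at e0
        right; left
        omega
    · right; right; right
      have h6 : (p - 1) * 1 ≤ (p - 1) * k0 := Nat.mul_le_mul_left _ hk0
      have h7 : (p - 1) * 1 ≤ (p - 1) * k1 := Nat.mul_le_mul_left _ hk1
      exact ⟨by omega, 0, by omega⟩

theorem Red_of {p : ℕ} {J : Submodule ℤ P} {a b : ℤ} (h : Tame p J a b) (h2 : Cn (p + 2) ≤ J)
    (h1 : Cn (p + 1) ≤ J ∨ (ll ∈ J ∧ cm 0 1 * X 0 ^ (p - 1) ∈ J)) : Red p J := by
  have h5 := h.five
  have hT := h.isT
  have hlt : ∀ {w : List ℕ}, qw p 2 w → ∀ i ∈ w, i = 0 ∨ i = 1 := fun hw i hi => by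
    have := hw.1 i hi
    omega
  have hA : ∀ {w : List ℕ}, qw p 2 w → w.count 1 = 1 → w.length = p + 1 → mon w - X 0 ^ p * X 1 ∈ J :=
    fun hw hb hl => ro_word hT (by omega) h1 (by norm_num) (hlt hw) hb hl
  have hB : ∀ {w : List ℕ}, qw p 2 w → w.count 0 = 1 → w.length = p + 1 → mon w - X 1 ^ p * X 0 ∈ J :=
    fun hw hb hl => ro_word hT (by omega) h1 (by norm_num) (fun i hi => (hlt hw i hi).symm) hb hl
  have hJ2 : J ⊔ Cn (p + 2) = J := sup_eq_left.2 h2
  have hlong : ∀ {w : List ℕ}, p + 2 ≤ w.length → ∀ i, p ≤ w.count i → mon w ∈ J := by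
    intro w hw i hi
    have h3 := nonm h.toBas h.t2 hw hi
    have h4 : J ⊔ Cn w.length ≤ J := sup_le le_rfl ((Cn_anti hw).trans h2)
    exact h4 h3
  have h1m : 1 % (p - 1) = 1 := Nat.mod_eq_of_lt (by omega)
  have hsym : X 0 ^ p * X 1 - X 1 ^ p * X 0 ∈ J := by
    obtain ⟨g, hg, c, hc, hgc⟩ := Submodule.mem_sup.1 h.t3
    have q1 : qw p 2 (List.replicate p 0 ++ [1]) := by
      refine ⟨?_, ?_⟩
      · intro i hi
        rcases List.mem_append.1 hi with hi | hi
        · rw [List.eq_of_mem_replicate hi]; norm_num
        · rw [List.mem_singleton.1 hi]; norm_num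
      · intro i hi
        have hpm : p % (p - 1) = 1 := by
          have : p = 1 + (p - 1) * 1 := by omega
          conv_lhs => rw [this]
          rw [Nat.add_sub_cancel_left, mul_one, Nat.add_mod_right]
          exact Nat.mod_eq_of_lt (by omega)
        rcases (show i = 0 ∨ i = 1 by omega) with rfl | rfl
        · simp [List.count_append, hpm]
        · simp [List.count_append, List.count_replicate, h1m]
    have q2 : qw p 2 ([0] ++ List.replicate p 1) := by
      refine ⟨?_, ?_⟩
      · intro i hi
        rcases List.mem_append.1 hi with hi | hi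
        · rw [List.mem_singleton.1 hi]; norm_num
        · rw [List.eq_of_mem_replicate hi]; norm_num
      · intro i hi
        have hpm : p % (p - 1) = 1 := by
          have : p = 1 + (p - 1) * 1 := by omega
          conv_lhs => rw [this]
          rw [Nat.add_sub_cancel_left, mul_one, Nat.add_mod_right]
          exact Nat.mod_eq_of_lt (by omega)
        rcases (show i = 0 ∨ i = 1 by omega) with rfl | rfl
        · simp [List.count_replicate, h1m]
        · simp [hpm]
    have m1 : mon (List.replicate p 0 ++ [1]) = X 0 ^ p * X 1 := by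
      rw [mon_append, ro_rep, mon_single]
    have m2 : mon ([0] ++ List.replicate p 1) = X 0 * X 1 ^ p := by
      rw [mon_append, ro_rep, mon_single]
    have h3 : X 0 ^ p * X 1 - X 0 * X 1 ^ p ∈ J := by
      have h4 : wp (qw p 2) (X 0 ^ p * X 1 - X 0 * X 1 ^ p) = X 0 ^ p * X 1 - X 0 * X 1 ^ p := by
        rw [map_sub, ← m1, ← m2, wp_pos q1, wp_pos q2]
      rw [← h4, ← hgc, map_add]
      refine J.add_mem (TOp_qw h.pp (by omega) 2 J hT h.mul.sq g hg) ?_
      have h6 := wp_Cn (φ := qw p 2) (fun u v huv => qw_perm huv) hc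
      generalize wp (qw p 2) c = y at h6 ⊢
      induction h6 using Submodule.span_induction with
      | mem x hx =>
        obtain ⟨u, v, i, j, hlen, hq, rfl⟩ := hx
        have e1 : mon u * cm i j * mon v = mon (u ++ i :: j :: v) - mon (u ++ j :: i :: v) := by
          unfold cm
          rw [mon_append, mon_append, mon_cons, mon_cons, mon_cons, mon_cons, mul_sub, sub_mul]
          simp only [mul_assoc]
        have hperm : (u ++ i :: j :: v).Perm (u ++ j :: i :: v) :=
          (List.Perm.swap j i v).append_left u
        have hq' : qw p 2 (u ++ j :: i :: v) := (qw_perm hperm).1 hq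
        have hlen1 : (u ++ i :: j :: v).length = u.length + v.length + 2 := by
          rw [List.length_append, List.length_cons, List.length_cons]
          omega
        have hlen2 : (u ++ j :: i :: v).length = u.length + v.length + 2 := by
          rw [List.length_append, List.length_cons, List.length_cons]
          omega
        rcases ro_two h5 hq with h7 | h7 | h7 | h7
        · omega
        · rw [e1]
          have f1 := hA hq h7.1 h7.2
          have f2 := hA hq' (by rw [← hperm.count_eq]; exact h7.1) (by rw [hlen2, ← hlen1]; exact h7.2)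
          have f3 := J.sub_mem f1 f2
          rwa [sub_sub_sub_cancel_right] at f3
        · rw [e1]
          have f1 := hB hq h7.1 h7.2
          have f2 := hB hq' (by rw [← hperm.count_eq]; exact h7.1) (by rw [hlen2, ← hlen1]; exact h7.2)
          have f3 := J.sub_mem f1 f2
          rwa [sub_sub_sub_cancel_right] at f3
        · refine h2 (Submodule.subset_span ⟨u, v, i, j, ?_, rfl⟩)
          rw [← hlen1]
          exact h7.1
      | zero => exact J.zero_mem
      | add x y _ _ hx hy => exact J.add_mem hx hy
      | smul k x _ hx => exact J.smul_mem _ hx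
    have h4 := hB q2 (by simp [List.count_replicate]) (by simp)
    rw [m2] at h4
    have e1 : X 0 ^ p * X 1 - X 1 ^ p * X 0 = (X 0 ^ p * X 1 - X 0 * X 1 ^ p) + (X 0 * X 1 ^ p - X 1 ^ p * X 0) := by
      abel
    rw [e1]
    exact J.add_mem h3 h4
  refine ⟨?_, hsym, ?_⟩
  · intro g hg hdel
    clear hdel
    unfold Q at hg
    induction hg using Submodule.span_induction with
    | mem x hx =>
      obtain ⟨w, hq, rfl⟩ := hx
      rcases ro_two h5 hq with h7 | h7 | h7 | h7
      · have hw2 : w = [0, 1] ∨ w = [1, 0] := by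
          have hp := (ro_qw h5 hq).2 h7.2.2
          obtain ⟨a, b, rfl⟩ := List.length_eq_two.1 h7.2.2
          have h8 := h7.1
          have h9 := h7.2.1
          have ha := hlt hq a (by simp)
          have hb := hlt hq b (by simp)
          rcases ha with rfl | rfl <;> rcases hb with rfl | rfl
          · simp at h9
          · exact Or.inl rfl
          · exact Or.inr rfl
          · simp at h8
        refine Submodule.mem_sup_right (Submodule.subset_span ?_)
        rcases hw2 with rfl | rfl
        · left
          rw [mon_cons, mon_single]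
        · right; left
          rw [mon_cons, mon_single]
      · have f1 := hA hq h7.1 h7.2
        have e1 : mon w = (mon w - X 0 ^ p * X 1) + X 0 ^ p * X 1 := by abel
        rw [e1]
        exact Submodule.add_mem _ (Submodule.mem_sup_left f1)
          (Submodule.mem_sup_right (Submodule.subset_span (Or.inr (Or.inr rfl))))
      · have f1 := hB hq h7.1 h7.2
        have e1 : mon w = ((mon w - X 1 ^ p * X 0) - (X 0 ^ p * X 1 - X 1 ^ p * X 0)) + X 0 ^ p * X 1 := by abel
        rw [e1]
        exact Submodule.add_mem _ (Submodule.mem_sup_left (J.sub_mem f1 hsym))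
          (Submodule.mem_sup_right (Submodule.subset_span (Or.inr (Or.inr rfl))))
      · obtain ⟨h8, i, hi⟩ := h7
        exact Submodule.mem_sup_left (hlong h8 i hi)
    | zero => exact Submodule.zero_mem _
    | add x y _ _ hx hy => exact Submodule.add_mem _ hx hy
    | smul k x _ hx => exact Submodule.smul_mem _ _ hx
  · intro n hn g hg hdel
    clear hdel
    unfold Q at hg
    induction hg using Submodule.span_induction with
    | mem x hx =>
      obtain ⟨w, hq, rfl⟩ := hx
      obtain ⟨h7, h8⟩ := ro_qw h5 hq
      rcases h7.lt_or_eq with h9 | h9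
      · refine Submodule.mem_sup_left ?_
        have h10 := (nonm_Q h.toBas h.t2 hn hq h9).2
        have h11 : J ⊔ Cn (n + p - 1) ≤ J := sup_le le_rfl ((Cn_anti (by omega)).trans h2)
        exact h11 h10
      · exact Submodule.mem_sup_right (Ml_mon (h8 h9.symm))
    | zero => exact Submodule.zero_mem _
    | add x y _ _ hx hy => exact Submodule.add_mem _ hx hy
    | smul k x _ hx => exact Submodule.smul_mem _ _ hx

end ADC
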