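import Pool.Agent.ADC.Z6

/-!
# ADC-Z7

`Red p J` for the type `a = 1, b = 0` (proved, helper37).
-/

namespace ADC

open AD ADN

private theorem z7_mon (p i : ℕ) : mon (List.replicate p i) = X i ^ p := by
  unfold mon
  rw [List.map_replicate, List.prod_replicate]

private theorem z7_count {p n : ℕ} (h5 : 5 ≤ p) {w : List ℕ} (hw : qw p n w) {j : ℕ} (hj : j < n) :
    w.count j = 1 ∨ w.count j = p ∨ 2 * p - 1 ≤ w.count j := by
  have h1 := hw.2 j hj
  have h2 := Nat.div_add_mod (w.count j) (p - 1)
  rw [h1] at h2
  rcases Nat.lt_or_ge (w.count j / (p - 1)) 2 with h3 | h3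
  · interval_cases h4 : w.count j / (p - 1)
    · left
      omega
    · right; left
      omega
  · right; right
    have h4 : (p - 1) * 2 ≤ (p - 1) * (w.count j / (p - 1)) := Nat.mul_le_mul_left _ h3
    omega

private theorem z7_out {p n : ℕ} {w : List ℕ} (hw : qw p n w) {j : ℕ} (hj : ¬ j < n) :
    w.count j = 0 := List.count_eq_zero.2 fun h => hj (hw.1 j h)

private theorem z7_split {w : List ℕ} (h : w ≠ []) : ∃ (v : List ℕ) (x : ℕ), w = v ++ [x] ∧
    w.dropLast = v :=
  ⟨w.dropLast, w.getLast h, (List.dropLast_append_getLast h).symm, rfl⟩

private theorem z7_ne {p n : ℕ} (hn : 1 ≤ n) {w : List ℕ} (hw : qw p n w) : w ≠ [] := by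
  rintro rfl
  have := hw.2 0 (by omega)
  simp at this

private theorem z7_erase (n x a : ℕ) : ((List.range n).erase x).count a =
    if a = x then 0 else if a < n then 1 else 0 := by
  by_cases h1 : a = x
  · rw [if_pos h1, List.count_eq_zero]
    rw [h1]
    exact fun h => (List.Nodup.mem_erase_iff List.nodup_range).1 h |>.1 rfl
  · rw [if_neg h1]
    by_cases h2 : a < n
    · rw [if_pos h2]
      refine List.count_eq_one_of_mem (List.Nodup.erase _ List.nodup_range) ?_
      rw [List.Nodup.mem_erase_iff List.nodup_range]
      exact ⟨h1, List.mem_range.2 h2⟩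
    · rw [if_neg h2, List.count_eq_zero]
      exact fun h => h2 (List.mem_range.1 (List.mem_of_mem_erase h))

private theorem z7_class {p : ℕ} {J : Submodule ℤ P} (h : Tame p J 1 0) {n : ℕ} (hn : 2 ≤ n)
    {w : List ℕ} (hw : qw p n w) : w.Perm (List.range n) ∨ (∃ x < n, mon w - Zw p n x ∈ J) ∨
      ∃ i, p ≤ w.dropLast.count i := by
  have h5 := h.five
  by_cases h3 : ∃ i, p ≤ w.dropLast.count i
  · exact Or.inr (Or.inr h3)
  push Not at h3
  obtain ⟨v, x, rfl, hv⟩ := z7_split (z7_ne (by omega) hw)
  rw [hv] at h3
  have hx : x < n := hw.1 x (by simp)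
  have hcx : (v ++ [x]).count x = v.count x + 1 := by
    rw [List.count_append, List.count_singleton_self]
  have hc : ∀ a, a ≠ x → (v ++ [x]).count a = v.count a := by
    intro a ha
    rw [List.count_append, List.count_singleton, if_neg (by simpa using Ne.symm ha), add_zero]
  have h1 : ∀ a, a ≠ x → a < n → v.count a = 1 := by
    intro a ha han
    have h4 := h3 a
    rcases z7_count h5 hw han with h6 | h6 | h6
    · rw [hc a ha] at h6; exact h6
    · rw [hc a ha] at h6; omega
    · rw [hc a ha] at h6; omega
  have h0 : ∀ a, a ≠ x → ¬ a < n → v.count a = 0 := by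
    intro a ha han
    rw [← hc a ha]
    exact z7_out hw han
  rcases z7_count h5 hw hx with h6 | h6 | h6
  · left
    rw [List.perm_iff_count]
    intro a
    rw [List.count_range]
    by_cases ha : a = x
    · rw [ha, h6, if_pos hx]
    · rw [hc a ha]
      by_cases han : a < n
      · rw [if_pos han, h1 a ha han]
      · rw [if_neg han, h0 a ha han]
  · right; left
    refine ⟨x, hx, ?_⟩
    have h7 : v.Perm (List.replicate (p - 1) x ++ (List.range n).erase x) := by
      rw [List.perm_iff_count]
      intro a
      rw [List.count_append, z7_erase, List.count_replicate]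
      by_cases ha : a = x
      · rw [ha, if_pos rfl, if_pos (by simp)]
        omega
      · rw [if_neg ha, if_neg (by simpa using Ne.symm ha), zero_add]
        by_cases han : a < n
        · rw [if_pos han, h1 a ha han]
        · rw [if_neg han, h0 a ha han]
    have h8 := perm_Dn h7 (w := [x]) (by simp)
    have h9 := h7.length_eq
    rw [List.length_append, List.length_replicate, List.length_erase_of_mem (List.mem_range.2 hx),
      List.length_range] at h9
    rw [List.length_singleton, List.append_assoc] at h8
    exact GenZ h (Dn_anti (by omega) h8)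
  · exfalso
    rw [hcx] at h6
    have := h3 x
    omega

private theorem z7_long {p : ℕ} {J : Submodule ℤ P} (h : Tame p J 1 0) {n : ℕ} (hn : 2 ≤ n)
    {w : List ℕ} (hw : qw p n w) {i : ℕ} (hi : p ≤ w.dropLast.count i) :
    mon w ∈ J ∨ (n ≤ 3 ∧ ∃ x, x < n ∧ i < n ∧ i ≠ x ∧
      mon w - mon (List.replicate p i ++ ((List.range n).erase i).erase x ++ [x]) ∈ J) := by
  have h5 := h.five
  by_cases hl : p + 3 ≤ w.length
  · exact Or.inl (Zlong h hl hi)
  right
  obtain ⟨v, x, rfl, hv⟩ := z7_split (z7_ne (by omega) hw)
  rw [hv] at hi
  have hx : x < n := hw.1 x (by simp)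
  have hiv : i ∈ v := List.count_pos_iff.1 (by omega)
  have hin : i < n := hw.1 i (by simp [hiv])
  have hle : ∀ a, v.count a ≤ (v ++ [x]).count a := fun a => by
    rw [List.count_append]; omega
  have hsum : ∑ a ∈ Finset.range n, (v ++ [x]).count a = (v ++ [x]).length := by
    have := Multiset.sum_count_eq_card (s := Finset.range n) (m := ((v ++ [x] : List ℕ) : Multiset ℕ))
      (fun a ha => Finset.mem_range.2 (hw.1 a (by simpa using ha)))
    simpa using this
  have hci : (v ++ [x]).count i = p := by
    rcases z7_count h5 hw hin with h6 | h6 | h6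
    · have := hle i
      omega
    · exact h6
    · have := List.count_le_length (a := i) (l := v ++ [x])
      omega
  have hone : ∀ a, a < n → a ≠ i → (v ++ [x]).count a = 1 := by
    intro a ha hai
    have h6 : (v ++ [x]).count i + (v ++ [x]).count a ≤ (v ++ [x]).length := by
      rw [← hsum, ← Finset.sum_pair (f := fun a => (v ++ [x]).count a) hai.symm]
      refine Finset.sum_le_sum_of_subset ?_
      intro b hb
      rw [Finset.mem_insert, Finset.mem_singleton] at hb
      rcases hb with rfl | rfl
      · exact Finset.mem_range.2 hin
      · exact Finset.mem_range.2 ha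
    rcases z7_count h5 hw ha with h7 | h7 | h7 <;> omega
  have hxi : i ≠ x := by
    rintro rfl
    rw [List.count_append, List.count_singleton_self] at hci
    omega
  have hn3 : n ≤ 3 := by
    have h6 : ∑ a ∈ Finset.range n, (v ++ [x]).count a =
        ∑ a ∈ Finset.range n \ {i}, (v ++ [x]).count a + (v ++ [x]).count i :=
      Finset.sum_eq_sum_sdiff_singleton_add (Finset.mem_range.2 hin) _
    have h7 : ∑ a ∈ Finset.range n \ {i}, (v ++ [x]).count a = n - 1 := by
      rw [Finset.sum_congr rfl (g := fun _ => 1) (fun a ha => by
        rw [Finset.mem_sdiff, Finset.mem_range, Finset.mem_singleton] at ha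
        exact hone a ha.1 ha.2), Finset.sum_const, smul_eq_mul, mul_one,
        Finset.card_sdiff_of_subset (Finset.singleton_subset_iff.2 (Finset.mem_range.2 hin)),
        Finset.card_range, Finset.card_singleton]
    rw [hsum, hci, h7] at h6
    omega
  refine ⟨hn3, x, hx, hin, hxi, ?_⟩
  have hc : ∀ a, a ≠ x → (v ++ [x]).count a = v.count a := by
    intro a ha
    rw [List.count_append, List.count_singleton, if_neg (by simpa using Ne.symm ha), add_zero]
  have hcx : v.count x = 0 := by
    have h6 := hone x hx hxi.symm
    rw [List.count_append, List.count_singleton_self] at h6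
    omega
  have h7 : v.Perm (List.replicate p i ++ ((List.range n).erase i).erase x) := by
    rw [List.perm_iff_count]
    intro a
    rw [List.count_append, List.count_replicate]
    by_cases hax : a = x
    · rw [hax, hcx, List.count_erase_self, z7_erase, if_neg hxi.symm, if_pos hx,
        if_neg (by simpa using hxi)]
    · rw [List.count_erase_of_ne hax, z7_erase, ← hc a hax]
      by_cases hai : a = i
      · rw [hai, hci, if_pos rfl, if_pos (by simp), add_zero]
      · rw [if_neg hai, if_neg (by simpa using Ne.symm hai), zero_add]
        by_cases han : a < n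
        · rw [if_pos han, hone a han hai]
        · rw [if_neg han, z7_out hw han]
  have h8 := perm_Dn h7 (w := [x]) (by simp)
  have h9 := h7.length_eq
  rw [List.length_append, List.length_replicate] at h9
  rw [List.length_singleton] at h8
  exact GenZ h (Dn_anti (by omega) h8)

/-- the case `n ≥ 3` -/
private theorem z7_three {p : ℕ} {J : Submodule ℤ P} (h : Tame p J 1 0) {n : ℕ} (hn : 3 ≤ n)
    {w : List ℕ} (hw : qw p n w) {i : ℕ} (hi : p ≤ w.dropLast.count i) : mon w ∈ J := by
  rcases z7_long h (by omega) hw hi with h1 | ⟨h1, x, hx, hin, hix, h2⟩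
  · exact h1
  · obtain rfl : n = 3 := by omega
    have h3 : (((List.range 3).erase i).erase x).length = 1 := by
      rw [List.length_erase_of_mem, List.length_erase_of_mem (List.mem_range.2 hin),
        List.length_range]
      rw [List.Nodup.mem_erase_iff List.nodup_range]
      exact ⟨hix.symm, List.mem_range.2 hx⟩
    obtain ⟨y, hy⟩ := List.length_eq_one_iff.1 h3
    rw [hy, mon_append, mon_append, z7_mon, mon_single, mon_single] at h2
    have h4 := sb_mem h.isT (φ := fun a => if a = 0 then X i else if a = 1 then X y else X x)
      (fun a => by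
        show (if a = 0 then X i else if a = 1 then X y else X x) ∈ Pp
        split_ifs <;> exact X_mem _) (Z6a h)
    rw [map_mul, map_mul, map_pow, sb_X, sb_X, sb_X, if_pos rfl, if_neg (by norm_num), if_pos rfl,
      if_neg (by norm_num), if_neg (by norm_num)] at h4
    have h6 := J.add_mem h2 h4
    rwa [sub_add_cancel] at h6

private theorem z7_main {p : ℕ} {J : Submodule ℤ P} (h : Tame p J 1 0) {n : ℕ} (hn : 2 ≤ n)
    {S : Submodule ℤ P}
    (ha : ∀ w, qw p n w → mon w ∈ J ⊔ S ∨ ∃ x < n, mon w - Zw p n x ∈ J ⊔ S)
    (hb : ∀ f ∈ S, ∀ i < n, del p i n f ∈ J)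
    (hc : Cn (n + p - 1) ≤ J → ∀ i < n, Zw p n i ∈ J ⊔ S) {g : P} (hg : g ∈ Q p n)
    (hd : ∀ i < n, del p i n g ∈ J) : g ∈ J ⊔ S := by
  have h5 := h.five
  have h3 : 3 ≤ p := by omega
  -- a representation
  have h1 : ∀ f ∈ Q p n, ∃ γ : ℕ → ℤ, f - ∑ x ∈ Finset.range n, γ x • Zw p n x ∈ J ⊔ S := by
    intro f hf
    unfold Q at hf
    induction hf using Submodule.span_induction with
    | mem x hx =>
      obtain ⟨w, hw, rfl⟩ := hx
      rcases ha w hw with h2 | ⟨x, hx, h2⟩
      · refine ⟨fun _ => 0, ?_⟩
        simpa using h2
      · refine ⟨fun a => if a = x then 1 else 0, ?_⟩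
        have h4 : ∑ a ∈ Finset.range n, (if a = x then (1 : ℤ) else 0) • Zw p n a = Zw p n x := by
          rw [Finset.sum_eq_single x]
          · rw [if_pos rfl, one_smul]
          · intro b _ hb
            rw [if_neg hb, zero_smul]
          · intro hx'
            exact absurd (Finset.mem_range.2 hx) hx'
        rw [h4]
        exact h2
    | zero => exact ⟨fun _ => 0, by simp⟩
    | add x y _ _ hx hy =>
      obtain ⟨γ, hγ⟩ := hx
      obtain ⟨δ, hδ⟩ := hy
      refine ⟨fun a => γ a + δ a, ?_⟩
      have h4 : x + y - ∑ a ∈ Finset.range n, (γ a + δ a) • Zw p n a =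
          (x - ∑ a ∈ Finset.range n, γ a • Zw p n a) +
          (y - ∑ a ∈ Finset.range n, δ a • Zw p n a) := by
        rw [Finset.sum_congr rfl (g := fun a => γ a • Zw p n a + δ a • Zw p n a)
          (fun a _ => add_smul _ _ _), Finset.sum_add_distrib]
        abel
      rw [h4]
      exact Submodule.add_mem _ hγ hδ
    | smul c x _ hx =>
      obtain ⟨γ, hγ⟩ := hx
      refine ⟨fun a => c * γ a, ?_⟩
      have h4 : c • x - ∑ a ∈ Finset.range n, (c * γ a) • Zw p n a =
          c • (x - ∑ a ∈ Finset.range n, γ a • Zw p n a) := by
        rw [smul_sub, Finset.smul_sum]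
        congr 1
        exact Finset.sum_congr rfl fun a _ => mul_smul _ _ _
      rw [h4]
      exact Submodule.smul_mem _ _ hγ
  obtain ⟨γ, hγ⟩ := h1 g hg
  obtain ⟨j, hj, s, hs, hjs⟩ := Submodule.mem_sup.1 hγ
  have hgeq : g = j + s + ∑ x ∈ Finset.range n, γ x • Zw p n x := by
    rw [hjs, sub_add_cancel]
  have hTO := fun i => TOp_del h.pp h3 i n J h.isT h.mul.sq
  -- the coefficients
  have h2 : ∀ i < n, γ i • del p i n (Zw p n i) ∈ J := by
    intro i hi
    have h4 := hd i hi
    rw [hgeq, map_add, map_add, map_sum, Finset.sum_eq_single i] at h4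
    · rw [map_smul] at h4
      have h6 := J.sub_mem h4 (J.add_mem (hTO i j hj) (hb s hs i hi))
      rwa [add_sub_cancel_left] at h6
    · intro x hx hxi
      rw [map_smul, del_Zw_ne h3 hi (Finset.mem_range.1 hx) (fun e => hxi e.symm), smul_zero]
    · intro h6
      exact absurd (Finset.mem_range.2 hi) h6
  rw [hgeq]
  refine Submodule.add_mem _ (Submodule.add_mem _ (Submodule.mem_sup_left hj)
    (Submodule.mem_sup_right hs)) (Submodule.sum_mem _ fun x hx => ?_)
  rw [Finset.mem_range] at hx
  by_cases hp : (p : ℤ) ∣ γ x
  · obtain ⟨c, hc'⟩ := hp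
    rw [hc', mul_comm, mul_smul]
    refine Submodule.smul_mem _ _ (Submodule.mem_sup_left (h.mul _ ?_))
    exact mon_mem (by simp)
  · refine Submodule.smul_mem _ _ (hc ?_ x hx)
    exact del_Zw h.pp h5 h.isT h.mul hn ((Dn_anti (by omega)).trans (GenZ h)) hx hp (h2 x hx)

private theorem z7_sym {p : ℕ} {J : Submodule ℤ P} (h : Tame p J 1 0) :
    X 0 ^ p * X 1 - X 1 ^ p * X 0 ∈ J := by
  rcases Z5 h with h1 | h1
  · have h2 := h.t3
    rw [sup_eq_left.2 h1] at h2
    have h3 : (0 :: List.replicate p 1).Perm (List.replicate p 1 ++ [0]) :=
      (List.perm_append_singleton _ _).symm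
    have h4 := perm_Cn h3
    rw [List.length_cons, List.length_replicate, mon_cons, mon_append, z7_mon, mon_single] at h4
    have h5 := J.add_mem h2 (h1 h4)
    rwa [sub_add_sub_cancel] at h5
  · exact h1

private theorem z7_two {p : ℕ} {J : Submodule ℤ P} (h : Tame p J 1 0) {i x : ℕ} (hi : i < 2)
    (hx : x < 2) (hix : i ≠ x) : X i ^ p * X x - X 0 ^ p * X 1 ∈ J := by
  have h1 := z7_sym h
  have h2 : (i = 0 ∧ x = 1) ∨ (i = 1 ∧ x = 0) := by omega
  rcases h2 with ⟨rfl, rfl⟩ | ⟨rfl, rfl⟩
  · rw [sub_self]
    exact J.zero_mem
  · rw [← neg_sub]
    exact J.neg_mem h1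

theorem Z_Red {p : ℕ} {J : Submodule ℤ P} (h : Tame p J 1 0) : Red p J := by
  have h5 := h.five
  have h3 : 3 ≤ p := by omega
  refine ⟨?_, z7_sym h, ?_⟩
  · -- `n = 2`
    intro g hg hd
    refine z7_main h le_rfl ?_ ?_ ?_ hg hd
    · intro w hw
      rcases z7_class h le_rfl hw with h1 | ⟨x, hx, h1⟩ | ⟨i, hi⟩
      · left
        refine Submodule.mem_sup_right (Submodule.subset_span ?_)
        have h2 : w = [0, 1] ∨ w = [1, 0] := by
          have h4 : w.Perm [0, 1] := h1
          have h6 := h4.length_eq
          rw [List.length_cons, List.length_singleton] at h6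
          obtain ⟨a, b, rfl⟩ := List.length_eq_two.1 h6
          have ha : a ∈ [0, 1] := h4.mem_iff.1 (by simp)
          have hb : b ∈ [0, 1] := h4.mem_iff.1 (by simp)
          have hab : a ≠ b := by
            have := h4.nodup_iff.2 (by decide)
            simpa using this
          simp only [List.mem_cons, List.not_mem_nil, or_false] at ha hb
          rcases ha with rfl | rfl <;> rcases hb with rfl | rfl
          · exact absurd rfl hab
          · left; rfl
          · right; rfl
          · exact absurd rfl hab
        rcases h2 with rfl | rfl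
        · rw [mon_cons, mon_single]
          exact Or.inl rfl
        · rw [mon_cons, mon_single]
          exact Or.inr (Or.inl rfl)
      · exact Or.inr ⟨x, hx, Submodule.mem_sup_left h1⟩
      · left
        rcases z7_long h le_rfl hw hi with h1 | ⟨-, x, hx, hin, hix, h1⟩
        · exact Submodule.mem_sup_left h1
        · have h4 : ((List.range 2).erase i).erase x = [] := by
            rw [← List.length_eq_zero_iff, List.length_erase_of_mem,
              List.length_erase_of_mem (List.mem_range.2 hin), List.length_range]
            rw [List.Nodup.mem_erase_iff List.nodup_range]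
            exact ⟨hix.symm, List.mem_range.2 hx⟩
          rw [h4, List.append_nil, mon_append, z7_mon, mon_single] at h1
          have h6 := J.add_mem h1 (z7_two h hin hx hix)
          rw [sub_add_sub_cancel] at h6
          have h7 : mon w = (mon w - X 0 ^ p * X 1) + X 0 ^ p * X 1 := (sub_add_cancel _ _).symm
          rw [h7]
          exact Submodule.add_mem _ (Submodule.mem_sup_left h6)
            (Submodule.mem_sup_right (Submodule.subset_span (Or.inr (Or.inr rfl))))
    · intro f hf i hi
      induction hf using Submodule.span_induction with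
      | mem f hf =>
        rcases hf with rfl | rfl | rfl
        · have h1 : X 0 * X 1 ∈ Ml 2 := by
            have : X 0 * X 1 = mon [0, 1] := by rw [mon_cons, mon_single]
            rw [this]
            exact Ml_mon (by decide)
          rw [del_Ml h3 hi h1]
          exact J.zero_mem
        · have h1 : X 1 * X 0 ∈ Ml 2 := by
            have : X 1 * X 0 = mon [1, 0] := by rw [mon_cons, mon_single]
            rw [this]
            exact Ml_mon (by decide)
          rw [del_Ml h3 hi h1]
          exact J.zero_mem
        · obtain ⟨h1, h2⟩ := del_pow h.pp h5 h.isT h.mul ((Dn_anti (by omega)).trans (GenZ h))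
            (x := 0) (y := 1) (by norm_num) (by norm_num) (by norm_num)
          have h4 : i = 0 ∨ i = 1 := by omega
          rcases h4 with rfl | rfl
          · exact h1
          · rw [h2]
            exact J.zero_mem
      | zero => rw [map_zero]; exact J.zero_mem
      | add x y _ _ hx hy => rw [map_add]; exact J.add_mem hx hy
      | smul c x _ hx => rw [map_smul]; exact J.smul_mem _ hx
    · intro hC i hi
      obtain ⟨x, hx, hix⟩ : ∃ x, x < 2 ∧ i ≠ x := ⟨1 - i, by omega, by omega⟩
      have h1 : (List.replicate (p - 1) i ++ ((List.range 2).erase i ++ [i])).Perm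
          (List.replicate p i ++ [x]) := by
        rw [List.perm_iff_count]
        intro a
        rw [List.count_append, List.count_append, List.count_append, z7_erase,
          List.count_replicate, List.count_replicate, List.count_singleton, List.count_singleton]
        by_cases hai : a = i
        · subst hai
          have hb : (x == a) = false := by simpa using Ne.symm hix
          have hb' : (a == a) = true := by simp
          simp only [hb, hb', if_true, Bool.false_eq_true, if_false]
          omega
        · have hb : (i == a) = false := by simpa using Ne.symm hai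
          simp only [hb, hai, if_false, Bool.false_eq_true]
          by_cases hax : a = x
          · subst hax
            have hb' : (a == a) = true := by simp
            simp only [hb', hx, if_true]
          · have hb' : (x == a) = false := by simpa using Ne.symm hax
            have hb2 : ¬ a < 2 := by omega
            simp only [hb', hb2, if_false, Bool.false_eq_true]
      have h2 := perm_Cn h1
      have h4 := h1.length_eq
      rw [List.length_append, List.length_append, List.length_replicate,
        List.length_singleton] at h4
      rw [h1.length_eq, List.length_append, List.length_replicate, List.length_singleton,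
        mon_append (List.replicate p i), z7_mon, mon_single] at h2
      have h6 : Zw p 2 i - X i ^ p * X x ∈ J := hC (Cn_anti (by omega) h2)
      have h7 := J.add_mem h6 (z7_two h hi hx hix)
      rw [sub_add_sub_cancel] at h7
      have h8 : Zw p 2 i = (Zw p 2 i - X 0 ^ p * X 1) + X 0 ^ p * X 1 := (sub_add_cancel _ _).symm
      rw [h8]
      exact Submodule.add_mem _ (Submodule.mem_sup_left h7)
        (Submodule.mem_sup_right (Submodule.subset_span (Or.inr (Or.inr rfl))))
  · -- `n ≥ 3`
    intro n hn g hg hd
    refine z7_main h (by omega) ?_ ?_ ?_ hg hd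
    · intro w hw
      rcases z7_class h (by omega) hw with h1 | ⟨x, hx, h1⟩ | ⟨i, hi⟩
      · exact Or.inl (Submodule.mem_sup_right (Ml_mon h1))
      · exact Or.inr ⟨x, hx, Submodule.mem_sup_left h1⟩
      · exact Or.inl (Submodule.mem_sup_left (z7_three h hn hw hi))
    · intro f hf i hi
      rw [del_Ml h3 hi hf]
      exact J.zero_mem
    · intro hC i hi
      refine Submodule.mem_sup_left ?_
      have h1 : (List.replicate (p - 1) i ++ ((List.range n).erase i ++ [i])).Perm
          (List.replicate p i ++ (List.range n).erase i) := by
        rw [List.perm_iff_count]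
        intro a
        rw [List.count_append, List.count_append, List.count_append,
          List.count_replicate, List.count_replicate, List.count_singleton]
        by_cases hai : a = i
        · subst hai
          rw [if_pos (by simp), if_pos (by simp), if_pos (by simp)]
          omega
        · rw [if_neg (by simpa using Ne.symm hai),
            if_neg (by simpa using Ne.symm hai), if_neg (by simpa using Ne.symm hai)]
          omega
      have h2 := perm_Cn h1
      have hle : ((List.range n).erase i).length = n - 1 := by
        rw [List.length_erase_of_mem (List.mem_range.2 hi), List.length_range]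
      rw [h1.length_eq, List.length_append, List.length_replicate, hle] at h2
      have h6 : Zw p n i - mon (List.replicate p i ++ (List.range n).erase i) ∈ J :=
        hC (Cn_anti (by omega) h2)
      have h7 : qw p n (List.replicate p i ++ (List.range n).erase i) := by
        refine ⟨?_, ?_⟩
        · intro a ha
          rw [List.mem_append, List.mem_replicate] at ha
          rcases ha with ha | ha
          · rw [ha.2]; exact hi
          · exact List.mem_range.1 (List.mem_of_mem_erase ha)
        · intro a ha
          rw [List.count_append, List.count_replicate, z7_erase]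
          by_cases hai : a = i
          · rw [if_pos hai, if_pos (by simp [hai]), add_zero]
            have : p = 1 + (p - 1) := by omega
            rw [this, Nat.add_sub_cancel_left, Nat.add_mod_right]
            exact Nat.mod_eq_of_lt (by omega)
          · rw [if_neg hai, if_neg (by simpa using Ne.symm hai), if_pos ha, zero_add]
            exact Nat.mod_eq_of_lt (by omega)
      have h8 : p ≤ (List.replicate p i ++ (List.range n).erase i).dropLast.count i := by
        have hne : (List.range n).erase i ≠ [] := by
          intro he
          rw [he, List.length_nil] at hle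
          omega
        rw [List.dropLast_append_of_ne_nil hne, List.count_append, List.count_replicate_self]
        omega
      have h9 := J.add_mem h6 (z7_three h hn h7 h8)
      rwa [sub_add_cancel] at h9

end ADC
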