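import Pool.Agent.ADC.GenG
import Pool.Agent.ADC.GenM
import Pool.Agent.ADC.Z7
import Pool.Agent.ADC.GenO
import Pool.Agent.ADC.RedO

/-!
# ADC-Cs

The possible types.  `Tame p J a b`, `p ∤ a`, `Grs p J`.

* `p ∣ b`: `Tame.scale` with `c = a`: `Tame p J 1 0`; `GenZ`, `Z6b`, `Z_Red`: third type.
* `p ∤ b`, `p ∣ a - b`: `Tame p J 1 1` (`c = a`); `GenM`: `Cn 5 ≤ J`, and `kk 1 1 ∈ J ⊔ Cn (p+2) ≤ J`; `Red_of` with `Cn (p+1) ≤ J`.
* `p ∣ a + b`: `Tame p J 1 (-1)`; `GenO`; `Red_of` with `kap_of` (`m = 1`: `[x_0,x_1] x_2^(p-1) ∈ J`; put `x_2 := x_0`).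
* otherwise `p ∤ a^2 - b^2`: `GenG`: `Cn 4 ≤ J`, `kk a b ∈ J`; `Red_of`.
-/

namespace ADC

open AD ADN

theorem typ_of {p : ℕ} {J : Submodule ℤ P} {a b : ℤ} (h : Tame p J a b) (ha : ¬ (p : ℤ) ∣ a) (hg : Grs p J) :
    Typ p J ∧ Red p J := by
  have h5 := h.five
  by_cases hb : (p : ℤ) ∣ b
  · have h1 : Tame p J 1 0 := by
      refine h.scale ha ?_ ?_
      · rw [mul_one, sub_self]
        exact dvd_zero _
      · rwa [mul_zero, sub_zero]
    exact ⟨Or.inr (Or.inr (Or.inl ⟨Z6b h1, GenZ h1⟩)), Z_Red h1⟩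
  by_cases h1 : (p : ℤ) ∣ a - b
  · have h2 : Tame p J 1 1 := by
      refine h.scale ha ?_ ?_
      · rw [mul_one, sub_self]
        exact dvd_zero _
      · rw [mul_one, ← neg_sub]
        exact (dvd_neg).2 h1
    have h3 := GenM h2
    have h4 : Cn (p + 1) ≤ J := (Cn_anti (by omega)).trans h3
    have h6 : Cn (p + 2) ≤ J := (Cn_anti (by omega)).trans h3
    have h7 := h2.K
    rw [sup_eq_left.2 h6] at h7
    exact ⟨Or.inr (Or.inl ⟨h7, h3⟩), Red_of h2 h6 (Or.inl h4)⟩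
  by_cases h2 : (p : ℤ) ∣ a + b
  · have h3 : Tame p J 1 (-1) := by
      refine h.scale ha ?_ ?_
      · rw [mul_one, sub_self]
        exact dvd_zero _
      · rw [mul_neg, mul_one, sub_neg_eq_add, add_comm]
        exact h2
    obtain ⟨h4, h6, h7⟩ := GenO h3 hg
    obtain ⟨h8, h9⟩ := kap_of h3.toBas h6 h7
    have h10 := h9 1 le_rfl (by omega)
    have h11 := sb_mem h3.isT (φ := fun i => if i = 2 then X 0 else X i) (by
      intro i
      split_ifs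
      · exact X_mem 0
      · exact X_mem i) h10
    have h12 : kap 1 = cm 0 1 := by
      unfold kap
      simp
    have h13 : p + 1 - 2 * 1 = p - 1 := by omega
    rw [h12, h13, map_mul, map_pow, sb_X] at h11
    unfold cm at h11
    rw [map_sub, map_mul, map_mul, sb_X, sb_X] at h11
    have h14 : cm 0 1 * X 0 ^ (p - 1) ∈ J := h11
    exact ⟨Or.inr (Or.inr (Or.inr ⟨h6, h4, h7⟩)), Red_of h3 h4 (Or.inr ⟨h8, h14⟩)⟩
  · have h3 : ¬ (p : ℤ) ∣ a ^ 2 - b ^ 2 := by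
      intro h4
      rw [sq_sub_sq] at h4
      rcases (Nat.prime_iff_prime_int.1 h.pp).dvd_or_dvd h4 with h4 | h4
      · exact h2 h4
      · exact h1 h4
    have h4 := GenG h ha hb h3
    have h6 : Cn (p + 2) ≤ J := (Cn_anti (by omega)).trans h4
    have h7 := h.K
    rw [sup_eq_left.2 h6] at h7
    exact ⟨Or.inl ⟨a, b, h.ab, h7, h4⟩, Red_of h h6 (Or.inl ((Cn_anti (by omega)).trans h4))⟩

end ADC
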