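import Pool.Agent.AD.Defs
import Pool.Agent.ADN.T3a

/-!
# ADC: the almost distributive varieties of rings whose exponent is a power of a prime `p ≥ 5`

Definitions.  `P = ℤ⟨x_0, x_1, ...⟩`, `X i` the variables, `mon w` the monomial of the word `w`,
`Pp` the polynomials without constant term, `Fge n` the span of the words of length `≥ n`.
-/

namespace ADC

open AD ADN

/-- the additive map with prescribed values on the words -/
noncomputable def lma {M : Type} [AddCommGroup M] (φ : List ℕ → M) : P →+ M where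
  toFun f := ((FreeAlgebra.equivMonoidAlgebraFreeMonoid (R := ℤ) f).coeff).sum
    (fun w c => c • φ (FreeMonoid.toList w))
  map_zero' := by simp
  map_add' f g := by
    rw [map_add, MonoidAlgebra.coeff_add, Finsupp.sum_add_index']
    · intro a; simp
    · intro a b c; rw [add_smul]

/-- the linear map with prescribed values on the words -/
noncomputable def lm {M : Type} [AddCommGroup M] (φ : List ℕ → M) : P →ₗ[ℤ] M :=
  (lma φ).toIntLinearMap

theorem equiv_mon (u : List ℕ) : FreeAlgebra.equivMonoidAlgebraFreeMonoid (R := ℤ) (mon u) =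
    MonoidAlgebra.single (FreeMonoid.ofList u) (1 : ℤ) := by
  induction u with
  | nil =>
    have h : mon [] = 1 := by simp [mon]
    rw [h, map_one]
    rfl
  | cons a u ih =>
    have h : mon (a :: u) = X a * mon u := by simp [mon]
    have hX : FreeAlgebra.equivMonoidAlgebraFreeMonoid (R := ℤ) (X a) =
        MonoidAlgebra.single (FreeMonoid.of a) (1 : ℤ) := by
      show FreeAlgebra.lift ℤ (fun x => MonoidAlgebra.of ℤ (FreeMonoid ℕ) (FreeMonoid.of x)) (X a) = _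
      rw [FreeAlgebra.lift_ι_apply]
      rfl
    rw [h, map_mul, ih, hX, MonoidAlgebra.single_mul_single, one_mul]
    rfl

theorem lm_mon {M : Type} [AddCommGroup M] (φ : List ℕ → M) (w : List ℕ) : lm φ (mon w) = φ w := by
  show ((FreeAlgebra.equivMonoidAlgebraFreeMonoid (R := ℤ) (mon w)).coeff).sum
    (fun w c => c • φ (FreeMonoid.toList w)) = _
  rw [equiv_mon, MonoidAlgebra.coeff_single, Finsupp.sum_single_index (by simp)]
  simp

/-- the part of a polynomial consisting of the words with the property `φ` -/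
noncomputable def wp (φ : List ℕ → Prop) : P →ₗ[ℤ] P :=
  open Classical in lm (fun w => if φ w then mon w else 0)

/-- substitution -/
noncomputable def sb (φ : ℕ → P) : P →ₐ[ℤ] P := FreeAlgebra.lift ℤ φ

theorem sb_X (φ : ℕ → P) (i : ℕ) : sb φ (X i) = φ i := by
  simp [sb]

/-- a homomorphism as a linear map -/
noncomputable def tl (φ : P →ₐ[ℤ] P) : P →ₗ[ℤ] P where
  toFun := φ
  map_add' := map_add φ
  map_smul' c f := by
    rw [RingHom.id_apply]
    exact map_zsmul φ c f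

theorem tl_apply (φ : P →ₐ[ℤ] P) (f : P) : tl φ f = φ f := rfl

/-- the T-ideal generated by `S` -/
noncomputable def Gen (S : Set P) : Submodule ℤ P := sInf {I | IsT I ∧ S ⊆ I}

/-- `k P⁺ ≤ J` -/
def Mul (k : ℤ) (J : Submodule ℤ P) : Prop := ∀ f ∈ Pp, k • f ∈ J

/-- the span of the elements `u (x_i x_j - x_j x_i) v`, `u`, `v` words, of length at least `n` -/
noncomputable def Cn (n : ℕ) : Submodule ℤ P :=
  Submodule.span ℤ {f | ∃ (u v : List ℕ) (i j : ℕ), n ≤ u.length + v.length + 2 ∧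
    f = mon u * (X i * X j - X j * X i) * mon v}

/-- the same with `v` nonempty -/
noncomputable def Dn (n : ℕ) : Submodule ℤ P :=
  Submodule.span ℤ {f | ∃ (u v : List ℕ) (i j : ℕ), v ≠ [] ∧ n ≤ u.length + v.length + 2 ∧
    f = mon u * (X i * X j - X j * X i) * mon v}

/-- linear operators that map every T-ideal containing `p ^ 2 P⁺` into itself -/
def TOp (p : ℕ) (Φ : P →ₗ[ℤ] P) : Prop :=
  ∀ D, IsT D → Mul ((p : ℤ) ^ 2) D → ∀ f ∈ D, Φ f ∈ D

/-- the words with letters `0, ..., n-1`, each occurring `≡ 1` modulo `p - 1` times -/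
def qw (p n : ℕ) (w : List ℕ) : Prop := (∀ i ∈ w, i < n) ∧ ∀ i < n, w.count i % (p - 1) = 1

/-- their span -/
noncomputable def Q (p n : ℕ) : Submodule ℤ P := Submodule.span ℤ {f | ∃ w, qw p n w ∧ f = mon w}

/-- the multilinear polynomials in `x_0, ..., x_{n-1}` -/
noncomputable def Ml (n : ℕ) : Submodule ℤ P :=
  Submodule.span ℤ {f | ∃ w : List ℕ, w.Perm (List.range n) ∧ f = mon w}

/-- renaming of the variables `x_0, ..., x_{n-1}` -/
noncomputable def rn (n : ℕ) (σ : Equiv.Perm (Fin n)) : P →ₐ[ℤ] P :=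
  sb (fun i => if h : i < n then X (σ ⟨i, h⟩) else X i)

/-- the permutations of the first `j` letters -/
def aF (n j : ℕ) : Finset (Equiv.Perm (Fin n)) :=
  Finset.univ.filter (fun σ => ∀ i : Fin n, j ≤ i.val → σ i = i)

/-- the permutations of the letters `j, ..., n - 1` -/
def sF (n j : ℕ) : Finset (Equiv.Perm (Fin n)) :=
  Finset.univ.filter (fun σ => ∀ i : Fin n, i.val < j → σ i = i)

/-- antisymmetriser in `x_0, ..., x_{j-1}` -/
noncomputable def aP (n j : ℕ) : P →ₗ[ℤ] P :=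
  ∑ σ ∈ aF n j, ((Equiv.Perm.sign σ : ℤˣ) : ℤ) • tl (rn n σ)

/-- symmetriser in `x_j, ..., x_{n-1}` -/
noncomputable def sP (n j : ℕ) : P →ₗ[ℤ] P := ∑ σ ∈ sF n j, tl (rn n σ)

/-- all variables `x_i`, `i ≥ j`, are replaced by `x_j` -/
noncomputable def col (j : ℕ) : P →ₐ[ℤ] P := sb (fun i => X (min i j))

/-- `1` if `a` stands before `b` in `w`, otherwise `-1` -/
def bef (w : List ℕ) (a b : ℕ) : ℤ := if w.idxOf a < w.idxOf b then 1 else -1

/-- the sign of the order in which the letters of the list `U` occur in `w` -/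
def sgl (w : List ℕ) : List ℕ → ℤ
  | [] => 1
  | u :: U => (U.map (fun v => bef w u v)).prod * sgl w U

/-- `A + B η` is the value of the word `w` (with letters `0, ..., n - 1`) for `x_i = ξ_i` (`i < k`),
`x_i = 1 + η` (`k ≤ i < n`), up to the factor `ξ_0 ⋯ ξ_{k-1}` -/
noncomputable def gA (k : ℕ) : P →ₗ[ℤ] ℤ := lm (fun w => sgl w (List.range k))

noncomputable def gB (n k : ℕ) : P →ₗ[ℤ] ℤ :=
  lm (fun w => ∑ s ∈ Finset.Ico k n, sgl w (List.range k ++ [s]))

/-- the identities of degree `p` of `G_{p,k}` -/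
def KG (p k : ℕ) : Set P := {g | ∀ σ : Equiv.Perm (Fin p), (p : ℤ) ∣ gA k (rn p σ g) ∧
  (p : ℤ) ^ (2 - k % 2) ∣ gB p k (rn p σ g)}

/-- the identities of degree 3 of `W_p` -/
def KW (p : ℕ) : Set P := {g | (p : ℤ) ∣ cf [0,1,2] g - cf [1,2,0] g ∧ (p : ℤ) ∣ cf [0,1,2] g - cf [2,0,1] g ∧
  (p : ℤ) ∣ cf [1,0,2] g - cf [0,2,1] g ∧ (p : ℤ) ∣ cf [1,0,2] g - cf [2,1,0] g}

/-- the largest T-ideal that contains the words of length `n + 1` and whose multilinear polynomials of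
degree `n` lie in `K` -/
noncomputable def TK (n : ℕ) (K : Set P) : Submodule ℤ P :=
  sSup {J | IsT J ∧ Fge (n + 1) ≤ J ∧ ∀ g ∈ J, g ∈ Ml n → g ∈ K}

/-- the T-ideal of `G_{p,k}` -/
noncomputable def GP (p k : ℕ) : Submodule ℤ P := TK p (KG p k)

/-- the T-ideal of `W_p` -/
noncomputable def WP (p : ℕ) : Submodule ℤ P := TK 3 (KW p)

/-- a basic situation: a nilpotent T-ideal containing `p P⁺`, `p ≥ 5` -/
structure Bas (p : ℕ) (J : Submodule ℤ P) : Prop where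
  pp : p.Prime
  five : 5 ≤ p
  isT : IsT J
  mul : Mul p J
  nil : ∃ N, NilAt J N
  ne : X 0 ∉ J

/-- three T-ideals above `I` forming a diamond of atoms with essential top -/
structure Lk (p : ℕ) (I A B C : Submodule ℤ P) : Prop where
  hI : IsT I
  hA : IsT A
  hB : IsT B
  hC : IsT C
  neA : ¬ A ≤ I
  IA : I ≤ A
  IB : I ≤ B
  IC : I ≤ C
  AB : A ⊓ B ≤ I
  AC : A ⊓ C ≤ I
  BC : B ⊓ C ≤ I
  cA : A ≤ B ⊔ C
  cB : B ≤ A ⊔ C
  mA : ∀ D, IsT D → I ≤ D → D ≤ A → D = I ∨ D = A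
  mB : ∀ D, IsT D → I ≤ D → D ≤ B → D = I ∨ D = B
  ess : ∀ D, IsT D → I ≤ D → D ⊓ (A ⊔ B) ≤ I → D ≤ I
  p2 : Mul ((p : ℤ) ^ 2) I
  nil : ∃ N, NilAt I N

/-- linked elements -/
def Lnk (A B C : Submodule ℤ P) (a b : P) : Prop := a ∈ A ∧ b ∈ B ∧ a + b ∈ C

/-- `a [x,y] x + b x [x,y]`, `x = x_0`, `y = x_1` -/
noncomputable def kk (a b : ℤ) : P :=
  a • ((X 0 * X 1 - X 1 * X 0) * X 0) + b • (X 0 * (X 0 * X 1 - X 1 * X 0))

/-- the commutator of two variables -/
noncomputable def cm (i j : ℕ) : P := X i * X j - X j * X i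

/-- `[[x_0,x_1],x_2]` -/
noncomputable def ll : P := cm 0 1 * X 2 - X 2 * cm 0 1

/-- `kk` linearised, `y = x_0`, `x = x_1, x_2` -/
noncomputable def kml (a b : ℤ) : P :=
  a • (cm 1 0 * X 2 + cm 2 0 * X 1) + b • (X 1 * cm 2 0 + X 2 * cm 1 0)

/-- the tame situation -/
structure Tame (p : ℕ) (J : Submodule ℤ P) (a b : ℤ) : Prop extends Bas p J where
  ab : ¬ ((p : ℤ) ∣ a ∧ (p : ℤ) ∣ b)
  K : kk a b ∈ J ⊔ Cn (p + 2)
  t2 : X 0 ^ p * X 1 * X 2 ∈ J ⊔ Cn (p + 2)
  t3 : X 0 ^ p * X 1 - X 0 * X 1 ^ p ∈ J ⊔ Cn (p + 1)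

/-- for all odd `k ≤ p - 2`: a multilinear polynomial of degree `p` that is not an identity of `G_{p,k}` -/
def Grs (p : ℕ) (J : Submodule ℤ P) : Prop := ∀ k, k % 2 = 1 → k + 2 ≤ p →
  ∃ f ∈ Ml p, f ∈ J ⊔ Cn (p + 2) ∧ ¬ ((p : ℤ) ∣ gA k f ∧ (p : ℤ) ∣ gB p k f)

/-- the product of `m` commutators `[x_0,x_1] [x_2,x_3] ⋯` -/
noncomputable def kap (m : ℕ) : P := ((List.range m).map (fun i => cm (2 * i) (2 * i + 1))).prod

/-- the word `x_0 ⋯ x_{n-1}` -/
noncomputable def mw (n : ℕ) : P := mon (List.range n)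

/-- the word with the letters `0, ..., n-1`, last letter `i`, the others in increasing order -/
noncomputable def Yw (n i : ℕ) : P := mon ((List.range n).erase i ++ [i])

/-- the word `x^(p-1) v x`, `x = x_i`, `v` the product of the other variables among `x_0, ..., x_{n-1}` -/
noncomputable def Zw (p n i : ℕ) : P := mon (List.replicate (p - 1) i ++ ((List.range n).erase i ++ [i]))

/-- additivity in each of the variables `x_0, ..., x_{n-1}` modulo `I` -/
def Ad (I : Submodule ℤ P) (n : ℕ) (a : P) : Prop := ∀ i < n,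
  sb (fun j => if j = i then X i + X n else X j) a - a - sb (fun j => if j = i then X n else X j) a ∈ I

/-- `x_i ↦ x_i + x_m`, then the part in which `x_i` occurs and the number of `x_i` is `≡ 0` modulo `p - 1` -/
noncomputable def del (p i m : ℕ) : P →ₗ[ℤ] P :=
  (wp (fun w => w.count i % (p - 1) = 0 ∧ i ∈ w)).comp
    (tl (sb (fun j => if j = i then X i + X m else X j)))

/-- full linearisation: `x_j ^ (n - j)` becomes the sum of the products of `x_j, ..., x_{n-1}` in all orders -/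
noncomputable def linP (n j : ℕ) : P →ₗ[ℤ] P :=
  ∑ S ∈ (Finset.Ico j n).powerset, ((-1 : ℤ) ^ (n - j - S.card)) •
    tl (sb (fun i => if i = j then ∑ t ∈ S, X t else X i))

/-- reversal of the words -/
noncomputable def rv : P →ₗ[ℤ] P := lm (fun w => mon w.reverse)

/-- the opposite T-ideal -/
noncomputable def op (I : Submodule ℤ P) : Submodule ℤ P := I.comap rv

/-- a linked pair of multilinear polynomials `a`, `b` of degree `n`, with `a ≡ q h` modulo `I` -/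
structure Pr (p : ℕ) (I J A B C : Submodule ℤ P) (n : ℕ) (q : ℤ) (a b h : P) : Prop
    extends Lk p I A B C where
  bJ : Bas p J
  IJ : I ≤ J
  pJ : ∀ f ∈ J, (p : ℤ) • f ∈ I
  qJ : ∀ f ∈ J, q • f ∈ I
  ex : ∀ f ∈ Ml n, f ∈ J → ∃ g ∈ Ml n, f - (p : ℤ) • g ∈ I
  ha : a ∈ Ml n
  hb : b ∈ Ml n
  hh : h ∈ Ml n
  lk : Lnk A B C a b
  aq : a - q • h ∈ I
  na : a ∉ I

/-- the additive polynomials of `Q p n` are multilinear modulo `J`, with an exception for `n = 2` -/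
structure Red (p : ℕ) (J : Submodule ℤ P) : Prop where
  two : ∀ g ∈ Q p 2, (∀ i < 2, del p i 2 g ∈ J) →
    g ∈ J ⊔ Submodule.span ℤ {X 0 * X 1, X 1 * X 0, X 0 ^ p * X 1}
  sym : X 0 ^ p * X 1 - X 1 ^ p * X 0 ∈ J
  three : ∀ n, 3 ≤ n → ∀ g ∈ Q p n, (∀ i < n, del p i n g ∈ J) → g ∈ J ⊔ Ml n

/-- the identities of degree `p` for odd `k`, exactly -/
def Grs0 (p : ℕ) (J : Submodule ℤ P) : Prop := ∀ k, k % 2 = 1 → k + 2 ≤ p →
  ∃ f ∈ Ml p, f ∈ J ∧ ¬ ((p : ℤ) ∣ gA k f ∧ (p : ℤ) ∣ gB p k f)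

/-- the possible types -/
def Typ (p : ℕ) (J : Submodule ℤ P) : Prop :=
  (∃ a b : ℤ, ¬ ((p : ℤ) ∣ a ∧ (p : ℤ) ∣ b) ∧ kk a b ∈ J ∧ Cn 4 ≤ J) ∨ (kk 1 1 ∈ J ∧ Cn 5 ≤ J) ∨
    (kk 1 0 ∈ J ∧ Dn 4 ≤ J) ∨ (kk 1 (-1) ∈ J ∧ Cn (p + 2) ≤ J ∧ Grs0 p J)

/-- the polynomials of the T-ideals of `N_p` (`α = β = 0`) and of three T-ideals above it -/
def NN (p : ℕ) (α β : ℤ) (f : P) : Prop :=
  f ∈ Pp ∧ (∀ i, (p : ℤ) ∣ cf [i] f) ∧ ∃ m : ℕ → ℕ → ℤ, (∀ i j, m i j = - m j i) ∧
    (∀ i j, (p : ℤ) ∣ cf [i, j] f - α * m i j) ∧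
    (∀ d : ℕ →₀ ℕ, 3 ≤ d.degree → d.degree ≤ p → (p : ℤ) ∣ (com f).coeff d) ∧
    (∀ i j, (p : ℤ) ∣ (com f).coeff (Finsupp.single i p + Finsupp.single j 1) -
      (com f).coeff (Finsupp.single i 1 + Finsupp.single j p) - β * m i j) ∧
    (∀ d : ℕ →₀ ℕ, d.degree = p + 1 → (∀ i, d i < p) → (p : ℤ) ∣ (com f).coeff d)

/-- the T-ideal of `N_p` is `NPt p 0 0` -/
noncomputable def NPt (p : ℕ) (α β : ℤ) : Submodule ℤ P := Submodule.span ℤ {f | NN p α β f}

/-- the standard polynomial in `x_0, ..., x_{k-1}` -/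
noncomputable def St (k : ℕ) : P :=
  ∑ σ : Equiv.Perm (Fin k), ((Equiv.Perm.sign σ : ℤˣ) : ℤ) • (List.ofFn (fun i : Fin k => X (σ i))).prod

/-- `∑ sgn(σ) x_{σ 0} ⋯ x_{σ (k-2)} [x_{σ (k-1)}, x_k]` (`k ≥ 1`) -/
noncomputable def St' (k : ℕ) : P :=
  ∑ σ : Equiv.Perm (Fin k), ((Equiv.Perm.sign σ : ℤˣ) : ℤ) •
    (((List.ofFn (fun i : Fin k => X (σ i))).take (k - 1)).prod *
      (((List.ofFn (fun i : Fin k => X (σ i))).drop (k - 1)).prod * X k -
        X k * ((List.ofFn (fun i : Fin k => X (σ i))).drop (k - 1)).prod))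

/-- the two basic elements with `N` further variables equal to `x_k` -/
noncomputable def V1 (k N : ℕ) : P := St k * X k ^ N
noncomputable def V2 (k N : ℕ) : P := St' k * X k ^ (N - 1)

/-- `2 A V1 + (B - N A) V2`, fully linearised, `N = n - k` -/
noncomputable def vv (n k : ℕ) (A B : ℤ) : P :=
  (2 * A) • linP n k (V1 k (n - k)) + (B - ((n - k : ℕ) : ℤ) * A) • linP n k (V2 k (n - k))

/-- antisymmetriser in the first `j` letters, for an action `ρ` of the symmetric group -/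
noncomputable def aA {M : Type*} [AddCommGroup M] {n : ℕ} (ρ : Equiv.Perm (Fin n) →* AddMonoid.End M) (j : ℕ) :
    M →+ M := ∑ σ ∈ aF n j, ((Equiv.Perm.sign σ : ℤˣ) : ℤ) • (ρ σ : M →+ M)

/-- symmetriser in the letters `j, ..., n - 1` -/
noncomputable def sA {M : Type*} [AddCommGroup M] {n : ℕ} (ρ : Equiv.Perm (Fin n) →* AddMonoid.End M) (j : ℕ) :
    M →+ M := ∑ σ ∈ sF n j, (ρ σ : M →+ M)

/-- the relation `(1 + (t s)) (1 + (t' s')) (1 - (t t')) (1 - (s s')) = 0` -/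
def R22 {M : Type*} [AddCommGroup M] {n : ℕ} (ρ : Equiv.Perm (Fin n) →* AddMonoid.End M) : Prop :=
  ∀ (t s t' s' : Fin n), t ≠ s → t ≠ t' → t ≠ s' → s ≠ t' → s ≠ s' → t' ≠ s' → ∀ m : M,
    let a := m - ρ (Equiv.swap s s') m
    let b := a - ρ (Equiv.swap t t') a
    let c := b + ρ (Equiv.swap t' s') b
    c + ρ (Equiv.swap t s) c = 0

end ADC
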