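import Pool.Agent.ADC.GrpA

/-!
# ADC-Det

The detection lemma.
-/

namespace ADC

open AD ADN

section aux

variable {n p : ℕ} {M : Type*} [AddCommGroup M]

private theorem rr (ρ : Equiv.Perm (Fin n) →* AddMonoid.End M) (σ τ : Equiv.Perm (Fin n)) (m : M) :
    ρ σ (ρ τ m) = ρ (σ * τ) m := by
  rw [map_mul]
  rfl

private theorem r1 (ρ : Equiv.Perm (Fin n) →* AddMonoid.End M) (m : M) : ρ 1 m = m := by
  rw [map_one]
  rfl

private theorem aA_app (ρ : Equiv.Perm (Fin n) →* AddMonoid.End M) (j : ℕ) (m : M) :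
    aA ρ j m = ∑ σ ∈ aF n j, ((Equiv.Perm.sign σ : ℤˣ) : ℤ) • ρ σ m := by
  unfold aA
  rw [AddMonoidHom.finsetSum_apply]
  exact Finset.sum_congr rfl fun _ _ => rfl

private theorem sA_app (ρ : Equiv.Perm (Fin n) →* AddMonoid.End M) (j : ℕ) (m : M) :
    sA ρ j m = ∑ σ ∈ sF n j, ρ σ m := by
  unfold sA
  rw [AddMonoidHom.finsetSum_apply]
  exact Finset.sum_congr rfl fun _ _ => rfl

private theorem cancelM (hp : p.Prime) (hM : ∀ m : M, (p : ℤ) • m = 0) {k : ℕ} (hk : ¬ p ∣ k)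
    {m : M} (h : (k : ℤ) • m = 0) : m = 0 := by
  have h1 : IsCoprime (k : ℤ) (p : ℤ) :=
    Nat.isCoprime_iff_coprime.2 (hp.coprime_iff_not_dvd.2 hk).symm
  obtain ⟨u, v, huv⟩ := h1
  have h2 : m = u • ((k : ℤ) • m) + v • ((p : ℤ) • m) := by
    rw [smul_smul, smul_smul, ← add_smul, huv, one_smul]
  rw [h2, h, hM, smul_zero, smul_zero, add_zero]

private theorem mem_aF' {j : ℕ} {σ : Equiv.Perm (Fin n)} :
    σ ∈ aF n j ↔ ∀ i : Fin n, j ≤ i.val → σ i = i := by
  unfold aF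
  rw [Finset.mem_filter]
  exact and_iff_right (Finset.mem_univ _)

private theorem mem_sF' {j : ℕ} {σ : Equiv.Perm (Fin n)} :
    σ ∈ sF n j ↔ ∀ i : Fin n, i.val < j → σ i = i := by
  unfold sF
  rw [Finset.mem_filter]
  exact and_iff_right (Finset.mem_univ _)

private theorem swap_aF {j : ℕ} {t t' : Fin n} (ht : t.val < j) (ht' : t'.val < j) :
    Equiv.swap t t' ∈ aF n j :=
  mem_aF'.2 fun i hi => Equiv.swap_apply_of_ne_of_ne (fun h => by rw [h] at hi; omega)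
    (fun h => by rw [h] at hi; omega)

private theorem swap_sF {j : ℕ} {s s' : Fin n} (hs : j ≤ s.val) (hs' : j ≤ s'.val) :
    Equiv.swap s s' ∈ sF n j :=
  mem_sF'.2 fun i hi => Equiv.swap_apply_of_ne_of_ne (fun h => by rw [h] at hi; omega)
    (fun h => by rw [h] at hi; omega)

private theorem aA_id (ρ : Equiv.Perm (Fin n) →* AddMonoid.End M) {j : ℕ}
    (h : (aF n j).card = 1) (m : M) : aA ρ j m = m := by
  obtain ⟨σ, hσ⟩ := Finset.card_eq_one.1 h
  have h1 : (1 : Equiv.Perm (Fin n)) ∈ aF n j := mem_aF'.2 fun _ _ => rfl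
  rw [hσ, Finset.mem_singleton] at h1
  rw [aA_app, hσ, Finset.sum_singleton, ← h1, r1, Equiv.Perm.sign_one, Units.val_one, one_smul]

private theorem sA_id (ρ : Equiv.Perm (Fin n) →* AddMonoid.End M) {j : ℕ}
    (h : (sF n j).card = 1) (m : M) : sA ρ j m = m := by
  obtain ⟨σ, hσ⟩ := Finset.card_eq_one.1 h
  have h1 : (1 : Equiv.Perm (Fin n)) ∈ sF n j := mem_sF'.2 fun _ _ => rfl
  rw [hσ, Finset.mem_singleton] at h1
  rw [sA_app, hσ, Finset.sum_singleton, ← h1, r1]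

private theorem aA_comm (ρ : Equiv.Perm (Fin n) →* AddMonoid.End M) {j : ℕ}
    {τ : Equiv.Perm (Fin n)} (hτ : τ ∈ sF n j) (m : M) : aA ρ j (ρ τ m) = ρ τ (aA ρ j m) := by
  rw [aA_app, aA_app, map_sum]
  refine Finset.sum_congr rfl fun σ hσ => ?_
  have hd : Equiv.Perm.Disjoint σ τ := by
    intro i
    rcases Nat.lt_or_ge i.val j with h | h
    · exact Or.inr (mem_sF'.1 hτ i h)
    · exact Or.inl (mem_aF'.1 hσ i h)
  rw [map_zsmul, rr, rr, hd.commute.eq]

/-- the sum of the transpositions with a further letter -/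
private theorem gG {ρ : Equiv.Perm (Fin n) →* AddMonoid.End M} {j : ℕ} (hj : j < n) {y : M}
    (hmax : ∀ τ, aA ρ (j + 1) (ρ τ y) = 0) {s : Fin n} (hs : j ≤ s.val) :
    ∑ t : Fin n with t.val < j, ρ (Equiv.swap t s) (aA ρ j y) = aA ρ j y := by
  have h1 := aA_succ ρ hj (ρ (Equiv.swap ⟨j, hj⟩ s) y)
  rw [hmax, aA_comm ρ (swap_sF (j := j) (s := ⟨j, hj⟩) (s' := s) le_rfl hs)] at h1
  have h2 := congrArg (ρ (Equiv.swap ⟨j, hj⟩ s)) (sub_eq_zero.1 h1.symm)
  rw [map_sum, rr, Equiv.swap_mul_self, r1] at h2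
  refine Eq.trans ?_ h2.symm
  refine Finset.sum_congr rfl fun t ht => ?_
  have ht' : t.val < j := (Finset.mem_filter.1 ht).2
  rw [rr, rr]
  have e : Equiv.swap ⟨j, hj⟩ s * Equiv.swap t ⟨j, hj⟩ * Equiv.swap ⟨j, hj⟩ s = Equiv.swap t s := by
    rw [Equiv.mul_swap_eq_swap_mul (Equiv.swap ⟨j, hj⟩ s) t ⟨j, hj⟩, Equiv.swap_apply_left,
      Equiv.swap_apply_of_ne_of_ne, mul_assoc, Equiv.swap_mul_self, mul_one]
    · intro h
      rw [h] at ht'
      exact lt_irrefl _ ht'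
    · intro h
      rw [h] at ht'
      omega
  rw [e]

private theorem conj3 (t s s' : Fin n) (h1 : t ≠ s) (h2 : t ≠ s') :
    Equiv.swap t s * Equiv.swap s s' = Equiv.swap s s' * Equiv.swap t s' := by
  rw [Equiv.mul_swap_eq_swap_mul (Equiv.swap s s') t s', Equiv.swap_apply_right,
    Equiv.swap_apply_of_ne_of_ne h1 h2]

private theorem card_lt {j : ℕ} (hj : j < n) :
    (Finset.univ.filter fun t : Fin n => t.val < j).card = j := by
  have h : (Finset.univ.filter fun t : Fin n => t.val < j) = Finset.Iio (⟨j, hj⟩ : Fin n) := by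
    ext t
    rw [Finset.mem_filter, Finset.mem_Iio]
    exact and_iff_right (Finset.mem_univ _)
  rw [h, Fin.card_Iio]

private theorem card_gt {j : ℕ} (hj : j < n) :
    (Finset.univ.filter fun t : Fin n => j < t.val).card = n - 1 - j := by
  have h : (Finset.univ.filter fun t : Fin n => j < t.val) = Finset.Ioi (⟨j, hj⟩ : Fin n) := by
    ext t
    rw [Finset.mem_filter, Finset.mem_Ioi]
    exact and_iff_right (Finset.mem_univ _)
  rw [h, Fin.card_Ioi]

/-- the key computation -/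
private theorem fixed {ρ : Equiv.Perm (Fin n) →* AddMonoid.End M} (hp : p.Prime) (h5 : 5 ≤ p)
    (hM : ∀ m : M, (p : ℤ) • m = 0) (hR : R22 ρ) {j : ℕ} (hj1 : 1 ≤ j) (hjp : j + 2 ≤ p)
    (hjn : j < n) {a : M}
    (ha : ∀ t t' : Fin n, t.val < j → t'.val < j → t ≠ t' → ρ (Equiv.swap t t') a = -a)
    (hG : ∀ s : Fin n, j ≤ s.val → ∑ t : Fin n with t.val < j, ρ (Equiv.swap t s) a = a)
    {s s' : Fin n} (hs : j ≤ s.val) (hs' : j ≤ s'.val) : ρ (Equiv.swap s s') a = a := by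
  by_cases hss : s = s'
  · rw [hss, Equiv.swap_self]
    exact r1 ρ a
  obtain ⟨b, hb⟩ : ∃ b, b = a - ρ (Equiv.swap s s') a := ⟨_, rfl⟩
  obtain ⟨T, hT⟩ : ∃ T : Finset (Fin n), T = Finset.univ.filter fun t : Fin n => t.val < j :=
    ⟨_, rfl⟩
  have hTj : ∀ t ∈ T, t.val < j := fun t ht => by
    rw [hT] at ht
    exact (Finset.mem_filter.1 ht).2
  have hTc : T.card = j := by rw [hT, card_lt hjn]
  have hts : ∀ t : Fin n, t.val < j → t ≠ s ∧ t ≠ s' := fun t ht =>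
    ⟨fun h => by rw [h] at ht; omega, fun h => by rw [h] at ht; omega⟩
  -- antisymmetry of `b`
  have hb_anti : ∀ t t' : Fin n, t.val < j → t'.val < j → t ≠ t' →
      ρ (Equiv.swap t t') b = -b := by
    intro t t' ht ht' htt
    have e : Equiv.swap t t' * Equiv.swap s s' = Equiv.swap s s' * Equiv.swap t t' := by
      rw [Equiv.mul_swap_eq_swap_mul (Equiv.swap t t') s s',
        Equiv.swap_apply_of_ne_of_ne (hts t ht).1.symm (hts t' ht').1.symm,
        Equiv.swap_apply_of_ne_of_ne (hts t ht).2.symm (hts t' ht').2.symm]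
    rw [hb, map_sub, rr, e, ← rr, ha t t' ht ht' htt, map_neg]
    abel
  -- sums
  have hGs : ∑ t ∈ T, ρ (Equiv.swap t s) b = b := by
    have e : ∀ t ∈ T, ρ (Equiv.swap t s) b = ρ (Equiv.swap t s) a -
        ρ (Equiv.swap s s') (ρ (Equiv.swap t s') a) := by
      intro t ht
      rw [hb, map_sub, rr, rr, conj3 t s s' (hts t (hTj t ht)).1 (hts t (hTj t ht)).2]
    rw [Finset.sum_congr rfl e, Finset.sum_sub_distrib, ← map_sum, hT, hG s hs, hG s' hs', hb]
  have hGs' : ∑ t ∈ T, ρ (Equiv.swap t s') b = b := by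
    have e : ∀ t ∈ T, ρ (Equiv.swap t s') b = ρ (Equiv.swap t s') a -
        ρ (Equiv.swap s s') (ρ (Equiv.swap t s) a) := by
      intro t ht
      rw [hb, map_sub, rr, rr, Equiv.swap_comm s s',
        conj3 t s' s (hts t (hTj t ht)).2 (hts t (hTj t ht)).1]
    rw [Finset.sum_congr rfl e, Finset.sum_sub_distrib, ← map_sum, hT, hG s hs, hG s' hs', hb]
  have hsb : ρ (Equiv.swap s s') b = -b := by
    rw [hb, map_sub, rr, Equiv.swap_mul_self, r1]
    abel
  have hdiag : ∑ t ∈ T, ρ (Equiv.swap t s) (ρ (Equiv.swap t s') b) = -b := by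
    have e : ∀ t ∈ T, ρ (Equiv.swap t s) (ρ (Equiv.swap t s') b) =
        ρ (Equiv.swap s s') (ρ (Equiv.swap t s) b) := by
      intro t ht
      have e1 : Equiv.swap t s * Equiv.swap t s' = Equiv.swap s s' * Equiv.swap t s := by
        rw [Equiv.mul_swap_eq_swap_mul (Equiv.swap t s) t s', Equiv.swap_apply_left,
          Equiv.swap_apply_of_ne_of_ne (hts t (hTj t ht)).2.symm (Ne.symm hss)]
      rw [rr, rr, e1]
    rw [Finset.sum_congr rfl e, ← map_sum, hGs, hsb]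
  -- the relation
  have hE : ∀ t ∈ T, ∀ t' ∈ T, t ≠ t' → b + ρ (Equiv.swap t' s') b + ρ (Equiv.swap t s) b +
      ρ (Equiv.swap t s) (ρ (Equiv.swap t' s') b) = 0 := by
    intro t ht t' ht' htt
    have h1 := hR t s t' s' (hts t (hTj t ht)).1 htt (hts t (hTj t ht)).2
      (hts t' (hTj t' ht')).1.symm hss (hts t' (hTj t' ht')).2 a
    dsimp only at h1
    rw [← hb, hb_anti t t' (hTj t ht) (hTj t' ht') htt] at h1
    have h2 : ((2 : ℕ) : ℤ) • (b + ρ (Equiv.swap t' s') b + ρ (Equiv.swap t s) b +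
        ρ (Equiv.swap t s) (ρ (Equiv.swap t' s') b)) = 0 := by
      rw [← h1]
      simp only [map_add, sub_neg_eq_add, Nat.cast_ofNat, two_smul]
      abel
    refine cancelM hp hM ?_ h2
    intro h3
    have := Nat.le_of_dvd (by norm_num) h3
    omega
  have hrow : ∀ t ∈ T, (j : ℤ) • b + (j : ℤ) • ρ (Equiv.swap t s) b - ρ (Equiv.swap t s') b -
      ρ (Equiv.swap t s) (ρ (Equiv.swap t s') b) = 0 := by
    intro t ht
    have h1 : ∑ t' ∈ T.erase t, (b + ρ (Equiv.swap t' s') b + ρ (Equiv.swap t s) b +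
        ρ (Equiv.swap t s) (ρ (Equiv.swap t' s') b)) = 0 := by
      refine Finset.sum_eq_zero fun t' ht' => ?_
      obtain ⟨h2, h3⟩ := Finset.mem_erase.1 ht'
      exact hE t ht t' h3 h2.symm
    rw [Finset.sum_erase_eq_sub ht, Finset.sum_add_distrib, Finset.sum_add_distrib,
      Finset.sum_add_distrib, Finset.sum_const, Finset.sum_const, hTc, ← map_sum, hGs',
      ← natCast_zsmul, ← natCast_zsmul] at h1
    rw [← h1]
    abel
  have htot : ((j * (j + 1) : ℕ) : ℤ) • b = 0 := by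
    have h1 := Finset.sum_eq_zero hrow
    rw [Finset.sum_sub_distrib, Finset.sum_sub_distrib, Finset.sum_add_distrib, Finset.sum_const,
      hTc, ← Finset.smul_sum, hGs, hGs', hdiag, ← natCast_zsmul, smul_smul] at h1
    have h2 : ((j * (j + 1) : ℕ) : ℤ) • b =
        ((j : ℤ) * (j : ℤ)) • b + (j : ℤ) • b - b - -b := by
      push_cast
      rw [mul_add, add_smul, mul_one]
      abel
    rw [h2, h1]
  have hb0 : b = 0 := by
    refine cancelM hp hM ?_ htot
    intro h3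
    rcases (Nat.Prime.dvd_mul hp).1 h3 with h4 | h4
    · have := Nat.le_of_dvd hj1 h4
      omega
    · have := Nat.le_of_dvd (Nat.succ_pos j) h4
      omega
  rw [hb] at hb0
  exact (sub_eq_zero.1 hb0).symm

private theorem sfix {ρ : Equiv.Perm (Fin n) →* AddMonoid.End M} {j : ℕ} {a : M}
    (hfix : ∀ s s' : Fin n, j ≤ s.val → j ≤ s'.val → ρ (Equiv.swap s s') a = a) (d : ℕ)
    (hd : d ≤ n - j) : sA ρ (n - d) a = (d.factorial : ℤ) • a := by
  induction d with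
  | zero =>
    rw [Nat.sub_zero, Nat.factorial_zero, Nat.cast_one, one_smul]
    refine sA_id ρ ?_ a
    rw [card_sF le_rfl, Nat.sub_self, Nat.factorial_zero]
  | succ d ih =>
    have hi : n - (d + 1) < n := by omega
    have h1 := sA_pred ρ hi a
    have h2 : n - (d + 1) + 1 = n - d := by omega
    rw [h2, ih (by omega)] at h1
    rw [h1]
    have h3 : ∀ s ∈ Finset.univ.filter fun s : Fin n => n - (d + 1) < s.val,
        ρ (Equiv.swap s ⟨n - (d + 1), hi⟩) ((d.factorial : ℤ) • a) = (d.factorial : ℤ) • a := by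
      intro s hs
      have hs' : n - (d + 1) < s.val := (Finset.mem_filter.1 hs).2
      rw [map_zsmul, hfix s ⟨n - (d + 1), hi⟩ (by omega) (by show j ≤ n - (d + 1); omega)]
    rw [Finset.sum_congr rfl h3, Finset.sum_const, card_gt hi]
    have h4 : n - 1 - (n - (d + 1)) = d := by omega
    rw [h4, Nat.factorial_succ, ← natCast_zsmul, smul_smul]
    push_cast
    rw [add_mul, one_mul, add_smul, add_comm]

/-- everything about the maximal `j` -/
private theorem core {ρ : Equiv.Perm (Fin n) →* AddMonoid.End M} (hp : p.Prime) (h5 : 5 ≤ p)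
    (hM : ∀ m : M, (p : ℤ) • m = 0) (hR : R22 ρ) {j : ℕ} (hj1 : 1 ≤ j) (hjp : j + 2 ≤ p)
    (hjn : j < n) {y : M} (hmax : ∀ τ, aA ρ (j + 1) (ρ τ y) = 0) :
    sA ρ j (aA ρ j y) = ((n - j).factorial : ℤ) • aA ρ j y ∧
      (∀ t t' : Fin n, t.val < j → t'.val < j → t ≠ t' →
        ρ (Equiv.swap t t') (aA ρ j y) = -(aA ρ j y)) := by
  have ha : ∀ t t' : Fin n, t.val < j → t'.val < j → t ≠ t' →
      ρ (Equiv.swap t t') (aA ρ j y) = -(aA ρ j y) := by
    intro t t' ht ht' htt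
    rw [(rho_aA ρ (swap_aF ht ht') y).1, Equiv.Perm.sign_swap htt, Units.val_neg, Units.val_one,
      neg_one_zsmul]
  refine ⟨?_, ha⟩
  have hG : ∀ s : Fin n, j ≤ s.val →
      ∑ t : Fin n with t.val < j, ρ (Equiv.swap t s) (aA ρ j y) = aA ρ j y := fun s hs =>
    gG hjn hmax hs
  have h1 := sfix (ρ := ρ) (j := j) (a := aA ρ j y) (fun s s' hs hs' =>
    fixed hp h5 hM hR hj1 hjp hjn ha hG hs hs') (n - j) le_rfl
  have h2 : n - (n - j) = j := by omega
  rwa [h2] at h1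

private theorem nfact (hp : p.Prime) {k : ℕ} (hk : k < p) : ¬ p ∣ k.factorial := by
  rw [hp.dvd_factorial]
  omega

private theorem main_lt {ρ : Equiv.Perm (Fin n) →* AddMonoid.End M} (hp : p.Prime) (h5 : 5 ≤ p)
    (hM : ∀ m : M, (p : ℤ) • m = 0) (hR : R22 ρ) {c : ℕ} (hcn : c + 1 < n) (hn : n < p) {y : M}
    (hy : aA ρ (c + 1) y ≠ 0) (hmax : ∀ τ, aA ρ (c + 1 + 1) (ρ τ y) = 0) :
    sA ρ c (aA ρ (c + 1) y) ≠ 0 := by
  obtain ⟨h1, ha⟩ := core hp h5 hM hR (j := c + 1) (by omega) (by omega) hcn hmax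
  have hG : ∀ s : Fin n, c + 1 ≤ s.val →
      ∑ t : Fin n with t.val < c + 1, ρ (Equiv.swap t s) (aA ρ (c + 1) y) = aA ρ (c + 1) y :=
    fun s hs => gG hcn hmax hs
  obtain ⟨a, haa⟩ : ∃ a, a = aA ρ (c + 1) y := ⟨_, rfl⟩
  rw [← haa] at h1 ha hG hy ⊢
  have hc : c < n := by omega
  intro h0
  apply hy
  rw [sA_pred ρ hc a, h1] at h0
  -- cancel the factorial
  have h2 : ((n - (c + 1)).factorial : ℤ) • (a + ∑ s : Fin n with c < s.val,
      ρ (Equiv.swap s ⟨c, hc⟩) a) = 0 := by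
    rw [smul_add, Finset.smul_sum, ← h0]
    congr 1
    exact Finset.sum_congr rfl fun s _ => (map_zsmul _ _ _).symm
  have h3 := cancelM hp hM (nfact hp (by omega : n - (c + 1) < p)) h2
  -- for all `t`
  have h4 : ∀ t : Fin n, t.val < c + 1 → a + ∑ s : Fin n with c < s.val,
      ρ (Equiv.swap t s) a = 0 := by
    intro t ht
    by_cases htc : t = ⟨c, hc⟩
    · rw [htc]
      have h5 : ∀ s ∈ Finset.univ.filter fun s : Fin n => c < s.val,
          ρ (Equiv.swap (⟨c, hc⟩ : Fin n) s) a = ρ (Equiv.swap s ⟨c, hc⟩) a := fun s _ => by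
        rw [Equiv.swap_comm]
      rw [Finset.sum_congr rfl h5]
      exact h3
    · have h5 := congrArg (ρ (Equiv.swap t ⟨c, hc⟩)) h3
      rw [map_zero, map_add, ha t ⟨c, hc⟩ ht (Nat.lt_succ_self c) htc, map_sum] at h5
      have h6 : ∀ s ∈ Finset.univ.filter fun s : Fin n => c < s.val,
          ρ (Equiv.swap t ⟨c, hc⟩) (ρ (Equiv.swap s ⟨c, hc⟩) a) = -(ρ (Equiv.swap t s) a) := by
        intro s hs
        have hs' : c < s.val := (Finset.mem_filter.1 hs).2
        have hsc : s ≠ ⟨c, hc⟩ := fun h => by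
          rw [h] at hs'
          exact lt_irrefl _ hs'
        have hst : s ≠ t := fun h => by
          rw [h] at hs'
          omega
        rw [rr, Equiv.mul_swap_eq_swap_mul, Equiv.swap_apply_right,
          Equiv.swap_apply_of_ne_of_ne hst hsc, ← rr, ha t ⟨c, hc⟩ ht (Nat.lt_succ_self c) htc,
          map_neg, Equiv.swap_comm s t]
      rw [Finset.sum_congr rfl h6, Finset.sum_neg_distrib, ← neg_add, neg_eq_zero] at h5
      exact h5
  have h7 : ∑ t : Fin n with t.val < c + 1, (a + ∑ s : Fin n with c < s.val,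
      ρ (Equiv.swap t s) a) = 0 :=
    Finset.sum_eq_zero fun t ht => h4 t (Finset.mem_filter.1 ht).2
  rw [Finset.sum_add_distrib, Finset.sum_const, card_lt hcn, Finset.sum_comm] at h7
  have h8 : ∑ s : Fin n with c < s.val, ∑ t : Fin n with t.val < c + 1,
      ρ (Equiv.swap t s) a = (n - 1 - c) • a := by
    have h8a : ∀ s ∈ Finset.univ.filter fun s : Fin n => c < s.val,
        ∑ t : Fin n with t.val < c + 1, ρ (Equiv.swap t s) a = a := fun s hs =>
      hG s (Finset.mem_filter.1 hs).2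
    rw [Finset.sum_congr rfl h8a, Finset.sum_const, card_gt hc]
  rw [h8, ← add_smul] at h7
  have h9 : c + 1 + (n - 1 - c) = n := by omega
  rw [h9, ← natCast_zsmul] at h7
  refine cancelM hp hM ?_ h7
  intro h10
  have := Nat.le_of_dvd (by omega) h10
  omega

/-- the maximal `j` -/
private theorem exists_max (ρ : Equiv.Perm (Fin n) →* AddMonoid.End M) (hn : 1 ≤ n) {m : M}
    (hm : m ≠ 0) : ∃ j σ, 1 ≤ j ∧ j ≤ n ∧ aA ρ j (ρ σ m) ≠ 0 ∧
      (j < n → ∀ τ, aA ρ (j + 1) (ρ τ m) = 0) := by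
  classical
  obtain ⟨Q, hQ⟩ : ∃ Q : ℕ → Prop, Q = fun j => ∃ σ, aA ρ j (ρ σ m) ≠ 0 := ⟨_, rfl⟩
  have hQ1 : Q 1 := by
    rw [hQ]
    refine ⟨1, ?_⟩
    rw [r1, aA_id ρ (by rw [card_aF hn, Nat.factorial_one])]
    exact hm
  have h1 : 1 ≤ Nat.findGreatest Q n := Nat.le_findGreatest hn hQ1
  have h2 : Nat.findGreatest Q n ≤ n := Nat.findGreatest_le n
  have h3 : Q (Nat.findGreatest Q n) := Nat.findGreatest_spec hn hQ1
  have h4 : ∀ k, Nat.findGreatest Q n < k → k ≤ n → ¬ Q k := fun k hk hkn =>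
    Nat.findGreatest_is_greatest hk hkn
  obtain ⟨j, hj⟩ : ∃ j, j = Nat.findGreatest Q n := ⟨_, rfl⟩
  rw [← hj] at h1 h2 h3 h4
  rw [hQ] at h3 h4
  obtain ⟨σ, hσ⟩ := h3
  refine ⟨j, σ, h1, h2, hσ, fun hjn τ => ?_⟩
  by_contra h5
  exact h4 (j + 1) (Nat.lt_succ_self j) hjn ⟨τ, h5⟩

end aux

theorem det_lt {n p : ℕ} (hp : p.Prime) (h5 : 5 ≤ p) {M : Type*} [AddCommGroup M] (hM : ∀ m : M, (p : ℤ) • m = 0)
    (ρ : Equiv.Perm (Fin n) →* AddMonoid.End M) (hR : R22 ρ) (h1 : 1 ≤ n) (hn : n < p) {m : M} (hm : m ≠ 0) :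
    ∃ (σ : Equiv.Perm (Fin n)) (j : ℕ), 1 ≤ j ∧ j ≤ n ∧ sA ρ (j - 1) (aA ρ j (ρ σ m)) ≠ 0 := by
  obtain ⟨j, σ, hj1, hjn, hσ, hmax⟩ := exists_max ρ h1 hm
  refine ⟨σ, j, hj1, hjn, ?_⟩
  obtain ⟨c, rfl⟩ : ∃ c, j = c + 1 := ⟨j - 1, by omega⟩
  rw [Nat.add_sub_cancel]
  rcases Nat.lt_or_ge (c + 1) n with hj | hj
  · refine main_lt hp h5 hM hR hj hn hσ fun τ => ?_
    rw [rr]
    exact hmax hj _
  · rw [sA_id ρ]
    · exact hσ
    · rw [card_sF (by omega)]
      have h2 : n - c = 1 := by omega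
      rw [h2, Nat.factorial_one]

theorem det_eq {p : ℕ} (hp : p.Prime) (h5 : 5 ≤ p) {M : Type*} [AddCommGroup M] (hM : ∀ m : M, (p : ℤ) • m = 0)
    (ρ : Equiv.Perm (Fin p) →* AddMonoid.End M) (hR : R22 ρ) {m : M} (hm : m ≠ 0) :
    ∃ (σ : Equiv.Perm (Fin p)) (j : ℕ), 1 ≤ j ∧ j < p ∧ sA ρ j (aA ρ j (ρ σ m)) ≠ 0 := by
  obtain ⟨j, σ, hj1, hjn, hσ, hmax⟩ := exists_max ρ hp.one_le hm
  rcases Nat.lt_or_ge (j + 1) p with hj | hj
  · refine ⟨σ, j, hj1, by omega, ?_⟩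
    obtain ⟨h1, -⟩ := core hp h5 hM hR hj1 (by omega) (by omega) (y := ρ σ m) fun τ => by
      rw [rr]
      exact hmax (by omega) _
    rw [h1]
    intro h2
    exact hσ (cancelM hp hM (nfact hp (by omega : p - j < p)) h2)
  · have h1 : aA ρ (p - 1) (ρ σ m) ≠ 0 := by
      rcases Nat.lt_or_ge j p with h2 | h2
      · have h3 : j = p - 1 := by omega
        rw [← h3]
        exact hσ
      · have h3 : j = p - 1 + 1 := by omega
        intro h4
        apply hσ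
        rw [h3, aA_succ ρ (by omega : p - 1 < p), h4, zero_sub, neg_eq_zero]
        refine Finset.sum_eq_zero fun t _ => ?_
        exact map_zero _
    refine ⟨σ, p - 1, by omega, by omega, ?_⟩
    rw [sA_id ρ]
    · exact h1
    · rw [card_sF (by omega)]
      have h2 : p - (p - 1) = 1 := by omega
      rw [h2, Nat.factorial_one]

end ADC
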