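import Pool.Agent.ADC.EJ

/-!
# ADC-Dst

`GP p k ≤ GP p k'` implies `k = k'`.
* `k` odd, `k'` even: `p • X 0 ∈ GP p k` (`GP_odd`), so `p • mw p ∈ GP p k'` (T-ideal), in `KG p k'` (`TK_sub`): `p² ∣ gB p k' (p • mw p) = p (p - k')` (all signs are 1), contradiction.
* `k` even, `k'` even, `k ≠ k'`: `b = k'/2`: `EJ p b ∈ GP p k` (`EJ_mem`: `k` even, `k ∉ {k'-1, k', k'+1}`), `∉ GP p k'`.
* `k'` odd: `k < k'`: `b = (k'+1)/2` (`2b = k' + 1 < p` since `k' ≠ p - 1`, `p` odd), `{k', k'+1, k'+2}`; `k > k'`: `b = (k'-1)/2`, `{k'-2, k'-1, k'}`.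
-/

namespace ADC

open AD ADN

private theorem ds_idx {p u : ℕ} (h : u < p) : (List.range p).idxOf u = u := by
  have h1 : u < (List.range p).length := by rwa [List.length_range]
  have h2 := List.Nodup.idxOf_getElem (List.nodup_range (n := p)) u h1
  rwa [List.getElem_range] at h2

private theorem ds_sgl {p : ℕ} (U : List ℕ) (hU : U.Pairwise (· < ·)) (hp : ∀ u ∈ U, u < p) :
    sgl (List.range p) U = 1 := by
  induction U with
  | nil => rfl
  | cons u U ih =>
    rw [List.pairwise_cons] at hU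
    show (U.map (fun v => bef (List.range p) u v)).prod * sgl (List.range p) U = 1
    rw [ih hU.2 (fun v hv => hp v (List.mem_cons_of_mem _ hv)), mul_one]
    refine List.prod_eq_one fun c hc => ?_
    obtain ⟨v, hv, rfl⟩ := List.mem_map.1 hc
    unfold bef
    rw [ds_idx (hp u List.mem_cons_self), ds_idx (hp v (List.mem_cons_of_mem _ hv)), if_pos (hU.1 v hv)]

private theorem ds_mw {p k : ℕ} (hk : k ≤ p) : gA k (mw p) = 1 ∧ gB p k (mw p) = (p : ℤ) - k := by
  constructor
  · unfold gA mw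
    rw [lm_mon]
    exact ds_sgl _ List.pairwise_lt_range (fun u hu => lt_of_lt_of_le (List.mem_range.1 hu) hk)
  · unfold gB mw
    rw [lm_mon, Finset.sum_congr rfl (g := fun _ => (1 : ℤ)), Finset.sum_const, Nat.card_Ico, nsmul_eq_mul,
      mul_one, Nat.cast_sub hk]
    intro s hs
    rw [Finset.mem_Ico] at hs
    refine ds_sgl _ ?_ ?_
    · rw [List.pairwise_append]
      refine ⟨List.pairwise_lt_range, List.pairwise_singleton _ _, fun a ha b hb => ?_⟩
      rw [List.mem_singleton.1 hb]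
      exact lt_of_lt_of_le (List.mem_range.1 ha) hs.1
    · intro u hu
      rcases List.mem_append.1 hu with hu | hu
      · exact lt_of_lt_of_le (List.mem_range.1 hu) hk
      · rw [List.mem_singleton.1 hu]
        exact hs.2

theorem GP_inj {p k k' : ℕ} (hp : p.Prime) (h5 : 5 ≤ p) (h1 : 1 ≤ k) (hk : k < p) (h1' : 1 ≤ k') (hk' : k' < p)
    (h : GP p k ≤ GP p k') : k = k' := by
  by_contra hne
  have hodd : p % 2 = 1 := (hp.eq_two_or_odd).resolve_left (by omega)
  rcases Nat.mod_two_eq_zero_or_one k' with e' | e'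
  · rcases Nat.mod_two_eq_zero_or_one k with e | e
    · refine EJ_not hp h5 (b := k' / 2) (k := k') (by omega) h1' hk' (Or.inr (Or.inl (by omega))) (h ?_)
      exact EJ_mem (by omega) h1 hk (by omega) (by omega) (by omega)
    · have hM : mw p ∈ Ml p := Ml_mon (List.Perm.refl _)
      have hpp : 1 ≤ p := by omega
      have a1 := h (GP_odd hpp e (mw p) (Ml_Pp hpp hM))
      have a2 := TK_sub hpp (KG_add p k') a1 (Submodule.smul_mem _ _ hM)
      have a3 := (a2 1).2
      rw [rn_one, map_zsmul, (ds_mw hk'.le).2, smul_eq_mul, e', Nat.sub_zero, pow_two] at a3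
      have a4 := Int.dvd_of_mul_dvd_mul_left (by exact_mod_cast hp.ne_zero) a3
      have a5 : (p : ℤ) ∣ (k' : ℤ) := by
        have := dvd_sub (dvd_refl (p : ℤ)) a4
        rwa [sub_sub_cancel] at this
      have a6 := Nat.le_of_dvd (by omega) (Int.natCast_dvd_natCast.1 a5)
      omega
  · rcases Nat.lt_or_gt_of_ne hne with hlt | hgt
    · refine EJ_not hp h5 (b := (k' + 1) / 2) (k := k') (by omega) h1' hk' (Or.inl (by omega)) (h ?_)
      exact EJ_mem (by omega) h1 hk (by omega) (by omega) (by omega)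
    · refine EJ_not hp h5 (b := (k' - 1) / 2) (k := k') (by omega) h1' hk' (Or.inr (Or.inr (by omega))) (h ?_)
      exact EJ_mem (by omega) h1 hk (by omega) (by omega) (by omega)

theorem gB_mw {p k : ℕ} (hk : k ≤ p) : gA k (mw p) = 1 ∧ gB p k (mw p) = (p : ℤ) - k := by
  exact ds_mw hk

end ADC
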