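import Pool.Agent.ADC.EDf

/-!
# ADC-EC: commutators in the exterior algebra are central
-/

namespace ADC

open AD ADN

private def ecZ (z : EA) : Prop := ∀ w : ℕ →₀ ℤ, z * ExteriorAlgebra.ι ℤ w = ExteriorAlgebra.ι ℤ w * z

private def ecO (z : EA) : Prop := ∀ w : ℕ →₀ ℤ, z * ExteriorAlgebra.ι ℤ w = - (ExteriorAlgebra.ι ℤ w * z)

private theorem ec_central {z : EA} (hz : ecZ z) (c : EA) : z * c = c * z := by
  induction c using ExteriorAlgebra.induction with
  | algebraMap r => exact (Algebra.commutes r z).symm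
  | ι x => exact hz x
  | mul a b ha hb => rw [← mul_assoc, ha, mul_assoc, hb, mul_assoc]
  | add a b ha hb => rw [mul_add, add_mul, ha, hb]

private theorem ec_ZZ {x y : EA} (hx : ecZ x) (hy : ecZ y) : ecZ (x * y) := by
  intro w
  rw [mul_assoc, hy w, ← mul_assoc, hx w, mul_assoc]

private theorem ec_OO {x y : EA} (hx : ecO x) (hy : ecO y) : ecZ (x * y) := by
  intro w
  rw [mul_assoc, hy w, mul_neg, ← mul_assoc, hx w, neg_mul, neg_neg, mul_assoc]

private theorem ec_ZO {x y : EA} (hx : ecZ x) (hy : ecO y) : ecO (x * y) := by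
  intro w
  rw [mul_assoc, hy w, mul_neg, ← mul_assoc, hx w, mul_assoc]

private theorem ec_OZ {x y : EA} (hx : ecO x) (hy : ecZ y) : ecO (x * y) := by
  intro w
  rw [mul_assoc, hy w, ← mul_assoc, hx w, neg_mul, mul_assoc]

private theorem ec_Zadd {x y : EA} (hx : ecZ x) (hy : ecZ y) : ecZ (x + y) := by
  intro w
  rw [add_mul, mul_add, hx w, hy w]

private theorem ec_Zsub {x y : EA} (hx : ecZ x) (hy : ecZ y) : ecZ (x - y) := by
  intro w
  rw [sub_mul, mul_sub, hx w, hy w]

private theorem ec_Oadd {x y : EA} (hx : ecO x) (hy : ecO y) : ecO (x + y) := by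
  intro w
  rw [add_mul, mul_add, hx w, hy w, neg_add]

private theorem ec_dec (a : EA) : ∃ z o : EA, ecZ z ∧ ecO o ∧ a = z + o := by
  induction a using ExteriorAlgebra.induction with
  | algebraMap r =>
    refine ⟨algebraMap ℤ EA r, 0, fun w => Algebra.commutes r _, fun w => ?_, (add_zero _).symm⟩
    rw [zero_mul, mul_zero, neg_zero]
  | ι x =>
    refine ⟨0, ExteriorAlgebra.ι ℤ x, fun w => ?_, fun w => ?_, (zero_add _).symm⟩
    · rw [zero_mul, mul_zero]
    · exact eq_neg_of_add_eq_zero_left (ExteriorAlgebra.ι_add_mul_swap x w)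
  | mul a b ha hb =>
    obtain ⟨z, o, hz, ho, rfl⟩ := ha
    obtain ⟨z', o', hz', ho', rfl⟩ := hb
    refine ⟨z * z' + o * o', z * o' + o * z', ec_Zadd (ec_ZZ hz hz') (ec_OO ho ho'),
      ec_Oadd (ec_ZO hz ho') (ec_OZ ho hz'), ?_⟩
    rw [add_mul, mul_add, mul_add]
    abel
  | add a b ha hb =>
    obtain ⟨z, o, hz, ho, rfl⟩ := ha
    obtain ⟨z', o', hz', ho', rfl⟩ := hb
    exact ⟨z + z', o + o', ec_Zadd hz hz', ec_Oadd ho ho', by abel⟩

theorem comm_central (a b c : EA) : (a * b - b * a) * c = c * (a * b - b * a) := by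
  obtain ⟨z, o, hz, ho, rfl⟩ := ec_dec a
  obtain ⟨z', o', hz', ho', rfl⟩ := ec_dec b
  have h1 : z * (z' + o') = (z' + o') * z := ec_central hz _
  have h2 : z' * o = o * z' := ec_central hz' _
  have h3 : (z + o) * (z' + o') - (z' + o') * (z + o) = o * o' - o' * o := by
    rw [add_mul z o, mul_add (z' + o') z o, h1, mul_add o, add_mul z' o' o, h2]
    abel
  rw [h3]
  exact ec_central (ec_Zsub (ec_OO ho ho') (ec_OO ho' ho)) c

end ADC
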