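import Pool.Agent.ADC.Bas

/-!
# ADC-EDf

The exterior algebra `EA` over `ℤ` with generators `ee i`, the homomorphism `ev : x_i ↦ 1 + e_i`, contractions,
coefficients; Jordan products and products of commutators.
-/

namespace ADC

open AD ADN

/-- the exterior algebra -/
abbrev EA : Type := ExteriorAlgebra ℤ (ℕ →₀ ℤ)

/-- its generators -/
noncomputable def ee (i : ℕ) : EA := ExteriorAlgebra.ι ℤ (Finsupp.single i (1 : ℤ))

/-- the homomorphism `x_i ↦ 1 + e_i` -/
noncomputable def ev : P →ₐ[ℤ] EA := FreeAlgebra.lift ℤ (fun i => 1 + ee i)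

/-- contraction by the `u`-th coordinate -/
noncomputable def ct (u : ℕ) : EA →ₗ[ℤ] EA :=
  CliffordAlgebra.contractLeft (Q := (0 : QuadraticForm ℤ (ℕ →₀ ℤ))) (Finsupp.lapply u)

/-- contraction by the sum of the first `n` coordinates -/
noncomputable def ctd (n : ℕ) : EA →ₗ[ℤ] EA := ∑ s ∈ Finset.range n, ct s

/-- the coefficient of `e_{u_1} ⋯ e_{u_k}` -/
noncomputable def ph : List ℕ → EA →ₗ[ℤ] ℤ
  | [] => (ExteriorAlgebra.algebraMapInv (R := ℤ) (M := ℕ →₀ ℤ)).toLinearMap
  | u :: U => (ph U).comp (ct u)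

/-- the homogeneous elements of degree `m` -/
noncomputable def Hd (m : ℕ) : Submodule ℤ EA :=
  Submodule.span ℤ {x | ∃ L : List ℕ, L.length = m ∧ x = (L.map ee).prod}

/-- the product `((x_{l_0} ∘ x_{l_1}) ∘ x_{l_2}) ∘ ⋯`, `x ∘ y = xy + yx` -/
noncomputable def JP : List ℕ → P
  | [] => 1
  | a :: L => L.foldl (fun f x => f * X x + X x * f) (X a)

/-- the product of the commutators of consecutive pairs of letters -/
noncomputable def CL : List ℕ → P
  | a :: b :: L => cm a b * CL L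
  | _ => 1

theorem ee_sq (i : ℕ) : ee i * ee i = 0 := by
  exact ExteriorAlgebra.ι_sq_zero _

theorem ee_anti (i j : ℕ) : ee i * ee j = - (ee j * ee i) := by
  exact eq_neg_of_add_eq_zero_left (ExteriorAlgebra.ι_add_mul_swap _ _)

theorem ev_X (i : ℕ) : ev (X i) = 1 + ee i := by
  exact FreeAlgebra.lift_ι_apply _ _

theorem ev_cm (i j : ℕ) : ev (cm i j) = (2 : ℤ) • (ee i * ee j) := by
  unfold cm
  rw [map_sub, map_mul, map_mul, ev_X, ev_X, two_smul]
  have h := ee_anti j i
  calc (1 + ee i) * (1 + ee j) - (1 + ee j) * (1 + ee i) = ee i * ee j - ee j * ee i := by noncomm_ring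
    _ = ee i * ee j + ee i * ee j := by rw [h, sub_neg_eq_add]

theorem ct_mul (u i : ℕ) (x : EA) : ct u (ee i * x) = (if i = u then x else 0) - ee i * ct u x := by
  have h : ct u (ee i * x) = (Finsupp.lapply u : (ℕ →₀ ℤ) →ₗ[ℤ] ℤ) (Finsupp.single i (1 : ℤ)) • x - ee i * ct u x :=
    CliffordAlgebra.contractLeft_ι_mul _ _ _
  rw [h]
  congr 1
  rw [Finsupp.lapply_apply, Finsupp.single_apply]
  split_ifs
  · rw [one_smul]
  · rw [zero_smul]

theorem ct_one (u : ℕ) : ct u 1 = 0 := by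
  exact CliffordAlgebra.contractLeft_one (0 : QuadraticForm ℤ (ℕ →₀ ℤ)) (Finsupp.lapply u)

theorem ct_ct (u v : ℕ) (x : EA) : ct u (ct v x) = - ct v (ct u x) := by
  exact CliffordAlgebra.contractLeft_comm _ _ _

theorem ct_sq (u : ℕ) (x : EA) : ct u (ct u x) = 0 := by
  exact CliffordAlgebra.contractLeft_contractLeft _ _

theorem ph_nil (x : EA) : ph [] (1 : EA) = 1 ∧ ∀ i, ph [] (ee i * x) = 0 := by
  refine ⟨map_one (ExteriorAlgebra.algebraMapInv (R := ℤ) (M := ℕ →₀ ℤ)), fun i => ?_⟩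
  show ExteriorAlgebra.algebraMapInv (ee i * x) = 0
  rw [map_mul]
  have h : ExteriorAlgebra.algebraMapInv (ee i) = (0 : ℤ) := by
    unfold ee ExteriorAlgebra.algebraMapInv
    rw [ExteriorAlgebra.lift_ι_apply]
    rfl
  rw [h, zero_mul]

theorem ph_cons (u : ℕ) (U : List ℕ) (x : EA) : ph (u :: U) x = ph U (ct u x) := rfl

theorem ph_snoc (U : List ℕ) (s : ℕ) (x : EA) : ph (U ++ [s]) x = (-1 : ℤ) ^ U.length * ph U (ct s x) := by
  induction U generalizing x with
  | nil => rw [List.nil_append, ph_cons, List.length_nil, pow_zero, one_mul]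
  | cons u U ih =>
    rw [List.cons_append, ph_cons, ph_cons, ih, ct_ct s u, map_neg, List.length_cons, pow_succ]
    ring

theorem ph_twice {U : List ℕ} {s : ℕ} (h : s ∈ U) (x : EA) : ph U (ct s x) = 0 := by
  induction U generalizing x with
  | nil => exact absurd h (List.not_mem_nil)
  | cons u U ih =>
    rw [ph_cons]
    rcases List.mem_cons.1 h with h1 | h1
    · rw [← h1, ct_sq, map_zero]
    · rw [ct_ct u s, map_neg, ih h1, neg_zero]

end ADC
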