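import Pool.Agent.ADC.EPh

/-!
# ADC-EFn

`gA`, `gB` in terms of the exterior algebra.
-/

namespace ADC

open AD ADN

private theorem ef_inv (n : ℕ) (σ : Equiv.Perm (Fin n)) (i : ℕ) : pN n σ (pN n σ⁻¹ i) = i := by
  unfold pN
  by_cases h : i < n
  · rw [dif_pos h, dif_pos (σ⁻¹ ⟨i, h⟩).2]
    simp
  · rw [dif_neg h, dif_neg h]

private theorem ef_map {n : ℕ} (σ : Equiv.Perm (Fin n)) (L : List ℕ) :
    (L.map (pN n σ⁻¹)).map (pN n σ) = L := by
  rw [List.map_map]
  conv_rhs => rw [← List.map_id L]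
  exact List.map_congr_left fun i _ => ef_inv n σ i

private theorem ef_sgl {n : ℕ} (σ : Equiv.Perm (Fin n)) {w : List ℕ} (hw : w.Perm (List.range n))
    {L : List ℕ} (hL : L.Nodup) (hn : ∀ i ∈ L, i < n) :
    sgl (w.map (pN n σ)) L = ph (L.map (pN n σ⁻¹)) (ev (mon w)) := by
  have h1 : sgl (w.map (pN n σ)) L = sgl w (L.map (pN n σ⁻¹)) := by
    conv_lhs => rw [← ef_map σ L]
    exact sgl_map (pN_inj n σ) w _
  rw [h1, ph_mon (hw.nodup_iff.2 List.nodup_range) (hL.map (pN_inj n σ⁻¹))]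
  intro u hu
  obtain ⟨i, hi, rfl⟩ := List.mem_map.1 hu
  exact hw.mem_iff.2 (List.mem_range.2 (pN_lt σ⁻¹ (hn i hi)))

theorem gA_ph {n k : ℕ} (hk : k ≤ n) (σ : Equiv.Perm (Fin n)) {f : P} (hf : f ∈ Ml n) :
    gA k (rn n σ f) = ph ((List.range k).map (pN n σ⁻¹)) (ev f) := by
  refine Ml_ind (C := fun f => gA k (rn n σ f) = ph ((List.range k).map (pN n σ⁻¹)) (ev f))
    (by simp) ?_ ?_ ?_ hf
  · intro f g hf hg
    simp only [map_add, hf, hg]
  · intro c f hf
    simp only [map_zsmul, hf]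
  · intro w hw
    simp only [rn_mon, gA_mon]
    exact ef_sgl σ hw List.nodup_range fun i hi => (List.mem_range.1 hi).trans_le hk

theorem gB_ph {n k : ℕ} (hk : k ≤ n) (σ : Equiv.Perm (Fin n)) {f : P} (hf : f ∈ Ml n) :
    gB n k (rn n σ f) = (-1 : ℤ) ^ k * ph ((List.range k).map (pN n σ⁻¹)) (ctd n (ev f)) := by
  refine Ml_ind (C := fun f => gB n k (rn n σ f) =
    (-1 : ℤ) ^ k * ph ((List.range k).map (pN n σ⁻¹)) (ctd n (ev f))) (by simp) ?_ ?_ ?_ hf
  · intro f g hf hg
    simp only [map_add, hf, hg, mul_add]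
  · intro c f hf
    simp only [map_zsmul, hf, smul_eq_mul]
    ring
  · intro w hw
    simp only [rn_mon, gB_mon]
    set x := ev (mon w) with hx
    set U := (List.range k).map (pN n σ⁻¹) with hU
    have h1 : ∀ s ∈ Finset.Ico k n, sgl (w.map (pN n σ)) (List.range k ++ [s]) =
        (-1 : ℤ) ^ k * ph U (ct (pN n σ⁻¹ s) x) := by
      intro s hs
      rw [Finset.mem_Ico] at hs
      rw [ef_sgl σ hw (L := List.range k ++ [s]), List.map_append, List.map_cons, List.map_nil,
        ph_snoc, hU, List.length_map, List.length_range]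
      · rw [List.nodup_append]
        refine ⟨List.nodup_range, by simp, ?_⟩
        intro a ha b hb hab
        rw [List.mem_range] at ha
        rw [List.mem_singleton] at hb
        omega
      · intro i hi
        rw [List.mem_append, List.mem_range, List.mem_singleton] at hi
        omega
    rw [Finset.sum_congr rfl h1, ← Finset.mul_sum]
    congr 1
    have h2 : ctd n x = ∑ s ∈ Finset.range n, ct (pN n σ⁻¹ s) x := by
      unfold ctd
      rw [LinearMap.sum_apply]
      symm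
      refine Finset.sum_bij (fun s _ => pN n σ⁻¹ s) ?_ ?_ ?_ ?_
      · intro s hs
        exact Finset.mem_range.2 (pN_lt σ⁻¹ (Finset.mem_range.1 hs))
      · intro a _ b _ h
        exact pN_inj n σ⁻¹ h
      · intro b hb
        refine ⟨pN n σ b, Finset.mem_range.2 (pN_lt σ (Finset.mem_range.1 hb)), ?_⟩
        have := ef_inv n σ⁻¹ b
        rwa [inv_inv] at this
      · intro s _
        rfl
    rw [h2, map_sum, Finset.range_eq_Ico, ← Finset.sum_Ico_consecutive _ (Nat.zero_le k) hk]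
    have h3 : ∑ s ∈ Finset.Ico 0 k, ph U (ct (pN n σ⁻¹ s) x) = 0 := by
      refine Finset.sum_eq_zero fun s hs => ph_twice ?_ x
      rw [Finset.mem_Ico] at hs
      exact List.mem_map.2 ⟨s, List.mem_range.2 hs.2, rfl⟩
    rw [h3, zero_add]

end ADC
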