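import Pool.Agent.ADC.EDf

/-!
# ADC-EHd: the exterior algebra, degrees: `Hd m` is the span of the products of `m` generators
-/

namespace ADC

open AD ADN

private theorem eh_mul {a b : ℕ} {x y : EA} (hx : x ∈ Hd a) (hy : y ∈ Hd b) : x * y ∈ Hd (a + b) := by
  unfold Hd at hx
  induction hx using Submodule.span_induction with
  | mem x hx =>
    obtain ⟨L, hL, rfl⟩ := hx
    unfold Hd at hy
    induction hy using Submodule.span_induction with
    | mem y hy =>
      obtain ⟨L', hL', rfl⟩ := hy
      refine Submodule.subset_span ⟨L ++ L', ?_, ?_⟩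
      · rw [List.length_append, hL, hL']
      · rw [List.map_append, List.prod_append]
    | zero => rw [mul_zero]; exact Submodule.zero_mem _
    | add y z _ _ hy hz => rw [mul_add]; exact Submodule.add_mem _ hy hz
    | smul c y _ hy => rw [mul_smul_comm]; exact Submodule.smul_mem _ _ hy
  | zero => rw [zero_mul]; exact Submodule.zero_mem _
  | add y z _ _ hy hz => rw [add_mul]; exact Submodule.add_mem _ hy hz
  | smul c y _ hy => rw [smul_mul_assoc]; exact Submodule.smul_mem _ _ hy

private theorem eh_ee (i : ℕ) : ee i ∈ Hd 1 := Submodule.subset_span ⟨[i], rfl, by simp⟩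

private theorem eh_ind {m : ℕ} {C : EA → Prop} (h0 : C 0) (ha : ∀ f g, C f → C g → C (f + g))
    (hs : ∀ (c : ℤ) f, C f → C (c • f)) (hm : ∀ L : List ℕ, L.length = m → C ((L.map ee).prod)) {x : EA}
    (hx : x ∈ Hd m) : C x := by
  unfold Hd at hx
  induction hx using Submodule.span_induction with
  | mem x hx => obtain ⟨L, hL, rfl⟩ := hx; exact hm L hL
  | zero => exact h0
  | add x y _ _ hx hy => exact ha x y hx hy
  | smul c x _ hx => exact hs c x hx

private theorem eh_ct (u : ℕ) : ∀ (L : List ℕ) (m : ℕ), L.length = m + 1 → ct u ((L.map ee).prod) ∈ Hd m := by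
  intro L
  induction L with
  | nil => intro m h; simp at h
  | cons a L ih =>
    intro m h
    rw [List.length_cons] at h
    have hm : L.length = m := by omega
    rw [List.map_cons, List.prod_cons, ct_mul]
    refine Submodule.sub_mem _ ?_ ?_
    · split_ifs
      · exact Submodule.subset_span ⟨L, hm, rfl⟩
      · exact Submodule.zero_mem _
    · rcases Nat.eq_zero_or_pos m with h0 | h0
      · have hL : L = [] := List.eq_nil_of_length_eq_zero (by omega)
        rw [hL, List.map_nil, List.prod_nil, ct_one, mul_zero]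
        exact Submodule.zero_mem _
      · obtain ⟨m', rfl⟩ : ∃ m', m = m' + 1 := ⟨m - 1, by omega⟩
        have h1 := eh_mul (eh_ee a) (ih m' hm)
        rwa [add_comm] at h1

private theorem eh_notMem {u : ℕ} : ∀ L : List ℕ, u ∉ L → ct u ((L.map ee).prod) = 0 := by
  intro L
  induction L with
  | nil => intro _; rw [List.map_nil, List.prod_nil, ct_one]
  | cons a L ih =>
    intro h
    rw [List.mem_cons, not_or] at h
    rw [List.map_cons, List.prod_cons, ct_mul, if_neg (fun h' => h.1 h'.symm), ih h.2, mul_zero, sub_zero]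

private theorem eh_kill {u : ℕ} : ∀ (U : List ℕ) (x : EA), u ∈ U → ct u x = 0 → ph U x = 0 := by
  intro U
  induction U with
  | nil => intro x h; exact absurd h List.not_mem_nil
  | cons v U ih =>
    intro x h hx
    rw [ph_cons]
    rcases List.mem_cons.1 h with h1 | h1
    · rw [← h1, hx, map_zero]
    · exact ih _ h1 (by rw [ct_ct, hx, map_zero, neg_zero])

private theorem eh_ctd (n a : ℕ) (x : EA) : ctd n (ee a * x) = (if a < n then x else 0) - ee a * ctd n x := by
  unfold ctd
  rw [LinearMap.sum_apply, LinearMap.sum_apply, Finset.sum_congr rfl (fun s _ => ct_mul s a x), Finset.sum_sub_distrib,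
    Finset.mul_sum, Finset.sum_ite_eq]
  congr 1
  exact if_congr Finset.mem_range rfl rfl

private theorem eh_ctd_one (n : ℕ) : ctd n (1 : EA) = 0 := by
  unfold ctd
  rw [LinearMap.sum_apply]
  exact Finset.sum_eq_zero fun s _ => ct_one s

private theorem eh_lei (n : ℕ) {m : ℕ} {x : EA} (hx : x ∈ Hd m) (y : EA) :
    ctd n (x * y) = ctd n x * y + (-1 : ℤ) ^ m • (x * ctd n y) := by
  refine eh_ind (C := fun x => ctd n (x * y) = ctd n x * y + (-1 : ℤ) ^ m • (x * ctd n y)) ?_ ?_ ?_ ?_ hx
  · simp
  · intro f g hf hg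
    rw [add_mul, map_add, hf, hg, map_add, add_mul, add_mul, smul_add]
    abel
  · intro c f hf
    rw [smul_mul_assoc, map_smul, hf, map_smul, smul_mul_assoc, smul_mul_assoc, smul_add, smul_comm c]
  · intro L
    clear hx
    induction L generalizing m with
    | nil =>
      intro h
      rw [← h]
      simp [eh_ctd_one]
    | cons a L ih =>
      intro h
      rw [List.length_cons] at h
      have h1 := ih (m := L.length) rfl
      rw [← h, List.map_cons, List.prod_cons, mul_assoc, eh_ctd, h1, eh_ctd, pow_succ, mul_neg_one, neg_smul, mul_add,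
        sub_mul, mul_smul_comm, mul_assoc, mul_assoc]
      split_ifs
      · abel
      · rw [zero_mul]
        abel

theorem Hd_one : (1 : EA) ∈ Hd 0 := by
  exact Submodule.subset_span ⟨[], rfl, by simp⟩

theorem Hd_ee (i : ℕ) : ee i ∈ Hd 1 := by
  exact eh_ee i

theorem Hd_mul {a b : ℕ} {x y : EA} (hx : x ∈ Hd a) (hy : y ∈ Hd b) : x * y ∈ Hd (a + b) := by
  exact eh_mul hx hy

theorem Hd_ct {m : ℕ} {x : EA} (hx : x ∈ Hd (m + 1)) (u : ℕ) : ct u x ∈ Hd m := by
  refine eh_ind (C := fun x => ct u x ∈ Hd m) ?_ ?_ ?_ ?_ hx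
  · rw [map_zero]
    exact Submodule.zero_mem _
  · intro f g hf hg
    rw [map_add]
    exact Submodule.add_mem _ hf hg
  · intro c f hf
    rw [map_smul]
    exact Submodule.smul_mem _ _ hf
  · intro L hL
    exact eh_ct u L m hL

theorem Hd_ct0 {x : EA} (hx : x ∈ Hd 0) (u : ℕ) : ct u x = 0 := by
  refine eh_ind (C := fun x => ct u x = 0) ?_ ?_ ?_ ?_ hx
  · rw [map_zero]
  · intro f g hf hg
    rw [map_add, hf, hg, add_zero]
  · intro c f hf
    rw [map_smul, hf, smul_zero]
  · intro L hL
    rw [List.eq_nil_of_length_eq_zero hL, List.map_nil, List.prod_nil, ct_one]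

theorem Hd_ctd {m : ℕ} {x : EA} (hx : x ∈ Hd (m + 1)) (n : ℕ) : ctd n x ∈ Hd m := by
  unfold ctd
  rw [LinearMap.sum_apply]
  exact Submodule.sum_mem _ fun s _ => Hd_ct hx s

theorem ph_Hd {m : ℕ} {x : EA} (hx : x ∈ Hd m) {U : List ℕ} (h : U.length ≠ m) : ph U x = 0 := by
  induction U generalizing m x with
  | nil =>
    obtain ⟨m', rfl⟩ : ∃ m', m = m' + 1 := ⟨m - 1, by rw [List.length_nil] at h; omega⟩
    refine eh_ind (C := fun x => ph [] x = 0) ?_ ?_ ?_ ?_ hx
    · rw [map_zero]
    · intro f g hf hg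
      rw [map_add, hf, hg, add_zero]
    · intro c f hf
      rw [map_smul, hf, smul_zero]
    · intro L hL
      obtain ⟨a, L', rfl⟩ := List.exists_cons_of_length_eq_add_one hL
      rw [List.map_cons, List.prod_cons]
      exact (ph_nil _).2 a
  | cons u U ih =>
    rw [ph_cons]
    rcases Nat.eq_zero_or_pos m with h0 | h0
    · rw [h0] at hx
      rw [Hd_ct0 hx u, map_zero]
    · obtain ⟨m', rfl⟩ : ∃ m', m = m' + 1 := ⟨m - 1, by omega⟩
      refine ih (Hd_ct hx u) fun h' => h ?_
      rw [List.length_cons, h']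

theorem ph_self {U : List ℕ} (h : U.Nodup) : ph U ((U.map ee).prod) = 1 := by
  induction U with
  | nil => exact (ph_nil 1).1
  | cons u U ih =>
    rw [List.nodup_cons] at h
    rw [ph_cons, List.map_cons, List.prod_cons, ct_mul, if_pos rfl, eh_notMem U h.1, mul_zero, sub_zero]
    exact ih h.2

theorem ph_zero {U L : List ℕ} {u : ℕ} (hu : u ∈ U) (hL : u ∉ L) : ph U ((L.map ee).prod) = 0 := by
  exact eh_kill U _ hu (eh_notMem L hL)

theorem ctd_prod {n : ℕ} {L : List ℕ} (hL : ∀ l ∈ L, l < n) (hn : L.Nodup) :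
    ctd n ((L.map ee).prod) = ∑ i ∈ Finset.range L.length, (-1 : ℤ) ^ i • ((L.eraseIdx i).map ee).prod := by
  induction L with
  | nil => rw [List.map_nil, List.prod_nil, eh_ctd_one, List.length_nil, Finset.range_zero, Finset.sum_empty]
  | cons a L ih =>
    rw [List.map_cons, List.prod_cons, eh_ctd, if_pos (hL a (by simp)), ih (fun l hl => hL l (List.mem_cons_of_mem _ hl))
        (List.nodup_cons.1 hn).2, List.length_cons, Finset.sum_range_succ', Finset.mul_sum]
    simp only [List.eraseIdx_cons_succ, List.eraseIdx_cons_zero, List.map_cons, List.prod_cons, pow_zero, one_smul,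
      pow_succ, mul_neg_one, neg_smul, mul_smul_comm]
    rw [Finset.sum_neg_distrib]
    abel

theorem ctd_mul {n m : ℕ} {x : EA} (hx : x ∈ Hd m) {L : List ℕ} (hL : ∀ l ∈ L, l < n) :
    ctd n (x * (L.map ee).sum) = ctd n x * (L.map ee).sum + ((-1 : ℤ) ^ m * L.length) • x := by
  rw [eh_lei n hx]
  have h : ctd n (L.map ee).sum = (L.length : ℤ) • (1 : EA) := by
    induction L with
    | nil => simp
    | cons a L ih =>
      have h1 := eh_ctd n a 1
      rw [mul_one, if_pos (hL a (by simp)), eh_ctd_one, mul_zero, sub_zero] at h1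
      rw [List.map_cons, List.sum_cons, map_add, h1, ih (fun l hl => hL l (List.mem_cons_of_mem _ hl)), List.length_cons]
      push_cast
      rw [add_smul, one_smul, add_comm]
  rw [h, mul_smul_comm, mul_one, smul_smul]

end ADC
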