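import Pool.Agent.ADC.TKb

/-!
# ADC-KGs

`KG p k` and `KW p` are additive subgroups invariant under renaming, and the T-ideals `GP`, `WP`.
-/

namespace ADC

open AD ADN

theorem KG_add (p k : ℕ) : AddS (KG p k) := by
  refine ⟨fun σ => ?_, fun f hf g hg σ => ?_, fun f hf σ => ?_⟩
  · rw [map_zero, map_zero, map_zero]
    exact ⟨dvd_zero _, dvd_zero _⟩
  · rw [map_add, map_add, map_add]
    exact ⟨dvd_add (hf σ).1 (hg σ).1, dvd_add (hf σ).2 (hg σ).2⟩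
  · rw [map_neg, map_neg, map_neg]
    exact ⟨(dvd_neg.2 (hf σ).1), (dvd_neg.2 (hf σ).2)⟩

theorem KG_rn {p k : ℕ} {g : P} (h : g ∈ KG p k) (σ : Equiv.Perm (Fin p)) : rn p σ g ∈ KG p k := by
  intro σ'
  rw [rn_rn]
  exact h (σ' * σ)

private theorem cf_zero' (w : List ℕ) : cf w (0 : P) = 0 := by
  have h := cf_smul w 0 (0 : P)
  rwa [zero_smul, zero_mul] at h

private theorem cf_neg' (w : List ℕ) (f : P) : cf w (-f) = - cf w f := by
  have h := cf_smul w (-1) f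
  rwa [neg_one_smul, neg_one_mul] at h

theorem KW_add (p : ℕ) : AddS (KW p) := by
  refine ⟨?_, fun f hf g hg => ?_, fun f hf => ?_⟩
  · show _ ∧ _ ∧ _ ∧ _
    simp only [cf_zero', sub_zero]
    exact ⟨dvd_zero _, dvd_zero _, dvd_zero _, dvd_zero _⟩
  · obtain ⟨a1, a2, a3, a4⟩ := hf
    obtain ⟨b1, b2, b3, b4⟩ := hg
    show _ ∧ _ ∧ _ ∧ _
    simp only [cf_add, add_sub_add_comm]
    exact ⟨dvd_add a1 b1, dvd_add a2 b2, dvd_add a3 b3, dvd_add a4 b4⟩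
  · obtain ⟨a1, a2, a3, a4⟩ := hf
    show _ ∧ _ ∧ _ ∧ _
    simp only [cf_neg', ← neg_sub']
    exact ⟨dvd_neg.2 a1, dvd_neg.2 a2, dvd_neg.2 a3, dvd_neg.2 a4⟩

private theorem cf_rn' {n : ℕ} (σ : Equiv.Perm (Fin n)) (w : List ℕ) (g : P) :
    cf (w.map (pN n σ)) (rn n σ g) = cf w g := by
  refine ind_mon (C := fun g => cf (w.map (pN n σ)) (rn n σ g) = cf w g) ?_ ?_ ?_ ?_ g
  · show cf _ (rn n σ 0) = cf w 0
    rw [map_zero, cf_zero', cf_zero']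
  · intro f g hf hg
    rw [map_add, cf_add, cf_add, hf, hg]
  · intro c f hf
    rw [map_zsmul, cf_smul, cf_smul, hf]
  · intro u
    rw [rn_mon, cf_mon, cf_mon]
    by_cases h : u = w
    · rw [if_pos h, if_pos (by rw [h])]
    · rw [if_neg h, if_neg fun h' => h (List.map_injective_iff.2 (pN_inj n σ) h')]

private theorem pN_inv {n : ℕ} (σ : Equiv.Perm (Fin n)) (i : ℕ) : pN n σ (pN n σ⁻¹ i) = i := by
  unfold pN
  by_cases h : i < n
  · rw [dif_pos h, dif_pos (σ⁻¹ ⟨i, h⟩).2]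
    simp
  · rw [dif_neg h, dif_neg h]

private theorem cf_rn {n : ℕ} (σ : Equiv.Perm (Fin n)) (w : List ℕ) (g : P) :
    cf w (rn n σ g) = cf (w.map (pN n σ⁻¹)) g := by
  have h := cf_rn' σ (w.map (pN n σ⁻¹)) g
  rw [List.map_map] at h
  have h1 : pN n σ ∘ pN n σ⁻¹ = id := funext fun i => pN_inv σ i
  rwa [h1, List.map_id] at h

private theorem words3 (τ : Equiv.Perm (Fin 3)) :
    ([0,1,2].map (pN 3 τ), [1,2,0].map (pN 3 τ), [2,0,1].map (pN 3 τ),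
      [1,0,2].map (pN 3 τ), [0,2,1].map (pN 3 τ), [2,1,0].map (pN 3 τ)) ∈
    ([([0,1,2],[1,2,0],[2,0,1],[1,0,2],[0,2,1],[2,1,0]),
      ([1,2,0],[2,0,1],[0,1,2],[2,1,0],[1,0,2],[0,2,1]),
      ([2,0,1],[0,1,2],[1,2,0],[0,2,1],[2,1,0],[1,0,2]),
      ([1,0,2],[0,2,1],[2,1,0],[0,1,2],[1,2,0],[2,0,1]),
      ([0,2,1],[2,1,0],[1,0,2],[2,0,1],[0,1,2],[1,2,0]),
      ([2,1,0],[1,0,2],[0,2,1],[1,2,0],[2,0,1],[0,1,2])] :
      List (List ℕ × List ℕ × List ℕ × List ℕ × List ℕ × List ℕ)) := by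
  revert τ
  decide

theorem KW_rn {p : ℕ} {g : P} (hg : g ∈ Ml 3) (h : g ∈ KW p) (σ : Equiv.Perm (Fin 3)) : rn 3 σ g ∈ KW p := by
  have key : ∀ a b : ℤ, (p : ℤ) ∣ a - b ↔ (a : ZMod p) = (b : ZMod p) := by
    intro a b
    rw [eq_comm, ZMod.intCast_eq_intCast_iff_dvd_sub]
  obtain ⟨a1, a2, a3, a4⟩ := h
  rw [key] at a1 a2 a3 a4
  show _ ∧ _ ∧ _ ∧ _
  rw [key, key, key, key, cf_rn, cf_rn, cf_rn, cf_rn, cf_rn, cf_rn]
  have h1 := words3 σ⁻¹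
  simp only [List.mem_cons, List.not_mem_nil, or_false, Prod.mk.injEq] at h1
  rcases h1 with h1 | h1 | h1 | h1 | h1 | h1 <;>
  · obtain ⟨e1, e2, e3, e4, e5, e6⟩ := h1
    rw [e1, e2, e3, e4, e5, e6]
    simp only [← a1, ← a2, ← a3, ← a4, and_self]

private theorem mulTK {n : ℕ} {K : Set P} (c : ℤ) (h : ∀ f : P, c • f ∈ K) : Mul c (TK n K) := by
  intro f hf
  have hJ : IsT (Fge (n + 1) ⊔ mulI c Pp) :=
    isT_sup (isT_Fge (n + 1) (by omega)) (isT_mulI isT_Pp c)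
  refine le_TK hJ le_sup_left ?_ (Submodule.mem_sup_right ⟨f, hf, rfl⟩)
  intro g hg hgM
  obtain ⟨r, hr, s, ⟨t, ht, rfl⟩, hrs⟩ := Submodule.mem_sup.1 hg
  have h1 : wp (fun w => w.Perm (List.range n)) g = g := wp_id hgM
  have h2 : wp (fun w => w.Perm (List.range n)) r = 0 := by
    have h0 : Fge (n + 1) ≤ LinearMap.ker (wp (fun w => w.Perm (List.range n))) := by
      refine Submodule.span_le.2 ?_
      rintro x ⟨w, hw, rfl⟩
      refine LinearMap.mem_ker.2 (wp_neg fun h3 => ?_)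
      have h4 := h3.length_eq
      rw [List.length_range] at h4
      omega
    exact LinearMap.mem_ker.1 (h0 hr)
  rw [← h1, ← hrs, map_add, h2, zero_add]
  have h3 : wp (fun w => w.Perm (List.range n)) ((LinearMap.lsmul ℤ P c) t) =
      c • wp (fun w => w.Perm (List.range n)) t := map_smul _ _ _
  rw [h3]
  exact h _

theorem GP_isT {p k : ℕ} (hp : 1 ≤ p) : IsT (GP p k) := TK_isT hp (KG_add p k)

theorem WP_isT (p : ℕ) : IsT (WP p) := TK_isT (by norm_num) (KW_add p)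

theorem GP_odd {p k : ℕ} (hp : 1 ≤ p) (hk : k % 2 = 1) : Mul p (GP p k) := by
  refine mulTK (p : ℤ) fun f σ => ?_
  rw [map_zsmul, map_zsmul, map_zsmul, smul_eq_mul, smul_eq_mul, hk]
  exact ⟨dvd_mul_right _ _, by rw [show 2 - 1 = 1 from rfl, pow_one]; exact dvd_mul_right _ _⟩

theorem GP_sq {p k : ℕ} (hp : 1 ≤ p) : Mul ((p : ℤ) ^ 2) (GP p k) := by
  refine mulTK ((p : ℤ) ^ 2) fun f σ => ?_
  rw [map_zsmul, map_zsmul, map_zsmul, smul_eq_mul, smul_eq_mul]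
  exact ⟨(dvd_pow_self _ two_ne_zero).mul_right _,
    (pow_dvd_pow _ (Nat.sub_le _ _)).mul_right _⟩

theorem WP_p (p : ℕ) : Mul p (WP p) := by
  refine mulTK (p : ℤ) fun f => ?_
  show _ ∧ _ ∧ _ ∧ _
  simp only [cf_smul, ← mul_sub]
  exact ⟨dvd_mul_right _ _, dvd_mul_right _ _, dvd_mul_right _ _, dvd_mul_right _ _⟩

end ADC
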