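import Pool.Agent.ADC.EJP
import Pool.Agent.ADC.EHd
import Pool.Agent.ADC.EFn
import Pool.Agent.ADC.KGs

/-!
# ADC-EJ

The polynomials `EJ p b = [x_0,x_1] ⋯ [x_{2b-2},x_{2b-1}] J(x_{2b}, ..., x_{p-1})` (`J` the iterated Jordan product) distinguish the
varieties `G_{p,k}` (proved by helper77).
-/

namespace ADC

open AD ADN

noncomputable def EJ (p b : ℕ) : P := CL (List.range (2 * b)) * JP (List.range' (2 * b) (p - 2 * b))

private theorem ej_app {p b : ℕ} (hb : 2 * b < p) :
    List.range (2 * b) ++ List.range' (2 * b) (p - 2 * b) = List.range p := by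
  rw [List.range_eq_range', List.range_eq_range']
  have h := List.range'_append (s := 0) (m := 2 * b) (n := p - 2 * b) (step := 1)
  rw [one_mul, zero_add] at h
  rw [h]
  congr 1
  omega

theorem EJ_Ml {p b : ℕ} (hb : 2 * b < p) : EJ p b ∈ Ml p := by
  unfold EJ
  refine CLJP ?_ ?_
  · rw [List.length_range]; omega
  · rw [ej_app hb]

/-- the two homogeneous parts -/
private noncomputable def om (b : ℕ) : EA := ((List.range (2 * b)).map ee).prod
private noncomputable def ss (p b : ℕ) : EA := ((List.range' (2 * b) (p - 2 * b)).map ee).sum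

private theorem ev_EJ {p b : ℕ} (hb : 2 * b < p) :
    ev (EJ p b) = (2 : ℤ) ^ (b + (p - 2 * b - 1)) • (om b + om b * ss p b) := by
  unfold EJ om ss
  rw [map_mul, ev_CL (by rw [List.length_range]; omega), ev_JP (by
    intro h
    have := congrArg List.length h
    rw [List.length_range', List.length_nil] at this
    omega), List.length_range, List.length_range', Nat.mul_div_cancel_left b (by norm_num),
    smul_mul_smul_comm, ← pow_add, mul_add, mul_one]

private theorem om_Hd (b : ℕ) : om b ∈ Hd (2 * b) := by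
  unfold om Hd
  exact Submodule.subset_span ⟨List.range (2 * b), List.length_range, rfl⟩

private theorem sum_Hd (L : List ℕ) : (L.map ee).sum ∈ Hd 1 := by
  induction L with
  | nil => simp
  | cons a L ih =>
    rw [List.map_cons, List.sum_cons]
    exact Submodule.add_mem _ (Hd_ee a) ih

private theorem oms_Hd (p b : ℕ) : om b * ss p b ∈ Hd (2 * b + 1) := Hd_mul (om_Hd b) (sum_Hd _)

private theorem ctd_om {b k : ℕ} (p : ℕ) (h1 : k + 1 ≠ 2 * b) {U : List ℕ} (hU : U.length = k) :
    ph U (ctd p (om b)) = 0 := by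
  rcases Nat.eq_zero_or_pos b with rfl | hb
  · have h2 : ctd p (om 0) = 0 := by
      unfold ctd
      rw [LinearMap.sum_apply]
      exact Finset.sum_eq_zero fun u _ => Hd_ct0 (om_Hd 0) u
    rw [h2, map_zero]
  · obtain ⟨m, hm⟩ : ∃ m, 2 * b = m + 1 := ⟨2 * b - 1, by omega⟩
    have h2 := om_Hd b
    rw [hm] at h2
    exact ph_Hd (Hd_ctd h2 p) (by omega)

private theorem ctd_oms {b k : ℕ} (p : ℕ) (h1 : k ≠ 2 * b) {U : List ℕ} (hU : U.length = k) :
    ph U (ctd p (om b * ss p b)) = 0 :=
  ph_Hd (Hd_ctd (oms_Hd p b) p) (by omega)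

theorem EJ_mem {p b k : ℕ} (hb : 2 * b < p) (h1 : 1 ≤ k) (hk : k < p) (a1 : k + 1 ≠ 2 * b)
    (a2 : k ≠ 2 * b) (a3 : k ≠ 2 * b + 1) : EJ p b ∈ GP p k := by
  have h : EJ p b ∈ KG p k := by
    intro σ
    rw [gA_ph hk.le σ (EJ_Ml hb), gB_ph hk.le σ (EJ_Ml hb), ev_EJ hb]
    have hU : ((List.range k).map (pN p σ⁻¹)).length = k := by
      rw [List.length_map, List.length_range]
    rw [map_smul, map_smul, map_smul, map_add, map_add, map_add,
      ph_Hd (om_Hd b) (by rw [hU]; exact a2), ph_Hd (oms_Hd p b) (by rw [hU]; exact a3),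
      ctd_om p a1 hU, ctd_oms p a2 hU, add_zero, smul_zero, mul_zero]
    exact ⟨dvd_zero _, dvd_zero _⟩
  exact TK_mem (by omega) (KG_add p k) (EJ_Ml hb) fun σ => KG_rn h σ

private theorem pN_id (p : ℕ) (L : List ℕ) : L.map (pN p (1 : Equiv.Perm (Fin p))⁻¹) = L := by
  have h : pN p (1 : Equiv.Perm (Fin p))⁻¹ = id := by
    funext i
    unfold pN
    split_ifs with hi
    · simp
    · rfl
  rw [h, List.map_id]

private theorem ej_two {p : ℕ} (hp : p.Prime) (h5 : 5 ≤ p) (m : ℕ) : ¬ (p : ℤ) ∣ (2 : ℤ) ^ m := by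
  intro h
  have h2 : (p : ℤ) ∣ 2 := (Nat.prime_iff_prime_int.1 hp).dvd_of_dvd_pow h
  have h3 := Int.le_of_dvd (by norm_num) h2
  omega

private theorem ph_oms {p b : ℕ} (hb : 2 * b < p) :
    ph (List.range (2 * b + 1)) (om b * ss p b) = 1 := by
  have h0 : List.range' (2 * b) (p - 2 * b) = (2 * b) :: List.range' (2 * b + 1) (p - 2 * b - 1) := by
    obtain ⟨m, hm⟩ : ∃ m, p - 2 * b = m + 1 := ⟨p - 2 * b - 1, by omega⟩
    rw [hm, List.range'_succ, Nat.add_sub_cancel]
  have hz : ∀ L : List ℕ, (∀ l ∈ L, 2 * b < l) →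
      ph (List.range (2 * b + 1)) (om b * (L.map ee).sum) = 0 := by
    intro L
    induction L with
    | nil => intro _; simp
    | cons a L ih =>
      intro hL
      rw [List.map_cons, List.sum_cons, mul_add, map_add,
        ih (fun l hl => hL l (List.mem_cons_of_mem _ hl)), add_zero]
      have e : om b * ee a = ((List.range (2 * b) ++ [a]).map ee).prod := by
        unfold om
        rw [List.map_append, List.prod_append, List.map_singleton, List.prod_singleton]
      rw [e]
      refine ph_zero (u := 2 * b) (List.mem_range.2 (Nat.lt_succ_self _)) ?_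
      rw [List.mem_append, List.mem_range, List.mem_singleton]
      rintro (h | h)
      · exact lt_irrefl _ h
      · have := hL a List.mem_cons_self
        omega
  unfold ss
  rw [h0, List.map_cons, List.sum_cons, mul_add, map_add, hz _ (fun l hl => by
    rw [List.mem_range'_1] at hl; omega), add_zero]
  have e : om b * ee (2 * b) = ((List.range (2 * b + 1)).map ee).prod := by
    unfold om
    rw [List.range_succ, List.map_append, List.prod_append, List.map_singleton, List.prod_singleton]
  rw [e]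
  exact ph_self List.nodup_range

private theorem ph_ctd_om {p b : ℕ} (hb : 2 * b < p) (hb1 : 1 ≤ b) :
    ph (List.range (2 * b - 1)) (ctd p (om b)) = -1 := by
  unfold om
  rw [ctd_prod (fun l hl => (List.mem_range.1 hl).trans hb) List.nodup_range, map_sum,
    List.length_range, Finset.sum_eq_single (2 * b - 1)]
  · have e : (List.range (2 * b)).eraseIdx (2 * b - 1) = List.range (2 * b - 1) := by
      obtain ⟨m, hm⟩ : ∃ m, 2 * b = m + 1 := ⟨2 * b - 1, by omega⟩
      rw [hm, Nat.add_sub_cancel, List.range_succ, List.eraseIdx_append_of_length_le (by simp)]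
      simp
    rw [map_smul, e, ph_self List.nodup_range, smul_eq_mul, mul_one]
    have h2 : Odd (2 * b - 1) := ⟨b - 1, by omega⟩
    exact h2.neg_one_pow
  · intro i hi hne
    rw [Finset.mem_range] at hi
    rw [map_smul]
    have h3 : ph (List.range (2 * b - 1)) ((((List.range (2 * b)).eraseIdx i).map ee).prod) = 0 := by
      refine ph_zero (u := i) (List.mem_range.2 (by omega)) ?_
      intro hmem
      rw [List.mem_eraseIdx_iff_getElem] at hmem
      obtain ⟨j, hj, hji, hjv⟩ := hmem
      rw [List.getElem_range] at hjv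
      exact hji hjv
    rw [h3, smul_zero]
  · intro h
    exact absurd (Finset.mem_range.2 (by omega)) h

theorem EJ_not {p b k : ℕ} (hp : p.Prime) (h5 : 5 ≤ p) (hb : 2 * b < p) (h1 : 1 ≤ k) (hk : k < p)
    (h : k + 1 = 2 * b ∨ k = 2 * b ∨ k = 2 * b + 1) : EJ p b ∉ GP p k := by
  intro hm
  have hK : EJ p b ∈ KG p k := TK_sub (by omega) (KG_add p k) hm (EJ_Ml hb)
  obtain ⟨hA, hB⟩ := hK 1
  rw [gA_ph hk.le 1 (EJ_Ml hb), ev_EJ hb, pN_id] at hA
  have hB' : (p : ℤ) ∣ gB p k (rn p 1 (EJ p b)) := by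
    refine dvd_trans (dvd_pow_self _ ?_) hB
    omega
  rw [gB_ph hk.le 1 (EJ_Ml hb), ev_EJ hb, pN_id] at hB'
  rcases h with h | h | h
  · have hk' : k = 2 * b - 1 := by omega
    rw [map_smul, map_smul, map_add, map_add, ctd_oms p (k := k) (by omega) (by rw [List.length_range]),
      add_zero, hk', ph_ctd_om hb (by omega), smul_eq_mul] at hB'
    have h2 : Odd (2 * b - 1) := ⟨b - 1, by omega⟩
    rw [h2.neg_one_pow] at hB'
    have h3 : (-1 : ℤ) * (2 ^ (b + (p - 2 * b - 1)) * -1) = 2 ^ (b + (p - 2 * b - 1)) := by ring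
    rw [h3] at hB'
    exact ej_two hp h5 _ hB'
  · rw [map_smul, map_add, ph_Hd (oms_Hd p b) (by rw [List.length_range]; omega), add_zero, h] at hA
    unfold om at hA
    rw [ph_self List.nodup_range, smul_eq_mul, mul_one] at hA
    exact ej_two hp h5 _ hA
  · rw [map_smul, map_add, ph_Hd (om_Hd b) (by rw [List.length_range]; omega), zero_add, h,
      ph_oms hb, smul_eq_mul, mul_one] at hA
    exact ej_two hp h5 _ hA

end ADC
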