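import Pool.Agent.ADC.EDf

/-!
# ADC-EJP

Values of the Jordan products and of the products of commutators in the exterior algebra.
-/

namespace ADC

open AD ADN

private theorem sum_anti (K : List ℕ) (x : ℕ) : (K.map ee).sum * ee x + ee x * (K.map ee).sum = 0 := by
  induction K with
  | nil => simp
  | cons a K ih =>
    rw [List.map_cons, List.sum_cons, add_mul, mul_add]
    calc ee a * ee x + (K.map ee).sum * ee x + (ee x * ee a + ee x * (K.map ee).sum)
        = (ee a * ee x + ee x * ee a) + ((K.map ee).sum * ee x + ee x * (K.map ee).sum) := by abel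
      _ = 0 := by rw [ih, ee_anti a x, neg_add_cancel, add_zero]

private theorem fold_ev (t : List ℕ) : ∀ (K : List ℕ) (c : ℤ) (f : P),
    ev f = c • (1 + (K.map ee).sum) →
    ev (t.foldl (fun f x => f * X x + X x * f) f) =
      ((2 : ℤ) ^ t.length * c) • (1 + ((K.map ee).sum + (t.map ee).sum)) := by
  induction t with
  | nil =>
    intro K c f h
    simpa using h
  | cons x t ih =>
    intro K c f h
    rw [List.foldl_cons, ih (K ++ [x]) (2 * c)]
    · rw [List.map_append, List.sum_append, List.length_cons, List.map_cons, List.sum_cons,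
        List.map_cons, List.map_nil, List.sum_cons, List.sum_nil, add_zero, pow_succ, mul_assoc,
        add_assoc]
    · rw [map_add, map_mul, map_mul, ev_X, h, smul_mul_assoc, mul_smul_comm, ← smul_add, mul_comm 2 c,
        mul_smul, List.map_append, List.sum_append, List.map_cons, List.map_nil, List.sum_cons,
        List.sum_nil, add_zero]
      congr 1
      have h1 := sum_anti K x
      generalize (K.map ee).sum = v at *
      generalize ee x = e at *
      calc (1 + v) * (1 + e) + (1 + e) * (1 + v)
          = (2 : ℤ) • (1 + (v + e)) + (v * e + e * v) := by noncomm_ring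
        _ = (2 : ℤ) • (1 + (v + e)) := by rw [h1, add_zero]

theorem ev_JP {L : List ℕ} (h : L ≠ []) : ev (JP L) = (2 : ℤ) ^ (L.length - 1) • (1 + (L.map ee).sum) := by
  obtain ⟨a, t, rfl⟩ := List.exists_cons_of_ne_nil h
  have h1 := fold_ev t [a] 1 (X a) (by simp [ev_X])
  show ev (t.foldl (fun f x => f * X x + X x * f) (X a)) = _
  rw [h1, List.map_cons, List.sum_cons, mul_one]
  simp

private theorem ev_CL' : ∀ (L : List ℕ), L.length % 2 = 0 →
    ev (CL L) = (2 : ℤ) ^ (L.length / 2) • (L.map ee).prod
  | [], _ => by simp [CL]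
  | [a], h => by simp at h
  | a :: b :: L, h => by
    have h2 : L.length % 2 = 0 := by
      rw [List.length_cons, List.length_cons] at h
      omega
    have h3 : (a :: b :: L).length / 2 = L.length / 2 + 1 := by
      rw [List.length_cons, List.length_cons]
      omega
    rw [CL, map_mul, ev_cm, ev_CL' L h2, h3, List.map_cons, List.map_cons, List.prod_cons,
      List.prod_cons, smul_mul_assoc, mul_smul_comm, smul_smul, pow_succ, mul_comm 2, mul_assoc]

theorem ev_CL {L : List ℕ} (h : L.length % 2 = 0) : ev (CL L) = (2 : ℤ) ^ (L.length / 2) • (L.map ee).prod :=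
  ev_CL' L h

/-- the span of the words which are permutations of `L` -/
private noncomputable def Wd (L : List ℕ) : Submodule ℤ P :=
  Submodule.span ℤ {f | ∃ w : List ℕ, w.Perm L ∧ f = mon w}

private theorem Wd_mon {w L : List ℕ} (h : w.Perm L) : mon w ∈ Wd L := Submodule.subset_span ⟨w, h, rfl⟩

private theorem Wd_perm {L L' : List ℕ} (h : L.Perm L') : Wd L ≤ Wd L' := by
  refine Submodule.span_mono ?_
  rintro f ⟨w, hw, rfl⟩
  exact ⟨w, hw.trans h, rfl⟩

private theorem Wd_mul {L L' : List ℕ} {f g : P} (hf : f ∈ Wd L) (hg : g ∈ Wd L') : f * g ∈ Wd (L ++ L') := by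
  unfold Wd at hf
  induction hf using Submodule.span_induction with
  | mem x hx =>
    obtain ⟨w, hw, rfl⟩ := hx
    unfold Wd at hg
    induction hg using Submodule.span_induction with
    | mem y hy =>
      obtain ⟨w', hw', rfl⟩ := hy
      rw [← mon_append]
      exact Wd_mon (hw.append hw')
    | zero => rw [mul_zero]; exact Submodule.zero_mem _
    | add x y _ _ hx hy => rw [mul_add]; exact Submodule.add_mem _ hx hy
    | smul c x _ hx => rw [mul_smul_comm]; exact Submodule.smul_mem _ _ hx
  | zero => rw [zero_mul]; exact Submodule.zero_mem _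
  | add x y _ _ hx hy => rw [add_mul]; exact Submodule.add_mem _ hx hy
  | smul c x _ hx => rw [smul_mul_assoc]; exact Submodule.smul_mem _ _ hx

private theorem Wd_X (a : ℕ) : X a ∈ Wd [a] := by
  rw [← mon_single]
  exact Wd_mon (List.Perm.refl _)

private theorem Wd_cm (a b : ℕ) : cm a b ∈ Wd [a, b] := by
  have h1 : X a * X b ∈ Wd [a, b] := by
    have h := Wd_mul (Wd_X a) (Wd_X b)
    rwa [List.singleton_append] at h
  have h2 : X b * X a ∈ Wd [a, b] := by
    have h := Wd_mul (Wd_X b) (Wd_X a)
    rw [List.singleton_append] at h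
    exact Wd_perm (List.Perm.swap a b []) h
  unfold cm
  exact Submodule.sub_mem _ h1 h2

private theorem fold_mem (t : List ℕ) : ∀ (K : List ℕ) (f : P), f ∈ Wd K →
    t.foldl (fun f x => f * X x + X x * f) f ∈ Wd (K ++ t) := by
  induction t with
  | nil =>
    intro K f h
    rw [List.append_nil]
    exact h
  | cons x t ih =>
    intro K f h
    rw [List.foldl_cons]
    have h1 := ih (K ++ [x]) (f * X x + X x * f) (Submodule.add_mem _ (Wd_mul h (Wd_X x))
      (Wd_perm List.perm_append_comm (Wd_mul (Wd_X x) h)))
    rwa [List.append_assoc, List.singleton_append] at h1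

private theorem JP_cons (a : ℕ) (t : List ℕ) :
    JP (a :: t) = t.foldl (fun f x => f * X x + X x * f) (X a) := by
  rw [JP]

private theorem JP_mem (L : List ℕ) : JP L ∈ Wd L := by
  cases L with
  | nil =>
    rw [JP, ← mon_nil]
    exact Wd_mon (List.Perm.refl _)
  | cons a t =>
    have h := fold_mem t [a] (X a) (Wd_X a)
    have e : [a] ++ t = a :: t := rfl
    rw [JP_cons]
    rw [e] at h
    exact h

private theorem CL_cons (a b : ℕ) (L : List ℕ) : CL (a :: b :: L) = cm a b * CL L := by
  rw [CL]

private theorem CL_mem : ∀ (L : List ℕ), L.length % 2 = 0 → CL L ∈ Wd L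
  | [], _ => by
    rw [show CL [] = mon [] by rw [mon_nil]; simp [CL]]
    exact Wd_mon (List.Perm.refl _)
  | [a], h => by simp at h
  | a :: b :: L, h => by
    have h2 : L.length % 2 = 0 := by
      rw [List.length_cons, List.length_cons] at h
      omega
    have h3 := Wd_mul (Wd_cm a b) (CL_mem L h2)
    have e : [a, b] ++ L = a :: b :: L := rfl
    rw [e] at h3
    rw [CL_cons]
    exact h3

theorem CLJP {n : ℕ} {L L' : List ℕ} (h : L.length % 2 = 0) (h2 : (L ++ L').Perm (List.range n)) :
    CL L * JP L' ∈ Ml n :=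
  Wd_perm h2 (Wd_mul (CL_mem L h) (JP_mem L'))

end ADC
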