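import Pool.Agent.ADC.EHd
import Pool.Agent.ADC.EJP

/-!
# ADC-EOa: the two polynomials for odd `k`, `k + 2 ≤ p`, and their values in the exterior algebra
-/

namespace ADC

open AD ADN

noncomputable def Of2 (p k : ℕ) : P :=
  ∑ i ∈ Finset.Ico k p, CL (List.range k ++ [i]) * JP ((List.range' k (p - k)).erase i)

noncomputable def Of1 (p k : ℕ) : P :=
  ∑ l ∈ Finset.range k, (-1 : ℤ) ^ l • (CL ((List.range k).erase l) * JP (l :: List.range' k (p - k)))

private theorem eoa_rp {p k : ℕ} (hk : k ≤ p) : List.range k ++ List.range' k (p - k) = List.range p := by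
  rw [List.range_eq_range', List.range_eq_range']
  have h := List.range'_append_1 (s := 0) (m := k) (n := p - k)
  rw [zero_add] at h
  rw [h]
  congr 1
  omega

private theorem eoa_sq (L : List ℕ) : (L.map ee).sum * (L.map ee).sum = 0 := by
  have h : ∀ L : List ℕ, (L.map ee).sum =
      ExteriorAlgebra.ι ℤ ((L.map (fun i => (Finsupp.single i (1 : ℤ) : ℕ →₀ ℤ))).sum) := by
    intro L
    induction L with
    | nil => simp
    | cons a L ih => rw [List.map_cons, List.sum_cons, List.map_cons, List.sum_cons, map_add, ih]; rfl
  rw [h]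
  exact ExteriorAlgebra.ι_sq_zero _

private theorem eoa_sum {M : Type*} [AddCommMonoid M] (f : ℕ → M) {k p : ℕ} (hk : k ≤ p) :
    ∑ i ∈ Finset.Ico k p, f i = ((List.range' k (p - k)).map f).sum := by
  rw [← List.sum_toFinset f List.nodup_range']
  refine Finset.sum_congr ?_ fun _ _ => rfl
  ext i
  rw [Finset.mem_Ico, List.mem_toFinset, List.mem_range'_1]
  omega

private theorem eoa_mem {k p i : ℕ} (hi : i ∈ Finset.Ico k p) : i ∈ List.range' k (p - k) := by
  rw [Finset.mem_Ico] at hi
  rw [List.mem_range'_1]
  omega

private theorem eoa_mv (B : List ℕ) (l : ℕ) : (B.map ee).prod * ee l = (-1 : ℤ) ^ B.length • (ee l * (B.map ee).prod) := by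
  induction B with
  | nil => simp
  | cons a B ih =>
    rw [List.map_cons, List.prod_cons, mul_assoc, ih, mul_smul_comm, ← mul_assoc, ee_anti a l, List.length_cons,
      pow_succ, mul_smul, neg_mul, mul_assoc]
    simp

private theorem eoa_idx (L : List ℕ) (i : ℕ) (hi : i < L.length) : ((L.eraseIdx i).map ee).prod * ee L[i] =
    (-1 : ℤ) ^ (L.length - (i + 1)) • (L.map ee).prod := by
  rw [List.eraseIdx_eq_take_drop_succ, List.map_append, List.prod_append, mul_assoc, eoa_mv, List.length_drop,
    mul_smul_comm]
  congr 1
  have h : (L.map ee).prod = ((L.take i ++ L.drop i).map ee).prod := by rw [List.take_append_drop]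
  rw [h, List.map_append, List.prod_append, List.drop_eq_getElem_cons hi, List.map_cons, List.prod_cons]

private theorem eoa_er {k l : ℕ} (hl : l < k) : (List.range k).erase l = (List.range k).eraseIdx l := by
  have h2 := List.Nodup.idxOf_getElem (List.nodup_range (n := k)) l (by rw [List.length_range]; exact hl)
  rw [List.getElem_range] at h2
  exact List.erase_eq_eraseIdx_of_idxOf h2

private theorem eoa_om {k l : ℕ} (hk : k % 2 = 1) (hl : l < k) : (-1 : ℤ) ^ l • ((((List.range k).erase l).map ee).prod * ee l) =
    ((List.range k).map ee).prod := by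
  rw [eoa_er hl]
  have h := eoa_idx (List.range k) l (by rw [List.length_range]; exact hl)
  rw [List.getElem_range, List.length_range] at h
  rw [h, smul_smul, ← pow_add]
  have e : Even (l + (k - (l + 1))) := by
    rw [Nat.even_iff]
    omega
  rw [e.neg_one_pow, one_smul]

private theorem eoa_ctd {k p : ℕ} (hk : k ≤ p) : ctd p ((List.range k).map ee).prod =
    ∑ l ∈ Finset.range k, (-1 : ℤ) ^ l • (((List.range k).erase l).map ee).prod := by
  rw [ctd_prod (fun l hl => (List.mem_range.1 hl).trans_le hk) List.nodup_range, List.length_range]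
  refine Finset.sum_congr rfl fun l hl => ?_
  rw [eoa_er (Finset.mem_range.1 hl)]

theorem Of_Ml {p k : ℕ} (h1 : k % 2 = 1) (hk : k + 2 ≤ p) : Of1 p k ∈ Ml p ∧ Of2 p k ∈ Ml p := by
  constructor
  · unfold Of1
    refine Submodule.sum_mem _ fun l hl => Submodule.smul_mem _ _ ?_
    have hl2 := Finset.mem_range.1 hl
    have hlm : l ∈ List.range k := List.mem_range.2 hl2
    refine CLJP ?_ ?_
    · rw [List.length_erase_of_mem hlm, List.length_range]
      omega
    · rw [← eoa_rp (show k ≤ p by omega)]
      have h2 : ((List.range k).erase l ++ [l]).Perm (List.range k) :=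
        (List.perm_append_comm).trans (List.perm_cons_erase hlm).symm
      have h3 := h2.append_right (List.range' k (p - k))
      rw [List.append_assoc] at h3
      exact h3
  · unfold Of2
    refine Submodule.sum_mem _ fun i hi => ?_
    refine CLJP ?_ ?_
    · rw [List.length_append, List.length_range, List.length_singleton]
      omega
    · rw [← eoa_rp (show k ≤ p by omega), List.append_assoc]
      refine List.Perm.append_left _ ?_
      exact (List.perm_cons_erase (eoa_mem hi)).symm

theorem ev_Of2 {p k : ℕ} (h1 : k % 2 = 1) (hk : k + 2 ≤ p) : ev (Of2 p k) =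
    (2 : ℤ) ^ ((k + 1) / 2 + (p - k - 2)) • (((List.range k).map ee).prod * ((List.range' k (p - k)).map ee).sum) := by
  have hterm : ∀ i ∈ Finset.Ico k p, ev (CL (List.range k ++ [i]) * JP ((List.range' k (p - k)).erase i)) =
      (2 : ℤ) ^ ((k + 1) / 2 + (p - k - 2)) • (((List.range k).map ee).prod *
        (ee i + ee i * ((List.range' k (p - k)).map ee).sum)) := by
    intro i hi
    have hm := eoa_mem hi
    have hlen : ((List.range' k (p - k)).erase i).length = p - k - 1 := by
      rw [List.length_erase_of_mem hm, List.length_range']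
    have hne : (List.range' k (p - k)).erase i ≠ [] := by
      intro h
      rw [h, List.length_nil] at hlen
      omega
    have hs : ((List.range' k (p - k)).map ee).sum = ee i + (((List.range' k (p - k)).erase i).map ee).sum := by
      rw [((List.perm_cons_erase hm).map ee).sum_eq, List.map_cons, List.sum_cons]
    have hlen2 : (List.range k ++ [i]).length = k + 1 := by
      rw [List.length_append, List.length_range, List.length_singleton]
    rw [map_mul, ev_CL (by rw [hlen2]; omega), ev_JP hne, hlen, hlen2, List.map_append, List.prod_append,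
      List.map_singleton, List.prod_singleton, smul_mul_smul_comm, ← pow_add]
    have e1 : p - k - 1 - 1 = p - k - 2 := by omega
    rw [e1, mul_assoc]
    congr 2
    rw [hs, mul_add (ee i), mul_add (ee i), mul_one, ee_sq, zero_add]
  unfold Of2
  rw [map_sum, Finset.sum_congr rfl hterm, ← Finset.smul_sum, ← Finset.mul_sum, Finset.sum_add_distrib,
    ← Finset.sum_mul, eoa_sum ee (show k ≤ p by omega), eoa_sq, add_zero]

theorem ev_Of1 {p k : ℕ} (h1 : k % 2 = 1) (hk : k + 2 ≤ p) : ev (Of1 p k) =
    (2 : ℤ) ^ ((k + 1) / 2 + (p - k - 2) + 1) • (ctd p ((List.range k).map ee).prod + (k : ℤ) • ((List.range k).map ee).prod +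
      ctd p ((List.range k).map ee).prod * ((List.range' k (p - k)).map ee).sum) := by
  have hterm : ∀ l ∈ Finset.range k, ev ((-1 : ℤ) ^ l • (CL ((List.range k).erase l) *
      JP (l :: List.range' k (p - k)))) = (2 : ℤ) ^ ((k + 1) / 2 + (p - k - 2) + 1) •
        ((-1 : ℤ) ^ l • (((List.range k).erase l).map ee).prod + ((List.range k).map ee).prod +
          ((-1 : ℤ) ^ l • (((List.range k).erase l).map ee).prod) * ((List.range' k (p - k)).map ee).sum) := by
    intro l hl
    have hl2 := Finset.mem_range.1 hl
    have hlm : l ∈ List.range k := List.mem_range.2 hl2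
    have hlen : ((List.range k).erase l).length = k - 1 := by
      rw [List.length_erase_of_mem hlm, List.length_range]
    rw [map_zsmul, map_mul, ev_CL (by rw [hlen]; omega), ev_JP (List.cons_ne_nil _ _), hlen, List.length_cons,
      List.length_range', smul_mul_smul_comm, ← pow_add, smul_comm]
    have e1 : (k - 1) / 2 + (p - k + 1 - 1) = (k + 1) / 2 + (p - k - 2) + 1 := by omega
    rw [e1]
    congr 1
    rw [List.map_cons, List.sum_cons, mul_add, mul_add, mul_one, smul_add, smul_add, eoa_om h1 hl2, add_assoc,
      smul_mul_assoc]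
  unfold Of1
  rw [map_sum, Finset.sum_congr rfl hterm, ← Finset.smul_sum, Finset.sum_add_distrib, Finset.sum_add_distrib,
    ← Finset.sum_mul, ← eoa_ctd (show k ≤ p by omega), Finset.sum_const, Finset.card_range]
  rw [natCast_zsmul]

end ADC
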