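import Pool.Agent.ADC.Bas
import Pool.Agent.ADC.GrpA

/-!
# ADC-FunA

The functionals `gA k`, `gB n k` and renamings.
-/

namespace ADC

open AD ADN

theorem gA_mon (k : ℕ) (w : List ℕ) : gA k (mon w) = sgl w (List.range k) := by
  unfold gA
  rw [lm_mon]

theorem gB_mon (n k : ℕ) (w : List ℕ) :
    gB n k (mon w) = ∑ s ∈ Finset.Ico k n, sgl w (List.range k ++ [s]) := by
  unfold gB
  rw [lm_mon]

private theorem fa_idx {π : ℕ → ℕ} (hπ : Function.Injective π) (w : List ℕ) (a : ℕ) :
    (w.map π).idxOf (π a) = w.idxOf a := by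
  induction w with
  | nil => rfl
  | cons b w ih =>
    rw [List.map_cons]
    by_cases h : b = a
    · subst h
      rw [List.idxOf_cons_self, List.idxOf_cons_self]
    · have h1 : π b ≠ π a := fun h1 => h (hπ h1)
      rw [List.idxOf_cons_ne _ h1, List.idxOf_cons_ne _ h, ih]

theorem sgl_map {π : ℕ → ℕ} (hπ : Function.Injective π) (w U : List ℕ) : sgl (w.map π) (U.map π) = sgl w U := by
  induction U with
  | nil => rfl
  | cons u U ih =>
    rw [List.map_cons]
    unfold sgl
    rw [ih, List.map_map]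
    congr 2
    refine List.map_congr_left fun v _ => ?_
    rw [Function.comp_apply]
    unfold bef
    rw [fa_idx hπ, fa_idx hπ]

private theorem fa_bef {w : List ℕ} {a b : ℕ} (hab : a ≠ b) (ha : a ∈ w) : bef w b a = - bef w a b := by
  unfold bef
  have h : w.idxOf a ≠ w.idxOf b := fun h => hab ((List.idxOf_inj ha).1 h)
  rcases lt_or_gt_of_ne h with h1 | h1
  · rw [if_pos h1, if_neg (not_lt.2 h1.le)]
  · rw [if_neg (not_lt.2 h1.le), if_pos h1, neg_neg]

/-- interchange of two neighbours -/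
theorem sgl_swap {w U V : List ℕ} {a b : ℕ} (hU : (U ++ a :: b :: V).Nodup) (hw : ∀ c ∈ U ++ a :: b :: V, c ∈ w) :
    sgl w (U ++ b :: a :: V) = - sgl w (U ++ a :: b :: V) := by
  induction U with
  | nil =>
    have hab : a ≠ b := by
      rintro rfl
      simp at hU
    have ha : a ∈ w := hw a (by simp)
    rw [List.nil_append, List.nil_append]
    simp only [sgl, List.map_cons, List.prod_cons, fa_bef hab ha]
    ring
  | cons u U ih =>
    rw [List.cons_append] at hU
    have ih' := ih hU.of_cons fun c hc => hw c (List.mem_cons_of_mem _ hc)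
    rw [List.cons_append, List.cons_append]
    unfold sgl
    rw [ih']
    have h1 : ((U ++ b :: a :: V).map fun v => bef w u v).prod =
        ((U ++ a :: b :: V).map fun v => bef w u v).prod := by
      apply List.Perm.prod_eq
      exact ((List.Perm.append_left U (List.Perm.swap a b V))).map _
    rw [h1]
    ring

private theorem fa_append (w U : List ℕ) (s : ℕ) :
    sgl w (U ++ [s]) = sgl w U * (U.map fun u => bef w u s).prod := by
  induction U with
  | nil => simp [sgl]
  | cons u U ih =>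
    rw [List.cons_append]
    unfold sgl
    rw [ih, List.map_append, List.prod_append, List.map_cons, List.prod_cons]
    simp only [List.map_cons, List.map_nil, List.prod_cons, List.prod_nil, mul_one]
    ring

private theorem fa_range (w : List ℕ) (g : ℕ → ℕ) (k : ℕ) : sgl w ((List.range k).map g) =
    ∏ j ∈ Finset.range k, ∏ i ∈ Finset.range j, bef w (g i) (g j) := by
  induction k with
  | zero => rfl
  | succ k ih =>
    rw [List.range_succ, List.map_append, List.map_cons, List.map_nil, fa_append, ih,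
      Finset.prod_range_succ, List.map_map]
    congr 1

private theorem fa_amem {n j : ℕ} {σ : Equiv.Perm (Fin n)} :
    σ ∈ aF n j ↔ ∀ i : Fin n, j ≤ i.val → σ i = i := by
  unfold aF
  rw [Finset.mem_filter]
  exact ⟨fun h => h.2, fun h => ⟨Finset.mem_univ _, h⟩⟩

private theorem fa_smem {n j : ℕ} {σ : Equiv.Perm (Fin n)} :
    σ ∈ sF n j ↔ ∀ i : Fin n, i.val < j → σ i = i := by
  unfold sF
  rw [Finset.mem_filter]
  exact ⟨fun h => h.2, fun h => ⟨Finset.mem_univ _, h⟩⟩

private theorem fa_ainv {n j : ℕ} {σ : Equiv.Perm (Fin n)} (h : σ ∈ aF n j) : σ⁻¹ ∈ aF n j := by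
  rw [fa_amem] at h ⊢
  intro i hi
  rw [Equiv.Perm.inv_eq_iff_eq]
  exact (h i hi).symm

private theorem fa_sinv {n j : ℕ} {σ : Equiv.Perm (Fin n)} (h : σ ∈ sF n j) : σ⁻¹ ∈ sF n j := by
  rw [fa_smem] at h ⊢
  intro i hi
  rw [Equiv.Perm.inv_eq_iff_eq]
  exact (h i hi).symm

private theorem fa_alt {n j : ℕ} {σ : Equiv.Perm (Fin n)} (h : σ ∈ aF n j) (i : Fin n) (hi : i.val < j) :
    (σ i).val < j := by
  by_contra hc
  have h1 := fa_amem.1 h (σ i) (by omega)
  have h2 := σ.injective h1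
  rw [h2] at hc
  exact hc hi

private theorem fa_pNinv (n : ℕ) (σ : Equiv.Perm (Fin n)) (i : ℕ) : pN n σ (pN n σ⁻¹ i) = i := by
  unfold pN
  by_cases h : i < n
  · rw [dif_pos h, dif_pos (σ⁻¹ ⟨i, h⟩).2]
    simp
  · rw [dif_neg h, dif_neg h]

/-- the product over the pairs -/
private theorem fa_pairs {n k : ℕ} (hk : k ≤ n) (G : ℕ → ℕ → ℤ) :
    ∏ j : Fin n, ∏ i ∈ Finset.Iio j, (if j.val < k then G i.val j.val else 1) =
      ∏ j ∈ Finset.range k, ∏ i ∈ Finset.range j, G i j := by
  have h1 : ∀ j : Fin n, ∏ i ∈ Finset.Iio j, (if j.val < k then G i.val j.val else 1) =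
      (fun j : ℕ => if j < k then ∏ i ∈ Finset.range j, G i j else 1) j.val := by
    intro j
    by_cases hj : j.val < k
    · simp only [if_pos hj]
      have h2 : Finset.range j.val = (Finset.Iio j).map Fin.valEmbedding := by
        rw [Fin.map_valEmbedding_Iio]
        ext x
        simp
      rw [h2, Finset.prod_map]
      rfl
    · simp only [if_neg hj]
      exact Finset.prod_const_one
  rw [Finset.prod_congr rfl fun j _ => h1 j, Fin.prod_univ_eq_prod_range
    (fun j : ℕ => if j < k then ∏ i ∈ Finset.range j, G i j else 1) n]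
  symm
  have h2 : ∏ j ∈ Finset.range k, ∏ i ∈ Finset.range j, G i j =
      ∏ j ∈ Finset.range k, (if j < k then ∏ i ∈ Finset.range j, G i j else 1) :=
    Finset.prod_congr rfl fun j hj => by rw [if_pos (Finset.mem_range.1 hj)]
  rw [h2]
  refine Finset.prod_subset (Finset.range_subset_range.2 hk) fun j _ hj => ?_
  rw [if_neg (by rwa [Finset.mem_range] at hj)]

private theorem fa_key {n k : ℕ} (hk : k ≤ n) {σ : Equiv.Perm (Fin n)} (h : σ ∈ aF n k) {w : List ℕ}
    (hw : ∀ i < k, i ∈ w) : sgl w ((List.range k).map (pN n σ)) =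
      ((Equiv.Perm.sign σ : ℤˣ) : ℤ) * sgl w (List.range k) := by
  obtain ⟨f, hf⟩ : ∃ f : Fin n → Fin n → ℤ, f = fun i j =>
      if i = j then 0 else if i.val < k ∧ j.val < k then bef w i.val j.val else
        if i < j then 1 else -1 := ⟨_, rfl⟩
  have hanti : ∀ i j, f i j = - f j i := by
    intro i j
    rw [hf]
    show (if i = j then (0 : ℤ) else if i.val < k ∧ j.val < k then bef w i.val j.val else
        if i < j then 1 else -1) = -(if j = i then (0 : ℤ) else if j.val < k ∧ i.val < k then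
        bef w j.val i.val else if j < i then 1 else -1)
    by_cases hij : i = j
    · rw [if_pos hij, if_pos hij.symm, neg_zero]
    · rw [if_neg hij, if_neg (Ne.symm hij)]
      by_cases hlt : i.val < k ∧ j.val < k
      · rw [if_pos hlt, if_pos ⟨hlt.2, hlt.1⟩, fa_bef (a := i.val) (b := j.val)
          (fun h => hij (Fin.ext h)) (hw _ hlt.1), neg_neg]
      · have hlt2 : ¬ (j.val < k ∧ i.val < k) := fun h => hlt ⟨h.2, h.1⟩
        rw [if_neg hlt, if_neg hlt2]
        rcases lt_or_gt_of_ne hij with h1 | h1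
        · rw [if_pos h1, if_neg (not_lt.2 h1.le), neg_neg]
        · rw [if_neg (not_lt.2 h1.le), if_pos h1]
  have hmain := σ.prod_Iio_comp_eq_sign_mul_prod (R := ℤ) hanti
  have h1 : ∀ j : Fin n, ∀ i ∈ Finset.Iio j, f (σ i) (σ j) =
      if j.val < k then (fun i j => bef w (pN n σ i) (pN n σ j)) i.val j.val else 1 := by
    intro j i hi
    rw [Finset.mem_Iio] at hi
    have hi' : i.val < j.val := hi
    have hne : σ i ≠ σ j := fun h => (ne_of_lt hi) (σ.injective h)
    rw [hf]
    show (if σ i = σ j then (0 : ℤ) else if (σ i).val < k ∧ (σ j).val < k then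
      bef w (σ i).val (σ j).val else if σ i < σ j then 1 else -1) = _
    rw [if_neg hne]
    by_cases hj : j.val < k
    · have hi2 : i.val < k := by omega
      rw [if_pos ⟨fa_alt h i hi2, fa_alt h j hj⟩, if_pos hj]
      show _ = bef w (pN n σ i.val) (pN n σ j.val)
      unfold pN
      rw [dif_pos i.2, dif_pos j.2]
    · have hsj : σ j = j := fa_amem.1 h j (by omega)
      rw [hsj, if_neg (fun h => hj h.2), if_neg hj]
      have h2 : σ i < j := by
        by_cases hi2 : i.val < k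
        · have h3 := fa_alt h i hi2
          show (σ i).val < j.val
          omega
        · rw [fa_amem.1 h i (by omega)]
          exact hi
      rw [if_pos h2]
  have h2 : ∀ j : Fin n, ∀ i ∈ Finset.Iio j, f i j =
      if j.val < k then (fun i j => bef w i j) i.val j.val else 1 := by
    intro j i hi
    rw [Finset.mem_Iio] at hi
    have hi' : i.val < j.val := hi
    rw [hf]
    show (if i = j then (0 : ℤ) else if i.val < k ∧ j.val < k then
      bef w i.val j.val else if i < j then 1 else -1) = _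
    rw [if_neg (ne_of_lt hi)]
    by_cases hj : j.val < k
    · rw [if_pos ⟨by omega, hj⟩, if_pos hj]
    · rw [if_neg (fun h => hj h.2), if_neg hj, if_pos hi]
  rw [Finset.prod_congr rfl fun j _ => Finset.prod_congr rfl (h1 j),
    Finset.prod_congr (f := fun j => ∏ i ∈ Finset.Iio j, f i j) rfl fun j _ =>
      Finset.prod_congr rfl (h2 j), fa_pairs hk (fun i j => bef w (pN n σ i) (pN n σ j)),
    fa_pairs hk (fun i j => bef w i j)] at hmain
  rw [fa_range, hmain]
  have h3 := fa_range w id k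
  rw [List.map_id] at h3
  rw [h3]
  rfl

private theorem fa_permk {n k : ℕ} (hk : k ≤ n) {σ : Equiv.Perm (Fin n)} (h : σ ∈ aF n k) :
    ((List.range k).map (pN n σ)).Perm (List.range k) := by
  have hlt : ∀ σ ∈ aF n k, ∀ i < k, pN n σ i < k := by
    intro σ h i hi
    unfold pN
    rw [dif_pos (by omega)]
    exact fa_alt h ⟨i, by omega⟩ hi
  rw [List.perm_ext_iff_of_nodup (List.Nodup.map (pN_inj n σ) List.nodup_range) List.nodup_range]
  intro a
  rw [List.mem_map, List.mem_range]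
  constructor
  · rintro ⟨b, hb, rfl⟩
    exact hlt σ h b (List.mem_range.1 hb)
  · intro ha
    exact ⟨pN n σ⁻¹ a, List.mem_range.2 (hlt _ (fa_ainv h) a ha), fa_pNinv n σ a⟩

/-- renaming inside -/
private theorem fa_move {n : ℕ} (σ : Equiv.Perm (Fin n)) (w U : List ℕ) :
    sgl (w.map (pN n σ)) U = sgl w (U.map (pN n σ⁻¹)) := by
  have h1 : U = (U.map (pN n σ⁻¹)).map (pN n σ) := by
    rw [List.map_map]
    conv_lhs => rw [← List.map_id U]
    refine List.map_congr_left fun a _ => ?_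
    exact (fa_pNinv n σ a).symm
  conv_lhs => rw [h1]
  exact sgl_map (pN_inj n σ) _ _

private theorem fa_aword {n k : ℕ} (hk : k ≤ n) {σ : Equiv.Perm (Fin n)} (h : σ ∈ aF n k) {w : List ℕ}
    (hw : w.Perm (List.range n)) :
    gA k (rn n σ (mon w)) = ((Equiv.Perm.sign σ : ℤˣ) : ℤ) * gA k (mon w) ∧
      gB n k (rn n σ (mon w)) = ((Equiv.Perm.sign σ : ℤˣ) : ℤ) * gB n k (mon w) := by
  have hmem : ∀ i < k, i ∈ w := fun i hi => hw.mem_iff.2 (List.mem_range.2 (by omega))
  have h1 := fa_key hk (fa_ainv h) hmem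
  rw [Equiv.Perm.sign_inv] at h1
  rw [rn_mon, gA_mon, gA_mon, gB_mon, gB_mon, fa_move]
  refine ⟨h1, ?_⟩
  rw [Finset.mul_sum]
  refine Finset.sum_congr rfl fun s hs => ?_
  rw [Finset.mem_Ico] at hs
  have hfix : pN n σ⁻¹ s = s := by
    unfold pN
    rw [dif_pos hs.2, fa_amem.1 (fa_ainv h) ⟨s, hs.2⟩ hs.1]
  rw [fa_move, List.map_append, List.map_cons, List.map_nil, hfix, fa_append, fa_append, h1]
  have h2 : (((List.range k).map (pN n σ⁻¹)).map fun u => bef w u s).prod =
      ((List.range k).map fun u => bef w u s).prod :=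
    ((fa_permk hk (fa_ainv h)).map _).prod_eq
  rw [h2, mul_assoc]

private theorem fa_sword {n k : ℕ} (hk : k ≤ n) {σ : Equiv.Perm (Fin n)} (h : σ ∈ sF n k) {w : List ℕ} :
    gA k (rn n σ (mon w)) = gA k (mon w) ∧ gB n k (rn n σ (mon w)) = gB n k (mon w) := by
  have hfix : ∀ σ ∈ sF n k, ∀ i < k, pN n σ i = i := by
    intro σ h i hi
    unfold pN
    rw [dif_pos (by omega), fa_smem.1 h ⟨i, by omega⟩ hi]
  have hr : (List.range k).map (pN n σ⁻¹) = List.range k := by
    conv_rhs => rw [← List.map_id (List.range k)]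
    exact List.map_congr_left fun i hi => hfix _ (fa_sinv h) i (List.mem_range.1 hi)
  have hge : ∀ σ ∈ sF n k, ∀ i ∈ Finset.Ico k n, pN n σ i ∈ Finset.Ico k n := by
    intro σ h i hi
    rw [Finset.mem_Ico] at hi ⊢
    refine ⟨?_, pN_lt σ hi.2⟩
    by_contra hc
    have h1 := hfix σ h (pN n σ i) (by omega)
    have h2 := pN_inj n σ h1
    omega
  rw [rn_mon, gA_mon, gA_mon, gB_mon, gB_mon, fa_move, hr]
  refine ⟨rfl, ?_⟩
  refine Finset.sum_nbij' (pN n σ⁻¹) (pN n σ) (hge _ (fa_sinv h)) (hge _ h) (fun s _ => fa_pNinv n σ s)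
    (fun s _ => ?_) fun s _ => ?_
  · have h1 := fa_pNinv n σ⁻¹ s
    rwa [inv_inv] at h1
  · rw [fa_move, List.map_append, hr]
    rfl

private theorem fa_rn_smul (n : ℕ) (σ : Equiv.Perm (Fin n)) (c : ℤ) (f : P) :
    rn n σ (c • f) = c • rn n σ f := map_zsmul _ _ _

theorem gA_a {n k : ℕ} (hk : k ≤ n) {σ : Equiv.Perm (Fin n)} (h : σ ∈ aF n k) {f : P} (hf : f ∈ Ml n) :
    gA k (rn n σ f) = ((Equiv.Perm.sign σ : ℤˣ) : ℤ) * gA k f ∧
      gB n k (rn n σ f) = ((Equiv.Perm.sign σ : ℤˣ) : ℤ) * gB n k f := by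
  refine Ml_ind (C := fun f => gA k (rn n σ f) = ((Equiv.Perm.sign σ : ℤˣ) : ℤ) * gA k f ∧
      gB n k (rn n σ f) = ((Equiv.Perm.sign σ : ℤˣ) : ℤ) * gB n k f) ?_ ?_ ?_ ?_ hf
  · simp
  · rintro f g ⟨h1, h2⟩ ⟨h3, h4⟩
    rw [map_add, map_add, map_add, map_add, map_add, h1, h2, h3, h4]
    exact ⟨by ring, by ring⟩
  · rintro c f ⟨h1, h2⟩
    rw [fa_rn_smul, map_smul, map_smul, map_smul, map_smul, h1, h2]
    simp only [smul_eq_mul]
    exact ⟨by ring, by ring⟩
  · exact fun w hw => fa_aword hk h hw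

theorem gA_s {n k : ℕ} (hk : k ≤ n) {σ : Equiv.Perm (Fin n)} (h : σ ∈ sF n k) {f : P} (hf : f ∈ Ml n) :
    gA k (rn n σ f) = gA k f ∧ gB n k (rn n σ f) = gB n k f := by
  refine Ml_ind (C := fun f => gA k (rn n σ f) = gA k f ∧ gB n k (rn n σ f) = gB n k f) ?_ ?_ ?_ ?_ hf
  · simp
  · rintro f g ⟨h1, h2⟩ ⟨h3, h4⟩
    rw [map_add, map_add, map_add, map_add, map_add, h1, h2, h3, h4]
    exact ⟨rfl, rfl⟩
  · rintro c f ⟨h1, h2⟩
    rw [fa_rn_smul, map_smul, map_smul, map_smul, map_smul, h1, h2]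
    exact ⟨rfl, rfl⟩
  · exact fun w _ => fa_sword hk h

theorem g_aP {n k : ℕ} (hk : k ≤ n) {f : P} (hf : f ∈ Ml n) :
    gA k (aP n k f) = k.factorial * gA k f ∧ gB n k (aP n k f) = k.factorial * gB n k f := by
  have hs : ∀ σ : Equiv.Perm (Fin n), ((Equiv.Perm.sign σ : ℤˣ) : ℤ) * ((Equiv.Perm.sign σ : ℤˣ) : ℤ) = 1 := by
    intro σ
    rw [← Units.val_mul, Int.units_mul_self, Units.val_one]
  unfold aP
  rw [LinearMap.sum_apply, map_sum, map_sum]
  constructor
  · have h1 : ∀ σ ∈ aF n k, gA k ((((Equiv.Perm.sign σ : ℤˣ) : ℤ) • tl (rn n σ)) f) = gA k f := by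
      intro σ hσ
      rw [LinearMap.smul_apply, map_smul, tl_apply, (gA_a hk hσ hf).1, smul_eq_mul, ← mul_assoc, hs,
        one_mul]
    rw [Finset.sum_congr rfl h1, Finset.sum_const, card_aF hk, nsmul_eq_mul]
  · have h1 : ∀ σ ∈ aF n k, gB n k ((((Equiv.Perm.sign σ : ℤˣ) : ℤ) • tl (rn n σ)) f) = gB n k f := by
      intro σ hσ
      rw [LinearMap.smul_apply, map_smul, tl_apply, (gA_a hk hσ hf).2, smul_eq_mul, ← mul_assoc, hs,
        one_mul]
    rw [Finset.sum_congr rfl h1, Finset.sum_const, card_aF hk, nsmul_eq_mul]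

theorem g_sP {n k : ℕ} (hk : k ≤ n) {f : P} (hf : f ∈ Ml n) :
    gA k (sP n k f) = (n - k).factorial * gA k f ∧ gB n k (sP n k f) = (n - k).factorial * gB n k f := by
  unfold sP
  rw [LinearMap.sum_apply, map_sum, map_sum]
  constructor
  · have h1 : ∀ σ ∈ sF n k, gA k (tl (rn n σ) f) = gA k f := by
      intro σ hσ
      rw [tl_apply, (gA_s hk hσ hf).1]
    rw [Finset.sum_congr rfl h1, Finset.sum_const, card_sF hk, nsmul_eq_mul]
  · have h1 : ∀ σ ∈ sF n k, gB n k (tl (rn n σ) f) = gB n k f := by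
      intro σ hσ
      rw [tl_apply, (gA_s hk hσ hf).2]
    rw [Finset.sum_congr rfl h1, Finset.sum_const, card_sF hk, nsmul_eq_mul]

end ADC
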