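import Pool.Agent.ADC.EDf
import Pool.Agent.ADC.FunA

/-!
# ADC-EPh: the coefficients of `(1 + e_{w_1}) ⋯ (1 + e_{w_n})` are the signs `sgl`
-/

namespace ADC

open AD ADN

/-- the product of the `1 + ε_i e_i` -/
private noncomputable def eF (ε : ℕ → ℤ) : List ℕ → EA
  | [] => 1
  | a :: w => (1 + ε a • ee a) * eF ε w

private theorem eph_mul (u a : ℕ) (c : ℤ) (y : EA) :
    ct u ((1 + c • ee a) * y) = (if a = u then c • y else 0) + (1 - c • ee a) * ct u y := by
  rw [add_mul, one_mul, map_add, smul_mul_assoc, map_zsmul, ct_mul, sub_mul, one_mul,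
    smul_mul_assoc, smul_sub]
  split_ifs
  · abel
  · rw [smul_zero]
    abel

private theorem eph_zero (ε : ℕ → ℤ) {u : ℕ} : ∀ {w : List ℕ}, u ∉ w → ct u (eF ε w) = 0 := by
  intro w
  induction w with
  | nil => intro _; exact ct_one u
  | cons a w ih =>
    intro h
    rw [List.mem_cons, not_or] at h
    rw [eF, eph_mul, if_neg (Ne.symm h.1), ih h.2, mul_zero, add_zero]

private theorem eph_congr {ε ε' : ℕ → ℤ} : ∀ {w : List ℕ}, (∀ i ∈ w, ε i = ε' i) →
    eF ε w = eF ε' w := by
  intro w
  induction w with
  | nil => intro _; rfl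
  | cons a w ih =>
    intro h
    rw [eF, eF, h a List.mem_cons_self, ih fun i hi => h i (List.mem_cons_of_mem _ hi)]

private theorem eph_ct (ε : ℕ → ℤ) {u : ℕ} : ∀ {w : List ℕ}, w.Nodup → u ∈ w →
    ct u (eF ε w) = ε u • eF (fun i => bef w u i * ε i) (w.erase u) := by
  intro w
  induction w with
  | nil => intro _ h; exact absurd h List.not_mem_nil
  | cons a w ih =>
    intro hw h
    rw [List.nodup_cons] at hw
    by_cases hau : a = u
    · subst hau
      rw [eF, eph_mul, if_pos rfl, eph_zero ε hw.1, mul_zero, add_zero, List.erase_cons_head]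
      congr 1
      refine eph_congr fun i hi => ?_
      have hia : a ≠ i := fun h => hw.1 (h ▸ hi)
      unfold bef
      rw [List.idxOf_cons_self, List.idxOf_cons_ne _ hia, if_pos (Nat.succ_pos _), one_mul]
    · have hu : u ∈ w := by
        rcases List.mem_cons.1 h with h1 | h1
        · exact absurd h1.symm hau
        · exact h1
      rw [eF, eph_mul, if_neg hau, zero_add, ih hw.2 hu, List.erase_cons_tail (by simpa using hau),
        eF, mul_smul_comm]
      have h1 : bef (a :: w) u a = -1 := by
        unfold bef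
        rw [List.idxOf_cons_self, if_neg (Nat.not_lt_zero _)]
      have h2 : eF (fun i => bef w u i * ε i) (w.erase u) =
          eF (fun i => bef (a :: w) u i * ε i) (w.erase u) := by
        refine eph_congr fun i hi => ?_
        have hiw : i ∈ w := List.mem_of_mem_erase hi
        have hia : a ≠ i := fun h => hw.1 (h ▸ hiw)
        unfold bef
        rw [List.idxOf_cons_ne _ hau, List.idxOf_cons_ne _ hia]
        simp only [Nat.succ_lt_succ_iff]
      rw [h2, h1, neg_mul, one_mul, neg_smul, sub_eq_add_neg]

private theorem eph_nil (ε : ℕ → ℤ) (w : List ℕ) : ph [] (eF ε w) = 1 := by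
  induction w with
  | nil => exact (ph_nil 1).1
  | cons a w ih =>
    rw [eF, add_mul, one_mul, map_add, ih, smul_mul_assoc, map_zsmul, (ph_nil (eF ε w)).2 a,
      smul_zero, add_zero]

private theorem eph_bef {u a b : ℕ} (ha : a ≠ u) (hb : b ≠ u) (w : List ℕ) :
    ((w.erase u).idxOf a < (w.erase u).idxOf b) ↔ (w.idxOf a < w.idxOf b) := by
  induction w with
  | nil => simp
  | cons c w ih =>
    by_cases hc : c = u
    · subst hc
      rw [List.erase_cons_head, List.idxOf_cons_ne _ (Ne.symm ha), List.idxOf_cons_ne _ (Ne.symm hb)]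
      exact (Nat.succ_lt_succ_iff).symm
    · rw [List.erase_cons_tail (by simpa using hc)]
      by_cases hca : c = a
      · subst hca
        by_cases hcb : c = b
        · subst hcb
          simp
        · rw [List.idxOf_cons_self, List.idxOf_cons_self, List.idxOf_cons_ne _ hcb,
            List.idxOf_cons_ne _ hcb]
          exact iff_of_true (Nat.succ_pos _) (Nat.succ_pos _)
      · by_cases hcb : c = b
        · subst hcb
          rw [List.idxOf_cons_self, List.idxOf_cons_self]
          exact iff_of_false (Nat.not_lt_zero _) (Nat.not_lt_zero _)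
        · rw [List.idxOf_cons_ne _ hca, List.idxOf_cons_ne _ hcb, List.idxOf_cons_ne _ hca,
            List.idxOf_cons_ne _ hcb]
          simp only [Nat.succ_lt_succ_iff]
          exact ih

private theorem eph_sgl {u : ℕ} (w : List ℕ) : ∀ {U : List ℕ}, u ∉ U →
    sgl (w.erase u) U = sgl w U := by
  intro U
  induction U with
  | nil => intro _; rfl
  | cons v U ih =>
    intro h
    rw [List.mem_cons, not_or] at h
    show (U.map fun x => bef (w.erase u) v x).prod * sgl (w.erase u) U =
      (U.map fun x => bef w v x).prod * sgl w U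
    rw [ih h.2]
    congr 2
    apply List.map_congr_left
    intro x hx
    have hxu : x ≠ u := fun e => h.2 (e ▸ hx)
    unfold bef
    simp only [eph_bef (Ne.symm h.1) hxu w]

private theorem eph_main : ∀ (U w : List ℕ) (ε : ℕ → ℤ), w.Nodup → U.Nodup → (∀ u ∈ U, u ∈ w) →
    ph U (eF ε w) = (U.map ε).prod * sgl w U := by
  intro U
  induction U with
  | nil =>
    intro w ε _ _ _
    rw [eph_nil]
    simp [sgl]
  | cons u U ih =>
    intro w ε hw hU hs
    rw [List.nodup_cons] at hU
    rw [ph_cons, eph_ct ε hw (hs u List.mem_cons_self), map_zsmul,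
      ih (w.erase u) _ (hw.erase u) hU.2 (fun v hv => by
        have hvu : v ≠ u := fun e => hU.1 (e ▸ hv)
        exact (List.mem_erase_of_ne hvu).2 (hs v (List.mem_cons_of_mem _ hv))),
      eph_sgl w hU.1]
    have h1 : (U.map fun i => bef w u i * ε i).prod =
        (U.map fun i => bef w u i).prod * (U.map ε).prod := by
      rw [List.prod_map_mul]
    rw [h1, List.map_cons, List.prod_cons, smul_eq_mul]
    show _ = ε u * (U.map ε).prod * ((U.map fun v => bef w u v).prod * sgl w U)
    ring

private theorem eph_ev (w : List ℕ) : ev (mon w) = eF (fun _ => 1) w := by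
  induction w with
  | nil => rw [mon_nil, map_one]; rfl
  | cons a w ih => rw [mon_cons, map_mul, ev_X, ih, eF, one_smul]

theorem ph_mon {w U : List ℕ} (hw : w.Nodup) (hU : U.Nodup) (hs : ∀ u ∈ U, u ∈ w) :
    ph U (ev (mon w)) = sgl w U := by
  rw [eph_ev, eph_main U w _ hw hU hs]
  simp

end ADC
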