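import Pool.Agent.ADC.Bas
import Pool.Agent.ADA.Main
import Pool.Agent.ADA.Exp2
import Pool.Agent.ADA.Lat

/-!
# ADC-ExLk

Existence of the basic situation `Lk` above an almost distributive T-ideal: it comes from a diamond;
for `exists_lk2` the element `(I ⊔ p P) ⊓ j` lies strictly between the bottom and the top of the
diamond, so it is one of the three atoms or a further atom.
-/

namespace ADC

open AD ADN

theorem nil_of_alm {I : Submodule ℤ P} (hI : AlmDist I) : ∃ N, NilAt I N := by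
  obtain ⟨E, n, hIE, hE, hn⟩ := ADA.exists_alm hI.2.1
  rcases hIE.eq_or_lt with h | h
  · rw [h]
    exact ⟨n, hn⟩
  · exact absurd (hI.2.2 E hE.1 h) hE.2.1

private theorem exl_lk {p : ℕ} {I a b c j : Submodule ℤ P} (hI : AlmDist I)
    (h2 : Mul ((p : ℤ) ^ 2) I) (hD : Dia TI I a b c j) : Lk p I a b c := by
  obtain ⟨hatA, hatB, -⟩ := hD.atom expo_TI_inf expo_TI_sup hI.expo_dist
  exact
    { hI := hI.1
      hA := hD.ha
      hB := hD.hb
      hC := hD.hc
      neA := hD.oa.not_ge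
      IA := hD.oa.le
      IB := hD.ob.le
      IC := hD.oc.le
      AB := hD.ab.le
      AC := hD.ac.le
      BC := hD.bc.le
      cA := by
        rw [hD.jbc, ← hD.jab]
        exact le_sup_left
      cB := by
        rw [hD.jac, ← hD.jab]
        exact le_sup_right
      mA := fun D hT h3 h4 => by
        rcases h3.eq_or_lt with h | h
        · exact Or.inl h.symm
        · exact Or.inr (hatA D hT h h4)
      mB := fun D hT h3 h4 => by
        rcases h3.eq_or_lt with h | h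
        · exact Or.inl h.symm
        · exact Or.inr (hatB D hT h h4)
      ess := fun D hT h3 h4 => by
        rw [hD.jab] at h4
        have h5 : I ≤ j := by
          rw [← hD.jab]
          exact hD.oa.le.trans le_sup_left
        exact (hD.ess expo_TI_inf expo_TI_sup hI.expo_dist D hT h3
          (le_antisymm h4 (le_inf h3 h5))).le
      p2 := h2
      nil := nil_of_alm hI }

theorem exists_lk {p : ℕ} {I : Submodule ℤ P} (hI : AlmDist I) (h2 : Mul ((p : ℤ) ^ 2) I) :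
    ∃ A B C, Lk p I A B C := by
  obtain ⟨a, b, c, j, hD⟩ := hI.expo_dia
  exact ⟨a, b, c, exl_lk hI h2 hD⟩

private theorem exl_side {I a b c j x : Submodule ℤ P} (hI : AlmDist I) (hD : Dia TI I a b c j)
    (hx : IsT x) (hIx : I < x) (hxj : x ≤ j) (hxa : x ⊓ a = I) : x ⊔ a = j := by
  obtain ⟨-, hatB, -⟩ := hD.atom expo_TI_inf expo_TI_sup hI.expo_dist
  have haj : a ≤ j := by rw [← hD.jab]; exact le_sup_left
  have hle : x ⊔ a ≤ j := sup_le hxj haj
  refine le_antisymm hle ?_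
  by_cases h : (x ⊔ a) ⊓ b = I
  · exfalso
    have h3 : (x ⊔ a) ⊓ (b ⊔ a) = ((x ⊔ a) ⊓ b) ⊔ a := ADA.ml le_sup_right
    rw [sup_comm b a, hD.jab, inf_eq_left.2 hle, h, sup_eq_right.2 hD.oa.le] at h3
    have h4 : x ≤ a := by
      rw [← h3]
      exact le_sup_left
    rw [inf_eq_left.2 h4] at hxa
    exact hIx.ne hxa.symm
  · have h3 : (x ⊔ a) ⊓ b = b :=
      hatB _ (isT_inf (isT_sup hx hD.ha) hD.hb)
        (lt_of_le_of_ne (le_inf (hIx.le.trans le_sup_left) hD.ob.le) (Ne.symm h)) inf_le_right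
    have h4 : b ≤ x ⊔ a := inf_eq_right.1 h3
    rw [← hD.jab]
    exact sup_le le_sup_right h4

private theorem exl_eq {I a b c j x : Submodule ℤ P} (hI : AlmDist I) (hD : Dia TI I a b c j)
    (hx : IsT x) (hax : a ≤ x) (hxj : x ≤ j) (hjx : ¬ j ≤ x) : x = a := by
  obtain ⟨-, hatB, -⟩ := hD.atom expo_TI_inf expo_TI_sup hI.expo_dist
  by_cases h : x ⊓ b = I
  · have h3 : x ⊓ (b ⊔ a) = (x ⊓ b) ⊔ a := ADA.ml hax
    rw [sup_comm b a, hD.jab, inf_eq_left.2 hxj, h, sup_eq_right.2 hD.oa.le] at h3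
    exact h3
  · exfalso
    have h3 : x ⊓ b = b := hatB _ (isT_inf hx hD.hb)
      (lt_of_le_of_ne (le_inf (hD.oa.le.trans hax) hD.ob.le) (Ne.symm h)) inf_le_right
    apply hjx
    rw [← hD.jab]
    exact sup_le hax (inf_eq_right.1 h3)

private theorem exl_meet {I a b c j x : Submodule ℤ P} (hI : AlmDist I) (hD : Dia TI I a b c j)
    (hx : IsT x) (hIx : I ≤ x) (hax : ¬ a ≤ x) : x ⊓ a = I := by
  obtain ⟨hatA, -, -⟩ := hD.atom expo_TI_inf expo_TI_sup hI.expo_dist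
  by_contra h
  have h3 : x ⊓ a = a := hatA _ (isT_inf hx hD.ha)
    (lt_of_le_of_ne (le_inf hIx hD.oa.le) (Ne.symm h)) inf_le_right
  exact hax (inf_eq_right.1 h3)

private theorem exl_dia {I a b c j x : Submodule ℤ P} (hI : AlmDist I) (hD : Dia TI I a b c j)
    (hx : IsT x) (hIx : I < x) (hxj : x ≤ j) (hjx : ¬ j ≤ x) :
    ∃ b' c', Dia TI I x b' c' j := by
  by_cases h1 : a ≤ x
  · rw [exl_eq hI hD hx h1 hxj hjx]
    exact ⟨b, c, hD⟩
  by_cases h2 : b ≤ x
  · rw [exl_eq hI hD.swapAB hx h2 hxj hjx]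
    exact ⟨a, c, hD.swapAB⟩
  by_cases h3 : c ≤ x
  · rw [exl_eq hI hD.swapAC hx h3 hxj hjx]
    exact ⟨b, a, hD.swapAC⟩
  have e1 := exl_meet hI hD hx hIx.le h1
  have e2 := exl_meet hI hD.swapAB hx hIx.le h2
  exact ⟨a, b,
    { ho := hD.ho
      ha := hx
      hb := hD.ha
      hc := hD.hb
      hj := hD.hj
      oa := hIx
      ob := hD.oa
      oc := hD.ob
      ab := e1
      bc := hD.ab
      ac := e2
      jab := exl_side hI hD hx hIx hxj e1
      jbc := hD.jab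
      jac := exl_side hI hD.swapAB hx hIx hxj e2 }⟩

theorem exists_lk2 {p : ℕ} (hp : p.Prime) {I : Submodule ℤ P} (hI : AlmDist I) (h2 : Mul ((p : ℤ) ^ 2) I)
    (h1 : ¬ Mul p I) :
    ∃ A B C, Lk p I A B C ∧ A ≤ I ⊔ mulI p Pp ∧ B ⊓ (I ⊔ mulI p Pp) ≤ I := by
  obtain ⟨a, b, c, j, hD⟩ := hI.expo_dia
  have hK : mulI ((p ^ 2 : ℕ) : ℤ) Pp ≤ I := by
    intro f hf
    obtain ⟨g, hg, rfl⟩ := expo_mem_mulI.1 hf
    push_cast
    exact h2 g hg
  have hnj := ADA.not_le_p hI hK hD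
  have hJT : IsT (I ⊔ mulI (p : ℤ) Pp) := isT_sup hI.1 (isT_mulI isT_Pp _)
  have hIj : I ≤ j := by
    rw [← hD.jab]
    exact hD.oa.le.trans le_sup_left
  have hxT : IsT ((I ⊔ mulI (p : ℤ) Pp) ⊓ j) := isT_inf hJT hD.hj
  have hne : (I ⊔ mulI (p : ℤ) Pp) ⊓ j ≠ I := by
    intro h
    have h3 := hD.ess expo_TI_inf expo_TI_sup hI.expo_dist _ hJT le_sup_left h
    apply h1
    intro f hf
    rw [← h3]
    exact (le_sup_right : mulI (p : ℤ) Pp ≤ _) (expo_mem_mulI.2 ⟨f, hf, rfl⟩)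
  have hlt : I < (I ⊔ mulI (p : ℤ) Pp) ⊓ j :=
    lt_of_le_of_ne (le_inf le_sup_left hIj) (Ne.symm hne)
  obtain ⟨B, C, hD'⟩ := exl_dia hI hD hxT hlt inf_le_right fun h => hnj (h.trans inf_le_left)
  refine ⟨_, B, C, exl_lk hI h2 hD', inf_le_left, ?_⟩
  have hBj : B ≤ j := by
    rw [← hD'.jab]
    exact le_sup_right
  refine le_trans ?_ hD'.ab.le
  exact le_inf (le_inf inf_le_right (inf_le_left.trans hBj)) inf_le_left

end ADC
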