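import Pool.Agent.ADC.TKc
import Pool.Agent.ADC.KGs

/-!
# ADC-FdP

The explicit form of `GP p k` used in the final statement.

`arr p τ` is the word `x_{τ 0} ⋯ x_{τ (p-1)}`.  `fA p k g`, `fB p k g` are `gA`, `gB` of the multilinear part of `g`.
* `gA_fA`, `gB_fB`: linear in `g` (`ind_mon`, `cf_add`, `cf_smul`, `cf_mon`); for `g = mon w`: if `w` is a permutation of `range p`, there is exactly one `τ` with `arr p τ = w`, and both sides are `sgl w (range k)`;
  otherwise both sides are 0 (`arr p τ` is a permutation of `range p`).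
* `GId_eq`: `TK_iff` (`GP p k = TK p (KG p k)`).  `⊆`: `σ = 1` in the definition of `KG` (`rn_one`).  `⊇`: for a permutation `σ`: `rn p σ (π (u φ(f) v)) = π (rn p σ (u φ(f) v)) = π ((rn σ u) ((rn σ ∘ φ) f) (rn σ v))`
  (`π = wp (fun w => w.Perm (List.range p))` commutes with renaming: `perm_map`), and `rn σ ∘ φ` is a substitution.
-/

namespace ADC

open AD ADN

/-- the word `x_{τ 0} ⋯ x_{τ (p-1)}` -/
def arr (p : ℕ) (τ : Equiv.Perm (Fin p)) : List ℕ := List.ofFn (fun i => (τ i : ℕ))

/-- the sum of the coefficients of the words `x_{τ 0} ⋯ x_{τ (p-1)}`, each with the sign of the order of `0, ..., k-1` -/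
noncomputable def fA (p k : ℕ) (g : P) : ℤ :=
  ∑ τ : Equiv.Perm (Fin p), cf (arr p τ) g * sgl (arr p τ) (List.range k)

/-- the same with the signs of the orders of `0, ..., k-1, s`, `s = k, ..., p-1` -/
noncomputable def fB (p k : ℕ) (g : P) : ℤ :=
  ∑ τ : Equiv.Perm (Fin p), cf (arr p τ) g * ∑ s ∈ Finset.Ico k p, sgl (arr p τ) (List.range k ++ [s])

/-- the identities of `G_{p,k}` -/
def GId (p k : ℕ) : Set P := {f | aug f = 0 ∧ ∀ φ : P →ₐ[ℤ] P, (∀ i, aug (φ (X i)) = 0) → ∀ u v : P,
  (p : ℤ) ∣ fA p k (u * φ f * v) ∧ (p : ℤ) ^ (2 - k % 2) ∣ fB p k (u * φ f * v)}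

private theorem arr_perm (p : ℕ) (τ : Equiv.Perm (Fin p)) : (arr p τ).Perm (List.range p) := by
  unfold arr
  rw [List.perm_ext_iff_of_nodup (List.nodup_ofFn.2 (fun a b h => τ.injective (Fin.ext h))) List.nodup_range]
  intro a
  rw [List.mem_ofFn, List.mem_range]
  constructor
  · rintro ⟨i, rfl⟩
    exact (τ i).2
  · intro ha
    exact ⟨τ.symm ⟨a, ha⟩, by simp⟩

private theorem arr_inj (p : ℕ) {τ τ' : Equiv.Perm (Fin p)} (h : arr p τ = arr p τ') : τ = τ' := by
  unfold arr at h
  have h1 := List.ofFn_injective h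
  ext i
  exact congrFun h1 i

private theorem arr_ex {p : ℕ} {w : List ℕ} (h : w.Perm (List.range p)) :
    ∃ τ : Equiv.Perm (Fin p), arr p τ = w := by
  have hl : w.length = p := by rw [h.length_eq, List.length_range]
  subst hl
  have hlt : ∀ i : Fin w.length, w[i] < w.length := fun i =>
    List.mem_range.1 (h.mem_iff.1 (List.getElem_mem i.2))
  have hnd : w.Nodup := h.nodup_iff.2 List.nodup_range
  have hinj : Function.Injective (fun i : Fin w.length => (⟨w[i], hlt i⟩ : Fin w.length)) := by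
    intro a b hab
    have h1 : w[a] = w[b] := congrArg Fin.val hab
    exact Fin.ext ((List.Nodup.getElem_inj_iff hnd).1 h1)
  refine ⟨Equiv.ofBijective _ (Finite.injective_iff_bijective.1 hinj), ?_⟩
  unfold arr
  have h2 : (fun i : Fin w.length => ((Equiv.ofBijective _ (Finite.injective_iff_bijective.1 hinj)) i : ℕ)) =
      fun i : Fin w.length => w[i] := by
    funext i
    rfl
  rw [h2]
  exact List.ofFn_getElem

private theorem key (p : ℕ) (φ : List ℕ → ℤ) (g : P) :
    lm φ (wp (fun w => w.Perm (List.range p)) g) = ∑ τ : Equiv.Perm (Fin p), cf (arr p τ) g * φ (arr p τ) := by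
  refine ind_mon (C := fun g => lm φ (wp (fun w => w.Perm (List.range p)) g) =
    ∑ τ : Equiv.Perm (Fin p), cf (arr p τ) g * φ (arr p τ)) ?_ ?_ ?_ ?_ g
  · have h : ∀ w, cf w (0 : P) = 0 := by
      intro w
      have h := cf_smul w 0 (0 : P)
      rwa [zero_smul, zero_mul] at h
    simp [h]
  · intro f g hf hg
    rw [map_add, map_add, hf, hg, ← Finset.sum_add_distrib]
    refine Finset.sum_congr rfl fun τ _ => ?_
    rw [cf_add, add_mul]
  · intro c f hf
    rw [map_smul, map_smul, hf, Finset.smul_sum]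
    refine Finset.sum_congr rfl fun τ _ => ?_
    rw [cf_smul, smul_eq_mul, mul_assoc]
  · intro w
    by_cases h : w.Perm (List.range p)
    · rw [wp_pos (φ := fun w => w.Perm (List.range p)) h, lm_mon]
      obtain ⟨τ, hτ⟩ := arr_ex h
      rw [Finset.sum_eq_single τ]
      · rw [cf_mon, if_pos hτ.symm, one_mul, hτ]
      · intro τ' _ hne
        rw [cf_mon, if_neg, zero_mul]
        intro e
        exact hne (arr_inj p (e.symm.trans hτ.symm))
      · intro h'
        exact absurd (Finset.mem_univ _) h'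
    · rw [wp_neg (φ := fun w => w.Perm (List.range p)) h, map_zero]
      symm
      refine Finset.sum_eq_zero fun τ _ => ?_
      rw [cf_mon, if_neg, zero_mul]
      intro e
      exact h (e ▸ arr_perm p τ)

theorem gA_fA (p k : ℕ) (g : P) : gA k (wp (fun w => w.Perm (List.range p)) g) = fA p k g := by
  unfold gA fA
  exact key p _ g

theorem gB_fB (p k : ℕ) (g : P) : gB p k (wp (fun w => w.Perm (List.range p)) g) = fB p k g := by
  unfold gB fB
  exact key p _ g

private theorem rn_wp (p : ℕ) (σ : Equiv.Perm (Fin p)) (g : P) :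
    rn p σ (wp (fun w => w.Perm (List.range p)) g) = wp (fun w => w.Perm (List.range p)) (rn p σ g) := by
  refine ind_mon (C := fun g => rn p σ (wp (fun w => w.Perm (List.range p)) g) =
    wp (fun w => w.Perm (List.range p)) (rn p σ g)) ?_ ?_ ?_ ?_ g
  · rw [map_zero, map_zero, map_zero]
  · intro f g hf hg
    rw [map_add, map_add, map_add, map_add, hf, hg]
  · intro c f hf
    rw [map_smul, map_zsmul, hf, map_zsmul, map_zsmul]
  · intro w
    rw [rn_mon]
    by_cases h : w.Perm (List.range p)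
    · rw [wp_pos (φ := fun w => w.Perm (List.range p)) h,
        wp_pos (φ := fun w => w.Perm (List.range p)) (perm_map σ h), rn_mon]
    · rw [wp_neg (φ := fun w => w.Perm (List.range p)) h, map_zero, wp_neg]
      intro h'
      apply h
      have h2 := h'.trans (perm_map σ (List.Perm.refl (List.range p))).symm
      exact (List.map_perm_map_iff (pN_inj p σ)).1 h2

theorem GId_eq {p k : ℕ} (hp : 1 ≤ p) : (GP p k : Set P) = GId p k := by
  ext f
  rw [SetLike.mem_coe]
  unfold GP
  rw [TK_iff hp (KG_add p k)]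
  constructor
  · rintro ⟨h1, h2⟩
    refine ⟨h1, fun φ hφ u v => ?_⟩
    have h3 := h2 φ hφ u v 1
    rw [rn_one, gA_fA, gB_fB] at h3
    exact h3
  · rintro ⟨h1, h2⟩
    refine ⟨h1, fun φ hφ u v σ => ?_⟩
    rw [rn_wp, gA_fA, gB_fB, map_mul, map_mul]
    exact h2 ((rn p σ).comp φ) (fun i => isT_Pp.subst (rn p σ) (rn_isSubst p σ) (φ (X i)) (hφ i)) _ _

end ADC
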