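import Pool.Agent.ADC.KGs
import Pool.Agent.ADC.NPs
import Pool.Agent.ADC.Dst
import Pool.Agent.ADA.ExpMain

/-!
# ADC-IncN

`NPt p 0 0` is not below `UP p`, `WP p`, `GP p k`.
-/

namespace ADC

open AD ADN

private theorem in_zero (w : List ℕ) : cf w (0 : P) = 0 := by
  have h := cf_smul w 0 (0 : P)
  rwa [zero_smul, zero_mul] at h

private theorem in_sub (w : List ℕ) (f g : P) : cf w (f - g) = cf w f - cf w g := by
  have h := cf_smul w (-1) g
  rw [neg_one_smul] at h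
  rw [sub_eq_add_neg, cf_add, h]
  ring

private theorem in_m1 : cm 0 1 * X 2 = mon [0, 1, 2] - mon [1, 0, 2] := by
  unfold cm
  rw [mon_cons, mon_cons, mon_single, mon_cons, mon_cons, mon_single, sub_mul, mul_assoc, mul_assoc]

private theorem in_m2 : X 0 * cm 1 2 = mon [0, 1, 2] - mon [0, 2, 1] := by
  unfold cm
  rw [mon_cons, mon_cons, mon_single, mon_cons, mon_cons, mon_single, mul_sub]

private theorem in_com (i j : ℕ) : com (cm i j) = 0 := by
  unfold cm
  rw [map_sub, map_mul, map_mul, mul_comm, sub_self]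

private theorem in_NN {p : ℕ} {f : P} (hf : f ∈ Pp) (h1 : ∀ i, cf [i] f = 0) (h2 : ∀ i j, cf [i, j] f = 0)
    (h3 : com f = 0) : f ∈ NPt p 0 0 := by
  rw [NPt_mem]
  refine ⟨hf, fun i => ?_, fun _ _ => 0, fun _ _ => by simp, fun i j => ?_, fun d _ _ => ?_, fun i j => ?_,
    fun d _ _ => ?_⟩
  · rw [h1 i]
    exact dvd_zero _
  · rw [h2 i j]
    simp
  · rw [h3, MvPolynomial.coeff_zero]
    exact dvd_zero _
  · rw [h3, MvPolynomial.coeff_zero, MvPolynomial.coeff_zero]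
    simp
  · rw [h3, MvPolynomial.coeff_zero]
    exact dvd_zero _

private theorem in_cf {w u v : List ℕ} (h1 : u ≠ w) (h2 : v ≠ w) : cf w (mon u - mon v) = 0 := by
  rw [in_sub, cf_mon, cf_mon, if_neg h1, if_neg h2, sub_zero]

theorem cmX_NPt {p : ℕ} (h5 : 5 ≤ p) : cm 0 1 * X 2 ∈ NPt p 0 0 ∧ X 0 * cm 1 2 ∈ NPt p 0 0 := by
  have _ := h5
  constructor
  · refine in_NN (Pp_mul_left _ (X_mem 2)) (fun i => ?_) (fun i j => ?_) ?_
    · rw [in_m1]
      exact in_cf (by simp) (by simp)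
    · rw [in_m1]
      exact in_cf (by simp) (by simp)
    · rw [map_mul, in_com, zero_mul]
  · refine in_NN (Pp_mul_left _ (cm_mem 1 2)) (fun i => ?_) (fun i j => ?_) ?_
    · rw [in_m2]
      exact in_cf (by simp) (by simp)
    · rw [in_m2]
      exact in_cf (by simp) (by simp)
    · rw [map_mul, in_com, mul_zero]

theorem NPt_UP {p : ℕ} (hp : p.Prime) : ¬ NPt p 0 0 ≤ ADA.UP p := by
  intro h
  obtain ⟨-, h2⟩ := ADA.mem_UP.1 (h (NPt_p 0 0 (X 0) (X_mem 0)))
  obtain ⟨a, -, b, hb, c, hc, e⟩ := ADA.mem_KP.1 h2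
  rw [ADA.mem_mm_pow] at hb hc
  have hd : Finsupp.degree (Finsupp.single 0 1 : ℕ →₀ ℕ) = 1 := Finsupp.degree_single _ _
  have hb' := hb (Finsupp.single 0 1) (by rw [hd]; norm_num)
  have hc' := hc (Finsupp.single 0 1) (by rw [hd]; have := hp.pos; omega)
  have e1 := congrArg (MvPolynomial.coeff (Finsupp.single 0 1)) e
  have e2 : (p : MvPolynomial ℕ ℤ) ^ 2 * a = MvPolynomial.C ((p : ℤ) ^ 2) * a := by
    rw [map_pow, map_natCast]
  have e3 : (p : MvPolynomial ℕ ℤ) * b = MvPolynomial.C (p : ℤ) * b := by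
    rw [map_natCast]
  rw [MvPolynomial.coeff_add, MvPolynomial.coeff_add, e2, e3, MvPolynomial.coeff_C_mul,
    MvPolynomial.coeff_C_mul, hb', hc', mul_zero, add_zero, add_zero, map_smul, MvPolynomial.coeff_smul,
    ADA.com_X, MvPolynomial.coeff_X, smul_eq_mul, if_pos rfl, mul_one] at e1
  have h3 : (p : ℤ) ^ 2 ∣ (p : ℤ) := ⟨_, e1.symm⟩
  have h4 : (p : ℤ) * p ∣ (p : ℤ) * 1 := by rwa [mul_one, ← pow_two]
  have h5 := Int.dvd_of_mul_dvd_mul_left (by exact_mod_cast hp.ne_zero) h4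
  have h6 := Int.le_of_dvd (by norm_num) h5
  have := hp.two_le
  omega

theorem NPt_WP {p : ℕ} (hp : p.Prime) (h5 : 5 ≤ p) : ¬ NPt p 0 0 ≤ WP p := by
  intro h
  have h1 := h (cmX_NPt h5).1
  have hM : cm 0 1 * X 2 ∈ Ml 3 := by
    rw [in_m1]
    exact Submodule.sub_mem _ (Ml_mon (by decide)) (Ml_mon (by decide))
  have h2 := (TK_sub (by norm_num) (KW_add p) h1 hM).1
  rw [in_m1, in_sub, in_sub, cf_mon, cf_mon, cf_mon, cf_mon, if_pos rfl, if_neg (by decide),
    if_neg (by decide), if_neg (by decide), sub_zero, sub_zero] at h2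
  have h6 := Int.le_of_dvd (by norm_num) h2
  have := hp.two_le
  omega

private theorem in_JP {L : List ℕ} (h : L ≠ []) : JP L ∈ Pp := by
  obtain ⟨a, L, rfl⟩ := List.exists_cons_of_ne_nil h
  have key : ∀ (L : List ℕ) (f : P), f ∈ Pp → L.foldl (fun f x => f * X x + X x * f) f ∈ Pp := by
    intro L
    induction L with
    | nil => exact fun f hf => hf
    | cons b L ih => exact fun f hf => ih _ (Pp.add_mem (Pp_mul_right hf _) (Pp_mul_left _ hf))
  exact key L _ (X_mem a)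

theorem NPt_GP {p k : ℕ} (hp : p.Prime) (h5 : 5 ≤ p) (h1 : 1 ≤ k) (hk : k < p) : ¬ NPt p 0 0 ≤ GP p k := by
  intro h
  have hodd : p % 2 = 1 := (hp.eq_two_or_odd).resolve_left (by omega)
  obtain ⟨b, hb0, hb1, hb2⟩ : ∃ b, 1 ≤ b ∧ 2 * b < p ∧ (k + 1 = 2 * b ∨ k = 2 * b ∨ k = 2 * b + 1) :=
    ⟨(k + 1) / 2, by omega, by omega, by omega⟩
  refine EJ_not hp h5 hb1 h1 hk hb2 ?_
  obtain ⟨L, hL⟩ : ∃ L : List ℕ, List.range (2 * b) = 0 :: 1 :: L := by
    obtain ⟨m, hm⟩ : ∃ m, 2 * b = m + 2 := ⟨2 * b - 2, by omega⟩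
    exact ⟨List.range' 2 m, by rw [hm, List.range_eq_range', List.range'_succ, List.range'_succ]⟩
  have hJ : JP (List.range' (2 * b) (p - 2 * b)) ∈ Pp := by
    refine in_JP fun h0 => ?_
    have := congrArg List.length h0
    rw [List.length_range', List.length_nil] at this
    omega
  have hg : CL L * JP (List.range' (2 * b) (p - 2 * b)) ∈ Pp := Pp_mul_left _ hJ
  have e : EJ p b = sb (fun i => if i = 2 then CL L * JP (List.range' (2 * b) (p - 2 * b)) else X i)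
      (cm 0 1 * X 2) := by
    unfold EJ cm
    rw [hL, map_mul, map_sub, map_mul, map_mul, sb_X, sb_X, sb_X, if_pos rfl, if_neg (by norm_num),
      if_neg (by norm_num), ← mul_assoc]
    rfl
  rw [e]
  refine sb_mem (GP_isT (by omega)) (fun i => ?_) (h (cmX_NPt h5).1)
  split_ifs
  · exact hg
  · exact X_mem i

end ADC
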