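import Pool.Agent.ADC.KGs
import Pool.Agent.ADC.TOpW
import Pool.Agent.ADC.LinP

/-!
# ADC-GenW: `WP p` is the T-ideal generated by `p x`, `xyz + yzx + zxy`, `xyzt`
-/

namespace ADC

open AD ADN

private theorem gw_cf_sub (w : List ℕ) (f g : P) : cf w (f - g) = cf w f - cf w g := by
  have h := cf_smul w (-1) g
  rw [sub_eq_add_neg, cf_add, ← neg_one_smul ℤ g, h]
  ring

private theorem gw_cf_zero (w : List ℕ) : cf w (0 : P) = 0 := by
  have h := cf_smul w 0 (0 : P)
  rwa [zero_smul, zero_mul] at h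

private theorem gw_cf_wp (φ : List ℕ → Prop) [DecidablePred φ] (u : List ℕ) (f : P) :
    cf u (wp φ f) = if φ u then cf u f else 0 := by
  refine ind_mon (C := fun f => cf u (wp φ f) = if φ u then cf u f else 0) ?_ ?_ ?_ ?_ f
  · rw [map_zero, gw_cf_zero, ite_self]
  · intro f g hf hg
    rw [map_add, cf_add, hf, hg, cf_add]
    by_cases h : φ u
    · rw [if_pos h, if_pos h, if_pos h]
    · rw [if_neg h, if_neg h, if_neg h, add_zero]
  · intro c f hf
    rw [map_smul, cf_smul, hf, cf_smul]
    by_cases h : φ u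
    · rw [if_pos h, if_pos h]
    · rw [if_neg h, if_neg h, mul_zero]
  · intro w
    rw [wp_mon]
    by_cases hw : φ w
    · rw [if_pos hw, cf_mon]
      by_cases hu : w = u
      · subst hu
        rw [if_pos rfl, if_pos hw]
      · rw [if_neg hu, ite_self]
    · rw [if_neg hw, gw_cf_zero, cf_mon]
      by_cases hu : w = u
      · subst hu
        rw [if_neg hw]
      · rw [if_neg hu, ite_self]

private theorem gw_cf_cons (a b : ℕ) (u : List ℕ) (g : P) :
    cf (a :: u) (X b * g) = if b = a then cf u g else 0 := by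
  refine ind_mon (C := fun g => cf (a :: u) (X b * g) = if b = a then cf u g else 0) ?_ ?_ ?_ ?_ g
  · rw [mul_zero, gw_cf_zero, gw_cf_zero, ite_self]
  · intro f g hf hg
    rw [mul_add, cf_add, hf, hg, cf_add]
    by_cases h : b = a
    · rw [if_pos h, if_pos h, if_pos h]
    · rw [if_neg h, if_neg h, if_neg h, add_zero]
  · intro c f hf
    rw [mul_smul_comm, cf_smul, hf, cf_smul]
    by_cases h : b = a
    · rw [if_pos h, if_pos h]
    · rw [if_neg h, if_neg h, mul_zero]
  · intro w
    rw [← mon_cons, cf_mon, cf_mon]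
    by_cases h : b = a
    · subst h
      rw [if_pos rfl]
      by_cases hw : w = u
      · rw [if_pos hw, if_pos (by rw [hw])]
      · rw [if_neg hw, if_neg (fun h' => hw (List.cons.inj h').2)]
    · rw [if_neg h, if_neg (fun h' => h (List.cons.inj h').1)]

private theorem gw_cf_snoc (m m' : ℕ) (u : List ℕ) (f : P) :
    cf (u ++ [m]) (f * X m') = if m' = m then cf u f else 0 := by
  refine ind_mon (C := fun f => cf (u ++ [m]) (f * X m') = if m' = m then cf u f else 0) ?_ ?_ ?_ ?_ f
  · rw [zero_mul, gw_cf_zero, gw_cf_zero, ite_self]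
  · intro f g hf hg
    rw [add_mul, cf_add, hf, hg, cf_add]
    by_cases h : m' = m
    · rw [if_pos h, if_pos h, if_pos h]
    · rw [if_neg h, if_neg h, if_neg h, add_zero]
  · intro c f hf
    rw [smul_mul_assoc, cf_smul, hf, cf_smul]
    by_cases h : m' = m
    · rw [if_pos h, if_pos h]
    · rw [if_neg h, if_neg h, mul_zero]
  · intro w
    rw [← mon_single m', ← mon_append, cf_mon, cf_mon]
    by_cases h : m' = m
    · subst h
      rw [if_pos rfl]
      by_cases hw : w = u
      · rw [if_pos hw, if_pos (by rw [hw])]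
      · rw [if_neg hw, if_neg (fun h' => hw (List.append_cancel_right h'))]
    · rw [if_neg h, if_neg]
      intro h'
      have h2 := List.append_inj_right' h' rfl
      exact h (List.cons.inj h2).1

/-- the substitution -/
private noncomputable def gwψ (v : ℕ → ℕ) (m : ℕ) : P := ∑ t ∈ Finset.range 3, if v t = m then X t else 0

private theorem gwψ_mem (v : ℕ → ℕ) (m : ℕ) : gwψ v m ∈ Pp := by
  unfold gwψ
  refine Submodule.sum_mem _ fun t _ => ?_
  by_cases h : v t = m
  · rw [if_pos h]; exact X_mem t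
  · rw [if_neg h]; exact Submodule.zero_mem _

private theorem gw_cf_sum (u : List ℕ) (s : Finset ℕ) (F : ℕ → P) : cf u (∑ t ∈ s, F t) = ∑ t ∈ s, cf u (F t) := by
  classical
  induction s using Finset.induction_on with
  | empty => rw [Finset.sum_empty, Finset.sum_empty, gw_cf_zero]
  | insert a s ha ih => rw [Finset.sum_insert ha, Finset.sum_insert ha, cf_add, ih]

private theorem gw_ψ (v : ℕ → ℕ) : ∀ (u w : List ℕ), (∀ a ∈ u, a < 3) →
    cf u ((w.map (gwψ v)).prod) = if w = u.map v then 1 else 0 := by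
  intro u
  induction u with
  | nil =>
    intro w _
    rw [List.map_nil]
    cases w with
    | nil => rw [List.map_nil, List.prod_nil, if_pos rfl, ← mon_nil, cf_mon, if_pos rfl]
    | cons m w =>
      rw [if_neg (List.cons_ne_nil m w), cf_nil, List.map_cons, List.prod_cons, map_mul,
        mem_Pp.1 (gwψ_mem v m), zero_mul]
  | cons a u ih =>
    intro w hu
    cases w with
    | nil =>
      rw [List.map_nil, List.prod_nil, ← mon_nil, cf_mon, if_neg (List.cons_ne_nil a u).symm,
        List.map_cons, if_neg (List.cons_ne_nil _ _).symm]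
    | cons m w =>
      rw [List.map_cons, List.prod_cons, List.map_cons]
      have h1 : gwψ v m * (w.map (gwψ v)).prod =
          ∑ t ∈ Finset.range 3, (if v t = m then X t * (w.map (gwψ v)).prod else 0) := by
        conv_lhs => rw [gwψ, Finset.sum_mul]
        refine Finset.sum_congr rfl fun t _ => ?_
        by_cases h : v t = m
        · rw [if_pos h, if_pos h]
        · rw [if_neg h, if_neg h, zero_mul]
      rw [h1, gw_cf_sum]
      have h2 : ∀ t ∈ Finset.range 3, cf (a :: u) (if v t = m then X t * (w.map (gwψ v)).prod else 0) =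
          if t = a then (if v a = m then cf u ((w.map (gwψ v)).prod) else 0) else 0 := by
        intro t _
        by_cases h : v t = m
        · rw [if_pos h, gw_cf_cons]
          by_cases h' : t = a
          · subst h'
            rw [if_pos rfl, if_pos rfl, if_pos h]
          · rw [if_neg h', if_neg h']
        · rw [if_neg h, gw_cf_zero]
          by_cases h' : t = a
          · subst h'
            rw [if_pos rfl, if_neg h]
          · rw [if_neg h']
      rw [Finset.sum_congr rfl h2, Finset.sum_ite_eq' (Finset.range 3) a,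
        if_pos (Finset.mem_range.2 (hu a (by simp))), ih w (fun b hb => hu b (List.mem_cons_of_mem _ hb))]
      by_cases h : v a = m
      · rw [if_pos h]
        by_cases h' : w = u.map v
        · rw [if_pos h', if_pos (by rw [h', h])]
        · rw [if_neg h', if_neg (fun h2 => h' (List.cons.inj h2).2)]
      · rw [if_neg h, if_neg (fun h2 => h (List.cons.inj h2).1.symm)]

private theorem gw_ψf (v : ℕ → ℕ) (u : List ℕ) (hu : ∀ a ∈ u, a < 3) (f : P) :
    cf u (sb (gwψ v) f) = cf (u.map v) f := by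
  refine ind_mon (C := fun f => cf u (sb (gwψ v) f) = cf (u.map v) f) ?_ ?_ ?_ ?_ f
  · rw [map_zero, gw_cf_zero, gw_cf_zero]
  · intro f g hf hg
    rw [map_add, cf_add, cf_add, hf, hg]
  · intro c f hf
    rw [map_zsmul, cf_smul, cf_smul, hf]
  · intro w
    rw [sb_mon, gw_ψ v u w hu, cf_mon]

private theorem gw_perm {p n : ℕ} {w : List ℕ} (h : qw p n w) (hl : ¬ n < w.length) :
    w.Perm (List.range n) := by
  have h1 : List.range n ⊆ w := by
    intro i hi
    have h2 := h.2 i (List.mem_range.1 hi)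
    by_contra h3
    rw [List.count_eq_zero_of_not_mem h3, Nat.zero_mod] at h2
    omega
  have h2 : (List.range n).Subperm w := List.subperm_of_subset List.nodup_range h1
  refine (h2.perm_of_length_le ?_).symm
  rw [List.length_range]
  omega

private theorem gw_diff {p : ℕ} (h3 : 3 ≤ p) (x : P) :
    wp (qw p 3) x - wp (fun w => w.Perm (List.range 3)) x ∈ Fge 4 := by
  refine ind_mon (C := fun x => wp (qw p 3) x - wp (fun w => w.Perm (List.range 3)) x ∈ Fge 4) ?_ ?_ ?_ ?_ x
  · rw [map_zero, map_zero, sub_zero]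
    exact Submodule.zero_mem _
  · intro f g hf hg
    rw [map_add, map_add, add_sub_add_comm]
    exact Submodule.add_mem _ hf hg
  · intro c f hf
    rw [map_smul, map_smul, ← smul_sub]
    exact Submodule.smul_mem _ _ hf
  · intro w
    by_cases hw : w.Perm (List.range 3)
    · rw [wp_pos (qw_of_perm h3 hw), wp_pos (φ := fun w => w.Perm (List.range 3)) hw, sub_self]
      exact Submodule.zero_mem _
    · rw [wp_neg (φ := fun w => w.Perm (List.range 3)) hw, sub_zero]
      by_cases hq : qw p 3 w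
      · rw [wp_pos hq]
        have hl : 3 < w.length := by
          by_contra hl
          exact hw (gw_perm hq hl)
        exact Submodule.subset_span ⟨w, hl, rfl⟩
      · rw [wp_neg hq]
        exact Submodule.zero_mem _

private theorem gw_key {p : ℕ} (hp : p.Prime) (h5 : 5 ≤ p) {f : P} (hf : f ∈ WP p) (i j k : ℕ) :
    (p : ℤ) ∣ cf [i, j, k] f - cf [j, k, i] f := by
  classical
  set v : ℕ → ℕ := fun t => if t = 0 then i else if t = 1 then j else k with hv
  have hg : sb (gwψ v) f ∈ WP p := sb_mem (WP_isT p) (gwψ_mem v) hf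
  have hg1 : wp (qw p 3) (sb (gwψ v) f) ∈ WP p :=
    TOp_qw hp (by omega) 3 (WP p) (WP_isT p) (Mul.sq (WP_p p)) _ hg
  have hg2 : wp (fun w => w.Perm (List.range 3)) (sb (gwψ v) f) ∈ WP p := by
    have h1 := (WP p).sub_mem hg1 (Fge_le_TK (by norm_num) (KW_add p) (gw_diff (p := p) (by omega) (sb (gwψ v) f)))
    rwa [sub_sub_cancel] at h1
  have hg3 : wp (fun w => w.Perm (List.range 3)) (sb (gwψ v) f) ∈ Ml 3 := wp_mem _ _
  have hg4 := TK_sub (by norm_num) (KW_add p) hg2 hg3
  have h1 := hg4.1
  rw [gw_cf_wp, gw_cf_wp, if_pos (by decide), if_pos (by decide), gw_ψf v [0, 1, 2] (by decide),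
    gw_ψf v [1, 2, 0] (by decide)] at h1
  exact h1

private theorem gw_key2 {p : ℕ} (hp : p.Prime) (h5 : 5 ≤ p) {f : P} (hf : f ∈ WP p) (i j : ℕ) :
    (p : ℤ) ∣ cf [i, j] f := by
  have h1 := gw_key hp h5 ((WP_isT p).mul_right f hf (X (i + 1))) i j (i + 1)
  have h2 := gw_cf_snoc (i + 1) (i + 1) [i, j] f
  have h3 := gw_cf_snoc i (i + 1) [j, i + 1] f
  rw [if_pos rfl] at h2
  rw [if_neg (by omega)] at h3
  have h4 : [i, j] ++ [i + 1] = [i, j, i + 1] := rfl
  have h5 : [j, i + 1] ++ [i] = [j, i + 1, i] := rfl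
  rw [h4] at h2
  rw [h5] at h3
  rw [h2, h3, sub_zero] at h1
  exact h1

private theorem gw_key1 {p : ℕ} (hp : p.Prime) (h5 : 5 ≤ p) {f : P} (hf : f ∈ WP p) (i : ℕ) :
    (p : ℤ) ∣ cf [i] f := by
  have h1 := gw_key2 hp h5 ((WP_isT p).mul_right f hf (X 0)) i 0
  have h2 := gw_cf_snoc 0 0 [i] f
  rw [if_pos rfl] at h2
  have h4 : [i] ++ [0] = [i, 0] := rfl
  rw [h4] at h2
  rwa [h2] at h1

private theorem gw_div {p : ℕ} {D : Submodule ℤ P} (hm : Mul p D) {g : P} (h0 : cf [] g = 0)
    (h : ∀ w, (p : ℤ) ∣ cf w g) : g ∈ D := by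
  obtain ⟨s, -, hg⟩ := eq_sum_cf g
  rw [hg]
  refine D.sum_mem fun w _ => ?_
  by_cases hw : w = []
  · rw [hw, h0, zero_smul]
    exact D.zero_mem
  · obtain ⟨c, hc⟩ := h w
    rw [hc, mul_comm, mul_smul]
    exact D.smul_mem _ (hm _ (mon_mem hw))

private noncomputable def gwC : P →ₗ[ℤ] P := lm (fun w => if w.length = 3 then mon (w.rotate 1) else 0)

private theorem gwC_mon (w : List ℕ) : gwC (mon w) = if w.length = 3 then mon (w.rotate 1) else 0 := lm_mon _ w

private theorem gw_len3 {w : List ℕ} (h : w.length = 3) : ∃ a b c, w = [a, b, c] := List.length_eq_three.1 h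

private theorem gwC_cf (x y z : ℕ) (f : P) : cf [x, y, z] (gwC f) = cf [z, x, y] f := by
  refine ind_mon (C := fun f => cf [x, y, z] (gwC f) = cf [z, x, y] f) ?_ ?_ ?_ ?_ f
  · rw [map_zero, gw_cf_zero, gw_cf_zero]
  · intro f g hf hg
    rw [map_add, cf_add, cf_add, hf, hg]
  · intro c f hf
    rw [map_smul, cf_smul, cf_smul, hf]
  · intro w
    rw [gwC_mon, cf_mon]
    by_cases hl : w.length = 3
    · rw [if_pos hl]
      obtain ⟨a, b, c, rfl⟩ := gw_len3 hl
      have h1 : [a, b, c].rotate 1 = [b, c, a] := rfl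
      rw [h1, cf_mon]
      have h2 : ([b, c, a] = [x, y, z]) ↔ ([a, b, c] = [z, x, y]) := by
        simp only [List.cons.injEq, and_true]
        tauto
      simp only [h2]
    · rw [if_neg hl, gw_cf_zero, if_neg]
      intro h'
      rw [h'] at hl
      exact hl rfl

private theorem gwC_cf' {u : List ℕ} (hu : u.length ≠ 3) (f : P) : cf u (gwC f) = 0 := by
  refine ind_mon (C := fun f => cf u (gwC f) = 0) ?_ ?_ ?_ ?_ f
  · rw [map_zero, gw_cf_zero]
  · intro f g hf hg
    rw [map_add, cf_add, hf, hg, add_zero]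
  · intro c f hf
    rw [map_smul, cf_smul, hf, mul_zero]
  · intro w
    rw [gwC_mon]
    by_cases hl : w.length = 3
    · rw [if_pos hl, cf_mon, if_neg]
      intro h'
      rw [← h', List.length_rotate] at hu
      exact hu hl
    · rw [if_neg hl, gw_cf_zero]

theorem WP_gmem {p : ℕ} : (p : ℤ) • X 0 ∈ WP p ∧ X 0 * X 1 * X 2 + X 1 * X 2 * X 0 + X 2 * X 0 * X 1 ∈ WP p ∧ mw 4 ∈ WP p := by
  refine ⟨WP_p p _ (X_mem 0), ?_, ?_⟩
  · have h1 : X 0 * X 1 * X 2 + X 1 * X 2 * X 0 + X 2 * X 0 * X 1 =
        mon [0, 1, 2] + mon [1, 2, 0] + mon [2, 0, 1] := by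
      simp only [mon_cons, mon_nil, mul_one, mul_assoc]
    have h2 : mon [0, 1, 2] + mon [1, 2, 0] + mon [2, 0, 1] ∈ Ml 3 :=
      Submodule.add_mem _ (Submodule.add_mem _ (Ml_mon (by decide)) (Ml_mon (by decide))) (Ml_mon (by decide))
    have h3 : mon [0, 1, 2] + mon [1, 2, 0] + mon [2, 0, 1] ∈ KW p := by
      show _ ∧ _ ∧ _ ∧ _
      simp only [cf_add, cf_mon]
      refine ⟨?_, ?_, ?_, ?_⟩ <;> simp
    rw [h1]
    exact TK_mem (by norm_num) (KW_add p) h2 fun σ => KW_rn h2 h3 σ
  · exact Fge_le_TK (by norm_num) (KW_add p) (Submodule.subset_span ⟨List.range 4, by simp, rfl⟩)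

private theorem gw_mul {p : ℕ} {D : Submodule ℤ P} (hD : IsT D) (h1 : (p : ℤ) • X 0 ∈ D) : Mul p D := by
  intro f hf
  have h := sb_mem hD (φ := fun _ => f) (fun _ => hf) h1
  rwa [map_zsmul, sb_X] at h

private theorem gw_four {D : Submodule ℤ P} (hD : IsT D) (h3 : mw 4 ∈ D) : Fge 4 ≤ D := by
  refine Submodule.span_le.2 ?_
  rintro f ⟨w, hw, rfl⟩
  obtain ⟨a, w, rfl⟩ : ∃ a t, w = a :: t := by
    cases w with
    | nil => simp at hw
    | cons a t => exact ⟨a, t, rfl⟩
  obtain ⟨b, w, rfl⟩ : ∃ a t, w = a :: t := by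
    cases w with
    | nil => simp at hw
    | cons a t => exact ⟨a, t, rfl⟩
  obtain ⟨c, w, rfl⟩ : ∃ a t, w = a :: t := by
    cases w with
    | nil => simp at hw
    | cons a t => exact ⟨a, t, rfl⟩
  obtain ⟨d, w, rfl⟩ : ∃ a t, w = a :: t := by
    cases w with
    | nil => simp at hw
    | cons a t => exact ⟨a, t, rfl⟩
  have h1 := sb_mem hD (φ := fun i => X (if i = 0 then a else if i = 1 then b else if i = 2 then c else d))
    (fun i => X_mem _) h3
  have h2 : List.range 4 = [0, 1, 2, 3] := rfl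
  rw [mw, h2, sb_mon] at h1
  have h4 := hD.mul_right _ h1 (mon w)
  have h5 : (([0, 1, 2, 3] : List ℕ).map
      (fun i => X (if i = 0 then a else if i = 1 then b else if i = 2 then c else d))).prod * mon w =
      mon (a :: b :: c :: d :: w) := by
    simp [mon_cons, mul_assoc]
  rw [h5] at h4
  exact h4

private theorem gw_three {D : Submodule ℤ P} (hD : IsT D)
    (h2 : X 0 * X 1 * X 2 + X 1 * X 2 * X 0 + X 2 * X 0 * X 1 ∈ D) (a b c : ℕ) :
    mon [a, b, c] + mon [b, c, a] + mon [c, a, b] ∈ D := by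
  have h1 := sb_mem hD (φ := fun i => X (if i = 0 then a else if i = 1 then b else c))
    (fun i => X_mem _) h2
  simp only [map_add, map_mul, sb_X] at h1
  have h3 : mon [a, b, c] + mon [b, c, a] + mon [c, a, b] =
      X a * X b * X c + X b * X c * X a + X c * X a * X b := by
    simp only [mon_cons, mon_nil, mul_one, mul_assoc]
  rw [h3]
  simpa using h1

private theorem gw_A {D : Submodule ℤ P} (hD : IsT D)
    (h2 : X 0 * X 1 * X 2 + X 1 * X 2 * X 0 + X 2 * X 0 * X 1 ∈ D) (x : P) :
    wp (fun w => w.length = 3) x + gwC x + gwC (gwC x) ∈ D := by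
  refine ind_mon (C := fun x => wp (fun w => w.length = 3) x + gwC x + gwC (gwC x) ∈ D) ?_ ?_ ?_ ?_ x
  · simp
  · intro f g hf hg
    have h : wp (fun w => w.length = 3) (f + g) + gwC (f + g) + gwC (gwC (f + g)) =
        (wp (fun w => w.length = 3) f + gwC f + gwC (gwC f)) +
        (wp (fun w => w.length = 3) g + gwC g + gwC (gwC g)) := by
      simp only [map_add]
      abel
    rw [h]
    exact D.add_mem hf hg
  · intro c f hf
    have h : wp (fun w => w.length = 3) (c • f) + gwC (c • f) + gwC (gwC (c • f)) =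
        c • (wp (fun w => w.length = 3) f + gwC f + gwC (gwC f)) := by
      simp only [map_smul, smul_add]
    rw [h]
    exact D.smul_mem _ hf
  · intro w
    by_cases hl : w.length = 3
    · obtain ⟨a, b, c, rfl⟩ := gw_len3 hl
      rw [wp_pos (φ := fun w => w.length = 3) hl, gwC_mon, if_pos hl]
      have h1 : [a, b, c].rotate 1 = [b, c, a] := rfl
      have h3 : [b, c, a].rotate 1 = [c, a, b] := rfl
      rw [h1, gwC_mon, if_pos (show [b, c, a].length = 3 from rfl), h3]
      exact gw_three hD h2 a b c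
    · rw [wp_neg (φ := fun w => w.length = 3) hl, gwC_mon, if_neg hl, map_zero, add_zero, add_zero]
      exact D.zero_mem

private theorem gw_split (f : P) : f = wp (fun w => 4 ≤ w.length) f + wp (fun w => w.length = 3) f +
    wp (fun w => w.length ≤ 2) f := by
  refine ind_mon (C := fun f => f = wp (fun w => 4 ≤ w.length) f + wp (fun w => w.length = 3) f +
    wp (fun w => w.length ≤ 2) f) ?_ ?_ ?_ ?_ f
  · simp
  · intro f g hf hg
    simp only [map_add]
    conv_lhs => rw [hf, hg]
    abel
  · intro c f hf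
    simp only [map_smul, ← smul_add]
    rw [← hf]
  · intro w
    rcases Nat.lt_or_ge w.length 3 with h | h
    · rw [wp_neg (φ := fun w => 4 ≤ w.length) (by omega), wp_neg (φ := fun w => w.length = 3) (by omega),
        wp_pos (φ := fun w => w.length ≤ 2) (by omega), zero_add, zero_add]
    · rcases Nat.eq_or_lt_of_le h with h | h
      · rw [wp_neg (φ := fun w => 4 ≤ w.length) (by omega), wp_pos (φ := fun w => w.length = 3) h.symm,
          wp_neg (φ := fun w => w.length ≤ 2) (by omega), zero_add, add_zero]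
      · rw [wp_pos (φ := fun w => 4 ≤ w.length) h, wp_neg (φ := fun w => w.length = 3) (by omega),
          wp_neg (φ := fun w => w.length ≤ 2) (by omega), add_zero, add_zero]

theorem WP_gen {p : ℕ} (hp : p.Prime) (h5 : 5 ≤ p) {D : Submodule ℤ P} (hD : IsT D) (h1 : (p : ℤ) • X 0 ∈ D)
    (h2 : X 0 * X 1 * X 2 + X 1 * X 2 * X 0 + X 2 * X 0 * X 1 ∈ D) (h3 : mw 4 ∈ D) : WP p ≤ D := by
  intro f hf
  have hm : Mul p D := gw_mul hD h1
  have hfP : f ∈ Pp := (WP_isT p).le hf
  have hf0 : cf [] f = 0 := by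
    rw [cf_nil]
    exact mem_Pp.1 hfP
  -- length at least 4
  have e4 : wp (fun w => 4 ≤ w.length) f ∈ D := gw_four hD h3 (wp_mem _ f)
  -- length at most 2
  have e2 : wp (fun w => w.length ≤ 2) f ∈ D := by
    refine gw_div hm ?_ ?_
    · rw [gw_cf_wp, hf0, ite_self]
    · intro w
      rw [gw_cf_wp]
      by_cases hw : w.length ≤ 2
      · rw [if_pos hw]
        match w, hw with
        | [], _ => rw [hf0]; exact dvd_zero _
        | [i], _ => exact gw_key1 hp h5 hf i
        | [i, j], _ => exact gw_key2 hp h5 hf i j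
        | _ :: _ :: _ :: _, hw => simp at hw
      · rw [if_neg hw]
        exact dvd_zero _
  -- length 3
  have c0 : ∀ g : P, cf [] (wp (fun w => w.length = 3) f - gwC g) = 0 := by
    intro g
    rw [gw_cf_sub, gw_cf_wp, if_neg (by simp), gwC_cf' (by simp), sub_zero]
  have e3a : wp (fun w => w.length = 3) f - gwC f ∈ D := by
    refine gw_div hm (c0 f) ?_
    intro w
    rw [gw_cf_sub, gw_cf_wp]
    by_cases hl : w.length = 3
    · rw [if_pos hl]
      obtain ⟨a, b, c, rfl⟩ := gw_len3 hl
      rw [gwC_cf]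
      have h := gw_key hp h5 hf c a b
      rw [← dvd_neg, neg_sub] at h
      exact h
    · rw [if_neg hl, gwC_cf' hl, sub_zero]
      exact dvd_zero _
  have e3b : wp (fun w => w.length = 3) f - gwC (gwC f) ∈ D := by
    refine gw_div hm (c0 (gwC f)) ?_
    intro w
    rw [gw_cf_sub, gw_cf_wp]
    by_cases hl : w.length = 3
    · rw [if_pos hl]
      obtain ⟨a, b, c, rfl⟩ := gw_len3 hl
      rw [gwC_cf, gwC_cf]
      exact gw_key hp h5 hf a b c
    · rw [if_neg hl, gwC_cf' hl, sub_zero]
      exact dvd_zero _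
  have e3 : wp (fun w => w.length = 3) f ∈ D := by
    refine cancel hp (Mul.sq hm) (c := 3) ?_ ?_ ?_
    · intro h
      have h6 := Int.le_of_dvd (by norm_num) h
      omega
    · rw [mem_Pp, ← cf_nil, gw_cf_wp, if_neg (by simp)]
    · have h6 : (3 : ℤ) • wp (fun w => w.length = 3) f =
          (wp (fun w => w.length = 3) f + gwC f + gwC (gwC f)) +
          (wp (fun w => w.length = 3) f - gwC f) + (wp (fun w => w.length = 3) f - gwC (gwC f)) := by
        have h7 : (3 : ℤ) • wp (fun w => w.length = 3) f = wp (fun w => w.length = 3) f +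
            wp (fun w => w.length = 3) f + wp (fun w => w.length = 3) f := by
          rw [show (3 : ℤ) = 1 + 1 + 1 from rfl, add_smul, add_smul, one_smul]
        rw [h7]
        abel
      rw [h6]
      exact D.add_mem (D.add_mem (gw_A hD h2 f) e3a) e3b
  rw [gw_split f]
  exact D.add_mem (D.add_mem e4 e3) e2

end ADC
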