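import Pool.Agent.ADC.Main2
import Pool.Agent.ADC.GenN
import Pool.Agent.ADC.GenW
import Pool.Agent.ADC.FdP
import Pool.Agent.ADA.ExpMain

/-!
# ADC-Fin

The theorem for varieties of rings.
-/

namespace ADC

open AD ADN ADA

theorem Mod_eq {S : Set P} {T : Submodule ℤ P} (hT : IsT T) (hS : S ⊆ (T : Set P))
    (hg : ∀ D, IsT D → S ⊆ (D : Set P) → T ≤ D) : AD.Mod S = AD.Mod (T : Set P) := by
  apply Set.Subset.antisymm
  · have hV : IsVariety (AD.Mod S) := ⟨S, fun f hf => hT.le (hS hf), rfl⟩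
    obtain ⟨D, hD, hD2, hD3⟩ := exists_T hV
    have h1 : S ⊆ (D : Set P) := by
      rw [hD2]
      exact fun f hf => ⟨hT.le (hS hf), fun R hR => hR f hf⟩
    rw [hD3]
    exact mod_anti (hg D hD h1)
  · exact mod_anti hS

/-- `U_p` -/
def VU (p : ℕ) : Set RingObj := AD.Mod {(p : ℤ) ^ 2 • X 0, (p : ℤ) • (X 0 * X 1), X 0 * X 1 - X 1 * X 0,
  mon (List.range (p + 1))}

/-- `W_p` -/
def VW (p : ℕ) : Set RingObj := AD.Mod {(p : ℤ) • X 0, X 0 * X 1 * X 2 + X 1 * X 2 * X 0 + X 2 * X 0 * X 1,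
  mon (List.range 4)}

/-- `N_p` -/
def VN (p : ℕ) : Set RingObj := AD.Mod {(p : ℤ) • X 0, X 0 * (X 1 * X 2 - X 2 * X 1), (X 0 * X 1 - X 1 * X 0) * X 2,
  X 0 ^ p * X 1 + X 0 * X 1 ^ p, mon (List.range (p + 2))}

/-- `G_{p,k}` -/
def VG (p k : ℕ) : Set RingObj := AD.Mod (GId p k)

/-- the list -/
def VL (p : ℕ) : Set (Set RingObj) := {V | V = VU p ∨ V = VW p ∨ V = VN p ∨ ∃ k, 1 ≤ k ∧ k < p ∧ V = VG p k}

theorem VU_eq {p : ℕ} (hp : p.Prime) : VU p = AD.Mod (UP p : Set P) := by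
  refine Mod_eq isT_UP ?_ ?_
  · rintro f (rfl | rfl | rfl | rfl)
    · exact UP_mem.1
    · exact UP_mem.2.1
    · exact UP_mem.2.2.1
    · exact UP_mem.2.2.2
  · intro D hD h
    exact UP_gen hp hD (h (Or.inl rfl)) (h (Or.inr (Or.inl rfl))) (h (Or.inr (Or.inr (Or.inl rfl))))
      (h (Or.inr (Or.inr (Or.inr rfl))))

theorem VW_eq {p : ℕ} (hp : p.Prime) (h5 : 5 ≤ p) : VW p = AD.Mod (WP p : Set P) := by
  refine Mod_eq (WP_isT p) ?_ ?_
  · rintro f (rfl | rfl | rfl)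
    · exact WP_gmem.1
    · exact WP_gmem.2.1
    · exact WP_gmem.2.2
  · intro D hD h
    exact WP_gen hp h5 hD (h (Or.inl rfl)) (h (Or.inr (Or.inl rfl))) (h (Or.inr (Or.inr rfl)))

theorem VN_eq {p : ℕ} (hp : p.Prime) (h5 : 5 ≤ p) : VN p = AD.Mod (NPt p 0 0 : Set P) := by
  refine Mod_eq (NPt_isT hp h5 0 0) ?_ ?_
  · rintro f (rfl | rfl | rfl | rfl | rfl)
    · exact (NPt_gmem hp h5).1
    · exact (NPt_gmem hp h5).2.1
    · exact (NPt_gmem hp h5).2.2.1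
    · exact (NPt_gmem hp h5).2.2.2.1
    · exact (NPt_gmem hp h5).2.2.2.2
  · intro D hD h
    exact NPt_gen hp h5 hD (h (Or.inl rfl)) (h (Or.inr (Or.inl rfl))) (h (Or.inr (Or.inr (Or.inl rfl))))
      (h (Or.inr (Or.inr (Or.inr (Or.inl rfl))))) (h (Or.inr (Or.inr (Or.inr (Or.inr rfl)))))

theorem VG_eq {p k : ℕ} (hp : 1 ≤ p) : VG p k = AD.Mod (GP p k : Set P) := by
  unfold VG
  rw [GId_eq hp]

theorem VL_iff {p : ℕ} (hp : p.Prime) (h5 : 5 ≤ p) {V : Set RingObj} :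
    V ∈ VL p ↔ ∃ E ∈ Lst p, V = AD.Mod (E : Set P) := by
  constructor
  · rintro (rfl | rfl | rfl | ⟨k, h1, h2, rfl⟩)
    · exact ⟨_, Or.inl rfl, VU_eq hp⟩
    · exact ⟨_, Or.inr (Or.inl rfl), VW_eq hp h5⟩
    · exact ⟨_, Or.inr (Or.inr (Or.inl rfl)), VN_eq hp h5⟩
    · exact ⟨_, Or.inr (Or.inr (Or.inr ⟨k, h1, h2, rfl⟩)), VG_eq (by omega)⟩
  · rintro ⟨E, rfl | rfl | rfl | ⟨k, h1, h2, rfl⟩, rfl⟩
    · exact Or.inl (VU_eq hp).symm
    · exact Or.inr (Or.inl (VW_eq hp h5).symm)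
    · exact Or.inr (Or.inr (Or.inl (VN_eq hp h5).symm))
    · exact Or.inr (Or.inr (Or.inr ⟨k, h1, h2, (VG_eq (by omega)).symm⟩))

theorem VL_alm {p : ℕ} (hp : p.Prime) (h5 : 5 ≤ p) {V : Set RingObj} (hV : V ∈ VL p) :
    AlmostDistributive V := by
  obtain ⟨E, hE, rfl⟩ := (VL_iff hp h5).1 hV
  exact almDist_mod (Lst_alm hp h5 hE)

theorem Lst_card {p : ℕ} (hp : p.Prime) (h5 : 5 ≤ p) : (Lst p).ncard = p + 2 := by
  classical
  have h0 : (Lst p) = ((insert (UP p) (insert (WP p) (insert (NPt p 0 0)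
      ((Finset.Ico 1 p).image (GP p))))) : Finset (Submodule ℤ P)) := by
    ext E
    simp only [Lst, Set.mem_setOf_eq, Finset.coe_insert, Finset.coe_image, Set.mem_insert_iff, Set.mem_image,
      Finset.mem_coe, Finset.mem_Ico]
    constructor
    · rintro (h | h | h | ⟨k, h1, h2, h⟩)
      · exact Or.inl h
      · exact Or.inr (Or.inl h)
      · exact Or.inr (Or.inr (Or.inl h))
      · exact Or.inr (Or.inr (Or.inr ⟨k, ⟨h1, h2⟩, h.symm⟩))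
    · rintro (h | h | h | ⟨k, ⟨h1, h2⟩, h⟩)
      · exact Or.inl h
      · exact Or.inr (Or.inl h)
      · exact Or.inr (Or.inr (Or.inl h))
      · exact Or.inr (Or.inr (Or.inr ⟨k, h1, h2, h.symm⟩))
  rw [h0, Set.ncard_coe_finset, Finset.card_insert_of_notMem, Finset.card_insert_of_notMem,
    Finset.card_insert_of_notMem, Finset.card_image_of_injOn, Nat.card_Ico]
  · omega
  · intro k hk k' hk' h
    have h1 := Finset.mem_Ico.1 hk
    have h2 := Finset.mem_Ico.1 hk'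
    exact GP_inj hp h5 h1.1 h1.2 h2.1 h2.2 h.le
  · intro h
    obtain ⟨k, hk, h⟩ := Finset.mem_image.1 h
    have h1 := Finset.mem_Ico.1 hk
    exact NPt_GP hp h5 h1.1 h1.2 h.ge
  · intro h
    rcases Finset.mem_insert.1 h with h | h
    · exact WP_NPt hp h5 h.le
    · obtain ⟨k, hk, h⟩ := Finset.mem_image.1 h
      have h1 := Finset.mem_Ico.1 hk
      exact WP_GP hp h5 h1.2 h.ge
  · intro h
    rcases Finset.mem_insert.1 h with h | h
    · exact UP_WP hp h.le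
    rcases Finset.mem_insert.1 h with h | h
    · exact UP_NPt hp h.le
    · obtain ⟨k, hk, h⟩ := Finset.mem_image.1 h
      have h1 := Finset.mem_Ico.1 hk
      exact UP_GP hp h5 h1.1 h1.2 h.ge

theorem mod_inj {A B : Submodule ℤ P} (hA : IsT A) (hB : IsT B)
    (h : AD.Mod (A : Set P) = AD.Mod (B : Set P)) : A = B :=
  le_antisymm (le_of_mod hA hB h.ge) (le_of_mod hB hA h.le)

theorem VL_card {p : ℕ} (hp : p.Prime) (h5 : 5 ≤ p) : (VL p).ncard = p + 2 := by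
  have h : VL p = (fun E : Submodule ℤ P => AD.Mod (E : Set P)) '' Lst p := by
    ext V
    rw [VL_iff hp h5]
    constructor
    · rintro ⟨E, hE, rfl⟩
      exact ⟨E, hE, rfl⟩
    · rintro ⟨E, hE, rfl⟩
      exact ⟨E, hE, rfl⟩
  rw [h, Set.ncard_image_of_injOn, Lst_card hp h5]
  intro E hE E' hE' h
  exact mod_inj (Lst_isT hp h5 hE) (Lst_isT hp h5 hE') h

theorem Mul_of {I : Submodule ℤ P} (hI : IsT I) {k : ℤ} (h : k • X 0 ∈ I) : Mul k I := by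
  intro f hf
  exact ADA.mulI_le hI h (expo_mem_mulI.2 ⟨f, hf, rfl⟩)

theorem sq_of {p : ℕ} (hp : p.Prime) {I : Submodule ℤ P} (hI : AlmDist I) {n : ℕ}
    (h : ((p ^ n : ℕ) : ℤ) • X 0 ∈ I) : Mul ((p : ℤ) ^ 2) I := by
  obtain ⟨q, hq, hqI⟩ := exp2 hI
  have h1 : ((q ^ 2 : ℕ) : ℤ) • X 0 ∈ I := by
    apply hqI
    refine expo_mem_mulI.2 ⟨X 0, X_mem 0, ?_⟩
    push_cast
    rfl
  have h2 : q = p := by
    by_contra hne
    have h3 : Nat.Coprime (p ^ n) (q ^ 2) := Nat.Coprime.pow _ _ ((Nat.coprime_primes hp hq).2 (Ne.symm hne))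
    have h4 := gcd_mem h h1
    rw [h3] at h4
    exact not_mem hI (by simpa using h4)
  subst h2
  apply Mul_of hI.1
  have e : (((q ^ 2 : ℕ) : ℤ)) = (q : ℤ) ^ 2 := by push_cast; rfl
  rw [← e]
  exact h1

theorem Fge_of_mw {I : Submodule ℤ P} (hI : IsT I) {n : ℕ} (hn : 1 ≤ n) (h : mw n ∈ I) : Fge n ≤ I := by
  apply Fge_le
  intro w hw
  have h1 : mon w = sb (fun i => X (w.getD i 0)) (mw n) * mon (w.drop n) := by
    have h2 : sb (fun i => X (w.getD i 0)) (mw n) = mon (w.take n) := by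
      unfold mw
      rw [sb_mon]
      unfold mon
      congr 1
      apply List.ext_getElem
      · rw [List.length_map, List.length_map, List.length_range, List.length_take, min_eq_left hw]
      · intro i h3 h4
        rw [List.length_map, List.length_range] at h3
        rw [List.getElem_map, List.getElem_map, List.getElem_range, List.getElem_take, List.getD_eq_getElem]
    rw [h2, ← mon_append, List.take_append_drop]
  rw [h1]
  exact hI.mul_right _ (sb_mem hI (fun i => X_mem _) h) _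

/-- completeness -/
theorem VL_compl {p : ℕ} (hp : p.Prime) (h5 : 5 ≤ p) {V : Set RingObj} (hV : AlmostDistributive V)
    (hn : ∃ n : ℕ, ∀ R ∈ V, @Sat R.1 R.2 (((p ^ n : ℕ) : ℤ) • X 0)) :
    V ∈ VL p ∨ ((∀ R ∈ V, @Sat R.1 R.2 ((p : ℤ) • X 0)) ∧
      (∃ h ∈ Fge (p + 1), ∀ R ∈ V, @Sat R.1 R.2 (X 0 * X 1 - X 1 * X 0 - h)) ∧
      ¬ ∀ R ∈ V, @Sat R.1 R.2 (mon (List.range (p + 1)))) := by
  obtain ⟨I, hI, rfl⟩ := almDist_of hV
  obtain ⟨n, hn⟩ := hn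
  have h2 := sq_of hp hI ((sat_iff hI.1 _).1 hn)
  rcases main2 hp h5 hI h2 with h | ⟨h, hc⟩
  · exact Or.inl ((VL_iff hp h5).2 ⟨I, h, rfl⟩)
  · refine Or.inr ⟨fun R hR => hR _ (h _ (X_mem 0)), ?_, fun h3 => ?_⟩
    · obtain ⟨i, hi, y, hy, e⟩ := Submodule.mem_sup.1 hc
      refine ⟨y, hy, fun R hR => hR _ ?_⟩
      have e2 : X 0 * X 1 - X 1 * X 0 - y = i := by
        have e3 : cm 0 1 = X 0 * X 1 - X 1 * X 0 := rfl
        rw [← e3, ← e]
        abel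
      rw [e2]
      exact hi
    · refine near_not hp hI h hc (Fge_of_mw hI.1 (by omega) ?_)
      have h4 : mw (p + 1) ∈ Th (AD.Mod (I : Set P)) := ⟨mon_Pp (by simp), h3⟩
      rwa [Th_Mod hI.1] at h4

/-- the exceptional case -/
def Exc (p : ℕ) (V : Set RingObj) : Prop := (∀ R ∈ V, @Sat R.1 R.2 ((p : ℤ) • X 0)) ∧
  (∃ h ∈ Fge (p + 1), ∀ R ∈ V, @Sat R.1 R.2 (X 0 * X 1 - X 1 * X 0 - h)) ∧
    ¬ ∀ R ∈ V, @Sat R.1 R.2 (mon (List.range (p + 1)))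

theorem VL_notExc {p : ℕ} (hp : p.Prime) (h5 : 5 ≤ p) {V : Set RingObj} (hV : V ∈ VL p) : ¬ Exc p V := by
  rintro ⟨h1, ⟨h, hh, h2⟩, -⟩
  obtain ⟨E, hE, rfl⟩ := (VL_iff hp h5).1 hV
  have hT := Lst_isT hp h5 hE
  have e1 : (p : ℤ) • X 0 ∈ Th (AD.Mod (E : Set P)) := ⟨Pp.smul_mem _ (X_mem 0), h1⟩
  rw [Th_Mod hT] at e1
  have e2 : X 0 * X 1 - X 1 * X 0 - h ∈ Th (AD.Mod (E : Set P)) := by
    refine ⟨Pp.sub_mem (cm_mem 0 1) ?_, h2⟩
    have h3 : Fge (p + 1) ≤ Pp := by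
      unfold Fge
      rw [Submodule.span_le]
      rintro f ⟨w, hw, rfl⟩
      exact mon_Pp (by omega)
    exact h3 hh
  rw [Th_Mod hT] at e2
  refine Lst_near hp h5 hE (Lst_alm hp h5 hE) le_rfl (Mul_of hT e1) ?_
  have e3 : cm 0 1 = (X 0 * X 1 - X 1 * X 0 - h) + h := by
    unfold cm
    abel
  rw [e3]
  exact Submodule.add_mem_sup e2 hh

theorem VL_main {p : ℕ} (hp : p.Prime) (h5 : 5 ≤ p) (V : Set RingObj) :
    V ∈ VL p ↔ AlmostDistributive V ∧ (∃ n : ℕ, ∀ R ∈ V, @Sat R.1 R.2 (((p ^ n : ℕ) : ℤ) • X 0)) ∧ ¬ Exc p V := by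
  constructor
  · intro hV
    refine ⟨VL_alm hp h5 hV, ?_, VL_notExc hp h5 hV⟩
    obtain ⟨E, hE, rfl⟩ := (VL_iff hp h5).1 hV
    refine ⟨2, fun R hR => hR _ ?_⟩
    push_cast
    exact Lst_sq h5 hE _ (X_mem 0)
  · rintro ⟨h1, h2, h3⟩
    rcases VL_compl hp h5 h1 h2 with h | h
    · exact h
    · exact absurd h h3

/-! ### the exponents -/

theorem pX_UP {p : ℕ} (hp : p.Prime) : (p : ℤ) • X 0 ∉ UP p := by
  intro h
  have h1 := (mem_KP.1 (mem_UP.1 h).2)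
  have h2 := (kp_coeff hp (mem_UP.1 h).2).1 0
  rw [map_zsmul, com_X, MvPolynomial.coeff_smul, MvPolynomial.coeff_X, if_pos rfl, smul_eq_mul, mul_one, pow_two] at h2
  have h3 := Int.dvd_of_mul_dvd_mul_left (Nat.prime_iff_prime_int.1 hp).ne_zero (by rwa [mul_one] : (p : ℤ) * p ∣ p * 1)
  exact (Nat.prime_iff_prime_int.1 hp).not_dvd_one h3

theorem pX_GP {p k : ℕ} (hp : p.Prime) (h1 : 1 ≤ k) (hk : k < p) (h2 : k % 2 = 0) :
    (p : ℤ) • X 0 ∉ GP p k := by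
  intro h
  have h3 : (p : ℤ) • mw p ∈ GP p k := Mul_of (GP_isT hp.one_le) h _ (mon_Pp (by simp; omega))
  have h4 : mw p ∈ Ml p := Ml_mon (List.Perm.refl _)
  have h5 := (TK_sub hp.one_le (KG_add p k) h3 (Submodule.smul_mem _ _ h4) 1).2
  rw [rn_one, map_smul, (gB_mw hk.le).2, h2, smul_eq_mul, Nat.sub_zero, pow_two] at h5
  have h6 := Int.dvd_of_mul_dvd_mul_left (Nat.prime_iff_prime_int.1 hp).ne_zero h5
  have h7 : (p : ℤ) ∣ (k : ℤ) := by
    have h8 := dvd_sub (dvd_refl (p : ℤ)) h6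
    rwa [sub_sub_cancel] at h8
  have h9 := Nat.le_of_dvd (by omega) (Int.natCast_dvd_natCast.1 h7)
  omega

theorem exp_sq {p : ℕ} (hp : p.Prime) {I : Submodule ℤ P} (hI : AlmDist I) (h2 : Mul ((p : ℤ) ^ 2) I)
    (h : (p : ℤ) • X 0 ∉ I) : HasExp (AD.Mod (I : Set P)) (p ^ 2) := by
  intro n
  rw [sat_iff hI.1]
  have hp2 : ((p ^ 2 : ℕ) : ℤ) • X 0 ∈ I := by
    push_cast
    exact h2 _ (X_mem 0)
  constructor
  · intro hn
    have h1 := gcd_mem hp2 hn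
    obtain ⟨k, hk, h2⟩ := (Nat.dvd_prime_pow hp).1 (Nat.gcd_dvd_left (p ^ 2) n)
    rw [h2] at h1
    have hk2 : k = 2 := by
      by_contra hk2
      have hk1 : k = 0 ∨ k = 1 := by omega
      rcases hk1 with rfl | rfl
      · exact not_mem hI (by simpa using h1)
      · exact h (by simpa using h1)
    rw [hk2] at h2
    exact Nat.gcd_eq_left_iff_dvd.1 h2
  · rintro ⟨k, rfl⟩
    rw [Nat.cast_mul, mul_comm, mul_smul]
    exact I.smul_mem _ hp2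

/-- the almost distributive varieties of exponent `p²` -/
theorem VL_sq {p : ℕ} (hp : p.Prime) (h5 : 5 ≤ p) (V : Set RingObj) :
    (AlmostDistributive V ∧ HasExp V (p ^ 2)) ↔ (V = VU p ∨ ∃ k, 1 ≤ k ∧ k < p ∧ k % 2 = 0 ∧ V = VG p k) := by
  have hpp : ¬ p ^ 2 ∣ p := by
    intro h
    have h1 := Nat.le_of_dvd hp.pos h
    nlinarith [hp.two_le]
  constructor
  · rintro ⟨hV, he⟩
    have h0 : ¬ ∀ R ∈ V, @Sat R.1 R.2 ((p : ℤ) • X 0) := fun h => hpp ((he p).1 h)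
    rcases VL_compl hp h5 hV ⟨2, (he (p ^ 2)).2 (dvd_refl _)⟩ with h | h
    · obtain ⟨E, hE, rfl⟩ := (VL_iff hp h5).1 h
      rw [sat_iff (Lst_isT hp h5 hE)] at h0
      rcases hE with rfl | rfl | rfl | ⟨k, h1, h2, rfl⟩
      · exact Or.inl (VU_eq hp).symm
      · exact absurd (WP_p p _ (X_mem 0)) h0
      · exact absurd (NPt_p 0 0 _ (X_mem 0)) h0
      · rcases Nat.mod_two_eq_zero_or_one k with h | h
        · exact Or.inr ⟨k, h1, h2, h, (VG_eq (by omega)).symm⟩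
        · exact absurd (GP_odd (by omega) h _ (X_mem 0)) h0
    · exact absurd h.1 h0
  · rintro (rfl | ⟨k, h1, h2, h3, rfl⟩)
    · refine ⟨VL_alm hp h5 (Or.inl rfl), ?_⟩
      rw [VU_eq hp]
      exact exp_sq hp (Lst_alm hp h5 (Or.inl rfl)) UP_sq (pX_UP hp)
    · refine ⟨VL_alm hp h5 (Or.inr (Or.inr (Or.inr ⟨k, h1, h2, rfl⟩))), ?_⟩
      rw [VG_eq (by omega)]
      exact exp_sq hp (Lst_alm hp h5 (Or.inr (Or.inr (Or.inr ⟨k, h1, h2, rfl⟩)))) (GP_sq (by omega)) (pX_GP hp h1 h2 h3)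

end ADC
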