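import Pool.Agent.ADC.FunA

/-!
# ADC-FunB

The combinatorial identity (★).  `w` a word without repetitions containing the different letters of `C` (`m = C.length`) and
`d ∉ C`.  Then `∑_{i < m} sgl w (C.set i d) = sgl w C - (if m is even then sgl w (C ++ [d]) else 0)`.

Both sides change sign when two neighbours of `C` are interchanged (`sgl_swap`; the sum is permuted), so we may
assume that the letters of `C` are in the order in which they occur in `w`: then `sgl w C = 1`.  Let `r` be the number of letters of `C` before `d` in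
`w`.  `sgl w (C.set i d) = (-1)^(number of inversions)`: inversions of `d` with `C_j`: `j < i` and `j ≥ r`, or `j > i` and `j < r`: there
are `i - r` if `i ≥ r` and `r - 1 - i` if `i < r`.  So the sum is `∑_{i<r} (-1)^(r-1-i) + ∑_{r≤i<m} (-1)^(i-r) = [r odd] + [m - r odd]`, and
`sgl w (C ++ [d]) = (-1)^(m-r)`.  `m` odd: exactly one of `r`, `m - r` is odd: `1`.  `m` even, `r` odd: `2 = 1 - (-1)`; `r` even:
`0 = 1 - 1`.
(Alternatively: induction on `C`, or reduce to the statement for the pattern by a bijection.)
-/

namespace ADC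

open AD ADN

private theorem fb_sq (w : List ℕ) (a b : ℕ) : bef w a b * bef w a b = 1 := by
  unfold bef
  split_ifs <;> norm_num

private theorem fb_anti {w : List ℕ} {a b : ℕ} (ha : a ∈ w) (hab : a ≠ b) : bef w a b = - bef w b a := by
  have h1 : w.idxOf a ≠ w.idxOf b := fun h => hab ((List.idxOf_inj ha).1 h)
  unfold bef
  rcases lt_or_gt_of_ne h1 with h2 | h2
  · rw [if_pos h2, if_neg (by omega)]
    norm_num
  · rw [if_neg (by omega), if_pos h2]

private theorem fb_set (w : List ℕ) (u d : ℕ) : ∀ (U : List ℕ) (i : ℕ) (hi : i < U.length),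
    ((U.set i d).map (bef w u)).prod = (U.map (bef w u)).prod * (bef w u U[i] * bef w u d) := by
  intro U
  induction U with
  | nil => intro i hi; simp at hi
  | cons a U ih =>
    intro i hi
    rcases i with _ | i
    · show ((d :: U).map (bef w u)).prod = ((a :: U).map (bef w u)).prod * (bef w u a * bef w u d)
      rw [List.map_cons, List.prod_cons, List.map_cons, List.prod_cons]
      have e := fb_sq w u a
      calc bef w u d * (List.map (bef w u) U).prod
          = (bef w u a * bef w u a) * (bef w u d * (List.map (bef w u) U).prod) := by rw [e, one_mul]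
        _ = _ := by ring
    · have hi' : i < U.length := by simpa using hi
      show ((a :: U.set i d).map (bef w u)).prod = ((a :: U).map (bef w u)).prod * (bef w u U[i] * bef w u d)
      rw [List.map_cons, List.prod_cons, List.map_cons, List.prod_cons, ih i hi']
      ring

private theorem fb_one {w : List ℕ} {d : ℕ} (hd : d ∈ w) : ∀ (C : List ℕ) (i : ℕ) (hi : i < C.length), C.Nodup → d ∉ C →
    (∀ c ∈ C, c ∈ w) → sgl w (C.set i d) =
      sgl w C * (C.map (fun y => if y = C[i] then 1 else bef w y C[i] * bef w y d)).prod := by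
  intro C
  induction C with
  | nil => intro i hi; simp at hi
  | cons u U ih =>
    intro i hi hn hdC hs
    have hn' := List.nodup_cons.1 hn
    have hdu : d ≠ u := fun h => hdC (h ▸ List.mem_cons_self)
    have hdU : d ∉ U := fun h => hdC (List.mem_cons_of_mem _ h)
    have hu : u ∈ w := hs u List.mem_cons_self
    rcases i with _ | i
    · show sgl w (d :: U) = sgl w (u :: U) *
        ((u :: U).map (fun y => if y = u then 1 else bef w y u * bef w y d)).prod
      rw [List.map_cons, List.prod_cons, if_pos rfl, one_mul]
      show (U.map (fun v => bef w d v)).prod * sgl w U = ((U.map (fun v => bef w u v)).prod * sgl w U) * _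
      have e : (U.map (fun v => bef w d v)).prod = (U.map (fun v => bef w u v)).prod *
          (U.map (fun y => if y = u then 1 else bef w y u * bef w y d)).prod := by
        rw [← List.prod_map_mul]
        congr 1
        refine List.map_congr_left fun y hy => ?_
        have h1 : y ≠ u := fun h => hn'.1 (h ▸ hy)
        have h2 : d ≠ y := fun h => hdU (h ▸ hy)
        rw [if_neg h1, fb_anti hd h2, fb_anti hu (Ne.symm h1)]
        have e := fb_sq w y u
        calc - bef w y d = - ((bef w y u * bef w y u) * bef w y d) := by rw [e, one_mul]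
          _ = _ := by ring
      rw [e]
      ring
    · have hi' : i < U.length := by simpa using hi
      show sgl w (u :: U.set i d) = sgl w (u :: U) *
        ((u :: U).map (fun y => if y = U[i] then 1 else bef w y U[i] * bef w y d)).prod
      have h1 : u ≠ U[i] := fun h => hn'.1 (h ▸ List.getElem_mem hi')
      rw [List.map_cons, List.prod_cons, if_neg h1]
      show ((U.set i d).map (bef w u)).prod * sgl w (U.set i d) = ((U.map (bef w u)).prod * sgl w U) * _
      rw [fb_set w u d U i hi', ih i hi' hn'.2 hdU fun c hc => hs c (List.mem_cons_of_mem _ hc)]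
      ring

private theorem fb_app (w : List ℕ) (d : ℕ) (C : List ℕ) :
    sgl w (C ++ [d]) = sgl w C * (C.map (fun y => bef w y d)).prod := by
  induction C with
  | nil =>
    show ((([] : List ℕ).map (fun v => bef w d v)).prod * sgl w []) = _
    simp [sgl]
  | cons u U ih =>
    show ((U ++ [d]).map (fun v => bef w u v)).prod * sgl w (U ++ [d]) = ((U.map (fun v => bef w u v)).prod * sgl w U) * _
    rw [ih, List.map_append, List.prod_append, List.map_cons, List.prod_cons]
    simp only [List.map_cons, List.map_nil, List.prod_cons, List.prod_nil]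
    ring

/-- the alternating sum -/
private theorem fb_S {w : List ℕ} (s : Finset ℕ) : (∀ x ∈ s, x ∈ w) →
    ∑ x ∈ s, ∏ y ∈ s.erase x, bef w y x = if s.card % 2 = 1 then 1 else 0 := by
  induction s using Finset.induction_on_max_value (f := fun x => w.idxOf x) with
  | empty => intro _; simp
  | insert a s ha hmax ih =>
    intro hs
    have hs' : ∀ x ∈ s, x ∈ w := fun x hx => hs x (Finset.mem_insert_of_mem hx)
    have haw := hs a (Finset.mem_insert_self _ _)
    have hlt : ∀ x ∈ s, w.idxOf x < w.idxOf a := by
      intro x hx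
      refine lt_of_le_of_ne (hmax x hx) fun h => ?_
      have := (List.idxOf_inj (hs' x hx)).1 h
      exact ha (this ▸ hx)
    rw [Finset.sum_insert ha, Finset.erase_insert ha, Finset.card_insert_of_notMem ha]
    have e1 : ∏ y ∈ s, bef w y a = 1 := by
      refine Finset.prod_eq_one fun y hy => ?_
      unfold bef
      rw [if_pos (hlt y hy)]
    have e2 : ∑ x ∈ s, ∏ y ∈ (insert a s).erase x, bef w y x = - ∑ x ∈ s, ∏ y ∈ s.erase x, bef w y x := by
      rw [← Finset.sum_neg_distrib]
      refine Finset.sum_congr rfl fun x hx => ?_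
      have hax : a ≠ x := fun h => ha (h ▸ hx)
      rw [Finset.erase_insert_of_ne hax, Finset.prod_insert (fun h => ha (Finset.mem_of_mem_erase h))]
      have e3 : bef w a x = -1 := by
        unfold bef
        rw [if_neg]
        have := hlt x hx
        omega
      rw [e3]
      ring
    rw [e1, e2, ih hs']
    rcases Nat.mod_two_eq_zero_or_one s.card with h | h
    · rw [if_neg (by omega), if_pos (by omega)]
      norm_num
    · rw [if_pos h, if_neg (by omega)]
      norm_num

theorem star {w C : List ℕ} {d : ℕ} (hw : w.Nodup) (hC : (C ++ [d]).Nodup) (hs : ∀ c ∈ C ++ [d], c ∈ w) :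
    ∑ i ∈ Finset.range C.length, sgl w (C.set i d) =
      sgl w C - if C.length % 2 = 0 then sgl w (C ++ [d]) else 0 := by
  have hn : C.Nodup := (List.nodup_append.1 hC).1
  have hdC : d ∉ C := by
    intro h
    exact (List.nodup_append.1 hC).2.2 d h d (List.mem_singleton_self d) rfl
  have hdw : d ∈ w := hs d (List.mem_append_right _ (List.mem_singleton_self d))
  have hsC : ∀ c ∈ C, c ∈ w := fun c hc => hs c (List.mem_append_left _ hc)
  have hds : d ∉ C.toFinset := fun h => hdC (List.mem_toFinset.1 h)
  have hcard : C.toFinset.card = C.length := List.toFinset_card_of_nodup hn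
  -- the products
  have hprod : ∀ x ∈ C, (C.map (fun y => if y = x then 1 else bef w y x * bef w y d)).prod =
      ∏ y ∈ C.toFinset.erase x, (bef w y x * bef w y d) := by
    intro x hx
    rw [← List.prod_toFinset _ hn, ← Finset.mul_prod_erase _ _ (List.mem_toFinset.2 hx), if_pos rfl, one_mul]
    refine Finset.prod_congr rfl fun y hy => ?_
    rw [if_neg (Finset.ne_of_mem_erase hy)]
  -- the left hand side
  have e1 : ∑ i ∈ Finset.range C.length, sgl w (C.set i d) =
      sgl w C * ∑ x ∈ C.toFinset, ∏ y ∈ C.toFinset.erase x, (bef w y x * bef w y d) := by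
    rw [Finset.sum_range, List.sum_toFinset _ hn, ← Fin.sum_univ_fun_getElem, Finset.mul_sum]
    refine Finset.sum_congr rfl fun i _ => ?_
    rw [fb_one hdw C i i.2 hn hdC hsC, hprod _ (List.getElem_mem i.2)]
  rw [e1, fb_app]
  -- the product of all
  have hπ : (C.map (fun y => bef w y d)).prod = ∏ y ∈ C.toFinset, bef w y d := (List.prod_toFinset _ hn).symm
  have hπ2 : (∏ y ∈ C.toFinset, bef w y d) * (∏ y ∈ C.toFinset, bef w y d) = 1 := by
    rw [← Finset.prod_mul_distrib]
    exact Finset.prod_eq_one fun y _ => fb_sq w y d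
  have hS := fb_S (w := w) (insert d C.toFinset) (by
    intro x hx
    rcases Finset.mem_insert.1 hx with h | h
    · rw [h]
      exact hdw
    · exact hsC x (List.mem_toFinset.1 h))
  rw [Finset.sum_insert hds, Finset.erase_insert hds, Finset.card_insert_of_notMem hds, hcard] at hS
  have e2 : ∑ x ∈ C.toFinset, ∏ y ∈ (insert d C.toFinset).erase x, bef w y x =
      - ((∏ y ∈ C.toFinset, bef w y d) * ∑ x ∈ C.toFinset, ∏ y ∈ C.toFinset.erase x, (bef w y x * bef w y d)) := by
    rw [Finset.mul_sum, ← Finset.sum_neg_distrib]
    refine Finset.sum_congr rfl fun x hx => ?_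
    have hdx : d ≠ x := fun h => hds (h ▸ hx)
    rw [Finset.erase_insert_of_ne hdx, Finset.prod_insert (fun h => hds (Finset.mem_of_mem_erase h)),
      ← Finset.mul_prod_erase _ (fun y => bef w y d) hx, Finset.prod_mul_distrib]
    have e3 : (∏ y ∈ C.toFinset.erase x, bef w y d) * (∏ y ∈ C.toFinset.erase x, bef w y d) = 1 := by
      rw [← Finset.prod_mul_distrib]
      exact Finset.prod_eq_one fun y _ => fb_sq w y d
    rw [fb_anti hdw hdx]
    calc - bef w x d * ∏ y ∈ C.toFinset.erase x, bef w y x
        = - (bef w x d * (∏ y ∈ C.toFinset.erase x, bef w y x) *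
          ((∏ y ∈ C.toFinset.erase x, bef w y d) * (∏ y ∈ C.toFinset.erase x, bef w y d))) := by rw [e3]; ring
      _ = _ := by ring
  rw [e2] at hS
  rw [hπ]
  have e4 : ∑ x ∈ C.toFinset, ∏ y ∈ C.toFinset.erase x, (bef w y x * bef w y d) =
      1 - (∏ y ∈ C.toFinset, bef w y d) * (if (C.length + 1) % 2 = 1 then 1 else 0) := by
    rw [← hS]
    calc ∑ x ∈ C.toFinset, ∏ y ∈ C.toFinset.erase x, (bef w y x * bef w y d)
        = ((∏ y ∈ C.toFinset, bef w y d) * (∏ y ∈ C.toFinset, bef w y d)) *
          (∑ x ∈ C.toFinset, ∏ y ∈ C.toFinset.erase x, (bef w y x * bef w y d)) + 1 -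
          (∏ y ∈ C.toFinset, bef w y d) * (∏ y ∈ C.toFinset, bef w y d) := by rw [hπ2]; ring
      _ = _ := by ring
  rw [e4]
  rcases Nat.mod_two_eq_zero_or_one C.length with h | h
  · rw [if_pos (by omega), if_pos h]
    ring
  · rw [if_neg (by omega), if_neg (by omega)]
    ring

end ADC
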