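import Pool.Agent.ADC.FunB

/-!
# ADC-FunT

The functionals `gA`, `gB` and the sum `tau n` of all transpositions, `k` even.  (Proved by helper77.)

For every `m ≤ n`: `2 gA m (τ w) = n (n + 1 - 2 m) gA m w - [m even] 2 gB n m w` (`gT`); `gB n k` is the sum of the
functionals `gA (k + 1)` after the transpositions of `k` and `s ≥ k`, and `τ` commutes with renaming.
-/

namespace ADC

open AD ADN

/-- the sum of the transpositions -/
noncomputable def tau (n : ℕ) : P →ₗ[ℤ] P :=
  ∑ q ∈ Finset.univ.filter (fun q : Fin n × Fin n => q.1 < q.2), tl (rn n (Equiv.swap q.1 q.2))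

/-! renaming, as in ADC.FunC and ADC.FunTr -/

private theorem srt_mem {n : ℕ} (srt : Fin n → Fin n → Fin n × Fin n)
    (hs : ∀ a b, srt a b = if a < b then (a, b) else (b, a)) {a b : Fin n} (h : a ≠ b) :
    srt a b ∈ Finset.univ.filter (fun q : Fin n × Fin n => q.1 < q.2) := by
  rw [Finset.mem_filter, hs]
  refine ⟨Finset.mem_univ _, ?_⟩
  split_ifs with h1
  · exact h1
  · exact lt_of_le_of_ne (not_lt.1 h1) (Ne.symm h)

private def srt {n : ℕ} (a b : Fin n) : Fin n × Fin n := if a < b then (a, b) else (b, a)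

private theorem srt_mem' {n : ℕ} {a b : Fin n} (h : a ≠ b) :
    srt a b ∈ Finset.univ.filter (fun q : Fin n × Fin n => q.1 < q.2) :=
  srt_mem srt (fun _ _ => rfl) h

private theorem srt_eq {n : ℕ} {q : Fin n × Fin n} (h : q.1 < q.2) : srt q.1 q.2 = q ∧ srt q.2 q.1 = q := by
  unfold srt
  rw [if_pos h, if_neg (not_lt.2 h.le)]
  exact ⟨rfl, rfl⟩

private theorem srt_map {n : ℕ} (σ τ : Equiv.Perm (Fin n)) (h : ∀ a, τ (σ a) = a) {q : Fin n × Fin n}
    (hq : q.1 < q.2) : srt (τ (srt (σ q.1) (σ q.2)).1) (τ (srt (σ q.1) (σ q.2)).2) = q := by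
  by_cases h1 : σ q.1 < σ q.2
  · have e : srt (σ q.1) (σ q.2) = (σ q.1, σ q.2) := if_pos h1
    rw [e]
    show srt (τ (σ q.1)) (τ (σ q.2)) = q
    rw [h, h]
    exact (srt_eq hq).1
  · have e : srt (σ q.1) (σ q.2) = (σ q.2, σ q.1) := if_neg h1
    rw [e]
    show srt (τ (σ q.2)) (τ (σ q.1)) = q
    rw [h, h]
    exact (srt_eq hq).2

private theorem tau_app (n : ℕ) (f : P) : tau n f =
    ∑ q ∈ Finset.univ.filter (fun q : Fin n × Fin n => q.1 < q.2), rn n (Equiv.swap q.1 q.2) f := by
  unfold tau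
  rw [LinearMap.sum_apply]
  rfl

private theorem tau_ren (n : ℕ) (σ : Equiv.Perm (Fin n)) (f : P) : tau n (rn n σ f) = rn n σ (tau n f) := by
  rw [tau_app, tau_app, map_sum]
  symm
  refine Finset.sum_nbij' (fun q => srt (σ q.1) (σ q.2)) (fun q => srt (σ⁻¹ q.1) (σ⁻¹ q.2))
    ?_ ?_ ?_ ?_ ?_
  · intro q hq
    rw [Finset.mem_filter] at hq
    exact srt_mem' fun h => hq.2.ne (σ.injective h)
  · intro q hq
    rw [Finset.mem_filter] at hq
    exact srt_mem' fun h => hq.2.ne (σ⁻¹.injective h)
  · intro q hq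
    rw [Finset.mem_filter] at hq
    exact srt_map σ σ⁻¹ (fun a => σ.symm_apply_apply a) hq.2
  · intro q hq
    rw [Finset.mem_filter] at hq
    exact srt_map σ⁻¹ σ (fun a => σ.apply_symm_apply a) hq.2
  · intro q _
    have h1 : Equiv.swap (srt (σ q.1) (σ q.2)).1 (srt (σ q.1) (σ q.2)).2 =
        Equiv.swap (σ q.1) (σ q.2) := by
      unfold srt
      split_ifs
      · rfl
      · exact Equiv.swap_comm _ _
    show rn n σ (rn n (Equiv.swap q.1 q.2) f) =
      rn n (Equiv.swap (srt (σ q.1) (σ q.2)).1 (srt (σ q.1) (σ q.2)).2) (rn n σ f)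
    rw [h1, rn_rn, rn_rn, Equiv.swap_apply_apply, inv_mul_cancel_right]

private theorem pN_pN {n : ℕ} (σ τ : Equiv.Perm (Fin n)) (i : ℕ) :
    pN n σ (pN n τ i) = pN n (σ * τ) i := by
  by_cases h : i < n
  · unfold pN
    rw [dif_pos h, dif_pos h, dif_pos (τ ⟨i, h⟩).2]
    rfl
  · unfold pN
    rw [dif_neg h, dif_neg h, dif_neg h]

private theorem pN_one {n : ℕ} (i : ℕ) : pN n (1 : Equiv.Perm (Fin n)) i = i := by
  unfold pN
  split_ifs <;> rfl

private theorem pN_ss {n : ℕ} (a b : Fin n) (i : ℕ) :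
    pN n (Equiv.swap a b) (pN n (Equiv.swap a b) i) = i := by
  rw [pN_pN, Equiv.swap_mul_self, pN_one]

private theorem gA_sw {n : ℕ} (j : ℕ) (a b : Fin n) (w : List ℕ) :
    gA j (rn n (Equiv.swap a b) (mon w)) = sgl w ((List.range j).map (pN n (Equiv.swap a b))) := by
  rw [rn_mon, gA_mon]
  have h : List.range j = ((List.range j).map (pN n (Equiv.swap a b))).map (pN n (Equiv.swap a b)) := by
    rw [List.map_map]
    conv_lhs => rw [← List.map_id (List.range j)]
    refine List.map_congr_left fun i _ => ?_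
    rw [Function.comp_apply, pN_ss]
    rfl
  conv_lhs => rw [h]
  exact sgl_map (pN_inj _ _) _ _

private theorem pN_left {n : ℕ} (a b : Fin n) : pN n (Equiv.swap a b) a = b := by
  unfold pN
  rw [dif_pos a.2, Equiv.swap_apply_left]

private theorem pN_ne {n : ℕ} {a b : Fin n} {i : ℕ} (ha : i ≠ a) (hb : i ≠ b) :
    pN n (Equiv.swap a b) i = i := by
  unfold pN
  split_ifs with h
  · rw [Equiv.swap_apply_of_ne_of_ne (fun h1 => ha (congrArg Fin.val h1))
      (fun h1 => hb (congrArg Fin.val h1))]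
  · rfl

private theorem map_set {n m : ℕ} {t d : Fin n} (ht : t.val < m) (hd : m ≤ d.val) :
    (List.range m).map (pN n (Equiv.swap t d)) = (List.range m).set t d := by
  apply List.ext_getElem
  · simp
  · intro i h1 h2
    rw [List.length_map, List.length_range] at h1
    rw [List.getElem_map, List.getElem_range, List.getElem_set]
    split_ifs with h3
    · rw [← h3]
      exact pN_left t d
    · rw [List.getElem_range]
      exact pN_ne (Ne.symm h3) (by omega)

private theorem map_app {n k : ℕ} (hk : k < n) {s : Fin n} (hs : k ≤ s.val) :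
    (List.range (k + 1)).map (pN n (Equiv.swap ⟨k, hk⟩ s)) = List.range k ++ [s.val] := by
  rw [List.range_succ, List.map_append, List.map_cons, List.map_nil]
  have h1 : pN n (Equiv.swap ⟨k, hk⟩ s) k = s := pN_left ⟨k, hk⟩ s
  rw [h1]
  congr 1
  conv_rhs => rw [← List.map_id (List.range k)]
  refine List.map_congr_left fun i hi => ?_
  rw [List.mem_range] at hi
  exact pN_ne (by
    show i ≠ k
    omega) (by omega)

private theorem ico_fin {n k : ℕ} (F : ℕ → ℤ) :
    ∑ s ∈ Finset.Ico k n, F s = ∑ s : Fin n with k ≤ s.val, F s := by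
  rw [Finset.sum_filter, Fin.sum_univ_eq_sum_range (fun s => if k ≤ s then F s else 0) n,
    ← Finset.sum_filter]
  refine Finset.sum_congr ?_ fun _ _ => rfl
  ext s
  rw [Finset.mem_Ico, Finset.mem_filter, Finset.mem_range]
  exact ⟨fun h => ⟨h.2, h.1⟩, fun h => ⟨h.2, h.1⟩⟩

private theorem gB_sum {n k : ℕ} (hk : k < n) (f : P) :
    gB n k f = ∑ s : Fin n with k ≤ s.val, gA (k + 1) (rn n (Equiv.swap ⟨k, hk⟩ s) f) := by
  refine ind_mon (C := fun f => gB n k f =
    ∑ s : Fin n with k ≤ s.val, gA (k + 1) (rn n (Equiv.swap ⟨k, hk⟩ s) f)) ?_ ?_ ?_ ?_ f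
  · simp
  · intro f g hf hg
    rw [map_add, hf, hg, ← Finset.sum_add_distrib]
    exact Finset.sum_congr rfl fun s _ => by rw [map_add, map_add]
  · intro c f hf
    rw [map_smul, hf, Finset.smul_sum]
    exact Finset.sum_congr rfl fun s _ => by rw [map_zsmul, map_smul]
  · intro w
    rw [gB_mon, ico_fin]
    refine Finset.sum_congr rfl fun s hs => ?_
    rw [Finset.mem_filter] at hs
    rw [gA_sw, map_app hk hs.2]

/-! the sum over the pairs -/

private theorem pair_sum {n : ℕ} (F : ℕ → ℕ → ℤ) :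
    ∑ q ∈ Finset.univ.filter (fun q : Fin n × Fin n => q.1 < q.2), F q.1 q.2 =
      ∑ j ∈ Finset.range n, ∑ i ∈ Finset.range j, F i j := by
  rw [Finset.sum_filter, Fintype.sum_prod_type_right]
  have h1 : ∀ j : Fin n, ∑ i : Fin n, (if (i, j).1 < (i, j).2 then F (i, j).1 (i, j).2 else 0) =
      (fun j : ℕ => ∑ i ∈ Finset.range n, if i < j then F i j else 0) j.val := by
    intro j
    exact Fin.sum_univ_eq_sum_range (fun i => if i < j.val then F i j.val else 0) n
  rw [Finset.sum_congr rfl fun j _ => h1 j, Fin.sum_univ_eq_sum_range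
    (fun j : ℕ => ∑ i ∈ Finset.range n, if i < j then F i j else 0) n]
  refine Finset.sum_congr rfl fun j hj => ?_
  rw [Finset.mem_range] at hj
  rw [← Finset.sum_filter]
  refine Finset.sum_congr ?_ fun _ _ => rfl
  ext i
  rw [Finset.mem_filter, Finset.mem_range, Finset.mem_range]
  exact ⟨fun h => h.2, fun h => ⟨by omega, h⟩⟩

private theorem gauss (m : ℕ) : 2 * ∑ j ∈ Finset.range m, (j : ℤ) = (m : ℤ) * (m - 1) := by
  induction m with
  | zero => simp
  | succ m ih =>
    rw [Finset.sum_range_succ, mul_add, ih]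
    push_cast
    ring

private theorem aF_sw {n m : ℕ} {a b : Fin n} (ha : a.val < m) (hb : b.val < m) :
    Equiv.swap a b ∈ aF n m := by
  unfold aF
  rw [Finset.mem_filter]
  refine ⟨Finset.mem_univ _, fun i hi => Equiv.swap_apply_of_ne_of_ne (fun h => ?_) (fun h => ?_)⟩
  · rw [h] at hi
    omega
  · rw [h] at hi
    omega

private theorem sF_sw {n m : ℕ} {a b : Fin n} (ha : m ≤ a.val) (hb : m ≤ b.val) :
    Equiv.swap a b ∈ sF n m := by
  unfold sF
  rw [Finset.mem_filter]
  refine ⟨Finset.mem_univ _, fun i hi => Equiv.swap_apply_of_ne_of_ne (fun h => ?_) (fun h => ?_)⟩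
  · rw [h] at hi
    omega
  · rw [h] at hi
    omega

/-- the value for one transposition -/
private def GG (m : ℕ) (w : List ℕ) (i j : ℕ) : ℤ :=
  if j < m then - sgl w (List.range m) else if m ≤ i then sgl w (List.range m) else sgl w ((List.range m).set i j)

private theorem gT_one {n m : ℕ} (hm : m ≤ n) {w : List ℕ} (hw : w.Perm (List.range n)) {a b : Fin n} (h : a < b) :
    gA m (rn n (Equiv.swap a b) (mon w)) = GG m w a b := by
  have hab : a.val < b.val := h
  unfold GG
  split_ifs with h1 h2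
  · rw [(gA_a hm (aF_sw (by omega) h1) (Ml_mon hw)).1, Equiv.Perm.sign_swap h.ne, gA_mon]
    simp
  · rw [(gA_s hm (sF_sw h2 (by omega)) (Ml_mon hw)).1, gA_mon]
  · rw [gA_sw, map_set (by omega) (by omega)]

private theorem gT_word {n m : ℕ} (hm : m ≤ n) {w : List ℕ} (hw : w.Perm (List.range n)) :
    2 * gA m (tau n (mon w)) = (n : ℤ) * (n + 1 - 2 * m) * gA m (mon w) -
      if m % 2 = 0 then 2 * gB n m (mon w) else 0 := by
  have hnd : w.Nodup := hw.nodup_iff.2 List.nodup_range
  have h1 : gA m (tau n (mon w)) = ∑ j ∈ Finset.range n, ∑ i ∈ Finset.range j, GG m w i j := by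
    rw [tau_app, map_sum, ← pair_sum (GG m w)]
    refine Finset.sum_congr rfl fun q hq => ?_
    rw [Finset.mem_filter] at hq
    exact gT_one hm hw hq.2
  obtain ⟨A, hA⟩ : ∃ A, A = sgl w (List.range m) := ⟨_, rfl⟩
  have h2 : ∑ j ∈ Finset.range m, ∑ i ∈ Finset.range j, GG m w i j = ∑ j ∈ Finset.range m, (j : ℤ) * (- A) := by
    refine Finset.sum_congr rfl fun j hj => ?_
    rw [Finset.mem_range] at hj
    rw [Finset.sum_congr rfl (g := fun _ => - A) fun i _ => by
      unfold GG
      rw [if_pos hj, hA], Finset.sum_const, Finset.card_range, nsmul_eq_mul]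
  have h3 : ∀ j ∈ Finset.Ico m n, ∑ i ∈ Finset.range j, GG m w i j =
      (A - if m % 2 = 0 then sgl w (List.range m ++ [j]) else 0) + ((j : ℤ) - m) * A := by
    intro j hj
    rw [Finset.mem_Ico] at hj
    have hstar := star (C := List.range m) (d := j) hnd (by
      rw [List.nodup_append]
      refine ⟨List.nodup_range, by simp, ?_⟩
      intro a ha b hb
      rw [List.mem_range] at ha
      rw [List.mem_singleton] at hb
      omega) (by
      intro c hc
      rw [List.mem_append, List.mem_range, List.mem_singleton] at hc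
      rw [hw.mem_iff, List.mem_range]
      omega)
    rw [List.length_range, ← hA] at hstar
    rw [← Finset.sum_range_add_sum_Ico _ hj.1, ← hstar]
    congr 1
    · refine Finset.sum_congr rfl fun i hi => ?_
      rw [Finset.mem_range] at hi
      unfold GG
      rw [if_neg (by omega), if_neg (by omega)]
    · rw [Finset.sum_congr rfl (g := fun _ => A) fun i hi => by
        rw [Finset.mem_Ico] at hi
        unfold GG
        rw [if_neg (by omega), if_pos hi.1, hA], Finset.sum_const, Nat.card_Ico, nsmul_eq_mul,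
        Nat.cast_sub hj.1]
  have h4 : ∑ j ∈ Finset.Ico m n, ((j : ℤ) - m) = ∑ j ∈ Finset.range (n - m), (j : ℤ) := by
    rw [Finset.sum_Ico_eq_sum_range]
    refine Finset.sum_congr rfl fun j _ => ?_
    push_cast
    ring
  have h5 := gauss m
  have h6 := gauss (n - m)
  rw [Nat.cast_sub hm] at h6
  rw [h1, ← Finset.sum_range_add_sum_Ico _ hm, h2, Finset.sum_congr rfl h3, Finset.sum_add_distrib,
    Finset.sum_sub_distrib, Finset.sum_const, Nat.card_Ico, nsmul_eq_mul, Nat.cast_sub hm,
    ← Finset.sum_mul, ← Finset.sum_mul, h4, gA_mon, gB_mon, ← hA]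
  have h7 : (2 : ℤ) * ∑ j ∈ Finset.Ico m n, (if m % 2 = 0 then sgl w (List.range m ++ [j]) else 0) =
      if m % 2 = 0 then 2 * ∑ s ∈ Finset.Ico m n, sgl w (List.range m ++ [s]) else 0 := by
    split_ifs with h
    · rfl
    · simp
  rw [← h7]
  linear_combination (-A) * h5 + A * h6

private theorem gT {n m : ℕ} (hm : m ≤ n) {f : P} (hf : f ∈ Ml n) :
    2 * gA m (tau n f) = (n : ℤ) * (n + 1 - 2 * m) * gA m f - if m % 2 = 0 then 2 * gB n m f else 0 := by
  refine Ml_ind (n := n) (C := fun f => 2 * gA m (tau n f) = (n : ℤ) * (n + 1 - 2 * m) * gA m f -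
    if m % 2 = 0 then 2 * gB n m f else 0) ?_ ?_ ?_ ?_ hf
  · simp
  · intro f g hf hg
    rw [map_add, map_add, mul_add, hf, hg, map_add, map_add]
    split_ifs <;> ring
  · intro c f hf
    rw [map_smul, map_smul, map_smul, map_smul, smul_eq_mul, smul_eq_mul, smul_eq_mul, mul_left_comm, hf]
    split_ifs <;> ring
  · exact fun w hw => gT_word hm hw

theorem FunT {n k : ℕ} (hk : k ≤ n) (h2 : k % 2 = 0) {f : P} (hf : f ∈ Ml n) :
    2 * gA k (tau n f) = (n : ℤ) * (n + 1 - 2 * k) * gA k f - 2 * gB n k f ∧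
      2 * gB n k (tau n f) = (n : ℤ) * (n - 1 - 2 * k) * gB n k f := by
  constructor
  · have h := gT hk hf
    rwa [if_pos h2] at h
  · rcases hk.lt_or_eq with hlt | rfl
    · rw [gB_sum hlt, gB_sum hlt f, Finset.mul_sum, Finset.mul_sum]
      refine Finset.sum_congr rfl fun s _ => ?_
      have h := gT (m := k + 1) hlt (Ml_rn (Equiv.swap ⟨k, hlt⟩ s) hf)
      rw [if_neg (by omega), sub_zero, tau_ren] at h
      rw [h]
      push_cast
      ring
    · have h0 : ∀ g : P, gB k k g = 0 := by
        intro g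
        refine ind_mon (C := fun g => gB k k g = 0) ?_ ?_ ?_ ?_ g
        · simp
        · intro f g hf hg
          rw [map_add, hf, hg, add_zero]
        · intro c f hf
          rw [map_smul, hf, smul_zero]
        · intro w
          rw [gB_mon, Finset.Ico_self, Finset.sum_empty]
      rw [h0, h0, mul_zero, mul_zero]

end ADC
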