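import Pool.Agent.ADC.FunT

/-!
# ADC-FunTr

`tau n` commutes with renaming (conjugation permutes the transpositions) and preserves `Ml n`.
-/

namespace ADC

open AD ADN

/-- the pair in increasing order -/
private def srt {n : ℕ} (a b : Fin n) : Fin n × Fin n := if a < b then (a, b) else (b, a)

private theorem srt_mem {n : ℕ} {a b : Fin n} (h : a ≠ b) :
    srt a b ∈ Finset.univ.filter (fun q : Fin n × Fin n => q.1 < q.2) := by
  rw [Finset.mem_filter]
  refine ⟨Finset.mem_univ _, ?_⟩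
  unfold srt
  split_ifs with h1
  · exact h1
  · exact lt_of_le_of_ne (not_lt.1 h1) (Ne.symm h)

private theorem srt_eq {n : ℕ} {q : Fin n × Fin n} (h : q.1 < q.2) : srt q.1 q.2 = q ∧ srt q.2 q.1 = q := by
  unfold srt
  rw [if_pos h, if_neg (not_lt.2 h.le)]
  exact ⟨rfl, rfl⟩

private theorem srt_map {n : ℕ} (σ τ : Equiv.Perm (Fin n)) (h : ∀ a, τ (σ a) = a) {q : Fin n × Fin n}
    (hq : q.1 < q.2) : srt (τ (srt (σ q.1) (σ q.2)).1) (τ (srt (σ q.1) (σ q.2)).2) = q := by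
  by_cases h1 : σ q.1 < σ q.2
  · have e : srt (σ q.1) (σ q.2) = (σ q.1, σ q.2) := if_pos h1
    rw [e]
    show srt (τ (σ q.1)) (τ (σ q.2)) = q
    rw [h, h]
    exact (srt_eq hq).1
  · have e : srt (σ q.1) (σ q.2) = (σ q.2, σ q.1) := if_neg h1
    rw [e]
    show srt (τ (σ q.2)) (τ (σ q.1)) = q
    rw [h, h]
    exact (srt_eq hq).2

private theorem tau_apply (n : ℕ) (f : P) : tau n f =
    ∑ q ∈ Finset.univ.filter (fun q : Fin n × Fin n => q.1 < q.2), rn n (Equiv.swap q.1 q.2) f := by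
  unfold tau
  rw [LinearMap.sum_apply]
  rfl

theorem tau_rn (n : ℕ) (σ : Equiv.Perm (Fin n)) (f : P) : tau n (rn n σ f) = rn n σ (tau n f) := by
  rw [tau_apply, tau_apply, map_sum]
  symm
  refine Finset.sum_nbij' (fun q => srt (σ q.1) (σ q.2)) (fun q => srt (σ⁻¹ q.1) (σ⁻¹ q.2))
    ?_ ?_ ?_ ?_ ?_
  · intro q hq
    rw [Finset.mem_filter] at hq
    exact srt_mem fun h => hq.2.ne (σ.injective h)
  · intro q hq
    rw [Finset.mem_filter] at hq
    exact srt_mem fun h => hq.2.ne (σ⁻¹.injective h)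
  · intro q hq
    rw [Finset.mem_filter] at hq
    exact srt_map σ σ⁻¹ (fun a => σ.symm_apply_apply a) hq.2
  · intro q hq
    rw [Finset.mem_filter] at hq
    exact srt_map σ⁻¹ σ (fun a => σ.apply_symm_apply a) hq.2
  · intro q _
    have h1 : Equiv.swap (srt (σ q.1) (σ q.2)).1 (srt (σ q.1) (σ q.2)).2 =
        Equiv.swap (σ q.1) (σ q.2) := by
      unfold srt
      split_ifs
      · rfl
      · exact Equiv.swap_comm _ _
    show rn n σ (rn n (Equiv.swap q.1 q.2) f) =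
      rn n (Equiv.swap (srt (σ q.1) (σ q.2)).1 (srt (σ q.1) (σ q.2)).2) (rn n σ f)
    rw [h1, rn_rn, rn_rn, Equiv.swap_apply_apply, inv_mul_cancel_right]

theorem tau_Ml {n : ℕ} {f : P} (hf : f ∈ Ml n) : tau n f ∈ Ml n := by
  rw [tau_apply]
  exact Submodule.sum_mem _ fun q _ => Ml_rn _ hf

end ADC
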