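import Pool.Agent.ADC.KGs

/-!
# ADC-GEx: use of not containing `G_{p,k}`
-/

namespace ADC

open AD ADN

theorem GEx {p k : ℕ} (hp : 1 ≤ p) {J : Submodule ℤ P} (hJ : IsT J) (h : ¬ J ≤ GP p k) :
    ∃ f ∈ Ml p, f ∈ J ⊔ Fge (p + 1) ∧ ¬ ((p : ℤ) ∣ gA k f ∧ (p : ℤ) ^ (2 - k % 2) ∣ gB p k f) := by
  have hT : IsT (J ⊔ Fge (p + 1)) := isT_sup hJ (isT_Fge (p + 1) (by omega))
  by_contra hcon
  refine h (le_trans le_sup_left (le_TK hT le_sup_right ?_))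
  intro g hg hgM σ
  by_contra h1
  exact hcon ⟨rn p σ g, Ml_rn σ hgM, hT.subst _ (rn_isSubst p σ) g hg, h1⟩

end ADC
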