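import Mathlib

/-!
# ADC-R4

Rings with `[x,y] z + [z,y] x = g (x [z,y] + z [x,y])`: three times `g (g^2 - 1)` kills the commutator words of degree 4.
(The certificates were found by linear algebra.)
-/

set_option maxHeartbeats 4000000
set_option linter.unusedSimpArgs false

namespace ADC

variable {S : Type*} [Ring S]

theorem R4a (F : Set S) (hm : ∀ x ∈ F, ∀ y ∈ F, x * y ∈ F) (g : ℤ)
    (K : ∀ x ∈ F, ∀ z ∈ F, ∀ y ∈ F, (x*y - y*x)*z + (z*y - y*z)*x - g • (x*(z*y - y*z) + z*(x*y - y*x)) = 0)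
    {x y z t : S} (hx : x ∈ F) (hy : y ∈ F) (hz : z ∈ F) (ht : t ∈ F) :
    (3 * (g^3 - g)) • ((x*y - y*x)*z*t) = 0 := by
  have key : (3 * (g^3 - g)) • ((x*y - y*x)*z*t) =
      ((-26) + (-38)*g + (-6)*g^2 + (1)*g^3) • (x * ((y*z - z*y)*t + (t*z - z*t)*y - g • (y*(t*z - z*t) + t*(y*z - z*y)))) +
      ((-19) + (-19)*g + (-20)*g^2 + (-8)*g^3) • (((z*x - x*z)*t + (t*x - x*t)*z - g • (z*(t*x - x*t) + t*(z*x - x*z))) * y) +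
      ((-14) + (-19)*g + (-6)*g^2) • (((x*z - z*x)*t + (t*z - z*t)*x - g • (x*(t*z - z*t) + t*(x*z - z*x))) * y) +
      ((-17) + (-10)*g + (-6)*g^2) • (((x*y - y*x)*z + (z*y - y*z)*x - g • (x*(z*y - y*z) + z*(x*y - y*x))) * t) +
      ((-12) + (-9)*g + (-14)*g^2 + (-4)*g^3) • (z * ((y*x - x*y)*t + (t*x - x*t)*y - g • (y*(t*x - x*t) + t*(y*x - x*y)))) +
      ((-25) + (-10)*g + (-22)*g^2 + (-12)*g^3) • ((((x*y)*t - t*(x*y))*z + (z*t - t*z)*(x*y) - g • ((x*y)*(z*t - t*z) + z*((x*y)*t - t*(x*y))))) +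
      ((-18) + (-6)*g + (2)*g^2 + (1)*g^3) • (y * ((z*x - x*z)*t + (t*x - x*t)*z - g • (z*(t*x - x*t) + t*(z*x - x*z)))) +
      ((-22) + (-17)*g + (3)*g^3) • (((x*y - y*x)*t + (t*y - y*t)*x - g • (x*(t*y - y*t) + t*(x*y - y*x))) * z) +
      ((-27) + (-40)*g + (-13)*g^2 + (-4)*g^3) • ((((x*z)*y - y*(x*z))*t + (t*y - y*t)*(x*z) - g • ((x*z)*(t*y - y*t) + t*((x*z)*y - y*(x*z))))) +
      ((12) + (33)*g + (5)*g^2 + (-2)*g^3) • (t * ((y*x - x*y)*z + (z*x - x*z)*y - g • (y*(z*x - x*z) + z*(y*x - x*y)))) +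
      ((9) + (24)*g + (-2)*g^2 + (-4)*g^3) • (t * ((x*y - y*x)*z + (z*y - y*z)*x - g • (x*(z*y - y*z) + z*(x*y - y*x)))) +
      ((-15) + (3)*g + (-6)*g^2) • ((((y*x)*t - t*(y*x))*z + (z*t - t*z)*(y*x) - g • ((y*x)*(z*t - t*z) + z*((y*x)*t - t*(y*x))))) +
      ((-12) + (-24)*g + (-8)*g^2 + (-1)*g^3) • (y * ((x*z - z*x)*t + (t*z - z*t)*x - g • (x*(t*z - z*t) + t*(x*z - z*x)))) +
      ((-12) + (-18)*g + (-20)*g^2 + (-4)*g^3) • (((z*y - y*z)*t + (t*y - y*t)*z - g • (z*(t*y - y*t) + t*(z*y - y*z))) * x) +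
      ((-6)*g + (-7)*g^2 + (-2)*g^3) • (((y*z - z*y)*t + (t*z - z*t)*y - g • (y*(t*z - z*t) + t*(y*z - z*y))) * x) +
      ((-12) + (-12)*g + (-22)*g^2 + (-8)*g^3) • (z * ((x*y - y*x)*t + (t*y - y*t)*x - g • (x*(t*y - y*t) + t*(x*y - y*x)))) +
      ((-23) + (-13)*g + (-8)*g^2 + (-4)*g^3) • (((y*x - x*y)*z + (z*x - x*z)*y - g • (y*(z*x - x*z) + z*(y*x - x*y))) * t) +
      ((-25) + (-15)*g + (-2)*g^2 + (-3)*g^3) • (((y*x - x*y)*t + (t*x - x*t)*y - g • (y*(t*x - x*t) + t*(y*x - x*y))) * z) +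
      ((-31) + (-39)*g + (-9)*g^2 + (-5)*g^3) • ((((x*z)*t - t*(x*z))*y + (y*t - t*y)*(x*z) - g • ((x*z)*(y*t - t*y) + y*((x*z)*t - t*(x*z))))) +
      ((-23) + (-9)*g + (-21)*g^2 + (-10)*g^3) • ((((x*y)*z - z*(x*y))*t + (t*z - z*t)*(x*y) - g • ((x*y)*(t*z - z*t) + t*((x*y)*z - z*(x*y))))) +
      ((7) + (2)*g + (-7)*g^2 + (-2)*g^3) • ((((x*t)*z - z*(x*t))*y + (y*z - z*y)*(x*t) - g • ((x*t)*(y*z - z*y) + y*((x*t)*z - z*(x*t))))) +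
      ((-22) + (-10)*g + (-1)*g^3) • (x * ((z*y - y*z)*t + (t*y - y*t)*z - g • (z*(t*y - y*t) + t*(z*y - y*z)))) +
      ((-21) + (-48)*g + (-18)*g^2 + (3)*g^3) • ((((y*z)*t - t*(y*z))*x + (x*t - t*x)*(y*z) - g • ((y*z)*(x*t - t*x) + x*((y*z)*t - t*(y*z))))) +
      ((-24)) • ((((y*x)*z - z*(y*x))*t + (t*z - z*t)*(y*x) - g • ((y*x)*(t*z - z*t) + t*((y*x)*z - z*(y*x))))) +
      ((-18) + (-45)*g + (-21)*g^2) • ((((y*z)*x - x*(y*z))*t + (t*x - x*t)*(y*z) - g • ((y*z)*(t*x - x*t) + t*((y*z)*x - x*(y*z))))) +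
      ((3) + (3)*g) • ((((z*t)*y - y*(z*t))*x + (x*y - y*x)*(z*t) - g • ((z*t)*(x*y - y*x) + x*((z*t)*y - y*(z*t))))) := by
    simp only [mul_sub, sub_mul, mul_add, add_mul, mul_assoc, mul_smul_comm, smul_mul_assoc]
    module
  rw [key]
  simp only [K _ hy _ ht _ hz, K _ hz _ ht _ hx, K _ hx _ ht _ hz, K _ hx _ hz _ hy, K _ hy _ ht _ hx, K _ (hm _ hx _ hy) _ hz _ ht, K _ hz _ ht _ hx, K _ hx _ ht _ hy, K _ (hm _ hx _ hz) _ ht _ hy, K _ hy _ hz _ hx, K _ hx _ hz _ hy, K _ (hm _ hy _ hx) _ hz _ ht, K _ hx _ ht _ hz, K _ hz _ ht _ hy, K _ hy _ ht _ hz, K _ hx _ ht _ hy, K _ hy _ hz _ hx, K _ hy _ ht _ hx, K _ (hm _ hx _ hz) _ hy _ ht, K _ (hm _ hx _ hy) _ ht _ hz, K _ (hm _ hx _ ht) _ hy _ hz, K _ hz _ ht _ hy, K _ (hm _ hy _ hz) _ hx _ ht, K _ (hm _ hy _ hx) _ ht _ hz, K _ (hm _ hy _ hz) _ ht _ hx, K _ (hm _ hz _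 ht) _ hx _ hy, mul_zero, zero_mul, smul_zero, add_zero]

theorem R4b (F : Set S) (hm : ∀ x ∈ F, ∀ y ∈ F, x * y ∈ F) (g : ℤ)
    (K : ∀ x ∈ F, ∀ z ∈ F, ∀ y ∈ F, (x*y - y*x)*z + (z*y - y*z)*x - g • (x*(z*y - y*z) + z*(x*y - y*x)) = 0)
    {x y z t : S} (hx : x ∈ F) (hy : y ∈ F) (hz : z ∈ F) (ht : t ∈ F) :
    (3 * (g^3 - g)) • (z*(x*y - y*x)*t) = 0 := by
  have key : (3 * (g^3 - g)) • (z*(x*y - y*x)*t) =
      ((-14) + (-10)*g + (-3)*g^2) • (x * ((z*y - y*z)*t + (t*y - y*t)*z - g • (z*(t*y - y*t) + t*(z*y - y*z)))) +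
      ((-17) + (-11)*g + (1)*g^2) • (((y*x - x*y)*t + (t*x - x*t)*y - g • (y*(t*x - x*t) + t*(y*x - x*y))) * z) +
      ((-12) + (-3)*g + (3)*g^2) • (y * ((z*x - x*z)*t + (t*x - x*t)*z - g • (z*(t*x - x*t) + t*(z*x - x*z)))) +
      ((-14) + (-12)*g + (-1)*g^2) • (((x*y - y*x)*t + (t*y - y*t)*x - g • (x*(t*y - y*t) + t*(x*y - y*x))) * z) +
      ((-16) + (-10)*g + (-10)*g^2) • ((((x*y)*z - z*(x*y))*t + (t*z - z*t)*(x*y) - g • ((x*y)*(t*z - z*t) + t*((x*y)*z - z*(x*y))))) +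
      ((-16) + (-12)*g + (-5)*g^2) • (((y*x - x*y)*z + (z*x - x*z)*y - g • (y*(z*x - x*z) + z*(y*x - x*y))) * t) +
      ((-10) + (-6)*g + (-5)*g^2) • (((x*y - y*x)*z + (z*y - y*z)*x - g • (x*(z*y - y*z) + z*(x*y - y*x))) * t) +
      ((6) + (12)*g + (-3)*g^2) • (t * ((x*y - y*x)*z + (z*y - y*z)*x - g • (x*(z*y - y*z) + z*(x*y - y*x)))) +
      ((-9) + (-12)*g + (3)*g^2) • (y * ((x*z - z*x)*t + (t*z - z*t)*x - g • (x*(t*z - z*t) + t*(x*z - z*x)))) +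
      ((-9) + (-9)*g + (-6)*g^2) • (((z*y - y*z)*t + (t*y - y*t)*z - g • (z*(t*y - y*t) + t*(z*y - y*z))) * x) +
      ((-19) + (-26)*g + (-3)*g^2) • (x * ((y*z - z*y)*t + (t*z - z*t)*y - g • (y*(t*z - z*t) + t*(y*z - z*y)))) +
      ((-14) + (-16)*g + (-9)*g^2) • (((z*x - x*z)*t + (t*x - x*t)*z - g • (z*(t*x - x*t) + t*(z*x - x*z))) * y) +
      ((-10) + (-15)*g + (-5)*g^2) • (((x*z - z*x)*t + (t*z - z*t)*x - g • (x*(t*z - z*t) + t*(x*z - z*x))) * y) +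
      ((-9) + (-9)*g + (-9)*g^2) • (z * ((x*y - y*x)*t + (t*y - y*t)*x - g • (x*(t*y - y*t) + t*(x*y - y*x)))) +
      ((-9) + (-6)*g + (-6)*g^2) • (z * ((y*x - x*y)*t + (t*x - x*t)*y - g • (y*(t*x - x*t) + t*(y*x - x*y)))) +
      ((9) + (21)*g + (3)*g^2) • (t * ((y*x - x*y)*z + (z*x - x*z)*y - g • (y*(z*x - x*z) + z*(y*x - x*y)))) +
      ((-17) + (-13)*g + (-12)*g^2) • ((((x*y)*t - t*(x*y))*z + (z*t - t*z)*(x*y) - g • ((x*y)*(z*t - t*z) + z*((x*y)*t - t*(x*y))))) +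
      ((-21) + (-26)*g + (-1)*g^2) • ((((x*z)*y - y*(x*z))*t + (t*y - y*t)*(x*z) - g • ((x*z)*(t*y - y*t) + t*((x*z)*y - y*(x*z))))) +
      ((-23) + (-26)*g + (1)*g^2) • ((((x*z)*t - t*(x*z))*y + (y*t - t*y)*(x*z) - g • ((x*z)*(y*t - t*y) + y*((x*z)*t - t*(x*z))))) +
      ((5) + (-5)*g^2) • ((((x*t)*z - z*(x*t))*y + (y*z - z*y)*(x*t) - g • ((x*t)*(y*z - z*y) + y*((x*t)*z - z*(x*t))))) +
      ((-9) + (3)*g + (-3)*g^2) • ((((y*x)*t - t*(y*x))*z + (z*t - t*z)*(y*x) - g • ((y*x)*(z*t - t*z) + z*((y*x)*t - t*(y*x))))) +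
      ((-15) + (-27)*g + (-6)*g^2) • ((((y*z)*t - t*(y*z))*x + (x*t - t*x)*(y*z) - g • ((y*z)*(x*t - t*x) + x*((y*z)*t - t*(y*z))))) +
      ((-12) + (-27)*g + (-9)*g^2) • ((((y*z)*x - x*(y*z))*t + (t*x - x*t)*(y*z) - g • ((y*z)*(t*x - x*t) + t*((y*z)*x - x*(y*z))))) +
      ((-15)) • ((((y*x)*z - z*(y*x))*t + (t*z - z*t)*(y*x) - g • ((y*x)*(t*z - z*t) + t*((y*x)*z - z*(y*x))))) +
      ((3) + (3)*g) • ((((z*t)*y - y*(z*t))*x + (x*y - y*x)*(z*t) - g • ((z*t)*(x*y - y*x) + x*((z*t)*y - y*(z*t))))) := by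
    simp only [mul_sub, sub_mul, mul_add, add_mul, mul_assoc, mul_smul_comm, smul_mul_assoc]
    module
  rw [key]
  simp only [K _ hz _ ht _ hy, K _ hy _ ht _ hx, K _ hz _ ht _ hx, K _ hx _ ht _ hy, K _ (hm _ hx _ hy) _ ht _ hz, K _ hy _ hz _ hx, K _ hx _ hz _ hy, K _ hx _ hz _ hy, K _ hx _ ht _ hz, K _ hz _ ht _ hy, K _ hy _ ht _ hz, K _ hz _ ht _ hx, K _ hx _ ht _ hz, K _ hx _ ht _ hy, K _ hy _ ht _ hx, K _ hy _ hz _ hx, K _ (hm _ hx _ hy) _ hz _ ht, K _ (hm _ hx _ hz) _ ht _ hy, K _ (hm _ hx _ hz) _ hy _ ht, K _ (hm _ hx _ ht) _ hy _ hz, K _ (hm _ hy _ hx) _ hz _ ht, K _ (hm _ hy _ hz) _ hx _ ht, K _ (hm _ hy _ hz) _ ht _ hx, K _ (hm _ hy _ hx) _ ht _ hz, K _ (hm _ hz _ ht) _ hx _ hy, mul_zero, zero_mul, smul_zero, add_zero]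

theorem R4c (F : Set S) (hm : ∀ x ∈ F, ∀ y ∈ F, x * y ∈ F) (g : ℤ)
    (K : ∀ x ∈ F, ∀ z ∈ F, ∀ y ∈ F, (x*y - y*x)*z + (z*y - y*z)*x - g • (x*(z*y - y*z) + z*(x*y - y*x)) = 0)
    {x y z t : S} (hx : x ∈ F) (hy : y ∈ F) (hz : z ∈ F) (ht : t ∈ F) :
    (3 * (g^3 - g)) • (z*t*(x*y - y*x)) = 0 := by
  have key : (3 * (g^3 - g)) • (z*t*(x*y - y*x)) =
      ((-15) + (-19)*g + (-2)*g^2) • (x * ((y*z - z*y)*t + (t*z - z*t)*y - g • (y*(t*z - z*t) + t*(y*z - z*y)))) +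
      ((-18) + (-10)*g + (-2)*g^2) • (((y*x - x*y)*z + (z*x - x*z)*y - g • (y*(z*x - x*z) + z*(y*x - x*y))) * t) +
      ((-12) + (-4)*g + (-2)*g^2) • (((z*x - x*z)*t + (t*x - x*t)*z - g • (z*(t*x - x*t) + t*(z*x - x*z))) * y) +
      ((-9) + (-11)*g + (-4)*g^2) • (((x*z - z*x)*t + (t*z - z*t)*x - g • (x*(t*z - z*t) + t*(x*z - z*x))) * y) +
      ((-3) + (-5)*g + (2)*g^2) • (y * ((x*z - z*x)*t + (t*z - z*t)*x - g • (x*(t*z - z*t) + t*(x*z - z*x)))) +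
      ((-12) + (-8)*g + (-4)*g^2) • (((x*y - y*x)*z + (z*y - y*z)*x - g • (x*(z*y - y*z) + z*(x*y - y*x))) * t) +
      ((-3) + (1)*g + (-1)*g^2) • (((z*y - y*z)*t + (t*y - y*t)*z - g • (z*(t*y - y*t) + t*(z*y - y*z))) * x) +
      ((3) + (2)*g + (1)*g^2) • (((y*z - z*y)*t + (t*z - z*t)*y - g • (y*(t*z - z*t) + t*(y*z - z*y))) * x) +
      ((-6) + (1)*g + (-1)*g^2) • (z * ((y*x - x*y)*t + (t*x - x*t)*y - g • (y*(t*x - x*t) + t*(y*x - x*y)))) +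
      ((-6) + (2)*g + (-2)*g^2) • (z * ((x*y - y*x)*t + (t*y - y*t)*x - g • (x*(t*y - y*t) + t*(x*y - y*x)))) +
      ((-21) + (-3)*g) • ((((x*y)*t - t*(x*y))*z + (z*t - t*z)*(x*y) - g • ((x*y)*(z*t - t*z) + z*((x*y)*t - t*(x*y))))) +
      ((-18) + (-11)*g + (-1)*g^2) • (x * ((z*y - y*z)*t + (t*y - y*t)*z - g • (z*(t*y - y*t) + t*(z*y - y*z)))) +
      ((-18) + (-8)*g + (2)*g^2) • (((y*x - x*y)*t + (t*x - x*t)*y - g • (y*(t*x - x*t) + t*(y*x - x*y))) * z) +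
      ((-12) + (-4)*g + (1)*g^2) • (y * ((z*x - x*z)*t + (t*x - x*t)*z - g • (z*(t*x - x*t) + t*(z*x - x*z)))) +
      ((-15) + (-13)*g + (-2)*g^2) • (((x*y - y*x)*t + (t*y - y*t)*x - g • (x*(t*y - y*t) + t*(x*y - y*x))) * z) +
      ((-15) + (-15)*g) • ((((x*z)*y - y*(x*z))*t + (t*y - y*t)*(x*z) - g • ((x*z)*(t*y - y*t) + t*((x*z)*y - y*(x*z))))) +
      ((6) + (20)*g + (4)*g^2) • (t * ((y*x - x*y)*z + (z*x - x*z)*y - g • (y*(z*x - x*z) + z*(y*x - x*y)))) +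
      ((3) + (13)*g + (2)*g^2) • (t * ((x*y - y*x)*z + (z*y - y*z)*x - g • (x*(z*y - y*z) + z*(x*y - y*x)))) +
      ((-6) + (-18)*g + (-6)*g^2) • ((((y*z)*t - t*(y*z))*x + (x*t - t*x)*(y*z) - g • ((y*z)*(x*t - t*x) + x*((y*z)*t - t*(y*z))))) +
      ((-9) + (3)*g + (-3)*g^2) • ((((y*x)*t - t*(y*x))*z + (z*t - t*z)*(y*x) - g • ((y*x)*(z*t - t*z) + z*((y*x)*t - t*(y*x))))) +
      ((-18) + (-15)*g + (3)*g^2) • ((((x*z)*t - t*(x*z))*y + (y*t - t*y)*(x*z) - g • ((x*z)*(y*t - t*y) + y*((x*z)*t - t*(x*z))))) +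
      ((3) + (-3)*g^2) • ((((x*t)*z - z*(x*t))*y + (y*z - z*y)*(x*t) - g • ((x*t)*(y*z - z*y) + y*((x*t)*z - z*(x*t))))) +
      ((-18)) • ((((x*y)*z - z*(x*y))*t + (t*z - z*t)*(x*y) - g • ((x*y)*(t*z - z*t) + t*((x*y)*z - z*(x*y))))) +
      ((-6) + (-18)*g + (-6)*g^2) • ((((y*z)*x - x*(y*z))*t + (t*x - x*t)*(y*z) - g • ((y*z)*(t*x - x*t) + t*((y*z)*x - x*(y*z))))) +
      ((-15)) • ((((y*x)*z - z*(y*x))*t + (t*z - z*t)*(y*x) - g • ((y*x)*(t*z - z*t) + t*((y*x)*z - z*(y*x))))) +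
      ((3) + (3)*g) • ((((z*t)*y - y*(z*t))*x + (x*y - y*x)*(z*t) - g • ((z*t)*(x*y - y*x) + x*((z*t)*y - y*(z*t))))) := by
    simp only [mul_sub, sub_mul, mul_add, add_mul, mul_assoc, mul_smul_comm, smul_mul_assoc]
    module
  rw [key]
  simp only [K _ hy _ ht _ hz, K _ hy _ hz _ hx, K _ hz _ ht _ hx, K _ hx _ ht _ hz, K _ hx _ ht _ hz, K _ hx _ hz _ hy, K _ hz _ ht _ hy, K _ hy _ ht _ hz, K _ hy _ ht _ hx, K _ hx _ ht _ hy, K _ (hm _ hx _ hy) _ hz _ ht, K _ hz _ ht _ hy, K _ hy _ ht _ hx, K _ hz _ ht _ hx, K _ hx _ ht _ hy, K _ (hm _ hx _ hz) _ ht _ hy, K _ hy _ hz _ hx, K _ hx _ hz _ hy, K _ (hm _ hy _ hz) _ hx _ ht, K _ (hm _ hy _ hx) _ hz _ ht, K _ (hm _ hx _ hz) _ hy _ ht, K _ (hm _ hx _ ht) _ hy _ hz, K _ (hm _ hx _ hy) _ ht _ hz, K _ (hm _ hy _ hz) _ ht _ hx, K _ (hm _ hy _ hx) _ ht _ hz, K _ (hm _ hz _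 ht) _ hx _ hy, mul_zero, zero_mul, smul_zero, add_zero]

end ADC
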