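import Pool.Agent.ADC.TrC
import Pool.Agent.ADC.Tm2
import Pool.Agent.ADC.Quot
import Pool.Agent.ADC.R4

/-!
# ADC-GenG

Generic type: `Cn 4 ≤ J`.

Scale (`Tame.scale`): choose an integer `g` with `a g ≡ -b` modulo `p`; then `Tame p J 1 (-g)` (with `c = a`), and
`g (g^2 - 1)` is prime to `p` (as `a^3 g (g^2-1) ≡ -b (b^2 - a^2)`).  Let `G = {kml 1 (-g)}`, `D = Gen (insert (p • X 0) G)`,
a T-ideal (`isT_Gen`), `s = p - 1 ≥ 1` (`Tame.kml`).  In the quotient `S = P / D` (`exists_quot`) let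
`F = {π f | f ∈ Pp}`: it is closed under multiplication, `p • x = 0` for `x ∈ F`, and the relation `K` of R4 holds by
`kml_subst` (with `a = 1`, `b = -g`; in `kml_subst` the roles are `x ↦ y`, `y ↦ x`, `z ↦ z` up to order and an overall rearrangement
`[y,x] z + [z,x] y - g (y [z,x] + z [y,x])`, which is `K` with `(x, z, y) := (y, z, x)`).
R4a-c: `3 (g^3 - g)` kills `[x,y] z t`, `z [x,y] t`, `z t [x,y]`; as `3 (g^3-g)` is prime to `p` and `p` kills them, they vanish in `S`.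
So all `mon u * cm i j * mon v` of length 4 are in `D` (the possible `(u.length, v.length)` are `(0,2), (1,1), (2,0)`); apply
`Cn_le_of`.
-/

namespace ADC

open AD ADN

private theorem gg_exists {p : ℕ} (hp : p.Prime) {a : ℤ} (ha : ¬ (p : ℤ) ∣ a) (b : ℤ) :
    ∃ g : ℤ, (p : ℤ) ∣ a * g + b := by
  obtain ⟨u, v, h⟩ := (Nat.prime_iff_prime_int.1 hp).coprime_iff_not_dvd.2 ha
  refine ⟨-b * v, b * u, ?_⟩
  linear_combination (-b) * h

private theorem gg_ndvd {p : ℕ} (hp : p.Prime) (h5 : 5 ≤ p) {a b g : ℤ} (hb : ¬ (p : ℤ) ∣ b)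
    (hab : ¬ (p : ℤ) ∣ a ^ 2 - b ^ 2) (hg : (p : ℤ) ∣ a * g + b) : ¬ (p : ℤ) ∣ 3 * (g ^ 3 - g) := by
  have hpp := Nat.prime_iff_prime_int.1 hp
  intro h
  rcases hpp.dvd_or_dvd h with h | h
  · have h1 := Int.le_of_dvd (by norm_num) h
    omega
  · obtain ⟨k, h1⟩ := hg
    obtain ⟨l, h2⟩ := h
    have h3 : (p : ℤ) ∣ b * (a ^ 2 - b ^ 2) := by
      refine ⟨a ^ 3 * l - k * (p * k) ^ 2 + 3 * k * (p * k) * b - 3 * k * b ^ 2 + a ^ 2 * k, ?_⟩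
      linear_combination a ^ 3 * h2 - ((p * k) ^ 2 + (p * k) * (a * g + b) + (a * g + b) ^ 2 -
        3 * b * ((p * k) + (a * g + b)) + 3 * b ^ 2 - a ^ 2) * h1
    rcases hpp.dvd_or_dvd h3 with h4 | h4
    · exact hb h4
    · exact hab h4

private theorem gg_D {p : ℕ} (hp : p.Prime) {D : Submodule ℤ P} (hD : IsT D) (hm : Mul p D) {g : ℤ}
    (hk : kml 1 (-g) ∈ D) (hg : ¬ (p : ℤ) ∣ 3 * (g ^ 3 - g)) {x y z t : P} (hx : x ∈ Pp) (hy : y ∈ Pp)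
    (hz : z ∈ Pp) (ht : t ∈ Pp) :
    (x * y - y * x) * z * t ∈ D ∧ z * (x * y - y * x) * t ∈ D ∧ z * t * (x * y - y * x) ∈ D := by
  obtain ⟨S, iS, π, -, hπ⟩ := exists_quot hD
  have hF : ∀ a ∈ {a : S | ∃ f ∈ Pp, a = π f}, ∀ b ∈ {a : S | ∃ f ∈ Pp, a = π f},
      a * b ∈ {a : S | ∃ f ∈ Pp, a = π f} := by
    rintro _ ⟨f, hf, rfl⟩ _ ⟨f', hf', rfl⟩
    exact ⟨f * f', Pp_mul_left f hf', (map_mul π f f').symm⟩
  have K : ∀ x ∈ {a : S | ∃ f ∈ Pp, a = π f}, ∀ z ∈ {a : S | ∃ f ∈ Pp, a = π f},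
      ∀ y ∈ {a : S | ∃ f ∈ Pp, a = π f},
      (x*y - y*x)*z + (z*y - y*z)*x - g • (x*(z*y - y*z) + z*(x*y - y*x)) = 0 := by
    rintro _ ⟨x, hx, rfl⟩ _ ⟨z, hz, rfl⟩ _ ⟨y, hy, rfl⟩
    have h1 := (hπ _).2 (kml_subst hD hk hy hx hz)
    rw [map_add, map_zsmul, map_zsmul, one_smul, neg_smul, ← sub_eq_add_neg] at h1
    simp only [map_add, map_sub, map_mul] at h1
    exact h1
  have hc : ∀ f ∈ Pp, (3 * (g ^ 3 - g)) • π f = 0 → f ∈ D := by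
    intro f hf h1
    refine cancel hp hm.sq hg hf ?_
    rw [← hπ, map_zsmul]
    exact h1
  have mx : π x ∈ {a : S | ∃ f ∈ Pp, a = π f} := ⟨x, hx, rfl⟩
  have my : π y ∈ {a : S | ∃ f ∈ Pp, a = π f} := ⟨y, hy, rfl⟩
  have mz : π z ∈ {a : S | ∃ f ∈ Pp, a = π f} := ⟨z, hz, rfl⟩
  have mt : π t ∈ {a : S | ∃ f ∈ Pp, a = π f} := ⟨t, ht, rfl⟩
  refine ⟨hc _ (Pp_mul_left _ ht) ?_, hc _ (Pp_mul_left _ ht) ?_, hc _ (Pp_mul_right (Pp_mul_left _ ht) _) ?_⟩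
  · rw [map_mul, map_mul, map_sub, map_mul, map_mul]
    exact R4a _ hF g K mx my mz mt
  · rw [map_mul, map_mul, map_sub, map_mul, map_mul]
    exact R4b _ hF g K mx my mz mt
  · rw [map_mul, map_mul, map_sub, map_mul, map_mul]
    exact R4c _ hF g K mx my mz mt

theorem GenG {p : ℕ} {J : Submodule ℤ P} {a b : ℤ} (h : Tame p J a b) (ha : ¬ (p : ℤ) ∣ a) (hb : ¬ (p : ℤ) ∣ b)
    (hab : ¬ (p : ℤ) ∣ a ^ 2 - b ^ 2) : Cn 4 ≤ J := by
  have h5 := h.five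
  obtain ⟨g, hg⟩ := gg_exists h.pp ha b
  have hT : Tame p J 1 (-g) := by
    refine h.scale ha ?_ ?_
    · rw [mul_one, sub_self]
      exact dvd_zero _
    · rw [mul_neg, sub_neg_eq_add, add_comm]
      exact hg
  have hg3 := gg_ndvd h.pp h5 hb hab hg
  obtain ⟨hM, hK⟩ := hT.kml
  have hsub : insert ((p : ℤ) • X 0) {kml 1 (-g)} ⊆ (Pp : Set P) := by
    rintro f (rfl | rfl)
    · exact Pp.smul_mem _ (X_mem 0)
    · exact Ml_Pp (by norm_num) hM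
  have hD : IsT (Gen (insert ((p : ℤ) • X 0) {kml 1 (-g)})) := isT_Gen hsub
  have hk : kml 1 (-g) ∈ Gen (insert ((p : ℤ) • X 0) {kml 1 (-g)}) := subset_Gen _ (Or.inr rfl)
  have hm : Mul p (Gen (insert ((p : ℤ) • X 0) {kml 1 (-g)})) := by
    intro f hf
    have h1 : (p : ℤ) • X 0 ∈ Gen (insert ((p : ℤ) • X 0) {kml 1 (-g)}) := subset_Gen _ (Or.inl rfl)
    have h2 := sb_mem hD (φ := fun _ => f) (fun _ => hf) h1
    rw [map_zsmul, sb_X] at h2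
    exact h2
  refine Cn_le_of h.toBas (G := {kml 1 (-g)}) (s := p - 1) (n := 4) (by omega) (by norm_num) ?_ ?_
  · rintro f rfl
    exact ⟨3, by norm_num, hM, hK⟩
  · intro u v i j hl
    rcases u with _ | ⟨c, _ | ⟨d, _ | ⟨e, u⟩⟩⟩ <;> rcases v with _ | ⟨c', _ | ⟨d', _ | ⟨e', v⟩⟩⟩ <;>
      simp only [List.length_nil, List.length_cons] at hl <;> try omega
    · rw [mon_nil, one_mul, mon_cons, mon_single, ← mul_assoc]
      exact (gg_D h.pp hD hm hk hg3 (X_mem i) (X_mem j) (X_mem c') (X_mem d')).1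
    · rw [mon_single, mon_single]
      exact (gg_D h.pp hD hm hk hg3 (X_mem i) (X_mem j) (X_mem c) (X_mem c')).2.1
    · rw [mon_nil, mul_one, mon_cons, mon_single]
      exact (gg_D h.pp hD hm hk hg3 (X_mem i) (X_mem j) (X_mem c) (X_mem d)).2.2

end ADC
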