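import Pool.Agent.ADC.CSt
import Pool.Agent.ADA.ExpMain

/-!
# ADC-GenU

`UP p` is the T-ideal generated by `p² x`, `p x y`, `[x,y]`, `x_0 ⋯ x_p`; T-ideals that contain `p x`, `[x,y]` and the words of
length `p + 1` are distributive.
-/

namespace ADC

open AD ADN

private theorem gu_com_smul (c : ℤ) (f : P) : com (c • f) = (c : MvPolynomial ℕ ℤ) * com f := by
  rw [map_zsmul, zsmul_eq_mul]

private theorem gu_com_mon (w : List ℕ) : com (mon w) ∈ (mm ℤ) ^ w.length := by
  induction w with
  | nil =>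
    rw [List.length_nil, pow_zero, Ideal.one_eq_top]
    exact Submodule.mem_top
  | cons a w ih =>
    rw [mon_cons, map_mul, ADA.com_X, List.length_cons, pow_succ']
    exact Ideal.mul_mem_mul (ADA.X_mem a) ih

private theorem gu_main {D : Submodule ℤ P} (hC : Cn 2 ≤ D) {f : P}
    (h : ∀ m ∈ (com f).support, (com f).coeff m • mon (sw m) ∈ D) : f ∈ D := by
  have h3 := D.add_mem (hC (CSt f)) (Submodule.sum_mem _ h)
  rwa [sub_add_cancel] at h3

private theorem gu_C2 {D : Submodule ℤ P} (hD : IsT D) (h : cm 0 1 ∈ D) : Cn 2 ≤ D := by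
  refine Submodule.span_le.2 ?_
  rintro f ⟨u, v, i, j, -, rfl⟩
  refine IsT.lm hD _ _ ?_
  have h1 := sb_mem hD (φ := fun k => if k = 0 then X i else X j)
    (fun k => by split_ifs <;> exact X_mem _) h
  unfold cm at h1
  rw [map_sub, map_mul, map_mul, sb_X, sb_X] at h1
  exact h1

private theorem gu_one {D : Submodule ℤ P} (hD : IsT D) {c : ℤ} (h : c • X 0 ∈ D) {w : List ℕ}
    (hw : w ≠ []) : c • mon w ∈ D := by
  have h1 := sb_mem hD (φ := fun _ => mon w) (fun _ => mon_mem hw) h
  rwa [map_zsmul, sb_X] at h1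

private theorem gu_two {D : Submodule ℤ P} (hD : IsT D) {c : ℤ} (h : c • (X 0 * X 1) ∈ D)
    {w : List ℕ} (hw : 2 ≤ w.length) : c • mon w ∈ D := by
  obtain ⟨a, t, rfl⟩ := List.exists_cons_of_ne_nil (l := w) (by rintro rfl; simp at hw)
  have ht : t ≠ [] := by rintro rfl; simp at hw
  have h1 := sb_mem hD (φ := fun k => if k = 0 then X a else mon t)
    (fun k => by split_ifs; exacts [X_mem _, mon_mem ht]) h
  rw [map_zsmul, map_mul, sb_X, sb_X] at h1
  rw [mon_cons]
  exact h1

private theorem gu_top {D : Submodule ℤ P} (hD : IsT D) {n : ℕ} (h : mw (n + 1) ∈ D) {w : List ℕ}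
    (hw : n + 1 ≤ w.length) : mon w ∈ D := by
  have hd : w.drop n ≠ [] := by
    intro h1
    have h2 := congrArg List.length h1
    rw [List.length_drop, List.length_nil] at h2
    omega
  have h1 := sb_mem hD (φ := fun k => if k < n then X (w.getD k 0) else mon (w.drop n))
    (fun k => by split_ifs; exacts [X_mem _, mon_mem hd]) h
  unfold mw at h1
  rw [sb_mon, List.range_succ, List.map_append, List.prod_append, List.map_singleton,
    List.prod_singleton, if_neg (lt_irrefl n)] at h1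
  have h2 : (List.range n).map (fun k => if k < n then X (w.getD k 0) else mon (w.drop n)) =
      (w.take n).map X := by
    apply List.ext_getElem
    · rw [List.length_map, List.length_range, List.length_map, List.length_take]
      omega
    · intro i hi1 hi2
      rw [List.length_map, List.length_range] at hi1
      rw [List.getElem_map, List.getElem_range, if_pos hi1, List.getElem_map, List.getElem_take,
        List.getD_eq_getElem _ _ (by omega)]
  rw [h2] at h1
  have h3 : mon w = mon (w.take n) * mon (w.drop n) := by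
    rw [← mon_append, List.take_append_drop]
  rw [h3]
  exact h1

theorem UP_mem {p : ℕ} : (p : ℤ) ^ 2 • X 0 ∈ ADA.UP p ∧ (p : ℤ) • (X 0 * X 1) ∈ ADA.UP p ∧ cm 0 1 ∈ ADA.UP p ∧
    mw (p + 1) ∈ ADA.UP p := by
  refine ⟨ADA.mem_UP.2 ⟨Pp.smul_mem _ (X_mem 0), ?_⟩,
    ADA.mem_UP.2 ⟨Pp.smul_mem _ (Pp_mul_left _ (X_mem 1)), ?_⟩,
    ADA.mem_UP.2 ⟨cm_mem 0 1, ?_⟩, ADA.mem_UP.2 ⟨mon_mem ?_, ?_⟩⟩
  · rw [gu_com_smul, ADA.com_X]
    push_cast
    exact ADA.kp_sq (ADA.X_mem 0)
  · rw [gu_com_smul, map_mul, ADA.com_X, ADA.com_X]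
    push_cast
    refine ADA.kp_two ?_
    rw [pow_two]
    exact Ideal.mul_mem_mul (ADA.X_mem 0) (ADA.X_mem 1)
  · unfold cm
    rw [map_sub, map_mul, map_mul, mul_comm (com (X 1)), sub_self]
    exact Ideal.zero_mem _
  · intro h
    have h1 := congrArg List.length h
    rw [List.length_range, List.length_nil] at h1
    omega
  · have h := gu_com_mon (List.range (p + 1))
    rw [List.length_range] at h
    exact ADA.kp_top h

theorem UP_gen {p : ℕ} (hp : p.Prime) {D : Submodule ℤ P} (hD : IsT D) (h1 : (p : ℤ) ^ 2 • X 0 ∈ D)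
    (h2 : (p : ℤ) • (X 0 * X 1) ∈ D) (h3 : cm 0 1 ∈ D) (h4 : mw (p + 1) ∈ D) : ADA.UP p ≤ D := by
  have hp1 := hp.pos
  intro f hf
  obtain ⟨hfP, hfK⟩ := ADA.mem_UP.1 hf
  obtain ⟨a, ha, b, hb, c, hc, e⟩ := ADA.mem_KP.1 hfK
  refine gu_main (gu_C2 hD h3) fun m _ => ?_
  have hl := sw_length m
  have e1 : (com f).coeff m = (p : ℤ) ^ 2 * a.coeff m + (p : ℤ) * b.coeff m + c.coeff m := by
    have e2 : (p : MvPolynomial ℕ ℤ) = MvPolynomial.C (p : ℤ) := by simp
    rw [← e, e2, ← map_pow, MvPolynomial.coeff_add, MvPolynomial.coeff_add,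
      MvPolynomial.coeff_C_mul, MvPolynomial.coeff_C_mul]
  by_cases hm : p + 1 ≤ m.degree
  · exact D.smul_mem _ (gu_top hD h4 (by omega))
  · push Not at hm
    have hc0 : c.coeff m = 0 := (ADA.mem_mm_pow (p + 1) c).1 hc m hm
    rcases Nat.lt_or_ge m.degree 1 with hd | hd
    · have hm0 : m = 0 := (Finsupp.degree_eq_zero_iff m).1 (by omega)
      have h5 : (com f).coeff m = 0 := by
        rw [hm0, ADA.coeff_com]
        exact mem_Pp.1 hfP
      rw [h5, zero_smul]
      exact D.zero_mem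
    · rcases Nat.lt_or_ge m.degree 2 with hd2 | hd2
      · have hb0 : b.coeff m = 0 := (ADA.mem_mm_pow 2 b).1 hb m hd2
        rw [e1, hb0, hc0, mul_zero, add_zero, add_zero, mul_comm, mul_smul]
        refine D.smul_mem _ (gu_one hD h1 ?_)
        intro h5
        rw [h5, List.length_nil] at hl
        omega
      · have e3 : (com f).coeff m = (p * a.coeff m + b.coeff m) * (p : ℤ) := by
          rw [e1, hc0]
          ring
        rw [e3, mul_smul]
        exact D.smul_mem _ (gu_two hD h2 (by omega))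

theorem CPle {p : ℕ} (hp : p.Prime) {E : Submodule ℤ P} (hE : IsT E) (hm : Mul p E) (hF : Fge (p + 1) ≤ E)
    (hc : cm 0 1 ∈ E) : DistOn TI E := by
  haveI : Fact p.Prime := ⟨hp⟩
  have hCP : ADA.CP p ≤ E := by
    intro f hf
    obtain ⟨hfP, hfK⟩ := ADA.mem_CP.1 hf
    refine gu_main (gu_C2 hE hc) fun m _ => ?_
    have hl := sw_length m
    by_cases hd : p + 1 ≤ m.degree
    · exact E.smul_mem _ (hF (Submodule.subset_span ⟨sw m, by omega, rfl⟩))
    · push Not at hd
      rcases Nat.lt_or_ge m.degree 1 with hd1 | hd1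
      · have hm0 : m = 0 := (Finsupp.degree_eq_zero_iff m).1 (by omega)
        have h5 : (com f).coeff m = 0 := by
          rw [hm0, ADA.coeff_com]
          exact mem_Pp.1 hfP
        rw [h5, zero_smul]
        exact E.zero_mem
      · have h6 := (ADA.mem_mm_pow (p + 1) _).1 hfK m hd
        rw [← ADA.map_com, MvPolynomial.coeff_map] at h6
        obtain ⟨c, hc'⟩ := (ZMod.intCast_zmod_eq_zero_iff_dvd _ _).1 h6
        rw [hc', mul_comm, mul_smul]
        refine E.smul_mem _ (hm _ (mon_mem ?_))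
        intro h7
        rw [h7, List.length_nil] at hl
        omega
  intro x hx y hy z hz h1 h2 h3
  exact ADA.dist_CP (p := p) x hx y hy z hz (hCP.trans h1) (hCP.trans h2) (hCP.trans h3)

end ADC
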