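import Pool.Agent.ADC.Bas

/-!
# ADC-Rz

Rings with `[x,y] z + [z,y] x = 0`: `S` a ring, `F` a subset closed under products, sums, negatives, without 2- and 3-torsion.
Then `[x,y] z t = 0` and `z [t,x] y = 0`.

`D(x,y,z) = [x,y] z` is antisymmetric in `x,y`, and in `x,z` by `K`: it is alternating in `x,y,z`.  Let
`E(x,y,z,t) = D(x,y,z) t = [x,y] z t` (alternating in `x,y,z`) and `G(z;t,x,y) = z D(t,x,y) = z [t,x] y` (alternating in
`t,x,y`).
(1) `E(x,y,z,t) = D(x,y,zt) = D(zt,x,y) = [zt,x] y = z[t,x]y + [z,x] t y = G(z;t,x,y) + E(z,x,t,y)`.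
(2) Interchange `x` and `y` in (1): `-E(x,y,z,t) = -G(z;t,x,y) + E(z,y,t,x)`; adding: `E(z,x,t,y) + E(z,y,t,x) = 0`.  So `E` changes sign when the second and
    the fourth argument are interchanged: `E` is alternating in all four arguments.  Let `e = E(x,y,z,t)`; `E(z,x,t,y) = -e`, and (1):
    `G(z;t,x,y) = 2 e`.
(3) `[x,y]z + [y,z]x + [z,x]y = x[y,z] + y[z,x] + z[x,y]` (both are the standard polynomial), and the left side is `3 D(x,y,z)`.
    Multiply by `t` on the right: `3 e = G(x;y,z,t) + G(y;z,x,t) + G(z;x,y,t)` and each of the three terms is `2 e` by (2):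
    `G(x;y,z,t) = 2E(z,t,x,y) = 2e`, `G(y;z,x,t) = 2E(x,t,y,z) = 2e`, `G(z;x,y,t) = 2E(y,t,z,x) = 2e`.  So `3e = 6e`, `e = 0`.
-/

namespace ADC



variable {S : Type*} [Ring S]

private def rze (a b c d : S) : S := (a*b - b*a)*c*d

private theorem rz_core {e : S} (h3 : (3 : ℤ) • e = 0 → e = 0) (h : e + e + e = (2 : ℤ) • e + (2 : ℤ) • e + (2 : ℤ) • e) :
    e = 0 := by
  apply h3
  have h' : (2 : ℤ) • e + (2 : ℤ) • e + (2 : ℤ) • e = (3 : ℤ) • e + (3 : ℤ) • e := by module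
  have h'' : e + e + e = (3 : ℤ) • e := by module
  rw [h', h''] at h
  exact left_eq_add.1 h

theorem Rz (F : Set S) (hm : ∀ x ∈ F, ∀ y ∈ F, x * y ∈ F) (ha : ∀ x ∈ F, ∀ y ∈ F, x + y ∈ F)
    (hn : ∀ x ∈ F, -x ∈ F) (h3 : ∀ x ∈ F, (3 : ℤ) • x = 0 → x = 0)
    (K : ∀ x ∈ F, ∀ y ∈ F, ∀ z ∈ F, (x*y - y*x)*z + (z*y - y*z)*x = 0)
    {x y z t : S} (hx : x ∈ F) (hy : y ∈ F) (hz : z ∈ F) (ht : t ∈ F) :
    (x*y - y*x)*z*t = 0 ∧ z*(x*y - y*x)*t = 0 := by
  have s12 : ∀ a b c d : S, rze a b c d = -rze b a c d := fun a b c d => by unfold rze; noncomm_ring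
  have s13 : ∀ a ∈ F, ∀ b ∈ F, ∀ c ∈ F, ∀ d : S, rze a b c d = -rze c b a d := by
    intro a ha' b hb c hc d
    unfold rze
    rw [eq_neg_iff_add_eq_zero, ← add_mul, K a ha' b hb c hc, zero_mul]
  have s23 : ∀ a ∈ F, ∀ b ∈ F, ∀ c ∈ F, ∀ d : S, rze a b c d = -rze a c b d := by
    intro a ha' b hb c hc d
    rw [s12 a b, s13 b hb a ha' c hc, s12 c a, neg_neg]
  have D2 : ∀ a ∈ F, ∀ b ∈ F, ∀ c ∈ F, (a*b - b*a)*c = (c*a - a*c)*b := by
    intro a ha' b hb c hc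
    have h := K c hc a ha' b hb
    have h' : (c*a - a*c)*b = -((b*a - a*b)*c) := eq_neg_iff_add_eq_zero.2 h
    rw [h']
    noncomm_ring
  have D3 : ∀ a ∈ F, ∀ b ∈ F, ∀ c ∈ F, (a*b - b*a)*c = -((a*c - c*a)*b) := by
    intro a ha' b hb c hc
    rw [D2 a ha' b hb c hc]
    noncomm_ring
  have B1 : ∀ a ∈ F, ∀ b ∈ F, ∀ c ∈ F, ∀ d ∈ F,
      rze a b c d = c*(d*a - a*d)*b + rze c a d b := by
    intro a ha' b hb c hc d hd
    unfold rze
    have h := D2 a ha' b hb (c*d) (hm _ hc _ hd)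
    rw [← mul_assoc] at h
    rw [h]
    noncomm_ring
  have s24 : ∀ a ∈ F, ∀ b ∈ F, ∀ c ∈ F, ∀ d ∈ F, rze a b c d = -rze a d c b := by
    intro a ha' b hb c hc d hd
    have h1 := B1 b hb d hd a ha' c hc
    have h2 := B1 d hd b hb a ha' c hc
    have h3 : a*(c*b - b*c)*d = -(a*(c*d - d*c)*b) := by
      rw [mul_assoc, D3 c hc b hb d hd, mul_neg, mul_assoc]
    rw [h3] at h1
    rw [s12 d b a c, h1] at h2
    have e1 : rze a b c d + rze a d c b =
        -(-(-(a*(c*d - d*c)*b) + rze a b c d) - (a*(c*d - d*c)*b + rze a d c b)) := by abel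
    rw [h2, sub_self, neg_zero] at e1
    exact eq_neg_of_add_eq_zero_left e1
  have s34 : ∀ a ∈ F, ∀ b ∈ F, ∀ c ∈ F, ∀ d ∈ F, rze a b c d = -rze a b d c := by
    intro a ha' b hb c hc d hd
    rw [s23 a ha' b hb c hc, s24 a ha' c hc b hb d hd, s23 a ha' d hd b hb c, neg_neg]
  have G2 : ∀ a ∈ F, ∀ b ∈ F, ∀ c ∈ F, ∀ d ∈ F,
      c*(d*a - a*d)*b = (2 : ℤ) • rze a b c d := by
    intro a ha' b hb c hc d hd
    have h1 := B1 a ha' b hb c hc d hd
    rw [s12 c a d b, s24 a ha' c hc d hd b hb, s34 a ha' b hb d hd c hc, neg_neg] at h1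
    rw [two_smul]
    have e1 : c*(d*a - a*d)*b = c*(d*a - a*d)*b + -rze a b c d + rze a b c d := by abel
    rw [e1, ← h1]
  have g1 : x*(y*z - z*y)*t = (2 : ℤ) • rze x y z t := by
    rw [G2 z hz t ht x hx y hy, s24 z hz t ht x hx y hy, s12 z y, s23 y hy z hz x hx, s12 y x, neg_neg, neg_neg]
  have g2 : y*(z*x - x*z)*t = (2 : ℤ) • rze x y z t := by
    rw [G2 x hx t ht y hy z hz, s24 x hx t ht y hy z hz, s23 x hx z hz y hy, neg_neg]
  have g3 : z*(x*y - y*x)*t = (2 : ℤ) • rze x y z t := by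
    rw [G2 y hy t ht z hz x hx, s24 y hy t ht z hz x hx, s12 y x, neg_neg]
  have hF : rze x y z t ∈ F := by
    unfold rze
    rw [sub_eq_add_neg]
    exact hm _ (hm _ (ha _ (hm _ hx _ hy) _ (hn _ (hm _ hy _ hx))) _ hz) _ ht
  have he : rze x y z t = 0 := by
    refine rz_core (h3 _ hF) ?_
    have e1 : rze y z x t = rze x y z t := by rw [s23 y hy z hz x hx, s12 y x, neg_neg]
    have e2 : rze z x y t = rze x y z t := by rw [s12 z x, s23 x hx z hz y hy, neg_neg]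
    have e3 : rze x y z t + rze y z x t + rze z x y t = x*(y*z - z*y)*t + y*(z*x - x*z)*t + z*(x*y - y*x)*t := by
      unfold rze
      noncomm_ring
    rw [e1, e2, g1, g2, g3] at e3
    exact e3
  refine ⟨he, ?_⟩
  rw [g3, he, smul_zero]

end ADC
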