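import Pool.Agent.ADC.TrC
import Pool.Agent.ADC.Tm2
import Pool.Agent.ADC.Quot
import Pool.Agent.ADC.Rz

/-!
# ADC-GenZ0

Type `a = 1, b = 0`: as in `GenG` (read that header): `G = {kml 1 0}`, `D = Gen ..`, quotient `S`, `F = π Pp`; `Rz` gives
`mon u * cm i j * mon v ∈ D` for length 4 and `v ≠ []` (`(u.length, v.length) = (0,2), (1,1)`); `Dn_le_of` with `n = 4`, `s = p - 1`.
The same computation in a T-ideal `D` with `Mul p D`, `kk 1 0 ∈ D` gives `Z_Dn`.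
-/

namespace ADC

open AD ADN

/-- `Rz` in the free ring -/
private theorem gz_core {p : ℕ} (hp : p.Prime) (h5 : 5 ≤ p) {D : Submodule ℤ P} (hD : IsT D) (hm : Mul p D)
    (h : kml 1 0 ∈ D) {x y z t : P} (hx : x ∈ Pp) (hy : y ∈ Pp) (hz : z ∈ Pp) (ht : t ∈ Pp) :
    (x*y - y*x)*z*t ∈ D ∧ z*(x*y - y*x)*t ∈ D := by
  obtain ⟨S, _, π, -, hπ⟩ := exists_quot hD
  have key := Rz (S := S) (π '' (Pp : Set P)) ?_ ?_ ?_ ?_ ?_ (x := π x) (y := π y) (z := π z) (t := π t)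
    ⟨x, hx, rfl⟩ ⟨y, hy, rfl⟩ ⟨z, hz, rfl⟩ ⟨t, ht, rfl⟩
  · refine ⟨(hπ _).1 ?_, (hπ _).1 ?_⟩
    · rw [← key.1]
      simp only [map_mul, map_sub]
    · rw [← key.2]
      simp only [map_mul, map_sub]
  · rintro _ ⟨f, hf, rfl⟩ _ ⟨g, hg, rfl⟩
    exact ⟨f * g, Pp_mul_left f hg, map_mul π f g⟩
  · rintro _ ⟨f, hf, rfl⟩ _ ⟨g, hg, rfl⟩
    exact ⟨f + g, Pp.add_mem hf hg, map_add π f g⟩
  · rintro _ ⟨f, hf, rfl⟩
    exact ⟨-f, Pp.neg_mem hf, map_neg π f⟩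
  · rintro _ ⟨f, hf, rfl⟩ h3
    have h4 : (3 : ℤ) • f ∈ D := by
      rw [← hπ, map_zsmul]
      exact h3
    refine (hπ _).2 (cancel hp hm.sq (c := 3) ?_ hf h4)
    intro h6
    have h7 := Int.le_of_dvd (by norm_num) h6
    omega
  · rintro _ ⟨f, hf, rfl⟩ _ ⟨g, hg, rfl⟩ _ ⟨k, hk, rfl⟩
    have h1 := kml_subst hD h hg hf hk
    rw [one_smul, zero_smul, add_zero] at h1
    rw [← (hπ _).2 h1]
    simp only [map_mul, map_sub, map_add]

private theorem gz_word {p : ℕ} (hp : p.Prime) (h5 : 5 ≤ p) {D : Submodule ℤ P} (hD : IsT D) (hm : Mul p D)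
    (h : kml 1 0 ∈ D) (u v : List ℕ) (i j : ℕ) (hv : v ≠ []) (hl : 4 ≤ u.length + v.length + 2) :
    mon u * (X i * X j - X j * X i) * mon v ∈ D := by
  obtain ⟨a, v1, rfl⟩ := List.exists_cons_of_ne_nil hv
  rcases v1 with _ | ⟨b, v2⟩
  · have hu : u ≠ [] := by
      rintro rfl
      simp at hl
    obtain ⟨u1, c, rfl⟩ : ∃ u1 c, u = u1 ++ [c] := ⟨u.dropLast, u.getLast hu, (List.dropLast_append_getLast hu).symm⟩
    have h1 := (gz_core hp h5 hD hm h (X_mem i) (X_mem j) (X_mem c) (X_mem a)).2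
    have h2 := hD.mul_left _ h1 (mon u1)
    have e : mon (u1 ++ [c]) * (X i * X j - X j * X i) * mon [a] =
        mon u1 * (X c * (X i * X j - X j * X i) * X a) := by
      rw [mon_append, mon_single, mon_single]
      simp only [mul_assoc]
    rw [e]
    exact h2
  · have h1 := (gz_core hp h5 hD hm h (X_mem i) (X_mem j) (X_mem a) (X_mem b)).1
    have h2 := IsT.lm hD (mon u) (mon v2) h1
    have e : mon u * (X i * X j - X j * X i) * mon (a :: b :: v2) =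
        mon u * ((X i * X j - X j * X i) * X a * X b) * mon v2 := by
      rw [mon_cons, mon_cons]
      simp only [mul_assoc]
    rw [e]
    exact h2

theorem GenZ0 {p : ℕ} {J : Submodule ℤ P} (h : Tame p J 1 0) : ∀ m, 4 ≤ m → Dn m ≤ J ⊔ Cn (m + (p - 1)) := by
  have hkp : kml 1 0 ∈ Pp := Ml_Pp (by norm_num) h.kml.1
  have hD : IsT (Gen (insert ((p : ℤ) • X 0) {kml 1 0})) := by
    refine isT_Gen ?_
    intro f hf
    rcases hf with rfl | hf
    · exact Pp.smul_mem _ (X_mem 0)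
    · rw [Set.mem_singleton_iff.1 hf]
      exact hkp
  have hm : Mul (p : ℤ) (Gen (insert ((p : ℤ) • X 0) {kml 1 0})) := by
    intro f hf
    have h1 := sb_mem hD (φ := fun _ => f) (fun _ => hf) (subset_Gen _ (Set.mem_insert ((p : ℤ) • X 0) {kml 1 0}))
    rw [map_zsmul, sb_X] at h1
    exact h1
  refine Dn_le_of (G := {kml 1 0}) h.toBas (by norm_num) ?_ ?_
  · intro g hg
    rw [Set.mem_singleton_iff.1 hg]
    exact ⟨3, by norm_num, h.kml.1, h.kml.2⟩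
  · intro u v i j hv hl
    exact gz_word h.pp h.five hD hm (subset_Gen _ (Set.mem_insert_of_mem _ (Set.mem_singleton _))) u v i j hv
      (by omega)

theorem Z_Dn {p : ℕ} (hp : p.Prime) (h5 : 5 ≤ p) {D : Submodule ℤ P} (hD : IsT D) (hm : Mul p D)
    (h : kk 1 0 ∈ D) : Dn 4 ≤ D := by
  refine Submodule.span_le.2 ?_
  rintro f ⟨u, v, i, j, hv, hl, rfl⟩
  exact gz_word hp h5 hD hm (kml_of_kk hD h) u v i j hv hl

end ADC
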