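import Pool.Agent.ADC.RV

/-!
# ADC-Gr1

`κ x^(p-k) ∈ D` from a multilinear identity `f` of degree `p`, `k` odd, `k ≤ p - 2`; `κ = [x_0,x_1] ⋯ [x_{k-1},x_k]`, `x = X (k+1)`,
`N = p - k ≥ 2`.  `D` a T-ideal, `p Pp ≤ D`, `ll ∈ D`.

`aP p k f ∈ D`, so by `RV` (`n = p`) `α V1 + β V2 ∈ D` with `α = 2 gA(f)`, `β = gB(f) - N gA(f)`, not both divisible by `p`.  Work in the
quotient ring: for all `y_0..y_{k-1}, x ∈ F`: `α St_k(y) x^N + β St'_k(y,x) x^{N-1} = 0`.
Facts for the alternating sums, `c` central, `k` odd: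
 (i) `St_k(y_0, ..., y_{k-2}, c) = c St_{k-1}(y_0..y_{k-2})` (the `k` positions of `c` contribute `∑ (-1)^i = 1`).
 (ii) `St'_k(y_0..y_{k-2}, c; x) = 0`: the terms with `c` last contain `[c,x] = 0`; in the others `c` is at one of the first
   `k - 1` (even number) places, alternating signs: `0`.
 (iii) `2^m St_{2m}(y) = (2m)! [y_0,y_1] ⋯ [y_{2m-2},y_{2m-1}]` : `St_{2m} = ∑ sgn ∏ y_{σ(2i)} y_{σ(2i+1)}`, antisymmetrise each pair:
   `2^m St_{2m} = ∑_σ sgn σ ∏ [y_{σ(2i)}, y_{σ(2i+1)}]`, and the product of commutators is alternating (`Rg2`).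
 (iv) `2^m St'_{2m+1}(y; x) = (2m+1)! [y_0,y_1] ⋯ [y_{2m}, x]` in the same way.
Case `p ∤ α`: put `y_{k-1} := [y_{k-1}, z]` (central): `α St_{k-1}(y_0..y_{k-2}) [y_{k-1},z] x^N = 0`; with (iii), as `(k-1)!` and `α` are prime
 to `p`: `[y_0,y_1] ⋯ [y_{k-1},z] x^N = 0`.
Case `p ∣ α`, `p ∤ β`: `[y_0,y_1] ⋯ [y_{k-1},x] x^{N-1} = 0` by (iv) (`k! β` prime to `p`).  Replace `x` by `x + z`, take the part of degree one in
 `z` (linearisation; e.g. with the operators `wp`, or: the identity `q(x) = κ'[y,x] x^{N-1}` is homogeneous of degree `N < p` in `x`, use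
 `linP`, or a Vandermonde argument) and multiply by `x` on the right: `κ'[y,z] x^{N-1} x + ∑_i κ' [y,x] x^i z x^{N-2-i} x = 0`,
 and `κ'[y,x] x^i z x^{N-2-i} x = κ'[y,x] z x^{N-1} ` modulo `[y,x][x,z] = 0`, which is `0`.  So `κ'[y,z] x^N = 0`.
Finally rename: `y_i = X i` (`i < k`), `z = X k`, `x = X (k+1)`: `kap ((k+1)/2) * X (k+1) ^ (p-k)`.
-/

namespace ADC

open AD ADN

section g1

variable {S : Type} [Ring S]

/-- products of `m` commutators -/
private def g1k (z : ℕ → S) : ℕ → S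
  | 0 => 1
  | m + 1 => g1k z m * (z (2 * m) * z (2 * m + 1) - z (2 * m + 1) * z (2 * m))

private theorem g1k_congr {z z' : ℕ → S} : ∀ (m : ℕ), (∀ i < 2 * m, z i = z' i) → g1k z m = g1k z' m := by
  intro m
  induction m with
  | zero => intro _; rfl
  | succ m ih =>
    intro h
    show g1k z m * _ = g1k z' m * _
    rw [ih (fun i hi => h i (by omega)), h (2 * m) (by omega), h (2 * m + 1) (by omega)]

private theorem g1k_comm {F : Set S} (hm : ∀ x ∈ F, ∀ y ∈ F, x * y ∈ F)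
    (K : ∀ x ∈ F, ∀ y ∈ F, ∀ z ∈ F, (x*y - y*x)*z = z*(x*y - y*x)) {z : ℕ → S} (hz : ∀ i, z i ∈ F) {s : S}
    (hs : s ∈ F) : ∀ m, g1k z m * s = s * g1k z m := by
  intro m
  induction m with
  | zero => show 1 * s = s * 1; rw [one_mul, mul_one]
  | succ m ih =>
    show g1k z m * (z (2 * m) * z (2 * m + 1) - z (2 * m + 1) * z (2 * m)) * s =
      s * (g1k z m * (z (2 * m) * z (2 * m + 1) - z (2 * m + 1) * z (2 * m)))
    rw [mul_assoc, K _ (hz _) _ (hz _) _ hs, ← mul_assoc, ih, mul_assoc]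

private theorem g1k_central {F : Set S} {z : ℕ → S} (hz : ∀ i, z i ∈ F) {i : ℕ}
    (hc : ∀ s ∈ F, z i * s = s * z i) : ∀ m, i < 2 * m → g1k z m = 0 := by
  intro m
  induction m with
  | zero => intro h; omega
  | succ m ih =>
    intro h
    show g1k z m * (z (2 * m) * z (2 * m + 1) - z (2 * m + 1) * z (2 * m)) = 0
    by_cases h1 : i < 2 * m
    · rw [ih h1, zero_mul]
    · have h2 : z (2 * m) * z (2 * m + 1) - z (2 * m + 1) * z (2 * m) = 0 := by
        rw [sub_eq_zero]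
        by_cases h3 : i = 2 * m
        · rw [← h3]; exact hc _ (hz _)
        · have h4 : 2 * m + 1 = i := by omega
          rw [h4]; exact (hc _ (hz _)).symm
      rw [h2, mul_zero]

/-- adjacent transpositions -/
private theorem g1k_adj {F : Set S} (R2 : ∀ x ∈ F, ∀ y ∈ F, ∀ z ∈ F, ∀ w ∈ F,
      (x*y - y*x)*(w*z - z*w) + (x*w - w*x)*(y*z - z*y) = 0) :
    ∀ (m : ℕ) (z : ℕ → S), (∀ i, z i ∈ F) → ∀ a < 2 * m + 1,
      g1k (z ∘ (Equiv.swap a (a + 1) : Equiv.Perm ℕ)) (m + 1) = - g1k z (m + 1) := by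
  intro m
  induction m with
  | zero =>
    intro z hz a ha
    have h1 : a = 0 := by omega
    subst h1
    show 1 * ((z (Equiv.swap 0 (0 + 1) (2 * 0))) * (z (Equiv.swap 0 (0 + 1) (2 * 0 + 1))) -
      (z (Equiv.swap 0 (0 + 1) (2 * 0 + 1))) * (z (Equiv.swap 0 (0 + 1) (2 * 0)))) =
      - (1 * (z (2 * 0) * z (2 * 0 + 1) - z (2 * 0 + 1) * z (2 * 0)))
    simp only [mul_zero, zero_add, Equiv.swap_apply_left, Equiv.swap_apply_right, one_mul, neg_sub]
  | succ m ih =>
    intro z hz a ha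
    by_cases h1 : a < 2 * m + 1
    · show g1k (z ∘ (Equiv.swap a (a + 1) : Equiv.Perm ℕ)) (m + 1) * (z (Equiv.swap a (a + 1) (2 * (m + 1))) *
        z (Equiv.swap a (a + 1) (2 * (m + 1) + 1)) - z (Equiv.swap a (a + 1) (2 * (m + 1) + 1)) *
        z (Equiv.swap a (a + 1) (2 * (m + 1)))) = - (g1k z (m + 1) * _)
      rw [ih z hz a h1, Equiv.swap_apply_of_ne_of_ne (by omega) (by omega),
        Equiv.swap_apply_of_ne_of_ne (by omega) (by omega), neg_mul]
    · by_cases h2 : a = 2 * m + 1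
      · subst h2
        show g1k (z ∘ (Equiv.swap (2 * m + 1) (2 * m + 1 + 1) : Equiv.Perm ℕ)) m *
          (z (Equiv.swap (2 * m + 1) (2 * m + 1 + 1) (2 * m)) * z (Equiv.swap (2 * m + 1) (2 * m + 1 + 1) (2 * m + 1)) -
            z (Equiv.swap (2 * m + 1) (2 * m + 1 + 1) (2 * m + 1)) * z (Equiv.swap (2 * m + 1) (2 * m + 1 + 1) (2 * m))) *
          (z (Equiv.swap (2 * m + 1) (2 * m + 1 + 1) (2 * m + 1 + 1)) * z (Equiv.swap (2 * m + 1) (2 * m + 1 + 1) (2 * m + 1 + 1 + 1)) -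
            z (Equiv.swap (2 * m + 1) (2 * m + 1 + 1) (2 * m + 1 + 1 + 1)) * z (Equiv.swap (2 * m + 1) (2 * m + 1 + 1) (2 * m + 1 + 1))) =
          - (g1k z m * (z (2 * m) * z (2 * m + 1) - z (2 * m + 1) * z (2 * m)) *
            (z (2 * m + 1 + 1) * z (2 * m + 1 + 1 + 1) - z (2 * m + 1 + 1 + 1) * z (2 * m + 1 + 1)))
        have e1 : Equiv.swap (2 * m + 1) (2 * m + 1 + 1) (2 * m) = 2 * m :=
          Equiv.swap_apply_of_ne_of_ne (by omega) (by omega)
        have e2 : Equiv.swap (2 * m + 1) (2 * m + 1 + 1) (2 * m + 1 + 1 + 1) = 2 * m + 1 + 1 + 1 :=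
          Equiv.swap_apply_of_ne_of_ne (by omega) (by omega)
        have e3 : g1k (z ∘ (Equiv.swap (2 * m + 1) (2 * m + 1 + 1) : Equiv.Perm ℕ)) m = g1k z m :=
          g1k_congr m fun i hi => by
            show z (Equiv.swap (2 * m + 1) (2 * m + 1 + 1) i) = z i
            rw [Equiv.swap_apply_of_ne_of_ne (by omega) (by omega)]
        rw [e1, e2, e3, Equiv.swap_apply_left, Equiv.swap_apply_right, mul_assoc, mul_assoc (g1k z m),
          ← mul_neg]
        congr 1
        have h3 := R2 _ (hz (2 * m)) _ (hz (2 * m + 1)) _ (hz (2 * m + 1 + 1 + 1)) _ (hz (2 * m + 1 + 1))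
        rw [add_comm] at h3
        exact eq_neg_of_add_eq_zero_left h3
      · have h3 : a = 2 * (m + 1) := by omega
        subst h3
        have e3 : g1k (z ∘ (Equiv.swap (2 * (m + 1)) (2 * (m + 1) + 1) : Equiv.Perm ℕ)) (m + 1) = g1k z (m + 1) :=
          g1k_congr (m + 1) fun i hi => by
            show z (Equiv.swap (2 * (m + 1)) (2 * (m + 1) + 1) i) = z i
            rw [Equiv.swap_apply_of_ne_of_ne (by omega) (by omega)]
        show g1k (z ∘ (Equiv.swap (2 * (m + 1)) (2 * (m + 1) + 1) : Equiv.Perm ℕ)) (m + 1) *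
          (z (Equiv.swap (2 * (m + 1)) (2 * (m + 1) + 1) (2 * (m + 1))) *
            z (Equiv.swap (2 * (m + 1)) (2 * (m + 1) + 1) (2 * (m + 1) + 1)) -
            z (Equiv.swap (2 * (m + 1)) (2 * (m + 1) + 1) (2 * (m + 1) + 1)) *
            z (Equiv.swap (2 * (m + 1)) (2 * (m + 1) + 1) (2 * (m + 1)))) = - (g1k z (m + 1) * _)
        rw [e3, Equiv.swap_apply_left, Equiv.swap_apply_right, ← mul_neg, neg_sub]

private theorem g1_pN_mul (n : ℕ) (σ τ : Equiv.Perm (Fin n)) : pN n (σ * τ) = pN n σ ∘ pN n τ := by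
  funext i
  show pN n (σ * τ) i = pN n σ (pN n τ i)
  by_cases h : i < n
  · have h1 : pN n τ i = (τ ⟨i, h⟩ : ℕ) := by unfold pN; rw [dif_pos h]
    rw [h1]
    unfold pN
    rw [dif_pos h, dif_pos (τ ⟨i, h⟩).2]
    rfl
  · have h1 : pN n τ i = i := by unfold pN; rw [dif_neg h]
    rw [h1]
    unfold pN
    rw [dif_neg h, dif_neg h]

private theorem g1_pN_one (n : ℕ) : pN n 1 = id := by
  funext i
  unfold pN
  split_ifs <;> rfl

private theorem g1_pN_swap {n a : ℕ} (ha : a + 1 < n) :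
    pN n (Equiv.swap ⟨a, by omega⟩ ⟨a + 1, ha⟩) = (Equiv.swap a (a + 1) : Equiv.Perm ℕ) := by
  funext i
  unfold pN
  by_cases h : i < n
  · rw [dif_pos h, Equiv.swap_apply_def, Equiv.swap_apply_def]
    by_cases h1 : i = a
    · rw [if_pos (Fin.ext h1), if_pos h1]
    · rw [if_neg (fun h2 => h1 (congrArg Fin.val h2)), if_neg h1]
      by_cases h3 : i = a + 1
      · rw [if_pos (Fin.ext h3), if_pos h3]
      · rw [if_neg (fun h2 => h3 (congrArg Fin.val h2)), if_neg h3]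
  · rw [dif_neg h, Equiv.swap_apply_of_ne_of_ne (by omega) (by omega)]

private theorem g1k_perm {F : Set S} (R2 : ∀ x ∈ F, ∀ y ∈ F, ∀ z ∈ F, ∀ w ∈ F,
      (x*y - y*x)*(w*z - z*w) + (x*w - w*x)*(y*z - z*y) = 0) (m : ℕ) (σ : Equiv.Perm (Fin (2 * m + 1))) :
    ∀ (z : ℕ → S), (∀ i, z i ∈ F) →
      g1k (z ∘ pN (2 * m + 1) σ) (m + 1) = ((Equiv.Perm.sign σ : ℤˣ) : ℤ) • g1k z (m + 1) := by
  have hσ : σ ∈ Submonoid.closure (Set.range fun i : Fin (2 * m) => Equiv.swap i.castSucc i.succ) := by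
    rw [Equiv.Perm.mclosure_swap_castSucc_succ]
    exact Submonoid.mem_top _
  induction hσ using Submonoid.closure_induction with
  | mem x hx =>
    obtain ⟨i, rfl⟩ := hx
    intro z hz
    have h1 : pN (2 * m + 1) (Equiv.swap i.castSucc i.succ) =
        (Equiv.swap (i : ℕ) ((i : ℕ) + 1) : Equiv.Perm ℕ) := by
      have h2 := i.2
      exact g1_pN_swap (n := 2 * m + 1) (a := (i : ℕ)) (by omega)
    have h3 : i.castSucc ≠ i.succ := by
      intro h
      have := congrArg Fin.val h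
      simp at this
    show g1k (z ∘ pN (2 * m + 1) (Equiv.swap i.castSucc i.succ)) (m + 1) =
      ((Equiv.Perm.sign (Equiv.swap i.castSucc i.succ) : ℤˣ) : ℤ) • g1k z (m + 1)
    rw [h1, g1k_adj R2 m z hz i (by have := i.2; omega), Equiv.Perm.sign_swap h3]
    simp
  | one =>
    intro z hz
    rw [g1_pN_one]
    simp
  | mul x y _ _ hx hy =>
    intro z hz
    rw [g1_pN_mul, ← Function.comp_assoc, hy (z ∘ pN (2 * m + 1) x) (fun i => hz _), hx z hz, smul_smul,
      Equiv.Perm.sign_mul, Units.val_mul, mul_comm]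

/-- alternating sums -/
private noncomputable def g1A (k : ℕ) (Ψ : (ℕ → S) → S) (z : ℕ → S) : S :=
  ∑ σ : Equiv.Perm (Fin k), ((Equiv.Perm.sign σ : ℤˣ) : ℤ) • Ψ (z ∘ pN k σ)

private theorem g1A_sub (k : ℕ) (Ψ Φ : (ℕ → S) → S) (z : ℕ → S) :
    g1A k (fun z => Ψ z - Φ z) z = g1A k Ψ z - g1A k Φ z := by
  unfold g1A
  rw [← Finset.sum_sub_distrib]
  exact Finset.sum_congr rfl fun σ _ => smul_sub _ _ _

private theorem g1A_perm (k : ℕ) (Ψ : (ℕ → S) → S) (τ : Equiv.Perm (Fin k)) (z : ℕ → S) :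
    g1A k (fun z => Ψ (z ∘ pN k τ)) z = ((Equiv.Perm.sign τ : ℤˣ) : ℤ) • g1A k Ψ z := by
  unfold g1A
  rw [Finset.smul_sum]
  refine Fintype.sum_equiv (Equiv.mulRight τ) _ _ fun σ => ?_
  show ((Equiv.Perm.sign σ : ℤˣ) : ℤ) • Ψ ((z ∘ pN k σ) ∘ pN k τ) =
    ((Equiv.Perm.sign τ : ℤˣ) : ℤ) • ((Equiv.Perm.sign (σ * τ) : ℤˣ) : ℤ) • Ψ (z ∘ pN k (σ * τ))
  rw [g1_pN_mul, Function.comp_assoc, smul_smul, Equiv.Perm.sign_mul, Units.val_mul,
    mul_comm ((Equiv.Perm.sign σ : ℤˣ) : ℤ), ← mul_assoc, ← Units.val_mul, Int.units_mul_self, Units.val_one,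
    one_mul]

private def g1B (R : (ℕ → S) → S) (j r : ℕ) (z : ℕ → S) : S :=
  g1k z j * ((List.range' (2 * j) (2 * r)).map z).prod * R z

private theorem g1_step {k M : ℕ} (hk : 2 * M < k) {R : (ℕ → S) → S}
    (hR : ∀ z a, a + 1 < 2 * M → R (z ∘ (Equiv.swap a (a + 1) : Equiv.Perm ℕ)) = R z) {j r : ℕ}
    (hj : j + (r + 1) = M) (z : ℕ → S) :
    g1A k (g1B R (j + 1) r) z = (2 : ℤ) • g1A k (g1B R j (r + 1)) z := by
  have hτ : (⟨2 * j, by omega⟩ : Fin k) ≠ ⟨2 * j + 1, by omega⟩ := by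
    intro h
    have := congrArg Fin.val h
    simp at this
  have h1 : (g1B R (j + 1) r : (ℕ → S) → S) = fun z => g1B R j (r + 1) z -
      g1B R j (r + 1) (z ∘ pN k (Equiv.swap ⟨2 * j, by omega⟩ ⟨2 * j + 1, by omega⟩)) := by
    funext z
    rw [g1_pN_swap (n := k) (a := 2 * j) (by omega)]
    unfold g1B
    have h2 : 2 * (r + 1) = 2 * r + 1 + 1 := by ring
    have h3 : List.range' (2 * j) (2 * (r + 1)) = 2 * j :: (2 * j + 1) :: List.range' (2 * j + 1 + 1) (2 * r) := by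
      rw [h2, List.range'_succ, List.range'_succ]
    have h4 : (List.range' (2 * j + 1 + 1) (2 * r)).map (z ∘ (Equiv.swap (2 * j) (2 * j + 1) : Equiv.Perm ℕ)) =
        (List.range' (2 * j + 1 + 1) (2 * r)).map z := by
      refine List.map_congr_left fun i hi => ?_
      rw [List.mem_range'] at hi
      obtain ⟨q, -, rfl⟩ := hi
      show z (Equiv.swap (2 * j) (2 * j + 1) _) = z _
      rw [Equiv.swap_apply_of_ne_of_ne (by omega) (by omega)]
    have h5 : g1k (z ∘ (Equiv.swap (2 * j) (2 * j + 1) : Equiv.Perm ℕ)) j = g1k z j :=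
      g1k_congr j fun i hi => by
        show z (Equiv.swap (2 * j) (2 * j + 1) i) = z i
        rw [Equiv.swap_apply_of_ne_of_ne (by omega) (by omega)]
    rw [h3, List.map_cons, List.map_cons, List.map_cons, List.map_cons, List.prod_cons, List.prod_cons,
      List.prod_cons, List.prod_cons, h4, h5, hR z (2 * j) (by omega)]
    show g1k z j * (z (2 * j) * z (2 * j + 1) - z (2 * j + 1) * z (2 * j)) *
      ((List.range' (2 * (j + 1)) (2 * r)).map z).prod * R z = _ -
      g1k z j * (z (Equiv.swap (2 * j) (2 * j + 1) (2 * j)) * (z (Equiv.swap (2 * j) (2 * j + 1) (2 * j + 1)) *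
        ((List.range' (2 * j + 1 + 1) (2 * r)).map z).prod)) * R z
    rw [Equiv.swap_apply_left, Equiv.swap_apply_right, ← sub_mul]
    congr 1
    have h6 : 2 * (j + 1) = 2 * j + 1 + 1 := by ring
    rw [h6, ← mul_sub, mul_assoc]
    congr 1
    rw [sub_mul, mul_assoc, mul_assoc]
  rw [h1, g1A_sub, g1A_perm, Equiv.Perm.sign_swap hτ]
  simp [two_smul]

private theorem g1_T {k M : ℕ} (hk : 2 * M < k) {R : (ℕ → S) → S}
    (hR : ∀ z a, a + 1 < 2 * M → R (z ∘ (Equiv.swap a (a + 1) : Equiv.Perm ℕ)) = R z) (z : ℕ → S) :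
    ∀ r j, j + r = M → g1A k (g1B R M 0) z = (2 : ℤ) ^ r • g1A k (g1B R j r) z := by
  intro r
  induction r with
  | zero =>
    intro j hj
    rw [add_zero] at hj
    rw [hj, pow_zero, one_smul]
  | succ r ih =>
    intro j hj
    rw [ih (j + 1) (by omega), g1_step hk hR hj, smul_smul, pow_succ]

private theorem g1_fac {F : Set S} (R2 : ∀ x ∈ F, ∀ y ∈ F, ∀ z ∈ F, ∀ w ∈ F,
      (x*y - y*x)*(w*z - z*w) + (x*w - w*x)*(y*z - z*y) = 0) (M : ℕ) (z : ℕ → S) (hz : ∀ i, z i ∈ F) :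
    (2 : ℤ) ^ M • g1A (2 * M + 1) (g1B (fun z => z (2 * M) * z (2 * M + 1) - z (2 * M + 1) * z (2 * M)) 0 M) z =
      ((2 * M + 1).factorial : ℤ) • g1k z (M + 1) := by
  rw [← g1_T (k := 2 * M + 1) (M := M) (by omega) (fun z a ha => by
    show z (Equiv.swap a (a + 1) (2 * M)) * z (Equiv.swap a (a + 1) (2 * M + 1)) -
      z (Equiv.swap a (a + 1) (2 * M + 1)) * z (Equiv.swap a (a + 1) (2 * M)) = _
    rw [Equiv.swap_apply_of_ne_of_ne (by omega) (by omega), Equiv.swap_apply_of_ne_of_ne (by omega) (by omega)])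
    z M 0 (by omega)]
  unfold g1A
  have h1 : ∀ σ : Equiv.Perm (Fin (2 * M + 1)), ((Equiv.Perm.sign σ : ℤˣ) : ℤ) •
      g1B (fun z => z (2 * M) * z (2 * M + 1) - z (2 * M + 1) * z (2 * M)) M 0 (z ∘ pN (2 * M + 1) σ) =
      g1k z (M + 1) := by
    intro σ
    have h2 : g1B (fun z => z (2 * M) * z (2 * M + 1) - z (2 * M + 1) * z (2 * M)) M 0 (z ∘ pN (2 * M + 1) σ) =
        g1k (z ∘ pN (2 * M + 1) σ) (M + 1) := by
      show g1k (z ∘ pN (2 * M + 1) σ) M * 1 * _ = g1k (z ∘ pN (2 * M + 1) σ) M * _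
      rw [mul_one]
    rw [h2, g1k_perm R2 M σ z hz, smul_smul, ← Units.val_mul, Int.units_mul_self, Units.val_one, one_smul]
  rw [Finset.sum_congr rfl (fun σ _ => h1 σ), Finset.sum_const, Finset.card_univ, Fintype.card_perm,
    Fintype.card_fin, natCast_zsmul]

private theorem g1_cen {F : Set S} (R2 : ∀ x ∈ F, ∀ y ∈ F, ∀ z ∈ F, ∀ w ∈ F,
      (x*y - y*x)*(w*z - z*w) + (x*w - w*x)*(y*z - z*y) = 0) (M : ℕ) (z z' : ℕ → S) (hz : ∀ i, z i ∈ F)
    (hz' : ∀ i, z' i ∈ F) (hzz : ∀ i < 2 * M, z i = z' i)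
    (hc : z (2 * M) = z' (2 * M) * z' (2 * M + 1) - z' (2 * M + 1) * z' (2 * M))
    (hcc : ∀ s ∈ F, z (2 * M) * s = s * z (2 * M)) :
    (2 : ℤ) ^ M • g1A (2 * M + 1) (g1B (fun z => z (2 * M)) 0 M) z =
      ((2 * M).factorial : ℤ) • g1k z' (M + 1) := by
  rw [← g1_T (k := 2 * M + 1) (M := M) (by omega) (fun z a ha => by
    show z (Equiv.swap a (a + 1) (2 * M)) = _
    rw [Equiv.swap_apply_of_ne_of_ne (by omega) (by omega)])
    z M 0 (by omega)]
  unfold g1A
  have h1 : ∀ σ : Equiv.Perm (Fin (2 * M + 1)), ((Equiv.Perm.sign σ : ℤˣ) : ℤ) •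
      g1B (fun z => z (2 * M)) M 0 (z ∘ pN (2 * M + 1) σ) =
      if σ ∈ aF (2 * M + 1) (2 * M) then g1k z' (M + 1) else 0 := by
    intro σ
    have h2 : g1B (fun z => z (2 * M)) M 0 (z ∘ pN (2 * M + 1) σ) =
        g1k (z ∘ pN (2 * M + 1) σ) M * z (pN (2 * M + 1) σ (2 * M)) := by
      show g1k (z ∘ pN (2 * M + 1) σ) M * 1 * _ = g1k (z ∘ pN (2 * M + 1) σ) M * _
      rw [mul_one]
      rfl
    rw [h2]
    have hp0 : ∀ i (h : i < 2 * M + 1), pN (2 * M + 1) σ i = (σ ⟨i, h⟩ : ℕ) := by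
      intro i h
      unfold pN
      rw [dif_pos h]
    by_cases h3 : σ ∈ aF (2 * M + 1) (2 * M)
    · rw [if_pos h3]
      have h4 : pN (2 * M + 1) σ (2 * M) = 2 * M := by
        rw [hp0 _ (by omega), (Finset.mem_filter.1 h3).2 ⟨2 * M, by omega⟩ le_rfl]
      have h5 : pN (2 * M + 1) σ (2 * M + 1) = 2 * M + 1 := by
        unfold pN
        rw [dif_neg (by omega)]
      have h6 : g1k (z ∘ pN (2 * M + 1) σ) M = g1k (z' ∘ pN (2 * M + 1) σ) M := by
        refine g1k_congr M fun i hi => ?_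
        refine hzz _ ?_
        have h7 : pN (2 * M + 1) σ i < 2 * M + 1 := pN_lt σ (by omega)
        have h8 : pN (2 * M + 1) σ i ≠ 2 * M := by
          intro h9
          have := pN_inj (2 * M + 1) σ (h9.trans h4.symm)
          omega
        omega
      have h9 : g1k (z' ∘ pN (2 * M + 1) σ) M * z (2 * M) = g1k (z' ∘ pN (2 * M + 1) σ) (M + 1) := by
        show _ = g1k (z' ∘ pN (2 * M + 1) σ) M * (z' (pN (2 * M + 1) σ (2 * M)) * z' (pN (2 * M + 1) σ (2 * M + 1)) -
          z' (pN (2 * M + 1) σ (2 * M + 1)) * z' (pN (2 * M + 1) σ (2 * M)))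
        rw [h4, h5, hc]
      rw [h4, h6, h9, g1k_perm R2 M σ z' hz', smul_smul, ← Units.val_mul, Int.units_mul_self, Units.val_one, one_smul]
    · rw [if_neg h3]
      have h4 : σ ⟨2 * M, by omega⟩ ≠ ⟨2 * M, by omega⟩ := by
        intro h5
        refine h3 (Finset.mem_filter.2 ⟨Finset.mem_univ _, fun i hi => ?_⟩)
        have h6 : i = ⟨2 * M, by omega⟩ := Fin.ext (by have := i.2; show i.val = 2 * M; omega)
        rw [h6, h5]
      have h5 : ((σ.symm ⟨2 * M, by omega⟩ : Fin (2 * M + 1)) : ℕ) < 2 * M := by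
        have h6 := (σ.symm ⟨2 * M, by omega⟩).2
        have h7 : ((σ.symm ⟨2 * M, by omega⟩ : Fin (2 * M + 1)) : ℕ) ≠ 2 * M := by
          intro h8
          have h9 : σ.symm ⟨2 * M, by omega⟩ = (⟨2 * M, by omega⟩ : Fin (2 * M + 1)) := Fin.ext h8
          exact h4 ((Equiv.symm_apply_eq σ).1 h9).symm
        omega
      have h6 : g1k (z ∘ pN (2 * M + 1) σ) M = 0 := by
        refine g1k_central (F := F) (fun i => hz _) (i := ((σ.symm ⟨2 * M, by omega⟩ : Fin (2 * M + 1)) : ℕ)) ?_ M h5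
        have h7 : (z ∘ pN (2 * M + 1) σ) ((σ.symm ⟨2 * M, by omega⟩ : Fin (2 * M + 1)) : ℕ) = z (2 * M) := by
          show z (pN (2 * M + 1) σ _) = _
          rw [hp0 _ (σ.symm ⟨2 * M, by omega⟩).2]
          simp
        intro s hs
        have h8 := hcc s hs
        rw [← h7] at h8
        exact h8
      rw [h6, zero_mul, smul_zero]
  rw [Finset.sum_congr rfl (fun σ _ => h1 σ), Finset.sum_ite_mem, Finset.univ_inter, Finset.sum_const,
    card_aF (by omega), natCast_zsmul]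

/-- expansions -/
private theorem g1_exp {p : ℤ} {E x v : S} (hE : p • E = 0) (hEx : E * x = x * E)
    (hE2 : E * (x * v) = E * (v * x)) : ∀ n : ℕ, ∃ c : ℕ → S, c 0 = E * x ^ n ∧
      c 1 = (n : ℤ) • (x ^ (n - 1) * (E * v)) ∧ (∀ i, n < i → c i = 0) ∧ (∀ i, p • c i = 0) ∧
      ∀ t : ℤ, E * (x + t • v) ^ n = ∑ i ∈ Finset.range (n + 1), t ^ i • c i := by
  intro n
  induction n with
  | zero =>
    refine ⟨fun i => if i = 0 then E else 0, by simp, by simp, fun i hi => if_neg (by omega), fun i => ?_, fun t => ?_⟩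
    · show p • (if i = 0 then E else 0) = 0
      split_ifs
      · exact hE
      · exact smul_zero _
    · simp
  | succ n ih =>
    obtain ⟨c, h0, h1, h2, h3, h4⟩ := ih
    refine ⟨fun i => c i * x + (if i = 0 then 0 else c (i - 1) * v), ?_, ?_, ?_, ?_, ?_⟩
    · show c 0 * x + (if 0 = 0 then 0 else c (0 - 1) * v) = _
      rw [if_pos rfl, add_zero, h0, mul_assoc, pow_succ]
    · show c 1 * x + (if 1 = 0 then 0 else c (1 - 1) * v) = _
      rw [if_neg (by omega), h1, Nat.sub_self, h0]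
      have hEn : ∀ m : ℕ, E * x ^ m = x ^ m * E := by
        intro m
        induction m with
        | zero => simp
        | succ m ihm => rw [pow_succ, ← mul_assoc, ihm, mul_assoc, hEx, mul_assoc]
      rw [hEn, smul_mul_assoc, mul_assoc, mul_assoc, ← hE2, ← mul_assoc E, hEx, Nat.add_sub_cancel]
      rcases Nat.eq_zero_or_pos n with hn | hn
      · subst hn
        simp
      · have h5 : x ^ (n - 1) * (x * E * v) = x ^ n * (E * v) := by
          rw [← mul_assoc, ← mul_assoc, ← pow_succ, Nat.sub_add_cancel hn, mul_assoc]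
        rw [h5]
        push_cast
        rw [add_smul, one_smul, mul_assoc]
    · intro i hi
      show c i * x + (if i = 0 then 0 else c (i - 1) * v) = 0
      rw [h2 i (by omega), zero_mul, if_neg (by omega), h2 (i - 1) (by omega), zero_mul, add_zero]
    · intro i
      show p • (c i * x + (if i = 0 then 0 else c (i - 1) * v)) = 0
      rw [smul_add, ← smul_mul_assoc, h3, zero_mul, zero_add]
      split_ifs
      · exact smul_zero _
      · rw [← smul_mul_assoc, h3, zero_mul]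
    · intro t
      rw [pow_succ, ← mul_assoc, h4, mul_add, Finset.sum_mul, Finset.sum_mul]
      have h5 : ∑ i ∈ Finset.range (n + 1 + 1), t ^ i • (c i * x + (if i = 0 then 0 else c (i - 1) * v)) =
          ∑ i ∈ Finset.range (n + 1 + 1), t ^ i • (c i * x) +
          ∑ i ∈ Finset.range (n + 1 + 1), t ^ i • (if i = 0 then 0 else c (i - 1) * v) := by
        rw [← Finset.sum_add_distrib]
        exact Finset.sum_congr rfl fun i _ => smul_add _ _ _
      show _ = ∑ i ∈ Finset.range (n + 1 + 1), t ^ i • (c i * x + (if i = 0 then 0 else c (i - 1) * v))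
      rw [h5, Finset.sum_range_succ (fun i => t ^ i • (c i * x)), h2 (n + 1) (by omega), zero_mul, smul_zero,
        add_zero, Finset.sum_range_succ' (fun i => t ^ i • (if i = 0 then 0 else c (i - 1) * v))]
      congr 1
      · exact Finset.sum_congr rfl fun i _ => smul_mul_assoc _ _ _
      · rw [if_pos rfl, smul_zero, add_zero]
        refine Finset.sum_congr rfl fun i _ => ?_
        rw [if_neg (by omega), Nat.add_sub_cancel, smul_mul_assoc, mul_smul_comm, smul_smul, pow_succ]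

private theorem g1_van {p : ℕ} (hp : p.Prime) {c : ℕ → S} (hc : ∀ i, (p : ℤ) • c i = 0) {N : ℕ} (hN : N ≤ p)
    (h : ∀ t : ℤ, ∑ i ∈ Finset.range N, t ^ i • c i = 0) : ∀ i < N, c i = 0 := by
  intro k hk
  let V : Matrix (Fin N) (Fin N) ℤ := Matrix.vandermonde (fun i : Fin N => ((i : ℕ) : ℤ))
  have hV : ¬ (p : ℤ) ∣ V.det := by
    rw [Matrix.det_vandermonde]
    intro hd
    have hpp := Nat.prime_iff_prime_int.1 hp
    obtain ⟨i, -, hi⟩ := (Prime.dvd_finset_prod_iff hpp _).1 hd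
    obtain ⟨j, hj, hj2⟩ := (Prime.dvd_finset_prod_iff hpp _).1 hi
    rw [Finset.mem_Ioi] at hj
    have h1 : (i : ℕ) < (j : ℕ) := hj
    have h2 := j.2
    have h3 : (((j : ℕ) : ℤ) - ((i : ℕ) : ℤ)) = (((j : ℕ) - (i : ℕ) : ℕ) : ℤ) := by
      rw [Nat.cast_sub h1.le]
    rw [h3, Int.natCast_dvd_natCast] at hj2
    have := Nat.le_of_dvd (by omega) hj2
    omega
  have hrow : ∀ t : Fin N, ∑ j : Fin N, V t j • c (j : ℕ) = 0 := by
    intro t
    have h1 := h ((t : ℕ) : ℤ)
    rw [← Fin.sum_univ_eq_sum_range (fun k => ((((t : ℕ)) : ℤ) ^ k) • c k)] at h1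
    rw [← h1]
    exact Finset.sum_congr rfl fun j _ => by simp [V, Matrix.vandermonde_apply]
  have h3 : V.det • c k = 0 := by
    have h4 : V.det • c k = ∑ j : Fin N, (V.adjugate * V) ⟨k, hk⟩ j • c (j : ℕ) := by
      rw [Matrix.adjugate_mul, Finset.sum_eq_single (⟨k, hk⟩ : Fin N)]
      · simp
      · intro j _ hj
        simp [Matrix.one_apply_ne' hj]
      · intro hj
        exact absurd (Finset.mem_univ _) hj
    have h5 : ∑ j : Fin N, (V.adjugate * V) ⟨k, hk⟩ j • c (j : ℕ) =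
        ∑ t : Fin N, V.adjugate ⟨k, hk⟩ t • ∑ j : Fin N, V t j • c (j : ℕ) := by
      simp_rw [Matrix.mul_apply, Finset.sum_smul, Finset.smul_sum, mul_smul]
      rw [Finset.sum_comm]
    rw [h4, h5]
    refine Finset.sum_eq_zero fun t _ => ?_
    rw [hrow t, smul_zero]
  obtain ⟨u, v, huv⟩ := (Prime.coprime_iff_not_dvd (Nat.prime_iff_prime_int.1 hp)).2 hV
  have h6 : c k = u • ((p : ℤ) • c k) + v • (V.det • c k) := by
    rw [smul_smul, smul_smul, ← add_smul, huv, one_smul]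
  rw [h6, hc, h3, smul_zero, smul_zero, add_zero]

private theorem g1_can {p : ℕ} (hp : p.Prime) {c : ℤ} (hc : ¬ (p : ℤ) ∣ c) {s : S} (hs : (p : ℤ) • s = 0)
    (h : c • s = 0) : s = 0 := by
  obtain ⟨u, v, huv⟩ := (Prime.coprime_iff_not_dvd (Nat.prime_iff_prime_int.1 hp)).2 hc
  have h6 : s = u • ((p : ℤ) • s) + v • (c • s) := by
    rw [smul_smul, smul_smul, ← add_smul, huv, one_smul]
  rw [h6, hs, h, smul_zero, smul_zero, add_zero]

/-- the linearisation step -/
private theorem g1_lin {p : ℕ} (hp : p.Prime) {F : Set S} (ha : ∀ x ∈ F, ∀ y ∈ F, x + y ∈ F)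
    (hsm : ∀ (t : ℤ), ∀ x ∈ F, t • x ∈ F) (hpF : ∀ x ∈ F, (p : ℤ) • x = 0)
    (hm : ∀ x ∈ F, ∀ y ∈ F, x * y ∈ F)
    (K : ∀ x ∈ F, ∀ y ∈ F, ∀ z ∈ F, (x*y - y*x)*z = z*(x*y - y*x))
    (R1 : ∀ x ∈ F, ∀ y ∈ F, ∀ z ∈ F, (x*y - y*x)*(y*z - z*y) = 0)
    {A y v x : S} (hy : y ∈ F) (hv : v ∈ F) (hx : x ∈ F) (hA : ∀ s ∈ F, A * s = s * A) {n : ℕ} (hn : 1 ≤ n)
    (hnp : n + 1 < p) (h : ∀ w ∈ F, A * (y * w - w * y) * w ^ n = 0) :
    A * (y * v - v * y) * x ^ (n + 1) = 0 := by
  have hsub : ∀ a ∈ F, ∀ b ∈ F, a - b ∈ F := fun a haa b hb => by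
    have := ha a haa _ (hsm (-1) b hb)
    rwa [neg_one_smul, ← sub_eq_add_neg] at this
  have hcm : ∀ a ∈ F, ∀ b ∈ F, a * b - b * a ∈ F := fun a haa b hb =>
    hsub _ (hm a haa b hb) _ (hm b hb a haa)
  have key : ∀ q ∈ F, (p : ℤ) • (A * (y * q - q * y)) = 0 ∧ A * (y * q - q * y) * x = x * (A * (y * q - q * y)) := by
    intro q hq
    constructor
    · rw [← mul_smul_comm, hpF _ (hcm y hy q hq), mul_zero]
    · rw [mul_assoc, K y hy q hq x hx, ← mul_assoc, hA x hx, mul_assoc]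
  have hE2 : A * (y * x - x * y) * (x * v) = A * (y * x - x * y) * (v * x) := by
    rw [← sub_eq_zero, ← mul_sub, mul_assoc, R1 y hy x hx v hv, mul_zero]
  have hG2 : A * (y * v - v * y) * (x * v) = A * (y * v - v * y) * (v * x) := by
    rw [eq_comm, ← sub_eq_zero, ← mul_sub, mul_assoc, R1 y hy v hv x hx, mul_zero]
  obtain ⟨c, c0, c1, c2, c3, c4⟩ := g1_exp (key x hx).1 (key x hx).2 hE2 n
  obtain ⟨d, d0, d1, d2, d3, d4⟩ := g1_exp (key v hv).1 (key v hv).2 hG2 n
  have h1 : ∀ t : ℤ, ∑ i ∈ Finset.range (n + 2), t ^ i • (c i + (if i = 0 then 0 else d (i - 1))) = 0 := by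
    intro t
    have h2 := h (x + t • v) (ha x hx _ (hsm t v hv))
    have h3 : A * (y * (x + t • v) - (x + t • v) * y) * (x + t • v) ^ n =
        A * (y * x - x * y) * (x + t • v) ^ n + t • (A * (y * v - v * y) * (x + t • v) ^ n) := by
      have h4 : y * (x + t • v) - (x + t • v) * y = (y * x - x * y) + t • (y * v - v * y) := by
        rw [mul_add, add_mul, mul_smul_comm, smul_mul_assoc, smul_sub]
        abel
      rw [h4, mul_add, add_mul, mul_smul_comm, smul_mul_assoc]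
    rw [h3, c4, d4] at h2
    have h5 : ∑ i ∈ Finset.range (n + 2), t ^ i • (c i + (if i = 0 then 0 else d (i - 1))) =
        ∑ i ∈ Finset.range (n + 1 + 1), t ^ i • c i +
        ∑ i ∈ Finset.range (n + 1 + 1), t ^ i • (if i = 0 then 0 else d (i - 1)) := by
      rw [← Finset.sum_add_distrib]
      exact Finset.sum_congr rfl fun i _ => smul_add _ _ _
    rw [h5, Finset.sum_range_succ (fun i => t ^ i • c i), c2 (n + 1) (by omega), smul_zero, add_zero,
      Finset.sum_range_succ' (fun i => t ^ i • (if i = 0 then 0 else d (i - 1))), if_pos rfl, smul_zero, add_zero,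
      ← h2]
    congr 1
    rw [Finset.smul_sum]
    refine Finset.sum_congr rfl fun i _ => ?_
    rw [if_neg (by omega), Nat.add_sub_cancel, smul_smul, pow_succ, mul_comm]
  have h2 := g1_van hp (c := fun i => c i + (if i = 0 then 0 else d (i - 1))) (fun i => by
    show (p : ℤ) • (c i + (if i = 0 then 0 else d (i - 1))) = 0
    rw [smul_add, c3, zero_add]
    split_ifs
    · exact smul_zero _
    · exact d3 _) (N := n + 2) (by omega) h1 1 (by omega)
  have h3 : c 1 + d 0 = 0 := h2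
  rw [c1, d0] at h3
  have h4 : x ^ (n - 1) * (A * (y * x - x * y) * v) * x = 0 := by
    have h5 : x ^ (n - 1) * (A * (y * x - x * y) * v) * x = x ^ n * (A * (y * x - x * y)) * v := by
      rw [mul_assoc, mul_assoc _ v x, ← hE2, ← mul_assoc _ x v, (key x hx).2, ← mul_assoc, ← mul_assoc,
        ← pow_succ, Nat.sub_add_cancel hn]
    have hEn : ∀ m : ℕ, A * (y * x - x * y) * x ^ m = x ^ m * (A * (y * x - x * y)) := by
      intro m
      induction m with
      | zero => simp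
      | succ m ihm => rw [pow_succ, ← mul_assoc, ihm, mul_assoc, (key x hx).2, mul_assoc]
    rw [h5, ← hEn, h x hx, zero_mul]
  have h6 := congrArg (fun s => s * x) h3
  simp only [add_mul, zero_mul, smul_mul_assoc] at h6
  rw [h4, smul_zero, zero_add, mul_assoc, ← pow_succ] at h6
  exact h6

end g1

private theorem g1_St {S : Type} [Ring S] (ρ : P →+* S) (k : ℕ) :
    ρ (St k) = g1A k (fun z => ((List.range k).map z).prod) (fun i => ρ (X i)) := by
  unfold St g1A
  rw [map_sum]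
  refine Finset.sum_congr rfl fun σ _ => ?_
  rw [map_zsmul, map_list_prod]
  congr 2
  apply List.ext_getElem
  · simp
  · intro i h1 h2
    have h3 : i < k := by simpa using h1
    simp only [List.getElem_map, List.getElem_ofFn, List.getElem_range, Function.comp_apply]
    unfold pN
    rw [dif_pos h3]

private theorem g1_St' {S : Type} [Ring S] (ρ : P →+* S) (M : ℕ) :
    ρ (St' (2 * M + 1)) = g1A (2 * M + 1) (fun z => ((List.range (2 * M)).map z).prod *
      (z (2 * M) * z (2 * M + 1) - z (2 * M + 1) * z (2 * M))) (fun i => ρ (X i)) := by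
  unfold St' g1A
  rw [map_sum]
  refine Finset.sum_congr rfl fun σ _ => ?_
  have h0 : List.ofFn (fun i : Fin (2 * M + 1) => X (σ i)) =
      (List.range (2 * M)).map (fun i => X (pN (2 * M + 1) σ i)) ++ [X (pN (2 * M + 1) σ (2 * M))] := by
    have h1 : (List.range (2 * M)).map (fun i => X (pN (2 * M + 1) σ i)) ++ [X (pN (2 * M + 1) σ (2 * M))] =
        (List.range (2 * M + 1)).map (fun i => X (pN (2 * M + 1) σ i)) := by
      rw [List.range_succ, List.map_append, List.map_singleton]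
    rw [h1]
    apply List.ext_getElem
    · simp
    · intro i h1 h2
      have h3 : i < 2 * M + 1 := by simpa using h1
      simp only [List.getElem_map, List.getElem_ofFn, List.getElem_range]
      unfold pN
      rw [dif_pos h3]
  have h2 : 2 * M + 1 - 1 = ((List.range (2 * M)).map (fun i => X (pN (2 * M + 1) σ i))).length := by simp
  have h3 : pN (2 * M + 1) σ (2 * M + 1) = 2 * M + 1 := by
    unfold pN
    rw [dif_neg (by omega)]
  rw [map_zsmul, h0, h2, List.take_left, List.drop_left, List.prod_singleton, map_mul, map_sub, map_mul, map_mul,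
    map_list_prod, List.map_map]
  show _ = _ • (_ * (ρ (X (pN (2 * M + 1) σ (2 * M))) * ρ (X (pN (2 * M + 1) σ (2 * M + 1))) -
    ρ (X (pN (2 * M + 1) σ (2 * M + 1))) * ρ (X (pN (2 * M + 1) σ (2 * M)))))
  rw [h3]
  rfl

private theorem g1_kap {S : Type} [Ring S] (ρ : P →+* S) (m : ℕ) :
    ρ (kap m) = g1k (fun i => ρ (X i)) m := by
  induction m with
  | zero => unfold kap; simp [g1k]
  | succ m ih =>
    have h : kap (m + 1) = kap m * cm (2 * m) (2 * m + 1) := by
      unfold kap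
      rw [List.range_succ, List.map_append, List.prod_append, List.map_singleton, List.prod_singleton]
    rw [h, map_mul, ih]
    show _ * ρ (X (2 * m) * X (2 * m + 1) - X (2 * m + 1) * X (2 * m)) = _
    rw [map_sub, map_mul, map_mul]
    rfl

theorem Gr1 {p : ℕ} (hp : p.Prime) (h5 : 5 ≤ p) {D : Submodule ℤ P} (hD : IsT D) (hm : Mul p D) (h : ll ∈ D)
    {k : ℕ} (hk : k % 2 = 1) (hkp : k + 2 ≤ p) {f : P} (hf : f ∈ Ml p) (hfD : f ∈ D)
    (hn : ¬ ((p : ℤ) ∣ gA k f ∧ (p : ℤ) ∣ gB p k f)) :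
    kap ((k + 1) / 2) * X (k + 1) ^ (p - k) ∈ D := by
  obtain ⟨M, rfl⟩ : ∃ M, k = 2 * M + 1 := ⟨k / 2, by omega⟩
  obtain ⟨N, hN⟩ : ∃ N, p - (2 * M + 1) = N + 1 := ⟨p - (2 * M + 1) - 1, by omega⟩
  have hk2 : (2 * M + 1 + 1) / 2 = M + 1 := by omega
  rw [hk2, hN]
  have hpp := Nat.prime_iff_prime_int.1 hp
  -- the identity in degree `p`
  have hα := RV hp h5 hD hm.sq h (n := p) (k := 2 * M + 1) (by omega) (by omega) hf
  have h1 : col (2 * M + 1) (aP p (2 * M + 1) f) ∈ D :=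
    sb_mem hD (fun i => X_mem _) (TOp_aP p p (2 * M + 1) D hD hm.sq f hfD)
  have h2 := D.sub_mem (D.smul_mem (2 : ℤ) h1) hα
  rw [sub_sub_cancel, hN] at h2
  set a : ℤ := gA (2 * M + 1) f with ha
  set b : ℤ := gB p (2 * M + 1) f with hb
  -- the quotient
  obtain ⟨S, _, π, -, hker⟩ := exists_quot hD
  set F : Set S := π '' (Pp : Set P) with hF
  have hFm : ∀ x ∈ F, ∀ y ∈ F, x * y ∈ F := by
    rintro _ ⟨f, hf, rfl⟩ _ ⟨g, hg, rfl⟩
    exact ⟨f * g, Pp_mul_left f hg, map_mul π f g⟩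
  have hFa : ∀ x ∈ F, ∀ y ∈ F, x + y ∈ F := by
    rintro _ ⟨f, hf, rfl⟩ _ ⟨g, hg, rfl⟩
    exact ⟨f + g, Pp.add_mem hf hg, map_add π f g⟩
  have hFs : ∀ (t : ℤ), ∀ x ∈ F, t • x ∈ F := by
    rintro t _ ⟨f, hf, rfl⟩
    exact ⟨t • f, Pp.smul_mem t hf, map_zsmul π t f⟩
  have hFn : ∀ x ∈ F, -x ∈ F := fun x hx => by
    have := hFs (-1) x hx
    rwa [neg_one_smul] at this
  have hFp : ∀ x ∈ F, (p : ℤ) • x = 0 := by
    rintro _ ⟨f, hf, rfl⟩
    rw [← map_zsmul, hker]
    exact hm f hf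
  have h2p : ¬ (p : ℤ) ∣ 2 := by
    intro h3
    have h4 : p ∣ 2 := by exact_mod_cast h3
    have := Nat.le_of_dvd (by norm_num) h4
    omega
  have hF2 : ∀ x ∈ F, (2 : ℤ) • x = 0 → x = 0 := fun x hx h3 => g1_can hp h2p (hFp x hx) h3
  have K : ∀ x ∈ F, ∀ y ∈ F, ∀ z ∈ F, (x*y - y*x)*z = z*(x*y - y*x) := by
    rintro _ ⟨f, hf, rfl⟩ _ ⟨g, hg, rfl⟩ _ ⟨q, hq, rfl⟩
    have h3 := (hker _).2 (ll_subst hD h hf hg hq)
    rw [map_sub, map_mul, map_mul, map_sub, map_mul, map_mul] at h3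
    exact sub_eq_zero.1 h3
  have R1 : ∀ x ∈ F, ∀ y ∈ F, ∀ z ∈ F, (x*y - y*x)*(y*z - z*y) = 0 := fun x hx y hy z hz =>
    Rg1 F hFm hFa hFn hF2 K hx hy hz
  have R2 : ∀ x ∈ F, ∀ y ∈ F, ∀ z ∈ F, ∀ w ∈ F,
      (x*y - y*x)*(w*z - z*w) + (x*w - w*x)*(y*z - z*y) = 0 := fun x hx y hy z hz w hw =>
    Rg2 F hFm hFa hFn hF2 K hx hy hz hw
  have hpow : ∀ x ∈ F, ∀ n : ℕ, x ^ (n + 1) ∈ F := by
    intro x hx n
    induction n with
    | zero => rwa [zero_add, pow_one]
    | succ n ih => rw [pow_succ]; exact hFm _ ih _ hx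
  -- the main identity
  have hmain : ∀ z : ℕ → S, (∀ i, z i ∈ F) →
      (2 * a) • (g1A (2 * M + 1) (g1B (fun z => z (2 * M)) 0 M) z * z (2 * M + 1) ^ (N + 1)) +
      (b - ((N + 1 : ℕ) : ℤ) * a) • (g1A (2 * M + 1) (g1B (fun z => z (2 * M) * z (2 * M + 1) -
        z (2 * M + 1) * z (2 * M)) 0 M) z * z (2 * M + 1) ^ N) = 0 := by
    intro z hz
    choose φ hφ hφ2 using hz
    have h3 := (hker _).2 (sb_mem hD (φ := φ) hφ h2)
    have hρ : (fun i => (π.comp (sb φ : P →+* P)) (X i)) = z := by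
      funext i
      show π (sb φ (X i)) = z i
      rw [sb_X, hφ2]
    have h4 : (π.comp (sb φ : P →+* P)) ((2 * a) • V1 (2 * M + 1) (N + 1) +
      (b - ((N + 1 : ℕ) : ℤ) * a) • V2 (2 * M + 1) (N + 1)) = 0 := h3
    unfold V1 V2 at h4
    rw [map_add, map_zsmul, map_zsmul, map_mul, map_mul, map_pow, map_pow, g1_St, g1_St', hρ, Nat.add_sub_cancel] at h4
    have h5 : (fun z : ℕ → S => ((List.range (2 * M + 1)).map z).prod) = g1B (fun z => z (2 * M)) 0 M := by
      funext z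
      show _ = 1 * ((List.range' (2 * 0) (2 * M)).map z).prod * z (2 * M)
      rw [one_mul, mul_zero, ← List.range_eq_range', List.range_succ, List.map_append, List.prod_append,
        List.map_singleton, List.prod_singleton]
    have h6 : (fun z : ℕ → S => ((List.range (2 * M)).map z).prod *
      (z (2 * M) * z (2 * M + 1) - z (2 * M + 1) * z (2 * M))) = g1B (fun z => z (2 * M) * z (2 * M + 1) -
        z (2 * M + 1) * z (2 * M)) 0 M := by
      funext z
      show _ = 1 * ((List.range' (2 * 0) (2 * M)).map z).prod * _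
      rw [one_mul, mul_zero, ← List.range_eq_range']
    rw [h5, h6] at h4
    have h7 : (π.comp (sb φ : P →+* P)) (X (2 * M + 1)) = z (2 * M + 1) := congrFun hρ _
    rw [h7] at h4
    exact h4
  have hfac : ∀ n < p, ¬ (p : ℤ) ∣ (n.factorial : ℤ) := by
    intro n hn h3
    rw [Int.natCast_dvd_natCast, hp.dvd_factorial] at h3
    omega
  -- the generic values
  have hz1 : ∀ i, π (X i) ∈ F := fun i => ⟨X i, X_mem i, rfl⟩
  have hcmF : ∀ x ∈ F, ∀ y ∈ F, x * y - y * x ∈ F := fun x hx y hy => by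
    rw [sub_eq_add_neg]
    exact hFa _ (hFm x hx y hy) _ (hFn _ (hFm y hy x hx))
  have hgoal : g1k (fun i => π (X i)) (M + 1) * π (X (2 * M + 1 + 1)) ^ (N + 1) = 0 := by
    by_cases hpa : (p : ℤ) ∣ 2 * a
    · -- second case
      have hpa2 : (p : ℤ) ∣ a := (hpp.dvd_or_dvd hpa).resolve_left h2p
      have hβ : ¬ (p : ℤ) ∣ (b - ((N + 1 : ℕ) : ℤ) * a) := by
        intro h3
        refine hn ⟨hpa2, ?_⟩
        have h4 := dvd_add h3 (hpa2.mul_left ((N + 1 : ℕ) : ℤ))
        rwa [sub_add_cancel] at h4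
      have hW : ∀ z : ℕ → S, (∀ i, z i ∈ F) → g1k z (M + 1) * z (2 * M + 1) ^ N = 0 := by
        intro z hz
        have h3 := hmain z hz
        obtain ⟨e, he⟩ := hpa
        rw [he, mul_comm (p : ℤ), mul_smul, ← mul_smul_comm (p : ℤ), hFp _ (hpow _ (hz _) N), mul_zero, smul_zero,
          zero_add] at h3
        have h4 := congrArg (fun s => (2 : ℤ) ^ M • s) h3
        simp only [smul_zero] at h4
        rw [smul_comm, ← smul_mul_assoc, g1_fac R2 M z hz, smul_mul_assoc, smul_smul] at h4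
        refine g1_can hp (fun h6 => ?_) ?_ h4
        · rcases hpp.dvd_or_dvd h6 with h7 | h7
          · exact hβ h7
          · exact hfac _ (by omega) h7
        · obtain ⟨N', hN'⟩ : ∃ N', N = N' + 1 := ⟨N - 1, by omega⟩
          rw [hN', ← mul_smul_comm, hFp _ (hpow _ (hz _) N'), mul_zero]
      have hlin := g1_lin hp hFa hFs hFp hFm K R1 (A := g1k (fun i => π (X i)) M) (hz1 (2 * M)) (hz1 (2 * M + 1))
        (hz1 (2 * M + 1 + 1)) (fun s hs => g1k_comm hFm K hz1 hs M) (n := N) (by omega) (by omega) (fun w hw => by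
          have h3 := hW (fun i => if i = 2 * M + 1 then w else π (X i)) (fun i => by
            show (if i = 2 * M + 1 then w else π (X i)) ∈ F
            split_ifs
            · exact hw
            · exact hz1 i)
          have h4 : g1k (fun i => if i = 2 * M + 1 then w else π (X i)) M = g1k (fun i => π (X i)) M :=
            g1k_congr M fun i hi => if_neg (by omega)
          have h6 : g1k (fun i => if i = 2 * M + 1 then w else π (X i)) (M + 1) =
              g1k (fun i => π (X i)) M * (π (X (2 * M)) * w - w * π (X (2 * M))) := by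
            show g1k (fun i => if i = 2 * M + 1 then w else π (X i)) M *
              ((if 2 * M = 2 * M + 1 then w else π (X (2 * M))) * (if 2 * M + 1 = 2 * M + 1 then w else π (X (2 * M + 1))) -
              (if 2 * M + 1 = 2 * M + 1 then w else π (X (2 * M + 1))) * (if 2 * M = 2 * M + 1 then w else π (X (2 * M)))) = _
            rw [if_pos rfl, if_neg (by omega), h4]
          rw [h6, if_pos rfl] at h3
          exact h3)
      exact hlin
    · -- first case
      set c : S := π (X (2 * M)) * π (X (2 * M + 1)) - π (X (2 * M + 1)) * π (X (2 * M)) with hc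
      have hcF : c ∈ F := hcmF _ (hz1 _) _ (hz1 _)
      have hz : ∀ i, (fun i => if i < 2 * M then π (X i) else if i = 2 * M then c else π (X (2 * M + 1 + 1))) i ∈ F := by
        intro i
        show (if i < 2 * M then π (X i) else if i = 2 * M then c else π (X (2 * M + 1 + 1))) ∈ F
        split_ifs
        · exact hz1 i
        · exact hcF
        · exact hz1 _
      generalize hzd : (fun i => if i < 2 * M then π (X i) else if i = 2 * M then c else π (X (2 * M + 1 + 1))) = z at hz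
      have e1 : ∀ i < 2 * M, z i = π (X i) := fun i hi => by rw [← hzd]; exact if_pos hi
      have e2 : z (2 * M) = c := by rw [← hzd]; show (if _ then _ else _) = _; rw [if_neg (by omega), if_pos rfl]
      have e3 : z (2 * M + 1) = π (X (2 * M + 1 + 1)) := by
        rw [← hzd]; show (if _ then _ else _) = _; rw [if_neg (by omega), if_neg (by omega)]
      have h3 := hmain z hz
      have h4 := congrArg (fun s => (2 : ℤ) ^ M • s) h3
      simp only [smul_zero, smul_add] at h4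
      have e4 : g1k z (M + 1) = 0 := by
        refine g1k_central (F := F) hz (i := 2 * M) ?_ (M + 1) (by omega)
        rw [e2]
        exact fun s hs => K _ (hz1 _) _ (hz1 _) s hs
      rw [smul_comm _ (b - ((N + 1 : ℕ) : ℤ) * a), ← smul_mul_assoc _ _ (z (2 * M + 1) ^ N), g1_fac R2 M z hz, e4,
        smul_zero, zero_mul, smul_zero, add_zero, smul_comm, ← smul_mul_assoc,
        g1_cen R2 M z (fun i => π (X i)) hz hz1 e1 e2 (by rw [e2]; exact fun s hs => K _ (hz1 _) _ (hz1 _) s hs),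
        smul_mul_assoc, smul_smul, e3] at h4
      refine g1_can hp (fun h6 => ?_) ?_ h4
      · rcases hpp.dvd_or_dvd h6 with h7 | h7
        · exact hpa h7
        · exact hfac _ (by omega) h7
      · rw [← mul_smul_comm, hFp _ (hpow _ (hz1 _) N), mul_zero]
  rw [← hker, map_mul, map_pow, g1_kap]
  exact hgoal

end ADC
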