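import Pool.Agent.ADC.Sh

/-!
# ADC-Trf

The transfer principle.

1. `Gen_sub`: let `K` be the span on the right hand side.  `K` is a T-ideal: it is contained in `Pp` (`g ∈ Ml d`, `d ≥ 1`,
   so `sb .. g ∈ Pp`), closed under multiplication by words, and under substitutions `ψ`: `ψ` applied to
   `mon u * sb (mon ∘ w) g * mon v` is `ψ (mon u) * (g evaluated at the polynomials ψ (mon (w i))) * ψ (mon v)`; as `g` is
   multilinear in `x_0, ..., x_{d-1}` (`g ∈ Ml d`), expanding each `ψ (mon (w i)) ∈ Pp` into nonempty words gives a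
   combination of values of `g` at words: the map `(a_0, ..., a_{d-1}) ↦ sb (a) g` is additive in each argument (clear for
   `g = mon v`, `v` a permutation of `range d`).  `K` contains `k • X 0` (word `[0]`) and `G` (`w i = [i]`, `u = v = []`).
   So `Gen .. ≤ K` (`Gen` is the infimum of the T-ideals containing the set).
2. `transfer`: let `f ∈ Gen` be a combination of words of length `L`.  Write `f` as in 1. as a combination of generators;
   each generator is homogeneous: `k • mon w` has length `w.length`, and `mon u * sb .. g * mon v` has length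
   `u.length + ∑_{i<d} (w i).length + v.length`.  Apply the projection `wp (fun w => w.length = L)`: `f` is the combination of
   the generators of length exactly `L`.  The first ones are in `J` (`Mul p J`), the others in `J ⊔ Cn (L + s)` by
   `shift`.
-/

namespace ADC

open AD ADN

private theorem trf_Pp_span {h : P} (hh : h ∈ Pp) :
    h ∈ Submodule.span ℤ {f : P | ∃ w : List ℕ, w ≠ [] ∧ f = mon w} := by
  obtain ⟨n, hn⟩ := exists_mem_Pn hh
  refine (Submodule.span_mono (R := ℤ) ?_ : Pn n ≤ _) hn
  rintro g ⟨w, hw, _, rfl⟩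
  exact ⟨w, hw, rfl⟩

private theorem trf_congr {d : ℕ} {φ ψ : ℕ → P} (h : ∀ i < d, φ i = ψ i) {g : P} (hg : g ∈ Ml d) :
    sb φ g = sb ψ g := by
  refine Ml_ind (C := fun g => sb φ g = sb ψ g) (by simp) ?_ ?_ ?_ hg
  · intro f g hf hg
    rw [map_add, map_add, hf, hg]
  · intro c f hf
    rw [map_zsmul, map_zsmul, hf]
  · intro w hw
    rw [sb_mon, sb_mon]
    congr 1
    refine List.map_congr_left fun i hi => h i ?_
    exact List.mem_range.1 (hw.mem_iff.1 hi)

private theorem trf_split {d m : ℕ} (hm : m < d) {w : List ℕ} (hw : w.Perm (List.range d)) :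
    ∃ w1 w2 : List ℕ, w = w1 ++ m :: w2 ∧ m ∉ w1 ∧ m ∉ w2 := by
  have h1 : m ∈ w := hw.mem_iff.2 (List.mem_range.2 hm)
  obtain ⟨w1, w2, h2⟩ := List.append_of_mem h1
  have h3 : w.Nodup := hw.nodup_iff.2 List.nodup_range
  rw [h2, List.nodup_append] at h3
  refine ⟨w1, w2, h2, fun h => ?_, fun h => ?_⟩
  · exact h3.2.2 m h m List.mem_cons_self rfl
  · exact (List.nodup_cons.1 h3.2.1).1 h

private theorem trf_upd_map (ψ : ℕ → P) (m : ℕ) (a : P) {w : List ℕ} (h : m ∉ w) :
    w.map (Function.update ψ m a) = w.map ψ := by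
  refine List.map_congr_left fun i hi => ?_
  rw [Function.update_of_ne]
  rintro rfl
  exact h hi

private theorem trf_upd_mon (ψ : ℕ → P) {d m : ℕ} (hm : m < d) {w : List ℕ}
    (hw : w.Perm (List.range d)) : ∃ x y : P, ∀ a : P,
      sb (Function.update ψ m a) (mon w) = x * a * y := by
  obtain ⟨w1, w2, h, h1, h2⟩ := trf_split hm hw
  refine ⟨(w1.map ψ).prod, (w2.map ψ).prod, fun a => ?_⟩
  rw [sb_mon, h, List.map_append, List.map_cons, List.prod_append, List.prod_cons,
    trf_upd_map ψ m a h1, trf_upd_map ψ m a h2, Function.update_self, mul_assoc]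

private theorem trf_upd_add (ψ : ℕ → P) {d m : ℕ} (hm : m < d) {g : P} (hg : g ∈ Ml d) (a b : P) :
    sb (Function.update ψ m (a + b)) g =
      sb (Function.update ψ m a) g + sb (Function.update ψ m b) g := by
  refine Ml_ind (C := fun g => sb (Function.update ψ m (a + b)) g =
      sb (Function.update ψ m a) g + sb (Function.update ψ m b) g) (by simp) ?_ ?_ ?_ hg
  · intro f g hf hg
    rw [map_add, map_add, map_add, hf, hg]
    abel
  · intro c f hf
    rw [map_zsmul, map_zsmul, map_zsmul, hf, smul_add]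
  · intro w hw
    obtain ⟨x, y, h⟩ := trf_upd_mon ψ hm hw
    rw [h, h, h, mul_add, add_mul]

private theorem trf_upd_smul (ψ : ℕ → P) {d m : ℕ} (hm : m < d) {g : P} (hg : g ∈ Ml d) (c : ℤ)
    (a : P) : sb (Function.update ψ m (c • a)) g = c • sb (Function.update ψ m a) g := by
  refine Ml_ind (C := fun g => sb (Function.update ψ m (c • a)) g =
      c • sb (Function.update ψ m a) g) (by simp) ?_ ?_ ?_ hg
  · intro f g hf hg
    rw [map_add, map_add, hf, hg, smul_add]
  · intro c' f hf
    rw [map_zsmul, map_zsmul, hf, smul_comm]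
  · intro w hw
    obtain ⟨x, y, h⟩ := trf_upd_mon ψ hm hw
    rw [h, h, mul_smul_comm, smul_mul_assoc]

/-- a submodule that contains the values of the multilinear polynomial `g` at nonempty words
contains the values at all elements of `Pp` -/
private theorem trf_ext {K : Submodule ℤ P} {d : ℕ} {g : P} (hg : g ∈ Ml d)
    (hK : ∀ w : ℕ → List ℕ, (∀ i, w i ≠ []) → sb (fun i => mon (w i)) g ∈ K) :
    ∀ m, m ≤ d → ∀ ψ : ℕ → P, (∀ i, ψ i ∈ Pp) →
      (∀ i, m ≤ i → ∃ w : List ℕ, w ≠ [] ∧ ψ i = mon w) → sb ψ g ∈ K := by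
  intro m
  induction m with
  | zero =>
    intro _ ψ _ h
    choose w hw hw' using fun i => h i (Nat.zero_le i)
    have h1 : ψ = fun i => mon (w i) := funext hw'
    rw [h1]
    exact hK w hw
  | succ m ih =>
    intro hm ψ hψ h
    have key : ∀ a ∈ Submodule.span ℤ {f : P | ∃ w : List ℕ, w ≠ [] ∧ f = mon w},
        sb (Function.update ψ m a) g ∈ K := by
      intro a ha
      induction ha using Submodule.span_induction with
      | mem x hx =>
        obtain ⟨w, hw, rfl⟩ := hx
        refine ih (by omega) _ ?_ ?_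
        · intro i
          by_cases hi : i = m
          · rw [hi, Function.update_self]
            exact mon_mem hw
          · rw [Function.update_of_ne hi]
            exact hψ i
        · intro i hi
          by_cases hi' : i = m
          · exact ⟨w, hw, by rw [hi', Function.update_self]⟩
          · rw [Function.update_of_ne hi']
            exact h i (by omega)
      | zero =>
        have h2 := trf_upd_smul ψ (by omega : m < d) hg 0 0
        rw [zero_smul, zero_smul] at h2
        rw [h2]
        exact K.zero_mem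
      | add x y _ _ hx hy =>
        rw [trf_upd_add ψ (by omega : m < d) hg]
        exact K.add_mem hx hy
      | smul c x _ hx =>
        rw [trf_upd_smul ψ (by omega : m < d) hg]
        exact K.smul_mem _ hx
    have h3 := key (ψ m) (trf_Pp_span (hψ m))
    rwa [Function.update_eq_self] at h3

private theorem trf_ext' {K : Submodule ℤ P} {d : ℕ} {g : P} (hg : g ∈ Ml d)
    (hK : ∀ w : ℕ → List ℕ, (∀ i, w i ≠ []) → sb (fun i => mon (w i)) g ∈ K) (ψ : ℕ → P)
    (hψ : ∀ i, ψ i ∈ Pp) : sb ψ g ∈ K := by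
  have h1 : sb ψ g = sb (fun i => if i < d then ψ i else X 0) g := by
    refine trf_congr (fun i hi => ?_) hg
    rw [if_pos hi]
  rw [h1]
  refine trf_ext hg hK d le_rfl _ (fun i => ?_) (fun i hi => ?_)
  · by_cases hi : i < d
    · rw [if_pos hi]; exact hψ i
    · rw [if_neg hi]; exact X_mem 0
  · refine ⟨[0], by simp, ?_⟩
    rw [if_neg (by omega), mon_single]

/-- the right hand side of `Gen_sub` -/
private noncomputable def trf_K (k : ℤ) (G : Set P) : Submodule ℤ P :=
  Submodule.span ℤ ({f | ∃ w : List ℕ, w ≠ [] ∧ f = k • mon w} ∪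
      {f | ∃ g ∈ G, ∃ (w : ℕ → List ℕ) (u v : List ℕ), (∀ i, w i ≠ []) ∧
        f = mon u * sb (fun i => mon (w i)) g * mon v})

private theorem trf_K_smul {k : ℤ} {G : Set P} {h : P} (hh : h ∈ Pp) : k • h ∈ trf_K k G := by
  have h1 := trf_Pp_span hh
  clear hh
  induction h1 using Submodule.span_induction with
  | mem x hx =>
    obtain ⟨w, hw, rfl⟩ := hx
    exact Submodule.subset_span (Or.inl ⟨w, hw, rfl⟩)
  | zero => rw [smul_zero]; exact Submodule.zero_mem _
  | add x y _ _ hx hy => rw [smul_add]; exact Submodule.add_mem _ hx hy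
  | smul c x _ hx => rw [smul_comm]; exact Submodule.smul_mem _ _ hx

private theorem trf_K_le {k : ℤ} {G : Set P} (hG : ∀ g ∈ G, ∃ d, 1 ≤ d ∧ g ∈ Ml d) :
    trf_K k G ≤ Pp := by
  refine Submodule.span_le.2 ?_
  rintro f (⟨w, hw, rfl⟩ | ⟨g, hg, w, u, v, hw, rfl⟩)
  · exact Pp.smul_mem _ (mon_mem hw)
  · obtain ⟨d, hd, hgd⟩ := hG g hg
    exact IsT.lm isT_Pp _ _ (sb_mem isT_Pp (fun i => mon_mem (hw i)) (Ml_Pp hd hgd))

private theorem trf_K_right_mon {k : ℤ} {G : Set P} {f : P} (hf : f ∈ trf_K k G) (t : List ℕ) :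
    f * mon t ∈ trf_K k G := by
  unfold trf_K at hf
  induction hf using Submodule.span_induction with
  | mem x hx =>
    rcases hx with ⟨w, hw, rfl⟩ | ⟨g, hg, w, u, v, hw, rfl⟩
    · rw [smul_mul_assoc, ← mon_append]
      exact Submodule.subset_span (Or.inl ⟨w ++ t, by simp [hw], rfl⟩)
    · rw [mul_assoc _ (mon v), ← mon_append]
      exact Submodule.subset_span (Or.inr ⟨g, hg, w, u, v ++ t, hw, rfl⟩)
  | zero => rw [zero_mul]; exact Submodule.zero_mem _
  | add x y _ _ hx hy => rw [add_mul]; exact Submodule.add_mem _ hx hy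
  | smul c x _ hx => rw [smul_mul_assoc]; exact Submodule.smul_mem _ _ hx

private theorem trf_K_left_mon {k : ℤ} {G : Set P} {f : P} (hf : f ∈ trf_K k G) (t : List ℕ) :
    mon t * f ∈ trf_K k G := by
  unfold trf_K at hf
  induction hf using Submodule.span_induction with
  | mem x hx =>
    rcases hx with ⟨w, hw, rfl⟩ | ⟨g, hg, w, u, v, hw, rfl⟩
    · rw [mul_smul_comm, ← mon_append]
      exact Submodule.subset_span (Or.inl ⟨t ++ w, by simp [hw], rfl⟩)
    · rw [← mul_assoc, ← mul_assoc, ← mon_append]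
      exact Submodule.subset_span (Or.inr ⟨g, hg, w, t ++ u, v, hw, rfl⟩)
  | zero => rw [mul_zero]; exact Submodule.zero_mem _
  | add x y _ _ hx hy => rw [mul_add]; exact Submodule.add_mem _ hx hy
  | smul c x _ hx => rw [mul_smul_comm]; exact Submodule.smul_mem _ _ hx

private theorem trf_K_right {k : ℤ} {G : Set P} {f : P} (hf : f ∈ trf_K k G) (g : P) :
    f * g ∈ trf_K k G := by
  refine ind_mon (C := fun g => f * g ∈ trf_K k G) ?_ ?_ ?_ ?_ g
  · rw [mul_zero]; exact Submodule.zero_mem _
  · intro a b ha hb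
    rw [mul_add]; exact Submodule.add_mem _ ha hb
  · intro c a ha
    rw [mul_smul_comm]; exact Submodule.smul_mem _ _ ha
  · intro w
    exact trf_K_right_mon hf w

private theorem trf_K_left {k : ℤ} {G : Set P} {f : P} (hf : f ∈ trf_K k G) (g : P) :
    g * f ∈ trf_K k G := by
  refine ind_mon (C := fun g => g * f ∈ trf_K k G) ?_ ?_ ?_ ?_ g
  · rw [zero_mul]; exact Submodule.zero_mem _
  · intro a b ha hb
    rw [add_mul]; exact Submodule.add_mem _ ha hb
  · intro c a ha
    rw [smul_mul_assoc]; exact Submodule.smul_mem _ _ ha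
  · intro w
    exact trf_K_left_mon hf w

private theorem trf_isT {k : ℤ} {G : Set P} (hG : ∀ g ∈ G, ∃ d, 1 ≤ d ∧ g ∈ Ml d) :
    IsT (trf_K k G) := by
  refine ⟨trf_K_le hG, fun f hf g => trf_K_right hf g, fun f hf g => trf_K_left hf g, ?_⟩
  intro φ hφ f hf
  unfold trf_K at hf
  induction hf using Submodule.span_induction with
  | mem x hx =>
    rcases hx with ⟨w, hw, rfl⟩ | ⟨g, hg, w, u, v, hw, rfl⟩
    · rw [map_zsmul]
      exact trf_K_smul (isT_Pp.subst φ hφ _ (mon_mem hw))
    · obtain ⟨d, hd, hgd⟩ := hG g hg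
      have h1 : φ (sb (fun i => mon (w i)) g) = sb (fun i => φ (mon (w i))) g := by
        have h2 : φ.comp (sb (fun i => mon (w i))) = sb (fun i => φ (mon (w i))) := by
          apply hom_ext_X
          intro i
          rw [AlgHom.comp_apply, sb_X, sb_X]
        exact DFunLike.congr_fun h2 g
      rw [map_mul, map_mul, h1]
      refine trf_K_right (trf_K_left ?_ _) _
      refine trf_ext' hgd (fun w' hw' => ?_) _ (fun i => isT_Pp.subst φ hφ _ (mon_mem (hw i)))
      have h3 : sb (fun i => mon (w' i)) g = mon [] * sb (fun i => mon (w' i)) g * mon [] := by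
        rw [mon_nil, one_mul, mul_one]
      rw [h3]
      exact Submodule.subset_span (Or.inr ⟨g, hg, w', [], [], hw', rfl⟩)
  | zero => rw [map_zero]; exact Submodule.zero_mem _
  | add x y _ _ hx hy => rw [map_add]; exact Submodule.add_mem _ hx hy
  | smul c x _ hx => rw [map_zsmul]; exact Submodule.smul_mem _ _ hx

theorem Gen_sub {k : ℤ} {G : Set P} (hG : ∀ g ∈ G, ∃ d, 1 ≤ d ∧ g ∈ Ml d) :
    Gen (insert (k • X 0) G) ≤ Submodule.span ℤ ({f | ∃ w : List ℕ, w ≠ [] ∧ f = k • mon w} ∪
      {f | ∃ g ∈ G, ∃ (w : ℕ → List ℕ) (u v : List ℕ), (∀ i, w i ≠ []) ∧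
        f = mon u * sb (fun i => mon (w i)) g * mon v}) := by
  refine sInf_le ⟨trf_isT hG, ?_⟩
  rintro f (rfl | hf)
  · exact trf_K_smul (X_mem 0)
  · have h1 : f = mon [] * sb (fun i => mon [i]) f * mon [] := by
      have h2 : sb (fun i => mon [i]) = AlgHom.id ℤ P := by
        apply hom_ext_X
        intro i
        rw [sb_X, mon_single]
        rfl
      rw [mon_nil, one_mul, mul_one, h2]
      rfl
    exact Submodule.subset_span (Or.inr ⟨f, hf, fun i => [i], [], [], fun i => by simp, h1⟩)

theorem isT_Gen {S : Set P} (hS : S ⊆ (Pp : Set P)) : IsT (Gen S) := by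
  unfold Gen
  refine ⟨sInf_le ⟨isT_Pp, hS⟩, ?_, ?_, ?_⟩
  · intro f hf g
    rw [Submodule.mem_sInf] at hf ⊢
    exact fun I hI => hI.1.mul_right f (hf I hI) g
  · intro f hf g
    rw [Submodule.mem_sInf] at hf ⊢
    exact fun I hI => hI.1.mul_left f (hf I hI) g
  · intro φ hφ f hf
    rw [Submodule.mem_sInf] at hf ⊢
    exact fun I hI => hI.1.subst φ hφ f (hf I hI)

theorem subset_Gen (S : Set P) : S ⊆ (Gen S : Set P) := by
  intro f hf
  change f ∈ (sInf {I : Submodule ℤ P | IsT I ∧ S ⊆ I} : Submodule ℤ P)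
  rw [Submodule.mem_sInf]
  exact fun I hI => hI.2 hf

theorem Gen_le {S : Set P} {D : Submodule ℤ P} (hD : IsT D) (h : S ⊆ (D : Set P)) : Gen S ≤ D :=
  sInf_le ⟨hD, h⟩

private theorem trf_hom {d : ℕ} {g : P} (hg : g ∈ Ml d) (w : ℕ → List ℕ) (u v : List ℕ) :
    mon u * sb (fun i => mon (w i)) g * mon v ∈ Submodule.span ℤ {f : P | ∃ t : List ℕ,
      t.length = u.length + (∑ i ∈ Finset.range d, (w i).length) + v.length ∧ f = mon t} := by
  refine Ml_ind (C := fun g => mon u * sb (fun i => mon (w i)) g * mon v ∈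
    Submodule.span ℤ {f : P | ∃ t : List ℕ,
      t.length = u.length + (∑ i ∈ Finset.range d, (w i).length) + v.length ∧ f = mon t})
    ?_ ?_ ?_ ?_ hg
  · rw [map_zero, mul_zero, zero_mul]; exact Submodule.zero_mem _
  · intro a b ha hb
    rw [map_add, mul_add, add_mul]; exact Submodule.add_mem _ ha hb
  · intro c a ha
    rw [map_zsmul, mul_smul_comm, smul_mul_assoc]; exact Submodule.smul_mem _ _ ha
  · intro x hx
    have h1 : sb (fun i => mon (w i)) (mon x) = mon ((x.map w).flatten) := by
      rw [sb_mon]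
      clear hx
      induction x with
      | nil => simp [mon_nil]
      | cons a x ih =>
        rw [List.map_cons, List.prod_cons, ih, List.map_cons, List.flatten_cons, mon_append]
    refine Submodule.subset_span ⟨u ++ (x.map w).flatten ++ v, ?_, ?_⟩
    · rw [List.length_append, List.length_append, List.length_flatten, List.map_map]
      congr 2
      have h2 : (x.map (List.length ∘ w)).sum = ((List.range d).map (List.length ∘ w)).sum :=
        (hx.map _).sum_eq
      rw [h2, Finset.sum_range]
      rw [← List.sum_ofFn]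
      congr 1
      rw [List.ofFn_eq_map]
      rw [← List.map_coe_finRange_eq_range, List.map_map]
      rfl
    · rw [h1, mon_append, mon_append]

theorem transfer {p : ℕ} {J : Submodule ℤ P} (hJ : Bas p J) {G : Set P} {s : ℕ}
    (hG : ∀ g ∈ G, ∃ d, 1 ≤ d ∧ g ∈ Ml d ∧ g ∈ J ⊔ Cn (d + s)) {L : ℕ} {f : P}
    (hf : f ∈ Gen (insert ((p : ℤ) • X 0) G))
    (hL : f ∈ Submodule.span ℤ {f | ∃ w : List ℕ, w.length = L ∧ f = mon w}) : f ∈ J ⊔ Cn (L + s) := by
  have h1 : wp (fun w => w.length = L) f = f := wp_id hL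
  have h2 := Gen_sub (k := (p : ℤ)) (fun g hg => by
    obtain ⟨d, hd, hgd, _⟩ := hG g hg
    exact ⟨d, hd, hgd⟩) hf
  rw [← h1]
  clear h1 hL hf
  induction h2 using Submodule.span_induction with
  | mem x hx =>
    rcases hx with ⟨w, hw, rfl⟩ | ⟨g, hg, w, u, v, hw, rfl⟩
    · rw [map_smul]
      refine Submodule.mem_sup_left (hJ.mul _ ?_)
      by_cases h : w.length = L
      · rw [wp_pos (φ := fun w => w.length = L) h]; exact mon_mem hw
      · rw [wp_neg (φ := fun w => w.length = L) h]; exact Pp.zero_mem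
    · obtain ⟨d, hd, hgd, hgJ⟩ := hG g hg
      have h3 := trf_hom hgd w u v
      by_cases h : u.length + (∑ i ∈ Finset.range d, (w i).length) + v.length = L
      · rw [h] at h3
        have h4 := wp_id (φ := fun w => w.length = L) h3
        rw [h4, ← h]
        exact shift hJ hgd hgJ w hw u v
      · have h4 : ∀ y ∈ Submodule.span ℤ {f : P | ∃ t : List ℕ,
            t.length = u.length + (∑ i ∈ Finset.range d, (w i).length) + v.length ∧ f = mon t},
            wp (fun w => w.length = L) y = 0 := by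
          intro y hy
          induction hy using Submodule.span_induction with
          | mem x hx =>
            obtain ⟨t, ht, rfl⟩ := hx
            exact wp_neg (φ := fun w => w.length = L) (fun h' => h (ht.symm.trans h'))
          | zero => exact map_zero _
          | add x y _ _ hx hy => rw [map_add, hx, hy, add_zero]
          | smul c x _ hx => rw [map_smul, hx, smul_zero]
        rw [h4 _ h3]
        exact Submodule.zero_mem _
  | zero => rw [map_zero]; exact Submodule.zero_mem _
  | add x y _ _ hx hy => rw [map_add]; exact Submodule.add_mem _ hx hy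
  | smul c x _ hx => rw [map_smul]; exact Submodule.smul_mem _ _ hx

end ADC
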