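import Pool.Agent.ADC.EC
import Pool.Agent.ADC.EFn
import Pool.Agent.ADC.KGs
import Pool.Agent.ADC.Trf

/-!
# ADC-LLg

`ll ∈ GP p k`: the T-ideal generated by `ll` and the words of length `p + 1` is spanned, in the multilinear part of degree
`p`, by values of `ll` at words, which vanish in the exterior algebra.
-/

namespace ADC

open AD ADN

private theorem llg_sb (φ : ℕ → P) :
    sb φ ll = (φ 0 * φ 1 - φ 1 * φ 0) * φ 2 - φ 2 * (φ 0 * φ 1 - φ 1 * φ 0) := by
  unfold ll cm
  simp only [map_sub, map_mul, sb_X]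

private theorem llg_words (u v : List ℕ) (w : ℕ → List ℕ) :
    mon u * sb (fun i => mon (w i)) ll * mon v =
      mon (u ++ w 0 ++ w 1 ++ w 2 ++ v) - mon (u ++ w 1 ++ w 0 ++ w 2 ++ v) -
        mon (u ++ w 2 ++ w 0 ++ w 1 ++ v) + mon (u ++ w 2 ++ w 1 ++ w 0 ++ v) := by
  rw [llg_sb]
  simp only [mon_append]
  simp only [mul_sub, sub_mul, mul_assoc]
  abel

private theorem llg_Ml : ll ∈ Ml 3 := by
  have h : ll = mon [0, 1, 2] - mon [1, 0, 2] - mon [2, 0, 1] + mon [2, 1, 0] := by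
    unfold ll cm
    simp only [mon_cons, mon_nil, mul_one]
    simp only [mul_sub, sub_mul, mul_assoc]
    abel
  rw [h]
  have h1 : ∀ l : List ℕ, l.Perm (List.range 3) → mon l ∈ Ml 3 := fun l hl => Ml_mon hl
  exact Submodule.add_mem _ (Submodule.sub_mem _ (Submodule.sub_mem _ (h1 _ (by decide))
    (h1 _ (by decide))) (h1 _ (by decide))) (h1 _ (by decide))

private theorem llg_ev (u v : List ℕ) (w : ℕ → List ℕ) :
    ev (mon u * sb (fun i => mon (w i)) ll * mon v) = 0 := by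
  rw [map_mul, map_mul, llg_sb]
  simp only [map_sub, map_mul]
  rw [comm_central, sub_self, mul_zero, zero_mul]

private theorem llg_KG {p k : ℕ} (hk : k ≤ p) {z : P} (hz : z ∈ Ml p) (h : ev z = 0) :
    z ∈ KG p k := by
  intro σ
  rw [gA_ph hk σ hz, gB_ph hk σ hz, h, map_zero, map_zero, map_zero, mul_zero]
  exact ⟨dvd_zero _, dvd_zero _⟩

private theorem llg_smul {p k : ℕ} (c : ℤ) {z : P} (hz : z ∈ KG p k) : c • z ∈ KG p k := by
  intro σ
  rw [map_zsmul, map_smul, map_smul, smul_eq_mul, smul_eq_mul]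
  exact ⟨(hz σ).1.mul_left _, (hz σ).2.mul_left _⟩

private theorem llg_Fge {n : ℕ} {f : P} (hf : f ∈ Fge (n + 1)) :
    wp (fun w => w.Perm (List.range n)) f = 0 := by
  have h0 : Fge (n + 1) ≤ LinearMap.ker (wp (fun w => w.Perm (List.range n))) := by
    refine Submodule.span_le.2 ?_
    rintro x ⟨w, hw, rfl⟩
    refine LinearMap.mem_ker.2 (wp_neg fun h3 => ?_)
    have h4 := h3.length_eq
    rw [List.length_range] at h4
    omega
  exact LinearMap.mem_ker.1 (h0 hf)

private theorem llg_gen {p k : ℕ} (hk : k ≤ p) (u v : List ℕ) (w : ℕ → List ℕ) :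
    wp (fun w => w.Perm (List.range p)) (mon u * sb (fun i => mon (w i)) ll * mon v) ∈ KG p k := by
  have e1 : (u ++ w 1 ++ w 0 ++ w 2 ++ v).Perm (u ++ w 0 ++ w 1 ++ w 2 ++ v) :=
    List.perm_iff_count.2 fun a => by simp only [List.count_append]; omega
  have e2 : (u ++ w 2 ++ w 0 ++ w 1 ++ v).Perm (u ++ w 0 ++ w 1 ++ w 2 ++ v) :=
    List.perm_iff_count.2 fun a => by simp only [List.count_append]; omega
  have e3 : (u ++ w 2 ++ w 1 ++ w 0 ++ v).Perm (u ++ w 0 ++ w 1 ++ w 2 ++ v) :=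
    List.perm_iff_count.2 fun a => by simp only [List.count_append]; omega
  by_cases h : (u ++ w 0 ++ w 1 ++ w 2 ++ v).Perm (List.range p)
  · have h1 := e1.trans h
    have h2 := e2.trans h
    have h3 := e3.trans h
    have hM : mon u * sb (fun i => mon (w i)) ll * mon v ∈ Ml p := by
      rw [llg_words]
      exact Submodule.add_mem _ (Submodule.sub_mem _ (Submodule.sub_mem _ (Ml_mon h)
        (Ml_mon h1)) (Ml_mon h2)) (Ml_mon h3)
    rw [wp_id hM]
    exact llg_KG hk hM (llg_ev u v w)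
  · have h1 : ¬ (u ++ w 1 ++ w 0 ++ w 2 ++ v).Perm (List.range p) := fun h' => h (e1.symm.trans h')
    have h2 : ¬ (u ++ w 2 ++ w 0 ++ w 1 ++ v).Perm (List.range p) := fun h' => h (e2.symm.trans h')
    have h3 : ¬ (u ++ w 2 ++ w 1 ++ w 0 ++ v).Perm (List.range p) := fun h' => h (e3.symm.trans h')
    rw [llg_words, map_add, map_sub, map_sub, wp_neg (φ := fun w => w.Perm (List.range p)) h,
      wp_neg (φ := fun w => w.Perm (List.range p)) h1, wp_neg (φ := fun w => w.Perm (List.range p)) h2,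
      wp_neg (φ := fun w => w.Perm (List.range p)) h3, sub_zero, sub_zero, add_zero]
    exact (KG_add p k).1

theorem ll_GP {p k : ℕ} (hp : 1 ≤ p) (hk : k ≤ p) : ll ∈ GP p k := by
  have _ := hp
  have hG : ∀ g ∈ ({ll} : Set P), ∃ d, 1 ≤ d ∧ g ∈ Ml d := by
    rintro g rfl
    exact ⟨3, by norm_num, llg_Ml⟩
  have hS : insert ((0 : ℤ) • X 0) ({ll} : Set P) ⊆ (Pp : Set P) := by
    rintro g (rfl | rfl)
    · exact Pp.smul_mem _ (X_mem 0)
    · exact Ml_Pp (by norm_num) llg_Ml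
  have hJ : IsT (Fge (p + 1) ⊔ Gen (insert ((0 : ℤ) • X 0) ({ll} : Set P))) :=
    isT_sup (isT_Fge (p + 1) (Nat.succ_pos p)) (isT_Gen hS)
  refine le_TK hJ le_sup_left ?_ (Submodule.mem_sup_right (subset_Gen _ (Or.inr rfl)))
  intro g hg hgM
  obtain ⟨h, hh, y, hy, rfl⟩ := Submodule.mem_sup.1 hg
  have h1 : wp (fun w => w.Perm (List.range p)) (h + y) = h + y := wp_id hgM
  rw [map_add, llg_Fge hh, zero_add] at h1
  rw [← h1]
  have h2 := Gen_sub hG hy
  clear h1 hgM hg hy hh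
  induction h2 using Submodule.span_induction with
  | mem x hx =>
    rcases hx with ⟨w, -, rfl⟩ | ⟨g, hg, w, u, v, -, rfl⟩
    · rw [zero_smul, map_zero]
      exact (KG_add p k).1
    · rw [Set.mem_singleton_iff.1 hg]
      exact llg_gen hk u v w
  | zero =>
    rw [map_zero]
    exact (KG_add p k).1
  | add x y _ _ hx hy =>
    rw [map_add]
    exact (KG_add p k).2.1 _ hx _ hy
  | smul c x _ hx =>
    rw [map_smul]
    exact llg_smul c hx

end ADC
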