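import Pool.Agent.ADC.KGs
import Pool.Agent.ADC.NPs
import Pool.Agent.ADC.Dst
import Pool.Agent.ADC.LLg
import Pool.Agent.ADA.ExpMain

/-!
# ADC-IncG

`GP p k` is not below `UP p`, `WP p`, `NPt p 0 0`.
* `UP p`: `k ≥ 2`: `EJ p 0 ∈ GP p k` (`EJ_mem`), `EJ p 0 = JP (range' 0 p)`; the coefficient of `com (EJ p 0)` at `x_0 ⋯ x_{p-1}` is `2^(p-1)` (`com (JP L) = 2^(|L|-1) ∏`), which has
  to be divisible by `p` in `UP p` (degree `p`).  `k = 1`: `p • X 0 ∈ GP p 1` (`GP_odd`), not in `UP p`.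
* `WP p`: `ll ∈ GP p k` (`ll_GP`), in `WP p ∩ Ml 3 ⊆ KW p`: `cf [0,1,2] ll = 1`, `cf [1,2,0] ll = 0`.
* `NPt p 0 0`: `mw (p+1) ∈ GP p k` (`Fge_le_TK`), but the coefficient of `com` at `x_0 ⋯ x_p` (degree `p + 1`, all exponents `1 < p`) is 1.
-/

namespace ADC

open AD ADN

private theorem ig_com_X (a : ℕ) : com (X a) = MvPolynomial.X a := by simp [com]

private theorem ig_com_mon (w : List ℕ) : com (mon w) = MvPolynomial.monomial (ADA.cnt w) 1 := by
  induction w with
  | nil => rw [mon_nil, map_one]; simp [ADA.cnt]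
  | cons a w ih =>
    rw [mon_cons, map_mul, ih, ADA.cnt_cons, ig_com_X, MvPolynomial.X, MvPolynomial.monomial_mul, one_mul]

private theorem ig_deg (w : List ℕ) : (ADA.cnt w).degree = w.length := by
  induction w with
  | nil => simp [ADA.cnt]
  | cons a w ih => rw [ADA.cnt_cons, map_add, ih, Finsupp.degree_single, List.length_cons, add_comm]

private theorem ig_count (w : List ℕ) (i : ℕ) : ADA.cnt w i = w.count i := by
  induction w with
  | nil => simp [ADA.cnt]
  | cons a w ih =>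
    rw [ADA.cnt_cons, Finsupp.add_apply, ih, List.count_cons, Finsupp.single_apply, add_comm]
    simp

private theorem ig_fold (L : List ℕ) : ∀ f : P, com (L.foldl (fun f x => f * X x + X x * f) f) =
    (2 : ℤ) ^ L.length • (com f * com (mon L)) := by
  induction L with
  | nil => intro f; rw [List.foldl_nil, mon_nil, map_one, mul_one, List.length_nil, pow_zero, one_smul]
  | cons a L ih =>
    intro f
    rw [List.foldl_cons, ih, mon_cons, map_add, map_mul, map_mul, map_mul, List.length_cons, pow_succ, mul_smul]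
    congr 1
    rw [two_smul]
    ring

private theorem ig_JP {p : ℕ} (hp : 1 ≤ p) : com (EJ p 0) = (2 : ℤ) ^ (p - 1) •
    MvPolynomial.monomial (ADA.cnt (List.range' 0 p)) (1 : ℤ) := by
  obtain ⟨q, rfl⟩ : ∃ q, p = q + 1 := ⟨p - 1, by omega⟩
  have h1 : EJ (q + 1) 0 = (List.range' 1 q).foldl (fun f x => f * X x + X x * f) (X 0) := by
    have h2 : EJ (q + 1) 0 = 1 * JP (List.range' 0 (q + 1)) := rfl
    rw [h2, one_mul, List.range'_succ]
    rfl
  rw [h1, ig_fold, List.length_range', ← map_mul, ← mon_cons, ig_com_mon, List.range'_succ]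
  rfl

private theorem ig_KP {p : ℕ} (k : MvPolynomial ℕ ℤ) (hk : k ∈ ADA.KP p) (m : ℕ →₀ ℕ) (hm : m.degree ≤ p) :
    (p : ℤ) ∣ k.coeff m := by
  obtain ⟨a, ha, b, hb, c, hc, rfl⟩ := ADA.mem_KP.1 hk
  rw [MvPolynomial.coeff_add, MvPolynomial.coeff_add, ADA.coeff_psq_mul, ADA.coeff_p_mul,
    (ADA.mem_mm_pow (p + 1) c).1 hc m (by omega), add_zero, pow_two, mul_assoc]
  exact dvd_add (dvd_mul_right _ _) (dvd_mul_right _ _)

theorem GP_UP {p k : ℕ} (hp : p.Prime) (h5 : 5 ≤ p) (h1 : 1 ≤ k) (hk : k < p) : ¬ GP p k ≤ ADA.UP p := by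
  intro h
  have hpp : 1 ≤ p := by omega
  rcases Nat.mod_two_eq_zero_or_one k with e | e
  · have a1 := (ADA.mem_UP.1 (h (EJ_mem (p := p) (b := 0) (k := k) (by omega) h1 hk (by omega) (by omega)
      (by omega)))).2
    have a2 := ig_KP _ a1 (ADA.cnt (List.range' 0 p)) (by rw [ig_deg, List.length_range'])
    rw [ig_JP hpp, MvPolynomial.coeff_smul, MvPolynomial.coeff_monomial, if_pos rfl, smul_eq_mul, mul_one] at a2
    have a3 : (p : ℤ) ∣ 2 := (Nat.prime_iff_prime_int.1 hp).dvd_of_dvd_pow a2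
    have := Int.le_of_dvd (by norm_num) a3
    omega
  · have a1 := (ADA.mem_UP.1 (h (GP_odd hpp e (X 0) (X_mem 0)))).2
    have a2 := (ADA.kp_coeff hp a1).1 0
    rw [map_zsmul, ig_com_X, MvPolynomial.coeff_smul, MvPolynomial.coeff_X, if_pos rfl, smul_eq_mul, mul_one,
      pow_two] at a2
    have hp0 : (p : ℤ) ≠ 0 := by exact_mod_cast hp.ne_zero
    have a3 : (p : ℤ) * p ∣ p * 1 := by rwa [mul_one]
    have a4 := Int.dvd_of_mul_dvd_mul_left hp0 a3
    have := Int.le_of_dvd (by norm_num) a4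
    omega

theorem GP_WP {p k : ℕ} (hp : p.Prime) (h5 : 5 ≤ p) (h1 : 1 ≤ k) (hk : k < p) : ¬ GP p k ≤ WP p := by
  intro h
  have hw : ∀ w ∈ [0,1,2].permutations', mon w ∈ Ml 3 := fun w hw => Ml_mon (List.mem_permutations'.1 hw)
  have hl : ll = mon [0,1,2] + (-1 : ℤ) • mon [1,0,2] + (-1 : ℤ) • mon [2,0,1] + mon [2,1,0] := by
    unfold ll cm
    simp only [mon_cons, mon_nil, mul_one]
    noncomm_ring
  have hM : ll ∈ Ml 3 := by
    rw [hl]
    exact Submodule.add_mem _ (Submodule.add_mem _ (Submodule.add_mem _ (hw _ (by decide))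
      (Submodule.smul_mem _ _ (hw _ (by decide)))) (Submodule.smul_mem _ _ (hw _ (by decide)))) (hw _ (by decide))
  have a1 := TK_sub (by norm_num) (KW_add p) (h (ll_GP (p := p) (k := k) (by omega) hk.le)) hM
  have a2 : (p : ℤ) ∣ cf [0,1,2] ll - cf [1,2,0] ll := a1.1
  have e1 : cf [0,1,2] ll = 1 := by
    rw [hl]
    simp only [cf_add, cf_smul, cf_mon]
    decide
  have e2 : cf [1,2,0] ll = 0 := by
    rw [hl]
    simp only [cf_add, cf_smul, cf_mon]
    decide
  rw [e1, e2, sub_zero] at a2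
  have := Int.le_of_dvd (by norm_num) a2
  omega

theorem GP_NPt {p k : ℕ} (hp : p.Prime) (h5 : 5 ≤ p) (h1 : 1 ≤ k) (hk : k < p) : ¬ GP p k ≤ NPt p 0 0 := by
  intro h
  have hpp : 1 ≤ p := by omega
  have a1 : mw (p + 1) ∈ GP p k := Fge_le_TK hpp (KG_add p k)
    (Submodule.subset_span ⟨List.range (p + 1), by rw [List.length_range], rfl⟩)
  obtain ⟨-, -, m, -, -, -, -, h6⟩ := NPt_mem.1 (h a1)
  have a2 := h6 (ADA.cnt (List.range (p + 1))) (by rw [ig_deg, List.length_range]) (fun i => by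
    rw [ig_count]
    have := List.nodup_iff_count_le_one.1 (List.nodup_range (n := p + 1)) i
    omega)
  unfold mw at a2
  rw [ig_com_mon, MvPolynomial.coeff_monomial, if_pos rfl] at a2
  have := Int.le_of_dvd (by norm_num) a2
  omega

end ADC
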