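import Pool.Agent.ADC.KGs
import Pool.Agent.ADC.NPs
import Pool.Agent.ADC.Dst
import Pool.Agent.ADA.ExpMain

/-!
# ADC-IncU

`UP p` is not below `WP p`, `NPt p 0 0`, `GP p k`.
-/

namespace ADC

open AD ADN

theorem cm_UP (p : ℕ) : cm 0 1 ∈ ADA.UP p := by
  refine ADA.mem_UP.2 ⟨cm_mem 0 1, ?_⟩
  have h : com (cm 0 1) = 0 := by
    unfold cm
    rw [map_sub, map_mul, map_mul, mul_comm (com (X 1)), sub_self]
  rw [h]
  exact Ideal.zero_mem _

private theorem iu_cm : cm 0 1 * X 2 = mon [0, 1, 2] - mon [1, 0, 2] := by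
  unfold cm
  simp only [mon_cons, mon_nil, mul_one]
  noncomm_ring

private theorem iu_cm2 : cm 0 1 = mon [0, 1] - mon [1, 0] := by
  unfold cm
  simp only [mon_cons, mon_nil, mul_one]

private theorem iu_cf (w : List ℕ) (f g : P) : cf w (f - g) = cf w f - cf w g := by
  have h : f - g = f + (-1 : ℤ) • g := by
    rw [neg_one_smul, sub_eq_add_neg]
  rw [h, cf_add, cf_smul]
  ring

private theorem iu_one {p : ℕ} (hp : p.Prime) (h : (p : ℤ) ∣ 1) : False := by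
  have h1 := Int.natCast_dvd_natCast.1 (show ((p : ℕ) : ℤ) ∣ ((1 : ℕ) : ℤ) by exact_mod_cast h)
  exact hp.one_lt.ne' (Nat.dvd_one.1 h1)

theorem UP_WP {p : ℕ} (hp : p.Prime) : ¬ ADA.UP p ≤ WP p := by
  intro h
  have h1 : cm 0 1 * X 2 ∈ WP p := (WP_isT p).mul_right _ (h (cm_UP p)) _
  have h2 : cm 0 1 * X 2 ∈ Ml 3 := by
    rw [iu_cm]
    exact Submodule.sub_mem _ (Ml_mon (by decide)) (Ml_mon (by decide))
  have h3 : (p : ℤ) ∣ cf [0, 1, 2] (cm 0 1 * X 2) - cf [1, 2, 0] (cm 0 1 * X 2) :=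
    (TK_sub (by norm_num) (KW_add p) h1 h2).1
  rw [iu_cm, iu_cf, iu_cf, cf_mon, cf_mon, cf_mon, cf_mon, if_pos rfl, if_neg (by decide),
    if_neg (by decide), if_neg (by decide)] at h3
  exact iu_one hp (by simpa using h3)

theorem UP_NPt {p : ℕ} (hp : p.Prime) : ¬ ADA.UP p ≤ NPt p 0 0 := by
  intro h
  obtain ⟨-, -, m, -, h3, -⟩ := NPt_mem.1 (h (cm_UP p))
  have h4 := h3 0 1
  rw [iu_cm2, iu_cf, cf_mon, cf_mon, if_pos rfl, if_neg (by decide)] at h4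
  exact iu_one hp (by simpa using h4)

theorem UP_GP {p k : ℕ} (hp : p.Prime) (h5 : 5 ≤ p) (h1 : 1 ≤ k) (hk : k < p) : ¬ ADA.UP p ≤ GP p k := by
  intro h
  have hodd : p % 2 = 1 := (hp.eq_two_or_odd).resolve_left (by omega)
  obtain ⟨c, hc⟩ : ∃ c, (k + 1) / 2 = c + 1 := ⟨(k + 1) / 2 - 1, by omega⟩
  have hb : 2 * (c + 1) < p := by omega
  refine EJ_not hp h5 (b := c + 1) (k := k) hb h1 hk (by omega) ?_
  have e : List.range (2 * (c + 1)) = 0 :: 1 :: (List.range (2 * c)).map (fun i => i + 1 + 1) := by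
    rw [show 2 * (c + 1) = 2 * c + 1 + 1 by ring, List.range_succ_eq_map, List.range_succ_eq_map,
      List.map_cons, List.map_map]
    rfl
  unfold EJ
  rw [e]
  show (cm 0 1 * CL _) * JP _ ∈ GP p k
  have hG : IsT (GP p k) := GP_isT (by omega)
  exact hG.mul_right _ (hG.mul_right _ (h (cm_UP p)) _) _

end ADC
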