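import Pool.Agent.ADC.KGs
import Pool.Agent.ADC.NPs
import Pool.Agent.ADC.Dst
import Pool.Agent.ADA.ExpMain

/-!
# ADC-IncW: `WP p` is not below `UP p`, `NPt p 0 0`, `GP p k`
-/

namespace ADC

open AD ADN

private theorem iw_com (w : List ℕ) : ∃ d : ℕ →₀ ℕ, d.degree = w.length ∧ com (mon w) = MvPolynomial.monomial d 1 := by
  induction w with
  | nil => exact ⟨0, by simp, by rw [mon_nil, map_one]; rfl⟩
  | cons a w ih =>
    obtain ⟨d, hd, h⟩ := ih
    have h1 : com (X a) = MvPolynomial.X a := by simp [com]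
    refine ⟨Finsupp.single a 1 + d, ?_, ?_⟩
    · rw [map_add, Finsupp.degree_single, hd, List.length_cons, add_comm]
    · rw [mon_cons, map_mul, h, h1, MvPolynomial.X, MvPolynomial.monomial_mul, one_mul]

private theorem iw_mw : ∃ d : ℕ →₀ ℕ, d.degree = 4 ∧ (com (mw 4)).coeff d = 1 := by
  classical
  obtain ⟨d, hd, h⟩ := iw_com (List.range 4)
  refine ⟨d, by rw [hd, List.length_range], ?_⟩
  unfold mw
  rw [h, MvPolynomial.coeff_monomial, if_pos rfl]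

private theorem iw_mem (p : ℕ) {n : ℕ} (hn : 4 ≤ n) : mw n ∈ WP p := by
  refine Fge_le_TK (by norm_num) (KW_add p) (Submodule.subset_span ⟨List.range n, ?_, rfl⟩)
  rw [List.length_range]
  exact hn

private theorem iw_one {p : ℕ} (h5 : 5 ≤ p) (h : (p : ℤ) ∣ 1) : False := by
  have h1 := Int.le_of_dvd one_pos h
  omega


theorem WP_UP {p : ℕ} (hp : p.Prime) (h5 : 5 ≤ p) : ¬ WP p ≤ ADA.UP p := by
  intro h
  obtain ⟨-, h1⟩ := ADA.mem_UP.1 (h (iw_mem p (le_refl 4)))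
  obtain ⟨a, -, b, -, c, hc, he⟩ := ADA.mem_KP.1 h1
  obtain ⟨d, hd, h2⟩ := iw_mw
  have hc0 : c.coeff d = 0 := (ADA.mem_mm_pow _ _).1 hc d (by omega)
  have e : (p : ADA.Az) ^ 2 * a + (p : ADA.Az) * b + c =
      MvPolynomial.C (p : ℤ) * ((p : ADA.Az) * a + b) + c := by
    have e1 : (MvPolynomial.C (p : ℤ) : ADA.Az) = (p : ADA.Az) := by simp
    rw [e1]
    ring
  rw [← he, e, MvPolynomial.coeff_add, MvPolynomial.coeff_C_mul, hc0, add_zero] at h2
  exact iw_one h5 ⟨_, h2.symm⟩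

theorem WP_NPt {p : ℕ} (hp : p.Prime) (h5 : 5 ≤ p) : ¬ WP p ≤ NPt p 0 0 := by
  intro h
  have h1 := NPt_mem.1 (h (iw_mem p (le_refl 4)))
  obtain ⟨-, -, m, -, -, h3, -, -⟩ := h1
  obtain ⟨d, hd, h2⟩ := iw_mw
  have h4 := h3 d (by omega) (by omega)
  rw [h2] at h4
  exact iw_one h5 h4

theorem WP_GP {p k : ℕ} (hp : p.Prime) (h5 : 5 ≤ p) (hk : k < p) : ¬ WP p ≤ GP p k := by
  intro h
  have h1 := h (iw_mem p (show 4 ≤ p by omega))
  have h2 := TK_sub (by omega) (KG_add p k) h1 (Ml_mon (List.Perm.refl _))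
  have h3 := (h2 1).1
  rw [rn_one, (gB_mw hk.le).1] at h3
  exact iw_one h5 h3

end ADC
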