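import Pool.Agent.ADC.Bas

/-! # ADC-Lkb: linked elements -/

namespace ADC

open AD ADN

theorem Lk.symm {p : ℕ} {I A B C : Submodule ℤ P} (h : Lk p I A B C) : Lk p I B A C where
  hI := h.hI
  hA := h.hB
  hB := h.hA
  hC := h.hC
  neA := by
    intro hB
    apply h.neA
    have h1 : A ≤ C := h.cA.trans (sup_le (hB.trans h.IC) le_rfl)
    exact (le_inf le_rfl h1).trans h.AC
  IA := h.IB
  IB := h.IA
  IC := h.IC
  AB := by rw [inf_comm]; exact h.AB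
  AC := h.BC
  BC := h.AC
  cA := h.cB
  cB := h.cA
  mA := h.mB
  mB := h.mA
  ess := by
    intro D hD h1 h2
    refine h.ess D hD h1 ?_
    rw [sup_comm]
    exact h2
  p2 := h.p2
  nil := h.nil

theorem Lnk.symm {A B C : Submodule ℤ P} {a b : P} (h : Lnk A B C a b) : Lnk B A C b a := by
  refine ⟨h.2.1, h.1, ?_⟩
  rw [add_comm]
  exact h.2.2

theorem Lk.ex {p : ℕ} {I A B C : Submodule ℤ P} (h : Lk p I A B C) {a : P} (ha : a ∈ A) :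
    ∃ b, Lnk A B C a b := by
  obtain ⟨b, hb, c, hc, hbc⟩ := Submodule.mem_sup.1 (h.cA ha)
  refine ⟨-b, ha, B.neg_mem hb, ?_⟩
  rw [← hbc, add_comm b c, add_neg_cancel_right]
  exact hc

theorem Lnk.map {p : ℕ} {I A B C : Submodule ℤ P} (h : Lk p I A B C) {a b : P} (hl : Lnk A B C a b)
    {Φ : P →ₗ[ℤ] P} (hΦ : TOp p Φ) : Lnk A B C (Φ a) (Φ b) := by
  refine ⟨hΦ A h.hA (h.p2.mono h.IA) a hl.1, hΦ B h.hB (h.p2.mono h.IB) b hl.2.1, ?_⟩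
  rw [← map_add]
  exact hΦ C h.hC (h.p2.mono h.IC) _ hl.2.2

theorem Lnk.congr {p : ℕ} {I A B C : Submodule ℤ P} (h : Lk p I A B C) {a b a' b' : P} (hl : Lnk A B C a b)
    (ha : a - a' ∈ I) (hb : b - b' ∈ I) : Lnk A B C a' b' := by
  have e1 : a' = a - (a - a') := by abel
  have e2 : b' = b - (b - b') := by abel
  have e3 : a' + b' = (a + b) - (a - a') - (b - b') := by abel
  refine ⟨?_, ?_, ?_⟩
  · rw [e1]
    exact A.sub_mem hl.1 (h.IA ha)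
  · rw [e2]
    exact B.sub_mem hl.2.1 (h.IB hb)
  · rw [e3]
    exact C.sub_mem (C.sub_mem hl.2.2 (h.IC ha)) (h.IC hb)

private theorem lkb_imp {p : ℕ} {I A B C : Submodule ℤ P} (h : Lk p I A B C) {a b : P}
    (hl : Lnk A B C a b) (ha : a ∈ I) : b ∈ I := by
  have e : b = (a + b) - a := by abel
  have h1 : b ∈ C := by
    rw [e]
    exact C.sub_mem hl.2.2 (h.IC ha)
  exact h.BC ⟨hl.2.1, h1⟩

theorem Lk.iff {p : ℕ} {I A B C : Submodule ℤ P} (h : Lk p I A B C) {a b : P} (hl : Lnk A B C a b) :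
    a ∈ I ↔ b ∈ I :=
  ⟨lkb_imp h hl, lkb_imp h.symm hl.symm⟩

private theorem lkb_dvd {q m m' : ℤ} (h : (Int.gcd m' q : ℤ) ∣ m) :
    ∃ c d : ℤ, m = c * m' + q * d := by
  obtain ⟨t, ht⟩ := h
  rw [Int.gcd_eq_gcd_ab] at ht
  exact ⟨Int.gcdA m' q * t, Int.gcdB m' q * t, by rw [ht]; ring⟩

private theorem lkb_chain {p : ℕ} (hp : p.Prime) (m m' : ℤ) :
    (∃ c d : ℤ, m = c * m' + (p : ℤ) ^ 2 * d) ∨ (∃ c d : ℤ, m' = c * m + (p : ℤ) ^ 2 * d) := by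
  have key : ∀ x : ℤ, ∃ i, Int.gcd x ((p : ℤ) ^ 2) = p ^ i := by
    intro x
    have h1 : Int.gcd x ((p : ℤ) ^ 2) ∣ p ^ 2 := by
      have h2 : ((Int.gcd x ((p : ℤ) ^ 2) : ℕ) : ℤ) ∣ (p : ℤ) ^ 2 := Int.gcd_dvd_right _ _
      exact_mod_cast h2
    obtain ⟨i, -, hi⟩ := (Nat.dvd_prime_pow hp).1 h1
    exact ⟨i, hi⟩
  obtain ⟨i, hi⟩ := key m
  obtain ⟨j, hj⟩ := key m'
  rcases le_total i j with hij | hij
  · right
    apply lkb_dvd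
    refine dvd_trans ?_ (Int.gcd_dvd_left m' ((p : ℤ) ^ 2))
    rw [hi, hj]
    exact_mod_cast pow_dvd_pow p hij
  · left
    apply lkb_dvd
    refine dvd_trans ?_ (Int.gcd_dvd_left m ((p : ℤ) ^ 2))
    rw [hi, hj]
    exact_mod_cast pow_dvd_pow p hij

private theorem lkb_np {p : ℕ} {I A B : Submodule ℤ P} (hAB : A ⊓ B ≤ I) (hIB : I ≤ B)
    (hp2 : Mul ((p : ℤ) ^ 2) I) {a b Y i i' : P} (ha : a ∈ A) (hb : b ∈ B) (hY : Y ∈ Pp)
    (hi : i ∈ I) (hi' : i' ∈ I) {m m' c d : ℤ} (ea : i + m • Y = a) (eb : i' + m' • Y = b)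
    (hm : m = c * m' + (p : ℤ) ^ 2 * d) : a ∈ I := by
  have e : a = c • b + (i - c • i' + d • ((p : ℤ) ^ 2 • Y)) := by
    rw [← ea, ← eb, hm, smul_add, smul_smul, smul_smul, add_smul, mul_comm d]
    abel
  refine hAB ⟨ha, ?_⟩
  rw [e]
  refine B.add_mem (B.smul_mem _ hb) (hIB ?_)
  exact I.add_mem (I.sub_mem hi (I.smul_mem _ hi')) (I.smul_mem _ (hp2 Y hY))

theorem Lk.np {p : ℕ} (hp : p.Prime) {I A B C : Submodule ℤ P} (h : Lk p I A B C) {a b : P}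
    (hl : Lnk A B C a b) {Y : P} (hY : Y ∈ Pp) (ha : a ∈ I ⊔ Submodule.span ℤ {Y})
    (hb : b ∈ I ⊔ Submodule.span ℤ {Y}) : a ∈ I := by
  obtain ⟨i, hi, z, hz, ea⟩ := Submodule.mem_sup.1 ha
  obtain ⟨i', hi', z', hz', eb⟩ := Submodule.mem_sup.1 hb
  obtain ⟨m, rfl⟩ := Submodule.mem_span_singleton.1 hz
  obtain ⟨m', rfl⟩ := Submodule.mem_span_singleton.1 hz'
  rcases lkb_chain hp m m' with ⟨c, d, hm⟩ | ⟨c, d, hm⟩
  · exact lkb_np h.AB h.IB h.p2 hl.1 hl.2.1 hY hi hi' ea eb hm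
  · have h' := h.symm
    exact (h.iff hl).2 (lkb_np h'.AB h'.IB h.p2 hl.2.1 hl.1 hY hi' hi eb ea hm)

end ADC
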