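import Mathlib

/-!
# ADC-M4r

Multilinear identities of degree 4 of the rings with `[x,y] z + [z,y] x + x [z,y] + z [x,y] = 0`
(certificates found by linear algebra).
-/

set_option maxHeartbeats 4000000
set_option linter.unusedSimpArgs false

namespace ADC

variable {S : Type*} [Ring S]

theorem M4r (F : Set S) (hm : ∀ x ∈ F, ∀ y ∈ F, x * y ∈ F)
    (K : ∀ x ∈ F, ∀ z ∈ F, ∀ y ∈ F, (x*y - y*x)*z + (z*y - y*z)*x + (x*(z*y - y*z) + z*(x*y - y*x)) = 0)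
    {x y z t : S} (hx : x ∈ F) (hy : y ∈ F) (hz : z ∈ F) (ht : t ∈ F) :
    (1 : ℤ) • ((22 : ℤ) • (x*y*z*t) + (6 : ℤ) • (x*y*t*z) + (6 : ℤ) • (x*z*y*t) + (-2 : ℤ) • (x*z*t*y) + (-2 : ℤ) • (x*t*y*z) + (6 : ℤ) • (x*t*z*y) + (6 : ℤ) • (y*x*z*t) + (-10 : ℤ) • (y*x*t*z) + (-2 : ℤ) • (y*z*x*t) + (-2 : ℤ) • (y*z*t*x) + (-2 : ℤ) • (y*t*x*z) + (-2 : ℤ) • (y*t*z*x) + (-2 : ℤ) • (z*x*y*t) + (-2 : ℤ) • (z*x*t*y) + (6 : ℤ) • (z*y*x*t) + (-2 : ℤ) • (z*y*t*x) + (-10 : ℤ) • (z*t*x*y) + (-2 : ℤ) • (z*t*y*x) + (-2 : ℤ) • (t*x*y*z) + (-2 : ℤ) • (t*x*z*y) + (-2 : ℤ) • (t*y*x*z) + (6 : ℤ) • (t*y*z*x) + (-2 : ℤ) • (t*z*x*y) + (-10 : ℤ) • (t*z*y*x)) = 0 := by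
  have key : (1 : ℤ) • ((22 : ℤ) • (x*y*z*t) + (6 : ℤ) • (x*y*t*z) + (6 : ℤ) • (x*z*y*t) + (-2 : ℤ) • (x*z*t*y) + (-2 : ℤ) • (x*t*y*z) + (6 : ℤ) • (x*t*z*y) + (6 : ℤ) • (y*x*z*t) + (-10 : ℤ) • (y*x*t*z) + (-2 : ℤ) • (y*z*x*t) + (-2 : ℤ) • (y*z*t*x) + (-2 : ℤ) • (y*t*x*z) + (-2 : ℤ) • (y*t*z*x) + (-2 : ℤ) • (z*x*y*t) + (-2 : ℤ) • (z*x*t*y) + (6 : ℤ) • (z*y*x*t) + (-2 : ℤ) • (z*y*t*x) + (-10 : ℤ) • (z*t*x*y) + (-2 : ℤ) • (z*t*y*x) + (-2 : ℤ) • (t*x*y*z) + (-2 : ℤ) • (t*x*z*y) + (-2 : ℤ) • (t*y*x*z) + (6 : ℤ) • (t*y*z*x) + (-2 : ℤ) • (t*z*x*y) + (-10 : ℤ) • (t*z*y*x)) =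
      (-28 : ℤ) • (x * ((z*y - y*z)*t + (t*y - y*t)*z + (z*(t*y - y*t) + t*(z*y - y*z)))) +
      (-10 : ℤ) • (x * ((y*z - z*y)*t + (t*z - z*t)*y + (y*(t*z - z*t) + t*(y*z - z*y)))) +
      (16 : ℤ) • (((x*y - y*x)*t + (t*y - y*t)*x + (x*(t*y - y*t) + t*(x*y - y*x))) * z) +
      (26 : ℤ) • (((x*z - z*x)*t + (t*z - z*t)*x + (x*(t*z - z*t) + t*(x*z - z*x))) * y) +
      (4 : ℤ) • (y * ((z*x - x*z)*t + (t*x - x*t)*z + (z*(t*x - x*t) + t*(z*x - x*z)))) +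
      (10 : ℤ) • (y * ((x*z - z*x)*t + (t*z - z*t)*x + (x*(t*z - z*t) + t*(x*z - z*x)))) +
      (-14 : ℤ) • ((((x*y)*t - t*(x*y))*z + (z*t - t*z)*(x*y) + ((x*y)*(z*t - t*z) + z*((x*y)*t - t*(x*y))))) +
      (-12 : ℤ) • (((z*y - y*z)*t + (t*y - y*t)*z + (z*(t*y - y*t) + t*(z*y - y*z))) * x) +
      (-18 : ℤ) • (((y*z - z*y)*t + (t*z - z*t)*y + (y*(t*z - z*t) + t*(y*z - z*y))) * x) +
      (16 : ℤ) • (z * ((x*y - y*x)*t + (t*y - y*t)*x + (x*(t*y - y*t) + t*(x*y - y*x)))) +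
      (8 : ℤ) • ((((y*z)*t - t*(y*z))*x + (x*t - t*x)*(y*z) + ((y*z)*(x*t - t*x) + x*((y*z)*t - t*(y*z))))) +
      (-4 : ℤ) • ((((x*z)*t - t*(x*z))*y + (y*t - t*y)*(x*z) + ((x*z)*(y*t - t*y) + y*((x*z)*t - t*(x*z))))) +
      (22 : ℤ) • ((((y*x)*t - t*(y*x))*z + (z*t - t*z)*(y*x) + ((y*x)*(z*t - t*z) + z*((y*x)*t - t*(y*x))))) +
      (-4 : ℤ) • ((((y*t)*z - z*(y*t))*x + (x*z - z*x)*(y*t) + ((y*t)*(x*z - z*x) + x*((y*t)*z - z*(y*t))))) +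
      (24 : ℤ) • (t * ((y*x - x*y)*z + (z*x - x*z)*y + (y*(z*x - x*z) + z*(y*x - x*y)))) +
      (-8 : ℤ) • (t * ((x*y - y*x)*z + (z*y - y*z)*x + (x*(z*y - y*z) + z*(x*y - y*x)))) +
      (8 : ℤ) • ((((z*t)*y - y*(z*t))*x + (x*y - y*x)*(z*t) + ((z*t)*(x*y - y*x) + x*((z*t)*y - y*(z*t))))) +
      (8 : ℤ) • (((y*x - x*y)*t + (t*x - x*t)*y + (y*(t*x - x*t) + t*(y*x - x*y))) * z) +
      (-8 : ℤ) • (z * ((y*x - x*y)*t + (t*x - x*t)*y + (y*(t*x - x*t) + t*(y*x - x*y)))) +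
      (-8 : ℤ) • (((z*x - x*z)*t + (t*x - x*t)*z + (z*(t*x - x*t) + t*(z*x - x*z))) * y) := by
    simp only [mul_sub, sub_mul, mul_add, add_mul, mul_assoc, mul_smul_comm, smul_mul_assoc]
    module
  rw [key]
  simp only [K _ hz _ ht _ hy, K _ hy _ ht _ hz, K _ hx _ ht _ hy, K _ hx _ ht _ hz, K _ hz _ ht _ hx, K _ hx _ ht _ hz, K _ (hm _ hx _ hy) _ hz _ ht, K _ hz _ ht _ hy, K _ hy _ ht _ hz, K _ hx _ ht _ hy, K _ (hm _ hy _ hz) _ hx _ ht, K _ (hm _ hx _ hz) _ hy _ ht, K _ (hm _ hy _ hx) _ hz _ ht, K _ (hm _ hy _ ht) _ hx _ hz, K _ hy _ hz _ hx, K _ hx _ hz _ hy, K _ (hm _ hz _ ht) _ hx _ hy, K _ hy _ ht _ hx, K _ hy _ ht _ hx, K _ hz _ ht _ hx, mul_zero, zero_mul, smul_zero, add_zero]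

theorem M4a (F : Set S) (hm : ∀ x ∈ F, ∀ y ∈ F, x * y ∈ F)
    (K : ∀ x ∈ F, ∀ z ∈ F, ∀ y ∈ F, (x*y - y*x)*z + (z*y - y*z)*x + (x*(z*y - y*z) + z*(x*y - y*x)) = 0)
    {x y z t : S} (hx : x ∈ F) (hy : y ∈ F) (hz : z ∈ F) (ht : t ∈ F) :
    (1 : ℤ) • (((x*y - y*x)*z + z*(x*y - y*x))*t) = 0 := by
  have key : (1 : ℤ) • (((x*y - y*x)*z + z*(x*y - y*x))*t) =
      (-1 : ℤ) • ((((x*y)*t - t*(x*y))*z + (z*t - t*z)*(x*y) + ((x*y)*(z*t - t*z) + z*((x*y)*t - t*(x*y))))) +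
      (1 : ℤ) • ((((y*x)*t - t*(y*x))*z + (z*t - t*z)*(y*x) + ((y*x)*(z*t - t*z) + z*((y*x)*t - t*(y*x))))) +
      (1 : ℤ) • (t * ((y*x - x*y)*z + (z*x - x*z)*y + (y*(z*x - x*z) + z*(y*x - x*y)))) +
      (1 : ℤ) • ((((z*t)*y - y*(z*t))*x + (x*y - y*x)*(z*t) + ((z*t)*(x*y - y*x) + x*((z*t)*y - y*(z*t))))) +
      (1 : ℤ) • (((x*z - z*x)*t + (t*z - z*t)*x + (x*(t*z - z*t) + t*(x*z - z*x))) * y) +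
      (1 : ℤ) • (y * ((z*x - x*z)*t + (t*x - x*t)*z + (z*(t*x - x*t) + t*(z*x - x*z)))) +
      (-2 : ℤ) • (x * ((z*y - y*z)*t + (t*y - y*t)*z + (z*(t*y - y*t) + t*(z*y - y*z)))) +
      (1 : ℤ) • (((y*x - x*y)*t + (t*x - x*t)*y + (y*(t*x - x*t) + t*(y*x - x*y))) * z) +
      (-1 : ℤ) • (((y*z - z*y)*t + (t*z - z*t)*y + (y*(t*z - z*t) + t*(y*z - z*y))) * x) +
      (-1 : ℤ) • (z * ((y*x - x*y)*t + (t*x - x*t)*y + (y*(t*x - x*t) + t*(y*x - x*y)))) +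
      (-1 : ℤ) • ((((y*t)*z - z*(y*t))*x + (x*z - z*x)*(y*t) + ((y*t)*(x*z - z*x) + x*((y*t)*z - z*(y*t))))) +
      (-1 : ℤ) • (((z*x - x*z)*t + (t*x - x*t)*z + (z*(t*x - x*t) + t*(z*x - x*z))) * y) +
      (1 : ℤ) • ((((x*t)*z - z*(x*t))*y + (y*z - z*y)*(x*t) + ((x*t)*(y*z - z*y) + y*((x*t)*z - z*(x*t))))) +
      (1 : ℤ) • (z * ((x*y - y*x)*t + (t*y - y*t)*x + (x*(t*y - y*t) + t*(x*y - y*x)))) := by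
    simp only [mul_sub, sub_mul, mul_add, add_mul, mul_assoc, mul_smul_comm, smul_mul_assoc]
    module
  rw [key]
  simp only [K _ (hm _ hx _ hy) _ hz _ ht, K _ (hm _ hy _ hx) _ hz _ ht, K _ hy _ hz _ hx, K _ (hm _ hz _ ht) _ hx _ hy, K _ hx _ ht _ hz, K _ hz _ ht _ hx, K _ hz _ ht _ hy, K _ hy _ ht _ hx, K _ hy _ ht _ hz, K _ hy _ ht _ hx, K _ (hm _ hy _ ht) _ hx _ hz, K _ hz _ ht _ hx, K _ (hm _ hx _ ht) _ hy _ hz, K _ hx _ ht _ hy, mul_zero, zero_mul, smul_zero, add_zero]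

theorem M4b (F : Set S) (hm : ∀ x ∈ F, ∀ y ∈ F, x * y ∈ F)
    (K : ∀ x ∈ F, ∀ z ∈ F, ∀ y ∈ F, (x*y - y*x)*z + (z*y - y*z)*x + (x*(z*y - y*z) + z*(x*y - y*x)) = 0)
    {x y z t : S} (hx : x ∈ F) (hy : y ∈ F) (hz : z ∈ F) (ht : t ∈ F) :
    (1 : ℤ) • (t*((x*y - y*x)*z + z*(x*y - y*x))) = 0 := by
  have key : (1 : ℤ) • (t*((x*y - y*x)*z + z*(x*y - y*x))) =
      (1 : ℤ) • (t * ((y*x - x*y)*z + (z*x - x*z)*y + (y*(z*x - x*z) + z*(y*x - x*y)))) +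
      (1 : ℤ) • ((((z*t)*y - y*(z*t))*x + (x*y - y*x)*(z*t) + ((z*t)*(x*y - y*x) + x*((z*t)*y - y*(z*t))))) +
      (1 : ℤ) • (((x*z - z*x)*t + (t*z - z*t)*x + (x*(t*z - z*t) + t*(x*z - z*x))) * y) +
      (1 : ℤ) • (y * ((z*x - x*z)*t + (t*x - x*t)*z + (z*(t*x - x*t) + t*(z*x - x*z)))) +
      (-2 : ℤ) • ((((x*y)*t - t*(x*y))*z + (z*t - t*z)*(x*y) + ((x*y)*(z*t - t*z) + z*((x*y)*t - t*(x*y))))) +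
      (-2 : ℤ) • (x * ((z*y - y*z)*t + (t*y - y*t)*z + (z*(t*y - y*t) + t*(z*y - y*z)))) +
      (1 : ℤ) • (((y*x - x*y)*t + (t*x - x*t)*y + (y*(t*x - x*t) + t*(y*x - x*y))) * z) +
      (-1 : ℤ) • (((y*z - z*y)*t + (t*z - z*t)*y + (y*(t*z - z*t) + t*(y*z - z*y))) * x) +
      (-1 : ℤ) • (z * ((y*x - x*y)*t + (t*x - x*t)*y + (y*(t*x - x*t) + t*(y*x - x*y)))) +
      (-1 : ℤ) • ((((y*t)*z - z*(y*t))*x + (x*z - z*x)*(y*t) + ((y*t)*(x*z - z*x) + x*((y*t)*z - z*(y*t))))) +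
      (-1 : ℤ) • (((z*x - x*z)*t + (t*x - x*t)*z + (z*(t*x - x*t) + t*(z*x - x*z))) * y) +
      (1 : ℤ) • ((((x*t)*z - z*(x*t))*y + (y*z - z*y)*(x*t) + ((x*t)*(y*z - z*y) + y*((x*t)*z - z*(x*t))))) +
      (1 : ℤ) • (z * ((x*y - y*x)*t + (t*y - y*t)*x + (x*(t*y - y*t) + t*(x*y - y*x)))) +
      (2 : ℤ) • ((((y*x)*t - t*(y*x))*z + (z*t - t*z)*(y*x) + ((y*x)*(z*t - t*z) + z*((y*x)*t - t*(y*x))))) := by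
    simp only [mul_sub, sub_mul, mul_add, add_mul, mul_assoc, mul_smul_comm, smul_mul_assoc]
    module
  rw [key]
  simp only [K _ hy _ hz _ hx, K _ (hm _ hz _ ht) _ hx _ hy, K _ hx _ ht _ hz, K _ hz _ ht _ hx, K _ (hm _ hx _ hy) _ hz _ ht, K _ hz _ ht _ hy, K _ hy _ ht _ hx, K _ hy _ ht _ hz, K _ hy _ ht _ hx, K _ (hm _ hy _ ht) _ hx _ hz, K _ hz _ ht _ hx, K _ (hm _ hx _ ht) _ hy _ hz, K _ hx _ ht _ hy, K _ (hm _ hy _ hx) _ hz _ ht, mul_zero, zero_mul, smul_zero, add_zero]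

theorem M4c (F : Set S) (hm : ∀ x ∈ F, ∀ y ∈ F, x * y ∈ F)
    (K : ∀ x ∈ F, ∀ z ∈ F, ∀ y ∈ F, (x*y - y*x)*z + (z*y - y*z)*x + (x*(z*y - y*z) + z*(x*y - y*x)) = 0)
    {x y z t : S} (hx : x ∈ F) (hy : y ∈ F) (hz : z ∈ F) (ht : t ∈ F) :
    (2 : ℤ) • ((x*y + y*x)*(z*t - t*z)) = 0 := by
  have key : (2 : ℤ) • ((x*y + y*x)*(z*t - t*z)) =
      (-1 : ℤ) • (x * ((z*y - y*z)*t + (t*y - y*t)*z + (z*(t*y - y*t) + t*(z*y - y*z)))) +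
      (3 : ℤ) • (((y*x - x*y)*t + (t*x - x*t)*y + (y*(t*x - x*t) + t*(y*x - x*y))) * z) +
      (-1 : ℤ) • (((z*x - x*z)*t + (t*x - x*t)*z + (z*(t*x - x*t) + t*(z*x - x*z))) * y) +
      (3 : ℤ) • (((x*y - y*x)*t + (t*y - y*t)*x + (x*(t*y - y*t) + t*(x*y - y*x))) * z) +
      (-1 : ℤ) • (y * ((z*x - x*z)*t + (t*x - x*t)*z + (z*(t*x - x*t) + t*(z*x - x*z)))) +
      (-1 : ℤ) • (((z*y - y*z)*t + (t*y - y*t)*z + (z*(t*y - y*t) + t*(z*y - y*z))) * x) +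
      (1 : ℤ) • ((((y*x)*t - t*(y*x))*z + (z*t - t*z)*(y*x) + ((y*x)*(z*t - t*z) + z*((y*x)*t - t*(y*x))))) +
      (1 : ℤ) • ((((x*y)*t - t*(x*y))*z + (z*t - t*z)*(x*y) + ((x*y)*(z*t - t*z) + z*((x*y)*t - t*(x*y))))) +
      (1 : ℤ) • (z * ((y*x - x*y)*t + (t*x - x*t)*y + (y*(t*x - x*t) + t*(y*x - x*y)))) +
      (1 : ℤ) • (z * ((x*y - y*x)*t + (t*y - y*t)*x + (x*(t*y - y*t) + t*(x*y - y*x)))) +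
      (2 : ℤ) • (t * ((y*x - x*y)*z + (z*x - x*z)*y + (y*(z*x - x*z) + z*(y*x - x*y)))) +
      (2 : ℤ) • (t * ((x*y - y*x)*z + (z*y - y*z)*x + (x*(z*y - y*z) + z*(x*y - y*x)))) := by
    simp only [mul_sub, sub_mul, mul_add, add_mul, mul_assoc, mul_smul_comm, smul_mul_assoc]
    module
  rw [key]
  simp only [K _ hz _ ht _ hy, K _ hy _ ht _ hx, K _ hz _ ht _ hx, K _ hx _ ht _ hy, K _ hz _ ht _ hx, K _ hz _ ht _ hy, K _ (hm _ hy _ hx) _ hz _ ht, K _ (hm _ hx _ hy) _ hz _ ht, K _ hy _ ht _ hx, K _ hx _ ht _ hy, K _ hy _ hz _ hx, K _ hx _ hz _ hy, mul_zero, zero_mul, smul_zero, add_zero]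

theorem M4d (F : Set S) (hm : ∀ x ∈ F, ∀ y ∈ F, x * y ∈ F)
    (K : ∀ x ∈ F, ∀ z ∈ F, ∀ y ∈ F, (x*y - y*x)*z + (z*y - y*z)*x + (x*(z*y - y*z) + z*(x*y - y*x)) = 0)
    {x y z t : S} (hx : x ∈ F) (hy : y ∈ F) (hz : z ∈ F) (ht : t ∈ F) :
    (2 : ℤ) • ((z*t - t*z)*(x*y + y*x)) = 0 := by
  have key : (2 : ℤ) • ((z*t - t*z)*(x*y + y*x)) =
      (1 : ℤ) • ((((y*x)*t - t*(y*x))*z + (z*t - t*z)*(y*x) + ((y*x)*(z*t - t*z) + z*((y*x)*t - t*(y*x))))) +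
      (1 : ℤ) • (y * ((z*x - x*z)*t + (t*x - x*t)*z + (z*(t*x - x*t) + t*(z*x - x*z)))) +
      (1 : ℤ) • ((((x*y)*t - t*(x*y))*z + (z*t - t*z)*(x*y) + ((x*y)*(z*t - t*z) + z*((x*y)*t - t*(x*y))))) +
      (1 : ℤ) • (x * ((z*y - y*z)*t + (t*y - y*t)*z + (z*(t*y - y*t) + t*(z*y - y*z)))) +
      (-1 : ℤ) • (((y*x - x*y)*t + (t*x - x*t)*y + (y*(t*x - x*t) + t*(y*x - x*y))) * z) +
      (1 : ℤ) • (((z*x - x*z)*t + (t*x - x*t)*z + (z*(t*x - x*t) + t*(z*x - x*z))) * y) +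
      (-1 : ℤ) • (((x*y - y*x)*t + (t*y - y*t)*x + (x*(t*y - y*t) + t*(x*y - y*x))) * z) +
      (1 : ℤ) • (((z*y - y*z)*t + (t*y - y*t)*z + (z*(t*y - y*t) + t*(z*y - y*z))) * x) +
      (1 : ℤ) • (z * ((y*x - x*y)*t + (t*x - x*t)*y + (y*(t*x - x*t) + t*(y*x - x*y)))) +
      (1 : ℤ) • (z * ((x*y - y*x)*t + (t*y - y*t)*x + (x*(t*y - y*t) + t*(x*y - y*x)))) +
      (-2 : ℤ) • (t * ((y*x - x*y)*z + (z*x - x*z)*y + (y*(z*x - x*z) + z*(y*x - x*y)))) +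
      (-2 : ℤ) • (t * ((x*y - y*x)*z + (z*y - y*z)*x + (x*(z*y - y*z) + z*(x*y - y*x)))) := by
    simp only [mul_sub, sub_mul, mul_add, add_mul, mul_assoc, mul_smul_comm, smul_mul_assoc]
    module
  rw [key]
  simp only [K _ (hm _ hy _ hx) _ hz _ ht, K _ hz _ ht _ hx, K _ (hm _ hx _ hy) _ hz _ ht, K _ hz _ ht _ hy, K _ hy _ ht _ hx, K _ hz _ ht _ hx, K _ hx _ ht _ hy, K _ hz _ ht _ hy, K _ hy _ ht _ hx, K _ hx _ ht _ hy, K _ hy _ hz _ hx, K _ hx _ hz _ hy, mul_zero, zero_mul, smul_zero, add_zero]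

theorem M4e (F : Set S) (hm : ∀ x ∈ F, ∀ y ∈ F, x * y ∈ F)
    (K : ∀ x ∈ F, ∀ z ∈ F, ∀ y ∈ F, (x*y - y*x)*z + (z*y - y*z)*x + (x*(z*y - y*z) + z*(x*y - y*x)) = 0)
    {x y z t : S} (hx : x ∈ F) (hy : y ∈ F) (hz : z ∈ F) (ht : t ∈ F) :
    (1 : ℤ) • ((x*y - y*x)*(z*t - t*z) - (z*t - t*z)*(x*y - y*x)) = 0 := by
  have key : (1 : ℤ) • ((x*y - y*x)*(z*t - t*z) - (z*t - t*z)*(x*y - y*x)) =
      (-3 : ℤ) • (x * ((z*y - y*z)*t + (t*y - y*t)*z + (z*(t*y - y*t) + t*(z*y - y*z)))) +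
      (-1 : ℤ) • (((z*x - x*z)*t + (t*x - x*t)*z + (z*(t*x - x*t) + t*(z*x - x*z))) * y) +
      (3 : ℤ) • (y * ((z*x - x*z)*t + (t*x - x*t)*z + (z*(t*x - x*t) + t*(z*x - x*z)))) +
      (-4 : ℤ) • ((((x*y)*t - t*(x*y))*z + (z*t - t*z)*(x*y) + ((x*y)*(z*t - t*z) + z*((x*y)*t - t*(x*y))))) +
      (1 : ℤ) • (((z*y - y*z)*t + (t*y - y*t)*z + (z*(t*y - y*t) + t*(z*y - y*z))) * x) +
      (-2 : ℤ) • (z * ((y*x - x*y)*t + (t*x - x*t)*y + (y*(t*x - x*t) + t*(y*x - x*y)))) +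
      (2 : ℤ) • ((((y*z)*t - t*(y*z))*x + (x*t - t*x)*(y*z) + ((y*z)*(x*t - t*x) + x*((y*z)*t - t*(y*z))))) +
      (2 : ℤ) • (y * ((x*z - z*x)*t + (t*z - z*t)*x + (x*(t*z - z*t) + t*(x*z - z*x)))) +
      (-2 : ℤ) • ((((x*z)*t - t*(x*z))*y + (y*t - t*y)*(x*z) + ((x*z)*(y*t - t*y) + y*((x*z)*t - t*(x*z))))) +
      (-2 : ℤ) • (x * ((y*z - z*y)*t + (t*z - z*t)*y + (y*(t*z - z*t) + t*(y*z - z*y)))) +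
      (2 : ℤ) • (((x*z - z*x)*t + (t*z - z*t)*x + (x*(t*z - z*t) + t*(x*z - z*x))) * y) +
      (-2 : ℤ) • (((y*z - z*y)*t + (t*z - z*t)*y + (y*(t*z - z*t) + t*(y*z - z*y))) * x) +
      (-2 : ℤ) • ((((y*t)*z - z*(y*t))*x + (x*z - z*x)*(y*t) + ((y*t)*(x*z - z*x) + x*((y*t)*z - z*(y*t))))) +
      (2 : ℤ) • ((((x*t)*z - z*(x*t))*y + (y*z - z*y)*(x*t) + ((x*t)*(y*z - z*y) + y*((x*t)*z - z*(x*t))))) +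
      (2 : ℤ) • (z * ((x*y - y*x)*t + (t*y - y*t)*x + (x*(t*y - y*t) + t*(x*y - y*x)))) +
      (4 : ℤ) • ((((y*x)*t - t*(y*x))*z + (z*t - t*z)*(y*x) + ((y*x)*(z*t - t*z) + z*((y*x)*t - t*(y*x))))) +
      (2 : ℤ) • (t * ((y*x - x*y)*z + (z*x - x*z)*y + (y*(z*x - x*z) + z*(y*x - x*y)))) +
      (-2 : ℤ) • (t * ((x*y - y*x)*z + (z*y - y*z)*x + (x*(z*y - y*z) + z*(x*y - y*x)))) := by
    simp only [mul_sub, sub_mul, mul_add, add_mul, mul_assoc, mul_smul_comm, smul_mul_assoc]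
    module
  rw [key]
  simp only [K _ hz _ ht _ hy, K _ hz _ ht _ hx, K _ hz _ ht _ hx, K _ (hm _ hx _ hy) _ hz _ ht, K _ hz _ ht _ hy, K _ hy _ ht _ hx, K _ (hm _ hy _ hz) _ hx _ ht, K _ hx _ ht _ hz, K _ (hm _ hx _ hz) _ hy _ ht, K _ hy _ ht _ hz, K _ hx _ ht _ hz, K _ hy _ ht _ hz, K _ (hm _ hy _ ht) _ hx _ hz, K _ (hm _ hx _ ht) _ hy _ hz, K _ hx _ ht _ hy, K _ (hm _ hy _ hx) _ hz _ ht, K _ hy _ hz _ hx, K _ hx _ hz _ hy, mul_zero, zero_mul, smul_zero, add_zero]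

theorem M4f (F : Set S) (hm : ∀ x ∈ F, ∀ y ∈ F, x * y ∈ F)
    (K : ∀ x ∈ F, ∀ z ∈ F, ∀ y ∈ F, (x*y - y*x)*z + (z*y - y*z)*x + (x*(z*y - y*z) + z*(x*y - y*x)) = 0)
    {x y z t : S} (hx : x ∈ F) (hy : y ∈ F) (hz : z ∈ F) (ht : t ∈ F) :
    (2 : ℤ) • (x*z*y*t - y*z*x*t - x*t*y*z + y*t*x*z) = 0 := by
  have key : (2 : ℤ) • (x*z*y*t - y*z*x*t - x*t*y*z + y*t*x*z) =
      (-1 : ℤ) • (x * ((y*z - z*y)*t + (t*z - z*t)*y + (y*(t*z - z*t) + t*(y*z - z*y)))) +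
      (1 : ℤ) • (((x*z - z*x)*t + (t*z - z*t)*x + (x*(t*z - z*t) + t*(x*z - z*x))) * y) +
      (1 : ℤ) • (y * ((x*z - z*x)*t + (t*z - z*t)*x + (x*(t*z - z*t) + t*(x*z - z*x)))) +
      (-1 : ℤ) • (((y*z - z*y)*t + (t*z - z*t)*y + (y*(t*z - z*t) + t*(y*z - z*y))) * x) +
      (-1 : ℤ) • ((((y*z)*t - t*(y*z))*x + (x*t - t*x)*(y*z) + ((y*z)*(x*t - t*x) + x*((y*z)*t - t*(y*z))))) +
      (1 : ℤ) • ((((x*z)*t - t*(x*z))*y + (y*t - t*y)*(x*z) + ((x*z)*(y*t - t*y) + y*((x*z)*t - t*(x*z))))) +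
      (-1 : ℤ) • ((((y*x)*t - t*(y*x))*z + (z*t - t*z)*(y*x) + ((y*x)*(z*t - t*z) + z*((y*x)*t - t*(y*x))))) +
      (-1 : ℤ) • (((z*y - y*z)*t + (t*y - y*t)*z + (z*(t*y - y*t) + t*(z*y - y*z))) * x) +
      (1 : ℤ) • ((((y*t)*z - z*(y*t))*x + (x*z - z*x)*(y*t) + ((y*t)*(x*z - z*x) + x*((y*t)*z - z*(y*t))))) +
      (1 : ℤ) • (((z*x - x*z)*t + (t*x - x*t)*z + (z*(t*x - x*t) + t*(z*x - x*z))) * y) +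
      (-1 : ℤ) • ((((x*t)*z - z*(x*t))*y + (y*z - z*y)*(x*t) + ((x*t)*(y*z - z*y) + y*((x*t)*z - z*(x*t))))) +
      (1 : ℤ) • ((((x*y)*t - t*(x*y))*z + (z*t - t*z)*(x*y) + ((x*y)*(z*t - t*z) + z*((x*y)*t - t*(x*y))))) := by
    simp only [mul_sub, sub_mul, mul_add, add_mul, mul_assoc, mul_smul_comm, smul_mul_assoc]
    module
  rw [key]
  simp only [K _ hy _ ht _ hz, K _ hx _ ht _ hz, K _ hx _ ht _ hz, K _ hy _ ht _ hz, K _ (hm _ hy _ hz) _ hx _ ht, K _ (hm _ hx _ hz) _ hy _ ht, K _ (hm _ hy _ hx) _ hz _ ht, K _ hz _ ht _ hy, K _ (hm _ hy _ ht) _ hx _ hz, K _ hz _ ht _ hx, K _ (hm _ hx _ ht) _ hy _ hz, K _ (hm _ hx _ hy) _ hz _ ht, mul_zero, zero_mul, smul_zero, add_zero]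

end ADC
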