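import Pool.Agent.ADC.TOpW
import Pool.Agent.ADC.Lkb
import Pool.Agent.ADA.Acc

/-!
# ADC-Nf

Normal form of linked elements.

For `n` let `F_n = wp (fun w => (∀ i ∈ w, i < n) ∧ ∀ i < n, i ∈ w)` (words in exactly the letters `0, ..., n-1`), a
T-operator (`TOp_lt`, `TOp_full`, `wp_wp`).
1. There are `n`, a linked pair `(a, b)` with `F_n a = a`, `F_n b = b`, `a ∉ I`: take `a₀ ∈ A`, `a₀ ∉ I` (`h.neA`).
   Using `det`-like arguments (ADA.Acc `det`, `full_sub`, `full_ren`): some element of `A \ I` is in `range F_n`.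
   [Direct argument: `a₀` involves finitely many letters, `a₀ ∈ Pn m` (`exists_mem_Pn`).  Induct on the number of letters:
   the set `L` of letters; if some letter `i ∈ L` with `wp (i ∉ w) a₀ ∉ I`, replace `a₀` by it (fewer letters).  Otherwise
   `a₀ ≡ wp (all letters of L occur) a₀` modulo `I`; then rename the letters of `L` to `0, ..., n-1` (a renaming and its
   inverse are substitutions, so membership in `I` and in `A` is not changed).]  For the element `a = F_n a` of `A \ I`
   take `b₀` linked to `a` (`Lk.ex`) and `b = F_n b₀` (`Lnk.map`; `F_n a = a`).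
2. `a ∈ Fge n` if `F_n a = a` (words containing `n` different letters), so `n < N` if `NilAt I N`.  Choose the pair in 1.
   with `n` maximal.  `n ≥ 1` as `a ∈ Pp`.
3. For `i < n` put `Δ a = sb (X i ↦ X i + X n) a - a - sb (X i ↦ X n) a`.  `Δ` is a T-operator, and
   `F_{n+1} (Δ a) = Δ a` for `a = F_n a` (on a word `w`: the words in `X i`, `X n` containing both; check on words),
   so by maximality of `n` for the linked pair `(Δ a, Δ b)`: `Δ a ∈ I`, hence `Δ b ∈ I` (`Lk.iff`).  This is `Ad I n`.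
4. For `a` with `Ad I n a`: `sc i c a - c • a ∈ I` for `c ≥ 0` an integer, by induction on `c`: substitute
   `X n ↦ c • X i` (a substitution mapping `I` to `I`; `a` does not involve `X n`) in `Δ a ∈ I`:
   `sc i (c+1) a - a - sc i c a ∈ I`.
   With `res_formula` (TOpW) for `r = 1`: `(p-1) • wp (count i % (p-1) = 1) a ≡ ∑_k ω^(k (p-2)) • ω^k • a
   = ∑_k ω^(k (p-1)) • a ≡ (p-1) • a` modulo `I` (as `p^2 Pp ≤ I`), so `wp (count i % (p-1) = 1) a - a ∈ I`
   (`cancel`).  The same for `b`.  Apply this for `i = 0, ..., n-1` in turn (each time the new element is `≡` the old one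
   modulo `I`, so `Ad` and linkedness are preserved (`Lnk.congr`)): final result
   `a' = wp (qw p n) a ∈ Q p n`, `a' - a ∈ I`.
-/

namespace ADC

open AD ADN ADA

private theorem nf_wp_zero {φ : List ℕ → Prop} (h : ∀ w, ¬ φ w) (f : P) : wp φ f = 0 := by
  refine ind_mon (C := fun f => wp φ f = 0) (by simp) ?_ ?_ ?_ f
  · intro f g hf hg; rw [map_add, hf, hg, add_zero]
  · intro c f hf; rw [map_smul, hf, smul_zero]
  · intro w; exact wp_neg (h w)

private theorem nf_wp_id {φ : List ℕ → Prop} (h : ∀ w, φ w) (f : P) : wp φ f = f := by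
  refine ind_mon (C := fun f => wp φ f = f) (by simp) ?_ ?_ ?_ f
  · intro f g hf hg; rw [map_add, hf, hg]
  · intro c f hf; rw [map_smul, hf]
  · intro w; exact wp_pos (h w)

private theorem nf_comm (φ ψ : List ℕ → Prop) (f : P) : wp φ (wp ψ f) = wp ψ (wp φ f) := by
  rw [wp_wp, wp_wp]
  congr 1
  exact wp_congr fun w => and_comm

/-- the words in exactly the letters `0, ..., n - 1` -/
private def nfw (n : ℕ) (w : List ℕ) : Prop := (∀ i ∈ w, i < n) ∧ ∀ i < n, i ∈ w

private noncomputable def kp (n : ℕ) : P →ₐ[ℤ] P := sb (fun j => if n ≤ j then 0 else X j)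

private theorem kp_lt {n j : ℕ} (h : j < n) : kp n (X j) = X j := by
  unfold kp
  rw [sb_X, if_neg (by omega)]

private theorem kp_ge {n j : ℕ} (h : n ≤ j) : kp n (X j) = 0 := by
  unfold kp
  rw [sb_X, if_pos h]

private theorem kp_mon (n : ℕ) (w : List ℕ) :
    kp n (mon w) = wp (fun w => ∀ i ∈ w, i < n) (mon w) := by
  induction w with
  | nil => rw [wp_pos (by simp), mon_nil, map_one]
  | cons a w ih =>
    rw [mon_cons, map_mul, ih]
    by_cases h : a < n
    · rw [kp_lt h]
      by_cases h' : ∀ i ∈ w, i < n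
      · have h1 : ∀ i ∈ a :: w, i < n := by
          intro i hi
          rcases List.mem_cons.1 hi with e | e
          · rw [e]; exact h
          · exact h' i e
        rw [wp_pos (φ := fun w => ∀ i ∈ w, i < n) h', ← mon_cons,
          wp_pos (φ := fun w => ∀ i ∈ w, i < n) h1]
      · have h1 : ¬ ∀ i ∈ a :: w, i < n := fun e => h' fun i hi => e i (List.mem_cons_of_mem _ hi)
        rw [wp_neg (φ := fun w => ∀ i ∈ w, i < n) h', ← mon_cons,
          wp_neg (φ := fun w => ∀ i ∈ w, i < n) h1, mul_zero]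
    · have h1 : ¬ ∀ i ∈ a :: w, i < n := fun e => h (e a (by simp))
      rw [kp_ge (not_lt.1 h), zero_mul, ← mon_cons,
        wp_neg (φ := fun w => ∀ i ∈ w, i < n) h1]

private theorem kp_wp (n : ℕ) (f : P) : kp n f = wp (fun w => ∀ i ∈ w, i < n) f := by
  refine ind_mon (C := fun f => kp n f = wp (fun w => ∀ i ∈ w, i < n) f) (by simp) ?_ ?_ ?_ f
  · intro f g hf hg; rw [map_add, map_add, hf, hg]
  · intro c f hf; rw [map_zsmul, map_smul, hf]
  · exact kp_mon n

private theorem kil_wp (i : ℕ) (f : P) : kil i f = wp (fun w => i ∉ w) f := by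
  refine ind_mon (C := fun f => kil i f = wp (fun w => i ∉ w) f) (by simp) ?_ ?_ ?_ f
  · intro f g hf hg; rw [map_add, map_add, hf, hg]
  · intro c f hf; rw [map_zsmul, map_smul, hf]
  · intro w
    rw [kil_mon]
    by_cases h : i ∈ w
    · rw [if_pos h, wp_neg (φ := fun w => i ∉ w) (fun e => e h)]
    · rw [if_neg h, wp_pos (φ := fun w => i ∉ w) h]

private theorem kil_X (i j : ℕ) : kil i (X j) = if j = i then 0 else X j := by
  unfold kil
  exact FreeAlgebra.lift_ι_apply _ _

private theorem nfw_iff {n : ℕ} {f : P} :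
    wp (nfw n) f = f ↔ kp n f = f ∧ ∀ i < n, kil i f = 0 := by
  constructor
  · intro h
    constructor
    · rw [kp_wp]
      conv_lhs => rw [← h]
      rw [wp_wp]
      conv_rhs => rw [← h]
      congr 1
      exact wp_congr fun w => ⟨fun e => e.2, fun e => ⟨e.1, e⟩⟩
    · intro i hi
      rw [kil_wp, ← h, wp_wp]
      exact nf_wp_zero (fun w e => e.1 (e.2.2 i hi)) f
  · rintro ⟨h1, h2⟩
    have h3 : ∀ m ≤ n, wp (fun w => ∀ i < m, i ∈ w) f = f := by
      intro m
      induction m with
      | zero => intro _; exact nf_wp_id (fun w i hi => absurd hi (Nat.not_lt_zero i)) f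
      | succ m ih =>
        intro hm
        have h4 : wp (fun w => m ∈ w) f = f := by
          have h5 := wp_add_not (fun w => m ∈ w) f
          rw [← kil_wp, h2 m (by omega), add_zero] at h5
          exact h5
        have h6 := ih (by omega)
        rw [← h4, wp_wp] at h6
        rw [h4] at h6
        have h8 : ∀ w : List ℕ, (∀ i < m + 1, i ∈ w) ↔ (∀ i < m, i ∈ w) ∧ m ∈ w := fun w =>
          ⟨fun e => ⟨fun i hi => e i (by omega), e m (by omega)⟩, fun e i hi => by
            rcases Nat.lt_succ_iff_lt_or_eq.1 hi with h | h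
            · exact e.1 i h
            · rw [h]; exact e.2⟩
        rw [wp_congr h8]
        exact h6
    have h7 : wp (nfw n) f = wp (fun w => ∀ i ∈ w, i < n) (wp (fun w => ∀ i < n, i ∈ w) f) := by
      rw [wp_wp]
      rfl
    rw [h7, h3 n le_rfl, ← kp_wp, h1]

/-- homomorphisms are determined by their values at the letters that occur -/
private theorem hom_eq_on {φ ψ : P →ₐ[ℤ] P} {n : ℕ} (h : ∀ j < n, φ (X j) = ψ (X j)) {f : P}
    (hf : kp n f = f) : φ f = ψ f := by
  have h1 : φ.comp (kp n) = ψ.comp (kp n) := by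
    apply hom_ext_X
    intro j
    rw [AlgHom.comp_apply, AlgHom.comp_apply]
    by_cases hj : j < n
    · rw [kp_lt hj, h j hj]
    · rw [kp_ge (not_lt.1 hj), map_zero, map_zero]
  have h2 := DFunLike.congr_fun h1 f
  rw [AlgHom.comp_apply, AlgHom.comp_apply, hf] at h2
  exact h2

/-! ### step 1 -/

private theorem nf1 {p : ℕ} {I A B C : Submodule ℤ P} (h : Lk p I A B C) :
    ∃ n, 1 ≤ n ∧ ∃ a ∈ Full n n, a ∈ A ∧ a ∉ I := by
  classical
  obtain ⟨a0, ha0, hI0⟩ := SetLike.not_le_iff_exists.1 h.neA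
  have hex : ∃ m, ∃ a ∈ Pn m, a ∈ A ∧ a ∉ I := by
    obtain ⟨m, hm⟩ := exists_mem_Pn (h.hA.le ha0)
    exact ⟨m, a0, hm, ha0, hI0⟩
  obtain ⟨f, hf, hfA, hfI⟩ := Nat.find_spec hex
  have hmin : ∀ k < Nat.find hex, ∀ g ∈ Pn k, g ∈ A → g ∈ I := fun k hk g hg hgA => by
    by_contra hgI
    exact Nat.find_min hex hk ⟨g, hg, hgA, hgI⟩
  generalize Nat.find hex = m at hf hmin
  cases m with
  | zero =>
    exfalso
    apply hfI
    have h0 : Pn 0 ≤ I := by
      refine Submodule.span_le.2 ?_
      rintro x ⟨w, hw, h1, rfl⟩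
      obtain ⟨b, t, rfl⟩ := List.exists_cons_of_ne_nil hw
      exact absurd (h1 b (by simp)) (Nat.not_lt_zero b)
    exact h0 hf
  | succ k =>
    have step : ∀ i, i ≤ k + 1 → ∃ g ∈ Full i (k + 1), g ∈ A ∧ f - g ∈ I := by
      intro i
      induction i with
      | zero =>
        intro _
        exact ⟨f, pn_full _ hf, hfA, by rw [sub_self]; exact I.zero_mem⟩
      | succ i ihi =>
        intro hi
        obtain ⟨g, hg, hgA, hfg⟩ := ihi (by omega)
        have h1 : kil i g ∈ A := h.hA.subst _ (kil_isSubst i) g hgA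
        have h2 : kil i g ∈ I := by
          have h3 := hmin k (by omega) _ (full_ren (by omega) hg)
            (h.hA.subst _ (ren_isSubst i k) _ h1)
          have h4 := h.hI.subst _ (ren_isSubst i k) _ h3
          rwa [ren_ren] at h4
        refine ⟨g - kil i g, full_sub hg, A.sub_mem hgA h1, ?_⟩
        have : f - (g - kil i g) = (f - g) + kil i g := by abel
        rw [this]
        exact I.add_mem hfg h2
    obtain ⟨g, hg, hgA, hfg⟩ := step (k + 1) le_rfl
    refine ⟨k + 1, by omega, g, hg, hgA, fun hgI => hfI ?_⟩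
    have : f = (f - g) + g := by abel
    rw [this]
    exact I.add_mem hfg hgI

private theorem nfw_len {n : ℕ} {w : List ℕ} (h : nfw n w) : n ≤ w.length := by
  have h3 : Finset.range n ⊆ w.toFinset := fun i hi =>
    List.mem_toFinset.2 (h.2 i (Finset.mem_range.1 hi))
  have h4 := Finset.card_le_card h3
  rw [Finset.card_range] at h4
  exact h4.trans (List.toFinset_card_le w)

private theorem nfw_Fge {n : ℕ} {f : P} (h : wp (nfw n) f = f) : f ∈ Fge n := by
  rw [← h]
  refine (Submodule.span_le.2 ?_ : Submodule.span ℤ {f | ∃ w, nfw n w ∧ f = mon w} ≤ Fge n)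
    (wp_mem _ _)
  rintro x ⟨w, hw, rfl⟩
  exact nilAt_of_le le_rfl w (nfw_len hw)

private theorem TOp_nfw (p n : ℕ) : TOp p (wp (nfw n)) := by
  have h1 : wp (nfw n) = (wp (fun w => ∀ i ∈ w, i < n)).comp (wp (fun w => ∀ i < n, i ∈ w)) := by
    ext f
    rw [LinearMap.comp_apply, wp_wp]
    rfl
  rw [h1]
  exact (TOp_lt p n).comp (TOp_full p n)

/-! ### the difference operator -/

private noncomputable def aa (i n : ℕ) : P →ₐ[ℤ] P :=
  sb (fun j => if j = i then X i + X n else X j)

private noncomputable def bb (i n : ℕ) : P →ₐ[ℤ] P := sb (fun j => if j = i then X n else X j)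

private noncomputable def Dl (i n : ℕ) : P →ₗ[ℤ] P := tl (aa i n) - LinearMap.id - tl (bb i n)

private theorem Dl_apply (i n : ℕ) (f : P) : Dl i n f = aa i n f - f - bb i n f := rfl

private theorem aa_X (i n j : ℕ) : aa i n (X j) = if j = i then X i + X n else X j := by
  unfold aa
  rw [sb_X]

private theorem bb_X (i n j : ℕ) : bb i n (X j) = if j = i then X n else X j := by
  unfold bb
  rw [sb_X]

private theorem TOp_Dl (p i n : ℕ) : TOp p (Dl i n) := by
  refine ((TOp.subst p (sb_isSubst fun j => ?_)).sub (TOp.id' p)).sub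
    (TOp.subst p (sb_isSubst fun j => ?_))
  · by_cases h : j = i
    · rw [if_pos h]; exact Submodule.add_mem _ (X_mem i) (X_mem n)
    · rw [if_neg h]; exact X_mem j
  · by_cases h : j = i
    · rw [if_pos h]; exact X_mem n
    · rw [if_neg h]; exact X_mem j

private theorem Ad_iff {I : Submodule ℤ P} {n : ℕ} {a : P} :
    Ad I n a ↔ ∀ i < n, Dl i n a ∈ I := Iff.rfl

private theorem Dl_mem {I : Submodule ℤ P} (hI : IsT I) (i n : ℕ) {a : P} (ha : a ∈ I) :
    Dl i n a ∈ I := by
  rw [Dl_apply]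
  refine I.sub_mem (I.sub_mem (sb_mem hI (fun j => ?_) ha) ha) (sb_mem hI (fun j => ?_) ha)
  · by_cases h : j = i
    · rw [if_pos h]; exact Submodule.add_mem _ (X_mem i) (X_mem n)
    · rw [if_neg h]; exact X_mem j
  · by_cases h : j = i
    · rw [if_pos h]; exact X_mem n
    · rw [if_neg h]; exact X_mem j

private theorem Ad_congr {I : Submodule ℤ P} (hI : IsT I) {n : ℕ} {a a' : P} (ha : Ad I n a)
    (h : a' - a ∈ I) : Ad I n a' := by
  rw [Ad_iff] at ha ⊢
  intro i hi
  have h1 : Dl i n a' = Dl i n a + Dl i n (a' - a) := by rw [map_sub]; abel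
  rw [h1]
  exact I.add_mem (ha i hi) (Dl_mem hI i n h)

private theorem Dl_full {n i : ℕ} (hi : i < n) {f : P} (hf : wp (nfw n) f = f) :
    wp (nfw (n + 1)) (Dl i n f) = Dl i n f := by
  obtain ⟨hk, h0⟩ := nfw_iff.1 hf
  have hin : n ≠ i := by omega
  rw [nfw_iff]
  refine ⟨?_, ?_⟩
  · rw [Dl_apply, map_sub, map_sub]
    congr 1
    · congr 1
      · refine hom_eq_on (φ := (kp (n + 1)).comp (aa i n)) (ψ := aa i n) (fun j hj => ?_) hk
        rw [AlgHom.comp_apply, aa_X]
        by_cases h : j = i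
        · rw [if_pos h, map_add, kp_lt (by omega), kp_lt (by omega)]
        · rw [if_neg h, kp_lt (by omega)]
      · refine hom_eq_on (φ := kp (n + 1)) (ψ := AlgHom.id ℤ P) (fun j hj => ?_) hk
        rw [kp_lt (by omega)]
        rfl
    · refine hom_eq_on (φ := (kp (n + 1)).comp (bb i n)) (ψ := bb i n) (fun j hj => ?_) hk
      rw [AlgHom.comp_apply, bb_X]
      by_cases h : j = i
      · rw [if_pos h, kp_lt (by omega)]
      · rw [if_neg h, kp_lt (by omega)]
  · intro j hj
    rw [Dl_apply, map_sub, map_sub]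
    by_cases hjn : j = n
    · subst hjn
      have e1 : kil j (aa i j f) = f := by
        refine hom_eq_on (φ := (kil j).comp (aa i j)) (ψ := AlgHom.id ℤ P) (fun k hk' => ?_) hk
        rw [AlgHom.comp_apply, aa_X]
        by_cases h : k = i
        · rw [if_pos h, map_add, kil_X, kil_X, if_neg (by omega), if_pos rfl, add_zero, h]
          rfl
        · rw [if_neg h, kil_X, if_neg (by omega)]
          rfl
      have e2 : kil j f = f := by
        refine hom_eq_on (φ := kil j) (ψ := AlgHom.id ℤ P) (fun k hk' => ?_) hk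
        rw [kil_X, if_neg (by omega)]
        rfl
      have e3 : kil j (bb i j f) = kil i f := by
        refine hom_eq_on (φ := (kil j).comp (bb i j)) (ψ := kil i) (fun k hk' => ?_) hk
        rw [AlgHom.comp_apply, bb_X]
        by_cases h : k = i
        · rw [if_pos h, kil_X, if_pos rfl, kil_X, if_pos h]
        · rw [if_neg h, kil_X, if_neg (by omega), kil_X, if_neg h]
      rw [e1, e2, e3, h0 i hi]
      abel
    · have hjn' : j < n := by omega
      by_cases hji : j = i
      · subst hji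
        have e1 : kil j (aa j n f) = bb j n f := by
          refine hom_eq_on (φ := (kil j).comp (aa j n)) (ψ := bb j n) (fun k hk' => ?_) hk
          rw [AlgHom.comp_apply, aa_X, bb_X]
          by_cases h : k = j
          · rw [if_pos h, if_pos h, map_add, kil_X, kil_X, if_pos rfl, if_neg hin, zero_add]
          · rw [if_neg h, if_neg h, kil_X, if_neg h]
        have e3 : kil j (bb j n f) = bb j n f := by
          refine hom_eq_on (φ := (kil j).comp (bb j n)) (ψ := bb j n) (fun k hk' => ?_) hk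
          rw [AlgHom.comp_apply, bb_X]
          by_cases h : k = j
          · rw [if_pos h, kil_X, if_neg hin]
          · rw [if_neg h, kil_X, if_neg h]
        rw [e1, e3, h0 j hi]
        abel
      · have e1 : kil j (aa i n f) = aa i n (kil j f) := by
          refine hom_eq_on (φ := (kil j).comp (aa i n)) (ψ := (aa i n).comp (kil j))
            (fun k hk' => ?_) hk
          rw [AlgHom.comp_apply, AlgHom.comp_apply, aa_X, kil_X]
          by_cases h : k = i
          · have h' : k ≠ j := by omega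
            rw [if_pos h, if_neg h', map_add, kil_X, kil_X, if_neg (by omega), if_neg (by omega),
              aa_X, if_pos h]
          · rw [if_neg h, kil_X]
            by_cases h' : k = j
            · rw [if_pos h', map_zero]
            · rw [if_neg h', aa_X, if_neg h]
        have e3 : kil j (bb i n f) = bb i n (kil j f) := by
          refine hom_eq_on (φ := (kil j).comp (bb i n)) (ψ := (bb i n).comp (kil j))
            (fun k hk' => ?_) hk
          rw [AlgHom.comp_apply, AlgHom.comp_apply, bb_X, kil_X]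
          by_cases h : k = i
          · have h' : k ≠ j := by omega
            rw [if_pos h, if_neg h', kil_X, if_neg (by omega), bb_X, if_pos h]
          · rw [if_neg h, kil_X]
            by_cases h' : k = j
            · rw [if_pos h', map_zero]
            · rw [if_neg h', bb_X, if_neg h]
        rw [e1, e3, h0 j hjn', map_zero, map_zero]
        abel

/-! ### the scaling -/

private theorem sc_X (i : ℕ) (c : ℤ) (j : ℕ) : sc i c (X j) = if j = i then c • X i else X j := by
  unfold sc
  rw [sb_X]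

private theorem sc_mem {I : Submodule ℤ P} (hI : IsT I) {n i : ℕ} (hi : i < n) {f : P}
    (hk : kp n f = f) (h0 : kil i f = 0) (hA : Dl i n f ∈ I) (c : ℕ) :
    sc i (c : ℤ) f - (c : ℤ) • f ∈ I := by
  have hin : n ≠ i := by omega
  induction c with
  | zero =>
    have e : sc i ((0 : ℕ) : ℤ) f = kil i f := by
      refine hom_eq_on (φ := sc i ((0 : ℕ) : ℤ)) (ψ := kil i) (fun k _ => ?_) hk
      rw [sc_X, kil_X]
      by_cases h : k = i
      · rw [if_pos h, if_pos h, Nat.cast_zero, zero_smul]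
      · rw [if_neg h, if_neg h]
    rw [e, h0, Nat.cast_zero, zero_smul, sub_zero]
    exact I.zero_mem
  | succ c ih =>
    set θ : P →ₐ[ℤ] P := sb (fun j => if j = n then (c : ℤ) • X i else X j) with hθ
    have hθX : ∀ j, θ (X j) = if j = n then (c : ℤ) • X i else X j := fun j => by rw [hθ, sb_X]
    have h1 : θ (Dl i n f) ∈ I := by
      refine sb_mem hI (fun j => ?_) hA
      by_cases h : j = n
      · rw [if_pos h]; exact Submodule.smul_mem _ _ (X_mem i)
      · rw [if_neg h]; exact X_mem j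
    rw [Dl_apply, map_sub, map_sub] at h1
    have e1 : θ (aa i n f) = sc i ((c + 1 : ℕ) : ℤ) f := by
      refine hom_eq_on (φ := θ.comp (aa i n)) (ψ := sc i ((c + 1 : ℕ) : ℤ)) (fun k hk' => ?_) hk
      rw [AlgHom.comp_apply, aa_X, sc_X]
      by_cases h : k = i
      · rw [if_pos h, if_pos h, map_add, hθX, hθX, if_neg (by omega), if_pos rfl, Nat.cast_succ,
          add_smul, one_smul, add_comm]
      · rw [if_neg h, if_neg h, hθX, if_neg (by omega)]
    have e2 : θ f = f := by
      refine hom_eq_on (φ := θ) (ψ := AlgHom.id ℤ P) (fun k hk' => ?_) hk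
      rw [hθX, if_neg (by omega)]
      rfl
    have e3 : θ (bb i n f) = sc i (c : ℤ) f := by
      refine hom_eq_on (φ := θ.comp (bb i n)) (ψ := sc i (c : ℤ)) (fun k hk' => ?_) hk
      rw [AlgHom.comp_apply, bb_X, sc_X]
      by_cases h : k = i
      · rw [if_pos h, if_pos h, hθX, if_pos rfl]
      · rw [if_neg h, if_neg h, hθX, if_neg (by omega)]
    rw [e1, e2, e3] at h1
    have e4 : sc i ((c + 1 : ℕ) : ℤ) f - ((c + 1 : ℕ) : ℤ) • f =
        (sc i ((c + 1 : ℕ) : ℤ) f - f - sc i (c : ℤ) f) + (sc i (c : ℤ) f - (c : ℤ) • f) := by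
      rw [Nat.cast_succ, add_smul, one_smul]
      abel
    rw [e4]
    exact I.add_mem h1 ih

private theorem res_mem {p : ℕ} (hp : p.Prime) (h3 : 3 ≤ p) {I : Submodule ℤ P} (hI : IsT I)
    (hm : Mul ((p : ℤ) ^ 2) I) {n i : ℕ} (hi : i < n) {f : P} (hf : f ∈ Pp)
    (hF : wp (nfw n) f = f) (hA : Ad I n f) :
    wp (fun w => w.count i % (p - 1) = 1) f - f ∈ I := by
  obtain ⟨hk, h0⟩ := nfw_iff.1 hF
  obtain ⟨ω, hω, hr⟩ := res_formula hp h3
  obtain ⟨g, hg, hg'⟩ := hr i 1 (by omega) f hf
  have hwP : wp (fun w => w.count i % (p - 1) = 1) f ∈ Pp :=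
    TOp_res hp h3 i 1 (by omega) Pp isT_Pp (fun f hf => Pp.smul_mem _ hf) f hf
  refine cancel hp hm (c := ((p - 1 : ℕ) : ℤ)) ?_ (Pp.sub_mem hwP hf) ?_
  · intro h
    have h5 := Int.natCast_dvd_natCast.1 h
    have h6 := Nat.le_of_dvd (by omega) h5
    omega
  · have e1 : ((p - 1 : ℕ) : ℤ) • (wp (fun w => w.count i % (p - 1) = 1) f - f) =
        ((p : ℤ) ^ 2) • g + ∑ k ∈ Finset.range (p - 1), (((ω : ℤ) ^ (k * (p - 1 - 1))) •
          (sc i ((ω : ℤ) ^ k) f - ((ω : ℤ) ^ k) • f) +
          ((ω : ℤ) ^ (k * (p - 1 - 1)) * (ω : ℤ) ^ k - 1) • f) := by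
      have e2 : ∑ k ∈ Finset.range (p - 1), (((ω : ℤ) ^ (k * (p - 1 - 1))) •
          (sc i ((ω : ℤ) ^ k) f - ((ω : ℤ) ^ k) • f) +
          ((ω : ℤ) ^ (k * (p - 1 - 1)) * (ω : ℤ) ^ k - 1) • f) =
          ∑ k ∈ Finset.range (p - 1), (((ω : ℤ) ^ (k * (p - 1 - 1))) • sc i ((ω : ℤ) ^ k) f - f) := by
        refine Finset.sum_congr rfl fun k _ => ?_
        rw [smul_sub, smul_smul, sub_smul, one_smul]
        abel
      rw [e2, Finset.sum_sub_distrib, ← hg', Finset.sum_const, Finset.card_range, smul_sub,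
        natCast_zsmul f (p - 1)]
      abel
    rw [e1]
    refine I.add_mem (hm g hg) (I.sum_mem fun k _ => I.add_mem (I.smul_mem _ ?_) ?_)
    · have := sc_mem hI hi hk (h0 i hi) (hA i hi) (ω ^ k)
      push_cast at this
      exact this
    · have e3 : (ω : ℤ) ^ (k * (p - 1 - 1)) * (ω : ℤ) ^ k = ((ω : ℤ) ^ (p - 1)) ^ k := by
        rw [← pow_add, ← pow_mul]
        congr 1
        obtain ⟨q, rfl⟩ : ∃ q, p = q + 2 := ⟨p - 2, by omega⟩
        have : q + 2 - 1 - 1 = q := by omega
        rw [this]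
        have : q + 2 - 1 = q + 1 := by omega
        rw [this]
        ring
      have h7 := hω.pow k
      rw [one_pow] at h7
      obtain ⟨z, hz⟩ := h7.symm.dvd
      rw [e3, hz, mul_smul]
      rw [smul_comm]
      exact I.smul_mem _ (hm f hf)

private theorem nf_iter {p : ℕ} (hp : p.Prime) (h3 : 3 ≤ p) {I : Submodule ℤ P} (hI : IsT I)
    (hm : Mul ((p : ℤ) ^ 2) I) {n : ℕ} {a : P} (ha : a ∈ Pp)
    (hF : wp (nfw n) a = a) (hA : Ad I n a) (m : ℕ) (hmn : m ≤ n) :
    wp (fun w => ∀ j < m, w.count j % (p - 1) = 1) a - a ∈ I := by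
  induction m with
  | zero =>
    rw [nf_wp_id (fun w j hj => absurd hj (Nat.not_lt_zero j)) a, sub_self]
    exact I.zero_mem
  | succ m ih =>
    have h1 := ih (by omega)
    set a1 := wp (fun w => ∀ j < m, w.count j % (p - 1) = 1) a with ha1
    have h2 : wp (nfw n) a1 = a1 := by
      rw [ha1, nf_comm, hF]
    have h3' : a1 ∈ Pp := by
      have : a1 = (a1 - a) + a := by abel
      rw [this]
      exact Pp.add_mem (hI.le h1) ha
    have h4 := res_mem hp h3 hI hm (by omega : m < n) h3' h2 (Ad_congr hI hA h1)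
    have h5 : wp (fun w => ∀ j < m + 1, w.count j % (p - 1) = 1) a =
        wp (fun w => w.count m % (p - 1) = 1) a1 := by
      rw [ha1, wp_wp]
      congr 1
      refine wp_congr fun w => ⟨fun e => ⟨e m (by omega), fun j hj => e j (by omega)⟩,
        fun e j hj => ?_⟩
      rcases Nat.lt_succ_iff_lt_or_eq.1 hj with h | h
      · exact e.2 j h
      · rw [h]; exact e.1
    have h6 : wp (fun w => ∀ j < m + 1, w.count j % (p - 1) = 1) a - a =
        (wp (fun w => w.count m % (p - 1) = 1) a1 - a1) + (a1 - a) := by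
      rw [h5]
      abel
    rw [h6]
    exact I.add_mem h4 h1

private theorem nf_fin {p : ℕ} (hp : p.Prime) (h3 : 3 ≤ p) {I : Submodule ℤ P} (hI : IsT I)
    (hm : Mul ((p : ℤ) ^ 2) I) {n : ℕ} {a : P} (ha : a ∈ Pp)
    (hF : wp (nfw n) a = a) (hA : Ad I n a) : ∃ a' ∈ Q p n, a' - a ∈ I := by
  refine ⟨wp (qw p n) a, ?_, ?_⟩
  · rw [Q_iff, wp_wp]
    congr 1
    exact wp_congr fun w => and_self_iff
  · have h1 := nf_iter hp h3 hI hm ha hF hA n le_rfl
    have h2 : wp (qw p n) a = wp (fun w => ∀ j < n, w.count j % (p - 1) = 1) a := by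
      have e1 : wp (qw p n) a = wp (fun w => ∀ j < n, w.count j % (p - 1) = 1)
          (wp (fun w => ∀ i ∈ w, i < n) a) := by
        rw [wp_wp]
        congr 1
        exact wp_congr fun w => and_comm
      rw [e1, ← kp_wp, (nfw_iff.1 hF).1]
    rw [h2]
    exact h1

theorem nf {p : ℕ} (hp : p.Prime) (h3 : 3 ≤ p) {I A B C : Submodule ℤ P} (h : Lk p I A B C) :
    ∃ (n : ℕ) (a b : P), 1 ≤ n ∧ a ∈ Q p n ∧ b ∈ Q p n ∧ Lnk A B C a b ∧ a ∉ I ∧ Ad I n a ∧ Ad I n b := by
  classical
  obtain ⟨N, hN⟩ := h.nil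
  obtain ⟨n0, hn0, a0, ha0, haA0, haI0⟩ := nf1 h
  have hfull : wp (nfw n0) a0 = a0 := by
    apply wp_id
    refine Submodule.span_mono ?_ ha0
    rintro x ⟨w, hw, h1, h2, rfl⟩
    exact ⟨w, ⟨h1, h2⟩, rfl⟩
  set R : ℕ → Prop := fun n => ∃ a, wp (nfw n) a = a ∧ a ∈ A ∧ a ∉ I with hR
  have hRlt : ∀ n, R n → n < N := by
    rintro n ⟨a, ha, haA, haI⟩
    by_contra hcon
    exact haI (Fge_le hN (Fge_anti (not_lt.1 hcon) (nfw_Fge ha)))
  have hR0 : R n0 := ⟨a0, hfull, haA0, haI0⟩
  have hn0N : n0 ≤ N := (hRlt n0 hR0).le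
  set n := Nat.findGreatest R N with hn
  have hRn : R n := Nat.findGreatest_spec hn0N hR0
  have hnn : n0 ≤ n := Nat.le_findGreatest hn0N hR0
  have hmax : ¬ R (n + 1) := by
    intro h1
    have h2 := Nat.le_findGreatest (hRlt _ h1).le h1
    omega
  obtain ⟨a, haF, haA, haI⟩ := hRn
  obtain ⟨b0, hb0⟩ := h.ex haA
  have hl : Lnk A B C a (wp (nfw n) b0) := by
    have := hb0.map h (TOp_nfw p n)
    rwa [haF] at this
  set b := wp (nfw n) b0 with hb
  have hbF : wp (nfw n) b = b := by
    rw [hb, wp_wp]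
    congr 1
    exact wp_congr fun w => and_self_iff
  have hAda : Ad I n a := by
    rw [Ad_iff]
    intro i hi
    by_contra hcon
    exact hmax ⟨Dl i n a, Dl_full hi haF, (hl.map h (TOp_Dl p i n)).1, hcon⟩
  have hAdb : Ad I n b := by
    rw [Ad_iff]
    intro i hi
    exact (h.iff (hl.map h (TOp_Dl p i n))).1 (hAda i hi)
  obtain ⟨a', ha', haa⟩ := nf_fin hp h3 h.hI h.p2 (h.hA.le haA) haF hAda
  obtain ⟨b', hb', hbb⟩ := nf_fin hp h3 h.hI h.p2 (h.hB.le hl.2.1) hbF hAdb
  refine ⟨n, a', b', by omega, ha', hb', ?_, ?_, Ad_congr h.hI hAda haa, Ad_congr h.hI hAdb hbb⟩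
  · refine hl.congr h ?_ ?_
    · rw [← neg_sub]; exact I.neg_mem haa
    · rw [← neg_sub]; exact I.neg_mem hbb
  · intro hcon
    apply haI
    have : a = a' - (a' - a) := by abel
    rw [this]
    exact I.sub_mem hcon haa

/-- additive elements are killed by `del` -/
theorem del_of_Ad {p : ℕ} (hp : p.Prime) (h3 : 5 ≤ p) {I : Submodule ℤ P} (hI : IsT I)
    (hm : Mul ((p : ℤ) ^ 2) I) {n : ℕ} {a : P} (ha : a ∈ Q p n) (had : Ad I n a) {i : ℕ} (hi : i < n) :
    del p i n a ∈ I := by
  have hT : TOp p (wp (fun w => w.count i % (p - 1) = 0 ∧ i ∈ w)) := by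
    have h1 : wp (fun w => w.count i % (p - 1) = 0 ∧ i ∈ w) =
        (wp (fun w => w.count i % (p - 1) = 0)).comp (wp (fun w => i ∈ w)) := by
      ext f
      rw [LinearMap.comp_apply, wp_wp]
    rw [h1]
    exact (TOp_res hp (by omega) i 0 (by omega)).comp (TOp_mem p i)
  have h1 := hT I hI hm _ (Ad_iff.1 had i hi)
  rw [Dl_apply, map_sub, map_sub] at h1
  have e1 : wp (fun w => w.count i % (p - 1) = 0 ∧ i ∈ w) a = 0 := by
    rw [← Q_iff.1 ha, wp_wp]
    refine nf_wp_zero (fun w e => ?_) a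
    have h2 := e.2.2 i hi
    rw [e.1.1] at h2
    exact absurd h2 (by norm_num)
  have e2 : ∀ f : P, wp (fun w => w.count i % (p - 1) = 0 ∧ i ∈ w) (bb i n f) = 0 := by
    intro f
    refine ind_mon (C := fun f => wp (fun w => w.count i % (p - 1) = 0 ∧ i ∈ w) (bb i n f) = 0)
      (by simp) ?_ ?_ ?_ f
    · intro f g hf hg; rw [map_add, map_add, hf, hg, add_zero]
    · intro c f hf; rw [map_zsmul, map_smul, hf, smul_zero]
    · intro w
      have e3 : bb i n (mon w) = mon (w.map (fun j => if j = i then n else j)) := by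
        unfold bb
        rw [sb_mon]
        unfold mon
        rw [List.map_map]
        congr 1
        refine List.map_congr_left fun j _ => ?_
        rw [Function.comp_apply]
        by_cases h : j = i
        · rw [if_pos h, if_pos h]
        · rw [if_neg h, if_neg h]
      rw [e3]
      refine wp_neg fun e => ?_
      obtain ⟨j, _, hj⟩ := List.mem_map.1 e.2
      by_cases h : j = i
      · rw [if_pos h] at hj
        omega
      · rw [if_neg h] at hj
        exact h hj
  rw [e1, e2, sub_zero, sub_zero] at h1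
  exact h1

end ADC
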