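import Pool.Agent.ADC.PairP
import Pool.Agent.ADC.Nf
import Pool.Agent.ADC.Cs
import Pool.Agent.ADC.Opp
import Pool.Agent.ADC.NEx
import Pool.Agent.ADC.Z7

/-!
# ADC-NoP

Exponent `p`.  `Lk p I A B C`, `Mul p I`, `X 0 ∉ I`, `p ≥ 5` prime, `Tame p I α β`, `Grs p I`.  So `Bas p I`.

1. Reduction to `p ∤ α`: if `p ∣ α` then `p ∤ β` (`Tame.ab`), and for the opposite T-ideals `Tame p (op I) β α` (`Tame_op`), `Lk_op`, `Mul_op`; apply
   the result for `op I`; there `p ∤ β`, `p ∣ α`: only the type `(1,0)` occurs, for which `Grs` is not needed: `NoP1` is stated with the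
   hypothesis `Typ p I ∧ Red p I`, which for `op I` follows from `Tame.scale` (`Tame p (op I) 1 0`), `GenZ`, `Z6b`, `Z_Red`.
2. `NoP1`: `Lk`, `Bas p I`, `Typ p I`, `Red p I`.  Normal form `nf`: `n ≥ 1`, linked `a, b ∈ Q p n`, `a ∉ I`, additive; by `del_of_Ad` the elements
   `del p i n a`, `del p i n b` are in `I`.
   `n ≥ 3`: `Red.three`: `a ≡ a'`, `b ≡ b'` modulo `I`, `a', b' ∈ Ml n`; `Lnk.congr`; `Pr p I I A B C n 1 a' b' a'` (`pJ`, `qJ`, `ex` trivial: for
   `f ∈ Ml n ∩ I` take `g = 0`): `pairP`.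
   `n = 1`: `a`, `b` are combinations of powers of `x = X 0`.  `one_low`-type argument: for a T-ideal `D ⊇ p Pp`, nilpotent, and a polynomial
   `g(x) = ∑_{e ≥ d} c_e x^e`, `p ∤ c_d`, in `D`: `x^d ∈ D` (`one_low`, ADC.NEx; `A`, `B` are also situations `Bas` unless `X 0 ∈ A`, in which case
   `A = Pp ≥ B` and `B ≤ A ⊓ B ≤ I`, `b ∈ I`, contradiction; same for `B`).  Let `d` be the least exponent with `p ∤ c_d` for `a` (it exists as `a ∉ I`),
   `d'` for `b`.  Say `d ≤ d'`: `x^d ∈ A`, so `b ∈ A` (`b ≡ ∑_{e ≥ d'}`, multiples of `x^d`, modulo `p Pp`), `b ∈ A ⊓ B ≤ I`.  Otherwise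
   `a ∈ A ⊓ B ≤ I`.  Contradiction.
   `n = 2`: by `Red.two` we may assume `a = α xy + β yx + γ x^p y`, `b = α' xy + β' yx + γ' x^p y` (`Lnk.congr`).  Let `τ = rn 2 (swap 0 1)`; `τ (x^p y) = y^p x ≡
   x^p y` (`Red.sym`).  `a - τ a ≡ (α - β)(xy - yx)`, same for `b`: `Lk.np`: `a - τ a ∈ I`.  So (as `2 a = (a + τ a) + (a - τ a)`)
   `a + τ a ≡ α₁ (xy + yx) + 2γ x^p y ∉ I`, `b + τ b ≡ α₁' (xy + yx) + 2γ' x^p y`.  If `p ∣ α₁` and `p ∣ α₁'`: both in `I ⊔ ℤ x^p y`:
   `Lk.np`, contradiction.  If `p ∤ α₁`: put `y = x` in `a + τ a ∈ A`: `2 α₁ x² + 2 γ x^(p+1) ∈ A`, so `x² ∈ A` (`one_low`, or `A = Pp`), hence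
   `xy + yx ∈ A` (linearise) and `x^p y = x² (x^(p-2) y) ∈ A`: `b + τ b ∈ A ⊓ B ≤ I`, contradiction to `a + τ a ∉ I` (`Lk.iff`).  If `p ∤ α₁'`: symmetric.
-/

namespace ADC

open AD ADN

/-! ### `n = 1` -/

private noncomputable def np_V (I : Submodule ℤ P) (d : ℕ) : Submodule ℤ P :=
  I ⊔ Submodule.span ℤ {f | ∃ e, d ≤ e ∧ f = X 0 ^ e}

private theorem np_pow {e : ℕ} (he : 1 ≤ e) : (X 0 : P) ^ e ∈ Pp := by
  obtain ⟨e', rfl⟩ : ∃ e', e = e' + 1 := ⟨e - 1, by omega⟩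
  rw [pow_succ]
  exact Pp_mul_left _ (X_mem 0)

private theorem np_pow_le {A : Submodule ℤ P} (hA : IsT A) {d e : ℕ} (hde : d ≤ e) (h : X 0 ^ d ∈ A) :
    (X 0 : P) ^ e ∈ A := by
  have h1 : (X 0 : P) ^ e = X 0 ^ d * X 0 ^ (e - d) := by
    rw [← pow_add]
    congr 1
    omega
  rw [h1]
  exact hA.mul_right _ h _

/-- splitting off the lowest power -/
private theorem np_split {f : P} {d : ℕ} (hf : f ∈ Submodule.span ℤ {f : P | ∃ e, d ≤ e ∧ f = X 0 ^ e}) :
    ∃ (c : ℤ) (r : P), r ∈ Submodule.span ℤ {f : P | ∃ e, d < e ∧ f = X 0 ^ e} ∧ f = c • X 0 ^ d + r := by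
  induction hf using Submodule.span_induction with
  | mem x hx =>
    obtain ⟨e, he, rfl⟩ := hx
    rcases lt_or_eq_of_le he with h | h
    · exact ⟨0, X 0 ^ e, Submodule.subset_span ⟨e, h, rfl⟩, by rw [zero_smul, zero_add]⟩
    · exact ⟨1, 0, Submodule.zero_mem _, by rw [h, one_smul, add_zero]⟩
  | zero => exact ⟨0, 0, Submodule.zero_mem _, by rw [zero_smul, zero_add]⟩
  | add x y _ _ hx hy =>
    obtain ⟨c, r, hr, rfl⟩ := hx
    obtain ⟨c', r', hr', rfl⟩ := hy
    refine ⟨c + c', r + r', Submodule.add_mem _ hr hr', ?_⟩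
    rw [add_smul]
    abel
  | smul k x _ hx =>
    obtain ⟨c, r, hr, rfl⟩ := hx
    refine ⟨k * c, k • r, Submodule.smul_mem _ _ hr, ?_⟩
    rw [smul_add, smul_smul]

private theorem np_lev {p : ℕ} {I : Submodule ℤ P} (hb : Bas p I) {a : P} (h1 : a ∈ np_V I 1) (h2 : a ∉ I) :
    ∃ d, 1 ≤ d ∧ a ∈ np_V I d ∧ a ∉ np_V I (d + 1) := by
  obtain ⟨N, hN⟩ := hb.nil
  by_contra hne
  push Not at hne
  have key : ∀ k, a ∈ np_V I (1 + k) := by
    intro k
    induction k with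
    | zero => exact h1
    | succ k ih => exact hne (1 + k) (by omega) ih
  refine h2 ((sup_le le_rfl ?_ : np_V I (1 + N) ≤ I) (key N))
  rw [Submodule.span_le]
  rintro f ⟨e, he, rfl⟩
  have h3 : (X 0 : P) ^ e = mon (List.replicate e 0) := by
    unfold mon
    rw [List.map_replicate, List.prod_replicate]
  rw [h3]
  exact hN _ (by rw [List.length_replicate]; omega)

private theorem np_one {p : ℕ} {I A B C : Submodule ℤ P} (h : Lk p I A B C) (hb : Bas p I) {a b : P} {d : ℕ}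
    (hd : 1 ≤ d) (ha : a ∈ A) (hB : b ∈ B) (h1 : a ∈ np_V I d) (h2 : a ∉ np_V I (d + 1)) (h3 : b ∈ np_V I d) :
    b ∈ I := by
  have h4 : X 0 ^ d ∈ A := by
    by_cases h0 : X 0 ∈ A
    · have h5 : (X 0 : P) ^ 1 ∈ A := by rw [pow_one]; exact h0
      exact np_pow_le h.hA hd h5
    · have hA : Bas p A :=
        { pp := hb.pp
          five := hb.five
          isT := h.hA
          mul := hb.mul.mono h.IA
          nil := by
            obtain ⟨N, hN⟩ := hb.nil
            exact ⟨N, fun w hw => h.IA (hN w hw)⟩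
          ne := h0 }
      obtain ⟨i, hi, s, hs, e⟩ := Submodule.mem_sup.1 h1
      obtain ⟨c, r, hr, rfl⟩ := np_split hs
      refine one_low hA (c := c) ?_ hd hr ?_
      · rintro ⟨k, rfl⟩
        refine h2 ?_
        rw [← e, ← add_assoc]
        refine Submodule.add_mem _ (Submodule.mem_sup_left (I.add_mem hi ?_)) (Submodule.mem_sup_right ?_)
        · rw [mul_smul]
          exact hb.mul _ (Pp.smul_mem _ (np_pow hd))
        · exact hr
      · have h6 : c • X 0 ^ d + r = a - i := by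
          rw [← e]
          abel
        rw [h6]
        exact A.sub_mem ha (h.IA hi)
  have h5 : np_V I d ≤ A := by
    refine sup_le h.IA ?_
    rw [Submodule.span_le]
    rintro f ⟨e, he, rfl⟩
    exact np_pow_le h.hA he h4
  exact h.AB ⟨h5 h3, hB⟩

private theorem np_Q1 {p : ℕ} {I : Submodule ℤ P} {a : P} (ha : a ∈ Q p 1) : a ∈ np_V I 1 := by
  refine Submodule.mem_sup_right ((Submodule.span_le.2 ?_ : Q p 1 ≤ _) ha)
  rintro f ⟨w, hw, rfl⟩
  have h1 : w = List.replicate w.length 0 := by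
    rw [List.eq_replicate_iff]
    exact ⟨rfl, fun b hb => by have := hw.1 b hb; omega⟩
  refine Submodule.subset_span ⟨w.length, ?_, ?_⟩
  · by_contra h2
    have h3 : w = [] := List.eq_nil_of_length_eq_zero (by omega)
    have h4 := hw.2 0 (by omega)
    rw [h3, List.count_nil, Nat.zero_mod] at h4
    omega
  · rw [h1]
    unfold mon
    rw [List.map_replicate, List.prod_replicate, List.length_replicate]

/-! ### `n = 2` -/

private noncomputable def np_E (p : ℕ) (m g : ℤ) : P :=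
  m • (X 0 * X 1 + X 1 * X 0) + g • (X 0 ^ p * X 1 + X 1 ^ p * X 0)

private theorem np_E_mem {p : ℕ} (h5 : 5 ≤ p) {A : Submodule ℤ P} (hA : IsT A) (h : X 0 ^ 2 ∈ A) (m g : ℤ) :
    np_E p m g ∈ A := by
  have hs : ∀ f ∈ Pp, f ^ 2 ∈ A := by
    intro f hf
    have h1 := sb_mem hA (φ := fun _ => f) (fun _ => hf) h
    rw [map_pow, sb_X] at h1
    exact h1
  have h1 : X 0 * X 1 + X 1 * X 0 ∈ A := by
    have h2 := A.sub_mem (A.sub_mem (hs _ (Pp.add_mem (X_mem 0) (X_mem 1))) (hs _ (X_mem 0))) (hs _ (X_mem 1))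
    refine (congrArg (fun f => f ∈ A) ?_).mp h2
    noncomm_ring
  have h3 : ∀ i j, X i ^ p * X j ∈ A := by
    intro i j
    have h4 : X i ^ p = X i ^ 2 * X i ^ (p - 2) := by
      rw [← pow_add]
      congr 1
      omega
    rw [h4]
    exact hA.mul_right _ (hA.mul_right _ (hs _ (X_mem i)) _) _
  exact A.add_mem (A.smul_mem _ h1) (A.smul_mem _ (A.add_mem (h3 0 1) (h3 1 0)))

private theorem np_sq {p : ℕ} {I A : Submodule ℤ P} (hb : Bas p I) (hA : IsT A) (hIA : I ≤ A) {m g : ℤ}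
    (hm : ¬ (p : ℤ) ∣ m) (h : np_E p m g ∈ A) : X 0 ^ 2 ∈ A := by
  by_cases h0 : X 0 ∈ A
  · rw [pow_two]
    exact hA.mul_right _ h0 _
  · have hB : Bas p A :=
      { pp := hb.pp
        five := hb.five
        isT := hA
        mul := hb.mul.mono hIA
        nil := by
          obtain ⟨N, hN⟩ := hb.nil
          exact ⟨N, fun w hw => hIA (hN w hw)⟩
        ne := h0 }
    have h5 := hb.five
    have h1 := sb_mem hA (φ := fun _ => X 0) (fun _ => X_mem 0) h
    have h2 : sb (fun _ => X 0) (np_E p m g) = (2 * m) • X 0 ^ 2 + (2 * g) • X 0 ^ (p + 1) := by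
      unfold np_E
      rw [map_add, map_zsmul, map_zsmul]
      simp only [map_add, map_mul, map_pow, sb_X]
      rw [← pow_two, ← pow_succ, mul_comm (2 : ℤ) m, mul_comm (2 : ℤ) g, mul_smul, mul_smul, two_smul, two_smul]
    rw [h2] at h1
    refine one_low hB (c := 2 * m) ?_ (by norm_num) (Submodule.smul_mem _ _ (Submodule.subset_span ⟨p + 1, by omega, rfl⟩)) h1
    intro h3
    rcases (Nat.prime_iff_prime_int.1 hb.pp).dvd_or_dvd h3 with h4 | h4
    · have := Int.le_of_dvd (by norm_num) h4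
      omega
    · exact hm h4

private theorem np_tau : rn 2 (Equiv.swap 0 1) (X 0) = X 1 ∧ rn 2 (Equiv.swap 0 1) (X 1) = X 0 := by
  constructor
  · rw [rn_X, dif_pos (by norm_num)]
    rfl
  · rw [rn_X, dif_pos (by norm_num)]
    rfl

/-- what is needed about a polynomial -/
private theorem np_two {p : ℕ} {I : Submodule ℤ P} (hb : Bas p I) (hR : Red p I) {a : P} (ha : a ∈ Q p 2)
    (hd : ∀ i < 2, del p i 2 a ∈ I) :
    a - tl (rn 2 (Equiv.swap 0 1)) a ∈ I ⊔ Submodule.span ℤ {cm 0 1} ∧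
      ∃ m g : ℤ, (a + tl (rn 2 (Equiv.swap 0 1)) a) - np_E p m g ∈ I := by
  have hT : TOp p (tl (rn 2 (Equiv.swap 0 1))) := TOp_rn p 2 _
  obtain ⟨i, hi, s, hs, rfl⟩ := Submodule.mem_sup.1 (hR.two a ha hd)
  rw [Submodule.mem_span_triple] at hs
  obtain ⟨α, β, γ, rfl⟩ := hs
  have hti : tl (rn 2 (Equiv.swap 0 1)) i ∈ I := hT I hb.isT hb.mul.sq i hi
  have e1 : tl (rn 2 (Equiv.swap 0 1)) (α • (X 0 * X 1) + β • (X 1 * X 0) + γ • (X 0 ^ p * X 1)) =
      α • (X 1 * X 0) + β • (X 0 * X 1) + γ • (X 1 ^ p * X 0) := by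
    rw [map_add, map_add, map_smul, map_smul, map_smul]
    simp only [tl_apply, map_mul, map_pow, np_tau.1, np_tau.2]
  rw [map_add, e1]
  constructor
  · have e2 : (i + (α • (X 0 * X 1) + β • (X 1 * X 0) + γ • (X 0 ^ p * X 1))) -
        (tl (rn 2 (Equiv.swap 0 1)) i + (α • (X 1 * X 0) + β • (X 0 * X 1) + γ • (X 1 ^ p * X 0))) =
        ((i - tl (rn 2 (Equiv.swap 0 1)) i) + γ • (X 0 ^ p * X 1 - X 1 ^ p * X 0)) + (α - β) • cm 0 1 := by
      unfold cm
      module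
    rw [e2]
    exact Submodule.add_mem _ (Submodule.mem_sup_left (I.add_mem (I.sub_mem hi hti) (I.smul_mem _ hR.sym)))
      (Submodule.mem_sup_right (Submodule.smul_mem _ _ (Submodule.mem_span_singleton_self _)))
  · refine ⟨α + β, γ, ?_⟩
    have e2 : ((i + (α • (X 0 * X 1) + β • (X 1 * X 0) + γ • (X 0 ^ p * X 1))) +
        (tl (rn 2 (Equiv.swap 0 1)) i + (α • (X 1 * X 0) + β • (X 0 * X 1) + γ • (X 1 ^ p * X 0)))) - np_E p (α + β) γ =
        i + tl (rn 2 (Equiv.swap 0 1)) i := by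
      unfold np_E
      module
    rw [e2]
    exact I.add_mem hi hti

private theorem np_E_span {p : ℕ} {I : Submodule ℤ P} (hb : Bas p I) (hR : Red p I) {m g : ℤ} (hm : (p : ℤ) ∣ m)
    {a : P} (ha : a - np_E p m g ∈ I) : a ∈ I ⊔ Submodule.span ℤ {X 0 ^ p * X 1} := by
  obtain ⟨k, rfl⟩ := hm
  have e : a = (((a - np_E p (p * k) g) + (p : ℤ) • (k • (X 0 * X 1 + X 1 * X 0))) -
      g • (X 0 ^ p * X 1 - X 1 ^ p * X 0)) + (2 * g) • (X 0 ^ p * X 1) := by
    unfold np_E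
    module
  rw [e]
  refine Submodule.add_mem _ (Submodule.mem_sup_left (I.sub_mem (I.add_mem ha ?_) (I.smul_mem _ hR.sym)))
    (Submodule.mem_sup_right (Submodule.smul_mem _ _ (Submodule.mem_span_singleton_self _)))
  exact hb.mul _ (Pp.smul_mem _ (Pp.add_mem (Pp_mul_left _ (X_mem 1)) (Pp_mul_left _ (X_mem 0))))

private theorem np_fin {p : ℕ} {I A B C : Submodule ℤ P} (h : Lk p I A B C) (hb : Bas p I)
    {a b : P} (hl : Lnk A B C a b) {m g m' g' : ℤ} (hm : ¬ (p : ℤ) ∣ m) (ha : a - np_E p m g ∈ I)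
    (hb' : b - np_E p m' g' ∈ I) : b ∈ I := by
  have h1 : np_E p m g ∈ A := by
    have e : np_E p m g = a - (a - np_E p m g) := by abel
    rw [e]
    exact A.sub_mem hl.1 (h.IA ha)
  have h2 := np_sq hb h.hA h.IA hm h1
  have h3 : b ∈ A := by
    have e : b = (b - np_E p m' g') + np_E p m' g' := by abel
    rw [e]
    exact A.add_mem (h.IA hb') (np_E_mem hb.five h.hA h2 _ _)
  exact h.AB ⟨h3, hl.2.1⟩

theorem NoP1 {p : ℕ} {I A B C : Submodule ℤ P} (h : Lk p I A B C) (hb : Bas p I) (hT : Typ p I) (hR : Red p I) :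
    False := by
  have h5 := hb.five
  obtain ⟨n, a, b, hn, ha, hbQ, hl, haI, hAa, hAb⟩ := nf hb.pp (by omega) h
  have hda : ∀ i < n, del p i n a ∈ I := fun i hi => del_of_Ad hb.pp h5 hb.isT hb.mul.sq ha hAa hi
  have hdb : ∀ i < n, del p i n b ∈ I := fun i hi => del_of_Ad hb.pp h5 hb.isT hb.mul.sq hbQ hAb hi
  rcases lt_or_ge n 3 with hn3 | hn3
  · have hn12 : n = 1 ∨ n = 2 := by omega
    rcases hn12 with rfl | rfl
    · have hbI : b ∉ I := fun hbI => haI ((h.iff hl).2 hbI)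
      have a1 := np_Q1 (I := I) ha
      have b1 := np_Q1 (I := I) hbQ
      obtain ⟨d, hd, d1, d2⟩ := np_lev hb a1 haI
      obtain ⟨d', hd', d1', d2'⟩ := np_lev hb b1 hbI
      have mono : ∀ {d e : ℕ}, d ≤ e → np_V I e ≤ np_V I d := by
        intro d e hde
        refine sup_le_sup_left (Submodule.span_mono ?_) I
        rintro f ⟨k, hk, rfl⟩
        exact ⟨k, hde.trans hk, rfl⟩
      rcases le_total d d' with hdd | hdd
      · exact hbI (np_one h hb hd hl.1 hl.2.1 d1 d2 (mono hdd d1'))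
      · exact haI (np_one h.symm hb hd' hl.2.1 hl.1 d1' d2' (mono hdd d1))
    · obtain ⟨a1, m, g, a2⟩ := np_two hb hR ha hda
      obtain ⟨b1, m', g', b2⟩ := np_two hb hR hbQ hdb
      have hTτ : TOp p (tl (rn 2 (Equiv.swap 0 1))) := TOp_rn p 2 _
      have l1 := hl.map h ((TOp.id' p).sub hTτ)
      have l2 := hl.map h ((TOp.id' p).add hTτ)
      have e1 : ∀ f : P, (LinearMap.id - tl (rn 2 (Equiv.swap 0 1)) : P →ₗ[ℤ] P) f =
        f - tl (rn 2 (Equiv.swap 0 1)) f := fun f => rfl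
      have e2 : ∀ f : P, (LinearMap.id + tl (rn 2 (Equiv.swap 0 1)) : P →ₗ[ℤ] P) f =
        f + tl (rn 2 (Equiv.swap 0 1)) f := fun f => rfl
      rw [e1, e1] at l1
      rw [e2, e2] at l2
      have c1 := h.np hb.pp l1 (cm_mem 0 1) a1 b1
      have haP : a ∈ Pp := h.hA.le hl.1
      have c2 : a + tl (rn 2 (Equiv.swap 0 1)) a ∉ I := by
        intro c3
        refine haI (cancel hb.pp hb.mul.sq (c := 2) ?_ haP ?_)
        · intro c4
          have := Int.le_of_dvd (by norm_num) c4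
          omega
        · have c4 := I.add_mem c3 c1
          refine (congrArg (fun f => f ∈ I) ?_).mp c4
          rw [two_smul]
          abel
      have c3 : b + tl (rn 2 (Equiv.swap 0 1)) b ∉ I := fun c4 => c2 ((h.iff l2).2 c4)
      by_cases hm : (p : ℤ) ∣ m
      · by_cases hm' : (p : ℤ) ∣ m'
        · refine c2 (h.np hb.pp l2 (Y := X 0 ^ p * X 1) (Pp_mul_left _ (X_mem 1)) ?_ ?_)
          · exact np_E_span hb hR hm a2
          · exact np_E_span hb hR hm' b2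
        · exact c2 (np_fin h.symm hb l2.symm hm' b2 a2)
      · exact c3 (np_fin h hb l2 hm a2 b2)
  · obtain ⟨i, hi, a', ha', e1⟩ := Submodule.mem_sup.1 (hR.three n hn3 a ha hda)
    obtain ⟨i', hi', b', hb', e2⟩ := Submodule.mem_sup.1 (hR.three n hn3 b hbQ hdb)
    have f1 : a - a' ∈ I := by
      rw [← e1, add_sub_cancel_right]
      exact hi
    have f2 : b - b' ∈ I := by
      rw [← e2, add_sub_cancel_right]
      exact hi'
    refine pairP (I := I) (A := A) (B := B) (C := C) (n := n) (q := 1) (a := a') (b := b') (t := a') ?_ hT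
    exact
      { toLk := h
        bJ := hb
        IJ := le_rfl
        pJ := fun f hf => I.smul_mem _ hf
        qJ := fun f hf => I.smul_mem _ hf
        ex := fun f _ hfI => ⟨0, Submodule.zero_mem _, by rw [smul_zero, sub_zero]; exact hfI⟩
        ha := ha'
        hb := hb'
        hh := ha'
        lk := hl.congr h f1 f2
        aq := by rw [one_smul, sub_self]; exact I.zero_mem
        na := fun h' => haI (by rw [← e1]; exact I.add_mem hi h') }

theorem noP {p : ℕ} {I A B C : Submodule ℤ P} (h : Lk p I A B C) (hb : Bas p I) {α β : ℤ} (hT : Tame p I α β)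
    (hg : Grs p I) : False := by
  by_cases hα : (p : ℤ) ∣ α
  · have hβ : ¬ (p : ℤ) ∣ β := fun hβ => hT.ab ⟨hα, hβ⟩
    have hT' : Tame p (op I) 1 0 := by
      refine (Tame_op hT).scale hβ ?_ ?_
      · rw [mul_one, sub_self]
        exact dvd_zero _
      · rw [mul_zero, sub_zero]
        exact hα
    exact NoP1 (Lk_op h) (Bas_op hb) (Or.inr (Or.inr (Or.inl ⟨Z6b hT', GenZ hT'⟩))) (Z_Red hT')
  · obtain ⟨h1, h2⟩ := typ_of hT hα hg
    exact NoP1 h hb h1 h2

end ADC
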