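import Pool.Agent.ADC.Core1
import Pool.Agent.ADC.Core3
import Pool.Agent.ADC.Core4M
import Pool.Agent.ADC.CoreZ
import Pool.Agent.ADC.CoreOlt
import Pool.Agent.ADC.CoreOp
import Pool.Agent.ADC.CoreOs
import Pool.Agent.ADC.CoreEv
import Pool.Agent.ADC.GenO

/-!
# ADC-PairP

No linked pairs of multilinear polynomials in exponent `p` (`J = I`).  Cases of `Typ p I` (Defs) and of `n`:

* `n = 1`, `n = 2`: `core1`, `core2`.  From now on `n ≥ 3`.
* first type: `n = 3`: `core3`; `n ≥ 4`: `coreC` (`Cn n ≤ Cn 4 ≤ I`).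
* second type: `n = 3`: `core3` with `(1,1)`; `n = 4`: `core4M`; `n ≥ 5`: `coreC`.
* third type: `n = 3`: `core3` with `(1,0)`; `n ≥ 4`: `coreZ` with `J = I`.
* fourth type (`ll ∈ I` and `κ`'s by `kap_of`): `n < p`: `coreOlt`; `n = p`: `det_p` gives `σ`, `j`; `j` odd (then `j + 2 ≤ p` as `p` is
  odd): `coreOodd` with the identity from `Grs0`; `j` even: `coreEvP`; `n = p + 1`: `coreOs`; `n ≥ p + 2`: `coreC`.
-/

namespace ADC

open AD ADN

theorem pairP {p : ℕ} {I A B C : Submodule ℤ P} {n : ℕ} {q : ℤ} {a b t : P}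
    (h : Pr p I I A B C n q a b t) (hT : Typ p I) : False := by
  have hp := h.bJ.pp
  have h5 := h.bJ.five
  have hpos := h.pos
  have hodd : p % 2 = 1 := by
    rcases hp.eq_two_or_odd with h2 | h2
    · omega
    · exact h2
  have hn1 : ¬ ((p : ℤ) ∣ 1) := by
    intro h1
    have := Int.le_of_dvd (by norm_num) h1
    omega
  by_cases h1 : n = 1
  · subst h1
    exact core1 h
  by_cases h2 : n = 2
  · subst h2
    exact core2 h
  rcases hT with ⟨α, β, hab, hk, hC⟩ | ⟨hk, hC⟩ | ⟨hk, hD⟩ | ⟨hk, hC, hG⟩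
  · by_cases h3 : n = 3
    · subst h3
      exact core3 h hab hk
    · exact coreC h ((Cn_anti (by omega)).trans hC)
  · by_cases h3 : n = 3
    · subst h3
      exact core3 h (fun h4 => hn1 h4.1) hk
    by_cases h4 : n = 4
    · subst h4
      exact core4M h hk
    · exact coreC h ((Cn_anti (by omega)).trans hC)
  · by_cases h3 : n = 3
    · subst h3
      exact core3 h (fun h4 => hn1 h4.1) hk
    · exact coreZ h (by omega) hD (Or.inl rfl)
  · obtain ⟨hl, hkap⟩ := kap_of h.bJ hk hG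
    rcases lt_trichotomy n p with h3 | h3 | h3
    · exact coreOlt h h3 hl
    · subst h3
      obtain ⟨σ, j, hj1, hj2, hj⟩ := det_p h hl
      rcases Nat.mod_two_eq_zero_or_one j with h4 | h4
      · exact hj (coreEvP h h.bJ.mul hl h4 hj1 hj2 σ)
      · obtain ⟨f, hf, hfI, hn⟩ := hG j h4 (by omega)
        exact hj (coreOodd h hl hj1 hj2 hf hfI hn σ)
    · by_cases h4 : n = p + 1
      · subst h4
        exact coreOs h hl hkap
      · exact coreC h ((Cn_anti (by omega)).trans hC)

end ADC
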