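import Pool.Agent.ADC.Qred
import Pool.Agent.ADC.Rg
import Pool.Agent.ADC.TOpW
import Pool.Agent.ADC.Cnc

/-!
# ADC-QNm: non-multilinear words in `I`
-/

namespace ADC

open AD ADN

private theorem qn_two {p : ℕ} (hp : p.Prime) (h5 : 5 ≤ p) {I : Submodule ℤ P} (hI : IsT I)
    (h2 : Mul ((p : ℤ) ^ 2) I) (hl : ll ∈ I) {x y z : P} (hx : x ∈ Pp) (hy : y ∈ Pp) (hz : z ∈ Pp) :
    (x * y - y * x) * (y * z - z * y) ∈ I := by
  have hyz : y * z - z * y ∈ Pp := Pp.sub_mem (Pp_mul_left _ hz) (Pp_mul_left _ hy)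
  have h1 := ll_subst hI hl hx (Pp_mul_left y hy) hz
  have hc := ll_subst hI hl hx hy hz
  have hd := ll_subst hI hl hx hy hyz
  have h3 : (2 : ℤ) • ((x * y - y * x) * (y * z - z * y)) ∈ I := by
    have e : (2 : ℤ) • ((x * y - y * x) * (y * z - z * y)) =
        ((x * (y * y) - y * y * x) * z - z * (x * (y * y) - y * y * x)) -
          ((x * y - y * x) * z - z * (x * y - y * x)) * y -
          y * ((x * y - y * x) * z - z * (x * y - y * x)) +
          ((x * y - y * x) * (y * z - z * y) - (y * z - z * y) * (x * y - y * x)) := by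
      noncomm_ring
    rw [e]
    exact I.add_mem (I.sub_mem (I.sub_mem h1 (hI.mul_right _ hc _)) (hI.mul_left _ hc _)) hd
  refine cancel hp h2 (c := 2) ?_ (Pp_mul_left _ hyz) h3
  intro h6
  have h7 := Int.le_of_dvd (by norm_num) h6
  omega

private theorem qn_cm {p : ℕ} (hp : p.Prime) (h5 : 5 ≤ p) {I : Submodule ℤ P} (hI : IsT I)
    (h2 : Mul ((p : ℤ) ^ 2) I) (hl : ll ∈ I) (t s x : ℕ) : cm t x * cm s x ∈ I := by
  have h := qn_two hp h5 hI h2 hl (X_mem t) (X_mem x) (X_mem s)
  have e : cm t x * cm s x = -((X t * X x - X x * X t) * (X x * X s - X s * X x)) := by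
    unfold cm
    noncomm_ring
  rw [e]
  exact I.neg_mem h

/-- modulo `I` and the products of a commutator `[x_t, x_x]` and a word -/
private noncomputable def qnS (I : Submodule ℤ P) (x : ℕ) (v : List ℕ) : Submodule ℤ P :=
  I ⊔ Submodule.span ℤ {f | ∃ (t : ℕ) (v' : List ℕ), (t :: x :: v').Perm v ∧ f = cm t x * mon v'}

private theorem qn_perm {I : Submodule ℤ P} {x : ℕ} {v w : List ℕ} (h : v.Perm w) :
    qnS I x v ≤ qnS I x w := by
  refine sup_le_sup_left (Submodule.span_mono ?_) I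
  rintro f ⟨t, v', hv, rfl⟩
  exact ⟨t, v', hv.trans h, rfl⟩

private theorem qn_left {I : Submodule ℤ P} (hI : IsT I) (hl : ll ∈ I) {x : ℕ} (a : ℕ) {v : List ℕ}
    {g : P} (hg : g ∈ qnS I x v) : X a * g ∈ qnS I x (a :: v) := by
  obtain ⟨i, hi, s, hs, rfl⟩ := Submodule.mem_sup.1 hg
  rw [mul_add]
  refine Submodule.add_mem _ (Submodule.mem_sup_left (hI.mul_left _ hi _)) ?_
  clear hg
  induction hs using Submodule.span_induction with
  | mem f hf =>
    obtain ⟨t, v', hv, rfl⟩ := hf
    have h1 := ll_subst hI hl (X_mem t) (X_mem x) (X_mem a)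
    have e : X a * (cm t x * mon v') = cm t x * mon (a :: v') -
        ((X t * X x - X x * X t) * X a - X a * (X t * X x - X x * X t)) * mon v' := by
      rw [mon_cons]
      unfold cm
      noncomm_ring
    rw [e]
    refine Submodule.sub_mem _ (Submodule.mem_sup_right (Submodule.subset_span
      ⟨t, a :: v', ?_, rfl⟩)) (Submodule.mem_sup_left (hI.mul_right _ h1 _))
    exact ((List.Perm.swap a x v').cons t).trans ((List.Perm.swap a t (x :: v')).trans (hv.cons a))
  | zero => rw [mul_zero]; exact Submodule.zero_mem _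
  | add f g _ _ hf hg => rw [mul_add]; exact Submodule.add_mem _ hf hg
  | smul c f _ hf => rw [mul_smul_comm]; exact Submodule.smul_mem _ _ hf

private theorem qn_kill {p : ℕ} (hp : p.Prime) (h5 : 5 ≤ p) {I : Submodule ℤ P} (hI : IsT I)
    (h2 : Mul ((p : ℤ) ^ 2) I) (hl : ll ∈ I) {x : ℕ} (t : ℕ) {v : List ℕ}
    {g : P} (hg : g ∈ qnS I x v) : cm t x * g ∈ I := by
  obtain ⟨i, hi, s, hs, rfl⟩ := Submodule.mem_sup.1 hg
  rw [mul_add]
  refine I.add_mem (hI.mul_left _ hi _) ?_
  clear hg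
  induction hs using Submodule.span_induction with
  | mem f hf =>
    obtain ⟨s, v', hv, rfl⟩ := hf
    rw [← mul_assoc]
    exact hI.mul_right _ (qn_cm hp h5 hI h2 hl t s x) _
  | zero => rw [mul_zero]; exact I.zero_mem
  | add f g _ _ hf hg => rw [mul_add]; exact I.add_mem hf hg
  | smul c f _ hf => rw [mul_smul_comm]; exact I.smul_mem _ hf

private theorem qn_b1 {I : Submodule ℤ P} (hI : IsT I) (hl : ll ∈ I) (x : ℕ) (v : List ℕ)
    (hx : x ∈ v) : ∃ u : List ℕ, v.Perm (x :: u) ∧ mon v - mon (x :: u) ∈ qnS I x v := by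
  induction v with
  | nil => simp at hx
  | cons a v ih =>
    by_cases hax : a = x
    · refine ⟨v, by rw [hax], ?_⟩
      rw [hax, sub_self]
      exact Submodule.zero_mem _
    · have hxv : x ∈ v := by
        rcases List.mem_cons.1 hx with h | h
        · exact absurd h.symm hax
        · exact h
      obtain ⟨u, hu, hg⟩ := ih hxv
      refine ⟨a :: u, (hu.cons a).trans (List.Perm.swap x a u), ?_⟩
      have e : mon (a :: v) - mon (x :: a :: u) = X a * (mon v - mon (x :: u)) + cm a x * mon u := by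
        simp only [mon_cons]
        unfold cm
        noncomm_ring
      rw [e]
      exact Submodule.add_mem _ (qn_left hI hl a hg) (Submodule.mem_sup_right (Submodule.subset_span
        ⟨a, u, (hu.symm.cons a), rfl⟩))

private theorem qn_b2 {I : Submodule ℤ P} (hI : IsT I) (hl : ll ∈ I) (x : ℕ) (k : ℕ) :
    ∀ v : List ℕ, k ≤ v.count x → ∃ u : List ℕ, v.Perm (List.replicate k x ++ u) ∧
      mon v - mon (List.replicate k x ++ u) ∈ qnS I x v := by
  induction k with
  | zero =>
    intro v _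
    refine ⟨v, List.Perm.refl _, ?_⟩
    rw [List.replicate_zero, List.nil_append, sub_self]
    exact Submodule.zero_mem _
  | succ k ih =>
    intro v hv
    have hxv : x ∈ v := List.count_pos_iff.1 (by omega)
    obtain ⟨u0, hu0, hg0⟩ := qn_b1 hI hl x v hxv
    have hc := hu0.count_eq x
    rw [List.count_cons_self] at hc
    obtain ⟨u, hu, hg⟩ := ih u0 (by omega)
    refine ⟨u, hu0.trans (hu.cons x), ?_⟩
    have e : mon v - mon (List.replicate (k + 1) x ++ u) = (mon v - mon (x :: u0)) +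
        X x * (mon u0 - mon (List.replicate k x ++ u)) := by
      rw [List.replicate_succ, List.cons_append, mon_cons x, mon_cons x, mul_sub]
      abel
    rw [e]
    exact Submodule.add_mem _ hg0 (qn_perm hu0.symm (qn_left hI hl x hg))

private theorem qn_rep (p i : ℕ) : mon (List.replicate p i) = X i ^ p := by
  unfold mon
  rw [List.map_replicate, List.prod_replicate]

private theorem qn_A {p : ℕ} (hp : p.Prime) (h5 : 5 ≤ p) {I : Submodule ℤ P} (hI : IsT I)
    (h2 : Mul ((p : ℤ) ^ 2) I) (hl : ll ∈ I) (hx : X 0 ^ p ∈ I) {x : ℕ} {w : List ℕ}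
    (hw : p ≤ w.count x) :
    mon w ∈ I ⊔ Submodule.span ℤ {f | ∃ (t : ℕ) (u : List ℕ),
      (t :: x :: (List.replicate (p - 1) x ++ u)).Perm w ∧ f = cm t x * (X x ^ (p - 1) * mon u)} := by
  obtain ⟨u, -, hg⟩ := qn_b2 hI hl x p w hw
  have e : mon w = mon (List.replicate p x ++ u) + (mon w - mon (List.replicate p x ++ u)) := by abel
  rw [e]
  refine Submodule.add_mem _ (Submodule.mem_sup_left ?_) ?_
  · rw [mon_append, qn_rep]
    refine hI.mul_right _ ?_ _
    have h1 := sb_mem hI (φ := fun _ => X x) (fun _ => X_mem x) hx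
    rw [map_pow, sb_X] at h1
    exact h1
  · refine (sup_le le_sup_left (Submodule.span_le.2 ?_) : qnS I x w ≤ _) hg
    rintro f ⟨t, v, hv, rfl⟩
    by_cases htx : t = x
    · rw [htx]
      have h0 : cm x x = 0 := by
        unfold cm
        rw [sub_self]
      rw [h0, zero_mul]
      exact Submodule.zero_mem _
    · have hc := hv.count_eq x
      rw [List.count_cons_of_ne htx, List.count_cons_self] at hc
      obtain ⟨u', hu', hg'⟩ := qn_b2 hI hl x (p - 1) v (by omega)
      have e' : cm t x * mon v = cm t x * mon (List.replicate (p - 1) x ++ u') +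
          cm t x * (mon v - mon (List.replicate (p - 1) x ++ u')) := by
        rw [← mul_add]
        congr 1
        abel
      rw [SetLike.mem_coe, e']
      refine Submodule.add_mem _ (Submodule.mem_sup_right (Submodule.subset_span
        ⟨t, u', ((hu'.symm.cons x).cons t).trans hv, ?_⟩))
        (Submodule.mem_sup_left (qn_kill hp h5 hI h2 hl t hg'))
      rw [mon_append, qn_rep]

private theorem qn_Fge_mul {n : ℕ} (u : List ℕ) {g : P} (hg : g ∈ Fge n) :
    g * mon u ∈ Fge (n + u.length) := by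
  unfold Fge at hg
  induction hg using Submodule.span_induction with
  | mem f hf =>
    obtain ⟨w, hw, rfl⟩ := hf
    rw [← mon_append]
    exact Submodule.subset_span ⟨w ++ u, by rw [List.length_append]; omega, rfl⟩
  | zero => rw [zero_mul]; exact Submodule.zero_mem _
  | add f g _ _ hf hg => rw [add_mul]; exact Submodule.add_mem _ hf hg
  | smul c f _ hf => rw [smul_mul_assoc]; exact Submodule.smul_mem _ _ hf

private theorem qn_wp_Fge {φ : List ℕ → Prop} {m : ℕ} {g : P} (hg : g ∈ Fge m)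
    {D : Submodule ℤ P} (hD : ∀ v : List ℕ, φ v → m ≤ v.length → mon v ∈ D) : wp φ g ∈ D := by
  unfold Fge at hg
  induction hg using Submodule.span_induction with
  | mem f hf =>
    obtain ⟨w, hw, rfl⟩ := hf
    by_cases h : φ w
    · rw [wp_pos h]
      exact hD w h hw
    · rw [wp_neg h]
      exact D.zero_mem
  | zero => rw [map_zero]; exact D.zero_mem
  | add f g _ _ hf hg => rw [map_add]; exact D.add_mem hf hg
  | smul c f _ hf => rw [map_smul]; exact D.smul_mem _ hf

/-- `[x_0,x_1] x_2^(p-1)` is in `I` up to `p` times words of length at least `p + 1` -/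
private theorem qn_k {p : ℕ} (hp : p.Prime) (h5 : 5 ≤ p) {I : Submodule ℤ P} (hI : IsT I)
    (h2 : Mul ((p : ℤ) ^ 2) I) (hk : cm 0 1 * X 2 ^ (p - 1) ∈ I ⊔ mulI p Pp) :
    ∃ i ∈ I, ∃ h ∈ Fge (p + 1), cm 0 1 * X 2 ^ (p - 1) = i + (p : ℤ) • h := by
  obtain ⟨i, hi, g, hg, hig⟩ := Submodule.mem_sup.1 hk
  obtain ⟨h, hh, hhg⟩ := hg
  have hg' : g = (p : ℤ) • h := by
    rw [← hhg]
    rfl
  have hE : TOp p ((wp (fun w => w.count 0 % (p - 1) = 1)).comp
      ((wp (fun w => w.count 1 % (p - 1) = 1)).comp ((wp (fun w => w.count 2 % (p - 1) = 0)).comp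
        (wp (fun w => 2 ∈ w))))) :=
    (TOp_res hp (by omega) 0 1 (by omega)).comp ((TOp_res hp (by omega) 1 1 (by omega)).comp
      ((TOp_res hp (by omega) 2 0 (by omega)).comp (TOp_mem p 2)))
  have hEe : ∀ f : P, ((wp (fun w => w.count 0 % (p - 1) = 1)).comp
      ((wp (fun w => w.count 1 % (p - 1) = 1)).comp ((wp (fun w => w.count 2 % (p - 1) = 0)).comp
        (wp (fun w => 2 ∈ w))))) f = wp (fun w => w.count 0 % (p - 1) = 1 ∧
        (w.count 1 % (p - 1) = 1 ∧ (w.count 2 % (p - 1) = 0 ∧ 2 ∈ w))) f := by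
    intro f
    rw [LinearMap.comp_apply, LinearMap.comp_apply, LinearMap.comp_apply, wp_wp, wp_wp, wp_wp]
    exact DFunLike.congr_fun (wp_congr (fun w => by tauto)) f
  obtain ⟨φ, hφ⟩ : ∃ φ : List ℕ → Prop, φ = (fun w => w.count 0 % (p - 1) = 1 ∧
        (w.count 1 % (p - 1) = 1 ∧ (w.count 2 % (p - 1) = 0 ∧ 2 ∈ w))) := ⟨_, rfl⟩
  have hone : 1 % (p - 1) = 1 := Nat.mod_eq_of_lt (by omega)
  have hw : ∀ a b : ℕ, (a = 0 ∧ b = 1) ∨ (a = 1 ∧ b = 0) →
      φ (a :: b :: List.replicate (p - 1) 2) := by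
    intro a b hab
    rw [hφ]
    have hr : ∀ c : ℕ, c ≠ 2 → (List.replicate (p - 1) 2).count c = 0 := by
      intro c hc
      rw [List.count_replicate]
      simp [hc.symm]
    have h22 : (List.replicate (p - 1) 2).count 2 = p - 1 := List.count_replicate_self
    have hmem : 2 ∈ List.replicate (p - 1) 2 := List.mem_replicate.2 ⟨by omega, rfl⟩
    rcases hab with ⟨rfl, rfl⟩ | ⟨rfl, rfl⟩
    · refine ⟨?_, ?_, ?_, ?_⟩
      · rw [List.count_cons_self, List.count_cons_of_ne (by norm_num), hr 0 (by norm_num), zero_add,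
          hone]
      · rw [List.count_cons_of_ne (by norm_num), List.count_cons_self, hr 1 (by norm_num), zero_add,
          hone]
      · rw [List.count_cons_of_ne (by norm_num), List.count_cons_of_ne (by norm_num), h22,
          Nat.mod_self]
      · exact List.mem_cons_of_mem _ (List.mem_cons_of_mem _ hmem)
    · refine ⟨?_, ?_, ?_, ?_⟩
      · rw [List.count_cons_of_ne (by norm_num), List.count_cons_self, hr 0 (by norm_num), zero_add,
          hone]
      · rw [List.count_cons_self, List.count_cons_of_ne (by norm_num), hr 1 (by norm_num), zero_add,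
          hone]
      · rw [List.count_cons_of_ne (by norm_num), List.count_cons_of_ne (by norm_num), h22,
          Nat.mod_self]
      · exact List.mem_cons_of_mem _ (List.mem_cons_of_mem _ hmem)
  have e1 : cm 0 1 * X 2 ^ (p - 1) = mon (0 :: 1 :: List.replicate (p - 1) 2) -
      mon (1 :: 0 :: List.replicate (p - 1) 2) := by
    rw [mon_cons, mon_cons, mon_cons, mon_cons, qn_rep]
    unfold cm
    rw [sub_mul, mul_assoc, mul_assoc]
  have e2 : wp φ (cm 0 1 * X 2 ^ (p - 1)) = cm 0 1 * X 2 ^ (p - 1) := by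
    rw [e1, map_sub, wp_pos (hw 0 1 (Or.inl ⟨rfl, rfl⟩)), wp_pos (hw 1 0 (Or.inr ⟨rfl, rfl⟩))]
  refine ⟨wp φ i, ?_, wp φ h, ?_, ?_⟩
  · have h3 := hE I hI h2 i hi
    rw [hEe, ← hφ] at h3
    exact h3
  · refine (Submodule.span_le.2 ?_ : Submodule.span ℤ {f | ∃ w, φ w ∧ f = mon w} ≤ Fge (p + 1))
      (wp_mem φ h)
    rintro f ⟨w, hw, rfl⟩
    refine Submodule.subset_span ⟨w, ?_, rfl⟩
    rw [hφ] at hw
    obtain ⟨h00, h11, h22, hm⟩ := hw
    have c0 : 1 ≤ w.count 0 := by
      rcases Nat.eq_zero_or_pos (w.count 0) with h | h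
      · rw [h, Nat.zero_mod] at h00
        omega
      · exact h
    have c1 : 1 ≤ w.count 1 := by
      rcases Nat.eq_zero_or_pos (w.count 1) with h | h
      · rw [h, Nat.zero_mod] at h11
        omega
      · exact h
    have c2 : p - 1 ≤ w.count 2 :=
      Nat.le_of_dvd (List.count_pos_iff.2 hm) (Nat.dvd_of_mod_eq_zero h22)
    have hsum : ∑ i ∈ ({0, 1, 2} : Finset ℕ), w.count i ≤ w.length := by
      classical
      have h3 := Multiset.sum_count_eq_card (s := w.toFinset ∪ {0, 1, 2}) (m := (w : Multiset ℕ))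
        (fun a ha => Finset.mem_union_left _ (List.mem_toFinset.2 (by simpa using ha)))
      rw [Multiset.coe_card] at h3
      simp only [Multiset.coe_count] at h3
      rw [← h3]
      exact Finset.sum_le_sum_of_subset Finset.subset_union_right
    rw [Finset.sum_insert (by decide), Finset.sum_insert (by decide), Finset.sum_singleton] at hsum
    omega
  · rw [← map_smul, ← map_add, ← hg', hig, e2]

private theorem qn_len {p n : ℕ} (hp : 5 ≤ p) {w : List ℕ} (h1 : qw p n w) (h2 : n < w.length) :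
    ∃ i, p ≤ w.count i := by
  have hsum : ∑ i ∈ Finset.range n, w.count i = w.length := by
    have := Multiset.sum_count_eq_card (s := Finset.range n) (m := (w : Multiset ℕ))
      (fun a ha => Finset.mem_range.2 (h1.1 a (by simpa using ha)))
    simpa using this
  by_contra hc
  push Not at hc
  have hone : ∀ i ∈ Finset.range n, w.count i = 1 := by
    intro i hi
    have h3 := h1.2 i (Finset.mem_range.1 hi)
    have h4 := Nat.div_add_mod (w.count i) (p - 1)
    rw [h3] at h4
    rcases Nat.eq_zero_or_pos (w.count i / (p - 1)) with h5 | h5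
    · rw [h5, mul_zero, zero_add] at h4
      exact h4.symm
    · exfalso
      have h6 : p - 1 ≤ (p - 1) * (w.count i / (p - 1)) := Nat.le_mul_of_pos_right _ h5
      have h7 := hc i
      omega
  rw [Finset.sum_congr rfl hone] at hsum
  simp at hsum
  omega

theorem QNm {p : ℕ} (hp : p.Prime) (h5 : 5 ≤ p) {I : Submodule ℤ P} (hI : IsT I) (h2 : Mul ((p : ℤ) ^ 2) I)
    (hN : ∀ n w, 1 ≤ n → qw p n w → n < w.length → mon w ∈ I ⊔ mulI p Pp) (hl : ll ∈ I) (hx : X 0 ^ p ∈ I)
    (hk : cm 0 1 * X 2 ^ (p - 1) ∈ I ⊔ mulI p Pp) {n : ℕ} (hn : 2 ≤ n) {w : List ℕ} (hw : qw p n w)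
    (hw2 : n < w.length) : mon w ∈ I := by
  have _ := hn
  obtain ⟨x, hxw⟩ := qn_len h5 hw hw2
  refine (sup_le (le_refl I) (Submodule.span_le.2 ?_)) (qn_A hp h5 hI h2 hl hx hxw)
  rintro f ⟨t, u, hu, rfl⟩
  rw [SetLike.mem_coe]
  obtain ⟨i, hi, h, hh, hih⟩ := qn_k hp h5 hI h2 hk
  have hs : ∀ j : ℕ, (if j = 0 then X t else X x : P) ∈ Pp := by
    intro j
    split_ifs
    · exact X_mem t
    · exact X_mem x
  have e1 : cm t x * (X x ^ (p - 1) * mon u) =
      sb (fun j => if j = 0 then X t else X x) i * mon u +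
        (p : ℤ) • (sb (fun j => if j = 0 then X t else X x) h * mon u) := by
    rw [← smul_mul_assoc, ← map_zsmul, ← add_mul, ← map_add, ← hih, map_mul, map_pow, ← mul_assoc]
    congr 1
    unfold cm
    rw [map_sub, map_mul, map_mul, sb_X, sb_X, sb_X]
    simp
  have hE := TOp_qw hp (by omega) n I hI h2
  have e2 : wp (qw p n) (cm t x * (X x ^ (p - 1) * mon u)) = cm t x * (X x ^ (p - 1) * mon u) := by
    have e3 : cm t x * (X x ^ (p - 1) * mon u) =
        mon (t :: x :: (List.replicate (p - 1) x ++ u)) -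
          mon (x :: t :: (List.replicate (p - 1) x ++ u)) := by
      rw [mon_cons, mon_cons, mon_cons, mon_cons, mon_append, qn_rep]
      unfold cm
      rw [sub_mul, mul_assoc, mul_assoc]
    have q1 : qw p n (t :: x :: (List.replicate (p - 1) x ++ u)) := (qw_perm hu).2 hw
    have q2 : qw p n (x :: t :: (List.replicate (p - 1) x ++ u)) :=
      (qw_perm (List.Perm.swap t x _)).2 q1
    rw [e3, map_sub, wp_pos q1, wp_pos q2]
  rw [← e2, e1, map_add, map_smul]
  refine I.add_mem (hE _ (hI.mul_right _ (sb_mem hI hs hi) _)) (pJ_le h2 _ ?_)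
  have h3 : sb (fun j => if j = 0 then X t else X x) h * mon u ∈ Fge (p + 1 + u.length) :=
    qn_Fge_mul u (sb_mem (isT_Fge (p + 1) (by omega)) hs hh)
  have hlen := hu.length_eq
  rw [List.length_cons, List.length_cons, List.length_append, List.length_replicate] at hlen
  exact qn_wp_Fge h3 fun v hv hvl => hN n v (by omega) hv (by omega)

theorem QNm2 {p : ℕ} (hp : p.Prime) (h5 : 5 ≤ p) {I : Submodule ℤ P} (hI : IsT I) (h2 : Mul ((p : ℤ) ^ 2) I)
    (hN : ∀ n w, 1 ≤ n → qw p n w → n < w.length → mon w ∈ I ⊔ mulI p Pp) (hl : ll ∈ I) (hx : X 0 ^ p ∈ I)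
    (hk : cm 0 1 * X 2 ^ (p - 1) ∈ I ⊔ mulI p Pp) {f : P} (hf : f ∈ Ml p) (hf2 : f ∈ I ⊔ Fge (p + 1)) :
    f ∈ I := by
  obtain ⟨i, hi, g, hg, rfl⟩ := Submodule.mem_sup.1 hf2
  have h4 : wp (qw p p) (i + g) = i + g := Q_iff.1 (Ml_le_Q (by omega) hf)
  rw [← h4, map_add]
  refine I.add_mem (TOp_qw hp (by omega) p I hI h2 i hi) ?_
  exact qn_wp_Fge hg fun v hv hvl => QNm hp h5 hI h2 hN hl hx hk (by omega) hv (by omega)

end ADC
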