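import Pool.Agent.ADC.Qred
import Pool.Agent.ADC.R4
import Pool.Agent.ADC.Quot
import Pool.Agent.ADC.KmlB
import Pool.Agent.ADC.Rg
import Pool.Agent.ADC.GrpA

/-!
# ADC-QO

Exactness of the cubic identity.  `J = I ⊔ p Pp`, `p^2 Pp ≤ I`, `kk 1 (-1) ∈ J`, and `f ∈ Ml 3 ∩ J` implies `f - p g ∈ I`, `g ∈ Ml 3`.

1. `kml 1 (-1) ∈ J ∩ Ml 3` (`kml_of_kk`), so `kml 1 (-1) - p g ∈ I`, `g ∈ Ml 3`.  Apply the T-operator `Φ = sP 3 1 ∘ (6 - sP 3 0)`:
   `Φ (kml 1 (-1)) = 12 kml 1 (-1)` (it is invariant under `(1 2)` and `sP 3 0` kills it), and `Φ g` is a combination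
   `c v1 + d v2`, `v1 = kml 1 0`, `v2 = kml 0 1` (see the header of ADC.Core3).  So `12 kml 1 (-1) - p (c v1 + d v2) ∈ I`, i.e.
   `kml (12 - p c) (-12 - p d) ∈ I`.  `12 - p c` is prime to `p ≥ 5`: choose `g' ∈ ℤ` with `(12 - p c) g' ≡ -(-12 - p d)` modulo `p²`, and multiply by an
   inverse of `12 - p c` modulo `p²`: `kml 1 (-g') ∈ I`, `g' ≡ 1` modulo `p`; also `kk 1 (-g') ∈ I` (`kk_of_kml`).
2. If `p² ∣ g' - 1`: `kk 1 (-1) ∈ I` and `ll ∈ I` (`ll_of_kk`).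
3. Otherwise `3 (g'^3 - g') = 3 g' (g'+1)(g'-1) = p u` modulo `p²` with `p ∤ u`.  In the quotient ring `S = P / I`, `F = π Pp`: R4a-c (with `K` from
   `kml_subst`): `3 (g'^3-g')` kills the commutator words of length 4, so (`p^2` kills `F`) `p` kills them; hence `p f ∈ I` for all `f ∈ Cn 4`
   (longer words: multiply).
-/

namespace ADC

open AD ADN

/-! ### the operator -/

private theorem qo_kml (a b : ℤ) : kml a b =
    a • (mon [1,0,2] - mon [0,1,2] + mon [2,0,1] - mon [0,2,1]) +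
      b • (mon [1,2,0] - mon [1,0,2] + mon [2,1,0] - mon [2,0,1]) := by
  unfold kml cm
  simp only [mon_cons, mon_nil, mul_one, sub_mul, mul_sub, mul_assoc]
  congr 2 <;> abel

private theorem qo_add (a b a' b' : ℤ) : kml (a + a') (b + b') = kml a b + kml a' b' := by
  unfold kml
  rw [add_smul, add_smul]
  abel

private theorem qo_smul (k a b : ℤ) : kml (k * a) (k * b) = k • kml a b := by
  unfold kml
  module

private noncomputable def qoΦ : P →ₗ[ℤ] P :=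
  (LinearMap.id + tl (rn 3 (Equiv.swap 1 2))).comp
    ((2 : ℤ) • LinearMap.id - tl (rn 3 (finRotate 3)) - tl (rn 3 (finRotate 3 * finRotate 3)))

private theorem qoΦ_TOp (p : ℕ) : TOp p qoΦ :=
  ((TOp.id' p).add (TOp_rn p 3 _)).comp ((((TOp.id' p).smul 2).sub (TOp_rn p 3 _)).sub (TOp_rn p 3 _))

private theorem qoΦ_mon (w : List ℕ) : qoΦ (mon w) =
    ((2 : ℤ) • mon w - mon (w.map (pN 3 (finRotate 3))) - mon (w.map (pN 3 (finRotate 3 * finRotate 3)))) +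
    ((2 : ℤ) • mon (w.map (pN 3 (Equiv.swap 1 2))) -
      mon ((w.map (pN 3 (finRotate 3))).map (pN 3 (Equiv.swap 1 2))) -
      mon ((w.map (pN 3 (finRotate 3 * finRotate 3))).map (pN 3 (Equiv.swap 1 2)))) := by
  have e : ∀ (σ : Equiv.Perm (Fin 3)) (f : P), tl (rn 3 σ) f = rn 3 σ f := fun σ f => rfl
  show (LinearMap.id + tl (rn 3 (Equiv.swap 1 2)) : P →ₗ[ℤ] P)
    (((2 : ℤ) • LinearMap.id - tl (rn 3 (finRotate 3)) - tl (rn 3 (finRotate 3 * finRotate 3)) : P →ₗ[ℤ] P)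
      (mon w)) = _
  rw [LinearMap.add_apply, LinearMap.sub_apply, LinearMap.sub_apply, LinearMap.smul_apply, LinearMap.id_apply,
    LinearMap.id_apply, map_sub, map_sub, map_smul, e, e, e, e, e, rn_mon, rn_mon, rn_mon, rn_mon, rn_mon]

private theorem qoΦ_0a : qoΦ (mon [0,1,2]) = kml (-2) (-1) := by
  rw [qoΦ_mon, qo_kml]
  have e1 : ([0,1,2] : List ℕ).map (pN 3 (finRotate 3)) = [1,2,0] := by decide
  have e2 : ([0,1,2] : List ℕ).map (pN 3 (finRotate 3 * finRotate 3)) = [2,0,1] := by decide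
  have e3 : ([0,1,2] : List ℕ).map (pN 3 (Equiv.swap 1 2)) = [0,2,1] := by decide
  rw [e1, e2, e3]
  have e4 : ([1,2,0] : List ℕ).map (pN 3 (Equiv.swap 1 2)) = [2,1,0] := by decide
  have e5 : ([2,0,1] : List ℕ).map (pN 3 (Equiv.swap 1 2)) = [1,0,2] := by decide
  rw [e4, e5]
  module

private theorem qoΦ_0b : qoΦ (mon [0,2,1]) = kml (-2) (-1) := by
  rw [qoΦ_mon, qo_kml]
  have e1 : ([0,2,1] : List ℕ).map (pN 3 (finRotate 3)) = [1,0,2] := by decide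
  have e2 : ([0,2,1] : List ℕ).map (pN 3 (finRotate 3 * finRotate 3)) = [2,1,0] := by decide
  have e3 : ([0,2,1] : List ℕ).map (pN 3 (Equiv.swap 1 2)) = [0,1,2] := by decide
  rw [e1, e2, e3]
  have e4 : ([1,0,2] : List ℕ).map (pN 3 (Equiv.swap 1 2)) = [2,0,1] := by decide
  have e5 : ([2,1,0] : List ℕ).map (pN 3 (Equiv.swap 1 2)) = [1,2,0] := by decide
  rw [e4, e5]
  module

private theorem qoΦ_1a : qoΦ (mon [1,0,2]) = kml 1 (-1) := by
  rw [qoΦ_mon, qo_kml]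
  have e1 : ([1,0,2] : List ℕ).map (pN 3 (finRotate 3)) = [2,1,0] := by decide
  have e2 : ([1,0,2] : List ℕ).map (pN 3 (finRotate 3 * finRotate 3)) = [0,2,1] := by decide
  have e3 : ([1,0,2] : List ℕ).map (pN 3 (Equiv.swap 1 2)) = [2,0,1] := by decide
  rw [e1, e2, e3]
  have e4 : ([2,1,0] : List ℕ).map (pN 3 (Equiv.swap 1 2)) = [1,2,0] := by decide
  have e5 : ([0,2,1] : List ℕ).map (pN 3 (Equiv.swap 1 2)) = [0,1,2] := by decide
  rw [e4, e5]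
  module

private theorem qoΦ_1b : qoΦ (mon [2,0,1]) = kml 1 (-1) := by
  rw [qoΦ_mon, qo_kml]
  have e1 : ([2,0,1] : List ℕ).map (pN 3 (finRotate 3)) = [0,1,2] := by decide
  have e2 : ([2,0,1] : List ℕ).map (pN 3 (finRotate 3 * finRotate 3)) = [1,2,0] := by decide
  have e3 : ([2,0,1] : List ℕ).map (pN 3 (Equiv.swap 1 2)) = [1,0,2] := by decide
  rw [e1, e2, e3]
  have e4 : ([0,1,2] : List ℕ).map (pN 3 (Equiv.swap 1 2)) = [0,2,1] := by decide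
  have e5 : ([1,2,0] : List ℕ).map (pN 3 (Equiv.swap 1 2)) = [2,1,0] := by decide
  rw [e4, e5]
  module

private theorem qoΦ_2a : qoΦ (mon [1,2,0]) = kml 1 2 := by
  rw [qoΦ_mon, qo_kml]
  have e1 : ([1,2,0] : List ℕ).map (pN 3 (finRotate 3)) = [2,0,1] := by decide
  have e2 : ([1,2,0] : List ℕ).map (pN 3 (finRotate 3 * finRotate 3)) = [0,1,2] := by decide
  have e3 : ([1,2,0] : List ℕ).map (pN 3 (Equiv.swap 1 2)) = [2,1,0] := by decide
  rw [e1, e2, e3]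
  have e4 : ([2,0,1] : List ℕ).map (pN 3 (Equiv.swap 1 2)) = [1,0,2] := by decide
  have e5 : ([0,1,2] : List ℕ).map (pN 3 (Equiv.swap 1 2)) = [0,2,1] := by decide
  rw [e4, e5]
  module

private theorem qoΦ_2b : qoΦ (mon [2,1,0]) = kml 1 2 := by
  rw [qoΦ_mon, qo_kml]
  have e1 : ([2,1,0] : List ℕ).map (pN 3 (finRotate 3)) = [0,2,1] := by decide
  have e2 : ([2,1,0] : List ℕ).map (pN 3 (finRotate 3 * finRotate 3)) = [1,0,2] := by decide
  have e3 : ([2,1,0] : List ℕ).map (pN 3 (Equiv.swap 1 2)) = [1,2,0] := by decide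
  rw [e1, e2, e3]
  have e4 : ([0,2,1] : List ℕ).map (pN 3 (Equiv.swap 1 2)) = [0,1,2] := by decide
  have e5 : ([1,0,2] : List ℕ).map (pN 3 (Equiv.swap 1 2)) = [2,0,1] := by decide
  rw [e4, e5]
  module

private theorem qo_perm {w : List ℕ} (h : w.Perm (List.range 3)) :
    w = [0,1,2] ∨ w = [1,2,0] ∨ w = [2,0,1] ∨ w = [1,0,2] ∨ w = [0,2,1] ∨ w = [2,1,0] := by
  have h1 : w ∈ (List.range 3).permutations' := List.mem_permutations'.2 h
  have h2 : (List.range 3).permutations' = [[0,1,2],[1,0,2],[1,2,0],[0,2,1],[2,0,1],[2,1,0]] := by decide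
  rw [h2] at h1
  simp only [List.mem_cons, List.not_mem_nil, or_false] at h1
  tauto

private theorem qoΦ_ex {f : P} (hf : f ∈ Ml 3) : ∃ c d : ℤ, qoΦ f = kml c d := by
  refine Ml_ind (n := 3) (C := fun f => ∃ c d : ℤ, qoΦ f = kml c d) ?_ ?_ ?_ ?_ hf
  · refine ⟨0, 0, ?_⟩
    rw [map_zero]
    unfold kml
    rw [zero_smul, zero_smul, add_zero]
  · rintro f g ⟨c, d, hf⟩ ⟨c', d', hg⟩
    exact ⟨c + c', d + d', by rw [map_add, hf, hg, qo_add]⟩
  · rintro k f ⟨c, d, hf⟩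
    exact ⟨k * c, k * d, by rw [map_smul, hf, qo_smul]⟩
  · intro w hw
    rcases qo_perm hw with rfl | rfl | rfl | rfl | rfl | rfl
    · exact ⟨_, _, qoΦ_0a⟩
    · exact ⟨_, _, qoΦ_2a⟩
    · exact ⟨_, _, qoΦ_1b⟩
    · exact ⟨_, _, qoΦ_1a⟩
    · exact ⟨_, _, qoΦ_0b⟩
    · exact ⟨_, _, qoΦ_2b⟩

private theorem qoΦ_k : qoΦ (kml 1 (-1)) = kml 6 (-6) := by
  have h : kml 1 (-1) = (1 : ℤ) • (mon [1,0,2] - mon [0,1,2] + mon [2,0,1] - mon [0,2,1]) +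
      (-1 : ℤ) • (mon [1,2,0] - mon [1,0,2] + mon [2,1,0] - mon [2,0,1]) := qo_kml 1 (-1)
  rw [h, map_add, map_smul, map_smul, map_sub, map_add, map_sub, map_sub, map_add, map_sub, qoΦ_0a, qoΦ_0b,
    qoΦ_1a, qoΦ_1b, qoΦ_2a, qoΦ_2b]
  unfold kml
  module

/-! ### the degree four consequences -/

private theorem qo_D {p : ℕ} (hp : p.Prime) {D : Submodule ℤ P} (hD : IsT D) (h2 : Mul ((p : ℤ) ^ 2) D) {g u : ℤ}
    (hk : kml 1 (-g) ∈ D) (hg : 3 * (g ^ 3 - g) = p * u) (hu : ¬ (p : ℤ) ∣ u) {x y z t : P} (hx : x ∈ Pp)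
    (hy : y ∈ Pp) (hz : z ∈ Pp) (ht : t ∈ Pp) :
    (p : ℤ) • ((x * y - y * x) * z * t) ∈ D ∧ (p : ℤ) • (z * (x * y - y * x) * t) ∈ D ∧
      (p : ℤ) • (z * t * (x * y - y * x)) ∈ D := by
  obtain ⟨S, iS, π, -, hπ⟩ := exists_quot hD
  have hF : ∀ a ∈ {a : S | ∃ f ∈ Pp, a = π f}, ∀ b ∈ {a : S | ∃ f ∈ Pp, a = π f},
      a * b ∈ {a : S | ∃ f ∈ Pp, a = π f} := by
    rintro _ ⟨f, hf, rfl⟩ _ ⟨f', hf', rfl⟩
    exact ⟨f * f', Pp_mul_left f hf', (map_mul π f f').symm⟩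
  have K : ∀ x ∈ {a : S | ∃ f ∈ Pp, a = π f}, ∀ z ∈ {a : S | ∃ f ∈ Pp, a = π f},
      ∀ y ∈ {a : S | ∃ f ∈ Pp, a = π f},
      (x*y - y*x)*z + (z*y - y*z)*x - g • (x*(z*y - y*z) + z*(x*y - y*x)) = 0 := by
    rintro _ ⟨x, hx, rfl⟩ _ ⟨z, hz, rfl⟩ _ ⟨y, hy, rfl⟩
    have h1 := (hπ _).2 (kml_subst hD hk hy hx hz)
    rw [map_add, map_zsmul, map_zsmul, one_smul, neg_smul, ← sub_eq_add_neg] at h1
    simp only [map_add, map_sub, map_mul] at h1
    exact h1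
  have hc : ∀ f ∈ Pp, (3 * (g ^ 3 - g)) • π f = 0 → (p : ℤ) • f ∈ D := by
    intro f hf h1
    refine cancel hp h2 hu (Pp.smul_mem _ hf) ?_
    rw [smul_smul, mul_comm u, ← hg, ← hπ, map_zsmul]
    exact h1
  have mx : π x ∈ {a : S | ∃ f ∈ Pp, a = π f} := ⟨x, hx, rfl⟩
  have my : π y ∈ {a : S | ∃ f ∈ Pp, a = π f} := ⟨y, hy, rfl⟩
  have mz : π z ∈ {a : S | ∃ f ∈ Pp, a = π f} := ⟨z, hz, rfl⟩
  have mt : π t ∈ {a : S | ∃ f ∈ Pp, a = π f} := ⟨t, ht, rfl⟩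
  refine ⟨hc _ (Pp_mul_left _ ht) ?_, hc _ (Pp_mul_left _ ht) ?_, hc _ (Pp_mul_right (Pp_mul_left _ ht) _) ?_⟩
  · rw [map_mul, map_mul, map_sub, map_mul, map_mul]
    exact R4a _ hF g K mx my mz mt
  · rw [map_mul, map_mul, map_sub, map_mul, map_mul]
    exact R4b _ hF g K mx my mz mt
  · rw [map_mul, map_mul, map_sub, map_mul, map_mul]
    exact R4c _ hF g K mx my mz mt

private theorem qo_word {p : ℕ} (hp : p.Prime) {D : Submodule ℤ P} (hD : IsT D) (h2 : Mul ((p : ℤ) ^ 2) D) {g u : ℤ}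
    (hk : kml 1 (-g) ∈ D) (hg : 3 * (g ^ 3 - g) = p * u) (hu : ¬ (p : ℤ) ∣ u) (a b : List ℕ) (i j : ℕ)
    (hl : 4 ≤ a.length + b.length + 2) : (p : ℤ) • (mon a * (X i * X j - X j * X i) * mon b) ∈ D := by
  have key : ∀ (u1 v1 : P) (m : P), (p : ℤ) • m ∈ D → (p : ℤ) • (u1 * m * v1) ∈ D := by
    intro u1 v1 m hm
    have := IsT.lm hD u1 v1 hm
    rwa [mul_smul_comm, smul_mul_assoc] at this
  rcases b with _ | ⟨c, _ | ⟨d, b⟩⟩
  · -- `b` empty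
    simp only [List.length_nil] at hl
    obtain ⟨a1, d, rfl⟩ : ∃ a1 d, a = a1 ++ [d] :=
      ⟨a.dropLast, a.getLast (by rintro rfl; simp at hl), (List.dropLast_append_getLast _).symm⟩
    rw [List.length_append, List.length_singleton] at hl
    obtain ⟨a2, c, rfl⟩ : ∃ a2 c, a1 = a2 ++ [c] :=
      ⟨a1.dropLast, a1.getLast (by rintro rfl; simp at hl), (List.dropLast_append_getLast _).symm⟩
    have h1 := key (mon a2) 1 _ (qo_D hp hD h2 hk hg hu (X_mem i) (X_mem j) (X_mem c) (X_mem d)).2.2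
    refine (congrArg (fun f => (p : ℤ) • f ∈ D) ?_).mp h1
    rw [mon_append, mon_append, mon_single, mon_single, mon_nil, mul_one, mul_one]
    simp only [mul_assoc]
  · simp only [List.length_nil, List.length_cons] at hl
    obtain ⟨a1, d, rfl⟩ : ∃ a1 d, a = a1 ++ [d] :=
      ⟨a.dropLast, a.getLast (by rintro rfl; simp at hl), (List.dropLast_append_getLast _).symm⟩
    have h1 := key (mon a1) 1 _ (qo_D hp hD h2 hk hg hu (X_mem i) (X_mem j) (X_mem d) (X_mem c)).2.1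
    refine (congrArg (fun f => (p : ℤ) • f ∈ D) ?_).mp h1
    rw [mon_append, mon_single, mon_single, mul_one]
    simp only [mul_assoc]
  · have h1 := key (mon a) (mon b) _ (qo_D hp hD h2 hk hg hu (X_mem i) (X_mem j) (X_mem c) (X_mem d)).1
    refine (congrArg (fun f => (p : ℤ) • f ∈ D) ?_).mp h1
    rw [mon_cons, mon_cons]
    simp only [mul_assoc]

theorem QO {p : ℕ} (hp : p.Prime) (h5 : 5 ≤ p) {I : Submodule ℤ P} (hI : IsT I) (h2 : Mul ((p : ℤ) ^ 2) I)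
    (hk : kk 1 (-1) ∈ I ⊔ mulI p Pp)
    (hE : ∀ f ∈ Ml 3, f ∈ I ⊔ mulI p Pp → ∃ g ∈ Ml 3, f - (p : ℤ) • g ∈ I) :
    (∀ f ∈ Cn 4, (p : ℤ) • f ∈ I) ∨ ll ∈ I := by
  have hpp := Nat.prime_iff_prime_int.1 hp
  have hJ : IsT (I ⊔ mulI (p : ℤ) Pp) := isT_sup hI (isT_mulI isT_Pp _)
  obtain ⟨g, hg, hgI⟩ := hE _ (kml_Ml 1 (-1)) (kml_of_kk hJ hk)
  obtain ⟨c, d, hcd⟩ := qoΦ_ex hg
  have h1 := qoΦ_TOp p I hI h2 _ hgI
  have h0 : kml 6 (-6) - (p : ℤ) • kml c d = kml (6 + -1 * ((p : ℤ) * c)) (-6 + -1 * ((p : ℤ) * d)) := by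
    rw [qo_add, qo_smul, qo_smul, neg_one_smul, sub_eq_add_neg]
  rw [map_sub, map_smul, qoΦ_k, hcd, h0] at h1
  -- `kml (6 - p c) (-6 - p d) ∈ I`
  obtain ⟨r, hr⟩ : ∃ r, r = 6 + -1 * ((p : ℤ) * c) := ⟨_, rfl⟩
  obtain ⟨s, hs⟩ : ∃ s, s = -6 + -1 * ((p : ℤ) * d) := ⟨_, rfl⟩
  rw [← hr, ← hs] at h1
  have hr6 : ¬ (p : ℤ) ∣ r := by
    intro h
    have h3 : (p : ℤ) ∣ 6 := by
      have h4 := dvd_add h (Dvd.intro c rfl : (p : ℤ) ∣ p * c)
      have e : r + (p : ℤ) * c = 6 := by rw [hr]; ring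
      rwa [e] at h4
    have h4 : (p : ℤ) ∣ 2 * 3 := h3
    rcases hpp.dvd_or_dvd h4 with h5' | h5'
    · have := Int.le_of_dvd (by norm_num) h5'
      omega
    · have := Int.le_of_dvd (by norm_num) h5'
      omega
  have hcop : IsCoprime r ((p : ℤ) ^ 2) :=
    IsCoprime.pow_right ((Prime.coprime_iff_not_dvd hpp).2 hr6).symm
  obtain ⟨u, v, huv⟩ := hcop
  have hv1 : kml 1 0 ∈ Pp := Ml_Pp (by norm_num) (kml_Ml 1 0)
  have hv2 : kml 0 1 ∈ Pp := Ml_Pp (by norm_num) (kml_Ml 0 1)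
  -- `kml 1 (u s) ∈ I`
  have h3 : kml 1 (u * s) ∈ I := by
    have e1 : kml 1 (u * s) = u • kml r s + ((p : ℤ) ^ 2) • (v • kml 1 0) := by
      rw [← qo_smul, ← qo_smul, ← qo_smul, ← qo_add]
      congr 1
      · linear_combination (-1 : ℤ) * huv
      · ring
    rw [e1]
    exact I.add_mem (I.smul_mem _ h1) (h2 _ (Pp.smul_mem _ hv1))
  obtain ⟨g', hg'⟩ : ∃ g', g' = -(u * s) := ⟨_, rfl⟩
  have h4 : kml 1 (-g') ∈ I := by
    rw [hg', neg_neg]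
    exact h3
  -- `g' ≡ 1`
  have hg1 : (p : ℤ) ∣ g' - 1 := by
    refine ⟨u * (c + d) + v * p * (-1), ?_⟩
    have e1 : u * r + v * (p : ℤ) ^ 2 = 1 := huv
    rw [hg']
    have e2 : -(u * s) - 1 = -(u * s) - (u * r + v * (p : ℤ) ^ 2) := by rw [e1]
    rw [e2, hr, hs]
    ring
  by_cases hg2 : (p : ℤ) ^ 2 ∣ g' - 1
  · right
    obtain ⟨k, hk'⟩ := hg2
    have h6 : kml 1 (-1) ∈ I := by
      have e1 : kml 1 (-1) = kml 1 (-g') + ((p : ℤ) ^ 2) • (k • kml 0 1) := by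
        rw [← qo_smul, ← qo_smul, ← qo_add]
        congr 1
        · ring
        · linear_combination hk'
      rw [e1]
      exact I.add_mem h4 (h2 _ (Pp.smul_mem _ hv2))
    exact ll_of_kk hp h5 hI h2 (kk_of_kml hp (by omega) hI h2 h6)
  · left
    obtain ⟨k, hk'⟩ := hg1
    have hkn : ¬ (p : ℤ) ∣ k := by
      rintro ⟨m, rfl⟩
      exact hg2 ⟨m, by rw [hk']; ring⟩
    have e1 : 3 * (g' ^ 3 - g') = p * (3 * (g' * ((g' + 1) * k))) := by
      linear_combination (3 * g' * (g' + 1)) * hk'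
    have hn3 : ¬ (p : ℤ) ∣ 3 := by
      intro h
      have := Int.le_of_dvd (by norm_num) h
      omega
    have hng : ¬ (p : ℤ) ∣ g' := by
      intro h
      have h6 : (p : ℤ) ∣ 1 := by
        have h7 := dvd_sub h (Dvd.intro k hk'.symm)
        rwa [sub_sub_cancel] at h7
      have := Int.le_of_dvd (by norm_num) h6
      omega
    have hng1 : ¬ (p : ℤ) ∣ g' + 1 := by
      intro h
      have h6 : (p : ℤ) ∣ 2 := by
        have h7 := dvd_sub h (Dvd.intro k hk'.symm)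
        have e : g' + 1 - (g' - 1) = 2 := by ring
        rwa [e] at h7
      have := Int.le_of_dvd (by norm_num) h6
      omega
    have hu : ¬ (p : ℤ) ∣ 3 * (g' * ((g' + 1) * k)) := by
      intro h
      rcases hpp.dvd_or_dvd h with h | h
      · exact hn3 h
      rcases hpp.dvd_or_dvd h with h | h
      · exact hng h
      rcases hpp.dvd_or_dvd h with h | h
      · exact hng1 h
      · exact hkn h
    intro f hf
    unfold Cn at hf
    induction hf using Submodule.span_induction with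
    | mem x hx =>
      obtain ⟨a, b, i, j, hl, rfl⟩ := hx
      exact qo_word hp hI h2 h4 e1 hu a b i j hl
    | zero => rw [smul_zero]; exact I.zero_mem
    | add x y _ _ hx hy => rw [smul_add]; exact I.add_mem hx hy
    | smul k x _ hx => rw [smul_comm]; exact I.smul_mem _ hx

end ADC
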