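import Pool.Agent.ADC.TOpW
import Pool.Agent.ADC.Cnc
import Pool.Agent.ADC.LinP
import Pool.Agent.ADC.GrpA

/-!
# ADC-Zdel

Additivity for words that depend on the last letter only.

Setting: `T` a T-ideal, `Mul p T`, `m = L + p - 1`, `2 ≤ L`, `Dn m ≤ T`; so for words of length `m` only the last letter and
the multiset of letters matter (`perm_Dn`).  `Zw p L x = x^(p-1) v x`, `v = ∏_{i<L, i≠x} x_i`, length `m`.

* `del_Ml`: for `f ∈ Ml L` each word contains `x` once; after `X x ↦ X x + X L` the words contain `x` at most once, and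
  `count x ≡ 0` modulo `p - 1 ≥ 2` with `x ∈ w` is impossible.  Same for `Zw p L y`, `y ≠ x`.
* `del_Zw`: let `x < L`, `μ` prime to `p` and `μ • del p x L (Zw p L x) ∈ T`.  Cancel `μ` (`Mul p T`).
  `del p x L (Zw p L x)` is the sum of the words obtained from `x^(p-1) v x` by replacing exactly one of the `p` letters `x` by
  `X L` (`count x = p - 1`; other numbers of `x` are excluded: `count x ∈ {1..p}`, `≡ 0` modulo `p-1` means `p - 1`).  The last one replaced:
  `Y_L = x^(p-1) v | L` (last letter `L`); the other `p - 1` words are `≡ Y_x = x^(p-2) L v | x` modulo `Dn m`.  So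
  `Y_L + (p-1) Y_x ∈ T`, i.e. `Y_L - Y_x ∈ T`.
  Linearise `x^(p-1)` completely: i.e. apply the T-operator `replace the `p - 1` letters `x` by `p - 1` new letters
  `x_1, ..., x_{p-1}` in all orders` (inclusion-exclusion over substitutions; for instance compare `linP`).  Modulo `Dn m`:
  `Y_L ↦ (p-1)! Y'_L`, where `Y'_z` is the multilinear word in the `m` letters `x_1..x_{p-1}, L, v` with last letter `z`, and
  `Y_x = x^(p-2) L v | x ↦ (p-2)! ∑_i Y'_{x_i}`.  So `(p-1)! Y'_L - (p-2)! ∑_i Y'_{x_i} ∈ T`.
  Choose a letter `v_1` of `v` (`L ≥ 2`), interchange `L` and `v_1` and subtract: `(p-1)! (Y'_L - Y'_{v_1}) ∈ T`, hence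
  `Y'_L - Y'_{v_1} ∈ T`, and this is `u [v_1, L]` modulo `Dn m`, with `u` a product of `m - 2` different letters.  Substituting
  letters: all `u [x_i, x_j]` with `u.length = m - 2` are in `T`, then those with longer `u`, so `Cn m ≤ T` (`Cn_eq`).
  [Variant avoiding the full linearisation: work with the relation `Y_L - Y_x ∈ T` for all substitutions of the letters.]
* `del_pow`: `del p x L (X x ^ p * X y) ∈ T` for `L = 2`, `m = p+1` : it is a sum of `p` words, all `≡` modulo `Dn (p+1)`.
-/

namespace ADC

open AD ADN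

/-- the substitution `x ↦ x + y` -/
private noncomputable def zs (x y : ℕ) (j : ℕ) : P := if j = x then X x + X y else X j

private theorem zs_mem (x y i : ℕ) : zs x y i ∈ Pp := by
  unfold zs
  split_ifs
  · exact Submodule.add_mem _ (X_mem x) (X_mem y)
  · exact X_mem i

private theorem del_eq (p x y : ℕ) (f : P) :
    del p x y f = wp (fun w => w.count x % (p - 1) = 0 ∧ x ∈ w) (sb (zs x y) f) := rfl

private theorem zd_cnt (x y : ℕ) (w : List ℕ) :
    sb (zs x y) (mon w) ∈ Submodule.span ℤ {f | ∃ v : List ℕ, v.count x ≤ w.count x ∧ f = mon v} := by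
  induction w with
  | nil =>
    rw [mon_nil, map_one]
    exact Submodule.subset_span ⟨[], le_refl _, mon_nil.symm⟩
  | cons a w ih =>
    rw [mon_cons, map_mul, sb_X]
    generalize sb (zs x y) (mon w) = g at ih
    induction ih using Submodule.span_induction with
    | mem g hg =>
      obtain ⟨v, hv, rfl⟩ := hg
      unfold zs
      by_cases h : a = x
      · rw [if_pos h, add_mul]
        refine Submodule.add_mem _ (Submodule.subset_span ⟨x :: v, ?_, (mon_cons _ _).symm⟩)
          (Submodule.subset_span ⟨y :: v, ?_, (mon_cons _ _).symm⟩)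
        · rw [h, List.count_cons_self, List.count_cons_self]
          omega
        · rw [h, List.count_cons_self, List.count_cons]
          split_ifs <;> omega
      · rw [if_neg h]
        refine Submodule.subset_span ⟨a :: v, ?_, (mon_cons _ _).symm⟩
        rw [List.count_cons_of_ne h, List.count_cons_of_ne h]
        exact hv
    | zero => rw [mul_zero]; exact Submodule.zero_mem _
    | add g g' _ _ hg hg' => rw [mul_add]; exact Submodule.add_mem _ hg hg'
    | smul c g _ hg => rw [mul_smul_comm]; exact Submodule.smul_mem _ _ hg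

private theorem zd_le1 {p : ℕ} (h3 : 3 ≤ p) (x y : ℕ) {w : List ℕ} (hw : w.count x ≤ 1) : del p x y (mon w) = 0 := by
  rw [del_eq]
  have h := zd_cnt x y w
  generalize sb (zs x y) (mon w) = g at h
  induction h using Submodule.span_induction with
  | mem g hg =>
    obtain ⟨v, hv, rfl⟩ := hg
    refine wp_neg (φ := fun w => w.count x % (p - 1) = 0 ∧ x ∈ w) ?_
    rintro ⟨h1, h2⟩
    have h4 : v.count x = 1 := le_antisymm (hv.trans hw) (List.one_le_count_iff.2 h2)
    rw [h4, Nat.mod_eq_of_lt (by omega)] at h1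
    omega
  | zero => exact map_zero _
  | add g g' _ _ hg hg' => rw [map_add, hg, hg', add_zero]
  | smul c g _ hg => rw [map_smul, hg, smul_zero]

theorem del_Ml {p : ℕ} (h3 : 3 ≤ p) {L x : ℕ} (hx : x < L) {f : P} (hf : f ∈ Ml L) : del p x L f = 0 := by
  refine Ml_ind (C := fun f => del p x L f = 0) (map_zero _) ?_ ?_ ?_ hf
  · intro f g hf hg; rw [map_add, hf, hg, add_zero]
  · intro c f hf; rw [map_smul, hf, smul_zero]
  · intro w hw
    refine zd_le1 h3 x L ?_
    rw [hw.count_eq]
    exact List.nodup_iff_count_le_one.1 List.nodup_range x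

theorem del_Zw_ne {p : ℕ} (h3 : 3 ≤ p) {L x y : ℕ} (hx : x < L) (hy : y < L) (hxy : x ≠ y) :
    del p x L (Zw p L y) = 0 := by
  unfold Zw
  refine zd_le1 h3 x L ?_
  rw [List.count_append, List.count_append, List.count_replicate, List.count_erase_of_ne hxy]
  have h1 : (List.range L).count x ≤ 1 := List.nodup_iff_count_le_one.1 List.nodup_range x
  have h2 : (y == x) = false := by simpa using hxy.symm
  have h4 : [y].count x = 0 := by simp [hxy.symm]
  rw [h4, h2]
  simpa using h1

private theorem zd_Fge_X {n : ℕ} (a : ℕ) {f : P} (hf : f ∈ Fge n) : f * X a ∈ Fge (n + 1) := by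
  unfold Fge at hf
  induction hf using Submodule.span_induction with
  | mem g hg =>
    obtain ⟨v, hv, rfl⟩ := hg
    refine Submodule.subset_span ⟨v ++ [a], ?_, ?_⟩
    · rw [List.length_append, List.length_singleton]; omega
    · rw [mon_append, mon_single]
  | zero => rw [zero_mul]; exact Submodule.zero_mem _
  | add g g' _ _ hg hg' => rw [add_mul]; exact Submodule.add_mem _ hg hg'
  | smul c g _ hg => rw [smul_mul_assoc]; exact Submodule.smul_mem _ _ hg

private theorem zd_pow_Fge (a b n : ℕ) : (X a + X b) ^ n ∈ Fge n := by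
  induction n with
  | zero => rw [pow_zero]; exact Submodule.subset_span ⟨[], le_refl _, mon_nil.symm⟩
  | succ n ih =>
    rw [pow_succ, mul_add]
    exact Submodule.add_mem _ (zd_Fge_X a ih) (zd_Fge_X b ih)

private theorem zd_com_X (a : ℕ) : com (X a) = MvPolynomial.X a := FreeAlgebra.lift_ι_apply _ _

private theorem zd_binom (a b n : ℕ) :
    (X a + X b) ^ n - ∑ k ∈ Finset.range (n + 1), ((n.choose k : ℕ) : ℤ) •
      mon (List.replicate k a ++ List.replicate (n - k) b) ∈ Cn n := by
  refine Cn_of_com ?_ ?_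
  · refine Submodule.sub_mem _ (zd_pow_Fge a b n) (Submodule.sum_mem _ fun k hk => Submodule.smul_mem _ _
      (Submodule.subset_span ⟨_, ?_, rfl⟩))
    have := Finset.mem_range.1 hk
    rw [List.length_append, List.length_replicate, List.length_replicate]
    omega
  · rw [map_sub, map_pow, map_add, zd_com_X, zd_com_X, map_sum, add_pow, sub_eq_zero]
    refine Finset.sum_congr rfl fun k _ => ?_
    rw [map_zsmul, com_mon, List.map_append, List.map_replicate, List.map_replicate, List.prod_append,
      List.prod_replicate, List.prod_replicate, natCast_zsmul, nsmul_eq_mul, mul_comm]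

private theorem zd_TOp {p : ℕ} (hp : p.Prime) (h3 : 3 ≤ p) (x : ℕ) :
    TOp p (wp (fun w => w.count x % (p - 1) = 0 ∧ x ∈ w)) := by
  intro D hD hm f hf
  rw [← wp_wp]
  exact TOp_res hp h3 x 0 (by omega) D hD hm _ (TOp_mem p x D hD hm _ hf)

private theorem zd_modz {p c : ℕ} (h5 : 5 ≤ p) (hc : c ≤ p) : (c % (p - 1) = 0 ∧ 1 ≤ c) ↔ c = p - 1 := by
  constructor
  · rintro ⟨h1, h2⟩
    by_contra h
    rcases Nat.lt_or_ge c (p - 1) with h4 | h4
    · rw [Nat.mod_eq_of_lt h4] at h1; omega
    · have h6 : c = 1 + (p - 1) := by omega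
      rw [h6, Nat.add_mod_right, Nat.mod_eq_of_lt (by omega)] at h1
      omega
  · rintro rfl
    exact ⟨Nat.mod_self _, by omega⟩

private theorem zd_expand {p : ℕ} (hp : p.Prime) (h5 : 5 ≤ p) {T : Submodule ℤ P} (hT : IsT T) (hm : Mul p T)
    {n x y : ℕ} {s : List ℕ} (hs : s ≠ []) (hD : Dn (n + s.length) ≤ T) (hxy : x ≠ y) (hn : n + s.count x ≤ p)
    {k0 : ℕ} (hk0 : k0 ≤ n) (hk : k0 + s.count x = p - 1) :
    wp (fun w => w.count x % (p - 1) = 0 ∧ x ∈ w) ((X x + X y) ^ n * mon s) -
      ((n.choose k0 : ℕ) : ℤ) • mon ((List.replicate k0 x ++ List.replicate (n - k0) y) ++ s) ∈ T := by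
  have h1 := hD (Cn_to_Dn hs (zd_binom x y n))
  rw [sub_mul, Finset.sum_mul] at h1
  have h2 := zd_TOp hp (by omega) x T hT hm.sq _ h1
  rw [map_sub, map_sum] at h2
  have h3 : (∑ k ∈ Finset.range (n + 1), wp (fun w => w.count x % (p - 1) = 0 ∧ x ∈ w)
      ((((n.choose k : ℕ) : ℤ) • mon (List.replicate k x ++ List.replicate (n - k) y)) * mon s)) =
      ((n.choose k0 : ℕ) : ℤ) • mon ((List.replicate k0 x ++ List.replicate (n - k0) y) ++ s) := by
    have hc : ∀ k, ((List.replicate k x ++ List.replicate (n - k) y) ++ s).count x = k + s.count x := by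
      intro k
      have h2 : (y == x) = false := by simpa using hxy.symm
      rw [List.count_append, List.count_append, List.count_replicate, List.count_replicate, h2]
      simp
    rw [Finset.sum_eq_single k0]
    · rw [smul_mul_assoc, map_smul, ← mon_append]
      rw [wp_pos (φ := fun w => w.count x % (p - 1) = 0 ∧ x ∈ w)]
      refine ⟨?_, ?_⟩
      · rw [hc, hk, Nat.mod_self]
      · rw [← List.one_le_count_iff, hc, hk]
        omega
    · intro k hk1 hk2
      rw [smul_mul_assoc, map_smul, ← mon_append]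
      rw [wp_neg (φ := fun w => w.count x % (p - 1) = 0 ∧ x ∈ w), smul_zero]
      rintro ⟨h4, h6⟩
      rw [← List.one_le_count_iff, hc] at h6
      rw [hc] at h4
      have h7 := Finset.mem_range.1 hk1
      have h8 := (zd_modz h5 (by omega)).1 ⟨h4, h6⟩
      omega
    · intro h
      exact absurd (Finset.mem_range.2 (by omega)) h
  rw [h3] at h2
  exact h2

private theorem zd_sb_id {x y : ℕ} {w : List ℕ} (h : x ∉ w) : sb (zs x y) (mon w) = mon w := by
  induction w with
  | nil => rw [mon_nil, map_one]
  | cons a w ih =>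
    rw [mon_cons, map_mul, sb_X, ih (fun h' => h (List.mem_cons_of_mem _ h'))]
    unfold zs
    rw [if_neg (fun h' => h (by rw [← h']; exact List.mem_cons_self))]

private theorem zd_sb_self (x y : ℕ) : sb (zs x y) (X x) = X x + X y := by
  rw [sb_X]
  unfold zs
  rw [if_pos rfl]

private theorem zd_rep (a n : ℕ) : mon (List.replicate n a) = X a ^ n := by
  simp [mon]

private theorem zd_ex {l u : List ℕ} (hl : l.Nodup) (h : l.length = u.length) : ∃ ψ : ℕ → ℕ, l.map ψ = u := by
  refine ⟨fun i => u.getD (l.idxOf i) 0, ?_⟩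
  refine List.ext_getElem (by simpa using h) ?_
  intro n h1 h2
  rw [List.getElem_map]
  have h3 : n < l.length := by simpa using h1
  rw [hl.idxOf_getElem n h3]
  rw [List.getD_eq_getElem _ _ h2]

private theorem zd_ren {T : Submodule ℤ P} (hT : IsT T) (ψ : ℕ → ℕ) {f : P} (hf : f ∈ T) :
    sb (fun i => X (ψ i)) f ∈ T := sb_mem hT (fun i => X_mem _) hf

private theorem zd_ren_mon (ψ : ℕ → ℕ) (w : List ℕ) : sb (fun i => X (ψ i)) (mon w) = mon (w.map ψ) := by
  rw [sb_mon]
  simp [mon, Function.comp_def]

private theorem zd_perm {T : Submodule ℤ P} {m : ℕ} (hD : Dn m ≤ T) {u v w : List ℕ} (h : u.Perm v) (hw : w ≠ [])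
    (hl : m ≤ u.length + w.length) : mon (u ++ w) - mon (v ++ w) ∈ T :=
  hD (Dn_anti hl (perm_Dn h hw))

/-- the first relation for arbitrary letters -/
private theorem zd_R {p : ℕ} (hp : p.Prime) (h5 : 5 ≤ p) {T : Submodule ℤ P} (hT : IsT T) (hm : Mul p T) {L : ℕ}
    (hD : Dn (L + p - 1) ≤ T) {x : ℕ} (hx : x < L) {μ : ℤ} (hμ : ¬ (p : ℤ) ∣ μ)
    (h : μ • del p x L (Zw p L x) ∈ T) (a c : ℕ) (u : List ℕ) (hu : u.length + 1 = L) :
    mon (List.replicate (p - 1) a ++ (u ++ [c])) - mon ((List.replicate (p - 2) a ++ (c :: u)) ++ [a]) ∈ T := by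
  set v := (List.range L).erase x with hv
  have hxv : x ∉ v := List.nodup_range.not_mem_erase
  have hLv : L ∉ v := fun h => absurd (List.mem_range.1 (List.mem_of_mem_erase h)) (lt_irrefl _)
  have hvl : v.length + 1 = L := by
    rw [hv, List.length_erase_of_mem (List.mem_range.2 hx), List.length_range]
    omega
  have hvn : v.Nodup := List.nodup_range.erase x
  have hxL : x ≠ L := by omega
  have hZP : Zw p L x ∈ Pp := mon_mem (by simp)
  have hdP : del p x L (Zw p L x) ∈ Pp :=
    TOp_del hp (by omega) x L Pp isT_Pp (fun f hf => Submodule.smul_mem _ _ hf) _ hZP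
  have h1 := cancel hp hm.sq hμ hdP h
  have h2 : sb (zs x L) (Zw p L x) = (X x + X L) ^ (p - 1) * mon (v ++ [x]) + (X x + X L) ^ (p - 1) * mon (v ++ [L]) := by
    unfold Zw
    rw [← hv, mon_append, mon_append, map_mul, map_mul, zd_rep, map_pow, zd_sb_self, zd_sb_id hxv, mon_single,
      zd_sb_self, ← mul_add, mon_append v [L]]
    simp only [mon_single]
    rw [← mul_add]
  rw [del_eq, h2, map_add] at h1
  have c1 : (v ++ [x]).count x = 1 := by
    rw [List.count_append, List.count_eq_zero.2 hxv]
    simp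
  have c2 : (v ++ [L]).count x = 0 := by
    rw [List.count_append, List.count_eq_zero.2 hxv]
    simp [hxL.symm]
  have e1 := zd_expand hp h5 hT hm (n := p - 1) (x := x) (y := L) (s := v ++ [x]) (by simp)
    ((Dn_anti (by rw [List.length_append, List.length_singleton]; omega)).trans hD) hxL (by rw [c1]; omega)
    (k0 := p - 2) (by omega) (by rw [c1]; omega)
  have e2 := zd_expand hp h5 hT hm (n := p - 1) (x := x) (y := L) (s := v ++ [L]) (by simp)
    ((Dn_anti (by rw [List.length_append, List.length_singleton]; omega)).trans hD) hxL (by rw [c2]; omega)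
    (k0 := p - 1) (by omega) (by rw [c2]; omega)
  rw [Nat.choose_self] at e2
  have h6 : (p - 1).choose (p - 2) = p - 1 := by
    have : p - 1 = (p - 2) + 1 := by omega
    conv_lhs => rw [this]
    rw [Nat.choose_succ_self_right]
    omega
  rw [h6] at e1
  have h7 : p - 1 - (p - 2) = 1 := by omega
  have h8 : p - 1 - (p - 1) = 0 := by omega
  rw [h7] at e1
  rw [h8] at e2
  set W1 := (List.replicate (p - 2) x ++ List.replicate 1 L) ++ (v ++ [x]) with hW1
  set W2 := (List.replicate (p - 1) x ++ List.replicate 0 L) ++ (v ++ [L]) with hW2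
  have h9 : (p : ℤ) • mon W1 ∈ T := hm _ (mon_mem (by rw [hW1]; simp))
  have h10 : mon W2 - mon W1 ∈ T := by
    have e3 := T.sub_mem (T.sub_mem (T.sub_mem h1 e1) e2) h9
    have e4 : (((p - 1 : ℕ) : ℤ)) = (p : ℤ) - 1 := by
      have : 1 ≤ p := by omega
      push_cast [this]
      ring
    rw [e4] at e3
    have e5 : ((1 : ℕ) : ℤ) • mon W2 = mon W2 := by simp
    rw [e5] at e3
    convert e3 using 1
    rw [sub_smul, one_smul]
    abel
  obtain ⟨ψ, hψ⟩ := zd_ex (l := x :: L :: v) (u := a :: c :: u)
    (by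
      rw [List.nodup_cons, List.nodup_cons]
      refine ⟨?_, hLv, hvn⟩
      rw [List.mem_cons]
      rintro (h' | h')
      · exact hxL h'
      · exact hxv h')
    (by rw [List.length_cons, List.length_cons, List.length_cons, List.length_cons]; omega)
  rw [List.map_cons, List.map_cons, List.cons_eq_cons, List.cons_eq_cons] at hψ
  obtain ⟨ψx, ψL, ψv⟩ := hψ
  have h11 := zd_ren hT ψ h10
  rw [map_sub, zd_ren_mon, zd_ren_mon, hW1, hW2] at h11
  simp only [List.map_append, List.map_replicate, List.map_cons, List.map_nil, ψx, ψL, ψv, List.replicate_zero,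
    List.append_nil, List.replicate_one] at h11
  convert h11 using 3
  simp

/-- the commutators -/
private theorem zd_K {p : ℕ} (hp : p.Prime) (h5 : 5 ≤ p) {T : Submodule ℤ P} (hT : IsT T) (hm : Mul p T) {L : ℕ}
    (hD : Dn (L + p - 1) ≤ T) {x : ℕ} (hx : x < L) {μ : ℤ} (hμ : ¬ (p : ℤ) ∣ μ)
    (h : μ • del p x L (Zw p L x) ∈ T) (a b c : ℕ) (w : List ℕ) (hw : w.length + 2 = L) :
    mon (List.replicate (p - 1) a ++ w) * cm b c ∈ T := by
  have h1 := zd_R hp h5 hT hm hD hx hμ h a c (b :: w) (by rw [List.length_cons]; omega)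
  have h2 := zd_R hp h5 hT hm hD hx hμ h a b (c :: w) (by rw [List.length_cons]; omega)
  have h3 := zd_perm hD (u := List.replicate (p - 2) a ++ (c :: b :: w)) (v := List.replicate (p - 2) a ++ (b :: c :: w))
    (w := [a]) (List.Perm.append_left _ (List.Perm.swap _ _ _)) (by simp) (by simp; omega)
  have h4 := zd_perm hD (u := List.replicate (p - 1) a ++ (b :: w)) (v := (List.replicate (p - 1) a ++ w) ++ [b])
    (w := [c]) (by
      rw [List.append_assoc]
      exact List.Perm.append_left _ (List.perm_append_singleton _ _).symm) (by simp) (by simp; omega)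
  have h6 := zd_perm hD (u := List.replicate (p - 1) a ++ (c :: w)) (v := (List.replicate (p - 1) a ++ w) ++ [c])
    (w := [b]) (by
      rw [List.append_assoc]
      exact List.Perm.append_left _ (List.perm_append_singleton _ _).symm) (by simp) (by simp; omega)
  rw [← List.append_assoc] at h1 h2
  have e : mon (List.replicate (p - 1) a ++ w) * cm b c =
      mon (((List.replicate (p - 1) a ++ w) ++ [b]) ++ [c]) - mon (((List.replicate (p - 1) a ++ w) ++ [c]) ++ [b]) := by
    rw [mon_append _ [c], mon_append _ [b], mon_append _ [b], mon_append _ [c]]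
    simp only [mon_single]
    unfold cm
    rw [mul_sub, mul_assoc, mul_assoc]
  rw [e]
  have h7 := T.sub_mem (T.add_mem (T.sub_mem (T.sub_mem h1 h2) h4) h3) (T.neg_mem h6)
  convert h7 using 1
  abel

private theorem zd_final {T : Submodule ℤ P} (hT : IsT T) {m : ℕ} (hD : Dn m ≤ T) {u0 : List ℕ} {b c : ℕ}
    (hu0 : (b :: c :: u0).Nodup) (hl : u0.length + 2 = m) (h : mon u0 * cm b c ∈ T) : Cn m ≤ T := by
  refine (Cn_eq m).trans (sup_le hD (Submodule.span_le.2 ?_))
  rintro f ⟨u, i, j, hu, rfl⟩
  have h1 : ∀ u2 : List ℕ, u2.length = u0.length → mon u2 * cm i j ∈ T := by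
    intro u2 hu2
    obtain ⟨ψ, hψ⟩ := zd_ex hu0 (u := i :: j :: u2)
      (by rw [List.length_cons, List.length_cons, List.length_cons, List.length_cons, hu2])
    rw [List.map_cons, List.map_cons, List.cons_eq_cons, List.cons_eq_cons] at hψ
    obtain ⟨ψb, ψc, ψu⟩ := hψ
    have h2 := zd_ren hT ψ h
    rw [map_mul, zd_ren_mon, ψu] at h2
    unfold cm at h2
    rw [map_sub, map_mul, map_mul, sb_X, sb_X, ψb, ψc] at h2
    exact h2
  have h3 : mon u * cm i j = mon (u.take (u.length - u0.length)) * (mon (u.drop (u.length - u0.length)) * cm i j) := by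
    rw [← mul_assoc, ← mon_append, List.take_append_drop]
  have h4 : mon u * cm i j ∈ T := by
    rw [h3]
    refine hT.mul_left _ (h1 _ ?_) _
    rw [List.length_drop]
    omega
  exact h4

theorem del_Zw {p : ℕ} (hp : p.Prime) (h5 : 5 ≤ p) {T : Submodule ℤ P} (hT : IsT T) (hm : Mul p T) {L : ℕ}
    (hL : 2 ≤ L) (hD : Dn (L + p - 1) ≤ T) {x : ℕ} (hx : x < L) {μ : ℤ} (hμ : ¬ (p : ℤ) ∣ μ)
    (h : μ • del p x L (Zw p L x) ∈ T) : Cn (L + p - 1) ≤ T := by
  set m := L + p - 1 with hmd
  -- the letters `L, ..., m-1` and `2, ..., L-1`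
  set A := (List.range (p - 1)).map (fun i => L + i) with hA
  set Bw := (List.range (L - 2)).map (fun i => 2 + i) with hB
  have hAm : ∀ i, i ∈ A ↔ L ≤ i ∧ i < m := by
    intro i
    rw [hA, List.mem_map]
    constructor
    · rintro ⟨k, hk, rfl⟩
      have := List.mem_range.1 hk
      omega
    · rintro ⟨h1, h2⟩
      exact ⟨i - L, List.mem_range.2 (by omega), by omega⟩
  have hBm : ∀ i, i ∈ Bw ↔ 2 ≤ i ∧ i < L := by
    intro i
    rw [hB, List.mem_map]
    constructor
    · rintro ⟨k, hk, rfl⟩
      have := List.mem_range.1 hk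
      omega
    · rintro ⟨h1, h2⟩
      exact ⟨i - 2, List.mem_range.2 (by omega), by omega⟩
  have hAn : A.Nodup := List.Nodup.map (fun i j h => by simpa using h) List.nodup_range
  have hBn : Bw.Nodup := List.Nodup.map (fun i j h => by simpa using h) List.nodup_range
  have hAl : A.length = p - 1 := by simp [hA]
  have hBl : Bw.length = L - 2 := by simp [hB]
  have hABn : (A ++ Bw).Nodup := by
    refine List.Nodup.append hAn hBn ?_
    intro i hi hi'
    have := (hAm i).1 hi
    have := (hBm i).1 hi'
    omega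
  have hn : (0 :: 1 :: (A ++ Bw)).Nodup := by
    rw [List.nodup_cons, List.nodup_cons]
    refine ⟨?_, ?_, hABn⟩
    · rw [List.mem_cons, List.mem_append, hAm, hBm]
      omega
    · rw [List.mem_append, hAm, hBm]
      omega
  have hperm : ((A ++ Bw) ++ [0, 1]).Perm (List.range m) := by
    refine (List.perm_append_comm (l₁ := A ++ Bw) (l₂ := [0, 1])).trans ?_
    rw [List.cons_append, List.cons_append, List.nil_append]
    rw [List.perm_ext_iff_of_nodup hn List.nodup_range]
    intro i
    rw [List.mem_cons, List.mem_cons, List.mem_append, hAm, hBm, List.mem_range]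
    omega
  have hperm' : ((A ++ Bw) ++ [1, 0]).Perm (List.range m) :=
    (List.Perm.append_left _ (List.Perm.swap _ _ _)).trans hperm
  have ef : ∀ u : List ℕ, mon u * cm 0 1 = mon (u ++ [0, 1]) - mon (u ++ [1, 0]) := by
    intro u
    rw [mon_append, mon_append, mon_cons 0 [1], mon_cons 1 [0], mon_single, mon_single]
    unfold cm
    rw [mul_sub]
  set f := mon (A ++ Bw) * cm 0 1 with hf
  have hfM : f ∈ Ml m := by
    rw [hf, ef]
    exact Submodule.sub_mem _ (Ml_mon hperm) (Ml_mon hperm')
  refine zd_final hT hD hn (by rw [List.length_append, hAl, hBl]; omega) ?_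
  rw [← hf]
  -- collapsed
  have hcol : col L f ∈ T := by
    have e1 : (A ++ Bw).map (fun i => min i L) = List.replicate (p - 1) L ++ Bw := by
      rw [List.map_append]
      congr 1
      · refine List.eq_replicate_iff.2 ⟨by rw [List.length_map, hAl], ?_⟩
        intro b hb
        obtain ⟨i, hi, rfl⟩ := List.mem_map.1 hb
        exact min_eq_right ((hAm i).1 hi).1
      · conv_rhs => rw [← List.map_id Bw]
        refine List.map_congr_left fun i hi => ?_
        exact min_eq_left ((hBm i).1 hi).2.le
    have e2 : col L f = mon (List.replicate (p - 1) L ++ Bw) * cm 0 1 := by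
      rw [hf, ef, map_sub, col_mon, col_mon, List.map_append (l₁ := A ++ Bw) (l₂ := [0, 1]),
        List.map_append (l₁ := A ++ Bw) (l₂ := [1, 0]), e1, ef]
      have e3 : ([0, 1] : List ℕ).map (fun i => min i L) = [0, 1] := by
        simp
        omega
      have e4 : ([1, 0] : List ℕ).map (fun i => min i L) = [1, 0] := by
        simp
        omega
      rw [e3, e4]
    rw [e2]
    exact zd_K hp h5 hT hm hD hx hμ h L 0 1 Bw (by rw [hBl]; omega)
  have hsP : sP m L f ∈ T := by
    rw [← linP_col (by omega) hfM]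
    exact TOp_linP p m L T hT hm.sq _ hcol
  have hσ : ∀ σ ∈ sF m L, rn m σ f - f ∈ T := by
    intro σ hσ
    have p0 : pN m σ 0 = 0 := by
      have h1 := (Finset.mem_filter.1 hσ).2 ⟨0, by omega⟩ (by show 0 < L; omega)
      unfold pN
      rw [dif_pos (by omega), h1]
    have p1 : pN m σ 1 = 1 := by
      have h1 := (Finset.mem_filter.1 hσ).2 ⟨1, by omega⟩ (by show 1 < L; omega)
      unfold pN
      rw [dif_pos (by omega), h1]
    have q1 : ((A ++ Bw).map (pN m σ)).Perm (A ++ Bw) := by
      have q2 := (perm_map σ hperm).trans hperm.symm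
      rw [List.map_append, List.map_cons, List.map_cons, List.map_nil, p0, p1] at q2
      exact (List.perm_append_right_iff _).1 q2
    have q3 : rn m σ f = mon ((A ++ Bw).map (pN m σ)) * cm 0 1 := by
      rw [hf, ef, map_sub, rn_mon, rn_mon, List.map_append (l₁ := A ++ Bw) (l₂ := [0, 1]),
        List.map_append (l₁ := A ++ Bw) (l₂ := [1, 0]), List.map_cons, List.map_cons,
        List.map_nil, List.map_cons, List.map_cons, List.map_nil, p0, p1, ef]
    rw [q3, hf, ef, ef]
    have l1 : ((A ++ Bw).map (pN m σ)).length = m - 2 := by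
      rw [List.length_map, List.length_append, hAl, hBl]
      omega
    have r1 := zd_perm hD q1 (w := [0, 1]) (by simp) (by rw [l1]; simp; omega)
    have r2 := zd_perm hD q1 (w := [1, 0]) (by simp) (by rw [l1]; simp; omega)
    have r3 := T.sub_mem r1 r2
    convert r3 using 1
    abel
  have hsum : sP m L f - (((p - 1).factorial : ℕ) : ℤ) • f ∈ T := by
    have e1 : (sF m L).card = (p - 1).factorial := by
      rw [card_sF (by omega)]
      congr 1
      omega
    have e2 : sP m L f - (((p - 1).factorial : ℕ) : ℤ) • f = ∑ σ ∈ sF m L, (rn m σ f - f) := by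
      unfold sP
      rw [LinearMap.sum_apply, Finset.sum_sub_distrib, Finset.sum_const, e1, natCast_zsmul]
      rfl
    rw [e2]
    exact T.sum_mem hσ
  have h1 : (((p - 1).factorial : ℕ) : ℤ) • f ∈ T := by
    have := T.sub_mem hsP hsum
    rwa [sub_sub_cancel] at this
  refine cancel hp hm.sq ?_ (Ml_Pp (by omega) hfM) h1
  intro hd
  have h2 := Int.natCast_dvd_natCast.1 hd
  have h3 := (hp.dvd_factorial).1 h2
  omega

theorem del_pow {p : ℕ} (hp : p.Prime) (h5 : 5 ≤ p) {T : Submodule ℤ P} (hT : IsT T) (hm : Mul p T)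
    (hD : Dn (p + 1) ≤ T) {x y : ℕ} (hx : x < 2) (hy : y < 2) (hxy : x ≠ y) :
    del p x 2 (X x ^ p * X y) ∈ T ∧ del p y 2 (X x ^ p * X y) = 0 := by
  have e : X x ^ p * X y = mon (List.replicate p x ++ [y]) := by
    rw [mon_append, zd_rep, mon_single]
  constructor
  · have c1 : [y].count x = 0 := by simp [hxy.symm]
    have h1 := zd_expand hp h5 hT hm (n := p) (x := x) (y := 2) (s := [y]) (by simp) hD (by omega)
      (by rw [c1]; omega) (k0 := p - 1) (by omega) (by rw [c1]; omega)
    have h2 : del p x 2 (X x ^ p * X y) = wp (fun w => w.count x % (p - 1) = 0 ∧ x ∈ w) ((X x + X 2) ^ p * mon [y]) := by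
      rw [del_eq, map_mul, map_pow, zd_sb_self, ← mon_single y, zd_sb_id (by simpa using hxy)]
    rw [h2]
    have h3 : p.choose (p - 1) = p := by
      have : p = (p - 1) + 1 := by omega
      conv_lhs => rw [this]
      rw [Nat.add_sub_cancel, Nat.choose_succ_self_right]
      omega
    rw [h3] at h1
    have h4 := hm (mon ((List.replicate (p - 1) x ++ List.replicate (p - (p - 1)) 2) ++ [y])) (mon_mem (by simp))
    have h6 := T.add_mem h1 h4
    rwa [sub_add_cancel] at h6
  · rw [e]
    refine zd_le1 (by omega) y 2 ?_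
    rw [List.count_append, List.count_replicate]
    have h2 : (x == y) = false := by simpa using hxy
    rw [h2]
    simp

end ADC
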