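import Pool.Agent.ADC.GenZ0
import Pool.Agent.ADC.Zdel
import Pool.Agent.ADC.NonM

/-!
# ADC-Z2

One step: if `Dn 4 ≤ J ⊔ Cn m`, `m ≥ p + 3`, then `Dn 4 ≤ J ⊔ Cn (m+1)`.
-/

namespace ADC

open AD ADN

private theorem z2_up {J : Submodule ℤ P} (hJ : IsT J) {m : ℕ} {M : P} (hM : M ∈ J ⊔ Cn m)
    (u v : List ℕ) (huv : 1 ≤ u.length + v.length) : mon u * M * mon v ∈ J ⊔ Cn (m + 1) := by
  obtain ⟨a, ha, c, hc, rfl⟩ := Submodule.mem_sup.1 hM
  rw [mul_add, add_mul]
  refine Submodule.add_mem _ (Submodule.mem_sup_left (IsT.lm hJ _ _ ha)) (Submodule.mem_sup_right ?_)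
  exact Cn_anti (by omega) (Cn_mono_right v (Cn_mono_left u hc))

private theorem z2_gen {n : ℕ} {u v : List ℕ} {i j : ℕ} (hv : v ≠ []) (h : n ≤ u.length + v.length + 2) :
    mon u * (X i * X j - X j * X i) * mon v ∈ Dn n :=
  Submodule.subset_span ⟨u, v, i, j, hv, h, rfl⟩

private theorem z2_five {J : Submodule ℤ P} (hJ : IsT J) {m : ℕ} (h4 : Dn 4 ≤ J ⊔ Cn m) :
    Dn 5 ≤ J ⊔ Cn (m + 1) := by
  refine Submodule.span_le.2 ?_
  rintro f ⟨u, v, i, j, hv, hl, rfl⟩
  obtain ⟨b, v1, rfl⟩ := List.exists_cons_of_ne_nil hv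
  rcases v1 with _ | ⟨b', v2⟩
  · rcases List.eq_nil_or_concat u with rfl | ⟨u1, a, rfl⟩
    · simp at hl
    · have h1 : mon (u1 ++ [a]) * (X i * X j - X j * X i) * mon [b] =
          mon u1 * (mon [a] * (X i * X j - X j * X i) * mon [b]) * mon [] := by
        rw [mon_append, mon_nil, mul_one]
        simp only [mul_assoc]
      rw [SetLike.mem_coe, List.concat_eq_append, h1]
      refine z2_up hJ (h4 (z2_gen (by simp) (by simp))) _ _ ?_
      rw [List.concat_eq_append, List.length_append] at hl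
      simp at hl ⊢
      omega
  · have h1 : mon u * (X i * X j - X j * X i) * mon (b :: b' :: v2) =
        mon u * (mon [] * (X i * X j - X j * X i) * mon [b, b']) * mon v2 := by
      have h2 : mon (b :: b' :: v2) = mon [b, b'] * mon v2 := by
        rw [← mon_append]
        rfl
      rw [h2, mon_nil, one_mul]
      simp only [mul_assoc]
    rw [SetLike.mem_coe, h1]
    refine z2_up hJ (h4 (z2_gen (by simp) (by simp))) _ _ ?_
    simp at hl ⊢
    omega

private theorem z2_split {w : List ℕ} {i p : ℕ} (h : p ≤ w.count i) :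
    ∃ l : List ℕ, w.Perm (List.replicate p i ++ l) := by
  have h1 : Multiset.replicate p i ≤ (w : Multiset ℕ) := by
    rw [← Multiset.le_count_iff_replicate_le, Multiset.coe_count]
    exact h
  obtain ⟨t, ht⟩ := Multiset.le_iff_exists_add.1 h1
  induction t using Quotient.inductionOn with
  | h l =>
    refine ⟨l, ?_⟩
    rw [← Multiset.coe_eq_coe, ht, ← Multiset.coe_add, Multiset.coe_replicate]
    rfl

private theorem z2_rep (p i : ℕ) : mon (List.replicate p i) = X i ^ p := by
  unfold mon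
  rw [List.map_replicate, List.prod_replicate]

private theorem z2_word {p : ℕ} {J : Submodule ℤ P} (h : Tame p J 1 0) {m : ℕ} (hm : p + 3 ≤ m)
    {T : Submodule ℤ P} (hJT : J ≤ T) (hDT : Dn 5 ≤ T) {w : List ℕ} {t x : ℕ}
    (hlen : w.length + 1 = m) (hx : p ≤ w.count x) : mon (w ++ [t]) ∈ T := by
  have h5 := h.five
  obtain ⟨l, hl⟩ := z2_split hx
  have hlen' := hl.length_eq
  rw [List.length_append, List.length_replicate] at hlen'
  obtain ⟨y, l1, rfl⟩ := List.exists_cons_of_ne_nil (l := l) (by rintro rfl; simp at hlen'; omega)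
  rw [List.length_cons] at hlen'
  obtain ⟨z, u, rfl⟩ := List.exists_cons_of_ne_nil (l := l1) (by rintro rfl; simp at hlen'; omega)
  rw [List.length_cons] at hlen'
  have h3 := perm_Dn hl (w := [t]) (by simp)
  have h4 : mon (List.replicate p x ++ y :: z :: u ++ [t]) = X x ^ p * X y * X z * mon (u ++ [t]) := by
    rw [List.append_assoc, mon_append, z2_rep, List.cons_append, List.cons_append, mon_cons,
      mon_cons]
    simp only [mul_assoc]
  obtain ⟨g, hg, c, hc, hgc⟩ := Submodule.mem_sup.1 h.t2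
  have hs : IsSubst (sb (fun j => if j = 0 then X x else if j = 1 then X y else X z)) := by
    apply sb_isSubst
    intro j
    split_ifs <;> exact X_mem _
  have h6 : X x ^ p * X y * X z * mon (u ++ [t]) =
      sb (fun j => if j = 0 then X x else if j = 1 then X y else X z) g * mon (u ++ [t]) +
      sb (fun j => if j = 0 then X x else if j = 1 then X y else X z) c * mon (u ++ [t]) := by
    rw [← add_mul, ← map_add, hgc, map_mul, map_mul, map_pow, sb_X, sb_X, sb_X]
    simp
  have h7 : mon (w ++ [t]) = (mon (w ++ [t]) - mon (List.replicate p x ++ y :: z :: u ++ [t])) +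
      mon (List.replicate p x ++ y :: z :: u ++ [t]) := by abel
  rw [h7]
  refine Submodule.add_mem _ (hDT (Dn_anti (by simp; omega) h3)) ?_
  rw [h4, h6]
  refine Submodule.add_mem _ (hJT (h.isT.mul_right _ (h.isT.subst _ hs g hg) _)) (hDT ?_)
  refine Dn_anti ?_ (Cn_to_Dn (by simp) ((isT_Cn (p + 2)).subst _ hs c hc))
  omega

private theorem z2_sum {w : List ℕ} (h : ∀ a ∈ w, a < 4) :
    w.count 0 + w.count 1 + w.count 2 + w.count 3 = w.length := by
  have := Multiset.sum_count_eq_card (s := Finset.range 4) (m := (w : Multiset ℕ))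
    (fun a ha => Finset.mem_range.2 (h a (by simpa using ha)))
  simpa [Finset.sum_range_succ] using this

/-- congruent to a combination of the `Zw` -/
private def ZQ (p m : ℕ) (T : Submodule ℤ P) (f : P) : Prop :=
  ∃ μ : ℕ → ℤ, (m ≠ p + 3 → ∀ x, μ x = 0) ∧ f - ∑ x ∈ Finset.range 4, μ x • Zw p 4 x ∈ T

private theorem ZQ.of {p m : ℕ} {T : Submodule ℤ P} {f : P} (h : f ∈ T) : ZQ p m T f :=
  ⟨fun _ => 0, fun _ _ => rfl, by simpa using h⟩

private theorem ZQ.add {p m : ℕ} {T : Submodule ℤ P} {f g : P} (h : ZQ p m T f) (h' : ZQ p m T g) :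
    ZQ p m T (f + g) := by
  obtain ⟨μ, h1, h2⟩ := h
  obtain ⟨μ', h1', h2'⟩ := h'
  refine ⟨fun x => μ x + μ' x, fun hm x => by show μ x + μ' x = 0; rw [h1 hm, h1' hm, add_zero], ?_⟩
  have h3 := T.add_mem h2 h2'
  have h4 : f + g - ∑ x ∈ Finset.range 4, (μ x + μ' x) • Zw p 4 x =
      (f - ∑ x ∈ Finset.range 4, μ x • Zw p 4 x) + (g - ∑ x ∈ Finset.range 4, μ' x • Zw p 4 x) := by
    simp only [add_smul, Finset.sum_add_distrib]
    abel
  rw [h4]
  exact h3

private theorem ZQ.smul {p m : ℕ} {T : Submodule ℤ P} {f : P} (c : ℤ) (h : ZQ p m T f) :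
    ZQ p m T (c • f) := by
  obtain ⟨μ, h1, h2⟩ := h
  refine ⟨fun x => c * μ x, fun hm x => by show c * μ x = 0; rw [h1 hm, mul_zero], ?_⟩
  have h3 := T.smul_mem c h2
  have h4 : c • f - ∑ x ∈ Finset.range 4, (c * μ x) • Zw p 4 x =
      c • (f - ∑ x ∈ Finset.range 4, μ x • Zw p 4 x) := by
    rw [smul_sub, Finset.smul_sum]
    congr 1
    exact Finset.sum_congr rfl fun x _ => mul_smul _ _ _
  rw [h4]
  exact h3

private theorem one_of_mod {p a : ℕ} (h5 : 5 ≤ p) (h1 : a % (p - 1) = 1) (h2 : a < p) : a = 1 := by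
  by_cases h : a = p - 1
  · rw [h, Nat.mod_self] at h1
    omega
  · rwa [Nat.mod_eq_of_lt (by omega)] at h1

private theorem z2_q {p : ℕ} {J : Submodule ℤ P} (h : Tame p J 1 0) {m : ℕ} (hm : p + 3 ≤ m)
    {T : Submodule ℤ P} (hJT : J ≤ T) (hDT : Dn 5 ≤ T) {w : List ℕ} (hw : qw p 4 w)
    (hlen : w.length = m) : ZQ p m T (mon w) := by
  have h5 := h.five
  rcases List.eq_nil_or_concat w with rfl | ⟨w', t, rfl⟩
  · simp at hlen
    omega
  rw [List.concat_eq_append] at *
  have hlen' : w'.length + 1 = m := by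
    rw [← hlen]
    simp
  by_cases hex : ∃ x, p ≤ w'.count x
  · obtain ⟨x, hx⟩ := hex
    exact ZQ.of (z2_word h hm hJT hDT hlen' hx)
  push Not at hex
  have ht : t < 4 := hw.1 t (by simp)
  have hcnt : ∀ k, (w' ++ [t]).count k = w'.count k + (if t = k then 1 else 0) := by
    intro k
    rw [List.count_append, List.count_singleton]
    congr 1
    simp only [beq_iff_eq]
  have hoth : ∀ k < 4, k ≠ t → w'.count k = 1 := by
    intro k hk hkt
    have h1 := hw.2 k hk
    rw [hcnt, if_neg (Ne.symm hkt), add_zero] at h1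
    exact one_of_mod h5 h1 (hex k)
  have hsum := z2_sum hw.1
  rw [hlen, hcnt, hcnt, hcnt, hcnt] at hsum
  have htt := hw.2 t ht
  rw [hcnt, if_pos rfl] at htt
  have htp := hex t
  have h4m : w'.count t + 4 = m := by
    have h0 := hoth 0 (by norm_num)
    have h1 := hoth 1 (by norm_num)
    have h2 := hoth 2 (by norm_num)
    have h3 := hoth 3 (by norm_num)
    interval_cases t <;> simp at hsum h0 h1 h2 h3 ⊢ <;> omega
  have hctt : w'.count t = p - 1 := by omega
  have hmp : m = p + 3 := by omega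
  have hperm : w'.Perm (List.replicate (p - 1) t ++ (List.range 4).erase t) := by
    rw [List.perm_iff_count]
    intro k
    rw [List.count_append, List.count_replicate, List.count_erase]
    by_cases hk : k = t
    · subst hk
      rw [hctt]
      have h1 : (List.range 4).count k = 1 :=
        List.count_eq_one_of_mem List.nodup_range (List.mem_range.2 ht)
      rw [h1]
      simp
    · by_cases hk4 : k < 4
      · rw [hoth k hk4 hk, List.count_eq_one_of_mem List.nodup_range (List.mem_range.2 hk4)]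
        simp [Ne.symm hk]
      · have h1 : w'.count k = 0 := List.count_eq_zero.2 fun h1 =>
          hk4 (hw.1 k (List.mem_append_left _ h1))
        have h2 : (List.range 4).count k = 0 := List.count_eq_zero.2 fun h2 =>
          hk4 (List.mem_range.1 h2)
        rw [h1, h2]
        simp [Ne.symm hk]
  have hD := perm_Dn hperm (w := [t]) (by simp)
  refine ⟨fun x => if x = t then 1 else 0, fun h => absurd hmp h, ?_⟩
  have h1 : ∑ x ∈ Finset.range 4, (if x = t then (1 : ℤ) else 0) • Zw p 4 x = Zw p 4 t := by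
    simp only [ite_smul, one_smul, zero_smul]
    rw [Finset.sum_ite_eq', if_pos (Finset.mem_range.2 ht)]
  rw [h1]
  have h2 : Zw p 4 t = mon (List.replicate (p - 1) t ++ (List.range 4).erase t ++ [t]) := by
    unfold Zw
    rw [List.append_assoc]
  rw [h2]
  exact hDT (Dn_anti (by simp; omega) hD)

private theorem z2_proj {p : ℕ} {J : Submodule ℤ P} (h : Tame p J 1 0) {m : ℕ} (hm : p + 3 ≤ m)
    {T : Submodule ℤ P} (hJT : J ≤ T) (hDT : Dn 5 ≤ T) (hCT : Cn (m + 1) ≤ T) {b : P}
    (hb : b ∈ Cn m) : ZQ p m T (wp (qw p 4) b) := by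
  have h1 := wp_Cn (φ := qw p 4) (fun u v h => qw_perm h) hb
  obtain ⟨y, hy⟩ : ∃ y, y = wp (qw p 4) b := ⟨_, rfl⟩
  rw [← hy] at h1 ⊢
  clear hy
  induction h1 using Submodule.span_induction with
  | mem x hx =>
    obtain ⟨u, v, i, j, hl, hq, rfl⟩ := hx
    by_cases hl' : u.length + v.length + 2 = m
    · have h2 : mon u * cm i j * mon v = mon (u ++ i :: j :: v) + (-1 : ℤ) • mon (u ++ j :: i :: v) := by
        unfold cm
        rw [mon_append, mon_append, mon_cons, mon_cons, mon_cons, mon_cons, mul_sub, sub_mul]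
        simp only [mul_assoc]
        rw [neg_one_smul, sub_eq_add_neg]
      rw [h2]
      refine ZQ.add (z2_q h hm hJT hDT hq ?_) (ZQ.smul _ (z2_q h hm hJT hDT ((qw_perm ?_).1 hq) ?_))
      · simp
        omega
      · exact List.Perm.append_left u (List.Perm.swap j i v)
      · simp
        omega
    · exact ZQ.of (hCT (Submodule.subset_span ⟨u, v, i, j, by omega, rfl⟩))
  | zero => exact ZQ.of T.zero_mem
  | add x y _ _ hx hy => exact hx.add hy
  | smul c x _ hx => exact hx.smul c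

private theorem z2_ml {p : ℕ} {J : Submodule ℤ P} (h : Tame p J 1 0) {m : ℕ} (hm : p + 3 ≤ m)
    (h4 : Dn 4 ≤ J ⊔ Cn m) {f : P} (hf : f ∈ Ml 4) (hfD : f ∈ Dn 4) : f ∈ J ⊔ Cn (m + 1) := by
  have h5 := h.five
  have h3 : 3 ≤ p := by omega
  have hJT : J ≤ J ⊔ Cn (m + 1) := le_sup_left
  have hCT : Cn (m + 1) ≤ J ⊔ Cn (m + 1) := le_sup_right
  have hDT := z2_five h.isT h4
  have hT : IsT (J ⊔ Cn (m + 1)) := isT_sup h.isT (isT_Cn _)
  have hmT : Mul p (J ⊔ Cn (m + 1)) := h.mul.mono hJT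
  obtain ⟨a, ha, b, hb, hab⟩ := Submodule.mem_sup.1 (h4 hfD)
  have hq : ZQ p m (J ⊔ Cn (m + 1)) f := by
    have h6 : wp (qw p 4) f = f := Q_iff.1 (Ml_le_Q h3 hf)
    rw [← h6, ← hab, map_add]
    exact (ZQ.of (hJT (TOp_qw h.pp h3 4 J h.isT h.mul.sq a ha))).add
      (z2_proj h hm hJT hDT hCT hb)
  obtain ⟨μ, hμ, hμf⟩ := hq
  have hdel : ∀ y < 4, μ y • del p y 4 (Zw p 4 y) ∈ J ⊔ Cn (m + 1) := by
    intro y hy
    have h6 := TOp_del h.pp h3 y 4 _ hT hmT.sq _ hμf
    rw [map_sub, del_Ml h3 hy hf, zero_sub, map_sum] at h6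
    have h7 : ∑ x ∈ Finset.range 4, del p y 4 (μ x • Zw p 4 x) = μ y • del p y 4 (Zw p 4 y) := by
      rw [Finset.sum_eq_single y]
      · rw [map_smul]
      · intro x hx hxy
        rw [map_smul, del_Zw_ne h3 hy (Finset.mem_range.1 hx) (Ne.symm hxy), smul_zero]
      · intro hy'
        exact absurd (Finset.mem_range.2 hy) hy'
    rw [h7] at h6
    have h8 := Submodule.neg_mem _ h6
    rwa [neg_neg] at h8
  by_cases hall : ∀ y < 4, (p : ℤ) ∣ μ y
  · have h6 : ∑ x ∈ Finset.range 4, μ x • Zw p 4 x ∈ J ⊔ Cn (m + 1) := by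
      refine Submodule.sum_mem _ fun x hx => ?_
      obtain ⟨q, hq⟩ := hall x (Finset.mem_range.1 hx)
      rw [hq, mul_smul]
      refine hmT _ (Submodule.smul_mem _ _ (mon_mem ?_))
      simp
    have h7 := Submodule.add_mem _ hμf h6
    rwa [sub_add_cancel] at h7
  · push Not at hall
    obtain ⟨y, hy, hyp⟩ := hall
    have hmp : m = p + 3 := by
      by_contra hne
      rw [hμ hne] at hyp
      exact hyp (dvd_zero _)
    have h6 := del_Zw h.pp h5 hT hmT (L := 4) (by norm_num) ((Dn_anti (by omega)).trans hDT) hy hyp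
      (hdel y hy)
    have h7 : 4 + p - 1 = m := by omega
    rw [h7] at h6
    exact (sup_le hJT h6) (h4 hfD)

theorem Z2 {p : ℕ} {J : Submodule ℤ P} (h : Tame p J 1 0) {m : ℕ} (hm : p + 3 ≤ m) (h4 : Dn 4 ≤ J ⊔ Cn m) :
    Dn 4 ≤ J ⊔ Cn (m + 1) := by
  have hT : IsT (J ⊔ Cn (m + 1)) := isT_sup h.isT (isT_Cn _)
  have hp1 : ([1, 0, 2, 3] : List ℕ).Perm (List.range 4) := by decide
  have hp2 : ([0, 2, 1, 3] : List ℕ).Perm (List.range 4) := by decide
  have hp3 : ([0, 1, 2, 3] : List ℕ).Perm (List.range 4) := by decide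
  have e1 : cm 0 1 * X 2 * X 3 = mon [0, 1, 2, 3] - mon [1, 0, 2, 3] := by
    unfold cm mon
    simp [sub_mul, mul_assoc]
  have e2 : X 0 * cm 1 2 * X 3 = mon [0, 1, 2, 3] - mon [0, 2, 1, 3] := by
    unfold cm mon
    simp [sub_mul, mul_sub, mul_assoc]
  have F1 : cm 0 1 * X 2 * X 3 ∈ J ⊔ Cn (m + 1) := by
    refine z2_ml h hm h4 ?_ ?_
    · rw [e1]
      exact Submodule.sub_mem _ (Ml_mon hp3) (Ml_mon hp1)
    · have h1 := z2_gen (n := 4) (u := []) (v := [2, 3]) (i := 0) (j := 1) (by simp) (by simp)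
      have h2 : cm 0 1 * X 2 * X 3 = mon [] * (X 0 * X 1 - X 1 * X 0) * mon [2, 3] := by
        unfold cm mon
        simp [mul_assoc]
      rw [h2]
      exact h1
  have F2 : X 0 * cm 1 2 * X 3 ∈ J ⊔ Cn (m + 1) := by
    refine z2_ml h hm h4 ?_ ?_
    · rw [e2]
      exact Submodule.sub_mem _ (Ml_mon hp3) (Ml_mon hp2)
    · have h1 := z2_gen (n := 4) (u := [0]) (v := [3]) (i := 1) (j := 2) (by simp) (by simp)
      have h2 : X 0 * cm 1 2 * X 3 = mon [0] * (X 1 * X 2 - X 2 * X 1) * mon [3] := by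
        unfold cm mon
        simp
      rw [h2]
      exact h1
  refine Submodule.span_le.2 ?_
  rintro f ⟨u, v, i, j, hv, hl, rfl⟩
  by_cases hl5 : 5 ≤ u.length + v.length + 2
  · exact z2_five h.isT h4 (z2_gen hv hl5)
  obtain ⟨a, v1, rfl⟩ := List.exists_cons_of_ne_nil hv
  rcases v1 with _ | ⟨b, v2⟩
  · rcases u with _ | ⟨c, u1⟩
    · simp at hl
    · have hu1 : u1 = [] := by
        rw [← List.length_eq_zero_iff]
        rw [List.length_cons, List.length_singleton] at hl5
        omega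
      subst hu1
      have h1 := sb_mem hT (φ := fun k => if k = 0 then X c else if k = 1 then X i else
        if k = 2 then X j else X a) (by intro k; split_ifs <;> exact X_mem _) F2
      unfold cm at h1
      rw [map_mul, map_mul, map_sub, map_mul, map_mul, sb_X, sb_X, sb_X, sb_X] at h1
      rw [SetLike.mem_coe, mon_single, mon_single]
      simpa using h1
  · have hu : u = [] := by
      rw [← List.length_eq_zero_iff]
      simp at hl5
      omega
    have hv2 : v2 = [] := by
      rw [← List.length_eq_zero_iff]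
      simp at hl5
      omega
    subst hu
    subst hv2
    have h1 := sb_mem hT (φ := fun k => if k = 0 then X i else if k = 1 then X j else
      if k = 2 then X a else X b) (by intro k; split_ifs <;> exact X_mem _) F1
    unfold cm at h1
    rw [map_mul, map_mul, map_sub, map_mul, map_mul, sb_X, sb_X, sb_X, sb_X] at h1
    rw [SetLike.mem_coe, mon_nil, one_mul, mon_cons, mon_single]
    simpa [mul_assoc] using h1

/-- `Dn 4 ≤ J` -/
theorem GenZ {p : ℕ} {J : Submodule ℤ P} (h : Tame p J 1 0) : Dn 4 ≤ J := by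
  obtain ⟨N, hN⟩ := h.nil
  have key : ∀ k, Dn 4 ≤ J ⊔ Cn (p + 3 + k) := by
    intro k
    induction k with
    | zero =>
      have h1 := GenZ0 h 4 le_rfl
      have h2 : 4 + (p - 1) = p + 3 + 0 := by
        have := h.five
        omega
      rwa [h2] at h1
    | succ k ih => exact Z2 h (m := p + 3 + k) (by omega) ih
  have h1 := key N
  refine h1.trans (sup_le le_rfl ((Cn_anti (by omega)).trans (Cn_nil hN)))

end ADC
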