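import Pool.Agent.ADC.Z5

/-!
# ADC-Z6: type `g = 0`: `x^p y z` and `[x,y] x` lie in `J`
-/

namespace ADC

open AD ADN

private theorem z6_len {w : List ℕ} (h : ∀ i ∈ w, i < 3) :
    w.length = w.count 0 + w.count 1 + w.count 2 := by
  induction w with
  | nil => rfl
  | cons a w ih =>
    have h1 := ih fun i hi => h i (List.mem_cons_of_mem a hi)
    have h2 := h a List.mem_cons_self
    rw [List.length_cons, h1]
    have h3 : a = 0 ∨ a = 1 ∨ a = 2 := by omega
    rcases h3 with rfl | rfl | rfl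
    · rw [List.count_cons_self, List.count_cons_of_ne (by norm_num),
        List.count_cons_of_ne (by norm_num)]
      omega
    · rw [List.count_cons_self, List.count_cons_of_ne (by norm_num),
        List.count_cons_of_ne (by norm_num)]
      omega
    · rw [List.count_cons_self, List.count_cons_of_ne (by norm_num),
        List.count_cons_of_ne (by norm_num)]
      omega

private theorem z6_rep (n i : ℕ) : mon (List.replicate n i) = X i ^ n := by
  unfold mon
  rw [List.map_replicate, List.prod_replicate]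

private theorem z6_S (p l s t : ℕ) :
    mon (List.replicate p l ++ [s, t]) = X l ^ p * X s * X t := by
  rw [mon_append, z6_rep, mon_cons, mon_single, mul_assoc]

private theorem z6_perm {J : Submodule ℤ P} (hD : Dn 4 ≤ J) {u v : List ℕ} (h : u.Perm v)
    {w : List ℕ} (hw : w ≠ []) (hl : 4 ≤ u.length + w.length) :
    mon (u ++ w) - mon (v ++ w) ∈ J :=
  hD (Dn_anti hl (perm_Dn h hw))

private theorem z6_sub (l s t : ℕ) (i : ℕ) :
    (if i = 0 then X l else if i = 1 then X s else if i = 2 then X t else X i) ∈ Pp := by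
  split_ifs
  · exact X_mem l
  · exact X_mem s
  · exact X_mem t
  · exact X_mem i

/-- the letter that occurs `p` times and the other letter that is not the last one can be interchanged -/
private theorem z6_a {p : ℕ} {J : Submodule ℤ P} (h : Tame p J 1 0) (hD : Dn 4 ≤ J) (l s t : ℕ) :
    mon (List.replicate p l ++ [s, t]) - mon (List.replicate p s ++ [l, t]) ∈ J := by
  have h5 := h.five
  have e : X 0 ^ p * X 1 * X 2 - X 0 * X 1 ^ p * X 2 ∈ J := by
    obtain ⟨j, hj, c, hc, hjc⟩ := Submodule.mem_sup.1 h.t3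
    have e1 : X 0 ^ p * X 1 * X 2 - X 0 * X 1 ^ p * X 2 = j * X 2 + c * mon [2] := by
      rw [mon_single, ← add_mul, hjc, sub_mul]
    rw [e1]
    refine J.add_mem (h.isT.mul_right _ hj _) (hD ?_)
    have h1 := Cn_to_Dn (w := [2]) (by simp) hc
    refine Dn_anti ?_ h1
    rw [List.length_singleton]
    omega
  have h1 := sb_mem h.isT (z6_sub l s t) e
  rw [map_sub, map_mul, map_mul, map_mul, map_mul, map_pow, map_pow, sb_X, sb_X, sb_X] at h1
  have h2 : X l ^ p * X s * X t - X l * X s ^ p * X t ∈ J := h1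
  have hp0 : (l :: List.replicate p s).Perm (List.replicate p s ++ [l]) :=
    List.perm_append_comm (l₁ := [l]) (l₂ := List.replicate p s)
  have h3 := z6_perm hD (u := l :: List.replicate p s) (v := List.replicate p s ++ [l])
    hp0 (w := [t]) (by simp) (by simp; omega)
  have h4 : mon (l :: List.replicate p s ++ [t]) = X l * X s ^ p * X t := by
    rw [mon_append, mon_cons, z6_rep, mon_single]
  rw [h4, List.append_assoc] at h3
  rw [z6_S]
  have h6 := J.add_mem h2 h3
  have h7 : X l ^ p * X s * X t - X l * X s ^ p * X t +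
      (X l * X s ^ p * X t - mon (List.replicate p s ++ ([l] ++ [t]))) =
      X l ^ p * X s * X t - mon (List.replicate p s ++ [l, t]) := by
    rw [sub_add_sub_cancel]
    rfl
  rw [h7] at h6
  exact h6

private theorem z6_b {p : ℕ} {J : Submodule ℤ P} (h : Tame p J 1 0) (hD : Dn 4 ≤ J)
    (h2 : X 0 ^ p * X 1 - X 1 ^ p * X 0 ∈ J) (l m s : ℕ) :
    mon (List.replicate p l ++ [m, s]) - mon (List.replicate p s ++ [m, l]) ∈ J := by
  have h5 := h.five
  have h1 := sb_mem h.isT (z6_sub l s m) h2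
  rw [map_sub, map_mul, map_mul, map_pow, map_pow, sb_X, sb_X] at h1
  have h3 : X m * (X l ^ p * X s - X s ^ p * X l) ∈ J := h.isT.mul_left _ h1 _
  have key : ∀ a b : ℕ, X m * (X a ^ p * X b) - mon (List.replicate p a ++ [m, b]) ∈ J := by
    intro a b
    have h3 := z6_perm hD (u := [m] ++ List.replicate p a) (v := List.replicate p a ++ [m])
      List.perm_append_comm (w := [b]) (by simp) (by simp; omega)
    have h4 : mon ([m] ++ List.replicate p a ++ [b]) = X m * (X a ^ p * X b) := by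
      rw [mon_append, mon_append, mon_single, z6_rep, mon_single, mul_assoc]
    rw [h4, List.append_assoc] at h3
    exact h3
  have h6 := J.sub_mem (J.add_mem h3 (key s l)) (key l s)
  have h7 : X m * (X l ^ p * X s - X s ^ p * X l) +
      (X m * (X s ^ p * X l) - mon (List.replicate p s ++ [m, l])) -
      (X m * (X l ^ p * X s) - mon (List.replicate p l ++ [m, s])) =
      mon (List.replicate p l ++ [m, s]) - mon (List.replicate p s ++ [m, l]) := by
    rw [mul_sub]
    abel
  rw [h7] at h6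
  exact h6

private theorem z6_trans {J : Submodule ℤ P} {a b c : P} (h1 : a - b ∈ J) (h2 : b - c ∈ J) :
    a - c ∈ J := by
  have h3 := J.add_mem h1 h2
  rwa [sub_add_sub_cancel] at h3

private theorem z6_all {p : ℕ} {J : Submodule ℤ P} (h : Tame p J 1 0) (hD : Dn 4 ≤ J)
    (h2 : X 0 ^ p * X 1 - X 1 ^ p * X 0 ∈ J) {l s t : ℕ} (hl : l < 3) (hs : s < 3) (ht : t < 3)
    (h1 : l ≠ s) (h3 : l ≠ t) (h4 : s ≠ t) :
    mon (List.replicate p l ++ [s, t]) - X 0 ^ p * X 1 * X 2 ∈ J := by
  rw [← z6_S]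
  have e1 : mon (List.replicate p 0 ++ [1, 2]) - mon (List.replicate p 0 ++ [1, 2]) ∈ J := by
    rw [sub_self]
    exact J.zero_mem
  have e2 := z6_a h hD 1 0 2
  have e3 := z6_b h hD h2 2 1 0
  have e4 := z6_trans (z6_a h hD 1 2 0) e3
  have e5 := z6_trans (z6_b h hD h2 0 2 1) e4
  have e6 := z6_trans (z6_a h hD 2 0 1) e5
  have k1 : l = 0 ∨ l = 1 ∨ l = 2 := by omega
  have k2 : s = 0 ∨ s = 1 ∨ s = 2 := by omega
  have k3 : t = 0 ∨ t = 1 ∨ t = 2 := by omega
  rcases k1 with rfl | rfl | rfl <;> rcases k2 with rfl | rfl | rfl <;>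
    rcases k3 with rfl | rfl | rfl <;>
    first
    | exact absurd rfl h1
    | exact absurd rfl h3
    | exact absurd rfl h4
    | exact e1
    | exact e2
    | exact e3
    | exact e4
    | exact e5
    | exact e6

private theorem z6_class {p : ℕ} (h5 : 5 ≤ p) {w : List ℕ} (hw : qw p 3 w)
    (hl : w.length = p + 2) : ∃ l < 3, w.count l = p ∧ ∀ i < 3, i ≠ l → w.count i = 1 := by
  have h1 := z6_len hw.1
  have e0 := Nat.div_add_mod (w.count 0) (p - 1)
  have e1 := Nat.div_add_mod (w.count 1) (p - 1)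
  have e2 := Nat.div_add_mod (w.count 2) (p - 1)
  rw [hw.2 0 (by norm_num)] at e0
  rw [hw.2 1 (by norm_num)] at e1
  rw [hw.2 2 (by norm_num)] at e2
  generalize w.count 0 / (p - 1) = k0 at e0
  generalize w.count 1 / (p - 1) = k1 at e1
  generalize w.count 2 / (p - 1) = k2 at e2
  have hq : (p - 1) * (k0 + k1 + k2) = (p - 1) * 1 := by
    rw [mul_add, mul_add]
    omega
  have hk : k0 + k1 + k2 = 1 := Nat.eq_of_mul_eq_mul_left (by omega) hq
  have hcases : (k0 = 1 ∧ k1 = 0 ∧ k2 = 0) ∨ (k0 = 0 ∧ k1 = 1 ∧ k2 = 0) ∨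
      (k0 = 0 ∧ k1 = 0 ∧ k2 = 1) := by omega
  rcases hcases with ⟨rfl, rfl, rfl⟩ | ⟨rfl, rfl, rfl⟩ | ⟨rfl, rfl, rfl⟩
  · refine ⟨0, by norm_num, by omega, fun i hi hne => ?_⟩
    have : i = 1 ∨ i = 2 := by omega
    rcases this with rfl | rfl <;> omega
  · refine ⟨1, by norm_num, by omega, fun i hi hne => ?_⟩
    have : i = 0 ∨ i = 2 := by omega
    rcases this with rfl | rfl <;> omega
  · refine ⟨2, by norm_num, by omega, fun i hi hne => ?_⟩
    have : i = 0 ∨ i = 1 := by omega
    rcases this with rfl | rfl <;> omega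

private theorem z6_long {p : ℕ} {J : Submodule ℤ P} (h : Tame p J 1 0) {u : List ℕ} {t : ℕ}
    (hw : qw p 3 (u ++ [t])) (hl : p + 3 ≤ (u ++ [t]).length) : mon (u ++ [t]) ∈ J := by
  have h5 := h.five
  have hex : ∃ i, p ≤ (u ++ [t]).dropLast.count i := by
    rw [List.dropLast_concat]
    by_contra hcon
    push Not at hcon
    have h1 := z6_len hw.1
    have hc : ∀ i, (u ++ [t]).count i = u.count i + if t = i then 1 else 0 := by
      intro i
      rw [List.count_append, List.count_singleton]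
      simp
    have hone : ∀ i < 3, i ≠ t → (u ++ [t]).count i = 1 := by
      intro i hi hne
      have h2 := hcon i
      have h3 := hc i
      rw [if_neg (Ne.symm hne)] at h3
      have e0 := Nat.div_add_mod ((u ++ [t]).count i) (p - 1)
      rw [hw.2 i hi] at e0
      generalize (u ++ [t]).count i / (p - 1) = k0 at e0
      have hk : k0 = 0 := by
        by_contra hk
        have h6 : p - 1 ≤ (p - 1) * k0 := Nat.le_mul_of_pos_right _ (Nat.pos_of_ne_zero hk)
        omega
      rw [hk, mul_zero] at e0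
      omega
    have ht : t < 3 := hw.1 t (List.mem_append_right _ (List.mem_singleton.2 rfl))
    have hlast : (u ++ [t]).count t ≤ p := by
      have h2 := hcon t
      have h3 := hc t
      rw [if_pos rfl] at h3
      omega
    have k3 : t = 0 ∨ t = 1 ∨ t = 2 := by omega
    rcases k3 with rfl | rfl | rfl
    · have g1 := hone 1 (by norm_num) (by norm_num)
      have g2 := hone 2 (by norm_num) (by norm_num)
      omega
    · have g1 := hone 0 (by norm_num) (by norm_num)
      have g2 := hone 2 (by norm_num) (by norm_num)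
      omega
    · have g1 := hone 0 (by norm_num) (by norm_num)
      have g2 := hone 1 (by norm_num) (by norm_num)
      omega
  obtain ⟨i, hi⟩ := hex
  exact Zlong h hl hi

private theorem z6_zero {w : List ℕ} (h : ∀ i ∈ w, i < 3) {a : ℕ} (ha : ¬ a < 3) :
    w.count a = 0 := List.count_eq_zero_of_not_mem fun hm => ha (h a hm)

private theorem z6_word1 {p : ℕ} {J : Submodule ℤ P} (h : Tame p J 1 0) (hD : Dn 4 ≤ J)
    (h2 : X 0 ^ p * X 1 - X 1 ^ p * X 0 ∈ J) {u : List ℕ} {t l : ℕ}
    (hw : ∀ i ∈ u ++ [t], i < 3) (hl : (u ++ [t]).length = p + 2) (hl3 : l < 3)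
    (hc : (u ++ [t]).count l = p) (ho : ∀ i < 3, i ≠ l → (u ++ [t]).count i = 1) (htl : t ≠ l) :
    mon (u ++ [t]) - X 0 ^ p * X 1 * X 2 ∈ J := by
  have h5 := h.five
  have ht : t < 3 := hw t (List.mem_append_right _ (List.mem_singleton.2 rfl))
  obtain ⟨s, hs3, hsl, hst, hall⟩ : ∃ s < 3, s ≠ l ∧ s ≠ t ∧ ∀ a < 3, a = l ∨ a = s ∨ a = t :=
    ⟨3 - l - t, by omega, by omega, by omega, by intro a ha; omega⟩
  have hperm : (u ++ [t]).Perm (List.replicate p l ++ [s] ++ [t]) := by
    rw [List.perm_iff_count]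
    intro a
    have e1 : (List.replicate p l ++ [s] ++ [t]).count a =
        (if l = a then p else 0) + (if s = a then 1 else 0) + (if t = a then 1 else 0) := by
      rw [List.count_append, List.count_append, List.count_replicate, List.count_singleton,
        List.count_singleton]
      simp
    rw [e1]
    by_cases ha : a < 3
    · rcases hall a ha with rfl | rfl | rfl
      · rw [if_pos rfl, if_neg hsl, if_neg htl, hc, add_zero, add_zero]
      · rw [if_neg (Ne.symm hsl), if_pos rfl, if_neg (Ne.symm hst), ho _ hs3 hsl]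
      · rw [if_neg (Ne.symm htl), if_neg hst, if_pos rfl, ho _ ht htl]
    · rw [z6_zero hw ha, if_neg (by omega), if_neg (by omega), if_neg (by omega)]
  have hperm2 : u.Perm (List.replicate p l ++ [s]) := (List.perm_append_right_iff _).1 hperm
  have h3 := z6_perm hD hperm2 (w := [t]) (by simp) (by
    have : u.length + 1 = p + 2 := by simpa using hl
    rw [List.length_singleton]
    omega)
  rw [List.append_assoc] at h3
  have h4 := z6_all h hD h2 hl3 hs3 ht (Ne.symm hsl) (Ne.symm htl) hst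
  exact z6_trans h3 h4

private theorem z6_word2 {p : ℕ} {J : Submodule ℤ P} (h : Tame p J 1 0) (hD : Dn 4 ≤ J)
    {u : List ℕ} {l : ℕ}
    (hw : ∀ i ∈ u ++ [l], i < 3) (hl : (u ++ [l]).length = p + 2) (hl3 : l < 3)
    (hc : (u ++ [l]).count l = p) (ho : ∀ i < 3, i ≠ l → (u ++ [l]).count i = 1) :
    mon (u ++ [l]) - Zw p 3 l ∈ J := by
  have h5 := h.five
  have hperm : (u ++ [l]).Perm (List.replicate (p - 1) l ++ (List.range 3).erase l ++ [l]) := by
    rw [List.perm_iff_count]
    intro a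
    have e1 : (List.replicate (p - 1) l ++ (List.range 3).erase l ++ [l]).count a =
        (if l = a then p - 1 else 0) + ((List.range 3).erase l).count a +
          (if l = a then 1 else 0) := by
      rw [List.count_append, List.count_append, List.count_replicate, List.count_singleton]
      simp
    rw [e1]
    by_cases ha : a < 3
    · by_cases hal : l = a
      · subst hal
        have e2 : ((List.range 3).erase l).count l = 0 := by
          rw [List.count_erase_self, List.count_eq_one_of_mem List.nodup_range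
            (List.mem_range.2 hl3)]
        rw [if_pos rfl, if_pos rfl, e2, hc]
        omega
      · have e2 : ((List.range 3).erase l).count a = 1 := by
          rw [List.count_erase_of_ne (Ne.symm hal), List.count_eq_one_of_mem List.nodup_range
            (List.mem_range.2 ha)]
        rw [if_neg hal, if_neg hal, e2, ho a ha (Ne.symm hal)]
    · have hal : ¬ l = a := by omega
      have e2 : ((List.range 3).erase l).count a = 0 := by
        rw [List.count_erase_of_ne (Ne.symm hal)]
        exact List.count_eq_zero_of_not_mem fun hm => ha (List.mem_range.1 hm)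
      rw [z6_zero hw ha, if_neg hal, if_neg hal, e2]
  have hperm2 : u.Perm (List.replicate (p - 1) l ++ (List.range 3).erase l) :=
    (List.perm_append_right_iff _).1 hperm
  have h3 := z6_perm hD hperm2 (w := [l]) (by simp) (by
    have : u.length + 1 = p + 2 := by simpa using hl
    rw [List.length_singleton]
    omega)
  rw [List.append_assoc] at h3
  exact h3

private theorem z6_gen {p : ℕ} {J : Submodule ℤ P} (h : Tame p J 1 0) (hD : Dn 4 ≤ J)
    (h2 : X 0 ^ p * X 1 - X 1 ^ p * X 0 ∈ J) {u v : List ℕ} {i j : ℕ}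
    (hn : p + 2 ≤ u.length + v.length + 2) (hq : qw p 3 (u ++ i :: j :: v)) :
    mon u * cm i j * mon v ∈ J ⊔ Submodule.span ℤ {g | ∃ l < 3,
      g = X 0 ^ p * X 1 * X 2 - Zw p 3 l} := by
  have h5 := h.five
  by_cases hv : v = []
  · subst hv
    have e1 : mon u * cm i j * mon [] = mon ((u ++ [i]) ++ [j]) - mon ((u ++ [j]) ++ [i]) := by
      rw [mon_nil, mul_one, mon_append, mon_append, mon_append, mon_append, mon_single,
        mon_single]
      unfold cm
      rw [mul_sub, mul_assoc, mul_assoc]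
    have q1 : qw p 3 ((u ++ [i]) ++ [j]) := by
      rw [List.append_assoc]
      exact hq
    have hperm : ((u ++ [i]) ++ [j]).Perm ((u ++ [j]) ++ [i]) := by
      rw [List.append_assoc, List.append_assoc]
      exact List.Perm.append_left u (List.Perm.swap j i [])
    have q2 : qw p 3 ((u ++ [j]) ++ [i]) := (qw_perm hperm).1 q1
    have l1 : ((u ++ [i]) ++ [j]).length = u.length + 2 := by simp
    have l2 : ((u ++ [j]) ++ [i]).length = u.length + 2 := by simp
    rw [e1]
    rw [List.length_nil] at hn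
    by_cases hlen : u.length + 2 = p + 2
    · obtain ⟨l, hl3, hc, ho⟩ := z6_class h5 q1 (by omega)
      have hc' : ((u ++ [j]) ++ [i]).count l = p := by rw [← hperm.count_eq]; exact hc
      have ho' : ∀ a < 3, a ≠ l → ((u ++ [j]) ++ [i]).count a = 1 := by
        intro a ha hne
        rw [← hperm.count_eq]
        exact ho a ha hne
      have hmem : X 0 ^ p * X 1 * X 2 - Zw p 3 l ∈ Submodule.span ℤ {g | ∃ l < 3,
          g = X 0 ^ p * X 1 * X 2 - Zw p 3 l} := Submodule.subset_span ⟨l, hl3, rfl⟩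
      by_cases hj : j = l
      · subst hj
        have g1 := z6_word2 h hD q1.1 (by omega) hl3 hc ho
        by_cases hi : i = j
        · subst hi
          rw [sub_self]
          exact Submodule.zero_mem _
        · have g2 := z6_word1 h hD h2 q2.1 (by omega) hl3 hc' ho' hi
          have g3 : mon ((u ++ [i]) ++ [j]) - mon ((u ++ [j]) ++ [i]) =
              ((mon ((u ++ [i]) ++ [j]) - Zw p 3 j) -
                (mon ((u ++ [j]) ++ [i]) - X 0 ^ p * X 1 * X 2)) +
                (-(X 0 ^ p * X 1 * X 2 - Zw p 3 j)) := by abel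
          rw [g3]
          exact Submodule.add_mem_sup (J.sub_mem g1 g2) (Submodule.neg_mem _ hmem)
      · have g1 := z6_word1 h hD h2 q1.1 (by omega) hl3 hc ho hj
        by_cases hi : i = l
        · subst hi
          have g2 := z6_word2 h hD q2.1 (by omega) hl3 hc' ho'
          have g3 : mon ((u ++ [i]) ++ [j]) - mon ((u ++ [j]) ++ [i]) =
              ((mon ((u ++ [i]) ++ [j]) - X 0 ^ p * X 1 * X 2) -
                (mon ((u ++ [j]) ++ [i]) - Zw p 3 i)) +
                (X 0 ^ p * X 1 * X 2 - Zw p 3 i) := by abel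
          rw [g3]
          exact Submodule.add_mem_sup (J.sub_mem g1 g2) hmem
        · have g2 := z6_word1 h hD h2 q2.1 (by omega) hl3 hc' ho' hi
          have g3 : mon ((u ++ [i]) ++ [j]) - mon ((u ++ [j]) ++ [i]) =
              (mon ((u ++ [i]) ++ [j]) - X 0 ^ p * X 1 * X 2) -
                (mon ((u ++ [j]) ++ [i]) - X 0 ^ p * X 1 * X 2) := by abel
          rw [g3]
          exact Submodule.mem_sup_left (J.sub_mem g1 g2)
    · exact Submodule.mem_sup_left (J.sub_mem (z6_long h q1 (by omega)) (z6_long h q2 (by omega)))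
  · exact Submodule.mem_sup_left (hD (Submodule.subset_span ⟨u, v, i, j, hv, by omega, rfl⟩))

private theorem z6_span {G : ℕ → P} {g : P} (hg : g ∈ Submodule.span ℤ {g | ∃ l < 3, g = G l}) :
    ∃ μ : ℕ → ℤ, g = ∑ l ∈ Finset.range 3, μ l • G l := by
  induction hg using Submodule.span_induction with
  | mem x hx =>
    obtain ⟨l, hl, rfl⟩ := hx
    refine ⟨fun i => if i = l then 1 else 0, ?_⟩
    rw [Finset.sum_eq_single l]
    · show G l = (if l = l then (1 : ℤ) else 0) • G l
      rw [if_pos rfl, one_smul]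
    · intro i _ hi
      show (if i = l then (1 : ℤ) else 0) • G i = 0
      rw [if_neg hi, zero_smul]
    · intro hl'
      exact absurd (Finset.mem_range.2 hl) hl'
  | zero => exact ⟨fun _ => 0, by simp⟩
  | add x y _ _ hx hy =>
    obtain ⟨μ, rfl⟩ := hx
    obtain ⟨ν, rfl⟩ := hy
    refine ⟨fun i => μ i + ν i, ?_⟩
    rw [← Finset.sum_add_distrib]
    exact Finset.sum_congr rfl fun i _ => (add_smul _ _ _).symm
  | smul c x _ hx =>
    obtain ⟨μ, rfl⟩ := hx
    refine ⟨fun i => c * μ i, ?_⟩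
    rw [Finset.smul_sum]
    exact Finset.sum_congr rfl fun i _ => (mul_smul _ _ _).symm

private theorem z6_Cn {p : ℕ} {J : Submodule ℤ P} (h : Tame p J 1 0) (hD : Dn 4 ≤ J)
    (h2 : X 0 ^ p * X 1 - X 1 ^ p * X 0 ∈ J) {f : P} (hf : f ∈ Cn (p + 2)) :
    ∃ μ : ℕ → ℤ, wp (qw p 3) f -
      ∑ l ∈ Finset.range 3, μ l • (X 0 ^ p * X 1 * X 2 - Zw p 3 l) ∈ J := by
  have h1 := wp_Cn (φ := qw p 3) (fun u v h => qw_perm h) hf
  have h3 : wp (qw p 3) f ∈ J ⊔ Submodule.span ℤ {g | ∃ l < 3,
      g = X 0 ^ p * X 1 * X 2 - Zw p 3 l} := by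
    refine (Submodule.span_le.2 ?_ : _ ≤ _) h1
    rintro g ⟨u, v, i, j, hn, hq, rfl⟩
    exact z6_gen h hD h2 hn hq
  obtain ⟨j, hj, c, hc, hjc⟩ := Submodule.mem_sup.1 h3
  obtain ⟨μ, rfl⟩ := z6_span (G := fun l => X 0 ^ p * X 1 * X 2 - Zw p 3 l) hc
  refine ⟨μ, ?_⟩
  rw [← hjc, add_sub_cancel_right]
  exact hj

private theorem z6_Zw_Pp {p n i : ℕ} : Zw p n i ∈ Pp := by
  unfold Zw
  refine mon_mem ?_
  simp

/-- `del` kills the words in which the letter occurs once -/
private theorem z6_del_one {p : ℕ} (h3 : 3 ≤ p) {y : ℕ} (hy : y < 3) {u v : List ℕ} (hu : y ∉ u)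
    (hv : y ∉ v) : del p y 3 (mon (u ++ y :: v)) = 0 := by
  unfold del
  rw [LinearMap.comp_apply, tl_apply, sb_mon, List.map_append, List.prod_append, List.map_cons,
    List.prod_cons]
  have hmap : ∀ w : List ℕ, y ∉ w →
      (w.map fun j => if j = y then X y + X 3 else X j).prod = mon w := by
    intro w hw
    unfold mon
    congr 1
    refine List.map_congr_left fun j hj => ?_
    rw [if_neg]
    rintro rfl
    exact hw hj
  rw [hmap u hu, hmap v hv, if_pos rfl]
  have e1 : mon u * ((X y + X 3) * mon v) = mon (u ++ y :: v) + mon (u ++ 3 :: v) := by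
    rw [mon_append, mon_append, mon_cons, mon_cons, add_mul, mul_add]
  rw [e1, map_add, wp_neg, wp_neg, add_zero]
  · rintro ⟨-, hm⟩
    rcases List.mem_append.1 hm with h1 | h1
    · exact hu h1
    · rcases List.mem_cons.1 h1 with h1 | h1
      · omega
      · exact hv h1
  · rintro ⟨hc, -⟩
    rw [List.count_append, List.count_cons_self, List.count_eq_zero_of_not_mem hu,
      List.count_eq_zero_of_not_mem hv] at hc
    rw [Nat.mod_eq_of_lt (by omega)] at hc
    omega

private theorem z6_del_S {p : ℕ} {J : Submodule ℤ P} (h : Tame p J 1 0) (hD : Dn 4 ≤ J)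
    (h2 : X 0 ^ p * X 1 - X 1 ^ p * X 0 ∈ J) {y : ℕ} (hy : y < 3) :
    del p y 3 (X 0 ^ p * X 1 * X 2) ∈ J := by
  have h5 := h.five
  obtain ⟨l, t, hl, ht, h1, h3, h4⟩ : ∃ l t : ℕ, l < 3 ∧ t < 3 ∧ l ≠ y ∧ l ≠ t ∧ y ≠ t := by
    have k1 : y = 0 ∨ y = 1 ∨ y = 2 := by omega
    rcases k1 with rfl | rfl | rfl
    · exact ⟨1, 2, by norm_num, by norm_num, by norm_num, by norm_num, by norm_num⟩
    · exact ⟨0, 2, by norm_num, by norm_num, by norm_num, by norm_num, by norm_num⟩
    · exact ⟨0, 1, by norm_num, by norm_num, by norm_num, by norm_num, by norm_num⟩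
  have g1 := z6_all h hD h2 hl hy ht h1 h3 h4
  have g2 := TOp_del h.pp (by omega) y 3 J h.isT h.mul.sq _ g1
  rw [map_sub] at g2
  have g3 : del p y 3 (mon (List.replicate p l ++ [y, t])) = 0 := by
    apply z6_del_one (by omega) hy
    · intro hm
      exact h1 (List.eq_of_mem_replicate hm).symm
    · rw [List.mem_singleton]
      exact h4
  rw [g3, zero_sub] at g2
  exact (Submodule.neg_mem_iff _).1 g2

/-- the coefficients of the words `Zw` are divisible by `p` -/
private theorem z6_coef {p : ℕ} {J : Submodule ℤ P} (h : Tame p J 1 0) (hD : Dn 4 ≤ J)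
    (h2 : X 0 ^ p * X 1 - X 1 ^ p * X 0 ∈ J) (hC : ¬ Cn (p + 2) ≤ J) {f : P} {μ : ℕ → ℤ}
    (hf : f - ∑ l ∈ Finset.range 3, μ l • (X 0 ^ p * X 1 * X 2 - Zw p 3 l) ∈ J)
    (hdel : ∀ y < 3, del p y 3 f ∈ J) : f ∈ J := by
  have h5 := h.five
  have hdiv : ∀ y < 3, (p : ℤ) ∣ μ y := by
    intro y hy
    by_contra hμ
    apply hC
    have g1 := TOp_del h.pp (by omega) y 3 J h.isT h.mul.sq _ hf
    rw [map_sub, map_sum] at g1
    have g2 : ∑ l ∈ Finset.range 3, del p y 3 (μ l • (X 0 ^ p * X 1 * X 2 - Zw p 3 l)) =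
        (∑ l ∈ Finset.range 3, μ l • del p y 3 (X 0 ^ p * X 1 * X 2)) -
          μ y • del p y 3 (Zw p 3 y) := by
      have g3 : ∀ l ∈ Finset.range 3, del p y 3 (μ l • (X 0 ^ p * X 1 * X 2 - Zw p 3 l)) =
          μ l • del p y 3 (X 0 ^ p * X 1 * X 2) -
            (if l = y then μ y • del p y 3 (Zw p 3 y) else 0) := by
        intro l hl
        rw [map_smul, map_sub, smul_sub]
        congr 1
        by_cases hly : l = y
        · rw [if_pos hly, hly]
        · rw [if_neg hly, del_Zw_ne (by omega) hy (Finset.mem_range.1 hl) (Ne.symm hly),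
            smul_zero]
      rw [Finset.sum_congr rfl g3, Finset.sum_sub_distrib, Finset.sum_ite_eq',
        if_pos (Finset.mem_range.2 hy)]
    rw [g2] at g1
    have g4 : ∑ l ∈ Finset.range 3, μ l • del p y 3 (X 0 ^ p * X 1 * X 2) ∈ J :=
      J.sum_mem fun l _ => J.smul_mem _ (z6_del_S h hD h2 hy)
    have g5 := J.add_mem (J.sub_mem g1 (hdel y hy)) g4
    have g6 : del p y 3 f - (∑ l ∈ Finset.range 3, μ l • del p y 3 (X 0 ^ p * X 1 * X 2) -
        μ y • del p y 3 (Zw p 3 y)) - del p y 3 f +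
        ∑ l ∈ Finset.range 3, μ l • del p y 3 (X 0 ^ p * X 1 * X 2) =
        μ y • del p y 3 (Zw p 3 y) := by abel
    rw [g6] at g5
    have g7 := del_Zw h.pp h5 h.isT h.mul (L := 3) (by norm_num)
      ((Dn_anti (by omega : 4 ≤ 3 + p - 1)).trans hD) hy hμ g5
    have g8 : 3 + p - 1 = p + 2 := by omega
    rw [g8] at g7
    exact g7
  have hS : X 0 ^ p * X 1 * X 2 ∈ Pp := Pp_mul_left _ (X_mem 2)
  have h6 : ∑ l ∈ Finset.range 3, μ l • (X 0 ^ p * X 1 * X 2 - Zw p 3 l) ∈ J := by
    refine J.sum_mem fun l hl => ?_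
    obtain ⟨c, hc⟩ := hdiv l (Finset.mem_range.1 hl)
    rw [hc, mul_comm, mul_smul]
    exact J.smul_mem _ (h.mul _ (Pp.sub_mem hS z6_Zw_Pp))
  have h7 := J.add_mem hf h6
  rwa [sub_add_cancel] at h7

private theorem z6_alt {p : ℕ} {J : Submodule ℤ P} (h : Tame p J 1 0) (hC : ¬ Cn (p + 2) ≤ J) :
    X 0 ^ p * X 1 - X 1 ^ p * X 0 ∈ J := by
  rcases Z5 h with h1 | h1
  · exact absurd ((Cn_anti (by omega : p + 1 ≤ p + 2)).trans h1) hC
  · exact h1

theorem Z6a {p : ℕ} {J : Submodule ℤ P} (h : Tame p J 1 0) : X 0 ^ p * X 1 * X 2 ∈ J := by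
  have h5 := h.five
  by_cases hC : Cn (p + 2) ≤ J
  · have h1 := h.t2
    rwa [sup_eq_left.2 hC] at h1
  have hD := GenZ h
  have h2 := z6_alt h hC
  obtain ⟨j, hj, c, hc, hjc⟩ := Submodule.mem_sup.1 h.t2
  obtain ⟨μ, hμ⟩ := z6_Cn h hD h2 hc
  have hq : wp (qw p 3) (X 0 ^ p * X 1 * X 2) = X 0 ^ p * X 1 * X 2 := by
    rw [← z6_S]
    refine wp_pos ⟨fun i hi => ?_, fun i hi => ?_⟩
    · rcases List.mem_append.1 hi with hi | hi
      · rw [List.eq_of_mem_replicate hi]
        norm_num
      · rcases List.mem_cons.1 hi with rfl | hi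
        · norm_num
        · rw [List.mem_singleton.1 hi]
          norm_num
    · have hp0 : p % (p - 1) = 1 := by
        have h6 : p = 1 + (p - 1) := by omega
        conv_lhs => rw [h6]
        rw [show 1 + (p - 1) - 1 = p - 1 by omega, Nat.add_mod_right]
        exact Nat.mod_eq_of_lt (by omega)
      have h1p : 1 % (p - 1) = 1 := Nat.mod_eq_of_lt (by omega)
      have h6 : i = 0 ∨ i = 1 ∨ i = 2 := by omega
      rw [List.count_append, List.count_replicate]
      rcases h6 with rfl | rfl | rfl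
      · have e : List.count 0 [1, 2] = 0 := by decide
        rw [e]
        simpa using hp0
      · have e : List.count 1 [1, 2] = 1 := by decide
        rw [e]
        simpa using h1p
      · have e : List.count 2 [1, 2] = 1 := by decide
        rw [e]
        simpa using h1p
  have hE : wp (qw p 3) j ∈ J := TOp_qw h.pp (by omega) 3 J h.isT h.mul.sq _ hj
  refine z6_coef h hD h2 hC (f := X 0 ^ p * X 1 * X 2) (μ := μ) ?_
    (fun y hy => z6_del_S h hD h2 hy)
  have e1 := J.add_mem hE hμ
  have e2 : wp (qw p 3) j + (wp (qw p 3) c -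
      ∑ l ∈ Finset.range 3, μ l • (X 0 ^ p * X 1 * X 2 - Zw p 3 l)) =
      X 0 ^ p * X 1 * X 2 -
        ∑ l ∈ Finset.range 3, μ l • (X 0 ^ p * X 1 * X 2 - Zw p 3 l) := by
    rw [← add_sub_assoc, ← map_add, hjc, hq]
  rw [e2] at e1
  exact e1

theorem Z6b {p : ℕ} {J : Submodule ℤ P} (h : Tame p J 1 0) : kk 1 0 ∈ J := by
  have h5 := h.five
  refine kk_of_kml h.pp (by omega) h.isT h.mul.sq ?_
  obtain ⟨hMl, hk⟩ := h.kml
  rw [show 3 + (p - 1) = p + 2 by omega] at hk
  by_cases hC : Cn (p + 2) ≤ J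
  · rwa [sup_eq_left.2 hC] at hk
  have hD := GenZ h
  have h2 := z6_alt h hC
  obtain ⟨j, hj, c, hc, hjc⟩ := Submodule.mem_sup.1 hk
  obtain ⟨μ, hμ⟩ := z6_Cn h hD h2 hc
  have hq : wp (qw p 3) (kml 1 0) = kml 1 0 := Q_iff.1 (Ml_le_Q (by omega) hMl)
  have hE : wp (qw p 3) j ∈ J := TOp_qw h.pp (by omega) 3 J h.isT h.mul.sq _ hj
  refine z6_coef h hD h2 hC (f := kml 1 0) (μ := μ) ?_ (fun y hy => ?_)
  · have e1 := J.add_mem hE hμ
    have e2 : wp (qw p 3) j + (wp (qw p 3) c -
        ∑ l ∈ Finset.range 3, μ l • (X 0 ^ p * X 1 * X 2 - Zw p 3 l)) =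
        kml 1 0 - ∑ l ∈ Finset.range 3, μ l • (X 0 ^ p * X 1 * X 2 - Zw p 3 l) := by
      rw [← add_sub_assoc, ← map_add, hjc, hq]
    rw [e2] at e1
    exact e1
  · rw [del_Ml (by omega) hy hMl]
    exact J.zero_mem

end ADC
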