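import Pool.Agent.ADC.QNj
import Pool.Agent.ADC.Qred
import Pool.Agent.ADC.QO
import Pool.Agent.ADC.QNm
import Pool.Agent.ADC.PairP
import Pool.Agent.ADC.Nf
import Pool.Agent.ADC.Core1
import Pool.Agent.ADC.Core3
import Pool.Agent.ADC.Core4M
import Pool.Agent.ADC.CoreZ
import Pool.Agent.ADC.CoreOlt
import Pool.Agent.ADC.CoreOs
import Pool.Agent.ADC.CoreOp
import Pool.Agent.ADC.CoreEv
import Pool.Agent.ADC.Opp
import Pool.Agent.ADC.GenG
import Pool.Agent.ADC.GenM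
import Pool.Agent.ADC.GenO
import Pool.Agent.ADC.Z2
import Pool.Agent.ADC.Z6

/-!
# ADC-NoQ1

Exponent `p²` with `x^p ∈ I`.  `Lk p I A B C`, `J = I ⊔ p Pp`, `Bas p J`, `A ≤ J`, `B ⊓ J ≤ I`, `X 0 ^ p ∈ I`.

Common part: the non-multilinear words of the classes are in `J` (`Qnj` with `alt_of` or `alt_of_Z`), so `Qred`.  `nf`: `n ≥ 1`, linked `a, b ∈ Q p n`,
`a ∉ I`; by `Qred` and `Lnk.congr` we may assume `a, b ∈ Ml n`.  `a ∈ A ≤ J`: `a - p t ∈ I`, `t ∈ Ml n` (`Qred`).  So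
`Pr p I J A B C n p a b t` (`q = p`, `pJ_le`).
* `NoQZ`: type `(1,0)`: `n = 1, 2`: `core1`, `core2`; `n = 3`: `core3` with `(1,0)` (`Z6b` for `J`); `n ≥ 4`: `coreZ` (`GenZ`, `Z9a`, `Z9b`).
* `NoQ1`: `typ_of` gives `Typ p J`.  First type: `core3`, `coreC`.  Second: `core3`, `core4M`, `coreC`.  Third type: here use
  that `p ∣ β` (see below) - or simply split at the beginning: if `p ∣ β` then `Tame p J 1 0` (`Tame.scale`) and `NoQZ` applies; otherwise
  use `GenG`, `GenM`, `GenO` as in `Cs` (the three cases `p ∣ α - β`, `p ∣ α + β`, else).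
  Grassmann type (`Tame p J 1 (-1)`, `GenO`, `kap_of`): `n < p`: `coreOlt`; `n = p + 1`: `coreOs`; `n ≥ p + 2`: `coreC`.
  `n = p`: by `det_p` there are `σ`, `j` with `T_j (rn σ a) ∉ I`, `1 ≤ j < p`.  `j` odd: `coreOodd` (`Grs0`), contradiction.  So `j` is even.  `QO`
  (`Qred` for `n = 3`):
   (i) `p f ∈ I` for all `f ∈ Cn 4`: then `p (mon w - mw p) ∈ I` for all words `w` of `Ml p` (`perm_Cn`, `Cn p ≤ Cn 4`), so `a ≡ p t ≡ λ p mw p` and `rn σ a ≡ a`
       modulo `I`, and `sP p 1 (aP p 1 a) = sP p 1 a ≡ (p-1)! a ∉ I` (`aP p 1 = id`), contradiction to `coreOodd` with `k = 1`.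
   (ii) `ll ∈ I`: the identity `f ∈ Ml p ∩ (I ⊔ Fge (p+1))` of `hev` for `k = j` is in `I` by `QNm2` (`kap_of`, `m = 1`: `[x_0,x_1] x_2^(p-1) ∈ J`), and `coreEvQ`
       gives `T_j (rn σ a) ∈ I`, contradiction.
-/

namespace ADC

open AD ADN

/-- the pair -/
private theorem nq_pr {p : ℕ} {I A B C : Submodule ℤ P} (h : Lk p I A B C) (hb : Bas p (I ⊔ mulI p Pp))
    (hA : A ≤ I ⊔ mulI p Pp)
    (hN : ∀ n w, 1 ≤ n → qw p n w → n < w.length → mon w ∈ I ⊔ mulI p Pp) :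
    ∃ n a b t, 1 ≤ n ∧ Pr p I (I ⊔ mulI p Pp) A B C n (p : ℤ) a b t := by
  obtain ⟨n, a, b, hn, ha, hb', hl, hna, -, -⟩ := nf hb.pp (by have := hb.five; omega) h
  obtain ⟨h1, h2⟩ := Qred hb.pp hb.five h.hI h.p2 hN hn
  obtain ⟨i, hi, a', ha', rfl⟩ := Submodule.mem_sup.1 (h1 ha)
  obtain ⟨k, hk, b', hb'', rfl⟩ := Submodule.mem_sup.1 (h1 hb')
  have hl' : Lnk A B C a' b' := hl.congr h (by rwa [add_sub_cancel_right]) (by rwa [add_sub_cancel_right])
  have hna' : a' ∉ I := fun e => hna (I.add_mem hi e)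
  obtain ⟨t, ht, ht'⟩ := h2 a' ha' (hA hl'.1)
  exact ⟨n, a', b', t, hn, { h with
    bJ := hb
    IJ := le_sup_left
    pJ := pJ_le h.p2
    qJ := pJ_le h.p2
    ex := h2
    ha := ha'
    hb := hb''
    hh := ht
    lk := hl'
    aq := ht'
    na := hna' }⟩

theorem NoQZ {p : ℕ} {I A B C : Submodule ℤ P} (h : Lk p I A B C) (hb : Bas p (I ⊔ mulI p Pp))
    (hA : A ≤ I ⊔ mulI p Pp) (hB : B ⊓ (I ⊔ mulI p Pp) ≤ I) (hx : X 0 ^ p ∈ I)
    (hT : Tame p (I ⊔ mulI p Pp) 1 0) : False := by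
  have hx' : X 0 ^ p ∈ I ⊔ mulI p Pp := Submodule.mem_sup_left hx
  obtain ⟨n, a, b, t, hn, hP⟩ := nq_pr h hb hA
    (fun n w hn hw hl => Qnj hb hx' (Or.inl (alt_of_Z hT hx')) hn hw hl)
  rcases Nat.lt_or_ge n 4 with h4 | h4
  · have h5 : n = 1 ∨ n = 2 ∨ n = 3 := by omega
    rcases h5 with rfl | rfl | rfl
    · exact core1 hP
    · exact core2 hP
    · exact core3 hP (α := 1) (β := 0) hT.ab (Z6b hT)
  · exact coreZ hP h4 (GenZ hT) (Or.inr ⟨Z9a hT hx', Z9b hT hx'⟩)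

private theorem nq_rn {p : ℕ} {I : Submodule ℤ P} (h4 : 4 ≤ p) (hC : ∀ f ∈ Cn 4, (p : ℤ) • f ∈ I)
    (σ : Equiv.Perm (Fin p)) {t : P} (ht : t ∈ Ml p) : (p : ℤ) • rn p σ t - (p : ℤ) • t ∈ I := by
  refine Ml_ind (C := fun t => (p : ℤ) • rn p σ t - (p : ℤ) • t ∈ I) ?_ ?_ ?_ ?_ ht
  · rw [map_zero, smul_zero, sub_zero]
    exact I.zero_mem
  · intro f g hf hg
    have e : (p : ℤ) • rn p σ (f + g) - (p : ℤ) • (f + g) =
        ((p : ℤ) • rn p σ f - (p : ℤ) • f) + ((p : ℤ) • rn p σ g - (p : ℤ) • g) := by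
      rw [map_add, smul_add, smul_add]
      abel
    rw [e]
    exact I.add_mem hf hg
  · intro c f hf
    have e : (p : ℤ) • rn p σ (c • f) - (p : ℤ) • (c • f) = c • ((p : ℤ) • rn p σ f - (p : ℤ) • f) := by
      rw [map_zsmul, smul_sub, smul_comm c, smul_comm c]
    rw [e]
    exact I.smul_mem _ hf
  · intro w hw
    rw [rn_mon, ← smul_sub]
    have h1 : (w.map (pN p σ)).Perm w := (perm_map σ hw).trans hw.symm
    have h2 := perm_Cn h1
    rw [List.length_map, hw.length_eq, List.length_range] at h2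
    exact hC _ (Cn_anti h4 h2)

private theorem nq_aP (p : ℕ) (f : P) : aP p 1 f = f := by
  have h : aF p 1 = {1} := by
    ext σ
    unfold aF
    rw [Finset.mem_filter, Finset.mem_singleton]
    constructor
    · rintro ⟨-, h⟩
      ext i
      rcases Nat.eq_zero_or_pos i.val with h0 | h0
      · have h1 : σ i = i := by
          by_contra h2
          have h3 : 1 ≤ (σ i).val := by
            rcases Nat.eq_zero_or_pos (σ i).val with h4 | h4
            · exact absurd (Fin.ext (by rw [h4, h0])) h2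
            · exact h4
          exact h2 (σ.injective (h (σ i) h3))
        rw [h1]
        rfl
      · rw [h i h0]
        rfl
    · rintro rfl
      exact ⟨Finset.mem_univ _, fun _ _ => rfl⟩
  unfold aP
  rw [h, Finset.sum_singleton, LinearMap.smul_apply, tl_apply, rn_one, Equiv.Perm.sign_one]
  simp

private theorem nq_i {p : ℕ} {I J A B C : Submodule ℤ P} {a b t : P}
    (h : Pr p I J A B C p (p : ℤ) a b t) (hl : ll ∈ J) (hg : Grs0 p J)
    (hC : ∀ f ∈ Cn 4, (p : ℤ) • f ∈ I) : False := by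
  have h5 := h.bJ.five
  obtain ⟨f, hf, hfJ, hn⟩ := hg 1 rfl (by omega)
  have h1 := coreOodd h hl le_rfl (by omega : 1 < p) hf hfJ hn 1
  rw [rn_one, nq_aP] at h1
  have h2 : ∀ σ : Equiv.Perm (Fin p), rn p σ a - a ∈ I := by
    intro σ
    have h3 := nq_rn (by omega) hC σ h.hh
    have h4 := h.hI.subst _ (rn_isSubst p σ) _ h.aq
    rw [map_sub, map_zsmul] at h4
    have e : rn p σ a - a = (rn p σ a - (p : ℤ) • rn p σ t) + ((p : ℤ) • rn p σ t - (p : ℤ) • t) -
        (a - (p : ℤ) • t) := by abel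
    rw [e]
    exact I.sub_mem (I.add_mem h4 h3) h.aq
  have h3 : sP p 1 a - (((p - 1).factorial : ℕ) : ℤ) • a ∈ I := by
    have e : sP p 1 a - (((p - 1).factorial : ℕ) : ℤ) • a = ∑ σ ∈ sF p 1, (rn p σ a - a) := by
      rw [Finset.sum_sub_distrib, Finset.sum_const, card_sF (by omega)]
      unfold sP
      rw [LinearMap.sum_apply, natCast_zsmul]
      rfl
    rw [e]
    exact Submodule.sum_mem _ fun σ _ => h2 σ
  have h4 : (((p - 1).factorial : ℕ) : ℤ) • a ∈ I := by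
    have e : (((p - 1).factorial : ℕ) : ℤ) • a = sP p 1 a - (sP p 1 a - (((p - 1).factorial : ℕ) : ℤ) • a) := by
      abel
    rw [e]
    exact I.sub_mem h1 h3
  refine h.na (cancel h.bJ.pp h.p2 ?_ (Ml_Pp (by omega) h.ha) h4)
  intro hd
  have h6 := (h.bJ.pp.dvd_factorial).1 (Int.natCast_dvd_natCast.1 hd)
  omega

theorem NoQ1 {p : ℕ} {I A B C : Submodule ℤ P} (h : Lk p I A B C) (hb : Bas p (I ⊔ mulI p Pp))
    (hA : A ≤ I ⊔ mulI p Pp) (hB : B ⊓ (I ⊔ mulI p Pp) ≤ I) (hx : X 0 ^ p ∈ I) {α β : ℤ}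
    (hT : Tame p (I ⊔ mulI p Pp) α β) (hα : ¬ (p : ℤ) ∣ α) (hg : Grs p (I ⊔ mulI p Pp))
    (hev : ∀ k, k % 2 = 0 → 1 ≤ k → k < p → ∃ f ∈ Ml p, f ∈ I ⊔ Fge (p + 1) ∧
      ¬ ((p : ℤ) ∣ gA k f ∧ (p : ℤ) ^ 2 ∣ gB p k f)) : False := by
  have h5 := hb.five
  by_cases hβ : (p : ℤ) ∣ β
  · exact NoQZ h hb hA hB hx (hT.scale hα (by rw [mul_one, sub_self]; exact dvd_zero _)
      (by rwa [mul_zero, sub_zero]))
  have hx' : X 0 ^ p ∈ I ⊔ mulI p Pp := Submodule.mem_sup_left hx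
  have hN : ∀ n w, 1 ≤ n → qw p n w → n < w.length → mon w ∈ I ⊔ mulI p Pp :=
    fun n w hn hw hl => Qnj hb hx' (alt_of hT hα hg hx') hn hw hl
  obtain ⟨n, a, b, t, hn, hP⟩ := nq_pr h hb hA hN
  by_cases hab : (p : ℤ) ∣ α ^ 2 - β ^ 2
  · have h6 : (p : ℤ) ∣ (α - β) * (α + β) := by
      have e : (α - β) * (α + β) = α ^ 2 - β ^ 2 := by ring
      rwa [e]
    rcases (Nat.prime_iff_prime_int.1 hb.pp).dvd_or_dvd h6 with h7 | h7
    · -- second type
      have hT1 : Tame p (I ⊔ mulI p Pp) 1 1 := hT.scale hα (by rw [mul_one, sub_self]; exact dvd_zero _)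
        (by rw [mul_one, ← neg_sub]; exact h7.neg_right)
      have hC := GenM hT1
      have hK : kk 1 1 ∈ I ⊔ mulI p Pp := by
        have h8 := hT1.K
        rwa [sup_eq_left.2 ((Cn_anti (by omega : 5 ≤ p + 2)).trans hC)] at h8
      rcases Nat.lt_or_ge n 5 with h9 | h9
      · have h10 : n = 1 ∨ n = 2 ∨ n = 3 ∨ n = 4 := by omega
        rcases h10 with rfl | rfl | rfl | rfl
        · exact core1 hP
        · exact core2 hP
        · exact core3 hP hT1.ab hK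
        · exact core4M hP hK
      · exact coreC hP ((Cn_anti h9).trans hC)
    · -- Grassmann type
      have hT1 : Tame p (I ⊔ mulI p Pp) 1 (-1) := hT.scale hα
        (by rw [mul_one, sub_self]; exact dvd_zero _)
        (by rw [mul_neg, mul_one, sub_neg_eq_add, add_comm]; exact h7)
      obtain ⟨hC, hK, hg0⟩ := GenO hT1 hg
      obtain ⟨hl, hkap⟩ := kap_of hb hK hg0
      rcases lt_trichotomy n p with h9 | h9 | h9
      · exact coreOlt hP h9 hl
      · subst h9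
        obtain ⟨σ, j, h1j, hjp, hno⟩ := det_p hP hl
        rcases Nat.mod_two_eq_zero_or_one j with h10 | h10
        · rcases QO hb.pp hb.five h.hI h.p2 hK (Qred hb.pp hb.five h.hI h.p2 hN (by omega : 1 ≤ 3)).2 with h11 | h11
          · exact nq_i hP hl hg0 h11
          · obtain ⟨f, hf, hfI, hnf⟩ := hev j h10 h1j hjp
            have hk1 := hkap 1 le_rfl (by omega)
            have hk2 : cm 0 1 * X 2 ^ (n - 1) ∈ I ⊔ mulI n Pp := by
              have e : kap 1 = cm 0 1 := by simp [kap]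
              rw [e] at hk1
              exact hk1
            have hf1 := QNm2 hb.pp hb.five h.hI h.p2 hN h11 hx hk2 hf hfI
            exact hno (coreEvQ hP hA hB h11 h10 h1j hjp hf hf1 hnf σ)
        · obtain ⟨f, hf, hfJ, hnf⟩ := hg0 j h10 (by
            have h12 : n % 2 = 1 := by
              rcases hb.pp.eq_two_or_odd with h13 | h13
              · omega
              · exact h13
            omega)
          exact hno (coreOodd hP hl h1j hjp hf hfJ hnf σ)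
      · rcases Nat.lt_or_ge n (p + 2) with h10 | h10
        · have h11 : n = p + 1 := by omega
          subst h11
          exact coreOs hP hl hkap
        · exact coreC hP ((Cn_anti h10).trans hC)
  · -- first type
    have hC := GenG hT hα hβ hab
    have hK : kk α β ∈ I ⊔ mulI p Pp := by
      have h8 := hT.K
      rwa [sup_eq_left.2 ((Cn_anti (by omega : 4 ≤ p + 2)).trans hC)] at h8
    rcases Nat.lt_or_ge n 4 with h9 | h9
    · have h10 : n = 1 ∨ n = 2 ∨ n = 3 := by omega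
      rcases h10 with rfl | rfl | rfl
      · exact core1 hP
      · exact core2 hP
      · exact core3 hP hT.ab hK
    · exact coreC hP ((Cn_anti h9).trans hC)

/-- all types: if `p ∣ α`, apply `NoQZ` to the opposite T-ideals -/
theorem noQ {p : ℕ} {I A B C : Submodule ℤ P} (h : Lk p I A B C) (hb : Bas p (I ⊔ mulI p Pp))
    (hA : A ≤ I ⊔ mulI p Pp) (hB : B ⊓ (I ⊔ mulI p Pp) ≤ I) (hx : X 0 ^ p ∈ I) {α β : ℤ}
    (hT : Tame p (I ⊔ mulI p Pp) α β) (hg : Grs p (I ⊔ mulI p Pp))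
    (hev : ∀ k, k % 2 = 0 → 1 ≤ k → k < p → ∃ f ∈ Ml p, f ∈ I ⊔ Fge (p + 1) ∧
      ¬ ((p : ℤ) ∣ gA k f ∧ (p : ℤ) ^ 2 ∣ gB p k f)) : False := by
  by_cases hα : (p : ℤ) ∣ α
  · have hβ : ¬ (p : ℤ) ∣ β := fun e => hT.ab ⟨hα, e⟩
    have hJ : op (I ⊔ mulI p Pp) = op I ⊔ mulI p Pp := by
      rw [op_sup, op_mulI, op_Pp]
    have hT1 := (Tame_op hT).scale (a' := 1) (b' := 0) hβ (by rw [mul_one, sub_self]; exact dvd_zero _)
      (by rwa [mul_zero, sub_zero])
    rw [hJ] at hT1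
    have hb1 := Bas_op hb
    rw [hJ] at hb1
    refine NoQZ (Lk_op h) hb1 ?_ ?_ ?_ hT1
    · rw [← hJ]
      exact Submodule.comap_mono hA
    · rw [← hJ]
      rintro f ⟨h1, h2⟩
      exact hB ⟨h1, h2⟩
    · show rv (X 0 ^ p) ∈ I
      have e : rv (X 0 ^ p) = X 0 ^ p := by
        have e1 : mon (List.replicate p 0) = X 0 ^ p := by
          unfold mon
          rw [List.map_replicate, List.prod_replicate]
        rw [← e1, rv_mon, List.reverse_replicate]
      rwa [e]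
  · exact NoQ1 h hb hA hB hx hT hα hg hev

end ADC
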