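import Pool.Agent.ADC.KGs

/-!
# ADC-WEx

Use of `¬ J ≤ W_p`.

`J' = J ⊔ Fge 4` is a T-ideal containing `Fge 4`; if all `g ∈ J' ∩ Ml 3` were in `KW p` then `J ≤ J' ≤ WP p` (`le_TK`).
So there is `g ∈ J ⊔ Fge 4`, `g ∈ Ml 3`, `g ∉ KW p`.  Let `c1 = cf [0,1,2] g`, `c2 = cf [1,2,0] g`, `c3 = cf [2,0,1] g`,
`d1 = cf [1,0,2] g`, `d2 = cf [0,2,1] g`, `d3 = cf [2,1,0] g`; `g = c1 x0x1x2 + ...` (combination of the six words).
All computations below are modulo `T := J ⊔ Fge 4`, a T-ideal with `p Pp ≤ T`.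
Identify two of the variables with `x = X 0` and the third with `y = X 1`; this gives three elements
`α xxy + β xyx + γ yxx ∈ T` with
 (i)   `x0=x1=x, x2=y`: `(c1+d1, c2+d2, c3+d3)`;
 (ii)  `x0=x2=x, x1=y`: `(d2+c3, c1+d3, c2+d1)`;
 (iii) `x1=x2=x, x0=y`: `(d3+c2, d1+c3, c1+d2)`.
Case A: `s = c1+c2+c3+d1+d2+d3` is prime to `p`.  Putting all variables equal: `s x^3 ∈ T`, so `x^3 ∈ T` (cancel `s` modulo
`p`), and linearising (`x ↦ x + y`, `x ↦ x - y`: `(x+y)^3 - (x-y)^3 - 2 y^3 = 2 (xxy + xyx + yxx)`) `xxy+xyx+yxx ∈ T`.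
In all cases (if `p | s`, then `α+β+γ = s ≡ 0` anyway): let `t` with `3 t ≡ s` modulo `p`; in case A subtract
`t (xxy+xyx+yxx)`, so the elements `(α', β', γ') = (α - t, β - t, γ - t)` of sum `≡ 0` are in `T` (if `p | s` take `t = 0`).
With `a = -γ'`, `b = α'`: `kk a b = b xxy + (a - b) xyx - a yxx`, and `a - b = -γ' - α' ≡ β'`: so `kk a b ∈ T` (modulo `p Pp`).
If one of the three gives `(a, b)` not both divisible by `p`, done.  Otherwise `α ≡ β ≡ γ` modulo `p` in (i), (ii), (iii):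
from (i) `c1 - c2 ≡ d2 - d1`, from (ii) `c1 - c2 ≡ d1 - d3`, from (iii) `c1 - c2 ≡ d3 - d2` [(iii): `c2+d3 ≡ c1+d2`];
the sum: `3 (c1 - c2) ≡ 0`, so `c1 ≡ c2` and `d1 ≡ d2 ≡ d3`, then (i) gives `c1 ≡ c2 ≡ c3`: `g ∈ KW p`, contradiction.
-/

namespace ADC

open AD ADN

private theorem wx_perm {w : List ℕ} (h : w.Perm (List.range 3)) :
    w = [0,1,2] ∨ w = [1,2,0] ∨ w = [2,0,1] ∨ w = [1,0,2] ∨ w = [0,2,1] ∨ w = [2,1,0] := by
  have h1 : w ∈ (List.range 3).permutations' := List.mem_permutations'.2 h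
  have h2 : (List.range 3).permutations' = [[0,1,2],[1,0,2],[1,2,0],[0,2,1],[2,0,1],[2,1,0]] := by decide
  rw [h2] at h1
  simp only [List.mem_cons, List.not_mem_nil, or_false] at h1
  tauto

private theorem wx_dec {g : P} (hg : g ∈ Ml 3) :
    g = cf [0,1,2] g • mon [0,1,2] + cf [1,2,0] g • mon [1,2,0] + cf [2,0,1] g • mon [2,0,1] +
      cf [1,0,2] g • mon [1,0,2] + cf [0,2,1] g • mon [0,2,1] + cf [2,1,0] g • mon [2,1,0] := by
  refine Ml_ind (n := 3) (C := fun g => g = cf [0,1,2] g • mon [0,1,2] + cf [1,2,0] g • mon [1,2,0] +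
    cf [2,0,1] g • mon [2,0,1] + cf [1,0,2] g • mon [1,0,2] + cf [0,2,1] g • mon [0,2,1] +
    cf [2,1,0] g • mon [2,1,0]) ?_ ?_ ?_ ?_ hg
  · have h : ∀ w : List ℕ, cf w (0 : P) = 0 := fun w => by
      have h := cf_smul w 0 (0 : P)
      rwa [zero_smul, zero_mul] at h
    simp only [h, zero_smul, add_zero]
  · intro f g hf hg
    simp only [cf_add, add_smul]
    calc f + g = _ := congrArg₂ (fun a b : P => a + b) hf hg
      _ = _ := by
        show _ + _ = _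
        abel
  · intro c f hf
    simp only [cf_smul, mul_smul, ← smul_add]
    rw [← hf]
  · intro w hw
    rcases wx_perm hw with rfl | rfl | rfl | rfl | rfl | rfl <;> simp [cf_mon]

private theorem wx_key {p : ℕ} {T : Submodule ℤ P} (hmT : Mul p T) {α β γ t m : ℤ}
    (h : α • (X 0 * X 0 * X 1) + β • (X 0 * X 1 * X 0) + γ • (X 1 * X 0 * X 0) ∈ T)
    (ht : t • (X 0 * X 0 * X 1 + X 0 * X 1 * X 0 + X 1 * X 0 * X 0) ∈ T) (hm : 3 * t - (α + β + γ) = p * m) :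
    kk (t - γ) (α - t) ∈ T := by
  have h1 : ((p : ℤ) * m) • (X 0 * X 1 * X 0) ∈ T := by
    rw [mul_comm, mul_smul]
    exact T.smul_mem _ (hmT _ (Pp_mul_left _ (X_mem 0)))
  rw [← hm] at h1
  have h2 := T.add_mem (T.sub_mem h ht) h1
  have h3 : kk (t - γ) (α - t) = α • (X 0 * X 0 * X 1) + β • (X 0 * X 1 * X 0) + γ • (X 1 * X 0 * X 0) -
      t • (X 0 * X 0 * X 1 + X 0 * X 1 * X 0 + X 1 * X 0 * X 0) +
      (3 * t - (α + β + γ)) • (X 0 * X 1 * X 0) := by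
    unfold kk
    simp only [sub_mul, mul_sub, smul_sub, smul_add, sub_smul, add_smul, mul_smul, mul_assoc]
    have h4 : (3 : ℤ) • t • (X 0 * (X 1 * X 0)) = t • (X 0 * (X 1 * X 0)) + t • (X 0 * (X 1 * X 0)) +
      t • (X 0 * (X 1 * X 0)) := by
      rw [smul_smul, ← add_smul, ← add_smul]
      congr 1
      ring
    rw [h4]
    abel
  rw [h3]
  exact h2

private theorem wx_cube {p : ℕ} (hp : p.Prime) (h5 : 5 ≤ p) {T : Submodule ℤ P} (hT : IsT T) (hmT : Mul p T)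
    (h : X 0 * X 0 * X 0 ∈ T) : X 0 * X 0 * X 1 + X 0 * X 1 * X 0 + X 1 * X 0 * X 0 ∈ T := by
  have e1 := sb_mem hT (φ := fun _ => X 0 + X 1) (fun i => Pp.add_mem (X_mem 0) (X_mem 1)) h
  have e2 := sb_mem hT (φ := fun _ => X 0 - X 1) (fun i => Pp.sub_mem (X_mem 0) (X_mem 1)) h
  have e3 := sb_mem hT (φ := fun _ => X 1) (fun i => X_mem 1) h
  simp only [map_mul, sb_X] at e1 e2 e3
  have h2 : ¬ (p : ℤ) ∣ 2 := by
    intro h
    have := Int.le_of_dvd (by norm_num) h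
    omega
  refine cancel hp hmT.sq h2 (Pp.add_mem (Pp.add_mem (Pp_mul_left _ (X_mem 1)) (Pp_mul_left _ (X_mem 0)))
    (Pp_mul_left _ (X_mem 0))) ?_
  have e4 : (2 : ℤ) • (X 0 * X 0 * X 1 + X 0 * X 1 * X 0 + X 1 * X 0 * X 0) =
      (X 0 + X 1) * (X 0 + X 1) * (X 0 + X 1) - (X 0 - X 1) * (X 0 - X 1) * (X 0 - X 1) -
        (X 1 * X 1 * X 1 + X 1 * X 1 * X 1) := by
    rw [two_smul]
    simp only [sub_mul, mul_sub, add_mul, mul_add]
    abel
  rw [e4]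
  exact T.sub_mem (T.sub_mem e1 e2) (T.add_mem e3 e3)

private theorem wx_t {p : ℕ} (hp : p.Prime) (h5 : 5 ≤ p) {T : Submodule ℤ P} (hT : IsT T) (hmT : Mul p T)
    {s : ℤ} (h : s • (X 0 * X 0 * X 0) ∈ T) : ∃ t m : ℤ, 3 * t - s = p * m ∧
    t • (X 0 * X 0 * X 1 + X 0 * X 1 * X 0 + X 1 * X 0 * X 0) ∈ T := by
  by_cases hs : (p : ℤ) ∣ s
  · obtain ⟨m, hm⟩ := hs
    refine ⟨0, -m, by rw [hm]; ring, ?_⟩
    rw [zero_smul]
    exact T.zero_mem
  · have h1 := cancel hp hmT.sq hs (Pp_mul_left _ (X_mem 0)) h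
    have h2 := wx_cube hp h5 hT hmT h1
    have h3 : ¬ (p : ℤ) ∣ 3 := by
      intro h
      have := Int.le_of_dvd (by norm_num) h
      omega
    have h4 : IsCoprime (3 : ℤ) (p : ℤ) := ((Prime.coprime_iff_not_dvd (Nat.prime_iff_prime_int.1 hp)).2 h3).symm
    obtain ⟨u, v, huv⟩ := h4
    refine ⟨u * s, - (v * s), ?_, T.smul_mem _ h2⟩
    have : 3 * (u * s) - s = s * (u * 3 + v * p) - s - v * s * p := by ring
    rw [this, huv]
    ring

theorem WEx {p : ℕ} (hp : p.Prime) (h5 : 5 ≤ p) {J : Submodule ℤ P} (hJ : IsT J) (hm : Mul p J)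
    (h : ¬ J ≤ WP p) : ∃ a b : ℤ, ¬ ((p : ℤ) ∣ a ∧ (p : ℤ) ∣ b) ∧ kk a b ∈ J ⊔ Fge 4 := by
  have hT : IsT (J ⊔ Fge 4) := isT_sup hJ (isT_Fge 4 (by norm_num))
  have hmT : Mul p (J ⊔ Fge 4) := hm.mono le_sup_left
  have h1 : ∃ g ∈ J ⊔ Fge 4, g ∈ Ml 3 ∧ g ∉ KW p := by
    by_contra hcon
    refine h (le_trans le_sup_left (le_TK hT le_sup_right fun g hg hgM => ?_))
    by_contra hK
    exact hcon ⟨g, hg, hgM, hK⟩
  obtain ⟨g, hg, hgM, hK⟩ := h1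
  have hd := wx_dec hgM
  by_contra hcon
  apply hK
  show _ ∧ _ ∧ _ ∧ _
  generalize cf [0,1,2] g = c1 at hd ⊢
  generalize cf [1,2,0] g = c2 at hd ⊢
  generalize cf [2,0,1] g = c3 at hd ⊢
  generalize cf [1,0,2] g = d1 at hd ⊢
  generalize cf [0,2,1] g = d2 at hd ⊢
  generalize cf [2,1,0] g = d3 at hd ⊢
  have e0 := sb_mem hT (φ := fun _ => X 0) (fun i => X_mem 0) hg
  have e1 := sb_mem hT (φ := fun i => if i = 2 then X 1 else X 0) (fun i => by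
    show (if i = 2 then X 1 else X 0) ∈ Pp
    split_ifs <;> exact X_mem _) hg
  have e2 := sb_mem hT (φ := fun i => if i = 1 then X 1 else X 0) (fun i => by
    show (if i = 1 then X 1 else X 0) ∈ Pp
    split_ifs <;> exact X_mem _) hg
  have e3 := sb_mem hT (φ := fun i => if i = 0 then X 1 else X 0) (fun i => by
    show (if i = 0 then X 1 else X 0) ∈ Pp
    split_ifs <;> exact X_mem _) hg
  rw [hd] at e0 e1 e2 e3
  simp only [map_add, map_zsmul, sb_mon, List.map_cons, List.map_nil, List.prod_cons, List.prod_nil, mul_one,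
    ← mul_assoc] at e0 e1 e2 e3
  simp only [if_true, if_false, OfNat.ofNat_ne_zero, OfNat.zero_ne_ofNat, OfNat.one_ne_ofNat,
    OfNat.ofNat_ne_one, one_ne_zero, zero_ne_one] at e1 e2 e3
  rw [← add_smul, ← add_smul, ← add_smul, ← add_smul, ← add_smul] at e0
  obtain ⟨t, m, htm, ht⟩ := wx_t hp h5 hT hmT e0
  have f1 := wx_key hmT (α := c1 + d1) (β := c2 + d2) (γ := c3 + d3) (t := t) (m := m) (by
    have : (c1 + d1) • (X 0 * X 0 * X 1) + (c2 + d2) • (X 0 * X 1 * X 0) + (c3 + d3) • (X 1 * X 0 * X 0) =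
      c1 • (X 0 * X 0 * X 1) + c2 • (X 0 * X 1 * X 0) + c3 • (X 1 * X 0 * X 0) + d1 • (X 0 * X 0 * X 1) +
        d2 • (X 0 * X 1 * X 0) + d3 • (X 1 * X 0 * X 0) := by
      rw [add_smul, add_smul, add_smul]; abel
    rw [this]; exact e1) ht (by rw [← htm]; ring)
  have f2 := wx_key hmT (α := c3 + d2) (β := c1 + d3) (γ := c2 + d1) (t := t) (m := m) (by
    have : (c3 + d2) • (X 0 * X 0 * X 1) + (c1 + d3) • (X 0 * X 1 * X 0) + (c2 + d1) • (X 1 * X 0 * X 0) =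
      c1 • (X 0 * X 1 * X 0) + c2 • (X 1 * X 0 * X 0) + c3 • (X 0 * X 0 * X 1) + d1 • (X 1 * X 0 * X 0) +
        d2 • (X 0 * X 0 * X 1) + d3 • (X 0 * X 1 * X 0) := by
      rw [add_smul, add_smul, add_smul]; abel
    rw [this]; exact e2) ht (by rw [← htm]; ring)
  have f3 := wx_key hmT (α := c2 + d3) (β := c3 + d1) (γ := c1 + d2) (t := t) (m := m) (by
    have : (c2 + d3) • (X 0 * X 0 * X 1) + (c3 + d1) • (X 0 * X 1 * X 0) + (c1 + d2) • (X 1 * X 0 * X 0) =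
      c1 • (X 1 * X 0 * X 0) + c2 • (X 0 * X 0 * X 1) + c3 • (X 0 * X 1 * X 0) + d1 • (X 0 * X 1 * X 0) +
        d2 • (X 1 * X 0 * X 0) + d3 • (X 0 * X 0 * X 1) := by
      rw [add_smul, add_smul, add_smul]; abel
    rw [this]; exact e3) ht (by rw [← htm]; ring)
  have key : ∀ a b : ℤ, kk a b ∈ J ⊔ Fge 4 → (p : ℤ) ∣ a ∧ (p : ℤ) ∣ b := by
    intro a b hab
    by_contra h
    exact hcon ⟨a, b, h, hab⟩
  obtain ⟨g1, g1'⟩ := key _ _ f1
  obtain ⟨g2, g2'⟩ := key _ _ f2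
  obtain ⟨g3, g3'⟩ := key _ _ f3
  have hpm : (p : ℤ) ∣ 3 * t - (c1 + c2 + c3 + d1 + d2 + d3) := ⟨m, htm⟩
  refine ⟨?_, ?_, ?_, ?_⟩
  · -- c1 - c2
    have : c1 - c2 = (c1 + d1 - t) + (t - (c2 + d1)) := by ring
    rw [this]; exact dvd_add g1' g2
  · -- c1 - c3
    have : c1 - c3 = (t - (c3 + d2)) - (t - (c1 + d2)) := by ring
    rw [this]; exact dvd_sub (by have := dvd_neg.2 g2'; rwa [neg_sub] at this) g3
  · -- d1 - d2
    have : d1 - d2 = (c1 + d1 - t) + (t - (c1 + d2)) := by ring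
    rw [this]; exact dvd_add g1' g3
  · -- d1 - d3
    have : d1 - d3 = - ((c2 + d3 - t) + (t - (c2 + d1))) := by ring
    rw [this]; exact dvd_neg.2 (dvd_add g3' g2)

end ADC
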