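import Pool.Agent.ADC.ExLk
import Pool.Agent.ADC.NoP
import Pool.Agent.ADC.NoQ1
import Pool.Agent.ADC.NoC1
import Pool.Agent.ADC.C1w
import Pool.Agent.ADC.UEx
import Pool.Agent.ADC.WEx
import Pool.Agent.ADC.GEx
import Pool.Agent.ADC.NEx
import Pool.Agent.ADC.Tm2
import Pool.Agent.ADC.NonM

/-!
# ADC-Main1

The main theorem.  `I` almost distributive, `p² Pp ≤ I`, `I` not contained in `UP p`, `WP p`, `NPt p 0 0`, `GP p k` (`1 ≤ k < p`).  Then `p Pp ≤ I` and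
`[x,y] ∈ I ⊔ Fge (p+1)`.

`X 0 ∉ I` (otherwise `I = Pp` and `DistOn TI I` is trivial: all T-ideals above `I` are equal).  `nil_of_alm`.
Let `J = I ⊔ mulI p Pp` (`= I` if `Mul p I`).  `X 0 ∉ J`: if `X 0 = i + p h` then `X 0 - p (linear part..) ∈ I`..: the coefficient of `X 0` in `i` is prime to `p`, and
killing the other variables and cancelling (`p² Pp ≤ I`, nilpotency; as in `one_low`) gives `X 0 ∈ I`.  So `Bas p J`.
`WEx` (`¬ J ≤ WP p` as `I ≤ J`): `kk α β ∈ J ⊔ Fge 4`.  `NEx`: three alternatives for `J`.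
`Grs p J` in the tame case: for odd `k`, `k + 2 ≤ p`: `GEx` for `J`: `f ∈ Ml p ∩ (J ⊔ Fge (p+1))`, `¬ (p ∣ gA ∧ p^(2-1) ∣ gB)`; `ml_up` (`n = p`): `f ∈ J ⊔ Cn (2p-1) ≤ J ⊔ Cn (p+2)`.

Case `Mul p I`: `J = I` (`mulI p Pp ≤ I`).  If `cm 0 1 ∈ I ⊔ Fge (p+1)`: this is the claim.  Otherwise `tame_of`: `Tame p I α β`, `Grs p I`; `exists_lk`; `noP`: contradiction.
Case `¬ Mul p I`: `exists_lk2`.  `UEx`: (i) `x^p ∈ I`: then `x^p ∈ J`, `tame_of` with the alternative `X 0 ^ p ∈ J`; `Grs p J`; for even `k`: `GEx` for `I`: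
`f ∈ Ml p ∩ (I ⊔ Fge (p+1))`, `¬ (p ∣ gA ∧ p^2 ∣ gB)` (`2 - k % 2 = 2`); `noQ`: contradiction.  (ii) the data of `noC1`; if `cm 0 1 ∈ J ⊔ Fge (p+1)` apply `noC1` with it;
otherwise `tame_of`, `Grs p J`, `C1w`, and `noC1`.
-/

namespace ADC

open AD ADN

private theorem m1_all {D : Submodule ℤ P} (hD : IsT D) (h : X 0 ∈ D) : Pp ≤ D := by
  intro f hf
  have h1 := sb_mem hD (φ := fun _ => f) (fun _ => hf) h
  rwa [sb_X] at h1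

private theorem m1_X {I : Submodule ℤ P} (hI : AlmDist I) : X 0 ∉ I := by
  intro h
  have h1 := m1_all hI.1 h
  refine hI.2.1 ?_
  have key : ∀ x ∈ TI, I ≤ x → x = Pp := fun x hx hIx => le_antisymm (IsT.le hx) (h1.trans hIx)
  intro x hx y hy z hz hIx hIy hIz
  rw [key x hx hIx, key y hy hIy, key z hz hIz]
  simp

private theorem m1_XJ {p : ℕ} {I : Submodule ℤ P} (hI : IsT I) (h2 : Mul ((p : ℤ) ^ 2) I) (hX : X 0 ∉ I) :
    X 0 ∉ I ⊔ mulI p Pp := by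
  intro h
  have hT : IsT (I ⊔ mulI (p : ℤ) Pp) := isT_sup hI (isT_mulI isT_Pp _)
  have h1 := m1_all hT h
  obtain ⟨i, hi, y, hy, hiy⟩ := Submodule.mem_sup.1 h
  obtain ⟨g, hg, rfl⟩ := expo_mem_mulI.1 hy
  obtain ⟨i', hi', y', hy', hiy'⟩ := Submodule.mem_sup.1 (h1 hg)
  obtain ⟨g', hg', rfl⟩ := expo_mem_mulI.1 hy'
  apply hX
  rw [← hiy, ← hiy', smul_add, smul_smul, ← pow_two]
  exact I.add_mem hi (I.add_mem (I.smul_mem _ hi') (h2 _ hg'))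

private theorem m1_bas {p : ℕ} (hp : p.Prime) (h5 : 5 ≤ p) {I : Submodule ℤ P} (hI : AlmDist I)
    (h2 : Mul ((p : ℤ) ^ 2) I) : Bas p (I ⊔ mulI p Pp) where
  pp := hp
  five := h5
  isT := isT_sup hI.1 (isT_mulI isT_Pp _)
  mul := fun f hf => (le_sup_right : mulI (p : ℤ) Pp ≤ _) (expo_mem_mulI.2 ⟨f, hf, rfl⟩)
  nil := by
    obtain ⟨N, hN⟩ := nil_of_alm hI
    exact ⟨N, fun w hw => (le_sup_left : I ≤ _) (hN w hw)⟩
  ne := m1_XJ hI.1 h2 (m1_X hI)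

/-- the tame situation from the exclusions -/
private theorem m1_tame {p : ℕ} {J : Submodule ℤ P} (hJ : Bas p J) (hW : ¬ J ≤ WP p)
    (hG : ∀ k, 1 ≤ k → k < p → ¬ J ≤ GP p k)
    (h : X 0 ^ p ∈ J ∨ X 0 ^ p * X 1 - X 0 * X 1 ^ p ∈ J ⊔ Cn (p + 1) ⊔ Fge (p + 2)) :
    ∃ α β, Tame p J α β ∧ Grs p J := by
  have h5 := hJ.five
  obtain ⟨α, β, hab, hK⟩ := WEx hJ.pp h5 hJ.isT hJ.mul hW
  have hT := tame_of hJ hab hK h
  refine ⟨α, β, hT, fun k hk1 hk2 => ?_⟩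
  obtain ⟨f, hf, hfJ, hn⟩ := GEx (by omega) hJ.isT (hG k (by omega) (by omega))
  refine ⟨f, hf, (sup_le_sup_left (Cn_anti (by omega)) J) (ml_up hJ hT.t2 (by omega) hf hfJ), ?_⟩
  have e : 2 - k % 2 = 1 := by omega
  rw [e, pow_one] at hn
  exact hn

theorem main1 {p : ℕ} (hp : p.Prime) (h5 : 5 ≤ p) {I : Submodule ℤ P} (hI : AlmDist I)
    (h2 : Mul ((p : ℤ) ^ 2) I) (hU : ¬ I ≤ ADA.UP p) (hW : ¬ I ≤ WP p) (hN : ¬ I ≤ NPt p 0 0)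
    (hG : ∀ k, 1 ≤ k → k < p → ¬ I ≤ GP p k) : Mul p I ∧ cm 0 1 ∈ I ⊔ Fge (p + 1) := by
  have hN0 := nil_of_alm hI
  have hX := m1_X hI
  by_cases h1 : Mul p I
  · refine ⟨h1, ?_⟩
    by_contra hcm
    have hb : Bas p I := { pp := hp, five := h5, isT := hI.1, mul := h1, nil := hN0, ne := hX }
    obtain ⟨A, B, C, hL⟩ := exists_lk hI h2
    obtain ⟨α, β, hT, hGr⟩ := m1_tame hb hW hG ((NEx hb hN).resolve_left hcm)
    exact noP hL hb hT hGr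
  · exfalso
    have hb := m1_bas hp h5 hI h2
    have hIJ : I ≤ I ⊔ mulI (p : ℤ) Pp := le_sup_left
    have hWJ : ¬ I ⊔ mulI (p : ℤ) Pp ≤ WP p := fun h => hW (hIJ.trans h)
    have hNJ : ¬ I ⊔ mulI (p : ℤ) Pp ≤ NPt p 0 0 := fun h => hN (hIJ.trans h)
    have hGJ : ∀ k, 1 ≤ k → k < p → ¬ I ⊔ mulI (p : ℤ) Pp ≤ GP p k := fun k hk1 hk2 h => hG k hk1 hk2 (hIJ.trans h)
    obtain ⟨A, B, C, hL, hA, hB⟩ := exists_lk2 hp hI h2 h1
    rcases UEx hp h5 hI.1 h2 h1 hN0 hU with hx | ⟨w, j, hw, hj, hx1, hx2, hx3⟩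
    · obtain ⟨α, β, hT, hGr⟩ := m1_tame hb hWJ hGJ (Or.inl (hIJ hx))
      refine noQ hL hb hA hB hx hT hGr fun k hk1 hk2 hk3 => ?_
      obtain ⟨f, hf, hfI, hn⟩ := GEx (by omega) hI.1 (hG k hk2 hk3)
      refine ⟨f, hf, hfI, ?_⟩
      have e : 2 - k % 2 = 2 := by omega
      rw [e] at hn
      exact hn
    · refine noC1 hL hb hA hB hw hj hx1 hx2 hx3 ?_
      by_cases hcm : cm 0 1 ∈ I ⊔ mulI (p : ℤ) Pp ⊔ Fge (p + 1)
      · exact Or.inl hcm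
      · obtain ⟨α, β, hT, hGr⟩ := m1_tame hb hWJ hGJ ((NEx hb hNJ).resolve_left hcm)
        exact Or.inr (C1w hT hGr)

end ADC
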