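import Pool.Agent.ADC.Pair1
import Pool.Agent.ADC.CSt
import Pool.Agent.ADC.IncN
import Pool.Agent.ADC.ExLk

/-!
# ADC-N6

An almost distributive `E` above `NPt p 0 0` with `p Pp ≤ E` does not satisfy `[x,y] ∈ E ⊔ Fge (p+1)`.

`exists_lk`: `Lk p E A B C`; `X 0 ∉ E` (otherwise `Pp ≤ E`, `A ≤ E`, contradiction to `neA`); `NilAt E (p+2)` (`NPt_nil`); `Bas p E`.  `nf`: `n ≥ 1`, linked `a, b ∈ Q p n`, `a ∉ E`.
Words of length `≥ 3` commute modulo `E` (`CSt3`, `cmX_NPt`), words of length `≥ p + 2` are in `E`, `x^p y + x y^p ∈ E` (`x = X 0`, `y = X 1`; `NPt_mem` with `m = 0`).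
* `n = 1`: `Pair1`.
* `n ≥ 3`: a word of the class `qw p n` of length `> n` has length `≥ n + p - 1 ≥ p + 2`; the others are permutations of `mw n`, `≡ mw n`.  `Q p n ≤ E ⊔ ℤ mw n`, `Lk.np`: `a ∈ E`, contradiction.
* `n = 2`: the words of the class `qw p 2` modulo `E`: `xy`, `yx`, the words with letters `x^p y` (`≡ x^p y`), the words with letters `x y^p` (`≡ x y^p ≡ - x^p y`), longer ones (length `≥ 2p`) are in `E`.  Apply
  `wp (qw p 2)` to `cm 0 1 = e + h`, `e ∈ E`, `h ∈ Fge (p+1)`: `xy - yx ≡ c x^p y`.  So `a ≡ α xy + γ x^p y`.  With `τ = rn 2 (swap 0 1)`: `τ(xy) = yx ≡ xy - c x^p y`, `τ(x^p y) = y^p x ≡ x y^p ≡ - x^p y`.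
  So `a + τ a ≡ α (xy + yx)`, `a - τ a ≡ (α c + 2 γ) x^p y`, the same for `b`; `Lnk.map` and `Lk.np`: `a + τ a, a - τ a ∈ E`, `2 a ∈ E`, `a ∈ E` (`cancel`), contradiction.
-/

namespace ADC

open AD ADN

private theorem n6_len {p n : ℕ} (hp : 5 ≤ p) {w : List ℕ} (h1 : qw p n w) (h2 : n < w.length) :
    n + (p - 1) ≤ w.length := by
  have hsum : ∑ i ∈ Finset.range n, w.count i = w.length := by
    have := Multiset.sum_count_eq_card (s := Finset.range n) (m := (w : Multiset ℕ))
      (fun a ha => Finset.mem_range.2 (h1.1 a (by simpa using ha)))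
    simpa using this
  have hpos : ∀ i ∈ Finset.range n, 1 ≤ w.count i := by
    intro i hi
    have h3 := h1.2 i (Finset.mem_range.1 hi)
    rcases Nat.eq_zero_or_pos (w.count i) with h4 | h4
    · rw [h4, Nat.zero_mod] at h3
      omega
    · exact h4
  by_cases hc : ∃ i ∈ Finset.range n, p ≤ w.count i
  · obtain ⟨i, hi, hpi⟩ := hc
    rw [← Finset.sum_erase_add _ _ hi] at hsum
    have h3 : ∑ j ∈ (Finset.range n).erase i, 1 ≤ ∑ j ∈ (Finset.range n).erase i, w.count j :=
      Finset.sum_le_sum fun j hj => hpos j (Finset.mem_of_mem_erase hj)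
    rw [Finset.sum_const, Finset.card_erase_of_mem hi, Finset.card_range, smul_eq_mul, mul_one] at h3
    have h4 := Finset.mem_range.1 hi
    omega
  · exfalso
    push Not at hc
    have hone : ∀ i ∈ Finset.range n, w.count i = 1 := by
      intro i hi
      have h3 := h1.2 i (Finset.mem_range.1 hi)
      have h4 := Nat.div_add_mod (w.count i) (p - 1)
      rw [h3] at h4
      rcases Nat.eq_zero_or_pos (w.count i / (p - 1)) with h5 | h5
      · rw [h5, mul_zero, zero_add] at h4
        exact h4.symm
      · exfalso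
        have h6 : p - 1 ≤ (p - 1) * (w.count i / (p - 1)) := Nat.le_mul_of_pos_right _ h5
        have h7 := hc i hi
        omega
    rw [Finset.sum_congr rfl hone] at hsum
    simp at hsum
    omega

private theorem n6_perm {p n : ℕ} {w : List ℕ} (h : qw p n w) (hl : ¬ n < w.length) :
    w.Perm (List.range n) := by
  have h1 : List.range n ⊆ w := by
    intro i hi
    have h2 := h.2 i (List.mem_range.1 hi)
    by_contra h3
    rw [List.count_eq_zero_of_not_mem h3, Nat.zero_mod] at h2
    omega
  have h2 : (List.range n).Subperm w := List.subperm_of_subset List.nodup_range h1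
  refine (h2.perm_of_length_le ?_).symm
  rw [List.length_range]
  omega

private theorem n6_rep (n i : ℕ) : mon (List.replicate n i) = X i ^ n := by
  unfold mon
  rw [List.map_replicate, List.prod_replicate]

/-- the words of the class in two letters -/
private theorem n6_two {p : ℕ} (h5 : 5 ≤ p) {w : List ℕ} (hw : qw p 2 w) :
    w.Perm [0, 1] ∨ w.Perm (List.replicate p 0 ++ [1]) ∨ w.Perm (0 :: List.replicate p 1) ∨
      p + 2 ≤ w.length := by
  have hsum : w.count 0 + w.count 1 = w.length := by
    have := Multiset.sum_count_eq_card (s := Finset.range 2) (m := (w : Multiset ℕ))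
      (fun a ha => Finset.mem_range.2 (hw.1 a (by simpa using ha)))
    rw [Finset.sum_range_succ, Finset.sum_range_one] at this
    simpa using this
  have h0 := hw.2 0 (by norm_num)
  have h1 := hw.2 1 (by norm_num)
  have hbig : ∀ i, i ≠ 0 → i ≠ 1 → w.count i = 0 := by
    intro i hi0 hi1
    refine List.count_eq_zero_of_not_mem fun hi => ?_
    have := hw.1 i hi
    omega
  have hperm : ∀ v : List ℕ, w.count 0 = v.count 0 → w.count 1 = v.count 1 →
      (∀ i, i ≠ 0 → i ≠ 1 → v.count i = 0) → w.Perm v := by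
    intro v e0 e1 e2
    rw [List.perm_iff_count]
    intro i
    by_cases hi0 : i = 0
    · rw [hi0, e0]
    · by_cases hi1 : i = 1
      · rw [hi1, e1]
      · rw [hbig i hi0 hi1, e2 i hi0 hi1]
  have e0 := Nat.div_add_mod (w.count 0) (p - 1)
  have e1 := Nat.div_add_mod (w.count 1) (p - 1)
  rw [h0] at e0
  rw [h1] at e1
  generalize w.count 0 / (p - 1) = k0 at e0
  generalize w.count 1 / (p - 1) = k1 at e1
  rcases Nat.eq_zero_or_pos k0 with hk0 | hk0
  · rcases Nat.eq_zero_or_pos k1 with hk1 | hk1
    · left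
      rw [hk0, mul_zero] at e0
      rw [hk1, mul_zero] at e1
      refine hperm _ (by rw [← e0]; decide) (by rw [← e1]; decide) ?_
      intro i hi0 hi1
      refine List.count_eq_zero_of_not_mem ?_
      simp [hi0, hi1]
    · rcases Nat.lt_or_ge 1 k1 with hk | hk
      · right; right; right
        have h6 : (p - 1) * 2 ≤ (p - 1) * k1 := Nat.mul_le_mul_left _ hk
        omega
      · have hk' : k1 = 1 := by omega
        rw [hk0, mul_zero] at e0
        rw [hk', mul_one] at e1
        right; right; left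
        refine hperm _ ?_ ?_ ?_
        · rw [List.count_cons_self, List.count_replicate]
          simp
          omega
        · rw [List.count_cons_of_ne (by norm_num), List.count_replicate_self]
          omega
        · intro i hi0 hi1
          refine List.count_eq_zero_of_not_mem ?_
          intro h
          rcases List.mem_cons.1 h with h | h
          · exact hi0 h
          · exact hi1 (List.eq_of_mem_replicate h)
  · rcases Nat.eq_zero_or_pos k1 with hk1 | hk1
    · rcases Nat.lt_or_ge 1 k0 with hk | hk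
      · right; right; right
        have h6 : (p - 1) * 2 ≤ (p - 1) * k0 := Nat.mul_le_mul_left _ hk
        omega
      · have hk' : k0 = 1 := by omega
        rw [hk1, mul_zero] at e1
        rw [hk', mul_one] at e0
        right; left
        refine hperm _ ?_ ?_ ?_
        · rw [List.count_append, List.count_replicate_self]
          simp
          omega
        · rw [List.count_append, List.count_replicate]
          simp
          omega
        · intro i hi0 hi1
          refine List.count_eq_zero_of_not_mem ?_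
          intro h
          rcases List.mem_append.1 h with h | h
          · exact hi0 (List.eq_of_mem_replicate h)
          · exact hi1 (List.mem_singleton.1 h)
    · right; right; right
      have h6 : (p - 1) * 1 ≤ (p - 1) * k0 := Nat.mul_le_mul_left _ hk0
      have h7 : (p - 1) * 1 ≤ (p - 1) * k1 := Nat.mul_le_mul_left _ hk1
      omega

private theorem n6_com_X (i : ℕ) : com (X i) = MvPolynomial.X i := by
  unfold com
  exact FreeAlgebra.lift_ι_apply _ _

/-- `x^p y + x y^p` -/
private theorem n6_sum {p : ℕ} (h5 : 5 ≤ p) : X 0 ^ p * X 1 + X 0 * X 1 ^ p ∈ NPt p 0 0 := by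
  rw [NPt_mem]
  have hw1 : X 0 ^ p * X 1 = mon (List.replicate p 0 ++ [1]) := by
    rw [mon_append, n6_rep, mon_single]
  have hw2 : X 0 * X 1 ^ p = mon (0 :: List.replicate p 1) := by
    rw [mon_cons, n6_rep]
  have hcf : ∀ w : List ℕ, w.length ≤ 2 → cf w (X 0 ^ p * X 1 + X 0 * X 1 ^ p) = 0 := by
    intro w hw
    rw [hw1, hw2, cf_add, cf_mon, cf_mon, if_neg, if_neg]
    · rfl
    · intro h
      have := congrArg List.length h
      simp at this
      omega
    · intro h
      have := congrArg List.length h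
      simp at this
      omega
  have hcom : com (X 0 ^ p * X 1 + X 0 * X 1 ^ p) =
      MvPolynomial.monomial (Finsupp.single 0 p + Finsupp.single 1 1) (1 : ℤ) +
        MvPolynomial.monomial (Finsupp.single 0 1 + Finsupp.single 1 p) (1 : ℤ) := by
    have x0 : (MvPolynomial.X 0 : MvPolynomial ℕ ℤ) = MvPolynomial.monomial (Finsupp.single 0 1) 1 := rfl
    have x1 : (MvPolynomial.X 1 : MvPolynomial ℕ ℤ) = MvPolynomial.monomial (Finsupp.single 1 1) 1 := rfl
    rw [map_add, map_mul, map_mul, map_pow, map_pow, n6_com_X, n6_com_X, MvPolynomial.X_pow_eq_monomial,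
      MvPolynomial.X_pow_eq_monomial, x0, x1, MvPolynomial.monomial_mul, MvPolynomial.monomial_mul, one_mul]
  have key : ∀ (i j : ℕ) (a b c d : ℕ), (Finsupp.single 0 a + Finsupp.single 1 b : ℕ →₀ ℕ) =
      Finsupp.single i c + Finsupp.single j d → a ≠ b → a ≠ 0 → b ≠ 0 → c ≠ 0 → d ≠ 0 →
      (i = 0 ∧ j = 1 ∧ a = c ∧ b = d) ∨ (i = 1 ∧ j = 0 ∧ a = d ∧ b = c) := by
    intro i j a b c d h hab ha hb hc hd
    have h0 := DFunLike.congr_fun h 0
    have h1 := DFunLike.congr_fun h 1
    have hi := DFunLike.congr_fun h i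
    have hj := DFunLike.congr_fun h j
    simp only [Finsupp.add_apply, Finsupp.single_apply] at h0 h1 hi hj
    by_cases i0 : i = 0
    · subst i0
      by_cases j1 : j = 1
      · subst j1
        left
        simp at h0 h1
        exact ⟨rfl, rfl, h0, h1⟩
      · exfalso
        by_cases j0 : j = 0
        · subst j0
          simp at h1
          exact hb h1
        · simp [Ne.symm j0, Ne.symm j1, j0, j1] at hj
          exact hd hj.symm
    · by_cases i1 : i = 1
      · subst i1
        by_cases j0 : j = 0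
        · subst j0
          right
          simp at h0 h1
          exact ⟨rfl, rfl, h0, h1⟩
        · exfalso
          by_cases j1 : j = 1
          · subst j1
            simp at h0
            exact ha h0
          · simp [Ne.symm j0, Ne.symm j1, j0, j1] at h0
            exact ha h0
      · exfalso
        simp [Ne.symm i0, Ne.symm i1, i0, i1] at hi
        omega
  refine ⟨?_, ?_, fun _ _ => 0, ?_, ?_, ?_, ?_, ?_⟩
  · exact Pp.add_mem (Pp_mul_left _ (X_mem 1)) (Pp_mul_right (X_mem 0) _)
  · intro i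
    rw [hcf [i] (by simp)]
    exact dvd_zero _
  · intro i j
    simp
  · intro i j
    rw [hcf [i, j] (by simp), mul_zero, sub_zero]
    exact dvd_zero _
  · intro d h3 hd
    rw [hcom, MvPolynomial.coeff_add, MvPolynomial.coeff_monomial, MvPolynomial.coeff_monomial, if_neg, if_neg]
    · exact dvd_zero _
    · rintro rfl
      rw [map_add, Finsupp.degree_single, Finsupp.degree_single] at hd
      omega
    · rintro rfl
      rw [map_add, Finsupp.degree_single, Finsupp.degree_single] at hd
      omega
  · intro i j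
    rw [mul_zero, sub_zero, hcom, MvPolynomial.coeff_add, MvPolynomial.coeff_add, MvPolynomial.coeff_monomial,
      MvPolynomial.coeff_monomial, MvPolynomial.coeff_monomial, MvPolynomial.coeff_monomial]
    have hne : p ≠ 1 := by omega
    have hp0 : p ≠ 0 := by omega
    by_cases hij : i = 0 ∧ j = 1
    · obtain ⟨rfl, rfl⟩ := hij
      have n1 : ¬ (Finsupp.single 0 1 + Finsupp.single 1 p : ℕ →₀ ℕ) = Finsupp.single 0 p + Finsupp.single 1 1 := by
        intro h
        rcases key _ _ _ _ _ _ h (Ne.symm hne) one_ne_zero hp0 hp0 one_ne_zero with h' | h'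
        · exact hne h'.2.2.2
        · exact one_ne_zero h'.2.1
      rw [if_pos rfl, if_neg n1, if_neg (fun h => n1 h.symm), if_pos rfl]
      simp
    · by_cases hji : i = 1 ∧ j = 0
      · obtain ⟨rfl, rfl⟩ := hji
        have e1 : (Finsupp.single 1 p + Finsupp.single 0 1 : ℕ →₀ ℕ) = Finsupp.single 0 1 + Finsupp.single 1 p :=
          add_comm _ _
        have e2 : (Finsupp.single 1 1 + Finsupp.single 0 p : ℕ →₀ ℕ) = Finsupp.single 0 p + Finsupp.single 1 1 :=
          add_comm _ _
        have n1 : ¬ (Finsupp.single 0 1 + Finsupp.single 1 p : ℕ →₀ ℕ) = Finsupp.single 0 p + Finsupp.single 1 1 := by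
          intro h
          rcases key _ _ _ _ _ _ h (Ne.symm hne) one_ne_zero hp0 hp0 one_ne_zero with h' | h'
          · exact hne h'.2.2.2
          · exact one_ne_zero h'.2.1
        rw [e1, e2, if_neg (fun h => n1 h.symm), if_pos rfl, if_pos rfl, if_neg n1]
        simp
      · rw [if_neg, if_neg, if_neg, if_neg]
        · simp
        · intro h
          rcases key _ _ _ _ _ _ h (Ne.symm hne) one_ne_zero hp0 one_ne_zero hp0 with h' | h'
          · exact hij ⟨h'.1, h'.2.1⟩
          · exact hji ⟨h'.1, h'.2.1⟩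
        · intro h
          rcases key _ _ _ _ _ _ h hne hp0 one_ne_zero one_ne_zero hp0 with h' | h'
          · exact hij ⟨h'.1, h'.2.1⟩
          · exact hji ⟨h'.1, h'.2.1⟩
        · intro h
          rcases key _ _ _ _ _ _ h (Ne.symm hne) one_ne_zero hp0 hp0 one_ne_zero with h' | h'
          · exact hij ⟨h'.1, h'.2.1⟩
          · exact hji ⟨h'.1, h'.2.1⟩
        · intro h
          rcases key _ _ _ _ _ _ h hne hp0 one_ne_zero hp0 one_ne_zero with h' | h'
          · exact hij ⟨h'.1, h'.2.1⟩
          · exact hji ⟨h'.1, h'.2.1⟩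
  · intro d _ hd
    rw [hcom, MvPolynomial.coeff_add, MvPolynomial.coeff_monomial, MvPolynomial.coeff_monomial, if_neg, if_neg]
    · exact dvd_zero _
    · rintro rfl
      have := hd 1
      simp at this
    · rintro rfl
      have := hd 0
      simp at this

private theorem n6_span {φ : List ℕ → Prop} {n : ℕ} {T : Submodule ℤ P}
    (h : ∀ w, φ w → n ≤ w.length → mon w ∈ T) {r : P} (hr : r ∈ Fge n) : wp φ r ∈ T := by
  unfold Fge at hr
  induction hr using Submodule.span_induction with
  | mem x hx =>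
    obtain ⟨w, hw, rfl⟩ := hx
    by_cases h1 : φ w
    · rw [wp_pos h1]
      exact h w h1 hw
    · rw [wp_neg h1]
      exact T.zero_mem
  | zero => rw [map_zero]; exact T.zero_mem
  | add x y _ _ hx hy => rw [map_add]; exact T.add_mem hx hy
  | smul c x _ hx => rw [map_smul]; exact T.smul_mem _ hx

/-- the case of two variables -/
private theorem n6_case {p : ℕ} (hp : p.Prime) (h5 : 5 ≤ p) {E A B C : Submodule ℤ P} (hT : IsT E) (hm : Mul p E)
    (hL : Lk p E A B C) (hlong : ∀ w : List ℕ, p + 2 ≤ w.length → mon w ∈ E)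
    (cs : ∀ u v : List ℕ, u.Perm v → 3 ≤ u.length → mon u - mon v ∈ E)
    (hs : X 0 ^ p * X 1 + X 0 * X 1 ^ p ∈ E) (hc : cm 0 1 ∈ E ⊔ Fge (p + 1)) {a b : P}
    (ha : a ∈ Q p 2) (hb : b ∈ Q p 2) (hl : Lnk A B C a b) : a ∈ E := by
  obtain ⟨P3, hP3⟩ : ∃ P3 : P, P3 = X 0 ^ p * X 1 := ⟨_, rfl⟩
  have w1 : mon (List.replicate p 0 ++ [1]) = P3 := by rw [mon_append, n6_rep, mon_single, hP3]
  have w2 : mon (0 :: List.replicate p 1) = X 0 * X 1 ^ p := by rw [mon_cons, n6_rep]
  have w3 : mon (List.replicate p 1 ++ [0]) = X 1 ^ p * X 0 := by rw [mon_append, n6_rep, mon_single]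
  have hs' : X 0 * X 1 ^ p + P3 ∈ E := by rw [hP3, add_comm]; exact hs
  have hs2 : X 1 ^ p * X 0 + P3 ∈ E := by
    have h1 := cs (List.replicate p 1 ++ [0]) (0 :: List.replicate p 1)
      (List.perm_append_comm.trans (by rw [List.singleton_append])) (by simp; omega)
    rw [w2, w3] at h1
    have e : X 1 ^ p * X 0 + P3 = (X 1 ^ p * X 0 - X 0 * X 1 ^ p) + (X 0 * X 1 ^ p + P3) := by abel
    rw [e]
    exact E.add_mem h1 hs'
  have m1 : ∀ w : List ℕ, w.Perm (List.replicate p 0 ++ [1]) → mon w - P3 ∈ E := by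
    intro w hw
    have h1 := cs w _ hw (by rw [hw.length_eq]; simp; omega)
    rwa [w1] at h1
  have m2 : ∀ w : List ℕ, w.Perm (0 :: List.replicate p 1) → mon w + P3 ∈ E := by
    intro w hw
    have h1 := cs w _ hw (by rw [hw.length_eq]; simp; omega)
    rw [w2] at h1
    have e : mon w + P3 = (mon w - X 0 * X 1 ^ p) + (X 0 * X 1 ^ p + P3) := by abel
    rw [e]
    exact E.add_mem h1 hs'
  have hsp : P3 ∈ E ⊔ Submodule.span ℤ {P3} :=
    Submodule.mem_sup_right (Submodule.mem_span_singleton_self _)
  -- the commutator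
  obtain ⟨e, he, h, hh, heh⟩ := Submodule.mem_sup.1 hc
  have hc1 : cm 0 1 ∈ E ⊔ Submodule.span ℤ {P3} := by
    have h1 : wp (qw p 2) (cm 0 1) = cm 0 1 := by
      have q1 : qw p 2 [0, 1] := qw_of_perm (by omega) (List.Perm.refl _)
      have q2 : qw p 2 [1, 0] := qw_of_perm (by omega) (List.Perm.swap 0 1 [])
      have e1 : cm 0 1 = mon [0, 1] - mon [1, 0] := by
        unfold cm
        rw [mon_cons, mon_single, mon_cons, mon_single]
      rw [e1, map_sub, wp_pos q1, wp_pos q2]
    rw [← h1, ← heh, map_add]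
    refine Submodule.add_mem _ (Submodule.mem_sup_left (TOp_qw hp (by omega) 2 E hT hm.sq e he)) ?_
    refine n6_span ?_ hh
    intro w hw hwl
    rcases n6_two h5 hw with h2 | h2 | h2 | h2
    · have := h2.length_eq
      simp at this
      omega
    · have e2 : mon w = (mon w - P3) + P3 := by abel
      rw [e2]
      exact Submodule.add_mem _ (Submodule.mem_sup_left (m1 w h2)) hsp
    · have e2 : mon w = (mon w + P3) - P3 := by abel
      rw [e2]
      exact Submodule.sub_mem _ (Submodule.mem_sup_left (m2 w h2)) hsp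
    · exact Submodule.mem_sup_left (hlong w h2)
  obtain ⟨e', he', z, hz, hez⟩ := Submodule.mem_sup.1 hc1
  obtain ⟨c, rfl⟩ := Submodule.mem_span_singleton.1 hz
  have hcc : X 0 * X 1 - X 1 * X 0 - c • P3 ∈ E := by
    have e2 : X 0 * X 1 - X 1 * X 0 - c • P3 = e' := by
      rw [eq_comm, ← add_right_cancel_iff (a := c • P3), hez]
      unfold cm
      abel
    rw [e2]
    exact he'
  -- the form of the elements
  have form : ∀ f ∈ Q p 2, ∃ α γ : ℤ, f - α • (X 0 * X 1) - γ • P3 ∈ E := by
    intro f hf
    unfold Q at hf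
    induction hf using Submodule.span_induction with
    | mem x hx =>
      obtain ⟨w, hw, rfl⟩ := hx
      rcases n6_two h5 hw with h2 | h2 | h2 | h2
      · have h3 : w = [0, 1] ∨ w = [1, 0] := by
          have hl2 := h2.length_eq
          match w, hl2 with
          | [x, y], _ =>
            have hx : x ∈ [0, 1] := h2.mem_iff.1 (by simp)
            have hy : y ∈ [0, 1] := h2.mem_iff.1 (by simp)
            have h0 : 0 ∈ [x, y] := h2.mem_iff.2 (by simp)
            have h1 : 1 ∈ [x, y] := h2.mem_iff.2 (by simp)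
            simp at hx hy h0 h1
            rcases hx with rfl | rfl
            · rcases hy with rfl | rfl
              · simp at h1
              · left; rfl
            · rcases hy with rfl | rfl
              · right; rfl
              · simp at h0
        rcases h3 with rfl | rfl
        · refine ⟨1, 0, ?_⟩
          rw [mon_cons, mon_single, one_smul, zero_smul, sub_self, sub_zero]
          exact E.zero_mem
        · refine ⟨1, -c, ?_⟩
          rw [mon_cons, mon_single, one_smul]
          have e2 : X 1 * X 0 - X 0 * X 1 - (-c) • P3 = -(X 0 * X 1 - X 1 * X 0 - c • P3) := by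
            rw [neg_smul]
            abel
          rw [e2]
          exact E.neg_mem hcc
      · refine ⟨0, 1, ?_⟩
        rw [zero_smul, sub_zero, one_smul]
        exact m1 w h2
      · refine ⟨0, -1, ?_⟩
        rw [zero_smul, sub_zero, neg_smul, one_smul, sub_neg_eq_add]
        exact m2 w h2
      · refine ⟨0, 0, ?_⟩
        rw [zero_smul, sub_zero, zero_smul, sub_zero]
        exact hlong w h2
    | zero =>
      refine ⟨0, 0, ?_⟩
      rw [zero_smul, sub_zero, zero_smul, sub_zero]
      exact E.zero_mem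
    | add x y _ _ hx hy =>
      obtain ⟨α, γ, h1⟩ := hx
      obtain ⟨α', γ', h2⟩ := hy
      refine ⟨α + α', γ + γ', ?_⟩
      have e2 : x + y - (α + α') • (X 0 * X 1) - (γ + γ') • P3 =
          (x - α • (X 0 * X 1) - γ • P3) + (y - α' • (X 0 * X 1) - γ' • P3) := by
        rw [add_smul, add_smul]
        abel
      rw [e2]
      exact E.add_mem h1 h2
    | smul k x _ hx =>
      obtain ⟨α, γ, h1⟩ := hx
      refine ⟨k * α, k * γ, ?_⟩
      have e2 : k • x - (k * α) • (X 0 * X 1) - (k * γ) • P3 = k • (x - α • (X 0 * X 1) - γ • P3) := by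
        rw [smul_sub, smul_sub, smul_smul, smul_smul]
      rw [e2]
      exact E.smul_mem _ h1
  -- the exchange of the variables
  obtain ⟨τ, hτ⟩ : ∃ τ : P →ₐ[ℤ] P, τ = rn 2 (Equiv.swap 0 1) := ⟨_, rfl⟩
  have t0 : τ (X 0) = X 1 := by
    rw [hτ, rn_X, dif_pos (by norm_num)]
    rfl
  have t1 : τ (X 1) = X 0 := by
    rw [hτ, rn_X, dif_pos (by norm_num)]
    rfl
  have tE : ∀ f ∈ E, τ f ∈ E := fun f hf => by
    rw [hτ]
    exact hT.subst _ (rn_isSubst _ _) f hf
  have tP : τ (X 0 * X 1) = X 1 * X 0 := by rw [map_mul, t0, t1]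
  have tP3 : τ P3 = X 1 ^ p * X 0 := by rw [hP3, map_mul, map_pow, t0, t1]
  have plus : ∀ f ∈ Q p 2, f + τ f ∈ E ⊔ Submodule.span ℤ {X 0 * X 1 + X 1 * X 0} := by
    intro f hf
    obtain ⟨α, γ, h1⟩ := form f hf
    have h2 := tE _ h1
    rw [map_sub, map_sub, map_smul, map_smul, tP, tP3] at h2
    have e2 : f + τ f = ((f - α • (X 0 * X 1) - γ • P3) + (τ f - α • (X 1 * X 0) - γ • (X 1 ^ p * X 0)) +
        γ • (X 1 ^ p * X 0 + P3)) + α • (X 0 * X 1 + X 1 * X 0) := by
      rw [smul_add, smul_add]
      abel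
    rw [e2]
    exact Submodule.add_mem _ (Submodule.mem_sup_left (E.add_mem (E.add_mem h1 h2) (E.smul_mem _ hs2)))
      (Submodule.mem_sup_right (Submodule.smul_mem _ _ (Submodule.mem_span_singleton_self _)))
  have minus : ∀ f ∈ Q p 2, f - τ f ∈ E ⊔ Submodule.span ℤ {P3} := by
    intro f hf
    obtain ⟨α, γ, h1⟩ := form f hf
    have h2 := tE _ h1
    rw [map_sub, map_sub, map_smul, map_smul, tP, tP3] at h2
    have e2 : f - τ f = ((f - α • (X 0 * X 1) - γ • P3) - (τ f - α • (X 1 * X 0) - γ • (X 1 ^ p * X 0)) -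
        γ • (X 1 ^ p * X 0 + P3) + α • (X 0 * X 1 - X 1 * X 0 - c • P3)) + (α * c + (γ + γ)) • P3 := by
      rw [add_smul, add_smul, smul_sub, smul_sub, smul_add, smul_smul]
      abel
    rw [e2]
    exact Submodule.add_mem _ (Submodule.mem_sup_left (E.add_mem (E.sub_mem (E.sub_mem h1 h2)
      (E.smul_mem _ hs2)) (E.smul_mem _ hcc)))
      (Submodule.mem_sup_right (Submodule.smul_mem _ _ (Submodule.mem_span_singleton_self _)))
  have hTt : TOp p (tl τ) := by
    rw [hτ]
    exact TOp_rn p 2 _
  have hP : X 0 * X 1 + X 1 * X 0 ∈ Pp := Pp.add_mem (Pp_mul_left _ (X_mem 1)) (Pp_mul_left _ (X_mem 0))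
  have hP3' : P3 ∈ Pp := by
    rw [hP3]
    exact Pp_mul_left _ (X_mem 1)
  have k1 : a + τ a ∈ E := by
    have h1 := hl.map hL ((TOp.id' p).add hTt)
    exact hL.np hp h1 hP (plus a ha) (plus b hb)
  have k2 : a - τ a ∈ E := by
    have h1 := hl.map hL ((TOp.id' p).sub hTt)
    exact hL.np hp h1 hP3' (minus a ha) (minus b hb)
  have k3 : (2 : ℤ) • a ∈ E := by
    have e2 : (2 : ℤ) • a = (a + τ a) + (a - τ a) := by
      rw [two_smul]
      abel
    rw [e2]
    exact E.add_mem k1 k2
  refine cancel hp hm.sq ?_ (hL.hA.le hl.1) k3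
  intro hd
  have h1 : p ∣ 2 := by exact_mod_cast hd
  have h2 := Nat.le_of_dvd (by norm_num) h1
  omega

theorem N6 {p : ℕ} (hp : p.Prime) (h5 : 5 ≤ p) {E : Submodule ℤ P} (hE : AlmDist E) (hm : Mul p E)
    (hN : NPt p 0 0 ≤ E) (hc : cm 0 1 ∈ E ⊔ Fge (p + 1)) : False := by
  obtain ⟨A, B, C, hL⟩ := exists_lk hE hm.sq
  have hT : IsT E := hE.1
  have hX : X 0 ∉ E := by
    intro h
    refine hL.neA (hL.hA.le.trans fun f hf => ?_)
    have h1 := sb_mem hT (φ := fun _ => f) (fun _ => hf) h
    rwa [sb_X] at h1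
  have hlong : ∀ w : List ℕ, p + 2 ≤ w.length → mon w ∈ E := fun w hw => hN (NPt_nil h5 0 0 w hw)
  have hB : Bas p E :=
    { pp := hp
      five := h5
      isT := hT
      mul := hm
      nil := ⟨p + 2, hlong⟩
      ne := hX }
  obtain ⟨c1, c2⟩ := cmX_NPt h5
  have cs : ∀ u v : List ℕ, u.Perm v → 3 ≤ u.length → mon u - mon v ∈ E := fun u v h h3 =>
    CSt3 hT (hN c2) (hN c1) h h3
  obtain ⟨n, a, b, hn, ha, hb, hl, haE, -, -⟩ := nf hp (by omega) hL
  apply haE
  rcases Nat.lt_or_ge n 2 with h2 | h2
  · obtain rfl : n = 1 := by omega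
    exact Pair1 hL hB ha hb hl
  rcases Nat.lt_or_ge n 3 with h3 | h3
  · obtain rfl : n = 2 := by omega
    exact n6_case hp h5 hT hm hL hlong cs (hN (n6_sum h5)) hc ha hb hl
  · have hQ : Q p n ≤ E ⊔ Submodule.span ℤ {mw n} := by
      refine Submodule.span_le.2 ?_
      rintro f ⟨w, hw, rfl⟩
      by_cases hlt : n < w.length
      · have := n6_len h5 hw hlt
        exact Submodule.mem_sup_left (hlong w (by omega))
      · have h4 := n6_perm hw hlt
        have h5' := cs w (List.range n) h4 (by rw [h4.length_eq, List.length_range]; exact h3)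
        have e : mon w = (mon w - mw n) + mw n := by abel
        rw [e]
        exact Submodule.add_mem _ (Submodule.mem_sup_left h5')
          (Submodule.mem_sup_right (Submodule.mem_span_singleton_self _))
    have hY : mw n ∈ Pp := by
      refine mon_mem fun h => ?_
      have := congrArg List.length h
      rw [List.length_range] at this
      simp at this
      omega
    exact hL.np hp hl hY (hQ ha) (hQ hb)

end ADC
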