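import Pool.Agent.ADC.NdT
import Pool.Agent.ADC.FunTr
import Pool.Agent.ADC.KGs

/-!
# ADC-NdE

`GP p k`, `k` even, is not distributive: `NdT` with `K = KG p k`, `u1 = p • mw p`, `u2 = 2 • tau p (mw p) - p (p - 1 - 2k) • mw p`.
For `h = cc c (mw p)`, both `cc c u1 ∈ KG` and `cc c u2 ∈ KG` mean that `p` divides `gB (rn σ h)` for all `σ`.
-/

namespace ADC

open AD ADN

private theorem cc_smul {n : ℕ} (c : Equiv.Perm (Fin n) → ℤ) (a : ℤ) (u : P) :
    cc n c (a • u) = a • cc n c u := by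
  unfold cc
  rw [Finset.smul_sum]
  exact Finset.sum_congr rfl fun σ _ => by rw [map_zsmul, smul_comm]

private theorem cc_sub {n : ℕ} (c : Equiv.Perm (Fin n) → ℤ) (u v : P) :
    cc n c (u - v) = cc n c u - cc n c v := by
  unfold cc
  rw [← Finset.sum_sub_distrib]
  exact Finset.sum_congr rfl fun σ _ => by rw [map_sub, smul_sub]

private theorem cc_tau {n : ℕ} (c : Equiv.Perm (Fin n) → ℤ) (u : P) :
    cc n c (tau n u) = tau n (cc n c u) := by
  unfold cc
  rw [map_sum]
  exact Finset.sum_congr rfl fun σ _ => by rw [map_smul, tau_rn]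

private theorem sgl_one {n : ℕ} : ∀ U : List ℕ, U.Pairwise (· < ·) → (∀ a ∈ U, a < n) →
    sgl (List.range n) U = 1 := by
  intro U
  induction U with
  | nil => intro _ _; rfl
  | cons a U ih =>
    intro h1 h2
    rw [List.pairwise_cons] at h1
    have h3 : ∀ b, b < n → (List.range n).idxOf b = b := by
      intro b hb
      have h4 := List.Nodup.idxOf_getElem (List.nodup_range (n := n)) b (by
        rw [List.length_range]
        exact hb)
      rwa [List.getElem_range] at h4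
    have h4 : (U.map fun v => bef (List.range n) a v).prod = 1 := by
      rw [List.prod_eq_one]
      intro x hx
      obtain ⟨v, hv, rfl⟩ := List.mem_map.1 hx
      unfold bef
      rw [h3 a (h2 a List.mem_cons_self), h3 v (h2 v (List.mem_cons_of_mem _ hv)),
        if_pos (h1.1 v hv)]
    show (U.map fun v => bef (List.range n) a v).prod * sgl (List.range n) U = 1
    rw [h4, ih h1.2 fun b hb => h2 b (List.mem_cons_of_mem _ hb), one_mul]

private theorem gB_mw {n k : ℕ} (hk : k ≤ n) : gB n k (mw n) = (n : ℤ) - k := by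
  unfold mw
  rw [gB_mon]
  rw [Finset.sum_congr rfl (g := fun _ => (1 : ℤ))]
  · rw [Finset.sum_const, Nat.card_Ico, nsmul_eq_mul, mul_one, Nat.cast_sub hk]
  · intro s hs
    rw [Finset.mem_Ico] at hs
    apply sgl_one
    · rw [List.pairwise_append]
      refine ⟨List.pairwise_lt_range, List.pairwise_singleton _ _, ?_⟩
      intro a ha b hb
      rw [List.mem_range] at ha
      rw [List.mem_singleton] at hb
      omega
    · intro a ha
      rw [List.mem_append, List.mem_range, List.mem_singleton] at ha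
      omega

theorem NdE {p k : ℕ} (hp : p.Prime) (h5 : 5 ≤ p) (h1 : 1 ≤ k) (hk : k < p) (h2 : k % 2 = 0) :
    ¬ DistOn TI (GP p k) := by
  have hpZ : Prime (p : ℤ) := Nat.prime_iff_prime_int.1 hp
  have hp0 : (p : ℤ) ≠ 0 := hpZ.ne_zero
  have hp2 : ¬ (p : ℤ) ∣ 2 := by
    intro h3
    have := Int.le_of_dvd (by norm_num) h3
    omega
  have hmw : mw p ∈ Ml p := Ml_mon (List.Perm.refl _)
  -- the values
  have v1 : ∀ (c : Equiv.Perm (Fin p) → ℤ) (σ : Equiv.Perm (Fin p)),
      gA k (rn p σ (cc p c ((p : ℤ) • mw p))) = (p : ℤ) * gA k (rn p σ (cc p c (mw p))) ∧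
      gB p k (rn p σ (cc p c ((p : ℤ) • mw p))) = (p : ℤ) * gB p k (rn p σ (cc p c (mw p))) := by
    intro c σ
    rw [cc_smul, map_zsmul, map_smul, map_smul]
    exact ⟨rfl, rfl⟩
  have v2 : ∀ (c : Equiv.Perm (Fin p) → ℤ) (σ : Equiv.Perm (Fin p)),
      gA k (rn p σ (cc p c ((2 : ℤ) • tau p (mw p) - ((p : ℤ) * (p - 1 - 2 * k)) • mw p))) =
        2 * (p : ℤ) * gA k (rn p σ (cc p c (mw p))) - 2 * gB p k (rn p σ (cc p c (mw p))) ∧
      gB p k (rn p σ (cc p c ((2 : ℤ) • tau p (mw p) - ((p : ℤ) * (p - 1 - 2 * k)) • mw p))) = 0 := by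
    intro c σ
    have hh : rn p σ (cc p c (mw p)) ∈ Ml p := Ml_rn σ (cc_Ml c hmw)
    obtain ⟨e1, e2⟩ := FunT hk.le h2 hh
    rw [cc_sub, cc_smul, cc_smul, cc_tau, map_sub, map_zsmul, map_zsmul, ← tau_rn, map_sub, map_sub,
      map_smul, map_smul, map_smul, map_smul]
    simp only [smul_eq_mul]
    constructor
    · linear_combination e1
    · linear_combination e2
  -- membership
  have m1 : ∀ c, cc p c ((p : ℤ) • mw p) ∈ KG p k ↔
      ∀ σ : Equiv.Perm (Fin p), (p : ℤ) ∣ gB p k (rn p σ (cc p c (mw p))) := by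
    intro c
    constructor
    · intro h σ
      have h3 := (h σ).2
      rw [h2, (v1 c σ).2, Nat.sub_zero, pow_two] at h3
      exact (mul_dvd_mul_iff_left hp0).1 h3
    · intro h σ
      refine ⟨?_, ?_⟩
      · rw [(v1 c σ).1]
        exact dvd_mul_right _ _
      · rw [h2, (v1 c σ).2, Nat.sub_zero, pow_two]
        exact mul_dvd_mul_left _ (h σ)
  have m2 : ∀ c, cc p c ((2 : ℤ) • tau p (mw p) - ((p : ℤ) * (p - 1 - 2 * k)) • mw p) ∈ KG p k ↔
      ∀ σ : Equiv.Perm (Fin p), (p : ℤ) ∣ gB p k (rn p σ (cc p c (mw p))) := by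
    intro c
    constructor
    · intro h σ
      have h3 := (h σ).1
      rw [(v2 c σ).1] at h3
      have h4 : (p : ℤ) ∣ 2 * gB p k (rn p σ (cc p c (mw p))) := by
        have h6 := (dvd_sub_right (dvd_mul_of_dvd_left (dvd_mul_left (p : ℤ) 2)
          (gA k (rn p σ (cc p c (mw p)))))).1 h3
        exact h6
      exact (hpZ.dvd_or_dvd h4).resolve_left hp2
    · intro h σ
      refine ⟨?_, ?_⟩
      · rw [(v2 c σ).1]
        exact dvd_sub (dvd_mul_of_dvd_left (dvd_mul_left _ _) _) (dvd_mul_of_dvd_right (h σ) _)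
      · rw [(v2 c σ).2]
        exact dvd_zero _
  unfold GP
  refine NdT (n := p) (u1 := (p : ℤ) • mw p)
    (u2 := (2 : ℤ) • tau p (mw p) - ((p : ℤ) * (p - 1 - 2 * k)) • mw p) (by omega) (KG_add p k)
    (Submodule.smul_mem _ _ hmw)
    (Submodule.sub_mem _ (Submodule.smul_mem _ _ (tau_Ml hmw)) (Submodule.smul_mem _ _ hmw))
    (fun c => (m1 c).trans (m2 c).symm) ?_ ?_
  · intro c d h
    rw [m1]
    intro σ
    have h3 := (h σ).2
    rw [map_add, map_add, (v2 d σ).2, add_zero, h2, (v1 c σ).2, Nat.sub_zero, pow_two] at h3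
    exact (mul_dvd_mul_iff_left hp0).1 h3
  · intro h
    have h3 := (h 1).2
    rw [rn_one, map_smul, gB_mw hk.le, h2, Nat.sub_zero, pow_two, smul_eq_mul] at h3
    have h4 := (mul_dvd_mul_iff_left hp0).1 h3
    have h6 : (p : ℤ) ∣ (k : ℤ) := by
      have h7 := dvd_sub (dvd_refl (p : ℤ)) h4
      rwa [sub_sub_cancel] at h7
    have h7 := Int.le_of_dvd (by omega) h6
    omega

end ADC
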