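import Pool.Agent.ADC.NPs

/-!
# ADC-NdN: `NPt p 0 0` is not distributive
-/

namespace ADC

open AD ADN

private def ndm (i j : ℕ) : ℤ := if i = 0 ∧ j = 1 then 1 else if i = 1 ∧ j = 0 then -1 else 0

private theorem ndm_anti (i j : ℕ) : ndm i j = - ndm j i := by
  unfold ndm
  by_cases h1 : i = 0 ∧ j = 1
  · rw [if_pos h1, if_neg (by omega), if_pos (by omega)]
    rfl
  · rw [if_neg h1]
    by_cases h2 : i = 1 ∧ j = 0
    · rw [if_pos h2, if_pos (by omega)]
    · rw [if_neg h2, if_neg (by omega), if_neg (by omega)]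
      rfl

private theorem nd_cm : cm 0 1 = mon [0, 1] + (-1 : ℤ) • mon [1, 0] := by
  unfold cm
  rw [mon_cons, mon_single, mon_cons, mon_single, neg_one_smul, sub_eq_add_neg]

private theorem nd_pw (p : ℕ) : X 0 ^ p * X 1 = mon (List.replicate p 0 ++ [1]) := by
  rw [mon_append, mon_single]
  congr 1
  unfold mon
  rw [List.map_replicate, List.prod_replicate]

private theorem nd_com (p : ℕ) (a b : ℤ) : com (a • cm 0 1 + b • (X 0 ^ p * X 1)) =
    MvPolynomial.monomial (Finsupp.single 0 p + Finsupp.single 1 1) b := by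
  have h : ∀ i, com (X i) = MvPolynomial.X i := fun i => by simp [com]
  unfold cm
  rw [map_add, map_zsmul, map_zsmul, map_sub, map_mul, map_mul, map_mul, map_pow, h, h, mul_comm (MvPolynomial.X 1),
    sub_self, smul_zero, zero_add, MvPolynomial.X_pow_eq_monomial, MvPolynomial.X, MvPolynomial.monomial_mul,
    mul_one]
  rw [MvPolynomial.smul_monomial, smul_eq_mul, mul_one]

private theorem nd_mem {p : ℕ} (h5 : 5 ≤ p) (a b : ℤ) : a • cm 0 1 + b • (X 0 ^ p * X 1) ∈ NPt p a b := by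
  classical
  rw [NPt_mem]
  have hlen : ∀ w : List ℕ, w.length ≤ 2 → cf w (X 0 ^ p * X 1) = 0 := by
    intro w hw
    rw [nd_pw, cf_mon, if_neg]
    rintro rfl
    rw [List.length_append, List.length_replicate, List.length_singleton] at hw
    omega
  refine ⟨Pp.add_mem (Pp.smul_mem _ (cm_mem 0 1)) (Pp.smul_mem _ (Pp_mul_left _ (X_mem 1))), ?_, ndm, ndm_anti,
    ?_, ?_, ?_, ?_⟩
  · intro i
    rw [cf_add, cf_smul, cf_smul, hlen [i] (by simp), nd_cm, cf_add, cf_smul, cf_mon, cf_mon, if_neg (by simp),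
      if_neg (by simp)]
    simp
  · intro i j
    rw [cf_add, cf_smul, cf_smul, hlen [i, j] (by simp), nd_cm, cf_add, cf_smul, cf_mon, cf_mon]
    have e : ((if ([0, 1] : List ℕ) = [i, j] then (1 : ℤ) else 0) + -1 * (if ([1, 0] : List ℕ) = [i, j] then 1 else 0)) =
        ndm i j := by
      have e1 : ([0, 1] : List ℕ) = [i, j] ↔ (i = 0 ∧ j = 1) := by
        rw [List.cons_eq_cons, List.cons_eq_cons]
        constructor
        · rintro ⟨h1, h2, _⟩
          exact ⟨h1.symm, h2.symm⟩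
        · rintro ⟨h1, h2⟩
          exact ⟨h1.symm, h2.symm, rfl⟩
      have e2 : ([1, 0] : List ℕ) = [i, j] ↔ (i = 1 ∧ j = 0) := by
        rw [List.cons_eq_cons, List.cons_eq_cons]
        constructor
        · rintro ⟨h1, h2, _⟩
          exact ⟨h1.symm, h2.symm⟩
        · rintro ⟨h1, h2⟩
          exact ⟨h1.symm, h2.symm, rfl⟩
      rw [if_congr e1 rfl rfl, if_congr e2 rfl rfl]
      unfold ndm
      by_cases h1 : i = 0 ∧ j = 1
      · rw [if_pos h1, if_pos h1, if_neg (by omega)]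
        norm_num
      · rw [if_neg h1, if_neg h1]
        split_ifs <;> norm_num
    rw [e]
    simp
  · intro d hd1 hd2
    rw [nd_com, MvPolynomial.coeff_monomial, if_neg]
    · exact dvd_zero _
    · rintro rfl
      rw [map_add, Finsupp.degree_single, Finsupp.degree_single] at hd2
      omega
  · intro i j
    rw [nd_com, MvPolynomial.coeff_monomial, MvPolynomial.coeff_monomial]
    have e1 : (Finsupp.single 0 p + Finsupp.single 1 1 : ℕ →₀ ℕ) = Finsupp.single i p + Finsupp.single j 1 ↔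
        (i = 0 ∧ j = 1) := by
      rw [Finsupp.single_add_single_eq_single_add_single (by omega) (by omega)]
      constructor
      · rintro (⟨h1, h2⟩ | ⟨h1, h2, h3⟩ | ⟨h1, h2, h3⟩) <;> omega
      · rintro ⟨rfl, rfl⟩
        exact Or.inl ⟨rfl, rfl⟩
    have e2 : (Finsupp.single 0 p + Finsupp.single 1 1 : ℕ →₀ ℕ) = Finsupp.single i 1 + Finsupp.single j p ↔
        (i = 1 ∧ j = 0) := by
      rw [add_comm (Finsupp.single i 1)]
      rw [Finsupp.single_add_single_eq_single_add_single (by omega) (by omega)]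
      constructor
      · rintro (⟨h1, h2⟩ | ⟨h1, h2, h3⟩ | ⟨h1, h2, h3⟩) <;> omega
      · rintro ⟨rfl, rfl⟩
        exact Or.inl ⟨rfl, rfl⟩
    rw [if_congr e1 rfl rfl, if_congr e2 rfl rfl]
    have e : (if i = 0 ∧ j = 1 then b else 0) - (if i = 1 ∧ j = 0 then b else 0) - b * ndm i j = 0 := by
      unfold ndm
      by_cases h1 : i = 0 ∧ j = 1
      · rw [if_pos h1, if_pos h1, if_neg (by omega)]
        ring
      · rw [if_neg h1, if_neg h1]
        split_ifs <;> ring
    rw [e]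
    exact dvd_zero _
  · intro d _ hd2
    rw [nd_com, MvPolynomial.coeff_monomial, if_neg]
    · exact dvd_zero _
    · rintro rfl
      have h1 := hd2 0
      rw [Finsupp.add_apply, Finsupp.single_eq_same] at h1
      omega

private theorem nd_mono {p : ℕ} (α β : ℤ) : NPt p 0 0 ≤ NPt p α β := by
  intro f hf
  rw [NPt_mem] at hf ⊢
  obtain ⟨h1, h2, m, -, h4, h5, h6, h7⟩ := hf
  refine ⟨h1, h2, fun _ _ => 0, ?_, ?_, h5, ?_, h7⟩
  · intro i j
    simp
  · intro i j
    have h := h4 i j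
    rw [zero_mul] at h
    rw [mul_zero]
    exact h
  · intro i j
    have h := h6 i j
    rw [zero_mul] at h
    rw [mul_zero]
    exact h


theorem NdN {p : ℕ} (hp : p.Prime) (h5 : 5 ≤ p) : ¬ DistOn TI (NPt p 0 0) := by
  intro hd
  have m1 : cm 0 1 ∈ NPt p 1 0 := by
    have h := nd_mem h5 1 0
    rwa [one_smul, zero_smul, add_zero] at h
  have m2 : X 0 ^ p * X 1 ∈ NPt p 0 1 := by
    have h := nd_mem h5 0 1
    rwa [one_smul, zero_smul, zero_add] at h
  have m3 : cm 0 1 + X 0 ^ p * X 1 ∈ NPt p 1 1 := by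
    have h := nd_mem h5 1 1
    rwa [one_smul, one_smul] at h
  have h := hd (NPt p 1 0) (NPt_isT hp h5 1 0) (NPt p 0 1) (NPt_isT hp h5 0 1) (NPt p 1 1) (NPt_isT hp h5 1 1)
    (nd_mono 1 0) (nd_mono 0 1) (nd_mono 1 1)
  have h1 : cm 0 1 ∈ NPt p 1 0 ⊓ (NPt p 0 1 ⊔ NPt p 1 1) := by
    refine Submodule.mem_inf.2 ⟨m1, Submodule.mem_sup.2 ⟨-(X 0 ^ p * X 1), Submodule.neg_mem _ m2,
      cm 0 1 + X 0 ^ p * X 1, m3, ?_⟩⟩
    abel
  rw [h] at h1
  obtain ⟨f, hf, g, hg, hfg⟩ := Submodule.mem_sup.1 h1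
  obtain ⟨-, -, m, -, k1, -, -, -⟩ := NPt_mem.1 (Submodule.mem_inf.1 hf).2
  obtain ⟨-, -, m', -, -, -, k2, -⟩ := NPt_mem.1 (Submodule.mem_inf.1 hg).1
  obtain ⟨-, -, m'', -, k3, -, k4, -⟩ := NPt_mem.1 (Submodule.mem_inf.1 hg).2
  have q1 := k1 0 1
  have q2 := k2 0 1
  have q3 := k3 0 1
  have q4 := k4 0 1
  have e : cf [0, 1] f + cf [0, 1] g = 1 := by
    classical
    rw [← cf_add, hfg, nd_cm, cf_add, cf_smul, cf_mon, cf_mon, if_pos rfl, if_neg (by simp)]
    norm_num
  rw [zero_mul, sub_zero] at q1 q2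
  rw [one_mul] at q3 q4
  have q5 : (p : ℤ) ∣ 1 := by
    have h2 := dvd_add q1 (dvd_add (dvd_sub q3 q4) q2)
    have h3 : cf [0, 1] f + (cf [0, 1] g - m'' 0 1 - ((com g).coeff (Finsupp.single 0 p + Finsupp.single 1 1) -
        (com g).coeff (Finsupp.single 0 1 + Finsupp.single 1 p) - m'' 0 1) +
        ((com g).coeff (Finsupp.single 0 p + Finsupp.single 1 1) -
        (com g).coeff (Finsupp.single 0 1 + Finsupp.single 1 p))) = 1 := by
      rw [← e]
      ring
    rwa [h3] at h2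
  have q6 := Int.le_of_dvd one_pos q5
  omega

theorem NPt_mono {p : ℕ} (α β : ℤ) : NPt p 0 0 ≤ NPt p α β := by
  exact nd_mono α β

end ADC
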