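import Pool.Agent.ADC.TKb
import Pool.Agent.ADC.Trf

/-!
# ADC-NdT

The T-ideal `TK n K` is not distributive if there are linked `u1`, `u2`.

For `u ∈ Ml n` let `V u` be the span of the elements `sb (fun i => X (τ i)) u`, `τ : ℕ → ℕ`, and `T u = Fge (n+1) ⊔ V u`, a T-ideal (this is proved for the
(private) `tkV` in ADC.TKb, theorem `TK_mem`: copy the lemmas).  `D u = TK n K ⊔ T u`, a T-ideal (supremum of two T-ideals: `expo_TI_sup` or similar).
(1) If `g ∈ D u`, `g ∈ Ml n`, then there is `c` with `g - cc n c u ∈ K`: `g = t + h + v`, `t ∈ TK n K`, `h ∈ Fge (n+1)`, `v ∈ V u`.  Apply `wp (fu n)` (`fu`: the words with exactly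
  the letters `0, ..., n-1`; it preserves all T-ideals, see ADC.TKb): `g = wp t + wp h + wp v`, `wp v = cc n c u` (the words of `sb (X ∘ τ) u` have length `n` and are
  full iff `τ` permutes `{0, ..., n-1}`), `wp t + wp h ∈ TK n K`, and it is in `Ml n`, so in `K` (`TK_sub`).
(2) `D u1 ⊓ D u2 ⊓ Ml n ⊆ K`: `g - cc c u1 ∈ K`, `g - cc d u2 ∈ K`, so `cc c u1 + cc (-d) u2 ∈ K`, `cc c u1 ∈ K` by `hin`, `g ∈ K`.
(3) `u3 = u1 + u2`: `D u1 ⊓ D u3 ⊓ Ml n ⊆ K`: `g - cc c u1 ∈ K`, `g - cc d u1 - cc d u2 ∈ K`: `cc (d-c) u1 + cc d u2 ∈ K`, so `cc (d-c) u1 ∈ K` (`hin`), `cc d u2 ∈ K`,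
  `cc d u1 ∈ K` (`hlk`), `cc c u1 ∈ K`, `g ∈ K`.
(4) If `DistOn`: `u1 ∈ D u1 ⊓ (D u2 ⊔ D u3)` (`u1 = -u2 + u3`), so `u1 = a + b`, `a ∈ D u1 ⊓ D u2`, `b ∈ D u1 ⊓ D u3`.  Let `π = wp (fun w => w.Perm (List.range n))`.  `π a ∈ D u1 ⊓ D u2`
  since `wp (fu n) a` is and `wp (fu n) a - π a ∈ Fge (n+1)` (full words which are not permutations have length `> n`); same for `b`; `u1 = π u1 = π a + π b`, `π a, π b ∈ K`
  by (2), (3): `u1 ∈ K`, contradiction.
-/

namespace ADC

open AD ADN

/-! ### operators on all T-ideals -/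

private def TO (Φ : P →ₗ[ℤ] P) : Prop := ∀ D, IsT D → ∀ f ∈ D, Φ f ∈ D

private theorem tk_kil (A : ℕ → Prop) :
    wp (fun w => ∀ i ∈ w, ¬ A i) = tl (sb (fun j => open Classical in if A j then 0 else X j)) := by
  classical
  ext f
  refine ind_mon (C := fun f => wp (fun w => ∀ i ∈ w, ¬ A i) f =
    tl (sb (fun j => if A j then 0 else X j)) f) (by simp) ?_ ?_ ?_ f
  · intro f g hf hg; rw [map_add, map_add, hf, hg]
  · intro c f hf; rw [map_smul, map_smul, hf]
  · intro w
    rw [tl_apply, sb_mon]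
    induction w with
    | nil =>
      rw [wp_pos (by simp), mon_nil]
      simp
    | cons a w ih =>
      rw [List.map_cons, List.prod_cons, ← ih]
      by_cases ha : A a
      · rw [if_pos ha, zero_mul, wp_neg (fun h => h a (by simp) ha)]
      · rw [if_neg ha]
        by_cases h : ∀ i ∈ w, ¬ A i
        · have h1 : ∀ i ∈ a :: w, ¬ A i := by
            intro i hi
            rcases List.mem_cons.1 hi with h' | h'
            · rw [h']; exact ha
            · exact h i h'
          rw [wp_pos (φ := fun w => ∀ i ∈ w, ¬ A i) (w := w) h,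
            wp_pos (φ := fun w => ∀ i ∈ w, ¬ A i) (w := a :: w) h1, mon_cons]
        · have h1 : ¬ ∀ i ∈ a :: w, ¬ A i := fun h' => h fun i hi => h' i (List.mem_cons_of_mem _ hi)
          rw [wp_neg (φ := fun w => ∀ i ∈ w, ¬ A i) (w := w) h,
            wp_neg (φ := fun w => ∀ i ∈ w, ¬ A i) (w := a :: w) h1, mul_zero]

private theorem TO_kil (A : ℕ → Prop) : TO (wp (fun w => ∀ i ∈ w, ¬ A i)) := by
  rw [tk_kil]
  intro D hD f hf
  rw [tl_apply]
  refine sb_mem hD (fun i => ?_) hf
  by_cases h : A i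
  · rw [if_pos h]
    exact Submodule.zero_mem _
  · rw [if_neg h]
    exact X_mem i

private theorem TO_mem (i : ℕ) : TO (wp (fun w => i ∈ w)) := by
  have h := TO_kil (fun j => j = i)
  rw [wp_congr (ψ := fun w => i ∉ w) (fun w => ⟨fun h hi => h i hi rfl,
    fun h j hj (e : j = i) => h (e ▸ hj)⟩)] at h
  intro D hD f hf
  have h1 : wp (fun w => i ∈ w) f = f - wp (fun w => i ∉ w) f := by
    rw [eq_sub_iff_add_eq]
    exact wp_add_not _ f
  rw [h1]
  exact D.sub_mem hf (h D hD f hf)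

private theorem TO_and {φ ψ : List ℕ → Prop} (h : TO (wp φ)) (h' : TO (wp ψ)) :
    TO (wp (fun w => φ w ∧ ψ w)) := by
  intro D hD f hf
  rw [← wp_wp]
  exact h D hD _ (h' D hD _ hf)

private theorem TO_all (n : ℕ) : TO (wp (fun w => ∀ i < n, i ∈ w)) := by
  induction n with
  | zero =>
    intro D hD f hf
    have h1 : wp (fun w : List ℕ => ∀ i < 0, i ∈ w) f = f := by
      refine ind_mon (C := fun f => wp (fun w : List ℕ => ∀ i < 0, i ∈ w) f = f) (by simp) ?_ ?_ ?_ f
      · intro f g hf hg; rw [map_add, hf, hg]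
      · intro c f hf; rw [map_smul, hf]
      · intro w
        rw [wp_pos (fun i hi => absurd hi (Nat.not_lt_zero i))]
    rw [h1]
    exact hf
  | succ n ih =>
    have h1 := TO_and ih (TO_mem n)
    rwa [wp_congr (ψ := fun w => ∀ i < n + 1, i ∈ w) (fun w => ⟨fun h i hi => by
      rcases Nat.lt_succ_iff_lt_or_eq.1 hi with h' | h'
      · exact h.1 i h'
      · rw [h']; exact h.2, fun h => ⟨fun i hi => h i (Nat.lt_succ_of_lt hi), h n (Nat.lt_succ_self n)⟩⟩)] at h1

/-- exactly the letters `0, ..., n - 1` -/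
private def fu (n : ℕ) (w : List ℕ) : Prop := (∀ i ∈ w, i < n) ∧ ∀ i < n, i ∈ w

private theorem TO_fu (n : ℕ) : TO (wp (fu n)) := by
  have h := TO_kil (fun j => n ≤ j)
  rw [wp_congr (ψ := fun w => ∀ i ∈ w, i < n) (fun w => ⟨fun h i hi => not_le.1 (h i hi),
    fun h i hi => not_le.2 (h i hi)⟩)] at h
  exact TO_and h (TO_all n)

private theorem fu_cases {n : ℕ} {w : List ℕ} (h : fu n w) :
    w.Perm (List.range n) ∨ n + 1 ≤ w.length := by
  have h1 : (List.range n).Subperm w :=
    List.subperm_of_subset List.nodup_range (fun i hi => h.2 i (List.mem_range.1 hi))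
  by_cases h2 : w.length ≤ n
  · left
    exact (h1.perm_of_length_le (by rw [List.length_range]; exact h2)).symm
  · right
    omega

private theorem fu_perm {n : ℕ} {w : List ℕ} (h : w.Perm (List.range n)) : fu n w :=
  ⟨fun _ hi => List.mem_range.1 (h.mem_iff.1 hi), fun _ hi => h.mem_iff.2 (List.mem_range.2 hi)⟩

private theorem fu_dec (n : ℕ) (f : P) : ∃ m ∈ Ml n, ∃ r ∈ Fge (n + 1), m + r = wp (fu n) f := by
  rw [← Submodule.mem_sup]
  refine (Submodule.span_le.2 ?_ : Submodule.span ℤ {f | ∃ w, fu n w ∧ f = mon w} ≤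
    Ml n ⊔ Fge (n + 1)) (wp_mem (fu n) f)
  rintro g ⟨w, hw, rfl⟩
  rcases fu_cases hw with h | h
  · exact Submodule.mem_sup_left (Ml_mon h)
  · exact Submodule.mem_sup_right (Submodule.subset_span ⟨w, h, rfl⟩)

private theorem fu_Ml {n : ℕ} {f : P} (hf : f ∈ Ml n) : wp (fu n) f = f := by
  refine wp_id ((Submodule.span_mono ?_ : Ml n ≤ _) hf)
  rintro g ⟨w, hw, rfl⟩
  exact ⟨w, fu_perm hw, rfl⟩

/-! ### products and lengths -/

private theorem tk_mul {a b : ℕ} {f g : P} (hf : f ∈ Fge a) (hg : g ∈ Fge b) : f * g ∈ Fge (a + b) := by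
  induction hf using Submodule.span_induction with
  | mem f hf =>
    obtain ⟨u, hu, rfl⟩ := hf
    induction hg using Submodule.span_induction with
    | mem g hg =>
      obtain ⟨v, hv, rfl⟩ := hg
      rw [← mon_append]
      exact Submodule.subset_span ⟨_, by rw [List.length_append]; omega, rfl⟩
    | zero => rw [mul_zero]; exact Submodule.zero_mem _
    | add x y _ _ hx hy => rw [mul_add]; exact Submodule.add_mem _ hx hy
    | smul c x _ hx => rw [mul_smul_comm]; exact Submodule.smul_mem _ _ hx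
  | zero => rw [zero_mul]; exact Submodule.zero_mem _
  | add x y _ _ hx hy => rw [add_mul]; exact Submodule.add_mem _ hx hy
  | smul c x _ hx => rw [smul_mul_assoc]; exact Submodule.smul_mem _ _ hx

private theorem tk_Pp {f : P} (hf : f ∈ Pp) : f ∈ Fge 1 := by
  obtain ⟨n, hn⟩ := exists_mem_Pn hf
  refine (Submodule.span_mono (R := ℤ) ?_ : Pn n ≤ Fge 1) hn
  rintro g ⟨w, hw, _, rfl⟩
  exact ⟨w, List.length_pos_of_ne_nil hw, rfl⟩

private theorem tk_prod {θ : ℕ → P} (hθ : ∀ i, θ i ∈ Pp) (w : List ℕ) :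
    (w.map θ).prod ∈ Fge w.length := by
  induction w with
  | nil =>
    rw [List.map_nil, List.prod_nil, ← mon_nil]
    exact Submodule.subset_span ⟨[], le_rfl, rfl⟩
  | cons a w ih =>
    rw [List.map_cons, List.prod_cons, List.length_cons, add_comm]
    exact tk_mul (tk_Pp (hθ a)) ih

/-- decomposition of a polynomial into its constant term and the rest -/
private theorem tk_const (g : P) : ∃ (c : ℤ) (g' : P), g' ∈ Pp ∧ g = c • (1 : P) + g' := by
  refine ⟨aug g, g - (aug g) • (1 : P), ?_, by abel⟩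
  rw [mem_Pp, map_sub, map_zsmul, map_one, smul_eq_mul, mul_one, sub_self]

/-! ### multilinearity -/

private theorem tk_split {n k : ℕ} (hk : k < n) {w : List ℕ} (h : w.Perm (List.range n)) :
    ∃ u v : List ℕ, w = u ++ k :: v ∧ k ∉ u ∧ k ∉ v ∧ u.length + 1 + v.length = n := by
  obtain ⟨u, v, e⟩ := List.append_of_mem (h.mem_iff.2 (List.mem_range.2 hk))
  have hnd : w.Nodup := h.nodup_iff.2 List.nodup_range
  rw [e, List.nodup_append] at hnd
  obtain ⟨-, h2, h3⟩ := hnd
  refine ⟨u, v, e, fun hu => ?_, (List.nodup_cons.1 h2).1, ?_⟩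
  · exact h3 k hu k List.mem_cons_self rfl
  · have h4 := h.length_eq
    rw [e, List.length_append, List.length_cons, List.length_range] at h4
    omega

private theorem tk_upd {θ : ℕ → P} {k : ℕ} {g : P} {u v : List ℕ} (hu : k ∉ u) (hv : k ∉ v) :
    ((u ++ k :: v).map (Function.update θ k g)).prod = (u.map θ).prod * g * (v.map θ).prod := by
  have h1 : ∀ u : List ℕ, k ∉ u → u.map (Function.update θ k g) = u.map θ := by
    intro u hu
    refine List.map_congr_left fun a ha => ?_
    rw [Function.update_of_ne]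
    rintro rfl
    exact hu ha
  rw [List.map_append, List.map_cons, List.prod_append, List.prod_cons, h1 u hu, h1 v hv,
    Function.update_self, mul_assoc]

private theorem tk_add {n k : ℕ} (hk : k < n) (θ : ℕ → P) {f : P} (hf : f ∈ Ml n) (g g' : P) :
    sb (Function.update θ k (g + g')) f = sb (Function.update θ k g) f +
      sb (Function.update θ k g') f := by
  refine Ml_ind (C := fun f => sb (Function.update θ k (g + g')) f = sb (Function.update θ k g) f +
      sb (Function.update θ k g') f) ?_ ?_ ?_ ?_ hf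
  · simp
  · intro f1 f2 h1 h2
    rw [map_add, map_add, map_add, h1, h2]
    abel
  · intro c f1 h1
    rw [map_zsmul, map_zsmul, map_zsmul, h1, smul_add]
  · intro w hw
    obtain ⟨u, v, rfl, hu, hv, -⟩ := tk_split hk hw
    rw [sb_mon, sb_mon, sb_mon, tk_upd hu hv, tk_upd hu hv, tk_upd hu hv, mul_add, add_mul]

private theorem tk_smul {n k : ℕ} (hk : k < n) (θ : ℕ → P) {f : P} (hf : f ∈ Ml n) (c : ℤ) (g : P) :
    sb (Function.update θ k (c • g)) f = c • sb (Function.update θ k g) f := by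
  refine Ml_ind (C := fun f => sb (Function.update θ k (c • g)) f =
      c • sb (Function.update θ k g) f) ?_ ?_ ?_ ?_ hf
  · simp
  · intro f1 f2 h1 h2
    rw [map_add, map_add, h1, h2, smul_add]
  · intro d f1 h1
    rw [map_zsmul, map_zsmul, h1, smul_comm]
  · intro w hw
    obtain ⟨u, v, rfl, hu, hv, -⟩ := tk_split hk hw
    rw [sb_mon, sb_mon, tk_upd hu hv, tk_upd hu hv, mul_smul_comm, smul_mul_assoc]

private theorem tk_zero {n k : ℕ} (hk : k < n) (θ : ℕ → P) {f : P} (hf : f ∈ Ml n) :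
    sb (Function.update θ k 0) f = 0 := by
  have h := tk_smul hk θ hf 0 0
  rwa [zero_smul, zero_smul] at h

private theorem tk_long {n k : ℕ} (hk : k < n) {θ : ℕ → P} (hθ : ∀ i, θ i ∈ Pp) {f : P}
    (hf : f ∈ Ml n) {w' : List ℕ} (hw' : 2 ≤ w'.length) :
    sb (Function.update θ k (mon w')) f ∈ Fge (n + 1) := by
  refine Ml_ind (C := fun f => sb (Function.update θ k (mon w')) f ∈ Fge (n + 1)) ?_ ?_ ?_ ?_ hf
  · rw [map_zero]
    exact Submodule.zero_mem _
  · intro f1 f2 h1 h2
    rw [map_add]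
    exact Submodule.add_mem _ h1 h2
  · intro d f1 h1
    rw [map_zsmul]
    exact Submodule.smul_mem _ _ h1
  · intro w hw
    obtain ⟨u, v, rfl, hu, hv, hl⟩ := tk_split hk hw
    rw [sb_mon, tk_upd hu hv]
    have h1 : mon w' ∈ Fge 2 := Submodule.subset_span ⟨w', hw', rfl⟩
    have h2 := tk_mul (tk_mul (tk_prod hθ u) h1) (tk_prod hθ v)
    exact Fge_anti (by omega) h2

/-- substitutions of variables -/
private noncomputable def tkV (f : P) : Submodule ℤ P :=
  Submodule.span ℤ {g | ∃ τ : ℕ → ℕ, g = sb (fun i => X (τ i)) f}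

private theorem tk_exp {n : ℕ} {f : P} (hf : f ∈ Ml n) : ∀ k, k ≤ n → ∀ θ : ℕ → P,
    (∀ i, θ i ∈ Pp) → (∀ i, k ≤ i → i < n → ∃ j, θ i = X j) → sb θ f ∈ Fge (n + 1) ⊔ tkV f := by
  intro k
  induction k with
  | zero =>
    intro _ θ hθ h
    choose! τ hτ using h
    have h1 : sb θ f = sb (fun i => X (τ i)) f := by
      refine Ml_ind (C := fun f => sb θ f = sb (fun i => X (τ i)) f) ?_ ?_ ?_ ?_ hf
      · simp
      · intro f1 f2 h1 h2
        rw [map_add, map_add, h1, h2]
      · intro d f1 h1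
        rw [map_zsmul, map_zsmul, h1]
      · intro w hw
        rw [sb_mon, sb_mon]
        congr 1
        refine List.map_congr_left fun a ha => ?_
        exact hτ a (Nat.zero_le _) (List.mem_range.1 (hw.mem_iff.1 ha))
    rw [h1]
    exact Submodule.mem_sup_right (Submodule.subset_span ⟨τ, rfl⟩)
  | succ k ih =>
    intro hkn θ hθ h
    have hk : k < n := hkn
    have e1 : Function.update θ k (θ k) = θ := Function.update_eq_self k θ
    rw [← e1]
    obtain ⟨m, hm⟩ := exists_mem_Pn (hθ k)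
    generalize θ k = g at hm
    unfold Pn at hm
    induction hm using Submodule.span_induction with
    | mem x hx =>
      obtain ⟨w', hw', -, rfl⟩ := hx
      by_cases h2 : 2 ≤ w'.length
      · exact Submodule.mem_sup_left (tk_long hk hθ hf h2)
      · have h3 : w'.length = 1 := by
          have := List.length_pos_of_ne_nil hw'
          omega
        obtain ⟨j, rfl⟩ := List.length_eq_one_iff.1 h3
        rw [mon_single]
        refine ih (by omega) _ ?_ ?_
        · intro i
          by_cases hi : i = k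
          · rw [hi, Function.update_self]
            exact X_mem j
          · rw [Function.update_of_ne hi]
            exact hθ i
        · intro i hki hi
          by_cases hi' : i = k
          · exact ⟨j, by rw [hi', Function.update_self]⟩
          · rw [Function.update_of_ne hi']
            exact h i (by omega) hi
    | zero =>
      rw [tk_zero hk θ hf]
      exact Submodule.zero_mem _
    | add x y _ _ hx hy =>
      rw [tk_add hk θ hf]
      exact Submodule.add_mem _ hx hy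
    | smul c x _ hx =>
      rw [tk_smul hk θ hf]
      exact Submodule.smul_mem _ _ hx

private theorem tk_var_len {n : ℕ} {f : P} (hf : f ∈ Ml n) (τ : ℕ → ℕ) :
    sb (fun i => X (τ i)) f ∈ Fge n := by
  refine Ml_ind (C := fun f => sb (fun i => X (τ i)) f ∈ Fge n) ?_ ?_ ?_ ?_ hf
  · rw [map_zero]
    exact Submodule.zero_mem _
  · intro f1 f2 h1 h2
    rw [map_add]
    exact Submodule.add_mem _ h1 h2
  · intro d f1 h1
    rw [map_zsmul]
    exact Submodule.smul_mem _ _ h1
  · intro w hw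
    rw [sb_mon]
    have h1 := tk_prod (θ := fun i => X (τ i)) (fun i => X_mem (τ i)) w
    rwa [hw.length_eq, List.length_range] at h1

private theorem tkV_len {n : ℕ} {f : P} (hf : f ∈ Ml n) : tkV f ≤ Fge n := by
  refine Submodule.span_le.2 ?_
  rintro g ⟨τ, rfl⟩
  exact tk_var_len hf τ

private theorem tkV_isT {n : ℕ} (hn : 1 ≤ n) {f : P} (hf : f ∈ Ml n) :
    IsT (Fge (n + 1) ⊔ tkV f) := by
  have hF := isT_Fge (n + 1) (Nat.succ_pos n)
  refine ⟨?_, ?_, ?_, ?_⟩
  · refine sup_le hF.le ((tkV_len hf).trans (isT_Fge n hn).le)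
  · intro x hx g
    obtain ⟨y, hy, z, hz, rfl⟩ := Submodule.mem_sup.1 hx
    obtain ⟨c, g', hg', rfl⟩ := tk_const g
    rw [add_mul]
    refine Submodule.add_mem _ (Submodule.mem_sup_left (hF.mul_right y hy _)) ?_
    rw [mul_add, mul_smul_comm, mul_one]
    refine Submodule.add_mem _ (Submodule.mem_sup_right (Submodule.smul_mem _ _ hz)) ?_
    exact Submodule.mem_sup_left (tk_mul (tkV_len hf hz) (tk_Pp hg'))
  · intro x hx g
    obtain ⟨y, hy, z, hz, rfl⟩ := Submodule.mem_sup.1 hx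
    obtain ⟨c, g', hg', rfl⟩ := tk_const g
    rw [mul_add]
    refine Submodule.add_mem _ (Submodule.mem_sup_left (hF.mul_left y hy _)) ?_
    rw [add_mul, smul_mul_assoc, one_mul]
    refine Submodule.add_mem _ (Submodule.mem_sup_right (Submodule.smul_mem _ _ hz)) ?_
    have h1 := tk_mul (tk_Pp hg') (tkV_len hf hz)
    rw [add_comm] at h1
    exact Submodule.mem_sup_left h1
  · intro φ hφ x hx
    obtain ⟨y, hy, z, hz, rfl⟩ := Submodule.mem_sup.1 hx
    rw [map_add]
    refine Submodule.add_mem _ (Submodule.mem_sup_left (hF.subst φ hφ y hy)) ?_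
    clear hx
    unfold tkV at hz
    induction hz using Submodule.span_induction with
    | mem x hx =>
      obtain ⟨τ, rfl⟩ := hx
      have h1 : φ (sb (fun i => X (τ i)) f) = sb (fun i => φ (X (τ i))) f := by
        have h2 : φ.comp (sb (fun i => X (τ i))) = sb (fun i => φ (X (τ i))) := by
          apply hom_ext_X
          intro i
          rw [AlgHom.comp_apply, sb_X, sb_X]
        exact DFunLike.congr_fun h2 f
      rw [h1]
      exact tk_exp hf n le_rfl _ (fun i => hφ (τ i)) (fun i hi hi' => absurd hi' (not_lt.2 hi))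
    | zero => rw [map_zero]; exact Submodule.zero_mem _
    | add x y _ _ hx hy => rw [map_add]; exact Submodule.add_mem _ hx hy
    | smul c x _ hx => rw [map_zsmul]; exact Submodule.smul_mem _ _ hx

/-- the action of the group ring -/
noncomputable def cc (n : ℕ) (c : Equiv.Perm (Fin n) → ℤ) (u : P) : P := ∑ σ, c σ • rn n σ u

theorem cc_add (n : ℕ) (c d : Equiv.Perm (Fin n) → ℤ) (u : P) : cc n (c + d) u = cc n c u + cc n d u := by
  unfold cc
  rw [← Finset.sum_add_distrib]
  exact Finset.sum_congr rfl fun σ _ => by rw [Pi.add_apply, add_smul]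

theorem cc_Ml {n : ℕ} (c : Equiv.Perm (Fin n) → ℤ) {u : P} (hu : u ∈ Ml n) : cc n c u ∈ Ml n :=
  Submodule.sum_mem _ fun σ _ => Submodule.smul_mem _ _ (Ml_rn σ hu)

private theorem nd_id (u : P) : sb (fun i => X i) u = u := by
  have h1 : sb (fun i => X i) = AlgHom.id ℤ P := by
    apply hom_ext_X
    intro i
    rw [sb_X]
    rfl
  rw [h1]
  rfl

private theorem nd_self (u : P) : u ∈ tkV u := Submodule.subset_span ⟨fun i => i, (nd_id u).symm⟩

private theorem cc_zero (n : ℕ) (u : P) : cc n 0 u = 0 := by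
  unfold cc
  exact Finset.sum_eq_zero fun σ _ => by rw [Pi.zero_apply, zero_smul]

private theorem cc_neg (n : ℕ) (c : Equiv.Perm (Fin n) → ℤ) (u : P) : cc n (-c) u = -cc n c u := by
  unfold cc
  rw [← Finset.sum_neg_distrib]
  exact Finset.sum_congr rfl fun σ _ => by rw [Pi.neg_apply, neg_smul]

private theorem cc_smul (n : ℕ) (a : ℤ) (c : Equiv.Perm (Fin n) → ℤ) (u : P) :
    cc n (a • c) u = a • cc n c u := by
  unfold cc
  rw [Finset.smul_sum]
  exact Finset.sum_congr rfl fun σ _ => by rw [Pi.smul_apply, smul_assoc]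

private theorem cc_single (n : ℕ) (σ : Equiv.Perm (Fin n)) (u : P) :
    cc n (Pi.single σ 1) u = rn n σ u := by
  classical
  unfold cc
  rw [Finset.sum_eq_single σ]
  · rw [Pi.single_eq_same, one_smul]
  · intro τ _ h
    rw [Pi.single_eq_of_ne h, zero_smul]
  · intro h
    exact absurd (Finset.mem_univ σ) h

private theorem cc_add_right (n : ℕ) (c : Equiv.Perm (Fin n) → ℤ) (u v : P) :
    cc n c (u + v) = cc n c u + cc n c v := by
  unfold cc
  rw [← Finset.sum_add_distrib]
  exact Finset.sum_congr rfl fun σ _ => by rw [map_add, smul_add]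

/-- the full part of a substitution of variables -/
private theorem nd_full {n : ℕ} {f : P} (hf : f ∈ Ml n) (τ : ℕ → ℕ) :
    ∃ c, wp (fu n) (sb (fun i => X (τ i)) f) = cc n c f := by
  have hm : ∀ w : List ℕ, sb (fun i => X (τ i)) (mon w) = mon (w.map τ) := by
    intro w
    rw [sb_mon]
    unfold mon
    rw [List.map_map]
    rfl
  by_cases hp : ((List.range n).map τ).Perm (List.range n)
  · have hlt : ∀ i : Fin n, τ i < n := fun i =>
      List.mem_range.1 (hp.mem_iff.1 (List.mem_map.2 ⟨i, List.mem_range.2 i.2, rfl⟩))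
    have hinj : Function.Injective (fun i : Fin n => (⟨τ i, hlt i⟩ : Fin n)) := by
      intro i j hij
      have h1 : τ i = τ j := congrArg Fin.val hij
      have h2 := List.inj_on_of_nodup_map (hp.nodup_iff.2 List.nodup_range)
      exact Fin.ext (h2 (List.mem_range.2 i.2) (List.mem_range.2 j.2) h1)
    obtain ⟨σ, hσ⟩ : ∃ σ : Equiv.Perm (Fin n), ∀ i, (σ i : ℕ) = τ i :=
      ⟨Equiv.ofBijective _ (Finite.injective_iff_bijective.1 hinj), fun i => rfl⟩
    have h1 : sb (fun i => X (τ i)) f = rn n σ f := by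
      refine Ml_ind (C := fun f => sb (fun i => X (τ i)) f = rn n σ f) ?_ ?_ ?_ ?_ hf
      · simp
      · intro f1 f2 h1 h2
        rw [map_add, map_add, h1, h2]
      · intro d f1 h1
        rw [map_zsmul, map_zsmul, h1]
      · intro w hw
        rw [hm, rn_mon]
        congr 1
        refine List.map_congr_left fun a ha => ?_
        have ha' : a < n := List.mem_range.1 (hw.mem_iff.1 ha)
        unfold pN
        rw [dif_pos ha', hσ]
    refine ⟨Pi.single σ 1, ?_⟩
    rw [h1, fu_Ml (Ml_rn σ hf), cc_single]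
  · have h1 : wp (fu n) (sb (fun i => X (τ i)) f) = 0 := by
      refine Ml_ind (C := fun f => wp (fu n) (sb (fun i => X (τ i)) f) = 0) ?_ ?_ ?_ ?_ hf
      · rw [map_zero, map_zero]
      · intro f1 f2 h1 h2
        rw [map_add, map_add, h1, h2, add_zero]
      · intro d f1 h1
        rw [map_zsmul, map_smul, h1, smul_zero]
      · intro w hw
        rw [hm]
        refine wp_neg fun hfu => ?_
        rcases fu_cases hfu with h2 | h2
        · exact hp (((hw.map τ).symm).trans h2)
        · rw [List.length_map, hw.length_eq, List.length_range] at h2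
          omega
    exact ⟨0, by rw [h1, cc_zero]⟩

private theorem nd_V {n : ℕ} {f : P} (hf : f ∈ Ml n) {v : P} (hv : v ∈ tkV f) :
    ∃ c, wp (fu n) v = cc n c f := by
  unfold tkV at hv
  induction hv using Submodule.span_induction with
  | mem x hx =>
    obtain ⟨τ, rfl⟩ := hx
    exact nd_full hf τ
  | zero => exact ⟨0, by rw [map_zero, cc_zero]⟩
  | add x y _ _ hx hy =>
    obtain ⟨c, hc⟩ := hx
    obtain ⟨d, hd⟩ := hy
    exact ⟨c + d, by rw [map_add, hc, hd, cc_add]⟩
  | smul a x _ hx =>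
    obtain ⟨c, hc⟩ := hx
    exact ⟨a • c, by rw [map_smul, hc, cc_smul]⟩

/-- the T-ideal generated by `u` above `TK n K` -/
private noncomputable def DD (n : ℕ) (K : Set P) (u : P) : Submodule ℤ P :=
  TK n K ⊔ (Fge (n + 1) ⊔ tkV u)

private theorem DD_isT {n : ℕ} (hn : 1 ≤ n) {K : Set P} (hK : AddS K) {u : P} (hu : u ∈ Ml n) :
    IsT (DD n K u) := isT_sup (TK_isT hn hK) (tkV_isT hn hu)

private theorem DD_self (n : ℕ) (K : Set P) (u : P) : u ∈ DD n K u :=
  Submodule.mem_sup_right (Submodule.mem_sup_right (nd_self u))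

private theorem DD_one {n : ℕ} (hn : 1 ≤ n) {K : Set P} (hK : AddS K) {u g : P} (hu : u ∈ Ml n)
    (hg : g ∈ DD n K u) (hgM : g ∈ Ml n) : ∃ c, g - cc n c u ∈ K := by
  obtain ⟨t, ht, s, hs, e⟩ := Submodule.mem_sup.1 hg
  obtain ⟨h, hh, v, hv, rfl⟩ := Submodule.mem_sup.1 hs
  obtain ⟨c, hc⟩ := nd_V hu hv
  refine ⟨c, ?_⟩
  have e1 : g - cc n c u = wp (fu n) t + wp (fu n) h := by
    have e2 := fu_Ml hgM
    rw [← e, map_add, map_add, hc] at e2
    rw [← e, ← e2]
    abel
  refine TK_sub hn hK ?_ (Submodule.sub_mem _ hgM (cc_Ml c hu))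
  rw [e1]
  exact Submodule.add_mem _ (TO_fu n _ (TK_isT hn hK) t ht)
    (Fge_le_TK hn hK (TO_fu n _ (isT_Fge (n + 1) (Nat.succ_pos n)) h hh))

private theorem K_sub {K : Set P} (hK : AddS K) {f g : P} (hf : f ∈ K) (hg : g ∈ K) : f - g ∈ K := by
  rw [sub_eq_add_neg]
  exact hK.2.1 _ hf _ (hK.2.2 _ hg)

/-- the multilinear part -/
private theorem nd_part {n : ℕ} (hn : 1 ≤ n) {K : Set P} (hK : AddS K) {u v : P} (hu : u ∈ Ml n)
    (hv : v ∈ Ml n) (h : ∀ g ∈ DD n K u, g ∈ DD n K v → g ∈ Ml n → g ∈ K) {a : P}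
    (ha : a ∈ DD n K u ⊓ DD n K v) : ∃ m ∈ Ml n, m ∈ K ∧ ∃ r ∈ Fge (n + 1), m + r = wp (fu n) a := by
  obtain ⟨m, hm, r, hr, e⟩ := fu_dec n a
  have h1 : m = wp (fu n) a - r := by rw [← e]; abel
  refine ⟨m, hm, h m ?_ ?_ hm, r, hr, e⟩
  · rw [h1]
    exact Submodule.sub_mem _ (TO_fu n _ (DD_isT hn hK hu) a ha.1)
      (Submodule.mem_sup_left (Fge_le_TK hn hK hr))
  · rw [h1]
    exact Submodule.sub_mem _ (TO_fu n _ (DD_isT hn hK hv) a ha.2)
      (Submodule.mem_sup_left (Fge_le_TK hn hK hr))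

theorem NdT {n : ℕ} (hn : 1 ≤ n) {K : Set P} (hK : AddS K)
    {u1 u2 : P} (h1 : u1 ∈ Ml n) (h2 : u2 ∈ Ml n) (hlk : ∀ c, cc n c u1 ∈ K ↔ cc n c u2 ∈ K)
    (hin : ∀ c d, cc n c u1 + cc n d u2 ∈ K → cc n c u1 ∈ K) (hne : u1 ∉ K) : ¬ DistOn TI (TK n K) := by
  intro hD
  have h3 : u1 + u2 ∈ Ml n := Submodule.add_mem _ h1 h2
  have s2 : ∀ g ∈ DD n K u1, g ∈ DD n K u2 → g ∈ Ml n → g ∈ K := by
    intro g hg hg' hgM
    obtain ⟨c, hc⟩ := DD_one hn hK h1 hg hgM
    obtain ⟨d, hd⟩ := DD_one hn hK h2 hg' hgM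
    have e1 : cc n c u1 + cc n (-d) u2 ∈ K := by
      have e2 : cc n c u1 + cc n (-d) u2 = (g - cc n d u2) - (g - cc n c u1) := by
        rw [cc_neg]
        abel
      rw [e2]
      exact K_sub hK hd hc
    have e3 := hin _ _ e1
    have e4 : g = (g - cc n c u1) + cc n c u1 := by abel
    rw [e4]
    exact hK.2.1 _ hc _ e3
  have s3 : ∀ g ∈ DD n K u1, g ∈ DD n K (u1 + u2) → g ∈ Ml n → g ∈ K := by
    intro g hg hg' hgM
    obtain ⟨c, hc⟩ := DD_one hn hK h1 hg hgM
    obtain ⟨d, hd⟩ := DD_one hn hK h3 hg' hgM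
    have e1 : cc n (d + -c) u1 + cc n d u2 ∈ K := by
      have e2 : cc n (d + -c) u1 + cc n d u2 = (g - cc n c u1) - (g - cc n d (u1 + u2)) := by
        rw [cc_add, cc_neg, cc_add_right]
        abel
      rw [e2]
      exact K_sub hK hc hd
    have e3 := hin _ _ e1
    have e4 : cc n d u2 ∈ K := by
      have e5 : cc n d u2 = (cc n (d + -c) u1 + cc n d u2) - cc n (d + -c) u1 := by abel
      rw [e5]
      exact K_sub hK e1 e3
    have e6 := (hlk d).2 e4
    have e7 : cc n c u1 ∈ K := by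
      have e8 : cc n c u1 = cc n d u1 - cc n (d + -c) u1 := by
        rw [cc_add, cc_neg]
        abel
      rw [e8]
      exact K_sub hK e6 e3
    have e9 : g = (g - cc n c u1) + cc n c u1 := by abel
    rw [e9]
    exact hK.2.1 _ hc _ e7
  have hd := hD (DD n K u1) (DD_isT hn hK h1) (DD n K u2) (DD_isT hn hK h2) (DD n K (u1 + u2))
    (DD_isT hn hK h3) le_sup_left le_sup_left le_sup_left
  have hu : u1 ∈ DD n K u1 ⊓ (DD n K u2 ⊔ DD n K (u1 + u2)) := by
    refine ⟨DD_self n K u1, ?_⟩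
    have e1 : -u2 + (u1 + u2) = u1 := by abel
    have e2 : -u2 + (u1 + u2) ∈ DD n K u2 ⊔ DD n K (u1 + u2) :=
      Submodule.add_mem_sup (Submodule.neg_mem _ (DD_self n K u2)) (DD_self n K (u1 + u2))
    rw [e1] at e2
    exact e2
  rw [hd] at hu
  obtain ⟨a, ha, b, hb, e⟩ := Submodule.mem_sup.1 hu
  obtain ⟨m, hm, hmK, r, hr, e1⟩ := nd_part hn hK h1 h2 s2 ha
  obtain ⟨m', hm', hmK', r', hr', e1'⟩ := nd_part hn hK h1 h3 s3 hb
  have e2 : u1 = (m + r) + (m' + r') := by
    rw [e1, e1', ← map_add, e, fu_Ml h1]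
  have e3 : u1 - (m + m') = r + r' := by
    rw [e2]
    abel
  have e4 : u1 - (m + m') = 0 := by
    refine Fge_inf_Ml (n := n) ?_ (Submodule.sub_mem _ h1 (Submodule.add_mem _ hm hm'))
    rw [e3]
    exact Submodule.add_mem _ hr hr'
  apply hne
  rw [sub_eq_zero.1 e4]
  exact hK.2.1 _ hmK _ hmK'

end ADC
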