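import Pool.Agent.ADC.EOa
import Pool.Agent.ADC.EFn
import Pool.Agent.ADC.NdT
import Pool.Agent.ADC.KGs

/-!
# ADC-NdO

`GP p k`, `k` odd, `k + 2 ≤ p`, is not distributive: `NdT` with `K = KG p k`, `u1 = Of1 p k`, `u2 = Of2 p k`.

`NdOa`: `gA_ph`, `gB_ph` with `U = (range k).map (pN p σ⁻¹)`, `|U| = k`; `ω`, `s` as in ADC.EOa, `ω ∈ Hd k`, `dω = ctd p ω ∈ Hd (k-1)`, `s ∈ Hd 1`, `D = 2^c`, `c = (k+1)/2 + (p-k-2)`.
* `gA (rn σ Of2) = ph U (ev Of2) = 0` (`ev Of2 ∈ Hd (k+1)`, `ph_Hd`).
* `gB (rn σ Of1) = - ph U (ctd p (ev Of1)) = 0` (`ev Of1` is a sum of elements of degrees `k - 1` and `k`, so `ctd p` of it has degrees `k - 2`, `k - 1`).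
* `gB (rn σ Of2) = - ph U (ctd p (ev Of2)) = - D ph U (dω s - (p - k) ω)` (`ctd_mul`, `k` odd), `gA (rn σ Of1) = 2 D ph U (k ω + dω s)`; so
  `2 gB (rn σ Of2) + gA (rn σ Of1) = 2 D p ph U ω`.
* `gA k (Of1) = 2 D (k ph (range k) ω + ph (range k) (dω s)) = 2 D k` (`ph_self`; `ph (range k) (dω s) = 0` by `ph_zero`: each term lacks a letter of `range k`), prime to `p`.

`NdO`: for `rn σ (cc c u) = ∑ c τ rn (σ τ) u` all is linear: `cc c u1 ∈ KG` iff `p ∣ gA (rn σ (cc c u1))` for all `σ`; `cc c u2 ∈ KG` iff `p ∣ gB (rn σ (cc c u2))` for all `σ`, and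
`2 gB (rn σ (cc c u2)) ≡ - gA (rn σ (cc c u1))`; `hlk` (`p` odd).  `hin`: `gA (rn σ (cc c u1 + cc d u2)) = gA (rn σ (cc c u1))`.  (`2 - k % 2 = 1`.)
-/

namespace ADC

open AD ADN

private theorem no_sum {L : List ℕ} : (L.map ee).sum ∈ Hd 1 := by
  induction L with
  | nil => exact Submodule.zero_mem _
  | cons a L ih =>
    rw [List.map_cons, List.sum_cons]
    exact Submodule.add_mem _ (Hd_ee a) ih

private theorem no_prod (L : List ℕ) : (L.map ee).prod ∈ Hd L.length := by
  induction L with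
  | nil => exact Hd_one
  | cons a L ih =>
    rw [List.map_cons, List.prod_cons, List.length_cons, Nat.add_comm]
    exact Hd_mul (Hd_ee a) ih

private theorem no_ctd0 {x : EA} (hx : x ∈ Hd 0) (n : ℕ) : ctd n x = 0 := by
  unfold ctd
  rw [LinearMap.sum_apply]
  exact Finset.sum_eq_zero fun u _ => Hd_ct0 hx u

/-- `ph U` vanishes on the contraction of an element of degree `m ≤ |U|` -/
private theorem no_ph_ctd {U : List ℕ} {m : ℕ} {x : EA} (hx : x ∈ Hd m) (h : m ≤ U.length) (n : ℕ) :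
    ph U (ctd n x) = 0 := by
  rcases m with _ | m
  · rw [no_ctd0 hx, map_zero]
  · exact ph_Hd (Hd_ctd hx n) (by omega)

theorem NdOa {p k : ℕ} (hp : p.Prime) (h5 : 5 ≤ p) (h1 : k % 2 = 1) (hk : k + 2 ≤ p) :
    (∀ σ, gA k (rn p σ (Of2 p k)) = 0) ∧ (∀ σ, gB p k (rn p σ (Of1 p k)) = 0) ∧
      (∀ σ, (p : ℤ) ∣ 2 * gB p k (rn p σ (Of2 p k)) + gA k (rn p σ (Of1 p k))) ∧
      ¬ (p : ℤ) ∣ gA k (Of1 p k) := by
  obtain ⟨m1, m2⟩ := Of_Ml h1 hk
  have hkp : k ≤ p := by omega
  have hR : ∀ l ∈ List.range' k (p - k), l < p := by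
    intro l hl
    have := (List.mem_range'_1.1 hl).2
    omega
  have hU : ∀ σ : Equiv.Perm (Fin p), ((List.range k).map (pN p σ⁻¹)).length = k := by
    intro σ
    rw [List.length_map, List.length_range]
  have e2 := ev_Of2 h1 hk
  have e1 := ev_Of1 h1 hk
  set ω : EA := ((List.range k).map ee).prod with hω
  set s : EA := ((List.range' k (p - k)).map ee).sum with hs
  set c : ℕ := (k + 1) / 2 + (p - k - 2) with hc
  have ω1 : ω ∈ Hd k := by
    have := no_prod (List.range k)
    rwa [List.length_range] at this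
  have s1 : s ∈ Hd 1 := no_sum
  obtain ⟨k', hk'⟩ : ∃ k', k = k' + 1 := ⟨k - 1, by omega⟩
  have dω1 : ctd p ω ∈ Hd k' := Hd_ctd (by rw [← hk']; exact ω1) p
  have dωs : ctd p ω * s ∈ Hd k := by
    rw [hk']
    exact Hd_mul dω1 s1
  have ωs : ω * s ∈ Hd (k + 1) := Hd_mul ω1 s1
  have hodd : (-1 : ℤ) ^ k = -1 := (Nat.odd_iff.2 h1).neg_one_pow
  have A1 : ∀ U : List ℕ, U.length = k → ph U (ev (Of1 p k)) = 2 ^ (c + 1) * (k * ph U ω + ph U (ctd p ω * s)) := by
    intro U hU
    rw [e1, map_smul, map_add, map_add, ph_Hd dω1 (by omega), map_smul, zero_add, smul_eq_mul, smul_eq_mul]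
  have B2 : ∀ U : List ℕ, ph U (ctd p (ev (Of2 p k))) = 2 ^ c * (ph U (ctd p ω * s) - (p - k) * ph U ω) := by
    intro U
    rw [e2, map_smul, map_smul, ctd_mul ω1 hR, map_add, map_smul, hodd, List.length_range', smul_eq_mul, smul_eq_mul,
      Nat.cast_sub hkp]
    ring
  refine ⟨?_, ?_, ?_, ?_⟩
  · intro σ
    rw [gA_ph hkp σ m2, e2, map_smul, ph_Hd ωs (by rw [hU]; omega), smul_zero]
  · intro σ
    rw [gB_ph hkp σ m1, e1]
    simp only [map_smul, map_add]
    rw [no_ph_ctd dω1 (by rw [hU]; omega), no_ph_ctd ω1 (by rw [hU]), no_ph_ctd dωs (by rw [hU])]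
    simp
  · intro σ
    rw [gB_ph hkp σ m2, gA_ph hkp σ m1, B2, A1 _ (hU σ), hodd]
    generalize ph ((List.range k).map (pN p σ⁻¹)) (ctd p ω * s) = X1
    generalize ph ((List.range k).map (pN p σ⁻¹)) ω = X2
    refine ⟨2 ^ (c + 1) * X2, ?_⟩
    rw [pow_succ]
    ring
  · have e3 : gA k (Of1 p k) = 2 ^ (c + 1) * k := by
      have h3 := gA_ph hkp 1 m1
      rw [rn_one] at h3
      have h4 : (List.range k).map (pN p (1 : Equiv.Perm (Fin p))⁻¹) = List.range k := by
        conv_rhs => rw [← List.map_id (List.range k)]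
        refine List.map_congr_left fun i hi => ?_
        have := List.mem_range.1 hi
        unfold pN
        rw [dif_pos (by omega)]
        rfl
      rw [h3, h4, A1 _ List.length_range, ph_self List.nodup_range, mul_one]
      have h6 : ph (List.range k) (ctd p ω * s) = 0 := by
        rw [hω, ctd_prod (fun l hl => by have := List.mem_range.1 hl; omega) List.nodup_range, Finset.sum_mul, map_sum]
        refine Finset.sum_eq_zero fun i hi => ?_
        have hi' : i < k := by simpa using hi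
        rw [smul_mul_assoc, map_smul]
        have h7 : ∀ L : List ℕ, (∀ l ∈ L, k ≤ l) →
            ph (List.range k) ((((List.range k).eraseIdx i).map ee).prod * (L.map ee).sum) = 0 := by
          intro L hL
          induction L with
          | nil => rw [List.map_nil, List.sum_nil, mul_zero, map_zero]
          | cons a L ih =>
            rw [List.map_cons, List.sum_cons, mul_add, map_add, ih fun l hl => hL l (List.mem_cons_of_mem _ hl), add_zero]
            have h8 : (((List.range k).eraseIdx i).map ee).prod * ee a =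
                ((((List.range k).eraseIdx i) ++ [a]).map ee).prod := by
              rw [List.map_append, List.prod_append]
              simp
            rw [h8]
            refine ph_zero (u := i) (List.mem_range.2 hi') ?_
            rw [List.mem_append, List.mem_singleton]
            rintro (h9 | h9)
            · rw [List.mem_eraseIdx_iff_getElem] at h9
              obtain ⟨j, hj, hji, h10⟩ := h9
              rw [List.getElem_range] at h10
              exact hji h10
            · have := hL a List.mem_cons_self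
              omega
        rw [hs, h7 _ fun l hl => (List.mem_range'_1.1 hl).1, smul_zero]
      rw [h6, add_zero]
    rw [e3]
    intro hd
    have hpp := Nat.prime_iff_prime_int.1 hp
    rcases hpp.dvd_or_dvd hd with h | h
    · have h3 := hpp.dvd_of_dvd_pow h
      have h4 : p ∣ 2 := by exact_mod_cast h3
      have := Nat.le_of_dvd (by norm_num) h4
      omega
    · have h4 : p ∣ k := by exact_mod_cast h
      have := Nat.le_of_dvd (by omega) h4
      omega

private theorem no_rn {p : ℕ} (σ : Equiv.Perm (Fin p)) (c : Equiv.Perm (Fin p) → ℤ) (u : P) :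
    rn p σ (cc p c u) = ∑ τ, c τ • rn p (σ * τ) u := by
  unfold cc
  rw [map_sum]
  refine Finset.sum_congr rfl fun τ _ => ?_
  rw [map_zsmul, rn_rn]

theorem NdO {p k : ℕ} (hp : p.Prime) (h5 : 5 ≤ p) (h1 : k % 2 = 1) (hk : k < p) : ¬ DistOn TI (GP p k) := by
  have hpodd : p % 2 = 1 := by
    rcases hp.eq_two_or_odd with h | h
    · omega
    · exact h
  have hk2 : k + 2 ≤ p := by omega
  obtain ⟨a, b, c0, d⟩ := NdOa hp h5 h1 hk2
  obtain ⟨m1, m2⟩ := Of_Ml h1 hk2
  have hpp := Nat.prime_iff_prime_int.1 hp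
  have gA2 : ∀ c σ, gA k (rn p σ (cc p c (Of2 p k))) = 0 := by
    intro c σ
    rw [no_rn, map_sum]
    refine Finset.sum_eq_zero fun τ _ => ?_
    rw [map_smul, a, smul_zero]
  have gB1 : ∀ c σ, gB p k (rn p σ (cc p c (Of1 p k))) = 0 := by
    intro c σ
    rw [no_rn, map_sum]
    refine Finset.sum_eq_zero fun τ _ => ?_
    rw [map_smul, b, smul_zero]
  have hAB : ∀ c σ, (p : ℤ) ∣ 2 * gB p k (rn p σ (cc p c (Of2 p k))) + gA k (rn p σ (cc p c (Of1 p k))) := by
    intro c σ
    rw [no_rn, no_rn, map_sum, map_sum, Finset.mul_sum, ← Finset.sum_add_distrib]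
    refine Finset.dvd_sum fun τ _ => ?_
    rw [map_smul, map_smul]
    obtain ⟨x, hx⟩ := c0 (σ * τ)
    refine ⟨c τ * x, ?_⟩
    rw [smul_eq_mul, smul_eq_mul]
    linear_combination c τ * hx
  have K1 : ∀ g, g ∈ KG p k ↔ ∀ σ : Equiv.Perm (Fin p), (p : ℤ) ∣ gA k (rn p σ g) ∧ (p : ℤ) ∣ gB p k (rn p σ g) := by
    intro g
    unfold KG
    rw [h1]
    simp
  have k1 : ∀ c, cc p c (Of1 p k) ∈ KG p k ↔ ∀ σ, (p : ℤ) ∣ gA k (rn p σ (cc p c (Of1 p k))) := by
    intro c
    rw [K1]
    refine ⟨fun h σ => (h σ).1, fun h σ => ⟨h σ, ?_⟩⟩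
    rw [gB1]
    exact dvd_zero _
  have k2 : ∀ c, cc p c (Of2 p k) ∈ KG p k ↔ ∀ σ, (p : ℤ) ∣ gB p k (rn p σ (cc p c (Of2 p k))) := by
    intro c
    rw [K1]
    refine ⟨fun h σ => (h σ).2, fun h σ => ⟨?_, h σ⟩⟩
    rw [gA2]
    exact dvd_zero _
  refine NdT (by omega) (KG_add p k) m1 m2 ?_ ?_ ?_
  · intro c
    rw [k1, k2]
    refine forall_congr' fun σ => ?_
    have h := hAB c σ
    constructor
    · intro h'
      have h2 : (p : ℤ) ∣ 2 * gB p k (rn p σ (cc p c (Of2 p k))) := (dvd_add_left h').1 h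
      rcases hpp.dvd_or_dvd h2 with h3 | h3
      · exfalso
        have h4 : p ∣ 2 := by exact_mod_cast h3
        have := Nat.le_of_dvd (by norm_num) h4
        omega
      · exact h3
    · intro h'
      exact (dvd_add_right (Dvd.dvd.mul_left h' 2)).1 h
  · intro c d' h
    rw [k1]
    rw [K1] at h
    intro σ
    have h2 := (h σ).1
    rw [map_add, map_add, gA2, add_zero] at h2
    exact h2
  · intro h
    rw [K1] at h
    have h2 := (h 1).1
    rw [rn_one] at h2
    exact d h2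

end ADC
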