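import Pool.Agent.ADC.NdT
import Pool.Agent.ADC.KGs
import Pool.Agent.ADC.KmlB

/-!
# ADC-NdW

`WP p` is not distributive.
-/

namespace ADC

open AD ADN

private theorem ndw_cf_zero (w : List ℕ) : cf w (0 : P) = 0 := by
  have h := cf_smul w 0 (0 : P)
  rwa [zero_smul, zero_mul] at h

private theorem ndw_cf_sub (w : List ℕ) (f g : P) : cf w (f - g) = cf w f - cf w g := by
  have h := cf_smul w (-1) g
  rw [sub_eq_add_neg, cf_add, ← neg_one_smul ℤ g, h]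
  ring

/-- the basis of the span of the renamings of `kml 1 0` and of `kml 0 1` -/
private noncomputable def ndwa : P := mon [1, 0, 2] + mon [2, 0, 1] - mon [0, 1, 2] - mon [0, 2, 1]
private noncomputable def ndwa' : P := mon [0, 1, 2] + mon [2, 1, 0] - mon [1, 0, 2] - mon [1, 2, 0]
private noncomputable def ndwb : P := mon [1, 2, 0] + mon [2, 1, 0] - mon [1, 0, 2] - mon [2, 0, 1]
private noncomputable def ndwb' : P := mon [0, 2, 1] + mon [2, 0, 1] - mon [0, 1, 2] - mon [2, 1, 0]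

private theorem ndw_v1 : kml 1 0 = ndwa := by
  unfold kml cm ndwa
  rw [one_smul, zero_smul, add_zero]
  simp only [mon_cons, mon_nil]
  noncomm_ring

private theorem ndw_v2 : kml 0 1 = ndwb := by
  unfold kml cm ndwb
  rw [one_smul, zero_smul, zero_add]
  simp only [mon_cons, mon_nil]
  noncomm_ring

private theorem ndw_words (τ : Equiv.Perm (Fin 3)) :
    ([0,1,2].map (pN 3 τ), [1,2,0].map (pN 3 τ), [2,0,1].map (pN 3 τ),
      [1,0,2].map (pN 3 τ), [0,2,1].map (pN 3 τ), [2,1,0].map (pN 3 τ)) ∈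
    ([([0,1,2],[1,2,0],[2,0,1],[1,0,2],[0,2,1],[2,1,0]),
      ([1,2,0],[2,0,1],[0,1,2],[2,1,0],[1,0,2],[0,2,1]),
      ([2,0,1],[0,1,2],[1,2,0],[0,2,1],[2,1,0],[1,0,2]),
      ([1,0,2],[0,2,1],[2,1,0],[0,1,2],[1,2,0],[2,0,1]),
      ([0,2,1],[2,1,0],[1,0,2],[2,0,1],[0,1,2],[1,2,0]),
      ([2,1,0],[1,0,2],[0,2,1],[1,2,0],[2,0,1],[0,1,2])] :
      List (List ℕ × List ℕ × List ℕ × List ℕ × List ℕ × List ℕ)) := by
  revert τ
  decide

private theorem ndw_rn (σ : Equiv.Perm (Fin 3)) : ∃ a b : ℤ,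
    rn 3 σ ndwa = a • ndwa + b • ndwa' ∧ rn 3 σ ndwb = a • ndwb + b • ndwb' := by
  have h1 := ndw_words σ
  simp only [List.mem_cons, List.not_mem_nil, or_false, Prod.mk.injEq] at h1
  have ea : rn 3 σ ndwa = mon ([1,0,2].map (pN 3 σ)) + mon ([2,0,1].map (pN 3 σ)) -
      mon ([0,1,2].map (pN 3 σ)) - mon ([0,2,1].map (pN 3 σ)) := by
    unfold ndwa
    rw [map_sub, map_sub, map_add, rn_mon, rn_mon, rn_mon, rn_mon]
  have eb : rn 3 σ ndwb = mon ([1,2,0].map (pN 3 σ)) + mon ([2,1,0].map (pN 3 σ)) -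
      mon ([1,0,2].map (pN 3 σ)) - mon ([2,0,1].map (pN 3 σ)) := by
    unfold ndwb
    rw [map_sub, map_sub, map_add, rn_mon, rn_mon, rn_mon, rn_mon]
  rw [ea, eb]
  unfold ndwa ndwa' ndwb ndwb'
  rcases h1 with h1 | h1 | h1 | h1 | h1 | h1
  · obtain ⟨e1, e2, e3, e4, e5, e6⟩ := h1
    refine ⟨1, 0, ?_, ?_⟩ <;> rw [one_smul, zero_smul, add_zero] <;> simp only [e1, e2, e3, e4, e5, e6]
  · obtain ⟨e1, e2, e3, e4, e5, e6⟩ := h1
    refine ⟨0, 1, ?_, ?_⟩ <;> rw [one_smul, zero_smul, zero_add] <;> simp only [e1, e2, e3, e4, e5, e6] <;> abel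
  · obtain ⟨e1, e2, e3, e4, e5, e6⟩ := h1
    refine ⟨-1, -1, ?_, ?_⟩ <;> rw [neg_one_smul, neg_one_smul] <;> simp only [e1, e2, e3, e4, e5, e6] <;> abel
  · obtain ⟨e1, e2, e3, e4, e5, e6⟩ := h1
    refine ⟨0, 1, ?_, ?_⟩ <;> rw [one_smul, zero_smul, zero_add] <;> simp only [e1, e2, e3, e4, e5, e6]
  · obtain ⟨e1, e2, e3, e4, e5, e6⟩ := h1
    refine ⟨1, 0, ?_, ?_⟩ <;> rw [one_smul, zero_smul, add_zero] <;> simp only [e1, e2, e3, e4, e5, e6] <;> abel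
  · obtain ⟨e1, e2, e3, e4, e5, e6⟩ := h1
    refine ⟨-1, -1, ?_, ?_⟩ <;> rw [neg_one_smul, neg_one_smul] <;> simp only [e1, e2, e3, e4, e5, e6] <;> abel

private theorem ndw_cc (c : Equiv.Perm (Fin 3) → ℤ) : ∃ a b : ℤ,
    cc 3 c ndwa = a • ndwa + b • ndwa' ∧ cc 3 c ndwb = a • ndwb + b • ndwb' := by
  choose a b h using ndw_rn
  refine ⟨∑ σ, c σ * a σ, ∑ σ, c σ * b σ, ?_, ?_⟩
  · unfold cc
    rw [Finset.sum_smul, Finset.sum_smul, ← Finset.sum_add_distrib]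
    exact Finset.sum_congr rfl fun σ _ => by rw [(h σ).1, smul_add, smul_smul, smul_smul]
  · unfold cc
    rw [Finset.sum_smul, Finset.sum_smul, ← Finset.sum_add_distrib]
    exact Finset.sum_congr rfl fun σ _ => by rw [(h σ).2, smul_add, smul_smul, smul_smul]

private theorem ndw_co (a b c d : ℤ) {g : P} (hg : g = a • ndwa + b • ndwa' + (c • ndwb + d • ndwb')) :
    cf [0,1,2] g = -a + b - d ∧ cf [1,2,0] g = -b + c ∧ cf [2,0,1] g = a - c + d ∧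
    cf [1,0,2] g = a - b - c ∧ cf [0,2,1] g = -a + d ∧ cf [2,1,0] g = b + c - d := by
  subst hg
  unfold ndwa ndwa' ndwb ndwb'
  simp only [cf_add, cf_smul, ndw_cf_sub, cf_mon]
  refine ⟨?_, ?_, ?_, ?_, ?_, ?_⟩ <;> norm_num <;> ring

private theorem ndw_KW {p : ℕ} (a b c d : ℤ) {g : P} (hg : g = a • ndwa + b • ndwa' + (c • ndwb + d • ndwb')) :
    g ∈ KW p ↔ ((p : ℤ) ∣ -a + 2 * b - c - d ∧ (p : ℤ) ∣ -2 * a + b + c - 2 * d ∧
      (p : ℤ) ∣ 2 * a - b - c - d ∧ (p : ℤ) ∣ a - 2 * b - 2 * c + d) := by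
  obtain ⟨h1, h2, h3, h4, h5, h6⟩ := ndw_co a b c d hg
  show (_ ∧ _ ∧ _ ∧ _) ↔ _
  rw [h1, h2, h3, h4, h5, h6]
  have e1 : -a + b - d - (-b + c) = -a + 2 * b - c - d := by ring
  have e2 : -a + b - d - (a - c + d) = -2 * a + b + c - 2 * d := by ring
  have e3 : a - b - c - (-a + d) = 2 * a - b - c - d := by ring
  have e4 : a - b - c - (b + c - d) = a - 2 * b - 2 * c + d := by ring
  rw [e1, e2, e3, e4]

private theorem ndw_three {p : ℕ} (hp : p.Prime) (h5 : 5 ≤ p) {t : ℤ} (h : (p : ℤ) ∣ 3 * t) : (p : ℤ) ∣ t := by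
  rcases (Nat.prime_iff_prime_int.1 hp).dvd_or_dvd h with h1 | h1
  · exfalso
    have h2 := Int.le_of_dvd (by norm_num) h1
    omega
  · exact h1

/-- the combination lies in `KW p` only if all coefficients are divisible by `p` -/
private theorem ndw_all {p : ℕ} (hp : p.Prime) (h5 : 5 ≤ p) (a b c d : ℤ) {g : P}
    (hg : g = a • ndwa + b • ndwa' + (c • ndwb + d • ndwb')) (h : g ∈ KW p) :
    (p : ℤ) ∣ a ∧ (p : ℤ) ∣ b ∧ (p : ℤ) ∣ c ∧ (p : ℤ) ∣ d := by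
  obtain ⟨h1, h2, h3, h4⟩ := (ndw_KW a b c d hg).1 h
  have hc : (p : ℤ) ∣ c := by
    refine ndw_three hp h5 ?_
    have h6 := (dvd_add h1 h4).neg_right
    have e : -(-a + 2 * b - c - d + (a - 2 * b - 2 * c + d)) = 3 * c := by ring
    rwa [e] at h6
  have hd : (p : ℤ) ∣ d := by
    refine ndw_three hp h5 ?_
    have h6 := (dvd_add h2 h3).neg_right
    have e : -(-2 * a + b + c - 2 * d + (2 * a - b - c - d)) = 3 * d := by ring
    rwa [e] at h6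
  have ha : (p : ℤ) ∣ a := by
    refine ndw_three hp h5 ?_
    have h6 := dvd_add (dvd_add (h3.mul_left 2) h1) (dvd_add (hc.mul_left 3) (hd.mul_left 3))
    have e : 2 * (2 * a - b - c - d) + (-a + 2 * b - c - d) + (3 * c + 3 * d) = 3 * a := by ring
    rwa [e] at h6
  have hb : (p : ℤ) ∣ b := by
    have h6 := dvd_sub (dvd_sub (dvd_sub (ha.mul_left 2) h3) hc) hd
    have e : 2 * a - (2 * a - b - c - d) - c - d = b := by ring
    rwa [e] at h6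
  exact ⟨ha, hb, hc, hd⟩

private theorem ndw_in {p : ℕ} (a b c d : ℤ) {g : P} (hg : g = a • ndwa + b • ndwa' + (c • ndwb + d • ndwb'))
    (ha : (p : ℤ) ∣ a) (hb : (p : ℤ) ∣ b) (hc : (p : ℤ) ∣ c) (hd : (p : ℤ) ∣ d) : g ∈ KW p := by
  rw [ndw_KW a b c d hg]
  refine ⟨?_, ?_, ?_, ?_⟩
  · exact dvd_sub (dvd_sub (dvd_add (dvd_neg.2 ha) (hb.mul_left 2)) hc) hd
  · exact dvd_sub (dvd_add (dvd_add (ha.mul_left (-2)) hb) hc) (hd.mul_left 2)
  · exact dvd_sub (dvd_sub (dvd_sub (ha.mul_left 2) hb) hc) hd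
  · exact dvd_add (dvd_sub (dvd_sub ha (hb.mul_left 2)) (hc.mul_left 2)) hd

theorem NdW {p : ℕ} (hp : p.Prime) (h5 : 5 ≤ p) : ¬ DistOn TI (WP p) := by
  have z : ∀ a b : ℤ, a • ndwa + b • ndwa' = a • ndwa + b • ndwa' + ((0 : ℤ) • ndwb + (0 : ℤ) • ndwb') := by
    intro a b
    rw [zero_smul, zero_smul, add_zero, add_zero]
  have z' : ∀ a b : ℤ, a • ndwb + b • ndwb' = (0 : ℤ) • ndwa + (0 : ℤ) • ndwa' + (a • ndwb + b • ndwb') := by
    intro a b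
    rw [zero_smul, zero_smul, add_zero, zero_add]
  refine NdT (n := 3) (by norm_num) (KW_add p) (u1 := ndwa) (u2 := ndwb) ?_ ?_ ?_ ?_ ?_
  · rw [← ndw_v1]; exact kml_Ml 1 0
  · rw [← ndw_v2]; exact kml_Ml 0 1
  · intro c
    obtain ⟨a, b, h1, h2⟩ := ndw_cc c
    rw [h1, h2]
    constructor
    · intro h
      obtain ⟨ha, hb, -, -⟩ := ndw_all hp h5 a b 0 0 (z a b) h
      exact ndw_in 0 0 a b (z' a b) (dvd_zero _) (dvd_zero _) ha hb
    · intro h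
      obtain ⟨-, -, ha, hb⟩ := ndw_all hp h5 0 0 a b (z' a b) h
      exact ndw_in a b 0 0 (z a b) ha hb (dvd_zero _) (dvd_zero _)
  · intro c d h
    obtain ⟨a, b, h1, -⟩ := ndw_cc c
    obtain ⟨a', b', -, h2⟩ := ndw_cc d
    rw [h1, h2] at h
    rw [h1]
    obtain ⟨ha, hb, -, -⟩ := ndw_all hp h5 a b a' b' rfl h
    exact ndw_in a b 0 0 (z a b) ha hb (dvd_zero _) (dvd_zero _)
  · intro h
    have e : ndwa = (1 : ℤ) • ndwa + (0 : ℤ) • ndwa' + ((0 : ℤ) • ndwb + (0 : ℤ) • ndwb') := by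
      rw [one_smul, zero_smul, zero_smul, zero_smul, add_zero, add_zero, add_zero]
    obtain ⟨ha, -, -, -⟩ := ndw_all hp h5 1 0 0 0 e h
    have h2 := Int.le_of_dvd (by norm_num) ha
    omega

end ADC
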