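import Pool.Agent.ADC.Main1
import Pool.Agent.ADC.IncU
import Pool.Agent.ADC.IncW
import Pool.Agent.ADC.IncN
import Pool.Agent.ADC.IncG
import Pool.Agent.ADC.GenU
import Pool.Agent.ADC.N6
import Pool.Agent.ADC.NdW
import Pool.Agent.ADC.NdN
import Pool.Agent.ADC.NdE
import Pool.Agent.ADC.NdO

/-!
# ADC-Main2

The list of the T-ideals: they are almost distributive and form an antichain; every almost distributive T-ideal containing `p² Pp` is in the list or near-commutative.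
-/

namespace ADC

open AD ADN

/-- the T-ideals of `U_p`, `W_p`, `N_p`, `G_{p,k}` -/
def Lst (p : ℕ) : Set (Submodule ℤ P) :=
  {E | E = ADA.UP p ∨ E = WP p ∨ E = NPt p 0 0 ∨ ∃ k, 1 ≤ k ∧ k < p ∧ E = GP p k}

theorem UP_sq {p : ℕ} : Mul ((p : ℤ) ^ 2) (ADA.UP p) := by
  intro f hf
  exact ADA.mulI_le (ADA.isT_UP (p := p)) UP_mem.1 (expo_mem_mulI.2 ⟨f, hf, rfl⟩)

theorem Lst_isT {p : ℕ} (hp : p.Prime) (h5 : 5 ≤ p) {E : Submodule ℤ P} (hE : E ∈ Lst p) : IsT E := by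
  rcases hE with rfl | rfl | rfl | ⟨k, -, -, rfl⟩
  · exact ADA.isT_UP
  · exact WP_isT p
  · exact NPt_isT hp h5 0 0
  · exact GP_isT (by omega)

theorem Lst_sq {p : ℕ} (h5 : 5 ≤ p) {E : Submodule ℤ P} (hE : E ∈ Lst p) : Mul ((p : ℤ) ^ 2) E := by
  rcases hE with rfl | rfl | rfl | ⟨k, -, -, rfl⟩
  · exact UP_sq
  · exact (WP_p p).sq
  · exact (NPt_p 0 0).sq
  · exact GP_sq (by omega)

theorem Lst_nd {p : ℕ} (hp : p.Prime) (h5 : 5 ≤ p) {E : Submodule ℤ P} (hE : E ∈ Lst p) : ¬ DistOn TI E := by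
  rcases hE with rfl | rfl | rfl | ⟨k, h1, h2, rfl⟩
  · exact ADA.not_dist_UP hp
  · exact NdW hp h5
  · exact NdN hp h5
  · rcases Nat.mod_two_eq_zero_or_one k with h | h
    · exact NdE hp h5 h1 h2 h
    · exact NdO hp h5 h h2

/-- the list is an antichain -/
theorem Lst_anti {p : ℕ} (hp : p.Prime) (h5 : 5 ≤ p) {E E' : Submodule ℤ P} (hE : E ∈ Lst p) (hE' : E' ∈ Lst p)
    (h : E ≤ E') : E = E' := by
  rcases hE with rfl | rfl | rfl | ⟨k, h1, h2, rfl⟩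
  · rcases hE' with rfl | rfl | rfl | ⟨k', h1', h2', rfl⟩
    · rfl
    · exact absurd h (UP_WP hp)
    · exact absurd h (UP_NPt hp)
    · exact absurd h (UP_GP hp h5 h1' h2')
  · rcases hE' with rfl | rfl | rfl | ⟨k', h1', h2', rfl⟩
    · exact absurd h (WP_UP hp h5)
    · rfl
    · exact absurd h (WP_NPt hp h5)
    · exact absurd h (WP_GP hp h5 h2')
  · rcases hE' with rfl | rfl | rfl | ⟨k', h1', h2', rfl⟩
    · exact absurd h (NPt_UP hp)
    · exact absurd h (NPt_WP hp h5)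
    · rfl
    · exact absurd h (NPt_GP hp h5 h1' h2')
  · rcases hE' with rfl | rfl | rfl | ⟨k', h1', h2', rfl⟩
    · exact absurd h (GP_UP hp h5 h1 h2)
    · exact absurd h (GP_WP hp h5 h1 h2)
    · exact absurd h (GP_NPt hp h5 h1 h2)
    · rw [GP_inj hp h5 h1 h2 h1' h2' h]

theorem main1' {p : ℕ} (hp : p.Prime) (h5 : 5 ≤ p) {I : Submodule ℤ P} (hI : AlmDist I)
    (h2 : Mul ((p : ℤ) ^ 2) I) : (∃ E ∈ Lst p, I ≤ E) ∨ (Mul p I ∧ cm 0 1 ∈ I ⊔ Fge (p + 1)) := by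
  by_cases h : ∃ E ∈ Lst p, I ≤ E
  · exact Or.inl h
  · refine Or.inr (main1 hp h5 hI h2 ?_ ?_ ?_ ?_)
    · exact fun h' => h ⟨_, Or.inl rfl, h'⟩
    · exact fun h' => h ⟨_, Or.inr (Or.inl rfl), h'⟩
    · exact fun h' => h ⟨_, Or.inr (Or.inr (Or.inl rfl)), h'⟩
    · exact fun k h1 h2 h' => h ⟨_, Or.inr (Or.inr (Or.inr ⟨k, h1, h2, rfl⟩)), h'⟩

/-- near-commutative almost distributive T-ideals do not contain all words of length `p + 1` -/
theorem near_not {p : ℕ} (hp : p.Prime) {E : Submodule ℤ P} (hE : AlmDist E) (hm : Mul p E)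
    (hc : cm 0 1 ∈ E ⊔ Fge (p + 1)) : ¬ Fge (p + 1) ≤ E := by
  intro h
  rw [sup_eq_left.2 h] at hc
  exact hE.2.1 (CPle hp hE.1 hm h hc)

theorem Lst_near {p : ℕ} (hp : p.Prime) (h5 : 5 ≤ p) {E E' : Submodule ℤ P} (hE : E ∈ Lst p) (hE' : AlmDist E')
    (h : E ≤ E') (hm : Mul p E') (hc : cm 0 1 ∈ E' ⊔ Fge (p + 1)) : False := by
  rcases hE with rfl | rfl | rfl | ⟨k, h1, h2, rfl⟩
  · exact near_not hp hE' hm hc ((Fge_le (ADA.nil_UP p)).trans h)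
  · refine near_not hp hE' hm hc (le_trans ?_ h)
    exact (Fge_anti (by omega : 3 + 1 ≤ p + 1)).trans (Fge_le_TK (by norm_num) (KW_add p))
  · exact N6 hp h5 hE' hm h hc
  · exact near_not hp hE' hm hc ((Fge_le_TK (by omega) (KG_add p k)).trans h)

/-- the T-ideals of the list are almost distributive -/
theorem Lst_alm {p : ℕ} (hp : p.Prime) (h5 : 5 ≤ p) {E : Submodule ℤ P} (hE : E ∈ Lst p) : AlmDist E := by
  obtain ⟨E', -, hle, hA, -⟩ := ADA.exists_alm (Lst_nd hp h5 hE)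
  rcases main1' hp h5 hA ((Lst_sq h5 hE).mono hle) with ⟨F, hF, hF2⟩ | ⟨h1, h2⟩
  · have h3 := Lst_anti hp h5 hE hF (hle.trans hF2)
    rw [← h3] at hF2
    rwa [le_antisymm hle hF2]
  · exact (Lst_near hp h5 hE hA hle h1 h2).elim

theorem main2 {p : ℕ} (hp : p.Prime) (h5 : 5 ≤ p) {I : Submodule ℤ P} (hI : AlmDist I)
    (h2 : Mul ((p : ℤ) ^ 2) I) : I ∈ Lst p ∨ (Mul p I ∧ cm 0 1 ∈ I ⊔ Fge (p + 1)) := by
  rcases main1' hp h5 hI h2 with ⟨E, hE, hle⟩ | h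
  · left
    rcases hle.eq_or_lt with h | h
    · rwa [h]
    · exact absurd (hI.2.2 E (Lst_isT hp h5 hE) h) (Lst_nd hp h5 hE)
  · exact Or.inr h

end ADC
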