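import Pool.Agent.ADC.Lkb
import Pool.Agent.ADA.Exp2

/-!
# ADC-Npn

Linked pairs of multilinear polynomials, structure `Pr` (Defs).
-/

namespace ADC

open AD ADN

private theorem Ml_zero {f : P} (hf : f ∈ Ml 0) : f = aug f • (1 : P) := by
  refine Ml_ind (n := 0) (C := fun f => f = aug f • (1 : P)) ?_ ?_ ?_ ?_ hf
  · rw [map_zero, zero_smul]
  · intro f g hf hg
    rw [map_add, add_smul, ← hf, ← hg]
  · intro c f hf
    rw [map_zsmul, smul_assoc, ← hf]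
  · intro w hw
    have h1 : w = [] := List.perm_nil.1 hw
    rw [h1, mon_nil, map_one, one_smul]

theorem Pr.pos {p : ℕ} {I J A B C : Submodule ℤ P} {n : ℕ} {q : ℤ} {a b t : P}
    (h : Pr p I J A B C n q a b t) : 1 ≤ n := by
  by_contra hn
  have h0 : n = 0 := by omega
  subst h0
  apply h.na
  have h1 : aug a = 0 := mem_Pp.1 (h.hA.le h.lk.1)
  rw [Ml_zero h.ha, h1, zero_smul]
  exact I.zero_mem

theorem Pr.map {p : ℕ} {I J A B C : Submodule ℤ P} {n : ℕ} {q : ℤ} {a b t : P}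
    (h : Pr p I J A B C n q a b t) {Φ : P →ₗ[ℤ] P} (hΦ : TOp p Φ) (hM : ∀ f ∈ Ml n, Φ f ∈ Ml n)
    (hn : Φ a ∉ I) : Pr p I J A B C n q (Φ a) (Φ b) (Φ t) := by
  refine
    { toLk := h.toLk
      bJ := h.bJ
      IJ := h.IJ
      pJ := h.pJ
      qJ := h.qJ
      ex := h.ex
      ha := hM a h.ha
      hb := hM b h.hb
      hh := hM t h.hh
      lk := Lnk.map h.toLk h.lk hΦ
      aq := ?_
      na := hn }
  have h1 := hΦ I h.hI h.p2 _ h.aq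
  rwa [map_sub, map_smul] at h1

theorem Pr.rn {p : ℕ} {I J A B C : Submodule ℤ P} {n : ℕ} {q : ℤ} {a b t : P}
    (h : Pr p I J A B C n q a b t) (σ : Equiv.Perm (Fin n)) :
    Pr p I J A B C n q (rn n σ a) (rn n σ b) (rn n σ t) := by
  refine h.map (Φ := tl (ADC.rn n σ)) (TOp_rn p n σ) (fun f hf => Ml_rn σ hf) fun h1 => h.na ?_
  have h2 := TOp_rn p n σ⁻¹ I h.hI h.p2 _ h1
  rw [tl_apply, tl_apply, rn_rn, inv_mul_cancel, rn_one] at h2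
  exact h2

theorem Pr.np {p : ℕ} {I J A B C : Submodule ℤ P} {n : ℕ} {q : ℤ} {a b t : P}
    (h : Pr p I J A B C n q a b t) {Φ : P →ₗ[ℤ] P} (hΦ : TOp p Φ) {Y : P} (hY : Y ∈ Pp)
    (hc : ∀ f ∈ Ml n, Φ f ∈ I ⊔ Submodule.span ℤ {Y}) : Φ a ∈ I := by
  exact Lk.np h.bJ.pp h.toLk (Lnk.map h.toLk h.lk hΦ) hY (hc a h.ha) (hc b h.hb)

theorem Pr.npn {p : ℕ} {I J A B C : Submodule ℤ P} {n : ℕ} {q : ℤ} {a b t : P}
    (h : Pr p I J A B C n q a b t) {Φ : P →ₗ[ℤ] P} (hΦ : TOp p Φ) (hM : ∀ f ∈ Ml n, Φ f ∈ Ml n)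
    {u : ℤ} (hu : ¬ (p : ℤ) ∣ u) (hq : ∀ f ∈ Ml n, Φ (Φ f) = u • Φ f) {Y : P} (hY : Y ∈ Ml n)
    (hc : ∀ f ∈ Ml n, Φ f ∈ J ⊔ Submodule.span ℤ {Y}) : Φ a ∈ I := by
  have hMP : Ml n ≤ Pp := Ml_Pp h.pos
  -- one step
  have s1 : ∀ f ∈ Ml n, ∃ c : ℤ, ∃ g ∈ Ml n, u • Φ f - c • Φ Y - (p : ℤ) • Φ g ∈ I := by
    intro f hf
    obtain ⟨j, hj, y, hy, hjy⟩ := Submodule.mem_sup.1 (hc f hf)
    obtain ⟨c, rfl⟩ := Submodule.mem_span_singleton.1 hy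
    have hj2 : j = Φ f - c • Y := by rw [← hjy]; abel
    have hjM : j ∈ Ml n := by
      rw [hj2]
      exact Submodule.sub_mem _ (hM f hf) (Submodule.smul_mem _ _ hY)
    obtain ⟨g, hg, hgI⟩ := h.ex j hjM hj
    refine ⟨c, g, hg, ?_⟩
    have h1 := hΦ I h.hI h.p2 _ hgI
    rw [hj2, map_sub, map_sub, map_smul, map_smul, hq f hf] at h1
    exact h1
  have s2 : ∀ f ∈ Ml n, Φ f ∈ I ⊔ Submodule.span ℤ {Φ Y} := by
    intro f hf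
    obtain ⟨c, g, hg, h1⟩ := s1 f hf
    obtain ⟨c', g', hg', h2⟩ := s1 g hg
    have h3 : ((p : ℤ) ^ 2) • Φ g' ∈ I := h.p2 _ (hMP (hM g' hg'))
    have h4 : (u ^ 2) • Φ f - (u * c + (p : ℤ) * c') • Φ Y ∈ I := by
      have e : (u ^ 2) • Φ f - (u * c + (p : ℤ) * c') • Φ Y =
          u • (u • Φ f - c • Φ Y - (p : ℤ) • Φ g) +
            (p : ℤ) • (u • Φ g - c' • Φ Y - (p : ℤ) • Φ g') + ((p : ℤ) ^ 2) • Φ g' := by
        module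
      rw [e]
      exact I.add_mem (I.add_mem (I.smul_mem _ h1) (I.smul_mem _ h2)) h3
    have h5 : IsCoprime (u ^ 2) ((p : ℤ) ^ 2) :=
      IsCoprime.pow ((Prime.coprime_iff_not_dvd (Nat.prime_iff_prime_int.1 h.bJ.pp)).2 hu).symm
    obtain ⟨v, k, hvk⟩ := h5
    have h6 : Φ f = (v • ((u ^ 2) • Φ f - (u * c + (p : ℤ) * c') • Φ Y) +
        k • (((p : ℤ) ^ 2) • Φ f)) + (v * (u * c + (p : ℤ) * c')) • Φ Y := by
      have h7 : Φ f = (v * u ^ 2 + k * (p : ℤ) ^ 2) • Φ f := by rw [hvk, one_smul]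
      calc Φ f = (v * u ^ 2 + k * (p : ℤ) ^ 2) • Φ f := h7
        _ = _ := by module
    rw [h6]
    exact Submodule.add_mem_sup (I.add_mem (I.smul_mem _ h4)
      (I.smul_mem _ (h.p2 _ (hMP (hM f hf)))))
      (Submodule.smul_mem _ _ (Submodule.mem_span_singleton_self _))
  exact h.np hΦ (hMP (hM Y hY)) s2

theorem Pr.quot {p : ℕ} {I J A B C : Submodule ℤ P} {n : ℕ} {q : ℤ} {a b t : P}
    (h : Pr p I J A B C n q a b t) :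
    ∃ D, IsT D ∧ Mul p D ∧ J ≤ D ∧ (∀ f ∈ Pp, (f ∈ D ↔ q • f ∈ I)) ∧ t ∉ D := by
  refine ⟨ADA.col q I, ADA.isT_col h.hI q, fun f hf => ADA.mem_col.2 ⟨Pp.smul_mem _ hf,
    h.qJ _ (h.bJ.mul f hf)⟩, fun f hf => ADA.mem_col.2 ⟨h.bJ.isT.le hf, h.qJ f hf⟩,
    fun f hf => ⟨fun h1 => (ADA.mem_col.1 h1).2, fun h1 => ADA.mem_col.2 ⟨hf, h1⟩⟩,
    fun h1 => h.na ?_⟩
  have h2 := I.add_mem h.aq (ADA.mem_col.1 h1).2
  rwa [sub_add_cancel] at h2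

/-- `b` lies in `I` as soon as `a` does, after applying an operator -/
theorem Pr.snd {p : ℕ} {I J A B C : Submodule ℤ P} {n : ℕ} {q : ℤ} {a b t : P}
    (h : Pr p I J A B C n q a b t) {Φ : P →ₗ[ℤ] P} (hΦ : TOp p Φ) : Φ a ∈ I ↔ Φ b ∈ I := by
  exact Lk.iff h.toLk (Lnk.map h.toLk h.lk hΦ)

end ADC
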