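import Pool.Agent.ADC.Nf
import Pool.Agent.ADC.NEx

/-!
# ADC-Pair1: linked polynomials in one variable
-/

namespace ADC

open AD ADN

private noncomputable def pa_V (I : Submodule ℤ P) (d : ℕ) : Submodule ℤ P :=
  I ⊔ Submodule.span ℤ {f | ∃ e, d ≤ e ∧ f = X 0 ^ e}

private theorem pa_pow {e : ℕ} (he : 1 ≤ e) : (X 0 : P) ^ e ∈ Pp := by
  obtain ⟨e', rfl⟩ : ∃ e', e = e' + 1 := ⟨e - 1, by omega⟩
  rw [pow_succ]
  exact Pp_mul_left _ (X_mem 0)

private theorem pa_pow_le {A : Submodule ℤ P} (hA : IsT A) {d e : ℕ} (hde : d ≤ e) (h : X 0 ^ d ∈ A) :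
    (X 0 : P) ^ e ∈ A := by
  have h1 : (X 0 : P) ^ e = X 0 ^ d * X 0 ^ (e - d) := by
    rw [← pow_add]
    congr 1
    omega
  rw [h1]
  exact hA.mul_right _ h _

/-- splitting off the lowest power -/
private theorem pa_split {f : P} {d : ℕ} (hf : f ∈ Submodule.span ℤ {f : P | ∃ e, d ≤ e ∧ f = X 0 ^ e}) :
    ∃ (c : ℤ) (r : P), r ∈ Submodule.span ℤ {f : P | ∃ e, d < e ∧ f = X 0 ^ e} ∧ f = c • X 0 ^ d + r := by
  induction hf using Submodule.span_induction with
  | mem x hx =>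
    obtain ⟨e, he, rfl⟩ := hx
    rcases lt_or_eq_of_le he with h | h
    · exact ⟨0, X 0 ^ e, Submodule.subset_span ⟨e, h, rfl⟩, by rw [zero_smul, zero_add]⟩
    · exact ⟨1, 0, Submodule.zero_mem _, by rw [h, one_smul, add_zero]⟩
  | zero => exact ⟨0, 0, Submodule.zero_mem _, by rw [zero_smul, zero_add]⟩
  | add x y _ _ hx hy =>
    obtain ⟨c, r, hr, rfl⟩ := hx
    obtain ⟨c', r', hr', rfl⟩ := hy
    refine ⟨c + c', r + r', Submodule.add_mem _ hr hr', ?_⟩
    rw [add_smul]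
    abel
  | smul k x _ hx =>
    obtain ⟨c, r, hr, rfl⟩ := hx
    refine ⟨k * c, k • r, Submodule.smul_mem _ _ hr, ?_⟩
    rw [smul_add, smul_smul]

private theorem pa_lev {p : ℕ} {I : Submodule ℤ P} (hb : Bas p I) {a : P} (h1 : a ∈ pa_V I 1) (h2 : a ∉ I) :
    ∃ d, 1 ≤ d ∧ a ∈ pa_V I d ∧ a ∉ pa_V I (d + 1) := by
  obtain ⟨N, hN⟩ := hb.nil
  by_contra hne
  push Not at hne
  have key : ∀ k, a ∈ pa_V I (1 + k) := by
    intro k
    induction k with
    | zero => exact h1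
    | succ k ih => exact hne (1 + k) (by omega) ih
  refine h2 ((sup_le le_rfl ?_ : pa_V I (1 + N) ≤ I) (key N))
  rw [Submodule.span_le]
  rintro f ⟨e, he, rfl⟩
  have h3 : (X 0 : P) ^ e = mon (List.replicate e 0) := by
    unfold mon
    rw [List.map_replicate, List.prod_replicate]
  rw [h3]
  exact hN _ (by rw [List.length_replicate]; omega)

private theorem pa_one {p : ℕ} {I A B C : Submodule ℤ P} (h : Lk p I A B C) (hb : Bas p I) {a b : P} {d : ℕ}
    (hd : 1 ≤ d) (ha : a ∈ A) (hB : b ∈ B) (h1 : a ∈ pa_V I d) (h2 : a ∉ pa_V I (d + 1)) (h3 : b ∈ pa_V I d) :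
    b ∈ I := by
  have h4 : X 0 ^ d ∈ A := by
    by_cases h0 : X 0 ∈ A
    · have h5 : (X 0 : P) ^ 1 ∈ A := by rw [pow_one]; exact h0
      exact pa_pow_le h.hA hd h5
    · have hA : Bas p A :=
        { pp := hb.pp
          five := hb.five
          isT := h.hA
          mul := hb.mul.mono h.IA
          nil := by
            obtain ⟨N, hN⟩ := hb.nil
            exact ⟨N, fun w hw => h.IA (hN w hw)⟩
          ne := h0 }
      obtain ⟨i, hi, s, hs, e⟩ := Submodule.mem_sup.1 h1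
      obtain ⟨c, r, hr, rfl⟩ := pa_split hs
      refine one_low hA (c := c) ?_ hd hr ?_
      · rintro ⟨k, rfl⟩
        refine h2 ?_
        rw [← e, ← add_assoc]
        refine Submodule.add_mem _ (Submodule.mem_sup_left (I.add_mem hi ?_)) (Submodule.mem_sup_right ?_)
        · rw [mul_smul]
          exact hb.mul _ (Pp.smul_mem _ (pa_pow hd))
        · exact hr
      · have h6 : c • X 0 ^ d + r = a - i := by
          rw [← e]
          abel
        rw [h6]
        exact A.sub_mem ha (h.IA hi)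
  have h5 : pa_V I d ≤ A := by
    refine sup_le h.IA ?_
    rw [Submodule.span_le]
    rintro f ⟨e, he, rfl⟩
    exact pa_pow_le h.hA he h4
  exact h.AB ⟨h5 h3, hB⟩

private theorem pa_Q1 {p : ℕ} {I : Submodule ℤ P} {a : P} (ha : a ∈ Q p 1) : a ∈ pa_V I 1 := by
  refine Submodule.mem_sup_right ((Submodule.span_le.2 ?_ : Q p 1 ≤ _) ha)
  rintro f ⟨w, hw, rfl⟩
  have h1 : w = List.replicate w.length 0 := by
    rw [List.eq_replicate_iff]
    exact ⟨rfl, fun b hb => by have := hw.1 b hb; omega⟩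
  refine Submodule.subset_span ⟨w.length, ?_, ?_⟩
  · by_contra h2
    have h3 : w = [] := List.eq_nil_of_length_eq_zero (by omega)
    have h4 := hw.2 0 (by omega)
    rw [h3, List.count_nil, Nat.zero_mod] at h4
    omega
  · rw [h1]
    unfold mon
    rw [List.map_replicate, List.prod_replicate, List.length_replicate]

theorem Pair1 {p : ℕ} {I A B C : Submodule ℤ P} (h : Lk p I A B C) (hb : Bas p I) {a b : P} (ha : a ∈ Q p 1)
    (hb' : b ∈ Q p 1) (hl : Lnk A B C a b) : a ∈ I := by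
  by_contra haI
  have hbI : b ∉ I := fun hbI => haI ((h.iff hl).2 hbI)
  have a1 := pa_Q1 (I := I) ha
  have b1 := pa_Q1 (I := I) hb'
  obtain ⟨d, hd, d1, d2⟩ := pa_lev hb a1 haI
  obtain ⟨d', hd', d1', d2'⟩ := pa_lev hb b1 hbI
  have mono : ∀ {d e : ℕ}, d ≤ e → pa_V I e ≤ pa_V I d := by
    intro d e hde
    refine sup_le_sup_left (Submodule.span_mono ?_) I
    rintro f ⟨k, hk, rfl⟩
    exact ⟨k, hde.trans hk, rfl⟩
  rcases le_total d d' with hdd | hdd
  · exact hbI (pa_one h hb hd hl.1 hl.2.1 d1 d2 (mono hdd d1'))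
  · exact haI (pa_one h.symm hb hd' hl.2.1 hl.1 d1' d2' (mono hdd d1))

end ADC
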