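import Pool.Agent.ADC.Cs
import Pool.Agent.ADC.Z9

/-!
# ADC-QNj

`x^p ∈ J` and short commutator words: the words of the class `qw p n` which are not multilinear are in `J`.

A word `w` with `qw p n w`, `n < w.length`: some count is `≠ 1`, hence `≥ p` (`≡ 1` modulo `p - 1`); `w.length ≥ n + p - 1 ≥ p`.
`n = 1`: `w = x^l`, `l ≥ p`.  `n ≥ 2`: length `L ≥ p + 1`.  If `Cn L ≤ J` then `w ≡ x^p u` modulo `Cn L` (`perm_Cn`), in `J` (substitute the letter).
So the only other case is `L = p + 1`, `n = 2` and the second alternative: `w` has one letter `x` `p` times and the other letter `y` once, `w = x^i y x^(p-i)`, and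
modulo `ll ∈ J` `w ≡ x^p y - (multiple of) [x,y] x^(p-1)`; and `[x,y] x^(p-1) ∈ J` for `(x,y) = (X 0, X 1)`, hence for all letters.

`alt_of`: the alternatives from the types: first type and second type: `Cn (p+1) ≤ Cn 5 ≤ J`; third type with `x^p ∈ J`: `Z9b`; fourth: `kap_of` with `m = 1`
(put `x_2 := x_0`).
-/

namespace ADC

open AD ADN

private theorem qj_rep (i k : ℕ) : mon (List.replicate k i) = X i ^ k := by
  unfold mon
  rw [List.map_replicate, List.prod_replicate]

private theorem qj_X {p : ℕ} {J : Submodule ℤ P} (hb : Bas p J) (hx : X 0 ^ p ∈ J) (i : ℕ) : X i ^ p ∈ J := by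
  have h1 := sb_mem hb.isT (φ := fun _ => X i) (fun _ => X_mem i) hx
  rwa [map_pow, sb_X] at h1

/-- `p` letters `i` in front -/
private theorem qj_front {p : ℕ} {J : Submodule ℤ P} (hb : Bas p J) (hx : X 0 ^ p ∈ J) {w : List ℕ}
    (hC : Cn w.length ≤ J) {i : ℕ} (hi : p ≤ w.count i) : mon w ∈ J := by
  have h1 : (List.replicate p i).Sublist w := List.replicate_sublist_iff.2 hi
  obtain ⟨u, hu⟩ := h1.exists_perm_append
  have h2 := hC (perm_Cn hu)
  have h3 : mon (List.replicate p i ++ u) ∈ J := by
    rw [mon_append, qj_rep]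
    exact hb.isT.mul_right _ (qj_X hb hx i) _
  have h4 := J.add_mem h2 h3
  rwa [sub_add_cancel] at h4

private theorem qj_comm {p : ℕ} {J : Submodule ℤ P} (hb : Bas p J) (hl : ll ∈ J) (i j a : ℕ) : ∀ b : ℕ,
    X i ^ a * cm j i * X i ^ b - cm j i * X i ^ (a + b) ∈ J := by
  have h0 : cm j i * X i - X i * cm j i ∈ J := by
    have h1 := sb_mem hb.isT (φ := fun k => if k = 0 then X j else X i) (by
      intro k
      split_ifs
      · exact X_mem j
      · exact X_mem i) hl
    have e : sb (fun k => if k = 0 then X j else X i) ll = cm j i * X i - X i * cm j i := by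
      unfold ll cm
      rw [map_sub, map_mul, map_mul, map_sub, map_mul, map_mul, sb_X, sb_X, sb_X]
      rfl
    rwa [e] at h1
  induction a with
  | zero =>
    intro b
    rw [pow_zero, one_mul, zero_add, sub_self]
    exact J.zero_mem
  | succ a ih =>
    intro b
    have h1 := ih (b + 1)
    have h2 := IsT.lm hb.isT (X i ^ a) (X i ^ b) h0
    have e : X i ^ (a + 1) * cm j i * X i ^ b - cm j i * X i ^ (a + 1 + b) =
        (X i ^ a * cm j i * X i ^ (b + 1) - cm j i * X i ^ (a + (b + 1))) -
          X i ^ a * (cm j i * X i - X i * cm j i) * X i ^ b := by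
      have e2 : a + 1 + b = a + (b + 1) := by omega
      rw [e2, pow_succ (X i) a, pow_succ' (X i) b]
      noncomm_ring
    rw [e]
    exact J.sub_mem h1 h2

private theorem qj_move {p : ℕ} {J : Submodule ℤ P} (hb : Bas p J) (hx : X 0 ^ p ∈ J) (hl : ll ∈ J)
    (hc : cm 0 1 * X 0 ^ (p - 1) ∈ J) (i j b : ℕ) : ∀ a : ℕ, a + b = p → X i ^ a * X j * X i ^ b ∈ J := by
  have hc' : cm j i * X i ^ (p - 1) ∈ J := by
    have h1 := sb_mem hb.isT (φ := fun k => if k = 0 then X i else X j) (by
      intro k
      split_ifs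
      · exact X_mem i
      · exact X_mem j) hc
    have e : sb (fun k => if k = 0 then X i else X j) (cm 0 1 * X 0 ^ (p - 1)) =
        - (cm j i * X i ^ (p - 1)) := by
      unfold cm
      rw [map_mul, map_sub, map_mul, map_mul, map_pow, sb_X, sb_X, if_pos rfl, if_neg one_ne_zero,
        ← neg_mul, neg_sub]
    rw [e] at h1
    exact (Submodule.neg_mem_iff J).1 h1
  induction b with
  | zero =>
    intro a ha
    rw [add_zero] at ha
    rw [ha, pow_zero, mul_one]
    exact hb.isT.mul_right _ (qj_X hb hx i) _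
  | succ b ih =>
    intro a ha
    have h1 := ih (a + 1) (by omega)
    have h2 := qj_comm hb hl i j a b
    have h3 : a + b = p - 1 := by omega
    rw [h3] at h2
    have h4 := J.add_mem (J.add_mem h2 hc') h1
    have e : X i ^ a * cm j i * X i ^ b - cm j i * X i ^ (p - 1) + cm j i * X i ^ (p - 1) +
        X i ^ (a + 1) * X j * X i ^ b = X i ^ a * X j * X i ^ (b + 1) := by
      unfold cm
      rw [pow_succ (X i) a, pow_succ' (X i) b]
      noncomm_ring
    rwa [e] at h4

private theorem qj_len (n : ℕ) (w : List ℕ) (h : ∀ i ∈ w, i < n) :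
    ∑ i ∈ Finset.range n, w.count i = w.length := by
  have h1 := Multiset.sum_count_eq_card (s := Finset.range n) (m := (w : Multiset ℕ))
    (fun a ha => Finset.mem_range.2 (h a (Multiset.mem_coe.1 ha)))
  simpa using h1

theorem Qnj {p : ℕ} {J : Submodule ℤ P} (hb : Bas p J) (hx : X 0 ^ p ∈ J)
    (hc : Cn (p + 1) ≤ J ∨ (Cn (p + 2) ≤ J ∧ ll ∈ J ∧ cm 0 1 * X 0 ^ (p - 1) ∈ J)) {n : ℕ} (hn : 1 ≤ n)
    {w : List ℕ} (hw : qw p n w) (hl : n < w.length) : mon w ∈ J := by
  have h5 := hb.five
  obtain ⟨hw1, hw2⟩ := hw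
  have hlen := qj_len n w hw1
  have hpos : ∀ i < n, 1 ≤ w.count i := by
    intro i hi
    have h1 := hw2 i hi
    by_contra h2
    have h3 : w.count i = 0 := by omega
    rw [h3, Nat.zero_mod] at h1
    omega
  obtain ⟨i, hi, hi1⟩ : ∃ i < n, w.count i ≠ 1 := by
    by_contra hcon
    push Not at hcon
    have h1 : ∑ i ∈ Finset.range n, w.count i = ∑ i ∈ Finset.range n, 1 :=
      Finset.sum_congr rfl fun i hi => hcon i (Finset.mem_range.1 hi)
    rw [hlen, Finset.sum_const, Finset.card_range, smul_eq_mul, mul_one] at h1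
    omega
  have hip : p ≤ w.count i := by
    by_contra h1
    push Not at h1
    have h2 := hw2 i hi
    have h3 := hpos i hi
    rcases Nat.lt_or_ge (w.count i) (p - 1) with h4 | h4
    · rw [Nat.mod_eq_of_lt h4] at h2
      exact hi1 h2
    · have h6 : w.count i = p - 1 := by omega
      rw [h6, Nat.mod_self] at h2
      omega
  have hL : n + p - 1 ≤ w.length := by
    rw [← hlen, ← Finset.sum_erase_add _ _ (Finset.mem_range.2 hi)]
    have h1 : ∑ x ∈ (Finset.range n).erase i, 1 ≤ ∑ x ∈ (Finset.range n).erase i, w.count x :=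
      Finset.sum_le_sum fun x hx => hpos x (Finset.mem_range.1 (Finset.mem_of_mem_erase hx))
    rw [Finset.sum_const, Finset.card_erase_of_mem (Finset.mem_range.2 hi), Finset.card_range,
      smul_eq_mul, mul_one] at h1
    omega
  rcases Nat.lt_or_ge 1 n with hn2 | hn2
  · -- `n ≥ 2`
    by_cases hC : Cn w.length ≤ J
    · exact qj_front hb hx hC hip
    rcases hc with hc | ⟨hc1, hc2, hc3⟩
    · exact absurd ((Cn_anti (show p + 1 ≤ w.length by omega)).trans hc) hC
    · have hlt : w.length < p + 2 := by
        by_contra h1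
        exact hC ((Cn_anti (show p + 2 ≤ w.length by omega)).trans hc1)
      have hn3 : n = 2 := by omega
      subst hn3
      have hj : 1 - i < 2 := by omega
      obtain ⟨j, hj0⟩ : ∃ j, j = 1 - i := ⟨_, rfl⟩
      rw [← hj0] at hj
      have hcj : w.count i + w.count j = w.length := by
        rw [← hlen, Finset.sum_range_succ, Finset.sum_range_succ, Finset.sum_range_zero, zero_add]
        have hi01 : i = 0 ∨ i = 1 := by omega
        rcases hi01 with rfl | rfl
        · have : j = 1 := by omega
          rw [this]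
        · have : j = 0 := by omega
          rw [this, add_comm]
      have hj1 := hpos j hj
      have hjc : w.count j = 1 := by omega
      have hjw : j ∈ w := List.count_pos_iff.1 (by omega)
      obtain ⟨s, t, rfl⟩ := List.append_of_mem hjw
      rw [List.count_append, List.count_cons_self] at hjc
      have hs0 : s.count j = 0 := by omega
      have ht0 : t.count j = 0 := by omega
      have hs1 : ∀ x ∈ s, x = i := by
        intro x hx
        have h1 := hw1 x (List.mem_append_left _ hx)
        have h2 : x ≠ j := by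
          rintro rfl
          exact List.count_eq_zero.1 hs0 hx
        omega
      have ht1 : ∀ x ∈ t, x = i := by
        intro x hx
        have h1 := hw1 x (List.mem_append_right _ (List.mem_cons_of_mem _ hx))
        have h2 : x ≠ j := by
          rintro rfl
          exact List.count_eq_zero.1 ht0 hx
        omega
      rw [List.eq_replicate_of_mem hs1, List.eq_replicate_of_mem ht1, mon_append, mon_cons, qj_rep,
        qj_rep, ← mul_assoc]
      refine qj_move hb hx hc2 hc3 i j t.length s.length ?_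
      rw [List.length_append, List.length_cons] at hlt hL
      omega
  · -- `n = 1`
    have hn1 : n = 1 := by omega
    subst hn1
    have h1 : ∀ x ∈ w, x = 0 := fun x hx => by
      have := hw1 x hx
      omega
    rw [List.eq_replicate_of_mem h1, qj_rep]
    have h2 : w.length = (w.length - p) + p := by omega
    rw [h2, pow_add]
    exact hb.isT.mul_left _ hx _

theorem alt_of {p : ℕ} {J : Submodule ℤ P} {α β : ℤ} (h : Tame p J α β) (ha : ¬ (p : ℤ) ∣ α) (hg : Grs p J)
    (hx : X 0 ^ p ∈ J) : Cn (p + 1) ≤ J ∨ (Cn (p + 2) ≤ J ∧ ll ∈ J ∧ cm 0 1 * X 0 ^ (p - 1) ∈ J) := by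
  have h5 := h.five
  by_cases hb : (p : ℤ) ∣ β
  · have h1 : Tame p J 1 0 := by
      refine h.scale ha ?_ ?_
      · rw [mul_one, sub_self]
        exact dvd_zero _
      · rwa [mul_zero, sub_zero]
    exact Or.inl (Z9b h1 hx)
  by_cases h1 : (p : ℤ) ∣ α - β
  · have h2 : Tame p J 1 1 := by
      refine h.scale ha ?_ ?_
      · rw [mul_one, sub_self]
        exact dvd_zero _
      · rw [mul_one, ← neg_sub]
        exact (dvd_neg).2 h1
    exact Or.inl ((Cn_anti (by omega)).trans (GenM h2))
  by_cases h2 : (p : ℤ) ∣ α + β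
  · have h3 : Tame p J 1 (-1) := by
      refine h.scale ha ?_ ?_
      · rw [mul_one, sub_self]
        exact dvd_zero _
      · rw [mul_neg, mul_one, sub_neg_eq_add, add_comm]
        exact h2
    obtain ⟨h4, h6, h7⟩ := GenO h3 hg
    obtain ⟨h8, h9⟩ := kap_of h3.toBas h6 h7
    have h10 := h9 1 le_rfl (by omega)
    have h11 := sb_mem h3.isT (φ := fun i => if i = 2 then X 0 else X i) (by
      intro i
      split_ifs
      · exact X_mem 0
      · exact X_mem i) h10
    have h12 : kap 1 = cm 0 1 := by
      unfold kap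
      simp
    have h13 : p + 1 - 2 * 1 = p - 1 := by omega
    rw [h12, h13, map_mul, map_pow, sb_X] at h11
    unfold cm at h11
    rw [map_sub, map_mul, map_mul, sb_X, sb_X] at h11
    have h14 : cm 0 1 * X 0 ^ (p - 1) ∈ J := h11
    exact Or.inr ⟨h4, h8, h14⟩
  · have h3 : ¬ (p : ℤ) ∣ α ^ 2 - β ^ 2 := by
      intro h4
      rw [sq_sub_sq] at h4
      rcases (Nat.prime_iff_prime_int.1 h.pp).dvd_or_dvd h4 with h4 | h4
      · exact h2 h4
      · exact h1 h4
    exact Or.inl ((Cn_anti (by omega)).trans (GenG h ha hb h3))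

/-- the same for the type `(1, 0)`, without `Grs` -/
theorem alt_of_Z {p : ℕ} {J : Submodule ℤ P} (h : Tame p J 1 0) (hx : X 0 ^ p ∈ J) : Cn (p + 1) ≤ J := by
  exact Z9b h hx

end ADC
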