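import Pool.Agent.ADC.TOpW
import Pool.Agent.ADC.Cnc

/-!
# ADC-Sh

The shift lemma.
-/

namespace ADC

open AD ADN

private theorem sb_word (w : ℕ → List ℕ) (z : List ℕ) :
    sb (fun i => mon (w i)) (mon z) = mon (z.flatMap w) := by
  rw [sb_mon]
  induction z with
  | nil => rw [List.map_nil, List.prod_nil, List.flatMap_nil, mon_nil]
  | cons a z ih => rw [List.map_cons, List.prod_cons, ih, List.flatMap_cons, mon_append]

private theorem len_word {p d s : ℕ} (w : ℕ → List ℕ) (hw : ∀ i, w i ≠ [])
    {z : List ℕ} (hz : qw p d z) (hs : d + s ≤ z.length) :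
    (∑ i ∈ Finset.range d, (w i).length) + s ≤ (z.flatMap w).length := by
  classical
  obtain ⟨h1, h2⟩ := hz
  have hc : ∀ i < d, 1 ≤ z.count i := by
    intro i hi
    rcases Nat.eq_zero_or_pos (z.count i) with h | h
    · have h3 := h2 i hi
      rw [h, Nat.zero_mod] at h3
      omega
    · exact h
  have hfin : z.toFinset = Finset.range d := by
    ext i
    rw [List.mem_toFinset, Finset.mem_range]
    constructor
    · exact h1 i
    · intro hi
      exact List.count_pos_iff.1 (hc i hi)
  have e1 : (z.flatMap w).length = ∑ i ∈ Finset.range d, z.count i * (w i).length := by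
    rw [List.length_flatMap, Finset.sum_list_map_count, hfin]
    exact Finset.sum_congr rfl fun i _ => smul_eq_mul _ _
  have e2 : z.length = ∑ i ∈ Finset.range d, z.count i := by
    have h3 := Finset.sum_list_map_count z fun _ => 1
    rw [hfin, List.map_const', List.sum_replicate, smul_eq_mul, mul_one] at h3
    rw [h3]
    exact Finset.sum_congr rfl fun i _ => by rw [smul_eq_mul, mul_one]
  have h4 : ∀ i ∈ Finset.range d, z.count i + (w i).length ≤ z.count i * (w i).length + 1 := by
    intro i hi
    have h5 := hc i (Finset.mem_range.1 hi)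
    have h6 : 1 ≤ (w i).length := List.length_pos_iff.2 (hw i)
    obtain ⟨c, hc'⟩ : ∃ c, z.count i = c + 1 := ⟨z.count i - 1, by omega⟩
    obtain ⟨l, hl⟩ : ∃ l, (w i).length = l + 1 := ⟨(w i).length - 1, by omega⟩
    rw [hc', hl]
    nlinarith [Nat.zero_le (c * l)]
  have h5 := Finset.sum_le_sum h4
  rw [Finset.sum_add_distrib, Finset.sum_add_distrib, Finset.sum_const, Finset.card_range,
    smul_eq_mul, mul_one, ← e1, ← e2] at h5
  omega

private theorem sub_word (u v : List ℕ) (i j : ℕ) :
    mon u * cm i j * mon v = mon (u ++ i :: j :: v) - mon (u ++ j :: i :: v) := by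
  unfold cm
  rw [mon_append, mon_append, mon_cons, mon_cons, mon_cons, mon_cons, mul_sub, sub_mul]
  simp only [mul_assoc]

private theorem sb_span {p d s : ℕ} (w : ℕ → List ℕ) (hw : ∀ i, w i ≠ []) {x : P}
    (hx : x ∈ Submodule.span ℤ {f | ∃ (u v : List ℕ) (i j : ℕ), d + s ≤ u.length + v.length + 2 ∧
      qw p d (u ++ i :: j :: v) ∧ f = mon u * cm i j * mon v}) :
    sb (fun i => mon (w i)) x ∈ Cn ((∑ i ∈ Finset.range d, (w i).length) + s) := by
  induction hx using Submodule.span_induction with
  | mem x hx =>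
    obtain ⟨u, v, i, j, h1, h2, rfl⟩ := hx
    rw [sub_word, map_sub, sb_word, sb_word]
    refine Cn_anti (len_word w hw h2 ?_) (perm_Cn ?_)
    · rw [List.length_append, List.length_cons, List.length_cons]
      omega
    · exact (List.Perm.append_left u (List.Perm.swap j i v)).flatMap_right w
  | zero => rw [map_zero]; exact Submodule.zero_mem _
  | add x y _ _ hx hy => rw [map_add]; exact Submodule.add_mem _ hx hy
  | smul c x _ hx => rw [map_zsmul]; exact Submodule.smul_mem _ _ hx

theorem shift {p : ℕ} {J : Submodule ℤ P} (hJ : Bas p J) {d s : ℕ} {g : P} (hg : g ∈ Ml d)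
    (h : g ∈ J ⊔ Cn (d + s)) (w : ℕ → List ℕ) (hw : ∀ i, w i ≠ []) (u v : List ℕ) :
    mon u * sb (fun i => mon (w i)) g * mon v ∈
      J ⊔ Cn (u.length + (∑ i ∈ Finset.range d, (w i).length) + v.length + s) := by
  have h5 := hJ.five
  have hE : TOp p (wp (qw p d)) := TOp_qw hJ.pp (by omega) d
  have hEg : wp (qw p d) g = g := Q_iff.1 (Ml_le_Q (by omega) hg)
  obtain ⟨j, hj, c, hc, hjc⟩ := Submodule.mem_sup.1 h
  have h1 : wp (qw p d) j ∈ J := hE J hJ.isT hJ.mul.sq j hj
  have h2 := wp_Cn (φ := qw p d) (fun _ _ huv => qw_perm huv) hc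
  have h3 := sb_span w hw h2
  have h4 : sb (fun i => mon (w i)) (wp (qw p d) j) ∈ J :=
    sb_mem hJ.isT (fun i => mon_mem (hw i)) h1
  have e : mon u * sb (fun i => mon (w i)) g * mon v =
      mon u * sb (fun i => mon (w i)) (wp (qw p d) j) * mon v +
        mon u * sb (fun i => mon (w i)) (wp (qw p d) c) * mon v := by
    rw [← add_mul, ← mul_add, ← map_add, ← map_add, hjc, hEg]
  rw [e]
  refine Submodule.add_mem_sup (IsT.lm hJ.isT _ _ h4) ?_
  exact Cn_anti (by omega) (Cn_mono_right v (Cn_mono_left u h3))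

end ADC
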