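import Pool.Agent.ADC.Bas
import Pool.Agent.ADA.Pre

/-!
# ADC-TKb

`TK n K`, the largest T-ideal that contains the words of length `> n` and whose multilinear polynomials of degree `n` are
in `K`.
-/

namespace ADC

open AD ADN

/-- additive subgroups -/
def AddS (K : Set P) : Prop := (0 : P) ∈ K ∧ (∀ f ∈ K, ∀ g ∈ K, f + g ∈ K) ∧ ∀ f ∈ K, -f ∈ K

/-! ### operators on all T-ideals -/

private def TO (Φ : P →ₗ[ℤ] P) : Prop := ∀ D, IsT D → ∀ f ∈ D, Φ f ∈ D

private theorem tk_kil (A : ℕ → Prop) :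
    wp (fun w => ∀ i ∈ w, ¬ A i) = tl (sb (fun j => open Classical in if A j then 0 else X j)) := by
  classical
  ext f
  refine ind_mon (C := fun f => wp (fun w => ∀ i ∈ w, ¬ A i) f =
    tl (sb (fun j => if A j then 0 else X j)) f) (by simp) ?_ ?_ ?_ f
  · intro f g hf hg; rw [map_add, map_add, hf, hg]
  · intro c f hf; rw [map_smul, map_smul, hf]
  · intro w
    rw [tl_apply, sb_mon]
    induction w with
    | nil =>
      rw [wp_pos (by simp), mon_nil]
      simp
    | cons a w ih =>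
      rw [List.map_cons, List.prod_cons, ← ih]
      by_cases ha : A a
      · rw [if_pos ha, zero_mul, wp_neg (fun h => h a (by simp) ha)]
      · rw [if_neg ha]
        by_cases h : ∀ i ∈ w, ¬ A i
        · have h1 : ∀ i ∈ a :: w, ¬ A i := by
            intro i hi
            rcases List.mem_cons.1 hi with h' | h'
            · rw [h']; exact ha
            · exact h i h'
          rw [wp_pos (φ := fun w => ∀ i ∈ w, ¬ A i) (w := w) h,
            wp_pos (φ := fun w => ∀ i ∈ w, ¬ A i) (w := a :: w) h1, mon_cons]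
        · have h1 : ¬ ∀ i ∈ a :: w, ¬ A i := fun h' => h fun i hi => h' i (List.mem_cons_of_mem _ hi)
          rw [wp_neg (φ := fun w => ∀ i ∈ w, ¬ A i) (w := w) h,
            wp_neg (φ := fun w => ∀ i ∈ w, ¬ A i) (w := a :: w) h1, mul_zero]

private theorem TO_kil (A : ℕ → Prop) : TO (wp (fun w => ∀ i ∈ w, ¬ A i)) := by
  rw [tk_kil]
  intro D hD f hf
  rw [tl_apply]
  refine sb_mem hD (fun i => ?_) hf
  by_cases h : A i
  · rw [if_pos h]
    exact Submodule.zero_mem _
  · rw [if_neg h]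
    exact X_mem i

private theorem TO_mem (i : ℕ) : TO (wp (fun w => i ∈ w)) := by
  have h := TO_kil (fun j => j = i)
  rw [wp_congr (ψ := fun w => i ∉ w) (fun w => ⟨fun h hi => h i hi rfl,
    fun h j hj (e : j = i) => h (e ▸ hj)⟩)] at h
  intro D hD f hf
  have h1 : wp (fun w => i ∈ w) f = f - wp (fun w => i ∉ w) f := by
    rw [eq_sub_iff_add_eq]
    exact wp_add_not _ f
  rw [h1]
  exact D.sub_mem hf (h D hD f hf)

private theorem TO_and {φ ψ : List ℕ → Prop} (h : TO (wp φ)) (h' : TO (wp ψ)) :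
    TO (wp (fun w => φ w ∧ ψ w)) := by
  intro D hD f hf
  rw [← wp_wp]
  exact h D hD _ (h' D hD _ hf)

private theorem TO_all (n : ℕ) : TO (wp (fun w => ∀ i < n, i ∈ w)) := by
  induction n with
  | zero =>
    intro D hD f hf
    have h1 : wp (fun w : List ℕ => ∀ i < 0, i ∈ w) f = f := by
      refine ind_mon (C := fun f => wp (fun w : List ℕ => ∀ i < 0, i ∈ w) f = f) (by simp) ?_ ?_ ?_ f
      · intro f g hf hg; rw [map_add, hf, hg]
      · intro c f hf; rw [map_smul, hf]
      · intro w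
        rw [wp_pos (fun i hi => absurd hi (Nat.not_lt_zero i))]
    rw [h1]
    exact hf
  | succ n ih =>
    have h1 := TO_and ih (TO_mem n)
    rwa [wp_congr (ψ := fun w => ∀ i < n + 1, i ∈ w) (fun w => ⟨fun h i hi => by
      rcases Nat.lt_succ_iff_lt_or_eq.1 hi with h' | h'
      · exact h.1 i h'
      · rw [h']; exact h.2, fun h => ⟨fun i hi => h i (Nat.lt_succ_of_lt hi), h n (Nat.lt_succ_self n)⟩⟩)] at h1

/-- exactly the letters `0, ..., n - 1` -/
private def fu (n : ℕ) (w : List ℕ) : Prop := (∀ i ∈ w, i < n) ∧ ∀ i < n, i ∈ w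

private theorem TO_fu (n : ℕ) : TO (wp (fu n)) := by
  have h := TO_kil (fun j => n ≤ j)
  rw [wp_congr (ψ := fun w => ∀ i ∈ w, i < n) (fun w => ⟨fun h i hi => not_le.1 (h i hi),
    fun h i hi => not_le.2 (h i hi)⟩)] at h
  exact TO_and h (TO_all n)

private theorem fu_cases {n : ℕ} {w : List ℕ} (h : fu n w) :
    w.Perm (List.range n) ∨ n + 1 ≤ w.length := by
  have h1 : (List.range n).Subperm w :=
    List.subperm_of_subset List.nodup_range (fun i hi => h.2 i (List.mem_range.1 hi))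
  by_cases h2 : w.length ≤ n
  · left
    exact (h1.perm_of_length_le (by rw [List.length_range]; exact h2)).symm
  · right
    omega

private theorem fu_perm {n : ℕ} {w : List ℕ} (h : w.Perm (List.range n)) : fu n w :=
  ⟨fun _ hi => List.mem_range.1 (h.mem_iff.1 hi), fun _ hi => h.mem_iff.2 (List.mem_range.2 hi)⟩

private theorem fu_dec (n : ℕ) (f : P) : ∃ m ∈ Ml n, ∃ r ∈ Fge (n + 1), m + r = wp (fu n) f := by
  rw [← Submodule.mem_sup]
  refine (Submodule.span_le.2 ?_ : Submodule.span ℤ {f | ∃ w, fu n w ∧ f = mon w} ≤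
    Ml n ⊔ Fge (n + 1)) (wp_mem (fu n) f)
  rintro g ⟨w, hw, rfl⟩
  rcases fu_cases hw with h | h
  · exact Submodule.mem_sup_left (Ml_mon h)
  · exact Submodule.mem_sup_right (Submodule.subset_span ⟨w, h, rfl⟩)

private theorem fu_Ml {n : ℕ} {f : P} (hf : f ∈ Ml n) : wp (fu n) f = f := by
  refine wp_id ((Submodule.span_mono ?_ : Ml n ≤ _) hf)
  rintro g ⟨w, hw, rfl⟩
  exact ⟨w, fu_perm hw, rfl⟩

theorem Fge_inf_Ml {n : ℕ} {g : P} (h1 : g ∈ Fge (n + 1)) (h2 : g ∈ Ml n) : g = 0 := by
  have e1 : wp (fun w => w.length = n) g = g := by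
    refine wp_id ((Submodule.span_mono ?_ : Ml n ≤ _) h2)
    rintro g ⟨w, hw, rfl⟩
    exact ⟨w, by rw [hw.length_eq, List.length_range], rfl⟩
  have e2 : wp (fun w => w.length = n) g = 0 := by
    unfold Fge at h1
    clear e1 h2
    induction h1 using Submodule.span_induction with
    | mem x hx =>
      obtain ⟨w, hw, rfl⟩ := hx
      exact wp_neg (by omega)
    | zero => rw [map_zero]
    | add x y _ _ hx hy => rw [map_add, hx, hy, add_zero]
    | smul c x _ hx => rw [map_smul, hx, smul_zero]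
  rw [← e1, e2]

private def tkS (n : ℕ) (K : Set P) : Set (Submodule ℤ P) :=
  {J | IsT J ∧ Fge (n + 1) ≤ J ∧ ∀ g ∈ J, g ∈ Ml n → g ∈ K}

private theorem tk_part {n : ℕ} {K : Set P} {J : Submodule ℤ P} (hJ : J ∈ tkS n K) {g : P}
    (hg : g ∈ J) : ∃ m ∈ Ml n, m ∈ K ∧ ∃ r ∈ Fge (n + 1), m + r = wp (fu n) g := by
  obtain ⟨m, hm, r, hr, e⟩ := fu_dec n g
  refine ⟨m, hm, hJ.2.2 m ?_ hm, r, hr, e⟩
  have h1 : m = wp (fu n) g - r := by rw [← e]; abel
  rw [h1]
  exact J.sub_mem (TO_fu n J hJ.1 g hg) (hJ.2.1 hr)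

private theorem tk_sup {n : ℕ} {K : Set P} (hK : AddS K) {J J' : Submodule ℤ P}
    (hJ : J ∈ tkS n K) (hJ' : J' ∈ tkS n K) : J ⊔ J' ∈ tkS n K := by
  refine ⟨isT_sup hJ.1 hJ'.1, hJ.2.1.trans le_sup_left, ?_⟩
  intro g hg hgM
  obtain ⟨g1, hg1, g2, hg2, rfl⟩ := Submodule.mem_sup.1 hg
  obtain ⟨m1, hm1, hk1, r1, hr1, e1⟩ := tk_part hJ hg1
  obtain ⟨m2, hm2, hk2, r2, hr2, e2⟩ := tk_part hJ' hg2
  have h1 : g1 + g2 = (m1 + r1) + (m2 + r2) := by
    rw [e1, e2, ← map_add, fu_Ml hgM]
  have h2 : g1 + g2 - (m1 + m2) = r1 + r2 := by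
    rw [h1]
    abel
  have h3 : g1 + g2 - (m1 + m2) = 0 := by
    refine Fge_inf_Ml (n := n) ?_ ?_
    · rw [h2]
      exact Submodule.add_mem _ hr1 hr2
    · exact Submodule.sub_mem _ hgM (Submodule.add_mem _ hm1 hm2)
  rw [sub_eq_zero.1 h3]
  exact hK.2.1 _ hk1 _ hk2

private theorem tk_Fge {n : ℕ} {K : Set P} (hK : AddS K) : Fge (n + 1) ∈ tkS n K :=
  ⟨isT_Fge (n + 1) (Nat.succ_pos n), le_rfl, fun g hg hgM => by
    rw [Fge_inf_Ml hg hgM]
    exact hK.1⟩

private theorem tk_key {n : ℕ} {K : Set P} (hK : AddS K) (f : P) :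
    f ∈ TK n K ↔ ∃ J ∈ tkS n K, f ∈ J := by
  have h : TK n K = sSup (tkS n K) := rfl
  rw [h]
  refine Submodule.mem_sSup_of_directed ⟨_, tk_Fge hK⟩ ?_
  intro J hJ J' hJ'
  exact ⟨J ⊔ J', tk_sup hK hJ hJ', le_sup_left, le_sup_right⟩

theorem TK_isT {n : ℕ} (hn : 1 ≤ n) {K : Set P} (hK : AddS K) : IsT (TK n K) := by
  have _ := hn
  have key := tk_key (n := n) hK
  refine ⟨?_, ?_, ?_, ?_⟩
  · intro f hf
    obtain ⟨y, hy, hfy⟩ := (key f).1 hf
    exact hy.1.le hfy
  · intro f hf g
    obtain ⟨y, hy, hfy⟩ := (key f).1 hf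
    exact (key _).2 ⟨y, hy, hy.1.mul_right f hfy g⟩
  · intro f hf g
    obtain ⟨y, hy, hfy⟩ := (key f).1 hf
    exact (key _).2 ⟨y, hy, hy.1.mul_left f hfy g⟩
  · intro φ hφ f hf
    obtain ⟨y, hy, hfy⟩ := (key f).1 hf
    exact (key _).2 ⟨y, hy, hy.1.subst φ hφ f hfy⟩

theorem Fge_le_TK {n : ℕ} (hn : 1 ≤ n) {K : Set P} (hK : AddS K) : Fge (n + 1) ≤ TK n K := by
  have _ := hn
  intro f hf
  exact (tk_key hK f).2 ⟨_, tk_Fge hK, hf⟩

theorem TK_sub {n : ℕ} (hn : 1 ≤ n) {K : Set P} (hK : AddS K) {g : P} (h1 : g ∈ TK n K) (h2 : g ∈ Ml n) :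
    g ∈ K := by
  have _ := hn
  obtain ⟨J, hJ, hg⟩ := (tk_key hK g).1 h1
  exact hJ.2.2 g hg h2

theorem le_TK {n : ℕ} {K : Set P} {J : Submodule ℤ P} (hJ : IsT J) (hF : Fge (n + 1) ≤ J)
    (h : ∀ g ∈ J, g ∈ Ml n → g ∈ K) : J ≤ TK n K :=
  le_sSup ⟨hJ, hF, h⟩

/-! ### products and lengths -/

private theorem tk_mul {a b : ℕ} {f g : P} (hf : f ∈ Fge a) (hg : g ∈ Fge b) : f * g ∈ Fge (a + b) := by
  induction hf using Submodule.span_induction with
  | mem f hf =>
    obtain ⟨u, hu, rfl⟩ := hf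
    induction hg using Submodule.span_induction with
    | mem g hg =>
      obtain ⟨v, hv, rfl⟩ := hg
      rw [← mon_append]
      exact Submodule.subset_span ⟨_, by rw [List.length_append]; omega, rfl⟩
    | zero => rw [mul_zero]; exact Submodule.zero_mem _
    | add x y _ _ hx hy => rw [mul_add]; exact Submodule.add_mem _ hx hy
    | smul c x _ hx => rw [mul_smul_comm]; exact Submodule.smul_mem _ _ hx
  | zero => rw [zero_mul]; exact Submodule.zero_mem _
  | add x y _ _ hx hy => rw [add_mul]; exact Submodule.add_mem _ hx hy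
  | smul c x _ hx => rw [smul_mul_assoc]; exact Submodule.smul_mem _ _ hx

private theorem tk_Pp {f : P} (hf : f ∈ Pp) : f ∈ Fge 1 := by
  obtain ⟨n, hn⟩ := exists_mem_Pn hf
  refine (Submodule.span_mono (R := ℤ) ?_ : Pn n ≤ Fge 1) hn
  rintro g ⟨w, hw, _, rfl⟩
  exact ⟨w, List.length_pos_of_ne_nil hw, rfl⟩

private theorem tk_prod {θ : ℕ → P} (hθ : ∀ i, θ i ∈ Pp) (w : List ℕ) :
    (w.map θ).prod ∈ Fge w.length := by
  induction w with
  | nil =>
    rw [List.map_nil, List.prod_nil, ← mon_nil]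
    exact Submodule.subset_span ⟨[], le_rfl, rfl⟩
  | cons a w ih =>
    rw [List.map_cons, List.prod_cons, List.length_cons, add_comm]
    exact tk_mul (tk_Pp (hθ a)) ih

/-- decomposition of a polynomial into its constant term and the rest -/
private theorem tk_const (g : P) : ∃ (c : ℤ) (g' : P), g' ∈ Pp ∧ g = c • (1 : P) + g' := by
  refine ⟨aug g, g - (aug g) • (1 : P), ?_, by abel⟩
  rw [mem_Pp, map_sub, map_zsmul, map_one, smul_eq_mul, mul_one, sub_self]

/-! ### multilinearity -/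

private theorem tk_split {n k : ℕ} (hk : k < n) {w : List ℕ} (h : w.Perm (List.range n)) :
    ∃ u v : List ℕ, w = u ++ k :: v ∧ k ∉ u ∧ k ∉ v ∧ u.length + 1 + v.length = n := by
  obtain ⟨u, v, e⟩ := List.append_of_mem (h.mem_iff.2 (List.mem_range.2 hk))
  have hnd : w.Nodup := h.nodup_iff.2 List.nodup_range
  rw [e, List.nodup_append] at hnd
  obtain ⟨-, h2, h3⟩ := hnd
  refine ⟨u, v, e, fun hu => ?_, (List.nodup_cons.1 h2).1, ?_⟩
  · exact h3 k hu k List.mem_cons_self rfl
  · have h4 := h.length_eq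
    rw [e, List.length_append, List.length_cons, List.length_range] at h4
    omega

private theorem tk_upd {θ : ℕ → P} {k : ℕ} {g : P} {u v : List ℕ} (hu : k ∉ u) (hv : k ∉ v) :
    ((u ++ k :: v).map (Function.update θ k g)).prod = (u.map θ).prod * g * (v.map θ).prod := by
  have h1 : ∀ u : List ℕ, k ∉ u → u.map (Function.update θ k g) = u.map θ := by
    intro u hu
    refine List.map_congr_left fun a ha => ?_
    rw [Function.update_of_ne]
    rintro rfl
    exact hu ha
  rw [List.map_append, List.map_cons, List.prod_append, List.prod_cons, h1 u hu, h1 v hv,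
    Function.update_self, mul_assoc]

private theorem tk_add {n k : ℕ} (hk : k < n) (θ : ℕ → P) {f : P} (hf : f ∈ Ml n) (g g' : P) :
    sb (Function.update θ k (g + g')) f = sb (Function.update θ k g) f +
      sb (Function.update θ k g') f := by
  refine Ml_ind (C := fun f => sb (Function.update θ k (g + g')) f = sb (Function.update θ k g) f +
      sb (Function.update θ k g') f) ?_ ?_ ?_ ?_ hf
  · simp
  · intro f1 f2 h1 h2
    rw [map_add, map_add, map_add, h1, h2]
    abel
  · intro c f1 h1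
    rw [map_zsmul, map_zsmul, map_zsmul, h1, smul_add]
  · intro w hw
    obtain ⟨u, v, rfl, hu, hv, -⟩ := tk_split hk hw
    rw [sb_mon, sb_mon, sb_mon, tk_upd hu hv, tk_upd hu hv, tk_upd hu hv, mul_add, add_mul]

private theorem tk_smul {n k : ℕ} (hk : k < n) (θ : ℕ → P) {f : P} (hf : f ∈ Ml n) (c : ℤ) (g : P) :
    sb (Function.update θ k (c • g)) f = c • sb (Function.update θ k g) f := by
  refine Ml_ind (C := fun f => sb (Function.update θ k (c • g)) f =
      c • sb (Function.update θ k g) f) ?_ ?_ ?_ ?_ hf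
  · simp
  · intro f1 f2 h1 h2
    rw [map_add, map_add, h1, h2, smul_add]
  · intro d f1 h1
    rw [map_zsmul, map_zsmul, h1, smul_comm]
  · intro w hw
    obtain ⟨u, v, rfl, hu, hv, -⟩ := tk_split hk hw
    rw [sb_mon, sb_mon, tk_upd hu hv, tk_upd hu hv, mul_smul_comm, smul_mul_assoc]

private theorem tk_zero {n k : ℕ} (hk : k < n) (θ : ℕ → P) {f : P} (hf : f ∈ Ml n) :
    sb (Function.update θ k 0) f = 0 := by
  have h := tk_smul hk θ hf 0 0
  rwa [zero_smul, zero_smul] at h

private theorem tk_long {n k : ℕ} (hk : k < n) {θ : ℕ → P} (hθ : ∀ i, θ i ∈ Pp) {f : P}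
    (hf : f ∈ Ml n) {w' : List ℕ} (hw' : 2 ≤ w'.length) :
    sb (Function.update θ k (mon w')) f ∈ Fge (n + 1) := by
  refine Ml_ind (C := fun f => sb (Function.update θ k (mon w')) f ∈ Fge (n + 1)) ?_ ?_ ?_ ?_ hf
  · rw [map_zero]
    exact Submodule.zero_mem _
  · intro f1 f2 h1 h2
    rw [map_add]
    exact Submodule.add_mem _ h1 h2
  · intro d f1 h1
    rw [map_zsmul]
    exact Submodule.smul_mem _ _ h1
  · intro w hw
    obtain ⟨u, v, rfl, hu, hv, hl⟩ := tk_split hk hw
    rw [sb_mon, tk_upd hu hv]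
    have h1 : mon w' ∈ Fge 2 := Submodule.subset_span ⟨w', hw', rfl⟩
    have h2 := tk_mul (tk_mul (tk_prod hθ u) h1) (tk_prod hθ v)
    exact Fge_anti (by omega) h2

/-- substitutions of variables -/
private noncomputable def tkV (f : P) : Submodule ℤ P :=
  Submodule.span ℤ {g | ∃ τ : ℕ → ℕ, g = sb (fun i => X (τ i)) f}

private theorem tk_exp {n : ℕ} {f : P} (hf : f ∈ Ml n) : ∀ k, k ≤ n → ∀ θ : ℕ → P,
    (∀ i, θ i ∈ Pp) → (∀ i, k ≤ i → i < n → ∃ j, θ i = X j) → sb θ f ∈ Fge (n + 1) ⊔ tkV f := by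
  intro k
  induction k with
  | zero =>
    intro _ θ hθ h
    choose! τ hτ using h
    have h1 : sb θ f = sb (fun i => X (τ i)) f := by
      refine Ml_ind (C := fun f => sb θ f = sb (fun i => X (τ i)) f) ?_ ?_ ?_ ?_ hf
      · simp
      · intro f1 f2 h1 h2
        rw [map_add, map_add, h1, h2]
      · intro d f1 h1
        rw [map_zsmul, map_zsmul, h1]
      · intro w hw
        rw [sb_mon, sb_mon]
        congr 1
        refine List.map_congr_left fun a ha => ?_
        exact hτ a (Nat.zero_le _) (List.mem_range.1 (hw.mem_iff.1 ha))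
    rw [h1]
    exact Submodule.mem_sup_right (Submodule.subset_span ⟨τ, rfl⟩)
  | succ k ih =>
    intro hkn θ hθ h
    have hk : k < n := hkn
    have e1 : Function.update θ k (θ k) = θ := Function.update_eq_self k θ
    rw [← e1]
    obtain ⟨m, hm⟩ := exists_mem_Pn (hθ k)
    generalize θ k = g at hm
    unfold Pn at hm
    induction hm using Submodule.span_induction with
    | mem x hx =>
      obtain ⟨w', hw', -, rfl⟩ := hx
      by_cases h2 : 2 ≤ w'.length
      · exact Submodule.mem_sup_left (tk_long hk hθ hf h2)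
      · have h3 : w'.length = 1 := by
          have := List.length_pos_of_ne_nil hw'
          omega
        obtain ⟨j, rfl⟩ := List.length_eq_one_iff.1 h3
        rw [mon_single]
        refine ih (by omega) _ ?_ ?_
        · intro i
          by_cases hi : i = k
          · rw [hi, Function.update_self]
            exact X_mem j
          · rw [Function.update_of_ne hi]
            exact hθ i
        · intro i hki hi
          by_cases hi' : i = k
          · exact ⟨j, by rw [hi', Function.update_self]⟩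
          · rw [Function.update_of_ne hi']
            exact h i (by omega) hi
    | zero =>
      rw [tk_zero hk θ hf]
      exact Submodule.zero_mem _
    | add x y _ _ hx hy =>
      rw [tk_add hk θ hf]
      exact Submodule.add_mem _ hx hy
    | smul c x _ hx =>
      rw [tk_smul hk θ hf]
      exact Submodule.smul_mem _ _ hx

private theorem tk_var_len {n : ℕ} {f : P} (hf : f ∈ Ml n) (τ : ℕ → ℕ) :
    sb (fun i => X (τ i)) f ∈ Fge n := by
  refine Ml_ind (C := fun f => sb (fun i => X (τ i)) f ∈ Fge n) ?_ ?_ ?_ ?_ hf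
  · rw [map_zero]
    exact Submodule.zero_mem _
  · intro f1 f2 h1 h2
    rw [map_add]
    exact Submodule.add_mem _ h1 h2
  · intro d f1 h1
    rw [map_zsmul]
    exact Submodule.smul_mem _ _ h1
  · intro w hw
    rw [sb_mon]
    have h1 := tk_prod (θ := fun i => X (τ i)) (fun i => X_mem (τ i)) w
    rwa [hw.length_eq, List.length_range] at h1

private theorem tkV_len {n : ℕ} {f : P} (hf : f ∈ Ml n) : tkV f ≤ Fge n := by
  refine Submodule.span_le.2 ?_
  rintro g ⟨τ, rfl⟩
  exact tk_var_len hf τ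

private theorem tkV_isT {n : ℕ} (hn : 1 ≤ n) {f : P} (hf : f ∈ Ml n) :
    IsT (Fge (n + 1) ⊔ tkV f) := by
  have hF := isT_Fge (n + 1) (Nat.succ_pos n)
  refine ⟨?_, ?_, ?_, ?_⟩
  · refine sup_le hF.le ((tkV_len hf).trans (isT_Fge n hn).le)
  · intro x hx g
    obtain ⟨y, hy, z, hz, rfl⟩ := Submodule.mem_sup.1 hx
    obtain ⟨c, g', hg', rfl⟩ := tk_const g
    rw [add_mul]
    refine Submodule.add_mem _ (Submodule.mem_sup_left (hF.mul_right y hy _)) ?_
    rw [mul_add, mul_smul_comm, mul_one]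
    refine Submodule.add_mem _ (Submodule.mem_sup_right (Submodule.smul_mem _ _ hz)) ?_
    exact Submodule.mem_sup_left (tk_mul (tkV_len hf hz) (tk_Pp hg'))
  · intro x hx g
    obtain ⟨y, hy, z, hz, rfl⟩ := Submodule.mem_sup.1 hx
    obtain ⟨c, g', hg', rfl⟩ := tk_const g
    rw [mul_add]
    refine Submodule.add_mem _ (Submodule.mem_sup_left (hF.mul_left y hy _)) ?_
    rw [add_mul, smul_mul_assoc, one_mul]
    refine Submodule.add_mem _ (Submodule.mem_sup_right (Submodule.smul_mem _ _ hz)) ?_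
    have h1 := tk_mul (tk_Pp hg') (tkV_len hf hz)
    rw [add_comm] at h1
    exact Submodule.mem_sup_left h1
  · intro φ hφ x hx
    obtain ⟨y, hy, z, hz, rfl⟩ := Submodule.mem_sup.1 hx
    rw [map_add]
    refine Submodule.add_mem _ (Submodule.mem_sup_left (hF.subst φ hφ y hy)) ?_
    clear hx
    unfold tkV at hz
    induction hz using Submodule.span_induction with
    | mem x hx =>
      obtain ⟨τ, rfl⟩ := hx
      have h1 : φ (sb (fun i => X (τ i)) f) = sb (fun i => φ (X (τ i))) f := by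
        have h2 : φ.comp (sb (fun i => X (τ i))) = sb (fun i => φ (X (τ i))) := by
          apply hom_ext_X
          intro i
          rw [AlgHom.comp_apply, sb_X, sb_X]
        exact DFunLike.congr_fun h2 f
      rw [h1]
      exact tk_exp hf n le_rfl _ (fun i => hφ (τ i)) (fun i hi hi' => absurd hi' (not_lt.2 hi))
    | zero => rw [map_zero]; exact Submodule.zero_mem _
    | add x y _ _ hx hy => rw [map_add]; exact Submodule.add_mem _ hx hy
    | smul c x _ hx => rw [map_zsmul]; exact Submodule.smul_mem _ _ hx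

private theorem tk_smul_mem {K : Set P} (hK : AddS K) (c : ℤ) {f : P} (hf : f ∈ K) : c • f ∈ K := by
  have h1 : ∀ m : ℕ, (m : ℤ) • f ∈ K := by
    intro m
    induction m with
    | zero => rw [Nat.cast_zero, zero_smul]; exact hK.1
    | succ m ih =>
      rw [Nat.cast_succ, add_smul, one_smul]
      exact hK.2.1 _ ih _ hf
  obtain ⟨m, rfl | rfl⟩ := Int.eq_nat_or_neg c
  · exact h1 m
  · rw [neg_smul]
    exact hK.2.2 _ (h1 m)

/-- the full part of a substitution of variables -/
private theorem tk_full {n : ℕ} {K : Set P} (hK : AddS K) {f : P} (hf : f ∈ Ml n)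
    (h : ∀ σ : Equiv.Perm (Fin n), rn n σ f ∈ K) (τ : ℕ → ℕ) :
    wp (fu n) (sb (fun i => X (τ i)) f) ∈ Ml n ∧ wp (fu n) (sb (fun i => X (τ i)) f) ∈ K := by
  have hm : ∀ w : List ℕ, sb (fun i => X (τ i)) (mon w) = mon (w.map τ) := by
    intro w
    rw [sb_mon]
    unfold mon
    rw [List.map_map]
    rfl
  by_cases hp : ((List.range n).map τ).Perm (List.range n)
  · have hlt : ∀ i : Fin n, τ i < n := fun i =>
      List.mem_range.1 (hp.mem_iff.1 (List.mem_map.2 ⟨i, List.mem_range.2 i.2, rfl⟩))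
    have hinj : Function.Injective (fun i : Fin n => (⟨τ i, hlt i⟩ : Fin n)) := by
      intro i j hij
      have h1 : τ i = τ j := congrArg Fin.val hij
      have h2 := List.inj_on_of_nodup_map (hp.nodup_iff.2 List.nodup_range)
      exact Fin.ext (h2 (List.mem_range.2 i.2) (List.mem_range.2 j.2) h1)
    obtain ⟨σ, hσ⟩ : ∃ σ : Equiv.Perm (Fin n), ∀ i, (σ i : ℕ) = τ i :=
      ⟨Equiv.ofBijective _ (Finite.injective_iff_bijective.1 hinj), fun i => rfl⟩
    have h1 : sb (fun i => X (τ i)) f = rn n σ f := by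
      refine Ml_ind (C := fun f => sb (fun i => X (τ i)) f = rn n σ f) ?_ ?_ ?_ ?_ hf
      · simp
      · intro f1 f2 h1 h2
        rw [map_add, map_add, h1, h2]
      · intro d f1 h1
        rw [map_zsmul, map_zsmul, h1]
      · intro w hw
        rw [hm, rn_mon]
        congr 1
        refine List.map_congr_left fun a ha => ?_
        have ha' : a < n := List.mem_range.1 (hw.mem_iff.1 ha)
        unfold pN
        rw [dif_pos ha', hσ]
    rw [h1, fu_Ml (Ml_rn σ hf)]
    exact ⟨Ml_rn σ hf, h σ⟩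
  · have h1 : wp (fu n) (sb (fun i => X (τ i)) f) = 0 := by
      refine Ml_ind (C := fun f => wp (fu n) (sb (fun i => X (τ i)) f) = 0) ?_ ?_ ?_ ?_ hf
      · rw [map_zero, map_zero]
      · intro f1 f2 h1 h2
        rw [map_add, map_add, h1, h2, add_zero]
      · intro d f1 h1
        rw [map_zsmul, map_smul, h1, smul_zero]
      · intro w hw
        rw [hm]
        refine wp_neg fun hfu => ?_
        rcases fu_cases hfu with h2 | h2
        · exact hp (((hw.map τ).symm).trans h2)
        · rw [List.length_map, hw.length_eq, List.length_range] at h2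
          omega
    rw [h1]
    exact ⟨Submodule.zero_mem _, hK.1⟩

theorem TK_mem {n : ℕ} (hn : 1 ≤ n) {K : Set P} (hK : AddS K) {f : P} (hf : f ∈ Ml n)
    (h : ∀ σ : Equiv.Perm (Fin n), rn n σ f ∈ K) : f ∈ TK n K := by
  refine le_TK (J := Fge (n + 1) ⊔ tkV f) (tkV_isT hn hf) le_sup_left ?_ ?_
  · intro g hg hgM
    obtain ⟨y, hy, z, hz, rfl⟩ := Submodule.mem_sup.1 hg
    have h1 : wp (fu n) z ∈ Ml n ∧ wp (fu n) z ∈ K := by
      clear hg hgM
      unfold tkV at hz
      induction hz using Submodule.span_induction with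
      | mem x hx =>
        obtain ⟨τ, rfl⟩ := hx
        exact tk_full hK hf h τ
      | zero => rw [map_zero]; exact ⟨Submodule.zero_mem _, hK.1⟩
      | add x y _ _ hx hy =>
        rw [map_add]
        exact ⟨Submodule.add_mem _ hx.1 hy.1, hK.2.1 _ hx.2 _ hy.2⟩
      | smul c x _ hx =>
        rw [map_smul]
        exact ⟨Submodule.smul_mem _ _ hx.1, tk_smul_mem hK c hx.2⟩
    have h2 := fu_Ml hgM
    rw [map_add] at h2
    have h3 : wp (fu n) y ∈ Fge (n + 1) := TO_fu n _ (isT_Fge (n + 1) (Nat.succ_pos n)) y hy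
    have h4 : wp (fu n) y = y + z - wp (fu n) z := by
      rw [← h2]
      abel
    have h5 : y + z - wp (fu n) z = 0 := by
      refine Fge_inf_Ml (n := n) ?_ (Submodule.sub_mem _ hgM h1.1)
      rw [← h4]
      exact h3
    rw [sub_eq_zero.1 h5]
    exact h1.2
  · refine Submodule.mem_sup_right (Submodule.subset_span ⟨fun i => i, ?_⟩)
    have h1 : sb (fun i => X i) = AlgHom.id ℤ P := by
      apply hom_ext_X
      intro i
      rw [sb_X]
      rfl
    rw [h1]
    rfl

end ADC
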