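import Pool.Agent.ADC.TKb

/-!
# ADC-TKc

Description of `TK n K`: `f` is in it iff the multilinear part (the words which are permutations of `0, ..., n-1`) of all
consequences `u φ(f) v` is in `K`.  The first lemmas are copies of private lemmas of ADC.TKb.
-/

namespace ADC

open AD ADN

private def TO (Φ : P →ₗ[ℤ] P) : Prop := ∀ D, IsT D → ∀ f ∈ D, Φ f ∈ D

private theorem tk_kil (A : ℕ → Prop) :
    wp (fun w => ∀ i ∈ w, ¬ A i) = tl (sb (fun j => open Classical in if A j then 0 else X j)) := by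
  classical
  ext f
  refine ind_mon (C := fun f => wp (fun w => ∀ i ∈ w, ¬ A i) f =
    tl (sb (fun j => if A j then 0 else X j)) f) (by simp) ?_ ?_ ?_ f
  · intro f g hf hg; rw [map_add, map_add, hf, hg]
  · intro c f hf; rw [map_smul, map_smul, hf]
  · intro w
    rw [tl_apply, sb_mon]
    induction w with
    | nil =>
      rw [wp_pos (by simp), mon_nil]
      simp
    | cons a w ih =>
      rw [List.map_cons, List.prod_cons, ← ih]
      by_cases ha : A a
      · rw [if_pos ha, zero_mul, wp_neg (fun h => h a (by simp) ha)]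
      · rw [if_neg ha]
        by_cases h : ∀ i ∈ w, ¬ A i
        · have h1 : ∀ i ∈ a :: w, ¬ A i := by
            intro i hi
            rcases List.mem_cons.1 hi with h' | h'
            · rw [h']; exact ha
            · exact h i h'
          rw [wp_pos (φ := fun w => ∀ i ∈ w, ¬ A i) (w := w) h,
            wp_pos (φ := fun w => ∀ i ∈ w, ¬ A i) (w := a :: w) h1, mon_cons]
        · have h1 : ¬ ∀ i ∈ a :: w, ¬ A i := fun h' => h fun i hi => h' i (List.mem_cons_of_mem _ hi)
          rw [wp_neg (φ := fun w => ∀ i ∈ w, ¬ A i) (w := w) h,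
            wp_neg (φ := fun w => ∀ i ∈ w, ¬ A i) (w := a :: w) h1, mul_zero]

private theorem TO_kil (A : ℕ → Prop) : TO (wp (fun w => ∀ i ∈ w, ¬ A i)) := by
  rw [tk_kil]
  intro D hD f hf
  rw [tl_apply]
  refine sb_mem hD (fun i => ?_) hf
  by_cases h : A i
  · rw [if_pos h]
    exact Submodule.zero_mem _
  · rw [if_neg h]
    exact X_mem i

private theorem TO_mem (i : ℕ) : TO (wp (fun w => i ∈ w)) := by
  have h := TO_kil (fun j => j = i)
  rw [wp_congr (ψ := fun w => i ∉ w) (fun w => ⟨fun h hi => h i hi rfl,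
    fun h j hj (e : j = i) => h (e ▸ hj)⟩)] at h
  intro D hD f hf
  have h1 : wp (fun w => i ∈ w) f = f - wp (fun w => i ∉ w) f := by
    rw [eq_sub_iff_add_eq]
    exact wp_add_not _ f
  rw [h1]
  exact D.sub_mem hf (h D hD f hf)

private theorem TO_and {φ ψ : List ℕ → Prop} (h : TO (wp φ)) (h' : TO (wp ψ)) :
    TO (wp (fun w => φ w ∧ ψ w)) := by
  intro D hD f hf
  rw [← wp_wp]
  exact h D hD _ (h' D hD _ hf)

private theorem TO_all (n : ℕ) : TO (wp (fun w => ∀ i < n, i ∈ w)) := by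
  induction n with
  | zero =>
    intro D hD f hf
    have h1 : wp (fun w : List ℕ => ∀ i < 0, i ∈ w) f = f := by
      refine ind_mon (C := fun f => wp (fun w : List ℕ => ∀ i < 0, i ∈ w) f = f) (by simp) ?_ ?_ ?_ f
      · intro f g hf hg; rw [map_add, hf, hg]
      · intro c f hf; rw [map_smul, hf]
      · intro w
        rw [wp_pos (fun i hi => absurd hi (Nat.not_lt_zero i))]
    rw [h1]
    exact hf
  | succ n ih =>
    have h1 := TO_and ih (TO_mem n)
    rwa [wp_congr (ψ := fun w => ∀ i < n + 1, i ∈ w) (fun w => ⟨fun h i hi => by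
      rcases Nat.lt_succ_iff_lt_or_eq.1 hi with h' | h'
      · exact h.1 i h'
      · rw [h']; exact h.2, fun h => ⟨fun i hi => h i (Nat.lt_succ_of_lt hi), h n (Nat.lt_succ_self n)⟩⟩)] at h1

/-- exactly the letters `0, ..., n - 1` -/
private def fu (n : ℕ) (w : List ℕ) : Prop := (∀ i ∈ w, i < n) ∧ ∀ i < n, i ∈ w

private theorem TO_fu (n : ℕ) : TO (wp (fu n)) := by
  have h := TO_kil (fun j => n ≤ j)
  rw [wp_congr (ψ := fun w => ∀ i ∈ w, i < n) (fun w => ⟨fun h i hi => not_le.1 (h i hi),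
    fun h i hi => not_le.2 (h i hi)⟩)] at h
  exact TO_and h (TO_all n)

private theorem fu_cases {n : ℕ} {w : List ℕ} (h : fu n w) :
    w.Perm (List.range n) ∨ n + 1 ≤ w.length := by
  have h1 : (List.range n).Subperm w :=
    List.subperm_of_subset List.nodup_range (fun i hi => h.2 i (List.mem_range.1 hi))
  by_cases h2 : w.length ≤ n
  · left
    exact (h1.perm_of_length_le (by rw [List.length_range]; exact h2)).symm
  · right
    omega

private theorem fu_perm {n : ℕ} {w : List ℕ} (h : w.Perm (List.range n)) : fu n w :=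
  ⟨fun _ hi => List.mem_range.1 (h.mem_iff.1 hi), fun _ hi => h.mem_iff.2 (List.mem_range.2 hi)⟩

private theorem fu_dec (n : ℕ) (f : P) : ∃ m ∈ Ml n, ∃ r ∈ Fge (n + 1), m + r = wp (fu n) f := by
  rw [← Submodule.mem_sup]
  refine (Submodule.span_le.2 ?_ : Submodule.span ℤ {f | ∃ w, fu n w ∧ f = mon w} ≤
    Ml n ⊔ Fge (n + 1)) (wp_mem (fu n) f)
  rintro g ⟨w, hw, rfl⟩
  rcases fu_cases hw with h | h
  · exact Submodule.mem_sup_left (Ml_mon h)
  · exact Submodule.mem_sup_right (Submodule.subset_span ⟨w, h, rfl⟩)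

private theorem fu_Ml {n : ℕ} {f : P} (hf : f ∈ Ml n) : wp (fu n) f = f := by
  refine wp_id ((Submodule.span_mono ?_ : Ml n ≤ _) hf)
  rintro g ⟨w, hw, rfl⟩
  exact ⟨w, fu_perm hw, rfl⟩

private theorem smul_memK {K : Set P} (hK : AddS K) (c : ℤ) {f : P} (hf : f ∈ K) : c • f ∈ K := by
  have h1 : ∀ m : ℕ, (m : ℤ) • f ∈ K := by
    intro m
    induction m with
    | zero => rw [Nat.cast_zero, zero_smul]; exact hK.1
    | succ m ih =>
      rw [Nat.cast_succ, add_smul, one_smul]
      exact hK.2.1 _ ih _ hf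
  obtain ⟨m, rfl | rfl⟩ := Int.eq_nat_or_neg c
  · exact h1 m
  · rw [neg_smul]
    exact hK.2.2 _ (h1 m)

private theorem wp_Fge {n : ℕ} {f : P} (hf : f ∈ Fge (n + 1)) :
    wp (fun w => w.Perm (List.range n)) f = 0 := by
  unfold Fge at hf
  induction hf using Submodule.span_induction with
  | mem x hx =>
    obtain ⟨w, hw, rfl⟩ := hx
    refine wp_neg fun h => ?_
    have := h.length_eq
    rw [List.length_range] at this
    omega
  | zero => rw [map_zero]
  | add x y _ _ hx hy => rw [map_add, hx, hy, add_zero]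
  | smul c x _ hx => rw [map_smul, hx, smul_zero]

/-- the multilinear part of an element of a T-ideal that contains the long words -/
private theorem wp_ml {n : ℕ} {D : Submodule ℤ P} (hD : IsT D) (hF : Fge (n + 1) ≤ D) {g : P}
    (hg : g ∈ D) : wp (fun w => w.Perm (List.range n)) g ∈ D ∧
      wp (fun w => w.Perm (List.range n)) g ∈ Ml n := by
  obtain ⟨m, hm, r, hr, e⟩ := fu_dec n g
  have h1 : wp (fun w => w.Perm (List.range n)) g = m := by
    have h2 : wp (fun w => w.Perm (List.range n)) (wp (fu n) g) =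
        wp (fun w => w.Perm (List.range n)) g := by
      rw [wp_wp, wp_congr (ψ := fun w => w.Perm (List.range n))
        (fun w => ⟨fun h => h.1, fun h => ⟨h, fu_perm h⟩⟩)]
    rw [← h2, ← e, map_add, wp_Fge hr, add_zero]
    exact wp_id hm
  rw [h1]
  refine ⟨?_, hm⟩
  have h2 : m = wp (fu n) g - r := by rw [← e]; abel
  rw [h2]
  exact D.sub_mem (TO_fu n D hD g hg) (hF hr)

theorem TK_iff {n : ℕ} (hn : 1 ≤ n) {K : Set P} (hK : AddS K) {f : P} : f ∈ TK n K ↔ f ∈ Pp ∧
    ∀ φ : P →ₐ[ℤ] P, IsSubst φ → ∀ u v : P, wp (fun w => w.Perm (List.range n)) (u * φ f * v) ∈ K := by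
  have hT := TK_isT hn hK
  have hFT := isT_Fge (n + 1) (Nat.succ_pos n)
  constructor
  · intro hf
    refine ⟨hT.le hf, fun φ hφ u v => ?_⟩
    have h1 : u * φ f * v ∈ TK n K := IsT.lm hT u v (hT.subst φ hφ f hf)
    obtain ⟨h2, h3⟩ := wp_ml hT (Fge_le_TK hn hK) h1
    exact TK_sub hn hK h2 h3
  · intro hf
    obtain ⟨J, hJ⟩ : ∃ J : Submodule ℤ P, ∀ g, g ∈ J ↔ (g ∈ Pp ∧ ∀ φ : P →ₐ[ℤ] P, IsSubst φ →
        ∀ u v : P, wp (fun w => w.Perm (List.range n)) (u * φ g * v) ∈ K) :=
      ⟨{ carrier := {g | g ∈ Pp ∧ ∀ φ : P →ₐ[ℤ] P, IsSubst φ →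
            ∀ u v : P, wp (fun w => w.Perm (List.range n)) (u * φ g * v) ∈ K}
         add_mem' := by
          intro g g' hg hg'
          refine ⟨Pp.add_mem hg.1 hg'.1, fun φ hφ u v => ?_⟩
          rw [map_add, mul_add, add_mul, map_add]
          exact hK.2.1 _ (hg.2 φ hφ u v) _ (hg'.2 φ hφ u v)
         zero_mem' := by
          refine ⟨Pp.zero_mem, fun φ _ u v => ?_⟩
          rw [map_zero, mul_zero, zero_mul, map_zero]
          exact hK.1
         smul_mem' := by
          intro c g hg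
          refine ⟨Pp.smul_mem c hg.1, fun φ hφ u v => ?_⟩
          rw [map_zsmul, mul_smul_comm, smul_mul_assoc, map_smul]
          exact smul_memK hK c (hg.2 φ hφ u v) }, fun g => Iff.rfl⟩
    refine le_TK (J := J) ?_ ?_ ?_ ((hJ f).2 hf)
    · refine ⟨fun g hg => ((hJ g).1 hg).1, ?_, ?_, ?_⟩
      · intro g hg g'
        rw [hJ] at hg ⊢
        refine ⟨isT_Pp.mul_right g hg.1 g', fun φ hφ u v => ?_⟩
        have e : u * φ (g * g') * v = u * φ g * (φ g' * v) := by
          rw [map_mul]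
          simp only [mul_assoc]
        rw [e]
        exact hg.2 φ hφ _ _
      · intro g hg g'
        rw [hJ] at hg ⊢
        refine ⟨isT_Pp.mul_left g hg.1 g', fun φ hφ u v => ?_⟩
        have e : u * φ (g' * g) * v = (u * φ g') * φ g * v := by
          rw [map_mul]
          simp only [mul_assoc]
        rw [e]
        exact hg.2 φ hφ _ _
      · intro ψ hψ g hg
        rw [hJ] at hg ⊢
        refine ⟨isT_Pp.subst ψ hψ g hg.1, fun φ hφ u v => ?_⟩
        exact hg.2 (φ.comp ψ) (fun i => isT_Pp.subst φ hφ _ (hψ i)) u v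
    · intro g hg
      rw [hJ]
      refine ⟨hFT.le hg, fun φ hφ u v => ?_⟩
      rw [wp_Fge (IsT.lm hFT u v (hFT.subst φ hφ g hg))]
      exact hK.1
    · intro g hg hgM
      have h1 := ((hJ g).1 hg).2 (AlgHom.id ℤ P) (fun i => X_mem i) 1 1
      rw [one_mul, mul_one, AlgHom.id_apply, wp_id hgM] at h1
      exact h1

end ADC
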