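import Pool.Agent.ADC.TOpW
import Pool.Agent.ADC.Cnc

/-!
# ADC-Tm1

`x^p y z ∈ J ⊔ Cn (p+2)`, from `x^p ∈ J` or from `x^p y - x y^p ∈ J ⊔ Cn (p+1) ⊔ Fge (p+2)`.  Put `T = J ⊔ Cn (p+2)`, a
T-ideal with `p Pp ≤ T`, `Fge N ≤ T` for some `N`.  The first case is trivial.  Second case:

1. Multiply by `X 2` on the right: `x^p y z - x y^p z ∈ J ⊔ Cn (p+2) ⊔ Fge (p+3)`; substitute `y ↦ y z` in the
   hypothesis: `x^p y z - x (y z)^p ∈ J ⊔ Cn (p+2) ⊔ Fge (p+3)` [the substitution maps `Cn (p+1)` restricted to words containing the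
   letter `1`...; to avoid this discussion first replace the hypothesis `h ∈ J ⊔ Cn (p+1) ⊔ Fge (p+2)` by its projection
   `wp (qw p 2)` (`wp_Cn`): then all commutator words `u [x_i,x_j] v` of length `≥ p+1` have each of the letters `0, 1` and after
   `X 1 ↦ X 1 X 2` they have length `≥ p+2`; similarly the words of length `≥ p+2` get length `≥ p+3`].  As `x (yz)^p` has length
   `2p+1 ≥ p+3`: `x^p y z ∈ T ⊔ Fge (p+3)`.
2. Claim: every word `w` of length `L ≥ p+2` in which some letter occurs `≥ p` times is in `T`.  Downward induction on `L`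
   (for `L ≥ N` clear).  Modulo `Cn L ≤ T` words of length `L ≥ p+2` can be permuted (`perm_Cn`), so `w ≡ x^p y z u` where `x, y, z` are
   letters (not necessarily different) and `u` a word; it suffices to show `X 0 ^ p * X 1 * X 2 ∈ T ⊔ W`, where `W` is the
   span of the words of length `≥ p + 3` in the letters `0, 1, 2` in which one of these letters occurs `≥ p` times and each of
   them occurs: then substitute letters and multiply by `u`: `w ∈ T` + words of length `> L` with a letter occurring `≥ p` times, in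
   `T` by induction.  To show it apply `E = wp (qw p 3)` (T-operator for `T`, `TOp_qw`, `Mul.sq`) to
   `X 0^p X 1 X 2 ∈ T ⊔ Fge (p+3)` (step 1): `E` fixes the left side; `E (Fge (p+3))` is spanned by the words of length `≥ p+3`
   with letters `0, 1, 2`, each `≡ 1` modulo `p - 1` times; since `p + 3 > 3`, one of the counts is `≠ 1`, hence `≥ p`.
-/

namespace ADC

open AD ADN

private def tm1_e (w : List ℕ) : List ℕ := w.flatMap (fun i => if i = 1 then [1, 2] else [i])

private theorem tm1_e_len (w : List ℕ) : (tm1_e w).length = w.length + w.count 1 := by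
  unfold tm1_e
  induction w with
  | nil => simp
  | cons a w ih =>
    rw [List.flatMap_cons, List.length_append, ih, List.length_cons, List.count_cons]
    by_cases h : a = 1
    · simp [h]; omega
    · simp [h]; omega

private theorem tm1_e_perm {u v : List ℕ} (h : u.Perm v) : (tm1_e u).Perm (tm1_e v) := by
  unfold tm1_e
  exact h.flatMap_right _

private noncomputable def tm1_f (i : ℕ) : P := if i = 1 then X 1 * X 2 else X i

private theorem tm1_f_mem (i : ℕ) : tm1_f i ∈ Pp := by
  unfold tm1_f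
  split_ifs
  · exact Pp_mul_left _ (X_mem 2)
  · exact X_mem i

private theorem tm1_sb (w : List ℕ) : sb tm1_f (mon w) = mon (tm1_e w) := by
  induction w with
  | nil => simp [mon_nil, tm1_e]
  | cons a w ih =>
    have h : tm1_e (a :: w) = (if a = 1 then [1, 2] else [a]) ++ tm1_e w := by
      unfold tm1_e
      rw [List.flatMap_cons]
    rw [mon_cons, map_mul, sb_X, ih, h, mon_append]
    unfold tm1_f
    by_cases h' : a = 1
    · rw [if_pos h', if_pos h', mon_cons, mon_single]
    · rw [if_neg h', if_neg h', mon_single]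

private theorem tm1_pow (a p : ℕ) : X a ^ p = mon (List.replicate p a) := by
  simp [mon]

private theorem tm1_mon (p : ℕ) : mon (List.replicate p 0 ++ [1, 2]) = X 0 ^ p * X 1 * X 2 := by
  rw [mon_append, mon_cons, mon_single, tm1_pow, mul_assoc]

/-- the words of length at least `m` in the class `qw p n` -/
private noncomputable def tm1_W (p n m : ℕ) : Submodule ℤ P :=
  Submodule.span ℤ {f | ∃ w : List ℕ, qw p n w ∧ m ≤ w.length ∧ f = mon w}

private theorem tm1_wp_Fge {p n m : ℕ} {f : P} (hf : f ∈ Fge m) : wp (qw p n) f ∈ tm1_W p n m := by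
  unfold Fge at hf
  induction hf using Submodule.span_induction with
  | mem x hx =>
    obtain ⟨w, hw, rfl⟩ := hx
    by_cases h : qw p n w
    · rw [wp_pos h]
      exact Submodule.subset_span ⟨w, h, hw, rfl⟩
    · rw [wp_neg h]
      exact Submodule.zero_mem _
  | zero => rw [map_zero]; exact Submodule.zero_mem _
  | add x y _ _ hx hy => rw [map_add]; exact Submodule.add_mem _ hx hy
  | smul c x _ hx => rw [map_smul]; exact Submodule.smul_mem _ _ hx

private theorem tm1_mod {p : ℕ} (h5 : 5 ≤ p) : p % (p - 1) = 1 := by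
  have h : p = 1 + (p - 1) := by omega
  conv_lhs => rw [h]
  rw [show 1 + (p - 1) - 1 = p - 1 by omega, Nat.add_mod_right]
  exact Nat.mod_eq_of_lt (by omega)

private theorem tm1_one {p : ℕ} (h5 : 5 ≤ p) : 1 % (p - 1) = 1 := Nat.mod_eq_of_lt (by omega)

private theorem tm1_qw2 {p : ℕ} (h5 : 5 ≤ p) : qw p 2 (List.replicate p 0 ++ [1]) := by
  refine ⟨?_, ?_⟩
  · intro i hi
    rw [List.mem_append, List.mem_replicate, List.mem_singleton] at hi
    omega
  · intro i hi
    rw [List.count_append, List.count_replicate]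
    have h : i = 0 ∨ i = 1 := by omega
    rcases h with rfl | rfl
    · simpa using tm1_mod h5
    · simpa using tm1_one h5

private theorem tm1_qw2' {p : ℕ} (h5 : 5 ≤ p) : qw p 2 (0 :: List.replicate p 1) := by
  refine ⟨?_, ?_⟩
  · intro i hi
    rw [List.mem_cons, List.mem_replicate] at hi
    omega
  · intro i hi
    rw [List.count_cons, List.count_replicate]
    have h : i = 0 ∨ i = 1 := by omega
    rcases h with rfl | rfl
    · simpa using tm1_one h5
    · simpa using tm1_mod h5

private theorem tm1_qw3 {p : ℕ} (h5 : 5 ≤ p) : qw p 3 (List.replicate p 0 ++ [1, 2]) := by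
  refine ⟨?_, ?_⟩
  · intro i hi
    rw [List.mem_append, List.mem_replicate, List.mem_cons, List.mem_singleton] at hi
    omega
  · intro i hi
    rw [List.count_append, List.count_replicate]
    have h : i = 0 ∨ i = 1 ∨ i = 2 := by omega
    rcases h with rfl | rfl | rfl
    · simpa using tm1_mod h5
    · simpa using tm1_one h5
    · simpa using tm1_one h5

private theorem tm1_mem_of_qw {p : ℕ} {n : ℕ} {w : List ℕ} (h : qw p n w) {i : ℕ} (hi : i < n) :
    1 ≤ w.count i := by
  have h1 := h.2 i hi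
  by_contra h2
  have h3 : w.count i = 0 := by omega
  rw [h3] at h1
  simp at h1

private theorem tm1_C {p : ℕ} {f : P} (hf : f ∈ Cn (p + 1)) : sb tm1_f (wp (qw p 2) f) ∈ Cn (p + 2) := by
  have h := wp_Cn (φ := qw p 2) (fun u v h => qw_perm h) hf
  generalize wp (qw p 2) f = g at h
  induction h using Submodule.span_induction with
  | mem x hx =>
    obtain ⟨u, v, i, j, hn, hq, rfl⟩ := hx
    have e : mon u * cm i j * mon v = mon (u ++ (i :: j :: v)) - mon (u ++ (j :: i :: v)) := by
      rw [mon_append, mon_append, mon_cons, mon_cons, mon_cons, mon_cons]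
      unfold cm
      rw [mul_sub, sub_mul]
      simp only [mul_assoc]
    rw [e, map_sub, tm1_sb, tm1_sb]
    have hp : (u ++ (i :: j :: v)).Perm (u ++ (j :: i :: v)) := List.Perm.append_left _ (List.Perm.swap _ _ _)
    refine Cn_anti ?_ (perm_Cn (tm1_e_perm hp))
    rw [tm1_e_len]
    have h1 := tm1_mem_of_qw hq (i := 1) (by omega)
    have h2 : (u ++ i :: j :: v).length = u.length + v.length + 2 := by simp; omega
    omega
  | zero => rw [map_zero]; exact Submodule.zero_mem _
  | add x y _ _ hx hy => rw [map_add]; exact Submodule.add_mem _ hx hy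
  | smul c x _ hx => rw [map_zsmul]; exact Submodule.smul_mem _ _ hx

private theorem tm1_F {p : ℕ} {f : P} (hf : f ∈ Fge (p + 2)) : sb tm1_f (wp (qw p 2) f) ∈ Fge (p + 3) := by
  have h := tm1_wp_Fge (p := p) (n := 2) hf
  generalize wp (qw p 2) f = g at h
  unfold tm1_W at h
  induction h using Submodule.span_induction with
  | mem x hx =>
    obtain ⟨w, hq, hn, rfl⟩ := hx
    rw [tm1_sb]
    have h1 := tm1_mem_of_qw hq (i := 1) (by omega)
    exact Submodule.subset_span ⟨tm1_e w, by rw [tm1_e_len]; omega, rfl⟩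
  | zero => rw [map_zero]; exact Submodule.zero_mem _
  | add x y _ _ hx hy => rw [map_add]; exact Submodule.add_mem _ hx hy
  | smul c x _ hx => rw [map_zsmul]; exact Submodule.smul_mem _ _ hx

private theorem tm1_e1 (p : ℕ) : tm1_e (List.replicate p 0 ++ [1]) = List.replicate p 0 ++ [1, 2] := by
  unfold tm1_e
  rw [List.flatMap_append]
  congr 1
  induction p with
  | zero => simp
  | succ p ih => rw [List.replicate_succ, List.flatMap_cons, ih]; simp

private theorem tm1_step1 {p : ℕ} {J : Submodule ℤ P} (hJ : Bas p J)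
    (h : X 0 ^ p * X 1 - X 0 * X 1 ^ p ∈ J ⊔ Cn (p + 1) ⊔ Fge (p + 2)) :
    X 0 ^ p * X 1 * X 2 ∈ (J ⊔ Cn (p + 2)) ⊔ Fge (p + 3) := by
  have h5 := hJ.five
  have e : X 0 ^ p * X 1 - X 0 * X 1 ^ p = mon (List.replicate p 0 ++ [1]) - mon (0 :: List.replicate p 1) := by
    rw [mon_append, mon_single, mon_cons, tm1_pow, tm1_pow]
  rw [e] at h
  obtain ⟨g, hg, f, hf, hgf⟩ := Submodule.mem_sup.1 h
  obtain ⟨j, hj, c, hc, hjc⟩ := Submodule.mem_sup.1 hg
  have h1 := congrArg (fun x => sb tm1_f (wp (qw p 2) x)) hgf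
  simp only [← hjc, map_add, map_sub] at h1
  rw [wp_pos (tm1_qw2 h5), wp_pos (tm1_qw2' h5), tm1_sb, tm1_sb, tm1_e1, tm1_mon] at h1
  have h2 : sb tm1_f (wp (qw p 2) j) ∈ J :=
    sb_mem hJ.isT tm1_f_mem (TOp_qw hJ.pp (by omega) 2 J hJ.isT hJ.mul.sq j hj)
  have h3 := tm1_C hc
  have h4 := tm1_F hf
  have h6 : mon (tm1_e (0 :: List.replicate p 1)) ∈ Fge (p + 3) := by
    refine Submodule.subset_span ⟨_, ?_, rfl⟩
    rw [tm1_e_len]
    simp
    omega
  have h7 : X 0 ^ p * X 1 * X 2 = (sb tm1_f (wp (qw p 2) j) + sb tm1_f (wp (qw p 2) c)) +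
      (sb tm1_f (wp (qw p 2) f) + mon (tm1_e (0 :: List.replicate p 1))) := by
    rw [← add_assoc, h1, sub_add_cancel]
  rw [h7]
  exact Submodule.add_mem _ (Submodule.mem_sup_left (Submodule.add_mem _ (Submodule.mem_sup_left h2)
    (Submodule.mem_sup_right h3))) (Submodule.mem_sup_right (Submodule.add_mem _ h4 h6))

private theorem tm1_step2 {p : ℕ} (hp : p.Prime) (h5 : 5 ≤ p) {T : Submodule ℤ P} (hT : IsT T) (hm : Mul p T)
    (h : X 0 ^ p * X 1 * X 2 ∈ T ⊔ Fge (p + 3)) : X 0 ^ p * X 1 * X 2 ∈ T ⊔ tm1_W p 3 (p + 3) := by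
  obtain ⟨t, ht, f, hf, htf⟩ := Submodule.mem_sup.1 h
  have h1 := congrArg (fun x => wp (qw p 3) x) htf
  simp only [map_add] at h1
  rw [← tm1_mon, wp_pos (tm1_qw3 h5)] at h1
  rw [← tm1_mon, ← h1]
  exact Submodule.add_mem _ (Submodule.mem_sup_left (TOp_qw hp (by omega) 3 T hT hm.sq t ht))
    (Submodule.mem_sup_right (tm1_wp_Fge hf))

private theorem tm1_big {p : ℕ} (h5 : 5 ≤ p) {w : List ℕ} (h : qw p 3 w) (hw : p + 3 ≤ w.length) :
    ∃ i, i < 3 ∧ p ≤ w.count i := by
  by_contra h'
  push Not at h'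
  have h1 : ∀ i, i < 3 → w.count i = 1 := by
    intro i hi
    have h2 := h.2 i hi
    have h3 := h' i hi
    rcases Nat.lt_or_ge (w.count i) (p - 1) with h4 | h4
    · rwa [Nat.mod_eq_of_lt h4] at h2
    · have h6 : w.count i = p - 1 := by omega
      rw [h6, Nat.mod_self] at h2
      omega
  have h2 : w.Perm (List.range 3) := by
    rw [List.perm_iff_count]
    intro a
    by_cases ha : a < 3
    · rw [h1 a ha, List.count_eq_one_of_mem List.nodup_range (List.mem_range.2 ha)]
    · rw [List.count_eq_zero.2 (fun h3 => ha (h.1 a h3)),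
        List.count_eq_zero.2 (fun h3 => ha (List.mem_range.1 h3))]
  have h3 := h2.length_eq
  rw [List.length_range] at h3
  omega

private theorem tm1_split {p : ℕ} {w : List ℕ} (hw : p + 2 ≤ w.length) {a : ℕ} (ha : p ≤ w.count a) :
    ∃ (y z : ℕ) (u : List ℕ), w.Perm (List.replicate p a ++ (y :: z :: u)) := by
  have h1 : (List.replicate p a).Subperm w := by
    rw [List.subperm_iff_count]
    intro b
    rw [List.count_replicate]
    split_ifs with h
    · have : a = b := by simpa using h
      rw [← this]; exact ha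
    · exact Nat.zero_le _
  obtain ⟨v', hv1, hv2⟩ := h1
  obtain ⟨v, hv3⟩ := hv2.exists_perm_append
  have hv : w.Perm (List.replicate p a ++ v) := hv3.trans (hv1.append_right v)
  have h2 := hv.length_eq
  rw [List.length_append, List.length_replicate] at h2
  match v, h2, hv with
  | [], h2, _ => simp at h2; omega
  | [_], h2, _ => simp at h2; omega
  | y :: z :: u, _, hv => exact ⟨y, z, u, hv⟩

private theorem tm1_step3 {p : ℕ} (h5 : 5 ≤ p) {T : Submodule ℤ P} (hT : IsT T) (hC : Cn (p + 2) ≤ T) {N : ℕ}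
    (hN : NilAt T N) (h : X 0 ^ p * X 1 * X 2 ∈ T ⊔ tm1_W p 3 (p + 3)) (k : ℕ) (w : List ℕ)
    (hw : p + 2 ≤ w.length) (hk : N ≤ w.length + k) (ha : ∃ a, p ≤ w.count a) : mon w ∈ T := by
  induction k generalizing w with
  | zero => exact hN w (by omega)
  | succ k ih =>
    obtain ⟨a, ha⟩ := ha
    obtain ⟨y, z, u, hu⟩ := tm1_split hw ha
    have h1 : mon w - mon (List.replicate p a ++ (y :: z :: u)) ∈ T := hC (Cn_anti hw (perm_Cn hu))
    have hl : w.length = p + 2 + u.length := by
      rw [hu.length_eq]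
      simp
      omega
    have h2 : mon (List.replicate p a ++ (y :: z :: u)) ∈ T := by
      obtain ⟨t, ht, f, hf, htf⟩ := Submodule.mem_sup.1 h
      let s : ℕ → ℕ := fun i => if i = 0 then a else if i = 1 then y else z
      have hs : ∀ v : List ℕ, sb (fun i => X (s i)) (mon v) = mon (v.map s) := by
        intro v
        rw [sb_mon]
        simp [mon, Function.comp_def]
      have hsm : ∀ i, (fun i => X (s i)) i ∈ Pp := fun i => X_mem _
      have h3 : mon (List.replicate p a ++ (y :: z :: u)) = sb (fun i => X (s i)) (X 0 ^ p * X 1 * X 2) * mon u := by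
        rw [← tm1_mon, hs, ← mon_append]
        congr 1
        simp [s]
      rw [h3, ← htf, map_add, add_mul]
      refine Submodule.add_mem _ (hT.mul_right _ (sb_mem hT hsm ht) _) ?_
      clear h3 htf
      unfold tm1_W at hf
      induction hf using Submodule.span_induction with
      | mem x hx =>
        obtain ⟨v, hq, hv, rfl⟩ := hx
        rw [hs, ← mon_append]
        obtain ⟨i, hi, hi'⟩ := tm1_big h5 hq hv
        refine ih _ ?_ ?_ ⟨s i, ?_⟩
        · rw [List.length_append, List.length_map]; omega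
        · rw [List.length_append, List.length_map]; omega
        · rw [List.count_append]
          have := List.count_le_count_map (l := v) (f := s) (x := i)
          omega
      | zero => rw [map_zero, zero_mul]; exact Submodule.zero_mem _
      | add x y _ _ hx hy => rw [map_add, add_mul]; exact Submodule.add_mem _ hx hy
      | smul c x _ hx => rw [map_zsmul, smul_mul_assoc]; exact Submodule.smul_mem _ _ hx
    have h3 := T.add_mem h1 h2
    rwa [sub_add_cancel] at h3

theorem Tm1 {p : ℕ} {J : Submodule ℤ P} (hJ : Bas p J)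
    (h : X 0 ^ p ∈ J ∨ X 0 ^ p * X 1 - X 0 * X 1 ^ p ∈ J ⊔ Cn (p + 1) ⊔ Fge (p + 2)) :
    X 0 ^ p * X 1 * X 2 ∈ J ⊔ Cn (p + 2) := by
  have h5 := hJ.five
  rcases h with h | h
  · exact Submodule.mem_sup_left (hJ.isT.mul_right _ (hJ.isT.mul_right _ h _) _)
  have hT : IsT (J ⊔ Cn (p + 2)) := isT_sup hJ.isT (isT_Cn _)
  have hm : Mul p (J ⊔ Cn (p + 2)) := hJ.mul.mono le_sup_left
  have h1 := tm1_step1 hJ h
  have h2 := tm1_step2 hJ.pp h5 hT hm h1
  obtain ⟨N, hN⟩ := hJ.nil
  have h3 := tm1_step3 h5 hT le_sup_right (fun w hw => Submodule.mem_sup_left (hN w hw)) h2 N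
    (List.replicate p 0 ++ [1, 2]) (by simp) (by simp)
    ⟨0, by simp⟩
  rwa [tm1_mon] at h3

end ADC
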