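import Pool.Agent.ADC.Z2

/-!
# ADC-Z5: type `g = 0`, `x^p y` is symmetric
-/

namespace ADC

open AD ADN

private theorem z5_split {w : List ℕ} {i p : ℕ} (h : p ≤ w.count i) :
    ∃ l : List ℕ, w.Perm (List.replicate p i ++ l) := by
  have h1 : Multiset.replicate p i ≤ (w : Multiset ℕ) := by
    rw [← Multiset.le_count_iff_replicate_le, Multiset.coe_count]
    exact h
  obtain ⟨t, ht⟩ := Multiset.le_iff_exists_add.1 h1
  induction t using Quotient.inductionOn with
  | h l =>
    refine ⟨l, ?_⟩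
    rw [← Multiset.coe_eq_coe, ht, ← Multiset.coe_add, Multiset.coe_replicate]
    rfl

private theorem z5_rep (p i : ℕ) : mon (List.replicate p i) = X i ^ p := by
  unfold mon
  rw [List.map_replicate, List.prod_replicate]

private theorem z5_t2 {p : ℕ} {J : Submodule ℤ P} (h : Tame p J 1 0) (i y z : ℕ) {v : List ℕ} (hv : v ≠ []) :
    X i ^ p * X y * X z * mon v ∈ J := by
  have h5 := h.five
  obtain ⟨g, hg, c, hc, hgc⟩ := Submodule.mem_sup.1 h.t2
  have hs : IsSubst (sb (fun j => if j = 0 then X i else if j = 1 then X y else X z)) := by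
    apply sb_isSubst
    intro j
    split_ifs <;> exact X_mem _
  have h6 : X i ^ p * X y * X z * mon v =
      sb (fun j => if j = 0 then X i else if j = 1 then X y else X z) g * mon v +
      sb (fun j => if j = 0 then X i else if j = 1 then X y else X z) c * mon v := by
    rw [← add_mul, ← map_add, hgc, map_mul, map_mul, map_pow, sb_X, sb_X, sb_X]
    simp
  rw [h6]
  refine J.add_mem (h.isT.mul_right _ (h.isT.subst _ hs g hg) _) ?_
  have h7 := Cn_to_Dn hv ((isT_Cn (p + 2)).subst _ hs c hc)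
  exact GenZ h (Dn_anti (by omega) h7)

private theorem z5_mod {p : ℕ} (hp : 3 ≤ p) : p % (p - 1) = 1 := by
  obtain ⟨q, rfl⟩ : ∃ q, p = q + 1 := ⟨p - 1, by omega⟩
  rw [Nat.add_sub_cancel, Nat.add_mod_left]
  exact Nat.mod_eq_of_lt (by omega)

private theorem z5_w1 (p : ℕ) : X 0 ^ p * X 1 = mon (List.replicate p 0 ++ [1]) := by
  rw [mon_append, z5_rep, mon_single]

private theorem z5_w2 (p : ℕ) : X 0 * X 1 ^ p = mon (0 :: List.replicate p 1) := by
  rw [mon_cons, z5_rep]

private theorem z5_w3 (p : ℕ) : X 1 ^ p * X 0 = mon (List.replicate p 1 ++ [0]) := by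
  rw [mon_append, z5_rep, mon_single]

private theorem z5_Z0 (p : ℕ) : Zw p 2 0 = X 0 ^ (p - 1) * (X 1 * X 0) := by
  unfold Zw
  have h : (List.range 2).erase 0 ++ [0] = [1, 0] := by decide
  rw [h, mon_append, z5_rep, mon_cons, mon_single]

private theorem z5_Z1 (p : ℕ) : Zw p 2 1 = X 1 ^ (p - 1) * (X 0 * X 1) := by
  unfold Zw
  have h : (List.range 2).erase 1 ++ [1] = [0, 1] := by decide
  rw [h, mon_append, z5_rep, mon_cons, mon_single]

private theorem z5_a {p : ℕ} (hp : 1 ≤ p) : X 0 ^ (p - 1) * cm 0 1 = X 0 ^ p * X 1 - Zw p 2 0 := by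
  have h : X 0 ^ p = X 0 ^ (p - 1) * X 0 := by rw [← pow_succ, Nat.sub_add_cancel hp]
  rw [z5_Z0, h, cm, mul_sub, mul_assoc]

private theorem z5_b {p : ℕ} (hp : 1 ≤ p) : X 1 ^ (p - 1) * cm 0 1 = Zw p 2 1 - X 1 ^ p * X 0 := by
  have h : X 1 ^ p = X 1 ^ (p - 1) * X 1 := by rw [← pow_succ, Nat.sub_add_cancel hp]
  rw [z5_Z1, h, cm, mul_sub, mul_assoc (X 1 ^ (p - 1)) (X 1)]

private theorem z5_word (u : List ℕ) : mon u * cm 0 1 = mon (u ++ [0, 1]) - mon (u ++ [1, 0]) := by
  unfold cm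
  rw [mon_append, mon_append, mon_cons 0 [1], mon_cons 1 [0], mon_single, mon_single, mul_sub]

theorem Zlong {p : ℕ} {J : Submodule ℤ P} (h : Tame p J 1 0) {w : List ℕ} (hw : p + 3 ≤ w.length) {i : ℕ}
    (hi : p ≤ w.dropLast.count i) : mon w ∈ J := by
  have h5 := h.five
  have hne : w ≠ [] := by
    rintro rfl
    simp at hw
  obtain ⟨l, hl⟩ := z5_split hi
  have hlen := hl.length_eq
  rw [List.length_dropLast, List.length_append, List.length_replicate] at hlen
  obtain ⟨y, l1, rfl⟩ := List.exists_cons_of_ne_nil (l := l) (by rintro rfl; simp at hlen; omega)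
  rw [List.length_cons] at hlen
  obtain ⟨z, u, rfl⟩ := List.exists_cons_of_ne_nil (l := l1) (by rintro rfl; simp at hlen; omega)
  rw [List.length_cons] at hlen
  obtain ⟨t, ht⟩ : ∃ t, t = w.getLast hne := ⟨_, rfl⟩
  have hw' : w.dropLast ++ [t] = w := by rw [ht, List.dropLast_append_getLast hne]
  have h1 := perm_Dn hl (w := [t]) (by simp)
  rw [hw', List.length_dropLast, List.length_singleton] at h1
  have h2 : mon (List.replicate p i ++ y :: z :: u ++ [t]) = X i ^ p * X y * X z * mon (u ++ [t]) := by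
    rw [mon_append, mon_append, z5_rep, mon_cons, mon_cons, mon_append]
    simp only [mul_assoc]
  rw [h2] at h1
  have h3 : mon w = (mon w - X i ^ p * X y * X z * mon (u ++ [t])) +
      X i ^ p * X y * X z * mon (u ++ [t]) := by abel
  rw [h3]
  exact J.add_mem (GenZ h (Dn_anti (by omega) h1)) (z5_t2 h i y z (by simp))

private theorem z5_core {p : ℕ} {J : Submodule ℤ P} (h : Tame p J 1 0) {u : List ℕ}
    (hq : qw p 2 (u ++ [0, 1])) (hu : p + 1 ≤ u.length + 2) :
    ∃ l m : ℤ, mon u * cm 0 1 - l • (X 0 ^ (p - 1) * cm 0 1) - m • (X 1 ^ (p - 1) * cm 0 1) ∈ J := by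
  have h5 := h.five
  obtain ⟨q, hpq⟩ : ∃ q, p = q + 1 := ⟨p - 1, by omega⟩
  have hq1 : p - 1 = q := by omega
  have c0 : (u ++ [0, 1]).count 0 = u.count 0 + 1 := by simp
  have c1 : (u ++ [0, 1]).count 1 = u.count 1 + 1 := by simp
  have hcard : u.count 0 + u.count 1 = u.length := by
    have h1 := Multiset.sum_count_eq_card (s := Finset.range 2) (m := (u : Multiset ℕ))
      (fun a ha => Finset.mem_range.2 (hq.1 a (List.mem_append_left _ (by simpa using ha))))
    rw [Finset.sum_range_succ, Finset.sum_range_one] at h1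
    simpa using h1
  have hdvd : ∀ a : ℕ, (a + 1) % (p - 1) = 1 → ∃ s, a = q * s := by
    intro a ha
    rw [hq1] at ha
    have h1 := Nat.div_add_mod (a + 1) q
    rw [ha] at h1
    exact ⟨(a + 1) / q, by omega⟩
  have e0 := hq.2 0 (by norm_num)
  have e1 := hq.2 1 (by norm_num)
  rw [c0] at e0
  rw [c1] at e1
  obtain ⟨s, hs⟩ := hdvd _ e0
  obtain ⟨t, ht⟩ := hdvd _ e1
  have hrep : ∀ a : ℕ, u.count a = u.length → mon u = X a ^ u.length := by
    intro a ha
    have h1 : u = List.replicate u.length a :=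
      List.eq_replicate_iff.2 ⟨rfl, fun b hb => (List.count_eq_length.1 ha b hb).symm⟩
    rw [← z5_rep, ← h1]
  rcases Nat.lt_or_ge (s + t) 2 with hst | hst
  · have h1 : (s = 0 ∧ t = 0) ∨ (s = 1 ∧ t = 0) ∨ (s = 0 ∧ t = 1) := by omega
    rcases h1 with ⟨rfl, rfl⟩ | ⟨rfl, rfl⟩ | ⟨rfl, rfl⟩
    · omega
    · refine ⟨1, 0, ?_⟩
      have h2 : u.length = p - 1 := by omega
      rw [hrep 0 (by omega), h2, one_smul, zero_smul, sub_self, sub_zero]
      exact J.zero_mem
    · refine ⟨0, 1, ?_⟩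
      have h2 : u.length = p - 1 := by omega
      rw [hrep 1 (by omega), h2, one_smul, zero_smul, sub_zero, sub_self]
      exact J.zero_mem
  · refine ⟨0, 0, ?_⟩
    rw [zero_smul, zero_smul, sub_zero, sub_zero, z5_word]
    have hlen : 2 * q ≤ u.length := by
      have h1 : q * 2 ≤ q * (s + t) := Nat.mul_le_mul_left q hst
      rw [mul_add] at h1
      omega
    have d0 : (u ++ [0, 1]).dropLast = u ++ [0] := by
      have h1 : u ++ [0, 1] = (u ++ [0]) ++ [1] := by simp
      rw [h1, List.dropLast_concat]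
    have d1 : (u ++ [1, 0]).dropLast = u ++ [1] := by
      have h1 : u ++ [1, 0] = (u ++ [1]) ++ [0] := by simp
      rw [h1, List.dropLast_concat]
    have big : ∀ n : ℕ, 1 ≤ n → q ≤ q * n := fun n hn => Nat.le_mul_of_pos_right q hn
    have big2 : ∀ n : ℕ, 2 ≤ n → 2 * q ≤ q * n := fun n hn => by
      rw [mul_comm]
      exact Nat.mul_le_mul_left q hn
    refine J.sub_mem ?_ ?_
    · rcases Nat.eq_zero_or_pos s with h0 | h0
      · refine Zlong h (i := 1) (by simp; omega) ?_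
        rw [d0]
        have h1 := big2 t (by omega)
        have h2 : (u ++ [0]).count 1 = u.count 1 := by simp
        omega
      · refine Zlong h (i := 0) (by simp; omega) ?_
        rw [d0]
        have h1 := big s h0
        have h2 : (u ++ [0]).count 0 = u.count 0 + 1 := by simp
        omega
    · rcases Nat.eq_zero_or_pos t with h0 | h0
      · refine Zlong h (i := 0) (by simp; omega) ?_
        rw [d1]
        have h1 := big2 s (by omega)
        have h2 : (u ++ [1]).count 0 = u.count 0 := by simp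
        omega
      · refine Zlong h (i := 1) (by simp; omega) ?_
        rw [d1]
        have h1 := big t h0
        have h2 : (u ++ [1]).count 1 = u.count 1 + 1 := by simp
        omega

private theorem z5_span {p : ℕ} {J : Submodule ℤ P} (h : Tame p J 1 0) {f : P}
    (hf : f ∈ Submodule.span ℤ {f | ∃ (u v : List ℕ) (i j : ℕ), p + 1 ≤ u.length + v.length + 2 ∧
      qw p 2 (u ++ i :: j :: v) ∧ f = mon u * cm i j * mon v}) :
    ∃ l m : ℤ, f - l • (X 0 ^ (p - 1) * cm 0 1) - m • (X 1 ^ (p - 1) * cm 0 1) ∈ J := by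
  have h5 := h.five
  induction hf using Submodule.span_induction with
  | mem x hx =>
    obtain ⟨u, v, i, j, hl, hq, rfl⟩ := hx
    by_cases hv : v = []
    · subst hv
      rw [mon_nil, mul_one]
      rw [List.length_nil, add_zero] at hl
      have hi : i < 2 := hq.1 i (by simp)
      have hj : j < 2 := hq.1 j (by simp)
      have h1 : (i = 0 ∧ j = 0) ∨ (i = 0 ∧ j = 1) ∨ (i = 1 ∧ j = 0) ∨ (i = 1 ∧ j = 1) := by omega
      rcases h1 with ⟨rfl, rfl⟩ | ⟨rfl, rfl⟩ | ⟨rfl, rfl⟩ | ⟨rfl, rfl⟩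
      · refine ⟨0, 0, ?_⟩
        rw [cm, sub_self, mul_zero, zero_smul, zero_smul, sub_zero, sub_zero]
        exact J.zero_mem
      · exact z5_core h hq hl
      · have h2 : qw p 2 (u ++ [0, 1]) :=
          (qw_perm (List.Perm.append_left u (List.Perm.swap 1 0 []))).2 hq
        obtain ⟨l, m, h3⟩ := z5_core h h2 hl
        refine ⟨-l, -m, ?_⟩
        have h4 : mon u * cm 1 0 - (-l) • (X 0 ^ (p - 1) * cm 0 1) - (-m) • (X 1 ^ (p - 1) * cm 0 1) =
            -(mon u * cm 0 1 - l • (X 0 ^ (p - 1) * cm 0 1) - m • (X 1 ^ (p - 1) * cm 0 1)) := by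
          have h5 : cm 1 0 = -cm 0 1 := by
            unfold cm
            abel
          rw [h5, mul_neg, neg_smul, neg_smul]
          abel
        rw [h4]
        exact J.neg_mem h3
      · refine ⟨0, 0, ?_⟩
        rw [cm, sub_self, mul_zero, zero_smul, zero_smul, sub_zero, sub_zero]
        exact J.zero_mem
    · refine ⟨0, 0, ?_⟩
      rw [zero_smul, zero_smul, sub_zero, sub_zero]
      refine GenZ h (Dn_anti (show 4 ≤ p + 1 by omega) ?_)
      exact Submodule.subset_span ⟨u, v, i, j, hv, hl, rfl⟩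
  | zero =>
    refine ⟨0, 0, ?_⟩
    rw [zero_smul, zero_smul, sub_zero, sub_zero]
    exact J.zero_mem
  | add x y _ _ hx hy =>
    obtain ⟨l, m, h1⟩ := hx
    obtain ⟨l', m', h2⟩ := hy
    refine ⟨l + l', m + m', ?_⟩
    have h3 := J.add_mem h1 h2
    have h4 : x + y - (l + l') • (X 0 ^ (p - 1) * cm 0 1) - (m + m') • (X 1 ^ (p - 1) * cm 0 1) =
        x - l • (X 0 ^ (p - 1) * cm 0 1) - m • (X 1 ^ (p - 1) * cm 0 1) +
        (y - l' • (X 0 ^ (p - 1) * cm 0 1) - m' • (X 1 ^ (p - 1) * cm 0 1)) := by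
      rw [add_smul, add_smul]
      abel
    rw [h4]
    exact h3
  | smul k x _ hx =>
    obtain ⟨l, m, h1⟩ := hx
    refine ⟨k * l, k * m, ?_⟩
    have h3 := J.smul_mem k h1
    rw [smul_sub, smul_sub, smul_smul, smul_smul] at h3
    exact h3

theorem Z5 {p : ℕ} {J : Submodule ℤ P} (h : Tame p J 1 0) :
    Cn (p + 1) ≤ J ∨ X 0 ^ p * X 1 - X 1 ^ p * X 0 ∈ J := by
  have h5 := h.five
  have hpp := h.pp
  have hJ := h.isT
  have h3 : 3 ≤ p := by omega
  have hDp : Dn (p + 1) ≤ J := (Dn_anti (by omega)).trans (GenZ h)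
  have hm0 := z5_mod h3
  have hm1 : 1 % (p - 1) = 1 := Nat.mod_eq_of_lt (by omega)
  obtain ⟨g, hg, c, hc, hgc⟩ := Submodule.mem_sup.1 h.t3
  have q1 : qw p 2 (List.replicate p 0 ++ [1]) := by
    refine ⟨fun i hi => ?_, fun i hi => ?_⟩
    · rcases List.mem_append.1 hi with h1 | h1
      · rw [List.eq_of_mem_replicate h1]
        norm_num
      · rw [List.mem_singleton.1 h1]
        norm_num
    · have h1 : i = 0 ∨ i = 1 := by omega
      rcases h1 with rfl | rfl
      · have h2 : (List.replicate p 0 ++ [1]).count 0 = p := by simp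
        rw [h2, hm0]
      · have h2 : (List.replicate p 0 ++ [1]).count 1 = 1 := by
          rw [List.count_append, List.count_replicate]
          simp
        rw [h2, hm1]
  have q2 : qw p 2 (0 :: List.replicate p 1) := by
    refine ⟨fun i hi => ?_, fun i hi => ?_⟩
    · rcases List.mem_cons.1 hi with h1 | h1
      · rw [h1]
        norm_num
      · rw [List.eq_of_mem_replicate h1]
        norm_num
    · have h1 : i = 0 ∨ i = 1 := by omega
      rcases h1 with rfl | rfl
      · have h2 : (0 :: List.replicate p 1).count 0 = 1 := by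
          rw [List.count_cons, List.count_replicate]
          simp
        rw [h2, hm1]
      · have h2 : (0 :: List.replicate p 1).count 1 = p := by
          rw [List.count_cons, List.count_replicate]
          simp
        rw [h2, hm0]
  have e1 : wp (qw p 2) (X 0 ^ p * X 1 - X 0 * X 1 ^ p) = X 0 ^ p * X 1 - X 0 * X 1 ^ p := by
    rw [z5_w1, z5_w2, map_sub, wp_pos q1, wp_pos q2]
  have h1 := wp_Cn (φ := qw p 2) (fun u v h => qw_perm h) hc
  obtain ⟨l, m, hlm⟩ := z5_span h h1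
  have h2 : X 0 ^ p * X 1 - X 0 * X 1 ^ p - l • (X 0 ^ (p - 1) * cm 0 1) -
      m • (X 1 ^ (p - 1) * cm 0 1) ∈ J := by
    rw [← e1, ← hgc, map_add, add_sub_assoc, add_sub_assoc]
    exact J.add_mem (TOp_qw hpp h3 2 J hJ h.mul.sq g hg) hlm
  have h4 : X 0 * X 1 ^ p - Zw p 2 1 ∈ J := by
    have g1 : ([0] ++ List.replicate (p - 1) 1).Perm (List.replicate (p - 1) 1 ++ [0]) :=
      List.perm_append_comm
    have g2 := perm_Dn g1 (w := [1]) (by simp)
    have g3 : mon (([0] ++ List.replicate (p - 1) 1) ++ [1]) = X 0 * X 1 ^ p := by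
      rw [mon_append, mon_append, mon_single, z5_rep, mon_single, mul_assoc, ← pow_succ,
        Nat.sub_add_cancel (by omega)]
    have g4 : mon ((List.replicate (p - 1) 1 ++ [0]) ++ [1]) = Zw p 2 1 := by
      rw [z5_Z1, mon_append, mon_append, mon_single, z5_rep, mon_single, mul_assoc]
    rw [g3, g4] at g2
    refine hDp (Dn_anti ?_ g2)
    simp
    omega
  rw [z5_a (by omega), z5_b (by omega)] at h2
  have hA1 := X_mem 0
  have hAm : X 0 ^ p * X 1 ∈ Pp := Pp_mul_left _ (X_mem 1)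
  have hBm : X 1 ^ p * X 0 ∈ Pp := Pp_mul_left _ (X_mem 0)
  have hZ0m : Zw p 2 0 ∈ Pp := by
    rw [z5_Z0]
    exact Pp_mul_left _ (Pp_mul_left _ (X_mem 0))
  have hZ1m : Zw p 2 1 ∈ Pp := by
    rw [z5_Z1]
    exact Pp_mul_left _ (Pp_mul_left _ (X_mem 1))
  obtain ⟨dA, dA'⟩ := del_pow hpp h5 hJ h.mul hDp (x := 0) (y := 1) (by norm_num) (by norm_num)
    (by norm_num)
  obtain ⟨dB, dB'⟩ := del_pow hpp h5 hJ h.mul hDp (x := 1) (y := 0) (by norm_num) (by norm_num)
    (by norm_num)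
  have dZ0 := del_Zw_ne h3 (L := 2) (x := 1) (y := 0) (by norm_num) (by norm_num) (by norm_num)
  have dZ1 := del_Zw_ne h3 (L := 2) (x := 0) (y := 1) (by norm_num) (by norm_num) (by norm_num)
  have hcn := fun (x : ℕ) (hx : x < 2) (μ : ℤ) (hμ : ¬ (p : ℤ) ∣ μ) =>
    del_Zw hpp h5 hJ h.mul (L := 2) (le_refl 2) (by
      have : 2 + p - 1 = p + 1 := by omega
      rw [this]
      exact hDp) hx hμ
  have e2 : 2 + p - 1 = p + 1 := by omega
  rw [e2] at hcn
  obtain ⟨A, hA⟩ : ∃ A, A = X 0 ^ p * X 1 := ⟨_, rfl⟩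
  obtain ⟨B, hB⟩ : ∃ B, B = X 1 ^ p * X 0 := ⟨_, rfl⟩
  obtain ⟨Y, hY⟩ : ∃ Y, Y = X 0 * X 1 ^ p := ⟨_, rfl⟩
  obtain ⟨Z0, hZ0⟩ : ∃ Z0, Z0 = Zw p 2 0 := ⟨_, rfl⟩
  obtain ⟨Z1, hZ1⟩ : ∃ Z1, Z1 = Zw p 2 1 := ⟨_, rfl⟩
  rw [← hA, ← hB, ← hY, ← hZ0, ← hZ1] at h2
  rw [← hY, ← hZ1] at h4
  rw [← hA] at hAm dA dA' ⊢
  rw [← hB] at hBm dB dB' ⊢
  rw [← hZ0] at hZ0m dZ0
  rw [← hZ1] at hZ1m dZ1
  have hr : A - l • (A - Z0) - (m • (Z1 - B) + Z1) ∈ J := by
    have := J.add_mem h2 h4
    have e : A - Y - l • (A - Z0) - m • (Z1 - B) + (Y - Z1) =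
        A - l • (A - Z0) - (m • (Z1 - B) + Z1) := by abel
    rwa [e] at this
  by_cases hl : (p : ℤ) ∣ l
  · by_cases hm : (p : ℤ) ∣ 1 + m
    · right
      obtain ⟨l', hl'⟩ := hl
      obtain ⟨m', hm'⟩ := hm
      have e : A - B = (A - l • (A - Z0) - (m • (Z1 - B) + Z1)) +
          ((p : ℤ) • (l' • (A - Z0)) + (p : ℤ) • (m' • (Z1 - B))) := by
        rw [smul_smul, smul_smul, ← hl', ← hm', add_smul, one_smul]
        abel
      rw [e]
      exact J.add_mem hr (J.add_mem (h.mul _ (Pp.smul_mem _ (Pp.sub_mem hAm hZ0m)))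
        (h.mul _ (Pp.smul_mem _ (Pp.sub_mem hZ1m hBm))))
    · left
      refine hcn 1 (by norm_num) _ hm ?_
      rw [← hZ1]
      have g1 := TOp_del hpp h3 1 2 J hJ h.mul.sq _ hr
      rw [map_sub, map_sub, map_add, map_smul, map_smul, map_sub, map_sub, dA', dZ0] at g1
      have e : (1 + m) • del p 1 2 Z1 = m • del p 1 2 B -
          (0 - l • (0 - 0) - (m • (del p 1 2 Z1 - del p 1 2 B) + del p 1 2 Z1)) := by
        module
      rw [e]
      exact J.sub_mem (J.smul_mem _ dB) g1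
  · left
    refine hcn 0 (by norm_num) _ hl ?_
    rw [← hZ0]
    have g1 := TOp_del hpp h3 0 2 J hJ h.mul.sq _ hr
    rw [map_sub, map_sub, map_add, map_smul, map_smul, map_sub, map_sub, dB', dZ1] at g1
    have e : l • del p 0 2 Z0 = (del p 0 2 A - l • (del p 0 2 A - del p 0 2 Z0) - (m • (0 - 0) + 0)) -
        (del p 0 2 A - l • del p 0 2 A) := by
      module
    rw [e]
    exact J.sub_mem g1 (J.sub_mem dA (J.smul_mem _ dA))

end ADC
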